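import Pool.Agent.H4G.Six.Defs
import Pool.Agent.H4G.Arith.State

/-!
# The block lemma for E6 trees (MP_4f7c28, part (i))

The pairs `(l, q)` with `cr u l > 0`, `cr q l > 0` and the same lattice `⟨l, u + q⟩` are joined by the
twists `q ↦ q + l` and `l ↦ l + (u + q)`.
-/

set_option autoImplicit false

namespace Pool.Agent.H4G.Six

open Pool.Agent.H4G

/-- The pair is positive. -/
def PosB (u l q : Z2) : Prop := 0 < cr u l ∧ 0 < cr q l

/-- An equivalence relation on pairs which contains the two twists. -/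
structure BRel (u : Z2) (E : Z2 × Z2 → Z2 × Z2 → Prop) : Prop where
  refl : ∀ a, E a a
  symm : ∀ a b, E a b → E b a
  trans : ∀ a b c, E a b → E b c → E a c
  tq : ∀ l q, PosB u l q → E (l, q) (l, q + l)
  tl : ∀ l q, PosB u l q → PosB u (l + (u + q)) q → E (l, q) (l + (u + q), q)

namespace BRel

variable {u : Z2} {E : Z2 × Z2 → Z2 × Z2 → Prop}

theorem tqk (hE : BRel u E) {l q : Z2} (hp : PosB u l q) (k : ℤ) : E (l, q) (l, q + k • l) := by
  have hpos : ∀ k : ℤ, PosB u l (q + k • l) := by
    intro k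
    obtain ⟨h1, h2⟩ := hp
    refine ⟨h1, ?_⟩
    rw [cr_add_left, cr_smul_left, cr_self]; simpa using h2
  induction k using Int.induction_on with
  | zero => simpa using hE.refl _
  | succ n ih =>
    refine hE.trans _ _ _ ih ?_
    have := hE.tq l _ (hpos n)
    rw [add_assoc, ← add_one_zsmul] at this
    exact this
  | pred n ih =>
    refine hE.trans _ _ _ ih ?_
    have := hE.tq l _ (hpos (-n - 1))
    rw [add_assoc, ← add_one_zsmul, sub_add_cancel] at this
    exact hE.symm _ _ this

/-- the basic flip; `p = u + q` -/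
theorem blk (hE : BRel u E) {l p : Z2} (hp : PosB u l (p - u)) (k : ℤ)
    (h1 : 0 < cr u (k • l + p)) (h2 : cr u (k • l + p) < cr p l) :
    E (l, p - u) (k • l + p, -l - u) := by
  refine hE.trans _ _ _ (hE.tqk hp (k - 1)) ?_
  obtain ⟨g1, g2⟩ := hp
  have e1 : l + (u + (p - u + (k - 1) • l)) = k • l + p := by
    rw [sub_smul, one_smul]; abel
  have g3 : PosB u l (p - u + (k - 1) • l) := by
    refine ⟨g1, ?_⟩
    rw [cr_add_left, cr_smul_left, cr_self]; simpa using g2
  have g4 : 0 < cr (p - u + (k - 1) • l) (k • l + p) := by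
    have : cr (p - u + (k - 1) • l) (k • l + p) = cr p l - cr u (k • l + p) := by
      simp only [cr_add_left, cr_add_right, cr_smul_left, cr_smul_right, cr_self, cr_sub_left]
      rw [cr_swap l p]; ring
    rw [this]; linarith
  have hm := hE.tl l (p - u + (k - 1) • l) g3 (by rw [e1]; exact ⟨h1, g4⟩)
  rw [e1] at hm
  refine hE.trans _ _ _ hm ?_
  have := hE.tqk (l := k • l + p) (q := p - u + (k - 1) • l) ⟨h1, g4⟩ (-1)
  have e2 : p - u + (k - 1) • l + (-1 : ℤ) • (k • l + p) = -l - u := by
    rw [neg_smul, one_smul, sub_smul, one_smul]; abel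
  rw [e2] at this
  exact this

/-- the basic flip, second form -/
theorem blk' (hE : BRel u E) {l p : Z2} (hp : PosB u l (p - u)) (k : ℤ)
    (h1 : 0 < cr u (k • l - p)) (h2 : cr u (k • l - p) < cr p l) :
    E (l, p - u) (k • l - p, l - u) := by
  refine hE.trans _ _ _ (hE.tqk hp (1 - k)) ?_
  obtain ⟨g1, g2⟩ := hp
  have e1 : (k • l - p) + (u + (p - u + (1 - k) • l)) = l := by
    rw [sub_smul, one_smul]; abel
  have g3 : PosB u l (p - u + (1 - k) • l) := by
    refine ⟨g1, ?_⟩
    rw [cr_add_left, cr_smul_left, cr_self]; simpa using g2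
  have g4 : 0 < cr (p - u + (1 - k) • l) (k • l - p) := by
    have : cr (p - u + (1 - k) • l) (k • l - p) = cr p l - cr u (k • l - p) := by
      simp only [cr_add_left, cr_sub_left, cr_sub_right, cr_smul_left, cr_smul_right, cr_self]
      rw [cr_swap l p]; ring
    rw [this]; linarith
  have hm := hE.tl (k • l - p) (p - u + (1 - k) • l) ⟨h1, g4⟩ (by rw [e1]; exact g3)
  rw [e1] at hm
  refine hE.trans _ _ _ (hE.symm _ _ hm) ?_
  have := hE.tqk (l := k • l - p) (q := p - u + (1 - k) • l) ⟨h1, g4⟩ 1
  have e2 : p - u + (1 - k) • l + (1 : ℤ) • (k • l - p) = l - u := by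
    rw [one_smul, sub_smul, one_smul]; abel
  rw [e2] at this
  exact this

theorem aux (hE : BRel u E) (n : ℕ) : ∀ (p l l1 p1 : Z2) (α β γ δ : ℤ), β.natAbs = n →
    PosB u l (p - u) → l1 = α • l + β • p → p1 = γ • l + δ • p → IsCoprime α β →
    0 < cr u l1 → cr u l1 < cr p l → cr p1 l1 = cr p l →
    E (l, p - u) (l1, p1 - u) := by
  induction n using Nat.strong_induction_on with
  | _ n ih =>
  intro p l l1 p1 α β γ δ hn hp hl1 hp1 hco h1 h2 h3
  have hlu : 0 < cr u l := hp.1
  have hpl : 0 < cr p l := by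
    have := hp.2
    rw [cr_sub_left] at this
    linarith
  have hdet : α * δ - β * γ = 1 := by
    have e : cr p1 l1 = (α * δ - β * γ) * cr p l := by
      rw [hl1, hp1]
      simp only [cr_add_left, cr_add_right, cr_smul_left, cr_smul_right, cr_self]
      rw [cr_swap l p]; ring
    rw [h3] at e
    have : (α * δ - β * γ - 1) * cr p l = 0 := by linarith
    rcases mul_eq_zero.1 this with h | h
    · linarith
    · exact absurd h hpl.ne'
  by_cases hβ : β = 0
  · subst hβ
    have hα : α = 1 := by
      have hu : IsUnit α := by rwa [isCoprime_zero_right] at hco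
      rcases Int.isUnit_iff.1 hu with h | h
      · exact h
      · exfalso
        rw [hl1, h, zero_smul, add_zero, neg_smul, one_smul, cr_neg_right] at h1
        linarith
    have hδ : δ = 1 := by rw [hα] at hdet; linarith
    have e1 : l1 = l := by rw [hl1, hα]; simp
    have e2 : p1 - u = p - u + γ • l := by rw [hp1, hδ, one_smul]; abel
    rw [e1, e2]
    exact hE.tqk hp γ
  · set D : ℤ := (β.natAbs : ℤ) with hD
    have hDpos : 0 < D := Int.natCast_pos.2 (Int.natAbs_pos.2 hβ)
    set s := (α - 1) / D with hs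
    set r := (α - 1) % D + 1 with hr
    have hα : α = r + D * s := by
      have := Int.emod_add_mul_ediv (α - 1) D
      rw [hr, hs]; linarith
    have hr1 : 1 ≤ r := by
      have := Int.emod_nonneg (α - 1) hDpos.ne'
      linarith
    have hr2 : r ≤ D := by
      have := Int.emod_lt_of_pos (α - 1) hDpos
      linarith
    have hco' : IsCoprime D (D - r) := by
      have h4 : IsCoprime α D := by
        rcases Int.natAbs_eq β with h | h
        · rw [h] at hco; exact hco
        · rw [h] at hco; exact (IsCoprime.neg_right_iff _ _).1 hco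
      rw [hα] at h4
      have h5 : IsCoprime r D := by
        have := IsCoprime.add_mul_left_left_iff (x := r) (y := D) (z := s)
        exact this.1 h4
      have h6 : IsCoprime D (-r) := (IsCoprime.neg_right_iff _ _).2 h5.symm
      have h7 := (IsCoprime.add_mul_left_right_iff (x := D) (y := -r) (z := 1)).2 h6
      have e : -r + D * 1 = D - r := by ring
      rwa [e] at h7
    have hnat : (D - r).natAbs < n := by
      rw [← hn]; omega
    have hnat' : (r - D).natAbs < n := by
      rw [← hn]; omega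
    -- the size of the new vector
    have key : ∀ l2 : Z2, l1 = (r - D) • l + D • l2 → 0 < cr u l2 ∧ cr u l2 < cr p l := by
      intro l2 e
      have e1 : D * cr u l2 = cr u l1 + (D - r) * cr u l := by
        rw [e, cr_add_right, cr_smul_right, cr_smul_right]; ring
      have hlu2 : cr u l < cr p l := by
        have := hp.2
        rw [cr_sub_left] at this
        linarith
      have hnn : 0 ≤ (D - r) * cr u l := mul_nonneg (by linarith) hlu.le
      constructor
      · by_contra hneg
        push Not at hneg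
        have : D * cr u l2 ≤ 0 := mul_nonpos_of_nonneg_of_nonpos hDpos.le hneg
        linarith
      · have h8 : (D - r) * cr u l ≤ (D - 1) * cr p l := by
          have h9 : (D - r) * cr u l ≤ (D - r) * cr p l :=
            mul_le_mul_of_nonneg_left hlu2.le (by linarith)
          have h10 : (D - r) * cr p l ≤ (D - 1) * cr p l :=
            mul_le_mul_of_nonneg_right (by linarith) hpl.le
          linarith
        by_contra hge
        push Not at hge
        have : D * cr p l ≤ D * cr u l2 := mul_le_mul_of_nonneg_left hge hDpos.le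
        have h11 : (D - 1) * cr p l = D * cr p l - cr p l := by ring
        linarith
    rcases Int.natAbs_eq β with hb | hb
    · -- β = D
      have hβD : β = D := hb
      set l2 := (s + 1) • l + p with hl2
      have el1 : l1 = (r - D) • l + D • l2 := by
        rw [hl1, hl2, hβD, hα]
        module
      obtain ⟨k1, k2⟩ := key l2 el1
      have hstep := hE.blk hp (s + 1) k1 k2
      rw [← hl2] at hstep
      have ecr : cr (-l) l2 = cr p l := by
        rw [hl2, cr_neg_left, cr_add_right, cr_smul_right, cr_self, cr_swap l p]; ring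
      refine hE.trans _ _ _ hstep ?_
      refine ih _ hnat (-l) l2 l1 p1 D (D - r) δ ((s + 1) * δ - γ) rfl ?_ ?_ ?_
        hco' h1 (by rw [ecr]; exact h2) (by rw [ecr]; exact h3)
      · refine ⟨k1, ?_⟩
        rw [cr_sub_left, ecr]; linarith
      · rw [el1]; module
      · rw [hp1, hl2]; module
    · have hβD : β = -D := hb
      set l2 := (s + 1) • l - p with hl2
      have el1 : l1 = (r - D) • l + D • l2 := by
        rw [hl1, hl2, hβD, hα]
        module
      obtain ⟨k1, k2⟩ := key l2 el1
      have hstep := hE.blk' hp (s + 1) k1 k2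
      rw [← hl2] at hstep
      have ecr : cr l l2 = cr p l := by
        rw [hl2, cr_sub_right, cr_smul_right, cr_self, cr_swap l p]; ring
      refine hE.trans _ _ _ hstep ?_
      refine ih _ hnat' l l2 l1 p1 D (r - D) (-δ) (γ + (s + 1) * δ) rfl ?_ ?_ ?_
        ?_ h1 (by rw [ecr]; exact h2) (by rw [ecr]; exact h3)
      · refine ⟨k1, ?_⟩
        rw [cr_sub_left, ecr]; linarith
      · rw [el1]; module
      · rw [hp1, hl2]; module
      · have := (IsCoprime.neg_right_iff _ _).2 hco'
        rwa [neg_sub] at this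

/-- **BLOCK LEMMA.** -/
theorem block (hE : BRel u E) {l q l1 q1 : Z2} (h : PosB u l q) (h1 : PosB u l1 q1)
    (hL : lat l (u + q) = lat l1 (u + q1)) : E (l, q) (l1, q1) := by
  have e1 : cr (u + q) l = cr u l + cr q l := cr_add_left _ _ _
  have e2 : cr (u + q1) l1 = cr u l1 + cr q1 l1 := cr_add_left _ _ _
  obtain ⟨x1, x2⟩ := h
  obtain ⟨y1, y2⟩ := h1
  obtain ⟨α, β, γ, δ, f1, f2, f3, f4⟩ := basis_change hL.symm (by rw [e1]; linarith)
    (by rw [e2]; linarith)
  have := hE.aux _ (u + q) l l1 (u + q1) α β γ δ rfl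
    (by rw [add_sub_cancel_left]; exact ⟨x1, x2⟩) f1 f2 (coprime_of_det f3) y1
    (by rw [← f4, e2]; linarith) f4
  rw [add_sub_cancel_left, add_sub_cancel_left] at this
  exact this

end BRel

/-! ## Trees -/

theorem CEq6.refl (c : C6) : CEq6 c c := Relation.EqvGen.refl c

theorem CEq6.symm {c c' : C6} (h : CEq6 c c') : CEq6 c' c := Relation.EqvGen.symm _ _ h

theorem CEq6.trans {c c' c'' : C6} (h : CEq6 c c') (h' : CEq6 c' c'') : CEq6 c c'' :=
  Relation.EqvGen.trans _ _ _ h h'

theorem CEq6.mv {c c' : C6} (hp : Pos6 c) (h : Mv6 c c') : CEq6 c c' :=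
  Relation.EqvGen.rel _ _ ⟨hp, h⟩

/-- the block lemma for the torus `L` -/
theorem CEq6.blockL {u v l q m s l1 q1 : Z2} (hp : Pos6 (u, v, l, q, m, s)) (h1 : 0 < cr u l1)
    (h2 : 0 < cr q1 l1) (hL : lat l (u + q) = lat l1 (u + q1)) :
    CEq6 (u, v, l, q, m, s) (u, v, l1, q1, m, s) := by
  obtain ⟨g1, g2, g3, g4, g5⟩ := hp
  have hE : BRel u (fun a b => CEq6 (u, v, a.1, a.2, m, s) (u, v, b.1, b.2, m, s)) := by
    refine ⟨fun a => CEq6.refl _, fun a b h => h.symm, fun a b c h h' => h.trans h', ?_, ?_⟩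
    · intro l q h
      exact CEq6.mv ⟨g1, h.1, g3, h.2, g5⟩ (Mv6.tq u v l q m s)
    · intro l q h h'
      exact CEq6.mv ⟨g1, h.1, g3, h.2, g5⟩ (Mv6.tl u v l q m s h'.1 h'.2)
  exact hE.block ⟨g2, g4⟩ ⟨h1, h2⟩ hL

/-- the block lemma for the torus `M` -/
theorem CEq6.blockM {u v l q m s m1 s1 : Z2} (hp : Pos6 (u, v, l, q, m, s)) (h1 : 0 < cr u m1)
    (h2 : 0 < cr s1 m1) (hL : lat m (u + s) = lat m1 (u + s1)) :
    CEq6 (u, v, l, q, m, s) (u, v, l, q, m1, s1) := by
  obtain ⟨g1, g2, g3, g4, g5⟩ := hp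
  have hE : BRel u (fun a b => CEq6 (u, v, l, q, a.1, a.2) (u, v, l, q, b.1, b.2)) := by
    refine ⟨fun a => CEq6.refl _, fun a b h => h.symm, fun a b c h h' => h.trans h', ?_, ?_⟩
    · intro m s h
      exact CEq6.mv ⟨g1, g2, h.1, g4, h.2⟩ (Mv6.ts u v l q m s)
    · intro m s h h'
      exact CEq6.mv ⟨g1, g2, h.1, g4, h.2⟩ (Mv6.tm u v l q m s h'.1 h'.2)
  exact hE.block ⟨g3, g5⟩ ⟨h1, h2⟩ hL

/-- `v` can be changed by multiples of `u` -/
theorem CEq6.vk {u v l q m s : Z2} (hp : Pos6 (u, v, l, q, m, s)) (k : ℤ) :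
    CEq6 (u, v, l, q, m, s) (u, v + k • u, l, q, m, s) := by
  have hpos : ∀ k : ℤ, Pos6 (u, v + k • u, l, q, m, s) := by
    intro k
    obtain ⟨h1, h2⟩ := hp
    refine ⟨?_, h2⟩
    rw [cr_add_right, cr_smul_right, cr_self]; simpa using h1
  induction k using Int.induction_on with
  | zero => simpa using CEq6.refl _
  | succ n ih =>
    refine ih.trans ?_
    have := CEq6.mv (hpos n) (Mv6.tv u _ l q m s)
    rw [add_assoc, ← add_one_zsmul] at this
    exact this
  | pred n ih =>
    refine ih.trans ?_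
    have := CEq6.mv (hpos (-n - 1)) (Mv6.tv u _ l q m s)
    rw [add_assoc, ← add_one_zsmul, sub_add_cancel] at this
    exact this.symm

end Pool.Agent.H4G.Six
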