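import Pool.Agent.H4G.Core

/-!
# Coverings by translation glued triangles (MP_4f7c28, part (i), row G4)

A finite list of lattice triangles developed in `(r, u)`, every side of which is glued to the side
of another triangle of the list by a translation, covers an invariant set of at most `area` squares.
-/

set_option autoImplicit false

namespace Pool.Agent.H4G

open Set Topology MeasureTheory

variable {X : Type}

namespace TCov

open Cov

/-- `f` is a development for `r`, `u` on the set `K`. -/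
def TDev (r u : Equiv.Perm X) (K : Set V) (f : Z2 → X) : Prop :=
  ∀ x ∈ K, (∀ z : Z2, Nr x z → Nr x (z + (1, 0)) → f (z + (1, 0)) = r (f z)) ∧
    (∀ z : Z2, Nr x z → Nr x (z + (0, 1)) → f (z + (0, 1)) = u (f z))

/-- The side `P → Q` of `T` is glued to a side of a triangle of `L` by the translation `w`. -/
def TGood (L : List (Trg X)) (T : Trg X) (P Q : Z2) : Prop :=
  ∃ T' ∈ L, ∃ w S' : Z2, T'.Side (Q + w) (P + w) S' ∧
    ∀ x ∈ Seg P Q, ∀ z : Z2, Nr x z → T'.f (z + w) = T.f z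

lemma nr_add {x : V} {z : Z2} (w : Z2) (h : Nr x z) : Nr (em w + x) (z + w) := by
  obtain ⟨h1, h2, h3, h4⟩ := h
  simp only [Nr, em, Prod.fst_add, Prod.snd_add]
  push_cast
  refine ⟨?_, ?_, ?_, ?_⟩ <;> linarith

lemma seg_add {P Q : Z2} {x : V} (w : Z2) (h : x ∈ Seg P Q) :
    em w + x ∈ Seg (P + w) (Q + w) := by
  obtain ⟨t, h0, h1, rfl⟩ := h
  refine ⟨t, h0, h1, ?_⟩
  ext
  · simp only [em, Prod.fst_add]
    push_cast
    ring
  · simp only [em, Prod.snd_add]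
    push_cast
    ring

lemma ori_add (A B w : Z2) (x : V) : ori (A + w) (B + w) (em w + x) = ori A B x := by
  simp only [ori, em, Prod.fst_add, Prod.snd_add]
  push_cast
  ring

/-- Local covering. -/
lemma local_cov {L : List (Trg X)} (hL1 : ∀ T ∈ L, 0 < tri T.a T.b T.c)
    (hL2 : ∀ T ∈ L, ∀ P Q S, T.Side P Q S → TGood L T P Q) {T : Trg X} (hT : T ∈ L) {x : V}
    (hx : x ∈ cTri T.a T.b T.c) (hx' : ∀ w : Z2, x ≠ em w) {z : Z2} (hz : Nr x z) {s : X}
    (hs : T.f z = s) :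
    ∀ᶠ y in 𝓝 x, ∃ T' ∈ L, ∃ w : Z2, em w + y ∈ cTri T'.a T'.b T'.c ∧ T'.f (z + w) = s := by
  have key : ∀ P Q S, T.Side P Q S → ori P Q x = 0 →
      ∀ᶠ y in 𝓝 x, ∃ T' ∈ L, ∃ w : Z2, em w + y ∈ cTri T'.a T'.b T'.c ∧ T'.f (z + w) = s := by
    intro P Q S hS h0
    obtain ⟨e1, e2⟩ := Trg.side_cTri hS
    have hD : 0 < tri P Q S := by rw [e2]; exact hL1 T hT
    rw [← e1] at hx
    have hseg : x ∈ Seg P Q := on_side hD hx h0 (hx' P) (hx' Q)
    obtain ⟨_, p1, p2⟩ := side_pos hD hseg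
    have ev1 : ∀ᶠ y in 𝓝 x, 0 < ori Q S y :=
      (ori_cont Q S).continuousAt.eventually (lt_mem_nhds p1)
    have ev2 : ∀ᶠ y in 𝓝 x, 0 < ori S P y :=
      (ori_cont S P).continuousAt.eventually (lt_mem_nhds p2)
    obtain ⟨T', hT', w, S', hS', hag⟩ := hL2 T hT P Q S hS
    obtain ⟨e3, e4⟩ := Trg.side_cTri hS'
    have hD' : 0 < tri (Q + w) (P + w) S' := by rw [e4]; exact hL1 T' hT'
    have hseg' : em w + x ∈ Seg (Q + w) (P + w) := by
      rw [seg_comm]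
      exact seg_add w hseg
    obtain ⟨_, q1, q2⟩ := side_pos hD' hseg'
    have cont : Continuous (fun y : V => em w + y) := by fun_prop
    have ev3 : ∀ᶠ y in 𝓝 x, 0 < ori (P + w) S' (em w + y) :=
      ((ori_cont (P + w) S').comp cont).continuousAt.eventually (lt_mem_nhds q1)
    have ev4 : ∀ᶠ y in 𝓝 x, 0 < ori S' (Q + w) (em w + y) :=
      ((ori_cont S' (Q + w)).comp cont).continuousAt.eventually (lt_mem_nhds q2)
    filter_upwards [ev1, ev2, ev3, ev4] with y h1 h2 h3 h4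
    rcases le_total 0 (ori P Q y) with h5 | h5
    · refine ⟨T, hT, 0, ?_, by rw [add_zero]; exact hs⟩
      have e0 : em (0 : Z2) + y = y := by
        ext <;> simp [em]
      rw [e0, ← e1]
      exact ⟨h5, h1.le, h2.le⟩
    · refine ⟨T', hT', w, ?_, ?_⟩
      · rw [← e3]
        refine ⟨?_, h3.le, h4.le⟩
        rw [ori_add, ori_symm]
        linarith
      · rw [hag x hseg z hz, hs]
  obtain ⟨h1, h2, h3⟩ := hx
  rcases h1.eq_or_lt with h1' | h1'
  · exact key _ _ _ (Or.inl ⟨rfl, rfl, rfl⟩) h1'.symm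
  rcases h2.eq_or_lt with h2' | h2'
  · exact key _ _ _ (Or.inr (Or.inl ⟨rfl, rfl, rfl⟩)) h2'.symm
  rcases h3.eq_or_lt with h3' | h3'
  · exact key _ _ _ (Or.inr (Or.inr ⟨rfl, rfl, rfl⟩)) h3'.symm
  filter_upwards [(ori_cont T.a T.b).continuousAt.eventually (lt_mem_nhds h1'),
    (ori_cont T.b T.c).continuousAt.eventually (lt_mem_nhds h2'),
    (ori_cont T.c T.a).continuousAt.eventually (lt_mem_nhds h3')] with y g1 g2 g3
  refine ⟨T, hT, 0, ?_, by rw [add_zero]; exact hs⟩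
  have e0 : em (0 : Z2) + y = y := by
    ext <;> simp [em]
  rw [e0]
  exact ⟨g1.le, g2.le, g3.le⟩

/-- The point `c` of the square `s` is covered. -/
def Cv (L : List (Trg X)) (s : X) (c : V) : Prop :=
  ∃ T ∈ L, ∃ z : Z2, em z + c ∈ cTri T.a T.b T.c ∧ T.f z = s

/-- openness -/
lemma Cv.open' {L : List (Trg X)} (hL1 : ∀ T ∈ L, 0 < tri T.a T.b T.c)
    (hL2 : ∀ T ∈ L, ∀ P Q S, T.Side P Q S → TGood L T P Q) {s : X} {c : V} (hc : c ∈ Qs)
    (h : Cv L s c) : ∀ᶠ c' in 𝓝 c, Cv L s c' := by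
  obtain ⟨T, hT, z, h1, h2⟩ := h
  have h := local_cov hL1 hL2 hT h1 (fun w => Qs_lattice hc z w) (Qs_nr hc z) h2
  have cont : Continuous (fun c' : V => em z + c') := by fun_prop
  have h3 := (cont.tendsto c).eventually h
  filter_upwards [h3] with c' h4
  obtain ⟨T', hT', w, h5, h6⟩ := h4
  refine ⟨T', hT', z + w, ?_, h6⟩
  have e : em (z + w) + c' = em w + (em z + c') := by
    ext
    · simp only [em, Prod.fst_add]
      push_cast
      ring
    · simp only [em, Prod.snd_add]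
      push_cast
      ring
  rw [e]
  exact h5

/-- closedness -/
lemma Cv_closed {L : List (Trg X)} (hL : ∀ T ∈ L, 0 < tri T.a T.b T.c) (s : X) :
    IsClosed {c : V | Cv L s c ∧ c ∈ Sq} := by
  classical
  have e : {c : V | Cv L s c ∧ c ∈ Sq} = Sq ∩ ⋃ T ∈ {T | T ∈ L}, ⋃ z ∈ (bx T : Set Z2),
      {c : V | em z + c ∈ cTri T.a T.b T.c ∧ T.f z = s} := by
    ext c
    simp only [mem_ofPred_eq, mem_inter_iff, mem_iUnion, exists_prop]
    constructor
    · rintro ⟨⟨T, hT, z, h⟩, hc⟩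
      exact ⟨hc, T, hT, z, mem_bx (hL T hT) hc h.1, h⟩
    · rintro ⟨hc, T, hT, z, _, h⟩
      exact ⟨⟨T, hT, z, h⟩, hc⟩
  rw [e]
  refine Sq_closed.inter ?_
  refine Set.Finite.isClosed_biUnion (List.finite_toSet L) ?_
  intro T _
  refine Set.Finite.isClosed_biUnion (Finset.finite_toSet _) ?_
  intro z _
  by_cases hs : T.f z = s
  · simp only [hs, and_true]
    exact (cTri_closed _ _ _).preimage (by fun_prop)
  · simp only [hs, and_false]
    exact isClosed_empty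

/-- The dichotomy. -/
lemma Cv_all {L : List (Trg X)} (hL1 : ∀ T ∈ L, 0 < tri T.a T.b T.c)
    (hL2 : ∀ T ∈ L, ∀ P Q S, T.Side P Q S → TGood L T P Q) {s : X} {c : V} (hc : c ∈ Qs)
    (h : Cv L s c) : ∀ c' ∈ Qs, Cv L s c' := by
  by_contra hcon
  push Not at hcon
  obtain ⟨c', hc', hn⟩ := hcon
  set U : Set V := {c | ∀ᶠ y in 𝓝 c, Cv L s y} with hU
  set W : Set V := {c : V | Cv L s c ∧ c ∈ Sq}ᶜ with hW
  have hUo : IsOpen U := isOpen_setOfPred_eventually_nhds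
  have hWo : IsOpen W := (Cv_closed hL1 s).isOpen_compl
  have hcov : Qs ⊆ U ∪ W := by
    intro y hy
    by_cases h1 : Cv L s y
    · exact Or.inl (Cv.open' hL1 hL2 hy h1)
    · exact Or.inr (fun h2 => h1 h2.1)
  obtain ⟨y, hy, hyU, hyW⟩ := Qs_convex.isPreconnected U W hUo hWo hcov
    ⟨c, hc, Cv.open' hL1 hL2 hc h⟩ ⟨c', hc', fun h2 => hn h2.1⟩
  exact hyW ⟨Filter.Eventually.self_of_nhds hyU, Qs_sub_Sq hy⟩

lemma Cv.right {r u : Equiv.Perm X} {L : List (Trg X)}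
    (hL1 : ∀ T ∈ L, TDev r u (Tri T.a T.b T.c) T.f) {s : X}
    (h : Cv L s (1, 1 / 2)) : Cv L (r s) (0, 1 / 2) := by
  have q1 : ((1, 1 / 2) : V) ∈ Qs := by
    refine ⟨?_, ?_, ?_, ?_, Or.inr ⟨?_, ?_⟩⟩ <;> norm_num
  have q0 : ((0, 1 / 2) : V) ∈ Qs := by
    refine ⟨?_, ?_, ?_, ?_, Or.inr ⟨?_, ?_⟩⟩ <;> norm_num
  obtain ⟨T, hT, z, h1, h2⟩ := h
  have hd := hL1 T hT _ (mem_Tri h1 (fun w => Qs_lattice q1 z w))
  have e : em z + ((1, 1 / 2) : V) = em (z + (1, 0)) + (0, 1 / 2) := by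
    ext <;> simp [em]
  have n2 : Nr (em z + ((1, 1 / 2) : V)) (z + (1, 0)) := by
    rw [e]; exact Qs_nr q0 _
  refine ⟨T, hT, z + (1, 0), ?_, ?_⟩
  · rw [← e]; exact h1
  · rw [hd.1 z (Qs_nr q1 z) n2, h2]

lemma Cv.up {r u : Equiv.Perm X} {L : List (Trg X)}
    (hL1 : ∀ T ∈ L, TDev r u (Tri T.a T.b T.c) T.f) {s : X}
    (h : Cv L s (1 / 2, 1)) : Cv L (u s) (1 / 2, 0) := by
  have q1 : ((1 / 2, 1) : V) ∈ Qs := by
    refine ⟨?_, ?_, ?_, ?_, Or.inl ⟨?_, ?_⟩⟩ <;> norm_num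
  have q0 : ((1 / 2, 0) : V) ∈ Qs := by
    refine ⟨?_, ?_, ?_, ?_, Or.inl ⟨?_, ?_⟩⟩ <;> norm_num
  obtain ⟨T, hT, z, h1, h2⟩ := h
  have hd := hL1 T hT _ (mem_Tri h1 (fun w => Qs_lattice q1 z w))
  have e : em z + ((1 / 2, 1) : V) = em (z + (0, 1)) + (1 / 2, 0) := by
    ext <;> simp [em]
  have n2 : Nr (em z + ((1 / 2, 1) : V)) (z + (0, 1)) := by
    rw [e]; exact Qs_nr q0 _
  refine ⟨T, hT, z + (0, 1), ?_, ?_⟩
  · rw [← e]; exact h1
  · rw [hd.2 z (Qs_nr q1 z) n2, h2]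

/-- Some square is covered: a lattice free point of a triangle. -/
lemma Cv.exists {L : List (Trg X)} (hL1 : ∀ T ∈ L, 0 < tri T.a T.b T.c) (hne : L ≠ []) :
    ∃ s : X, ∃ c ∈ Qs, Cv L s c := by
  obtain ⟨T, hT⟩ := List.exists_mem_of_ne_nil L hne
  have hD := hL1 T hT
  have hD' : (1 : ℝ) ≤ tri T.a T.b T.c := by exact_mod_cast hD
  set A := T.a
  set B := T.b
  set C := T.c
  set D : ℝ := (tri A B C : ℝ) with hDdef
  have hD0 : D ≠ 0 := by
    intro h
    linarith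
  set x : V := (A.1 + ((B.1 : ℝ) - A.1) / (2 * D) + ((C.1 : ℝ) - A.1) / 4,
    A.2 + ((B.2 : ℝ) - A.2) / (2 * D) + ((C.2 : ℝ) - A.2) / 4) with hx
  have hcr : D = ((B.1 : ℝ) - A.1) * (C.2 - A.2) - ((B.2 : ℝ) - A.2) * (C.1 - A.1) := by
    rw [hDdef]
    simp only [tri, cr, Prod.fst_sub, Prod.snd_sub]
    push_cast
    ring
  have o1 : ori A B x = D / 4 := by
    rw [hcr, hx]
    simp only [ori]
    ring
  have o3 : ori C A x = 1 / 2 := by
    have h1 : ori C A x = (((B.1 : ℝ) - A.1) * (C.2 - A.2) -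
        ((B.2 : ℝ) - A.2) * (C.1 - A.1)) / (2 * D) := by
      rw [hx]
      simp only [ori]
      ring
    rw [h1, ← hcr]
    field_simp
  have o2 : ori B C x = D - D / 4 - 1 / 2 := by
    have := ori_sum A B C x
    rw [o1, o3] at this
    linarith
  have hmem : x ∈ cTri A B C := ⟨by rw [o1]; linarith, by rw [o2]; linarith, by rw [o3]; norm_num⟩
  have hlat : ∀ w : Z2, x ≠ em w := by
    intro w hw
    have h1 : ori C A (em w) = ((A.1 - C.1) * (w.2 - C.2) - (A.2 - C.2) * (w.1 - C.1) : ℤ) := by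
      simp only [ori, em]
      push_cast
      ring
    rw [← hw, o3] at h1
    have h2 : (2 * ((A.1 - C.1) * (w.2 - C.2) - (A.2 - C.2) * (w.1 - C.1)) : ℤ) = 1 := by
      have h3 : (2 : ℝ) * (((A.1 - C.1) * (w.2 - C.2) - (A.2 - C.2) * (w.1 - C.1) : ℤ) : ℝ) = 1 := by
        rw [← h1]; norm_num
      exact_mod_cast h3
    omega
  set z : Z2 := (⌊x.1⌋, ⌊x.2⌋) with hz
  have e : em z + (Int.fract x.1, Int.fract x.2) = x := by
    refine Prod.ext ?_ ?_
    · simp only [em, hz, Prod.fst_add]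
      exact Int.floor_add_fract x.1
    · simp only [em, hz, Prod.snd_add]
      exact Int.floor_add_fract x.2
  refine ⟨T.f z, (Int.fract x.1, Int.fract x.2), ⟨?_, ?_, ?_, ?_, ?_⟩, T, hT, z, ?_, rfl⟩
  · exact Int.fract_nonneg _
  · exact (Int.fract_lt_one _).le
  · exact Int.fract_nonneg _
  · exact (Int.fract_lt_one _).le
  · by_cases h1 : Int.fract x.1 = 0
    · by_cases h2 : Int.fract x.2 = 0
      · exfalso
        apply hlat z
        rw [← e, h1, h2]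
        ext <;> simp
      · exact Or.inr ⟨lt_of_le_of_ne (Int.fract_nonneg _) (Ne.symm h2), Int.fract_lt_one _⟩
    · exact Or.inl ⟨lt_of_le_of_ne (Int.fract_nonneg _) (Ne.symm h1), Int.fract_lt_one _⟩
  · rw [e]; exact hmem

open Ar in
/-- The area bound. -/
lemma area_bound {L : List (Trg X)} (hL : ∀ T ∈ L, 0 < tri T.a T.b T.c) (R : Finset X)
    (hR : ∀ s ∈ R, ∀ c ∈ Qs, Cv L s c) :
    2 * (R.card : ℤ) ≤ (L.map (fun T => tri T.a T.b T.c)).sum := by
  classical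
  rw [sum_list L (fun T => tri T.a T.b T.c)]
  set K : Fin L.length → Set V := fun j => cTri (L.get j).a (L.get j).b (L.get j).c with hK
  set F : Fin L.length → Z2 → X := fun j => (L.get j).f with hF
  set Bx : Fin L.length → Finset Z2 := fun j => bx (L.get j) with hB
  have hpos : ∀ j, 0 < tri (L.get j).a (L.get j).b (L.get j).c := fun j => hL _ (List.get_mem _ _)
  have hRoQs : Ro ⊆ Qs := fun c h => ⟨h.1.le, h.2.1.le, h.2.2.1.le, h.2.2.2.le,
    Or.inl ⟨h.1, h.2.1⟩⟩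
  have hRoSq : Ro ⊆ Sq := fun c h => Qs_sub_Sq (hRoQs h)
  -- one square
  have h1 : ∀ s ∈ R, (1 : ENNReal) ≤ ∑ j, ∑ z ∈ Bx j,
      (if F j z = s then ms (K j) z else 0) := by
    intro s hs
    have hsub : Ro ⊆ ⋃ j ∈ (Finset.univ : Finset (Fin L.length)), ⋃ z ∈ Bx j,
        {c | (c ∈ Ro ∧ em z + c ∈ K j) ∧ F j z = s} := by
      intro c hc
      obtain ⟨T, hT, z, h⟩ := hR s hs c (hRoQs hc)
      obtain ⟨j, hj⟩ := List.mem_iff_get.1 hT
      simp only [mem_iUnion, mem_ofPred_eq, exists_prop]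
      refine ⟨j, Finset.mem_univ _, z, ?_, ?_⟩
      · refine mem_bx (hpos j) (hRoSq hc) ?_
        rw [hj]; exact h.1
      · exact ⟨⟨hc, by rw [hK]; simp only; rw [hj]; exact h.1⟩, by rw [hF]; simp only; rw [hj]; exact h.2⟩
    rw [← vol_Ro]
    refine (measure_mono hsub).trans ?_
    refine (measure_biUnion_finset_le _ _).trans (Finset.sum_le_sum fun j _ => ?_)
    refine (measure_biUnion_finset_le _ _).trans (Finset.sum_le_sum fun z _ => ?_)
    by_cases h : F j z = s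
    · simp only [h, and_true, if_true]
      exact (ms_one (K j) z).le
    · simp [h]
  have h2 : (R.card : ENNReal) ≤
      ∑ j, ENNReal.ofReal ((tri (L.get j).a (L.get j).b (L.get j).c : ℝ) / 2) := by
    calc (R.card : ENNReal) = ∑ s ∈ R, (1 : ENNReal) := by simp
      _ ≤ ∑ s ∈ R, ∑ j, ∑ z ∈ Bx j, (if F j z = s then ms (K j) z else 0) :=
        Finset.sum_le_sum h1
      _ = ∑ j, ∑ z ∈ Bx j, ∑ s ∈ R, (if F j z = s then ms (K j) z else 0) := by
        rw [Finset.sum_comm]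
        refine Finset.sum_congr rfl fun j _ => ?_
        rw [Finset.sum_comm]
      _ ≤ ∑ j, ∑ z ∈ Bx j, ms (K j) z := by
        refine Finset.sum_le_sum fun j _ => Finset.sum_le_sum fun z _ => ?_
        rw [Finset.sum_ite_eq]
        split_ifs
        · exact le_rfl
        · exact zero_le
      _ ≤ ∑ j, ENNReal.ofReal ((tri (L.get j).a (L.get j).b (L.get j).c : ℝ) / 2) := by
        refine Finset.sum_le_sum fun j _ => ?_
        exact (ms_sum (cTri_closed _ _ _).measurableSet (Bx j)).trans (vol_tri (hpos j))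
  rw [← ENNReal.ofReal_sum_of_nonneg (fun j _ => by
    have h4 : (0 : ℝ) < (tri (L.get j).a (L.get j).b (L.get j).c : ℝ) := by
      exact_mod_cast hpos j
    linarith)] at h2
  have h5 : (R.card : ENNReal) = ENNReal.ofReal (R.card : ℝ) := by simp
  rw [h5, ENNReal.ofReal_le_ofReal_iff (Finset.sum_nonneg fun j _ => by
    have h4 : (0 : ℝ) < (tri (L.get j).a (L.get j).b (L.get j).c : ℝ) := by
      exact_mod_cast hpos j
    linarith)] at h2
  rw [← Finset.sum_div] at h2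
  have h6 : ((2 * (R.card : ℤ) : ℤ) : ℝ) ≤
      ((∑ j, tri (L.get j).a (L.get j).b (L.get j).c : ℤ) : ℝ) := by
    push_cast
    linarith
  exact_mod_cast h6

/-- **The core theorem for translation gluing**, with all squares of the triangles in `R`. -/
theorem tcore_mem [Finite X] {r u : Equiv.Perm X} {L : List (Trg X)} (hne : L ≠ [])
    (hL1 : ∀ T ∈ L, 0 < tri T.a T.b T.c ∧ TDev r u (Tri T.a T.b T.c) T.f)
    (hL2 : ∀ T ∈ L, ∀ P Q S, T.Side P Q S → TGood L T P Q) :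
    ∃ R : Set X, R.Nonempty ∧ (∀ x ∈ R, r x ∈ R) ∧ (∀ x ∈ R, u x ∈ R) ∧
      2 * (R.ncard : ℤ) ≤ (L.map (fun T => tri T.a T.b T.c)).sum ∧
      ∀ T ∈ L, ∀ z : Z2, ∀ c ∈ Qs, em z + c ∈ cTri T.a T.b T.c → T.f z ∈ R := by
  classical
  have hp : ∀ T ∈ L, 0 < tri T.a T.b T.c := fun T hT => (hL1 T hT).1
  have hd : ∀ T ∈ L, TDev r u (Tri T.a T.b T.c) T.f := fun T hT => (hL1 T hT).2
  have hall : ∀ {s : X} {c : V}, c ∈ Qs → Cv L s c → ∀ c' ∈ Qs, Cv L s c' :=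
    fun hc h => Cv_all hp hL2 hc h
  refine ⟨{s | ∀ c ∈ Qs, Cv L s c}, ?_, ?_, ?_, ?_, ?_⟩
  · obtain ⟨s, c, hc, h⟩ := Cv.exists hp hne
    exact ⟨s, hall hc h⟩
  · intro s hs
    have q1 : ((1, 1 / 2) : V) ∈ Qs := by
      refine ⟨?_, ?_, ?_, ?_, Or.inr ⟨?_, ?_⟩⟩ <;> norm_num
    have q0 : ((0, 1 / 2) : V) ∈ Qs := by
      refine ⟨?_, ?_, ?_, ?_, Or.inr ⟨?_, ?_⟩⟩ <;> norm_num
    exact hall q0 (Cv.right hd (hs _ q1))
  · intro s hs
    have q1 : ((1 / 2, 1) : V) ∈ Qs := by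
      refine ⟨?_, ?_, ?_, ?_, Or.inl ⟨?_, ?_⟩⟩ <;> norm_num
    have q0 : ((1 / 2, 0) : V) ∈ Qs := by
      refine ⟨?_, ?_, ?_, ?_, Or.inl ⟨?_, ?_⟩⟩ <;> norm_num
    exact hall q0 (Cv.up hd (hs _ q1))
  · have hfin : ({s | ∀ c ∈ Qs, Cv L s c} : Set X).Finite := Set.toFinite _
    rw [Set.ncard_eq_toFinset_card _ hfin]
    refine area_bound hp hfin.toFinset ?_
    intro s hs
    rw [Set.Finite.mem_toFinset] at hs
    exact hs
  · intro T hT z c hc h
    exact hall hc ⟨T, hT, z, h, rfl⟩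

/-- **The core theorem for translation gluing.** -/
theorem tcore [Finite X] {r u : Equiv.Perm X} {L : List (Trg X)} (hne : L ≠ [])
    (hL1 : ∀ T ∈ L, 0 < tri T.a T.b T.c ∧ TDev r u (Tri T.a T.b T.c) T.f)
    (hL2 : ∀ T ∈ L, ∀ P Q S, T.Side P Q S → TGood L T P Q) :
    ∃ R : Set X, R.Nonempty ∧ (∀ x ∈ R, r x ∈ R) ∧ (∀ x ∈ R, u x ∈ R) ∧
      2 * (R.ncard : ℤ) ≤ (L.map (fun T => tri T.a T.b T.c)).sum := by
  obtain ⟨R, h1, h2, h3, h4, _⟩ := tcore_mem hne hL1 hL2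
  exact ⟨R, h1, h2, h3, h4⟩

end TCov

end Pool.Agent.H4G
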