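import Pool.Agent.H4G.Six.Par
import Pool.Agent.H4G.Six.Cover
import Pool.Agent.H4G.ReconA

/-!
# Row G4: reconstruction of an origami from its E6 tree (helper2, with helper75's covering theorem)

The five parallelograms of a tree give a list of ten triangles, glued by translations, to which the
covering theorem `TCov.tcore` applies: `core6`. Products; the graph of an isomorphism: `recon6`;
primitivity: `span6_top`.
-/

set_option autoImplicit false

namespace Pool.Agent.H4G.Six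

open Set Pool.Agent.H4G Pool.Agent.H4G.Cov Pool.Agent.H4G.TCov

variable {X : Type}

/-! ### Parallelograms and triangles -/

/-- A parallelogram `0, a, a + b, b` with a development. -/
structure Pg (X : Type) where
  a : Z2
  b : Z2
  f : Z2 → X

/-- The lower right triangle. -/
def Pg.t1 (P : Pg X) : Trg X := ⟨0, P.a, P.a + P.b, P.f⟩

/-- The upper left triangle. -/
def Pg.t2 (P : Pg X) : Trg X := ⟨0, P.a + P.b, P.b, P.f⟩

/-- All triangles. -/
def tris (L : List (Pg X)) : List (Trg X) := L.flatMap (fun P => [P.t1, P.t2])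

lemma mem_tris1 {L : List (Pg X)} {P : Pg X} (h : P ∈ L) : P.t1 ∈ tris L :=
  List.mem_flatMap.2 ⟨P, h, by simp⟩

lemma mem_tris2 {L : List (Pg X)} {P : Pg X} (h : P ∈ L) : P.t2 ∈ tris L :=
  List.mem_flatMap.2 ⟨P, h, by simp⟩

lemma of_mem_tris {L : List (Pg X)} {T : Trg X} (h : T ∈ tris L) :
    ∃ P ∈ L, T = P.t1 ∨ T = P.t2 := by
  obtain ⟨P, h1, h2⟩ := List.mem_flatMap.1 h
  exact ⟨P, h1, by simpa using h2⟩

lemma tri_t1 (P : Pg X) : tri P.t1.a P.t1.b P.t1.c = cr P.a P.b := by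
  simp only [Pg.t1, tri, cr, Prod.fst_sub, Prod.snd_sub, Prod.fst_add, Prod.snd_add, Prod.fst_zero,
    Prod.snd_zero]
  ring

lemma tri_t2 (P : Pg X) : tri P.t2.a P.t2.b P.t2.c = cr P.a P.b := by
  simp only [Pg.t2, tri, cr, Prod.fst_sub, Prod.snd_sub, Prod.fst_add, Prod.snd_add, Prod.fst_zero,
    Prod.snd_zero]
  ring

lemma tris_sum (L : List (Pg X)) :
    ((tris L).map (fun T => tri T.a T.b T.c)).sum = 2 * (L.map (fun P => cr P.a P.b)).sum := by
  induction L with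
  | nil => simp [tris]
  | cons P L ih =>
    have e : tris (P :: L) = P.t1 :: P.t2 :: tris L := by simp [tris]
    rw [e]
    simp only [List.map_cons, List.sum_cons, ih, tri_t1, tri_t2]
    ring

/-- The top side of `P'` is the bottom side of `P`. -/
def Below (P' P : Pg X) : Prop :=
  P'.a = P.a ∧ ∀ x ∈ Seg 0 P.a, ∀ z, Nr x z → P'.f (z + P'.b) = P.f z

/-- The right side of `P'` is the left side of `P`. -/
def LeftOf (P' P : Pg X) : Prop :=
  P'.b = P.b ∧ ∀ x ∈ Seg 0 P.b, ∀ z, Nr x z → P'.f (z + P'.a) = P.f z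

lemma seg_subc {A B : Z2} (c : Z2) {x : V} (hx : x ∈ Seg A B) : x - em c ∈ Seg (A - c) (B - c) := by
  obtain ⟨t, h0, h1, rfl⟩ := hx
  refine ⟨t, h0, h1, ?_⟩
  refine Prod.ext ?_ ?_
  · simp only [em, Prod.fst_sub]
    push_cast
    ring
  · simp only [em, Prod.snd_sub]
    push_cast
    ring

theorem tgood_tris {L : List (Pg X)} (hL : ∀ P ∈ L, (∃ P' ∈ L, Below P' P) ∧
    (∃ P' ∈ L, Below P P') ∧ (∃ P' ∈ L, LeftOf P' P) ∧ ∃ P' ∈ L, LeftOf P P') :
    ∀ T ∈ tris L, ∀ P Q S, T.Side P Q S → TGood (tris L) T P Q := by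
  intro T hT P Q S hS
  obtain ⟨G, hG, rfl | rfl⟩ := of_mem_tris hT
  · obtain ⟨⟨G1, m1, e1, g1⟩, _, _, ⟨G2, m2, e2, g2⟩⟩ := hL G hG
    rcases hS with ⟨rfl, rfl, rfl⟩ | ⟨rfl, rfl, rfl⟩ | ⟨rfl, rfl, rfl⟩
    · refine ⟨G1.t2, mem_tris2 m1, G1.b, 0, Or.inr (Or.inl ⟨?_, ?_, rfl⟩), ?_⟩
      · simp only [Pg.t1, Pg.t2, e1]
      · simp only [Pg.t1, Pg.t2, zero_add]
      · exact g1
    · refine ⟨G2.t2, mem_tris2 m2, -G.a, G2.a + G2.b, Or.inr (Or.inr ⟨?_, ?_, rfl⟩), ?_⟩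
      · simp only [Pg.t1, Pg.t2, ← e2]
        abel
      · simp only [Pg.t1, Pg.t2]
        abel
      · intro x hx z hz
        have h1 : x - em G.a ∈ Seg 0 G2.b := by
          have := seg_subc G.a hx
          simp only [Pg.t1, sub_self, add_sub_cancel_left] at this
          rwa [← e2]
        have h2 := g2 _ h1 (z - G.a) ((nr_sub x z G.a).2 hz)
        rw [sub_add_cancel] at h2
        rw [← sub_eq_add_neg]
        exact h2.symm
    · refine ⟨G.t2, mem_tris2 hG, 0, G.b, Or.inl ⟨?_, ?_, rfl⟩, ?_⟩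
      · simp only [Pg.t1, Pg.t2, add_zero]
      · simp only [Pg.t1, Pg.t2, add_zero]
      · intro x _ z _
        rw [add_zero]
        rfl
  · obtain ⟨_, ⟨G1, m1, e1, g1⟩, ⟨G2, m2, e2, g2⟩, _⟩ := hL G hG
    rcases hS with ⟨rfl, rfl, rfl⟩ | ⟨rfl, rfl, rfl⟩ | ⟨rfl, rfl, rfl⟩
    · refine ⟨G.t1, mem_tris1 hG, 0, G.a, Or.inr (Or.inr ⟨?_, ?_, rfl⟩), ?_⟩
      · simp only [Pg.t1, Pg.t2, add_zero]
      · simp only [Pg.t1, Pg.t2, add_zero]
      · intro x _ z _
        rw [add_zero]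
        rfl
    · refine ⟨G1.t1, mem_tris1 m1, -G.b, G1.a + G1.b, Or.inl ⟨?_, ?_, rfl⟩, ?_⟩
      · simp only [Pg.t1, Pg.t2]
        abel
      · simp only [Pg.t1, Pg.t2, ← e1]
        abel
      · intro x hx z hz
        have h1 : x - em G.b ∈ Seg 0 G1.a := by
          have := seg_subc G.b hx
          simp only [Pg.t2, sub_self, add_sub_cancel_right] at this
          rw [seg_comm, ← e1]
          exact this
        have h2 := g1 _ h1 (z - G.b) ((nr_sub x z G.b).2 hz)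
        rw [sub_add_cancel] at h2
        rw [← sub_eq_add_neg]
        exact h2.symm
    · refine ⟨G2.t1, mem_tris1 m2, G2.a, 0, Or.inr (Or.inl ⟨?_, ?_, rfl⟩), ?_⟩
      · simp only [Pg.t1, Pg.t2, zero_add]
      · simp only [Pg.t1, Pg.t2, e2]
        abel
      · intro x hx z hz
        exact g2 x (by rw [seg_comm]; exact hx) z hz

/-- The triangles of a parallelogram are in the parallelogram. -/
lemma t1_sub {P : Pg X} (h : 0 < cr P.a P.b) : Tri P.t1.a P.t1.b P.t1.c ⊆ Pgm P.a P.b := by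
  rintro x ⟨h1, h2, h3, h4, h5, h6⟩
  have hD : (0 : ℝ) < (P.a.1 : ℝ) * P.b.2 - P.a.2 * P.b.1 := by
    have : ((0 : ℤ) : ℝ) < ((cr P.a P.b : ℤ) : ℝ) := Int.cast_lt.2 h
    simp only [cr] at this
    push_cast at this
    exact this
  simp only [Pg.t1, ori, Prod.fst_add, Prod.snd_add, Prod.fst_zero, Prod.snd_zero] at h1 h2 h3
  push_cast at h1 h2 h3
  refine ⟨?_, ?_, ?_, ?_, h4, h5, ?_, h6⟩
  · simp only [crx]
    linarith
  · simp only [crx, cr]
    push_cast
    linarith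
  · simp only [crx]
    linarith
  · simp only [crx, cr]
    push_cast
    linarith
  · rintro rfl
    simp only [em] at h1 h2 h3
    linarith

lemma t2_sub {P : Pg X} (h : 0 < cr P.a P.b) : Tri P.t2.a P.t2.b P.t2.c ⊆ Pgm P.a P.b := by
  rintro x ⟨h1, h2, h3, h4, h5, h6⟩
  have hD : (0 : ℝ) < (P.a.1 : ℝ) * P.b.2 - P.a.2 * P.b.1 := by
    have : ((0 : ℤ) : ℝ) < ((cr P.a P.b : ℤ) : ℝ) := Int.cast_lt.2 h
    simp only [cr] at this
    push_cast at this
    exact this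
  simp only [Pg.t2, ori, Prod.fst_add, Prod.snd_add, Prod.fst_zero, Prod.snd_zero] at h1 h2 h3
  push_cast at h1 h2 h3
  refine ⟨?_, ?_, ?_, ?_, h4, ?_, h6, h5⟩
  · simp only [crx]
    linarith
  · simp only [crx, cr]
    push_cast
    linarith
  · simp only [crx]
    linarith
  · simp only [crx, cr]
    push_cast
    linarith
  · rintro rfl
    simp only [em] at h1 h2 h3
    linarith

lemma below_of {a b b' : Z2} {f f' G : Z2 → X} (h1 : Agree (Seg b' (b' + a)) f' (sh b' G))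
    (h2 : Agree (Seg 0 a) f G) : Below (⟨a, b', f'⟩ : Pg X) ⟨a, b, f⟩ := by
  refine ⟨rfl, fun x hx z hz => ?_⟩
  have h3 : x + em b' ∈ Seg b' (b' + a) := by
    have := seg_subc (-b') hx
    rw [zero_sub, neg_neg, sub_neg_eq_add, add_comm a b'] at this
    have e : x - em (-b') = x + em b' := by
      refine Prod.ext ?_ ?_
      · simp only [em, Prod.fst_sub, Prod.fst_add, Prod.fst_neg]
        push_cast
        ring
      · simp only [em, Prod.snd_sub, Prod.snd_add, Prod.snd_neg]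
        push_cast
        ring
    rwa [e] at this
  have h4 : Nr (x + em b') (z + b') := by
    have := (nr_sub x z (-b')).2 hz
    rw [sub_neg_eq_add] at this
    have e : x - em (-b') = x + em b' := by
      refine Prod.ext ?_ ?_
      · simp only [em, Prod.fst_sub, Prod.fst_add, Prod.fst_neg]
        push_cast
        ring
      · simp only [em, Prod.snd_sub, Prod.snd_add, Prod.snd_neg]
        push_cast
        ring
    rwa [e] at this
  show f' (z + b') = f z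
  rw [h1 _ h3 _ h4, h2 x hx z hz]
  simp only [sh, add_sub_cancel_right]

lemma leftOf_of {a a' b : Z2} {f f' G : Z2 → X} (h1 : Agree (Seg a' (a' + b)) f' (sh a' G))
    (h2 : Agree (Seg 0 b) f G) : LeftOf (⟨a', b, f'⟩ : Pg X) ⟨a, b, f⟩ := by
  have h := below_of (a := b) (b := a) (b' := a') h1 h2
  exact ⟨rfl, h.2⟩

/-! ### The list of a state -/

/-- A tree gives a list of triangles glued by translations. -/
theorem Has6.list {O : PO X} {c : C6} (h : Has6 O c) :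
    ∃ L : List (Trg X), L ≠ [] ∧ (L.map (fun T => tri T.a T.b T.c)).sum = 2 * vol6 c ∧
      (∀ T ∈ L, 0 < tri T.a T.b T.c ∧ Dev O (Tri T.a T.b T.c) T.f) ∧
      (∀ T ∈ L, ∀ P Q S, T.Side P Q S → TGood L T P Q) := by
  obtain ⟨u, v, l, q, m, s⟩ := c
  obtain ⟨U0, U1, U2, V, L0, L1, M0, M1, Q, S, ⟨p1, f1, d1, a1, b1, c1, e1⟩,
    ⟨p2, f2, d2, a2, b2, c2, e2⟩, ⟨p3, f3, d3, a3, b3, c3, e3⟩, ⟨p4, f4, d4, a4, b4, c4, e4⟩,
    ⟨p5, f5, d5, a5, b5, c5, e5⟩⟩ := h
  set P1 : Pg X := ⟨u, v, f1⟩ with hP1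
  set P2 : Pg X := ⟨u, l, f2⟩ with hP2
  set P3 : Pg X := ⟨u, m, f3⟩ with hP3
  set P4 : Pg X := ⟨q, l, f4⟩ with hP4
  set P5 : Pg X := ⟨s, m, f5⟩ with hP5
  have hpos : ∀ P ∈ [P1, P2, P3, P4, P5], 0 < cr P.a P.b ∧ Dev O (Pgm P.a P.b) P.f := by
    intro P hP
    simp only [List.mem_cons, List.not_mem_nil, or_false] at hP
    rcases hP with rfl | rfl | rfl | rfl | rfl
    · exact ⟨p1, d1⟩
    · exact ⟨p2, d2⟩
    · exact ⟨p3, d3⟩
    · exact ⟨p4, d4⟩
    · exact ⟨p5, d5⟩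
  refine ⟨tris [P1, P2, P3, P4, P5], by simp [tris], ?_, ?_, ?_⟩
  · rw [tris_sum]
    simp only [List.map_cons, List.map_nil, List.sum_cons, List.sum_nil, hP1, hP2, hP3, hP4, hP5,
      vol6]
    ring
  · intro T hT
    obtain ⟨P, hP, rfl | rfl⟩ := of_mem_tris hT
    · obtain ⟨h1, h2⟩ := hpos P hP
      exact ⟨by rw [tri_t1]; exact h1, fun x hx => h2 x (t1_sub h1 hx)⟩
    · obtain ⟨h1, h2⟩ := hpos P hP
      exact ⟨by rw [tri_t2]; exact h1, fun x hx => h2 x (t2_sub h1 hx)⟩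
  · apply tgood_tris
    have m1 : P1 ∈ [P1, P2, P3, P4, P5] := by simp
    have m2 : P2 ∈ [P1, P2, P3, P4, P5] := by simp
    have m3 : P3 ∈ [P1, P2, P3, P4, P5] := by simp
    have m4 : P4 ∈ [P1, P2, P3, P4, P5] := by simp
    have m5 : P5 ∈ [P1, P2, P3, P4, P5] := by simp
    -- vertical: `U0, U1, U2, Q, S`
    have v31 : Below P3 P1 := below_of c3 a1
    have v12 : Below P1 P2 := below_of c1 a2
    have v23 : Below P2 P3 := below_of c2 a3
    have v44 : Below P4 P4 := below_of c4 a4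
    have v55 : Below P5 P5 := below_of c5 a5
    -- horizontal: `V, L0, L1, M0, M1`
    have h11 : LeftOf P1 P1 := leftOf_of b1 e1
    have h42 : LeftOf P4 P2 := leftOf_of b4 e2
    have h24 : LeftOf P2 P4 := leftOf_of b2 e4
    have h53 : LeftOf P5 P3 := leftOf_of b5 e3
    have h35 : LeftOf P3 P5 := leftOf_of b3 e5
    intro P hP
    simp only [List.mem_cons, List.not_mem_nil, or_false] at hP
    rcases hP with rfl | rfl | rfl | rfl | rfl
    · exact ⟨⟨_, m3, v31⟩, ⟨_, m2, v12⟩, ⟨_, m1, h11⟩, ⟨_, m1, h11⟩⟩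
    · exact ⟨⟨_, m1, v12⟩, ⟨_, m3, v23⟩, ⟨_, m4, h42⟩, ⟨_, m4, h24⟩⟩
    · exact ⟨⟨_, m2, v23⟩, ⟨_, m1, v31⟩, ⟨_, m5, h53⟩, ⟨_, m5, h35⟩⟩
    · exact ⟨⟨_, m4, v44⟩, ⟨_, m4, v44⟩, ⟨_, m2, h24⟩, ⟨_, m2, h42⟩⟩
    · exact ⟨⟨_, m5, v55⟩, ⟨_, m5, v55⟩, ⟨_, m3, h35⟩, ⟨_, m3, h53⟩⟩

/-! ### Products -/

theorem Par.prod {X' : Type} {O : PO X} {O' : PO X'} {a b : Z2} {A R T L : Z2 → X}
    {A' R' T' L' : Z2 → X'} (h : Par O a b A R T L) (h' : Par O' a b A' R' T' L') :
    Par (O.prod O') a b (fun z => (A z, A' z)) (fun z => (R z, R' z)) (fun z => (T z, T' z))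
      (fun z => (L z, L' z)) := by
  obtain ⟨p, f, d, g1, g2, g3, g4⟩ := h
  obtain ⟨_, f', d', g1', g2', g3', g4'⟩ := h'
  refine ⟨p, fun z => (f z, f' z), ?_, ?_, ?_, ?_, ?_⟩
  · intro x hx
    exact ⟨fun z hz hz' => Prod.ext ((d x hx).1 z hz hz') ((d' x hx).1 z hz hz'),
      fun z hz hz' => Prod.ext ((d x hx).2 z hz hz') ((d' x hx).2 z hz hz')⟩
  · intro x hx z hz
    exact Prod.ext (g1 x hx z hz) (g1' x hx z hz)
  · intro x hx z hz
    exact Prod.ext (g2 x hx z hz) (g2' x hx z hz)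
  · intro x hx z hz
    exact Prod.ext (g3 x hx z hz) (g3' x hx z hz)
  · intro x hx z hz
    exact Prod.ext (g4 x hx z hz) (g4' x hx z hz)

theorem Has6.prod {X' : Type} {O : PO X} {O' : PO X'} {c : C6} (h : Has6 O c)
    (h' : Has6 O' c) : Has6 (O.prod O') c := by
  obtain ⟨u, v, l, q, m, s⟩ := c
  obtain ⟨U0, U1, U2, V, L0, L1, M0, M1, Q, S, h1, h2, h3, h4, h5⟩ := h
  obtain ⟨U0', U1', U2', V', L0', L1', M0', M1', Q', S', h1', h2', h3', h4', h5'⟩ := h'
  exact ⟨_, _, _, _, _, _, _, _, _, _, h1.prod h1', h2.prod h2', h3.prod h3', h4.prod h4',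
    h5.prod h5'⟩

/-! ### The graph of an isomorphism -/

theorem pproj_fst {X' : Type} {O : PO X} {O' : PO X'} (hO : O.Trans) {R : Set (X × X')}
    (hne : R.Nonempty) (hr : ∀ x ∈ R, (O.prod O').r x ∈ R) (hu : ∀ x ∈ R, (O.prod O').u x ∈ R)
    (x : X) : ∃ y, (x, y) ∈ R := by
  have h := hO {x | ∃ y, (x, y) ∈ R} (by
    obtain ⟨⟨x, y⟩, h⟩ := hne
    exact ⟨x, y, h⟩) (by
    rintro x ⟨y, h⟩
    exact ⟨O'.r y, hr _ h⟩) (by
    rintro x ⟨y, h⟩
    exact ⟨O'.u y, hu _ h⟩)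
  have : x ∈ {x | ∃ y, (x, y) ∈ R} := h ▸ Set.mem_univ x
  exact this

theorem pproj_snd {X' : Type} {O : PO X} {O' : PO X'} (hO' : O'.Trans) {R : Set (X × X')}
    (hne : R.Nonempty) (hr : ∀ x ∈ R, (O.prod O').r x ∈ R) (hu : ∀ x ∈ R, (O.prod O').u x ∈ R)
    (y : X') : ∃ x, (x, y) ∈ R := by
  have h := hO' {y | ∃ x, (x, y) ∈ R} (by
    obtain ⟨⟨x, y⟩, h⟩ := hne
    exact ⟨y, x, h⟩) (by
    rintro y ⟨x, h⟩
    exact ⟨O.r x, hr _ h⟩) (by
    rintro y ⟨x, h⟩
    exact ⟨O.u x, hu _ h⟩)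
  have : y ∈ {y | ∃ x, (x, y) ∈ R} := h ▸ Set.mem_univ y
  exact this

/-- **The core theorem for E6 trees.** -/
theorem core6 [Finite X] {O : PO X} {c : C6} (h : Has6 O c) : ∃ R : Set X, R.Nonempty ∧
    (∀ x ∈ R, O.r x ∈ R) ∧ (∀ x ∈ R, O.u x ∈ R) ∧ (R.ncard : ℤ) ≤ vol6 c := by
  obtain ⟨L, h1, h2, h3, h4⟩ := h.list
  obtain ⟨R, g1, g2, g3, g4⟩ := tcore (r := O.r) (u := O.u) h1 h3 h4
  refine ⟨R, g1, g2, g3, ?_⟩
  rw [h2] at g4
  linarith

/-- **Reconstruction.** -/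
theorem recon6 {X' : Type} [Finite X] [Finite X'] {O : PO X} {O' : PO X'} (hO : O.Trans)
    (hO' : O'.Trans) {c : C6} (h : Has6 O c) (h' : Has6 O' c) (hX : (Nat.card X : ℤ) = vol6 c)
    (hX' : (Nat.card X' : ℤ) = vol6 c) : ∃ e : X ≃ X', Iso6 O O' e := by
  obtain ⟨R, hne, hr, hu, hcard⟩ := core6 (h.prod h')
  have h1 : R.ncard ≤ Nat.card X := by
    rw [← hX] at hcard
    exact_mod_cast hcard
  have h2 : R.ncard ≤ Nat.card X' := by
    rw [← hX'] at hcard
    exact_mod_cast hcard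
  have p1 := pproj_fst hO hne hr hu
  have p2 := pproj_snd hO' hne hr hu
  have hs1 : Function.Surjective (fun p : R => p.1.1) := fun x => by
    obtain ⟨y, hy⟩ := p1 x
    exact ⟨⟨(x, y), hy⟩, rfl⟩
  have hs2 : Function.Surjective (fun p : R => p.1.2) := fun y => by
    obtain ⟨x, hx⟩ := p2 y
    exact ⟨⟨(x, y), hx⟩, rfl⟩
  have hb1 := hs1.bijective_of_nat_card_le (by rwa [Nat.card_coe_set_eq])
  have hb2 := hs2.bijective_of_nat_card_le (by rwa [Nat.card_coe_set_eq])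
  set e : X ≃ X' := (Equiv.ofBijective _ hb1).symm.trans (Equiv.ofBijective _ hb2) with he
  have hmem : ∀ x, (x, e x) ∈ R := by
    intro x
    have h3 : (((Equiv.ofBijective _ hb1).symm x) : R).1.1 = x :=
      (Equiv.ofBijective _ hb1).apply_symm_apply x
    have h4 : e x = (((Equiv.ofBijective _ hb1).symm x) : R).1.2 := rfl
    have h5 := ((Equiv.ofBijective _ hb1).symm x).2
    have h6 : (x, e x) = (((Equiv.ofBijective _ hb1).symm x) : R).1 := Prod.ext h3.symm h4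
    rw [h6]
    exact h5
  refine ⟨e, fun x => ?_, fun x => ?_⟩
  · exact graph_unique R p1 h1 (hmem _) (hr _ (hmem x))
  · exact graph_unique R p1 h1 (hmem _) (hu _ (hmem x))

/-! ### Primitivity -/

/-- The translation torus of a subgroup. -/
def ptorus (S : AddSubgroup Z2) : PO (Z2 ⧸ S) where
  r := Equiv.addRight (mq S (1, 0))
  u := Equiv.addRight (mq S (0, 1))

lemma ptorus_par {S : AddSubgroup Z2} {a b : Z2} (ha : a ∈ S) (hb : b ∈ S) (h : 0 < cr a b) :
    Par (ptorus S) a b (mq S) (mq S) (mq S) (mq S) := by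
  have key : ∀ c ∈ S, ∀ z : Z2, mq S z = sh c (mq S) z := by
    intro c hc z
    show (QuotientAddGroup.mk z : Z2 ⧸ S) = QuotientAddGroup.mk (z - c)
    rw [QuotientAddGroup.eq]
    have e : -z + (z - c) = -c := by abel
    rw [e]
    exact S.neg_mem hc
  refine ⟨h, mq S, ?_, ?_, ?_, ?_, ?_⟩
  · intro x _
    exact ⟨fun _ _ _ => rfl, fun _ _ _ => rfl⟩
  · intro _ _ _ _
    rfl
  · intro _ _ z _
    exact key a ha z
  · intro _ _ z _
    exact key b hb z
  · intro _ _ _ _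
    rfl

lemma ptorus_has {c : C6} (hc : Pos6 c) : Has6 (ptorus (span c)) c := by
  obtain ⟨u, v, l, q, m, s⟩ := c
  obtain ⟨h1, h2, h3, h4, h5⟩ := hc
  have m1 : u ∈ span (u, v, l, q, m, s) := AddSubgroup.subset_closure (by simp)
  have m2 : v ∈ span (u, v, l, q, m, s) := AddSubgroup.subset_closure (by simp)
  have m3 : l ∈ span (u, v, l, q, m, s) := AddSubgroup.subset_closure (by simp)
  have m4 : q ∈ span (u, v, l, q, m, s) := AddSubgroup.subset_closure (by simp)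
  have m5 : m ∈ span (u, v, l, q, m, s) := AddSubgroup.subset_closure (by simp)
  have m6 : s ∈ span (u, v, l, q, m, s) := AddSubgroup.subset_closure (by simp)
  exact ⟨_, _, _, _, _, _, _, _, _, _, ptorus_par m1 m2 h1, ptorus_par m1 m3 h2,
    ptorus_par m1 m5 h3, ptorus_par m4 m3 h4, ptorus_par m6 m5 h5⟩

/-- **Primitivity.** The six vectors of a tree of a primitive origami generate the lattice. -/
theorem span6_top [Finite X] {O : PO X} (hO : O.Trans) (hp : O.Prim) {c : C6} (hc : Pos6 c)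
    (h : Has6 O c) (hX : (Nat.card X : ℤ) = vol6 c) : span c = ⊤ := by
  have hfin : Finite (Z2 ⧸ span c) := by
    obtain ⟨u, v, l, q, m, s⟩ := c
    exact finite_quotient _ (a := u) (b := v) (AddSubgroup.subset_closure (by simp))
      (AddSubgroup.subset_closure (by simp)) hc.1
  obtain ⟨R, hne, hr, hu, hcard⟩ := core6 (h.prod (ptorus_has hc))
  have h1 : R.ncard ≤ Nat.card X := by
    rw [← hX] at hcard
    exact_mod_cast hcard
  have p1 := pproj_fst hO hne hr hu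
  choose F hF using p1
  have hun : ∀ {x : X} {y : Z2 ⧸ span c}, (x, y) ∈ R → F x = y := fun hxy =>
    graph_unique R (fun x => ⟨F x, hF x⟩) h1 (hF _) hxy
  have hFr : ∀ x, F (O.r x) = F x + QuotientAddGroup.mk (1, 0) := fun x => hun (hr _ (hF x))
  have hFu : ∀ x, F (O.u x) = F x + QuotientAddGroup.mk (0, 1) := fun x => hun (hu _ (hF x))
  have hpath : ∀ {x y : X} {w : Z2}, Path6 O x w y → F y = F x + QuotientAddGroup.mk w := by
    intro x y w hxy
    induction hxy with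
    | refl => rw [QuotientAddGroup.mk_zero, add_zero]
    | right _ ih => rw [hFr, ih, add_assoc, ← QuotientAddGroup.mk_add]
    | @left y w _ ih =>
      have := hFr (O.r.symm y)
      rw [O.r.apply_symm_apply, ih] at this
      rw [QuotientAddGroup.mk_sub, ← add_sub_assoc, this, add_sub_cancel_right]
    | up _ ih => rw [hFu, ih, add_assoc, ← QuotientAddGroup.mk_add]
    | @down y w _ ih =>
      have := hFu (O.u.symm y)
      rw [O.u.apply_symm_apply, ih] at this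
      rw [QuotientAddGroup.mk_sub, ← add_sub_assoc, this, add_sub_cancel_right]
  obtain ⟨⟨x, _⟩, _⟩ := hne
  rw [eq_top_iff]
  intro w _
  have h2 := hpath (hp x w)
  have h3 : (QuotientAddGroup.mk w : Z2 ⧸ span c) = 0 := by
    have := add_right_cancel (b := F x) (a := QuotientAddGroup.mk w) (c := 0) (by
      rw [zero_add, add_comm]; exact h2.symm)
    exact this
  exact (QuotientAddGroup.eq_zero_iff w).1 h3

end Pool.Agent.H4G.Six
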