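import Pool.Agent.H4G.Six.Defs

/-!
# The (1,3)-exits as a relation between trees (helper69)

`ExOK` says that both trees of an exit are trees of the same origamis. It is proved in
`Six/Orb6.lean` (`exOK`), from `Six/Ex13.lean`.
-/

set_option autoImplicit false

namespace Pool.Agent.H4G.Six

open Pool.Agent.H4G

/-- the two (1,3)-exits -/
inductive Ex6 : C6 → C6 → Prop
  | exP (u v l q m s U x u' x' : Z2) :
      AddSubgroup.closure {U, x} = AddSubgroup.closure {u, v + l + m} →
      cr U x = cr u (v + l + m) → 0 < cr l x → cr l x < cr U x → cr m x < 0 →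
      0 < cr l x + cr m x → 0 < cr l m → cr l m < cr l x →
      AddSubgroup.closure {u', x'} = AddSubgroup.closure {l, x - q} →
      cr u' x' = cr l x + cr q l → 0 < cr u' (x' + m - x) → 0 < cr u' (-m) → 0 < cr u' x →
      Ex6 (u, v, l, q, m, s) (u', x' + m - x, -m, -s, x, U - l)
  | exM (u v l q m s U x u' x' : Z2) :
      AddSubgroup.closure {U, x} = AddSubgroup.closure {u, v + l + m} →
      cr U x = cr u (v + l + m) → 0 < cr l x → cr l x < cr U x → cr m x < 0 →
      0 < cr l x + cr m x → cr l m < 0 → 0 < cr l x + cr l m →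
      AddSubgroup.closure {u', x'} = AddSubgroup.closure {l, x - q} →
      cr u' x' = cr l x + cr q l → 0 < cr u' (x' + m + x) → 0 < cr u' (-m) → 0 < cr u' (-x) →
      Ex6 (u, v, l, q, m, s) (u', x' + m + x, -m, -s, -x, l - U)

/-- both trees of an exit are trees of the same origamis -/
def ExOK : Prop := ∀ (X : Type) (O : PO X) (c c' : C6), Pos6 c → Ex6 c c' →
  (Has6 O c → Has6 O c') ∧ (Has6 O c' → Has6 O c)

end Pool.Agent.H4G.Six
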