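import Pool.Agent.H4G.Six.Column3
import Pool.Agent.H4G.Six.Ex6

/-!
# The twists of the tree (helper96)
-/

set_option autoImplicit false

namespace Pool.Agent.H4G.Six

open Pool.Agent.H4G

variable {X : Type}

theorem seg_comm' (A B : Z2) : Seg A B = Seg B A := by
  ext x
  constructor <;>
  · rintro ⟨t, h0, h1, rfl⟩
    refine ⟨1 - t, by linarith, by linarith, ?_⟩
    ext <;> simp <;> ring

/-- a quarter turn of the labels -/
theorem Par.rot {O : PO X} {a b : Z2} {A R T L : Z2 → X} (h : Par O a b A R T L) :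
    Par O b (-a) R (sh (-a) T) L (sh (-a) A) := by
  obtain ⟨h0, f, h1, h2, h3, h4, h5⟩ := h
  have hc : cr b (-a) = cr a b := by rw [cr_negr, cr_swap' a b]; ring
  have hback : ∀ x : V, x - em (-a) = x + em a := by
    intro x
    ext <;> simp [em]
  have hcx : ∀ (c : Z2) (x : V), crx c (x + em a) = crx c x + cr c a := by
    intro c x
    have e : crx c (x + em a) = crx c x + crx c (em a) := by
      simp only [crx, Prod.fst_add, Prod.snd_add]; ring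
    rw [e, crx_em]
  have hneg : ∀ x : V, crx (-a) x = -crx a x := by
    intro x
    simp only [crx, Prod.fst_neg, Prod.snd_neg]; push_cast; ring
  have hv : ∀ {x : V} {w : Z2}, x ≠ em w → x + em a ≠ em (w + a) := by
    intro x w hx he
    apply hx
    rw [em_add] at he
    exact add_right_cancel he
  have hzz : ∀ z : Z2, z - -a = z + a := fun z => sub_neg_eq_add z a
  have hNr : ∀ {x : V} {z : Z2}, Nr x z → Nr (x + em a) (z + a) := by
    intro x z hz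
    have := (nr_sub x z (-a)).2 hz
    rwa [hback, hzz] at this
  refine ⟨by rw [hc]; exact h0, sh (-a) f, ?_, ?_, ?_, ?_, ?_⟩
  · intro x hx
    apply DevAt.sh
    rw [hback]
    apply h1
    obtain ⟨x1, x2, x3, x4, x5, x6, x7, x8⟩ := hx
    rw [hneg] at x3 x4
    rw [hc] at x2 x4
    have z1 : (cr b a : ℝ) = -cr a b := by exact_mod_cast cr_swap' a b
    have z2 : (cr a a : ℝ) = 0 := by exact_mod_cast cr_self' a
    refine ⟨?_, ?_, ?_, ?_, ?_, ?_, ?_, ?_⟩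
    · rw [hcx, z2]; linarith
    · rw [hcx, z2]; linarith
    · rw [hcx, z1]; linarith
    · rw [hcx, z1]; linarith
    · have := hv x7
      rwa [neg_add_cancel] at this
    · have := hv x5
      rwa [zero_add] at this
    · have := hv x8
      have e : b + -a + a = b := by abel
      rwa [e] at this
    · have := hv x6
      rwa [add_comm b a] at this
  · intro x hx z hz
    have := h3 (x + em a) (by
      have := seg_add' a hx
      rwa [add_zero] at this) (z + a) (hNr hz)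
    simp only [sh] at this ⊢
    rw [hzz, this]
    congr 1
    abel
  · intro x hx z hz
    have := h4 (x + em a) (by
      have := seg_add' a hx
      have e : a + (b + -a) = b := by abel
      rw [e, seg_comm', add_comm a b] at this
      exact this) (z + a) (hNr hz)
    simp only [sh] at this ⊢
    rw [hzz, this]
    congr 1
    abel
  · intro x hx z hz
    have := h5 (x + em a) (by
      have := seg_add' a hx
      have e : a + (-a + b) = b := by abel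
      rw [e, add_neg_cancel] at this
      exact this) (z + a) (hNr hz)
    simp only [sh] at this ⊢
    rw [hzz, this]
  · intro x hx z hz
    have := h2 (x + em a) (by
      have := seg_add' a hx
      rw [add_zero, add_neg_cancel, seg_comm'] at this
      exact this) (z + a) (hNr hz)
    simp only [sh] at this ⊢
    rw [hzz, this]

theorem Par.rot2 {O : PO X} {a b : Z2} {A R T L : Z2 → X} (h : Par O a b A R T L) :
    Par O (-a) (-b) (sh (-a) T) (sh (-b) L) (sh (-a) A) (sh (-b) R) := h.rot.rot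

theorem Par.unrot {O : PO X} {a b : Z2} {R T L A : Z2 → X} (h : Par O b (-a) R T L A) :
    Par O a b (sh a A) R (sh a T) L := by
  have h1 := h.rot.rot.rot
  have e1 : ∀ g : Z2 → X, sh (-b) (sh (- -b) g) = g := by
    intro g
    rw [sh_sh]
    simp [sh_zero]
  have e2 : ∀ g : Z2 → X, sh (- - a) g = sh a g := by
    intro g
    rw [neg_neg]
  rw [neg_neg, neg_neg] at h1
  have e3 : ∀ g : Z2 → X, sh b (sh (-b) g) = g := by
    intro g
    rw [sh_sh]
    simp [sh_zero]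
  rw [e3, e3] at h1
  exact h1

/-! ## Columns with one, two, three parallelograms -/

theorem col1 {O : PO X} {a a' b : Z2} {A R L : Z2 → X} (h : Par O a b A R A L)
    (ha : a' = a + b ∨ a = a' + b) (hp : 0 < cr a' b) : ∃ A', Par O a' b A' R A' L := by
  have hpar : ∀ j < 1, Par O a ((fun _ : ℕ => b) j) ((fun _ : ℕ => A) j) ((fun _ : ℕ => R) j)
      ((fun _ : ℕ => A) ((j + 1) % 1)) ((fun _ : ℕ => L) j) := fun j _ => h
  have hps : ps (fun _ : ℕ => b) 1 = b := ps_one _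
  rcases ha with ha | ha
  · obtain ⟨A', hA⟩ := column_pos one_pos hpar (by rw [hps]; exact ha) (fun _ _ => hp)
    exact ⟨A' 0, hA 0 one_pos⟩
  · obtain ⟨A', hA⟩ := column_neg one_pos hpar (by rw [hps]; exact ha) (fun _ _ => hp)
    exact ⟨A' 0, hA 0 one_pos⟩

theorem col2 {O : PO X} {a a' b0 b1 : Z2} {A0 A1 R0 R1 L0 L1 : Z2 → X}
    (h0 : Par O a b0 A0 R0 A1 L0) (h1 : Par O a b1 A1 R1 A0 L1)
    (ha : a' = a + (b0 + b1) ∨ a = a' + (b0 + b1)) (p0 : 0 < cr a' b0) (p1 : 0 < cr a' b1) :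
    ∃ A0' A1', Par O a' b0 A0' R0 A1' L0 ∧ Par O a' b1 A1' R1 A0' L1 := by
  obtain ⟨b, hb0, hb1⟩ : ∃ b : ℕ → Z2, b 0 = b0 ∧ b 1 = b1 :=
    ⟨fun j => if j = 0 then b0 else b1, rfl, rfl⟩
  obtain ⟨A, hA0, hA1⟩ : ∃ b : ℕ → Z2 → X, b 0 = A0 ∧ b 1 = A1 :=
    ⟨fun j => if j = 0 then A0 else A1, rfl, rfl⟩
  obtain ⟨R, hR0, hR1⟩ : ∃ b : ℕ → Z2 → X, b 0 = R0 ∧ b 1 = R1 :=
    ⟨fun j => if j = 0 then R0 else R1, rfl, rfl⟩
  obtain ⟨L, hL0, hL1⟩ : ∃ b : ℕ → Z2 → X, b 0 = L0 ∧ b 1 = L1 :=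
    ⟨fun j => if j = 0 then L0 else L1, rfl, rfl⟩
  have hpar : ∀ j < 2, Par O a (b j) (A j) (R j) (A ((j + 1) % 2)) (L j) := by
    intro j hj
    interval_cases j
    · rw [hb0, hA0, hR0, hL0]
      show Par O a b0 A0 R0 (A 1) L0
      rw [hA1]; exact h0
    · rw [hb1, hA1, hR1, hL1]
      show Par O a b1 A1 R1 (A 0) L1
      rw [hA0]; exact h1
  have hps : ps b 2 = b0 + b1 := by
    rw [ps_succ, ps_one, hb0, hb1]
  have hpp : ∀ j < 2, 0 < cr a' (b j) := by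
    intro j hj
    interval_cases j
    · rw [hb0]; exact p0
    · rw [hb1]; exact p1
  have key : ∃ A' : ℕ → Z2 → X, ∀ j < 2, Par O a' (b j) (A' j) (R j) (A' ((j + 1) % 2)) (L j) := by
    rcases ha with ha | ha
    · exact column_pos two_pos hpar (by rw [hps]; exact ha) hpp
    · exact column_neg two_pos hpar (by rw [hps]; exact ha) hpp
  obtain ⟨A', hA'⟩ := key
  have k0 := hA' 0 (by norm_num)
  have k1 := hA' 1 (by norm_num)
  rw [hb0, hR0, hL0] at k0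
  rw [hb1, hR1, hL1] at k1
  exact ⟨A' 0, A' 1, k0, k1⟩

theorem col3 {O : PO X} {a a' b0 b1 b2 : Z2} {A0 A1 A2 R0 R1 R2 L0 L1 L2 : Z2 → X}
    (h0 : Par O a b0 A0 R0 A1 L0) (h1 : Par O a b1 A1 R1 A2 L1) (h2 : Par O a b2 A2 R2 A0 L2)
    (ha : a' = a + (b0 + b1 + b2) ∨ a = a' + (b0 + b1 + b2)) (p0 : 0 < cr a' b0)
    (p1 : 0 < cr a' b1) (p2 : 0 < cr a' b2) :
    ∃ A0' A1' A2', Par O a' b0 A0' R0 A1' L0 ∧ Par O a' b1 A1' R1 A2' L1 ∧
      Par O a' b2 A2' R2 A0' L2 := by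
  obtain ⟨b, hb0, hb1, hb2⟩ : ∃ b : ℕ → Z2, b 0 = b0 ∧ b 1 = b1 ∧ b 2 = b2 :=
    ⟨fun j => if j = 0 then b0 else if j = 1 then b1 else b2, rfl, rfl, rfl⟩
  obtain ⟨A, hA0, hA1, hA2⟩ : ∃ b : ℕ → Z2 → X, b 0 = A0 ∧ b 1 = A1 ∧ b 2 = A2 :=
    ⟨fun j => if j = 0 then A0 else if j = 1 then A1 else A2, rfl, rfl, rfl⟩
  obtain ⟨R, hR0, hR1, hR2⟩ : ∃ b : ℕ → Z2 → X, b 0 = R0 ∧ b 1 = R1 ∧ b 2 = R2 :=
    ⟨fun j => if j = 0 then R0 else if j = 1 then R1 else R2, rfl, rfl, rfl⟩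
  obtain ⟨L, hL0, hL1, hL2⟩ : ∃ b : ℕ → Z2 → X, b 0 = L0 ∧ b 1 = L1 ∧ b 2 = L2 :=
    ⟨fun j => if j = 0 then L0 else if j = 1 then L1 else L2, rfl, rfl, rfl⟩
  have hpar : ∀ j < 3, Par O a (b j) (A j) (R j) (A ((j + 1) % 3)) (L j) := by
    intro j hj
    interval_cases j
    · rw [hb0, hA0, hR0, hL0]
      show Par O a b0 A0 R0 (A 1) L0
      rw [hA1]; exact h0
    · rw [hb1, hA1, hR1, hL1]
      show Par O a b1 A1 R1 (A 2) L1
      rw [hA2]; exact h1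
    · rw [hb2, hA2, hR2, hL2]
      show Par O a b2 A2 R2 (A 0) L2
      rw [hA0]; exact h2
  have hps : ps b 3 = b0 + b1 + b2 := by
    rw [ps_succ, ps_succ, ps_one, hb0, hb1, hb2]
  have hpp : ∀ j < 3, 0 < cr a' (b j) := by
    intro j hj
    interval_cases j
    · rw [hb0]; exact p0
    · rw [hb1]; exact p1
    · rw [hb2]; exact p2
  have key : ∃ A' : ℕ → Z2 → X, ∀ j < 3, Par O a' (b j) (A' j) (R j) (A' ((j + 1) % 3)) (L j) := by
    rcases ha with ha | ha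
    · exact column_pos three_pos hpar (by rw [hps]; exact ha) hpp
    · exact column_neg three_pos hpar (by rw [hps]; exact ha) hpp
  obtain ⟨A', hA'⟩ := key
  have k0 := hA' 0 (by norm_num)
  have k1 := hA' 1 (by norm_num)
  have k2 := hA' 2 (by norm_num)
  rw [hb0, hR0, hL0] at k0
  rw [hb1, hR1, hL1] at k1
  rw [hb2, hR2, hL2] at k2
  exact ⟨A' 0, A' 1, A' 2, k0, k1, k2⟩

/-! ## The twists -/

section twists

variable {O : PO X} {u v l q m s : Z2}

theorem Has6.tu (h : Has6 O (u, v, l, q, m, s)) {u' : Z2}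
    (hu : u' = u + (v + l + m) ∨ u = u' + (v + l + m)) (p0 : 0 < cr u' v) (p1 : 0 < cr u' l)
    (p2 : 0 < cr u' m) : Has6 O (u', v, l, q, m, s) := by
  obtain ⟨U0, U1, U2, W, L0, L1, M0, M1, Q, S, h1, h2, h3, h4, h5⟩ := h
  obtain ⟨V0, V1, V2, k1, k2, k3⟩ := col3 h1 h2 h3 hu p0 p1 p2
  exact ⟨V0, V1, V2, W, L0, L1, M0, M1, Q, S, k1, k2, k3, h4, h5⟩

theorem Has6.tv (h : Has6 O (u, v, l, q, m, s)) {v' : Z2} (hv : v' = v + u ∨ v = v' + u) :
    Has6 O (u, v', l, q, m, s) := by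
  obtain ⟨U0, U1, U2, W, L0, L1, M0, M1, Q, S, h1, h2, h3, h4, h5⟩ := h
  have p : 0 < cr u v := h1.1
  have p' : 0 < cr v' (-u) := by
    rw [cr_negr, cr_swap' u v', neg_neg]
    rcases hv with rfl | rfl
    · rw [cr_addr, cr_self', add_zero]; exact p
    · rw [cr_addr, cr_self', add_zero] at p; exact p
  obtain ⟨W', k⟩ := col1 h1.rot (a' := v') (by
    rcases hv with rfl | rfl
    · right; abel
    · left; abel) p'
  have k1 := k.unrot
  rw [sh_sh, sh_sh, add_neg_cancel, sh_zero, sh_zero] at k1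
  exact ⟨U0, U1, U2, W', L0, L1, M0, M1, Q, S, k1, h2, h3, h4, h5⟩

theorem Has6.tq (h : Has6 O (u, v, l, q, m, s)) {q' : Z2} (hq : q' = q + l ∨ q = q' + l) :
    Has6 O (u, v, l, q', m, s) := by
  obtain ⟨U0, U1, U2, W, L0, L1, M0, M1, Q, S, h1, h2, h3, h4, h5⟩ := h
  have p : 0 < cr q l := h4.1
  have p' : 0 < cr q' l := by
    rcases hq with rfl | rfl
    · rw [cr_addl, cr_self', add_zero]; exact p
    · rw [cr_addl, cr_self', add_zero] at p; exact p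
  obtain ⟨Q', k⟩ := col1 h4 hq p'
  exact ⟨U0, U1, U2, W, L0, L1, M0, M1, Q', S, h1, h2, h3, k, h5⟩

theorem Has6.ts (h : Has6 O (u, v, l, q, m, s)) {s' : Z2} (hs : s' = s + m ∨ s = s' + m) :
    Has6 O (u, v, l, q, m, s') := by
  obtain ⟨U0, U1, U2, W, L0, L1, M0, M1, Q, S, h1, h2, h3, h4, h5⟩ := h
  have p : 0 < cr s m := h5.1
  have p' : 0 < cr s' m := by
    rcases hs with rfl | rfl
    · rw [cr_addl, cr_self', add_zero]; exact p
    · rw [cr_addl, cr_self', add_zero] at p; exact p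
  obtain ⟨S', k⟩ := col1 h5 hs p'
  exact ⟨U0, U1, U2, W, L0, L1, M0, M1, Q, S', h1, h2, h3, h4, k⟩

theorem Has6.tl (h : Has6 O (u, v, l, q, m, s)) {l' : Z2}
    (hl : l' = l + (u + q) ∨ l = l' + (u + q)) (p0 : 0 < cr u l') (p1 : 0 < cr q l') :
    Has6 O (u, v, l', q, m, s) := by
  obtain ⟨U0, U1, U2, W, L0, L1, M0, M1, Q, S, h1, h2, h3, h4, h5⟩ := h
  have c0 : 0 < cr l' (-u) := by rw [cr_negr, cr_swap' u l', neg_neg]; exact p0
  have c1 : 0 < cr l' (-q) := by rw [cr_negr, cr_swap' q l', neg_neg]; exact p1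
  obtain ⟨A, B, k0, k1⟩ := col2 h2.rot h4.rot (a' := l') (by
    rcases hl with rfl | rfl
    · right; abel
    · left; abel) c0 c1
  have j0 := k0.unrot
  have j1 := k1.unrot
  simp only [sh_sh, add_neg_cancel, sh_zero] at j0 j1
  exact ⟨U0, U1, U2, W, B, A, M0, M1, Q, S, h1, j0, h3, j1, h5⟩

theorem Has6.tm (h : Has6 O (u, v, l, q, m, s)) {m' : Z2}
    (hm : m' = m + (u + s) ∨ m = m' + (u + s)) (p0 : 0 < cr u m') (p1 : 0 < cr s m') :
    Has6 O (u, v, l, q, m', s) := by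
  obtain ⟨U0, U1, U2, W, L0, L1, M0, M1, Q, S, h1, h2, h3, h4, h5⟩ := h
  have c0 : 0 < cr m' (-u) := by rw [cr_negr, cr_swap' u m', neg_neg]; exact p0
  have c1 : 0 < cr m' (-s) := by rw [cr_negr, cr_swap' s m', neg_neg]; exact p1
  obtain ⟨A, B, k0, k1⟩ := col2 h3.rot h5.rot (a' := m') (by
    rcases hm with rfl | rfl
    · right; abel
    · left; abel) c0 c1
  have j0 := k0.unrot
  have j1 := k1.unrot
  simp only [sh_sh, add_neg_cancel, sh_zero] at j0 j1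
  exact ⟨U0, U1, U2, W, L0, L1, B, A, Q, S, h1, h2, j0, h4, j1⟩

theorem Has6.swap (h : Has6 O (u, v, l, q, m, s)) : Has6 O (-u, -v, -m, -s, -l, -q) := by
  obtain ⟨U0, U1, U2, W, L0, L1, M0, M1, Q, S, h1, h2, h3, h4, h5⟩ := h
  exact ⟨sh (-u) U1, sh (-u) U0, sh (-u) U2, sh (-v) W, sh (-m) M1, sh (-m) M0, sh (-l) L1,
    sh (-l) L0, sh (-s) S, sh (-q) Q, h1.rot2, h3.rot2, h2.rot2, h5.rot2, h4.rot2⟩

end twists

/-- the products of a tree are positive -/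
theorem Has6.pos {O : PO X} {c : C6} (h : Has6 O c) : Pos6 c := by
  obtain ⟨u, v, l, q, m, s⟩ := c
  obtain ⟨U0, U1, U2, W, L0, L1, M0, M1, Q, S, h1, h2, h3, h4, h5⟩ := h
  exact ⟨h1.1, h2.1, h3.1, h4.1, h5.1⟩

/-- the moves of the tree, other than the generators of `SL₂(ℤ)` -/
inductive Tw6 : C6 → C6 → Prop
  | tv (u v l q m s : Z2) : Tw6 (u, v, l, q, m, s) (u, v + u, l, q, m, s)
  | tq (u v l q m s : Z2) : Tw6 (u, v, l, q, m, s) (u, v, l, q + l, m, s)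
  | ts (u v l q m s : Z2) : Tw6 (u, v, l, q, m, s) (u, v, l, q, m, s + m)
  | tl (u v l q m s : Z2) : 0 < cr u (l + (u + q)) → 0 < cr q (l + (u + q)) →
      Tw6 (u, v, l, q, m, s) (u, v, l + (u + q), q, m, s)
  | tm (u v l q m s : Z2) : 0 < cr u (m + (u + s)) → 0 < cr s (m + (u + s)) →
      Tw6 (u, v, l, q, m, s) (u, v, l, q, m + (u + s), s)
  | tu (u v l q m s : Z2) : 0 < cr (u + (v + l + m)) v → 0 < cr (u + (v + l + m)) l →
      0 < cr (u + (v + l + m)) m → Tw6 (u, v, l, q, m, s) (u + (v + l + m), v, l, q, m, s)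
  | swap (u v l q m s : Z2) : Tw6 (u, v, l, q, m, s) (-u, -v, -m, -s, -l, -q)

theorem Mv6.cases' {c c' : C6} (h : Mv6 c c') :
    Tw6 c c' ∨ Ex6 c c' ∨ c' = c.map shT ∨ c' = c.map shJ := by
  cases h with
  | tv => exact Or.inl (Tw6.tv _ _ _ _ _ _)
  | tq => exact Or.inl (Tw6.tq _ _ _ _ _ _)
  | ts => exact Or.inl (Tw6.ts _ _ _ _ _ _)
  | tl _ _ _ _ _ _ h1 h2 => exact Or.inl (Tw6.tl _ _ _ _ _ _ h1 h2)
  | tm _ _ _ _ _ _ h1 h2 => exact Or.inl (Tw6.tm _ _ _ _ _ _ h1 h2)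
  | tu _ _ _ _ _ _ h1 h2 h3 => exact Or.inl (Tw6.tu _ _ _ _ _ _ h1 h2 h3)
  | swap => exact Or.inl (Tw6.swap _ _ _ _ _ _)
  | exP _ _ _ _ _ _ _ _ _ _ h1 h2 h3 h4 h5 h6 h7 h8 h9 ha hb hc hd =>
    exact Or.inr (Or.inl (Ex6.exP _ _ _ _ _ _ _ _ _ _ h1 h2 h3 h4 h5 h6 h7 h8 h9 ha hb hc hd))
  | exM _ _ _ _ _ _ _ _ _ _ h1 h2 h3 h4 h5 h6 h7 h8 h9 ha hb hc hd =>
    exact Or.inr (Or.inl (Ex6.exM _ _ _ _ _ _ _ _ _ _ h1 h2 h3 h4 h5 h6 h7 h8 h9 ha hb hc hd))
  | T => exact Or.inr (Or.inr (Or.inl rfl))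
  | J => exact Or.inr (Or.inr (Or.inr rfl))

/-- MOVES, same origami -/
theorem Has6.mv {O : PO X} {c c' : C6} (h : Has6 O c) (hm : Tw6 c c') : Has6 O c' := by
  cases hm with
  | tv => exact h.tv (Or.inl rfl)
  | tq => exact h.tq (Or.inl rfl)
  | ts => exact h.ts (Or.inl rfl)
  | tl _ _ _ _ _ _ h1 h2 => exact h.tl (Or.inl rfl) h1 h2
  | tm _ _ _ _ _ _ h1 h2 => exact h.tm (Or.inl rfl) h1 h2
  | tu _ _ _ _ _ _ h1 h2 h3 => exact h.tu (Or.inl rfl) h1 h2 h3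
  | swap => exact h.swap

theorem Has6.mv_symm {O : PO X} {c c' : C6} (hc : Pos6 c) (h : Has6 O c') (hm : Tw6 c c') :
    Has6 O c := by
  cases hm with
  | tv => exact h.tv (Or.inr rfl)
  | tq => exact h.tq (Or.inr rfl)
  | ts => exact h.ts (Or.inr rfl)
  | tl => exact h.tl (Or.inr rfl) hc.2.1 hc.2.2.2.1
  | tm => exact h.tm (Or.inr rfl) hc.2.2.1 hc.2.2.2.2
  | tu => exact h.tu (Or.inr rfl) hc.1 hc.2.1 hc.2.2.1
  | swap =>
    have := h.swap
    simp only [neg_neg] at this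
    exact this

end Pool.Agent.H4G.Six
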