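import Pool.Agent.H4G.Six.Fin6
import Pool.Agent.H4G.Six.Block6
import Pool.Agent.H4G.Six.Recon6
import Pool.Agent.H4G.Six.Twist

/-!
# Equal lattices give an anti-automorphism (helper27)

If the two tori of a tree of `O` have the same lattice, then `O` has an anti-automorphism.
-/

set_option autoImplicit false

namespace Pool.Agent.H4G.Six

open Pool.Agent.H4G

variable {X : Type}

/-! ## Relations closed under the twists of the tori -/

/-- An equivalence relation on trees closed under the twists of the first torus and under the half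
turn of the column. -/
structure Cl6 (R : C6 → C6 → Prop) : Prop where
  refl : ∀ c, R c c
  symm : ∀ c c', R c c' → R c' c
  trans : ∀ c c' c'', R c c' → R c' c'' → R c c''
  tq : ∀ u v l q m s : Z2, Pos6 (u, v, l, q, m, s) → R (u, v, l, q, m, s) (u, v, l, q + l, m, s)
  tl : ∀ u v l q m s : Z2, Pos6 (u, v, l, q, m, s) → 0 < cr u (l + (u + q)) →
    0 < cr q (l + (u + q)) → R (u, v, l, q, m, s) (u, v, l + (u + q), q, m, s)
  swap : ∀ u v l q m s : Z2, Pos6 (u, v, l, q, m, s) →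
    R (u, v, l, q, m, s) (-u, -v, -m, -s, -l, -q)

theorem posSw6 {u v l q m s : Z2} (h : Pos6 (u, v, l, q, m, s)) :
    Pos6 (-u, -v, -m, -s, -l, -q) := by
  obtain ⟨h1, h2, h3, h4, h5⟩ := h
  refine ⟨?_, ?_, ?_, ?_, ?_⟩ <;> rw [cr_neg_left, cr_neg_right, neg_neg] <;> assumption

/-- block lemma, first torus -/
theorem Cl6.block1 {R : C6 → C6 → Prop} (hR : Cl6 R) {u v l q m s l1 q1 : Z2}
    (hp : Pos6 (u, v, l, q, m, s)) (hp1 : Pos6 (u, v, l1, q1, m, s))
    (hl : lat l (u + q) = lat l1 (u + q1)) :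
    R (u, v, l, q, m, s) (u, v, l1, q1, m, s) := by
  obtain ⟨h1, h2, h3, h4, h5⟩ := hp
  have hE : BRel u (fun x y => R (u, v, x.1, x.2, m, s) (u, v, y.1, y.2, m, s)) := by
    refine ⟨fun _ => hR.refl _, fun _ _ h => hR.symm _ _ h, fun _ _ _ h h' => hR.trans _ _ _ h h',
      fun l q h => ?_, fun l q h h' => ?_⟩
    · exact hR.tq u v l q m s ⟨h1, h.1, h3, h.2, h5⟩
    · exact hR.tl u v l q m s ⟨h1, h.1, h3, h.2, h5⟩ h'.1 h'.2
  exact hE.block (l := l) (q := q) (l1 := l1) (q1 := q1) ⟨h2, h4⟩ ⟨hp1.2.1, hp1.2.2.2.1⟩ hl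

/-- block lemma, second torus -/
theorem Cl6.block2 {R : C6 → C6 → Prop} (hR : Cl6 R) {u v l q m s m1 s1 : Z2}
    (hp : Pos6 (u, v, l, q, m, s)) (hp1 : Pos6 (u, v, l, q, m1, s1))
    (hl : lat m (u + s) = lat m1 (u + s1)) :
    R (u, v, l, q, m, s) (u, v, l, q, m1, s1) := by
  have e1 := hR.swap _ _ _ _ _ _ hp
  have e2 := hR.swap _ _ _ _ _ _ hp1
  have neg : ∀ x y : Z2, lat (-x) (-u + -y) = lat x (u + y) := by
    intro x y
    exact closure_pair_eq (α := -1) (β := 0) (γ := 0) (δ := -1) (by module) (by module)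
      (Or.inl (by norm_num))
  have e3 := hR.block1 (posSw6 hp) (posSw6 hp1) (by rw [neg, neg]; exact hl)
  exact hR.trans _ _ _ e1 (hR.trans _ _ _ e3 (hR.symm _ _ e2))

/-! ## The anti-automorphism -/

/-- the relation: the same origamis have these two trees -/
def HR (X : Type) (c c' : C6) : Prop := ∀ O : PO X, Has6 O c ↔ Has6 O c'

theorem cl6_HR : Cl6 (HR X) where
  refl _ _ := Iff.rfl
  symm _ _ h O := (h O).symm
  trans _ _ _ h h' O := (h O).trans (h' O)
  tq _ _ _ _ _ _ hp _ := ⟨fun h => h.mv (.tq _ _ _ _ _ _), fun h => h.mv_symm hp (.tq _ _ _ _ _ _)⟩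
  tl _ _ _ _ _ _ hp h1 h2 _ := ⟨fun h => h.mv (.tl _ _ _ _ _ _ h1 h2),
    fun h => h.mv_symm hp (.tl _ _ _ _ _ _ h1 h2)⟩
  swap _ _ _ _ _ _ hp _ := ⟨fun h => h.mv (.swap _ _ _ _ _ _),
    fun h => h.mv_symm hp (.swap _ _ _ _ _ _)⟩

theorem vol6_swap_slits (u v l q m s : Z2) : vol6 (u, v, m, s, l, q) = vol6 (u, v, l, q, m, s) := by
  simp only [vol6]; ring

theorem JJ_anti {O : PO X} {e : X ≃ X} (h : Iso6 O O.J.J e) : O.Anti e where
  r x := h.r x
  u x := h.u x

/-- an anti-automorphism is the same as an isomorphism with the origami turned by `π` -/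
theorem anti_JJ {O : PO X} {e : X ≃ X} (h : O.Anti e) : Iso6 O O.J.J e where
  r x := h.r x
  u x := h.u x

/-- EQUAL LATTICES GIVE AN ANTI-AUTOMORPHISM -/
theorem anti_of_lat [Finite X] {O : PO X} {c : C6}
    (hO : O.Trans) (h : Has6 O c) (hX : (Nat.card X : ℤ) = vol6 c)
    (hL : latL c = latM c) : ∃ i : Equiv.Perm X, O.Anti i := by
  have hc := h.pos
  have hcl := cl6_HR (X := X)
  obtain ⟨u, v, l, q, m, s⟩ := c
  have hL' : lat l (u + q) = lat m (u + s) := hL
  have hc' : Pos6 (u, v, m, s, l, q) := by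
    obtain ⟨h1, h2, h3, h4, h5⟩ := hc
    exact ⟨h1, h3, h2, h5, h4⟩
  have h1 : HR X (u, v, l, q, m, s) (u, v, m, s, l, q) := by
    have hc2 : Pos6 (u, v, m, s, m, s) := ⟨hc.1, hc'.2.1, hc.2.2.1, hc'.2.2.2.1, hc.2.2.2.2⟩
    exact hcl.trans _ _ _ (hcl.block1 hc hc2 hL') (hcl.block2 hc2 hc' hL'.symm)
  have h2 : Has6 O (u, v, m, s, l, q) := (h1 O).1 h
  have h3 : Has6 O.J.J (u, v, m, s, l, q) := by
    have h4 := (h.J).J
    have e : ∀ x : Z2, shJ (shJ x) = -x := by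
      intro x; apply Prod.ext <;> simp [shJ]
    have e2 : (C6.map shJ (C6.map shJ (u, v, l, q, m, s))) = (-u, -v, -l, -q, -m, -s) := by
      simp only [C6.map, e]
    rw [e2] at h4
    exact (hcl.swap _ _ _ _ _ _ hc' O.J.J).2 h4
  have htr : O.J.J.Trans := trans6_J.2 (trans6_J.2 hO)
  have hX' : (Nat.card X : ℤ) = vol6 (u, v, m, s, l, q) := by rw [vol6_swap_slits]; exact hX
  obtain ⟨e, he⟩ := recon6 hO htr h2 h3 hX' hX'
  exact ⟨e, JJ_anti he⟩

/-- the two lattices of a tree of an origami of odd type are different -/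
theorem Odd6.lat_ne [Finite X] {O : PO X} {c : C6} (hO : Odd6 O) (h : Has6 O c)
    (hX : (Nat.card X : ℤ) = vol6 c) : latL c ≠ latM c := by
  intro e
  obtain ⟨i, hi⟩ := anti_of_lat hO.trans h hX e
  exact hO.none i hi

end Pool.Agent.H4G.Six
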