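import Pool.Agent.H4G.Six.Config2
import Mathlib.RingTheory.Polynomial.RationalRoot

/-!
# Stage II, the arithmetic of an extremal fork (helper62; typed by helper46)

`cubic_int`: the monic cubic, so `S = λ w`, `w`, `S₂` are integers.
-/

set_option autoImplicit false

namespace Pool.Agent.H4G.Six

open Pool.Agent.H4G

/-- a rational root of a monic integral cubic is an integer -/
theorem rat_root_int {S : ℚ} {a b c : ℤ} (h : S ^ 3 = a * S ^ 2 + b * S + c) :
    ∃ n : ℤ, (n : ℚ) = S := by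
  have hq : (S.den : ℚ) ≠ 0 := by exact_mod_cast S.den_ne_zero
  have h1 : (S.num : ℚ) ^ 3 = S.den * (a * S.num ^ 2 + b * S.num * S.den + c * S.den ^ 2) := by
    have e : S = S.num / S.den := (Rat.num_div_den S).symm
    rw [e] at h
    field_simp at h
    linarith
  have h2 : S.num ^ 3 = S.den * (a * S.num ^ 2 + b * S.num * S.den + c * S.den ^ 2) := by
    exact_mod_cast h1
  have h3 : (S.den : ℤ) ∣ S.num ^ 3 := ⟨_, h2⟩
  have hc : IsCoprime S.num (S.den : ℤ) := by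
    rw [Int.isCoprime_iff_gcd_eq_one]
    exact_mod_cast S.reduced
  have h4 : IsCoprime (S.num ^ 3) (S.den : ℤ) := hc.pow_left
  have h5 : IsUnit (S.den : ℤ) := h4.isUnit_of_dvd' h3 dvd_rfl
  have h6 : S.den = 1 := by
    rcases Int.isUnit_iff.1 h5 with h | h
    · exact_mod_cast h
    · have := S.pos
      omega
  refine ⟨S.num, ?_⟩
  rw [← Rat.num_div_den S, h6]
  simp

/-- **the monic cubic** -/
theorem cubic_int {x0 x2 lam lam2 : ℚ} (hx0 : 0 < x0) (hx2 : 0 < x2) (hl : 1 < lam)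
    (hl2 : 1 < lam2) {p1 p2 p3 p4 : ℤ} (h1 : lam * x0 = p1) (h2 : lam * x2 = p2 * lam2)
    (h3 : (lam - 1) * (x0 + 1 + x2) = p3) (h4 : lam * (lam2 - 1) * (x0 + 1 + x2) = p4 * lam2) :
    ∃ S w S2 : ℤ, (S : ℚ) = lam * (x0 + 1 + x2) ∧ (w : ℚ) = x0 + 1 + x2 ∧ lam2 * S2 = S ∧
      p3 = S - w ∧ p4 = S - S2 ∧ 2 ≤ w ∧ w < S ∧ 0 < p1 ∧ 0 < p2 ∧ p2 < S2 ∧ S2 < S ∧
      p1 * w * S2 + S * S2 + p2 * S * w = S * w * S2 ∧ w ∣ S * S2 ∧
      (w : ℚ) * lam = S ∧ (S : ℚ) * x0 = p1 * w ∧ (S2 : ℚ) * x2 = p2 * w := by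
  set w : ℚ := x0 + 1 + x2 with hw
  set S : ℚ := lam * w with hS
  have hl0 : (0 : ℚ) < lam := by linarith
  have hl20 : (0 : ℚ) < lam2 := by linarith
  have hw1 : 1 < w := by linarith
  have hS0 : 0 < S := mul_pos hl0 (by linarith)
  have hSw : w = S - p3 := by rw [← h3, hS]; ring
  have hS2 : (S - p4) * lam2 = S := by
    have : p4 * lam2 = lam * (lam2 - 1) * w := h4.symm
    rw [sub_mul, this, hS]; ring
  have hp2pos : (0 : ℚ) < p2 := by
    have h5 : 0 < (p2 : ℚ) * lam2 := by rw [← h2]; exact mul_pos hl0 hx2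
    exact (mul_pos_iff_of_pos_right hl20).1 h5
  have hp1pos : (0 : ℚ) < p1 := by rw [← h1]; exact mul_pos hl0 hx0
  have hlw : lam * w = S := rfl
  have hSp1 : S - p1 = lam + p2 * lam2 := by
    rw [hS, hw, ← h1, ← h2]; ring
  have hwpos : 0 < w := by linarith
  have hS2pos : 0 < S - p4 := by
    have : 0 < (S - p4) * lam2 := by rw [hS2]; exact hS0
    exact (mul_pos_iff_of_pos_right hl20).1 this
  -- the cubic
  have hcub : (S - p1) * (S - p3) * (S - p4) = S * (S - p4) + p2 * S * (S - p3) := by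
    have e1 : lam * (S - p3) = S := by rw [← hSw]
    have e2 : lam2 * (S - p4) = S := by rw [mul_comm]; exact hS2
    calc (S - p1) * (S - p3) * (S - p4)
        = (lam * (S - p3)) * (S - p4) + p2 * (lam2 * (S - p4)) * (S - p3) := by
          rw [hSp1]; ring
      _ = S * (S - p4) + p2 * S * (S - p3) := by rw [e1, e2]
  obtain ⟨n, hn⟩ := rat_root_int (S := S) (a := p1 + p3 + p4 + 1 + p2)
    (b := -(p1 * p3 + p1 * p4 + p3 * p4) - p4 - p2 * p3) (c := p1 * p3 * p4) (by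
      push_cast
      linear_combination hcub)
  have hwn : w = (n - p3 : ℤ) := by push_cast; rw [hn]; exact hSw
  have hS2n : S - p4 = (n - p4 : ℤ) := by push_cast; rw [hn]
  have hlam2S2 : lam2 * ((n - p4 : ℤ) : ℚ) = S := by rw [← hS2n, mul_comm]; exact hS2
  have hx2S2 : ((n - p4 : ℤ) : ℚ) * x2 = p2 * w := by
    have : lam * ((n - p4 : ℤ) * x2) = lam * (p2 * w) := by
      calc lam * (((n - p4 : ℤ) : ℚ) * x2) = (lam * x2) * ((n - p4 : ℤ) : ℚ) := by ring
        _ = p2 * (lam2 * ((n - p4 : ℤ) : ℚ)) := by rw [h2]; ring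
        _ = p2 * S := by rw [hlam2S2]
        _ = lam * (p2 * w) := by rw [hS]; ring
    exact mul_left_cancel₀ hl0.ne' this
  refine ⟨n, n - p3, n - p4, hn, hwn.symm, ?_, by ring, by ring, ?_, ?_, ?_, ?_, ?_, ?_, ?_, ?_,
    ?_, ?_, ?_⟩
  · rw [hn]; exact hlam2S2
  · have : (1 : ℚ) < (n - p3 : ℤ) := by rw [← hwn]; exact hw1
    have : (1 : ℤ) < n - p3 := by exact_mod_cast this
    omega
  · have : ((n - p3 : ℤ) : ℚ) < n := by
      rw [← hwn, hn, hS]
      nlinarith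
    exact_mod_cast this
  · exact_mod_cast hp1pos
  · exact_mod_cast hp2pos
  · -- p2 < S2 : x2 < w
    have h5 : (p2 : ℚ) * w < ((n - p4 : ℤ) : ℚ) * w := by
      rw [← hx2S2]
      have h6 : (0 : ℚ) < ((n - p4 : ℤ) : ℚ) := by rw [← hS2n]; exact hS2pos
      exact mul_lt_mul_of_pos_left (by rw [hw]; linarith) h6
    have := lt_of_mul_lt_mul_right h5 hwpos.le
    exact_mod_cast this
  · have : ((n - p4 : ℤ) : ℚ) < n := by
      rw [hn, ← hlam2S2]
      have h6 : (0 : ℚ) < ((n - p4 : ℤ) : ℚ) := by rw [← hS2n]; exact hS2pos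
      nlinarith
    exact_mod_cast this
  · have : ((p1 * (n - p3) * (n - p4) + n * (n - p4) + p2 * n * (n - p3) : ℤ) : ℚ) =
        ((n * (n - p3) * (n - p4) : ℤ) : ℚ) := by
      push_cast
      rw [hn]
      linear_combination -hcub
    exact_mod_cast this
  · -- lam S2 = S2 (S - p1) - p2 S
    refine ⟨(n - p4) * (n - p1) - p2 * n, ?_⟩
    have : ((n * (n - p4) : ℤ) : ℚ) = (((n - p3) * ((n - p4) * (n - p1) - p2 * n) : ℤ) : ℚ) := by
      push_cast
      rw [hn]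
      linear_combination -hcub
    exact_mod_cast this
  · rw [← hwn, hn, mul_comm]
  · rw [← hwn, hn, hS]
    calc lam * w * x0 = (lam * x0) * w := by ring
      _ = p1 * w := by rw [h1]
  · rw [← hwn]; exact hx2S2

/-! ## The index bound -/

/-- if `D z` lies in the lattice `⟨u, l⟩` for all `z`, then `u × l ∣ D²` -/
theorem index_dvd {u l : Z2} {D : ℤ}
    (h : ∀ z : Z2, D • z ∈ AddSubgroup.closure ({u, l} : Set Z2)) : cr u l ∣ D ^ 2 := by
  have h1 : AddSubgroup.closure ({D • ((1, 0) : Z2), D • ((0, 1) : Z2)} : Set Z2) ≤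
      AddSubgroup.closure {u, l} := by
    rw [AddSubgroup.closure_le]
    rintro z (rfl | rfl)
    · exact h _
    · exact h _
  have h2 := area_dvd h1
  have e : cr (D • ((1, 0) : Z2)) (D • ((0, 1) : Z2)) = D ^ 2 := by
    simp only [cr, Prod.smul_mk, smul_eq_mul]; ring
  rwa [e] at h2

/-- generators are enough -/
theorem index_dvd_of_gen {u l v q m s : Z2} {D : ℤ}
    (hgen : AddSubgroup.closure ({u, v, l, q, m, s} : Set Z2) = ⊤)
    (hv : D • v ∈ AddSubgroup.closure ({u, l} : Set Z2))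
    (hq : D • q ∈ AddSubgroup.closure ({u, l} : Set Z2))
    (hm : D • m ∈ AddSubgroup.closure ({u, l} : Set Z2))
    (hs : D • s ∈ AddSubgroup.closure ({u, l} : Set Z2)) : cr u l ∣ D ^ 2 := by
  apply index_dvd
  intro z
  have hz : z ∈ AddSubgroup.closure ({u, v, l, q, m, s} : Set Z2) := by rw [hgen]; trivial
  induction hz using AddSubgroup.closure_induction with
  | mem x hx =>
    simp only [Set.mem_insert_iff, Set.mem_singleton_iff] at hx
    rcases hx with rfl | rfl | rfl | rfl | rfl | rfl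
    · exact AddSubgroup.zsmul_mem _ (AddSubgroup.subset_closure (by simp)) _
    · exact hv
    · exact AddSubgroup.zsmul_mem _ (AddSubgroup.subset_closure (by simp)) _
    · exact hq
    · exact hm
    · exact hs
  | zero => rw [smul_zero]; exact AddSubgroup.zero_mem _
  | add x y _ _ hx hy => rw [smul_add]; exact AddSubgroup.add_mem _ hx hy
  | neg x _ hx => rw [smul_neg]; exact AddSubgroup.neg_mem _ hx

/-- a vector with `D (u × z)` and `D (z × l)` divisible by `u × l` has `D z` in `⟨u, l⟩` -/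
theorem smul_mem_of_dvd {u l z : Z2} {D : ℤ} (hb : cr u l ≠ 0) (h1 : cr u l ∣ D * cr u z)
    (h2 : cr u l ∣ D * cr z l) : D • z ∈ AddSubgroup.closure ({u, l} : Set Z2) := by
  obtain ⟨j, hj⟩ := h1
  obtain ⟨i, hi⟩ := h2
  refine AddSubgroup.mem_closure_pair.2 ⟨i, j, ?_⟩
  have k1 : cr u l * z.1 = cr z l * u.1 + cr u z * l.1 := by simp only [cr]; ring
  have k2 : cr u l * z.2 = cr z l * u.2 + cr u z * l.2 := by simp only [cr]; ring
  ext
  · simp only [Prod.fst_add, Prod.smul_fst, smul_eq_mul]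
    apply mul_left_cancel₀ hb
    linear_combination (-u.1) * hi - l.1 * hj - D * k1
  · simp only [Prod.snd_add, Prod.smul_snd, smul_eq_mul]
    apply mul_left_cancel₀ hb
    linear_combination (-u.2) * hi - l.2 * hj - D * k2

private theorem cr_plucker' (u s l m : Z2) :
    cr u l * cr s m - cr s l * cr u m = cr u s * cr l m := by
  simp only [cr]; ring

/-! ## The extremal fork -/

/-- the integers of an extremal fork: `b = u × l`, `w = W / b`, `S = λ w`, `S₂ = S / λ₂` -/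
structure BInt (u v l q m s : Z2) (S w S2 p1 p2 gam : ℤ) : Prop where
  hw : w * cr u l = cr u v + cr u l + cr u m
  hS : w * (cr u l + cr q l) = S * cr u l
  hS2 : S2 * (cr u m + cr s m) = S * cr u m
  hA : S * cr u v = p1 * w * cr u l
  hM : S2 * cr u m = p2 * w * cr u l
  hg : S2 * cr u s = gam * w * cr u l
  w2 : 2 ≤ w
  wS : w < S
  p1pos : 0 < p1
  p2pos : 0 < p2
  p2lt : p2 < S2
  S2lt : S2 < S
  rel : p1 * w * S2 + S * S2 + p2 * S * w = S * w * S2
  dvd : w ∣ S * S2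

/-- (3), in integers: `b = u × l`, `A = u × v`, `a₀ = q × l`, `b₂ = u × m`, `s₀ = s × m`,
`C = u × s` -/
theorem exists_BInt0 {b A a0 b2 s0 C : ℤ} (hb : 0 < b) (hA : 0 < A) (hQ : 0 < a0)
    (hM : 0 < b2) (hS : 0 < s0) (d1 : b ^ 2 ∣ (b + a0) * A)
    (d3 : b ^ 2 ∣ a0 * (A + b + b2)) (d2 : b ^ 2 * (b2 + s0) ∣ (b + a0) * b2 ^ 2)
    (d4 : b ^ 2 * (b2 + s0) ∣ (b + a0) * (A + b + b2) * s0)
    (d5 : b ^ 2 * (b2 + s0) ∣ (b + a0) * b2 * C) :
    ∃ S w S2 p1 p2 gam : ℤ, w * b = A + b + b2 ∧ w * (b + a0) = S * b ∧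
      S2 * (b2 + s0) = S * b2 ∧ S * A = p1 * w * b ∧ S2 * b2 = p2 * w * b ∧
      S2 * C = gam * w * b ∧ 2 ≤ w ∧ w < S ∧ 0 < p1 ∧ 0 < p2 ∧ p2 < S2 ∧ S2 < S ∧
      p1 * w * S2 + S * S2 + p2 * S * w = S * w * S2 ∧ w ∣ S * S2 := by
  obtain ⟨p1, h1⟩ := d1
  obtain ⟨p2, h2⟩ := d2
  obtain ⟨p3, h3⟩ := d3
  obtain ⟨p4, h4⟩ := d4
  obtain ⟨gam, h5⟩ := d5
  have hbq : (0 : ℚ) < b := by exact_mod_cast hb
  have hAq : (0 : ℚ) < A := by exact_mod_cast hA
  have hQq : (0 : ℚ) < a0 := by exact_mod_cast hQ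
  have hMq : (0 : ℚ) < b2 := by exact_mod_cast hM
  have hSq : (0 : ℚ) < s0 := by exact_mod_cast hS
  have e1 : ((b : ℚ) + a0) * A = b ^ 2 * p1 := by exact_mod_cast h1
  have e2 : ((b : ℚ) + a0) * b2 ^ 2 = b ^ 2 * (b2 + s0) * p2 := by exact_mod_cast h2
  have e3 : (a0 : ℚ) * (A + b + b2) = b ^ 2 * p3 := by exact_mod_cast h3
  have e4 : ((b : ℚ) + a0) * (A + b + b2) * s0 = b ^ 2 * (b2 + s0) * p4 := by exact_mod_cast h4
  have e5 : ((b : ℚ) + a0) * b2 * C = b ^ 2 * (b2 + s0) * gam := by exact_mod_cast h5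
  obtain ⟨S, w, S2, c1, c2, c3, c4, c5, c6, c7, c8, c9, c10, c11, c12, c13, c14, c15, c16⟩ :=
    cubic_int (x0 := (A : ℚ) / b) (x2 := (b2 : ℚ) / b) (lam := ((b : ℚ) + a0) / b)
      (lam2 := ((b2 : ℚ) + s0) / b2) (p1 := p1) (p2 := p2) (p3 := p3) (p4 := p4)
      (by positivity) (by positivity)
      (by rw [lt_div_iff₀ hbq]; linarith) (by rw [lt_div_iff₀ hMq]; linarith)
      (by field_simp; linarith) (by field_simp; linarith) (by field_simp; linarith)
      (by field_simp; linarith)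
  have f0 : (b : ℚ) + a0 ≠ 0 := by positivity
  have f1 : (b2 : ℚ) + s0 ≠ 0 := by positivity
  have g2 : (w : ℚ) * b = A + b + b2 := by rw [c2]; field_simp
  have g14 : (w : ℚ) * (b + a0) = S * b := by rw [← c14]; field_simp
  have g3 : (S2 : ℚ) * (b2 + s0) = S * b2 := by rw [← c3]; field_simp
  have g15 : (S : ℚ) * A = p1 * w * b := by
    field_simp at c15
    linarith
  have g16 : (S2 : ℚ) * b2 = p2 * w * b := by
    field_simp at c16
    linarith
  have g5 : (S2 : ℚ) * C = gam * w * b := by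
    have k1 : (S2 : ℚ) * (b2 + s0) * (b * C) = gam * w * b * (b2 + s0) * b := by
      calc (S2 : ℚ) * (b2 + s0) * (b * C) = (S * b) * (b2 * C) := by rw [g3]; ring
        _ = w * ((b + a0) * b2 * C) := by rw [← g14]; ring
        _ = gam * w * b * (b2 + s0) * b := by rw [e5]; ring
    have k2 : (b2 + s0 : ℚ) * b ≠ 0 := mul_ne_zero f1 hbq.ne'
    apply mul_right_cancel₀ k2
    linear_combination k1
  refine ⟨S, w, S2, p1, p2, gam, ?_, ?_, ?_, ?_, ?_, ?_, c6, c7, c8, c9, c10, c11, c12, c13⟩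
  · exact_mod_cast g2
  · exact_mod_cast g14
  · exact_mod_cast g3
  · exact_mod_cast g15
  · exact_mod_cast g16
  · exact_mod_cast g5

/-- **(3) for an extremal fork** -/
theorem exists_BInt {u v l q m s : Z2} (hb : 0 < cr u l) (hA : 0 < cr u v) (hQ : 0 < cr q l)
    (hM : 0 < cr u m) (hS : 0 < cr s m)
    (d1 : cr u l ^ 2 ∣ (cr u l + cr q l) * cr u v)
    (d3 : cr u l ^ 2 ∣ cr q l * (cr u v + cr u l + cr u m))
    (d2 : cr u l ^ 2 * (cr u m + cr s m) ∣ (cr u l + cr q l) * cr u m ^ 2)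
    (d4 : cr u l ^ 2 * (cr u m + cr s m) ∣
      (cr u l + cr q l) * (cr u v + cr u l + cr u m) * cr s m)
    (d5 : cr u l ^ 2 * (cr u m + cr s m) ∣ (cr u l + cr q l) * cr u m * cr u s) :
    ∃ S w S2 p1 p2 gam : ℤ, BInt u v l q m s S w S2 p1 p2 gam := by
  obtain ⟨S, w, S2, p1, p2, gam, c1, c2, c3, c4, c5, c6, c7, c8, c9, c10, c11, c12, c13, c14⟩ :=
    exists_BInt0 hb hA hQ hM hS d1 d3 d2 d4 d5
  exact ⟨S, w, S2, p1, p2, gam, c1, c2, c3, c4, c5, c6, c7, c8, c9, c10, c11, c12, c13, c14⟩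

/-- **(4), the index bound**: `b ≤ (w S S₂)²` -/
theorem BInt.le {u v l q m s : Z2} {S w S2 p1 p2 gam : ℤ}
    (h : BInt u v l q m s S w S2 p1 p2 gam) (hb : 0 < cr u l) (hM : 0 < cr u m)
    (e0 : cr u q = 0) (e1 : cr l m = 0) (e2 : cr v l = 0)
    (hgen : AddSubgroup.closure ({u, v, l, q, m, s} : Set Z2) = ⊤) :
    cr u l ≤ (w * S * S2) ^ 2 := by
  obtain ⟨h1, h2, h3, h4, h5, h6, h7, h8, h9, h10, h11, h12, h13, h14⟩ := h
  have hD : 0 < (w * S * S2) ^ 2 := by
    have a1 : 0 < w := by linarith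
    have a2 : 0 < S := by linarith
    have a3 : 0 < S2 := by linarith
    positivity
  apply Int.le_of_dvd hD
  have hml : cr m l = 0 := by rw [cr_swap' l m, e1, neg_zero]
  -- `b₂ (s × l) = b (s × m)`
  have k1 : cr u m * cr s l = cr u l * cr s m := by
    have := cr_plucker' u s l m
    rw [e1, mul_zero] at this
    linarith
  have k2 : S2 * cr s l = (S - S2) * cr u l := by
    apply mul_left_cancel₀ hM.ne'
    calc cr u m * (S2 * cr s l) = S2 * (cr u m * cr s l) := by ring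
      _ = (S2 * (cr u m + cr s m)) * cr u l - S2 * cr u m * cr u l := by rw [k1]; ring
      _ = cr u m * ((S - S2) * cr u l) := by rw [h3]; ring
  refine index_dvd_of_gen hgen ?_ ?_ ?_ ?_
  · refine smul_mem_of_dvd hb.ne' ⟨w * S2 * p1 * w, ?_⟩ ⟨0, by rw [e2]; ring⟩
    linear_combination (w * S2) * h4
  · refine smul_mem_of_dvd hb.ne' ⟨0, by rw [e0]; ring⟩ ⟨S * S2 * (S - w), ?_⟩
    linear_combination (S * S2) * h2
  · refine smul_mem_of_dvd hb.ne' ⟨w * S * p2 * w, ?_⟩ ⟨0, by rw [hml]; ring⟩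
    linear_combination (w * S) * h5
  · refine smul_mem_of_dvd hb.ne' ⟨w * S * gam * w, ?_⟩ ⟨w * S * (S - S2), ?_⟩
    · linear_combination (w * S) * h6
    · linear_combination (w * S) * k2

/-- **corollary**: bounded geometry is impossible for large `N` -/
theorem BInt.bound {u v l q m s : Z2} {S w S2 p1 p2 gam B : ℤ}
    (h : BInt u v l q m s S w S2 p1 p2 gam) (hb : 0 < cr u l) (hM : 0 < cr u m)
    (e0 : cr u q = 0) (e1 : cr l m = 0) (e2 : cr v l = 0)
    (hgen : AddSubgroup.closure ({u, v, l, q, m, s} : Set Z2) = ⊤)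
    (hB : 0 < B) (b1 : cr u v ≤ B * cr u l) (b2 : cr u m ≤ B * cr u l)
    (b3 : cr u l + cr q l ≤ B * cr u l) (b4 : cr u m + cr s m ≤ B * cr u m) :
    vol6 (u, v, l, q, m, s) ≤ (2 * B + B ^ 2) * ((2 * B + 1) ^ 3 * B ^ 2) ^ 2 := by
  have hle := h.le hb hM e0 e1 e2 hgen
  obtain ⟨h1, h2, h3, h4, h5, h6, h7, h8, h9, h10, h11, h12, h13, h14⟩ := h
  have w0 : 0 < w := by linarith
  have S0 : 0 < S := by linarith
  have S20 : 0 < S2 := by linarith
  have c1 : w ≤ 2 * B + 1 := by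
    have : w * cr u l ≤ (2 * B + 1) * cr u l := by rw [h1]; linarith
    exact le_of_mul_le_mul_right this hb
  have c2 : S ≤ (2 * B + 1) * B := by
    have k1 : w * (cr u l + cr q l) ≤ w * (B * cr u l) := mul_le_mul_of_nonneg_left b3 w0.le
    have k2 : w * (B * cr u l) ≤ (2 * B + 1) * (B * cr u l) :=
      mul_le_mul_of_nonneg_right c1 (by positivity)
    have k3 : S * cr u l ≤ (2 * B + 1) * B * cr u l := by
      rw [← h2]; linarith
    exact le_of_mul_le_mul_right k3 hb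
  have c3 : w * S * S2 ≤ (2 * B + 1) ^ 3 * B ^ 2 := by
    calc w * S * S2 ≤ (2 * B + 1) * ((2 * B + 1) * B) * ((2 * B + 1) * B) := by
          gcongr
          linarith
      _ = (2 * B + 1) ^ 3 * B ^ 2 := by ring
  have c4 : cr u l ≤ ((2 * B + 1) ^ 3 * B ^ 2) ^ 2 := by
    refine hle.trans ?_
    gcongr
  have c5 : cr u m + cr s m ≤ B * (B * cr u l) :=
    b4.trans (mul_le_mul_of_nonneg_left b2 hB.le)
  have c6 : vol6 (u, v, l, q, m, s) ≤ (2 * B + B ^ 2) * cr u l := by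
    simp only [vol6]
    linarith
  exact c6.trans (mul_le_mul_of_nonneg_left c4 (by positivity))

end Pool.Agent.H4G.Six
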