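import Pool.Agent.H4G.Six.BMin
import Pool.Agent.H4G.Arith.Ext

/-!
# Stage II, step (2): the second height of an extremal fork is minimal (helper62; Lean: helper5)
-/

set_option autoImplicit false

namespace Pool.Agent.H4G.Six

open Pool.Agent.H4G

variable {X : Type} {O : PO X} {N b : ℤ} {u v l q m s x w l1 m1 s1 : Z2}

/-- coordinates of a vector in the frame `u, l` -/
theorem fork_rel (u l w : Z2) : cr u l • w = cr w l • u + cr u w • l := by
  have h := cr_dep u l w
  have h1 := eq_neg_of_add_eq_zero_right h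
  rw [h1, cr_swap l w, cr_swap w u]
  module

/-- two products in the frame `u, l` -/
theorem fork_cr (u l w z : Z2) : cr u l * cr w z = cr w l * cr u z + cr u w * cr l z := by
  have h := congrArg (fun t => cr t z) (fork_rel u l w)
  rw [cr_smul_left, cr_add_left, cr_smul_left, cr_smul_left] at h
  exact h

/-- the second height after a row move `l ↦ l + i (u + q)` -/
theorem fork_lam2 {i : ℤ} (hl : l1 = l + i • (u + q)) (hlm : cr l m = 0) (hpar : cr l1 m1 = 0)
    (hM : lat m1 (u + s1) = lat m (u + s)) (hpos : 0 < cr (u + s1) l1) :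
    cr (u + s1) l1 =
      (Int.gcd (i * cr (u + q) m) (cr (u + s) l - i * cr (u + q) (u + s)) : ℕ) := by
  have e1 : cr (-l1) m1 = 0 := by rw [cr_neg_left, hpar, neg_zero]
  have e2 : cr (-l1) (u + s1) = cr (u + s1) l1 := by rw [cr_neg_left, cr_swap (u + s1) l1]
  have k1 : IsC (lat m1 (u + s1)) (-l1) (cr (-l1) (u + s1)) := isC_adapted e1 (by rw [e2]; exact hpos)
  rw [e2, hM] at k1
  have e3 : cr (-l1) m = -(i * cr (u + q) m) := by
    rw [hl, cr_neg_left, cr_add_left, cr_smul_left, hlm, zero_add]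
  have e4 : cr (-l1) (u + s) = cr (u + s) l - i * cr (u + q) (u + s) := by
    rw [hl, cr_neg_left, cr_add_left, cr_smul_left, cr_swap (u + s) l]; ring
  have hne : cr (-l1) m ≠ 0 ∨ cr (-l1) (u + s) ≠ 0 := by
    by_contra hn
    push Not at hn
    obtain ⟨w, hw, hw2⟩ := k1.2.2
    obtain ⟨i', j', e⟩ := Pool.Agent.H4G.mem_lat.1 hw
    rw [← e, cr_add_right, cr_smul_right, cr_smul_right, hn.1, hn.2] at hw2
    omega
  have k2 := isC_lat hne
  rw [e3, e4, Int.neg_gcd] at k2
  exact k1.unique k2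

/-- numbers of an extremal fork with minimal second height -/
structure BNum (N b A M a a2 C p1 p2 p3 p4 g : ℤ) : Prop where
  b0 : 0 < b
  A0 : 0 < A
  M0 : 0 < M
  ba : b < a
  ba2 : b < a2
  h1 : a * A = b ^ 2 * p1
  h2 : a * M = b * p2 * a2
  h3 : (a - b) * (A + b + M) = b ^ 2 * p3
  h4 : a * (a2 - b) * (A + b + M) = b ^ 2 * p4 * a2
  hg : a * C = b * g * a2
  hN : N * b = A * b + a * b + a2 * M

/-- an extremal fork whose second height `a2 = (u + s) × l` is minimal -/
structure BFM (O : PO X) (N b : ℤ) (u v l q m s : Z2) : Prop where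
  fk : BFork O N b u v l q m s
  least : ∀ u' v' l' q' m' s' : Z2, BFork O N b u' v' l' q' m' s' →
    cr (u + s) l ≤ cr (u' + s') l'

namespace BFork

variable (hF : BFork O N b u v l q m s)
include hF

theorem relV : b • v = cr u v • l := by
  have := fork_rel u l v
  rwa [hF.ul, hF.vl, zero_smul, zero_add] at this

theorem relM : b • m = cr u m • l := by
  have := fork_rel u l m
  rwa [hF.ul, cr_swap m l, hF.lm, neg_zero, zero_smul, zero_add] at this

theorem relQ : b • (u + q) = cr (u + q) l • u := by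
  have := fork_rel u l (u + q)
  rwa [hF.ul, cr_add_right, cr_self, hF.uq, add_zero, zero_smul, add_zero] at this

theorem a2pos : 0 < cr (u + s) l := by
  have h1 := fork_cr u l m (u + s)
  rw [cr_swap m l, hF.lm, neg_zero, zero_mul, zero_add, hF.ul] at h1
  obtain ⟨p1, p2, p3, p4, p5⟩ := hF.has.pos
  have hb := hF.bpos
  have h2 : cr m (u + s) = -(cr u m + cr s m) := by
    rw [cr_swap m (u + s), cr_add_left]
  rw [h2, cr_swap l (u + s)] at h1
  have h3 : 0 < cr u m * cr (u + s) l := by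
    have : cr u m * cr (u + s) l = b * (cr u m + cr s m) := by linarith
    rw [this]
    exact mul_pos hb (by linarith)
  exact (mul_pos_iff_of_pos_left p3).1 h3

/-- the area of the second torus -/
theorem areaM : b * cr (u + s) m = cr u m * cr (u + s) l := by
  have h1 := fork_cr u l m (u + s)
  rw [cr_swap m l, hF.lm, neg_zero, zero_mul, zero_add, hF.ul, cr_swap m (u + s),
    cr_swap l (u + s)] at h1
  linarith

theorem lt_a2 : b < cr (u + s) l := by
  obtain ⟨p1, p2, p3, p4, p5⟩ := hF.has.pos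
  have hb := hF.bpos
  have h1 := hF.areaM
  rw [cr_add_left] at h1
  have h2 : cr u m * b < cr u m * cr (u + s) l := by
    rw [← h1]
    nlinarith
  exact lt_of_mul_lt_mul_left h2 p3.le

theorem lt_a : b < cr (u + q) l := by
  obtain ⟨p1, p2, p3, p4, p5⟩ := hF.has.pos
  rw [cr_add_left, hF.ul]
  linarith

/-- the second height of a centre of the row -/
theorem a2_center (j : ℤ) : cr (u + j • (v + l + m) + s) l = cr (u + s) l := by
  have h1 : cr (v + l + m) l = 0 := hF.xl
  have e : u + j • (v + l + m) + s = (u + s) + j • (v + l + m) := by abel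
  rw [e, cr_add_left, cr_smul_left, h1, mul_zero, add_zero]

end BFork

theorem BFork.exists_BFM (hF : BFork O N b u v l q m s) :
    ∃ u v l q m s : Z2, BFM O N b u v l q m s := by
  obtain ⟨c, ⟨u', v', l', q', m', s', h1, h2⟩, hmin⟩ := exists_min_int
    (P := fun d => ∃ u v l q m s : Z2, BFork O N b u v l q m s ∧ cr (u + s) l = d)
    (fun d ⟨_, _, _, _, _, _, h1, h2⟩ => by rw [← h2]; exact h1.a2pos)
    ⟨_, u, v, l, q, m, s, hF, rfl⟩
  refine ⟨u', v', l', q', m', s', h1, fun u1 v1 l1 q1 m1 s1 h3 => ?_⟩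
  rw [h2]
  exact hmin _ ⟨u1, v1, l1, q1, m1, s1, h3, rfl⟩

theorem BMin.exists_BFM (h : BMin O N b) (hg : Gap O N b) :
    ∃ u v l q m s : Z2, BFM O N b u v l q m s := by
  obtain ⟨u, v, l, q, m, s, hF⟩ := h.exists_fork hg
  exact hF.exists_BFM

namespace BFM

variable (hF : BFM O N b u v l q m s)
include hF

/-- minimality passes to the centres of the row -/
theorem center (h : BMin O N b) (j : ℤ) : ∃ t : ℤ, b * t = -(j * cr (v + l + m) q) ∧
    BFM O N b (u + j • (v + l + m)) v l (q + t • l) m s := by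
  obtain ⟨t, k1, k2⟩ := hF.fk.center h j
  refine ⟨t, k1, k2, fun u' v' l' q' m' s' h' => ?_⟩
  rw [hF.fk.a2_center j]
  exact hF.least _ _ _ _ _ _ h'

/-- **(2)**: the second height divides `(u + q) × m` and `(u + q) × (u + s)` -/
theorem dvd (h : BMin O N b) (hg : Gap O N b) :
    cr (u + s) l ∣ cr (u + q) m ∧ cr (u + s) l ∣ cr (u + q) (u + s) := by
  obtain ⟨p1, p2, p3, p4, p5⟩ := hF.fk.has.pos
  have hb := hF.fk.bpos
  have ha := hF.fk.lt_a
  refine crt_min hF.fk.a2pos ?_ fun i => ?_
  · intro h0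
    have h1 := fork_cr u l (u + q) m
    rw [hF.fk.ul, h0, mul_zero, cr_add_right, cr_self, hF.fk.uq, add_zero, zero_mul,
      add_zero] at h1
    have h2 : 0 < cr (u + q) l * cr u m := mul_pos (by linarith) p3
    omega
  · obtain ⟨k, m', s', k1, k2, k3, k4⟩ := hF.fk.row h hg i
    have h1 := fork_lam2 (u := u) (s := s) (s1 := s') (i := i) rfl hF.fk.lm k1.lm k4 k1.a2pos
    rw [← h1]
    exact hF.least _ _ _ _ _ _ k1

/-- **the numbers of the class** -/
theorem num (h : BMin O N b) (hg : Gap O N b) : ∃ p1 p2 p3 p4 g : ℤ,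
    BNum N b (cr u v) (cr u m) (cr (u + q) l) (cr (u + s) l) (cr u (u + s)) p1 p2 p3 p4 g := by
  obtain ⟨r1, r2, r3, r4, r5⟩ := hF.fk.has.pos
  have hb := hF.fk.bpos
  obtain ⟨⟨c2, hc2⟩, ⟨c5, hc5⟩⟩ := hF.dvd h hg
  obtain ⟨c1, hc1⟩ := hF.fk.dvd_qv h hg
  obtain ⟨c3, hc3⟩ := hF.fk.dvd_xq h
  obtain ⟨t, ht, hF1⟩ := hF.center h 1
  obtain ⟨c6, hc6⟩ := (hF1.dvd h hg).2
  rw [hF.fk.a2_center 1] at hc6
  have hul := hF.fk.ul
  have huq := hF.fk.uq
  have hlm := hF.fk.lm
  have hvl := hF.fk.vl
  have f1 := fork_cr u l (u + q) v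
  have f2 := fork_cr u l (u + q) m
  have f5 := fork_cr u l (u + q) (u + s)
  have f3 := fork_cr u l q (v + l + m)
  rw [hul, cr_add_right u u q, cr_self, huq, add_zero, zero_mul, add_zero] at f1 f2 f5
  rw [hul, huq, zero_mul, add_zero] at f3
  rw [hc1] at f1
  rw [hc2] at f2
  rw [hc5] at f5
  rw [cr_swap q (v + l + m), hc3] at f3
  have e1 : cr q l = cr (u + q) l - b := by rw [cr_add_left, hul]; ring
  have e2 : cr u (v + l + m) = cr u v + b + cr u m := by rw [cr_add_right, cr_add_right, hul]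
  rw [e1, e2] at f3
  have ha := hF.fk.areaM
  have hN := hF.fk.vol
  simp only [vol6] at hN
  refine ⟨c1, c2, -c3, c5 - c6, c5, hb, r1, r3, hF.fk.lt_a, hF.fk.lt_a2, by linarith,
    by linarith, by linarith, ?_, by linarith, ?_⟩
  · -- the number `p4`
    have g1 := fork_cr (u + (1 : ℤ) • (v + l + m)) l
      (u + (1 : ℤ) • (v + l + m) + (q + t • l)) (u + (1 : ℤ) • (v + l + m) + s)
    have g2 := hF1.fk.ul
    have g3 := hF1.fk.uq
    have g4 : cr (u + (1 : ℤ) • (v + l + m)) (u + (1 : ℤ) • (v + l + m) + (q + t • l)) = 0 := by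
      rw [cr_add_right, cr_self, g3, add_zero]
    have g5 : cr (u + (1 : ℤ) • (v + l + m) + (q + t • l)) l = cr (u + q) l := by
      have h1 : cr (v + l + m) l = 0 := hF.fk.xl
      rw [one_smul, cr_add_left, cr_add_left, h1, cr_add_left, cr_smul_left, cr_self,
        cr_add_left]
      ring
    have g6 : cr (u + (1 : ℤ) • (v + l + m)) (u + (1 : ℤ) • (v + l + m) + s) =
        cr u (u + s) + cr (v + l + m) s := by
      rw [one_smul, cr_add_right, cr_self, cr_add_left, cr_add_right u u s, cr_self]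
      ring
    have g7 := fork_cr u l (v + l + m) s
    have h1 : cr (v + l + m) l = 0 := hF.fk.xl
    have g8 : cr l s = b - cr (u + s) l := by
      rw [cr_add_left, hul, cr_swap s l]; ring
    rw [hul, h1, zero_mul, zero_add, e2, g8] at g7
    rw [g2, g4, zero_mul, add_zero, g5, g6, hc6] at g1
    linear_combination b * g1 + cr (u + q) l * g7 - b * f5
  · have e3 : cr (u + s) m = cr u m + cr s m := cr_add_left u s m
    rw [← hN, hul]
    linear_combination ha - b * e3 + b * e1

end BFM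

end Pool.Agent.H4G.Six
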