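import Pool.Agent.H4G.Six.BArith
import Pool.Agent.H4G.Six.BLam

/-!
# Stage II: the integers of an extremal fork, from `BNum` (helper62; typed by helper46)
-/

set_option autoImplicit false

namespace Pool.Agent.H4G.Six

open Pool.Agent.H4G

/-- the integers `S = λ w`, `w`, `S₂ = S / λ₂` -/
structure SInt (b A M a a2 C p1 p2 g S w S2 : ℤ) : Prop where
  hw : w * b = A + b + M
  hS : w * a = S * b
  hS2 : S2 * a2 = S * b
  hA : S * A = p1 * w * b
  hM : S2 * M = p2 * w * b
  hC : S2 * C = g * w * b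
  w2 : 2 ≤ w
  wS : w < S
  p1pos : 0 < p1
  p2pos : 0 < p2
  p2lt : p2 < S2
  S2lt : S2 < S
  rel : p1 * w * S2 + S * S2 + p2 * S * w = S * w * S2
  dvd : w ∣ S * S2

variable {N b A M a a2 C p1 p2 p3 p4 g S w S2 : ℤ}

theorem BNum.exists_SInt (h : BNum N b A M a a2 C p1 p2 p3 p4 g) :
    ∃ S w S2 : ℤ, SInt b A M a a2 C p1 p2 g S w S2 ∧ p3 = S - w ∧ p4 = S - S2 := by
  obtain ⟨hb, hA, hM, hba, hba2, h1, h2, h3, h4, hg, -⟩ := h
  have hbq : (0 : ℚ) < b := by exact_mod_cast hb
  have hAq : (0 : ℚ) < A := by exact_mod_cast hA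
  have hMq : (0 : ℚ) < M := by exact_mod_cast hM
  have haq : (b : ℚ) < a := by exact_mod_cast hba
  have ha2q : (b : ℚ) < a2 := by exact_mod_cast hba2
  have e1 : (a : ℚ) * A = b ^ 2 * p1 := by exact_mod_cast h1
  have e2 : (a : ℚ) * M = b * p2 * a2 := by exact_mod_cast h2
  have e3 : ((a : ℚ) - b) * (A + b + M) = b ^ 2 * p3 := by exact_mod_cast h3
  have e4 : (a : ℚ) * (a2 - b) * (A + b + M) = b ^ 2 * p4 * a2 := by exact_mod_cast h4
  have e5 : (a : ℚ) * C = b * g * a2 := by exact_mod_cast hg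
  have a0 : (0 : ℚ) < a := by linarith
  have a20 : (0 : ℚ) < a2 := by linarith
  obtain ⟨S, w, S2, c1, c2, c3, c4, c5, c6, c7, c8, c9, c10, c11, c12, c13, c14, c15, c16⟩ :=
    cubic_int (x0 := (A : ℚ) / b) (x2 := (M : ℚ) / b) (lam := (a : ℚ) / b)
      (lam2 := (a2 : ℚ) / b) (p1 := p1) (p2 := p2) (p3 := p3) (p4 := p4)
      (by positivity) (by positivity)
      (by rw [lt_div_iff₀ hbq]; linarith) (by rw [lt_div_iff₀ hbq]; linarith)
      (by field_simp; linarith) (by field_simp; linarith) (by field_simp; linarith)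
      (by field_simp; linarith)
  have g2 : (w : ℚ) * b = A + b + M := by rw [c2]; field_simp
  have g14 : (w : ℚ) * a = S * b := by rw [← c14]; field_simp
  have g3 : (S2 : ℚ) * a2 = S * b := by rw [← c3]; field_simp
  have g15 : (S : ℚ) * A = p1 * w * b := by
    field_simp at c15
    linarith
  have g16 : (S2 : ℚ) * M = p2 * w * b := by
    field_simp at c16
    linarith
  have g5 : (S2 : ℚ) * C = g * w * b := by
    have k2 : (a : ℚ) ≠ 0 := a0.ne'
    apply mul_right_cancel₀ k2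
    calc (S2 : ℚ) * C * a = S2 * (a * C) := by ring
      _ = (S2 * a2) * (b * g) := by rw [e5]; ring
      _ = (w * a) * (b * g) := by rw [g3, g14]
      _ = g * w * b * a := by ring
  exact ⟨S, w, S2, ⟨by exact_mod_cast g2, by exact_mod_cast g14, by exact_mod_cast g3,
    by exact_mod_cast g15, by exact_mod_cast g16, by exact_mod_cast g5, c6, c7, c8, c9, c10, c11,
    c12, c13⟩, c4, c5⟩

variable {X : Type} {O : PO X} {u v l q m s : Z2}

/-- the integers of an extremal fork with minimal second height -/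
theorem BFM.sint (hF : BFM O N b u v l q m s) (h : BMin O N b) (hg : Gap O N b) :
    ∃ p1 p2 g S w S2 : ℤ,
      SInt b (cr u v) (cr u m) (cr (u + q) l) (cr (u + s) l) (cr u (u + s)) p1 p2 g S w S2 := by
  obtain ⟨p1, p2, p3, p4, g, k⟩ := hF.num h hg
  obtain ⟨S, w, S2, k1, -, -⟩ := k.exists_SInt
  exact ⟨p1, p2, g, S, w, S2, k1⟩

/-- **(4), the index bound** -/
theorem BFork.index_le (hF : BFork O N b u v l q m s)
    (k : SInt b (cr u v) (cr u m) (cr (u + q) l) (cr (u + s) l) (cr u (u + s)) p1 p2 g S w S2)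
    (hgen : AddSubgroup.closure ({u, v, l, q, m, s} : Set Z2) = ⊤) :
    b ≤ (w * S * S2) ^ 2 := by
  obtain ⟨h1, h2, h3, h4, h5, h6, h7, h8, h9, h10, h11, h12, h13, h14⟩ := k
  have hb := hF.bpos
  have hul := hF.ul
  have w0 : 0 < w := by linarith
  have S0 : 0 < S := by linarith
  have S20 : 0 < S2 := by linarith
  have hD : 0 < (w * S * S2) ^ 2 := by positivity
  rw [← hul]
  apply Int.le_of_dvd hD
  have hml : cr m l = 0 := by rw [cr_swap' l m, hF.lm, neg_zero]
  have hq : cr (u + q) l = b + cr q l := by rw [cr_add_left, hul]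
  have hs : cr (u + s) l = b + cr s l := by rw [cr_add_left, hul]
  have hus : cr u (u + s) = cr u s := by rw [cr_add_right, cr_self]; ring
  rw [hq] at h2
  rw [hs] at h3
  rw [hus] at h6
  refine index_dvd_of_gen hgen ?_ ?_ ?_ ?_
  · refine smul_mem_of_dvd (by rw [hul]; exact hb.ne') ⟨w * S2 * p1 * w, ?_⟩
      ⟨0, by rw [hF.vl]; ring⟩
    rw [hul]
    linear_combination (w * S2) * h4
  · refine smul_mem_of_dvd (by rw [hul]; exact hb.ne') ⟨0, by rw [hF.uq]; ring⟩
      ⟨S * S2 * (S - w), ?_⟩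
    rw [hul]
    linear_combination (S * S2) * h2
  · refine smul_mem_of_dvd (by rw [hul]; exact hb.ne') ⟨w * S * p2 * w, ?_⟩
      ⟨0, by rw [hml]; ring⟩
    rw [hul]
    linear_combination (w * S) * h5
  · refine smul_mem_of_dvd (by rw [hul]; exact hb.ne') ⟨w * S * g * w, ?_⟩
      ⟨w * S * (S - S2), ?_⟩
    · rw [hul]
      linear_combination (w * S) * h6
    · rw [hul]
      linear_combination (w * S) * h3

/-- **corollary**: bounded geometry is impossible for large `N` -/
theorem BFork.bound (hF : BFork O N b u v l q m s)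
    (k : SInt b (cr u v) (cr u m) (cr (u + q) l) (cr (u + s) l) (cr u (u + s)) p1 p2 g S w S2)
    (hgen : AddSubgroup.closure ({u, v, l, q, m, s} : Set Z2) = ⊤) {B : ℤ} (hB : 0 < B)
    (b1 : cr u v ≤ B * b) (b2 : cr u m ≤ B * b) (b3 : cr (u + q) l ≤ B * b)
    (b4 : cr (u + s) l ≤ B * b) :
    N ≤ (2 * B + B ^ 2) * ((2 * B + 1) ^ 3 * B ^ 2) ^ 2 := by
  have hle := hF.index_le k hgen
  obtain ⟨h1, h2, h3, h4, h5, h6, h7, h8, h9, h10, h11, h12, h13, h14⟩ := k
  obtain ⟨r1, r2, r3, r4, r5⟩ := hF.has.pos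
  have hb := hF.bpos
  have hul := hF.ul
  have w0 : 0 < w := by linarith
  have S0 : 0 < S := by linarith
  have S20 : 0 < S2 := by linarith
  have c1 : w ≤ 2 * B + 1 := by
    have : w * b ≤ (2 * B + 1) * b := by rw [h1]; linarith
    exact le_of_mul_le_mul_right this hb
  have c2 : S ≤ (2 * B + 1) * B := by
    have k1 : w * cr (u + q) l ≤ w * (B * b) := mul_le_mul_of_nonneg_left b3 w0.le
    have k2 : w * (B * b) ≤ (2 * B + 1) * (B * b) :=
      mul_le_mul_of_nonneg_right c1 (by positivity)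
    have k3 : S * b ≤ (2 * B + 1) * B * b := by
      rw [← h2]; linarith
    exact le_of_mul_le_mul_right k3 hb
  have c3 : w * S * S2 ≤ (2 * B + 1) ^ 3 * B ^ 2 := by
    calc w * S * S2 ≤ (2 * B + 1) * ((2 * B + 1) * B) * ((2 * B + 1) * B) := by
          gcongr
          linarith
      _ = (2 * B + 1) ^ 3 * B ^ 2 := by ring
  have c4 : b ≤ ((2 * B + 1) ^ 3 * B ^ 2) ^ 2 := by
    refine hle.trans ?_
    gcongr
  have c5 : cr (u + s) m ≤ B * (B * b) := by
    have k1 : b * cr (u + s) m ≤ b * (B * (B * b)) := by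
      rw [hF.areaM]
      calc cr u m * cr (u + s) l ≤ cr u m * (B * b) := mul_le_mul_of_nonneg_left b4 r3.le
        _ ≤ (B * b) * (B * b) := mul_le_mul_of_nonneg_right b2 (by positivity)
        _ = b * (B * (B * b)) := by ring
    exact le_of_mul_le_mul_left k1 hb
  have c6 : N ≤ (2 * B + B ^ 2) * b := by
    rw [← hF.vol]
    simp only [vol6]
    rw [cr_add_left] at c5 b3
    linarith
  exact c6.trans (mul_le_mul_of_nonneg_left c4 (by positivity))

end Pool.Agent.H4G.Six
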