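import Pool.Agent.H4G.Six.BLam

/-!
# Stage II: the fork with least `a`, then least `a₂` (helper14)

Among the forks with `u × l = b` take the area `a = (u + q) × l` of `L` minimal, then the second
height `a₂ = (u + s) × l`. `BFL.tree_area`: every tree with content `b` has area at least `a`.
`BFork.dir`: a parallel pair `l' = β l + k (u + q)`, `m'` of a fork, `β` prime to `k` and to `p₁`,
gives a fork with area `a - β b + b`; `BFL.no_dir`: there is none with `2 ≤ β`.
-/

set_option autoImplicit false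

namespace Pool.Agent.H4G.Six

open Pool.Agent.H4G

variable {X : Type} {O : PO X} {N b : ℤ} {u v l q m s x w l1 m1 s1 : Z2}

/-! ## Forks from trees with content `b` -/

/-- a tree with content `b` gives a fork with the same lattices -/
theorem BMin.fork_of_ct (h : BMin O N b) (hg : Gap O N b) (hT : Has6 O (u, v, l, q, m, s))
    (hN : vol6 (u, v, l, q, m, s) = N) (hct : ct u l q = b) :
    ∃ v1 l1 q1 m1 s1 : Z2, BFork O N b u v1 l1 q1 m1 s1 ∧
      cr (u + q1) l1 = cr u l + cr q l ∧ lat l1 (u + q1) = lat l (u + q) ∧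
      lat m1 (u + s1) = lat m (u + s) := by
  have p := hT.pos
  obtain ⟨l1, q1, m1, s1, k1, k2, k3, k4, k5, -, -, -⟩ := hT.rows hN
  have k6 : cr u l1 = b := k5.trans hct
  obtain ⟨m2, s2, j0, j1, j2, j3⟩ := hg.par k1 k2 k6
  obtain ⟨k, t, hf⟩ := h.bfork j1 j2 k6 j3
  refine ⟨_, l1, q1 + t • l1, m2, s2, hf, ?_, ?_, j0.trans k4.2.2⟩
  · have e : cr (u + (q1 + t • l1)) l1 = cr u l1 + cr q1 l1 := by
      simp only [cr, Prod.fst_add, Prod.snd_add, Prod.smul_fst, Prod.smul_snd, smul_eq_mul]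
      ring
    rw [e]
    exact Blk6.area (L := lat l (u + q)) ⟨p.2.1, p.2.2.2.1, rfl⟩ k3
  · rw [← k3.2.2]
    exact closure_pair_eq (α := 1) (β := 0) (γ := t) (δ := 1) (by module) (by module)
      (Or.inl (by norm_num))

/-- A fork with least `a = (u + q) × l`, then least `a₂ = (u + s) × l`. -/
structure BFL (O : PO X) (N b : ℤ) (u v l q m s : Z2) : Prop where
  fk : BFork O N b u v l q m s
  leastA : ∀ u' v' l' q' m' s' : Z2, BFork O N b u' v' l' q' m' s' →
    cr (u + q) l ≤ cr (u' + q') l'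
  least : ∀ u' v' l' q' m' s' : Z2, BFork O N b u' v' l' q' m' s' →
    cr (u' + q') l' = cr (u + q) l → cr (u + s) l ≤ cr (u' + s') l'

theorem BFork.exists_BFL (hF : BFork O N b u v l q m s) :
    ∃ u v l q m s : Z2, BFL O N b u v l q m s := by
  obtain ⟨c, ⟨u', v', l', q', m', s', h1, h2⟩, hmin⟩ := exists_min_int
    (P := fun d => ∃ u v l q m s : Z2, BFork O N b u v l q m s ∧ cr (u + q) l = d)
    (fun d ⟨_, _, _, _, _, _, h1, h2⟩ => by
      rw [← h2]
      have := h1.lt_a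
      have := h1.bpos
      linarith) ⟨_, u, v, l, q, m, s, hF, rfl⟩
  obtain ⟨c2, ⟨u2, v2, l2, q2, m2, s2, j1, j2, j3⟩, hmin2⟩ := exists_min_int
    (P := fun d => ∃ u v l q m s : Z2, BFork O N b u v l q m s ∧ cr (u + q) l = c ∧
      cr (u + s) l = d)
    (fun d ⟨_, _, _, _, _, _, h1, _, h2⟩ => by rw [← h2]; exact h1.a2pos)
    ⟨_, u', v', l', q', m', s', h1, h2, rfl⟩
  refine ⟨u2, v2, l2, q2, m2, s2, j1, fun u1 v1 l1 q1 m1 s1 h3 => ?_,
    fun u1 v1 l1 q1 m1 s1 h3 h4 => ?_⟩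
  · rw [j2]
    exact hmin _ ⟨u1, v1, l1, q1, m1, s1, h3, rfl⟩
  · rw [j3]
    exact hmin2 _ ⟨u1, v1, l1, q1, m1, s1, h3, h4.trans j2, rfl⟩

theorem BMin.exists_BFL (h : BMin O N b) (hg : Gap O N b) :
    ∃ u v l q m s : Z2, BFL O N b u v l q m s := by
  obtain ⟨u, v, l, q, m, s, hF⟩ := h.exists_fork hg
  exact hF.exists_BFL

/-- the area after a centre move -/
theorem BFork.a_center (hF : BFork O N b u v l q m s) (j t : ℤ) :
    cr (u + j • (v + l + m) + (q + t • l)) l = cr (u + q) l := by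
  have h1 : cr (v + l + m) l = 0 := hF.xl
  have e : cr (u + j • (v + l + m) + (q + t • l)) l = cr (u + q) l + j * cr (v + l + m) l := by
    simp only [cr, Prod.fst_add, Prod.snd_add, Prod.smul_fst, Prod.smul_snd, smul_eq_mul]
    ring
  rw [e, h1, mul_zero, add_zero]

/-- the area after a row move -/
theorem a_row (i : ℤ) : cr (u + q) (l + i • (u + q)) = cr (u + q) l := by
  simp only [cr, Prod.fst_add, Prod.snd_add, Prod.smul_fst, Prod.smul_snd, smul_eq_mul]
  ring

namespace BFL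

variable (hF : BFL O N b u v l q m s)
include hF

/-- every tree with content `b` has area at least `a` -/
theorem tree_area (h : BMin O N b) (hg : Gap O N b) {u' v' l' q' m' s' : Z2}
    (hT : Has6 O (u', v', l', q', m', s')) (hN : vol6 (u', v', l', q', m', s') = N)
    (hct : ct u' l' q' = b) : cr (u + q) l ≤ cr u' l' + cr q' l' := by
  obtain ⟨v1, l1, q1, m1, s1, k1, k2, -, -⟩ := h.fork_of_ct hg hT hN hct
  rw [← k2]
  exact hF.leastA _ _ _ _ _ _ k1

theorem tree_areaM (h : BMin O N b) (hg : Gap O N b) {u' v' l' q' m' s' : Z2}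
    (hT : Has6 O (u', v', l', q', m', s')) (hN : vol6 (u', v', l', q', m', s') = N)
    (hct : ct u' m' s' = b) : cr (u + q) l ≤ cr u' m' + cr s' m' := by
  have := hF.tree_area h hg hT.swap (vol6_swap.trans hN) (by
    unfold ct at *
    rw [cr_negl, cr_negr, neg_neg, cr_negl, cr_negr, neg_neg]
    exact hct)
  rwa [cr_negl, cr_negr, neg_neg, cr_negl, cr_negr, neg_neg] at this

/-- minimality passes to the centres of the row -/
theorem center (h : BMin O N b) (j : ℤ) : ∃ t : ℤ, b * t = -(j * cr (v + l + m) q) ∧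
    BFL O N b (u + j • (v + l + m)) v l (q + t • l) m s := by
  obtain ⟨t, k1, k2⟩ := hF.fk.center h j
  refine ⟨t, k1, k2, fun u' v' l' q' m' s' h' => ?_, fun u' v' l' q' m' s' h' h'' => ?_⟩
  · rw [hF.fk.a_center]
    exact hF.leastA _ _ _ _ _ _ h'
  · rw [hF.fk.a_center] at h''
    rw [hF.fk.a2_center j]
    exact hF.least _ _ _ _ _ _ h' h''

/-- **(2)**: the second height divides `(u + q) × m` and `(u + q) × (u + s)` -/
theorem dvd (h : BMin O N b) (hg : Gap O N b) :
    cr (u + s) l ∣ cr (u + q) m ∧ cr (u + s) l ∣ cr (u + q) (u + s) := by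
  obtain ⟨p1, p2, p3, p4, p5⟩ := hF.fk.has.pos
  have hb := hF.fk.bpos
  have ha := hF.fk.lt_a
  refine crt_min hF.fk.a2pos ?_ fun i => ?_
  · intro h0
    have h1 := fork_cr u l (u + q) m
    rw [hF.fk.ul, h0, mul_zero, cr_add_right, cr_self, hF.fk.uq, add_zero, zero_mul,
      add_zero] at h1
    have h2 : 0 < cr (u + q) l * cr u m := mul_pos (by linarith) p3
    omega
  · obtain ⟨k, m', s', k1, k2, k3, k4⟩ := hF.fk.row h hg i
    have h1 := fork_lam2 (u := u) (s := s) (s1 := s') (i := i) rfl hF.fk.lm k1.lm k4 k1.a2pos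
    rw [← h1]
    exact hF.least _ _ _ _ _ _ k1 (a_row i)

/-- **the numbers of the class** -/
theorem num (h : BMin O N b) (hg : Gap O N b) : ∃ p1 p2 p3 p4 g : ℤ,
    BNum N b (cr u v) (cr u m) (cr (u + q) l) (cr (u + s) l) (cr u (u + s)) p1 p2 p3 p4 g := by
  obtain ⟨r1, r2, r3, r4, r5⟩ := hF.fk.has.pos
  have hb := hF.fk.bpos
  obtain ⟨⟨c2, hc2⟩, ⟨c5, hc5⟩⟩ := hF.dvd h hg
  obtain ⟨c1, hc1⟩ := hF.fk.dvd_qv h hg
  obtain ⟨c3, hc3⟩ := hF.fk.dvd_xq h
  obtain ⟨t, ht, hF1⟩ := hF.center h 1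
  obtain ⟨c6, hc6⟩ := (hF1.dvd h hg).2
  rw [hF.fk.a2_center 1] at hc6
  have hul := hF.fk.ul
  have huq := hF.fk.uq
  have hlm := hF.fk.lm
  have hvl := hF.fk.vl
  have f1 := fork_cr u l (u + q) v
  have f2 := fork_cr u l (u + q) m
  have f5 := fork_cr u l (u + q) (u + s)
  have f3 := fork_cr u l q (v + l + m)
  rw [hul, cr_add_right u u q, cr_self, huq, add_zero, zero_mul, add_zero] at f1 f2 f5
  rw [hul, huq, zero_mul, add_zero] at f3
  rw [hc1] at f1
  rw [hc2] at f2
  rw [hc5] at f5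
  rw [cr_swap q (v + l + m), hc3] at f3
  have e1 : cr q l = cr (u + q) l - b := by rw [cr_add_left, hul]; ring
  have e2 : cr u (v + l + m) = cr u v + b + cr u m := by rw [cr_add_right, cr_add_right, hul]
  rw [e1, e2] at f3
  have ha := hF.fk.areaM
  have hN := hF.fk.vol
  simp only [vol6] at hN
  refine ⟨c1, c2, -c3, c5 - c6, c5, hb, r1, r3, hF.fk.lt_a, hF.fk.lt_a2, by linarith,
    by linarith, by linarith, ?_, by linarith, ?_⟩
  · -- the number `p4`
    have g1 := fork_cr (u + (1 : ℤ) • (v + l + m)) l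
      (u + (1 : ℤ) • (v + l + m) + (q + t • l)) (u + (1 : ℤ) • (v + l + m) + s)
    have g2 := hF1.fk.ul
    have g3 := hF1.fk.uq
    have g4 : cr (u + (1 : ℤ) • (v + l + m)) (u + (1 : ℤ) • (v + l + m) + (q + t • l)) = 0 := by
      rw [cr_add_right, cr_self, g3, add_zero]
    have g5 : cr (u + (1 : ℤ) • (v + l + m) + (q + t • l)) l = cr (u + q) l := by
      have h1 : cr (v + l + m) l = 0 := hF.fk.xl
      rw [one_smul, cr_add_left, cr_add_left, h1, cr_add_left, cr_smul_left, cr_self,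
        cr_add_left]
      ring
    have g6 : cr (u + (1 : ℤ) • (v + l + m)) (u + (1 : ℤ) • (v + l + m) + s) =
        cr u (u + s) + cr (v + l + m) s := by
      rw [one_smul, cr_add_right, cr_self, cr_add_left, cr_add_right u u s, cr_self]
      ring
    have g7 := fork_cr u l (v + l + m) s
    have h1 : cr (v + l + m) l = 0 := hF.fk.xl
    have g8 : cr l s = b - cr (u + s) l := by
      rw [cr_add_left, hul, cr_swap s l]; ring
    rw [hul, h1, zero_mul, zero_add, e2, g8] at g7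
    rw [g2, g4, zero_mul, add_zero, g5, g6, hc6] at g1
    linear_combination b * g1 + cr (u + q) l * g7 - b * f5
  · have e3 : cr (u + s) m = cr u m + cr s m := cr_add_left u s m
    rw [← hN, hul]
    linear_combination ha - b * e3 + b * e1

end BFL

/-! ## Parallel directions -/

/-- **A PARALLEL DIRECTION** `l' = β l + k (u + q)`, `m'` of a fork: for `β` prime to `k` and to
`p₁ = (u + q) × v / b` there is a fork with these slits, and its area is `a - β b + b`. -/
theorem BFork.dir (h : BMin O N b) (hF : BFork O N b u v l q m s) {β k c d p₁ : ℤ}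
    {l' m' : Z2} (hβ : 0 < β) (hcop : IsCoprime β k) (hl : l' = β • l + k • (u + q))
    (hlw : β * b < cr (u + q) l) (hcd : IsCoprime c d) (hm : m' = c • m + d • (u + s))
    (hm1 : 0 < cr u m') (hm2 : cr u m' < cr u m + cr s m) (hpar : cr l' m' = 0)
    (hp : cr (u + q) v = b * p₁) (hcp : IsCoprime β p₁) :
    ∃ (z v' q₁ s₁ : Z2) (t : ℤ), BFork O N b z v' l' (q₁ + t • l') m' s₁ ∧
      cr (z + (q₁ + t • l')) l' = cr (u + q) l - β * b + b ∧ β * cr z m' = cr u m' ∧
      lat l' (u + q₁) = lat l (u + q) ∧ lat m' (u + s₁) = lat m (u + s) := by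
  obtain ⟨r1, r2, r3, r4, r5⟩ := hF.has.pos
  have hb := hF.bpos
  have hul := hF.ul
  have huq := hF.uq
  have ha : cr (u + q) l = cr u l + cr q l := cr_addl u q l
  have e1 : cr u l' = β * b := by
    have : cr u l' = β * cr u l + k * cr u q := by
      rw [hl]
      simp only [cr, Prod.fst_add, Prod.snd_add, Prod.smul_fst, Prod.smul_snd, smul_eq_mul]
      ring
    rw [this, huq, hul]; ring
  have hβb : 0 < β * b := mul_pos hβ hb
  obtain ⟨q₁, hq₁⟩ := exists_blk hcop hl (by rw [e1]; exact hβb) (by rw [e1, ← ha]; exact hlw)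
  obtain ⟨s₁, hs₁⟩ := exists_blk hcd hm hm1 hm2
  have hT := hF.has.change hq₁.1 hq₁.2.1 hq₁.2.2 hs₁.1 hs₁.2.1 hs₁.2.2
  have a1 := Blk6.area (L := lat l (u + q)) ⟨r2, r4, rfl⟩ hq₁
  have a2 := Blk6.area (L := lat m (u + s)) ⟨r3, r5, rfl⟩ hs₁
  have hN1 : vol6 (u, v, l', q₁, m', s₁) = N := by
    rw [← hF.vol]
    simp only [vol6]
    linarith
  -- the centre of the first row
  have hcop2 : IsCoprime β (k * p₁) := hcop.mul_right hcp
  obtain ⟨i, n, hin⟩ := hcop2
  have e2 : cr (v + l' + m') l' = -(b * (k * p₁)) := by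
    have f1 : cr (v + l' + m') l' = cr v l' - cr l' m' := by
      rw [cr_addl, cr_addl, cr_self', cr_swap' l' m']; ring
    have f2 : cr v l' = β * cr v l - k * cr (u + q) v := by
      rw [hl]
      simp only [cr, Prod.fst_add, Prod.snd_add, Prod.smul_fst, Prod.smul_snd, smul_eq_mul]
      ring
    rw [f1, f2, hpar, hF.vl, hp]; ring
  have hij : IsCoprime i (-n) := ⟨β, -(k * p₁), by linarith⟩
  have e3 : cr (i • u + (-n) • (v + l' + m')) l' = b := by
    rw [cr_zz_left, e1, e2]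
    calc i * (β * b) + -n * -(b * (k * p₁)) = b * (i * β + n * (k * p₁)) := by ring
      _ = b := by rw [hin, mul_one]
  have e4 : β * cr (i • u + (-n) • (v + l' + m')) m' = cr u m' := by
    have := par_cr hpar u (i • u + (-n) • (v + l' + m'))
    rw [e3, e1] at this
    have h2 : b * (β * cr (i • u + (-n) • (v + l' + m')) m') = b * cr u m' := by linarith
    exact mul_left_cancel₀ hb.ne' h2
  obtain ⟨z, hz⟩ : ∃ z, z = i • u + (-n) • (v + l' + m') := ⟨_, rfl⟩
  rw [← hz] at e3 e4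
  have e5 : 0 < cr z m' := by
    by_contra hc
    push Not at hc
    have := mul_nonneg hβ.le (neg_nonneg.2 hc)
    linarith
  have e6 : cr z m' ≤ cr u m' := by
    have : 1 * cr z m' ≤ β * cr z m' := mul_le_mul_of_nonneg_right hβ e5.le
    linarith
  have e7 : b ≤ β * b := by
    have : 1 * b ≤ β * b := mul_le_mul_of_nonneg_right hβ hb.le
    linarith
  obtain ⟨v', k1, -, -, k4⟩ := hT.recenter hij hz (by rw [e3]; exact hb) e5
    (by rw [e3, e1]; linarith)
  obtain ⟨κ, t, hf⟩ := h.bfork k1 (k4.trans hN1) e3 hpar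
  refine ⟨z, _, q₁, s₁, t, hf, ?_, e4, hq₁.2.2, hs₁.2.2⟩
  have f1 : cr (z + (q₁ + t • l')) l' = cr z l' + cr q₁ l' := by
    simp only [cr, Prod.fst_add, Prod.snd_add, Prod.smul_fst, Prod.smul_snd, smul_eq_mul]
    ring
  rw [f1, e3, ha]
  linarith

/-- **NO DIRECTION WITH `2 ≤ β`** in a fork with least `a` -/
theorem BFL.no_dir (hF : BFL O N b u v l q m s) (h : BMin O N b) {β k c d p₁ : ℤ}
    {l' m' : Z2} (hβ : 2 ≤ β) (hcop : IsCoprime β k) (hl : l' = β • l + k • (u + q))
    (hlw : β * b < cr (u + q) l) (hcd : IsCoprime c d) (hm : m' = c • m + d • (u + s))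
    (hm1 : 0 < cr u m') (hm2 : cr u m' < cr u m + cr s m) (hpar : cr l' m' = 0)
    (hp : cr (u + q) v = b * p₁) : ¬ IsCoprime β p₁ := by
  intro hcp
  obtain ⟨z, v', q₁, s₁, t, k1, k2, -⟩ := hF.fk.dir h (by linarith) hcop hl hlw hcd hm hm1 hm2
    hpar hp hcp
  have h1 := hF.leastA _ _ _ _ _ _ k1
  rw [k2] at h1
  have hb := h.pos
  nlinarith

end Pool.Agent.H4G.Six
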