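import Pool.Agent.H4G.Six.BLam
import Pool.Agent.H4G.Six.BArith
import Pool.Agent.H4G.Arith.CrtA

/-!
# Stage II, (5): the exits of an extremal fork (helper62; Lean: helper5)

At a tree the slits are replaced by `l' = β l + k (u + q)`, `m' = ν m + μ (u + s)`, then the centre
by `z = t u + n (v + l' + m')`.
-/

set_option autoImplicit false

namespace Pool.Agent.H4G.Six

open Pool.Agent.H4G

variable {X : Type} {O : PO X} {N b : ℤ} {u v l q m s z l' q' m' s' : Z2}

/-- the complement of `β l + k (u + q)` -/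
theorem slit_compl {x y β k : ℤ} (h : x * β - y * k = 1) (hl : l' = β • l + k • (u + q))
    (hq : q' = y • l + x • (u + q) - u) :
    lat l' (u + q') = lat l (u + q) ∧ cr q' l' = cr u l + cr q l - cr u l' := by
  have e : u + q' = y • l + x • (u + q) := by rw [hq]; abel
  refine ⟨?_, ?_⟩
  · rw [e, hl]
    apply le_antisymm
    · rw [AddSubgroup.closure_le]
      rintro w (rfl | rfl)
      · exact AddSubgroup.mem_closure_pair.2 ⟨β, k, rfl⟩
      · exact AddSubgroup.mem_closure_pair.2 ⟨y, x, rfl⟩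
    · rw [AddSubgroup.closure_le]
      rintro w (rfl | rfl)
      · refine AddSubgroup.mem_closure_pair.2 ⟨x, -k, ?_⟩
        have : x • (β • w + k • (u + q)) + (-k) • (y • w + x • (u + q)) =
            (x * β - y * k) • w := by module
        rw [this, h, one_smul]
      · refine AddSubgroup.mem_closure_pair.2 ⟨-y, β, ?_⟩
        have : (-y) • (β • l + k • (u + q)) + β • (y • l + x • (u + q)) =
            (x * β - y * k) • (u + q) := by module
        rw [this, h, one_smul]
  · have e1 : q' = y • l + x • (u + q) - u := hq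
    have e2 : cr (y • l + x • (u + q)) l' = (x * β - y * k) * cr (u + q) l := by
      rw [hl]
      simp only [cr_add_left, cr_add_right, cr_smul_left, cr_smul_right, cr_self]
      rw [cr_swap l u, cr_swap l q, cr_swap q u]
      ring
    rw [e1, cr_sub_left, e2, h, cr_add_left]
    ring

/-- CENTRE EXIT: new slits, then a new centre -/
theorem Has6.exitC (hT : Has6 O (u, v, l, q, m, s)) {k β x y μ ν x' y' i j : ℤ}
    (hxy : x * β - y * k = 1) (hxy' : x' * ν - y' * μ = 1)
    (hl : l' = β • l + k • (u + q)) (hq : q' = y • l + x • (u + q) - u)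
    (hm : m' = ν • m + μ • (u + s)) (hs : s' = y' • m + x' • (u + s) - u)
    (wl : 0 < cr u l') (wl2 : cr u l' < cr u l + cr q l)
    (wm : 0 < cr u m') (wm2 : cr u m' < cr u m + cr s m)
    (hij : IsCoprime i j) (hz : z = i • u + j • (v + l' + m'))
    (z1 : 0 < cr z l') (z2 : 0 < cr z m')
    (z3 : cr z l' + cr z m' < cr u v + cr u l' + cr u m') :
    ∃ v', Has6 O (z, v', l', q', m', s') ∧
      vol6 (z, v', l', q', m', s') = vol6 (u, v, l, q, m, s) ∧
      lat z (v' + l' + m') = lat u (v + l' + m') := by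
  obtain ⟨a1, a2⟩ := slit_compl hxy hl hq
  obtain ⟨b1, b2⟩ := slit_compl hxy' hm hs
  have h1 := hT.change wl (by rw [a2]; linarith) a1 wm (by rw [b2]; linarith) b1
  obtain ⟨v', c1, c2, c3, c4⟩ := h1.recenter hij hz z1 z2 z3
  refine ⟨v', c1, c4.trans ?_, c2⟩
  simp only [vol6]
  rw [a2, b2]
  ring

/-- the contents after a centre exit -/
theorem BMin.exitC (h : BMin O N b) (hT : Has6 O (u, v, l, q, m, s))
    (hN : vol6 (u, v, l, q, m, s) = N) {k β x y μ ν x' y' i j : ℤ}
    (hxy : x * β - y * k = 1) (hxy' : x' * ν - y' * μ = 1)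
    (hl : l' = β • l + k • (u + q)) (hq : q' = y • l + x • (u + q) - u)
    (hm : m' = ν • m + μ • (u + s)) (hs : s' = y' • m + x' • (u + s) - u)
    (wl : 0 < cr u l') (wl2 : cr u l' < cr u l + cr q l)
    (wm : 0 < cr u m') (wm2 : cr u m' < cr u m + cr s m)
    (hij : IsCoprime i j) (hz : z = i • u + j • (v + l' + m'))
    (z1 : 0 < cr z l') (z2 : 0 < cr z m')
    (z3 : cr z l' + cr z m' < cr u v + cr u l' + cr u m') :
    b ≤ ct z l' q' ∧ b ≤ ct z m' s' := by
  obtain ⟨v', c1, c2, -⟩ := hT.exitC hxy hxy' hl hq hm hs wl wl2 wm wm2 hij hz z1 z2 z3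
  exact ⟨h.least _ _ _ _ _ _ c1 (c2.trans hN), h.leastM c1 (c2.trans hN)⟩

/-- the configuration with the new slits -/
theorem Has6.exitOKC (hT : Has6 O (u, v, l, q, m, s)) {k β x y μ ν x' y' : ℤ}
    (hxy : x * β - y * k = 1) (hxy' : x' * ν - y' * μ = 1)
    (hl : l' = β • l + k • (u + q)) (hq : q' = y • l + x • (u + q) - u)
    (hm : m' = ν • m + μ • (u + s)) (hs : s' = y' • m + x' • (u + s) - u)
    (wl : 0 < cr u l') (wl2 : cr u l' < cr u l + cr q l)
    (wm : 0 < cr u m') (wm2 : cr u m' < cr u m + cr s m) :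
    Has6 O (u, v, l', q', m', s') ∧
      vol6 (u, v, l', q', m', s') = vol6 (u, v, l, q, m, s) ∧
      (cr l' m' ≠ 0 → OKC O (u, v + l' + m', l', q', m', s')) := by
  obtain ⟨a1, a2⟩ := slit_compl hxy hl hq
  obtain ⟨b1, b2⟩ := slit_compl hxy' hm hs
  have h1 := hT.change wl (by rw [a2]; linarith) a1 wm (by rw [b2]; linarith) b1
  refine ⟨h1, ?_, h1.okc⟩
  simp only [vol6]
  rw [a2, b2]
  ring

/-! ## The alternative with configurations -/

/-- CASE II for configurations -/
def GapC (O : PO X) (N b : ℤ) : Prop := ∀ r : ℤ, GoodConf O N r → b < r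

theorem GapC.gap (hG : GapC O N b) (h : BMin O N b) : Gap O N b := by
  intro u v l q m s hT hN
  by_cases h0 : cr l m = 0
  · exact Or.inl h0
  right
  by_contra hc
  push Not at hc
  exact absurd (hG _ (h.good hT hN h0 hc)) (not_lt.2 hc)

theorem BMin.altC (h : BMin O N b) : GapC O N b ∨ ∃ r, RB O N r b := by
  by_cases hg : GapC O N b
  · exact Or.inl hg
  right
  unfold GapC at hg
  push Not at hg
  obtain ⟨r0, h1, h2⟩ := hg
  obtain ⟨r, hr, hmin⟩ := exists_min_int (P := fun r => GoodConf O N r)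
    (fun r hr => hr.pos) ⟨r0, h1⟩
  exact ⟨r, ⟨h, hr, hmin, (hmin _ h1).trans h2⟩⟩

/-- a vector of opposite signs -/
theorem GapC.neg (hG : GapC O N b) {U x : Z2} (hC : OKC O (U, x, l, q, m, s))
    (hN : volC (U, x, l, q, m, s) = N) (hr : b < |cr l m|) {i j : ℤ} (hij : IsCoprime i j)
    (hz : z = i • U + j • x) (h1 : cr z l * cr z m < 0) (h4 : |cr z l| < cr U x)
    (h5 : |cr z m| < cr U x) : b < |cr z l| ∧ b < |cr z m| := by
  rw [← lt_min_iff]
  by_cases h3 : min |cr z l| |cr z m| < |cr l m|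
  · exact hG _ (hC.dropNeg hN hij hz h1 h4 h5 h3)
  · push Not at h3
    exact lt_of_lt_of_le hr h3

/-! ## The numbers -/

/-- an extremal fork with its numbers -/
structure BFS (O : PO X) (N b : ℤ) (u v l q m s : Z2) (p1 p2 g S w S2 : ℤ) : Prop where
  fk : BFork O N b u v l q m s
  S0 : 0 < S
  w0 : 0 < w
  S20 : 0 < S2
  hv : S * cr u v = b * w * p1
  ha : w * cr (u + q) l = b * S
  hx : cr u v + b + cr u m = b * w
  hm : S2 * cr u m = b * w * p2
  ha2 : S2 * cr (u + s) l = b * S
  hc : S2 * cr u (u + s) = b * w * g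

namespace BFS

variable {p1 p2 g S w S2 : ℤ}

/-- all centres of the row -/
theorem center (F : BFS O N b u v l q m s p1 p2 g S w S2) (h : BMin O N b) (j : ℤ) :
    ∃ t : ℤ, BFS O N b (u + j • (v + l + m)) v l (q + t • l) m s p1 p2 (g - j * (S - S2))
      S w S2 := by
  obtain ⟨t, ht, h1⟩ := F.fk.center h j
  have e1 : cr (v + l + m) l = 0 := F.fk.xl
  have e2 : cr (v + l + m) m = 0 := F.fk.xm
  have e3 : cr (v + l + m) v = 0 := by
    have h2 := fork_cr u l (v + l + m) v
    rw [F.fk.ul, e1, zero_mul, zero_add, cr_swap l v, F.fk.vl, neg_zero, mul_zero] at h2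
    exact (mul_eq_zero.1 h2).resolve_left F.fk.bpos.ne'
  have f1 : cr (u + j • (v + l + m)) v = cr u v := by
    rw [cr_add_left, cr_smul_left, e3]; ring
  have f2 : cr (u + j • (v + l + m)) m = cr u m := by
    rw [cr_add_left, cr_smul_left, e2]; ring
  have f3 : cr (u + j • (v + l + m) + (q + t • l)) l = cr (u + q) l := by
    simp only [cr_add_left, cr_smul_left, cr_self] at e1 ⊢
    rw [mul_zero, add_zero]
    linear_combination j * e1
  have f4 : cr (u + j • (v + l + m) + s) l = cr (u + s) l := F.fk.a2_center j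
  have f5 : cr (u + j • (v + l + m)) (u + j • (v + l + m) + s) =
      cr u (u + s) + j * cr (v + l + m) s := by
    rw [cr_add_right, cr_self, cr_add_left, cr_smul_left, cr_add_right u u s, cr_self]; ring
  have f6 : b * cr (v + l + m) s = b * w * (b - cr (u + s) l) := by
    have h2 := fork_cr u l (v + l + m) s
    have e4 : cr u (v + l + m) = b * w := by
      rw [cr_add_right, cr_add_right, F.fk.ul, ← F.hx]
    have e5 : cr l s = b - cr (u + s) l := by
      rw [cr_add_left, F.fk.ul, cr_swap s l]; ring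
    rw [F.fk.ul, e1, zero_mul, zero_add, e4, e5] at h2
    exact h2
  have f7 : cr (v + l + m) s = w * (b - cr (u + s) l) := by
    have : b * cr (v + l + m) s = b * (w * (b - cr (u + s) l)) := by rw [f6]; ring
    exact mul_left_cancel₀ F.fk.bpos.ne' this
  refine ⟨t, h1, F.S0, F.w0, F.S20, by rw [f1]; exact F.hv, by rw [f3]; exact F.ha, ?_,
    by rw [f2]; exact F.hm, by rw [f4]; exact F.ha2, ?_⟩
  · rw [f1, f2]; exact F.hx
  · rw [f5, f7]
    linear_combination F.hc - j * w * F.ha2

variable {k β μ ν i j K : ℤ}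

theorem cr_ul (F : BFS O N b u v l q m s p1 p2 g S w S2) (hl : l' = β • l + k • (u + q)) :
    cr u l' = b * β := by
  rw [hl, cr_add_right, cr_smul_right, cr_smul_right, cr_add_right, cr_self, F.fk.ul, F.fk.uq]
  ring

theorem cr_um (F : BFS O N b u v l q m s p1 p2 g S w S2) (hm : m' = ν • m + μ • (u + s))
    (hK : K = ν * p2 + μ * g) : S2 * cr u m' = b * w * K := by
  rw [hm, cr_add_right, cr_smul_right, cr_smul_right, hK]
  linear_combination ν * F.hm + μ * F.hc

theorem cr_lm (F : BFS O N b u v l q m s p1 p2 g S w S2) (hl : l' = β • l + k • (u + q))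
    (hm : m' = ν • m + μ • (u + s)) (hK : K = ν * p2 + μ * g) :
    S2 * cr l' m' = b * S * (k * K - β * μ) := by
  have h1 := fork_cr u l (u + q) m
  have h2 := fork_cr u l (u + q) (u + s)
  rw [F.fk.ul, cr_add_right u u q, cr_self, F.fk.uq, add_zero, zero_mul, add_zero] at h1 h2
  have h3 : cr l (u + s) = -cr (u + s) l := cr_swap _ _
  have e : cr l' m' = β * μ * cr l (u + s) + k * (ν * cr (u + q) m + μ * cr (u + q) (u + s)) := by
    rw [hl, hm]
    simp only [cr_smul_left, cr_add_right, cr_smul_right, cr_add_left, F.fk.lm]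
    ring
  have hbw : b * w * (S2 * cr l' m') = b * w * (b * S * (k * K - β * μ)) := by
    rw [e, h3, hK]
    linear_combination k * ν * w * S2 * h1 + k * μ * w * S2 * h2 +
      k * (ν * S2 * cr u m + μ * S2 * cr u (u + s)) * F.ha +
      k * ν * b * S * F.hm + k * μ * b * S * F.hc - β * μ * b * w * F.ha2
  exact mul_left_cancel₀ (mul_pos F.fk.bpos F.w0).ne' hbw

theorem rel1 (F : BFS O N b u v l q m s p1 p2 g S w S2) :
    p1 * w * S2 + S * S2 + p2 * S * w = S * w * S2 := by
  have h : b * (p1 * w * S2 + S * S2 + p2 * S * w) = b * (S * w * S2) := by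
    linear_combination S * S2 * F.hx - S2 * F.hv - S * F.hm
  exact mul_left_cancel₀ F.fk.bpos.ne' h

/-- the products of the frame -/
theorem frame (F : BFS O N b u v l q m s p1 p2 g S w S2) :
    cr u l = b ∧ cr u (u + q) = 0 ∧ cr l m = 0 ∧ cr l v = 0 ∧
      cr (u + q) v = b * p1 ∧ S2 * cr (u + q) m = b * S * p2 ∧
      S2 * cr (u + q) (u + s) = b * S * g := by
  have hb := F.fk.bpos
  have h1 := fork_cr u l (u + q) m
  have h2 := fork_cr u l (u + q) (u + s)
  have h3 := fork_cr u l (u + q) v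
  have e0 : cr u (u + q) = 0 := by rw [cr_add_right, cr_self, F.fk.uq, add_zero]
  rw [F.fk.ul, e0, zero_mul, add_zero] at h1 h2 h3
  have e1 : cr l v = 0 := by rw [cr_swap l v, F.fk.vl, neg_zero]
  refine ⟨F.fk.ul, e0, F.fk.lm, e1, ?_, ?_, ?_⟩
  · have : (b * w * S) * cr (u + q) v = (b * w * S) * (b * p1) := by
      linear_combination w * S * h3 + S * cr u v * F.ha + b * S * F.hv
    exact mul_left_cancel₀ (mul_pos (mul_pos hb F.w0) F.S0).ne' this
  · have : (b * w) * (S2 * cr (u + q) m) = (b * w) * (b * S * p2) := by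
      linear_combination w * S2 * h1 + S2 * cr u m * F.ha + b * S * F.hm
    exact mul_left_cancel₀ (mul_pos hb F.w0).ne' this
  · have : (b * w) * (S2 * cr (u + q) (u + s)) = (b * w) * (b * S * g) := by
      linear_combination w * S2 * h2 + S2 * cr u (u + s) * F.ha + b * S * F.hc
    exact mul_left_cancel₀ (mul_pos hb F.w0).ne' this

theorem cr_zl (F : BFS O N b u v l q m s p1 p2 g S w S2) (hl : l' = β • l + k • (u + q))
    (hm : m' = ν • m + μ • (u + s)) (hK : K = ν * p2 + μ * g)
    (hz : z = i • u + j • (v + l' + m')) :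
    S2 * cr z l' = b * (S2 * (i * β - j * k * p1) - j * S * (k * K - β * μ)) := by
  obtain ⟨e1, e2, e3, e4, e5, e6, e7⟩ := F.frame
  have h1 := F.cr_ul hl
  have h2 := F.cr_lm hl hm hK
  have h3 : cr v l' = -(b * k * p1) := by
    rw [hl, cr_add_right, cr_smul_right, cr_smul_right, F.fk.vl, cr_swap v (u + q), e5]; ring
  have e : cr z l' = i * cr u l' + j * (cr v l' - cr l' m') := by
    rw [hz, cr_add_left, cr_smul_left, cr_smul_left, cr_add_left, cr_add_left, cr_self,
      cr_swap m' l']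
    ring
  rw [e, h1, h3]
  linear_combination -j * h2

theorem cr_zm (F : BFS O N b u v l q m s p1 p2 g S w S2) (hl : l' = β • l + k • (u + q))
    (hm : m' = ν • m + μ • (u + s)) (hK : K = ν * p2 + μ * g)
    (hz : z = i • u + j • (v + l' + m')) :
    S2 * cr z m' = b * (w * (i * K - j * μ * p1) + j * S * (k * K - β * μ)) := by
  obtain ⟨e1, e2, e3, e4, e5, e6, e7⟩ := F.frame
  have h1 := F.cr_um hm hK
  have h2 := F.cr_lm hl hm hK
  have h4 := fork_cr u l v (u + s)
  rw [F.fk.ul, F.fk.vl, zero_mul, zero_add, cr_swap l (u + s)] at h4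
  have h5 : S2 * cr v (u + s) = -(b * w * p1) := by
    have : (b * S) * (S2 * cr v (u + s)) = (b * S) * (-(b * w * p1)) := by
      linear_combination S * S2 * h4 - S * cr u v * F.ha2 - b * S * F.hv
    exact mul_left_cancel₀ (mul_pos F.fk.bpos F.S0).ne' this
  have h3 : S2 * cr v m' = -(b * w * p1) * μ := by
    rw [hm, cr_add_right, cr_smul_right, cr_smul_right, F.fk.vm]
    linear_combination μ * h5
  have e : cr z m' = i * cr u m' + j * (cr v m' + cr l' m') := by
    rw [hz, cr_add_left, cr_smul_left, cr_smul_left, cr_add_left, cr_add_left, cr_self]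
    ring
  rw [e]
  linear_combination i * h1 + j * h3 + j * h2

/-- the area of the column lattice -/
theorem cr_W (F : BFS O N b u v l q m s p1 p2 g S w S2) (hl : l' = β • l + k • (u + q))
    (hm : m' = ν • m + μ • (u + s)) (hK : K = ν * p2 + μ * g) :
    S2 * (cr u v + cr u l' + cr u m') = b * (S2 * (w - 1 + β) + w * (K - p2)) := by
  have h1 := F.cr_um hm hK
  have h2 := F.cr_ul hl
  have h3 := F.hx
  have h4 := F.hm
  rw [h2]
  linear_combination S2 * h3 - h4 + h1

/-- content numbers, first torus: `w S2 (z × q')` -/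
theorem cr_zq (F : BFS O N b u v l q m s p1 p2 g S w S2) {x y : ℤ}
    (hl : l' = β • l + k • (u + q)) (hq : q' = y • l + x • (u + q) - u)
    (hm : m' = ν • m + μ • (u + s)) (hK : K = ν * p2 + μ * g)
    (hz : z = i • u + j • (v + l' + m')) :
    w * S2 * cr z q' = b * (y * (w * (i * S2 + j * μ * S) + j * k * S * S2) -
      x * j * (w * S2 * p1 + β * S * S2 + w * S * K) +
      j * w * (S2 * (w - 1 + β) + w * (K - p2))) := by
  obtain ⟨e1, e2, e3, e4, e5, e6, e7⟩ := F.frame
  have h1 := F.cr_W hl hm hK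
  -- `z × l`
  have hzl : w * S2 * cr z l = b * (w * (i * S2 + j * μ * S) + j * k * S * S2) := by
    have e : cr z l = i * b + j * (k * cr (u + q) l + μ * cr (u + s) l) := by
      rw [hz, hl, hm]
      simp only [cr_add_left, cr_smul_left, cr_self, F.fk.vl]
      have hml : cr m l = 0 := by rw [cr_swap, F.fk.lm, neg_zero]
      rw [hml, F.fk.ul]
      ring
    rw [e]
    linear_combination j * k * S2 * F.ha + j * μ * w * F.ha2
  -- `z × (u + q)`
  have hzq : S2 * w * cr z (u + q) = -(b * j * (w * S2 * p1 + β * S * S2 + w * S * K)) := by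
    have e : cr z (u + q) = -(j * (cr (u + q) v + β * cr (u + q) l +
        ν * cr (u + q) m + μ * cr (u + q) (u + s))) := by
      rw [cr_swap, hz, hl, hm, cr_add_right (u + q), cr_smul_right, cr_swap (u + q) u, e2,
        cr_smul_right, cr_add_right (u + q) (v + _), cr_add_right (u + q) v,
        cr_add_right (u + q) (β • l), cr_smul_right, cr_smul_right, cr_self,
        cr_add_right (u + q) (ν • m), cr_smul_right, cr_smul_right]
      ring
    rw [e, e5, hK]
    linear_combination -j * β * S2 * F.ha - j * ν * w * e6 - j * μ * w * e7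
  have hzu : cr z u = -(j * (cr u v + cr u l' + cr u m')) := by
    rw [cr_swap, hz, cr_add_right, cr_smul_right, cr_smul_right, cr_self, cr_add_right,
      cr_add_right]
    ring
  have e : cr z q' = y * cr z l + x * cr z (u + q) - cr z u := by
    rw [hq, cr_sub_right, cr_add_right, cr_smul_right, cr_smul_right]
  rw [e, hzu]
  linear_combination y * hzl + x * hzq + j * w * h1

/-- the content, first torus, slit `l` -/
theorem cr_zq1 (F : BFS O N b u v l q m s p1 p2 g S w S2)
    (hm : m' = ν • m + μ • (u + s)) (hK : K = ν * p2 + μ * g)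
    (hz : z = i • u + j • (v + l + m')) :
    S2 * cr z q = -(b * j * (S - w) * (S2 - p2 + K)) := by
  have h1 := F.cr_zq (l' := l) (q' := q) (β := 1) (k := 0) (x := 1) (y := 0) (i := i) (j := j)
    (z := z) (by rw [one_smul, zero_smul, add_zero]) (by rw [zero_smul, one_smul]; abel) hm hK hz
  have h2 := F.rel1
  have h3 : w * (S2 * cr z q) = w * (-(b * j * (S - w) * (S2 - p2 + K))) := by
    linear_combination h1 - b * j * h2
  exact mul_left_cancel₀ F.w0.ne' h3

/-- content numbers, second torus: `S2² (z × s')` -/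
theorem cr_zs (F : BFS O N b u v l q m s p1 p2 g S w S2) {x' y' : ℤ}
    (hl : l' = β • l + k • (u + q)) (hm : m' = ν • m + μ • (u + s))
    (hs : s' = y' • m + x' • (u + s) - u) (hK : K = ν * p2 + μ * g)
    (hz : z = i • u + j • (v + l' + m')) :
    S2 * S2 * cr z s' = b * ((y' * p2 + x' * g) * (w * (i * S2 + j * μ * S) + j * k * S * S2) +
      j * (S2 - x' * S) * (S2 * (w - 1 + β) + w * (K - p2))) := by
  obtain ⟨e1, e2, e3, e4, e5, e6, e7⟩ := F.frame
  have h1 := F.cr_W hl hm hK
  have hzl : w * S2 * cr z l = b * (w * (i * S2 + j * μ * S) + j * k * S * S2) := by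
    have e : cr z l = i * b + j * (k * cr (u + q) l + μ * cr (u + s) l) := by
      rw [hz, hl, hm]
      simp only [cr_add_left, cr_smul_left, cr_self, F.fk.vl]
      have hml : cr m l = 0 := by rw [cr_swap, F.fk.lm, neg_zero]
      rw [hml, F.fk.ul]
      ring
    rw [e]
    linear_combination j * k * S2 * F.ha + j * μ * w * F.ha2
  have hzu : cr z u = -(j * (cr u v + cr u l' + cr u m')) := by
    rw [cr_swap, hz, cr_add_right, cr_smul_right, cr_smul_right, cr_self, cr_add_right,
      cr_add_right]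
    ring
  obtain ⟨Y, hY⟩ : ∃ Y, Y = cr u v + cr u l' + cr u m' := ⟨_, rfl⟩
  have huz : cr u z = j * Y := by rw [cr_swap, hzu, hY]; ring
  -- `z × m` and `z × (u + s)`
  have h2 := fork_cr u l z m
  have h3 := fork_cr u l z (u + s)
  rw [F.fk.ul, F.fk.lm, mul_zero, add_zero] at h2
  rw [F.fk.ul, huz, cr_swap l (u + s)] at h3
  have e : cr z s' = y' * cr z m + x' * cr z (u + s) - cr z u := by
    rw [hs, cr_sub_right, cr_add_right, cr_smul_right, cr_smul_right]
  rw [← hY] at h1
  rw [hzu, ← hY] at e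
  have key : (b * w) * (S2 * S2 * cr z s') = (b * w) * (b * ((y' * p2 + x' * g) *
      (w * (i * S2 + j * μ * S) + j * k * S * S2) +
      j * (S2 - x' * S) * (S2 * (w - 1 + β) + w * (K - p2)))) := by
    rw [e]
    linear_combination w * S2 * S2 * y' * h2 + w * S2 * S2 * x' * h3 +
      w * S2 * y' * cr z l * F.hm + w * S2 * x' * cr z l * F.hc - w * S2 * x' * j * Y * F.ha2 +
      b * w * (y' * p2 + x' * g) * hzl + (b * w * j * S2 - b * w * x' * j * S) * h1
  exact mul_left_cancel₀ (mul_pos F.fk.bpos F.w0).ne' key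

/-- the area of the second torus -/
theorem areaM (F : BFS O N b u v l q m s p1 p2 g S w S2) :
    S2 * S2 * (cr u m + cr s m) = b * w * p2 * S := by
  have h1 := F.fk.areaM
  rw [cr_add_left u s m] at h1
  have h2 : b * (S2 * S2 * (cr u m + cr s m)) = b * (b * w * p2 * S) := by
    linear_combination S2 * S2 * h1 + S2 * cr (u + s) l * F.hm + b * w * p2 * F.ha2
  exact mul_left_cancel₀ F.fk.bpos.ne' h2

/-- the windows in numbers -/
theorem windows (F : BFS O N b u v l q m s p1 p2 g S w S2) (hl : l' = β • l + k • (u + q))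
    (hm : m' = ν • m + μ • (u + s)) (hK : K = ν * p2 + μ * g) (hβ : 0 < β) (hβ2 : w * β < S)
    (hK0 : 0 < K) (hK2 : S2 * K < p2 * S) :
    0 < cr u l' ∧ cr u l' < cr u l + cr q l ∧ 0 < cr u m' ∧ cr u m' < cr u m + cr s m := by
  have hb := F.fk.bpos
  have hw := F.w0
  have hS2 := F.S20
  have h1 := F.cr_ul hl
  have h2 := F.cr_um hm hK
  have h3 := F.ha
  rw [cr_add_left] at h3
  have h4 := F.areaM
  refine ⟨?_, ?_, ?_, ?_⟩
  · rw [h1]; exact mul_pos hb hβ
  · rw [h1]
    have : w * (b * β) < w * (cr u l + cr q l) := by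
      rw [h3]
      have := mul_lt_mul_of_pos_left hβ2 hb
      linarith
    exact lt_of_mul_lt_mul_left this hw.le
  · have : 0 < S2 * cr u m' := by rw [h2]; positivity
    exact (mul_pos_iff_of_pos_left hS2).1 this
  · have : S2 * S2 * cr u m' < S2 * S2 * (cr u m + cr s m) := by
      rw [h4]
      have e : S2 * S2 * cr u m' = b * w * (S2 * K) := by
        linear_combination S2 * h2
      rw [e]
      have := mul_lt_mul_of_pos_left hK2 (mul_pos hb hw)
      linarith
    exact lt_of_mul_lt_mul_left this (by positivity)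

theorem gcd_scale {b c x y X Y : ℤ} (hb : 0 < b) (hc : 0 < c) (h1 : c * x = b * X)
    (h2 : c * y = b * Y) (h : b ≤ Int.gcd x y) : c ≤ Int.gcd X Y := by
  have e : c * (Int.gcd x y : ℤ) = b * (Int.gcd X Y : ℤ) := by
    have k1 : ((Int.gcd (c * x) (c * y) : ℕ) : ℤ) = c * (Int.gcd x y : ℤ) := by
      rw [Int.gcd_mul_left, Nat.cast_mul, Int.natAbs_of_nonneg hc.le]
    have k2 : ((Int.gcd (b * X) (b * Y) : ℕ) : ℤ) = b * (Int.gcd X Y : ℤ) := by
      rw [Int.gcd_mul_left, Nat.cast_mul, Int.natAbs_of_nonneg hb.le]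
    rw [← k1, ← k2, h1, h2]
  have h3 : b * c ≤ b * (Int.gcd X Y : ℤ) := by
    rw [← e, mul_comm b c]
    exact mul_le_mul_of_nonneg_left h hc.le
  exact le_of_mul_le_mul_left h3 hb

/-- `P₁ = S₂ (z × l') / b` -/
def P1 (p1 S S2 K i j k β μ : ℤ) : ℤ := S2 * (i * β - j * k * p1) - j * S * (k * K - β * μ)

/-- `P₂ = S₂ (z × m') / b` -/
def P2 (p1 S w K i j k β μ : ℤ) : ℤ := w * (i * K - j * μ * p1) + j * S * (k * K - β * μ)

/-- `W' = S₂ area / b` -/
def W' (w S2 p2 K β : ℤ) : ℤ := S2 * (w - 1 + β) + w * (K - p2)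

/-- the number of the content of the first torus -/
def EL (p1 p2 S w S2 K i j k β μ x y : ℤ) : ℤ :=
  y * (w * (i * S2 + j * μ * S) + j * k * S * S2) -
    x * j * (w * S2 * p1 + β * S * S2 + w * S * K) + j * w * W' w S2 p2 K β

/-- the number of the content of the second torus -/
def EM (p2 g S w S2 K i j k β μ x' y' : ℤ) : ℤ :=
  (y' * p2 + x' * g) * (w * (i * S2 + j * μ * S) + j * k * S * S2) +
    j * (S2 - x' * S) * W' w S2 p2 K β

section

variable {x y x' y' : ℤ}

/-- the conditions of a centre exit, in numbers -/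
theorem exit_cond (F : BFS O N b u v l q m s p1 p2 g S w S2)
    (hl : l' = β • l + k • (u + q)) (hm : m' = ν • m + μ • (u + s)) (hK : K = ν * p2 + μ * g)
    (hz : z = i • u + j • (v + l' + m'))
    (c1 : 0 < P1 p1 S S2 K i j k β μ) (c2 : 0 < P2 p1 S w K i j k β μ)
    (c3 : P1 p1 S S2 K i j k β μ + P2 p1 S w K i j k β μ < W' w S2 p2 K β) :
    0 < cr z l' ∧ 0 < cr z m' ∧ cr z l' + cr z m' < cr u v + cr u l' + cr u m' := by
  have hb := F.fk.bpos
  have hS2 := F.S20
  have h1 := F.cr_zl hl hm hK hz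
  have h2 := F.cr_zm hl hm hK hz
  have h3 := F.cr_W hl hm hK
  unfold P1 P2 W' at *
  refine ⟨?_, ?_, ?_⟩
  · have : 0 < S2 * cr z l' := by rw [h1]; exact mul_pos hb c1
    exact (mul_pos_iff_of_pos_left hS2).1 this
  · have : 0 < S2 * cr z m' := by rw [h2]; exact mul_pos hb c2
    exact (mul_pos_iff_of_pos_left hS2).1 this
  · have : S2 * (cr z l' + cr z m') < S2 * (cr u v + cr u l' + cr u m') := by
      rw [mul_add, h1, h2, h3, ← mul_add]
      exact mul_lt_mul_of_pos_left c3 hb
    exact lt_of_mul_lt_mul_left this hS2.le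

/-- **CENTRE EXITS IN NUMBERS** -/
theorem exit (F : BFS O N b u v l q m s p1 p2 g S w S2) (h : BMin O N b)
    (hxy : x * β - y * k = 1) (hxy' : x' * ν - y' * μ = 1) (hK : K = ν * p2 + μ * g)
    (hβ : 0 < β) (hβ2 : w * β < S) (hK0 : 0 < K) (hK2 : S2 * K < p2 * S)
    (hij : IsCoprime i j) (c1 : 0 < P1 p1 S S2 K i j k β μ)
    (c2 : 0 < P2 p1 S w K i j k β μ)
    (c3 : P1 p1 S S2 K i j k β μ + P2 p1 S w K i j k β μ < W' w S2 p2 K β) :
    w * S2 ≤ Int.gcd (w * P1 p1 S S2 K i j k β μ) (EL p1 p2 S w S2 K i j k β μ x y) ∧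
      S2 * S2 ≤ Int.gcd (S2 * P2 p1 S w K i j k β μ) (EM p2 g S w S2 K i j k β μ x' y') := by
  have hb := F.fk.bpos
  have hS2 := F.S20
  obtain ⟨wl, wl2, wm, wm2⟩ := F.windows rfl rfl hK hβ hβ2 hK0 hK2
  obtain ⟨d1, d2, d3⟩ := F.exit_cond rfl rfl hK rfl c1 c2 c3
  obtain ⟨k1, k2⟩ := h.exitC F.fk.has F.fk.vol hxy hxy' rfl rfl rfl rfl wl wl2 wm wm2 hij rfl
    d1 d2 d3
  unfold ct at k1 k2
  constructor
  · refine gcd_scale hb (mul_pos F.w0 hS2) ?_ (F.cr_zq rfl rfl rfl hK rfl) k1
    have := F.cr_zl (i := i) (j := j) (l' := β • l + k • (u + q))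
      (m' := ν • m + μ • (u + s)) rfl rfl hK rfl
    unfold P1
    linear_combination w * this
  · refine gcd_scale hb (mul_pos hS2 hS2) ?_ (F.cr_zs rfl rfl rfl hK rfl) k2
    have := F.cr_zm (i := i) (j := j) (l' := β • l + k • (u + q))
      (m' := ν • m + μ • (u + s)) rfl rfl hK rfl
    unfold P2
    linear_combination S2 * this

/-- the exits with the slit `l`, first torus -/
theorem exit1 (F : BFS O N b u v l q m s p1 p2 g S w S2) (h : BMin O N b)
    (hνμ : IsCoprime ν μ) (hK : K = ν * p2 + μ * g) (hK0 : 0 < K) (hK2 : S2 * K < p2 * S)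
    (hij : IsCoprime i j) (c1 : 0 < i * S2 + j * μ * S)
    (c2 : 0 < w * (i * K - j * μ * p1) - j * μ * S)
    (c3 : i * S2 + (w * (i * K - j * μ * p1)) < w * (S2 - p2 + K)) :
    S2 ≤ Int.gcd (i * S2 + j * μ * S) (j * (S - w) * (S2 - p2 + K)) := by
  have hb := F.fk.bpos
  have hS2 := F.S20
  have hwS : w * 1 < S := by
    have h1 := F.fk.lt_a
    have h2 : w * b < w * cr (u + q) l := mul_lt_mul_of_pos_left h1 F.w0
    rw [F.ha] at h2
    have h3 : b * (w * 1) < b * S := by linarith
    exact lt_of_mul_lt_mul_left h3 hb.le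
  obtain ⟨x', y', hxy'⟩ := hνμ
  have el : l = (1 : ℤ) • l + (0 : ℤ) • (u + q) := by rw [one_smul, zero_smul, add_zero]
  obtain ⟨wl, wl2, wm, wm2⟩ := F.windows el (m' := ν • m + μ • (u + s)) rfl hK (by norm_num) hwS
    hK0 hK2
  have hz := F.cr_zl el (m' := ν • m + μ • (u + s)) rfl hK
    (z := i • u + j • (v + l + (ν • m + μ • (u + s)))) rfl
  obtain ⟨d1, d2, d3⟩ := F.exit_cond (i := i) (j := j) el (m' := ν • m + μ • (u + s)) rfl hK rfl
    (by unfold P1; linarith) (by unfold P2; linarith) (by unfold P1 P2 W'; linarith)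
  obtain ⟨k1, -⟩ := h.exitC (x := 1) (y := 0) (β := 1) (k := 0) (x' := x') (y' := -y')
    (ν := ν) (μ := μ) (q' := q) F.fk.has F.fk.vol (by norm_num) (by linarith) el
    (by rw [zero_smul, one_smul]; abel) rfl rfl wl wl2 wm wm2 hij rfl d1 d2 d3
  unfold ct at k1
  refine gcd_scale hb hS2 (X := i * S2 + j * μ * S) ?_
    (Y := -(j * (S - w) * (S2 - p2 + K))) ?_ k1 |>.trans ?_
  · linear_combination hz
  · have := F.cr_zq1 (i := i) (j := j) (m' := ν • m + μ • (u + s)) rfl hK rfl
    linear_combination this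
  · rw [Int.gcd_neg]

/-- **OPPOSITE SIGNS IN NUMBERS** -/
theorem exitNeg (F : BFS O N b u v l q m s p1 p2 g S w S2) (h : BMin O N b)
    (hG : GapC O N b) (hβk : IsCoprime β k) (hνμ : IsCoprime ν μ) (hK : K = ν * p2 + μ * g)
    (hβ : 0 < β) (hβ2 : w * β < S) (hK0 : 0 < K) (hK2 : S2 * K < p2 * S)
    (hn : k * K - β * μ ≠ 0) (hij : IsCoprime i j)
    (c1 : P1 p1 S S2 K i j k β μ * P2 p1 S w K i j k β μ < 0)
    (c2 : |P1 p1 S S2 K i j k β μ| < W' w S2 p2 K β)
    (c3 : |P2 p1 S w K i j k β μ| < W' w S2 p2 K β) :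
    S2 < |P1 p1 S S2 K i j k β μ| ∧ S2 < |P2 p1 S w K i j k β μ| := by
  have hb := F.fk.bpos
  have hS2 := F.S20
  obtain ⟨x, y, hxy⟩ := hβk
  obtain ⟨x', y', hxy'⟩ := hνμ
  obtain ⟨wl, wl2, wm, wm2⟩ := F.windows rfl rfl hK hβ hβ2 hK0 hK2
  obtain ⟨k1, k2, k3⟩ := F.fk.has.exitOKC (x := x) (y := -y) (β := β) (k := k) (x' := x')
    (y' := -y') (ν := ν) (μ := μ) (by linarith) (by linarith) rfl rfl rfl rfl wl wl2 wm wm2
  have e1 := F.cr_lm (l' := β • l + k • (u + q)) (m' := ν • m + μ • (u + s)) rfl rfl hK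
  have hne : cr (β • l + k • (u + q)) (ν • m + μ • (u + s)) ≠ 0 := by
    intro h0
    rw [h0, mul_zero] at e1
    have := (mul_eq_zero.1 e1.symm).resolve_left (mul_pos hb F.S0).ne'
    exact hn this
  have hC := k3 hne
  have hgap := (hG.gap h) _ _ _ _ _ _ k1 (k2.trans F.fk.vol)
  have hr := hgap.resolve_left hne
  have e2 := F.cr_zl (i := i) (j := j) (l' := β • l + k • (u + q))
    (m' := ν • m + μ • (u + s)) rfl rfl hK rfl
  have e3 := F.cr_zm (i := i) (j := j) (l' := β • l + k • (u + q))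
    (m' := ν • m + μ • (u + s)) rfl rfl hK rfl
  have e4 := F.cr_W (l' := β • l + k • (u + q)) (m' := ν • m + μ • (u + s)) rfl rfl hK
  have eW : cr u (v + (β • l + k • (u + q)) + (ν • m + μ • (u + s))) =
      cr u v + cr u (β • l + k • (u + q)) + cr u (ν • m + μ • (u + s)) := by
    rw [cr_add_right, cr_add_right]
  obtain ⟨l', hl'⟩ : ∃ l', l' = β • l + k • (u + q) := ⟨_, rfl⟩
  obtain ⟨m', hm'⟩ : ∃ m', m' = ν • m + μ • (u + s) := ⟨_, rfl⟩
  rw [← hl', ← hm'] at e2 e3 e4 eW hC hr
  obtain ⟨z, hz⟩ : ∃ z, z = i • u + j • (v + l' + m') := ⟨_, rfl⟩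
  rw [← hz] at e2 e3
  have hP1 : S2 * cr z l' = b * P1 p1 S S2 K i j k β μ := e2
  have hP2 : S2 * cr z m' = b * P2 p1 S w K i j k β μ := e3
  have hW : S2 * cr u (v + l' + m') = b * W' w S2 p2 K β := by rw [eW]; exact e4
  have abs1 : S2 * |cr z l'| = b * |P1 p1 S S2 K i j k β μ| := by
    have := congrArg abs hP1
    rwa [abs_mul, abs_mul, abs_of_pos hS2, abs_of_pos hb] at this
  have abs2 : S2 * |cr z m'| = b * |P2 p1 S w K i j k β μ| := by
    have := congrArg abs hP2
    rwa [abs_mul, abs_mul, abs_of_pos hS2, abs_of_pos hb] at this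
  have hvol : volC (u, v + l' + m', l', y • (-l) + x • (u + q) - u, m',
      y' • (-m) + x' • (u + s) - u) = N := by
    rw [← F.fk.vol, ← k2, hl', hm']
    simp only [volC, vol6, cr, Prod.fst_add, Prod.snd_add, Prod.smul_fst, Prod.smul_snd,
      Prod.fst_sub, Prod.snd_sub, Prod.fst_neg, Prod.snd_neg, smul_eq_mul]
    ring
  have hC' : OKC O (u, v + l' + m', l', y • (-l) + x • (u + q) - u, m',
      y' • (-m) + x' • (u + s) - u) := by
    have a1 : (-y) • l = y • (-l) := by module
    have a2 : (-y') • m = y' • (-m) := by module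
    rw [a1, a2] at hC
    exact hC
  obtain ⟨r1, r2⟩ := hG.neg hC' hvol hr hij hz (by
      have : S2 * S2 * (cr z l' * cr z m') < 0 := by
        have e : S2 * S2 * (cr z l' * cr z m') =
            b * b * (P1 p1 S S2 K i j k β μ * P2 p1 S w K i j k β μ) := by
          linear_combination S2 * cr z m' * hP1 + b * P1 p1 S S2 K i j k β μ * hP2
        rw [e]
        exact mul_neg_of_pos_of_neg (mul_pos hb hb) c1
      by_contra hc
      push Not at hc
      have := mul_nonneg (mul_pos hS2 hS2).le hc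
      linarith) (by
      have : S2 * |cr z l'| < S2 * cr u (v + l' + m') := by
        rw [abs1, hW]; exact mul_lt_mul_of_pos_left c2 hb
      exact lt_of_mul_lt_mul_left this hS2.le) (by
      have : S2 * |cr z m'| < S2 * cr u (v + l' + m') := by
        rw [abs2, hW]; exact mul_lt_mul_of_pos_left c3 hb
      exact lt_of_mul_lt_mul_left this hS2.le)
  constructor
  · have : b * S2 < b * |P1 p1 S S2 K i j k β μ| := by
      rw [← abs1, mul_comm b S2]; exact mul_lt_mul_of_pos_left r1 hS2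
    exact lt_of_mul_lt_mul_left this hb.le
  · have : b * S2 < b * |P2 p1 S w K i j k β μ| := by
      rw [← abs2, mul_comm b S2]; exact mul_lt_mul_of_pos_left r2 hS2
    exact lt_of_mul_lt_mul_left this hb.le

end

/-- an extremal centre: `z × l' = b` gives `b ∣ z × q'` -/
theorem extremal (F : BFS O N b u v l q m s p1 p2 g S w S2) (h : BMin O N b) {x y : ℤ}
    (hxy : x * β - y * k = 1) (hνμ : IsCoprime ν μ) (hK : K = ν * p2 + μ * g)
    (hβ : 0 < β) (hβ2 : w * β < S) (hK0 : 0 < K) (hK2 : S2 * K < p2 * S)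
    (hij : IsCoprime i j) (c1 : P1 p1 S S2 K i j k β μ = S2)
    (c2 : 0 < P2 p1 S w K i j k β μ)
    (c3 : S2 + P2 p1 S w K i j k β μ < W' w S2 p2 K β) :
    w * S2 ∣ EL p1 p2 S w S2 K i j k β μ x y := by
  have hb := F.fk.bpos
  have hS2 := F.S20
  obtain ⟨x', y', hxy'⟩ := hνμ
  obtain ⟨wl, wl2, wm, wm2⟩ := F.windows rfl rfl hK hβ hβ2 hK0 hK2
  obtain ⟨d1, d2, d3⟩ := F.exit_cond rfl rfl hK rfl (by rw [c1]; exact hS2) c2
    (by rw [c1]; exact c3)
  obtain ⟨v', k1, k2, -⟩ := F.fk.has.exitC hxy (x' := x') (y' := -y') (ν := ν) (μ := μ)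
    (by linarith) rfl rfl rfl rfl wl wl2 wm wm2 hij rfl d1 d2 d3
  have e2 := F.cr_zl (i := i) (j := j) (l' := β • l + k • (u + q))
    (m' := ν • m + μ • (u + s)) rfl rfl hK rfl
  have e3 : S2 * cr (i • u + j • (v + (β • l + k • (u + q)) + (ν • m + μ • (u + s))))
      (β • l + k • (u + q)) = S2 * b := by
    rw [e2]
    unfold P1 at c1
    rw [c1]; ring
  have e4 := mul_left_cancel₀ hS2.ne' e3
  obtain ⟨c, hc⟩ := h.dvd k1 (k2.trans F.fk.vol) e4
  have e5 := F.cr_zq (i := i) (j := j) (l' := β • l + k • (u + q))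
    (m' := ν • m + μ • (u + s)) (x := x) (y := y) rfl rfl rfl hK rfl
  rw [hc] at e5
  refine ⟨c, ?_⟩
  have e6 : b * EL p1 p2 S w S2 K i j k β μ x y = b * (w * S2 * c) := by
    unfold EL W'
    linear_combination -e5
  exact mul_left_cancel₀ hb.ne' e6

/-- **(E1)**: a new fork `l' ∥ m'`, `(μ, K) = n (k, β)`, with `β` prime to `k p₁` -/
theorem newFork (F : BFS O N b u v l q m s p1 p2 g S w S2) (h : BMin O N b) {n : ℤ}
    (hcop : IsCoprime β (k * p1)) (hνμ : IsCoprime ν (n * k)) (hK : n * β = ν * p2 + n * k * g)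
    (hn : 0 < n) (hβ : 0 < β) (hβ2 : w * β < S) (hK2 : S2 * (n * β) < p2 * S) :
    S2 ∣ n * (S - w * β) - p2 * (S - w) := by
  have hb := F.fk.bpos
  have hS2 := F.S20
  have hw := F.w0
  have hA : 0 < S2 * w - S2 - w * p2 := by
    have h1 : S2 * cr u v = b * (S2 * w - S2 - w * p2) := by
      linear_combination S2 * F.hx - F.hm
    have h2 : 0 < b * (S2 * w - S2 - w * p2) := by
      rw [← h1]; exact mul_pos hS2 F.fk.has.pos.1
    exact (mul_pos_iff_of_pos_left hb).1 h2
  obtain ⟨x, y, hxy⟩ := hcop.of_mul_right_left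
  have hrel := F.rel1
  -- all extremal centres
  have key : ∀ i j : ℤ, i * β - j * k * p1 = 1 →
      S2 ∣ j * (n * (S - w * β) - p2 * (S - w)) := by
    intro i j hij
    have hco : IsCoprime i j := ⟨β, -(k * p1), by linear_combination hij⟩
    have e1 : P1 p1 S S2 (n * β) i j k β (n * k) = S2 := by
      unfold P1
      linear_combination S2 * hij
    have e2 : P2 p1 S w (n * β) i j k β (n * k) = w * n := by
      unfold P2
      linear_combination w * n * hij
    have h1 := F.extremal h (x := x) (y := -y) (i := i) (j := j) (by linear_combination hxy)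
      hνμ hK hβ hβ2 (mul_pos hn hβ) hK2 hco e1 (by rw [e2]; positivity) (by
        rw [e2]
        unfold W'
        have h3 : S2 + w * n ≤ β * (S2 + w * n) := by
          have h4 : 0 < S2 + w * n := by positivity
          nlinarith
        nlinarith)
    have e3 : EL p1 p2 S w S2 (n * β) i j k β (n * k) x (-y) =
        w * (-(y * i * S2) - j * (S * S2 - p1 * S2 - p2 * S + S * n) - x * j * S2 * p1 +
          j * (S2 * (w - 1 + β) + w * (n * β - p2))) := by
      unfold EL W'
      linear_combination (-(j * S * (S2 + w * n))) * hxy - j * hrel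
    rw [e3] at h1
    have h2 := (mul_dvd_mul_iff_left hw.ne').1 h1
    obtain ⟨c, hc⟩ := h2
    exact ⟨-(y * i) - j * S + j * p1 - x * j * p1 + j * (w - 1 + β) - c, by
      linear_combination -hc⟩
  obtain ⟨i0, j0, hij0⟩ := hcop
  refine dvd_of_prime_pow fun r e hr he => ?_
  have hri := Nat.prime_iff_prime_int.1 hr
  rcases Nat.eq_zero_or_pos e with rfl | he0
  · simp
  obtain ⟨i, j, h1, h2⟩ : ∃ i j : ℤ, i * β - j * k * p1 = 1 ∧ ¬ (r : ℤ) ∣ j := by
    by_cases hj : (r : ℤ) ∣ -j0
    · refine ⟨i0 + k * p1, -j0 + β, by linear_combination hij0, fun h9 => ?_⟩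
      have h8 : (r : ℤ) ∣ β := (dvd_add_right hj).1 h9
      have h7 : (r : ℤ) ∣ 1 := by
        rw [← hij0]
        exact dvd_add (h8.mul_left _) (((dvd_neg).1 hj).mul_right _)
      exact hri.not_isUnit (isUnit_of_dvd_one h7)
    · exact ⟨i0, -j0, by linear_combination hij0, hj⟩
  have h3 := he.trans (key i j h1)
  have h4 : IsCoprime ((r : ℤ) ^ e) j := (isCoprime_of_not_dvd hr h2).pow_left
  exact h4.dvd_of_dvd_mul_left h3

end BFS

/-- **the numbers of an extremal fork with minimal second height** -/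
theorem BFM.exists_BFS (F : BFM O N b u v l q m s) (h : BMin O N b) (hg : Gap O N b) :
    ∃ S w S2 p1 p2 g : ℤ, BInt u v l q m s S w S2 p1 p2 g ∧
      BFS O N b u v l q m s p1 p2 g S w S2 := by
  obtain ⟨c1, c2, c3, c4, c5, n⟩ := F.num h hg
  obtain ⟨r1, r2, r3, r4, r5⟩ := F.fk.has.pos
  have hul := F.fk.ul
  have hb := F.fk.bpos
  have ha := F.fk.areaM
  have e1 : cr (u + q) l = b + cr q l := by rw [cr_add_left, hul]
  have e2 : cr (u + s) m = cr u m + cr s m := cr_add_left u s m
  have e3 : cr u (u + s) = cr u s := by rw [cr_add_right, cr_self, zero_add]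
  have n1 := n.h1
  have n2 := n.h2
  have n3 := n.h3
  have n4 := n.h4
  have n5 := n.hg
  rw [e1] at n1 n2 n3 n4 n5
  rw [e2] at ha
  rw [e3] at n5
  have hM0 := r3
  obtain ⟨S, w, S2, p1, p2, g, hB⟩ := exists_BInt (u := u) (v := v) (l := l) (q := q) (m := m)
    (s := s) r2 r1 r4 r3 r5 (by rw [hul]; exact ⟨c1, n1⟩)
    (by rw [hul]; exact ⟨c3, by linear_combination n3⟩)
    (by
      rw [hul]
      refine ⟨c2, ?_⟩
      linear_combination cr u m * n2 - b * c2 * ha)
    (by
      rw [hul]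
      refine ⟨c4, ?_⟩
      have : b * ((b + cr q l) * (cr u v + b + cr u m) * cr s m) =
          b * (b ^ 2 * (cr u m + cr s m) * c4) := by
        linear_combination cr u m * n4 - b ^ 2 * c4 * ha +
          (b + cr q l) * (cr u v + b + cr u m) * ha
      exact mul_left_cancel₀ hb.ne' this)
    (by
      rw [hul]
      refine ⟨c5, ?_⟩
      linear_combination cr u m * n5 - b * c5 * ha)
  refine ⟨S, w, S2, p1, p2, g, hB, F.fk, ?_, ?_, ?_, ?_, ?_, ?_, ?_, ?_, ?_⟩
  · have := hB.w2; have := hB.wS; linarith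
  · have := hB.w2; linarith
  · have := hB.p2pos; have := hB.p2lt; linarith
  · have := hB.hA; rw [hul] at this; linarith
  · have := hB.hS; rw [hul] at this; rw [e1]; linarith
  · have := hB.hw; rw [hul] at this; linarith
  · have := hB.hM; rw [hul] at this; linarith
  · have h1 := hB.hS2
    have h2 : cr u m * (S2 * cr (u + s) l) = cr u m * (b * S) := by
      linear_combination b * h1 - S2 * ha
    exact mul_left_cancel₀ hM0.ne' h2
  · have := hB.hg; rw [hul] at this; rw [e3]; linarith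

end Pool.Agent.H4G.Six
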