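import Pool.Agent.H4G.Six.Defs

/-!
# The local lemma of stage II (helper53, after helper62 and helper96)

An extremal fork `(u, v, l, q, m, s)`: `u × l = b`, `u × q = 0`, `l × m = 0`, `v × l = 0`; in the frame
`x u + y l` the tori are `L = ⟨(0, 1), (lam, 0)⟩`, `M = ⟨(0, x2), (lam2, c)⟩` and `v = (0, x0)` modulo
`u`.  If `lam x0`, `lam x2 / lam2`, `lam c / lam2`, `(lam - 1) (x0 + 1 + x2)` are integers and the
contents of the exits `v + l + (u + s)`, `v + l + (u + s) + m` are divisible by `b`, then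
`lam, lam2, x0, x2, c` are integers, and `b = 1` if the periods generate `ℤ²`.
-/

set_option autoImplicit false

namespace Pool.Agent.H4G.Six

open Pool.Agent.H4G

/-- `T / b` is a root of a monic polynomial of degree two -/
private lemma dvd_of_sq {b T c p : ℤ} (hb : b ≠ 0) (h : T * T = b * c * T + b * b * p) : b ∣ T := by
  obtain ⟨g, hg⟩ : ∃ g : ℤ, g = (Int.gcd b T : ℤ) := ⟨_, rfl⟩
  have hg0 : g ≠ 0 := by
    rw [hg]
    exact_mod_cast Int.gcd_ne_zero_left hb
  obtain ⟨b', hb'⟩ : g ∣ b := by rw [hg]; exact Int.gcd_dvd_left ..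
  obtain ⟨T', hT'⟩ : g ∣ T := by rw [hg]; exact Int.gcd_dvd_right ..
  have hc : IsCoprime b' T' := by
    rw [Int.isCoprime_iff_gcd_eq_one]
    have h1 : Int.gcd b T = g.natAbs * Int.gcd b' T' := by
      rw [hb', hT', Int.gcd_mul_left]
    have h2 : g.natAbs = Int.gcd b T := by rw [hg]; rfl
    have h3 : 0 < g.natAbs := Int.natAbs_pos.2 hg0
    rw [h2] at h1 h3
    exact (Nat.eq_of_mul_eq_mul_left h3 (by rw [mul_one]; exact h1)).symm
  have h1 : T' * T' = b' * (c * T' + b' * p) := by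
    have h2 : g * g * (T' * T') = g * g * (b' * (c * T' + b' * p)) := by
      rw [hb', hT'] at h
      linear_combination h
    exact mul_left_cancel₀ (mul_ne_zero hg0 hg0) h2
  have h3 : IsUnit b' := by
    have h4 : b' ∣ T' * T' := ⟨_, h1⟩
    exact (hc.mul_right hc).isUnit_of_dvd' (dvd_refl _) h4
  rw [hb', hT']
  rcases Int.isUnit_iff.1 h3 with h4 | h4
  · rw [h4, mul_one]
    exact dvd_mul_right _ _
  · rw [h4]
    exact ⟨-T', by ring⟩

/-- **The local lemma, numbers.**  `A = b x0`, `M = b x2`, `C = b c`, `a = b lam`, `a2 = b lam2`. -/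
theorem bloc_int {b A M C a a2 p1 p2 p3 g : ℤ} (hb : b ≠ 0) (h1 : a * A = b * b * p1)
    (h2 : a * M = b * p2 * a2) (h3 : (a - b) * (A + b + M) = b * b * p3)
    (hg : a * C = b * g * a2) (e1 : b ∣ a2) (e2 : b * b ∣ (a - b) * M)
    (e3 : b * b ∣ (a - b) * C) : b ∣ a ∧ b ∣ A ∧ b ∣ M ∧ b ∣ C := by
  obtain ⟨k, rfl⟩ := e1
  obtain ⟨x, hx⟩ := e2
  obtain ⟨y, hy⟩ := e3
  have hM : b ∣ M := by
    refine ⟨p2 * k - x, ?_⟩
    refine mul_left_cancel₀ hb ?_
    linear_combination h2 - hx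
  have hC : b ∣ C := by
    refine ⟨g * k - y, ?_⟩
    refine mul_left_cancel₀ hb ?_
    linear_combination hg - hy
  obtain ⟨T, hT⟩ : ∃ T, T = A + b + M := ⟨_, rfl⟩
  have ha : a = T - b * (p1 + p2 * k - p3) := by
    refine mul_left_cancel₀ hb ?_
    rw [hT]
    linear_combination h3 - h1 - h2
  have hbT : b ∣ T := by
    refine dvd_of_sq (c := p1 + p2 * k - p3 + 1) (p := p3) hb ?_
    rw [← hT] at h3
    rw [ha] at h3
    linear_combination h3
  have hba : b ∣ a := by
    rw [ha]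
    exact dvd_sub hbT (dvd_mul_right _ _)
  refine ⟨hba, ?_, hM, hC⟩
  have : A = T - b - M := by rw [hT]; ring
  rw [this]
  exact dvd_sub (dvd_sub hbT (dvd_refl b)) hM

/-- **The periods.**  If `b = u × l` divides all products with `u` and `l`, then `b = 1`. -/
theorem bloc_span {u v l q m s : Z2} {b : ℤ} (hspan : AddSubgroup.closure {u, v, l, q, m, s} = ⊤)
    (hb : 0 < b) (hul : cr u l = b)
    (hu : b ∣ cr u v ∧ b ∣ cr u q ∧ b ∣ cr u m ∧ b ∣ cr u s)
    (hl : b ∣ cr v l ∧ b ∣ cr q l ∧ b ∣ cr m l ∧ b ∣ cr s l) : b = 1 := by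
  have key : ∀ w : Z2, b ∣ cr u w ∧ b ∣ cr w l := by
    intro w
    have hw : w ∈ AddSubgroup.closure {u, v, l, q, m, s} := by rw [hspan]; exact AddSubgroup.mem_top w
    induction hw using AddSubgroup.closure_induction with
    | mem x hx =>
      simp only [Set.mem_insert_iff, Set.mem_singleton_iff] at hx
      have e1 : cr u u = 0 := by unfold cr; ring
      have e2 : cr l l = 0 := by unfold cr; ring
      rcases hx with rfl | rfl | rfl | rfl | rfl | rfl
      · exact ⟨by rw [e1]; exact dvd_zero b, by rw [hul]⟩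
      · exact ⟨hu.1, hl.1⟩
      · exact ⟨by rw [hul], by rw [e2]; exact dvd_zero b⟩
      · exact ⟨hu.2.1, hl.2.1⟩
      · exact ⟨hu.2.2.1, hl.2.2.1⟩
      · exact ⟨hu.2.2.2, hl.2.2.2⟩
    | zero => exact ⟨by simp [cr], by simp [cr]⟩
    | add x y _ _ hx hy =>
      have e1 : cr u (x + y) = cr u x + cr u y := by
        unfold cr
        simp only [Prod.fst_add, Prod.snd_add]
        ring
      have e2 : cr (x + y) l = cr x l + cr y l := by
        unfold cr
        simp only [Prod.fst_add, Prod.snd_add]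
        ring
      rw [e1, e2]
      exact ⟨dvd_add hx.1 hy.1, dvd_add hx.2 hy.2⟩
    | neg x _ hx =>
      have e1 : cr u (-x) = -cr u x := by
        unfold cr
        simp only [Prod.fst_neg, Prod.snd_neg]
        ring
      have e2 : cr (-x) l = -cr x l := by
        unfold cr
        simp only [Prod.fst_neg, Prod.snd_neg]
        ring
      rw [e1, e2]
      exact ⟨(dvd_neg).2 hx.1, (dvd_neg).2 hx.2⟩
  obtain ⟨u1, hu1⟩ : b ∣ u.1 := by
    have h1 := (key (0, 1)).1
    unfold cr at h1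
    simpa using h1
  obtain ⟨u2, hu2⟩ : b ∣ u.2 := by
    have h1 := (key (1, 0)).1
    unfold cr at h1
    simpa using h1
  obtain ⟨l1, hl1⟩ : b ∣ l.1 := by
    have h1 := (key (0, 1)).2
    unfold cr at h1
    simpa using h1
  obtain ⟨l2, hl2⟩ : b ∣ l.2 := by
    have h1 := (key (1, 0)).2
    unfold cr at h1
    simpa using h1
  have h1 : b * 1 = b * (b * (u1 * l2 - u2 * l1)) := by
    have h2 := hul
    unfold cr at h2
    rw [hu1, hu2, hl1, hl2] at h2
    linear_combination -h2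
  have h2 := mul_left_cancel₀ hb.ne' h1
  exact le_antisymm (Int.le_of_dvd one_pos ⟨_, h2⟩) hb

section

variable {u v l q m s : Z2} {b : ℤ}

/-- **The local lemma.**  `b ∣ (u + q) × v`, `b ∣ q × (v + l + m)`: contents of the fork; `hp2`, `hg`: `lam2` is
minimal.  If `b` divides `s × l`, `m × q`, `s × q`, then `b = 1`. -/
theorem bloc_one (hspan : AddSubgroup.closure {u, v, l, q, m, s} = ⊤) (hb : 0 < b)
    (hul : cr u l = b) (huq : cr u q = 0) (hlm : cr l m = 0) (hvl : cr v l = 0)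
    (d1 : b ∣ cr (u + q) v) (d3 : b ∣ cr q (v + l + m))
    (hp2 : ∃ p2 : ℤ, (b + cr q l) * cr u m = b * p2 * (b + cr s l))
    (hg : ∃ g : ℤ, (b + cr q l) * cr u s = b * g * (b + cr s l))
    (e1 : b ∣ cr s l) (e2 : b ∣ cr m q) (e3 : b ∣ cr s q) : b = 1 := by
  obtain ⟨p1, hp1⟩ := d1
  obtain ⟨p3, hp3⟩ := d3
  obtain ⟨p2, hp2⟩ := hp2
  obtain ⟨g, hg⟩ := hg
  obtain ⟨x, hx⟩ := e2
  obtain ⟨y, hy⟩ := e3
  -- products in the frame `u, l`
  have pl : ∀ x y : Z2, b * cr x y = cr u x * cr l y - cr u y * cr l x := by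
    intro x y
    rw [← hul]
    unfold cr
    ring
  have el : ∀ x : Z2, cr l x = - cr x l := by
    intro x
    unfold cr
    ring
  have f1 : cr (u + q) v = cr u v + cr q v := by
    unfold cr
    simp only [Prod.fst_add, Prod.snd_add]
    ring
  have f3 : cr q (v + l + m) = cr q v + cr q l + cr q m := by
    unfold cr
    simp only [Prod.fst_add, Prod.snd_add]
    ring
  have g1 := pl q v
  have g2 := pl q m
  have g3 := pl m q
  have g4 := pl s q
  have lq : cr l q = - cr q l := el q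
  rw [huq, lq] at g1
  rw [huq, lq] at g2
  rw [huq, lq, hlm] at g3
  rw [huq, lq] at g4
  have h := bloc_int (b := b) (A := cr u v) (M := cr u m) (C := cr u s) (a := b + cr q l)
    (a2 := b + cr s l) (p1 := p1) (p2 := p2) (p3 := p3) (g := g) hb.ne' ?_ hp2 ?_ hg
    (dvd_add (dvd_refl b) e1) ⟨-x, ?_⟩ ⟨-y, ?_⟩
  · refine bloc_span hspan hb hul ⟨h.2.1, by rw [huq]; exact dvd_zero b, h.2.2.1, h.2.2.2⟩
      ⟨by rw [hvl]; exact dvd_zero b, ?_, ?_, e1⟩
    · have h1 := h.1
      exact (Int.dvd_add_right (dvd_refl b)).1 h1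
    · have : cr m l = - cr l m := by unfold cr; ring
      rw [this, hlm, neg_zero]
      exact dvd_zero b
  · rw [f1] at hp1
    linear_combination b * hp1 - g1
  · rw [f3] at hp3
    linear_combination b * hp3 - g1 - g2
  · rw [hx] at g3
    linear_combination g3
  · rw [hy] at g4
    linear_combination g4

/-- **The exits.**  If `2 ≤ b`, then one of the two exits `v + l + (u + s)`, `v + l + (u + s) + m` (with the
slits `l` and the slit of `M`) has a content which is not divisible by `b`; `p ^ k` is the power of a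
prime. -/
theorem bloc_exit (hspan : AddSubgroup.closure {u, v, l, q, m, s} = ⊤) (hb : 2 ≤ b)
    (hul : cr u l = b) (huq : cr u q = 0) (hlm : cr l m = 0) (hvl : cr v l = 0)
    (d1 : b ∣ cr (u + q) v) (d3 : b ∣ cr q (v + l + m))
    (hp2 : ∃ p2 : ℤ, (b + cr q l) * cr u m = b * p2 * (b + cr s l))
    (hg : ∃ g : ℤ, (b + cr q l) * cr u s = b * g * (b + cr s l)) :
    ∃ p k : ℕ, p.Prime ∧ ((p : ℤ) ^ k ∣ b) ∧ (¬ (p : ℤ) ^ k ∣ cr (u + s) l ∨
      ¬ (p : ℤ) ^ k ∣ cr (v + l + (u + s)) q ∨ ¬ (p : ℤ) ^ k ∣ cr (v + l + (u + s) + m) q) := by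
  by_contra hcon
  push Not at hcon
  have key : ∀ x : ℤ, (∀ p k : ℕ, p.Prime → (p : ℤ) ^ k ∣ b → (p : ℤ) ^ k ∣ x) → b ∣ x := by
    intro x hx
    rw [← Int.natAbs_dvd_natAbs, Nat.dvd_iff_prime_pow_dvd_dvd]
    intro p k hp hk
    have h1 : (p : ℤ) ^ k ∣ b := by
      have h2 : ((p ^ k : ℕ) : ℤ) ∣ b := Int.natCast_dvd.2 hk
      rwa [Nat.cast_pow] at h2
    have h3 := hx p k hp h1
    have h4 : ((p ^ k : ℕ) : ℤ) ∣ x := by rwa [Nat.cast_pow]
    exact Int.natCast_dvd.1 h4
  have k1 := key _ fun p k hp hk => (hcon p k hp hk).1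
  have k2 := key _ fun p k hp hk => (hcon p k hp hk).2.1
  have k3 := key _ fun p k hp hk => (hcon p k hp hk).2.2
  have f1 : cr (u + s) l = b + cr s l := by
    rw [← hul]
    unfold cr
    simp only [Prod.fst_add, Prod.snd_add]
    ring
  have f2 : cr (v + l + (u + s)) q = - cr q (v + l + m) + cr u q + cr s q - cr m q := by
    unfold cr
    simp only [Prod.fst_add, Prod.snd_add]
    ring
  have f3 : cr (v + l + (u + s) + m) q = - cr q (v + l + m) + cr u q + cr s q := by
    unfold cr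
    simp only [Prod.fst_add, Prod.snd_add]
    ring
  have e1 : b ∣ cr s l := by
    rw [f1] at k1
    exact (Int.dvd_add_right (dvd_refl b)).1 k1
  have e3 : b ∣ cr s q := by
    rw [f3, huq, add_zero] at k3
    exact (Int.dvd_add_right ((dvd_neg).2 d3)).1 k3
  have e2 : b ∣ cr m q := by
    have h1 : cr m q = cr (v + l + (u + s) + m) q - cr (v + l + (u + s)) q := by
      rw [f2, f3]
      ring
    rw [h1]
    exact dvd_sub k3 k2
  have h1 := bloc_one hspan (by omega) hul huq hlm hvl d1 d3 hp2 hg e1 e2 e3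
  omega

end

end Pool.Agent.H4G.Six
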