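import Pool.Agent.H4G.Six.BLam
import Pool.Agent.H4G.Six.BLocal

/-!
# The local lemma of stage II for `BFM` (helper53)
-/

set_option autoImplicit false

namespace Pool.Agent.H4G.Six

open Pool.Agent.H4G

variable {X : Type} {O : PO X} {N b : ℤ} {u v l q m s : Z2}

/-- **The local lemma.**  If `2 ≤ b`, then one of the two exits `v + l + (u + s)`,
`v + l + (u + s) + m` is bad at a power of a prime which divides `b`. -/
theorem BFM.bloc (hF : BFM O N b u v l q m s) (h : BMin O N b) (hg : Gap O N b)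
    (hspan : AddSubgroup.closure {u, v, l, q, m, s} = ⊤) (hb : 2 ≤ b) :
    ∃ p k : ℕ, p.Prime ∧ ((p : ℤ) ^ k ∣ b) ∧ (¬ (p : ℤ) ^ k ∣ cr (u + s) l ∨
      ¬ (p : ℤ) ^ k ∣ cr (v + l + (u + s)) q ∨ ¬ (p : ℤ) ^ k ∣ cr (v + l + (u + s) + m) q) := by
  obtain ⟨p1, p2, p3, p4, g, hB⟩ := hF.num h hg
  have e1 : b + cr q l = cr (u + q) l := by rw [cr_add_left, hF.fk.ul]
  have e2 : b + cr s l = cr (u + s) l := by rw [cr_add_left, hF.fk.ul]
  have e3 : cr u s = cr u (u + s) := by rw [cr_add_right, cr_self, zero_add]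
  refine bloc_exit hspan hb hF.fk.ul hF.fk.uq hF.fk.lm hF.fk.vl (hF.fk.dvd_qv h hg) ?_
    ⟨p2, ?_⟩ ⟨g, ?_⟩
  · rw [cr_swap q (v + l + m)]
    exact (dvd_neg).2 (hF.fk.dvd_xq h)
  · rw [e1, e2]
    exact hB.h2
  · rw [e1, e2, e3]
    exact hB.hg

/-- the numbers: if all three numbers are integral, `b = 1` -/
theorem BFM.bloc_num (hF : BFM O N b u v l q m s) (h : BMin O N b) (hg : Gap O N b)
    (hspan : AddSubgroup.closure {u, v, l, q, m, s} = ⊤) (k1 : b ∣ cr (u + s) l)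
    (k2 : b * b ∣ cr q l * cr u m) (k3 : b * b ∣ cr q l * cr u (u + s)) : b = 1 := by
  obtain ⟨p1, p2, p3, p4, g, hB⟩ := hF.num h hg
  have hb := hF.fk.bpos
  have ha : cr (u + q) l - b = cr q l := by rw [cr_add_left, hF.fk.ul]; ring
  have h := bloc_int (b := b) hb.ne' (by rw [hB.h1, pow_two]) hB.h2
    (by rw [hB.h3, pow_two]) hB.hg k1 (by rw [ha]; exact k2) (by rw [ha]; exact k3)
  have e2 : cr (u + s) l = b + cr s l := by rw [cr_add_left, hF.fk.ul]
  have e3 : cr u (u + s) = cr u s := by rw [cr_add_right, cr_self, zero_add]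
  rw [e3] at h
  rw [e2] at k1
  refine bloc_span hspan hb hF.fk.ul ⟨h.2.1, by rw [hF.fk.uq]; exact dvd_zero b, h.2.2.1,
    h.2.2.2⟩ ⟨by rw [hF.fk.vl]; exact dvd_zero b, ?_, ?_, ?_⟩
  · rw [← ha]
    exact dvd_sub h.1 (dvd_refl b)
  · rw [cr_swap m l, hF.fk.lm, neg_zero]
    exact dvd_zero b
  · exact (Int.dvd_add_right (dvd_refl b)).1 k1

end Pool.Agent.H4G.Six
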