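import Pool.Agent.H4G.Six.Config3

/-!
# All centres of a column lattice (helper96)

The centre `u` of a tree may be replaced by every primitive vector `u'` of `⟨u, v + l + m⟩` with
`0 < u' × l`, `0 < u' × m`, `u' × l + u' × m < area`. The slits may be parallel.
-/

set_option autoImplicit false

namespace Pool.Agent.H4G.Six

open Pool.Agent.H4G

variable {X : Type} {O : PO X} {u v u' l q m s l1 q1 m1 s1 : Z2}

/-- CHANGE OF THE CENTRE, the slits may be parallel -/
theorem Has6.recenter (h : Has6 O (u, v, l, q, m, s)) {i j : ℤ} (hij : IsCoprime i j)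
    (hu : u' = i • u + j • (v + l + m)) (h1 : 0 < cr u' l) (h2 : 0 < cr u' m)
    (h3 : cr u' l + cr u' m < cr u v + cr u l + cr u m) :
    ∃ v', Has6 O (u', v', l, q, m, s) ∧ lat u' (v' + l + m) = lat u (v + l + m) ∧
      cr u' v' = cr u v + cr u l + cr u m - cr u' l - cr u' m ∧
      vol6 (u', v', l, q, m, s) = vol6 (u, v, l, q, m, s) := by
  obtain ⟨p, k1, k2⟩ := exists_basis (U := u) (x := v + l + m) i j hij
  rw [← hu] at k1 k2
  have hx : cr u (v + l + m) = cr u v + cr u l + cr u m := by rw [cr_addr, cr_addr]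
  rw [hx] at k2
  have e1 : AddSubgroup.closure ({u', -p} : Set Z2) = AddSubgroup.closure {u, v + l + m} := by
    rw [clo_neg_right, clo_comm u' p, k1]
  have e2 : cr u' (-p) = cr u v + cr u l + cr u m := by
    rw [← k2, cr_negr, cr_swap' p u', neg_neg]
  have e3 : cr u' (-p - l - m) = cr u v + cr u l + cr u m - cr u' l - cr u' m := by
    rw [← e2]
    simp only [cr, Prod.fst_sub, Prod.snd_sub]; ring
  refine ⟨-p - l - m, h.config.center e1 h1 h2 (by rw [e3]; linarith), ?_, e3, ?_⟩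
  · have e : -p - l - m + l + m = -p := by abel
    rw [e]
    exact e1
  · simp only [vol6]
    rw [e3]
    ring

/-- CHANGE OF THE CENTRE AND OF THE SLITS: the new slits are primitive vectors of
`⟨l, u' + q⟩`, `⟨m, u' + s⟩` in the open windows -/
theorem Has6.recenter' (h : Has6 O (u, v, l, q, m, s)) {i j : ℤ} (hij : IsCoprime i j)
    (hu : u' = i • u + j • (v + l + m)) (h1 : 0 < cr u' l) (h2 : 0 < cr u' m)
    (h3 : cr u' l + cr u' m < cr u v + cr u l + cr u m) {a b c d : ℤ} (hab : IsCoprime a b)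
    (hl : l1 = a • l + b • (u' + q)) (hl1 : 0 < cr u' l1) (hl2 : cr u' l1 < cr u' l + cr q l)
    (hcd : IsCoprime c d) (hm : m1 = c • m + d • (u' + s)) (hm1 : 0 < cr u' m1)
    (hm2 : cr u' m1 < cr u' m + cr s m) :
    ∃ v' q1 s1, Has6 O (u', v', l1, q1, m1, s1) ∧
      lat l1 (u' + q1) = lat l (u' + q) ∧ lat m1 (u' + s1) = lat m (u' + s) ∧
      lat u' (v' + l + m) = lat u (v + l + m) ∧
      vol6 (u', v', l1, q1, m1, s1) = vol6 (u, v, l, q, m, s) := by
  obtain ⟨v', k1, k2, k3, k4⟩ := h.recenter hij hu h1 h2 h3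
  obtain ⟨q1, k5, k6⟩ := exists_slit hab hl
  obtain ⟨s1, k7, k8⟩ := exists_slit hcd hm
  refine ⟨v', q1, s1, k1.change hl1 (by rw [k6]; linarith) k5 hm1 (by rw [k8]; linarith) k7, k5,
    k7, k2, ?_⟩
  rw [← k4]
  simp only [vol6]
  rw [k6, k8]
  ring

end Pool.Agent.H4G.Six
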