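import Pool.Agent.H4G.Six.State6

/-!
# The Farey lemma of stage I (MP_4f7c28, part (i); lemma of helper42, typed by helper14)

`L` = lattice with the basis `(l, p)`, area `a = p × l > 0`, `u` and `m` arbitrary with `0 < u × m`.
`farey_cone`: two neighbours `l₁`, `l₂` in a window `0 < u × · ≤ b` with `m` between them.
`farey_le`: window `0 < u × · ≤ a`, there is a primitive `l₁` in `L` with `|l₁ × m| < u × m`.
`farey_lt`, `Blk6.farey`: the same for `0 < u × · < a`, up to the boundary case.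
-/

set_option autoImplicit false

namespace Pool.Agent.H4G.Six

open Pool.Agent.H4G

private lemma lcomm (x y : Z2) : lat x y = lat y x := by
  unfold lat
  rw [Set.pair_comm]

private lemma lneg (x y : Z2) : lat x (-y) = lat x y :=
  closure_pair_eq (α := 1) (β := 0) (γ := 0) (δ := -1) (by module) (by module)
    (Or.inr (by norm_num))

private lemma ladd (x y : Z2) (k : ℤ) : lat x (y + k • x) = lat x y :=
  closure_pair_eq (α := 1) (β := 0) (γ := k) (δ := 1) (by module) (by module)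
    (Or.inl (by norm_num))

/-- `lat` with a sign and a multiple -/
lemma lat_sgn {e : ℤ} (he : e = 1 ∨ e = -1) (l p : Z2) (j : ℤ) :
    lat l ((-e) • p + j • l) = lat l p := by
  rw [ladd]
  rcases he with rfl | rfl
  · rw [neg_smul, one_smul, lneg]
  · rw [neg_neg, one_smul]

lemma lat_sgn' {e : ℤ} (he : e = 1 ∨ e = -1) (l p : Z2) : lat l (e • p) = lat l p := by
  rcases he with rfl | rfl
  · rw [one_smul]
  · rw [neg_smul, one_smul, lneg]

/-- the identity of four vectors -/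
lemma cr_four (u l l' m : Z2) :
    cr u l' * cr l m - cr u l * cr l' m = cr u m * cr l l' := by
  simp only [cr]
  ring

/-- **The cone.** -/
theorem farey_cone {e a b : ℤ} (he : e = 1 ∨ e = -1) (ha : 0 < a) {u m : Z2} (hm : 0 < cr u m) :
    ∀ (n : ℕ) (l p : Z2), cr p l = a → 0 < cr u l → cr u l ≤ b → 0 ≤ e * cr l m →
      b ^ 2 * (e * cr l m) ≤ n * (a * cr u m * cr u l) →
      ∃ l₁ l₂ : Z2, lat l₁ l₂ = lat l p ∧ cr l₁ l₂ = e * a ∧ 0 < cr u l₁ ∧ cr u l₁ ≤ b ∧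
        0 < cr u l₂ ∧ cr u l₂ ≤ b ∧ b < cr u l₁ + cr u l₂ ∧ 0 ≤ e * cr l₁ m ∧ e * cr l₂ m ≤ 0 := by
  have hee : e * e = 1 := by rcases he with rfl | rfl <;> norm_num
  intro n
  induction n with
  | zero =>
    intro l p h1 h2 h3 h4 h5
    obtain ⟨j, hj⟩ : ∃ j : ℤ, j = (b + e * cr u p) / cr u l := ⟨_, rfl⟩
    obtain ⟨l₂, hl₂⟩ : ∃ l₂ : Z2, l₂ = (-e) • p + j • l := ⟨_, rfl⟩
    have e1 : cr u l₂ = -(e * cr u p) + j * cr u l := by
      rw [hl₂]
      simp only [cr, Prod.fst_add, Prod.snd_add, Prod.smul_fst, Prod.smul_snd, smul_eq_mul]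
      ring
    have e2 : cr l l₂ = e * a := by
      rw [hl₂, ← h1]
      simp only [cr, Prod.fst_add, Prod.snd_add, Prod.smul_fst, Prod.smul_snd, smul_eq_mul]
      ring
    have f1 := Int.ediv_mul_le (b + e * cr u p) h2.ne'
    have f2 := Int.lt_ediv_add_one_mul_self (b + e * cr u p) h2
    rw [← hj] at f1 f2
    have g1 : cr u l₂ ≤ b := by linarith
    have g2 : b < cr u l + cr u l₂ := by linarith
    have hp := cr_four u l l₂ m
    rw [e2] at hp
    refine ⟨l, l₂, ?_, e2, h2, h3, by linarith, g1, g2, h4, ?_⟩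
    · rw [hl₂]
      exact lat_sgn he l p j
    · by_contra hcon
      push Not at hcon
      have hx : 0 < e * cr l m := by
        by_contra hx
        have hx0 : e * cr l m = 0 := le_antisymm (not_lt.1 hx) h4
        have h6 : e * (cr u l₂ * cr l m - cr u l * cr l₂ m) = e * (cr u m * (e * a)) := by rw [hp]
        have h7 : cr u l₂ * (e * cr l m) - cr u l * (e * cr l₂ m) = cr u m * a * (e * e) := by
          linarith
        rw [hx0, hee] at h7
        have h8 := mul_pos h2 hcon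
        have h9 := mul_pos hm ha
        linarith
      have hb : 0 < b ^ 2 := by
        have : 0 < b := by linarith
        positivity
      have h6 := mul_pos hb hx
      push_cast at h5
      linarith
  | succ n ih =>
    intro l p h1 h2 h3 h4 h5
    obtain ⟨j, hj⟩ : ∃ j : ℤ, j = (b + e * cr u p) / cr u l := ⟨_, rfl⟩
    obtain ⟨l₂, hl₂⟩ : ∃ l₂ : Z2, l₂ = (-e) • p + j • l := ⟨_, rfl⟩
    have e1 : cr u l₂ = -(e * cr u p) + j * cr u l := by
      rw [hl₂]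
      simp only [cr, Prod.fst_add, Prod.snd_add, Prod.smul_fst, Prod.smul_snd, smul_eq_mul]
      ring
    have e2 : cr l l₂ = e * a := by
      rw [hl₂, ← h1]
      simp only [cr, Prod.fst_add, Prod.snd_add, Prod.smul_fst, Prod.smul_snd, smul_eq_mul]
      ring
    have f1 := Int.ediv_mul_le (b + e * cr u p) h2.ne'
    have f2 := Int.lt_ediv_add_one_mul_self (b + e * cr u p) h2
    rw [← hj] at f1 f2
    have g1 : cr u l₂ ≤ b := by linarith
    have g2 : b < cr u l + cr u l₂ := by linarith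
    have g3 : 0 < cr u l₂ := by linarith
    have hlat : lat l l₂ = lat l p := by
      rw [hl₂]
      exact lat_sgn he l p j
    have hp := cr_four u l l₂ m
    rw [e2] at hp
    have h7 : cr u l₂ * (e * cr l m) - cr u l * (e * cr l₂ m) = cr u m * a := by
      have h6 : e * (cr u l₂ * cr l m - cr u l * cr l₂ m) = e * (cr u m * (e * a)) := by rw [hp]
      have h8 : e * (cr u m * (e * a)) = cr u m * a * (e * e) := by ring
      rw [hee] at h8
      linarith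
    by_cases hy : e * cr l₂ m ≤ 0
    · exact ⟨l, l₂, hlat, e2, h2, h3, g3, g1, g2, h4, hy⟩
    · push Not at hy
      have e3 : cr (e • l) l₂ = a := by
        have h8 : cr (e • l) l₂ = e * cr l l₂ := by
          simp only [cr, Prod.smul_fst, Prod.smul_snd, smul_eq_mul]
          ring
        rw [h8, e2, ← mul_assoc, hee, one_mul]
      have key : b ^ 2 * (e * cr l₂ m) ≤ n * (a * cr u m * cr u l₂) := by
        refine le_of_mul_le_mul_right ?_ h2
        have k1 : cr u l * cr u l₂ ≤ b ^ 2 := by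
          rw [sq]
          exact mul_le_mul h3 g1 g3.le (by linarith)
        have k2 : a * cr u m * (cr u l * cr u l₂) ≤ a * cr u m * b ^ 2 :=
          mul_le_mul_of_nonneg_left k1 (mul_pos ha hm).le
        have k3 : b ^ 2 * (e * cr l m) * cr u l₂ ≤ ((n + 1 : ℕ) : ℤ) * (a * cr u m * cr u l) * cr u l₂ :=
          mul_le_mul_of_nonneg_right h5 g3.le
        have k4 : b ^ 2 * (e * cr l₂ m) * cr u l =
            b ^ 2 * (e * cr l m) * cr u l₂ - a * cr u m * b ^ 2 := by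
          have k5 : cr u l * (e * cr l₂ m) = cr u l₂ * (e * cr l m) - cr u m * a := by linarith
          calc b ^ 2 * (e * cr l₂ m) * cr u l = b ^ 2 * (cr u l * (e * cr l₂ m)) := by ring
            _ = b ^ 2 * (cr u l₂ * (e * cr l m) - cr u m * a) := by rw [k5]
            _ = _ := by ring
        rw [k4]
        push_cast at k3
        have k6 : ((n : ℤ) + 1) * (a * cr u m * cr u l) * cr u l₂ =
            n * (a * cr u m * cr u l₂) * cr u l + a * cr u m * (cr u l * cr u l₂) := by ring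
        linarith
      obtain ⟨m₁, m₂, q1, q2⟩ := ih l₂ (e • l) e3 g3 g1 hy.le key
      refine ⟨m₁, m₂, ?_, q2⟩
      rw [q1, lat_sgn' he, lcomm, hlat]

/-- **Two neighbours with `m` between them** for any window. -/
theorem farey_nb {a b : ℤ} (ha : 0 < a) {u m l p : Z2} (hp : cr p l = a) (h0 : 0 < cr u l)
    (h1 : cr u l ≤ b) (hm : 0 < cr u m) : ∃ (e : ℤ) (l₁ l₂ : Z2), (e = 1 ∨ e = -1) ∧
      lat l₁ l₂ = lat l p ∧ cr l₁ l₂ = e * a ∧ 0 < cr u l₁ ∧ cr u l₁ ≤ b ∧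
      0 < cr u l₂ ∧ cr u l₂ ≤ b ∧ b < cr u l₁ + cr u l₂ ∧ 0 ≤ e * cr l₁ m ∧ e * cr l₂ m ≤ 0 ∧
      cr u l₂ * (e * cr l₁ m) + cr u l₁ * (-(e * cr l₂ m)) = a * cr u m := by
  obtain ⟨e, he, hx⟩ : ∃ e : ℤ, (e = 1 ∨ e = -1) ∧ 0 ≤ e * cr l m := by
    rcases le_total 0 (cr l m) with h | h
    · exact ⟨1, Or.inl rfl, by linarith⟩
    · exact ⟨-1, Or.inr rfl, by linarith⟩
  have hee : e * e = 1 := by rcases he with rfl | rfl <;> norm_num
  obtain ⟨n, hn⟩ : ∃ n : ℕ, (n : ℤ) = b ^ 2 * (e * cr l m) := by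
    refine ⟨(b ^ 2 * (e * cr l m)).toNat, Int.toNat_of_nonneg ?_⟩
    exact mul_nonneg (sq_nonneg b) hx
  have h5 : b ^ 2 * (e * cr l m) ≤ n * (a * cr u m * cr u l) := by
    rw [hn]
    have h6 : 0 < a * cr u m * cr u l := mul_pos (mul_pos ha hm) h0
    have h7 : 0 ≤ b ^ 2 * (e * cr l m) := mul_nonneg (sq_nonneg b) hx
    nlinarith
  obtain ⟨l₁, l₂, q1, q2, q3, q4, q5, q6, q7, q8, q9⟩ :=
    farey_cone he ha hm n l p hp h0 h1 hx h5
  refine ⟨e, l₁, l₂, he, q1, q2, q3, q4, q5, q6, q7, q8, q9, ?_⟩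
  have h6 := cr_four u l₁ l₂ m
  rw [q2] at h6
  have h7 : e * (cr u l₂ * cr l₁ m - cr u l₁ * cr l₂ m) = e * (cr u m * (e * a)) := by rw [h6]
  have h8 : e * (cr u m * (e * a)) = cr u m * a * (e * e) := by ring
  rw [hee] at h8
  linarith

/-- complements of the two neighbours -/
lemma farey_compl {e a : ℤ} (he : e = 1 ∨ e = -1) {l₁ l₂ : Z2} (h : cr l₁ l₂ = e * a) :
    cr ((-e) • l₂) l₁ = a ∧ cr (e • l₁) l₂ = a ∧ lat l₁ ((-e) • l₂) = lat l₁ l₂ ∧
      lat l₂ (e • l₁) = lat l₁ l₂ := by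
  have hee : e * e = 1 := by rcases he with rfl | rfl <;> norm_num
  refine ⟨?_, ?_, ?_, ?_⟩
  · have h1 : cr ((-e) • l₂) l₁ = e * cr l₁ l₂ := by
      simp only [cr, Prod.smul_fst, Prod.smul_snd, smul_eq_mul]
      ring
    rw [h1, h, ← mul_assoc, hee, one_mul]
  · have h1 : cr (e • l₁) l₂ = e * cr l₁ l₂ := by
      simp only [cr, Prod.smul_fst, Prod.smul_snd, smul_eq_mul]
      ring
    rw [h1, h, ← mul_assoc, hee, one_mul]
  · rcases he with rfl | rfl
    · rw [neg_smul, one_smul, lneg]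
    · rw [neg_neg, one_smul]
  · rw [lat_sgn' he, lcomm]

/-- **FAREY LEMMA**, closed window `0 < u × · ≤ a`. -/
theorem farey_le {a : ℤ} (ha : 0 < a) {u m l p : Z2} (hp : cr p l = a) (h0 : 0 < cr u l)
    (h1 : cr u l ≤ a) (hm : 0 < cr u m) : ∃ l₁ p₁ : Z2, lat l₁ p₁ = lat l p ∧ cr p₁ l₁ = a ∧
      0 < cr u l₁ ∧ cr u l₁ ≤ a ∧ |cr l₁ m| < cr u m := by
  obtain ⟨e, l₁, l₂, he, q1, q2, q3, q4, q5, q6, q7, q8, q9, q10⟩ := farey_nb ha hp h0 h1 hm
  obtain ⟨c1, c2, c3, c4⟩ := farey_compl he q2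
  have habs : ∀ x : ℤ, |e * x| = |x| := by
    intro x
    rcases he with rfl | rfl
    · rw [one_mul]
    · rw [neg_one_mul, abs_neg]
  by_cases hx : e * cr l₁ m < cr u m
  · refine ⟨l₁, (-e) • l₂, c3.trans q1, c1, q3, q4, ?_⟩
    rw [← habs, abs_of_nonneg q8]
    exact hx
  · refine ⟨l₂, e • l₁, c4.trans q1, c2, q5, q6, ?_⟩
    rw [← habs, abs_of_nonpos q9]
    by_contra hy
    push Not at hx hy
    have k1 : cr u l₂ * cr u m ≤ cr u l₂ * (e * cr l₁ m) := mul_le_mul_of_nonneg_left hx q5.le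
    have k2 : cr u l₁ * cr u m ≤ cr u l₁ * (-(e * cr l₂ m)) := mul_le_mul_of_nonneg_left hy q3.le
    have k3 : a * cr u m < (cr u l₁ + cr u l₂) * cr u m := mul_lt_mul_of_pos_right q7 hm
    linarith

/-- **FAREY LEMMA**, open window `0 < u × · < a`: a vector `l₁` with `|l₁ × m| < u × m`, or the
boundary case `(l₁ + l₂) × m = 0`, `u × (l₁ + l₂) = a`, `|l₁ × m| = |l₂ × m| = u × m`. -/
theorem farey_lt {a : ℤ} (ha : 0 < a) {u m l p : Z2} (hp : cr p l = a) (h0 : 0 < cr u l)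
    (h1 : cr u l < a) (hm : 0 < cr u m) :
    (∃ l₁ p₁ : Z2, lat l₁ p₁ = lat l p ∧ cr p₁ l₁ = a ∧ 0 < cr u l₁ ∧ cr u l₁ < a ∧
      |cr l₁ m| < cr u m) ∨
    ∃ l₁ l₂ : Z2, lat l₁ l₂ = lat l p ∧ cr l₂ l₁ = a ∧ 0 < cr u l₁ ∧ 0 < cr u l₂ ∧
      cr u l₁ + cr u l₂ = a ∧ cr (l₁ + l₂) m = 0 ∧ |cr l₁ m| = cr u m ∧ |cr l₂ m| = cr u m := by
  obtain ⟨e, l₁, l₂, he, q1, q2, q3, q4, q5, q6, q7, q8, q9, q10⟩ :=
    farey_nb (b := a - 1) ha hp h0 (by linarith) hm
  obtain ⟨c1, c2, c3, c4⟩ := farey_compl he q2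
  have habs : ∀ x : ℤ, |e * x| = |x| := by
    intro x
    rcases he with rfl | rfl
    · rw [one_mul]
    · rw [neg_one_mul, abs_neg]
  by_cases hx : e * cr l₁ m < cr u m
  · left
    refine ⟨l₁, (-e) • l₂, c3.trans q1, c1, q3, by linarith, ?_⟩
    rw [← habs, abs_of_nonneg q8]
    exact hx
  by_cases hy : -(e * cr l₂ m) < cr u m
  · left
    refine ⟨l₂, e • l₁, c4.trans q1, c2, q5, by linarith, ?_⟩
    rw [← habs, abs_of_nonpos q9]
    exact hy
  right
  push Not at hx hy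
  have k1 : cr u l₂ * cr u m ≤ cr u l₂ * (e * cr l₁ m) := mul_le_mul_of_nonneg_left hx q5.le
  have k2 : cr u l₁ * cr u m ≤ cr u l₁ * (-(e * cr l₂ m)) := mul_le_mul_of_nonneg_left hy q3.le
  have k3 : a * cr u m ≤ (cr u l₁ + cr u l₂) * cr u m :=
    mul_le_mul_of_nonneg_right (by linarith) hm.le
  have k4 : (cr u l₁ + cr u l₂) * cr u m = a * cr u m := by linarith
  have hsum : cr u l₁ + cr u l₂ = a := mul_right_cancel₀ hm.ne' k4
  have hx' : e * cr l₁ m = cr u m := by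
    have h6 : cr u l₂ * (e * cr l₁ m) = cr u l₂ * cr u m := by linarith
    exact mul_left_cancel₀ q5.ne' h6
  have hy' : -(e * cr l₂ m) = cr u m := by
    have h6 : cr u l₁ * (-(e * cr l₂ m)) = cr u l₁ * cr u m := by linarith
    exact mul_left_cancel₀ q3.ne' h6
  have hz : cr (l₁ + l₂) m = 0 := by
    have h6 : cr (l₁ + l₂) m = cr l₁ m + cr l₂ m := by
      simp only [cr, Prod.fst_add, Prod.snd_add]
      ring
    have h7 : e * (cr l₁ m + cr l₂ m) = 0 := by linarith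
    rw [h6]
    rcases mul_eq_zero.1 h7 with h8 | h8
    · rcases he with rfl | rfl <;> norm_num at h8
    · exact h8
  have ax : |cr l₁ m| = cr u m := by rw [← habs, abs_of_nonneg q8, hx']
  have ay : |cr l₂ m| = cr u m := by rw [← habs, abs_of_nonpos q9, hy']
  rcases he with rfl | rfl
  · refine ⟨l₂, l₁, by rw [lcomm, q1], by rw [q2, one_mul], q5, q3, by linarith, ?_, ay, ax⟩
    rw [add_comm]
    exact hz
  · refine ⟨l₁, l₂, q1, ?_, q3, q5, hsum, hz, ax, ay⟩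
    have h6 : cr l₂ l₁ = -cr l₁ l₂ := by
      simp only [cr]
      ring
    rw [h6, q2]
    ring

/-- **FAREY LEMMA for a torus of a tree** (`L = ⟨l, u + q⟩`, area `u × l + q × l`). -/
theorem Blk6.farey {L : AddSubgroup Z2} {u l q m : Z2} (h : Blk6 L u l q) (hm : 0 < cr u m) :
    (∃ l₁ q₁ : Z2, Blk6 L u l₁ q₁ ∧ cr u l₁ + cr q₁ l₁ = cr u l + cr q l ∧ |cr l₁ m| < cr u m) ∨
    ∃ l₁ l₂ q₁ q₂ : Z2, Blk6 L u l₁ q₁ ∧ Blk6 L u l₂ q₂ ∧ lat l₁ l₂ = L ∧
      cr l₂ l₁ = cr u l + cr q l ∧ cr u l₁ + cr q₁ l₁ = cr u l + cr q l ∧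
      cr u l₂ + cr q₂ l₂ = cr u l + cr q l ∧ cr u l₁ + cr u l₂ = cr u l + cr q l ∧
      cr (l₁ + l₂) m = 0 ∧ |cr l₁ m| = cr u m ∧ |cr l₂ m| = cr u m := by
  obtain ⟨x1, x2, x3⟩ := h
  have hp : cr (u + q) l = cr u l + cr q l := by
    simp only [cr, Prod.fst_add, Prod.snd_add]
    ring
  have blk : ∀ l₁ p₁ : Z2, lat l₁ p₁ = L → cr p₁ l₁ = cr u l + cr q l → 0 < cr u l₁ →
      cr u l₁ < cr u l + cr q l → Blk6 L u l₁ (p₁ - u) ∧
        cr u l₁ + cr (p₁ - u) l₁ = cr u l + cr q l := by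
    intro l₁ p₁ h1 h2 h3 h4
    have h5 : cr (p₁ - u) l₁ = cr p₁ l₁ - cr u l₁ := by
      simp only [cr, Prod.fst_sub, Prod.snd_sub]
      ring
    refine ⟨⟨h3, by rw [h5, h2]; linarith, by rw [add_sub_cancel]; exact h1⟩, by rw [h5, h2]; ring⟩
  rcases farey_lt (a := cr u l + cr q l) (by linarith) hp x1 (by linarith) hm with
    ⟨l₁, p₁, y1, y2, y3, y4, y5⟩ | ⟨l₁, l₂, y1, y2, y3, y4, y5, y6, y7, y8⟩
  · left
    obtain ⟨z1, z2⟩ := blk l₁ p₁ (y1.trans x3) y2 y3 y4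
    exact ⟨l₁, p₁ - u, z1, z2, y5⟩
  · right
    obtain ⟨z1, z2⟩ := blk l₁ l₂ (y1.trans x3) y2 y3 (by linarith)
    obtain ⟨z3, z4⟩ := blk l₂ (-l₁) (by rw [lneg, lcomm]; exact y1.trans x3) (by
      have h6 : cr (-l₁) l₂ = cr l₂ l₁ := by
        simp only [cr, Prod.fst_neg, Prod.snd_neg]
        ring
      rw [h6, y2]) y4 (by linarith)
    exact ⟨l₁, l₂, l₂ - u, -l₁ - u, z1, z3, y1.trans x3, y2, z2, z4, y5, y6, y7, y8⟩

end Pool.Agent.H4G.Six
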