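import Pool.Agent.H4G.Six.Config3
import Pool.Agent.H4G.Six.Farey42

/-!
# Stage I: the surface step (helper14, after helper42)

`GoodConf O N r`: the surface of `O` (volume `N`) is a configuration `(U, x; l, q; m, s)` with an
embedded path, `r = |l × m| > 0`, and `Big`: `2 r ≤ U × x`, or the lattice `⟨U, x⟩` has a handle
vector or a vector parallel to `l` or to `m`.
`RMin O N r`: `r` is the least such number and no tree of `O` has parallel slits.
-/

set_option autoImplicit false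

namespace Pool.Agent.H4G.Six

open Pool.Agent.H4G

variable {X : Type} {O : PO X} {N r : ℤ} {U x u v l q m s z : Z2}

/-- the forbidden squares -/
theorem Emb.sq {Λ : AddSubgroup Z2} (h : Emb Λ l m) (hz : z ∈ Λ) (hz0 : z ≠ 0)
    (h1 : cr z l * cr z m ≤ 0) (h2 : |cr z l| ≤ |cr l m|) (h3 : |cr z m| ≤ |cr l m|) : False := by
  have key : ∀ w ∈ Λ, w ≠ 0 → |cr w l| ≤ |cr l m| → |cr w m| ≤ |cr l m| →
      0 ≤ cr w m * cr l m → 0 ≤ cr l w * cr l m → False := by
    intro w hw hw0 k1 k2 k3 k4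
    refine h w hw hw0 ⟨k3, ?_, k4, ?_⟩
    · rw [← abs_mul_abs_self (cr l m)]
      refine (le_abs_self _).trans ?_
      rw [abs_mul]
      exact mul_le_mul_of_nonneg_right k2 (abs_nonneg _)
    · rw [← abs_mul_abs_self (cr l m)]
      refine (le_abs_self _).trans ?_
      rw [abs_mul, cr_swap' w l, abs_neg]
      exact mul_le_mul_of_nonneg_right k1 (abs_nonneg _)
  have e1 : cr l z = -cr z l := cr_swap' z l
  have hp : 0 ≤ (cr z m * cr l m) * (cr l z * cr l m) := by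
    have : (cr z m * cr l m) * (cr l z * cr l m) = -(cr z l * cr z m) * (cr l m * cr l m) := by
      rw [e1]; ring
    rw [this]
    exact mul_nonneg (by linarith) (mul_self_nonneg _)
  rcases le_total 0 (cr z m * cr l m) with g | g
  · rcases le_total 0 (cr l z * cr l m) with g' | g'
    · exact key z hz hz0 h2 h3 g g'
    · rcases eq_or_lt_of_le g with g1 | g1
      · refine key (-z) (Λ.neg_mem hz) (neg_ne_zero.2 hz0) ?_ ?_ ?_ ?_
        · rwa [cr_negl, abs_neg]
        · rwa [cr_negl, abs_neg]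
        · rw [cr_negl]; linarith
        · rw [cr_negr]; linarith
      · have g2 : cr l z * cr l m = 0 := by
          refine le_antisymm g' ?_
          by_contra hc
          push Not at hc
          have := mul_neg_of_pos_of_neg g1 hc
          linarith
        exact key z hz hz0 h2 h3 g g2.ge
  · rcases le_total (cr l z * cr l m) 0 with g' | g'
    · refine key (-z) (Λ.neg_mem hz) (neg_ne_zero.2 hz0) ?_ ?_ ?_ ?_
      · rwa [cr_negl, abs_neg]
      · rwa [cr_negl, abs_neg]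
      · rw [cr_negl]; linarith
      · rw [cr_negr]; linarith
    · rcases eq_or_lt_of_le g' with g1 | g1
      · refine key (-z) (Λ.neg_mem hz) (neg_ne_zero.2 hz0) ?_ ?_ ?_ ?_
        · rwa [cr_negl, abs_neg]
        · rwa [cr_negl, abs_neg]
        · rw [cr_negl]; linarith
        · rw [cr_negr]; linarith
      · have g2 : cr z m * cr l m = 0 := by
          refine le_antisymm g ?_
          by_contra hc
          push Not at hc
          have := mul_neg_of_neg_of_pos hc g1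
          linarith
        exact key z hz hz0 h2 h3 g2.ge g'

/-- A handle vector of the lattice `Λ` of covolume `W`. -/
def Handle (Λ : AddSubgroup Z2) (W : ℤ) (l m : Z2) : Prop :=
  ∃ h ∈ Λ, cr h l * cr h m < 0 ∧ |cr l m| < |cr h l| ∧ |cr h l| < W ∧ |cr l m| < |cr h m| ∧
    |cr h m| < W

/-- A vector of the lattice `Λ` parallel to `m`. -/
def Axis (Λ : AddSubgroup Z2) (W : ℤ) (l m : Z2) : Prop :=
  ∃ z ∈ Λ, cr z m = 0 ∧ |cr l m| < |cr z l| ∧ |cr z l| ≤ W

/-- The condition of size: `2 r ≤ W`, a handle vector, or a vector parallel to `m` or to `l`. -/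
def Big (Λ : AddSubgroup Z2) (W : ℤ) (l m : Z2) : Prop :=
  2 * |cr l m| ≤ W ∨ Handle Λ W l m ∨ Axis Λ W l m ∨ Axis Λ W m l

/-- The good configurations. -/
def GoodConf (O : PO X) (N r : ℤ) : Prop :=
  ∃ U x l q m s : Z2, OKC O (U, x, l, q, m, s) ∧ volC (U, x, l, q, m, s) = N ∧ |cr l m| = r ∧
    Big (AddSubgroup.closure {U, x}) (cr U x) l m

theorem OKC.rpos (h : OKC O (U, x, l, q, m, s)) : 0 < |cr l m| := by
  refine abs_pos.2 (h.2.2.ne ⟨U, AddSubgroup.subset_closure (by simp), ?_⟩)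
  rintro rfl
  have := h.1
  simp [cr] at this

theorem GoodConf.pos (h : GoodConf O N r) : 0 < r := by
  obtain ⟨U, x, l, q, m, s, h1, h2, h3, h4⟩ := h
  rw [← h3]
  exact h1.rpos

/-- There is a tree with parallel slits. -/
def Par0 (O : PO X) (N : ℤ) : Prop :=
  ∃ u v l q m s : Z2, Has6 O (u, v, l, q, m, s) ∧ vol6 (u, v, l, q, m, s) = N ∧ cr l m = 0

/-! ## Opposite signs -/

/-- the (1,3)-step with the old handle -/
theorem OKC.drop1 (h : OKC O (U, x, l, q, m, s)) (hN : volC (U, x, l, q, m, s) = N)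
    (h1 : 0 < cr l x) (h4 : cr l x < cr U x) (h2 : cr m x < 0) (h3 : |cr m x| < |cr l m|) :
    GoodConf O N |cr m x| := by
  have hx : x ∈ AddSubgroup.closure ({U, x} : Set Z2) := AddSubgroup.subset_closure (by simp)
  have hx0 : x ≠ 0 := by
    rintro rfl
    simp [cr] at h1
  have e1 : cr x l = -cr l x := cr_swap' l x
  have e2 : cr x m = -cr m x := cr_swap' m x
  -- `|l × m| < l × x`
  have h5 : |cr l m| < cr l x := by
    by_contra hc
    push Not at hc
    refine h.2.2.sq hx hx0 ?_ ?_ ?_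
    · rw [e1, e2]; nlinarith
    · rw [e1, abs_neg, abs_of_pos h1]; exact hc
    · rw [e2, abs_neg]; exact h3.le
  have h6 : 0 < cr l x + cr m x := by
    have := neg_abs_le (cr m x)
    linarith
  have hq := h.posQ
  have hc : cr l (x - q) = cr l x + cr q l := by
    simp only [cr, Prod.fst_sub, Prod.snd_sub]; ring
  have hl : l ∈ AddSubgroup.closure ({l, x - q} : Set Z2) := AddSubgroup.subset_closure (by simp)
  have hW : cr l (-m) = -cr l m := cr_negr l m
  rcases lt_trichotomy (cr l m) 0 with h0 | h0 | h0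
  · refine ⟨_, _, _, _, _, _, h.exM h1 h4 h2 h6 h0, ?_, ?_,
      Or.inr (Or.inl ⟨l, hl, ?_, ?_, ?_, ?_, ?_⟩)⟩
    · rw [← hN]
      simp only [volC, cr, Prod.fst_sub, Prod.snd_sub, Prod.fst_neg, Prod.snd_neg]
      ring
    · rw [cr_negr, cr_negl, neg_neg]
    · rw [cr_negr, cr_negr]; nlinarith
    · rw [cr_negr, cr_negl, neg_neg, cr_negr, abs_neg]; exact h3
    · rw [cr_negr, abs_neg, hc]; linarith
    · rw [cr_negr, cr_negl, neg_neg, cr_negr, abs_neg, abs_of_pos h1]; linarith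
    · rw [cr_negr, abs_neg, abs_of_pos h1, hc]; linarith
  · rw [h0, abs_zero] at h3
    exact absurd h3 (not_lt.2 (abs_nonneg _))
  · refine ⟨_, _, _, _, _, _, h.exP h1 h4 h2 h6 h0, ?_, ?_,
      Or.inr (Or.inl ⟨l, hl, ?_, ?_, ?_, ?_, ?_⟩)⟩
    · rw [← hN]
      simp only [volC, cr, Prod.fst_sub, Prod.snd_sub, Prod.fst_neg, Prod.snd_neg]
      ring
    · rw [cr_negl, abs_neg]
    · rw [cr_negr]; nlinarith
    · rw [cr_negr, cr_negl, abs_neg, abs_neg]; exact h3
    · rw [cr_negr, abs_neg, hc]; linarith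
    · rw [cr_negl, abs_neg, abs_of_pos h1]; linarith
    · rw [abs_of_pos h1, hc]; linarith

/-- the (1,3)-step in the direction of `x`, `|m × x| < |l × m|` -/
theorem OKC.drop2 (h : OKC O (U, x, l, q, m, s)) (hN : volC (U, x, l, q, m, s) = N)
    (h1 : cr l x * cr m x < 0) (h4 : |cr l x| < cr U x) (h3 : |cr m x| < |cr l m|) :
    GoodConf O N |cr m x| := by
  rcases lt_trichotomy (cr l x) 0 with g | g | g
  · have g2 : 0 < cr m x := by nlinarith
    rw [abs_of_neg g] at h4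
    have hN' : volC (-U, -x, l, q, m, s) = N := by
      rw [← hN]
      simp only [volC, cr, Prod.fst_neg, Prod.snd_neg]
      ring
    have := h.neg.drop1 hN' (by rw [cr_negr]; linarith)
      (by rw [cr_negr, cr_negl, cr_negr, neg_neg]; exact h4) (by rw [cr_negr]; linarith)
      (by rw [cr_negr, abs_neg]; exact h3)
    rwa [cr_negr, abs_neg] at this
  · rw [g] at h1
    simp at h1
  · have g2 : cr m x < 0 := by nlinarith
    rw [abs_of_pos g] at h4
    exact h.drop1 hN g h4 g2 h3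

/-- the (1,3)-step in the direction of `x`, both cases -/
theorem OKC.drop3 (h : OKC O (U, x, l, q, m, s)) (hN : volC (U, x, l, q, m, s) = N)
    (h1 : cr l x * cr m x < 0) (h4 : |cr l x| < cr U x) (h5 : |cr m x| < cr U x)
    (h3 : min |cr l x| |cr m x| < |cr l m|) : GoodConf O N (min |cr l x| |cr m x|) := by
  rcases le_total |cr l x| |cr m x| with g | g
  · rw [min_eq_left g] at h3 ⊢
    have hN' : volC (U, x, -m, -s, -l, -q) = N := by
      rw [← hN]
      simp only [volC, cr, Prod.fst_neg, Prod.snd_neg]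
      ring
    have := h.rev.drop2 hN' (by rw [cr_negl, cr_negl]; linarith)
      (by rw [cr_negl, abs_neg]; exact h5)
      (by rw [cr_negl, abs_neg, cr_negl, cr_negr, neg_neg, cr_swap' l m, abs_neg]; exact h3)
    rwa [cr_negl, abs_neg] at this
  · rw [min_eq_right g] at h3 ⊢
    exact h.drop2 hN h1 h4 h3

/-- **STEP, opposite signs** -/
theorem OKC.dropNeg (h : OKC O (U, x, l, q, m, s)) (hN : volC (U, x, l, q, m, s) = N)
    {i j : ℤ} (hij : IsCoprime i j) (hz : z = i • U + j • x) (h1 : cr z l * cr z m < 0)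
    (h4 : |cr z l| < cr U x) (h5 : |cr z m| < cr U x) (h3 : min |cr z l| |cr z m| < |cr l m|) :
    GoodConf O N (min |cr z l| |cr z m|) := by
  obtain ⟨U', k1, k2⟩ := exists_basis (U := U) (x := x) i j hij
  rw [← hz] at k1 k2
  have h' := h.basis k1 (by rw [k2]; exact h.1)
  have e1 : cr l z = -cr z l := cr_swap' z l
  have e2 : cr m z = -cr z m := cr_swap' z m
  have hN' : volC (U', z, l, q, m, s) = N := by
    rw [← hN]
    simp only [volC]
    rw [k2]
  have := h'.drop3 hN' (by rw [e1, e2]; linarith) (by rw [e1, abs_neg, k2]; exact h4)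
    (by rw [e2, abs_neg, k2]; exact h5) (by rw [e1, e2, abs_neg, abs_neg]; exact h3)
  rwa [e1, e2, abs_neg, abs_neg] at this

/-! ## The centre with the optimal slits -/

theorem Blk6.area {L : AddSubgroup Z2} {l₁ q₁ : Z2} (h : Blk6 L u l q) (h' : Blk6 L u l₁ q₁) :
    cr u l₁ + cr q₁ l₁ = cr u l + cr q l := by
  obtain ⟨a1, a2, a3⟩ := h
  obtain ⟨b1, b2, b3⟩ := h'
  have e : ∀ l q : Z2, cr (u + q) l = cr u l + cr q l := by
    intro l q
    simp only [cr, Prod.fst_add, Prod.snd_add]; ring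
  rw [← e, ← e]
  refine area_eq ?_ (by rw [e]; linarith) (by rw [e]; linarith)
  rw [clo_comm (u + q₁) l₁, clo_comm (u + q) l]
  exact b3.trans a3.symm

/-- **THE OPTIMAL PAIR at a centre.** -/
theorem Has6.opt (h : Has6 O (u, v, l, q, m, s)) (hN : vol6 (u, v, l, q, m, s) = N) :
    Par0 O N ∨ ∃ r, GoodConf O N r ∧ r ≤ cr u l ∧ r ≤ cr u m ∧ r ≤ |cr l m| := by
  obtain ⟨p1, p2, p3, p4, p5⟩ := h.pos
  obtain ⟨L, hL⟩ : ∃ L, L = lat l (u + q) := ⟨_, rfl⟩
  obtain ⟨M, hM⟩ : ∃ M, M = lat m (u + s) := ⟨_, rfl⟩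
  have hbl : Blk6 L u l q := ⟨p2, p4, hL.symm⟩
  have hbm : Blk6 M u m s := ⟨p3, p5, hM.symm⟩
  -- the set of values
  have hex : ∃ n : ℕ, ∃ l₁ q₁ m₁ s₁ : Z2, Blk6 L u l₁ q₁ ∧ Blk6 M u m₁ s₁ ∧
      |cr l₁ m₁| = (n : ℤ) :=
    ⟨|cr l m|.toNat, l, q, m, s, hbl, hbm, (Int.toNat_of_nonneg (abs_nonneg _)).symm⟩
  classical
  obtain ⟨l₁, q₁, m₁, s₁, g1, g2, g3⟩ := Nat.find_spec hex
  have hmin : ∀ l₂ q₂ m₂ s₂ : Z2, Blk6 L u l₂ q₂ → Blk6 M u m₂ s₂ → |cr l₁ m₁| ≤ |cr l₂ m₂| := by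
    intro l₂ q₂ m₂ s₂ k1 k2
    rw [g3]
    have := Nat.find_min' hex (m := |cr l₂ m₂|.toNat)
      ⟨l₂, q₂, m₂, s₂, k1, k2, (Int.toNat_of_nonneg (abs_nonneg _)).symm⟩
    have h2 := Int.toNat_of_nonneg (abs_nonneg (cr l₂ m₂))
    omega
  have hT : Has6 O (u, v, l₁, q₁, m₁, s₁) :=
    h.change g1.1 g1.2.1 (g1.2.2.trans hL) g2.1 g2.2.1 (g2.2.2.trans hM)
  have a1 := hbl.area g1
  have a2 := hbm.area g2
  have hN1 : vol6 (u, v, l₁, q₁, m₁, s₁) = N := by
    rw [← hN]
    simp only [vol6]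
    linarith
  have fL : ∀ m₂ s₂ : Z2, Blk6 M u m₂ s₂ → |cr l₁ m₁| ≤ cr u m₂ := by
    intro m₂ s₂ k
    rcases hbl.farey k.1 with ⟨l₃, q₃, b1, b2, b3⟩ | ⟨l₃, l₄, q₃, q₄, b1, b2, b3, b4, b5, b6, b7,
      b8, b9, b10⟩
    · exact (hmin l₃ q₃ m₂ s₂ b1 k).trans b3.le
    · exact (hmin l₃ q₃ m₂ s₂ b1 k).trans b9.le
  have fM : ∀ l₂ q₂ : Z2, Blk6 L u l₂ q₂ → |cr l₁ m₁| ≤ cr u l₂ := by
    intro l₂ q₂ k
    rcases hbm.farey k.1 with ⟨l₃, q₃, b1, b2, b3⟩ | ⟨l₃, l₄, q₃, q₄, b1, b2, b3, b4, b5, b6, b7,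
      b8, b9, b10⟩
    · refine (hmin l₂ q₂ l₃ q₃ k b1).trans ?_
      rw [cr_swap' l₃ l₂, abs_neg]
      exact b3.le
    · refine (hmin l₂ q₂ l₃ q₃ k b1).trans ?_
      rw [cr_swap' l₃ l₂, abs_neg]
      exact b9.le
  by_cases h0 : cr l₁ m₁ = 0
  · exact Or.inl ⟨u, v, l₁, q₁, m₁, s₁, hT, hN1, h0⟩
  · right
    refine ⟨|cr l₁ m₁|, ⟨u, v + l₁ + m₁, l₁, q₁, m₁, s₁, hT.okc h0, ?_, rfl, Or.inl ?_⟩,
      fM l q hbl, fL m s hbm, hmin l q m s hbl hbm⟩
    · rw [← hN1]
      simp only [volC, vol6, cr, Prod.fst_add, Prod.snd_add]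
      ring
    · have b1 := fM l₁ q₁ g1
      have b2 := fL m₁ s₁ g2
      rw [cr_addr, cr_addr]
      linarith

/-! ## The same sign -/

/-- **STEP, the same sign** -/
theorem OKC.dropPos (h : OKC O (U, x, l, q, m, s)) (hN : volC (U, x, l, q, m, s) = N)
    {i j : ℤ} (hij : IsCoprime i j) (hz : z = i • U + j • x) (h1 : 0 < cr z l * cr z m)
    (h4 : |cr z l| + |cr z m| < cr U x) :
    Par0 O N ∨ ∃ r, GoodConf O N r ∧ r ≤ |cr z l| ∧ r ≤ |cr z m| ∧ r ≤ |cr l m| := by
  obtain ⟨i', j', w, hw, hij', hwl, hwm, e1, e2⟩ : ∃ (i' j' : ℤ) (w : Z2),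
      w = i' • U + j' • x ∧ IsCoprime i' j' ∧ 0 < cr w l ∧ 0 < cr w m ∧ cr w l = |cr z l| ∧
        cr w m = |cr z m| := by
    rcases lt_trichotomy (cr z l) 0 with g | g | g
    · have g2 : cr z m < 0 := by nlinarith
      refine ⟨-i, -j, -z, by rw [hz]; module, hij.neg_neg, ?_, ?_, ?_, ?_⟩
      · rw [cr_negl]; linarith
      · rw [cr_negl]; linarith
      · rw [cr_negl, abs_of_neg g]
      · rw [cr_negl, abs_of_neg g2]
    · rw [g] at h1
      simp at h1
    · have g2 : 0 < cr z m := by nlinarith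
      exact ⟨i, j, z, hz, hij, g, g2, (abs_of_pos g).symm, (abs_of_pos g2).symm⟩
  obtain ⟨x', k1, k2, k3⟩ := h.recenter hij' hw
  rw [← e1, ← e2] at h4 ⊢
  have hT := k3.center hwl hwm (by rw [k2]; exact h4)
  refine hT.opt ?_
  rw [← hN]
  simp only [vol6, volC]
  rw [← k2]
  simp only [cr, Prod.fst_sub, Prod.snd_sub]
  ring

/-! ## The minimal configuration -/

/-- `r` is minimal, and no tree has parallel slits. -/
structure RMin (O : PO X) (N r : ℤ) : Prop where
  conf : GoodConf O N r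
  least : ∀ r', GoodConf O N r' → r ≤ r'
  par : ¬ Par0 O N

theorem RMin.tree (h : RMin O N r) (hT : Has6 O (u, v, l, q, m, s))
    (hN : vol6 (u, v, l, q, m, s) = N) : r ≤ cr u l ∧ r ≤ cr u m ∧ r ≤ |cr l m| := by
  rcases hT.opt hN with g | ⟨r', g1, g2, g3, g4⟩
  · exact absurd g h.par
  · have := h.least r' g1
    exact ⟨this.trans g2, this.trans g3, this.trans g4⟩

/-- no step in the opposite quadrants -/
theorem RMin.neg (h : RMin O N r) (hC : OKC O (U, x, l, q, m, s))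
    (hN : volC (U, x, l, q, m, s) = N) {i j : ℤ} (hij : IsCoprime i j) (hz : z = i • U + j • x)
    (h1 : cr z l * cr z m < 0) (h4 : |cr z l| < cr U x) (h5 : |cr z m| < cr U x)
    (h3 : min |cr z l| |cr z m| < |cr l m|) : r ≤ min |cr z l| |cr z m| :=
  h.least _ (hC.dropNeg hN hij hz h1 h4 h5 h3)

/-- no step in the other quadrants -/
theorem RMin.pos (h : RMin O N r) (hC : OKC O (U, x, l, q, m, s))
    (hN : volC (U, x, l, q, m, s) = N) {i j : ℤ} (hij : IsCoprime i j) (hz : z = i • U + j • x)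
    (h1 : 0 < cr z l * cr z m) (h4 : |cr z l| + |cr z m| < cr U x) :
    r ≤ |cr z l| ∧ r ≤ |cr z m| ∧ r ≤ |cr l m| := by
  rcases hC.dropPos hN hij hz h1 h4 with g | ⟨r', g1, g2, g3, g4⟩
  · exact absurd g h.par
  · have := h.least r' g1
    exact ⟨this.trans g2, this.trans g3, this.trans g4⟩

/-- **THE FRAME of stage I**: a tree with parallel slits, or a least good configuration. -/
theorem exists_rmin (h : Has6 O (u, v, l, q, m, s)) (hN : vol6 (u, v, l, q, m, s) = N) :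
    Par0 O N ∨ ∃ r, RMin O N r := by
  by_cases hp : Par0 O N
  · exact Or.inl hp
  right
  rcases h.opt hN with g | ⟨r₀, g, -⟩
  · exact absurd g hp
  have hex : ∃ n : ℕ, GoodConf O N n :=
    ⟨r₀.toNat, by rw [Int.toNat_of_nonneg g.pos.le]; exact g⟩
  classical
  refine ⟨(Nat.find hex : ℕ), Nat.find_spec hex, fun r' h' => ?_, hp⟩
  have := Nat.find_min' hex (m := r'.toNat) (by rw [Int.toNat_of_nonneg h'.pos.le]; exact h')
  have h2 := Int.toNat_of_nonneg h'.pos.le
  omega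

end Pool.Agent.H4G.Six
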