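import Pool.Agent.H4G.Six.LemR
import Pool.Agent.H4G.Six.Drop14

/-!
# Stage I: LEMMA A (helper42; typed by helper14)

A vector of `Λ` parallel to `m` and no good vector, so there is a vector parallel to `l`. There is no
hypothesis on the size. `axesB`: both axes under the hypothesis `Big` of the good configurations.
`RMin.axes`: the minimal configuration.
-/

set_option autoImplicit false

namespace Pool.Agent.H4G.Six

open Pool.Agent.H4G

/-- the arithmetic of LEMMA A -/
theorem lemA_int {W r X0 d i i' J p n : ℤ} (hr : 0 < r) (h1 : X0 * d = W * r) (h3 : X0 ≤ W)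
    (hX : 0 < X0) (hi : 1 ≤ i) (hi' : 1 ≤ i') (hJ : J + 1 ≤ i + i')
    (hJ4 : X0 ≤ (J + 1) * r) (hp : 0 < p) (hid : i' * p + i * n = X0)
    (hS1 : r ≤ n) (hS2 : p < r → W ≤ p + i * d) :
    (p = r ∧ n = r ∧ (i + i') * d = W) ∨ (n = r ∧ i' = 1 ∧ d = r) := by
  have hW : 0 < W := by linarith
  have a1 : i * r ≤ i * n := mul_le_mul_of_nonneg_left hS1 (by linarith)
  have a2 : (J + 1) * r ≤ (i + i') * r := mul_le_mul_of_nonneg_right hJ hr.le
  have a3 : i' * p ≤ i' * r := by linarith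
  have a4 : p ≤ r := le_of_mul_le_mul_left a3 (by linarith)
  rcases eq_or_lt_of_le a4 with g | g
  · left
    subst g
    have b1 : i * n ≤ i * p := by linarith
    have b2 : n ≤ p := le_of_mul_le_mul_left b1 (by linarith)
    have b3 : n = p := le_antisymm b2 hS1
    subst b3
    refine ⟨rfl, rfl, ?_⟩
    have b4 : (i + i') * d * n = W * n := by
      rw [← h1, ← hid]; ring
    exact mul_right_cancel₀ hr.ne' b4
  · right
    have c1 := hS2 g
    have c2 : W * X0 ≤ (p + i * d) * X0 := mul_le_mul_of_nonneg_right c1 hX.le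
    have c3 : (p + i * d) * X0 = p * X0 + i * (W * r) := by rw [← h1]; ring
    have c4 : W * (i * r) ≤ W * (i * n) := mul_le_mul_of_nonneg_left a1 hW.le
    have c5 : W * (i' * p) + W * (i * n) = W * X0 := by rw [← hid]; ring
    have c6 : p * (W * i') ≤ p * X0 := by linarith
    have c7 : W * i' ≤ X0 := le_of_mul_le_mul_left c6 hp
    have c8 : i' ≤ 1 := by
      have : W * i' ≤ W * 1 := by linarith
      exact le_of_mul_le_mul_left this hW
    have c9 : i' = 1 := le_antisymm c8 hi'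
    subst c9
    have d1 : X0 = W := by linarith
    subst d1
    have d2 : d = r := mul_left_cancel₀ hX.ne' h1
    have d3 : X0 * (i * n) ≤ X0 * (i * r) := by
      have : X0 * (i * r) = i * (X0 * r) := by ring
      linarith
    have d4 := le_of_mul_le_mul_left (le_of_mul_le_mul_left d3 hX) (show (0 : ℤ) < i by linarith)
    exact ⟨le_antisymm d4 hS1, rfl, d2⟩

section

variable {U x l m z w : Z2}

/-- no good vector at all -/
theorem no_good (hno : ∀ i j : ℤ, IsCoprime i j →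
      ¬ GoodP |cr l m| (cr U x) (cr (i • U + j • x) l, cr (i • U + j • x) m))
    (hz : z ∈ AddSubgroup.closure ({U, x} : Set Z2)) :
    ¬ GoodP |cr l m| (cr U x) (cr z l, cr z m) := by
  intro hg
  obtain ⟨i, j, rfl⟩ := AddSubgroup.mem_closure_pair.1 hz
  have hij : i ≠ 0 ∨ j ≠ 0 := by
    by_contra hc
    push Not at hc
    rw [hc.1, hc.2] at hg
    rcases hg with ⟨h1, -⟩ | ⟨h1, -⟩ <;> simp [cr] at h1
  obtain ⟨d, i', j', d1, d2, d3, d4⟩ := exists_prim_of_ne hij
  apply hno i' j' d2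
  apply GoodP.div d1
  have e : ∀ w : Z2, cr (i • U + j • x) w = d * cr (i' • U + j' • x) w := by
    intro w
    rw [cr_zz_left, cr_zz_left, d3, d4]; ring
  rwa [e, e] at hg

/-- a vector on an axis gives a primitive one -/
theorem axis_prim (hE : Emb (AddSubgroup.closure {U, x}) l m)
    (hz : z ∈ AddSubgroup.closure ({U, x} : Set Z2)) (h1 : cr z m = 0) (h2 : cr z l ≠ 0)
    (h3 : |cr z l| ≤ cr U x) : ∃ i j : ℤ, IsCoprime i j ∧ cr (i • U + j • x) m = 0 ∧
      |cr l m| < cr (i • U + j • x) l ∧ cr (i • U + j • x) l ≤ cr U x := by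
  obtain ⟨i, j, rfl⟩ := AddSubgroup.mem_closure_pair.1 hz
  have hij : i ≠ 0 ∨ j ≠ 0 := by
    by_contra hc
    push Not at hc
    rw [hc.1, hc.2] at h2
    exact h2 (by simp [cr])
  obtain ⟨d, i', j', d1, d2, d3, d4⟩ := exists_prim_of_ne hij
  have e : ∀ w : Z2, cr (i • U + j • x) w = d * cr (i' • U + j' • x) w := by
    intro w
    rw [cr_zz_left, cr_zz_left, d3, d4]; ring
  rw [e] at h1 h2 h3
  have f1 := (mul_eq_zero.1 h1).resolve_left d1.ne'
  have f2 : cr (i' • U + j' • x) l ≠ 0 := fun h => h2 (by rw [h, mul_zero])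
  have f3 : |cr (i' • U + j' • x) l| ≤ cr U x := by
    rw [abs_mul, abs_of_pos d1] at h3
    have := mul_le_mul_of_nonneg_right (show (1 : ℤ) ≤ d from d1)
      (abs_nonneg (cr (i' • U + j' • x) l))
    linarith
  have f4 : |cr l m| < |cr (i' • U + j' • x) l| := by
    by_contra hc
    push Not at hc
    have := hE.square (z := i' • U + j' • x) (AddSubgroup.mem_closure_pair.2 ⟨i', j', rfl⟩)
      (by
        intro h
        rw [h] at f2
        exact f2 (by simp [cr])) (by rw [f1, mul_zero]) hc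
    rw [f1, abs_zero] at this
    exact absurd this (not_lt.2 (abs_nonneg _))
  rcases lt_or_gt_of_ne f2 with g | g
  · have e' : ∀ w : Z2, cr ((-i') • U + (-j') • x) w = -cr (i' • U + j' • x) w := by
      intro w
      rw [cr_zz_left, cr_zz_left]; ring
    rw [abs_of_neg g] at f3 f4
    exact ⟨-i', -j', d2.neg_neg, by rw [e', f1, neg_zero], by rw [e']; exact f4,
      by rw [e']; exact f3⟩
  · rw [abs_of_pos g] at f3 f4
    exact ⟨i', j', d2, f1, f4, f3⟩

/-- the last step of LEMMA A -/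
theorem lemA_end (hE : Emb (AddSubgroup.closure {U, x}) l m)
    (hno : ∀ z ∈ AddSubgroup.closure ({U, x} : Set Z2),
      ¬ GoodP |cr l m| (cr U x) (cr z l, cr z m)) {X0 d i i' J p n : ℤ} {a b : Z2}
    (ha : a ∈ AddSubgroup.closure ({U, x} : Set Z2))
    (hb : b ∈ AddSubgroup.closure ({U, x} : Set Z2))
    (h0 : cr l m ≠ 0) (h1 : X0 * d = cr U x * |cr l m|) (h2 : |cr l m| < X0) (h3 : X0 ≤ cr U x)
    (hi : 1 ≤ i) (hi' : 1 ≤ i') (hJ : J + 1 ≤ i + i') (hiJ : i ≤ J) (hiJ' : i' ≤ J)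
    (hJ3 : J * |cr l m| < X0) (hJ4 : X0 ≤ (J + 1) * |cr l m|) (hp : 0 < p) (_hn : 0 < n)
    (hid : i' * p + i * n = X0) (hd : 0 < d) (a1 : |cr a l| = p) (a2 : |cr a m| = i * d)
    (a3 : 0 < cr a l * cr a m) (b1 : |cr b l| = n) (b2 : |cr b m| = i' * d)
    (b3 : cr b l * cr b m < 0) (hab : 0 < cr a m * cr b m) :
    ∃ w ∈ AddSubgroup.closure ({U, x} : Set Z2), cr w l = 0 ∧ cr w m ≠ 0 ∧ |cr w m| ≤ cr U x := by
  have hr : 0 < |cr l m| := abs_pos.2 h0
  have hW : 0 < cr U x := by linarith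
  have hJd : J * d < cr U x := by
    have : J * d * |cr l m| < cr U x * |cr l m| := by
      rw [← h1]
      have := mul_lt_mul_of_pos_right hJ3 hd
      linarith
    exact lt_of_mul_lt_mul_right this hr.le
  have hid1 : i * d ≤ J * d := mul_le_mul_of_nonneg_right hiJ hd.le
  have hid2 : i' * d ≤ J * d := mul_le_mul_of_nonneg_right hiJ' hd.le
  have hb0 : b ≠ 0 := by
    rintro rfl
    simp [cr] at b3
  have hS1 : |cr l m| ≤ n := by
    by_contra hc
    push Not at hc
    refine hno b hb (Or.inl ⟨b3, Or.inl ?_, ?_, ?_⟩)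
    · simp only; rw [b1]; exact hc
    · simp only; rw [b1]; linarith
    · simp only; rw [b2]; linarith
  have hS2 : p < |cr l m| → cr U x ≤ p + i * d := by
    intro hp1
    by_contra hc
    push Not at hc
    refine hno a ha (Or.inr ⟨a3, Or.inl ?_, ?_⟩)
    · simp only; rw [a1]; exact hp1
    · simp only; rw [a1, a2]; exact hc
  rcases lemA_int hr h1 h3 (by linarith) hi hi' hJ hJ4 hp hid hS1 hS2 with
    ⟨g1, g2, g3⟩ | ⟨g1, g2, g3⟩
  · -- the sum is on the axis
    refine ⟨a + b, add_mem ha hb, ?_, ?_, ?_⟩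
    · have e : cr a l * cr b l < 0 := by
        have k1 : 0 < (cr a l * cr a m) * (-(cr b l * cr b m)) := mul_pos a3 (by linarith)
        have k2 : (cr a l * cr a m) * (-(cr b l * cr b m)) =
          -(cr a l * cr b l) * (cr a m * cr b m) := by ring
        rw [k2] at k1
        have k3 : 0 < -(cr a l * cr b l) := by
          by_contra hc
          push Not at hc
          have := mul_nonneg (neg_nonneg.2 hc) hab.le
          linarith
        linarith
      rw [cr_addl]
      have k4 : |cr a l| = |cr b l| := by rw [a1, b1, g1, g2]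
      rcases abs_eq_abs.1 k4 with h | h
      · rw [h] at e
        exact absurd (mul_self_nonneg (cr b l)) (not_le.2 e)
      · rw [h]; ring
    · rw [cr_addl]
      intro h
      have h' : cr b m = -cr a m := by linarith
      rw [h'] at hab
      have := mul_self_nonneg (cr a m)
      linarith
    · rw [cr_addl]
      refine (abs_add_le _ _).trans ?_
      rw [a2, b2, ← g3]
      linarith
  · exfalso
    have := hE.square hb hb0 b3.le (by rw [b1, g1])
    rw [b2, g2, one_mul, g3] at this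
    exact lt_irrefl _ this

/-- **LEMMA A**: an axis point and no good vector, so there is a point on the other axis. -/
theorem lemA (h0 : cr l m ≠ 0) (hE : Emb (AddSubgroup.closure {U, x}) l m)
    (hno : ∀ i j : ℤ, IsCoprime i j →
      ¬ GoodP |cr l m| (cr U x) (cr (i • U + j • x) l, cr (i • U + j • x) m))
    (hz : ∃ i j : ℤ, IsCoprime i j ∧ cr (i • U + j • x) m = 0 ∧
      |cr l m| < cr (i • U + j • x) l ∧ cr (i • U + j • x) l ≤ cr U x) :
    ∃ i j : ℤ, IsCoprime i j ∧ cr (i • U + j • x) l = 0 ∧ |cr l m| < cr (i • U + j • x) m ∧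
      cr (i • U + j • x) m ≤ cr U x := by
  have hng : ∀ z ∈ AddSubgroup.closure ({U, x} : Set Z2),
      ¬ GoodP |cr l m| (cr U x) (cr z l, cr z m) := fun z hz => no_good hno hz
  have hr : 0 < |cr l m| := abs_pos.2 h0
  obtain ⟨i0, j0, c1, c2, c3, c4⟩ := hz
  obtain ⟨y, y1, y2⟩ := exists_compl (u := U) (x := x) c1
  set z0 := i0 • U + j0 • x with hz0
  obtain ⟨X0, hX0⟩ : ∃ X0, X0 = cr z0 l := ⟨_, rfl⟩
  rw [← hX0] at c3 c4
  have hX : 0 < X0 := by linarith
  have hW : 0 < cr U x := by linarith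
  have hz0m : z0 ∈ AddSubgroup.closure ({U, x} : Set Z2) :=
    AddSubgroup.mem_closure_pair.2 ⟨i0, j0, rfl⟩
  have hy1 : y ∈ AddSubgroup.closure ({U, x} : Set Z2) := by
    rw [← y2]
    exact AddSubgroup.subset_closure (by simp)
  have hpl : X0 * cr y m = cr U x * cr l m := by
    have := cr_plucker z0 y l m
    rw [c2, y1, mul_zero, sub_zero, ← hX0] at this
    exact this
  -- the sign
  obtain ⟨s, hs, hsr⟩ : ∃ s : ℤ, (s = 1 ∨ s = -1) ∧ s * cr l m = |cr l m| := by
    rcases lt_or_gt_of_ne h0 with g | g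
    · exact ⟨-1, Or.inr rfl, by rw [abs_of_neg g]; ring⟩
    · exact ⟨1, Or.inl rfl, by rw [abs_of_pos g]; ring⟩
  have hss : s * s = 1 := by rcases hs with rfl | rfl <;> norm_num
  obtain ⟨d, hd⟩ : ∃ d, d = s * cr y m := ⟨_, rfl⟩
  have hd1 : X0 * d = cr U x * |cr l m| := by
    rw [hd, ← hsr]
    calc X0 * (s * cr y m) = s * (X0 * cr y m) := by ring
      _ = cr U x * (s * cr l m) := by rw [hpl]; ring
  have hd0 : 0 < d := by
    by_contra hc
    push Not at hc
    have k1 := mul_nonneg hX.le (neg_nonneg.2 hc)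
    have k2 := mul_pos hW hr
    linarith
  obtain ⟨J, hJ⟩ : ∃ J, J = (X0 - 1) / |cr l m| := ⟨_, rfl⟩
  have f1 := Int.ediv_mul_le (X0 - 1) hr.ne'
  have f2 := Int.lt_ediv_add_one_mul_self (X0 - 1) hr
  rw [← hJ] at f1 f2
  have hJ3 : J * |cr l m| < X0 := by linarith
  have hJ4 : X0 ≤ (J + 1) * |cr l m| := by linarith
  have hJ1 : 1 ≤ J := by
    by_contra hc
    push Not at hc
    have : (J + 1) * |cr l m| ≤ 1 * |cr l m| := mul_le_mul_of_nonneg_right (by linarith) hr.le
    linarith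
  obtain ⟨u, hu⟩ : ∃ u : Z2, u = (-s) • m := ⟨_, rfl⟩
  have hcu : ∀ w : Z2, cr u w = s * cr w m := by
    intro w
    rw [hu]
    simp only [cr, Prod.smul_fst, Prod.smul_snd, smul_eq_mul]
    ring
  obtain ⟨e, l₁, l₂, he, q1, q2, q3, q4, q5, q6, q7, q8, q9, q10⟩ :=
    farey_nb (a := cr U x) (b := J * d) (u := u) (m := l) (l := y) (p := z0) hW y1
      (by rw [hcu, ← hd]; exact hd0) (by
        rw [hcu, ← hd]
        have := mul_le_mul_of_nonneg_right hJ1 hd0.le
        linarith) (by rw [hcu, hsr]; exact hr)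
  have hlat : lat y z0 = AddSubgroup.closure ({U, x} : Set Z2) := by
    rw [← y2]
    exact clo_comm y z0
  rw [hlat] at q1
  have hl1 : l₁ ∈ AddSubgroup.closure ({U, x} : Set Z2) := by
    rw [← q1]
    exact AddSubgroup.subset_closure (by simp)
  have hl2 : l₂ ∈ AddSubgroup.closure ({U, x} : Set Z2) := by
    rw [← q1]
    exact AddSubgroup.subset_closure (by simp)
  have hrow : ∀ w ∈ AddSubgroup.closure ({U, x} : Set Z2), ∃ k : ℤ, s * cr w m = k * d := by
    intro w hw
    rw [← y2] at hw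
    obtain ⟨a, b, rfl⟩ := AddSubgroup.mem_closure_pair.1 hw
    refine ⟨b, ?_⟩
    rw [cr_zz_left, c2, hd]; ring
  obtain ⟨i1, hi1⟩ := hrow l₁ hl1
  obtain ⟨i2, hi2⟩ := hrow l₂ hl2
  rw [hcu, hi1] at q3 q4
  rw [hcu, hi2] at q5 q6
  rw [hcu, hcu, hi1, hi2] at q7
  rw [hcu, hcu, hcu, hi1, hi2, hsr] at q10
  have p1 : 1 ≤ i1 := by
    by_contra hc
    push Not at hc
    have := mul_nonneg (neg_nonneg.2 (show i1 ≤ 0 by linarith)) hd0.le
    linarith
  have p2 : 1 ≤ i2 := by
    by_contra hc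
    push Not at hc
    have := mul_nonneg (neg_nonneg.2 (show i2 ≤ 0 by linarith)) hd0.le
    linarith
  have p3 : i1 ≤ J := le_of_mul_le_mul_right q4 hd0
  have p4 : i2 ≤ J := le_of_mul_le_mul_right q6 hd0
  have p5 : J + 1 ≤ i1 + i2 := by
    have : J * d < (i1 + i2) * d := by linarith
    exact lt_of_mul_lt_mul_right this hd0.le
  obtain ⟨P, hP⟩ : ∃ P, P = e * cr l₁ l := ⟨_, rfl⟩
  obtain ⟨Q, hQ⟩ : ∃ Q, Q = -(e * cr l₂ l) := ⟨_, rfl⟩
  rw [← hP] at q8 q10
  rw [← hQ] at q10
  have p6 : i2 * P + i1 * Q = X0 := by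
    have : (i2 * P + i1 * Q) * d = X0 * d := by rw [hd1]; linarith
    exact mul_right_cancel₀ hd0.ne' this
  have hJd : J * d < cr U x := by
    have : J * d * |cr l m| < cr U x * |cr l m| := by
      rw [← hd1]
      have := mul_lt_mul_of_pos_right hJ3 hd0
      linarith
    exact lt_of_mul_lt_mul_right this hr.le
  have hee : e * e = 1 := by rcases he with rfl | rfl <;> norm_num
  have abse : ∀ a : ℤ, |e * a| = |a| := by
    intro a
    rcases he with rfl | rfl
    · rw [one_mul]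
    · rw [neg_one_mul, abs_neg]
  have abss : ∀ a : ℤ, |s * a| = |a| := by
    intro a
    rcases hs with rfl | rfl
    · rw [one_mul]
    · rw [neg_one_mul, abs_neg]
  have m1 : |cr l₁ m| = i1 * d := by rw [← abss, hi1, abs_of_pos q3]
  have m2 : |cr l₂ m| = i2 * d := by rw [← abss, hi2, abs_of_pos q5]
  -- the conclusion from a vector on the axis
  have fin : (∃ w ∈ AddSubgroup.closure ({U, x} : Set Z2), cr w l = 0 ∧ cr w m ≠ 0 ∧
      |cr w m| ≤ cr U x) → ∃ i j : ℤ, IsCoprime i j ∧ cr (i • U + j • x) l = 0 ∧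
      |cr l m| < cr (i • U + j • x) m ∧ cr (i • U + j • x) m ≤ cr U x := by
    rintro ⟨w, w1, w2, w3, w4⟩
    have := axis_prim hE.symm w1 w2 w3 w4
    rwa [cr_swap' l m, abs_neg] at this
  apply fin
  rcases eq_or_lt_of_le q8 with g | g
  · refine ⟨l₁, hl1, ?_, ?_, ?_⟩
    · have : e * (e * cr l₁ l) = 0 := by rw [← hP, ← g, mul_zero]
      rwa [← mul_assoc, hee, one_mul] at this
    · intro h
      rw [h, abs_zero] at m1
      linarith
    · rw [m1]; linarith
  have q9' : 0 ≤ Q := by rw [hQ]; linarith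
  rcases eq_or_lt_of_le q9' with g' | g'
  · refine ⟨l₂, hl2, ?_, ?_, ?_⟩
    · have : e * (e * cr l₂ l) = 0 := by
        have : e * cr l₂ l = 0 := by linarith
        rw [this, mul_zero]
      rwa [← mul_assoc, hee, one_mul] at this
    · intro h
      rw [h, abs_zero] at m2
      linarith
    · rw [m2]; linarith
  have n1 : |cr l₁ l| = P := by rw [← abse, ← hP, abs_of_pos g]
  have n2 : |cr l₂ l| = Q := by rw [← abse, ← abs_neg, ← hQ, abs_of_pos g']
  -- the signs
  have r1 : (e * s) * (cr l₁ l * cr l₁ m) = P * (i1 * d) := by rw [← hi1, hP]; ring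
  have r2 : (e * s) * (cr l₂ l * cr l₂ m) = -(Q * (i2 * d)) := by rw [← hi2, hQ]; ring
  have r3 : 0 < P * (i1 * d) := mul_pos g q3
  have r4 : 0 < Q * (i2 * d) := mul_pos g' q5
  have r5 : 0 < cr l₁ m * cr l₂ m := by
    have : cr l₁ m * cr l₂ m = (i1 * d) * (i2 * d) := by
      rw [← hi1, ← hi2]
      calc cr l₁ m * cr l₂ m = (s * s) * (cr l₁ m * cr l₂ m) := by rw [hss, one_mul]
        _ = s * cr l₁ m * (s * cr l₂ m) := by ring
    rw [this]
    exact mul_pos q3 q5
  have hes : e * s = 1 ∨ e * s = -1 := by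
    rcases he with rfl | rfl <;> rcases hs with rfl | rfl <;> norm_num
  rcases hes with k | k
  · rw [k] at r1 r2
    exact lemA_end hE hng (a := l₁) (b := l₂) hl1 hl2 h0 hd1 c3 c4 p1 p2 p5 p3 p4 hJ3 hJ4 g g' p6
      hd0 n1 m1 (by linarith) n2 m2 (by linarith) r5
  · rw [k] at r1 r2
    exact lemA_end hE hng (a := l₂) (b := l₁) hl2 hl1 h0 hd1 c3 c4 p2 p1 (by linarith) p4 p3 hJ3
      hJ4 g' g (by linarith) hd0 n2 m2 (by linarith) n1 m1 (by linarith)
      (by rw [mul_comm]; exact r5)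

/-- **BOTH AXES** under the hypothesis `Big`. -/
theorem axesB (hW : 0 < cr U x) (h0 : cr l m ≠ 0)
    (hE : Emb (AddSubgroup.closure {U, x}) l m)
    (hbig : Big (AddSubgroup.closure {U, x}) (cr U x) l m)
    (hno : ∀ i j : ℤ, IsCoprime i j →
      ¬ GoodP |cr l m| (cr U x) (cr (i • U + j • x) l, cr (i • U + j • x) m)) :
    (∃ i j : ℤ, IsCoprime i j ∧ cr (i • U + j • x) m = 0 ∧ |cr l m| < cr (i • U + j • x) l ∧
      cr (i • U + j • x) l ≤ cr U x) ∧
    (∃ i j : ℤ, IsCoprime i j ∧ cr (i • U + j • x) l = 0 ∧ |cr l m| < cr (i • U + j • x) m ∧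
      cr (i • U + j • x) m ≤ cr U x) := by
  have hr : 0 < |cr l m| := abs_pos.2 h0
  have e : |cr m l| = |cr l m| := by rw [cr_swap' l m, abs_neg]
  have h0' : cr m l ≠ 0 := by rw [cr_swap' l m]; exact neg_ne_zero.2 h0
  have hno' : ∀ i j : ℤ, IsCoprime i j →
      ¬ GoodP |cr m l| (cr U x) (cr (i • U + j • x) m, cr (i • U + j • x) l) := by
    intro i j hij hg
    rw [e] at hg
    exact hno i j hij hg.swap
  rcases hbig with h | h | ⟨z, z1, z2, z3, z4⟩ | ⟨z, z1, z2, z3, z4⟩
  · exact axes hW h0 hE (Or.inl h) hno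
  · exact axes hW h0 hE (Or.inr h) hno
  · have h1 := axis_prim hE z1 z2 (fun h => by rw [h, abs_zero] at z3; linarith) z4
    exact ⟨h1, lemA h0 hE hno h1⟩
  · have h1 := axis_prim hE.symm z1 z2 (fun h => by rw [h, abs_zero, e] at z3; linarith) z4
    have h2 := lemA h0' hE.symm hno' h1
    rw [e] at h1 h2
    exact ⟨h2, h1⟩

end

variable {X : Type} {O : PO X} {N r : ℤ} {U x l q m s : Z2}

/-- the minimal configuration has no good vector -/
theorem RMin.no_good (h : RMin O N r) (hC : OKC O (U, x, l, q, m, s))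
    (hN : volC (U, x, l, q, m, s) = N) (hr : |cr l m| = r) {i j : ℤ} (hij : IsCoprime i j) :
    ¬ GoodP |cr l m| (cr U x) (cr (i • U + j • x) l, cr (i • U + j • x) m) := by
  rintro (⟨h1, h2, h3, h4⟩ | ⟨h1, h2, h3⟩)
  · simp only at h1 h2 h3 h4
    have h5 : min |cr (i • U + j • x) l| |cr (i • U + j • x) m| < |cr l m| := by
      rcases h2 with h2 | h2
      · exact lt_of_le_of_lt (min_le_left _ _) h2
      · exact lt_of_le_of_lt (min_le_right _ _) h2
    have := h.neg hC hN hij rfl h1 h3 h4 h5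
    linarith
  · simp only at h1 h2 h3
    obtain ⟨a1, a2, a3⟩ := h.pos hC hN hij rfl h1 h3
    rcases h2 with h2 | h2
    · linarith
    · linarith

/-- **THE MINIMAL CONFIGURATION HAS BOTH AXES** -/
theorem RMin.axes (h : RMin O N r) (hC : OKC O (U, x, l, q, m, s))
    (hN : volC (U, x, l, q, m, s) = N) (hr : |cr l m| = r)
    (hbig : Big (AddSubgroup.closure {U, x}) (cr U x) l m) :
    (∃ i j : ℤ, IsCoprime i j ∧ cr (i • U + j • x) m = 0 ∧ |cr l m| < cr (i • U + j • x) l ∧
      cr (i • U + j • x) l ≤ cr U x) ∧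
    (∃ i j : ℤ, IsCoprime i j ∧ cr (i • U + j • x) l = 0 ∧ |cr l m| < cr (i • U + j • x) m ∧
      cr (i • U + j • x) m ≤ cr U x) :=
  axesB hC.1 (abs_pos.1 hC.rpos) hC.2.2 hbig (fun _ _ hij => h.no_good hC hN hr hij)

end Pool.Agent.H4G.Six
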