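import Pool.Agent.H4G.Six.Test14
import Pool.Agent.H4G.Six.Comb
import Pool.Agent.H4G.Six.LemA14

/-!
# Stage II, (1): the surfaces with the least content `b` (helper62; typed by helper14)

`BMin O N b`: `b` is the least content `cont (u × L)` over all trees of `O`. Either all trees have
`l × m = 0` or `b < |l × m|` (`Gap`), or there is a least good configuration `r ≤ b` (`RB`).
In the first case there are forks `BFork`: `u × l = b`, `l ∥ m ∥ v`, `q ∥ u`, and their centres
`u + j (v + l + m)` and rows `l + i (u + q)` give forks again.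
-/

set_option autoImplicit false

namespace Pool.Agent.H4G.Six

open Pool.Agent.H4G

variable {X : Type} {O : PO X} {N b r : ℤ} {U x u v l q m s z : Z2}

/-- the content of `u × L`, `L = ⟨l, u + q⟩` -/
def ct (u l q : Z2) : ℤ := Int.gcd (cr u l) (cr u q)

theorem ct_dvd_left : ct u l q ∣ cr u l := Int.gcd_dvd_left _ _

theorem ct_dvd_right : ct u l q ∣ cr u q := Int.gcd_dvd_right _ _

theorem dvd_ct {d : ℤ} (h1 : d ∣ cr u l) (h2 : d ∣ cr u q) : d ∣ ct u l q :=
  Int.dvd_coe_gcd h1 h2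

theorem ct_pos (h : 0 < cr u l) : 0 < ct u l q := by
  unfold ct
  exact_mod_cast Int.gcd_pos_of_ne_zero_left _ h.ne'

theorem ct_le (h : 0 < cr u l) : ct u l q ≤ cr u l := Int.le_of_dvd h ct_dvd_left

/-- `b` is the least content of the trees of `O`. -/
structure BMin (O : PO X) (N b : ℤ) : Prop where
  ex : ∃ u v l q m s : Z2, Has6 O (u, v, l, q, m, s) ∧ vol6 (u, v, l, q, m, s) = N ∧ ct u l q = b
  least : ∀ u v l q m s : Z2, Has6 O (u, v, l, q, m, s) → vol6 (u, v, l, q, m, s) = N →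
    b ≤ ct u l q

theorem exists_bmin (hT : Has6 O (u, v, l, q, m, s)) (hN : vol6 (u, v, l, q, m, s) = N) :
    ∃ b, BMin O N b := by
  have hex : ∃ n : ℕ, ∃ u v l q m s : Z2, Has6 O (u, v, l, q, m, s) ∧
      vol6 (u, v, l, q, m, s) = N ∧ ct u l q = (n : ℤ) := ⟨_, u, v, l, q, m, s, hT, hN, rfl⟩
  classical
  refine ⟨(Nat.find hex : ℕ), Nat.find_spec hex, fun u v l q m s h1 h2 => ?_⟩
  have := Nat.find_min' hex (m := Int.gcd (cr u l) (cr u q)) ⟨u, v, l, q, m, s, h1, h2, rfl⟩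
  exact Int.ofNat_le.2 this

theorem BMin.pos (h : BMin O N b) : 0 < b := by
  obtain ⟨u, v, l, q, m, s, h1, h2, h3⟩ := h.ex
  rw [← h3]
  exact ct_pos h1.pos.2.1

theorem vol6_swap : vol6 (-u, -v, -m, -s, -l, -q) = vol6 (u, v, l, q, m, s) := by
  simp only [vol6, cr_negl, cr_negr, neg_neg]
  ring

theorem BMin.leastM (h : BMin O N b) (hT : Has6 O (u, v, l, q, m, s))
    (hN : vol6 (u, v, l, q, m, s) = N) : b ≤ ct u m s := by
  have := h.least _ _ _ _ _ _ hT.swap (vol6_swap.trans hN)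
  unfold ct at *
  rwa [cr_negl, cr_negr, neg_neg, cr_negl, cr_negr, neg_neg] at this

theorem BMin.ul (h : BMin O N b) (hT : Has6 O (u, v, l, q, m, s))
    (hN : vol6 (u, v, l, q, m, s) = N) : b ≤ cr u l :=
  (h.least _ _ _ _ _ _ hT hN).trans (ct_le hT.pos.2.1)

theorem BMin.um (h : BMin O N b) (hT : Has6 O (u, v, l, q, m, s))
    (hN : vol6 (u, v, l, q, m, s) = N) : b ≤ cr u m :=
  (h.leastM hT hN).trans (ct_le hT.pos.2.2.1)

/-- at a tree with `u × l = b` the content is `b` -/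
theorem BMin.dvd (h : BMin O N b) (hT : Has6 O (u, v, l, q, m, s))
    (hN : vol6 (u, v, l, q, m, s) = N) (hb : cr u l = b) : b ∣ cr u q := by
  have h1 := h.least _ _ _ _ _ _ hT hN
  have h2 : ct u l q ≤ cr u l := ct_le hT.pos.2.1
  have h3 : ct u l q = b := le_antisymm (h2.trans hb.le) h1
  rw [← h3]
  exact ct_dvd_right

/-! ## The alternative -/

/-- There are no trees with `0 < |l × m| ≤ b`. -/
def Gap (O : PO X) (N b : ℤ) : Prop :=
  ∀ u v l q m s : Z2, Has6 O (u, v, l, q, m, s) → vol6 (u, v, l, q, m, s) = N →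
    cr l m = 0 ∨ b < |cr l m|

/-- The least good configuration with `r ≤ b`. -/
structure RB (O : PO X) (N r b : ℤ) : Prop where
  bm : BMin O N b
  conf : GoodConf O N r
  least : ∀ r', GoodConf O N r' → r ≤ r'
  le : r ≤ b

/-- a tree with `0 < |l × m| ≤ b` is a good configuration -/
theorem BMin.good (h : BMin O N b) (hT : Has6 O (u, v, l, q, m, s))
    (hN : vol6 (u, v, l, q, m, s) = N) (h0 : cr l m ≠ 0) (h1 : |cr l m| ≤ b) :
    GoodConf O N |cr l m| := by
  have p := hT.pos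
  have a1 := h.ul hT hN
  have a2 := h.um hT hN
  refine ⟨u, v + l + m, l, q, m, s, hT.okc h0, ?_, rfl, Or.inl ?_⟩
  · rw [← hN]
    simp only [volC, vol6, cr, Prod.fst_add, Prod.snd_add]
    ring
  · rw [cr_addr, cr_addr]
    have := p.1
    linarith

theorem BMin.alt (h : BMin O N b) : Gap O N b ∨ ∃ r, RB O N r b := by
  by_cases hg : Gap O N b
  · exact Or.inl hg
  right
  unfold Gap at hg
  push Not at hg
  obtain ⟨u, v, l, q, m, s, h1, h2, h3, h4⟩ := hg
  have hG := h.good h1 h2 h3 h4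
  have hex : ∃ n : ℕ, GoodConf O N n :=
    ⟨|cr l m|.toNat, by rw [Int.toNat_of_nonneg hG.pos.le]; exact hG⟩
  classical
  have hle : ∀ r', GoodConf O N r' → ((Nat.find hex : ℕ) : ℤ) ≤ r' := by
    intro r' h'
    have := Nat.find_min' hex (m := r'.toNat) (by rw [Int.toNat_of_nonneg h'.pos.le]; exact h')
    have h2 := Int.toNat_of_nonneg h'.pos.le
    omega
  exact ⟨(Nat.find hex : ℕ), h, Nat.find_spec hex, hle, (hle _ hG).trans h4⟩

/-- the trees in the second case -/
theorem RB.tree (h : RB O N r b) (hT : Has6 O (u, v, l, q, m, s))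
    (hN : vol6 (u, v, l, q, m, s) = N) :
    b ≤ ct u l q ∧ b ≤ ct u m s ∧ (cr l m = 0 ∨ r ≤ |cr l m|) := by
  refine ⟨h.bm.least _ _ _ _ _ _ hT hN, h.bm.leastM hT hN, ?_⟩
  by_cases h0 : cr l m = 0
  · exact Or.inl h0
  right
  by_contra hc
  push Not at hc
  have := h.least _ (h.bm.good hT hN h0 (hc.le.trans h.le))
  linarith

/-- a centre of a configuration -/
theorem OKC.tree_at (h : OKC O (U, x, l, q, m, s)) (hN : volC (U, x, l, q, m, s) = N)
    {i j : ℤ} (hij : IsCoprime i j) (hz : z = i • U + j • x) (h1 : 0 < cr z l * cr z m)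
    (h4 : |cr z l| + |cr z m| < cr U x) :
    ∃ (w v' : Z2), (w = z ∨ w = -z) ∧ Has6 O (w, v', l, q, m, s) ∧
      vol6 (w, v', l, q, m, s) = N ∧ cr w l = |cr z l| ∧ cr w m = |cr z m| ∧
      lat w (v' + l + m) = lat U x := by
  obtain ⟨i', j', w, hw, hij', hwz, hwl, hwm, e1, e2⟩ : ∃ (i' j' : ℤ) (w : Z2),
      w = i' • U + j' • x ∧ IsCoprime i' j' ∧ (w = z ∨ w = -z) ∧ 0 < cr w l ∧ 0 < cr w m ∧
        cr w l = |cr z l| ∧ cr w m = |cr z m| := by
    rcases lt_trichotomy (cr z l) 0 with g | g | g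
    · have g2 : cr z m < 0 := by nlinarith
      refine ⟨-i, -j, -z, by rw [hz]; module, hij.neg_neg, Or.inr rfl, ?_, ?_, ?_, ?_⟩
      · rw [cr_negl]; linarith
      · rw [cr_negl]; linarith
      · rw [cr_negl, abs_of_neg g]
      · rw [cr_negl, abs_of_neg g2]
    · rw [g] at h1
      simp at h1
    · have g2 : 0 < cr z m := by nlinarith
      exact ⟨i, j, z, hz, hij, Or.inl rfl, g, g2, (abs_of_pos g).symm, (abs_of_pos g2).symm⟩
  obtain ⟨x', k1, k2, k3⟩ := h.recenter hij' hw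
  rw [← e1, ← e2] at h4
  have hT := k3.center hwl hwm (by rw [k2]; exact h4)
  refine ⟨w, x' - l - m, hwz, hT, ?_, e1, e2, ?_⟩
  · rw [← hN]
    simp only [vol6, volC]
    rw [← k2]
    simp only [cr, Prod.fst_sub, Prod.snd_sub]
    ring
  · have e : x' - l - m + l + m = x' := by abel
    rw [e, k1]

/-- no good vector in the second case -/
theorem RB.no_good (h : RB O N r b) (hC : OKC O (U, x, l, q, m, s))
    (hN : volC (U, x, l, q, m, s) = N) (hr : |cr l m| = r) {i j : ℤ} (hij : IsCoprime i j) :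
    ¬ GoodP |cr l m| (cr U x) (cr (i • U + j • x) l, cr (i • U + j • x) m) := by
  rintro (⟨h1, h2, h3, h4⟩ | ⟨h1, h2, h3⟩)
  · simp only at h1 h2 h3 h4
    have h5 : min |cr (i • U + j • x) l| |cr (i • U + j • x) m| < |cr l m| := by
      rcases h2 with h2 | h2
      · exact lt_of_le_of_lt (min_le_left _ _) h2
      · exact lt_of_le_of_lt (min_le_right _ _) h2
    have := h.least _ (hC.dropNeg hN hij rfl h1 h3 h4 h5)
    linarith
  · simp only at h1 h2 h3
    obtain ⟨w, v', -, k1, k2, k3, k4, -⟩ := hC.tree_at hN hij rfl h1 h3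
    have a1 := h.bm.ul k1 k2
    have a2 := h.bm.um k1 k2
    have := h.le
    rw [k3] at a1
    rw [k4] at a2
    rcases h2 with h2 | h2
    · linarith
    · linarith

/-- both axes in the second case -/
theorem RB.axes (h : RB O N r b) (hC : OKC O (U, x, l, q, m, s))
    (hN : volC (U, x, l, q, m, s) = N) (hr : |cr l m| = r)
    (hbig : Big (AddSubgroup.closure {U, x}) (cr U x) l m) :
    (∃ i j : ℤ, IsCoprime i j ∧ cr (i • U + j • x) m = 0 ∧ |cr l m| < cr (i • U + j • x) l ∧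
      cr (i • U + j • x) l ≤ cr U x) ∧
    (∃ i j : ℤ, IsCoprime i j ∧ cr (i • U + j • x) l = 0 ∧ |cr l m| < cr (i • U + j • x) m ∧
      cr (i • U + j • x) m ≤ cr U x) :=
  axesB hC.1 (abs_pos.1 hC.rpos) hC.2.2 hbig (fun _ _ hij => h.no_good hC hN hr hij)

/-! ## Forks -/

/-- A fork with `u × l = b`: `l ∥ m ∥ v` and `q ∥ u`. -/
structure BFork (O : PO X) (N b : ℤ) (u v l q m s : Z2) : Prop where
  has : Has6 O (u, v, l, q, m, s)
  vol : vol6 (u, v, l, q, m, s) = N
  ul : cr u l = b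
  uq : cr u q = 0
  lm : cr l m = 0
  vl : cr v l = 0

/-- a slit of `M` parallel to `l` -/
theorem Gap.par (hg : Gap O N b) (hT : Has6 O (u, v, l, q, m, s))
    (hN : vol6 (u, v, l, q, m, s) = N) (hb : cr u l = b) :
    ∃ m1 s1 : Z2, lat m1 (u + s1) = lat m (u + s) ∧ Has6 O (u, v, l, q, m1, s1) ∧
      vol6 (u, v, l, q, m1, s1) = N ∧ cr l m1 = 0 := by
  obtain ⟨p1, p2, p3, p4, p5⟩ := hT.pos
  have hbm : Blk6 (lat m (u + s)) u m s := ⟨p3, p5, rfl⟩
  obtain ⟨m1, s1, k1, k2⟩ : ∃ m1 s1 : Z2, Blk6 (lat m (u + s)) u m1 s1 ∧ |cr l m1| ≤ b := by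
    rcases hbm.farey p2 with ⟨m1, s1, b1, b2, b3⟩ | ⟨m1, m2, s1, s2, b1, b2, b3, b4, b5, b6, b7,
      b8, b9, b10⟩
    · exact ⟨m1, s1, b1, by rw [cr_swap' m1 l, abs_neg, ← hb]; exact b3.le⟩
    · exact ⟨m1, s1, b1, by rw [cr_swap' m1 l, abs_neg, ← hb]; exact b9.le⟩
  have hT1 := hT.change p2 p4 rfl k1.1 k1.2.1 k1.2.2
  have a2 := hbm.area k1
  have hN1 : vol6 (u, v, l, q, m1, s1) = N := by
    rw [← hN]
    simp only [vol6]
    linarith
  refine ⟨m1, s1, k1.2.2, hT1, hN1, ?_⟩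
  rcases hg _ _ _ _ _ _ hT1 hN1 with h | h
  · exact h
  · exact absurd h (not_lt.2 k2)

/-- the products with `l` and `m` are proportional -/
theorem par_cr (h : cr l m = 0) (a c : Z2) : cr a l * cr c m = cr c l * cr a m := by
  have := cr_plucker a c l m
  rw [h, mul_zero] at this
  linarith

/-- `v ∥ l` modulo `u` -/
theorem BMin.fork (h : BMin O N b) (hT : Has6 O (u, v, l, q, m, s))
    (hN : vol6 (u, v, l, q, m, s) = N) (hb : cr u l = b) (h0 : cr l m = 0) :
    ∃ k : ℤ, cr (v + k • u) l = 0 := by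
  obtain ⟨p1, p2, p3, p4, p5⟩ := hT.pos
  have hb0 := h.pos
  obtain ⟨x, hx⟩ : ∃ x, x = v + l + m := ⟨_, rfl⟩
  have hxl : cr x l = cr v l := by
    rw [hx, cr_addl, cr_addl, cr_self', cr_swap' l m, h0]; ring
  obtain ⟨g, hg⟩ : ∃ g : ℤ, g = Int.gcd (cr u l) (cr x l) := ⟨_, rfl⟩
  have g0 : 0 < g := by
    rw [hg]
    exact_mod_cast Int.gcd_pos_of_ne_zero_left _ p2.ne'
  have hbz := Int.gcd_eq_gcd_ab (cr u l) (cr x l)
  obtain ⟨i, hi⟩ : ∃ i, i = Int.gcdA (cr u l) (cr x l) := ⟨_, rfl⟩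
  obtain ⟨j, hj⟩ : ∃ j, j = Int.gcdB (cr u l) (cr x l) := ⟨_, rfl⟩
  rw [← hi, ← hj, ← hg] at hbz
  obtain ⟨a, ha⟩ : g ∣ cr u l := by rw [hg]; exact Int.gcd_dvd_left _ _
  obtain ⟨c, hc⟩ : g ∣ cr x l := by rw [hg]; exact Int.gcd_dvd_right _ _
  have hij : IsCoprime i j := by
    refine ⟨a, c, ?_⟩
    have : g * (a * i + c * j) = g * 1 := by
      calc g * (a * i + c * j) = (g * a) * i + (g * c) * j := by ring
        _ = cr u l * i + cr x l * j := by rw [← ha, ← hc]
        _ = g * 1 := by rw [← hbz, mul_one]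
    exact mul_left_cancel₀ g0.ne' this
  have hgb : g ≤ b := by
    rw [← hb]
    exact Int.le_of_dvd p2 ⟨a, ha⟩
  have e1 : cr (i • u + j • (v + l + m)) l = g := by
    rw [cr_zz_left, ← hx, hbz]; ring
  have e2 : cr u l * cr (i • u + j • (v + l + m)) m = g * cr u m := by
    rw [par_cr h0 u (i • u + j • (v + l + m)), e1]
  rw [hb] at e2
  have e3 : 0 < cr (i • u + j • (v + l + m)) m := by
    have h1 : 0 < b * cr (i • u + j • (v + l + m)) m := by rw [e2]; exact mul_pos g0 p3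
    by_contra hc
    push Not at hc
    have h2 := mul_nonneg hb0.le (neg_nonneg.2 hc)
    linarith
  have e4 : cr (i • u + j • (v + l + m)) m ≤ cr u m := by
    have : b * cr (i • u + j • (v + l + m)) m ≤ b * cr u m := by
      rw [e2]
      exact mul_le_mul_of_nonneg_right hgb p3.le
    exact le_of_mul_le_mul_left this hb0
  obtain ⟨v', k1, k2, k3, k4⟩ := hT.recenter hij rfl (by rw [e1]; exact g0) e3
    (by rw [e1]; linarith)
  have k5 := h.ul k1 (k4.trans hN)
  rw [e1] at k5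
  have k6 : g = b := le_antisymm hgb k5
  rw [k6, hxl] at hc
  refine ⟨-c, ?_⟩
  have : cr (v + (-c) • u) l = cr v l - c * cr u l := by
    simp only [cr, Prod.fst_add, Prod.snd_add, Prod.smul_fst, Prod.smul_snd, smul_eq_mul]
    ring
  rw [this, hb, hc]
  ring

/-- twist of `q` -/
theorem Has6.twq (hT : Has6 O (u, v, l, q, m, s)) (k : ℤ) :
    Has6 O (u, v, l, q + k • l, m, s) ∧
      vol6 (u, v, l, q + k • l, m, s) = vol6 (u, v, l, q, m, s) := by
  obtain ⟨p1, p2, p3, p4, p5⟩ := hT.pos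
  have e : cr (q + k • l) l = cr q l := by
    simp only [cr, Prod.fst_add, Prod.snd_add, Prod.smul_fst, Prod.smul_snd, smul_eq_mul]
    ring
  refine ⟨hT.change p2 (by rw [e]; exact p4) ?_ p3 p5 rfl, ?_⟩
  · exact closure_pair_eq (α := 1) (β := 0) (γ := k) (δ := 1) (by module) (by module)
      (Or.inl (by norm_num))
  · simp only [vol6]
    rw [e]

/-- from a parallel tree with `u × l = b` to a fork -/
theorem BMin.bfork (h : BMin O N b) (hT : Has6 O (u, v, l, q, m, s))
    (hN : vol6 (u, v, l, q, m, s) = N) (hb : cr u l = b) (h0 : cr l m = 0) :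
    ∃ k t : ℤ, BFork O N b u (v + k • u) l (q + t • l) m s := by
  obtain ⟨k, hk⟩ := h.fork hT hN hb h0
  obtain ⟨c, hc⟩ := h.dvd hT hN hb
  have h1 := hT.vk k
  have hv : vol6 (u, v + k • u, l, q, m, s) = vol6 (u, v, l, q, m, s) := by
    simp only [vol6, cr, Prod.fst_add, Prod.snd_add, Prod.smul_fst, Prod.smul_snd, smul_eq_mul]
    ring
  obtain ⟨h2, h3⟩ := h1.twq (-c)
  refine ⟨k, -c, h2, h3.trans (hv.trans hN), hb, ?_, h0, hk⟩
  have : cr u (q + (-c) • l) = cr u q - c * cr u l := by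
    simp only [cr, Prod.fst_add, Prod.snd_add, Prod.smul_fst, Prod.smul_snd, smul_eq_mul]
    ring
  rw [this, hb, hc]
  ring

/-- **THERE IS A FORK** -/
theorem BMin.exists_fork (h : BMin O N b) (hg : Gap O N b) :
    ∃ u v l q m s : Z2, BFork O N b u v l q m s := by
  obtain ⟨u, v, l, q, m, s, h1, h2, h3⟩ := h.ex
  obtain ⟨l1, q1, m1, s1, k1, k2, -, -, k3, -, -, -⟩ := h1.rows h2
  have k4 : cr u l1 = b := k3.trans h3
  obtain ⟨m2, s2, -, j1, j2, j3⟩ := hg.par k1 k2 k4
  obtain ⟨k, t, hf⟩ := h.bfork j1 j2 k4 j3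
  exact ⟨_, _, _, _, _, _, hf⟩

namespace BFork

variable (hF : BFork O N b u v l q m s)

include hF

theorem bpos : 0 < b := by
  rw [← hF.ul]
  exact hF.has.pos.2.1

theorem xl : cr (v + l + m) l = 0 := by
  rw [cr_addl, cr_addl, cr_self', cr_swap' l m, hF.lm, hF.vl]; ring

theorem vm : cr v m = 0 := by
  have := par_cr hF.lm u v
  rw [hF.vl, hF.ul, zero_mul] at this
  exact (mul_eq_zero.1 this).resolve_left hF.bpos.ne'

theorem xm : cr (v + l + m) m = 0 := by
  rw [cr_addl, cr_addl, cr_self', hF.lm, hF.vm]; ring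

/-- the centres `u + j (v + l + m)`, before the twist of `q` -/
theorem cen (j : ℤ) : Has6 O (u + j • (v + l + m), v, l, q, m, s) ∧
    vol6 (u + j • (v + l + m), v, l, q, m, s) = N ∧ cr (u + j • (v + l + m)) l = b := by
  obtain ⟨p1, p2, p3, p4, p5⟩ := hF.has.pos
  have hx := hF.xl
  have hxm := hF.xm
  obtain ⟨w, hw⟩ : ∃ w, w = v + l + m := ⟨_, rfl⟩
  rw [← hw] at hx hxm ⊢
  have e1 : cr (u + j • w) l = b := by
    have : cr (u + j • w) l = cr u l + j * cr w l := by
      simp only [cr, Prod.fst_add, Prod.snd_add, Prod.smul_fst, Prod.smul_snd, smul_eq_mul]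
      ring
    rw [this, hx, hF.ul]; ring
  have e2 : cr (u + j • w) m = cr u m := by
    have : cr (u + j • w) m = cr u m + j * cr w m := by
      simp only [cr, Prod.fst_add, Prod.snd_add, Prod.smul_fst, Prod.smul_snd, smul_eq_mul]
      ring
    rw [this, hxm]; ring
  have hxv : cr w v = 0 := by
    have h1 := cr_plucker w u l v
    rw [hx, zero_mul, zero_sub, cr_swap' v l, hF.vl, neg_zero, mul_zero, hF.ul] at h1
    have h2 : b * cr w v = 0 := by linarith
    exact (mul_eq_zero.1 h2).resolve_left hF.bpos.ne'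
  have e3 : cr (u + j • w) v = cr u v := by
    have : cr (u + j • w) v = cr u v + j * cr w v := by
      simp only [cr, Prod.fst_add, Prod.snd_add, Prod.smul_fst, Prod.smul_snd, smul_eq_mul]
      ring
    rw [this, hxv]; ring
  have hul := hF.ul
  obtain ⟨v', k1, k2, k3, k4⟩ := hF.has.recenter (i := 1) (j := j) (u' := u + j • w)
    isCoprime_one_left (by rw [one_smul, hw]) (by rw [e1]; exact hF.bpos)
    (by rw [e2]; exact p3) (by rw [e1, e2]; linarith)
  -- `v' = v + k (u + j w)`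
  have hmem : v' + l + m ∈ lat (u + j • w) w := by
    have h1 : lat (u + j • w) w = lat u (v + l + m) := by
      rw [hw]
      exact closure_pair_eq (α := 1) (β := j) (γ := 0) (δ := 1) (by module) (by module)
        (Or.inl (by norm_num))
    rw [h1, ← k2]
    exact AddSubgroup.subset_closure (by simp)
  obtain ⟨c, d, hcd⟩ := mem_lat_coords hmem
  have hW : cr (u + j • w) w = cr u v + cr u l + cr u m := by
    rw [hw]
    simp only [cr, Prod.fst_add, Prod.snd_add, Prod.smul_fst, Prod.smul_snd, smul_eq_mul]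
    ring
  have hWp : 0 < cr (u + j • w) w := by rw [hW]; linarith
  have hd : d = 1 := by
    have h1 : cr (u + j • w) (v' + l + m) = d * cr (u + j • w) w := by
      rw [hcd]
      simp only [cr, Prod.fst_add, Prod.snd_add, Prod.smul_fst, Prod.smul_snd, smul_eq_mul]
      ring
    have h2 : cr (u + j • w) (v' + l + m) = cr (u + j • w) w := by
      rw [cr_addr, cr_addr, k3, e1, e2, hW, hul]; ring
    have h3 : d * cr (u + j • w) w = 1 * cr (u + j • w) w := by rw [← h1, h2, one_mul]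
    exact mul_right_cancel₀ hWp.ne' h3
  have hv' : v' + (-c) • (u + j • w) = v := by
    have h1 : v' = c • (u + j • w) + w - l - m := by
      rw [hd, one_smul] at hcd
      rw [← hcd]; abel
    rw [h1, hw]; module
  have h5 := k1.vk (-c)
  rw [hv'] at h5
  refine ⟨h5, ?_, e1⟩
  rw [← hF.vol]
  simp only [vol6]
  rw [e1, e2, e3, hul]

/-- **the centres `u + j (v + l + m)`** -/
theorem center (h : BMin O N b) (j : ℤ) : ∃ t : ℤ, b * t = -(j * cr (v + l + m) q) ∧
    BFork O N b (u + j • (v + l + m)) v l (q + t • l) m s := by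
  obtain ⟨k1, k2, k3⟩ := hF.cen j
  obtain ⟨c, hc⟩ := h.dvd k1 k2 k3
  have e : cr (u + j • (v + l + m)) q = j * cr (v + l + m) q := by
    have : cr (u + j • (v + l + m)) q = cr u q + j * cr (v + l + m) q := by
      simp only [cr, Prod.fst_add, Prod.snd_add, Prod.smul_fst, Prod.smul_snd, smul_eq_mul]
      ring
    rw [this, hF.uq, zero_add]
  obtain ⟨j1, j2⟩ := k1.twq (-c)
  refine ⟨-c, ?_, j1, j2.trans k2, k3, ?_, hF.lm, hF.vl⟩
  · rw [← e, hc]; ring
  · have : cr (u + j • (v + l + m)) (q + (-c) • l) =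
        cr (u + j • (v + l + m)) q - c * cr (u + j • (v + l + m)) l := by
      generalize u + j • (v + l + m) = w
      simp only [cr, Prod.fst_add, Prod.snd_add, Prod.smul_fst, Prod.smul_snd, smul_eq_mul]
      ring
    rw [this, k3, hc]; ring

/-- `(λ - 1) w` is an integer -/
theorem dvd_xq (h : BMin O N b) : b ∣ cr (v + l + m) q := by
  obtain ⟨t, ht, -⟩ := hF.center h 1
  exact ⟨-t, by rw [mul_neg, ht]; ring⟩

/-- **the rows `l + i (u + q)`** -/
theorem row (h : BMin O N b) (hg : Gap O N b) (i : ℤ) : ∃ (k : ℤ) (m' s' : Z2),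
    BFork O N b u (v + k • u) (l + i • (u + q)) q m' s' ∧ k * b = i * cr (u + q) v ∧
      lat (l + i • (u + q)) (u + q) = lat l (u + q) ∧ lat m' (u + s') = lat m (u + s) := by
  obtain ⟨p1, p2, p3, p4, p5⟩ := hF.has.pos
  have hul := hF.ul
  have huq := hF.uq
  have e1 : cr u (l + i • (u + q)) = b := by
    have : cr u (l + i • (u + q)) = cr u l + i * cr u q := by
      simp only [cr, Prod.fst_add, Prod.snd_add, Prod.smul_fst, Prod.smul_snd, smul_eq_mul]
      ring
    rw [this, huq, hul]; ring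
  have e2 : cr q (l + i • (u + q)) = cr q l := by
    have : cr q (l + i • (u + q)) = cr q l - i * cr u q := by
      simp only [cr, Prod.fst_add, Prod.snd_add, Prod.smul_fst, Prod.smul_snd, smul_eq_mul]
      ring
    rw [this, huq]; ring
  have e3 : lat (l + i • (u + q)) (u + q) = lat l (u + q) :=
    closure_pair_eq (α := 1) (β := i) (γ := 0) (δ := 1) (by module) (by module)
      (Or.inl (by norm_num))
  have h1 := hF.has.change (l1 := l + i • (u + q)) (q1 := q) (by rw [e1]; exact hF.bpos)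
    (by rw [e2]; exact p4) e3 p3 p5 rfl
  have h2 : vol6 (u, v, l + i • (u + q), q, m, s) = N := by
    rw [← hF.vol]
    simp only [vol6]
    rw [e1, e2, hul]
  obtain ⟨m', s', j0, j1, j2, j3⟩ := hg.par h1 h2 e1
  obtain ⟨k, hk⟩ := h.fork j1 j2 e1 j3
  have hv : vol6 (u, v + k • u, l + i • (u + q), q, m', s') =
      vol6 (u, v, l + i • (u + q), q, m', s') := by
    have : cr u (v + k • u) = cr u v := by
      simp only [cr, Prod.fst_add, Prod.snd_add, Prod.smul_fst, Prod.smul_snd, smul_eq_mul]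
      ring
    simp only [vol6]
    rw [this]
  refine ⟨k, m', s', ⟨j1.vk k, hv.trans j2, e1, huq, j3, hk⟩, ?_, e3, j0⟩
  have : cr (v + k • u) (l + i • (u + q)) =
      cr v l - i * cr (u + q) v + k * cr u l + k * i * cr u q := by
    simp only [cr, Prod.fst_add, Prod.snd_add, Prod.smul_fst, Prod.smul_snd, smul_eq_mul]
    ring
  rw [this, hF.vl, huq, hul] at hk
  linarith

/-- `λ x₀` is an integer -/
theorem dvd_qv (h : BMin O N b) (hg : Gap O N b) : b ∣ cr (u + q) v := by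
  obtain ⟨k, m', s', -, hk, -⟩ := hF.row h hg 1
  exact ⟨k, by linarith⟩

end BFork

end Pool.Agent.H4G.Six
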