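import Pool.Agent.H4G.Six.Block6

/-!
# E6 states and the elementary moves between them (helper91)

A state is `(L, M, u, v)`; it is represented by the trees `(u, v, l, q, m, s)` with
`L = ⟨l, u + q⟩`, `M = ⟨m, u + s⟩`.
-/

set_option autoImplicit false

namespace Pool.Agent.H4G.Six

open Pool.Agent.H4G

/-- The vectors `l, q` represent the torus `ℝ² / L` at `u`. -/
def Blk6 (L : AddSubgroup Z2) (u l q : Z2) : Prop :=
  0 < cr u l ∧ 0 < cr q l ∧ lat l (u + q) = L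

theorem Blk6.neg {L : AddSubgroup Z2} {u l q : Z2} (h : Blk6 L u l q) :
    Blk6 L (-u) (-l) (-q) := by
  obtain ⟨x1, x2, x3⟩ := h
  refine ⟨by rw [cr_neg_left, cr_neg_right, neg_neg]; exact x1,
    by rw [cr_neg_left, cr_neg_right, neg_neg]; exact x2, ?_⟩
  rw [← x3]
  exact closure_pair_eq (α := -1) (β := 0) (γ := 0) (δ := -1) (by module) (by module)
    (Or.inl (by norm_num))

theorem pos6_swap {u v l q m s : Z2} (hp : Pos6 (u, v, l, q, m, s)) :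
    Pos6 (-u, -v, -m, -s, -l, -q) := by
  obtain ⟨h1, h2, h3, h4, h5⟩ := hp
  refine ⟨?_, ?_, ?_, ?_, ?_⟩ <;> rw [cr_neg_left, cr_neg_right, neg_neg] <;> assumption

theorem CEq6.swap {u v l q m s : Z2} (hp : Pos6 (u, v, l, q, m, s)) :
    CEq6 (u, v, l, q, m, s) (-u, -v, -m, -s, -l, -q) :=
  CEq6.mv hp (Mv6.swap _ _ _ _ _ _)

/-- A state `(L, M, u, v)`: the torus `ℝ² / ⟨u, v⟩` and the tori `ℝ² / L`, `ℝ² / M` slit along
`u` and glued cyclically. -/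
structure St6 : Type where
  L : AddSubgroup Z2
  M : AddSubgroup Z2
  u : Z2
  v : Z2

/-- The tree `c` represents the state `S`. -/
def IsRep6 (S : St6) : C6 → Prop
  | (u, v, l, q, m, s) => u = S.u ∧ v = S.v ∧ 0 < cr S.u S.v ∧ Blk6 S.L S.u l q ∧
      Blk6 S.M S.u m s

/-- The state comes from a tree. -/
def St6.Ok (S : St6) : Prop := ∃ c, IsRep6 S c

/-- Equivalence of states. -/
def SEq6 (S S' : St6) : Prop := ∃ c c', IsRep6 S c ∧ IsRep6 S' c' ∧ CEq6 c c'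

theorem IsRep6.pos {S : St6} {c : C6} (h : IsRep6 S c) : Pos6 c := by
  obtain ⟨u, v, l, q, m, s⟩ := c
  obtain ⟨h1, h2, h3, h4, h5⟩ := h
  subst h1 h2
  exact ⟨h3, h4.1, h5.1, h4.2.1, h5.2.1⟩

/-- the state of a tree -/
def st6Of : C6 → St6
  | (u, v, l, q, m, s) => ⟨lat l (u + q), lat m (u + s), u, v⟩

theorem isRep6_st6Of {c : C6} (h : Pos6 c) : IsRep6 (st6Of c) c := by
  obtain ⟨u, v, l, q, m, s⟩ := c
  obtain ⟨h1, h2, h3, h4, h5⟩ := h
  exact ⟨rfl, rfl, h1, ⟨h2, h4, rfl⟩, ⟨h3, h5, rfl⟩⟩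

theorem st6Of_L (c : C6) : (st6Of c).L = latL c := rfl

theorem st6Of_M (c : C6) : (st6Of c).M = latM c := rfl

theorem st6Of_isRep6 {S : St6} {c : C6} (h : IsRep6 S c) : st6Of c = S := by
  obtain ⟨u, v, l, q, m, s⟩ := c
  obtain ⟨L, M, u', v'⟩ := S
  obtain ⟨h1, h2, h3, h4, h5⟩ := h
  dsimp only at h1 h2 h3 h4 h5
  subst h1 h2
  simp only [st6Of, St6.mk.injEq, and_true]
  exact ⟨h4.2.2, h5.2.2⟩

/-- all trees representing a state are equivalent -/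
theorem IsRep6.ceq {S : St6} {c c' : C6} (h : IsRep6 S c) (h' : IsRep6 S c') : CEq6 c c' := by
  obtain ⟨u, v, l, q, m, s⟩ := c
  obtain ⟨u', v', l', q', m', s'⟩ := c'
  have hp := h.pos
  obtain ⟨L, M, a, b⟩ := S
  obtain ⟨h1, h2, h3, h4, h5⟩ := h
  obtain ⟨k1, k2, k3, k4, k5⟩ := h'
  dsimp only at h1 h2 h3 h4 h5 k1 k2 k3 k4 k5
  subst h1 h2
  subst k1 k2
  have hp1 : Pos6 (u', v', l', q', m, s) := ⟨hp.1, k4.1, h5.1, k4.2.1, h5.2.1⟩
  exact (CEq6.blockL hp k4.1 k4.2.1 (h4.2.2.trans k4.2.2.symm)).trans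
    (CEq6.blockM hp1 k5.1 k5.2.1 (h5.2.2.trans k5.2.2.symm))

theorem St6.Ok.seq {S : St6} (h : S.Ok) : SEq6 S S := by
  obtain ⟨c, hc⟩ := h
  exact ⟨c, c, hc, hc, CEq6.refl c⟩

theorem SEq6.ok {S S' : St6} (h : SEq6 S S') : S.Ok := by
  obtain ⟨c, c', h1, h2, h3⟩ := h
  exact ⟨c, h1⟩

theorem SEq6.ok' {S S' : St6} (h : SEq6 S S') : S'.Ok := by
  obtain ⟨c, c', h1, h2, h3⟩ := h
  exact ⟨c', h2⟩

theorem SEq6.symm {S S' : St6} (h : SEq6 S S') : SEq6 S' S := by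
  obtain ⟨c, c', h1, h2, h3⟩ := h
  exact ⟨c', c, h2, h1, h3.symm⟩

theorem SEq6.trans {S S' S'' : St6} (h : SEq6 S S') (h' : SEq6 S' S'') : SEq6 S S'' := by
  obtain ⟨c, c', h1, h2, h3⟩ := h
  obtain ⟨d, d', k1, k2, k3⟩ := h'
  exact ⟨c, d', h1, k2, h3.trans ((h2.ceq k1).trans k3)⟩

/-- equivalence of states is equivalence of all their trees -/
theorem SEq6.ceq {S S' : St6} (h : SEq6 S S') {c c' : C6} (hc : IsRep6 S c)
    (hc' : IsRep6 S' c') : CEq6 c c' := by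
  obtain ⟨d, d', h1, h2, h3⟩ := h
  exact (hc.ceq h1).trans (h3.trans (h2.ceq hc'))

/-! ## Blocks from bases -/

/-- a basis `l, p` of the lattice with `0 < u × l < p × l` gives a block -/
theorem blk6_mk {L : AddSubgroup Z2} {u l p : Z2} (hL : lat l p = L) (h1 : 0 < cr u l)
    (h2 : cr u l < cr p l) : Blk6 L u l (p - u) := by
  refine ⟨h1, ?_, ?_⟩
  · rw [cr_sub_left]; linarith
  · rw [add_sub_cancel]; exact hL

theorem Blk6.basis {L : AddSubgroup Z2} {u l q : Z2} (h : Blk6 L u l q) :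
    lat l (u + q) = L ∧ 0 < cr u l ∧ cr u l < cr (u + q) l := by
  refine ⟨h.2.2, h.1, ?_⟩
  rw [cr_add_left]; linarith [h.2.1]

theorem st6_ok {L M : AddSubgroup Z2} {u v l p m p' : Z2} (h0 : 0 < cr u v)
    (hL : lat l p = L) (h1 : 0 < cr u l) (h2 : cr u l < cr p l)
    (hM : lat m p' = M) (h3 : 0 < cr u m) (h4 : cr u m < cr p' m) : St6.Ok ⟨L, M, u, v⟩ :=
  ⟨(u, v, l, p - u, m, p' - u), rfl, rfl, h0, blk6_mk hL h1 h2, blk6_mk hM h3 h4⟩

/-! ## The moves -/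

/-- the half turn exchanges the two tori -/
theorem SEq6.swap {L M : AddSubgroup Z2} {u v : Z2} (h : St6.Ok ⟨L, M, u, v⟩) :
    SEq6 ⟨L, M, u, v⟩ ⟨M, L, -u, -v⟩ := by
  obtain ⟨⟨u', v', l, q, m, s⟩, hc⟩ := h
  have hp := hc.pos
  refine ⟨_, (-u', -v', -m, -s, -l, -q), hc, ?_, CEq6.swap hp⟩
  obtain ⟨h1, h2, h3, h4, h5⟩ := hc
  dsimp only at h1 h2 h3 h4 h5
  subst h1 h2
  refine ⟨rfl, rfl, ?_, h5.neg, h4.neg⟩
  show 0 < cr (-u') (-v')
  rw [cr_neg_left, cr_neg_right, neg_neg]; exact h3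

/-- the vector `v` matters only modulo `u` -/
theorem SEq6.tv {L M : AddSubgroup Z2} {u v : Z2} (h : St6.Ok ⟨L, M, u, v⟩) (k : ℤ) :
    SEq6 ⟨L, M, u, v⟩ ⟨L, M, u, v + k • u⟩ := by
  obtain ⟨⟨u', v', l, q, m, s⟩, hc⟩ := h
  have hp := hc.pos
  refine ⟨_, (u', v' + k • u', l, q, m, s), hc, ?_, CEq6.vk hp k⟩
  obtain ⟨h1, h2, h3, h4, h5⟩ := hc
  dsimp only at h1 h2 h3 h4 h5
  subst h1 h2
  refine ⟨rfl, rfl, ?_, h4, h5⟩
  show 0 < cr u' (v' + k • u')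
  rw [cr_add_right, cr_smul_right, cr_self]; simpa using h3

theorem lat_add_left (l p : Z2) (k : ℤ) : lat l (p + k • l) = lat l p :=
  closure_pair_eq (α := 1) (β := 0) (γ := k) (δ := 1) (by module) (by module)
    (Or.inl (by norm_num))

/-- EXIT: the slit vector `u` is replaced by `u + v + l + m`. -/
theorem SEq6.exit {L M : AddSubgroup Z2} {u v l p m p' : Z2} (h0 : 0 < cr u v)
    (hL : lat l p = L) (h1 : 0 < cr u l) (h2 : cr u l < cr p l)
    (hM : lat m p' = M) (h3 : 0 < cr u m) (h4 : cr u m < cr p' m)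
    (g0 : 0 < cr (u + (v + l + m)) v) (g1 : 0 < cr (u + (v + l + m)) l)
    (g2 : 0 < cr (u + (v + l + m)) m) :
    SEq6 ⟨L, M, u, v⟩ ⟨lat l (p + (v + m)), lat m (p' + (v + l)), u + (v + l + m), v⟩ := by
  have hp : Pos6 (u, v, l, p - u, m, p' - u) :=
    ⟨h0, h1, h3, by rw [cr_sub_left]; linarith, by rw [cr_sub_left]; linarith⟩
  refine ⟨(u, v, l, p - u, m, p' - u), (u + (v + l + m), v, l, p - u, m, p' - u),
    ⟨rfl, rfl, h0, blk6_mk hL h1 h2, blk6_mk hM h3 h4⟩,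
    ⟨rfl, rfl, g0, ⟨g1, hp.2.2.2.1, ?_⟩, ⟨g2, hp.2.2.2.2, ?_⟩⟩,
    CEq6.mv hp (Mv6.tu _ _ _ _ _ _ g0 g1 g2)⟩
  · have e : u + (v + l + m) + (p - u) = p + (v + m) + (1 : ℤ) • l := by module
    show lat l (u + (v + l + m) + (p - u)) = lat l (p + (v + m))
    rw [e]; exact lat_add_left _ _ _
  · have e : u + (v + l + m) + (p' - u) = p' + (v + l) + (1 : ℤ) • m := by module
    show lat m (u + (v + l + m) + (p' - u)) = lat m (p' + (v + l))
    rw [e]; exact lat_add_left _ _ _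

/-- EXIT in the other direction: `u` is replaced by `u - (v + l + m)`. -/
theorem SEq6.exit' {L M : AddSubgroup Z2} {u v l p m p' : Z2} (h0 : 0 < cr u v)
    (hL : lat l p = L) (h1 : 0 < cr u l) (h2 : cr u l < cr p l)
    (hM : lat m p' = M) (h3 : 0 < cr u m) (h4 : cr u m < cr p' m)
    (g0 : 0 < cr (u - (v + l + m)) v) (g1 : 0 < cr (u - (v + l + m)) l)
    (g2 : 0 < cr (u - (v + l + m)) m) :
    SEq6 ⟨L, M, u, v⟩ ⟨lat l (p - (v + m)), lat m (p' - (v + l)), u - (v + l + m), v⟩ := by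
  have e1 : u - (v + l + m) + (v + l + m) = u := by abel
  have h5 : cr (u - (v + l + m)) l < cr (p - (v + m)) l := by
    have : cr (p - (v + m)) l - cr (u - (v + l + m)) l = cr p l - cr u l := by
      simp only [cr_sub_left, cr_add_left, cr_self]; ring
    linarith
  have h6 : cr (u - (v + l + m)) m < cr (p' - (v + l)) m := by
    have : cr (p' - (v + l)) m - cr (u - (v + l + m)) m = cr p' m - cr u m := by
      simp only [cr_sub_left, cr_add_left, cr_self]; ring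
    linarith
  have := SEq6.exit (L := lat l (p - (v + m))) (M := lat m (p' - (v + l)))
    (u := u - (v + l + m)) (v := v) (l := l) (p := p - (v + m)) (m := m) (p' := p' - (v + l))
    g0 rfl g1 h5 rfl g2 h6 (by rw [e1]; exact h0) (by rw [e1]; exact h1) (by rw [e1]; exact h3)
  rw [e1, sub_add_cancel, sub_add_cancel, hL, hM] at this
  exact this.symm

end Pool.Agent.H4G.Six
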