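import Pool.Agent.H4G.Six.Farey6
import Pool.Agent.H4G.Six.State6

/-!
# The pencil lemma for states (helper91)

`latA l a = {x : a ∣ x × l}`: for a primitive vector `l` of `ℤ²` this is the lattice of index `a`
which contains `l`.
-/

set_option autoImplicit false

namespace Pool.Agent.H4G.Six

open Pool.Agent.H4G

/-- PENCIL LEMMA for states. -/
theorem SEq6.pencil {L M : AddSubgroup Z2} {u v u' v' l p m p' : Z2} (h0 : 0 < cr u v)
    (hL : lat l p = L) (h1 : 0 < cr u l) (h2 : cr u l < cr p l)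
    (hM : lat m p' = M) (h3 : 0 < cr u m) (h4 : cr u m < cr p' m)
    (g0 : 0 < cr u' v') (g1 : 0 < cr u' l) (g2 : 0 < cr u' m)
    (h : lat u (v + l + m) = lat u' (v' + l + m)) :
    SEq6 ⟨L, M, u, v⟩ ⟨lat l (p + (u' - u)), lat m (p' + (u' - u)), u', v'⟩ := by
  have hp : Pos6 (u, v, l, p - u, m, p' - u) :=
    ⟨h0, h1, h3, by rw [cr_sub_left]; linarith, by rw [cr_sub_left]; linarith⟩
  have hp' : Pos6 (u', v', l, p - u, m, p' - u) := ⟨g0, g1, g2, hp.2.2.2.1, hp.2.2.2.2⟩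
  refine ⟨(u, v, l, p - u, m, p' - u), (u', v', l, p - u, m, p' - u),
    ⟨rfl, rfl, h0, blk6_mk hL h1 h2, blk6_mk hM h3 h4⟩,
    ⟨rfl, rfl, g0, ⟨g1, hp.2.2.2.1, ?_⟩, ⟨g2, hp.2.2.2.2, ?_⟩⟩, CEq6.pencil hp hp' h⟩
  · show lat l (u' + (p - u)) = lat l (p + (u' - u))
    rw [show u' + (p - u) = p + (u' - u) by abel]
  · show lat m (u' + (p' - u)) = lat m (p' + (u' - u))
    rw [show u' + (p' - u) = p' + (u' - u) by abel]

/-! ## Lattices with a primitive vector -/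

/-- `{x : a ∣ x × l}` -/
def latA (l : Z2) (a : ℤ) : AddSubgroup Z2 where
  carrier := {x | a ∣ cr x l}
  zero_mem' := by simp [cr]
  add_mem' {x y} hx hy := by
    show a ∣ cr (x + y) l
    rw [cr_add_left]; exact dvd_add hx hy
  neg_mem' {x} hx := by
    show a ∣ cr (-x) l
    rw [cr_neg_left]; exact (dvd_neg).2 hx

theorem mem_latA {l x : Z2} {a : ℤ} : x ∈ latA l a ↔ a ∣ cr x l := Iff.rfl

/-- a vector parallel to a primitive vector is a multiple of it -/
theorem eq_smul_of_cr_zero {l x : Z2} (hl : IsCoprime l.1 l.2) (h : cr x l = 0) :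
    ∃ k : ℤ, x = k • l := by
  obtain ⟨a, b, hab⟩ := hl
  refine ⟨a * x.1 + b * x.2, ?_⟩
  have h' : x.1 * l.2 = x.2 * l.1 := by
    simp only [cr] at h; linarith
  ext
  · simp only [Prod.smul_fst, smul_eq_mul]
    linear_combination (-x.1) * hab + b * h'
  · simp only [Prod.smul_snd, smul_eq_mul]
    linear_combination (-x.2) * hab - a * h'

theorem lat_eq_latA {l p : Z2} {a : ℤ} (hl : IsCoprime l.1 l.2) (hp : cr p l = a) :
    lat l p = latA l a := by
  apply le_antisymm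
  · rw [AddSubgroup.closure_le]
    rintro w (rfl | rfl)
    · show a ∣ cr w w
      rw [cr_self]; exact dvd_zero a
    · show a ∣ cr w l
      rw [hp]
  · intro x hx
    obtain ⟨t, ht⟩ : a ∣ cr x l := hx
    obtain ⟨k, hk⟩ := eq_smul_of_cr_zero hl (x := x - t • p) (by
      rw [cr_sub_left, cr_smul_left, hp, ht]; ring)
    exact mem_lat.2 ⟨k, t, by rw [← hk]; abel⟩

/-- a primitive vector has partners of every determinant -/
theorem exists_cr_eq {l : Z2} (hl : IsCoprime l.1 l.2) (a : ℤ) : ∃ p : Z2, cr p l = a := by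
  obtain ⟨x, y, hxy⟩ := hl
  refine ⟨(a * y, -(a * x)), ?_⟩
  simp only [cr]
  linear_combination a * hxy

theorem latA_neg (l : Z2) (a : ℤ) : latA (-l) a = latA l a := by
  ext x
  rw [mem_latA, mem_latA, cr_neg_right, dvd_neg]

/-- the state with the lattices `latA l a`, `latA m a₁` -/
theorem st6A_ok {u v l m : Z2} {a a₁ : ℤ} (hl : IsCoprime l.1 l.2) (hm : IsCoprime m.1 m.2)
    (h0 : 0 < cr u v) (h1 : 0 < cr u l) (h2 : cr u l < a) (h3 : 0 < cr u m) (h4 : cr u m < a₁) :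
    St6.Ok ⟨latA l a, latA m a₁, u, v⟩ := by
  obtain ⟨p, hp⟩ := exists_cr_eq hl a
  obtain ⟨p', hp'⟩ := exists_cr_eq hm a₁
  exact st6_ok h0 (lat_eq_latA hl hp) h1 (by rw [hp]; exact h2) (lat_eq_latA hm hp') h3
    (by rw [hp']; exact h4)

/-- PENCIL LEMMA for the lattices `latA l a`, `latA m a₁`. -/
theorem SEq6.pencilA {u v u' v' l m : Z2} {a a₁ a' a₁' : ℤ} (hl : IsCoprime l.1 l.2)
    (hm : IsCoprime m.1 m.2)
    (h0 : 0 < cr u v) (h1 : 0 < cr u l) (h2 : cr u l < a) (h3 : 0 < cr u m) (h4 : cr u m < a₁)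
    (g0 : 0 < cr u' v') (g1 : 0 < cr u' l) (g2 : 0 < cr u' m)
    (h : lat u (v + l + m) = lat u' (v' + l + m))
    (ha : a' = a + cr (u' - u) l) (ha₁ : a₁' = a₁ + cr (u' - u) m) :
    SEq6 ⟨latA l a, latA m a₁, u, v⟩ ⟨latA l a', latA m a₁', u', v'⟩ := by
  obtain ⟨p, hp⟩ := exists_cr_eq hl a
  obtain ⟨p', hp'⟩ := exists_cr_eq hm a₁
  have := SEq6.pencil h0 (lat_eq_latA hl hp) h1 (by rw [hp]; exact h2) (lat_eq_latA hm hp') h3
    (by rw [hp']; exact h4) g0 g1 g2 h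
  rw [lat_eq_latA hl (a := a') (by rw [cr_add_left, hp, ha]),
    lat_eq_latA hm (a := a₁') (by rw [cr_add_left, hp', ha₁])] at this
  exact this

end Pool.Agent.H4G.Six
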