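import Pool.Agent.H4G.Six.Norm6
import Pool.Agent.H4G.Six.State6

/-!
# The parity invariant of a state (row G6, helper69)

`lam x y` depends only on the lattice `⟨x, y⟩`; `lamL L` is its value for the lattice `L`; `S.inv` is
the parity invariant of the state `S`. The word `even` for a state means `S.inv = 0`.
-/

set_option autoImplicit false

namespace Pool.Agent.H4G.Six

open Pool.Agent.H4G

open Classical in
/-- the vector of a lattice -/
noncomputable def lamL (L : AddSubgroup Z2) : F2 :=
  if h : ∃ x y : Z2, L = lat x y then lam h.choose h.choose_spec.choose else 0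

theorem lamL_lat (x y : Z2) : lamL (lat x y) = lam x y := by
  have h : ∃ x' y' : Z2, lat x y = lat x' y' := ⟨x, y, rfl⟩
  rw [lamL, dif_pos h]
  exact (lam_congr h.choose_spec.choose_spec).symm

/-- the parity invariant of a state -/
noncomputable def St6.inv (S : St6) : F2 := lam S.u S.v + lamL S.L + lamL S.M

theorem IsRep6.inv {S : St6} {c : C6} (h : IsRep6 S c) : inv6 c = S.inv := by
  obtain ⟨u, v, l, q, m, s⟩ := c
  obtain ⟨L, M, u', v'⟩ := S
  obtain ⟨h1, h2, h3, h4, h5⟩ := h
  dsimp only at h1 h2 h3 h4 h5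
  subst h1 h2
  have e1 := h4.2.2
  have e2 := h5.2.2
  subst e1 e2
  simp only [St6.inv, lamL_lat, inv6]

theorem inv6_eq (c : C6) : inv6 c = (st6Of c).inv := by
  obtain ⟨u, v, l, q, m, s⟩ := c
  simp only [st6Of, St6.inv, lamL_lat, inv6]

/-- the parity of a state is invariant -/
theorem SEq6.inv_zero {S S' : St6} (h : SEq6 S S') : S.inv = 0 ↔ S'.inv = 0 := by
  obtain ⟨c, c', h1, h2, h3⟩ := h
  rw [← h1.inv, ← h2.inv]
  exact h3.inv_zero

/-! ## Values in coordinates -/

/-- the line of a lattice: it is `0` if and only if all vectors are even, or all residues occur -/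
theorem lam_eq_zero_iff (x y : Z2) : lam x y = 0 ↔
    (cr x y : ZMod 2) ≠ 0 ∨ (m2 x = 0 ∧ m2 y = 0) := by
  have key : ∀ a b : F2, lam2 a b = 0 ↔ (a.1 * b.2 - a.2 * b.1 ≠ 0 ∨ (a = 0 ∧ b = 0)) := by
    decide
  unfold lam
  rw [key]
  simp only [cr, m2]
  push_cast
  rfl

/-- odd area -/
theorem lam_odd {x y : Z2} (h : Odd (cr x y)) : lam x y = 0 := by
  rw [lam_eq_zero_iff]
  left
  rw [← Int.not_even_iff_odd, even_iff_two_dvd] at h
  exact fun h1 => h ((ZMod.intCast_zmod_eq_zero_iff_dvd _ 2).1 h1)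

end Pool.Agent.H4G.Six
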