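import Pool.Agent.H4G.Six.Model

/-!
# The explicit origami of a horizontal E6 state: size, transitivity, signs (helper41)
-/

set_option autoImplicit false

namespace Pool.Agent.H4G.Six

open Pool.Agent.H4G

/-- reduction of a vector modulo the lattice -/
theorem latN_red {w s h : ℤ} (hw : 0 < w) (hh : 0 < h) (z : Z2) : ∃ x y : ℤ,
    0 ≤ x ∧ x < w ∧ 0 ≤ y ∧ y < h ∧ z - (x, y) ∈ latN w s h := by
  refine ⟨(z.1 - z.2 / h * s) % w, z.2 % h, Int.emod_nonneg _ hw.ne', Int.emod_lt_of_pos _ hw,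
    Int.emod_nonneg _ hh.ne', Int.emod_lt_of_pos _ hh, ?_⟩
  rw [mem_latN]
  refine ⟨(z.1 - z.2 / h * s) / w, z.2 / h, ?_⟩
  have e1 := Int.emod_add_mul_ediv (z.1 - z.2 / h * s) w
  have e2 := Int.emod_add_mul_ediv z.2 h
  ext
  · simp only [Prod.fst_sub]
    linear_combination (-1 : ℤ) * e1
  · simp only [Prod.snd_sub]
    linear_combination (-1 : ℤ) * e2

/-- the residue classes -/
theorem latN_bij {w s h : ℤ} (hw : 0 < w) (hh : 0 < h) :
    Function.Bijective (fun p : Fin w.toNat × Fin h.toNat =>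
      (((((p.1 : ℕ) : ℤ), ((p.2 : ℕ) : ℤ)) : Z2) : Z2 ⧸ latN w s h)) := by
  constructor
  · rintro ⟨a, b⟩ ⟨a', b'⟩ hab
    have h1 := (QuotientAddGroup.eq).1 hab
    have h2 : (((a' : ℕ) : ℤ) - ((a : ℕ) : ℤ), ((b' : ℕ) : ℤ) - ((b : ℕ) : ℤ)) ∈ latN w s h := by
      have e : -((((a : ℕ) : ℤ), ((b : ℕ) : ℤ)) : Z2) + (((a' : ℕ) : ℤ), ((b' : ℕ) : ℤ)) =
        (((a' : ℕ) : ℤ) - ((a : ℕ) : ℤ), ((b' : ℕ) : ℤ) - ((b : ℕ) : ℤ)) := by
        ext <;> simp <;> ring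
      rwa [e] at h1
    have ha := a.2
    have ha' := a'.2
    have hb := b.2
    have hb' := b'.2
    have h3 : ((b' : ℕ) : ℤ) - ((b : ℕ) : ℤ) = 0 := by
      apply Int.eq_zero_of_abs_lt_dvd (latN_ht h2)
      rw [abs_lt]
      constructor <;> omega
    rw [h3] at h2
    have h4 : ((a' : ℕ) : ℤ) - ((a : ℕ) : ℤ) = 0 := by
      apply Int.eq_zero_of_abs_lt_dvd (latN_hor hh h2)
      rw [abs_lt]
      constructor <;> omega
    have e1 : a = a' := Fin.ext (by omega)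
    have e2 : b = b' := Fin.ext (by omega)
    rw [e1, e2]
  · intro q
    obtain ⟨z, rfl⟩ := QuotientAddGroup.mk_surjective q
    obtain ⟨x, y, h1, h2, h3, h4, h5⟩ := latN_red (s := s) hw hh z
    refine ⟨(⟨x.toNat, by omega⟩, ⟨y.toNat, by omega⟩), ?_⟩
    show ((((x.toNat : ℤ), (y.toNat : ℤ)) : Z2) : Z2 ⧸ latN w s h) = _
    rw [Int.toNat_of_nonneg h1, Int.toNat_of_nonneg h3]
    apply (QuotientAddGroup.eq).2
    rwa [neg_add_eq_sub]

theorem latN_card {w s h : ℤ} (hw : 0 < w) (hh : 0 < h) :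
    (Nat.card (Z2 ⧸ latN w s h) : ℤ) = w * h := by
  rw [← Nat.card_congr (Equiv.ofBijective _ (latN_bij (s := s) hw hh)), Nat.card_prod,
    Nat.card_eq_fintype_card, Nat.card_eq_fintype_card, Fintype.card_fin, Fintype.card_fin]
  push_cast
  rw [Int.toNat_of_nonneg hw.le, Int.toNat_of_nonneg hh.le]

theorem latN_finite {w s h : ℤ} (hw : 0 < w) (hh : 0 < h) : Finite (Z2 ⧸ latN w s h) :=
  Finite.of_equiv _ (Equiv.ofBijective _ (latN_bij (s := s) hw hh))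

namespace MD

variable (D : MD)

theorem wpos (i : Fin 3) : 0 < D.w i :=
  lt_of_lt_of_le (by exact_mod_cast D.k0) (D.kw i)

instance finQ (i : Fin 3) : Finite (Z2 ⧸ D.L i) := latN_finite (D.wpos i) (D.hh i)

noncomputable instance ftQ (i : Fin 3) : Fintype (Z2 ⧸ D.L i) := Fintype.ofFinite _

noncomputable instance ftS : Fintype D.Sq := inferInstance

/-- the number of squares -/
theorem card : (Nat.card D.Sq : ℤ) = D.w 0 * D.h 0 + D.w 1 * D.h 1 + D.w 2 * D.h 2 := by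
  rw [Nat.card_sigma, Fin.sum_univ_three]
  push_cast
  rw [latN_card (D.wpos 0) (D.hh 0), latN_card (D.wpos 1) (D.hh 1), latN_card (D.wpos 2) (D.hh 2)]

/-- the tree of the model -/
def tree : C6 := (D.uu, D.vv 0, D.vv 1, (D.w 1 - D.k, 0), D.vv 2, (D.w 2 - D.k, 0))

theorem has : Has6 D.O D.tree := D.has6

theorem pos : Pos6 D.tree := by
  have hk : (0 : ℤ) < D.k := by exact_mod_cast D.k0
  have h0 := D.hh 0
  have h1 := D.hh 1
  have h2 := D.hh 2
  have w1 := D.w1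
  have w2 := D.w2
  simp only [tree, Pos6, cr, uu, vv, zero_mul, sub_zero]
  exact ⟨mul_pos hk h0, mul_pos hk h1, mul_pos hk h2, mul_pos (by omega) h1,
    mul_pos (by omega) h2⟩

theorem vol : vol6 D.tree = Nat.card D.Sq := by
  rw [D.card, D.w0]
  simp only [tree, vol6, cr, uu, vv, zero_mul, sub_zero]
  ring

/-! ## Transitivity -/

theorem exists_pt (x : D.Sq) : ∃ i z, x = D.pt i z := by
  obtain ⟨i, q⟩ := x
  obtain ⟨z, rfl⟩ := QuotientAddGroup.mk_surjective q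
  exact ⟨i, z, rfl⟩

/-- the rows are cyclic -/
theorem row_mem {S : Set D.Sq} (hr : ∀ x ∈ S, D.O.r x ∈ S) {i : Fin 3} {z : Z2}
    (hz : D.pt i z ∈ S) (x : ℤ) : D.pt i (x, z.2) ∈ S := by
  have h1 : ∀ n : ℕ, D.pt i (z + ((n : ℤ), 0)) ∈ S := by
    intro n
    induction n with
    | zero =>
      have e : z + (((0 : ℕ) : ℤ), 0) = z := by ext <;> simp
      rw [e]; exact hz
    | succ n ih =>
      have h2 := hr _ ih
      rw [O_r] at h2
      have e : z + (((n + 1 : ℕ) : ℤ), 0) = z + ((n : ℤ), 0) + (1, 0) := by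
        ext <;> simp; ring
      rw [e]; exact h2
  have hw := D.wpos i
  obtain ⟨n, hn⟩ : ∃ n : ℕ, (n : ℤ) = (x - z.1) % D.w i :=
    ⟨((x - z.1) % D.w i).toNat, Int.toNat_of_nonneg (Int.emod_nonneg _ hw.ne')⟩
  have e1 := Int.emod_add_mul_ediv (x - z.1) (D.w i)
  have e2 : D.pt i (x, z.2) = D.pt i (z + ((n : ℤ), 0)) := by
    rw [pt_eq, mem_latN]
    refine ⟨(x - z.1) / D.w i, 0, ?_⟩
    rw [hn]
    ext
    · simp only [Prod.fst_sub, Prod.fst_add]
      linear_combination (-1 : ℤ) * e1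
    · simp
  rw [e2]
  exact h1 n

/-- upwards -/
theorem up_mem {S : Set D.Sq} (hr : ∀ x ∈ S, D.O.r x ∈ S) (hu : ∀ x ∈ S, D.O.u x ∈ S)
    {i : Fin 3} {x y : ℤ} (hy : 0 ≤ y) (hz : D.pt i (x, y) ∈ S) (n : ℕ) (hn : y + n < D.h i)
    (x' : ℤ) : D.pt i (x', y + n) ∈ S := by
  induction n generalizing x' with
  | zero =>
    have := D.row_mem hr hz x'
    simpa using this
  | succ n ih =>
    have h1 := hu _ (ih (by push_cast at hn; omega) x')
    rw [O_u, D.sg_row (by simp only [Prod.snd_add]; omega)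
      (by simp only [Prod.snd_add]; push_cast at hn; omega)] at h1
    have e : ((x', y + ((n + 1 : ℕ) : ℤ)) : Z2) = (x', y + n) + (0, 1) := by
      ext <;> simp; ring
    rw [e]; exact h1

/-- to the next torus -/
theorem next_mem {S : Set D.Sq} (hr : ∀ x ∈ S, D.O.r x ∈ S) (hu : ∀ x ∈ S, D.O.u x ∈ S)
    {i : Fin 3} {z : Z2} (hz : D.pt i z ∈ S) : D.pt (i + 1) (0, 0) ∈ S := by
  obtain ⟨x, y, _, _, h3, h4, h5⟩ := latN_red (s := D.s i) (D.wpos i) (D.hh i) z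
  rw [D.pt_eq.2 h5] at hz
  obtain ⟨n, hn⟩ : ∃ n : ℕ, (n : ℤ) = D.h i - 1 - y :=
    ⟨(D.h i - 1 - y).toNat, Int.toNat_of_nonneg (by omega)⟩
  have h6 := hu _ (D.up_mem hr hu h3 hz n (by omega) (D.s i))
  rw [O_u, ← D.pt_s i] at h6
  have e : ((D.s i, y + n) : Z2) + (0, 1) - (D.s i, D.h i) = (0, 0) := by
    ext
    · simp
    · simp only [Prod.snd_sub, Prod.snd_add]; omega
  rw [e, D.sg_slit i le_rfl (by exact_mod_cast D.k0)] at h6
  exact h6

theorem all_mem {S : Set D.Sq} (hr : ∀ x ∈ S, D.O.r x ∈ S) (hu : ∀ x ∈ S, D.O.u x ∈ S)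
    {i : Fin 3} (hz : D.pt i (0, 0) ∈ S) (z : Z2) : D.pt i z ∈ S := by
  obtain ⟨x, y, _, _, h3, h4, h5⟩ := latN_red (s := D.s i) (D.wpos i) (D.hh i) z
  rw [D.pt_eq.2 h5]
  obtain ⟨n, rfl⟩ := Int.eq_ofNat_of_zero_le h3
  have := D.up_mem hr hu le_rfl hz n (by omega) x
  simpa using this

theorem trans : D.O.Trans := by
  intro S hS hr hu
  obtain ⟨x0, hx0⟩ := hS
  obtain ⟨i, z, rfl⟩ := D.exists_pt x0
  have h1 := D.next_mem hr hu hx0
  have h2 := D.next_mem hr hu h1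
  have h3 := D.next_mem hr hu h2
  ext x
  simp only [Set.mem_univ, iff_true]
  obtain ⟨j, z', rfl⟩ := D.exists_pt x
  have : j = i + 1 ∨ j = i + 1 + 1 ∨ j = i + 1 + 1 + 1 := by
    clear hr hu hx0 h1 h2 h3 z z'
    revert i j
    decide
  rcases this with rfl | rfl | rfl
  · exact D.all_mem hr hu h1 z'
  · exact D.all_mem hr hu h2 z'
  · exact D.all_mem hr hu h3 z'

end MD

end Pool.Agent.H4G.Six
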