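import Pool.Agent.H4G.Six.Par6
import Pool.Agent.H4G.Six.Block6
import Pool.Agent.H4G.Six.Model2
import Pool.Agent.H4G.Arith.KLev

/-!
# Every positive tree is equivalent to a horizontal one (row G6, helper69)
-/

set_option autoImplicit false

namespace Pool.Agent.H4G.Six

open Pool.Agent.H4G Matrix MatrixGroups

theorem pos6_act (g : SL(2, ℤ)) {c : C6} (h : Pos6 c) : Pos6 (c.map (act g)) := by
  obtain ⟨a0, a1, a2, a3, a4, a5⟩ := c
  simp only [Pos6, C6.map, cr_act] at h ⊢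
  exact h

theorem vol6_act (g : SL(2, ℤ)) (c : C6) : vol6 (c.map (act g)) = vol6 c := by
  obtain ⟨a0, a1, a2, a3, a4, a5⟩ := c
  simp only [vol6, C6.map, cr_act]

/-- the action of `SL₂(ℤ)` -/
theorem ceq6_act (g : SL(2, ℤ)) {c : C6} (hp : Pos6 c) : CEq6 c (c.map (act g)) := by
  have hg : g ∈ Subgroup.closure {ModularGroup.S, ModularGroup.T} := by
    rw [SpecialLinearGroup.SL2Z_generators]; trivial
  induction hg using Subgroup.closure_induction generalizing c with
  | mem x hx =>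
    rcases hx with rfl | rfl
    · have := CEq6.mv hp (Mv6.J c)
      have e : c.map shJ = c.map (act ModularGroup.S) := by
        congr 1
        funext p
        rw [act_apply]
        simp [ModularGroup.S, shJ]
      rw [e] at this
      exact this
    · have := CEq6.mv hp (Mv6.T c)
      have e : c.map shT = c.map (act ModularGroup.T) := by
        congr 1
        funext p
        rw [act_apply]
        simp [ModularGroup.T, shT]
      rw [e] at this
      exact this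
  | one =>
    rw [C6.map_id' c act_one]
    exact CEq6.refl c
  | mul x y _ _ hx hy =>
    have h1 := hy hp
    have h2 := hx (pos6_act y hp)
    rw [C6.map_map] at h2
    have e : (fun p => act x (act y p)) = fun p => act (x * y) p := by
      funext p; rw [act_mul]
    rw [e] at h2
    exact CEq6.trans h1 h2
  | inv x _ hx =>
    have h1 := hx (pos6_act x⁻¹ hp)
    rw [C6.map_map] at h1
    have e : c.map (fun p => act x (act x⁻¹ p)) = c := by
      apply C6.map_id'
      intro p; rw [← act_mul, mul_inv_cancel, act_one]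
    rw [e] at h1
    exact CEq6.symm h1

/-- a nonzero vector can be turned to the positive horizontal direction -/
theorem exists_hor (u : Z2) (hu : u ≠ 0) : ∃ (g : SL(2, ℤ)) (k : ℤ), 0 < k ∧ act g u = (k, 0) := by
  obtain ⟨x, y⟩ := u
  set d : ℤ := (Int.gcd x y : ℤ) with hd
  have hd0 : 0 < d := by
    rw [hd]
    have : Int.gcd x y ≠ 0 := by
      intro h
      rw [Int.gcd_eq_zero_iff] at h
      exact hu (by rw [h.1, h.2]; rfl)
    exact_mod_cast Nat.pos_of_ne_zero this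
  obtain ⟨x', hx⟩ : d ∣ x := Int.gcd_dvd_left ..
  obtain ⟨y', hy⟩ : d ∣ y := Int.gcd_dvd_right ..
  have hb := Int.gcd_eq_gcd_ab x y
  have hdet : x' * Int.gcdA x y - (-y') * Int.gcdB x y = 1 := by
    have h1 : d * (x' * Int.gcdA x y - (-y') * Int.gcdB x y) = d * 1 := by
      have h2 : x * Int.gcdA x y + y * Int.gcdB x y = d := hb.symm
      rw [mul_one]
      calc d * (x' * Int.gcdA x y - (-y') * Int.gcdB x y)
          = (d * x') * Int.gcdA x y + (d * y') * Int.gcdB x y := by ring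
        _ = d := by rw [← hx, ← hy]; exact h2
    exact mul_left_cancel₀ hd0.ne' h1
  have hdet2 : Matrix.det !![Int.gcdA x y, Int.gcdB x y; -y', x'] = 1 := by
    rw [Matrix.det_fin_two_of]
    linarith
  set g : SL(2, ℤ) := ⟨!![Int.gcdA x y, Int.gcdB x y; -y', x'], hdet2⟩ with hg
  refine ⟨g, d, hd0, ?_⟩
  rw [act_apply]
  simp only [hg]
  ext
  · simp
    linarith [hb]
  · simp
    nth_rewrite 1 [hx]
    nth_rewrite 1 [hy]
    ring

/-! ## Volumes and positivity along the moves -/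

/-- volume, (1,3)-exits -/
theorem vol6_exP {u v l q m s U x u' x' : Z2} (h0 : cr U x = cr u (v + l + m))
    (h : cr u' x' = cr l x + cr q l) :
    vol6 (u', x' + m - x, -m, -s, x, U - l) = vol6 (u, v, l, q, m, s) := by
  have e : vol6 (u', x' + m - x, -m, -s, x, U - l) =
      cr u' x' + cr s m + cr U x - cr l x := by
    simp only [vol6, cr_add_right, cr_sub_right, cr_sub_left, cr_neg_left, cr_neg_right]
    ring
  rw [e, h, h0]
  simp only [vol6, cr_add_right]
  ring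

theorem vol6_exM {u v l q m s U x u' x' : Z2} (h0 : cr U x = cr u (v + l + m))
    (h : cr u' x' = cr l x + cr q l) :
    vol6 (u', x' + m + x, -m, -s, -x, l - U) = vol6 (u, v, l, q, m, s) := by
  have e : vol6 (u', x' + m + x, -m, -s, -x, l - U) =
      cr u' x' + cr s m + cr U x - cr l x := by
    simp only [vol6, cr_add_right, cr_sub_left, cr_neg_left, cr_neg_right]
    ring
  rw [e, h, h0]
  simp only [vol6, cr_add_right]
  ring

/-- positivity, (1,3)-exits -/
theorem pos6_ex {u v l q m s u' v' x z : Z2} (hc : Pos6 (u, v, l, q, m, s))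
    (h1 : 0 < cr u' v') (h2 : 0 < cr u' (-m)) (h3 : 0 < cr u' x) (h4 : 0 < cr z x) :
    Pos6 (u', v', -m, -s, x, z) := by
  obtain ⟨_, _, _, _, g5⟩ := hc
  refine ⟨h1, h2, h3, ?_, h4⟩
  rw [cr_neg_left, cr_neg_right, neg_neg]
  exact g5

theorem Mv6.vol {c c' : C6} (h : Mv6 c c') : vol6 c' = vol6 c := by
  cases h with
  | tv => simp only [vol6, cr_add_right, cr_self]; ring
  | tq => simp only [vol6, cr_add_left, cr_self]; ring
  | ts => simp only [vol6, cr_add_left, cr_self]; ring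
  | tl u v l q m s =>
    simp only [vol6, cr_add_right, cr_self]
    rw [cr_swap q u]; ring
  | tm u v l q m s =>
    simp only [vol6, cr_add_right, cr_self]
    rw [cr_swap s u]; ring
  | tu u v l q m s =>
    simp only [vol6, cr_add_left, cr_self]
    rw [cr_swap l v, cr_swap m v, cr_swap m l]; ring
  | swap =>
    simp only [vol6, cr_neg_left, cr_neg_right]; ring
  | exP _ _ _ _ _ _ _ _ _ _ _ h1 _ _ _ _ _ _ _ h2 => exact vol6_exP h1 h2
  | exM _ _ _ _ _ _ _ _ _ _ _ h1 _ _ _ _ _ _ _ h2 => exact vol6_exM h1 h2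
  | T =>
    obtain ⟨a0, a1, a2, a3, a4, a5⟩ := c
    simp only [vol6, C6.map, cr, shT]; ring
  | J =>
    obtain ⟨a0, a1, a2, a3, a4, a5⟩ := c
    simp only [vol6, C6.map, cr, shJ]; ring

theorem Mv6.pos {c c' : C6} (h : Mv6 c c') (hc : Pos6 c) : Pos6 c' := by
  cases h with
  | tv =>
    obtain ⟨h1, h2, h3, h4, h5⟩ := hc
    refine ⟨?_, h2, h3, h4, h5⟩
    rw [cr_add_right, cr_self]; linarith
  | tq =>
    obtain ⟨h1, h2, h3, h4, h5⟩ := hc
    refine ⟨h1, h2, h3, ?_, h5⟩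
    rw [cr_add_left, cr_self]; linarith
  | ts =>
    obtain ⟨h1, h2, h3, h4, h5⟩ := hc
    refine ⟨h1, h2, h3, h4, ?_⟩
    rw [cr_add_left, cr_self]; linarith
  | tl _ _ _ _ _ _ k1 k2 =>
    obtain ⟨h1, h2, h3, h4, h5⟩ := hc
    exact ⟨h1, k1, h3, k2, h5⟩
  | tm _ _ _ _ _ _ k1 k2 =>
    obtain ⟨h1, h2, h3, h4, h5⟩ := hc
    exact ⟨h1, h2, k1, h4, k2⟩
  | tu _ _ _ _ _ _ k1 k2 k3 =>
    obtain ⟨h1, h2, h3, h4, h5⟩ := hc
    exact ⟨k1, k2, k3, h4, h5⟩
  | swap =>
    obtain ⟨h1, h2, h3, h4, h5⟩ := hc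
    refine ⟨?_, ?_, ?_, ?_, ?_⟩ <;> rw [cr_neg_left, cr_neg_right] <;> linarith
  | exP _ _ _ _ _ _ U x _ _ _ _ _ h1 _ _ _ _ _ _ k1 k2 k3 =>
    exact pos6_ex hc k1 k2 k3 (by rw [cr_sub_left]; linarith)
  | exM _ _ _ _ _ _ U x _ _ _ _ _ h1 _ _ _ _ _ _ k1 k2 k3 =>
    exact pos6_ex hc k1 k2 k3 (by rw [cr_sub_left, cr_neg_right, cr_neg_right]; linarith)
  | T =>
    obtain ⟨a0, a1, a2, a3, a4, a5⟩ := c
    obtain ⟨h1, h2, h3, h4, h5⟩ := hc
    simp only [cr] at h1 h2 h3 h4 h5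
    refine ⟨?_, ?_, ?_, ?_, ?_⟩ <;> simp only [cr, shT] <;> linarith
  | J =>
    obtain ⟨a0, a1, a2, a3, a4, a5⟩ := c
    obtain ⟨h1, h2, h3, h4, h5⟩ := hc
    simp only [cr] at h1 h2 h3 h4 h5
    refine ⟨?_, ?_, ?_, ?_, ?_⟩ <;> simp only [cr, shJ] <;> linarith

theorem CEq6.vol {c c' : C6} (h : CEq6 c c') : vol6 c' = vol6 c := by
  induction h with
  | rel _ _ h => exact h.2.vol
  | refl _ => rfl
  | symm _ _ _ ih => exact ih.symm
  | trans _ _ _ _ _ ih1 ih2 => exact ih2.trans ih1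

theorem CEq6.pos_iff {c c' : C6} (h : CEq6 c c') : Pos6 c ↔ Pos6 c' := by
  induction h with
  | rel _ _ h => exact ⟨h.2.pos, fun _ => h.1⟩
  | refl _ => rfl
  | symm _ _ _ ih => exact ih.symm
  | trans _ _ _ _ _ ih1 ih2 => exact ih1.trans ih2

/-! ## The normal form -/

/-- a basis of the lattice of a torus with a horizontal vector -/
theorem exists_hnf6 {k : ℤ} (hk : 0 < k) {l q : Z2} (h1 : 0 < cr (k, 0) l) (h2 : 0 < cr q l) :
    ∃ w s h : ℤ, 0 < h ∧ k < w ∧ lat l ((k, 0) + q) = lat (s, h) ((k, 0) + (w - k, 0)) := by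
  have ha : IsArea (lat l ((k, 0) + q)) (cr ((k, 0) + q) l) :=
    ⟨by rw [cr_add_left]; linarith, l, (k, 0) + q, rfl, rfl⟩
  obtain ⟨w, h, s, hw, hh, e1, e2⟩ := ha.hnf'
  refine ⟨w, s, h, hh, ?_, ?_⟩
  · have hl : l ∈ lat (w, 0) (s, h) := by
      rw [← e2]
      exact AddSubgroup.subset_closure (by simp)
    obtain ⟨m, n, e3⟩ := mem_lat.1 hl
    have e4 : l.2 = n * h := by
      rw [← e3]; simp
    rw [cr_add_left] at e1
    have e5 : cr (k, 0) l = k * l.2 := by simp [cr]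
    rw [e5] at e1 h1
    have h3 : 0 < l.2 := (mul_pos_iff_of_pos_left hk).1 h1
    have h4 : 0 < n := by
      rw [e4] at h3
      exact (mul_pos_iff_of_pos_right hh).1 h3
    have h5 : h ≤ l.2 := by
      rw [e4]; nlinarith
    have h6 : k * h < w * h := by nlinarith
    exact lt_of_mul_lt_mul_right h6 hh.le
  · rw [e2, lat_comm]
    have e : ((k, 0) + (w - k, 0) : Z2) = (w, 0) := by ext <;> simp
    rw [e]

/-- NORMAL FORM: every positive tree is equivalent to a horizontal one -/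
theorem exists_model {c : C6} (hp : Pos6 c) : ∃ D : MD, CEq6 c D.tree := by
  obtain ⟨u, v, l, q, m, s⟩ := c
  have hu : u ≠ 0 := by
    rintro rfl
    have h1 := hp.1
    rw [cr_zero_left] at h1
    exact lt_irrefl _ h1
  obtain ⟨g, k, hk, hg⟩ := exists_hor u hu
  have h1 := ceq6_act g hp
  have hp1 := pos6_act g hp
  simp only [C6.map, hg] at h1 hp1
  obtain ⟨g1, g2, g3, g4, g5⟩ := hp1
  obtain ⟨w, x, a, ha, hw, e1⟩ := exists_hnf6 hk g2 g4
  obtain ⟨w', y, b, hb, hw', e2⟩ := exists_hnf6 hk g3 g5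
  have p1 : 0 < cr ((k, 0) : Z2) (x, a) := by simp [cr]; positivity
  have p2 : 0 < cr ((w - k, 0) : Z2) (x, a) := by
    simp [cr]
    exact mul_pos (by linarith) ha
  have p3 : 0 < cr ((k, 0) : Z2) (y, b) := by simp [cr]; positivity
  have p4 : 0 < cr ((w' - k, 0) : Z2) (y, b) := by
    simp [cr]
    exact mul_pos (by linarith) hb
  have h2 := CEq6.blockL ⟨g1, g2, g3, g4, g5⟩ p1 p2 e1
  have h3 := CEq6.blockM ⟨g1, p1, g3, p2, g5⟩ p3 p4 e2
  have e5 : cr ((k, 0) : Z2) (act g v) = k * (act g v).2 := by simp [cr]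
  rw [e5] at g1
  have hv : 0 < (act g v).2 := (mul_pos_iff_of_pos_left hk).1 g1
  obtain ⟨n, hn⟩ := Int.eq_ofNat_of_zero_le hk.le
  subst hn
  refine ⟨⟨n, ![n, w, w'], ![(act g v).1, x, y], ![(act g v).2, a, b], by exact_mod_cast hk, rfl,
    hw, hw', ?_⟩, ?_⟩
  · intro i
    fin_cases i
    · exact hv
    · exact ha
    · exact hb
  · exact (h1.trans h2).trans h3

end Pool.Agent.H4G.Six
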