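import Pool.Agent.H4G.Six.Par

/-!
# The mirror image of an origami and of its E6 trees (helper2)

The reflection `(x, y) ↦ (-x, y)`: `PO.mir O = (r⁻¹, u)`, `bar a = (-a.1, a.2)`. The tree
`(u, v; l, q; m, s)` becomes `(-bar u, bar v; bar l, -bar q; bar m, -bar s)` (`bar6`).
-/

set_option autoImplicit false
set_option linter.unnecessarySeqFocus false

namespace Pool.Agent.H4G.Six

open Pool.Agent.H4G

variable {X : Type}

/-- the mirror image -/
def PO.mir (O : PO X) : PO X := ⟨O.r⁻¹, O.u⟩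

theorem PO.mir_mir (O : PO X) : O.mir.mir = O := by
  cases O
  simp [PO.mir]

/-- the reflected vector -/
def bar (a : Z2) : Z2 := (-a.1, a.2)

/-- the reflected point -/
def brp (x : V) : V := (-x.1, x.2)

/-- the reflected function on squares -/
def brf (g : Z2 → X) (z : Z2) : X := g (-z.1 - 1, z.2)

theorem bar_bar (a : Z2) : bar (bar a) = a := by simp [bar]

theorem bar_add (a b : Z2) : bar (a + b) = bar a + bar b := by
  ext <;> simp only [bar, Prod.fst_add, Prod.snd_add] <;> ring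

theorem bar_sub (a b : Z2) : bar (a - b) = bar a - bar b := by
  ext <;> simp only [bar, Prod.fst_sub, Prod.snd_sub] <;> ring

theorem bar_neg (a : Z2) : bar (-a) = -bar a := by
  ext <;> simp only [bar, Prod.fst_neg, Prod.snd_neg]

theorem bar_zero : bar 0 = 0 := by simp [bar]

theorem bar_inj {a b : Z2} (h : bar a = bar b) : a = b := by
  rw [← bar_bar a, h, bar_bar]

theorem cr_bar (a b : Z2) : cr (bar a) (bar b) = -cr a b := by
  simp only [cr, bar]; ring

theorem cr_nbar (a b : Z2) : cr (-bar a) (bar b) = cr a b := by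
  simp only [cr, bar, Prod.fst_neg, Prod.snd_neg]; ring

theorem cr_nbar2 (a b : Z2) : cr (bar a) (-bar b) = cr a b := by
  simp only [cr, bar, Prod.fst_neg, Prod.snd_neg]; ring

theorem crx_bar (a : Z2) (x : V) : crx (bar a) x = -crx a (brp x) := by
  simp only [crx, bar, brp]; push_cast; ring

theorem brp_em (a : Z2) (x : V) : x = em (bar a) ↔ brp x = em a := by
  obtain ⟨x1, x2⟩ := x
  simp only [em, bar, brp, Prod.mk.injEq]
  push_cast
  constructor
  · rintro ⟨h1, h2⟩; exact ⟨by linarith, h2⟩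
  · rintro ⟨h1, h2⟩; exact ⟨by linarith, h2⟩

theorem nr_brp (x : V) (z : Z2) : Nr x z ↔ Nr (brp x) (-z.1 - 1, z.2) := by
  simp only [Nr, brp]
  push_cast
  constructor
  · rintro ⟨h1, h2, h3, h4⟩
    exact ⟨by linarith, by linarith, h3, h4⟩
  · rintro ⟨h1, h2, h3, h4⟩
    exact ⟨by linarith, by linarith, h3, h4⟩

theorem brp_seg {A B : Z2} {x : V} (hx : x ∈ Seg (bar A) (bar B)) : brp x ∈ Seg A B := by
  obtain ⟨t, h0, h1, rfl⟩ := hx
  refine ⟨t, h0, h1, ?_⟩
  simp only [brp, bar]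
  push_cast
  ext <;> simp only <;> ring

theorem seg_rev {A B : Z2} {x : V} (hx : x ∈ Seg A B) : x ∈ Seg B A := by
  obtain ⟨t, h0, h1, rfl⟩ := hx
  refine ⟨1 - t, by linarith, by linarith, ?_⟩
  ext <;> simp only <;> ring

theorem seg_tr {A B : Z2} (c : Z2) {x : V} (hx : x ∈ Seg A B) :
    x - em c ∈ Seg (A - c) (B - c) := by
  obtain ⟨t, h0, h1, rfl⟩ := hx
  refine ⟨t, h0, h1, ?_⟩
  ext <;> simp only [em, Prod.fst_sub, Prod.snd_sub] <;> push_cast <;> ring

theorem devB {O : PO X} {K L : Set V} {g : Z2 → X} (h : Dev O K g)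
    (hL : ∀ x ∈ L, brp x ∈ K) : Dev O.mir L (brf g) := by
  intro x hx
  obtain ⟨h1, h2⟩ := h _ (hL x hx)
  constructor
  · intro z hz hz'
    rw [nr_brp] at hz hz'
    have e := h1 (-z.1 - 2, z.2)
    have e1 : ((-z.1 - 2, z.2) : Z2) + (1, 0) = (-z.1 - 1, z.2) := by
      ext <;> simp only [Prod.fst_add, Prod.snd_add] <;> ring
    have e2 : ((-(z + (1, 0)).1 - 1, (z + (1, 0)).2) : Z2) = (-z.1 - 2, z.2) := by
      ext <;> simp only [Prod.fst_add, Prod.snd_add] <;> ring
    rw [e1] at e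
    rw [e2] at hz'
    have e3 := e hz' hz
    change g (-(z + (1, 0)).1 - 1, (z + (1, 0)).2) = O.r⁻¹ (g (-z.1 - 1, z.2))
    rw [e2, e3]
    exact (O.r.symm_apply_apply _).symm
  · intro z hz hz'
    rw [nr_brp] at hz hz'
    have e := h2 (-z.1 - 1, z.2)
    have e2 : ((-(z + (0, 1)).1 - 1, (z + (0, 1)).2) : Z2) = (-z.1 - 1, z.2) + (0, 1) := by
      ext <;> simp only [Prod.fst_add, Prod.snd_add] <;> ring
    rw [e2] at hz'
    have e3 := e hz hz'
    change g (-(z + (0, 1)).1 - 1, (z + (0, 1)).2) = O.u (g (-z.1 - 1, z.2))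
    rw [e2, e3]

theorem agreeB {K L : Set V} {f g : Z2 → X} (h : Agree K f g)
    (hL : ∀ x ∈ L, brp x ∈ K) : Agree L (brf f) (brf g) := by
  intro x hx z hz
  exact h _ (hL x hx) _ ((nr_brp x z).1 hz)

theorem brf_sh (c : Z2) (f : Z2 → X) : brf (sh c f) = sh (bar c) (brf f) := by
  funext z
  simp only [brf, sh, bar]
  congr 1
  ext <;> simp only [Prod.fst_sub, Prod.snd_sub] <;> ring

theorem brf_brf (f : Z2 → X) : brf (brf f) = f := by
  funext z
  simp only [brf]
  congr 1
  ext <;> simp only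
  ring

/-- the mirror image of a parallelogram -/
theorem Par.mir {O : PO X} {a b : Z2} {A R T L : Z2 → X} (h : Par O a b A R T L) :
    Par O.mir (-bar a) (bar b) (sh (-bar a) (brf A)) (brf L) (sh (-bar a) (brf T)) (brf R) := by
  obtain ⟨h0, f, h1, h2, h3, h4, h5⟩ := h
  refine ⟨by rw [cr_nbar]; exact h0, sh (-bar a) (brf f), ?_, ?_, ?_, ?_, ?_⟩
  · intro x hx
    refine DevAt.sh ?_
    refine devB (L := {y | brp y ∈ Pgm a b}) h1 (fun y hy => hy) _ ?_
    show brp (x - em (-bar a)) ∈ Pgm a b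
    obtain ⟨g1, g2, g3, g4, g5, g6, g7, g8⟩ := hx
    have e1 : crx (-bar a) x = crx a (brp (x - em (-bar a))) := by
      simp only [crx, brp, em, bar, Prod.fst_sub, Prod.snd_sub, Prod.fst_neg, Prod.snd_neg]
      push_cast
      ring
    have e2 : crx (bar b) x = -crx b (brp (x - em (-bar a))) - cr a b := by
      simp only [crx, cr, brp, em, bar, Prod.fst_sub, Prod.snd_sub, Prod.fst_neg, Prod.snd_neg]
      push_cast
      ring
    rw [e1] at g1 g2
    rw [e2] at g3 g4
    rw [cr_nbar] at g2 g4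
    have pt : ∀ c d : Z2, em c = em (bar d) + em (-bar a) → x ≠ em c →
        brp (x - em (-bar a)) ≠ em d := by
      intro c d hcd hx hd
      apply hx
      rw [← brp_em, sub_eq_iff_eq_add] at hd
      rw [hd, hcd]
    refine ⟨g1, g2, by linarith, by linarith, ?_, ?_, ?_, ?_⟩
    · exact pt (-bar a) 0 (by rw [bar_zero, em_zero, zero_add]) g6
    · exact pt 0 a (by rw [← em_add, add_neg_cancel]) g5
    · exact pt (-bar a + bar b) b (by rw [← em_add, add_comm]) g8
    · refine pt (bar b) (a + b) ?_ g7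
      rw [← em_add, bar_add]
      congr 1
      abel
  · -- lower side
    refine ag_sh (agreeB (L := {y | brp y ∈ Seg 0 a}) h2 (fun y hy => hy)) ?_
    intro x hx
    show brp (x - em (-bar a)) ∈ Seg 0 a
    have h6 := seg_tr (-bar a) hx
    rw [zero_sub, neg_neg, sub_self] at h6
    have h7 := seg_rev h6
    rw [← bar_zero] at h7
    exact brp_seg h7
  · -- right side
    rw [show brf L = brf L from rfl]
    refine ag_sh (agreeB (L := {y | brp y ∈ Seg 0 b}) h5 (fun y hy => hy)) ?_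
    intro x hx
    show brp (x - em (-bar a)) ∈ Seg 0 b
    have h6 := seg_tr (-bar a) hx
    rw [sub_self, add_sub_cancel_left, ← bar_zero] at h6
    exact brp_seg h6
  · -- upper side
    rw [sh_sh, add_comm (bar b) (-bar a), ← sh_sh, ← brf_sh]
    refine ag_sh (agreeB (L := {y | brp y ∈ Seg b (b + a)}) h4 (fun y hy => hy)) ?_
    intro x hx
    show brp (x - em (-bar a)) ∈ Seg b (b + a)
    have h6 := seg_tr (-bar a) hx
    rw [show bar b - -bar a = bar (b + a) by rw [bar_add]; abel,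
      show -bar a + bar b - -bar a = bar b by abel] at h6
    exact brp_seg (seg_rev h6)
  · -- left side
    have e : brf R = sh (-bar a) (brf (sh a R)) := by
      rw [brf_sh, sh_sh, neg_add_cancel, sh_zero]
    rw [e]
    refine ag_sh (agreeB (L := {y | brp y ∈ Seg a (a + b)}) h3 (fun y hy => hy)) ?_
    intro x hx
    show brp (x - em (-bar a)) ∈ Seg a (a + b)
    have h6 := seg_tr (-bar a) hx
    rw [sub_neg_eq_add, sub_neg_eq_add, zero_add, add_comm (bar b), ← bar_add] at h6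
    exact brp_seg h6

/-- the mirror image of a tree -/
def bar6 : C6 → C6
  | (u, v, l, q, m, s) => (-bar u, bar v, bar l, -bar q, bar m, -bar s)

theorem bar6_bar6 (c : C6) : bar6 (bar6 c) = c := by
  obtain ⟨u, v, l, q, m, s⟩ := c
  simp only [bar6, bar_neg, neg_neg, bar_bar]

theorem vol6_bar (c : C6) : vol6 (bar6 c) = vol6 c := by
  obtain ⟨u, v, l, q, m, s⟩ := c
  simp only [bar6, vol6, cr_nbar]

theorem pos6_bar {c : C6} : Pos6 (bar6 c) ↔ Pos6 c := by
  obtain ⟨u, v, l, q, m, s⟩ := c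
  simp only [bar6, Pos6, cr_nbar]

/-- **The mirror image of a tree.** -/
theorem Has6.mir {O : PO X} {c : C6} (h : Has6 O c) : Has6 O.mir (bar6 c) := by
  obtain ⟨u, v, l, q, m, s⟩ := c
  obtain ⟨U0, U1, U2, W, L0, L1, M0, M1, Q, S, h1, h2, h3, h4, h5⟩ := h
  exact ⟨sh (-bar u) (brf U0), sh (-bar u) (brf U1), sh (-bar u) (brf U2), brf W, brf L1, brf L0,
    brf M1, brf M0, sh (-bar q) (brf Q), sh (-bar s) (brf S), h1.mir, h2.mir, h3.mir, h4.mir,
    h5.mir⟩

theorem Has6.mir_iff {O : PO X} {c : C6} : Has6 O.mir (bar6 c) ↔ Has6 O c := by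
  refine ⟨fun h => ?_, Has6.mir⟩
  have := h.mir
  rwa [PO.mir_mir, bar6_bar6] at this

end Pool.Agent.H4G.Six
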