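import Pool.Agent.H4G.Six.Par

/-!
# The generators of `SL₂(ℤ)` act on E6 trees (row G3, helper5)
-/

set_option autoImplicit false

namespace Pool.Agent.H4G.Six

open Pool.Agent.H4G

variable {X : Type}

/-! ## Quarter turn -/

/-- The rotated labelling. -/
def jf (g : Z2 → X) (z : Z2) : X := g (z.2, -z.1 - 1)

/-- The rotated-back point. -/
def jp (x : V) : V := (x.2, -x.1)

theorem nr_jp (x : V) (z : Z2) : Nr x z ↔ Nr (jp x) (z.2, -z.1 - 1) := by
  simp only [Nr, jp]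
  push_cast
  constructor
  · rintro ⟨h1, h2, h3, h4⟩
    exact ⟨h3, h4, by linarith, by linarith⟩
  · rintro ⟨h1, h2, h3, h4⟩
    exact ⟨by linarith, by linarith, h1, h2⟩

theorem jp_seg {A B : Z2} {x : V} (hx : x ∈ Seg (shJ A) (shJ B)) : jp x ∈ Seg A B := by
  obtain ⟨t, h0, h1, rfl⟩ := hx
  refine ⟨t, h0, h1, ?_⟩
  simp only [jp, shJ]
  push_cast
  ext <;> simp only <;> ring

theorem jp_em (A : Z2) (x : V) : x = em (shJ A) ↔ jp x = em A := by
  obtain ⟨x1, x2⟩ := x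
  simp only [em, shJ, jp, Prod.mk.injEq]
  push_cast
  constructor
  · rintro ⟨h1, h2⟩; exact ⟨h2, by linarith⟩
  · rintro ⟨h1, h2⟩; exact ⟨by linarith, h1⟩

theorem jp_crx (a : Z2) (x : V) : crx (shJ a) x = crx a (jp x) := by
  simp only [crx, shJ, jp]; push_cast; ring

theorem cr_J (a b : Z2) : cr (shJ a) (shJ b) = cr a b := by
  simp only [cr, shJ]; ring

theorem shJ_add (a b : Z2) : shJ (a + b) = shJ a + shJ b := by
  ext <;> simp only [shJ, Prod.fst_add, Prod.snd_add] <;> ring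

theorem shJ_zero : shJ 0 = 0 := by simp [shJ]

theorem jp_pgm {a b : Z2} {x : V} (hx : x ∈ Pgm (shJ a) (shJ b)) : jp x ∈ Pgm a b := by
  obtain ⟨h1, h2, h3, h4, h5, h6, h7, h8⟩ := hx
  rw [jp_crx] at h1 h2 h3 h4
  rw [cr_J] at h2 h4
  rw [← shJ_zero, Ne, jp_em] at h5
  rw [Ne, jp_em] at h6 h7
  rw [← shJ_add, Ne, jp_em] at h8
  exact ⟨h1, h2, h3, h4, h5, h6, h7, h8⟩

theorem devJ {O : PO X} {K L : Set V} {g : Z2 → X} (h : Dev O K g)
    (hL : ∀ x ∈ L, jp x ∈ K) : Dev O.J L (jf g) := by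
  intro x hx
  obtain ⟨h1, h2⟩ := h _ (hL x hx)
  constructor
  · intro z hz hz'
    rw [nr_jp] at hz hz'
    have e := h2 (z.2, -z.1 - 2)
    have e1 : ((z.2, -z.1 - 2) : Z2) + (0, 1) = (z.2, -z.1 - 1) := by
      ext <;> simp only [Prod.fst_add, Prod.snd_add] <;> ring
    have e2 : (((z + (1, 0)).2, -(z + (1, 0)).1 - 1) : Z2) = (z.2, -z.1 - 2) := by
      ext <;> simp only [Prod.fst_add, Prod.snd_add] <;> ring
    rw [e1] at e
    rw [e2] at hz'
    have e3 := e hz' hz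
    change g ((z + (1, 0)).2, -(z + (1, 0)).1 - 1) = O.u⁻¹ (g (z.2, -z.1 - 1))
    rw [e2, e3]
    exact (O.u.symm_apply_apply _).symm
  · intro z hz hz'
    rw [nr_jp] at hz hz'
    have e := h1 (z.2, -z.1 - 1)
    have e2 : (((z + (0, 1)).2, -(z + (0, 1)).1 - 1) : Z2) = (z.2, -z.1 - 1) + (1, 0) := by
      ext <;> simp only [Prod.fst_add, Prod.snd_add] <;> ring
    rw [e2] at hz'
    have e3 := e hz hz'
    change g ((z + (0, 1)).2, -(z + (0, 1)).1 - 1) = O.r (g (z.2, -z.1 - 1))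
    rw [e2, e3]

theorem agreeJ {K L : Set V} {f g : Z2 → X} (h : Agree K f g)
    (hL : ∀ x ∈ L, jp x ∈ K) : Agree L (jf f) (jf g) := by
  intro x hx z hz
  exact h _ (hL x hx) _ ((nr_jp x z).1 hz)

theorem jf_sh (c : Z2) (f : Z2 → X) : jf (sh c f) = sh (shJ c) (jf f) := by
  funext z
  simp only [jf, sh, shJ]
  congr 1
  ext <;> simp only [Prod.fst_sub, Prod.snd_sub] <;> ring

theorem Par.J {O : PO X} {a b : Z2} {A R T L : Z2 → X} (h : Par O a b A R T L) :
    Par O.J (shJ a) (shJ b) (jf A) (jf R) (jf T) (jf L) := by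
  obtain ⟨h0, f, h1, h2, h3, h4, h5⟩ := h
  refine ⟨by rw [cr_J]; exact h0, jf f, devJ h1 (fun x hx => jp_pgm hx), ?_, ?_, ?_, ?_⟩
  · refine agreeJ h2 (fun x hx => ?_)
    rw [← shJ_zero] at hx
    exact jp_seg hx
  · rw [← jf_sh]
    refine agreeJ h3 (fun x hx => ?_)
    rw [← shJ_add] at hx
    exact jp_seg hx
  · rw [← jf_sh]
    refine agreeJ h4 (fun x hx => ?_)
    rw [← shJ_add] at hx
    exact jp_seg hx
  · refine agreeJ h5 (fun x hx => ?_)
    rw [← shJ_zero] at hx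
    exact jp_seg hx

/-- the quarter turn of a tree -/
theorem Has6.J {O : PO X} {c : C6} (h : Has6 O c) : Has6 O.J (c.map shJ) := by
  obtain ⟨u, v, l, q, m, s⟩ := c
  obtain ⟨U0, U1, U2, W, L0, L1, M0, M1, Q, S, h1, h2, h3, h4, h5⟩ := h
  exact ⟨jf U0, jf U1, jf U2, jf W, jf L0, jf L1, jf M0, jf M1, jf Q, jf S, h1.J, h2.J, h3.J,
    h4.J, h5.J⟩

/-! ## Shear -/

/-- The sheared-back point. -/
def tpt (x : V) : V := (x.1 - x.2, x.2)

/-- `g'` is the sheared labelling of `g` on the image of `K`. -/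
def TRel (O : PO X) (K : Set V) (g g' : Z2 → X) : Prop :=
  ∀ x : V, tpt x ∈ K → ∀ a b : ℤ, Nr x (a, b) →
    (Nr (tpt x) (a - b, b) → g' (a, b) = g (a - b, b)) ∧
    (Nr (tpt x) (a - b - 1, b) → g' (a, b) = O.r (g (a - b - 1, b)))

theorem nr_tp (x : V) (a b : ℤ) (h : Nr x (a, b)) :
    Nr (tpt x) (a - b, b) ∨ Nr (tpt x) (a - b - 1, b) := by
  obtain ⟨h1, h2, h3, h4⟩ := h
  simp only [Nr, tpt] at *
  push_cast
  rcases le_total ((a : ℝ) - b) (x.1 - x.2) with h | h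
  · left; refine ⟨h, by linarith, h3, h4⟩
  · right; refine ⟨by linarith, by linarith, h3, h4⟩

theorem tp_seg {A B : Z2} {x : V} (hx : x ∈ Seg (shT A) (shT B)) : tpt x ∈ Seg A B := by
  obtain ⟨t, h0, h1, rfl⟩ := hx
  refine ⟨t, h0, h1, ?_⟩
  simp only [tpt, shT]
  push_cast
  ext <;> simp only <;> ring

theorem tp_em (A : Z2) (x : V) : x = em (shT A) ↔ tpt x = em A := by
  obtain ⟨x1, x2⟩ := x
  simp only [em, shT, tpt, Prod.mk.injEq]
  push_cast
  constructor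
  · rintro ⟨h1, h2⟩; exact ⟨by linarith, h2⟩
  · rintro ⟨h1, h2⟩; exact ⟨by linarith, h2⟩

theorem tp_crx (a : Z2) (x : V) : crx (shT a) x = crx a (tpt x) := by
  simp only [crx, shT, tpt]; push_cast; ring

theorem cr_T (a b : Z2) : cr (shT a) (shT b) = cr a b := by
  simp only [cr, shT]; ring

theorem shT_add (a b : Z2) : shT (a + b) = shT a + shT b := by
  ext <;> simp only [shT, Prod.fst_add, Prod.snd_add] <;> ring

theorem shT_zero : shT 0 = 0 := by simp [shT]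

theorem tp_pgm {a b : Z2} {x : V} (hx : x ∈ Pgm (shT a) (shT b)) : tpt x ∈ Pgm a b := by
  obtain ⟨h1, h2, h3, h4, h5, h6, h7, h8⟩ := hx
  rw [tp_crx] at h1 h2 h3 h4
  rw [cr_T] at h2 h4
  rw [← shT_zero, Ne, tp_em] at h5
  rw [Ne, tp_em] at h6 h7
  rw [← shT_add, Ne, tp_em] at h8
  exact ⟨h1, h2, h3, h4, h5, h6, h7, h8⟩

theorem tp_sub (x : V) (c : Z2) : tpt (x - em (shT c)) = tpt x - em c := by
  ext <;> simp only [tpt, em, shT, Prod.fst_sub, Prod.snd_sub] <;> push_cast <;> ring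

theorem cvx_seg (A B : Z2) : Cvx (Seg A B) := by
  rintro x ⟨s, hs0, hs1, rfl⟩ y ⟨s', hs0', hs1', rfl⟩ t h0 h1
  refine ⟨(1 - t) * s + t * s', ?_, ?_, ?_⟩
  · rcases h0.lt_or_eq with h | h
    · have := mul_pos h hs0'
      have := mul_nonneg (sub_nonneg.2 h1) hs0.le
      linarith
    · subst h; linarith
  · rcases h0.lt_or_eq with h | h
    · have := mul_pos h (sub_pos.2 hs1')
      have := mul_nonneg (sub_nonneg.2 h1) (sub_nonneg.2 hs1.le)
      nlinarith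
    · subst h; linarith
  · ext <;> simp only <;> ring

/-- two vectors with positive product determine a point -/
theorem crx_inj {a b : Z2} (h : 0 < cr a b) {x y : V} (h1 : crx a x = crx a y)
    (h2 : crx b x = crx b y) : x = y := by
  have h' : (0 : ℝ) < (a.1 : ℝ) * b.2 - (a.2 : ℝ) * b.1 := by
    have : (0 : ℝ) < ((cr a b : ℤ) : ℝ) := by exact_mod_cast h
    simp only [cr] at this
    push_cast at this
    exact this
  obtain ⟨x1, x2⟩ := x
  obtain ⟨y1, y2⟩ := y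
  simp only [crx] at h1 h2
  have e1 : ((a.1 : ℝ) * b.2 - (a.2 : ℝ) * b.1) * (x1 - y1) = 0 := by
    linear_combination (b.1 : ℝ) * h1 - (a.1 : ℝ) * h2
  have e2 : ((a.1 : ℝ) * b.2 - (a.2 : ℝ) * b.1) * (x2 - y2) = 0 := by
    linear_combination (b.2 : ℝ) * h1 - (a.2 : ℝ) * h2
  have f1 := (mul_eq_zero.1 e1).resolve_left h'.ne'
  have f2 := (mul_eq_zero.1 e2).resolve_left h'.ne'
  simp only [Prod.mk.injEq]
  exact ⟨by linarith, by linarith⟩

/-- a corner is not in the middle of a segment -/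
private theorem comb_ne5 {a b : Z2} (h : 0 < cr a b) {P x y : V}
    (ha : (crx a P ≤ crx a x ∧ crx a P ≤ crx a y) ∨ (crx a x ≤ crx a P ∧ crx a y ≤ crx a P))
    (hb : (crx b P ≤ crx b x ∧ crx b P ≤ crx b y) ∨ (crx b x ≤ crx b P ∧ crx b y ≤ crx b P))
    (hx : x ≠ P) (hy : y ≠ P) {t : ℝ} (h0 : 0 ≤ t) (h1 : t ≤ 1) :
    (((1 - t) * x.1 + t * y.1, (1 - t) * x.2 + t * y.2) : V) ≠ P := by
  intro he
  rcases h0.lt_or_eq with h0' | h0'
  · apply hy
    have key : ∀ c : Z2, ((crx c P ≤ crx c x ∧ crx c P ≤ crx c y) ∨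
        (crx c x ≤ crx c P ∧ crx c y ≤ crx c P)) → crx c y = crx c P := by
      intro c hc
      have a1 := crx_comb c x y t
      rw [he] at a1
      have a2 : (1 - t) * (crx c x - crx c P) + t * (crx c y - crx c P) = 0 := by
        linarith
      rcases hc with ⟨c1, c2⟩ | ⟨c1, c2⟩
      · have d1 := mul_nonneg (sub_nonneg.2 h1) (sub_nonneg.2 c1)
        have d2 := mul_nonneg h0'.le (sub_nonneg.2 c2)
        have d3 : t * (crx c y - crx c P) = 0 := by linarith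
        have := (mul_eq_zero.1 d3).resolve_left h0'.ne'
        linarith
      · have d1 := mul_nonneg (sub_nonneg.2 h1) (sub_nonneg.2 c1)
        have d2 := mul_nonneg h0'.le (sub_nonneg.2 c2)
        have d3 : t * (crx c y - crx c P) = 0 := by linarith
        have := (mul_eq_zero.1 d3).resolve_left h0'.ne'
        linarith
    exact crx_inj h (key a ha) (key b hb)
  · apply hx
    rw [← he, ← h0']
    ext <;> simp only <;> ring

private theorem cvx_pgm5 {a b : Z2} (h : 0 < cr a b) : Cvx (Pgm a b) := by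
  have sw : (cr b a : ℤ) = -cr a b := by simp only [cr]; ring
  have sa : (cr a a : ℤ) = 0 := by simp only [cr]; ring
  have sb : (cr b b : ℤ) = 0 := by simp only [cr]; ring
  have p0 : ∀ c : Z2, crx c (em 0) = 0 := fun c => by rw [crx_em]; simp [cr]
  have pa : crx a (em a) = 0 := by rw [crx_em, sa]; simp
  have pb : crx b (em a) = -(cr a b : ℝ) := by rw [crx_em, sw]; push_cast; ring
  have qa : crx a (em b) = (cr a b : ℝ) := crx_em _ _
  have qb : crx b (em b) = 0 := by rw [crx_em, sb]; simp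
  have ra : crx a (em (a + b)) = (cr a b : ℝ) := by
    rw [crx_em, show (cr a (a + b) : ℤ) = cr a b by
      simp only [cr, Prod.fst_add, Prod.snd_add]; ring]
  have rb : crx b (em (a + b)) = -(cr a b : ℝ) := by
    rw [crx_em, show (cr b (a + b) : ℤ) = -cr a b by
      simp only [cr, Prod.fst_add, Prod.snd_add]; ring]
    push_cast; ring
  rintro x ⟨x1, x2, x3, x4, x5, x6, x7, x8⟩ y ⟨y1, y2, y3, y4, y5, y6, y7, y8⟩ t h0 h1
  have h1' : 0 ≤ 1 - t := sub_nonneg.2 h1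
  refine ⟨?_, ?_, ?_, ?_, ?_, ?_, ?_, ?_⟩
  · rw [crx_comb]
    exact add_nonneg (mul_nonneg h1' x1) (mul_nonneg h0 y1)
  · rw [crx_comb]
    nlinarith [mul_le_mul_of_nonneg_left x2 h1', mul_le_mul_of_nonneg_left y2 h0]
  · rw [crx_comb]
    nlinarith [mul_le_mul_of_nonneg_left x3 h1', mul_le_mul_of_nonneg_left y3 h0]
  · rw [crx_comb]
    nlinarith [mul_le_mul_of_nonneg_left x4 h1', mul_le_mul_of_nonneg_left y4 h0]
  · exact comb_ne5 h (Or.inl ⟨by rw [p0]; exact x1, by rw [p0]; exact y1⟩)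
      (Or.inr ⟨by rw [p0]; exact x3, by rw [p0]; exact y3⟩) x5 y5 h0 h1
  · exact comb_ne5 h (Or.inl ⟨by rw [pa]; exact x1, by rw [pa]; exact y1⟩)
      (Or.inl ⟨by rw [pb]; exact x4, by rw [pb]; exact y4⟩) x6 y6 h0 h1
  · exact comb_ne5 h (Or.inr ⟨by rw [qa]; exact x2, by rw [qa]; exact y2⟩)
      (Or.inr ⟨by rw [qb]; exact x3, by rw [qb]; exact y3⟩) x7 y7 h0 h1
  · exact comb_ne5 h (Or.inr ⟨by rw [ra]; exact x2, by rw [ra]; exact y2⟩)
      (Or.inl ⟨by rw [rb]; exact x4, by rw [rb]; exact y4⟩) x8 y8 h0 h1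

/-- Existence of the sheared labelling. -/
theorem exists_trel {O : PO X} {K : Set V} (hK : Cvx K) {g : Z2 → X} (hg : Dev O K g) :
    ∃ g' : Z2 → X, TRel O K g g' := by
  classical
  refine ⟨fun z => if ∃ x ∈ K, Nr x (z.1 - z.2, z.2) then g (z.1 - z.2, z.2)
    else O.r (g (z.1 - z.2 - 1, z.2)), ?_⟩
  intro x hx a b hz
  constructor
  · intro h
    have : ∃ y ∈ K, Nr y (a - b, b) := ⟨_, hx, h⟩
    simp only [this, if_true]
  · intro h
    simp only
    split_ifs with hy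
    · obtain ⟨y, hy, hn⟩ := hy
      -- the segment from `tpt x` to `y` crosses the line `a - b`
      obtain ⟨p1, p2, p3, p4⟩ := h
      obtain ⟨q1, q2, q3, q4⟩ := hn
      simp only at p1 p2 p3 p4 q1 q2 q3 q4
      push_cast at p1 p2 q1 q2
      have hle : (tpt x).1 ≤ (a : ℝ) - b := by linarith
      obtain ⟨t, t0, t1, ht⟩ : ∃ t : ℝ, 0 ≤ t ∧ t ≤ 1 ∧
          (1 - t) * (tpt x).1 + t * y.1 = (a : ℝ) - b := by
        rcases hle.lt_or_eq with h | h
        · have hd : 0 < y.1 - (tpt x).1 := by linarith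
          refine ⟨((a : ℝ) - b - (tpt x).1) / (y.1 - (tpt x).1), by
            apply div_nonneg <;> linarith, by rw [div_le_one hd]; linarith, ?_⟩
          field_simp
          ring
        · exact ⟨0, le_refl _, zero_le_one, by rw [h]; ring⟩
      have hw := hK _ hx _ hy t t0 t1
      rw [ht] at hw
      have := (hg _ hw).1 (a - b - 1, b)
      have e : ((a - b - 1, b) : Z2) + (1, 0) = (a - b, b) := by
        ext <;> simp only [Prod.fst_add, Prod.snd_add] <;> ring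
      rw [e] at this
      have l3 : (b : ℝ) ≤ (1 - t) * (tpt x).2 + t * y.2 := by
        nlinarith [mul_nonneg (sub_nonneg.2 t1) (sub_nonneg.2 p3),
          mul_nonneg t0 (sub_nonneg.2 q3)]
      have l4 : (1 - t) * (tpt x).2 + t * y.2 ≤ (b : ℝ) + 1 := by
        nlinarith [mul_nonneg (sub_nonneg.2 t1) (sub_nonneg.2 p4),
          mul_nonneg t0 (sub_nonneg.2 q4)]
      apply this
      · refine ⟨?_, ?_, l3, l4⟩ <;> simp only <;> push_cast <;> linarith
      · refine ⟨?_, ?_, l3, l4⟩ <;> simp only <;> push_cast <;> linarith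
    · rfl

theorem TRel.mono {O : PO X} {K L : Set V} {g g' : Z2 → X} (h : TRel O K g g')
    (hL : L ⊆ K) : TRel O L g g' := fun x hx => h x (hL hx)

theorem devT {O : PO X} {K L : Set V} {g g' : Z2 → X} (h : Dev O K g)
    (hr : TRel O K g g') (hL : ∀ x ∈ L, tpt x ∈ K) : Dev O.T L g' := by
  intro x hx
  obtain ⟨h1, h2⟩ := h _ (hL x hx)
  have hr := hr x (hL x hx)
  constructor
  · rintro ⟨a, b⟩ hz hz'
    have e : ((a, b) : Z2) + (1, 0) = (a + 1, b) := by
      ext <;> simp only [Prod.fst_add, Prod.snd_add] <;> ring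
    rw [e] at hz' ⊢
    obtain ⟨p1, p2, p3, p4⟩ := id hz
    obtain ⟨q1, q2, q3, q4⟩ := id hz'
    simp only at p1 p2 p3 p4 q1 q2 q3 q4
    push_cast at p1 p2 p3 p4 q1 q2 q3 q4
    have n1 : Nr (tpt x) (a - b, b) := by
      refine ⟨?_, ?_, p3, p4⟩ <;> simp only [tpt] <;> push_cast <;> linarith
    have r1 := (hr a b hz).1 n1
    have r2 := (hr (a + 1) b hz').2 (by
      have : a + 1 - b - 1 = a - b := by ring
      rw [this]; exact n1)
    have e2 : a + 1 - b - 1 = a - b := by ring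
    rw [e2] at r2
    rw [r1, r2]
    rfl
  · rintro ⟨a, b⟩ hz hz'
    have e : ((a, b) : Z2) + (0, 1) = (a, b + 1) := by
      ext <;> simp only [Prod.fst_add, Prod.snd_add] <;> ring
    rw [e] at hz' ⊢
    obtain ⟨p1, p2, p3, p4⟩ := id hz
    obtain ⟨q1, q2, q3, q4⟩ := id hz'
    simp only at p1 p2 p3 p4 q1 q2 q3 q4
    push_cast at p1 p2 p3 p4 q1 q2 q3 q4
    have n1 : Nr (tpt x) (a - b - 1, b) := by
      refine ⟨?_, ?_, p3, p4⟩ <;> simp only [tpt] <;> push_cast <;> linarith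
    have n2 : Nr (tpt x) (a - (b + 1), b + 1) := by
      refine ⟨?_, ?_, ?_, ?_⟩ <;> simp only [tpt] <;> push_cast <;> linarith
    have r1 := (hr a b hz).2 n1
    have r2 := (hr a (b + 1) hz').1 n2
    have e2 : a - (b + 1) = a - b - 1 := by ring
    rw [e2] at r2 n2
    have e3 : ((a - b - 1, b) : Z2) + (0, 1) = (a - b - 1, b + 1) := by
      ext <;> simp only [Prod.fst_add, Prod.snd_add] <;> ring
    have h3 := h2 (a - b - 1, b) n1 (by rw [e3]; exact n2)
    rw [e3] at h3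
    rw [r1, r2, h3]
    change O.u (g (a - b - 1, b)) = O.u (O.r.symm (O.r (g (a - b - 1, b))))
    rw [O.r.symm_apply_apply]

theorem agreeT {O : PO X} {K L : Set V} {f f' g g' : Z2 → X} (h : Agree K f g)
    (hf : TRel O K f f') (hg : TRel O K g g') (hL : ∀ x ∈ L, tpt x ∈ K) : Agree L f' g' := by
  rintro x hx ⟨a, b⟩ hz
  rcases nr_tp x a b hz with hn | hn
  · rw [(hf x (hL x hx) a b hz).1 hn, (hg x (hL x hx) a b hz).1 hn, h _ (hL x hx) _ hn]
  · rw [(hf x (hL x hx) a b hz).2 hn, (hg x (hL x hx) a b hz).2 hn, h _ (hL x hx) _ hn]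

/-- the sheared labelling of a shifted function -/
theorem TRel.sh {O : PO X} {K L : Set V} {g g' : Z2 → X} (h : TRel O K g g') {c : Z2}
    (hL : ∀ x ∈ L, x - em c ∈ K) : TRel O L (sh c g) (sh (shT c) g') := by
  intro x hx a b hz
  have h1 : tpt (x - em (shT c)) ∈ K := by rw [tp_sub]; exact hL _ hx
  have h2 : Nr (x - em (shT c)) ((a, b) - shT c) := (nr_sub x (a, b) (shT c)).2 hz
  have e1 : ((a, b) : Z2) - shT c = (a - (c.1 + c.2), b - c.2) := rfl
  rw [e1] at h2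
  obtain ⟨h3, h4⟩ := h _ h1 _ _ h2
  have e2 : ((a - (c.1 + c.2) - (b - c.2), b - c.2) : Z2) = (a - b, b) - c := by
    ext <;> simp only [Prod.fst_sub, Prod.snd_sub] <;> ring
  have e3 : ((a - (c.1 + c.2) - (b - c.2) - 1, b - c.2) : Z2) = (a - b - 1, b) - c := by
    ext <;> simp only [Prod.fst_sub, Prod.snd_sub] <;> ring
  rw [e2, tp_sub] at h3
  rw [e3, tp_sub] at h4
  constructor
  · intro hn
    exact h3 ((nr_sub (tpt x) (a - b, b) c).2 hn)
  · intro hn
    exact h4 ((nr_sub (tpt x) (a - b - 1, b) c).2 hn)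

/-! ## Segments in a parallelogram -/

theorem mem_seg_add (c a : Z2) {x : V} (hx : x ∈ Seg c (c + a)) : x - em c ∈ Seg 0 a := by
  obtain ⟨t, h0, h1, rfl⟩ := hx
  refine ⟨t, h0, h1, ?_⟩
  ext <;> simp only [em, Prod.fst_sub, Prod.snd_sub, Prod.fst_add, Prod.snd_add, Prod.fst_zero,
    Prod.snd_zero] <;> push_cast <;> ring

/-- a point with given coordinates -/
theorem mem_pgm {a b : Z2} (h : 0 < cr a b) {x : V} {s t : ℝ}
    (hx : x = (s * a.1 + t * b.1, s * a.2 + t * b.2)) (s0 : 0 ≤ s) (s1 : s ≤ 1) (t0 : 0 ≤ t)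
    (t1 : t ≤ 1) (hn : (0 < s ∧ s < 1) ∨ (0 < t ∧ t < 1)) : x ∈ Pgm a b := by
  have h' : (0 : ℝ) < ((cr a b : ℤ) : ℝ) := by exact_mod_cast h
  have ea : crx a x = t * (cr a b : ℝ) := by
    rw [hx]; simp only [crx, cr]; push_cast; ring
  have eb : crx b x = -(s * (cr a b : ℝ)) := by
    rw [hx]; simp only [crx, cr]; push_cast; ring
  have key : ∀ c : Z2, x = em c → (t * (cr a b : ℝ) = (cr a c : ℝ) ∧
      -(s * (cr a b : ℝ)) = (cr b c : ℝ)) := by
    intro c hc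
    constructor
    · rw [← ea, hc, crx_em]
    · rw [← eb, hc, crx_em]
  have sw : (cr b a : ℤ) = -cr a b := by simp only [cr]; ring
  have sa : (cr a a : ℤ) = 0 := by simp only [cr]; ring
  have sb : (cr b b : ℤ) = 0 := by simp only [cr]; ring
  have sab : (cr a (a + b) : ℤ) = cr a b := by
    simp only [cr, Prod.fst_add, Prod.snd_add]; ring
  have sba : (cr b (a + b) : ℤ) = -cr a b := by
    simp only [cr, Prod.fst_add, Prod.snd_add]; ring
  have c0 : ∀ a : Z2, (cr a 0 : ℤ) = 0 := fun a => by simp [cr]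
  have fin : ∀ σ τ : ℝ, (σ = 0 ∨ σ = 1) → (τ = 0 ∨ τ = 1) →
      t * (cr a b : ℝ) = τ * (cr a b : ℝ) → -(s * (cr a b : ℝ)) = -(σ * (cr a b : ℝ)) →
      False := by
    intro σ τ hσ hτ e1 e2
    have e3 : t = τ := mul_right_cancel₀ h'.ne' e1
    have e4 : s = σ := mul_right_cancel₀ h'.ne' (neg_injective e2)
    rcases hn with ⟨n1, n2⟩ | ⟨n1, n2⟩
    · rcases hσ with h | h <;> rw [e4, h] at n1 n2 <;> linarith
    · rcases hτ with h | h <;> rw [e3, h] at n1 n2 <;> linarith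
  refine ⟨?_, ?_, ?_, ?_, ?_, ?_, ?_, ?_⟩
  · rw [ea]; exact mul_nonneg t0 h'.le
  · rw [ea]; nlinarith
  · rw [eb]; nlinarith [mul_nonneg s0 h'.le]
  · rw [eb]; nlinarith
  · intro hc
    obtain ⟨k1, k2⟩ := key 0 hc
    rw [c0] at k1 k2
    exact fin 0 0 (Or.inl rfl) (Or.inl rfl) (by rw [k1]; simp) (by rw [k2]; simp)
  · intro hc
    obtain ⟨k1, k2⟩ := key a hc
    rw [sa] at k1
    rw [sw] at k2
    exact fin 1 0 (Or.inr rfl) (Or.inl rfl) (by rw [k1]; simp) (by rw [k2]; push_cast; ring)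
  · intro hc
    obtain ⟨k1, k2⟩ := key b hc
    rw [sb] at k2
    exact fin 0 1 (Or.inl rfl) (Or.inr rfl) (by rw [k1]; ring) (by rw [k2]; simp)
  · intro hc
    obtain ⟨k1, k2⟩ := key (a + b) hc
    rw [sab] at k1
    rw [sba] at k2
    exact fin 1 1 (Or.inr rfl) (Or.inr rfl) (by rw [k1]; ring) (by rw [k2]; push_cast; ring)

private theorem seg_low5 {a b : Z2} (h : 0 < cr a b) : Seg 0 a ⊆ Pgm a b := by
  rintro x ⟨t, h0, h1, rfl⟩
  exact mem_pgm h (s := t) (t := 0) (by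
    ext <;> simp only [Prod.fst_zero, Prod.snd_zero] <;> push_cast <;> ring) h0.le h1.le le_rfl
    zero_le_one (Or.inl ⟨h0, h1⟩)

private theorem seg_left5 {a b : Z2} (h : 0 < cr a b) : Seg 0 b ⊆ Pgm a b := by
  rintro x ⟨t, h0, h1, rfl⟩
  exact mem_pgm h (s := 0) (t := t) (by
    ext <;> simp only [Prod.fst_zero, Prod.snd_zero] <;> push_cast <;> ring) le_rfl zero_le_one
    h0.le h1.le (Or.inr ⟨h0, h1⟩)

private theorem seg_right5 {a b : Z2} (h : 0 < cr a b) : Seg a (a + b) ⊆ Pgm a b := by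
  rintro x ⟨t, h0, h1, rfl⟩
  exact mem_pgm h (s := 1) (t := t) (by
    ext <;> simp only [Prod.fst_add, Prod.snd_add] <;> push_cast <;> ring) zero_le_one le_rfl
    h0.le h1.le (Or.inr ⟨h0, h1⟩)

private theorem seg_up5 {a b : Z2} (h : 0 < cr a b) : Seg b (b + a) ⊆ Pgm a b := by
  rintro x ⟨t, h0, h1, rfl⟩
  exact mem_pgm h (s := t) (t := 1) (by
    ext <;> simp only [Prod.fst_add, Prod.snd_add] <;> push_cast <;> ring) h0.le h1.le
    zero_le_one le_rfl (Or.inl ⟨h0, h1⟩)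

theorem Dev.congr {O : PO X} {K : Set V} {f g : Z2 → X} (h : Dev O K f) (hfg : Agree K f g) :
    Dev O K g := fun x hx => (h x hx).congr (fun z hz => (hfg x hx z hz).symm)

theorem Dev.mono {O : PO X} {K L : Set V} {f : Z2 → X} (h : Dev O K f) (hL : L ⊆ K) :
    Dev O L f := fun x hx => h x (hL hx)

/-- the lower germ is developed -/
theorem Par.devA {O : PO X} {a b : Z2} {A R T L : Z2 → X} (h : Par O a b A R T L) :
    Dev O (Seg 0 a) A := by
  obtain ⟨h0, f, h1, h2, h3, h4, h5⟩ := h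
  exact (h1.mono (seg_low5 h0)).congr h2

/-- the left germ is developed -/
theorem Par.devL {O : PO X} {a b : Z2} {A R T L : Z2 → X} (h : Par O a b A R T L) :
    Dev O (Seg 0 b) L := by
  obtain ⟨h0, f, h1, h2, h3, h4, h5⟩ := h
  exact (h1.mono (seg_left5 h0)).congr h5

/-- the right germ is developed -/
theorem Par.devR {O : PO X} {a b : Z2} {A R T L : Z2 → X} (h : Par O a b A R T L) :
    Dev O (Seg 0 b) R := by
  obtain ⟨h0, f, h1, h2, h3, h4, h5⟩ := h
  have h6 := (h1.mono (seg_right5 h0)).congr h3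
  intro x hx
  have h7 : x + em a ∈ Seg a (a + b) := by
    obtain ⟨t, k0, k1, rfl⟩ := hx
    refine ⟨t, k0, k1, ?_⟩
    ext <;> simp only [em, Prod.fst_add, Prod.snd_add, Prod.fst_zero, Prod.snd_zero] <;>
      push_cast <;> ring
  have h8 := h6 _ h7
  have e1 : Six.sh (-a) (Six.sh a R) = R := by rw [sh_sh]; simp [sh_zero]
  have h10 : DevAt O x (Six.sh (-a) (Six.sh a R)) := by
    apply DevAt.sh
    have e2 : x - em (-a) = x + em a := by
      ext <;> simp only [em, Prod.fst_sub, Prod.snd_sub, Prod.fst_add, Prod.snd_add, Prod.fst_neg,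
        Prod.snd_neg] <;> push_cast <;> ring
    rw [e2]
    exact h8
  rwa [e1] at h10

/-- the upper germ is developed -/
theorem Par.devT {O : PO X} {a b : Z2} {A R T L : Z2 → X} (h : Par O a b A R T L) :
    Dev O (Seg 0 a) T := by
  obtain ⟨h0, f, h1, h2, h3, h4, h5⟩ := h
  have h6 := (h1.mono (seg_up5 h0)).congr h4
  intro x hx
  have h7 : x + em b ∈ Seg b (b + a) := by
    obtain ⟨t, k0, k1, rfl⟩ := hx
    refine ⟨t, k0, k1, ?_⟩
    ext <;> simp only [em, Prod.fst_add, Prod.snd_add, Prod.fst_zero, Prod.snd_zero] <;>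
      push_cast <;> ring
  have h8 := h6 _ h7
  have e1 : Six.sh (-b) (Six.sh b T) = T := by rw [sh_sh]; simp [sh_zero]
  have h10 : DevAt O x (Six.sh (-b) (Six.sh b T)) := by
    apply DevAt.sh
    have e2 : x - em (-b) = x + em b := by
      ext <;> simp only [em, Prod.fst_sub, Prod.snd_sub, Prod.fst_add, Prod.snd_add, Prod.fst_neg,
        Prod.snd_neg] <;> push_cast <;> ring
    rw [e2]
    exact h8
  rwa [e1] at h10

/-- the shear of a parallelogram -/
theorem Par.T {O : PO X} {a b : Z2} {A R T L A' R' T' L' : Z2 → X} (h : Par O a b A R T L)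
    (hA : TRel O (Seg 0 a) A A') (hR : TRel O (Seg 0 b) R R') (hT : TRel O (Seg 0 a) T T')
    (hL : TRel O (Seg 0 b) L L') : Par O.T (shT a) (shT b) A' R' T' L' := by
  obtain ⟨h0, f, h1, h2, h3, h4, h5⟩ := h
  obtain ⟨f', hf⟩ := exists_trel (cvx_pgm5 h0) h1
  refine ⟨by rw [cr_T]; exact h0, f', Six.devT h1 hf (fun x hx => tp_pgm hx), ?_, ?_, ?_, ?_⟩
  · refine agreeT h2 (hf.mono (seg_low5 h0)) hA (fun x hx => ?_)
    rw [← shT_zero] at hx
    exact tp_seg hx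
  · refine agreeT h3 (hf.mono (seg_right5 h0)) (hR.sh (fun x hx => mem_seg_add a b hx))
      (fun x hx => ?_)
    rw [← shT_add] at hx
    exact tp_seg hx
  · refine agreeT h4 (hf.mono (seg_up5 h0)) (hT.sh (fun x hx => mem_seg_add b a hx))
      (fun x hx => ?_)
    rw [← shT_add] at hx
    exact tp_seg hx
  · refine agreeT h5 (hf.mono (seg_left5 h0)) hL (fun x hx => ?_)
    rw [← shT_zero] at hx
    exact tp_seg hx

/-- the shear of a tree -/
theorem Has6.T {O : PO X} {c : C6} (h : Has6 O c) : Has6 O.T (c.map shT) := by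
  obtain ⟨u, v, l, q, m, s⟩ := c
  obtain ⟨U0, U1, U2, W, L0, L1, M0, M1, Q, S, h1, h2, h3, h4, h5⟩ := h
  obtain ⟨U0', k0⟩ := exists_trel (cvx_seg 0 u) h1.devA
  obtain ⟨U1', k1⟩ := exists_trel (cvx_seg 0 u) h2.devA
  obtain ⟨U2', k2⟩ := exists_trel (cvx_seg 0 u) h3.devA
  obtain ⟨W', k3⟩ := exists_trel (cvx_seg 0 v) h1.devL
  obtain ⟨L0', k4⟩ := exists_trel (cvx_seg 0 l) h2.devL
  obtain ⟨L1', k5⟩ := exists_trel (cvx_seg 0 l) h2.devR
  obtain ⟨M0', k6⟩ := exists_trel (cvx_seg 0 m) h3.devL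
  obtain ⟨M1', k7⟩ := exists_trel (cvx_seg 0 m) h3.devR
  obtain ⟨Q', k8⟩ := exists_trel (cvx_seg 0 q) h4.devA
  obtain ⟨S', k9⟩ := exists_trel (cvx_seg 0 s) h5.devA
  exact ⟨U0', U1', U2', W', L0', L1', M0', M1', Q', S', h1.T k0 k3 k1 k3, h2.T k1 k5 k2 k4,
    h3.T k2 k7 k0 k6, h4.T k8 k4 k8 k5, h5.T k9 k6 k9 k7⟩

/-! ## Isomorphisms -/

theorem Par.iso {X' : Type} {O : PO X} {O' : PO X'} {e : X ≃ X'} (he : Iso6 O O' e) {a b : Z2}
    {A R T L : Z2 → X} (h : Par O a b A R T L) :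
    Par O' a b (e ∘ A) (e ∘ R) (e ∘ T) (e ∘ L) := by
  obtain ⟨h0, f, h1, h2, h3, h4, h5⟩ := h
  have key : ∀ (K : Set V) (f g : Z2 → X), Agree K f g → Agree K (e ∘ f) (e ∘ g) := by
    intro K f g h x hx z hz
    exact congrArg e (h x hx z hz)
  refine ⟨h0, e ∘ f, ?_, key _ _ _ h2, key _ _ _ h3, key _ _ _ h4, key _ _ _ h5⟩
  intro x hx
  obtain ⟨k1, k2⟩ := h1 x hx
  constructor
  · intro z hz hz'
    simp only [Function.comp]
    rw [k1 z hz hz', he.r]
  · intro z hz hz'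
    simp only [Function.comp]
    rw [k2 z hz hz', he.u]

theorem Has6.iso {X' : Type} {O : PO X} {O' : PO X'} {e : X ≃ X'} (he : Iso6 O O' e) {c : C6}
    (h : Has6 O c) : Has6 O' c := by
  obtain ⟨u, v, l, q, m, s⟩ := c
  obtain ⟨U0, U1, U2, W, L0, L1, M0, M1, Q, S, h1, h2, h3, h4, h5⟩ := h
  exact ⟨e ∘ U0, e ∘ U1, e ∘ U2, e ∘ W, e ∘ L0, e ∘ L1, e ∘ M0, e ∘ M1, e ∘ Q, e ∘ S,
    h1.iso he, h2.iso he, h3.iso he, h4.iso he, h5.iso he⟩

/-! ## Words -/

private theorem sleR (O : PO X) : SLE6 O O := Relation.EqvGen.refl _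

private theorem sle2 {O O' O'' : PO X} (h : SLE6 O O') (h' : SLE6 O' O'') : SLE6 O O'' :=
  Relation.EqvGen.trans _ _ _ h h'

theorem sle_T (O : PO X) : SLE6 O O.T := Relation.EqvGen.rel _ _ (Step6.T O)

theorem sle_J (O : PO X) : SLE6 O O.J := Relation.EqvGen.rel _ _ (Step6.J O)

theorem C6.map_map (φ ψ : Z2 → Z2) (c : C6) :
    H4G.C6.map φ (H4G.C6.map ψ c) = H4G.C6.map (fun x => φ (ψ x)) c := by
  obtain ⟨u, v, l, q, m, s⟩ := c
  rfl

theorem C6.map_id' {φ : Z2 → Z2} (h : ∀ x, φ x = x) (c : C6) : H4G.C6.map φ c = c := by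
  obtain ⟨u, v, l, q, m, s⟩ := c
  simp only [H4G.C6.map, h]

/-- the inverse of the quarter turn -/
theorem Has6.Ji {O : PO X} {c : C6} (h : Has6 O (c.map shJ)) :
    ∃ O' : PO X, SLE6 O O' ∧ Has6 O' c := by
  refine ⟨O.J.J.J, sle2 (sle2 (sle_J _) (sle_J _)) (sle_J _), ?_⟩
  have h1 := h.J.J.J
  rw [C6.map_map, C6.map_map, C6.map_map, C6.map_id'] at h1
  · exact h1
  · intro x
    simp only [shJ]
    ext <;> simp

/-- the inverse of the shear -/
theorem Has6.Ti {O : PO X} {c : C6} (h : Has6 O (c.map shT)) :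
    ∃ O' : PO X, SLE6 O O' ∧ Has6 O' c := by
  refine ⟨O.J.T.J.T.J.J.J, sle2 (sle2 (sle2 (sle2 (sle2 (sle2 (sle_J _) (sle_T _)) (sle_J _))
    (sle_T _)) (sle_J _)) (sle_J _)) (sle_J _), ?_⟩
  have h1 := h.J.T.J.T.J.J.J
  rw [C6.map_map, C6.map_map, C6.map_map, C6.map_map, C6.map_map, C6.map_map, C6.map_map,
    C6.map_id'] at h1
  · exact h1
  · intro x
    simp only [shJ, shT]
    ext <;> simp

/-- equivalent trees are trees of origamis in the same orbit, from the moves inside a surface -/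
theorem Has6.orb_of (hmv : ∀ (O : PO X) (c c' : C6), Pos6 c → Has6 O c → Mv6 c c' →
      (Has6 O c' ∨ c' = c.map shT ∨ c' = c.map shJ))
    (hmv' : ∀ (O : PO X) (c c' : C6), Pos6 c → Has6 O c' → Mv6 c c' →
      (Has6 O c ∨ c' = c.map shT ∨ c' = c.map shJ)) {c c' : C6} (h : CEq6 c c') :
    (∀ O : PO X, Has6 O c → ∃ O' : PO X, SLE6 O O' ∧ Has6 O' c') ∧
    (∀ O : PO X, Has6 O c' → ∃ O' : PO X, SLE6 O O' ∧ Has6 O' c) := by
  induction h with
  | rel x y h =>
    obtain ⟨hp, hm⟩ := h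
    constructor
    · intro O hO
      rcases hmv O x y hp hO hm with h1 | rfl | rfl
      · exact ⟨O, sleR O, h1⟩
      · exact ⟨O.T, sle_T O, hO.T⟩
      · exact ⟨O.J, sle_J O, hO.J⟩
    · intro O hO
      rcases hmv' O x y hp hO hm with h1 | rfl | rfl
      · exact ⟨O, sleR O, h1⟩
      · exact hO.Ti
      · exact hO.Ji
  | refl x => exact ⟨fun O hO => ⟨O, sleR O, hO⟩, fun O hO => ⟨O, sleR O, hO⟩⟩
  | symm x y _ ih => exact ⟨ih.2, ih.1⟩
  | trans x y z _ _ ih1 ih2 =>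
    constructor
    · intro O hO
      obtain ⟨O1, s1, h1⟩ := ih1.1 O hO
      obtain ⟨O2, s2, h2⟩ := ih2.1 O1 h1
      exact ⟨O2, sle2 s1 s2, h2⟩
    · intro O hO
      obtain ⟨O1, s1, h1⟩ := ih2.2 O hO
      obtain ⟨O2, s2, h2⟩ := ih1.2 O1 h1
      exact ⟨O2, sle2 s1 s2, h2⟩

end Pool.Agent.H4G.Six
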