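import Pool.Agent.H4G.Six.SL6
import Pool.Agent.H4G.Inv

/-!
# MP_4f7c28, part (i): origamis without involution and pairs of permutations (helper27)

Invariance of `Trans`, `Prim`, `Odd6` under the steps and the isomorphisms; the dictionary
`PO (Fin N)` / `Ori N`.
-/

set_option autoImplicit false

namespace Pool.Agent.H4G.Six

open Pool.Agent.H4G

variable {X : Type} {N : ℕ}

/-! ## Paths -/

theorem Path6.tr {O : PO X} {x y z : X} {w w' : Z2} (h : Path6 O x w y) (h' : Path6 O y w' z) :
    Path6 O x (w + w') z := by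
  induction h' with
  | refl => simpa using h
  | right _ ih => rw [← add_assoc]; exact ih.right
  | left _ ih => rw [← add_sub_assoc]; exact ih.left
  | up _ ih => rw [← add_assoc]; exact ih.up
  | down _ ih => rw [← add_sub_assoc]; exact ih.down

theorem Path6.rev {O : PO X} {x y : X} {w : Z2} (h : Path6 O x w y) : Path6 O y (-w) x := by
  induction h with
  | refl => simpa using Path6.refl x
  | @right y w _ ih =>
    have h1 : Path6 O (O.r y) (0 - (1, 0)) (O.r.symm (O.r y)) := (Path6.refl _).left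
    rw [Equiv.symm_apply_apply] at h1
    have h2 := h1.tr ih
    have e : (0 : Z2) - (1, 0) + -w = -(w + (1, 0)) := by abel
    rwa [e] at h2
  | @left y w _ ih =>
    have h1 : Path6 O (O.r.symm y) (0 + (1, 0)) (O.r (O.r.symm y)) := (Path6.refl _).right
    rw [Equiv.apply_symm_apply] at h1
    have h2 := h1.tr ih
    have e : (0 : Z2) + (1, 0) + -w = -(w - (1, 0)) := by abel
    rwa [e] at h2
  | @up y w _ ih =>
    have h1 : Path6 O (O.u y) (0 - (0, 1)) (O.u.symm (O.u y)) := (Path6.refl _).down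
    rw [Equiv.symm_apply_apply] at h1
    have h2 := h1.tr ih
    have e : (0 : Z2) - (0, 1) + -w = -(w + (0, 1)) := by abel
    rwa [e] at h2
  | @down y w _ ih =>
    have h1 : Path6 O (O.u.symm y) (0 + (0, 1)) (O.u (O.u.symm y)) := (Path6.refl _).up
    rw [Equiv.apply_symm_apply] at h1
    have h2 := h1.tr ih
    have e : (0 : Z2) + (0, 1) + -w = -(w - (0, 1)) := by abel
    rwa [e] at h2

theorem Path6.cast {O : PO X} {x y : X} {w w' : Z2} (h : Path6 O x w y) (e : w = w') :
    Path6 O x w' y := e ▸ h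

/-- The group of the holonomies of the closed paths at `x`. -/
def hol6 (O : PO X) (x : X) : AddSubgroup Z2 where
  carrier := {w | Path6 O x w x}
  zero_mem' := Path6.refl x
  add_mem' := fun h h' => Path6.tr h h'
  neg_mem' := fun h => Path6.rev h

theorem mem_hol6 {O : PO X} {x : X} {w : Z2} : w ∈ hol6 O x ↔ Path6 O x w x := Iff.rfl

theorem PO.Trans.path {O : PO X} (h : O.Trans) (x y : X) : ∃ w, Path6 O x w y := by
  have : {y | ∃ w, Path6 O x w y} = Set.univ := by
    refine h _ ⟨x, 0, Path6.refl x⟩ ?_ ?_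
    · rintro y ⟨w, hw⟩; exact ⟨_, hw.right⟩
    · rintro y ⟨w, hw⟩; exact ⟨_, hw.up⟩
  have h2 : y ∈ {y | ∃ w, Path6 O x w y} := by rw [this]; trivial
  exact h2

/-- the holonomy group does not depend on the base square -/
theorem hol6_eq {O : PO X} (h : O.Trans) (x y : X) : hol6 O x = hol6 O y := by
  have key : ∀ x y : X, hol6 O x ≤ hol6 O y := by
    intro x y w hw
    obtain ⟨v, hv⟩ := h.path y x
    have h2 := (hv.tr (mem_hol6.1 hw)).tr hv.rev
    exact h2.cast (by abel)
  exact le_antisymm (key x y) (key y x)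

/-- criterion for a primitive origami -/
theorem PO.Trans.prim_iff {O : PO X} (h : O.Trans) (x : X) : O.Prim ↔ hol6 O x = ⊤ := by
  constructor
  · intro hp
    rw [eq_top_iff]
    intro w _
    exact hp x w
  · intro hp y w
    have : w ∈ hol6 O y := by rw [hol6_eq h y x, hp]; trivial
    exact this

/-! ## The steps -/

theorem trans6_T [Finite X] {O : PO X} : O.T.Trans ↔ O.Trans := by
  constructor
  · intro h S hne hr hu
    refine h S hne hr ?_
    intro x hx
    change O.u (O.r.symm x) ∈ S
    exact hu _ (HI.back hr x hx)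
  · intro h S hne hr hu
    refine h S hne hr ?_
    intro x hx
    have h1 := hu (O.r x) (hr x hx)
    change O.u (O.r.symm (O.r x)) ∈ S at h1
    rwa [Equiv.symm_apply_apply] at h1

theorem trans6_J [Finite X] {O : PO X} : O.J.Trans ↔ O.Trans := by
  constructor
  · intro h S hne hr hu
    refine h S hne ?_ hr
    intro x hx
    change O.u.symm x ∈ S
    exact HI.back hu x hx
  · intro h S hne hr hu
    refine h S hne hu ?_
    intro x hx
    have h1 := HI.back (e := O.u⁻¹) hr x hx
    exact h1

theorem comm6_T (O : PO X) :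
    O.T.r * O.T.u * O.T.r⁻¹ * O.T.u⁻¹ = O.r * O.u * O.r⁻¹ * O.u⁻¹ := by
  change O.r * (O.u * O.r⁻¹) * O.r⁻¹ * (O.u * O.r⁻¹)⁻¹ = _
  group

theorem comm6_J (O : PO X) :
    O.J.r * O.J.u * O.J.r⁻¹ * O.J.u⁻¹ = O.u⁻¹ * (O.r * O.u * O.r⁻¹ * O.u⁻¹) * (O.u⁻¹)⁻¹ := by
  change O.u⁻¹ * O.r * (O.u⁻¹)⁻¹ * O.r⁻¹ = _
  group

theorem PO.Anti.r' {O : PO X} {i : Equiv.Perm X} (h : O.Anti i) (x : X) :
    i (O.r.symm x) = O.r (i x) := by
  have := h.r (O.r.symm x)
  rw [Equiv.apply_symm_apply] at this
  rw [this, Equiv.apply_symm_apply]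

theorem PO.Anti.u' {O : PO X} {i : Equiv.Perm X} (h : O.Anti i) (x : X) :
    i (O.u.symm x) = O.u (i x) := by
  have := h.u (O.u.symm x)
  rw [Equiv.apply_symm_apply] at this
  rw [this, Equiv.apply_symm_apply]

theorem PO.Anti.T {O : PO X} {i : Equiv.Perm X} (h : O.Anti i) : O.T.Anti (O.r * i) where
  r x := by
    change O.r (i (O.r x)) = O.r.symm (O.r (i x))
    rw [h.r, Equiv.apply_symm_apply, Equiv.symm_apply_apply]
  u x := by
    change O.r (i (O.u (O.r.symm x))) = O.r (O.u.symm (O.r (i x)))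
    rw [h.u, h.r']

theorem PO.Anti.ofT {O : PO X} {i : Equiv.Perm X} (h : O.T.Anti i) : O.Anti (O.r⁻¹ * i) where
  r x := by
    change O.r.symm (i (O.r x)) = O.r.symm (O.r.symm (i x))
    have := h.r x
    change i (O.r x) = O.r.symm (i x) at this
    rw [this]
  u x := by
    change O.r.symm (i (O.u x)) = O.u.symm (O.r.symm (i x))
    have h1 := h.u (O.r x)
    change i (O.u (O.r.symm (O.r x))) = O.r (O.u.symm (i (O.r x))) at h1
    have h2 := h.r x
    change i (O.r x) = O.r.symm (i x) at h2
    rw [Equiv.symm_apply_apply, h2] at h1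
    rw [h1, Equiv.symm_apply_apply]

theorem PO.Anti.J {O : PO X} {i : Equiv.Perm X} (h : O.Anti i) : O.J.Anti i where
  r x := by
    change i (O.u.symm x) = O.u (i x)
    exact h.u' x
  u x := h.r x

theorem PO.Anti.ofJ {O : PO X} {i : Equiv.Perm X} (h : O.J.Anti i) : O.Anti i where
  r x := h.u x
  u x := by
    have := h.r (O.u x)
    change i (O.u.symm (O.u x)) = O.u (i (O.u x)) at this
    rw [Equiv.symm_apply_apply] at this
    rw [this, Equiv.symm_apply_apply]

theorem odd6_T [Finite X] {O : PO X} : Odd6 O.T ↔ Odd6 O := by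
  constructor
  · intro h
    refine ⟨trans6_T.1 h.trans, ?_, ?_, fun i hi => h.none _ hi.T⟩
    · have := h.cyc
      rwa [comm6_T] at this
    · have := h.five
      rwa [comm6_T] at this
  · intro h
    refine ⟨trans6_T.2 h.trans, ?_, ?_, fun i hi => h.none _ hi.ofT⟩
    · rw [comm6_T]; exact h.cyc
    · rw [comm6_T]; exact h.five

theorem odd6_J [Finite X] {O : PO X} : Odd6 O.J ↔ Odd6 O := by
  constructor
  · intro h
    refine ⟨trans6_J.1 h.trans, ?_, ?_, fun i hi => h.none _ hi.J⟩
    · have h1 := h.cyc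
      rw [comm6_J] at h1
      have h2 := h1.conj (g := O.u)
      convert h2 using 1
      group
    · have := h.five
      rwa [comm6_J, HI.moved_conj] at this
  · intro h
    refine ⟨trans6_J.2 h.trans, ?_, ?_, fun i hi => h.none _ hi.ofJ⟩
    · rw [comm6_J]; exact h.cyc.conj
    · rw [comm6_J, HI.moved_conj]; exact h.five

/-! ### Paths and steps -/

theorem path6_T {O : PO X} {x y : X} {w : Z2} (h : Path6 O x w y) :
    Path6 O.T x (shT w) y := by
  induction h with
  | refl => exact Path6.refl _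
  | @right y w h ih =>
    have h1 : Path6 O.T x (shT w + (1, 0)) (O.r y) := ih.right
    exact h1.cast (by apply Prod.ext <;> simp [shT]; ring)
  | @left y w h ih =>
    have h1 : Path6 O.T x (shT w - (1, 0)) (O.r.symm y) := ih.left
    exact h1.cast (by apply Prod.ext <;> simp [shT]; ring)
  | @up y w h ih =>
    have h1 : Path6 O.T x (shT w + (1, 0) + (0, 1)) (O.u (O.r.symm (O.r y))) := ih.right.up
    rw [Equiv.symm_apply_apply] at h1
    exact h1.cast (by apply Prod.ext <;> simp [shT]; ring)
  | @down y w h ih =>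
    have h1 : Path6 O.T x (shT w - (0, 1) - (1, 0)) (O.r.symm (O.r (O.u.symm y))) :=
      ih.down.left
    rw [Equiv.symm_apply_apply] at h1
    exact h1.cast (by apply Prod.ext <;> simp [shT]; ring)

theorem path6_J {O : PO X} {x y : X} {w : Z2} (h : Path6 O x w y) :
    Path6 O.J x (shJ w) y := by
  induction h with
  | refl => exact Path6.refl _
  | @right y w h ih =>
    have h1 : Path6 O.J x (shJ w + (0, 1)) (O.r y) := ih.up
    exact h1.cast (by apply Prod.ext <;> simp [shJ])
  | @left y w h ih =>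
    have h1 : Path6 O.J x (shJ w - (0, 1)) (O.r.symm y) := ih.down
    exact h1.cast (by apply Prod.ext <;> simp [shJ])
  | @up y w h ih =>
    have h1 : Path6 O.J x (shJ w - (1, 0)) (O.u y) := ih.left
    exact h1.cast (by apply Prod.ext <;> simp [shJ]; ring)
  | @down y w h ih =>
    have h1 : Path6 O.J x (shJ w + (1, 0)) (O.u.symm y) := ih.right
    exact h1.cast (by apply Prod.ext <;> simp [shJ]; ring)

theorem path6_T' {O : PO X} {x y : X} {w : Z2} (h : Path6 O.T x w y) :
    Path6 O x (HI.shT' w) y := by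
  induction h with
  | refl => exact Path6.refl _
  | @right y w h ih =>
    have h1 : Path6 O x (HI.shT' w + (1, 0)) (O.r y) := ih.right
    exact h1.cast (by apply Prod.ext <;> simp [HI.shT']; ring)
  | @left y w h ih =>
    have h1 : Path6 O x (HI.shT' w - (1, 0)) (O.r.symm y) := ih.left
    exact h1.cast (by apply Prod.ext <;> simp [HI.shT']; ring)
  | @up y w h ih =>
    have h1 : Path6 O x (HI.shT' w - (1, 0) + (0, 1)) (O.u (O.r.symm y)) := ih.left.up
    exact h1.cast (by apply Prod.ext <;> simp [HI.shT']; ring)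
  | @down y w h ih =>
    have h1 : Path6 O x (HI.shT' w - (0, 1) + (1, 0)) (O.r (O.u.symm y)) := ih.down.right
    exact h1.cast (by apply Prod.ext <;> simp [HI.shT']; ring)

theorem path6_J' {O : PO X} {x y : X} {w : Z2} (h : Path6 O.J x w y) :
    Path6 O x (HI.shJ' w) y := by
  induction h with
  | refl => exact Path6.refl _
  | @right y w h ih =>
    have h1 : Path6 O x (HI.shJ' w - (0, 1)) (O.u.symm y) := ih.down
    exact h1.cast (by apply Prod.ext <;> simp [HI.shJ']; ring)
  | @left y w h ih =>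
    have h1 : Path6 O x (HI.shJ' w + (0, 1)) (O.u y) := ih.up
    exact h1.cast (by apply Prod.ext <;> simp [HI.shJ']; ring)
  | @up y w h ih =>
    have h1 : Path6 O x (HI.shJ' w + (1, 0)) (O.r y) := ih.right
    exact h1.cast (by apply Prod.ext <;> simp [HI.shJ'])
  | @down y w h ih =>
    have h1 : Path6 O x (HI.shJ' w - (1, 0)) (O.r.symm y) := ih.left
    exact h1.cast (by apply Prod.ext <;> simp [HI.shJ'])

theorem prim6_T {O : PO X} : O.T.Prim ↔ O.Prim := by
  constructor
  · intro h x w
    exact (path6_T' (h x (shT w))).cast (by apply Prod.ext <;> simp [shT, HI.shT'])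
  · intro h x w
    exact (path6_T (h x (HI.shT' w))).cast (by apply Prod.ext <;> simp [shT, HI.shT'])

theorem prim6_J {O : PO X} : O.J.Prim ↔ O.Prim := by
  constructor
  · intro h x w
    exact (path6_J' (h x (shJ w))).cast (by apply Prod.ext <;> simp [shJ, HI.shJ'])
  · intro h x w
    exact (path6_J (h x (HI.shJ' w))).cast (by apply Prod.ext <;> simp [shJ, HI.shJ'])

/-! ## Isomorphisms -/

section Isos

variable {X' : Type} {O : PO X} {O' : PO X'} {e : X ≃ X'}

theorem Iso6.r' (h : Iso6 O O' e) (x : X) : e (O.r.symm x) = O'.r.symm (e x) := by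
  rw [Equiv.eq_symm_apply, ← h.r, Equiv.apply_symm_apply]

theorem Iso6.u' (h : Iso6 O O' e) (x : X) : e (O.u.symm x) = O'.u.symm (e x) := by
  rw [Equiv.eq_symm_apply, ← h.u, Equiv.apply_symm_apply]

theorem Iso6.symm (h : Iso6 O O' e) : Iso6 O' O e.symm where
  r x := by
    rw [Equiv.symm_apply_eq, h.r, Equiv.apply_symm_apply]
  u x := by
    rw [Equiv.symm_apply_eq, h.u, Equiv.apply_symm_apply]

theorem Iso6.trans6 (h : Iso6 O O' e) (hO : O.Trans) : O'.Trans := by
  intro S hS hr hu
  have h1 := hO (e ⁻¹' S) ?_ ?_ ?_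
  · ext x
    refine ⟨fun _ => trivial, fun _ => ?_⟩
    have h2 : e.symm x ∈ e ⁻¹' S := by rw [h1]; trivial
    simpa using h2
  · obtain ⟨x, hx⟩ := hS
    exact ⟨e.symm x, by simpa using hx⟩
  · intro x hx
    change e (O.r x) ∈ S
    rw [h.r]; exact hr _ hx
  · intro x hx
    change e (O.u x) ∈ S
    rw [h.u]; exact hu _ hx

theorem Iso6.path (h : Iso6 O O' e) {x y : X} {w : Z2} (hp : Path6 O x w y) :
    Path6 O' (e x) w (e y) := by
  induction hp with
  | refl => exact .refl _
  | right _ ih => rw [h.r]; exact ih.right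
  | left _ ih => rw [h.r']; exact ih.left
  | up _ ih => rw [h.u]; exact ih.up
  | down _ ih => rw [h.u']; exact ih.down

theorem Iso6.prim (h : Iso6 O O' e) (hp : O.Prim) : O'.Prim := by
  intro x w
  have := h.path (hp (e.symm x) w)
  simpa using this

theorem Iso6.comm (h : Iso6 O O' e) (x : X) : (O'.r * O'.u * O'.r⁻¹ * O'.u⁻¹) (e x) =
    e ((O.r * O.u * O.r⁻¹ * O.u⁻¹) x) := by
  change O'.r (O'.u (O'.r.symm (O'.u.symm (e x)))) = e (O.r (O.u (O.r.symm (O.u.symm x))))
  rw [← h.u', ← h.r', ← h.u, ← h.r]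

theorem Iso6.anti (h : Iso6 O O' e) {i : Equiv.Perm X} (hi : O.Anti i) :
    O'.Anti (e.symm.trans (i.trans e)) where
  r x := by
    obtain ⟨y, rfl⟩ := e.surjective x
    change e (i (e.symm (O'.r (e y)))) = O'.r.symm (e (i (e.symm (e y))))
    rw [← h.r, Equiv.symm_apply_apply, Equiv.symm_apply_apply, hi.r, h.r']
  u x := by
    obtain ⟨y, rfl⟩ := e.surjective x
    change e (i (e.symm (O'.u (e y)))) = O'.u.symm (e (i (e.symm (e y))))
    rw [← h.u, Equiv.symm_apply_apply, Equiv.symm_apply_apply, hi.u, h.u']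

theorem Iso6.odd (h : Iso6 O O' e) (hO : Odd6 O) : Odd6 O' := by
  have hce : O'.r * O'.u * O'.r⁻¹ * O'.u⁻¹ =
      (e.permCongr) (O.r * O.u * O.r⁻¹ * O.u⁻¹) := by
    ext x
    obtain ⟨y, rfl⟩ := e.surjective x
    rw [h.comm, Equiv.permCongr_apply, Equiv.symm_apply_apply]
  refine ⟨h.trans6 hO.trans, ?_, ?_, fun i hi => hO.none _ (h.symm.anti hi)⟩
  · rw [hce]
    obtain ⟨x, hx, h1⟩ := hO.cyc
    refine ⟨e x, ?_, ?_⟩
    · rw [Equiv.permCongr_apply, Equiv.symm_apply_apply]
      exact fun he => hx (e.injective he)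
    · intro y hy
      obtain ⟨z, rfl⟩ := e.surjective y
      rw [Equiv.permCongr_apply, Equiv.symm_apply_apply] at hy
      obtain ⟨n, hn⟩ := h1 (y := z) (fun he => hy (by rw [he]))
      refine ⟨n, ?_⟩
      have h3 : (e.permCongr (O.r * O.u * O.r⁻¹ * O.u⁻¹)) ^ n =
          e.permCongr ((O.r * O.u * O.r⁻¹ * O.u⁻¹) ^ n) :=
        (map_zpow e.permCongrHom _ n).symm
      rw [h3, Equiv.permCongr_apply, Equiv.symm_apply_apply, hn]
  · rw [← hO.five]
    have h1 : {x | (O'.r * O'.u * O'.r⁻¹ * O'.u⁻¹) x ≠ x} =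
        e '' {x | (O.r * O.u * O.r⁻¹ * O.u⁻¹) x ≠ x} := by
      ext x
      obtain ⟨y, rfl⟩ := e.surjective x
      constructor
      · intro hy
        refine ⟨y, fun he => ?_, rfl⟩
        apply hy
        rw [h.comm, he]
      · rintro ⟨z, hz, he⟩
        rw [← e.injective he]
        intro hy
        rw [h.comm] at hy
        exact hz (e.injective hy)
    rw [h1, Set.ncard_image_of_injective _ e.injective]

end Isos

/-! ## Invariance -/

theorem SLE6.refl (O : PO X) : SLE6 O O := Relation.EqvGen.refl _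

theorem SLE6.symm {O O' : PO X} (h : SLE6 O O') : SLE6 O' O := Relation.EqvGen.symm _ _ h

theorem SLE6.trans {O O' O'' : PO X} (h : SLE6 O O') (h' : SLE6 O' O'') : SLE6 O O'' :=
  Relation.EqvGen.trans _ _ _ h h'

theorem SLE6.iso {O O' : PO X} {e : Equiv.Perm X} (h : Iso6 O O' e) : SLE6 O O' :=
  Relation.EqvGen.rel _ _ (Step6.iso _ _ e h)

/-- A property of origamis which is invariant under the steps is invariant under `SLE6`. -/
theorem SLE6.inv {P : PO X → Prop} (hT : ∀ O, P O.T ↔ P O) (hJ : ∀ O, P O.J ↔ P O)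
    (hI : ∀ (O O' : PO X) (e : Equiv.Perm X), Iso6 O O' e → P O → P O') {O O' : PO X}
    (h : SLE6 O O') : P O ↔ P O' := by
  induction h with
  | rel a b h =>
    cases h with
    | T => exact (hT a).symm
    | J => exact (hJ a).symm
    | iso _ e h => exact ⟨hI _ _ e h, hI _ _ _ h.symm⟩
  | refl a => exact Iff.rfl
  | symm a b _ ih => exact ih.symm
  | trans a b c _ _ ih1 ih2 => exact ih1.trans ih2

theorem SLE6.odd [Finite X] {O O' : PO X} (h : SLE6 O O') : Odd6 O ↔ Odd6 O' :=
  SLE6.inv (P := fun O => Odd6 O) (fun _ => odd6_T) (fun _ => odd6_J)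
    (fun _ _ _ h => h.odd) h

theorem SLE6.prim {O O' : PO X} (h : SLE6 O O') : O.Prim ↔ O'.Prim :=
  SLE6.inv (P := fun O => O.Prim) (fun _ => prim6_T) (fun _ => prim6_J)
    (fun _ _ _ h => h.prim) h

theorem SLE6.trans_iff [Finite X] {O O' : PO X} (h : SLE6 O O') : O.Trans ↔ O'.Trans :=
  SLE6.inv (P := fun O => O.Trans) (fun _ => trans6_T) (fun _ => trans6_J)
    (fun _ _ _ h => h.trans6) h

/-! ## Pairs of permutations -/

/-- the origami as a pair of permutations -/
def PO.pair (O : PO (Fin N)) : Ori N := (O.r, O.u)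

/-- a pair of permutations as an origami -/
def ofPair (p : Ori N) : PO (Fin N) := ⟨p.1, p.2⟩

@[simp] theorem ofPair_pair (p : Ori N) : (ofPair p).pair = p := rfl

@[simp] theorem pair_ofPair (O : PO (Fin N)) : ofPair O.pair = O := rfl

theorem walk6_iff (p : Ori N) (x : Fin N) (w : Z2) (y : Fin N) :
    p.Walk x w y ↔ Path6 (ofPair p) x w y := by
  constructor
  · intro h
    induction h with
    | nil => exact .refl _
    | right _ ih => exact ih.right
    | left _ ih => exact ih.left
    | up _ ih => exact ih.up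
    | down _ ih => exact ih.down
  · intro h
    induction h with
    | refl => exact .nil _
    | right _ ih => exact ih.right
    | left _ ih => exact ih.left
    | up _ ih => exact ih.up
    | down _ ih => exact ih.down

theorem prim6_iff {p : Ori N} (h : (ofPair p).Trans) (hN : 0 < N) :
    p.Primitive ↔ (ofPair p).Prim := by
  unfold Ori.Primitive
  simp only [walk6_iff]
  constructor
  · intro hp x w
    have h1 : AddSubgroup.closure {w : ℤ × ℤ | ∃ x, Path6 (ofPair p) x w x} ≤
        hol6 (ofPair p) x := by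
      rw [AddSubgroup.closure_le]
      rintro w ⟨y, hy⟩
      obtain ⟨v, hv⟩ := h.path x y
      exact ((hv.tr hy).tr hv.rev).cast (by abel)
    rw [hp] at h1
    exact h1 (AddSubgroup.mem_top w)
  · intro hp
    rw [eq_top_iff]
    intro w _
    exact AddSubgroup.subset_closure ⟨⟨0, hN⟩, hp _ w⟩

theorem conn6_iff (p : Ori N) : p.Conn ↔ (ofPair p).Trans := by
  constructor
  · intro h S hS hr hu
    obtain ⟨x, hx⟩ := hS
    have key : ∀ g ∈ Subgroup.closure {p.1, p.2}, ∀ y ∈ S, g y ∈ S := by
      intro g hg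
      induction hg using Subgroup.closure_induction with
      | mem g hg =>
        rcases hg with rfl | rfl
        · exact hr
        · exact hu
      | one => intro y hy; exact hy
      | mul a b _ _ iha ihb => intro y hy; exact iha _ (ihb _ hy)
      | inv a _ ih => exact HI.back ih
    ext y
    refine ⟨fun _ => trivial, fun _ => ?_⟩
    obtain ⟨g, hg⟩ := h.exists_smul_eq x y
    rw [← hg]
    exact key g.1 g.2 x hx
  · intro h
    refine ⟨fun x y => ?_⟩
    have : {y | ∃ g : Subgroup.closure {p.1, p.2}, g • x = y} = Set.univ := by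
      refine h _ ⟨x, 1, one_smul _ _⟩ ?_ ?_
      · rintro y ⟨g, rfl⟩
        refine ⟨⟨p.1, Subgroup.subset_closure (Or.inl rfl)⟩ * g, ?_⟩
        rw [mul_smul]; rfl
      · rintro y ⟨g, rfl⟩
        refine ⟨⟨p.2, Subgroup.subset_closure (Or.inr rfl)⟩ * g, ?_⟩
        rw [mul_smul]; rfl
    have h2 : y ∈ {y | ∃ g : Subgroup.closure {p.1, p.2}, g • x = y} := by
      rw [this]; trivial
    exact h2

theorem anti6_iff (p : Ori N) (i : Equiv.Perm (Fin N)) : p.Anti i ↔ (ofPair p).Anti i := by
  constructor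
  · rintro ⟨h1, h2⟩
    refine ⟨fun x => ?_, fun x => ?_⟩
    · have := congrArg (fun e : Equiv.Perm (Fin N) => e (i x)) h1
      change i (p.1 x) = p.1.symm (i x)
      simpa [Equiv.Perm.mul_apply] using this
    · have := congrArg (fun e : Equiv.Perm (Fin N) => e (i x)) h2
      change i (p.2 x) = p.2.symm (i x)
      simpa [Equiv.Perm.mul_apply] using this
  · intro h
    refine ⟨?_, ?_⟩
    · ext x
      have h1 := h.r (i⁻¹ x)
      rw [show i (i⁻¹ x) = x from i.apply_symm_apply x] at h1
      simp only [Equiv.Perm.mul_apply]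
      exact congrArg _ h1
    · ext x
      have h1 := h.u (i⁻¹ x)
      rw [show i (i⁻¹ x) = x from i.apply_symm_apply x] at h1
      simp only [Equiv.Perm.mul_apply]
      exact congrArg _ h1

/-- Primitive origamis of odd type in `H(4)` with `N` squares: connected, the commutator is a
`5`-cycle, the periods generate the lattice, and there is no anti-automorphism. -/
def _root_.Pool.Agent.H4G.Ori.POdd {N : ℕ} (p : Ori N) : Prop :=
  p.InH4 ∧ p.Primitive ∧ ∀ i : Equiv.Perm (Fin N), ¬ p.Anti i

theorem support_eq (c : Equiv.Perm (Fin N)) : {x | c x ≠ x}.ncard = c.support.card := by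
  rw [← Set.ncard_coe_finset]; congr 1; ext x; simp

theorem pos_of_InH4 {p : Ori N} (h : p.InH4) : 0 < N := by
  obtain ⟨_, ⟨x, _⟩, _⟩ := h
  exact x.pos

theorem podd_iff {p : Ori N} : p.POdd ↔ Odd6 (ofPair p) ∧ (ofPair p).Prim := by
  constructor
  · rintro ⟨h1, h2, h3⟩
    have ht := (conn6_iff p).1 h1.1
    exact ⟨⟨ht, h1.2.1, (support_eq _).trans h1.2.2, fun i hi => h3 i ((anti6_iff p i).2 hi)⟩,
      (prim6_iff ht (pos_of_InH4 h1)).1 h2⟩
  · rintro ⟨h1, h2⟩
    have h3 : p.InH4 := ⟨(conn6_iff p).2 h1.trans, h1.cyc, (support_eq _).symm.trans h1.five⟩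
    exact ⟨h3, (prim6_iff h1.trans (pos_of_InH4 h3)).2 h2,
      fun i hi => h1.none i ((anti6_iff p i).1 hi)⟩

theorem Iso6.step {O O' : PO (Fin N)} {e : Fin N ≃ Fin N} (h : Iso6 O O' e) :
    Ori.Step O.pair O'.pair := by
  have h1 : O'.r = e * O.r * e⁻¹ := by
    ext x
    have := h.r (e.symm x)
    rw [Equiv.apply_symm_apply] at this
    rw [← this]; rfl
  have h2 : O'.u = e * O.u * e⁻¹ := by
    ext x
    have := h.u (e.symm x)
    rw [Equiv.apply_symm_apply] at this
    rw [← this]; rfl
  unfold PO.pair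
  rw [h1, h2]
  exact Ori.Step.iso _ _ _

theorem step6_iff {O O' : PO (Fin N)} : Step6 O O' ↔ Ori.Step O.pair O'.pair := by
  constructor
  · intro h
    cases h with
    | T => exact Ori.Step.shear _ _
    | J => exact Ori.Step.turn _ _
    | iso _ e h => exact h.step
  · intro h
    have key : ∀ p q : Ori N, Ori.Step p q → Step6 (ofPair p) (ofPair q) := by
      intro p q h
      cases h with
      | shear r u => exact Step6.T (ofPair (r, u))
      | turn r u => exact Step6.J (ofPair (r, u))
      | iso r u s =>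
        refine Step6.iso _ _ s ⟨fun x => ?_, fun x => ?_⟩
        · change _ = s (r (s.symm (s x)))
          rw [Equiv.symm_apply_apply]; rfl
        · change _ = s (u (s.symm (s x)))
          rw [Equiv.symm_apply_apply]; rfl
    exact key _ _ h

theorem sle6_iff {p q : Ori N} : Ori.SameOrbit p q ↔ SLE6 (ofPair p) (ofPair q) := by
  constructor
  · intro h
    induction h with
    | rel a b h => exact Relation.EqvGen.rel _ _ (step6_iff.2 h)
    | refl a => exact Relation.EqvGen.refl _
    | symm a b _ ih => exact Relation.EqvGen.symm _ _ ih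
    | trans a b c _ _ ih1 ih2 => exact Relation.EqvGen.trans _ _ _ ih1 ih2
  · intro h
    have key : ∀ O O' : PO (Fin N), SLE6 O O' → Ori.SameOrbit O.pair O'.pair := by
      intro O O' h
      induction h with
      | rel a b h => exact Relation.EqvGen.rel _ _ (step6_iff.1 h)
      | refl a => exact Relation.EqvGen.refl _
      | symm a b _ ih => exact Relation.EqvGen.symm _ _ ih
      | trans a b c _ _ ih1 ih2 => exact Relation.EqvGen.trans _ _ _ ih1 ih2
    exact key _ _ h

/-- odd type is invariant -/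
theorem podd_orbit {p q : Ori N} (h : Ori.SameOrbit p q) : p.POdd ↔ q.POdd := by
  have h1 := sle6_iff.1 h
  rw [podd_iff, podd_iff, h1.odd, h1.prim]

/-! ## Signs and the monodromy group -/

/-- both permutations are even -/
def _root_.Pool.Agent.H4G.Ori.Even {N : ℕ} (p : Ori N) : Prop :=
  Equiv.Perm.sign p.1 = 1 ∧ Equiv.Perm.sign p.2 = 1

theorem even_step {p q : Ori N} (h : Ori.Step p q) : p.Even ↔ q.Even := by
  unfold Ori.Even
  cases h with
  | shear r u =>
    constructor
    · rintro ⟨h1, h2⟩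
      refine ⟨h1, ?_⟩
      rw [Equiv.Perm.sign_mul, Equiv.Perm.sign_inv, h2, show Equiv.Perm.sign r = 1 from h1,
        mul_one]
    · rintro ⟨h1, h2⟩
      refine ⟨h1, ?_⟩
      rw [Equiv.Perm.sign_mul, Equiv.Perm.sign_inv, show Equiv.Perm.sign r = 1 from h1,
        mul_one] at h2
      exact h2
  | turn r u =>
    constructor
    · rintro ⟨h1, h2⟩
      exact ⟨by rw [Equiv.Perm.sign_inv]; exact h2, h1⟩
    · rintro ⟨h1, h2⟩
      refine ⟨h2, ?_⟩
      rw [Equiv.Perm.sign_inv] at h1
      exact h1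
  | iso r u s =>
    have key : ∀ t : Equiv.Perm (Fin N), Equiv.Perm.sign (s * t * s⁻¹) = Equiv.Perm.sign t := by
      intro t
      rw [Equiv.Perm.sign_mul, Equiv.Perm.sign_mul, Equiv.Perm.sign_inv, mul_comm, ← mul_assoc,
        Int.units_mul_self, one_mul]
    rw [key, key]

theorem even_orbit {p q : Ori N} (h : Ori.SameOrbit p q) : p.Even ↔ q.Even := by
  induction h with
  | rel a b h => exact even_step h
  | refl a => exact Iff.rfl
  | symm a b _ ih => exact ih.symm
  | trans a b c _ _ ih1 ih2 => exact ih1.trans ih2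

/-- the monodromy group lies in the alternating group iff both permutations are even -/
theorem even_iff {p : Ori N} :
    p.Even ↔ Subgroup.closure {p.1, p.2} ≤ alternatingGroup (Fin N) := by
  rw [Subgroup.closure_le]
  constructor
  · rintro ⟨h1, h2⟩ t (rfl | rfl)
    · exact Equiv.Perm.mem_alternatingGroup.2 h1
    · exact Equiv.Perm.mem_alternatingGroup.2 h2
  · intro h
    exact ⟨Equiv.Perm.mem_alternatingGroup.1 (h (Or.inl rfl)),
      Equiv.Perm.mem_alternatingGroup.1 (h (Or.inr rfl))⟩

end Pool.Agent.H4G.Six
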