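import Pool.Agent.H4G.Six.Par

/-!
# The column lemma (helper96)

A closed column of parallelograms `(a, b 0), …, (a, b (n - 1))` is cut again along
`a' = a ± (b 0 + … + b (n - 1))`.
-/

set_option autoImplicit false

namespace Pool.Agent.H4G.Six

open Pool.Agent.H4G

variable {X : Type}

/-! ## Parallelograms -/

theorem cr_cast (a b : Z2) : (cr a b : ℝ) = (a.1 : ℝ) * b.2 - (a.2 : ℝ) * b.1 := by
  simp only [cr]; push_cast; ring

theorem pluck (a a' b : Z2) (y : V) : (cr a a' : ℝ) * crx b y =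
    (cr a b : ℝ) * crx a' y - (cr a' b : ℝ) * crx a y := by
  simp only [cr_cast, crx]; ring

/-- the two products determine the point -/
theorem pt_of {a b w : Z2} (h : 0 < cr a b) {x : V} (h1 : crx a x = cr a w)
    (h2 : crx b x = cr b w) : x = em w := by
  have h' : (0 : ℝ) < cr a b := by exact_mod_cast h
  rw [cr_cast] at h'
  obtain ⟨x1, x2⟩ := x
  simp only [crx, cr_cast] at h1 h2
  have e1 : ((a.1 : ℝ) * b.2 - (a.2 : ℝ) * b.1) * (x1 - w.1) = 0 := by
    linear_combination (b.1 : ℝ) * h1 - (a.1 : ℝ) * h2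
  have e2 : ((a.1 : ℝ) * b.2 - (a.2 : ℝ) * b.1) * (x2 - w.2) = 0 := by
    linear_combination (b.2 : ℝ) * h1 - (a.2 : ℝ) * h2
  have f1 := (mul_eq_zero.1 e1).resolve_left h'.ne'
  have f2 := (mul_eq_zero.1 e2).resolve_left h'.ne'
  simp only [em, Prod.mk.injEq]
  exact ⟨by linarith, by linarith⟩

theorem comb_ne {a b w : Z2} (h : 0 < cr a b) {x y : V} {s1 s2 : ℝ} (hs1 : s1 ≠ 0) (hs2 : s2 ≠ 0)
    (h1x : 0 ≤ s1 * (crx a x - cr a w)) (h1y : 0 ≤ s1 * (crx a y - cr a w))
    (h2x : 0 ≤ s2 * (crx b x - cr b w)) (h2y : 0 ≤ s2 * (crx b y - cr b w))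
    (hx : x ≠ em w) (hy : y ≠ em w) {t : ℝ} (h0 : 0 ≤ t) (h1 : t ≤ 1) :
    (((1 - t) * x.1 + t * y.1, (1 - t) * x.2 + t * y.2) : V) ≠ em w := by
  intro he
  have a1 := crx_comb a x y t
  have a2 := crx_comb b x y t
  rw [he, crx_em] at a1 a2
  have h1' : 0 ≤ 1 - t := sub_nonneg.2 h1
  rcases h0.lt_or_eq with h | h
  · have b1 : s1 * (crx a y - cr a w) = 0 := by
      have e : (1 - t) * (s1 * (crx a x - cr a w)) + t * (s1 * (crx a y - cr a w)) = 0 := by
        linear_combination (-s1) * a1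
      have := mul_nonneg h1' h1x
      have := mul_nonneg h.le h1y
      have : t * (s1 * (crx a y - cr a w)) = 0 := by linarith
      exact (mul_eq_zero.1 this).resolve_left h.ne'
    have b2 : s2 * (crx b y - cr b w) = 0 := by
      have e : (1 - t) * (s2 * (crx b x - cr b w)) + t * (s2 * (crx b y - cr b w)) = 0 := by
        linear_combination (-s2) * a2
      have := mul_nonneg h1' h2x
      have := mul_nonneg h.le h2y
      have : t * (s2 * (crx b y - cr b w)) = 0 := by linarith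
      exact (mul_eq_zero.1 this).resolve_left h.ne'
    have c1 := (mul_eq_zero.1 b1).resolve_left hs1
    have c2 := (mul_eq_zero.1 b2).resolve_left hs2
    exact hy (pt_of ‹0 < cr a b› (by linarith) (by linarith))
  · subst h
    apply hx
    rw [← he]
    ext <;> simp only <;> ring

theorem cr_self' (a : Z2) : cr a a = 0 := by simp only [cr]; ring

theorem cr_zero' (a : Z2) : cr a 0 = 0 := by simp [cr]

theorem cr_swap' (a b : Z2) : cr b a = -cr a b := by simp only [cr]; ring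

theorem cr_addr (a b c : Z2) : cr a (b + c) = cr a b + cr a c := by
  simp only [cr, Prod.fst_add, Prod.snd_add]; ring

theorem cr_addl (a b c : Z2) : cr (a + b) c = cr a c + cr b c := by
  simp only [cr, Prod.fst_add, Prod.snd_add]; ring

theorem cr_subl (a b c : Z2) : cr (a - b) c = cr a c - cr b c := by
  simp only [cr, Prod.fst_sub, Prod.snd_sub]; ring

theorem cr_negl (a b : Z2) : cr (-a) b = -cr a b := by
  simp only [cr, Prod.fst_neg, Prod.snd_neg]; ring

theorem cr_negr (a b : Z2) : cr a (-b) = -cr a b := by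
  simp only [cr, Prod.fst_neg, Prod.snd_neg]; ring

theorem cvx_pgm {a b : Z2} (h : 0 < cr a b) : Cvx (Pgm a b) := by
  rintro x ⟨x1, x2, x3, x4, x5, x6, x7, x8⟩ y ⟨y1, y2, y3, y4, y5, y6, y7, y8⟩ t h0 h1
  have h1' : 0 ≤ 1 - t := sub_nonneg.2 h1
  have e1 := crx_comb a x y t
  have e2 := crx_comb b x y t
  have z1 : (cr a a : ℝ) = 0 := by exact_mod_cast cr_self' a
  have z2 : (cr b b : ℝ) = 0 := by exact_mod_cast cr_self' b
  have z3 : (cr b a : ℝ) = -cr a b := by exact_mod_cast cr_swap' a b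
  have z4 : (cr a 0 : ℝ) = 0 := by exact_mod_cast cr_zero' a
  have z5 : (cr b 0 : ℝ) = 0 := by exact_mod_cast cr_zero' b
  have z6 : (cr a (a + b) : ℝ) = cr a b := by
    rw [cr_addr, cr_self']; push_cast; ring
  have z7 : (cr b (a + b) : ℝ) = -cr a b := by
    rw [cr_addr, cr_self', cr_swap' a b]; push_cast; ring
  refine ⟨?_, ?_, ?_, ?_, ?_, ?_, ?_, ?_⟩
  · rw [e1]; exact add_nonneg (mul_nonneg h1' x1) (mul_nonneg h0 y1)
  · rw [e1]; nlinarith [mul_le_mul_of_nonneg_left x2 h1', mul_le_mul_of_nonneg_left y2 h0]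
  · rw [e2]; nlinarith [mul_le_mul_of_nonneg_left x3 h1', mul_le_mul_of_nonneg_left y3 h0]
  · rw [e2]; nlinarith [mul_le_mul_of_nonneg_left x4 h1', mul_le_mul_of_nonneg_left y4 h0]
  · exact comb_ne (s1 := 1) (s2 := -1) h (by norm_num) (by norm_num) (by rw [z4]; linarith)
      (by rw [z4]; linarith) (by rw [z5]; linarith) (by rw [z5]; linarith) x5 y5 h0 h1
  · exact comb_ne (s1 := 1) (s2 := 1) h (by norm_num) (by norm_num) (by rw [z1]; linarith)
      (by rw [z1]; linarith) (by rw [z3]; linarith) (by rw [z3]; linarith) x6 y6 h0 h1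
  · exact comb_ne (s1 := -1) (s2 := -1) h (by norm_num) (by norm_num) (by linarith)
      (by linarith) (by rw [z2]; linarith) (by rw [z2]; linarith) x7 y7 h0 h1
  · exact comb_ne (s1 := -1) (s2 := 1) h (by norm_num) (by norm_num) (by rw [z6]; linarith)
      (by rw [z6]; linarith) (by rw [z7]; linarith) (by rw [z7]; linarith) x8 y8 h0 h1

/-- points of a segment -/
theorem seg_pt {A B : Z2} {x : V} (h : x ∈ Seg A B) : ∃ t : ℝ, 0 < t ∧ t < 1 ∧
    ∀ c : Z2, crx c x = (1 - t) * cr c A + t * cr c B := by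
  obtain ⟨t, h0, h1, rfl⟩ := h
  refine ⟨t, h0, h1, fun c => ?_⟩
  simp only [crx, cr_cast]; ring

theorem ne_of_crx {a w : Z2} {x : V} (h : crx a x ≠ cr a w) : x ≠ em w := by
  rintro rfl
  exact h (crx_em a w)

theorem seg_bot {a b : Z2} (h : 0 < cr a b) : Seg 0 a ⊆ Pgm a b := by
  intro x hx
  obtain ⟨t, h0, h1, ht⟩ := seg_pt hx
  have h' : (0 : ℝ) < cr a b := by exact_mod_cast h
  have e1 : crx a x = 0 := by rw [ht, cr_zero', cr_self']; simp
  have e2 : crx b x = -(t * cr a b) := by rw [ht, cr_zero', cr_swap' a b]; push_cast; ring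
  have p1 := mul_pos h0 h'
  have p2 := mul_pos (sub_pos.2 h1) h'
  have z1 : (cr b a : ℝ) = -cr a b := by exact_mod_cast cr_swap' a b
  refine ⟨e1.ge, by rw [e1]; exact h'.le, by rw [e2]; linarith, by rw [e2]; linarith, ?_, ?_, ?_, ?_⟩
  · apply ne_of_crx (a := b); rw [e2, cr_zero']; push_cast; linarith
  · apply ne_of_crx (a := b); rw [e2, z1]; intro h; linarith
  · apply ne_of_crx (a := a); rw [e1]; exact h'.ne
  · apply ne_of_crx (a := a); rw [e1, cr_addr, cr_self', zero_add]; exact h'.ne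

theorem seg_top {a b : Z2} (h : 0 < cr a b) : Seg b (b + a) ⊆ Pgm a b := by
  intro x hx
  obtain ⟨t, h0, h1, ht⟩ := seg_pt hx
  have h' : (0 : ℝ) < cr a b := by exact_mod_cast h
  have e1 : crx a x = cr a b := by rw [ht, cr_addr, cr_self']; push_cast; ring
  have e2 : crx b x = -(t * cr a b) := by
    rw [ht, cr_addr, cr_self', cr_swap' a b]; push_cast; ring
  have p1 := mul_pos h0 h'
  have p2 := mul_pos (sub_pos.2 h1) h'
  have z1 : (cr b (a + b) : ℝ) = -cr a b := by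
    rw [cr_addr, cr_self', cr_swap' a b]; push_cast; ring
  refine ⟨by rw [e1]; exact h'.le, e1.le, by rw [e2]; linarith, by rw [e2]; linarith, ?_, ?_, ?_, ?_⟩
  · apply ne_of_crx (a := a); rw [e1, cr_zero']; push_cast; exact h'.ne'
  · apply ne_of_crx (a := a); rw [e1, cr_self']; push_cast; exact h'.ne'
  · apply ne_of_crx (a := b); rw [e2, cr_self']; push_cast; linarith
  · apply ne_of_crx (a := b); rw [e2, z1]; intro h; linarith

theorem seg_left {a b : Z2} (h : 0 < cr a b) : Seg 0 b ⊆ Pgm a b := by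
  intro x hx
  obtain ⟨t, h0, h1, ht⟩ := seg_pt hx
  have h' : (0 : ℝ) < cr a b := by exact_mod_cast h
  have e1 : crx a x = t * cr a b := by rw [ht, cr_zero']; simp
  have e2 : crx b x = 0 := by rw [ht, cr_zero', cr_self']; simp
  have p1 := mul_pos h0 h'
  have p2 := mul_pos (sub_pos.2 h1) h'
  have z1 : (cr b a : ℝ) = -cr a b := by exact_mod_cast cr_swap' a b
  have z2 : (cr b (a + b) : ℝ) = -cr a b := by
    rw [cr_addr, cr_self', cr_swap' a b]; push_cast; ring
  refine ⟨by rw [e1]; exact p1.le, by rw [e1]; linarith, e2.le, by rw [e2]; linarith, ?_, ?_, ?_, ?_⟩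
  · apply ne_of_crx (a := a); rw [e1, cr_zero']; push_cast; exact p1.ne'
  · apply ne_of_crx (a := b); rw [e2, z1]; intro h; linarith
  · apply ne_of_crx (a := a); rw [e1]; intro h; linarith
  · apply ne_of_crx (a := b); rw [e2, z2]; intro h; linarith

theorem seg_right {a b : Z2} (h : 0 < cr a b) : Seg a (a + b) ⊆ Pgm a b := by
  intro x hx
  obtain ⟨t, h0, h1, ht⟩ := seg_pt hx
  have h' : (0 : ℝ) < cr a b := by exact_mod_cast h
  have e1 : crx a x = t * cr a b := by rw [ht, cr_addr, cr_self']; push_cast; ring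
  have e2 : crx b x = -cr a b := by
    rw [ht, cr_addr, cr_self', cr_swap' a b]; push_cast; ring
  have p1 := mul_pos h0 h'
  have p2 := mul_pos (sub_pos.2 h1) h'
  have z3 : (cr a (a + b) : ℝ) = cr a b := by
    rw [cr_addr, cr_self']; push_cast; ring
  refine ⟨by rw [e1]; exact p1.le, by rw [e1]; linarith, by rw [e2]; linarith, e2.ge, ?_, ?_, ?_, ?_⟩
  · apply ne_of_crx (a := a); rw [e1, cr_zero']; push_cast; exact p1.ne'
  · apply ne_of_crx (a := a); rw [e1, cr_self']; push_cast; exact p1.ne'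
  · apply ne_of_crx (a := b); rw [e2, cr_self']; push_cast; intro h; linarith
  · apply ne_of_crx (a := a); rw [e1, z3]; intro h; linarith

/-- the points of the upper side -/
theorem mem_top {a b : Z2} (h : 0 < cr a b) {x : V} (hx : x ∈ Pgm a b)
    (h1 : crx a x = cr a b) : x ∈ Seg b (b + a) := by
  obtain ⟨x1, x2, x3, x4, x5, x6, x7, x8⟩ := hx
  have h' : (0 : ℝ) < cr a b := by exact_mod_cast h
  obtain ⟨t, ht⟩ : ∃ t : ℝ, t = -crx b x / cr a b := ⟨_, rfl⟩
  have ht' : crx b x = -(t * cr a b) := by rw [ht]; field_simp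
  have hxe : x = ((1 - t) * b.1 + t * (b + a).1, (1 - t) * b.2 + t * (b + a).2) := by
    have h'' := h'
    rw [cr_cast] at h''
    obtain ⟨p, q⟩ := x
    simp only [crx, cr_cast] at h1 ht'
    simp only [Prod.fst_add, Prod.snd_add]
    push_cast
    have e1 : ((a.1 : ℝ) * b.2 - (a.2 : ℝ) * b.1) * (p - ((1 - t) * b.1 + t * (b.1 + a.1))) = 0 := by
      linear_combination (b.1 : ℝ) * h1 - (a.1 : ℝ) * ht'
    have e2 : ((a.1 : ℝ) * b.2 - (a.2 : ℝ) * b.1) * (q - ((1 - t) * b.2 + t * (b.2 + a.2))) = 0 := by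
      linear_combination (b.2 : ℝ) * h1 - (a.2 : ℝ) * ht'
    have f1 := (mul_eq_zero.1 e1).resolve_left h''.ne'
    have f2 := (mul_eq_zero.1 e2).resolve_left h''.ne'
    simp only [Prod.mk.injEq]
    exact ⟨by linarith, by linarith⟩
  refine ⟨t, ?_, ?_, hxe⟩
  · have t0 : 0 ≤ t := by rw [ht]; exact div_nonneg (by linarith) h'.le
    refine lt_of_le_of_ne t0 (fun h0 => x7 ?_)
    rw [hxe, ← h0]
    ext <;> simp [em]
  · have t1 : t ≤ 1 := by rw [ht, div_le_one h']; linarith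
    refine lt_of_le_of_ne t1 (fun h0 => x8 ?_)
    rw [hxe, h0, add_comm a b]
    ext <;> simp [em]

/-! ## Columns -/

/-- partial sums -/
def ps (b : ℕ → Z2) (i : ℕ) : Z2 := ∑ k ∈ Finset.range i, b k

theorem ps_zero (b : ℕ → Z2) : ps b 0 = 0 := by simp [ps]

theorem ps_succ (b : ℕ → Z2) (i : ℕ) : ps b (i + 1) = ps b i + b i := by
  simp [ps, Finset.sum_range_succ]

theorem ps_one (b : ℕ → Z2) : ps b 1 = b 0 := by rw [ps_succ, ps_zero, zero_add]

theorem ps_succ' (b : ℕ → Z2) (i : ℕ) : ps b (i + 1) = b 0 + ps (fun k => b (k + 1)) i := by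
  simp only [ps]
  rw [Finset.sum_range_succ', add_comm]

/-- the parallelogram at `P` -/
def PgmAt (P a b : Z2) : Set V := {x | x - em P ∈ Pgm a b}

/-- the height of the `i`-th corner -/
def hgt (a : Z2) (b : ℕ → Z2) (i : ℕ) : ℝ := (cr a (ps b i) : ℝ)

theorem hgt_succ (a : Z2) (b : ℕ → Z2) (i : ℕ) : hgt a b (i + 1) = hgt a b i + cr a (b i) := by
  simp only [hgt, ps_succ, cr_addr]; push_cast; ring

theorem hgt_zero (a : Z2) (b : ℕ → Z2) : hgt a b 0 = 0 := by
  simp only [hgt, ps_zero, cr_zero']; simp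

/-- a stack of developed parallelograms -/
structure Stk (O : PO X) (a : Z2) (b : ℕ → Z2) (f : ℕ → Z2 → X) : Prop where
  pos : ∀ i, 0 < cr a (b i)
  dev : ∀ i, Dev O (Pgm a (b i)) (f i)
  gl : ∀ i, Agree (Seg (b i) (b i + a)) (f i) (sh (b i) (f (i + 1)))

theorem Stk.mono {O : PO X} {a : Z2} {b : ℕ → Z2} {f : ℕ → Z2 → X} (S : Stk O a b f) :
    Monotone (hgt a b) := by
  refine monotone_nat_of_le_succ (fun i => ?_)
  rw [hgt_succ]
  have : (0 : ℝ) < cr a (b i) := by exact_mod_cast S.pos i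
  linarith

theorem slab_exists {h : ℕ → ℝ} {t : ℝ} : ∀ n : ℕ, h 0 ≤ t → t ≤ h (n + 1) →
    ∃ i ≤ n, h i ≤ t ∧ t ≤ h (i + 1) := by
  intro n
  induction n with
  | zero => exact fun h0 h1 => ⟨0, le_refl _, h0, h1⟩
  | succ n ih =>
    intro h0 h1
    rcases le_total (h (n + 1)) t with h2 | h2
    · exact ⟨n + 1, le_refl _, h2, h1⟩
    · obtain ⟨i, hi, h3, h4⟩ := ih h0 h2
      exact ⟨i, by omega, h3, h4⟩

/-- the `i`-th slab -/
def slab (a : Z2) (b : ℕ → Z2) (i : ℕ) : Set V := {x | hgt a b i ≤ crx a x ∧ crx a x ≤ hgt a b (i + 1)}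

/-- a convex set covered by the first `n + 1` parallelograms of a stack -/
theorem Stk.cut {O : PO X} {a : Z2} {b : ℕ → Z2} {f : ℕ → Z2 → X} (S : Stk O a b f) {K : Set V}
    (hK : Cvx K) (n : ℕ) (h1 : ∀ i ≤ n, ∀ x ∈ K, x ∈ slab a b i → x ∈ PgmAt (ps b i) a (b i))
    (h2 : ∀ x ∈ K, hgt a b 0 ≤ crx a x ∧ crx a x ≤ hgt a b (n + 1)) :
    ∃ g : Z2 → X, Dev O K g ∧ ∀ i ≤ n, Agree (K ∩ slab a b i) g (sh (ps b i) (f i)) := by
  obtain ⟨g, g1, g2⟩ := build hK a S.mono (fun i => sh (ps b i) (f i)) n (by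
    rintro i hi x ⟨hx, hx2⟩ z hz
    have hx3 : crx a x = hgt a b (i + 1) := hx2
    have m1 := h1 i hi.le x hx ⟨by rw [hx3]; exact S.mono (Nat.le_succ i), hx3.le⟩
    have m2 : x - em (ps b i) ∈ Seg (b i) (b i + a) := by
      refine mem_top (S.pos i) m1 ?_
      rw [crx_sub, crx_em, hx3, hgt_succ]
      simp only [hgt]; ring
    have m3 := S.gl i _ m2 (z - ps b i) ((nr_sub x z _).2 hz)
    simp only [sh] at m3 ⊢
    rw [m3, ps_succ]
    congr 1
    abel)
  have g3 : ∀ i ≤ n, Agree (K ∩ slab a b i) g (sh (ps b i) (f i)) := by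
    intro i hi
    rcases hi.lt_or_eq with h | h
    · exact g1 i h
    · subst h
      exact ag_mono g2 (fun x hx => ⟨hx.1, hx.2.1⟩)
  refine ⟨g, ?_, g3⟩
  intro x hx
  obtain ⟨h3, h4⟩ := h2 x hx
  obtain ⟨i, hi, h5, h6⟩ := slab_exists n h3 h4
  have m1 := h1 i hi x hx ⟨h5, h6⟩
  exact (DevAt.sh (S.dev i _ m1)).congr (fun z hz => g3 i hi x ⟨hx, h5, h6⟩ z hz)

end Pool.Agent.H4G.Six
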