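import Pool.Agent.H4G.Six.Model2

/-!
# The explicit origami of a horizontal E6 state: signs, commutator (helper41)
-/

set_option autoImplicit false

namespace Pool.Agent.H4G.Six

open Pool.Agent.H4G Equiv

/-! ## Sigma types over `Fin 3` -/

/-- three summands -/
def sig3 (Q : Fin 3 → Type) : (Σ i, Q i) ≃ Q 0 ⊕ (Q 1 ⊕ Q 2) where
  toFun
    | ⟨0, x⟩ => Sum.inl x
    | ⟨1, x⟩ => Sum.inr (Sum.inl x)
    | ⟨2, x⟩ => Sum.inr (Sum.inr x)
  invFun
    | Sum.inl x => ⟨0, x⟩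
    | Sum.inr (Sum.inl x) => ⟨1, x⟩
    | Sum.inr (Sum.inr x) => ⟨2, x⟩
  left_inv := by
    rintro ⟨i, x⟩
    fin_cases i <;> rfl
  right_inv := by
    rintro (x | x | x) <;> rfl

theorem sign_sig3 {Q : Fin 3 → Type} [∀ i, Fintype (Q i)] [∀ i, DecidableEq (Q i)]
    [Fintype (Σ i, Q i)] [DecidableEq (Σ i, Q i)] (σ : ∀ i, Perm (Q i)) :
    Perm.sign (Equiv.sigmaCongrRight σ) = Perm.sign (σ 0) * (Perm.sign (σ 1) * Perm.sign (σ 2)) := by
  rw [← Perm.sign_sumCongr, ← Perm.sign_sumCongr]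
  apply Perm.sign_eq_sign_of_equiv _ _ (sig3 Q)
  rintro ⟨i, x⟩
  fin_cases i <;> rfl

/-! ## The sign of a translation of a torus -/

/-- the sign of the translation by `d` on the torus `ℤ² / L` -/
noncomputable def chi (L : AddSubgroup Z2) (d : Z2) : ℤˣ :=
  open Classical in
  if Even (Nat.card (Z2 ⧸ L)) ∧ ∀ z : Z2, ∃ l ∈ L, ∃ (y : Z2) (k : ℤ), z = l + 2 • y + k • d
  then -1 else 1

theorem sign_torus (L : AddSubgroup Z2) [Fintype (Z2 ⧸ L)] [DecidableEq (Z2 ⧸ L)] (d : Z2) :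
    Perm.sign (Equiv.addRight (d : Z2 ⧸ L)) = chi L d := by
  have h1 := Sgn.sign_trans (d : Z2 ⧸ L)
  have h2 : (∀ x : Z2 ⧸ L, ∃ (y : Z2 ⧸ L) (k : ℤ), x = 2 • y + k • (d : Z2 ⧸ L)) ↔
      ∀ z : Z2, ∃ l ∈ L, ∃ (y : Z2) (k : ℤ), z = l + 2 • y + k • d := by
    constructor
    · intro h z
      obtain ⟨q, k, e⟩ := h (z : Z2 ⧸ L)
      obtain ⟨y, rfl⟩ := QuotientAddGroup.mk_surjective q
      rw [← QuotientAddGroup.mk_nsmul, ← QuotientAddGroup.mk_zsmul, ← QuotientAddGroup.mk_add,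
        eq_comm] at e
      have h3 := (QuotientAddGroup.eq).1 e
      exact ⟨_, h3, y, k, by abel⟩
    · intro h q
      obtain ⟨z, rfl⟩ := QuotientAddGroup.mk_surjective q
      obtain ⟨l, hl, y, k, e⟩ := h z
      refine ⟨y, k, ?_⟩
      rw [← QuotientAddGroup.mk_nsmul, ← QuotientAddGroup.mk_zsmul, ← QuotientAddGroup.mk_add,
        eq_comm]
      apply (QuotientAddGroup.eq).2
      rw [e]
      have e2 : -(2 • y + k • d) + (l + 2 • y + k • d) = l := by abel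
      rw [e2]; exact hl
  rw [h2, ← Nat.card_eq_fintype_card] at h1
  rw [chi]
  split_ifs with h3
  · exact h1.2 h3
  · rcases Int.units_eq_one_or (Perm.sign (Equiv.addRight (d : Z2 ⧸ L))) with h4 | h4
    · exact h4
    · exact absurd (h1.1 h4) h3

namespace MD

variable (D : MD)

/-- the signs of the translations -/
theorem sign_tr [Fintype D.Sq] [DecidableEq D.Sq] (d : Z2) :
    Perm.sign (D.tr d) = chi (D.L 0) d * (chi (D.L 1) d * chi (D.L 2) d) := by
  classical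
  rw [tr, sign_sig3, sign_torus, sign_torus, sign_torus]

/-- the sign does not depend on the decision procedures -/
theorem via_sign {A B : Type*} [Fintype A] [DecidableEq A] [Fintype B] (d d' : DecidableEq B)
    (e : Perm A) (f : A ↪ B) :
    @Perm.sign B d _ (@Perm.viaFintypeEmbedding A B _ d' e f) = Perm.sign e := by
  have hd : d' = d := Subsingleton.elim _ _
  subst hd
  exact Perm.viaFintypeEmbedding_sign e f

theorem sign_sg [Fintype D.Sq] [DecidableEq D.Sq] : Perm.sign D.sg = 1 := by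
  have h1 : Perm.sign (Equiv.prodCongrRight fun _ : Fin D.k => finRotate 3) = 1 := by
    rw [Perm.sign_prodCongrRight, sign_finRotate]
    simp
  rw [← h1, sg]
  exact via_sign _ _ _ _

theorem sign_r [Fintype D.Sq] [DecidableEq D.Sq] : Perm.sign D.O.r =
    chi (D.L 0) (1, 0) * (chi (D.L 1) (1, 0) * chi (D.L 2) (1, 0)) := D.sign_tr (1, 0)

theorem sign_u [Fintype D.Sq] [DecidableEq D.Sq] : Perm.sign D.O.u =
    chi (D.L 0) (0, 1) * (chi (D.L 1) (0, 1) * chi (D.L 2) (0, 1)) := by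
  show Perm.sign (D.sg * D.tr (0, 1)) = _
  rw [Perm.sign_mul, sign_sg, one_mul, sign_tr]

end MD

/-! ## The characters in coordinates -/

theorem chi_e1 {w s h : ℤ} (hw : 0 < w) (hh : 0 < h) :
    chi (latN w s h) (1, 0) = -1 ↔ Even w ∧ Odd h := by
  have hc := latN_card (s := s) hw hh
  have h1 : Even (Nat.card (Z2 ⧸ latN w s h)) ↔ Even (w * h) := by
    rw [← hc, Int.even_coe_nat]
  have h2 : (∀ z : Z2, ∃ l ∈ latN w s h, ∃ (y : Z2) (k : ℤ), z = l + 2 • y + k • ((1, 0) : Z2)) ↔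
      Odd h := by
    constructor
    · intro H
      obtain ⟨l, hl, y, k, e⟩ := H (0, 1)
      obtain ⟨m, n, rfl⟩ := mem_latN.1 hl
      have e2 := congrArg Prod.snd e
      simp at e2
      rw [← Int.not_even_iff_odd]
      rintro ⟨j, hj⟩
      rw [hj] at e2
      have : (1 : ℤ) = 2 * (n * j + y.2) := by rw [e2]; ring
      omega
    · rintro ⟨j, hj⟩ z
      refine ⟨(z.2 * s, z.2 * h), mem_latN.2 ⟨0, z.2, by simp⟩, (0, -(z.2 * j)), z.1 - z.2 * s, ?_⟩
      ext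
      · simp
      · simp [hj]; ring
  rw [chi]
  have h3 : (Even (Nat.card (Z2 ⧸ latN w s h)) ∧ ∀ z : Z2, ∃ l ∈ latN w s h, ∃ (y : Z2) (k : ℤ),
      z = l + 2 • y + k • ((1, 0) : Z2)) ↔ (Even w ∧ Odd h) := by
    rw [h1, h2, Int.even_mul]
    constructor
    · rintro ⟨h3 | h3, h4⟩
      · exact ⟨h3, h4⟩
      · exact absurd h3 (Int.not_even_iff_odd.2 h4)
    · rintro ⟨h3, h4⟩
      exact ⟨Or.inl h3, h4⟩
  split_ifs with h4
  · simp [h3.1 h4]
  · constructor
    · intro h5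
      exact absurd h5 (by decide)
    · intro h5
      exact absurd (h3.2 h5) h4

theorem chi_e2 {w s h : ℤ} (hw : 0 < w) (hh : 0 < h) :
    chi (latN w s h) (0, 1) = -1 ↔ Even (w * h) ∧ (Odd w ∨ Odd s) := by
  have hc := latN_card (s := s) hw hh
  have h1 : Even (Nat.card (Z2 ⧸ latN w s h)) ↔ Even (w * h) := by
    rw [← hc, Int.even_coe_nat]
  have h2 : (∀ z : Z2, ∃ l ∈ latN w s h, ∃ (y : Z2) (k : ℤ), z = l + 2 • y + k • ((0, 1) : Z2)) ↔
      (Odd w ∨ Odd s) := by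
    constructor
    · intro H
      obtain ⟨l, hl, y, k, e⟩ := H (1, 0)
      obtain ⟨m, n, rfl⟩ := mem_latN.1 hl
      have e2 := congrArg Prod.fst e
      simp at e2
      by_contra hno
      push Not at hno
      obtain ⟨g1, g2⟩ := hno
      obtain ⟨j1, hj1⟩ := Int.not_odd_iff_even.1 g1
      obtain ⟨j2, hj2⟩ := Int.not_odd_iff_even.1 g2
      rw [hj1, hj2] at e2
      have : (1 : ℤ) = 2 * (m * j1 + n * j2 + y.1) := by rw [e2]; ring
      omega
    · rintro (⟨j, hj⟩ | ⟨j, hj⟩) z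
      · refine ⟨(z.1 * w, 0), mem_latN.2 ⟨z.1, 0, by simp⟩, (-(z.1 * j), 0), z.2, ?_⟩
        ext
        · simp [hj]; ring
        · simp
      · refine ⟨(z.1 * s, z.1 * h), mem_latN.2 ⟨0, z.1, by simp⟩, (-(z.1 * j), 0),
          z.2 - z.1 * h, ?_⟩
        ext
        · simp [hj]; ring
        · simp
  rw [chi]
  split_ifs with h4
  · rw [h1, h2] at h4
    simp [h4]
  · rw [h1, h2] at h4
    constructor
    · intro h5
      exact absurd h5 (by decide)
    · intro h5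
      exact absurd h5 h4

theorem chi_e1' {w s h : ℤ} (hw : 0 < w) (hh : 0 < h) :
    chi (latN w s h) (1, 0) = if Even w ∧ Odd h then -1 else 1 := by
  have h1 := chi_e1 (s := s) hw hh
  split_ifs with h2
  · exact h1.2 h2
  · rcases Int.units_eq_one_or (chi (latN w s h) (1, 0)) with h4 | h4
    · exact h4
    · exact absurd (h1.1 h4) h2

theorem chi_e2' {w s h : ℤ} (hw : 0 < w) (hh : 0 < h) :
    chi (latN w s h) (0, 1) = if Even (w * h) ∧ (Odd w ∨ Odd s) then -1 else 1 := by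
  have h1 := chi_e2 (s := s) hw hh
  split_ifs with h2
  · exact h1.2 h2
  · rcases Int.units_eq_one_or (chi (latN w s h) (0, 1)) with h4 | h4
    · exact h4
    · exact absurd (h1.1 h4) h2

namespace MD

variable (D : MD)

/-- THE SIGN OF `r` -/
theorem sign_r' [Fintype D.Sq] [DecidableEq D.Sq] : Perm.sign D.O.r =
    (if Even (D.w 0) ∧ Odd (D.h 0) then -1 else 1) *
      ((if Even (D.w 1) ∧ Odd (D.h 1) then -1 else 1) *
        (if Even (D.w 2) ∧ Odd (D.h 2) then -1 else 1)) := by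
  rw [sign_r, chi_e1' (D.wpos 0) (D.hh 0), chi_e1' (D.wpos 1) (D.hh 1),
    chi_e1' (D.wpos 2) (D.hh 2)]

/-- THE SIGN OF `u` -/
theorem sign_u' [Fintype D.Sq] [DecidableEq D.Sq] : Perm.sign D.O.u =
    (if Even (D.w 0 * D.h 0) ∧ (Odd (D.w 0) ∨ Odd (D.s 0)) then -1 else 1) *
      ((if Even (D.w 1 * D.h 1) ∧ (Odd (D.w 1) ∨ Odd (D.s 1)) then -1 else 1) *
        (if Even (D.w 2 * D.h 2) ∧ (Odd (D.w 2) ∨ Odd (D.s 2)) then -1 else 1)) := by
  rw [sign_u, chi_e2' (D.wpos 0) (D.hh 0), chi_e2' (D.wpos 1) (D.hh 1),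
    chi_e2' (D.wpos 2) (D.hh 2)]

end MD

end Pool.Agent.H4G.Six
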