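import Pool.Agent.H4G.Six.Slit2

/-!
# The slit plane, change of the lattice (helper96)

A cylinder `(q, l)` is inserted in the slit `l` of the torus `⟨u, x⟩`, slit along `-l → 0 → m`,
and the torus contains the cylinder `(u - l, x)`. Then the surface is also the torus
`⟨l, x - q⟩`, slit along `m → 0 → x`, with the cylinder `(u - l, x)` inserted in the slit `x`.
-/

set_option autoImplicit false

namespace Pool.Agent.H4G.Six

open Pool.Agent.H4G Filter Topology

variable {X : Type}

/-- the geometric hypotheses -/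
structure HB (u x l q m : Z2) : Prop where
  b1 : 0 < cr l x
  b2 : cr m x < 0
  b3 : 0 < cr l x + cr m x
  b4 : cr l x < cr u x
  b5 : 0 < cr l m
  b6 : cr l m < cr l x
  b7 : 0 < cr q l

theorem crx_negl (a : Z2) (y : V) : crx (-a) y = -crx a y := by
  simp only [crx, Prod.fst_neg, Prod.snd_neg]; push_cast; ring

theorem crx_add (a : Z2) (x y : V) : crx a (x + y) = crx a x + crx a y := by
  simp only [crx, Prod.fst_add, Prod.snd_add]; ring

theorem crR_swap (a b : Z2) : (cr b a : ℝ) = -cr a b := by
  exact_mod_cast cr_swap' a b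

theorem crR_self (a : Z2) : (cr a a : ℝ) = 0 := by
  exact_mod_cast cr_self' a

theorem crR_zero (a : Z2) : (cr a 0 : ℝ) = 0 := by
  exact_mod_cast cr_zero' a

theorem crR_neg (a b : Z2) : (cr a (-b) : ℝ) = -cr a b := by
  exact_mod_cast cr_negr a b

theorem crR_add (a b c : Z2) : (cr a (b + c) : ℝ) = cr a b + cr a c := by
  exact_mod_cast cr_addr a b c

theorem crR_sub (a b c : Z2) : (cr a (b - c) : ℝ) = cr a b - cr a c := by
  simp only [cr, Prod.fst_sub, Prod.snd_sub]; push_cast; ring

theorem crR_zsmul (a b : Z2) (j : ℤ) : (cr a (j • b) : ℝ) = j * cr a b := by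
  simp only [cr, Prod.smul_fst, Prod.smul_snd, smul_eq_mul]
  push_cast; ring

theorem crR_subl (a b c : Z2) : (cr (a - b) c : ℝ) = cr a c - cr b c := by
  exact_mod_cast cr_subl a b c

section

variable {u x l q m : Z2}

structure HRs (u x l q m : Z2) : Prop where
  b1 : (0 : ℝ) < cr l x
  b2 : (cr m x : ℝ) < 0
  b3 : (0 : ℝ) < cr l x + cr m x
  b4 : (cr l x : ℝ) < cr u x
  b5 : (0 : ℝ) < cr l m
  b6 : (cr l m : ℝ) < cr l x
  b7 : (0 : ℝ) < cr q l

theorem HB.real (h : HB u x l q m) : HRs u x l q m :=
  ⟨by exact_mod_cast h.b1, by exact_mod_cast h.b2, by exact_mod_cast h.b3,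
    by exact_mod_cast h.b4, by exact_mod_cast h.b5, by exact_mod_cast h.b6,
    by exact_mod_cast h.b7⟩

/-- the interior of the cell is off the slits, except the slit `m` -/
theorem HB.reg_cell (h : HB u x l q m) {w : V} (h1 : 0 < crx l w) (h2 : crx l w < cr l x)
    (h3 : 0 ≤ crx x w) (h4 : crx x w ≤ cr l x) (h5 : w ∉ CSeg 0 m) :
    Reg (AddSubgroup.closure {u, x}) l m w := by
  obtain ⟨b1, b2, b3, b4, b5, b6, b7⟩ := h.real
  intro c hc
  obtain ⟨i, j, rfl⟩ := AddSubgroup.mem_closure_pair.1 hc
  constructor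
  · intro hw
    obtain ⟨t, t0, t1, ht⟩ := cseg_pt hw
    have e1 := ht x
    have e2 := ht l
    rw [crx_sub, crx_em, cr_comb, crR_neg, crR_zero, crR_swap u x, crR_swap l x, crR_self] at e1
    rw [crx_sub, crx_em, cr_comb, crR_neg, crR_zero, crR_self] at e2
    have hi : i = 0 := int_zero (B := (cr u x : ℝ)) (by linarith) (by nlinarith) (by nlinarith)
    subst hi
    simp only [Int.cast_zero, zero_mul, zero_add] at e2
    have hj : j = 0 := int_zero b1 (by nlinarith) (by nlinarith)
    subst hj
    simp only [Int.cast_zero, zero_mul] at e2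
    linarith
  · intro hw
    obtain ⟨t, t0, t1, ht⟩ := cseg_pt hw
    have e1 := ht x
    have e2 := ht l
    rw [crx_sub, crx_em, cr_comb, crR_zero, crR_swap u x, crR_swap m x, crR_self] at e1
    rw [crx_sub, crx_em, cr_comb, crR_zero] at e2
    have hi : i = 0 := int_zero (B := (cr u x : ℝ)) (by linarith) (by nlinarith) (by nlinarith)
    subst hi
    simp only [Int.cast_zero, zero_mul, zero_add] at e2
    have hj : j = 0 := int_zero b1 (by nlinarith) (by nlinarith)
    subst hj
    apply h5
    simpa [em_zero] using hw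

/-- the cylinder `(u - l, x)` is off the slits -/
theorem HB.reg_strip (h : HB u x l q m) {w : V} (hw : w ∈ Pgm (u - l) x) :
    Reg (AddSubgroup.closure {u, x}) l m w := by
  obtain ⟨b1, b2, b3, b4, b5, b6, b7⟩ := h.real
  obtain ⟨h1, h2, h3, h4, v0, v1, v2, v3⟩ := hw
  have hp : 0 < cr (u - l) x := by rw [cr_subl]; have := h.b4; omega
  rw [crR_subl] at h2 h4
  have hvert : ∀ j : ℤ, w ≠ em (j • x) := by
    rintro j rfl
    rw [crx_em] at h1 h2
    have e : (cr (u - l) (j • x) : ℝ) = j * (cr u x - cr l x) := by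
      rw [crR_zsmul, crR_subl]
    rw [e] at h1 h2
    have j0 : (0 : ℝ) ≤ j := by
      by_contra hc
      push Not at hc
      nlinarith
    have j1 : (j : ℝ) ≤ 1 := by
      by_contra hc
      push Not at hc
      nlinarith
    have j0' : 0 ≤ j := by exact_mod_cast j0
    have j1' : j ≤ 1 := by exact_mod_cast j1
    interval_cases j
    · simp at v0
    · simp at v2
  have hvert' : ∀ j : ℤ, w ≠ em (u - l + j • x) := by
    rintro j rfl
    rw [crx_em] at h1 h2
    have e : (cr (u - l) (u - l + j • x) : ℝ) = j * (cr u x - cr l x) := by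
      rw [crR_add, crR_self, crR_zsmul, crR_subl, zero_add]
    rw [e] at h1 h2
    have j0 : (0 : ℝ) ≤ j := by
      by_contra hc
      push Not at hc
      nlinarith
    have j1 : (j : ℝ) ≤ 1 := by
      by_contra hc
      push Not at hc
      nlinarith
    have j0' : 0 ≤ j := by exact_mod_cast j0
    have j1' : j ≤ 1 := by exact_mod_cast j1
    interval_cases j
    · simp at v1
    · simp at v3
  intro c hc
  obtain ⟨i, j, rfl⟩ := AddSubgroup.mem_closure_pair.1 hc
  constructor
  · intro hw
    obtain ⟨t, t0, t1, ht⟩ := cseg_pt hw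
    have e1 := ht x
    rw [crx_sub, crx_em, cr_comb, crR_neg, crR_zero, crR_swap u x, crR_swap l x, crR_self] at e1
    have i0 : (-1 : ℝ) < i := by
      by_contra hc
      push Not at hc
      nlinarith
    have i1 : (i : ℝ) < 2 := by
      by_contra hc
      push Not at hc
      nlinarith
    have i0' : -1 < i := by exact_mod_cast i0
    have i1' : i < 2 := by exact_mod_cast i1
    interval_cases i
    · have t2 : t = 1 := by
        push_cast at e1
        have : (1 - t) * cr l x ≤ 0 := by nlinarith
        nlinarith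
      subst t2
      apply hvert j
      have f1 := ht (u - l)
      have f2 := ht x
      rw [crx_sub, crx_em, crR_zero] at f1 f2
      refine pt_of hp ?_ ?_
      · simp only [zero_smul, zero_add] at f1
        linarith
      · simp only [zero_smul, zero_add] at f2
        linarith
    · have t2 : t = 0 := by
        push_cast at e1
        have : t * cr l x ≤ 0 := by nlinarith
        nlinarith
      subst t2
      apply hvert' j
      have f1 := ht (u - l)
      have f2 := ht x
      rw [crx_sub, crx_em, crR_zero, crR_neg] at f1 f2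
      have g : ∀ c : Z2, (cr c (u - l + j • x) : ℝ) = cr c ((1 : ℤ) • u + j • x) - cr c l := by
        intro c
        rw [one_smul, crR_add, crR_sub, crR_add]; ring
      refine pt_of hp ?_ ?_
      · rw [g]; linarith
      · rw [g]; linarith
  · intro hw
    obtain ⟨t, t0, t1, ht⟩ := cseg_pt hw
    have e1 := ht x
    rw [crx_sub, crx_em, cr_comb, crR_zero, crR_swap u x, crR_swap m x, crR_self] at e1
    have i0 : (-1 : ℝ) < i := by
      by_contra hc
      push Not at hc
      nlinarith
    have i1 : (i : ℝ) < 1 := by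
      by_contra hc
      push Not at hc
      nlinarith
    have i0' : -1 < i := by exact_mod_cast i0
    have i1' : i < 1 := by exact_mod_cast i1
    have hi : i = 0 := by omega
    subst hi
    have t2 : t = 0 := by
      push_cast at e1
      have : t * (-cr m x : ℝ) ≤ 0 := by nlinarith
      nlinarith
    subst t2
    apply hvert j
    have f1 := ht (u - l)
    have f2 := ht x
    rw [crx_sub, crx_em, crR_zero] at f1 f2
    refine pt_of hp ?_ ?_
    · simp only [zero_smul, zero_add] at f1
      linarith
    · simp only [zero_smul, zero_add] at f2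
      linarith

/-- THE CYLINDER `(u - l, x)` -/
theorem SPD.strip {O : PO X} {L0 L1 M0 M1 : Z2 → X} {φ : V → Z2 → X}
    (h : SPD O (AddSubgroup.closure {u, x}) l m L0 L1 M0 M1 φ) (hb : HB u x l q m) :
    ∃ X0 X1 Y : Z2 → X, Par O (u - l) x Y X0 Y X1 ∧
      (∀ y ∈ Seg 0 x, Reg (AddSubgroup.closure {u, x}) l m y ∧ ∀ z, Nr y z → X1 z = φ y z) ∧
      (∀ y ∈ Seg 0 x, Reg (AddSubgroup.closure {u, x}) l m (y - em l) ∧
        ∀ z, Nr y z → X0 z = φ (y - em l) (z - l)) := by
  have hp : 0 < cr (u - l) x := by rw [cr_subl]; have := hb.b4; omega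
  have hu : u ∈ AddSubgroup.closure {u, x} := AddSubgroup.subset_closure (by simp)
  have hx : x ∈ AddSubgroup.closure {u, x} := AddSubgroup.subset_closure (by simp)
  obtain ⟨g, hg⟩ := h.convex (cvx_pgm hp) (fun y hy => hb.reg_strip hy)
  have hr : ∀ y ∈ Seg 0 x, y + em (u - l) ∈ Pgm (u - l) x := by
    intro y hy
    apply seg_right hp
    have := seg_add' (u - l) hy
    rwa [add_zero] at this
  have hr2 : ∀ y ∈ Seg 0 x, Reg (AddSubgroup.closure {u, x}) l m (y - em l) := by
    intro y hy
    have := reg_sub (hb.reg_strip (hr y hy)) hu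
    have e : y + em (u - l) - em u = y - em l := by
      have : em (u - l) = em u - em l := by ext <;> simp [em]
      rw [this]; abel
    rwa [e] at this
  refine ⟨fun z => g (z + (u - l)), g, g, ⟨hp, g, ?_, ag_refl _ _, ?_, ?_, ag_refl _ _⟩, ?_, ?_⟩
  · intro y hy
    exact (h.dev y (hb.reg_strip hy)).congr (hg y hy)
  · intro y hy z hz
    show g z = g (z - (u - l) + (u - l))
    rw [sub_add_cancel]
  · intro y hy z hz
    have hy1 := seg_top hp hy
    have hy2 : y - em x ∈ Pgm (u - l) x := by
      apply seg_bot hp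
      apply seg_sub
      rwa [add_zero]
    show g z = g (z - x)
    rw [hg y hy1 z hz, hg _ hy2 _ ((nr_sub y z x).2 hz)]
    have := h.per _ (hb.reg_strip hy2) x hx (z - x) ((nr_sub y z x).2 hz)
    rwa [sub_add_cancel, sub_add_cancel] at this
  · intro y hy
    exact ⟨hb.reg_strip (seg_left hp hy), fun z hz => hg y (seg_left hp hy) z hz⟩
  · intro y hy
    refine ⟨hr2 y hy, fun z hz => ?_⟩
    have hz2 : Nr (y + em (u - l)) (z + (u - l)) := by
      have := (nr_sub (y + em (u - l)) (z + (u - l)) (u - l)).1 (by simpa using hz)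
      exact this
    show g (z + (u - l)) = φ (y - em l) (z - l)
    rw [hg _ (hr y hy) _ hz2]
    have := h.per _ (hr2 y hy) u hu (z - l) ((nr_sub y z l).2 hz)
    have e1 : y - em l + em u = y + em (u - l) := by
      have : em (u - l) = em u - em l := by ext <;> simp [em]
      rw [this]; abel
    have e2 : z - l + u = z + (u - l) := by abel
    rwa [e1, e2] at this

/-! ## Germs of the new plane -/

/-- the cell `(l, x)` with the lower left corner `-l` -/
def InCell (l x : Z2) (w : V) : Prop :=
  0 ≤ crx l w ∧ crx l w ≤ cr l x ∧ 0 ≤ crx x w ∧ crx x w ≤ cr l x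

/-- the cylinder `(q, l)`, without its two boundary lines -/
def InCyl (l q : Z2) (w : V) : Prop :=
  0 < crx l w ∧ crx l w < cr q l ∧ 0 ≤ crx q w ∧ crx q w ≤ cr q l

open Classical in
/-- the germ in the cell -/
noncomputable def cellF (l x : Z2) (L0 L1 : Z2 → X) (φ : V → Z2 → X) (w : V) : Z2 → X :=
  if crx l w = 0 then sh (-l) L1 else if crx l w = cr l x then sh (x - l) L0 else φ w

/-- the germs of the new plane -/
inductive GB (l x q : Z2) (L0 L1 fD : Z2 → X) (φ : V → Z2 → X) (y : V) : (Z2 → X) → Prop
  | cell (c : Z2) : c ∈ AddSubgroup.closure {l, x - q} → InCell l x (y - em c) →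
      GB l x q L0 L1 fD φ y (sh c (cellF l x L0 L1 φ (y - em c)))
  | cyl (c : Z2) : c ∈ AddSubgroup.closure {l, x - q} → InCyl l q (y - em (c + (x - l))) →
      GB l x q L0 L1 fD φ y (sh (c + (x - l)) fD)

/-- the cylinder `(q, l)`, turned by a quarter turn -/
structure CylF (O : PO X) (l q : Z2) (L0 L1 fD : Z2 → X) : Prop where
  dev : Dev O (Pgm l (-q)) fD
  lo : Agree (Seg 0 l) fD L0
  up : Agree (Seg (-q) (-q + l)) fD (sh (-q) L1)
  gl : Agree (Seg 0 (-q)) fD (fun z => fD (z + l))

theorem exists_cylF {O : PO X} {L0 L1 Q : Z2 → X} (h : Par O q l Q L0 Q L1) :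
    ∃ fD, CylF O l q L0 L1 fD := by
  obtain ⟨h0, f, h1, h2, h3, h4, h5⟩ := h.rot
  refine ⟨f, h1, h2, h4, ?_⟩
  intro w hw z hz
  have e1 := h5 w hw z hz
  have e2 := h3 (w + em l) (by
    have := seg_add' l hw
    rwa [add_zero] at this) (z + l) (by
    have := (nr_sub (w + em l) (z + l) l).1 (by simpa using hz)
    exact this)
  rw [e1]
  show _ = f (z + l)
  rw [e2]
  simp [sh]

theorem lat_small {c : Z2} (hc : c ∈ AddSubgroup.closure {l, x - q})
    (h0 : (0 : ℝ) < cr l (x - q)) (h1 : (cr l c : ℝ) < cr l (x - q))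
    (h2 : -(cr l (x - q) : ℝ) < cr l c) : ∃ k : ℤ, c = k • l := by
  obtain ⟨k, i, rfl⟩ := AddSubgroup.mem_closure_pair.1 hc
  rw [cr_comb, crR_self] at h1 h2
  have hi : i = 0 := int_zero h0 (by linarith) (by linarith)
  subst hi
  exact ⟨k, by simp⟩

theorem HRs.D (h : HRs u x l q m) : (cr l (x - q) : ℝ) = cr l x + cr q l := by
  rw [crR_sub, crR_swap q l]; ring

theorem HB.lne (h : HB u x l q m) : l ≠ 0 := by
  rintro rfl
  have := h.b1
  simp [cr] at this

theorem HB.mne (h : HB u x l q m) : m ≠ 0 := by
  rintro rfl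
  have := h.b2
  simp [cr] at this

theorem HB.xne (h : HB u x l q m) : x ≠ 0 := by
  rintro rfl
  have := h.b1
  simp [cr] at this

/-- a regular point is not on the sides `x` of the cell -/
theorem cell_strict (h : HRs u x l q m) {y : V}
    (hy : Reg (AddSubgroup.closure {l, x - q}) (-m) x y) {c : Z2}
    (hc : c ∈ AddSubgroup.closure {l, x - q}) (hin : InCell l x (y - em c)) :
    0 < crx x (y - em c) ∧ crx x (y - em c) < cr l x := by
  obtain ⟨h1, h2, h3, h4⟩ := hin
  have hl : l ∈ AddSubgroup.closure {l, x - q} := AddSubgroup.subset_closure (by simp)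
  have b1' : 0 < cr l (x - 0) := by rw [sub_zero]; exact_mod_cast h.b1
  constructor
  · rcases h3.lt_or_eq with h5 | h5
    · exact h5
    · exfalso
      apply (hy c hc).2
      refine mem_cseg (a := l) b1' ?_ ?_ ?_
      · rw [sub_zero, crR_zero, ← h5]
      · rw [crR_zero]; exact h1
      · exact h2
  · rcases h4.lt_or_eq with h5 | h5
    · exact h5
    · exfalso
      apply (hy (c - l) (AddSubgroup.sub_mem _ hc hl)).2
      have e : y - em (c - l) = y - em c + em l := by
        have : em (c - l) = em c - em l := by ext <;> simp [em]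
        rw [this]; abel
      rw [e]
      refine mem_cseg (a := l) b1' ?_ ?_ ?_
      · rw [sub_zero, crR_zero, crx_add, crx_em, h5, crR_swap l x]; ring
      · rw [crR_zero, crx_add, crx_em, crR_self]; linarith
      · rw [crx_add, crx_em, crR_self]; linarith

/-- uniqueness of the germs -/
theorem GB.uniq {O : PO X} {L0 L1 fD : Z2 → X} {φ : V → Z2 → X} (h : HRs u x l q m)
    (hf : CylF O l q L0 L1 fD) {y : V}
    (hy : Reg (AddSubgroup.closure {l, x - q}) (-m) x y) {F F' : Z2 → X}
    (h1 : GB l x q L0 L1 fD φ y F) (h2 : GB l x q L0 L1 fD φ y F') {z : Z2} (hz : Nr y z) :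
    F z = F' z := by
  have hD := h.D
  obtain ⟨b1, b2, b3, b4, b5, b6, b7⟩ := id h
  have hcr : ∀ (a : Z2) (w : V) (c : Z2), crx a (w - em c) = crx a w - cr a c := by
    intro a w c
    rw [crx_sub, crx_em]
  have hcyl : ∀ c c' : Z2, c ∈ AddSubgroup.closure {l, x - q} →
      c' ∈ AddSubgroup.closure {l, x - q} → InCell l x (y - em c) →
      InCyl l q (y - em (c' + (x - l))) → False := by
    rintro c c' hc hc' ⟨p1, p2, p3, p4⟩ ⟨q1, q2, q3, q4⟩
    rw [hcr] at p1 p2 q1 q2
    rw [crR_add, crR_sub, crR_self] at q1 q2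
    obtain ⟨k, hk⟩ := lat_small (c := c - c') (AddSubgroup.sub_mem _ hc hc') (by linarith)
      (by rw [crR_sub l c c']; linarith) (by rw [crR_sub l c c']; linarith)
    have e : (cr l (c - c') : ℝ) = 0 := by rw [hk, crR_zsmul, crR_self, mul_zero]
    rw [crR_sub] at e
    linarith
  cases h1 with
  | cell c hc hin =>
    cases h2 with
    | cell c' hc' hin' =>
      have s1 := cell_strict h hy hc hin
      have s2 := cell_strict h hy hc' hin'
      obtain ⟨p1, p2, p3, p4⟩ := hin
      obtain ⟨q1, q2, q3, q4⟩ := hin'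
      rw [hcr] at s1 s2 p1 p2 q1 q2
      obtain ⟨k, hk⟩ := lat_small (c := c - c') (AddSubgroup.sub_mem _ hc hc') (by linarith)
        (by rw [crR_sub l c c']; linarith) (by rw [crR_sub l c c']; linarith)
      have e : (cr x (c - c') : ℝ) = -(k * cr l x) := by
        rw [hk, crR_zsmul, crR_swap l x]; ring
      rw [crR_sub] at e
      have hk0 : k = 0 := int_zero b1 (by linarith) (by linarith)
      rw [hk0, zero_smul, sub_eq_zero] at hk
      rw [hk]
    | cyl c' hc' hin' => exact (hcyl c c' hc hc' hin hin').elim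
  | cyl c hc hin =>
    cases h2 with
    | cell c' hc' hin' => exact (hcyl c' c hc' hc hin' hin).elim
    | cyl c' hc' hin' =>
      obtain ⟨p1, p2, p3, p4⟩ := id hin
      obtain ⟨q1, q2, q3, q4⟩ := id hin'
      have key : ∀ c c' : Z2, InCyl l q (y - em (c + (x - l))) →
          InCyl l q (y - em (c' + (x - l))) → c = c' + l →
          sh (c + (x - l)) fD z = sh (c' + (x - l)) fD z := by
        rintro c c' ⟨p1, p2, p3, p4⟩ ⟨q1, q2, q3, q4⟩ rfl
        have e0 : y - em (c' + l + (x - l)) = y - em (c' + (x - l)) - em l := by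
          have : em (c' + l + (x - l)) = em (c' + (x - l)) + em l := by
            rw [← em_add]; congr 1; abel
          rw [this]; abel
        have hq : crx q (y - em (c' + (x - l))) = cr q l := by
          rw [e0, hcr] at p3
          linarith
        have hseg : y - em (c' + l + (x - l)) ∈ Seg 0 (-q) := by
          refine mem_seg (a := l) (by rw [sub_zero, cr_negr, cr_swap' q l, neg_neg]; exact_mod_cast b7)
            ?_ ?_ ?_
          · rw [sub_zero, crR_zero, e0, crx_negl, hcr, hq]; ring
          · rw [crR_zero]; exact p1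
          · rw [crR_neg, crR_swap q l]; linarith
        have := hf.gl _ hseg (z - (c' + l + (x - l))) ((nr_sub y z _).2 hz)
        show fD (z - (c' + l + (x - l))) = fD (z - (c' + (x - l)))
        rw [this]
        show fD (z - (c' + l + (x - l)) + l) = _
        congr 1
        abel
      rw [hcr] at p1 p2 p3 p4 q1 q2 q3 q4
      rw [crR_add] at p1 p2 p3 p4 q1 q2 q3 q4
      obtain ⟨k, hk⟩ := lat_small (c := c - c') (AddSubgroup.sub_mem _ hc hc') (by linarith)
        (by rw [crR_sub l c c']; linarith) (by rw [crR_sub l c c']; linarith)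
      have e : (cr q (c - c') : ℝ) = k * cr q l := by
        rw [hk, crR_zsmul]
      rw [crR_sub] at e
      have k1 : (k : ℝ) ≤ 1 := by
        by_contra hc
        push Not at hc
        nlinarith
      have k2 : (-1 : ℝ) ≤ k := by
        by_contra hc
        push Not at hc
        nlinarith
      have k1' : k ≤ 1 := by exact_mod_cast k1
      have k2' : -1 ≤ k := by exact_mod_cast k2
      interval_cases k
      · exact (key c' c hin' hin (by
          rw [neg_one_smul] at hk
          have : c' = c - (c - c') := by abel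
          rw [hk] at this
          rw [this]; abel)).symm
      · rw [zero_smul, sub_eq_zero] at hk
        rw [hk]
      · exact key c c' hin hin' (by
          rw [one_smul] at hk
          have : c = c' + (c - c') := by abel
          rw [hk] at this
          exact this)

theorem ev_sub {P : V → Prop} {y : V} {c : Z2} (h : ∀ᶠ p in 𝓝 (y - em c), P p) :
    ∀ᶠ y' in 𝓝 y, P (y' - em c) :=
  (continuous_id.sub continuous_const).continuousAt.eventually h

theorem ev_gt {a c : Z2} {r : ℝ} {y : V} (h : r < crx a (y - em c)) :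
    ∀ᶠ y' in 𝓝 y, r < crx a (y' - em c) :=
  ev_sub (continuousAt_const.eventually_lt (crx_cont a).continuousAt h)

theorem ev_lt {a c : Z2} {r : ℝ} {y : V} (h : crx a (y - em c) < r) :
    ∀ᶠ y' in 𝓝 y, crx a (y' - em c) < r :=
  ev_sub ((crx_cont a).continuousAt.eventually_lt continuousAt_const h)

/-- every point lies in a cell or in a cylinder -/
theorem HRs.cover (h : HRs u x l q m) (y : V) : ∃ c ∈ AddSubgroup.closure {l, x - q},
    InCell l x (y - em c) ∨
      (InCyl l q (y - em (c + (x - l))) ∧ crx q (y - em (c + (x - l))) < cr q l) := by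
  have hD := h.D
  obtain ⟨b1, b2, b3, b4, b5, b6, b7⟩ := id h
  have hcr : ∀ (a : Z2) (w : V) (c : Z2), crx a (w - em c) = crx a w - cr a c := by
    intro a w c
    rw [crx_sub, crx_em]
  obtain ⟨i, i1, i2⟩ := exists_fl (B := (cr l (x - q) : ℝ)) (by linarith) (crx l y)
  by_cases hc : crx l y - i * (cr l (x - q) : ℝ) ≤ cr l x
  · obtain ⟨j, j1, j2⟩ := exists_fl (B := (cr l x : ℝ)) b1
      (crx x y - i * cr x (x - q))
    refine ⟨(-j) • l + i • (x - q), AddSubgroup.mem_closure_pair.2 ⟨-j, i, rfl⟩, Or.inl ?_⟩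
    refine ⟨?_, ?_, ?_, ?_⟩ <;> rw [hcr, cr_comb]
    · rw [crR_self]; linarith
    · rw [crR_self]; linarith
    · rw [crR_swap l x]; push_cast; linarith
    · rw [crR_swap l x]; push_cast; linarith
  · push Not at hc
    obtain ⟨j, j1, j2⟩ := exists_fl (B := (cr q l : ℝ)) b7
      (crx q y - i * cr q (x - q) - cr q (x - l))
    refine ⟨j • l + i • (x - q), AddSubgroup.mem_closure_pair.2 ⟨j, i, rfl⟩, Or.inr ?_⟩
    refine ⟨⟨?_, ?_, ?_, ?_⟩, ?_⟩ <;> rw [hcr, crR_add, cr_comb]
    · rw [crR_self, crR_sub l x l, crR_self]; linarith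
    · rw [crR_self, crR_sub l x l, crR_self]; linarith
    · linarith
    · linarith
    · linarith

theorem line_q (h : HRs u x l q m) {w : V} (h0 : crx l w = 0) :
    (cr l x : ℝ) * crx q w = -(cr q l * crx x w) := by
  have := pluck l x q w
  rw [h0, crR_swap q l] at this
  linarith

theorem seg_l (h : HRs u x l q m) {w : V} (h0 : crx l w = 0) (h1 : crx x w < 0)
    (h2 : -(cr l x : ℝ) < crx x w) : w ∈ Seg 0 l := by
  refine mem_seg (a := -x) ?_ ?_ ?_ ?_
  · rw [sub_zero, cr_negl, cr_swap' l x, neg_neg]; exact_mod_cast h.b1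
  · rw [sub_zero, crR_zero, h0]
  · rw [crR_zero, crx_negl]; linarith
  · have : (cr (-x) l : ℝ) = cr l x := by
      have : cr (-x) l = cr l x := by rw [cr_negl, cr_swap' l x, neg_neg]
      exact_mod_cast this
    rw [this, crx_negl]; linarith

theorem InCyl.pgm (h : HRs u x l q m) {w : V} (hw : InCyl l q w) : w ∈ Pgm l (-q) := by
  obtain ⟨h1, h2, h3, h4⟩ := hw
  have e : (cr l (-q) : ℝ) = cr q l := by rw [crR_neg, crR_swap q l]; ring
  refine ⟨h1.le, by rw [e]; exact h2.le, by rw [crx_negl]; linarith,
    by rw [e, crx_negl]; linarith, ?_, ?_, ?_, ?_⟩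
  · apply ne_of_crx (a := l); rw [crR_zero]; exact h1.ne'
  · apply ne_of_crx (a := l); rw [crR_self]; exact h1.ne'
  · apply ne_of_crx (a := l); rw [e]; exact h2.ne
  · apply ne_of_crx (a := l); rw [crR_add, crR_self, e, zero_add]; exact h2.ne

/-- the germs are developed -/
theorem GB.dev {O : PO X} {L0 L1 M0 M1 fD : Z2 → X} {φ : V → Z2 → X} (hb : HB u x l q m)
    (hS : SPD O (AddSubgroup.closure {u, x}) l m L0 L1 M0 M1 φ)
    (hf : CylF O l q L0 L1 fD) {y : V}
    (hy : Reg (AddSubgroup.closure {l, x - q}) (-m) x y) {F : Z2 → X}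
    (h1 : GB l x q L0 L1 fD φ y F) : DevAt O y F := by
  have h := hb.real
  cases h1 with
  | cell c hc hin =>
    have s1 := cell_strict h hy hc hin
    apply DevAt.sh
    unfold cellF
    split_ifs with k1 k2
    · apply DevAt.sh
      apply hS.dL1
      apply seg_l h
      · rw [crx_sub, crx_em, k1, crR_neg, crR_self]; ring
      · rw [crx_sub, crx_em, crR_neg, crR_swap l x]; linarith
      · rw [crx_sub, crx_em, crR_neg, crR_swap l x]; linarith
    · apply DevAt.sh
      apply hS.dL0
      apply seg_l h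
      · rw [crx_sub, crx_em, k2, crR_sub, crR_self]; ring
      · rw [crx_sub, crx_em, crR_sub, crR_self, crR_swap l x]; linarith
      · rw [crx_sub, crx_em, crR_sub, crR_self, crR_swap l x]; linarith
    · apply hS.dev
      refine hb.reg_cell (lt_of_le_of_ne hin.1 (Ne.symm k1)) (lt_of_le_of_ne hin.2.1 k2) hin.2.2.1
        hin.2.2.2 ?_
      have := (hy c hc).1
      rwa [neg_neg, cseg_comm] at this
  | cyl c hc hin =>
    apply DevAt.sh
    exact hf.dev _ (hin.pgm h)

theorem seg_q (h : HRs u x l q m) {w : V} (h0 : crx q w = 0) (h1 : 0 < crx l w)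
    (h2 : crx l w < cr q l) : w ∈ Seg 0 (-q) := by
  refine mem_seg (a := l) (by
    rw [sub_zero, cr_negr, cr_swap' q l, neg_neg]; exact_mod_cast h.b7) ?_ ?_ ?_
  · rw [sub_zero, crR_zero, crx_negl, h0, neg_zero]
  · rw [crR_zero]; exact h1
  · rw [crR_neg, crR_swap q l]; linarith

/-- local constancy of the germs -/
theorem GB.near {O : PO X} {L0 L1 M0 M1 fD : Z2 → X} {φ : V → Z2 → X} (hb : HB u x l q m)
    (hS : SPD O (AddSubgroup.closure {u, x}) l m L0 L1 M0 M1 φ)
    (hf : CylF O l q L0 L1 fD) {y : V}
    (hy : Reg (AddSubgroup.closure {l, x - q}) (-m) x y) :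
    ∃ F0, GB l x q L0 L1 fD φ y F0 ∧ ∀ᶠ y' in 𝓝 y, ∃ F', GB l x q L0 L1 fD φ y' F' ∧
      ∀ z, Nr y' z → F' z = F0 z := by
  have h := hb.real
  have hD := h.D
  obtain ⟨b1, b2, b3, b4, b5, b6, b7⟩ := id h
  have hl : l ∈ AddSubgroup.closure {l, x - q} := AddSubgroup.subset_closure (by simp)
  have ht : x - q ∈ AddSubgroup.closure {l, x - q} := AddSubgroup.subset_closure (by simp)
  have hx : x ∈ AddSubgroup.closure {u, x} := AddSubgroup.subset_closure (by simp)
  have hcr : ∀ (a : Z2) (w : V) (c : Z2), crx a (w - em c) = crx a w - cr a c := by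
    intro a w c
    rw [crx_sub, crx_em]
  obtain ⟨c, hc, hin | ⟨hin, hlt⟩⟩ := h.cover y
  · have s := cell_strict h hy hc hin
    rcases eq_or_ne (crx l (y - em c)) 0 with r0 | r0
    · refine ⟨sh c (sh (-l) L1), ?_, ?_⟩
      · have := GB.cell (L0 := L0) (L1 := L1) (fD := fD) (φ := φ) c hc hin
        simpa only [cellF, r0, if_true] using this
      · have hseg : y - em (c - l) ∈ Seg 0 l := by
          apply seg_l h
          · rw [hcr] at r0 ⊢
            rw [crR_sub, crR_self]; linarith
          · rw [hcr] at s ⊢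
            rw [crR_sub, crR_swap l x]; linarith
          · rw [hcr] at s ⊢
            rw [crR_sub, crR_swap l x]; linarith
        have hq := line_q h r0
        have q1 : crx q (y - em c) < 0 := by nlinarith
        have q2 : -(cr q l : ℝ) < crx q (y - em c) := by nlinarith
        have E6 : 0 < crx q (y - em (c - (x - q) + (x - l))) := by
          rw [hcr] at q1 q2 ⊢
          rw [crR_add, crR_sub q c, crR_sub q x, crR_sub q x, crR_self]; linarith
        have E7 : crx q (y - em (c - (x - q) + (x - l))) < cr q l := by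
          rw [hcr] at q1 q2 ⊢
          rw [crR_add, crR_sub q c, crR_sub q x, crR_sub q x, crR_self]; linarith
        filter_upwards [ev_gt s.1, ev_lt s.2, ev_gt (a := l) (c := c) (y := y) (r := -(cr q l : ℝ))
          (by rw [r0]; linarith), ev_lt (a := l) (c := c) (y := y) (r := (cr l x : ℝ))
          (by rw [r0]; exact b1), ev_sub (hS.sL1 _ hseg), ev_gt E6, ev_lt E7, ev_nr y]
          with y' e1 e2 e3 e4 e5 e6 e7 e8
        rcases lt_trichotomy (crx l (y' - em c)) 0 with g | g | g
        · refine ⟨sh (c - (x - q) + (x - l)) fD, GB.cyl _ (AddSubgroup.sub_mem _ hc ht)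
            ⟨?_, ?_, e6.le, e7.le⟩, ?_⟩
          · rw [hcr] at g e3 ⊢
            rw [crR_add, crR_sub l c, crR_sub l x, crR_sub l x, crR_self, crR_swap q l]; linarith
          · rw [hcr] at g e3 ⊢
            rw [crR_add, crR_sub l c, crR_sub l x, crR_sub l x, crR_self, crR_swap q l]; linarith
          · intro z hz
            have hw := seg_add' (-q) hseg
            rw [add_zero] at hw
            have ez : y - em (c - l) + em (-q) = y - em (c - (x - q) + (x - l)) := by
              have e1 : em (c - (x - q) + (x - l)) = em (c - l) - em (-q) := by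
                ext
                · simp [em]; ring
                · simp [em]; ring
              rw [e1]; abel
            rw [ez] at hw
            have := hf.up _ hw (z - (c - (x - q) + (x - l))) ((nr_sub y z _).2 (e8 z hz))
            show fD (z - (c - (x - q) + (x - l))) = L1 (z - c - -l)
            rw [this]
            show L1 (z - (c - (x - q) + (x - l)) - -q) = _
            congr 1
            abel
        · refine ⟨sh c (sh (-l) L1), ?_, fun z _ => rfl⟩
          have := GB.cell (L0 := L0) (L1 := L1) (fD := fD) (φ := φ) c hc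
            (⟨g.ge, by rw [g]; exact b1.le, e1.le, e2.le⟩ : InCell l x (y' - em c))
          simpa only [cellF, g, if_true] using this
        · refine ⟨sh c (φ (y' - em c)), ?_, ?_⟩
          · have := GB.cell (L0 := L0) (L1 := L1) (fD := fD) (φ := φ) c hc
              (⟨g.le, e4.le, e1.le, e2.le⟩ : InCell l x (y' - em c))
            simpa only [cellF, g.ne', e4.ne, if_false] using this
          · intro z hz
            have := e5 (by
              rw [hcr] at g ⊢
              rw [crR_sub, crR_self]; linarith) (z - (c - l)) ((nr_sub y' z _).2 hz)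
            have e9 : y' - em (c - l) - em l = y' - em c := by
              have : em (c - l) = em c - em l := by ext <;> simp [em]
              rw [this]; abel
            rw [e9] at this
            show φ (y' - em c) (z - c) = L1 (z - c - -l)
            have e10 : z - (c - l) - l = z - c := by abel
            rw [e10] at this
            rw [this]
            congr 1
            abel
    · rcases eq_or_ne (crx l (y - em c)) (cr l x) with r1 | r1
      · refine ⟨sh c (sh (x - l) L0), ?_, ?_⟩
        · have := GB.cell (L0 := L0) (L1 := L1) (fD := fD) (φ := φ) c hc hin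
          simpa only [cellF, r0, r1, b1.ne', if_true, if_false] using this
        · have hseg : y - em (c + (x - l)) ∈ Seg 0 l := by
            apply seg_l h
            · rw [hcr] at r1 ⊢
              rw [crR_add, crR_sub, crR_self]; linarith
            · rw [hcr] at s ⊢
              rw [crR_add, crR_sub, crR_self, crR_swap l x]; linarith
            · rw [hcr] at s ⊢
              rw [crR_add, crR_sub, crR_self, crR_swap l x]; linarith
          have r2 : crx l (y - em (c + (x - l))) = 0 := by
            rw [hcr] at r1 ⊢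
            rw [crR_add, crR_sub, crR_self]; linarith
          have r3 : crx x (y - em (c + (x - l))) = crx x (y - em c) - cr l x := by
            rw [hcr, hcr, crR_add, crR_sub, crR_self, crR_swap l x]; ring
          have hq := line_q h r2
          rw [r3] at hq
          have E6 : 0 < crx q (y - em (c + (x - l))) := by nlinarith
          have E7 : crx q (y - em (c + (x - l))) < cr q l := by nlinarith
          filter_upwards [ev_gt s.1, ev_lt s.2, ev_gt (a := l) (c := c) (y := y)
            (r := (cr l m : ℝ)) (by rw [r1]; linarith), ev_lt (a := l) (c := c) (y := y)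
            (r := (cr l x + cr q l : ℝ)) (by rw [r1]; linarith), ev_sub (hS.sL0 _ hseg),
            ev_gt E6, ev_lt E7, ev_nr y] with y' e1 e2 e3 e4 e5 e6 e7 e8
          rcases lt_trichotomy (crx l (y' - em c)) (cr l x) with g | g | g
          · refine ⟨sh c (φ (y' - em c)), ?_, ?_⟩
            · have := GB.cell (L0 := L0) (L1 := L1) (fD := fD) (φ := φ) c hc
                (⟨(b5.trans e3).le, g.le, e1.le, e2.le⟩ : InCell l x (y' - em c))
              simpa only [cellF, (b5.trans e3).ne', g.ne, if_false] using this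
            · intro z hz
              have hreg : Reg (AddSubgroup.closure {u, x}) l m (y' - em c) := by
                refine hb.reg_cell (b5.trans e3) g e1.le e2.le ?_
                intro hm
                obtain ⟨t, t0, t1, htt⟩ := cseg_pt hm
                have := htt l
                rw [crR_zero] at this
                nlinarith
              have hreg2 := reg_sub hreg hx
              have k1 := hS.per _ hreg2 x hx (z - c - x)
                ((nr_sub (y' - em c) (z - c) x).2 ((nr_sub y' z c).2 hz))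
              rw [sub_add_cancel, sub_add_cancel] at k1
              have k2 := e5 (by
                rw [hcr] at g ⊢
                rw [crR_add, crR_sub, crR_self]; linarith) (z - (c + (x - l)))
                ((nr_sub y' z _).2 hz)
              have e9 : y' - em (c + (x - l)) - em l = y' - em c - em x := by
                have : em (c + (x - l)) = em c + em x - em l := by
                  ext
                  · simp [em]; ring
                  · simp [em]; ring
                rw [this]; abel
              have e10 : z - (c + (x - l)) - l = z - c - x := by abel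
              rw [e9, e10] at k2
              show φ (y' - em c) (z - c) = L0 (z - c - (x - l))
              rw [k1, k2]
              congr 1
              abel
          · refine ⟨sh c (sh (x - l) L0), ?_, fun z _ => rfl⟩
            have := GB.cell (L0 := L0) (L1 := L1) (fD := fD) (φ := φ) c hc
              (⟨by rw [g]; exact b1.le, g.le, e1.le, e2.le⟩ : InCell l x (y' - em c))
            simpa only [cellF, g, b1.ne', if_true, if_false] using this
          · refine ⟨sh (c + (x - l)) fD, GB.cyl _ hc ⟨?_, ?_, e6.le, e7.le⟩, ?_⟩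
            · rw [hcr] at g e4 ⊢
              rw [crR_add, crR_sub, crR_self]; linarith
            · rw [hcr] at g e4 ⊢
              rw [crR_add, crR_sub, crR_self]; linarith
            · intro z hz
              have := hf.lo _ hseg (z - (c + (x - l))) ((nr_sub y z _).2 (e8 z hz))
              show fD (z - (c + (x - l))) = L0 (z - c - (x - l))
              rw [this]
              congr 1
              abel
      · have hreg : Reg (AddSubgroup.closure {u, x}) l m (y - em c) := by
          refine hb.reg_cell (lt_of_le_of_ne hin.1 (Ne.symm r0)) (lt_of_le_of_ne hin.2.1 r1)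
            hin.2.2.1 hin.2.2.2 ?_
          have := (hy c hc).1
          rwa [neg_neg, cseg_comm] at this
        refine ⟨sh c (φ (y - em c)), ?_, ?_⟩
        · have := GB.cell (L0 := L0) (L1 := L1) (fD := fD) (φ := φ) c hc hin
          simpa only [cellF, r0, r1, if_false] using this
        · filter_upwards [ev_gt s.1, ev_lt s.2, ev_gt (lt_of_le_of_ne hin.1 (Ne.symm r0)),
            ev_lt (lt_of_le_of_ne hin.2.1 r1), ev_sub (hS.lc _ hreg)] with y' e1 e2 e3 e4 e5
          refine ⟨sh c (φ (y' - em c)), ?_, ?_⟩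
          · have := GB.cell (L0 := L0) (L1 := L1) (fD := fD) (φ := φ) c hc
              (⟨e3.le, e4.le, e1.le, e2.le⟩ : InCell l x (y' - em c))
            simpa only [cellF, e3.ne', e4.ne, if_false] using this
          · intro z hz
            exact e5 (z - c) ((nr_sub y' z c).2 hz)
  · rcases hin.2.2.1.lt_or_eq with g | g
    · refine ⟨sh (c + (x - l)) fD, GB.cyl c hc hin, ?_⟩
      filter_upwards [ev_gt hin.1, ev_lt hin.2.1, ev_gt g, ev_lt hlt] with y' e1 e2 e3 e4
      exact ⟨_, GB.cyl c hc ⟨e1, e2, e3.le, e4.le⟩, fun z _ => rfl⟩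
    · refine ⟨sh (c + (x - l)) fD, GB.cyl c hc hin, ?_⟩
      filter_upwards [ev_gt hin.1, ev_lt hin.2.1, ev_gt (a := q) (c := c + (x - l)) (y := y)
        (r := -(cr q l : ℝ)) (by rw [← g]; linarith), ev_lt hlt, ev_nr y] with y' e1 e2 e3 e4 e5
      by_cases g' : 0 ≤ crx q (y' - em (c + (x - l)))
      · exact ⟨_, GB.cyl c hc ⟨e1, e2, g', e4.le⟩, fun z _ => rfl⟩
      · push Not at g'
        refine ⟨sh (c - l + (x - l)) fD, GB.cyl (c - l) (AddSubgroup.sub_mem _ hc hl)
          ⟨?_, ?_, ?_, ?_⟩, ?_⟩
        · rw [hcr] at e1 ⊢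
          rw [crR_add] at e1 ⊢
          rw [crR_sub l c, crR_self]; linarith
        · rw [hcr] at e2 ⊢
          rw [crR_add] at e2 ⊢
          rw [crR_sub l c, crR_self]; linarith
        · rw [hcr] at e3 ⊢
          rw [crR_add] at e3 ⊢
          rw [crR_sub q c]; linarith
        · rw [hcr] at g' ⊢
          rw [crR_add] at g' ⊢
          rw [crR_sub q c]; linarith
        · intro z hz
          have := hf.gl _ (seg_q h g.symm hin.1 hin.2.1) (z - (c + (x - l)))
            ((nr_sub y z _).2 (e5 z hz))
          show fD (z - (c - l + (x - l))) = fD (z - (c + (x - l)))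
          rw [this]
          show _ = fD (z - (c + (x - l)) + l)
          congr 1
          abel

theorem GB.shift {L0 L1 fD : Z2 → X} {φ : V → Z2 → X} {y : V} {F : Z2 → X}
    (h1 : GB l x q L0 L1 fD φ y F) {c : Z2} (hc : c ∈ AddSubgroup.closure {l, x - q}) :
    GB l x q L0 L1 fD φ (y + em c) (sh c F) := by
  have key : ∀ d e : Z2, e = c + d → y + em c - em e = y - em d := by
    intro d e he
    rw [he, em_add]; abel
  cases h1 with
  | cell d hd hin =>
    have k := key d (c + d) rfl
    have := GB.cell (L0 := L0) (L1 := L1) (fD := fD) (φ := φ) (y := y + em c) (c + d)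
      (AddSubgroup.add_mem _ hc hd) (by rw [k]; exact hin)
    rw [k, ← sh_sh] at this
    exact this
  | cyl d hd hin =>
    have k := key (d + (x - l)) (c + d + (x - l)) (by abel)
    have := GB.cyl (L0 := L0) (L1 := L1) (fD := fD) (φ := φ) (y := y + em c) (c + d)
      (AddSubgroup.add_mem _ hc hd) (by rw [k]; exact hin)
    rw [show c + d + (x - l) = c + (d + (x - l)) by abel, ← sh_sh] at this
    exact this

theorem loc_m (h : HRs u x l q m) {p : V} (hp : p ∈ Seg 0 m) {c : Z2}
    (hc : c ∈ AddSubgroup.closure {l, x - q}) :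
    (p - em c ∈ CSeg (- -m) 0 → c = 0) ∧ p - em c ∉ CSeg 0 x := by
  have hD := h.D
  obtain ⟨b1, b2, b3, b4, b5, b6, b7⟩ := id h
  obtain ⟨t, t0, t1, ht⟩ := seg_pt hp
  have p1 := ht l
  have p2 := ht x
  rw [crR_zero] at p1 p2
  rw [crR_swap m x] at p2
  constructor
  · intro hcs
    rw [neg_neg, cseg_comm] at hcs
    obtain ⟨t', t0', t1', ht'⟩ := cseg_pt hcs
    have e1 := ht' l
    have e2 := ht' x
    rw [crx_sub, crx_em, p1, crR_zero] at e1
    rw [crx_sub, crx_em, p2, crR_zero, crR_swap m x] at e2
    obtain ⟨k, hk⟩ := lat_small hc (by linarith) (by nlinarith) (by nlinarith)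
    rw [hk, crR_zsmul, crR_swap l x] at e2
    have hk0 : k = 0 := int_zero b1 (by nlinarith) (by nlinarith)
    rw [hk, hk0, zero_smul]
  · intro hcs
    obtain ⟨t', t0', t1', ht'⟩ := cseg_pt hcs
    have e1 := ht' l
    have e2 := ht' x
    rw [crx_sub, crx_em, p1, crR_zero] at e1
    rw [crx_sub, crx_em, p2, crR_zero, crR_self] at e2
    obtain ⟨k, hk⟩ := lat_small hc (by linarith) (by nlinarith) (by nlinarith)
    rw [hk, crR_zsmul, crR_swap l x] at e2
    have hk0 : k = 0 := int_zero b1 (by nlinarith) (by nlinarith)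
    rw [hk0] at e2
    simp only [Int.cast_zero, zero_mul] at e2
    nlinarith

theorem loc_x (h : HRs u x l q m) {p : V} (hp : p ∈ Seg 0 x) {c : Z2}
    (hc : c ∈ AddSubgroup.closure {l, x - q}) :
    p - em c ∉ CSeg (- -m) 0 ∧ (p - em c ∈ CSeg 0 x → c = 0) := by
  have hD := h.D
  obtain ⟨b1, b2, b3, b4, b5, b6, b7⟩ := id h
  obtain ⟨t, t0, t1, ht⟩ := seg_pt hp
  have p1 := ht l
  have p2 := ht x
  rw [crR_zero] at p1 p2
  rw [crR_self] at p2
  constructor
  · intro hcs
    rw [neg_neg, cseg_comm] at hcs
    obtain ⟨t', t0', t1', ht'⟩ := cseg_pt hcs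
    have e1 := ht' l
    have e2 := ht' x
    rw [crx_sub, crx_em, p1, crR_zero] at e1
    rw [crx_sub, crx_em, p2, crR_zero, crR_swap m x] at e2
    obtain ⟨k, hk⟩ := lat_small hc (by linarith) (by nlinarith) (by nlinarith)
    have e3 : (cr l c : ℝ) = 0 := by rw [hk, crR_zsmul, crR_self, mul_zero]
    rw [hk, crR_zsmul, crR_swap l x] at e2
    have hk0 : k = 0 := int_zero b1 (by nlinarith) (by nlinarith)
    rw [hk0] at e2
    simp only [Int.cast_zero, zero_mul] at e2
    have t2 : t' = 0 := by nlinarith
    rw [t2, e3] at e1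
    nlinarith
  · intro hcs
    obtain ⟨t', t0', t1', ht'⟩ := cseg_pt hcs
    have e1 := ht' l
    have e2 := ht' x
    rw [crx_sub, crx_em, p1, crR_zero] at e1
    rw [crx_sub, crx_em, p2, crR_zero, crR_self] at e2
    obtain ⟨k, hk⟩ := lat_small hc (by linarith) (by nlinarith) (by nlinarith)
    rw [hk, crR_zsmul, crR_swap l x] at e2
    have hk0 : k = 0 := int_zero b1 (by nlinarith) (by nlinarith)
    rw [hk, hk0, zero_smul]

/-- CHANGE OF THE LATTICE -/
theorem SPD.ex {O : PO X} {L0 L1 M0 M1 Q : Z2 → X} {φ : V → Z2 → X}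
    (h : SPD O (AddSubgroup.closure {u, x}) l m L0 L1 M0 M1 φ) (hb : HB u x l q m)
    (hq : Par O q l Q L0 Q L1) : ∃ (X0 X1 Y : Z2 → X) (φ' : V → Z2 → X),
      Par O (u - l) x Y X0 Y X1 ∧
      SPD O (AddSubgroup.closure {l, x - q}) (-m) x (sh (-m) M1) (sh (-m) M0) X0 X1 φ' := by
  have hR := hb.real
  obtain ⟨b1, b2, b3, b4, b5, b6, b7⟩ := id hR
  obtain ⟨X0, X1, Y, hpar, hX1, hX0⟩ := h.strip hb
  obtain ⟨fD, hf⟩ := exists_cylF hq
  have cov : ∀ y, ∃ F, GB l x q L0 L1 fD φ y F := by
    intro y
    obtain ⟨c, hc, hin | hin⟩ := hR.cover y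
    · exact ⟨_, GB.cell c hc hin⟩
    · exact ⟨_, GB.cyl c hc hin.1⟩
  choose φ' hφ' using cov
  have hl : l ∈ AddSubgroup.closure {l, x - q} := AddSubgroup.subset_closure (by simp)
  have hmne : -m ≠ 0 := by simpa using hb.mne
  
  -- the germ in the open cell
  have hcell : ∀ y' : V, ∀ c ∈ AddSubgroup.closure {l, x - q}, 0 < crx l (y' - em c) →
      crx l (y' - em c) < cr l x → 0 ≤ crx x (y' - em c) → crx x (y' - em c) ≤ cr l x →
      Reg (AddSubgroup.closure {l, x - q}) (-m) x y' → ∀ z, Nr y' z →
      φ' y' z = φ (y' - em c) (z - c) := by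
    intro y' c hc g1 g2 g3 g4 hr z hz
    have g := GB.cell (L0 := L0) (L1 := L1) (fD := fD) (φ := φ) c hc
      (⟨g1.le, g2.le, g3, g4⟩ : InCell l x (y' - em c))
    simp only [cellF, g1.ne', g2.ne, if_false] at g
    exact GB.uniq hR hf hr (hφ' y') g hz
  -- the slit m
  have hsm : ∀ p ∈ Seg 0 m, ∀ᶠ p' in 𝓝 p, crx m p' ≠ 0 → ∀ z, Nr p' z → φ' p' z = φ p' z := by
    intro p hp
    obtain ⟨t, t0, t1, ht⟩ := seg_pt hp
    have p1 := ht l
    have p2 := ht x
    rw [crR_zero] at p1 p2
    rw [crR_swap m x] at p2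
    have hp0 : p - em 0 = p := by simp [em_zero]
    have f1 : 0 < crx l (p - em 0) := by rw [hp0, p1]; nlinarith
    have f2 : crx l (p - em 0) < cr l x := by rw [hp0, p1]; nlinarith
    have f3 : 0 < crx x (p - em 0) := by rw [hp0, p2]; nlinarith
    have f4 : crx x (p - em 0) < cr l x := by rw [hp0, p2]; nlinarith
    filter_upwards [ev_gt f1, ev_lt f2, ev_gt f3, ev_lt f4, ev_slit hmne hb.xne p]
      with p' e1 e2 e3 e4 e5 hne z hz
    have hr : Reg (AddSubgroup.closure {l, x - q}) (-m) x p' := by
      intro c hc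
      obtain ⟨k1, k2⟩ := loc_m hR hp hc
      refine ⟨fun h1 => ?_, fun h1 => k2 ((e5 c).2 h1)⟩
      have hc0 := k1 ((e5 c).1 h1)
      rw [hc0, em_zero, sub_zero, neg_neg] at h1
      obtain ⟨t', t0', t1', ht'⟩ := cseg_pt h1
      apply hne
      rw [ht', crR_self, crR_zero]
      ring
    have := hcell p' 0 (AddSubgroup.zero_mem _) e1 e2 e3.le e4.le hr z hz
    rwa [em_zero, sub_zero, sub_zero] at this
  have hback : ∀ y ∈ Seg 0 (-m), y - em (-m) ∈ Seg 0 m := by
    intro y hy
    have := seg_add' m hy
    rw [add_zero, add_neg_cancel, seg_comm'] at this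
    have e : y - em (-m) = y + em m := by ext <;> simp [em]
    rwa [e]
  have hcrm : ∀ y : V, crx m (y - em (-m)) = -crx (-m) y := by
    intro y
    rw [crx_sub, crx_em, crR_neg, crR_self, crx_negl]; ring
  -- the slit x
  have hsx : ∀ p ∈ Seg 0 x, ∀ᶠ p' in 𝓝 p, crx x p' ≠ 0 →
      Reg (AddSubgroup.closure {l, x - q}) (-m) x p' := by
    intro p hp
    filter_upwards [ev_slit hmne hb.xne p] with p' e5 hne c hc
    obtain ⟨k1, k2⟩ := loc_x hR hp hc
    refine ⟨fun h1 => k1 ((e5 c).1 h1), fun h1 => ?_⟩
    have hc0 := k2 ((e5 c).2 h1)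
    rw [hc0, em_zero, sub_zero] at h1
    obtain ⟨t', t0', t1', ht'⟩ := cseg_pt h1
    apply hne
    rw [ht', crR_self, crR_zero]
    ring
  refine ⟨X0, X1, Y, φ', hpar, ⟨?_, ?_, ?_, ?_, ?_, ?_, ?_, ?_, ?_, ?_, ?_⟩⟩
  · exact fun y hy => (hφ' y).dev hb h hf hy
  · intro y hy
    obtain ⟨F0, g0, ev⟩ := GB.near hb h hf hy
    filter_upwards [ev, ev_reg hmne hb.xne hy, ev_nr y] with y' ⟨F', g', h'⟩ hr hn z hz
    rw [GB.uniq hR hf hr (hφ' y') g' hz, h' z hz, GB.uniq hR hf hy (hφ' y) g0 (hn z hz)]
  · intro y hy c hc z hz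
    have g1 := (hφ' y).shift hc
    have hz2 : Nr (y + em c) (z + c) := by
      have := (nr_sub (y + em c) (z + c) c).1 (by simpa using hz)
      exact this
    have := GB.uniq hR hf (reg_add hy hc) (hφ' (y + em c)) g1 hz2
    rw [this]
    show φ' y (z + c - c) = φ' y z
    rw [add_sub_cancel_right]
  · intro y hy
    filter_upwards [ev_sub (hsm _ (hback y hy)), ev_sub (h.sM1 _ (hback y hy))]
      with y' e1 e2 hlt z hz
    have hpos : 0 < crx m (y' - em (-m)) := by rw [hcrm]; linarith
    show φ' (y' - em (-m)) (z - -m) = M1 (z - -m)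
    rw [e1 hpos.ne' _ ((nr_sub y' z _).2 hz), e2 hpos _ ((nr_sub y' z _).2 hz)]
  · intro y hy
    filter_upwards [ev_sub (hsm _ (hback y hy)), ev_sub (h.sM0 _ (hback y hy))]
      with y' e1 e2 hlt z hz
    have hpos : crx m (y' - em (-m)) < 0 := by rw [hcrm]; linarith
    show φ' (y' - em (-m)) (z - -m) = M0 (z - -m)
    rw [e1 hpos.ne _ ((nr_sub y' z _).2 hz), e2 hpos _ ((nr_sub y' z _).2 hz)]
  · intro y hy
    obtain ⟨t, t0, t1, ht⟩ := seg_pt hy
    have p1 := ht l
    have p2 := ht x
    rw [crR_zero] at p1 p2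
    rw [crR_self] at p2
    have f1 : 0 < crx l (y - em l) := by rw [crx_sub, crx_em, p1, crR_self]; nlinarith
    have f2 : crx l (y - em l) < cr l x := by rw [crx_sub, crx_em, p1, crR_self]; nlinarith
    have f3 : 0 < crx x (y - em l) := by rw [crx_sub, crx_em, p2, crR_swap l x]; linarith
    filter_upwards [hsx y hy, ev_gt f1, ev_lt f2, ev_gt f3, ev_sub (h.lc _ (hX0 y hy).1),
      ev_nr y] with y' e1 e2 e3 e4 e5 e6 hlt z hz
    have := hcell y' l hl e2 e3 e4.le (by
      rw [crx_sub, crx_em, crR_swap l x]; linarith) (e1 hlt.ne) z hz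
    rw [this, e5 _ ((nr_sub y' z _).2 hz), (hX0 y hy).2 z (e6 z hz)]
  · intro y hy
    obtain ⟨t, t0, t1, ht⟩ := seg_pt hy
    have p1 := ht l
    have p2 := ht x
    rw [crR_zero] at p1 p2
    rw [crR_self] at p2
    have hy0 : ∀ w : V, w - em 0 = w := by intro w; simp [em_zero]
    have f1 : 0 < crx l (y - em 0) := by rw [hy0, p1]; nlinarith
    have f2 : crx l (y - em 0) < cr l x := by rw [hy0, p1]; nlinarith
    have f4 : crx x (y - em 0) < cr l x := by rw [hy0, p2]; linarith
    filter_upwards [hsx y hy, ev_gt f1, ev_lt f2, ev_lt f4, h.lc _ (hX1 y hy).1,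
      ev_nr y] with y' e1 e2 e3 e4 e5 e6 hlt z hz
    have := hcell y' 0 (AddSubgroup.zero_mem _) e2 e3 (by rw [hy0]; exact hlt.le) e4.le
      (e1 hlt.ne') z hz
    rw [hy0, sub_zero] at this
    rw [this, e5 _ hz, (hX1 y hy).2 z (e6 z hz)]
  · exact fun y hy => DevAt.sh (h.dM1 _ (hback y hy))
  · exact fun y hy => DevAt.sh (h.dM0 _ (hback y hy))
  · intro y hy
    refine (DevAt.sh (h.dev _ (hX0 y hy).1)).congr (fun z hz => ?_)
    rw [(hX0 y hy).2 z hz]
    rfl
  · intro y hy
    exact (h.dev _ (hX1 y hy).1).congr (fun z hz => (hX1 y hy).2 z hz)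

end

end Pool.Agent.H4G.Six
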