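import Pool.Agent.H4G.Six.Slit
import Pool.Agent.H4G.Six.SL6

/-!
# From the slit plane to the column (row (C), helper5)
-/

set_option autoImplicit false

namespace Pool.Agent.H4G.Six

open Pool.Agent.H4G Filter Topology

variable {X : Type}

/-! ## A parallelogram with two slit sides -/

/-- the parallelogram `0, a, a + d, d` without the left and right sides -/
def Kst (a d : Z2) : Set V :=
  {y | 0 ≤ crx a y ∧ crx a y ≤ (cr a d : ℝ) ∧ crx d y < 0 ∧ -(cr a d : ℝ) < crx d y}

theorem crx_lin (c : Z2) (x y : V) (t : ℝ) :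
    crx c (lin x y t) = (1 - t) * crx c x + t * crx c y := crx_comb c x y t

theorem crx_seg_self (d : Z2) {y : V} (hy : y ∈ Seg 0 d) : crx d y = 0 := by
  obtain ⟨t, h0, h1, rfl⟩ := hy
  simp only [crx, Prod.fst_zero, Prod.snd_zero]
  push_cast
  ring

theorem crx_seg_base {a d : Z2} (hp : 0 < cr a d) {y : V} (hy : y ∈ Seg 0 d) :
    0 < crx a y ∧ crx a y < (cr a d : ℝ) := by
  have hp' : (0 : ℝ) < (cr a d : ℝ) := by exact_mod_cast hp
  obtain ⟨t, h0, h1, rfl⟩ := hy
  have e : crx a ((1 - t) * (((0 : Z2).1 : ℤ) : ℝ) + t * (d.1 : ℝ),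
      (1 - t) * (((0 : Z2).2 : ℤ) : ℝ) + t * (d.2 : ℝ)) = t * (cr a d : ℝ) := by
    simp only [crx, cr, Prod.fst_zero, Prod.snd_zero]
    push_cast
    ring
  rw [e]
  constructor
  · positivity
  · nlinarith

theorem crx_add_em (c a : Z2) (y : V) : crx c (y + em a) = crx c y + (cr c a : ℝ) := by
  simp only [crx, em, cr, Prod.fst_add, Prod.snd_add]
  push_cast
  ring

theorem crx_sub_em (c a : Z2) (y : V) : crx c (y - em a) = crx c y - (cr c a : ℝ) := by
  simp only [crx, em, cr, Prod.fst_sub, Prod.snd_sub]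
  push_cast
  ring

theorem sub_em_mem {a d : Z2} {y : V} (hy : y ∈ Seg a (a + d)) : y - em a ∈ Seg 0 d :=
  mem_seg_add a d hy

theorem add_em_mem {a d : Z2} {y : V} (hy : y ∈ Seg 0 d) : y + em a ∈ Seg a (a + d) := by
  obtain ⟨t, h0, h1, rfl⟩ := hy
  refine ⟨t, h0, h1, ?_⟩
  ext <;> simp only [em, Prod.fst_add, Prod.snd_add, Prod.fst_zero, Prod.snd_zero] <;>
    push_cast <;> ring

/-- the segment from a boundary point to an inner point -/
theorem bd_eq {K : Set V} {ψ : V → Z2 → X} {G : X} {y0 y : V} {z : Z2}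
    (hlc : ∀ y ∈ K, ∀ᶠ y' in 𝓝 y, ∀ z, Nr y' z → ψ y' z = ψ y z)
    (hs : ∀ᶠ y' in 𝓝 y0, y' ∈ K → Nr y' z → ψ y' z = G)
    (hK : ∀ t : ℝ, 0 < t → t ≤ 1 → lin y0 y t ∈ K) (h0 : Nr y0 z) (h1 : Nr y z) :
    ψ y z = G := by
  classical
  have key := seg_const (c := fun t : ℝ => if t ≤ 0 then G else ψ (lin y0 y t) z) (by
    intro t t0 t1
    rcases t0.lt_or_eq with ht | ht
    · have e1 := (lin_cont y0 y).continuousAt.eventually (hlc _ (hK t ht t1))
      filter_upwards [e1, eventually_gt_nhds ht] with t' e1 g0 _ g2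
      have e2 : ¬ t' ≤ 0 := not_le.2 g0
      have e3 : ¬ t ≤ 0 := not_le.2 ht
      simp only [e2, e3, if_false]
      exact e1 z (nr_comb h0 h1 g0.le g2)
    · subst ht
      have e0 : Tendsto (lin y0 y) (𝓝 0) (𝓝 y0) := by
        have := (lin_cont y0 y).tendsto 0
        rwa [lin_zero] at this
      filter_upwards [e0.eventually hs] with t' e1 g1 g2
      simp only [le_refl, if_true]
      split_ifs with h
      · rfl
      · exact e1 (hK t' (not_le.1 h) g2) (nr_comb h0 h1 (not_le.1 h).le g2))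
  have e3 : ¬ (1 : ℝ) ≤ 0 := by norm_num
  simp only [le_refl, if_true, e3, if_false, lin_one] at key
  exact key.symm

/-- A PARALLELOGRAM WITH TWO SLIT SIDES -/
theorem piece {O : PO X} {ψ : V → Z2 → X} {a d : Z2} (hp : 0 < cr a d) {G0 G1 : Z2 → X}
    (hlc : ∀ y ∈ Kst a d, ∀ᶠ y' in 𝓝 y, ∀ z, Nr y' z → ψ y' z = ψ y z)
    (hdev : ∀ y ∈ Kst a d, DevAt O y (ψ y))
    (s0 : ∀ y ∈ Seg 0 d, ∀ᶠ y' in 𝓝 y, y' ∈ Kst a d → ∀ z, Nr y' z → ψ y' z = G0 z)
    (s1 : ∀ y ∈ Seg a (a + d), ∀ᶠ y' in 𝓝 y, y' ∈ Kst a d → ∀ z, Nr y' z →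
      ψ y' z = sh a G1 z)
    (d0 : ∀ y ∈ Seg 0 d, DevAt O y G0) (d1 : ∀ y ∈ Seg 0 d, DevAt O y G1) :
    ∃ f : Z2 → X, Dev O (Pgm a d) f ∧ (∀ y ∈ Kst a d, ∀ z, Nr y z → f z = ψ y z) ∧
      Agree (Seg 0 d) f G0 ∧ Agree (Seg a (a + d)) f (sh a G1) := by
  classical
  have hp' : (0 : ℝ) < (cr a d : ℝ) := by exact_mod_cast hp
  -- the three kinds of segments
  have k1 : ∀ y ∈ Kst a d, ∀ y' ∈ Kst a d, ∀ t : ℝ, 0 ≤ t → t ≤ 1 → lin y y' t ∈ Kst a d := by
    rintro y ⟨y1, y2, y3, y4⟩ y' ⟨z1, z2, z3, z4⟩ t t0 t1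
    have t1' : 0 ≤ 1 - t := by linarith
    refine ⟨?_, ?_, ?_, ?_⟩ <;> rw [crx_lin]
    · exact add_nonneg (mul_nonneg t1' y1) (mul_nonneg t0 z1)
    · nlinarith [mul_le_mul_of_nonneg_left y2 t1', mul_le_mul_of_nonneg_left z2 t0]
    · rcases t0.lt_or_eq with h | h
      · nlinarith [mul_nonneg t1' (neg_nonneg.2 y3.le), mul_pos h (neg_pos.2 z3)]
      · subst h; linarith
    · rcases t0.lt_or_eq with h | h
      · nlinarith [mul_nonneg t1' (sub_nonneg.2 y4.le), mul_pos h (sub_pos.2 z4)]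
      · subst h; linarith
  have k2 : ∀ y ∈ Seg 0 d, ∀ y' ∈ Kst a d, ∀ t : ℝ, 0 < t → t ≤ 1 → lin y y' t ∈ Kst a d := by
    rintro y hy y' ⟨z1, z2, z3, z4⟩ t t0 t1
    have t1' : 0 ≤ 1 - t := by linarith
    obtain ⟨y1, y2⟩ := crx_seg_base hp hy
    have y3 := crx_seg_self d hy
    refine ⟨?_, ?_, ?_, ?_⟩ <;> rw [crx_lin]
    · exact add_nonneg (mul_nonneg t1' y1.le) (mul_nonneg t0.le z1)
    · nlinarith [mul_le_mul_of_nonneg_left y2.le t1', mul_le_mul_of_nonneg_left z2 t0.le]
    · rw [y3]; nlinarith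
    · rw [y3]; nlinarith
  have k3 : ∀ y ∈ Seg a (a + d), ∀ y' ∈ Kst a d, ∀ t : ℝ, 0 < t → t ≤ 1 →
      lin y y' t ∈ Kst a d := by
    rintro y hy y' ⟨z1, z2, z3, z4⟩ t t0 t1
    have t1' : 0 ≤ 1 - t := by linarith
    have hy' := sub_em_mem hy
    obtain ⟨y1, y2⟩ := crx_seg_base hp hy'
    have y3 := crx_seg_self d hy'
    rw [crx_sub_em] at y1 y2 y3
    have sa : (cr a a : ℝ) = 0 := by simp only [cr]; push_cast; ring
    have sd : (cr d a : ℝ) = -(cr a d : ℝ) := by simp only [cr]; push_cast; ring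
    rw [sa] at y1 y2
    rw [sd] at y3
    refine ⟨?_, ?_, ?_, ?_⟩ <;> rw [crx_lin]
    · exact add_nonneg (mul_nonneg t1' (by linarith)) (mul_nonneg t0.le z1)
    · nlinarith [mul_le_mul_of_nonneg_left (show crx a y ≤ (cr a d : ℝ) by linarith) t1',
        mul_le_mul_of_nonneg_left z2 t0.le]
    · nlinarith
    · nlinarith
  have k4 : ∀ y ∈ Seg 0 d, ∀ y' ∈ Seg a (a + d), lin y y' (1 / 2) ∈ Kst a d := by
    rintro y hy y' hy'
    have hz := sub_em_mem hy'
    obtain ⟨y1, y2⟩ := crx_seg_base hp hy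
    have y3 := crx_seg_self d hy
    obtain ⟨z1, z2⟩ := crx_seg_base hp hz
    have z3 := crx_seg_self d hz
    rw [crx_sub_em] at z1 z2 z3
    have sa : (cr a a : ℝ) = 0 := by simp only [cr]; push_cast; ring
    have sd : (cr d a : ℝ) = -(cr a d : ℝ) := by simp only [cr]; push_cast; ring
    rw [sa] at z1 z2
    rw [sd] at z3
    refine ⟨?_, ?_, ?_, ?_⟩ <;> rw [crx_lin] <;> linarith
  -- the function
  set f : Z2 → X := fun z => if hz : ∃ y ∈ Kst a d, Nr y z then ψ hz.choose z
    else if ∃ y ∈ Seg 0 d, Nr y z then G0 z else sh a G1 z with hf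
  have f1 : ∀ y ∈ Kst a d, ∀ z, Nr y z → f z = ψ y z := by
    intro y hy z hz
    have hz' : ∃ y ∈ Kst a d, Nr y z := ⟨y, hy, hz⟩
    simp only [hf, hz', dif_pos]
    obtain ⟨h1, h2⟩ := hz'.choose_spec
    have key := seg_const (c := fun t => ψ (lin hz'.choose y t) z) (by
      intro t t0 t1
      have e1 := (lin_cont hz'.choose y).continuousAt.eventually
        (hlc _ (k1 _ h1 _ hy t t0 t1))
      filter_upwards [e1] with t' e1 h0' h1'
      exact e1 z (nr_comb h2 hz h0' h1'))
    simp only [lin_zero, lin_one] at key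
    exact key
  have f2 : Agree (Seg 0 d) f G0 := by
    intro y0 hy0 z hz
    by_cases hz' : ∃ y ∈ Kst a d, Nr y z
    · obtain ⟨y, hy, hyz⟩ := hz'
      rw [f1 y hy z hyz]
      exact bd_eq hlc (by
        filter_upwards [s0 y0 hy0] with y' e1 e2 e3
        exact e1 e2 z e3) (k2 y0 hy0 y hy) hz hyz
    · have hz2 : ∃ y ∈ Seg 0 d, Nr y z := ⟨y0, hy0, hz⟩
      simp only [hf, hz', hz2, dif_neg, if_true, not_false_eq_true]
  have f3 : Agree (Seg a (a + d)) f (sh a G1) := by
    intro y1 hy1 z hz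
    by_cases hz' : ∃ y ∈ Kst a d, Nr y z
    · obtain ⟨y, hy, hyz⟩ := hz'
      rw [f1 y hy z hyz]
      exact bd_eq hlc (by
        filter_upwards [s1 y1 hy1] with y' e1 e2 e3
        exact e1 e2 z e3) (k3 y1 hy1 y hy) hz hyz
    · have hz2 : ¬ ∃ y ∈ Seg 0 d, Nr y z := by
        rintro ⟨y0, hy0, hy0z⟩
        exact hz' ⟨_, k4 y0 hy0 y1 hy1, nr_comb hy0z hz (by norm_num) (by norm_num)⟩
      simp only [hf, hz', hz2, dif_neg, if_false, not_false_eq_true]
  refine ⟨f, ?_, f1, f2, f3⟩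
  -- the development
  intro y hy
  obtain ⟨y1, y2, y3, y4, y5, y6, y7, y8⟩ := hy
  rcases y3.lt_or_eq with h3 | h3
  · rcases y4.lt_or_eq with h4 | h4
    · have hk : y ∈ Kst a d := ⟨y1, y2, h3, h4⟩
      exact (hdev y hk).congr (f1 y hk)
    · -- the right side
      have hs : y ∈ Seg a (a + d) := by
        have hne : (cr a d : ℝ) ≠ 0 := hp'.ne'
        have e0 : y = (1 * (a.1 : ℝ) + (crx a y / (cr a d : ℝ)) * d.1,
            1 * (a.2 : ℝ) + (crx a y / (cr a d : ℝ)) * d.2) := by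
          refine crx_inj hp ?_ ?_
          · have : crx a (1 * (a.1 : ℝ) + (crx a y / (cr a d : ℝ)) * d.1,
              1 * (a.2 : ℝ) + (crx a y / (cr a d : ℝ)) * d.2) =
              (crx a y / (cr a d : ℝ)) * (cr a d : ℝ) := by
              simp only [cr]; push_cast; simp only [crx]; ring
            rw [this, div_mul_cancel₀ _ hne]
          · have : crx d (1 * (a.1 : ℝ) + (crx a y / (cr a d : ℝ)) * d.1,
              1 * (a.2 : ℝ) + (crx a y / (cr a d : ℝ)) * d.2) = -(cr a d : ℝ) := by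
              simp only [cr]; push_cast; simp only [crx]; ring
            rw [this, h4]
        have t0 : 0 < crx a y / (cr a d : ℝ) := by
          rcases y1.lt_or_eq with h | h
          · exact div_pos h hp'
          · exfalso
            apply y6
            rw [e0, ← h]
            ext <;> simp [em]
        have t1 : crx a y / (cr a d : ℝ) < 1 := by
          rw [div_lt_one hp']
          rcases y2.lt_or_eq with h | h
          · exact h
          · exfalso
            apply y8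
            rw [e0, h, div_self hne]
            ext <;> simp [em]
        refine ⟨_, t0, t1, ?_⟩
        conv_lhs => rw [e0]
        ext <;> simp only [Prod.fst_add, Prod.snd_add] <;> push_cast <;> ring
      exact (DevAt.sh (d1 _ (sub_em_mem hs))).congr (f3 y hs)
  · -- the left side
    have hs : y ∈ Seg 0 d := by
      have hne : (cr a d : ℝ) ≠ 0 := hp'.ne'
      have e0 : y = ((crx a y / (cr a d : ℝ)) * (d.1 : ℝ),
          (crx a y / (cr a d : ℝ)) * (d.2 : ℝ)) := by
        refine crx_inj hp ?_ ?_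
        · have : crx a ((crx a y / (cr a d : ℝ)) * (d.1 : ℝ),
            (crx a y / (cr a d : ℝ)) * (d.2 : ℝ)) =
            (crx a y / (cr a d : ℝ)) * (cr a d : ℝ) := by
            simp only [cr]; push_cast; simp only [crx]; ring
          rw [this, div_mul_cancel₀ _ hne]
        · have : crx d ((crx a y / (cr a d : ℝ)) * (d.1 : ℝ),
            (crx a y / (cr a d : ℝ)) * (d.2 : ℝ)) = 0 := by
            simp only [crx]; ring
          rw [this, h3]
      have t0 : 0 < crx a y / (cr a d : ℝ) := by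
        rcases y1.lt_or_eq with h | h
        · exact div_pos h hp'
        · exfalso
          apply y5
          rw [e0, ← h]
          ext <;> simp [em]
      have t1 : crx a y / (cr a d : ℝ) < 1 := by
        rw [div_lt_one hp']
        rcases y2.lt_or_eq with h | h
        · exact h
        · exfalso
          apply y7
          rw [e0, h, div_self hne]
          ext <;> simp [em]
      refine ⟨_, t0, t1, ?_⟩
      conv_lhs => rw [e0]
      ext <;> simp only [Prod.fst_zero, Prod.snd_zero] <;> push_cast <;> ring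
    exact (d0 y hs).congr (f2 y hs)

/-! ## Regular points -/

section reg

variable {u v l m : Z2}

theorem cr_cast_add (a b c : Z2) : (cr a (b + c) : ℝ) = (cr a b : ℝ) + (cr a c : ℝ) := by
  simp only [cr, Prod.fst_add, Prod.snd_add]; push_cast; ring

theorem mem_lat {c : Z2} (hc : c ∈ AddSubgroup.closure {u, v + l + m}) :
    ∃ i j : ℤ, (∀ a : Z2, (cr a c : ℝ) = i * (cr a u : ℝ) +
      j * ((cr a v : ℝ) + (cr a l : ℝ) + (cr a m : ℝ))) := by
  obtain ⟨i, j, rfl⟩ := AddSubgroup.mem_closure_pair.1 hc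
  refine ⟨i, j, fun a => ?_⟩
  simp only [cr, Prod.fst_add, Prod.snd_add, Prod.smul_fst, Prod.smul_snd, smul_eq_mul]
  push_cast
  ring

/-- integers in a window -/
theorem int_win0 {j : ℤ} {X p q : ℝ} (hX : 0 < X) (h1 : (j : ℝ) * X ≤ p) (h2 : p < X)
    (h3 : q ≤ (j : ℝ) * X) (h4 : -X < q) : j = 0 := by
  have a1 : (j : ℝ) < 1 := by
    by_contra h
    push Not at h
    nlinarith
  have a2 : (-1 : ℝ) < j := by
    by_contra h
    push Not at h
    nlinarith
  have b1 : j < 1 := by exact_mod_cast a1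
  have b2 : -1 < j := by exact_mod_cast a2
  omega

theorem int_open {i : ℤ} {F : ℝ} (hF : 0 < F) (h1 : -((i : ℝ) * F) < 0)
    (h2 : -F < -((i : ℝ) * F)) : False := by
  have a1 : (0 : ℝ) < i := by
    by_contra h
    push Not at h
    nlinarith
  have a2 : (i : ℝ) < 1 := by
    by_contra h
    push Not at h
    nlinarith
  have b1 : 0 < i := by exact_mod_cast a1
  have b2 : i < 1 := by exact_mod_cast a2
  omega

/-- coordinates of a point of a translated slit -/
theorem slit_eq {c : Z2} {y : V} {w : Z2} (h : y - em c ∈ CSeg 0 w) :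
    ∃ t : ℝ, 0 ≤ t ∧ t ≤ 1 ∧ ∀ a : Z2, crx a y = (cr a c : ℝ) + t * (cr a w : ℝ) := by
  obtain ⟨t, h0, h1, e⟩ := h
  refine ⟨t, h0, h1, fun a => ?_⟩
  have e1 := crx_sub_em a c y
  rw [e] at e1
  have e2 : crx a ((1 - t) * (((0 : Z2).1 : ℤ) : ℝ) + t * (w.1 : ℝ),
      (1 - t) * (((0 : Z2).2 : ℤ) : ℝ) + t * (w.2 : ℝ)) = t * (cr a w : ℝ) := by
    simp only [crx, cr, Prod.fst_zero, Prod.snd_zero]
    push_cast
    ring
  rw [e2] at e1
  linarith

theorem slit_eq' {c : Z2} {y : V} {w : Z2} (h : y - em c ∈ CSeg (-w) 0) :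
    ∃ t : ℝ, 0 ≤ t ∧ t ≤ 1 ∧ ∀ a : Z2, crx a y = (cr a c : ℝ) - t * (cr a w : ℝ) := by
  obtain ⟨t, h0, h1, e⟩ := h
  refine ⟨1 - t, by linarith, by linarith, fun a => ?_⟩
  have e1 := crx_sub_em a c y
  rw [e] at e1
  have e2 : crx a ((1 - t) * (((-w : Z2).1 : ℤ) : ℝ) + t * (((0 : Z2).1 : ℤ) : ℝ),
      (1 - t) * (((-w : Z2).2 : ℤ) : ℝ) + t * (((0 : Z2).2 : ℤ) : ℝ)) =
      -((1 - t) * (cr a w : ℝ)) := by
    simp only [crx, cr, Prod.fst_neg, Prod.snd_neg, Prod.fst_zero, Prod.snd_zero]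
    push_cast
    ring
  rw [e2] at e1
  linarith

variable (p0 : 0 < cr u v) (p1 : 0 < cr u l) (p2 : 0 < cr u m)

include p0 p1 p2

theorem regC_m {y : V} (hy : y ∈ Kst u m) : Reg (AddSubgroup.closure {u, v + l + m}) l m y := by
  have q0 : (0 : ℝ) < (cr u v : ℝ) := by exact_mod_cast p0
  have q1 : (0 : ℝ) < (cr u l : ℝ) := by exact_mod_cast p1
  have q2 : (0 : ℝ) < (cr u m : ℝ) := by exact_mod_cast p2
  have su : (cr u u : ℝ) = 0 := by simp only [cr]; push_cast; ring
  have sm : (cr m m : ℝ) = 0 := by simp only [cr]; push_cast; ring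
  have smu : (cr m u : ℝ) = -(cr u m : ℝ) := by simp only [cr]; push_cast; ring
  obtain ⟨y1, y2, y3, y4⟩ := hy
  intro c hc
  obtain ⟨i, j, hij⟩ := mem_lat hc
  have cu := hij u
  have cm := hij m
  rw [su, mul_zero, zero_add] at cu
  constructor
  · intro h
    obtain ⟨t, t0, t1, ht⟩ := slit_eq' h
    have e1 := ht u
    rw [cu] at e1
    have ht1 : 0 ≤ t * (cr u l : ℝ) := mul_nonneg t0 q1.le
    have ht2 : t * (cr u l : ℝ) ≤ (cr u l : ℝ) := by nlinarith
    have hj : j = 0 := int_win0 (X := (cr u v : ℝ) + (cr u l : ℝ) + (cr u m : ℝ))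
      (p := (cr u m : ℝ) + (cr u l : ℝ)) (q := 0) (by linarith) (by linarith) (by linarith)
      (by linarith) (by linarith)
    subst hj
    push_cast at e1 cm
    rw [zero_mul, zero_sub] at e1
    have ht3 : t * (cr u l : ℝ) = 0 := by linarith
    have ht4 : t = 0 := (mul_eq_zero.1 ht3).resolve_right q1.ne'
    have e2 := ht m
    rw [ht4, cm, smu] at e2
    exact int_open (i := i) q2 (by linarith) (by linarith)
  · intro h
    obtain ⟨t, t0, t1, ht⟩ := slit_eq h
    have e1 := ht u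
    rw [cu] at e1
    have ht1 : 0 ≤ t * (cr u m : ℝ) := mul_nonneg t0 q2.le
    have ht2 : t * (cr u m : ℝ) ≤ (cr u m : ℝ) := by nlinarith
    have hj : j = 0 := int_win0 (X := (cr u v : ℝ) + (cr u l : ℝ) + (cr u m : ℝ))
      (p := (cr u m : ℝ)) (q := -(cr u m : ℝ)) (by linarith) (by linarith) (by linarith)
      (by linarith) (by linarith)
    subst hj
    push_cast at cm
    have e2 := ht m
    rw [cm, smu, sm] at e2
    exact int_open (i := i) q2 (by linarith) (by linarith)

theorem regC_l {y : V} (hy : y + em l ∈ Kst u l) :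
    Reg (AddSubgroup.closure {u, v + l + m}) l m y := by
  have q0 : (0 : ℝ) < (cr u v : ℝ) := by exact_mod_cast p0
  have q1 : (0 : ℝ) < (cr u l : ℝ) := by exact_mod_cast p1
  have q2 : (0 : ℝ) < (cr u m : ℝ) := by exact_mod_cast p2
  have su : (cr u u : ℝ) = 0 := by simp only [cr]; push_cast; ring
  have sl : (cr l l : ℝ) = 0 := by simp only [cr]; push_cast; ring
  have slu : (cr l u : ℝ) = -(cr u l : ℝ) := by simp only [cr]; push_cast; ring
  obtain ⟨y1, y2, y3, y4⟩ := hy
  rw [crx_add_em] at y1 y2 y3 y4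
  rw [sl] at y3 y4
  intro c hc
  obtain ⟨i, j, hij⟩ := mem_lat hc
  have cu := hij u
  have cl := hij l
  rw [su, mul_zero, zero_add] at cu
  constructor
  · intro h
    obtain ⟨t, t0, t1, ht⟩ := slit_eq' h
    have e1 := ht u
    rw [cu] at e1
    have ht1 : 0 ≤ t * (cr u l : ℝ) := mul_nonneg t0 q1.le
    have ht2 : t * (cr u l : ℝ) ≤ (cr u l : ℝ) := by nlinarith
    have hj : j = 0 := int_win0 (X := (cr u v : ℝ) + (cr u l : ℝ) + (cr u m : ℝ))
      (p := (cr u l : ℝ)) (q := -(cr u l : ℝ)) (by linarith) (by linarith) (by linarith)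
      (by linarith) (by linarith)
    subst hj
    push_cast at cl
    have e2 := ht l
    rw [cl, slu, sl] at e2
    exact int_open (i := i) q1 (by linarith) (by linarith)
  · intro h
    obtain ⟨t, t0, t1, ht⟩ := slit_eq h
    have e1 := ht u
    rw [cu] at e1
    have ht1 : 0 ≤ t * (cr u m : ℝ) := mul_nonneg t0 q2.le
    have ht2 : t * (cr u m : ℝ) ≤ (cr u m : ℝ) := by nlinarith
    have hj : j = 0 := int_win0 (X := (cr u v : ℝ) + (cr u l : ℝ) + (cr u m : ℝ))
      (p := 0) (q := -(cr u l : ℝ) - (cr u m : ℝ)) (by linarith) (by linarith) (by linarith)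
      (by linarith) (by linarith)
    subst hj
    push_cast at e1 cl
    rw [zero_mul, zero_add] at e1
    have ht3 : t * (cr u m : ℝ) = 0 := by linarith
    have ht4 : t = 0 := (mul_eq_zero.1 ht3).resolve_right q2.ne'
    have e2 := ht l
    rw [ht4, cl, slu] at e2
    exact int_open (i := i) q1 (by linarith) (by linarith)

theorem regC_v {y : V} (hy : y - em m ∈ Pgm u v) :
    Reg (AddSubgroup.closure {u, v + l + m}) l m y := by
  have q0 : (0 : ℝ) < (cr u v : ℝ) := by exact_mod_cast p0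
  have q1 : (0 : ℝ) < (cr u l : ℝ) := by exact_mod_cast p1
  have q2 : (0 : ℝ) < (cr u m : ℝ) := by exact_mod_cast p2
  have su : (cr u u : ℝ) = 0 := by simp only [cr]; push_cast; ring
  have sv : (cr v v : ℝ) = 0 := by simp only [cr]; push_cast; ring
  have svu : (cr v u : ℝ) = -(cr u v : ℝ) := by simp only [cr]; push_cast; ring
  obtain ⟨y1, y2, y3, y4, y5, y6, y7, y8⟩ := hy
  have z1 := crx_sub_em u m y
  have z2 := crx_sub_em v m y
  have win : ∀ i : ℤ, -(cr u v : ℝ) ≤ -((i : ℝ) * (cr u v : ℝ)) →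
      -((i : ℝ) * (cr u v : ℝ)) ≤ 0 → i = 0 ∨ i = 1 := by
    intro i h1 h2
    have a1 : (0 : ℝ) ≤ i := by
      by_contra h
      push Not at h
      nlinarith
    have a2 : (i : ℝ) ≤ 1 := by
      by_contra h
      push Not at h
      nlinarith
    have b1 : 0 ≤ i := by exact_mod_cast a1
    have b2 : i ≤ 1 := by exact_mod_cast a2
    omega
  intro c hc
  obtain ⟨i, j, hij⟩ := mem_lat hc
  have cu := hij u
  have cv := hij v
  rw [su, mul_zero, zero_add] at cu
  constructor
  · intro h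
    obtain ⟨t, t0, t1, ht⟩ := slit_eq' h
    have e1 := ht u
    rw [cu] at e1
    have ht1 : 0 ≤ t * (cr u l : ℝ) := mul_nonneg t0 q1.le
    have ht2 : t * (cr u l : ℝ) ≤ (cr u l : ℝ) := by nlinarith
    have hj : j - 1 = 0 := int_win0 (X := (cr u v : ℝ) + (cr u l : ℝ) + (cr u m : ℝ))
      (p := 0) (q := -(cr u v : ℝ) - (cr u l : ℝ)) (by linarith)
      (by push_cast; linarith) (by linarith) (by push_cast; linarith) (by linarith)
    have hj1 : j = 1 := by omega
    subst hj1
    push_cast at e1 cv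
    rw [one_mul] at e1 cv
    have ht3 : t * (cr u l : ℝ) = (cr u l : ℝ) := by linarith
    have ht4 : t = 1 := by
      have : (t - 1) * (cr u l : ℝ) = 0 := by linarith
      have := (mul_eq_zero.1 this).resolve_right q1.ne'
      linarith
    have e2 := ht v
    rw [ht4, cv, svu, sv] at e2
    have e3 : crx v (y - em m) = -((i : ℝ) * (cr u v : ℝ)) := by rw [z2, e2]; ring
    have e4 : crx u (y - em m) = (cr u v : ℝ) := by rw [z1, e1, ht4]; ring
    rcases win i (by linarith) (by linarith) with rfl | rfl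
    · apply y7
      refine crx_inj p0 ?_ ?_
      · rw [e4, crx_em]
      · rw [e3, crx_em, sv]; push_cast; ring
    · apply y8
      refine crx_inj p0 ?_ ?_
      · rw [e4, crx_em, cr_cast_add, su]; ring
      · rw [e3, crx_em, cr_cast_add, sv, svu]; push_cast; ring
  · intro h
    obtain ⟨t, t0, t1, ht⟩ := slit_eq h
    have e1 := ht u
    rw [cu] at e1
    have ht1 : 0 ≤ t * (cr u m : ℝ) := mul_nonneg t0 q2.le
    have ht2 : t * (cr u m : ℝ) ≤ (cr u m : ℝ) := by nlinarith
    have hj : j = 0 := int_win0 (X := (cr u v : ℝ) + (cr u l : ℝ) + (cr u m : ℝ))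
      (p := (cr u m : ℝ) + (cr u v : ℝ)) (q := 0) (by linarith) (by linarith) (by linarith)
      (by linarith) (by linarith)
    subst hj
    push_cast at e1 cv
    rw [zero_mul, zero_add] at e1
    rw [zero_mul, add_zero] at cv
    have ht3 : t * (cr u m : ℝ) = (cr u m : ℝ) := by linarith
    have ht4 : t = 1 := by
      have : (t - 1) * (cr u m : ℝ) = 0 := by linarith
      have := (mul_eq_zero.1 this).resolve_right q2.ne'
      linarith
    have e2 := ht v
    rw [ht4, cv, svu] at e2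
    have e3 : crx v (y - em m) = -((i : ℝ) * (cr u v : ℝ)) := by rw [z2, e2]; ring
    have e4 : crx u (y - em m) = 0 := by rw [z1, e1, ht4]; ring
    rcases win i (by linarith) (by linarith) with rfl | rfl
    · apply y5
      refine crx_inj p0 ?_ ?_
      · rw [e4, crx_em]; simp [cr]
      · rw [e3, crx_em]; simp [cr]
    · apply y6
      refine crx_inj p0 ?_ ?_
      · rw [e4, crx_em, su]
      · rw [e3, crx_em, svu]; push_cast; ring

end reg

/-! ## The column -/

theorem seg_low_kst {a d : Z2} (hp : 0 < cr a d) {y : V} (hy : y ∈ Seg 0 a) : y ∈ Kst a d := by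
  have hp' : (0 : ℝ) < (cr a d : ℝ) := by exact_mod_cast hp
  obtain ⟨t, h0, h1, rfl⟩ := hy
  have e1 : crx a ((1 - t) * (((0 : Z2).1 : ℤ) : ℝ) + t * (a.1 : ℝ),
      (1 - t) * (((0 : Z2).2 : ℤ) : ℝ) + t * (a.2 : ℝ)) = 0 := by
    simp only [crx, Prod.fst_zero, Prod.snd_zero]
    push_cast
    ring
  have e2 : crx d ((1 - t) * (((0 : Z2).1 : ℤ) : ℝ) + t * (a.1 : ℝ),
      (1 - t) * (((0 : Z2).2 : ℤ) : ℝ) + t * (a.2 : ℝ)) = -(t * (cr a d : ℝ)) := by
    simp only [crx, cr, Prod.fst_zero, Prod.snd_zero]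
    push_cast
    ring
  refine ⟨by rw [e1], by rw [e1]; exact hp'.le, ?_, ?_⟩
  · rw [e2]
    have := mul_pos h0 hp'
    linarith
  · rw [e2]; nlinarith

theorem seg_up_kst {a d : Z2} (hp : 0 < cr a d) {y : V} (hy : y ∈ Seg d (d + a)) :
    y ∈ Kst a d := by
  have hp' : (0 : ℝ) < (cr a d : ℝ) := by exact_mod_cast hp
  obtain ⟨t, h0, h1, rfl⟩ := hy
  have e1 : crx a ((1 - t) * (d.1 : ℝ) + t * (((d + a : Z2).1 : ℤ) : ℝ),
      (1 - t) * (d.2 : ℝ) + t * (((d + a : Z2).2 : ℤ) : ℝ)) = (cr a d : ℝ) := by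
    simp only [crx, cr, Prod.fst_add, Prod.snd_add]
    push_cast
    ring
  have e2 : crx d ((1 - t) * (d.1 : ℝ) + t * (((d + a : Z2).1 : ℤ) : ℝ),
      (1 - t) * (d.2 : ℝ) + t * (((d + a : Z2).2 : ℤ) : ℝ)) = -(t * (cr a d : ℝ)) := by
    simp only [crx, cr, Prod.fst_add, Prod.snd_add]
    push_cast
    ring
  refine ⟨by rw [e1]; exact hp'.le, by rw [e1], ?_, ?_⟩
  · rw [e2]
    have := mul_pos h0 hp'
    linarith
  · rw [e2]; nlinarith

theorem nr_add (x : V) (z c : Z2) : Nr (x + em c) (z + c) ↔ Nr x z := by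
  have := nr_sub (x + em c) (z + c) c
  rw [add_sub_cancel_right, add_sub_cancel_right] at this
  exact this.symm

theorem add_em_cont (c : Z2) : Continuous (fun y : V => y + em c) := by fun_prop

theorem sub_em_cont (c : Z2) : Continuous (fun y : V => y - em c) := by fun_prop

/-- ROW (C): THE COLUMN OF A SLIT PLANE -/
theorem SPD.col {O : PO X} {u v l m : Z2} {L0 L1 M0 M1 : Z2 → X} {φ : V → Z2 → X}
    (h : SPD O (AddSubgroup.closure {u, v + l + m}) l m L0 L1 M0 M1 φ) (p0 : 0 < cr u v)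
    (p1 : 0 < cr u l) (p2 : 0 < cr u m) : ∃ U0 U1 U2 W : Z2 → X,
      Par O u v U0 W U1 W ∧ Par O u l U1 L1 U2 L0 ∧ Par O u m U2 M1 U0 M0 := by
  have hu : u ∈ AddSubgroup.closure {u, v + l + m} := AddSubgroup.subset_closure (by simp)
  have hx : v + l + m ∈ AddSubgroup.closure {u, v + l + m} :=
    AddSubgroup.subset_closure (by simp)
  -- the parallelogram `(u, m)`
  obtain ⟨fm, m1, m2, m3, m4⟩ := piece (O := O) (ψ := φ) p2 (G0 := M0) (G1 := M1)
    (fun y hy => h.lc y (regC_m p0 p1 p2 hy)) (fun y hy => h.dev y (regC_m p0 p1 p2 hy))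
    (by
      intro y hy
      filter_upwards [h.sM0 y hy] with y' e1 e2 z hz
      exact e1 e2.2.2.1 z hz)
    (by
      intro y hy
      have e0 := (sub_em_cont u).continuousAt.eventually (h.sM1 _ (sub_em_mem hy))
      filter_upwards [e0] with y' e1 e2 z hz
      have e3 : 0 < crx m (y' - em u) := by
        rw [crx_sub_em]
        have : (cr m u : ℝ) = -(cr u m : ℝ) := by simp only [cr]; push_cast; ring
        rw [this]
        linarith [e2.2.2.2]
      have e4 := e1 e3 (z - u) ((nr_sub y' z u).2 hz)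
      have e5 := h.per _ (regC_m p0 p1 p2 e2) (-u) (AddSubgroup.neg_mem _ hu) z hz
      have e6 : y' + em (-u) = y' - em u := by
        ext <;> simp [em, sub_eq_add_neg]
      rw [e6, ← sub_eq_add_neg] at e5
      rw [← e5, e4]
      rfl)
    h.dM0 h.dM1
  -- the parallelogram `(u, l)` at `-l`
  obtain ⟨fl, l1, l2, l3, l4⟩ := piece (O := O) (ψ := fun y z => φ (y - em l) (z - l)) p1
    (G0 := L0) (G1 := L1)
    (by
      intro y hy
      have hr := regC_l (y := y - em l) p0 p1 p2 (by rw [sub_add_cancel]; exact hy)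
      have e0 := (sub_em_cont l).continuousAt.eventually (h.lc _ hr)
      filter_upwards [e0] with y' e1 z hz
      exact e1 (z - l) ((nr_sub y' z l).2 hz))
    (by
      intro y hy
      have hr := regC_l (y := y - em l) p0 p1 p2 (by rw [sub_add_cancel]; exact hy)
      have := DevAt.sh (c := l) (h.dev _ hr)
      exact this)
    (by
      intro y hy
      filter_upwards [h.sL0 y hy] with y' e1 e2 z hz
      exact e1 e2.2.2.1 z hz)
    (by
      intro y hy
      have e0 := (sub_em_cont u).continuousAt.eventually (h.sL1 _ (sub_em_mem hy))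
      filter_upwards [e0] with y' e1 e2 z hz
      have e3 : 0 < crx l (y' - em u) := by
        rw [crx_sub_em]
        have : (cr l u : ℝ) = -(cr u l : ℝ) := by simp only [cr]; push_cast; ring
        rw [this]
        linarith [e2.2.2.2]
      have e4 := e1 e3 (z - u) ((nr_sub y' z u).2 hz)
      have hr := regC_l (y := y' - em l) p0 p1 p2 (by rw [sub_add_cancel]; exact e2)
      have e5 := h.per _ hr (-u) (AddSubgroup.neg_mem _ hu) (z - l) ((nr_sub y' z l).2 hz)
      have e6 : y' - em l + em (-u) = y' - em u - em l := by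
        ext <;> simp [em] <;> ring
      have e7 : z - l + -u = z - u - l := by abel
      rw [e6, e7] at e5
      rw [← e5, e4]
      rfl)
    h.dL0 h.dL1
  -- the parallelogram `(u, v)` at `m`
  obtain ⟨g, hg⟩ := h.convex (K := {y | y - em m ∈ Pgm u v}) (by
      intro y hy y' hy' t t0 t1
      have h1 := cvx_pgm p0 (y - em m) hy (y' - em m) hy' t t0 t1
      have e : (((1 - t) * y.1 + t * y'.1, (1 - t) * y.2 + t * y'.2) : V) - em m =
          ((1 - t) * (y - em m).1 + t * (y' - em m).1,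
            (1 - t) * (y - em m).2 + t * (y' - em m).2) := by
        ext <;> simp only [Prod.fst_sub, Prod.snd_sub] <;> ring
      show _ - em m ∈ Pgm u v
      rw [e]
      exact h1) (fun y hy => regC_v p0 p1 p2 hy)
  set fv : Z2 → X := fun z => g (z + m) with hfv
  have v2 : ∀ y ∈ Pgm u v, ∀ z, Nr y z → fv z = φ (y + em m) (z + m) := by
    intro y hy z hz
    exact hg (y + em m) (by
      show y + em m - em m ∈ Pgm u v
      rw [add_sub_cancel_right]; exact hy) _ ((nr_add y z m).2 hz)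
  have rv : ∀ y ∈ Pgm u v, Reg (AddSubgroup.closure {u, v + l + m}) l m (y + em m) :=
    fun y hy => regC_v p0 p1 p2 (by rw [add_sub_cancel_right]; exact hy)
  refine ⟨fv, fl, fm, fv, ⟨p0, fv, ?_, ag_refl _ _, ?_, ?_, ag_refl _ _⟩,
    ⟨p1, fl, l1, ag_refl _ _, l4, ?_, l3⟩, ⟨p2, fm, m1, ag_refl _ _, m4, ?_, m3⟩⟩
  · -- development of `(u, v)`
    intro y hy
    have h1 : DevAt O y (fun z => φ (y + em m) (z + m)) := by
      have h2 := DevAt.sh (O := O) (x := y) (c := -m) (f := φ (y + em m)) (by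
        have e : y - em (-m) = y + em m := by ext <;> simp [em]
        rw [e]
        exact h.dev _ (rv y hy))
      have e3 : sh (-m) (φ (y + em m)) = fun z => φ (y + em m) (z + m) := by
        funext z
        simp [sh]
      rwa [e3] at h2
    exact h1.congr (v2 y hy)
  · -- the right side of `(u, v)`
    intro y hy z hz
    have k1 : y ∈ Pgm u v := seg_right p0 hy
    have k2 : y - em u ∈ Pgm u v := seg_left p0 (sub_em_mem hy)
    have k3 := (nr_sub y z u).2 hz
    show fv z = fv (z - u)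
    rw [v2 y k1 z hz, v2 _ k2 _ k3]
    have k4 := h.per _ (rv _ k2) u hu (z - u + m) ((nr_add _ _ m).2 k3)
    have e1 : y - em u + em m + em u = y + em m := by abel
    have e2 : z - u + m + u = z + m := by abel
    rw [e1, e2] at k4
    exact k4
  · -- the upper side of `(u, v)`
    intro y hy z hz
    have k1 : y ∈ Pgm u v := seg_top p0 hy
    have k2 : y - em v ∈ Kst u l := seg_low_kst p1 (mem_seg_add v u hy)
    have k3 := (nr_sub y z v).2 hz
    show fv z = fl (z - v)
    rw [v2 y k1 z hz, l2 _ k2 _ k3]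
    have hr := regC_l (y := y - em v - em l) p0 p1 p2 (by rw [sub_add_cancel]; exact k2)
    have k4 := h.per _ hr (v + l + m) hx (z - v - l) ((nr_sub _ _ l).2 k3)
    have e1 : y - em v - em l + em (v + l + m) = y + em m := by
      ext <;> simp [em] <;> ring
    have e2 : z - v - l + (v + l + m) = z + m := by abel
    rw [e1, e2] at k4
    exact k4
  · -- the upper side of `(u, l)`
    intro y hy z hz
    have k1 : y ∈ Kst u l := seg_up_kst p1 hy
    have k2 : y - em l ∈ Kst u m := seg_low_kst p2 (mem_seg_add l u hy)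
    have k3 := (nr_sub y z l).2 hz
    show fl z = fm (z - l)
    rw [l2 y k1 z hz, m2 _ k2 _ k3]
  · -- the upper side of `(u, m)`
    intro y hy z hz
    have k1 : y ∈ Kst u m := seg_up_kst p2 hy
    have k2 : y - em m ∈ Pgm u v := seg_bot p0 (mem_seg_add m u hy)
    have k3 := (nr_sub y z m).2 hz
    show fm z = fv (z - m)
    rw [m2 y k1 z hz, v2 _ k2 _ k3, sub_add_cancel, sub_add_cancel]

end Pool.Agent.H4G.Six
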