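import Pool.Agent.H4G.Six.SlitA
import Pool.Agent.H4G.Six.SlitB
import Pool.Agent.H4G.Six.SlitC
import Pool.Agent.H4G.Six.Mirror

/-!
# The (1,3)-exits (helper37)

From a positive tree `(u, v; l, q; m, s)` the cylinder `(l, q)` is exchanged for the cylinder
`(x, U - l)`, where `U, x` is any basis of the lattice `⟨u, v + l + m⟩` and `u', x'` any basis of the
lattice `⟨l, x - q⟩` of the new closed column:

* `exP` (`0 < l × m`): the new tree is `(u', x' + m - x; -m, -s; x, U - l)`;
* `exM` (`l × m < 0`): the new tree is `(u', x' + m + x; -m, -s; -x, l - U)`.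

`exP_symm`, `exM_symm` are the converses.
-/

set_option autoImplicit false

namespace Pool.Agent.H4G.Six

open Pool.Agent.H4G

variable {X : Type}

/-! ## Lattices -/

theorem clo_neg_left (a b : Z2) :
    AddSubgroup.closure ({-a, b} : Set Z2) = AddSubgroup.closure {a, b} := by
  apply le_antisymm
  · rw [AddSubgroup.closure_le]
    rintro z (rfl | rfl)
    · exact neg_mem (AddSubgroup.subset_closure (by simp))
    · exact AddSubgroup.subset_closure (by simp)
  · rw [AddSubgroup.closure_le]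
    rintro z (rfl | rfl)
    · have := neg_mem (AddSubgroup.subset_closure
        (show -z ∈ ({-z, b} : Set Z2) by simp))
      rwa [neg_neg] at this
    · exact AddSubgroup.subset_closure (by simp)

theorem clo_comm (a b : Z2) :
    AddSubgroup.closure ({a, b} : Set Z2) = AddSubgroup.closure {b, a} := by
  rw [Set.pair_comm]

theorem clo_neg_right (a b : Z2) :
    AddSubgroup.closure ({a, -b} : Set Z2) = AddSubgroup.closure {a, b} := by
  rw [clo_comm, clo_neg_left, clo_comm]

/-- the reflection of lattices -/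
def barH : Z2 →+ Z2 where
  toFun := bar
  map_zero' := bar_zero
  map_add' := bar_add

theorem clo_bar {a b c d : Z2}
    (h : AddSubgroup.closure ({a, b} : Set Z2) = AddSubgroup.closure {c, d}) :
    AddSubgroup.closure ({bar a, bar b} : Set Z2) = AddSubgroup.closure {bar c, bar d} := by
  have e : ∀ x y : Z2, AddSubgroup.closure ({bar x, bar y} : Set Z2) =
      (AddSubgroup.closure ({x, y} : Set Z2)).map barH := by
    intro x y
    rw [AddMonoidHom.map_closure]
    congr 1
    rw [Set.image_pair]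
    rfl
  rw [e, e, h]

theorem bar_lat1 {U x u v l m : Z2}
    (h : AddSubgroup.closure ({U, x} : Set Z2) = AddSubgroup.closure {u, v + l + m}) :
    AddSubgroup.closure ({bar U, -bar x} : Set Z2) =
      AddSubgroup.closure {-bar u, bar v + bar l + bar m} := by
  rw [clo_neg_right, clo_neg_left, ← bar_add, ← bar_add]
  exact clo_bar h

theorem bar_lat2 {u' x' l x q : Z2}
    (h : AddSubgroup.closure ({u', x'} : Set Z2) = AddSubgroup.closure {l, x - q}) :
    AddSubgroup.closure ({-bar u', bar x'} : Set Z2) =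
      AddSubgroup.closure {bar l, -bar x - -bar q} := by
  rw [clo_neg_left, show -bar x - -bar q = -bar (x - q) by rw [bar_sub]; abel, clo_neg_right]
  exact clo_bar h

theorem bar_tree (u' x' m s x U l : Z2) :
    bar6 (u', x' + m + x, -m, -s, -x, l - U) =
      (-bar u', bar x' + bar m - -bar x, -bar m, - -bar s, -bar x, bar U - bar l) := by
  simp only [bar6, bar_neg, bar_sub, bar_add, neg_neg, neg_sub, sub_neg_eq_add]

/-! ## The plus form -/

section forms

variable {O : PO X} {u v l q m s U x u' x' : Z2}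

/-- the (1,3)-exit, `0 < l × m` -/
theorem Has6.exP
    (h1 : AddSubgroup.closure ({U, x} : Set Z2) = AddSubgroup.closure {u, v + l + m})
    (h3 : 0 < cr l x) (h4 : cr l x < cr U x) (h5 : cr m x < 0)
    (h6 : 0 < cr l x + cr m x) (h7 : 0 < cr l m) (h8 : cr l m < cr l x)
    (h9 : AddSubgroup.closure ({u', x'} : Set Z2) = AddSubgroup.closure {l, x - q})
    (h11 : 0 < cr u' (x' + m - x)) (h12 : 0 < cr u' (-m)) (h13 : 0 < cr u' x)
    (h : Has6 O (u, v, l, q, m, s)) : Has6 O (u', x' + m - x, -m, -s, x, U - l) := by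
  obtain ⟨U0, U1, U2, W, L0, L1, M0, M1, Q, S, k1, k2, k3, k4, k5⟩ := h
  obtain ⟨φ, hφ⟩ := spd_of_col k1 k2 k3
  rw [← h1] at hφ
  obtain ⟨X0, X1, Y, φ', j1, j2⟩ := hφ.ex ⟨h3, h5, h6, h4, h7, h8, k4.1⟩ k4
  have e : (x' + m - x) + -m + x = x' := by abel
  rw [← h9, ← e] at j2
  obtain ⟨V0, V1, V2, W', i1, i2, i3⟩ := j2.col h11 h12 h13
  exact ⟨V0, V1, V2, W', _, _, X0, X1, _, Y, i1, i2, i3, k5.rot2, j1⟩

/-- the (1,3)-exit, `l × m < 0` -/
theorem Has6.exM
    (h1 : AddSubgroup.closure ({U, x} : Set Z2) = AddSubgroup.closure {u, v + l + m})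
    (h3 : 0 < cr l x) (h4 : cr l x < cr U x) (h5 : cr m x < 0)
    (h6 : 0 < cr l x + cr m x) (h7 : cr l m < 0) (h8 : 0 < cr l x + cr l m)
    (h9 : AddSubgroup.closure ({u', x'} : Set Z2) = AddSubgroup.closure {l, x - q})
    (h11 : 0 < cr u' (x' + m + x)) (h12 : 0 < cr u' (-m)) (h13 : 0 < cr u' (-x))
    (h : Has6 O (u, v, l, q, m, s)) : Has6 O (u', x' + m + x, -m, -s, -x, l - U) := by
  rw [← Has6.mir_iff, bar_tree]
  have h' : Has6 O.mir (-bar u, bar v, bar l, -bar q, bar m, -bar s) := h.mir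
  refine Has6.exP (bar_lat1 h1) ?_ ?_ ?_ ?_ ?_ ?_ (bar_lat2 h9) ?_ ?_ ?_ h'
  · rw [cr_nbar2]; exact h3
  · rw [cr_nbar2, cr_nbar2]; exact h4
  · rw [cr_nbar2]; exact h5
  · rw [cr_nbar2, cr_nbar2]; exact h6
  · rw [cr_bar]; linarith
  · rw [cr_bar, cr_nbar2]; linarith
  · rw [sub_neg_eq_add, ← bar_add, ← bar_add, cr_nbar]; exact h11
  · rw [cr_negl, cr_negr, neg_neg, cr_bar, ← cr_negr]; exact h12
  · rw [cr_negl, cr_negr, neg_neg, cr_bar, ← cr_negr]; exact h13

/-- the converse of `exP` -/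
theorem Has6.exP_symm (p1 : 0 < cr u v) (p2 : 0 < cr u l) (p3 : 0 < cr u m) (p4 : 0 < cr q l)
    (h1 : AddSubgroup.closure ({U, x} : Set Z2) = AddSubgroup.closure {u, v + l + m})
    (h3 : 0 < cr l x) (h5 : cr m x < 0)
    (h6 : 0 < cr l x + cr m x) (h7 : 0 < cr l m) (h8 : cr l m < cr l x)
    (h9 : AddSubgroup.closure ({u', x'} : Set Z2) = AddSubgroup.closure {l, x - q})
    (h : Has6 O (u', x' + m - x, -m, -s, x, U - l)) : Has6 O (u, v, l, q, m, s) := by
  have h' := h.swap
  simp only [neg_neg] at h'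
  have h2 := Has6.exM (U := q - x) (x := l) (u' := -u) (x' := -(v + l + m)) ?_ ?_ ?_ ?_ ?_ ?_ ?_
    ?_ ?_ ?_ ?_ h'
  · rw [show -(v + l + m) + m + l = -v by abel, show -x - (q - x) = -q by abel] at h2
    have h3' := h2.swap
    simp only [neg_neg] at h3'
    exact h3'
  · rw [show -(x' + m - x) + -x + m = -x' by abel, clo_neg_left, clo_neg_right, h9, clo_comm,
      show q - x = -(x - q) by abel, clo_neg_right]
  · rw [cr_negl, cr_swap']; linarith
  · rw [cr_negl, cr_subl, cr_swap' l x]; linarith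
  · rw [cr_swap']; linarith
  · rw [cr_negl, cr_swap' l x, cr_swap' l m]; linarith
  · rw [cr_negl, cr_swap' m x]; linarith
  · rw [cr_negl, cr_negl, cr_swap' l x, cr_swap' m x]; linarith
  · rw [show l - -(U - l) = U by abel, clo_neg_left, clo_neg_right, clo_neg_left, clo_comm x U, h1]
  · rw [show -(v + l + m) + m + l = -v by abel, cr_negl, cr_negr, neg_neg]; exact p1
  · rw [cr_negl, cr_negr, neg_neg]; exact p3
  · rw [cr_negl, cr_negr, neg_neg]; exact p2

/-- the converse of `exM` -/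
theorem Has6.exM_symm (p1 : 0 < cr u v) (p2 : 0 < cr u l) (p3 : 0 < cr u m) (p4 : 0 < cr q l)
    (h1 : AddSubgroup.closure ({U, x} : Set Z2) = AddSubgroup.closure {u, v + l + m})
    (h3 : 0 < cr l x) (h5 : cr m x < 0)
    (h6 : 0 < cr l x + cr m x) (h7 : cr l m < 0) (h8 : 0 < cr l x + cr l m)
    (h9 : AddSubgroup.closure ({u', x'} : Set Z2) = AddSubgroup.closure {l, x - q})
    (h : Has6 O (u', x' + m + x, -m, -s, -x, l - U)) : Has6 O (u, v, l, q, m, s) := by
  rw [← Has6.mir_iff]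
  have h' := h.mir
  rw [bar_tree] at h'
  refine Has6.exP_symm ?_ ?_ ?_ ?_ (bar_lat1 h1) ?_ ?_ ?_ ?_ ?_ (bar_lat2 h9) h'
  · rw [cr_nbar]; exact p1
  · rw [cr_nbar]; exact p2
  · rw [cr_nbar]; exact p3
  · rw [cr_nbar]; exact p4
  · rw [cr_nbar2]; exact h3
  · rw [cr_nbar2]; exact h5
  · rw [cr_nbar2, cr_nbar2]; exact h6
  · rw [cr_bar]; linarith
  · rw [cr_bar, cr_nbar2]; linarith

end forms

end Pool.Agent.H4G.Six
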