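import Pool.Agent.H4G.Six.SL6
import Pool.Agent.H4G.Six.Ex13

/-!
# Equivalent trees belong to origamis in one orbit (row G3, helper5; the exits: helper69)
-/

set_option autoImplicit false

namespace Pool.Agent.H4G.Six

open Pool.Agent.H4G

variable {X : Type}

/-- both trees of an exit are trees of the same origamis -/
theorem exOK : ExOK := by
  intro X O c c' hp h
  cases h with
  | exP _ _ _ _ _ _ _ _ _ _ h1 h2 h3 h4 h5 h6 h7 h8 h9 ha hb hc hd =>
    exact ⟨Has6.exP h1 h3 h4 h5 h6 h7 h8 h9 hb hc hd,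
      Has6.exP_symm hp.1 hp.2.1 hp.2.2.1 hp.2.2.2.1 h1 h3 h5 h6 h7 h8 h9⟩
  | exM _ _ _ _ _ _ _ _ _ _ h1 h2 h3 h4 h5 h6 h7 h8 h9 ha hb hc hd =>
    exact ⟨Has6.exM h1 h3 h4 h5 h6 h7 h8 h9 hb hc hd,
      Has6.exM_symm hp.1 hp.2.1 hp.2.2.1 hp.2.2.2.1 h1 h3 h5 h6 h7 h8 h9⟩

/-- equivalent trees are trees of origamis in the same orbit, both directions -/
theorem CEq6.has {c c' : C6} (h : CEq6 c c') :
    (∀ O : PO X, Has6 O c → ∃ O' : PO X, SLE6 O O' ∧ Has6 O' c') ∧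
    (∀ O : PO X, Has6 O c' → ∃ O' : PO X, SLE6 O O' ∧ Has6 O' c) := by
  refine Has6.orb_of ?_ ?_ h
  · intro O c c' hp h0 hm
    rcases hm.cases' with h1 | h1 | h1 | h1
    · exact Or.inl (h0.mv h1)
    · exact Or.inl ((exOK X O c c' hp h1).1 h0)
    · exact Or.inr (Or.inl h1)
    · exact Or.inr (Or.inr h1)
  · intro O c c' hp h0 hm
    rcases hm.cases' with h1 | h1 | h1 | h1
    · exact Or.inl (Has6.mv_symm hp h0 h1)
    · exact Or.inl ((exOK X O c c' hp h1).2 h0)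
    · exact Or.inr (Or.inl h1)
    · exact Or.inr (Or.inr h1)

/-- Equivalent trees: the second one is a tree of an origami in the same orbit. -/
theorem Has6.orb {O : PO X} {c c' : C6} (h : CEq6 c c') (_hc : Pos6 c) (h0 : Has6 O c) :
    ∃ O' : PO X, SLE6 O O' ∧ Has6 O' c' := h.has.1 O h0

end Pool.Agent.H4G.Six
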