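import Pool.Agent.H4G.Six.Norm6
import Pool.Agent.H4G.Six.Model3
import Pool.Agent.H4G.Six.Recon6
import Pool.Agent.H4G.Six.Fin6
import Pool.Agent.H4G.Six.Orb6

/-!
# Parity of an origami from its tree (row G6, helper69)

The two permutations of a connected origami with the positive tree `c` and `vol6 c` squares are both
even if and only if `inv6 c = 0`.
-/

set_option autoImplicit false

namespace Pool.Agent.H4G.Six

open Pool.Agent.H4G Equiv

/-- the sign of a residue -/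
def sg2 (a : ZMod 2) : ℤˣ := if a = 0 then 1 else -1

theorem sg2_add : ∀ a b : ZMod 2, sg2 (a + b) = sg2 a * sg2 b := by decide

theorem even_zmod (w : ℤ) : Even w ↔ (w : ZMod 2) = 0 := by
  rw [even_iff_two_dvd]
  exact (ZMod.intCast_zmod_eq_zero_iff_dvd w 2).symm

theorem odd_zmod (w : ℤ) : Odd w ↔ ¬ (w : ZMod 2) = 0 := by
  rw [← Int.not_even_iff_odd, even_zmod]

theorem chi1_lam (w s h : ℤ) : (if Even w ∧ Odd h then (-1 : ℤˣ) else 1) =
    sg2 (lam (w, 0) (s, h)).2 := by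
  have key : ∀ a b c : ZMod 2, (if a = 0 ∧ ¬ c = 0 then (-1 : ℤˣ) else 1) =
      sg2 (lam2 (a, 0) (b, c)).2 := by decide
  have e : lam (w, 0) (s, h) = lam2 ((w : ZMod 2), 0) ((s : ZMod 2), (h : ZMod 2)) := by
    simp [lam, m2]
  rw [e, ← key]
  exact if_congr (and_congr (even_zmod w) (odd_zmod h)) rfl rfl

theorem chi2_lam (w s h : ℤ) : (if Even (w * h) ∧ (Odd w ∨ Odd s) then (-1 : ℤˣ) else 1) =
    sg2 (lam (w, 0) (s, h)).1 := by
  have key : ∀ a b c : ZMod 2, (if a * c = 0 ∧ (¬ a = 0 ∨ ¬ b = 0) then (-1 : ℤˣ) else 1) =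
      sg2 (lam2 (a, 0) (b, c)).1 := by decide
  have e : lam (w, 0) (s, h) = lam2 ((w : ZMod 2), 0) ((s : ZMod 2), (h : ZMod 2)) := by
    simp [lam, m2]
  rw [e, ← key]
  refine if_congr (and_congr ?_ (or_congr (odd_zmod w) (odd_zmod s))) rfl rfl
  rw [even_zmod]
  push_cast
  rfl

namespace MD

variable (D : MD)

theorem inv6_tree : inv6 D.tree = lam (D.w 0, 0) (D.s 0, D.h 0) +
    lam (D.w 1, 0) (D.s 1, D.h 1) + lam (D.w 2, 0) (D.s 2, D.h 2) := by
  have e1 : D.uu + (D.w 1 - D.k, 0) = (D.w 1, 0) := by ext <;> simp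
  have e2 : D.uu + (D.w 2 - D.k, 0) = (D.w 2, 0) := by ext <;> simp
  simp only [tree, inv6]
  rw [e1, e2, lam_swap (D.vv 1), lam_swap (D.vv 2), D.w0]

/-- the sign of `r` and the parity invariant -/
theorem sign_r2 [Fintype D.Sq] [DecidableEq D.Sq] : Perm.sign D.O.r = sg2 (inv6 D.tree).2 := by
  rw [sign_r', inv6_tree, chi1_lam (D.w 0) (D.s 0), chi1_lam (D.w 1) (D.s 1),
    chi1_lam (D.w 2) (D.s 2), Prod.snd_add, Prod.snd_add, sg2_add, sg2_add, mul_assoc]

/-- the sign of `u` and the parity invariant -/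
theorem sign_u2 [Fintype D.Sq] [DecidableEq D.Sq] : Perm.sign D.O.u = sg2 (inv6 D.tree).1 := by
  rw [sign_u', inv6_tree, chi2_lam, chi2_lam, chi2_lam, Prod.fst_add, Prod.fst_add, sg2_add,
    sg2_add, mul_assoc]

theorem even_iff [Fintype D.Sq] [DecidableEq D.Sq] : Even6 D.O ↔ inv6 D.tree = 0 := by
  unfold Even6
  rw [sign_r2, sign_u2]
  generalize inv6 D.tree = a
  revert a
  decide

end MD

/-- THE PARITY OF AN ORIGAMI, with the orbit theorem as a hypothesis -/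
theorem even_iff_of_orb {X : Type} [Fintype X] [DecidableEq X] {O : PO X} {c : C6} (hc : Pos6 c)
    (hO : O.Trans) (hcard : (Nat.card X : ℤ) = vol6 c)
    (horb : ∀ c', CEq6 c c' → ∃ O' : PO X, SLE6 O O' ∧ Has6 O' c') :
    Even6 O ↔ inv6 c = 0 := by
  classical
  obtain ⟨D, hD⟩ := exists_model hc
  obtain ⟨O', h1, h2⟩ := horb _ hD
  have h3 : O'.Trans := (h1.trans_iff).1 hO
  have h4 : (Nat.card X : ℤ) = vol6 D.tree := by rw [hcard, hD.vol]
  obtain ⟨e, he⟩ := recon6 h3 D.trans h2 D.has h4 D.vol.symm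
  rw [h1.even, he.even, D.even_iff, hD.inv_zero]

/-- **THE PARITY OF AN ORIGAMI** (row G6) -/
theorem Has6.even_iff {X : Type} [Fintype X] [DecidableEq X] {O : PO X} {c : C6} (hc : Pos6 c)
    (h : Has6 O c) (hO : O.Trans) (hcard : (Nat.card X : ℤ) = vol6 c) :
    Even6 O ↔ inv6 c = 0 :=
  even_iff_of_orb hc hO hcard fun _ h1 => Has6.orb h1 hc h

end Pool.Agent.H4G.Six
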