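import Pool.Agent.H4G.Six.Defs

/-!
# Existence of odd type origamis with `N` squares (helper2)

For two finite abelian groups `G`, `G'` with `e ∈ G`, `e1, e2 ∈ G'` take the squares
`pt + G + G'`, `r = ` translation by `e` and `e1`, `u = ` translation by `0` and `e2`, followed by a
3-cycle through `pt`, `0`, `0`. It is in `H(4)`, primitive, and has no anti-automorphism if the
orders of `e` and `e1` are different. Signs: for every `N ≥ 9` there is one with `r` and `u` even
and one with `r` or `u` odd.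
-/

set_option autoImplicit false
set_option linter.unusedSimpArgs false
set_option linter.unusedSectionVars false

namespace Pool.Agent.H4G.Six

open Pool.Agent.H4G Equiv

/-! ### A 5-cycle -/

lemma star5 {α : Type} [DecidableEq α] {p a b b1 a1 : α} (h : [p, a, b, b1, a1].Nodup) :
    swap p a1 * swap p b1 * (swap p a * swap p b)⁻¹ = List.formPerm [p, a, b, b1, a1] := by
  simp only [List.nodup_cons, List.mem_cons, List.not_mem_nil, or_false, not_or, not_false_eq_true,
    List.nodup_nil, and_true] at h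
  obtain ⟨⟨h1, h2, h3, h4⟩, ⟨h5, h6, h7⟩, ⟨h8, h9⟩, h10⟩ := h
  ext x
  simp only [List.formPerm_cons_cons, List.formPerm_singleton, mul_one, mul_inv_rev, swap_inv,
    Perm.mul_apply]
  by_cases x1 : x = p
  · subst x1
    simp [swap_apply_def, *, Ne.symm h1, Ne.symm h2, Ne.symm h3, Ne.symm h4]
  by_cases x2 : x = a
  · subst x2
    simp [swap_apply_def, *, Ne.symm h1, Ne.symm h2, Ne.symm h3, Ne.symm h4, Ne.symm h5,
      Ne.symm h6, Ne.symm h7]
  by_cases x3 : x = b
  · subst x3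
    simp [swap_apply_def, *, Ne.symm h1, Ne.symm h2, Ne.symm h3, Ne.symm h4, Ne.symm h5,
      Ne.symm h6, Ne.symm h7, Ne.symm h8, Ne.symm h9]
  by_cases x4 : x = b1
  · subst x4
    simp [swap_apply_def, *, Ne.symm h1, Ne.symm h2, Ne.symm h3, Ne.symm h4, Ne.symm h5,
      Ne.symm h6, Ne.symm h7, Ne.symm h8, Ne.symm h9, Ne.symm h10]
  by_cases x5 : x = a1
  · subst x5
    simp [swap_apply_def, *, Ne.symm h1, Ne.symm h2, Ne.symm h3, Ne.symm h4, Ne.symm h5,
      Ne.symm h6, Ne.symm h7, Ne.symm h8, Ne.symm h9, Ne.symm h10]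
  simp [swap_apply_def, *]

/-! ### Paths -/

section Path

variable {X : Type} {O : PO X}

lemma p6_trans {x y z : X} {v w : Z2} (h : Path6 O x v y) (h' : Path6 O y w z) :
    Path6 O x (v + w) z := by
  induction h' with
  | refl => rwa [add_zero]
  | right _ ih => rw [← add_assoc]; exact Path6.right ih
  | left _ ih => rw [← add_sub_assoc]; exact Path6.left ih
  | up _ ih => rw [← add_assoc]; exact Path6.up ih
  | down _ ih => rw [← add_sub_assoc]; exact Path6.down ih

lemma p6_symm {x y : X} {w : Z2} (h : Path6 O x w y) : Path6 O y (-w) x := by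
  induction h with
  | refl => rw [neg_zero]; exact Path6.refl _
  | @right y w _ ih =>
    have h1 : Path6 O (O.r y) (0 - (1, 0)) (O.r.symm (O.r y)) := Path6.left (Path6.refl _)
    rw [O.r.symm_apply_apply] at h1
    have := p6_trans h1 ih
    rwa [show (0 : Z2) - (1, 0) + -w = -(w + (1, 0)) by abel] at this
  | @left y w _ ih =>
    have h1 : Path6 O (O.r.symm y) (0 + (1, 0)) (O.r (O.r.symm y)) := Path6.right (Path6.refl _)
    rw [O.r.apply_symm_apply] at h1
    have := p6_trans h1 ih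
    rwa [show (0 : Z2) + (1, 0) + -w = -(w - (1, 0)) by abel] at this
  | @up y w _ ih =>
    have h1 : Path6 O (O.u y) (0 - (0, 1)) (O.u.symm (O.u y)) := Path6.down (Path6.refl _)
    rw [O.u.symm_apply_apply] at h1
    have := p6_trans h1 ih
    rwa [show (0 : Z2) - (0, 1) + -w = -(w + (0, 1)) by abel] at this
  | @down y w _ ih =>
    have h1 : Path6 O (O.u.symm y) (0 + (0, 1)) (O.u (O.u.symm y)) := Path6.up (Path6.refl _)
    rw [O.u.apply_symm_apply] at h1
    have := p6_trans h1 ih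
    rwa [show (0 : Z2) + (0, 1) + -w = -(w - (0, 1)) by abel] at this

/-- the periods at a square -/
def per (O : PO X) (x : X) : AddSubgroup Z2 where
  carrier := {w | Path6 O x w x}
  zero_mem' := Path6.refl x
  add_mem' := fun h h' => p6_trans h h'
  neg_mem' := fun h => p6_symm h

lemma p6_exists (hO : O.Trans) (x y : X) : ∃ w, Path6 O x w y := by
  have h := hO {y | ∃ w, Path6 O x w y} ⟨x, 0, Path6.refl x⟩
    (fun y ⟨w, h⟩ => ⟨_, Path6.right h⟩) (fun y ⟨w, h⟩ => ⟨_, Path6.up h⟩)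
  have : y ∈ {y | ∃ w, Path6 O x w y} := h ▸ Set.mem_univ y
  exact this

lemma prim_of (hO : O.Trans) (p : X) (h1 : Path6 O p (1, 0) p) (h2 : Path6 O p (0, 1) p) :
    O.Prim := by
  have hall : ∀ w : Z2, Path6 O p w p := by
    intro w
    have e : w = w.1 • ((1, 0) : Z2) + w.2 • ((0, 1) : Z2) := by
      ext <;> simp
    have m : w ∈ per O p := by
      rw [e]
      exact (per O p).add_mem ((per O p).zsmul_mem h1 _) ((per O p).zsmul_mem h2 _)
    exact m
  intro x w
  obtain ⟨v, hv⟩ := p6_exists hO x p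
  have := p6_trans (p6_trans hv (hall w)) (p6_symm hv)
  rwa [show v + w + -v = w by abel] at this

end Path

/-! ### The family -/

section Family

variable {G G' : Type} [AddCommGroup G] [AddCommGroup G'] [DecidableEq G] [DecidableEq G']

/-- the horizontal permutation -/
def xr6 (e : G) (e1 : G') : Perm (Option (G ⊕ G')) :=
  optionCongr (sumCongr (Equiv.addRight e) (Equiv.addRight e1))

/-- the vertical translations -/
def xs6 (e2 : G') : Perm (Option (G ⊕ G')) :=
  optionCongr (sumCongr (1 : Perm G) (Equiv.addRight e2))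

/-- the three-cycle -/
def xc6 : Perm (Option (G ⊕ G')) :=
  swap none (some (Sum.inl 0)) * swap none (some (Sum.inr 0))

/-- the family -/
def fam (e : G) (e1 e2 : G') : PO (Option (G ⊕ G')) := ⟨xr6 e e1, xc6 * xs6 e2⟩

omit [DecidableEq G] [DecidableEq G'] in
lemma xr6_none (e : G) (e1 : G') : xr6 e e1 none = none := rfl
omit [DecidableEq G] [DecidableEq G'] in
lemma xr6_inl (e : G) (e1 : G') (g : G) : xr6 e e1 (some (Sum.inl g)) = some (Sum.inl (g + e)) := rfl
omit [DecidableEq G] [DecidableEq G'] in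
lemma xr6_inr (e : G) (e1 : G') (g : G') : xr6 e e1 (some (Sum.inr g)) = some (Sum.inr (g + e1)) :=
  rfl
omit [DecidableEq G] [DecidableEq G'] in
lemma xs6_none (e2 : G') : xs6 (G := G) e2 none = none := rfl
omit [DecidableEq G] [DecidableEq G'] in
lemma xs6_inl (e2 : G') (g : G) : xs6 e2 (some (Sum.inl g)) = some (Sum.inl g) := rfl
omit [DecidableEq G] [DecidableEq G'] in
lemma xs6_inr (e2 : G') (g : G') : xs6 (G := G) e2 (some (Sum.inr g)) = some (Sum.inr (g + e2)) := rfl

lemma xc6_none : xc6 (G := G) (G' := G') none = some (Sum.inr 0) := by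
  simp [xc6, swap_apply_def]

lemma xc6_inl0 : xc6 (G := G) (G' := G') (some (Sum.inl 0)) = none := by
  simp [xc6, swap_apply_def]

lemma xc6_inr0 : xc6 (G := G) (G' := G') (some (Sum.inr 0)) = some (Sum.inl 0) := by
  simp [xc6, swap_apply_def]

lemma xc6_inl {g : G} (h : g ≠ 0) : xc6 (G' := G') (some (Sum.inl g)) = some (Sum.inl g) := by
  simp [xc6, swap_apply_def, h]

lemma xc6_inr {g : G'} (h : g ≠ 0) : xc6 (G := G) (some (Sum.inr g)) = some (Sum.inr g) := by
  simp [xc6, swap_apply_def, h]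

lemma fam_u_none (e : G) (e1 e2 : G') : (fam e e1 e2).u none = some (Sum.inr 0) := xc6_none

lemma fam_u_inl0 (e : G) (e1 e2 : G') : (fam e e1 e2).u (some (Sum.inl 0)) = none := xc6_inl0

lemma fam_u_inl (e : G) (e1 e2 : G') {g : G} (h : g ≠ 0) :
    (fam e e1 e2).u (some (Sum.inl g)) = some (Sum.inl g) := xc6_inl h

lemma fam_u_inr0 (e : G) (e1 e2 : G') {g : G'} (h : g + e2 = 0) :
    (fam e e1 e2).u (some (Sum.inr g)) = some (Sum.inl 0) := by
  show xc6 (some (Sum.inr (g + e2))) = _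
  rw [h, xc6_inr0]

lemma fam_u_inr (e : G) (e1 e2 : G') {g : G'} (h : g + e2 ≠ 0) :
    (fam e e1 e2).u (some (Sum.inr g)) = some (Sum.inr (g + e2)) := xc6_inr h

variable {e : G} {e1 e2 : G'}

lemma fam_trans (hG : ∀ g : G, ∃ k : ℕ, g = k • e)
    (hG' : ∀ g : G', ∃ k l : ℕ, g = k • e1 + l • e2) : (fam e e1 e2).Trans := by
  intro S hne hr hu
  -- the first torus
  have hl : ∀ g g' : G, some (Sum.inl g) ∈ S → some (Sum.inl g') ∈ S := by
    intro g g' hg
    obtain ⟨k, hk⟩ := hG (g' - g)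
    have h1 : ∀ k : ℕ, some (Sum.inl (g + k • e)) ∈ S := by
      intro k
      induction k with
      | zero => rwa [zero_smul, add_zero]
      | succ k ih =>
        have := hr _ ih
        rw [show (fam e e1 e2).r (some (Sum.inl (g + k • e))) =
          some (Sum.inl (g + k • e + e)) from rfl] at this
        rwa [succ_nsmul, ← add_assoc]
    have := h1 k
    rwa [← hk, add_sub_cancel] at this
  have hln : ∀ g : G, some (Sum.inl g) ∈ S → none ∈ S := by
    intro g hg
    have := hu _ (hl g 0 hg)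
    rwa [fam_u_inl0] at this
  have hn0 : none ∈ S → some (Sum.inr 0) ∈ S := by
    intro h
    have := hu _ h
    rwa [fam_u_none] at this
  -- the second torus
  have h2 : ∀ g : G', some (Sum.inr g) ∈ S → some (Sum.inr (g + e2)) ∈ S := by
    intro g hg
    by_cases h : g + e2 = 0
    · have := hu _ hg
      rw [fam_u_inr0 e e1 e2 h] at this
      rw [h]
      exact hn0 (hln 0 this)
    · have := hu _ hg
      rwa [fam_u_inr e e1 e2 h] at this
  have h1 : ∀ g : G', some (Sum.inr g) ∈ S → some (Sum.inr (g + e1)) ∈ S := fun g hg => hr _ hg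
  have h1k : ∀ (k : ℕ) (g : G'), some (Sum.inr g) ∈ S → some (Sum.inr (g + k • e1)) ∈ S := by
    intro k
    induction k with
    | zero => intro g hg; rwa [zero_smul, add_zero]
    | succ k ih => intro g hg; rw [succ_nsmul, ← add_assoc]; exact h1 _ (ih g hg)
  have h2k : ∀ (k : ℕ) (g : G'), some (Sum.inr g) ∈ S → some (Sum.inr (g + k • e2)) ∈ S := by
    intro k
    induction k with
    | zero => intro g hg; rwa [zero_smul, add_zero]
    | succ k ih => intro g hg; rw [succ_nsmul, ← add_assoc]; exact h2 _ (ih g hg)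
  have hr' : ∀ g g' : G', some (Sum.inr g) ∈ S → some (Sum.inr g') ∈ S := by
    intro g g' hg
    obtain ⟨k, l, hkl⟩ := hG' (g' - g)
    have := h2k l _ (h1k k _ hg)
    rwa [add_assoc, ← hkl, add_sub_cancel] at this
  have hrl : ∀ g : G', some (Sum.inr g) ∈ S → some (Sum.inl 0) ∈ S := by
    intro g hg
    have := hu _ (hr' g (-e2) hg)
    rwa [fam_u_inr0 e e1 e2 (neg_add_cancel e2)] at this
  have hnone : none ∈ S := by
    obtain ⟨x, hx⟩ := hne
    rcases x with _ | g | g
    · exact hx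
    · exact hln g hx
    · exact hln 0 (hrl g hx)
  rw [Set.eq_univ_iff_forall]
  rintro (_ | g | g)
  · exact hnone
  · exact hl 0 g (hrl 0 (hn0 hnone))
  · exact hr' 0 g (hn0 hnone)

lemma fam_prim (hT : (fam e e1 e2).Trans) (he : e ≠ 0) : (fam e e1 e2).Prim := by
  refine prim_of hT none ?_ ?_
  · have h := Path6.right (Path6.refl (O := fam e e1 e2) none)
    rwa [zero_add] at h
  · -- down to `inl 0`, right, up, left, up
    have a1 : Path6 (fam e e1 e2) (some (Sum.inl 0)) (0 + (0, 1)) none := by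
      have := Path6.up (Path6.refl (O := fam e e1 e2) (some (Sum.inl 0)))
      rwa [fam_u_inl0] at this
    have a2 := p6_symm a1
    have a3 : Path6 (fam e e1 e2) (some (Sum.inl 0)) (0 + (1, 0)) (some (Sum.inl e)) := by
      have := Path6.right (Path6.refl (O := fam e e1 e2) (some (Sum.inl 0)))
      rwa [show (fam e e1 e2).r (some (Sum.inl 0)) = some (Sum.inl (0 + e)) from rfl,
        zero_add e] at this
    have a4 : Path6 (fam e e1 e2) (some (Sum.inl e)) (0 + (0, 1)) (some (Sum.inl e)) := by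
      have := Path6.up (Path6.refl (O := fam e e1 e2) (some (Sum.inl e)))
      rwa [fam_u_inl e e1 e2 he] at this
    have := p6_trans (p6_trans (p6_trans (p6_trans a2 a3) a4) (p6_symm a3)) a1
    rwa [show (-(0 + (0, 1)) + (0 + (1, 0)) + (0 + (0, 1)) + -(0 + (1, 0)) + (0 + (0, 1)) : Z2) =
      (0, 1) by decide] at this

lemma xr6_xs6 : xr6 e e1 * xs6 e2 = xs6 e2 * xr6 e e1 := by
  refine Equiv.ext fun x => ?_
  rcases x with _ | g | g
  · rfl
  · rfl
  · show some (Sum.inr (g + e2 + e1)) = some (Sum.inr (g + e1 + e2))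
    rw [add_right_comm]

lemma xr6_xc6 : xr6 e e1 * xc6 * (xr6 e e1)⁻¹ =
    swap none (some (Sum.inl e)) * swap none (some (Sum.inr e1)) := by
  have h1 : xr6 e e1 * swap none (some (Sum.inl 0)) * (xr6 e e1)⁻¹ =
      swap none (some (Sum.inl e)) := by
    rw [← Equiv.swap_apply_apply, xr6_none, xr6_inl, zero_add]
  have h2 : xr6 e e1 * swap none (some (Sum.inr 0)) * (xr6 e e1)⁻¹ =
      swap none (some (Sum.inr e1)) := by
    rw [← Equiv.swap_apply_apply, xr6_none, xr6_inr, zero_add]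
  rw [← h1, ← h2, xc6]
  group

lemma fam_comm : (fam e e1 e2).r * (fam e e1 e2).u * (fam e e1 e2).r⁻¹ * (fam e e1 e2).u⁻¹ =
    swap none (some (Sum.inl e)) * swap none (some (Sum.inr e1)) * xc6⁻¹ := by
  have h : xs6 (G := G) e2 * (xr6 e e1)⁻¹ * (xs6 e2)⁻¹ = (xr6 e e1)⁻¹ := by
    have := xr6_xs6 (e := e) (e1 := e1) (e2 := e2)
    calc xs6 (G := G) e2 * (xr6 e e1)⁻¹ * (xs6 e2)⁻¹
        = (xs6 (G := G) e2 * (xr6 e e1)⁻¹ * (xs6 e2)⁻¹) := rfl
      _ = (xr6 e e1)⁻¹ * (xr6 e e1 * xs6 e2) * (xr6 e e1)⁻¹ * (xs6 e2)⁻¹ := by group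
      _ = (xr6 e e1)⁻¹ * (xs6 e2 * xr6 e e1) * (xr6 e e1)⁻¹ * (xs6 e2)⁻¹ := by rw [this]
      _ = (xr6 e e1)⁻¹ := by group
  show xr6 e e1 * (xc6 * xs6 e2) * (xr6 e e1)⁻¹ * (xc6 * xs6 e2)⁻¹ = _
  calc xr6 e e1 * (xc6 * xs6 e2) * (xr6 e e1)⁻¹ * (xc6 * xs6 e2)⁻¹
      = xr6 e e1 * xc6 * (xs6 e2 * (xr6 e e1)⁻¹ * (xs6 e2)⁻¹) * xc6⁻¹ := by group
    _ = xr6 e e1 * xc6 * (xr6 e e1)⁻¹ * xc6⁻¹ := by rw [h]
    _ = _ := by rw [xr6_xc6]

lemma fam_five (he : e ≠ 0) (he1 : e1 ≠ 0) :
    ((fam e e1 e2).r * (fam e e1 e2).u * (fam e e1 e2).r⁻¹ * (fam e e1 e2).u⁻¹).IsCycle ∧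
    {x | ((fam e e1 e2).r * (fam e e1 e2).u * (fam e e1 e2).r⁻¹ * (fam e e1 e2).u⁻¹) x ≠
      x}.ncard = 5 := by
  have hnd : [(none : Option (G ⊕ G')), some (Sum.inl 0), some (Sum.inr 0), some (Sum.inr e1),
      some (Sum.inl e)].Nodup := by
    simp [Ne.symm he, Ne.symm he1]
  rw [fam_comm, xc6, star5 hnd]
  refine ⟨List.isCycle_formPerm hnd (by simp), ?_⟩
  have e1' := List.support_formPerm_of_nodup' _ hnd (by simp)
  rw [e1', Set.ncard_coe_finset, List.toFinset_card_of_nodup hnd]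
  rfl

lemma fam_none (he : e ≠ 0) (he1 : e1 ≠ 0) (hn : ∃ n : ℕ, ¬ (n • e = 0 ↔ n • e1 = 0)) :
    ∀ i : Perm (Option (G ⊕ G')), ¬ (fam e e1 e2).Anti i := by
  intro i hi
  have hfix : ∀ x, xr6 e e1 x = x → x = none := by
    rintro (_ | g | g) h
    · rfl
    · rw [xr6_inl] at h
      exact absurd (by simpa using h) he
    · rw [xr6_inr] at h
      exact absurd (by simpa using h) he1
  have h0 : i none = none := by
    apply hfix
    have h1 := hi.r none
    rw [show (fam e e1 e2).r none = none from rfl] at h1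
    have h2 : xr6 e e1 (i none) = xr6 e e1 ((xr6 e e1).symm (i none)) := congrArg (xr6 e e1) h1
    rwa [Equiv.apply_symm_apply] at h2
  have h1 : i (some (Sum.inr 0)) = some (Sum.inl 0) := by
    have h2 := hi.u none
    rw [fam_u_none, h0] at h2
    rw [h2, Equiv.symm_apply_eq, fam_u_inl0]
  have hk : ∀ k : ℕ, i (some (Sum.inr (k • e1))) = some (Sum.inl (-(k • e))) := by
    intro k
    induction k with
    | zero => rw [zero_smul, zero_smul, neg_zero]; exact h1
    | succ k ih =>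
      have h2 := hi.r (some (Sum.inr (k • e1)))
      rw [ih] at h2
      rw [show (fam e e1 e2).r (some (Sum.inr (k • e1))) = some (Sum.inr (k • e1 + e1)) from rfl]
        at h2
      rw [succ_nsmul, h2, Equiv.symm_apply_eq]
      show _ = some (Sum.inl (-((k + 1) • e) + e))
      rw [succ_nsmul, neg_add, neg_add_cancel_right]
  obtain ⟨n, hn⟩ := hn
  apply hn
  have h2 := hk n
  constructor
  · intro h
    rw [h, neg_zero, ← h1] at h2
    have h3 := i.injective h2
    simpa using h3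
  · intro h
    rw [h, h1] at h2
    simpa using h2.symm

theorem fam_odd [Finite G] [Finite G'] (he : e ≠ 0) (he1 : e1 ≠ 0)
    (hG : ∀ g : G, ∃ k : ℕ, g = k • e) (hG' : ∀ g : G', ∃ k l : ℕ, g = k • e1 + l • e2)
    (hn : ∃ n : ℕ, ¬ (n • e = 0 ↔ n • e1 = 0)) :
    Odd6 (fam e e1 e2) ∧ (fam e e1 e2).Prim := by
  have hT := fam_trans (e := e) (e1 := e1) (e2 := e2) hG hG'
  exact ⟨⟨hT, (fam_five he he1).1, (fam_five he he1).2, fam_none he he1 hn⟩, fam_prim hT he⟩

lemma fam_sign_r [Fintype G] [Fintype G'] :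
    Perm.sign (fam e e1 e2).r =
      Perm.sign (Equiv.addRight e : Perm G) * Perm.sign (Equiv.addRight e1 : Perm G') := by
  show Perm.sign (optionCongr (sumCongr (Equiv.addRight e) (Equiv.addRight e1))) = _
  rw [Equiv.optionCongr_sign, Perm.sign_sumCongr]

lemma fam_sign_u [Fintype G] [Fintype G'] :
    Perm.sign (fam e e1 e2).u = Perm.sign (Equiv.addRight e2 : Perm G') := by
  show Perm.sign (xc6 * optionCongr (sumCongr (1 : Perm G) (Equiv.addRight e2))) = _
  rw [Perm.sign_mul, Equiv.optionCongr_sign, Perm.sign_sumCongr, xc6, Perm.sign_mul,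
    Perm.sign_swap (by simp), Perm.sign_swap (by simp)]
  simp

end Family

/-! ### Transport to `Fin N` -/

section Transport

variable {X Y : Type}

/-- the transported origami -/
def PO.tr (O : PO X) (f : X ≃ Y) : PO Y := ⟨f.permCongr O.r, f.permCongr O.u⟩

lemma tr_trans {O : PO X} (f : X ≃ Y) (h : O.Trans) : (O.tr f).Trans := by
  intro S hne hr hu
  have h1 := h (f ⁻¹' S) (by
    obtain ⟨y, hy⟩ := hne
    exact ⟨f.symm y, by rwa [Set.mem_preimage, f.apply_symm_apply]⟩) (by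
    intro x hx
    have := hr _ hx
    rwa [show (O.tr f).r (f x) = f (O.r x) by simp [PO.tr, Equiv.permCongr_apply]] at this) (by
    intro x hx
    have := hu _ hx
    rwa [show (O.tr f).u (f x) = f (O.u x) by simp [PO.tr, Equiv.permCongr_apply]] at this)
  rw [Set.eq_univ_iff_forall] at h1 ⊢
  intro y
  have := h1 (f.symm y)
  rwa [Set.mem_preimage, f.apply_symm_apply] at this

lemma tr_path {O : PO X} (f : X ≃ Y) {x y : X} {w : Z2} (h : Path6 O x w y) :
    Path6 (O.tr f) (f x) w (f y) := by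
  induction h with
  | refl => exact Path6.refl _
  | @right y w _ ih =>
    have := Path6.right ih
    rwa [show (O.tr f).r (f y) = f (O.r y) by simp [PO.tr, Equiv.permCongr_apply]] at this
  | @left y w _ ih =>
    have := Path6.left ih
    rwa [show (O.tr f).r.symm (f y) = f (O.r.symm y) by
      rw [Equiv.symm_apply_eq]; simp [PO.tr, Equiv.permCongr_apply]] at this
  | @up y w _ ih =>
    have := Path6.up ih
    rwa [show (O.tr f).u (f y) = f (O.u y) by simp [PO.tr, Equiv.permCongr_apply]] at this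
  | @down y w _ ih =>
    have := Path6.down ih
    rwa [show (O.tr f).u.symm (f y) = f (O.u.symm y) by
      rw [Equiv.symm_apply_eq]; simp [PO.tr, Equiv.permCongr_apply]] at this

lemma tr_prim {O : PO X} (f : X ≃ Y) (h : O.Prim) : (O.tr f).Prim := by
  intro y w
  have := tr_path f (h (f.symm y) w)
  rwa [f.apply_symm_apply] at this

lemma tr_r {O : PO X} (f : X ≃ Y) (x : X) : (O.tr f).r (f x) = f (O.r x) := by
  simp [PO.tr, Equiv.permCongr_apply]

lemma tr_u {O : PO X} (f : X ≃ Y) (x : X) : (O.tr f).u (f x) = f (O.u x) := by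
  simp [PO.tr, Equiv.permCongr_apply]

lemma tr_rs {O : PO X} (f : X ≃ Y) (x : X) : (O.tr f).r.symm (f x) = f (O.r.symm x) := by
  rw [Equiv.symm_apply_eq, tr_r, Equiv.apply_symm_apply]

lemma tr_us {O : PO X} (f : X ≃ Y) (x : X) : (O.tr f).u.symm (f x) = f (O.u.symm x) := by
  rw [Equiv.symm_apply_eq, tr_u, Equiv.apply_symm_apply]

lemma tr_comm {O : PO X} (f : X ≃ Y) : (O.tr f).r * (O.tr f).u * (O.tr f).r⁻¹ * (O.tr f).u⁻¹ =
    f.permCongr (O.r * O.u * O.r⁻¹ * O.u⁻¹) := by
  refine Equiv.ext fun y => ?_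
  obtain ⟨x, rfl⟩ := f.surjective y
  show (O.tr f).r ((O.tr f).u ((O.tr f).r.symm ((O.tr f).u.symm (f x)))) = _
  rw [tr_us, tr_rs, tr_u, tr_r, Equiv.permCongr_apply, f.symm_apply_apply]
  rfl

lemma tr_cycle {g : Perm X} (f : X ≃ Y) (h : g.IsCycle) : (f.permCongr g).IsCycle := by
  have hz : ∀ i : ℤ, (f.permCongr g) ^ i = f.permCongr (g ^ i) := fun i =>
    (map_zpow f.permCongrHom g i).symm
  obtain ⟨x, hx, hy⟩ := h
  refine ⟨f x, ?_, ?_⟩
  · rw [Equiv.permCongr_apply, f.symm_apply_apply]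
    exact fun hc => hx (f.injective hc)
  · intro y h
    obtain ⟨z, rfl⟩ := f.surjective y
    rw [Equiv.permCongr_apply, f.symm_apply_apply] at h
    obtain ⟨i, hi⟩ := hy (fun hc => h (congrArg f hc))
    refine ⟨i, ?_⟩
    rw [hz, Equiv.permCongr_apply, f.symm_apply_apply, hi]

lemma tr_odd {O : PO X} (f : X ≃ Y) (h : Odd6 O) : Odd6 (O.tr f) := by
  refine ⟨tr_trans f h.trans, ?_, ?_, ?_⟩
  · rw [tr_comm]
    exact tr_cycle f h.cyc
  · rw [tr_comm, ← h.five]
    have e : {y | f.permCongr (O.r * O.u * O.r⁻¹ * O.u⁻¹) y ≠ y} =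
        f '' {x | (O.r * O.u * O.r⁻¹ * O.u⁻¹) x ≠ x} := by
      ext y
      constructor
      · intro hy
        refine ⟨f.symm y, fun hc => hy ?_, f.apply_symm_apply y⟩
        rw [Equiv.permCongr_apply, hc, f.apply_symm_apply]
      · rintro ⟨x, hx, rfl⟩ hc
        apply hx
        rw [Equiv.permCongr_apply, f.symm_apply_apply] at hc
        exact f.injective hc
    rw [e, Set.ncard_image_of_injective _ f.injective]
  · intro i hi
    apply h.none (f.symm.permCongr i)
    constructor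
    · intro x
      have := hi.r (f x)
      rw [tr_r] at this
      rw [Equiv.permCongr_apply, Equiv.permCongr_apply, f.symm_symm, this, Equiv.symm_apply_eq,
        ← tr_rs, Equiv.apply_symm_apply]
    · intro x
      have := hi.u (f x)
      rw [tr_u] at this
      rw [Equiv.permCongr_apply, Equiv.permCongr_apply, f.symm_symm, this, Equiv.symm_apply_eq,
        ← tr_us, Equiv.apply_symm_apply]

lemma tr_sign [Fintype X] [Fintype Y] [DecidableEq X] [DecidableEq Y] (O : PO X) (f : X ≃ Y) :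
    Perm.sign (O.tr f).r = Perm.sign O.r ∧ Perm.sign (O.tr f).u = Perm.sign O.u :=
  ⟨Perm.sign_permCongr f O.r, Perm.sign_permCongr f O.u⟩

end Transport

/-! ### Signs of translations of `ZMod n` -/

lemma sign_one (m : ℕ) : Perm.sign (Equiv.addRight 1 : Perm (ZMod (m + 1))) = (-1) ^ m := by
  have h : (Equiv.addRight 1 : Perm (Fin (m + 1))) = finRotate (m + 1) := by
    refine Equiv.ext fun x => ?_
    exact (finRotate_apply (n := m + 1) x).symm
  have h2 : Perm.sign (Equiv.addRight 1 : Perm (Fin (m + 1))) = (-1) ^ m := by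
    rw [h, sign_finRotate]
    rfl
  exact h2

lemma zmod_gen {n : ℕ} [NeZero n] (g : ZMod n) : ∃ k : ℕ, g = k • (1 : ZMod n) :=
  ⟨g.val, by rw [nsmul_eq_mul, mul_one, ZMod.natCast_zmod_val]⟩

/-- the common part -/
theorem exist_aux {G G' : Type} [AddCommGroup G] [AddCommGroup G'] [DecidableEq G]
    [DecidableEq G'] [Fintype G] [Fintype G'] {N : ℕ} (hN : 1 + Fintype.card G +
    Fintype.card G' = N) {e : G} {e1 e2 : G'} (he : e ≠ 0) (he1 : e1 ≠ 0)
    (hG : ∀ g : G, ∃ k : ℕ, g = k • e) (hG' : ∀ g : G', ∃ k l : ℕ, g = k • e1 + l • e2)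
    (hn : ∃ n : ℕ, ¬ (n • e = 0 ↔ n • e1 = 0)) : ∃ O : PO (Fin N), Odd6 O ∧ O.Prim ∧
      Perm.sign O.r = Perm.sign (Equiv.addRight e : Perm G) *
        Perm.sign (Equiv.addRight e1 : Perm G') ∧
      Perm.sign O.u = Perm.sign (Equiv.addRight e2 : Perm G') := by
  have hc : Fintype.card (Option (G ⊕ G')) = N := by
    rw [Fintype.card_option, Fintype.card_sum]
    omega
  obtain ⟨f⟩ : Nonempty (Option (G ⊕ G') ≃ Fin N) := ⟨Fintype.equivFinOfCardEq hc⟩
  obtain ⟨h1, h2⟩ := fam_odd (e2 := e2) he he1 hG hG' hn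
  obtain ⟨s1, s2⟩ := tr_sign (fam e e1 e2) f
  exact ⟨(fam e e1 e2).tr f, tr_odd f h1, tr_prim f h2, by rw [s1, fam_sign_r],
    by rw [s2, fam_sign_u]⟩

/-- `N` even, both even -/
theorem exists_A (m : ℕ) (hm : 2 ≤ m) : ∃ O : PO (Fin (2 * m + 6)), Odd6 O ∧ O.Prim ∧
    Perm.sign O.r = 1 ∧ Perm.sign O.u = 1 := by
  obtain ⟨O, h1, h2, h3, h4⟩ := exist_aux (G := ZMod (2 * m + 1)) (G' := ZMod 2 × ZMod 2)
    (N := 2 * m + 6) (e := 1) (e1 := (1, 0)) (e2 := (0, 1)) (by
      rw [ZMod.card]; simp only [Fintype.card_prod, ZMod.card]; omega) (by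
      have : Fact (1 < 2 * m + 1) := ⟨by omega⟩
      exact one_ne_zero) (by decide) zmod_gen (by
      intro g
      refine ⟨g.1.val, g.2.val, ?_⟩
      revert g
      decide) ⟨2, by
      intro h
      have h1 := h.2 (by decide)
      rw [nsmul_eq_mul, mul_one, ZMod.natCast_eq_zero_iff] at h1
      have := Nat.le_of_dvd (by omega) h1
      omega⟩
  refine ⟨O, h1, h2, ?_, ?_⟩
  · rw [h3, sign_one]
    rw [show Perm.sign (Equiv.addRight (1, 0) : Perm (ZMod 2 × ZMod 2)) = 1 by decide, mul_one]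
    rw [pow_mul]
    simp
  · rw [h4]
    decide

/-- `G = ZMod 2`, `G' = ZMod (n + 3)` -/
theorem exists_B (n : ℕ) (c : ZMod (n + 3)) : ∃ O : PO (Fin (n + 6)), Odd6 O ∧ O.Prim ∧
    Perm.sign O.r = (-1) ^ (n + 1) ∧
    Perm.sign O.u = Perm.sign (Equiv.addRight c : Perm (ZMod (n + 3))) := by
  obtain ⟨O, h1, h2, h3, h4⟩ := exist_aux (G := ZMod 2) (G' := ZMod (n + 3))
    (N := n + 6) (e := 1) (e1 := 1) (e2 := c) (by
      rw [ZMod.card, ZMod.card]; omega) (by decide) (by
      have : Fact (1 < n + 3) := ⟨by omega⟩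
      exact one_ne_zero) zmod_gen (by
      intro g
      obtain ⟨k, hk⟩ := zmod_gen g
      exact ⟨k, 0, by rw [zero_smul, add_zero]; exact hk⟩) ⟨2, by
      intro h
      have h1 := h.1 (by decide)
      rw [nsmul_eq_mul, mul_one, ZMod.natCast_eq_zero_iff] at h1
      have := Nat.le_of_dvd (by omega) h1
      omega⟩
  refine ⟨O, h1, h2, ?_, h4⟩
  rw [h3, sign_one 1, sign_one (n + 2), pow_succ _ (n + 1)]
  simp

/-- **Existence**, both permutations even. -/
theorem exists_even6 (N : ℕ) (hN : 9 ≤ N) : ∃ O : PO (Fin N), Odd6 O ∧ O.Prim ∧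
    Perm.sign O.r = 1 ∧ Perm.sign O.u = 1 := by
  rcases Nat.even_or_odd' N with ⟨k, rfl | rfl⟩
  · obtain ⟨m, rfl⟩ : ∃ m, k = m + 3 := ⟨k - 3, by omega⟩
    obtain ⟨O, hO⟩ := exists_A m (by omega)
    exact ⟨O, hO⟩
  · obtain ⟨m, rfl⟩ : ∃ m, k = m + 3 := ⟨k - 3, by omega⟩
    obtain ⟨O, h1, h2, h3, h4⟩ := exists_B (2 * m + 1) 0
    refine ⟨O, h1, h2, ?_, ?_⟩
    · rw [h3, show 2 * m + 1 + 1 = 2 * (m + 1) by ring, pow_mul]
      simp
    · rw [h4]
      have : (Equiv.addRight 0 : Perm (ZMod (2 * m + 1 + 3))) = 1 := by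
        refine Equiv.ext fun x => ?_
        simp
      rw [this, Perm.sign_one]

/-- **Existence**, one of the permutations odd. -/
theorem exists_odd6 (N : ℕ) (hN : 9 ≤ N) : ∃ O : PO (Fin N), Odd6 O ∧ O.Prim ∧
    (Perm.sign O.r = -1 ∨ Perm.sign O.u = -1) := by
  rcases Nat.even_or_odd' N with ⟨k, rfl | rfl⟩
  · obtain ⟨m, rfl⟩ : ∃ m, k = m + 3 := ⟨k - 3, by omega⟩
    obtain ⟨O, h1, h2, h3, h4⟩ := exists_B (2 * m) 0
    refine ⟨O, h1, h2, Or.inl ?_⟩
    rw [h3, pow_succ, pow_mul]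
    simp
  · obtain ⟨m, rfl⟩ : ∃ m, k = m + 3 := ⟨k - 3, by omega⟩
    obtain ⟨O, h1, h2, h3, h4⟩ := exists_B (2 * m + 1) 1
    refine ⟨O, h1, h2, Or.inr ?_⟩
    rw [h4]
    rw [sign_one (2 * m + 3), show 2 * m + 3 = 2 * (m + 1) + 1 by ring, pow_succ, pow_mul]
    simp

end Pool.Agent.H4G.Six
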