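import Pool.Agent.H4G.Six.Fin6

/-!
# The monodromy group of a primitive origami of `H(4)` (helper27)

For `N ≥ 9` squares the monodromy group `⟨r, u⟩` is the alternating group or the symmetric group:
the commutator `c` of `r` and `u` is a `5`-cycle; the group is primitive (a block is fixed by `c`,
so `r` and `u` commute on the blocks and the holonomy is defined on them), hence `(N - 4)`-fold
transitive, and the commutator of `c` and a conjugate of `c` whose support meets that of `c` in one
point is a `3`-cycle.
-/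

set_option autoImplicit false

namespace Pool.Agent.H4G.Six

open Pool.Agent.H4G MulAction Pointwise

/-- The commutator of two permutations whose supports meet in one point is a `3`-cycle. -/
theorem comm_three {α : Type*} [Fintype α] [DecidableEq α] (s t : Equiv.Perm α) (a : α)
    (hs : s a ≠ a) (ht : t a ≠ a) (h : ∀ x, s x ≠ x → t x ≠ x → x = a) :
    (s * t * s⁻¹ * t⁻¹).IsThreeCycle := by
  have hev : ∀ x, (s * t * s⁻¹ * t⁻¹) x = s (t (s.symm (t.symm x))) := fun _ => rfl
  have sa : t (s a) = s a := by
    by_contra hc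
    have h1 := h (s a) (fun e => hs (s.injective e)) hc
    exact hs h1
  have ta : s (t a) = t a := by
    by_contra hc
    have h1 := h (t a) hc (fun e => ht (t.injective e))
    exact ht h1
  have hne : s a ≠ t a := by
    intro e
    rw [e] at sa
    exact ht (t.injective sa)
  have e1 : (s * t * s⁻¹ * t⁻¹) (t a) = a := by
    rw [hev, Equiv.symm_apply_apply]
    have hb : t (s.symm a) = s.symm a := by
      by_contra hc
      have h1 := h (s.symm a) (by
        rw [Equiv.apply_symm_apply]
        intro e
        exact hs (by conv_lhs => rw [e]; rw [Equiv.apply_symm_apply])) hc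
      exact hs (by conv_lhs => rw [← h1, Equiv.apply_symm_apply])
    rw [hb, Equiv.apply_symm_apply]
  have e2 : (s * t * s⁻¹ * t⁻¹) a = s a := by
    rw [hev]
    have hb : s (t.symm a) = t.symm a := by
      by_contra hc
      have h1 := h (t.symm a) hc (by
        rw [Equiv.apply_symm_apply]
        intro e
        exact ht (by conv_lhs => rw [e]; rw [Equiv.apply_symm_apply]))
      exact ht (by conv_lhs => rw [← h1, Equiv.apply_symm_apply])
    have hb' : s.symm (t.symm a) = t.symm a := by
      rw [Equiv.symm_apply_eq, hb]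
    rw [hb', Equiv.apply_symm_apply]
  have e3 : (s * t * s⁻¹ * t⁻¹) (s a) = t a := by
    rw [hev]
    have hb : t.symm (s a) = s a := by rw [Equiv.symm_apply_eq, sa]
    rw [hb, Equiv.symm_apply_apply, ta]
  have e4 : ∀ x, x ≠ a → x ≠ s a → x ≠ t a → (s * t * s⁻¹ * t⁻¹) x = x := by
    intro x h1 h2 h3
    rw [hev]
    by_cases htx : t x = x
    · have hb : t.symm x = x := by rw [Equiv.symm_apply_eq, htx]
      rw [hb]
      by_cases hsx : s x = x
      · have hb' : s.symm x = x := by rw [Equiv.symm_apply_eq, hsx]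
        rw [hb', htx, hsx]
      · have hy : t (s.symm x) = s.symm x := by
          by_contra hc
          have h4 := h (s.symm x) (by
            rw [Equiv.apply_symm_apply]
            intro e
            exact hsx (by conv_lhs => rw [e]; rw [Equiv.apply_symm_apply])) hc
          exact h2 (by rw [← h4, Equiv.apply_symm_apply])
        rw [hy, Equiv.apply_symm_apply]
    · have hsx : s x = x := by
        by_contra hc
        exact h1 (h x hc htx)
      have hy : s (t.symm x) = t.symm x := by
        by_contra hc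
        have h4 := h (t.symm x) hc (by
          rw [Equiv.apply_symm_apply]
          intro e
          exact htx (by conv_lhs => rw [e]; rw [Equiv.apply_symm_apply]))
        exact h3 (by rw [← h4, Equiv.apply_symm_apply])
      have hy' : s.symm (t.symm x) = t.symm x := by rw [Equiv.symm_apply_eq, hy]
      rw [hy', Equiv.apply_symm_apply, hsx]
  rw [← card_support_eq_three_iff]
  have hsup : (s * t * s⁻¹ * t⁻¹).support = {a, s a, t a} := by
    ext x
    rw [Equiv.Perm.mem_support]
    simp only [Finset.mem_insert, Finset.mem_singleton]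
    constructor
    · intro hx
      by_contra hc
      push Not at hc
      exact hx (e4 x hc.1 hc.2.1 hc.2.2)
    · rintro (rfl | rfl | rfl)
      · rw [e2]; exact hs
      · rw [e3]; exact hne.symm
      · rw [e1]; exact ht.symm
  rw [hsup, Finset.card_insert_of_notMem, Finset.card_insert_of_notMem, Finset.card_singleton]
  · simpa using hne
  · simp only [Finset.mem_insert, Finset.mem_singleton, not_or]
    exact ⟨hs.symm, ht.symm⟩

variable {N : ℕ}

/-- the monodromy group -/
abbrev _root_.Pool.Agent.H4G.Ori.mono (p : Ori N) : Subgroup (Equiv.Perm (Fin N)) :=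
  Subgroup.closure {p.1, p.2}

section Prim

variable {p : Ori N}

/-- `r` in the monodromy group -/
def rG (p : Ori N) : p.mono := ⟨p.1, Subgroup.subset_closure (Or.inl rfl)⟩

/-- `u` in the monodromy group -/
def uG (p : Ori N) : p.mono := ⟨p.2, Subgroup.subset_closure (Or.inr rfl)⟩

/-- a `5`-cycle fixes every block which is not a point -/
theorem block_fixed {G : Subgroup (Equiv.Perm (Fin N))} {B : Set (Fin N)} (hB : IsBlock G B)
    (hs : ¬ B.Subsingleton) (c : G) (hc : (c : Equiv.Perm (Fin N)).IsCycle)
    (h5 : (c : Equiv.Perm (Fin N)).support.card = 5) : c • B = B := by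
  by_contra hne
  have hd : Disjoint (c • B) B := hB.disjoint_smul_of_ne hne
  rw [Set.not_subsingleton_iff] at hs
  obtain ⟨x, hx, y, hy, hxy⟩ := hs
  have mv : ∀ z ∈ B, (c : Equiv.Perm (Fin N)) z ≠ z := by
    intro z hz e
    have h1 : z ∈ c • B := ⟨z, hz, e⟩
    exact Set.disjoint_left.1 hd h1 hz
  obtain ⟨i, hi⟩ := hc.sameCycle (mv x hx) (mv y hy)
  have h1 : (c ^ i) • B = B := by
    refine hB.smul_eq_of_mem hx (g := c ^ i) ?_
    have : (c ^ i) • x = y := by
      rw [← hi, Subgroup.smul_def, Subgroup.coe_zpow]; rfl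
    rw [this]; exact hy
  have hord : orderOf (c : Equiv.Perm (Fin N)) = 5 := by rw [hc.orderOf, h5]
  have hc5 : c ^ (5 : ℤ) = 1 := by
    apply Subtype.ext
    rw [Subgroup.coe_zpow, Subgroup.coe_one]
    have := pow_orderOf_eq_one (c : Equiv.Perm (Fin N))
    rw [hord] at this
    exact_mod_cast this
  have hi5 : ¬ (5 : ℤ) ∣ i := by
    rintro ⟨k, rfl⟩
    apply hxy
    rw [← hi]
    have h2 : (c ^ (5 * k)) = 1 := by rw [zpow_mul, hc5, one_zpow]
    have h3 : ((c : Equiv.Perm (Fin N)) ^ (5 * k)) = 1 := by
      rw [← Subgroup.coe_zpow, h2, Subgroup.coe_one]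
    rw [h3]; rfl
  have hco : IsCoprime (5 : ℤ) i :=
    (Int.prime_iff_natAbs_prime.2 (by norm_num)).coprime_iff_not_dvd.2 hi5
  obtain ⟨a, b, hab⟩ := hco
  apply hne
  have h4 : c = (c ^ i) ^ b := by
    calc c = c ^ (a * 5 + b * i) := by rw [hab, zpow_one]
      _ = (c ^ (5 : ℤ)) ^ a * (c ^ i) ^ b := by
        rw [zpow_add, mul_comm a 5, mul_comm b i, zpow_mul, zpow_mul]
      _ = (c ^ i) ^ b := by rw [hc5, one_zpow, one_mul]
  have h5 : c ^ i ∈ stabilizer G B := mem_stabilizer_iff.2 h1
  have h6 : c ∈ stabilizer G B := by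
    rw [h4]; exact Subgroup.zpow_mem _ h5 b
  exact mem_stabilizer_iff.1 h6

/-- the monodromy group is primitive -/
theorem mono_preprim (h : p.InH4) (hp : (ofPair p).Prim) : IsPreprimitive p.mono (Fin N) := by
  have hconn : IsPretransitive p.mono (Fin N) := h.1
  refine { hconn with isTrivialBlock_of_isBlock := ?_ }
  intro B hB
  by_cases hs : B.Subsingleton
  · exact Or.inl hs
  right
  set c : p.mono := rG p * uG p * (rG p)⁻¹ * (uG p)⁻¹ with hcdef
  have hcc : (c : Equiv.Perm (Fin N)) = p.1 * p.2 * p.1⁻¹ * p.2⁻¹ := rfl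
  have hcyc : (c : Equiv.Perm (Fin N)).IsCycle := by rw [hcc]; exact h.2.1
  have h5 : (c : Equiv.Perm (Fin N)).support.card = 5 := by rw [hcc]; exact h.2.2
  set φ := MulAction.toPermHom p.mono (orbit p.mono B) with hφ
  have hφc : φ c = 1 := by
    refine Equiv.ext fun B' => Subtype.ext ?_
    obtain ⟨_, g, rfl⟩ := B'
    change c • (g • B) = g • B
    refine block_fixed (hB.translate g) ?_ c hcyc h5
    intro hsub
    apply hs
    have h1 : (g⁻¹ • (g • B)).Subsingleton := hsub.image _
    rwa [inv_smul_smul] at h1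
  have hcomm : Commute (φ (rG p)) (φ (uG p)) := by
    have h1 : φ (rG p) * φ (uG p) * (φ (rG p))⁻¹ * (φ (uG p))⁻¹ = 1 := by
      rw [← map_inv, ← map_inv, ← map_mul, ← map_mul, ← map_mul]
      exact hφc
    rw [mul_inv_eq_one, mul_inv_eq_iff_eq_mul] at h1
    exact h1
  have key : ∀ x y w, Path6 (ofPair p) x w y → ∃ g : p.mono, g • x = y ∧
      φ g = φ (rG p) ^ w.1 * φ (uG p) ^ w.2 := by
    intro x y w hpath
    induction hpath with
    | refl => exact ⟨1, one_smul _ _, by rw [map_one]; simp⟩
    | @right y w _ ih =>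
      obtain ⟨g, h1, h2⟩ := ih
      refine ⟨rG p * g, ?_, ?_⟩
      · rw [mul_smul, h1]; rfl
      · rw [map_mul, h2, ← mul_assoc, ← zpow_one_add]
        simp [add_comm]
    | @left y w _ ih =>
      obtain ⟨g, h1, h2⟩ := ih
      refine ⟨(rG p)⁻¹ * g, ?_, ?_⟩
      · rw [mul_smul, h1]; rfl
      · rw [map_mul, h2, map_inv, ← mul_assoc, ← zpow_neg_one, ← zpow_add]
        congr 2
        · simp; ring
        · simp
    | @up y w _ ih =>
      obtain ⟨g, h1, h2⟩ := ih
      refine ⟨uG p * g, ?_, ?_⟩
      · rw [mul_smul, h1]; rfl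
      · rw [map_mul, h2, ← mul_assoc, (hcomm.symm.zpow_right w.1).eq, mul_assoc,
          ← zpow_one_add]
        simp [add_comm]
    | @down y w _ ih =>
      obtain ⟨g, h1, h2⟩ := ih
      refine ⟨(uG p)⁻¹ * g, ?_, ?_⟩
      · rw [mul_smul, h1]; rfl
      · rw [map_mul, h2, map_inv, ← mul_assoc, (hcomm.symm.inv_left.zpow_right w.1).eq,
          mul_assoc, ← zpow_neg_one, ← zpow_add]
        congr 2
        · simp
        · simp; ring
  rw [Set.not_subsingleton_iff] at hs
  obtain ⟨x, hx, _⟩ := hs
  have hBmem : B ∈ orbit p.mono B := mem_orbit_self B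
  have fin : ∀ g g' : p.mono, g • x = x → φ g = φ g' → g' • B = B := by
    intro g g' h1 h2
    have h3 : g • B = B := hB.smul_eq_of_mem hx (by rw [h1]; exact hx)
    have h4 := congrArg (fun e : Equiv.Perm (orbit p.mono B) => ((e ⟨B, hBmem⟩ : orbit p.mono B) :
      Set (Fin N))) h2
    change g • B = g' • B at h4
    rw [← h4, h3]
  have hr : rG p • B = B := by
    obtain ⟨g, h1, h2⟩ := key x x (1, 0) (hp x (1, 0))
    exact fin g _ h1 (by rw [h2]; simp)
  have hu : uG p • B = B := by
    obtain ⟨g, h1, h2⟩ := key x x (0, 1) (hp x (0, 1))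
    exact fin g _ h1 (by rw [h2]; simp)
  refine (conn6_iff p).1 h.1 B ⟨x, hx⟩ ?_ ?_
  · intro y hy
    rw [← hr]
    exact ⟨y, hy, rfl⟩
  · intro y hy
    rw [← hu]
    exact ⟨y, hy, rfl⟩

end Prim

/-- a primitive group of degree `≥ 9` with a `5`-cycle contains the alternating group -/
theorem alt_le_of_five {G : Subgroup (Equiv.Perm (Fin N))} (hN : 9 ≤ N)
    (hG : IsPreprimitive G (Fin N)) {c : Equiv.Perm (Fin N)} (hcG : c ∈ G) (hc : c.IsCycle)
    (h5 : c.support.card = 5) : alternatingGroup (Fin N) ≤ G := by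
  classical
  have hcard : (c.supportᶜ : Finset (Fin N)).card = N - 5 := by
    rw [Finset.card_compl, Fintype.card_fin, h5]
  have hmp : IsMultiplyPreprimitive G (Fin N) (N - 4) := by
    have h1 := hG.isMultiplyPreprimitive (s := ((c.support : Set (Fin N))ᶜ)) (n := N - 6) (by
      apply Nat.add_left_cancel
      rw [Set.ncard_add_ncard_compl, Set.ncard_coe_finset, h5, Nat.card_eq_fintype_card,
        Fintype.card_fin]
      omega) (by rw [Nat.card_eq_fintype_card, Fintype.card_fin]; omega) (by
      have := Equiv.Perm.isPretransitive_of_isCycle_mem hc hcG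
      apply IsPreprimitive.of_prime_card
      convert! Nat.prime_five
      rw [Nat.card_eq_fintype_card, Fintype.card_subtype, ← h5]
      apply congr_arg
      ext x
      simp [SubMulAction.mem_ofFixingSubgroup_iff])
    have e : N - 6 + 2 = N - 4 := by omega
    rwa [e] at h1
  have ht : IsMultiplyPretransitive G (Fin N) 5 := by
    have h1 : IsMultiplyPretransitive G (Fin N) (N - 4) :=
      IsMultiplyPreprimitive.isMultiplyPretransitive ..
    exact isMultiplyPretransitive_of_le (n := N - 4) (by omega)
      (by rw [Nat.card_eq_fintype_card, Fintype.card_fin]; omega)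
  obtain ⟨a, ha⟩ : c.support.Nonempty := by
    rw [← Finset.card_pos, h5]; norm_num
  obtain ⟨S, hS1, hS2⟩ : ∃ S ⊆ (c.supportᶜ : Finset (Fin N)), S.card = 4 :=
    Finset.exists_subset_card_eq (by rw [hcard]; omega)
  have haS : a ∉ S := by
    intro h
    have := hS1 h
    rw [Finset.mem_compl] at this
    exact this ha
  have hT : (insert a S).card = 5 := by
    rw [Finset.card_insert_of_notMem haS, hS2]
  obtain ⟨g, hg⟩ := isMultiplyPretransitive_iff.1 ht
    (c.support.orderEmbOfFin h5).toEmbedding ((insert a S).orderEmbOfFin hT).toEmbedding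
  have himg : c.support.map (g : Equiv.Perm (Fin N)).toEmbedding = insert a S := by
    apply Finset.eq_of_subset_of_card_le
    · intro y hy
      rw [Finset.mem_map] at hy
      obtain ⟨x, hx, rfl⟩ := hy
      have hx' : x ∈ Set.range (c.support.orderEmbOfFin h5) := by
        rw [Finset.range_orderEmbOfFin]; exact hx
      obtain ⟨i, rfl⟩ := hx'
      have := congrArg (fun e : Fin 5 ↪ Fin N => e i) hg
      change (g : Equiv.Perm (Fin N)) ((c.support.orderEmbOfFin h5) i) =
        ((insert a S).orderEmbOfFin hT) i at this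
      change (g : Equiv.Perm (Fin N)) ((c.support.orderEmbOfFin h5) i) ∈ insert a S
      rw [this]
      exact Finset.orderEmbOfFin_mem _ _ _
    · rw [Finset.card_map, h5, hT]
  set d : Equiv.Perm (Fin N) := (g : Equiv.Perm (Fin N)) * c * (g : Equiv.Perm (Fin N))⁻¹ with hd
  have hdG : d ∈ G := mul_mem (mul_mem g.2 hcG) (inv_mem g.2)
  have hsup : d.support = insert a S := by
    rw [hd, Equiv.Perm.support_conj, himg]
  have h3 : (c * d * c⁻¹ * d⁻¹).IsThreeCycle := by
    refine comm_three c d a (Equiv.Perm.mem_support.1 ha) ?_ ?_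
    · apply Equiv.Perm.mem_support.1
      rw [hsup]; exact Finset.mem_insert_self _ _
    · intro x h1 h2
      have h3 := Equiv.Perm.mem_support.2 h1
      have h4 := Equiv.Perm.mem_support.2 h2
      rw [hsup, Finset.mem_insert] at h4
      rcases h4 with h4 | h4
      · exact h4
      · have := hS1 h4
        rw [Finset.mem_compl] at this
        exact absurd h3 this
  exact Equiv.Perm.alternatingGroup_le_of_isPreprimitive_of_isThreeCycle_mem hG h3
    (mul_mem (mul_mem (mul_mem hcG hdG) (inv_mem hcG)) (inv_mem hdG))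

/-- The monodromy group of a primitive origami in `H(4)` with at least `9` squares contains the
alternating group. -/
theorem alt_le_mono {p : Ori N} (hN : 9 ≤ N) (h : p.InH4) (hp : p.Primitive) :
    alternatingGroup (Fin N) ≤ p.mono := by
  have h1 : (ofPair p).Prim := (prim6_iff ((conn6_iff p).1 h.1) (by omega)).1 hp
  have hr : p.1 ∈ p.mono := Subgroup.subset_closure (Or.inl rfl)
  have hu : p.2 ∈ p.mono := Subgroup.subset_closure (Or.inr rfl)
  exact alt_le_of_five hN (mono_preprim h h1)
    (mul_mem (mul_mem (mul_mem hr hu) (inv_mem hr)) (inv_mem hu)) h.2.1 h.2.2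

theorem mono_eq_alt {p : Ori N} (hN : 9 ≤ N) (h : p.InH4) (hp : p.Primitive) :
    p.mono = alternatingGroup (Fin N) ↔ p.Even := by
  rw [even_iff]
  exact ⟨fun e => e.le, fun e => le_antisymm e (alt_le_mono hN h hp)⟩

theorem mono_eq_top {p : Ori N} (hN : 9 ≤ N) (h : p.InH4) (hp : p.Primitive) :
    p.mono = ⊤ ↔ ¬ p.Even := by
  have hA := alt_le_mono hN h hp
  rw [even_iff]
  constructor
  · intro e hle
    rw [show Subgroup.closure {p.1, p.2} = ⊤ from e] at hle
    have h0 : (⟨0, by omega⟩ : Fin N) ≠ ⟨1, by omega⟩ := by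
      intro e; simp at e
    have h1 := hle (Subgroup.mem_top (Equiv.swap (⟨0, by omega⟩ : Fin N) ⟨1, by omega⟩))
    rw [Equiv.Perm.mem_alternatingGroup, Equiv.Perm.sign_swap h0] at h1
    exact absurd h1 (by decide)
  · intro hne
    obtain ⟨g, hg, hg'⟩ := SetLike.not_le_iff_exists.1 hne
    rw [eq_top_iff]
    intro s _
    by_cases hs : s ∈ alternatingGroup (Fin N)
    · exact hA hs
    · have h2 : s * g⁻¹ ∈ alternatingGroup (Fin N) := by
        rw [Equiv.Perm.mem_alternatingGroup] at *
        rw [Equiv.Perm.sign_mul, Equiv.Perm.sign_inv]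
        rcases Int.units_eq_one_or (Equiv.Perm.sign s) with h3 | h3
        · exact absurd h3 hs
        · rcases Int.units_eq_one_or (Equiv.Perm.sign g) with h4 | h4
          · exact absurd h4 hg'
          · rw [h3, h4]; decide
      have h3 := mul_mem (hA h2) hg
      rwa [inv_mul_cancel_right] at h3

end Pool.Agent.H4G.Six
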