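import Pool.Agent.H4G.Six.Anti6
import Pool.Agent.H4G.Six.Mono6
import Pool.Agent.H4G.Six.Even6
import Pool.Agent.H4G.Six.Orb6
import Pool.Agent.H4G.Six.Exist6

/-!
# Part (i): the orbits of primitive origamis of odd type, the glue (helper27)

From the two rows `TreeEx` (every origami of odd type is in the orbit of one with a tree E6) and
`TwoCl N` (the admissible trees of volume `N`, that is those with `L ≠ M` and span `ℤ²`, form at
most two classes, separated by the parity) the theorem on the orbits follows.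
-/

set_option autoImplicit false

namespace Pool.Agent.H4G.Six

open Pool.Agent.H4G

/-- Every primitive origami of odd type with `N` squares is in the orbit of one with a tree. -/
def TreeEx (N : ℕ) : Prop := ∀ O : PO (Fin N), Odd6 O → O.Prim → ∃ (O' : PO (Fin N)) (c : C6),
  SLE6 O O' ∧ vol6 c = N ∧ Has6 O' c

/-- An admissible tree: it is positive, of volume `N`, and every equivalent tree has span `ℤ²` and
two different lattices. (This is so for the trees of the primitive origamis of odd type; the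
definition makes it invariant under the moves without proof.) -/
def Adm6 (N : ℕ) (c : C6) : Prop := Pos6 c ∧ vol6 c = N ∧
  ∀ c' : C6, CEq6 c c' → span c' = ⊤ ∧ latL c' ≠ latM c'

theorem Adm6.ceq {N : ℕ} {c c' : C6} (h : Adm6 N c) (hc : CEq6 c c') : Adm6 N c' :=
  ⟨hc.pos_iff.1 h.1, by rw [hc.vol]; exact h.2.1, fun c'' h' => h.2.2 c'' (hc.trans h')⟩

/-- Admissible trees of volume `N` are equivalent as soon as they have the same parity. -/
def TwoCl (N : ℕ) : Prop := ∀ c c' : C6, Adm6 N c → Adm6 N c' →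
  (inv6 c = 0 ↔ inv6 c' = 0) → CEq6 c c'

variable {N : ℕ}

/-- Two origamis of odd type with the same parity are in the same orbit. -/
theorem same_orbit_of (hT : TreeEx N) (h2 : TwoCl N) {O O' : PO (Fin N)} (hO : Odd6 O)
    (hO' : Odd6 O') (hp : O.Prim) (hp' : O'.Prim) (he : Even6 O ↔ Even6 O') : SLE6 O O' := by
  have key : ∀ O : PO (Fin N), Odd6 O → O.Prim → ∃ (O1 : PO (Fin N)) (c : C6), SLE6 O O1 ∧
      Odd6 O1 ∧ Has6 O1 c ∧ Adm6 N c ∧ (Even6 O ↔ inv6 c = 0) := by
    intro O hO hp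
    obtain ⟨O1, c, h1, h3, h4⟩ := hT O hO hp
    have hO1 : Odd6 O1 := h1.odd.1 hO
    have hp1 : O1.Prim := h1.prim.1 hp
    have hX : (Nat.card (Fin N) : ℤ) = vol6 c := by
      rw [Nat.card_eq_fintype_card, Fintype.card_fin, h3]
    refine ⟨O1, c, h1, hO1, h4, ⟨h4.pos, h3, fun c' hc' => ?_⟩, ?_⟩
    · obtain ⟨O2, g1, g2⟩ := h4.orb hc' h4.pos
      have hO2 : Odd6 O2 := g1.odd.1 hO1
      have hX' : (Nat.card (Fin N) : ℤ) = vol6 c' := by rw [hX, hc'.vol]
      exact ⟨span6_top hO2.trans (g1.prim.1 hp1) g2.pos g2 hX', hO2.lat_ne g2 hX'⟩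
    · rw [h1.even]
      exact even_iff_of_orb h4.pos hO1.trans hX (fun c' hc' => h4.orb hc' h4.pos)
  obtain ⟨O1, c, a1, a2, a3, a4, a5⟩ := key O hO hp
  obtain ⟨O1', c', b1, b2, b3, b4, b5⟩ := key O' hO' hp'
  have hc : CEq6 c c' := h2 c c' a4 b4 (by rw [← a5, ← b5, he])
  obtain ⟨O2, c1, c2⟩ := a3.orb hc a4.1
  have ht : O2.Trans := c1.trans_iff.1 a2.trans
  have hX : (Nat.card (Fin N) : ℤ) = vol6 c' := by
    rw [Nat.card_eq_fintype_card, Fintype.card_fin, b4.2.1]
  obtain ⟨e, he⟩ := recon6 ht b2.trans c2 b3 hX hX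
  exact ((a1.trans c1).trans (SLE6.iso he)).trans b1.symm

/-- PART (i) for one number of squares: exactly two orbits of primitive origamis of odd type,
distinguished by the monodromy group, which is the alternating or the symmetric group. -/
theorem main_of (hN : 9 ≤ N) (hT : TreeEx N) (h2 : TwoCl N) :
    (∀ p : Ori N, p.POdd → p.mono = alternatingGroup (Fin N) ∨ p.mono = ⊤) ∧
    (∃ p : Ori N, p.POdd ∧ p.mono = alternatingGroup (Fin N)) ∧
    (∃ p : Ori N, p.POdd ∧ p.mono = ⊤) ∧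
    (∀ p q : Ori N, p.POdd → q.POdd →
      (p.SameOrbit q ↔ (p.mono = alternatingGroup (Fin N) ↔
        q.mono = alternatingGroup (Fin N)))) := by
  refine ⟨fun p hp => ?_, ?_, ?_, fun p q hp hq => ?_⟩
  · by_cases he : p.Even
    · exact Or.inl ((mono_eq_alt hN hp.1 hp.2.1).2 he)
    · exact Or.inr ((mono_eq_top hN hp.1 hp.2.1).2 he)
  · obtain ⟨O, h1, h3, h4, h5⟩ := exists_even6 N hN
    have hp : O.pair.POdd := podd_iff.2 ⟨h1, h3⟩
    exact ⟨O.pair, hp, (mono_eq_alt hN hp.1 hp.2.1).2 ⟨h4, h5⟩⟩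
  · obtain ⟨O, h1, h3, h4⟩ := exists_odd6 N hN
    have hp : O.pair.POdd := podd_iff.2 ⟨h1, h3⟩
    refine ⟨O.pair, hp, (mono_eq_top hN hp.1 hp.2.1).2 ?_⟩
    rintro ⟨h5, h6⟩
    rcases h4 with h4 | h4
    · rw [show Equiv.Perm.sign O.r = 1 from h5] at h4
      exact absurd h4 (by decide)
    · rw [show Equiv.Perm.sign O.u = 1 from h6] at h4
      exact absurd h4 (by decide)
  · rw [mono_eq_alt hN hp.1 hp.2.1, mono_eq_alt hN hq.1 hq.2.1]
    constructor
    · intro h
      exact even_orbit h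
    · intro h
      obtain ⟨a1, a2⟩ := podd_iff.1 hp
      obtain ⟨b1, b2⟩ := podd_iff.1 hq
      exact sle6_iff.2 (same_orbit_of hT h2 a1 b1 a2 b2 h)

end Pool.Agent.H4G.Six
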