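import Pool.Agent.H4G.Six.Main6
import Pool.Agent.H4G.Six.Lam6
import Pool.Agent.H4G.Six.Can.Can
import Pool.Agent.H4G.Six.Can.Ev4
import Pool.Agent.H4G.Six.Ex.Main7

/-!
# Part (i): the glue, second form (helper27)

The row is here: every primitive origami of odd type is in the orbit of one with a tree whose state
is equivalent to a generic end state (`ToEnd6`).
-/

set_option autoImplicit false

namespace Pool.Agent.H4G.Six

open Pool.Agent.H4G

/-- the generic end states of volume `N` -/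
def End6 (N : ℤ) (S : St6) : Prop :=
  (∃ A a a1 : ℤ, Gd N A a a1 ∧ S = PG A a a1 0) ∨ (∃ A a a1 : ℤ, GdE N A a a1 ∧ S = PG A a a1 1)

/-- the orbit of `O` contains an origami with a tree equivalent to a generic end state -/
def ToEnd6 {N : ℕ} (O : PO (Fin N)) : Prop := ∃ (O' : PO (Fin N)) (c : C6) (S : St6),
  SLE6 O O' ∧ Has6 O' c ∧ SEq6 (st6Of c) S ∧ End6 N S

theorem ToEnd6.of {N : ℕ} {O O' : PO (Fin N)} (h : ToEnd6 O') (h' : SLE6 O O') : ToEnd6 O := by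
  obtain ⟨O1, c, S, h1, h2, h3, h4⟩ := h
  exact ⟨O1, c, S, h'.trans h1, h2, h3, h4⟩

/-- every primitive origami of odd type with a tree (of volume `N`) is in the orbit of one with a
generic tree -/
def Desc6 (N : ℕ) : Prop := ∀ (O : PO (Fin N)) (c : C6), Odd6 O → O.Prim → Has6 O c →
  vol6 c = N → ToEnd6 O

/-! ## Parity of the end states -/

theorem PG.rep {A a a1 z : ℤ} (hA : 0 < A) (ha : 1 < a) (ha1 : 1 < a1) :
    IsRep6 (PG A a a1 z) ((1, 0), (0, A), (0, 1), (a - 1, 0), (z, 1), (a1 - 1, 0)) := by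
  have k1 : lat ((0, 1) : Z2) (a, 0) = Ld (0, 1) a := by
    have := lat_eq_Ld (l := ((0, 1) : Z2)) (p := (a, 0)) isCoprime_one_right
    rw [this]
    congr 1
    simp [cr]
  have k2 : lat ((z, 1) : Z2) (a1, 0) = Ld (z, 1) a1 := by
    have := lat_eq_Ld (l := ((z, 1) : Z2)) (p := (a1, 0)) isCoprime_one_right
    rw [this]
    congr 1
    simp [cr]
  refine ⟨rfl, rfl, ?_, ⟨?_, ?_, ?_⟩, ⟨?_, ?_, ?_⟩⟩
  · simp [PG, GS, cr]; exact hA
  · simp [PG, GS, cr]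
  · simp [cr]; linarith
  · simp only [PG, GS]
    rw [← k1]
    congr 1
    ext <;> simp
  · simp [PG, GS, cr]
  · simp [cr]; linarith
  · simp only [PG, GS]
    rw [← k2]
    congr 1
    ext <;> simp

theorem inv6_vals : ∀ A a a1 z : ZMod 2,
    (lam2 (1, 0) (0, A) + lam2 (0, 1) (a, 0) + lam2 (z, 1) (a1, 0) = 0 ↔
      (A = 1 ∧ a = 1 ∧ a1 = 1) ∨ (A = 1 ∧ a = 0 ∧ a1 = 0 ∧ z = 0) ∨
        (A = 0 ∧ a = 0 ∧ a1 = 0 ∧ z = 1)) := by decide

theorem zmod2_cases (x : ℤ) : (Even x ∧ (x : ZMod 2) = 0) ∨ (Odd x ∧ (x : ZMod 2) = 1) := by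
  rcases Int.even_or_odd x with h | h
  · left
    refine ⟨h, ?_⟩
    rw [even_iff_two_dvd] at h
    exact (ZMod.intCast_zmod_eq_zero_iff_dvd _ 2).2 h
  · right
    refine ⟨h, ?_⟩
    obtain ⟨k, rfl⟩ := h
    push_cast
    rw [show (2 : ZMod 2) = 0 from rfl]
    ring

theorem PG.inv_eq {A a a1 z : ℤ} (hA : 0 < A) (ha : 1 < a) (ha1 : 1 < a1) :
    (PG A a a1 z).inv = lam2 (1, 0) (0, (A : ZMod 2)) + lam2 (0, 1) ((a : ZMod 2), 0) +
      lam2 ((z : ZMod 2), 1) ((a1 : ZMod 2), 0) := by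
  rw [← (PG.rep (z := z) hA ha ha1).inv]
  simp [inv6, lam, m2]

/-- the parity of the good states -/
theorem Gd.inv_zero {N A a a1 : ℤ} (h : Gd N A a a1) :
    (PG A a a1 0).inv = 0 ↔ Odd N ∧ Odd A := by
  rw [PG.inv_eq h.A0 h.a2 h.a2', inv6_vals]
  have hp := h.par
  have hv := h.vol
  rw [← even_iff_two_dvd, ← even_iff_two_dvd] at hp
  rcases zmod2_cases A with ⟨h1, e1⟩ | ⟨h1, e1⟩ <;> rcases zmod2_cases a with ⟨h2, e2⟩ | ⟨h2, e2⟩ <;>
    rcases zmod2_cases a1 with ⟨h3, e3⟩ | ⟨h3, e3⟩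
  · exact absurd ⟨h2, h3⟩ hp
  · rw [e1, e2, e3]
    have : ¬ Odd A := Int.not_odd_iff_even.2 h1
    simp [this]
  · rw [e1, e2, e3]
    have : ¬ Odd A := Int.not_odd_iff_even.2 h1
    simp [this]
  · rw [e1, e2, e3]
    have : ¬ Odd A := Int.not_odd_iff_even.2 h1
    simp [this]
  · exact absurd ⟨h2, h3⟩ hp
  · rw [e1, e2, e3]
    have : ¬ Odd N := by
      rw [← hv]
      exact Int.not_odd_iff_even.2 ((h1.add_even h2).add_odd h3)
    simp [this]
  · rw [e1, e2, e3]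
    have : ¬ Odd N := by
      rw [← hv]
      exact Int.not_odd_iff_even.2 ((h1.add_odd h2).add h3)
    simp [this]
  · rw [e1, e2, e3]
    have : Odd N := by
      rw [← hv]
      exact (h1.add_odd h2).add_odd h3
    simp [this, h1]

/-- the even good states are even -/
theorem GdE.inv_zero {N A a a1 : ℤ} (h : GdE N A a a1) : (PG A a a1 1).inv = 0 ∧ Even N := by
  have h1 : (2 : ℤ) ∣ A := h.A2
  have h2 : (2 : ℤ) ∣ a := h.g.e
  have h3 : (2 : ℤ) ∣ a1 := h.g.e'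
  constructor
  · rw [PG.inv_eq h.A0 h.a1 h.a1', inv6_vals]
    right; right
    refine ⟨(ZMod.intCast_zmod_eq_zero_iff_dvd _ 2).2 h1,
      (ZMod.intCast_zmod_eq_zero_iff_dvd _ 2).2 h2,
      (ZMod.intCast_zmod_eq_zero_iff_dvd _ 2).2 h3, by simp⟩
  · rw [even_iff_two_dvd, ← h.vol]
    exact dvd_add (dvd_add h1 h2) h3

/-- two end states of the same volume and the same parity are equivalent -/
theorem end_seq {N : ℤ} {J Z : ℕ} (hB : Bg N J Z) {S S' : St6} (h : End6 N S) (h' : End6 N S')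
    (hp : S.inv = 0 ↔ S'.inv = 0) : SEq6 S S' := by
  rcases h with ⟨A, a, a1, h, rfl⟩ | ⟨A, a, a1, h, rfl⟩ <;>
    rcases h' with ⟨A', a', a1', h', rfl⟩ | ⟨A', a', a1', h', rfl⟩
  · rw [h.inv_zero, h'.inv_zero] at hp
    refine can hB h h' (fun hN => ?_)
    rw [← Int.not_odd_iff_even, ← Int.not_odd_iff_even]
    have : Odd A ↔ Odd A' := by
      constructor
      · intro h1; exact (hp.1 ⟨hN, h1⟩).2
      · intro h1; exact (hp.2 ⟨hN, h1⟩).2
    rw [this]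
  · exfalso
    obtain ⟨k1, k2⟩ := h'.inv_zero
    have := (h.inv_zero.1 (hp.2 k1)).1
    exact (Int.not_odd_iff_even.2 k2) this
  · exfalso
    obtain ⟨k1, k2⟩ := h.inv_zero
    have := (h'.inv_zero.1 (hp.1 k1)).1
    exact (Int.not_odd_iff_even.2 k2) this
  · exact canE' hB h h'

/-! ## The orbits -/

variable {N : ℕ}

/-- the volume of the end states -/
theorem End6.vol {S : St6} (h : End6 N S) {c : C6} (hc : IsRep6 S c) : vol6 c = N := by
  rcases h with ⟨A, a, a1, h, rfl⟩ | ⟨A, a, a1, h, rfl⟩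
  · rw [← (hc.ceq (PG.rep h.A0 h.a2 h.a2')).vol]
    simp [vol6, cr]
    linarith [h.vol]
  · rw [← (hc.ceq (PG.rep h.A0 h.a1 h.a1')).vol]
    simp [vol6, cr]
    linarith [h.vol]

/-- two origamis of odd type with the same parity are in the same orbit -/
theorem same_orbit_of' {J Z : ℕ} (hB : Bg (N : ℤ) J Z)
    (hR : ∀ O : PO (Fin N), Odd6 O → O.Prim → ToEnd6 O) {O O' : PO (Fin N)} (hO : Odd6 O)
    (hO' : Odd6 O') (hp : O.Prim) (hp' : O'.Prim) (he : Even6 O ↔ Even6 O') : SLE6 O O' := by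
  have key : ∀ O : PO (Fin N), Odd6 O → O.Prim → ∃ (O1 : PO (Fin N)) (S : St6) (c : C6), SLE6 O O1 ∧
      O1.Trans ∧ Has6 O1 c ∧ IsRep6 S c ∧ End6 N S ∧ (Even6 O ↔ S.inv = 0) := by
    intro O hO hp
    obtain ⟨O1, c, S, h1, h2, h3, h4⟩ := hR O hO hp
    obtain ⟨c', hc'⟩ := h3.ok'
    have hc : CEq6 c c' := h3.ceq (isRep6_st6Of h2.pos) hc'
    obtain ⟨O2, g1, g2⟩ := h2.orb hc h2.pos
    have h12 : SLE6 O O2 := h1.trans g1
    have hv : vol6 c' = N := h4.vol hc'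
    have hX : (Nat.card (Fin N) : ℤ) = vol6 c' := by
      rw [Nat.card_eq_fintype_card, Fintype.card_fin, hv]
    have hO2 : Odd6 O2 := h12.odd.1 hO
    refine ⟨O2, S, c', h12, hO2.trans, g2, hc', h4, ?_⟩
    rw [h12.even, ← hc'.inv]
    exact even_iff_of_orb g2.pos hO2.trans hX (fun c'' hc'' => g2.orb hc'' g2.pos)
  obtain ⟨O1, S, c, a1, a2, a3, a4, a5, a6⟩ := key O hO hp
  obtain ⟨O1', S', c', b1, b2, b3, b4, b5, b6⟩ := key O' hO' hp'
  have hS : SEq6 S S' := end_seq hB a5 b5 (by rw [← a6, ← b6, he])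
  have hc : CEq6 c c' := hS.ceq a4 b4
  obtain ⟨O2, c1, c2⟩ := a3.orb hc a3.pos
  have ht : O2.Trans := c1.trans_iff.1 a2
  have hX : (Nat.card (Fin N) : ℤ) = vol6 c' := by
    rw [Nat.card_eq_fintype_card, Fintype.card_fin, b5.vol b4]
  obtain ⟨e, he⟩ := recon6 ht b2 c2 b3 hX hX
  exact ((a1.trans c1).trans (SLE6.iso he)).trans b1.symm

/-- PART (i) for one number of squares from the statement on the orbits -/
theorem main_of_orb (hN : 9 ≤ N) (h0 : ∀ O O' : PO (Fin N), Odd6 O → Odd6 O' → O.Prim → O'.Prim →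
      (Even6 O ↔ Even6 O') → SLE6 O O') :
    (∀ p : Ori N, p.POdd → p.mono = alternatingGroup (Fin N) ∨ p.mono = ⊤) ∧
    (∃ p : Ori N, p.POdd ∧ p.mono = alternatingGroup (Fin N)) ∧
    (∃ p : Ori N, p.POdd ∧ p.mono = ⊤) ∧
    (∀ p q : Ori N, p.POdd → q.POdd →
      (p.SameOrbit q ↔ (p.mono = alternatingGroup (Fin N) ↔
        q.mono = alternatingGroup (Fin N)))) := by
  refine ⟨fun p hp => ?_, ?_, ?_, fun p q hp hq => ?_⟩
  · by_cases he : p.Even
    · exact Or.inl ((mono_eq_alt hN hp.1 hp.2.1).2 he)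
    · exact Or.inr ((mono_eq_top hN hp.1 hp.2.1).2 he)
  · obtain ⟨O, h1, h3, h4, h5⟩ := exists_even6 N hN
    have hp : O.pair.POdd := podd_iff.2 ⟨h1, h3⟩
    exact ⟨O.pair, hp, (mono_eq_alt hN hp.1 hp.2.1).2 ⟨h4, h5⟩⟩
  · obtain ⟨O, h1, h3, h4⟩ := exists_odd6 N hN
    have hp : O.pair.POdd := podd_iff.2 ⟨h1, h3⟩
    refine ⟨O.pair, hp, (mono_eq_top hN hp.1 hp.2.1).2 ?_⟩
    rintro ⟨h5, h6⟩
    rcases h4 with h4 | h4
    · rw [show Equiv.Perm.sign O.r = 1 from h5] at h4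
      exact absurd h4 (by decide)
    · rw [show Equiv.Perm.sign O.u = 1 from h6] at h4
      exact absurd h4 (by decide)
  · rw [mono_eq_alt hN hp.1 hp.2.1, mono_eq_alt hN hq.1 hq.2.1]
    constructor
    · intro h
      exact even_orbit h
    · intro h
      obtain ⟨a1, a2⟩ := podd_iff.1 hp
      obtain ⟨b1, b2⟩ := podd_iff.1 hq
      exact sle6_iff.2 (h0 _ _ a1 b1 a2 b2 h)

/-- **PART (i) from the descent**: if `Desc6 N` holds for all large `N`, then for all large `N`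
there are exactly two orbits of primitive origamis of odd type with `N` squares. -/
theorem main_desc (h : ∃ N0 : ℕ, ∀ N : ℕ, N0 ≤ N → Desc6 N) : ∃ N0 : ℕ, ∀ N : ℕ, N0 ≤ N →
    (∀ p : Ori N, p.POdd → p.mono = alternatingGroup (Fin N) ∨ p.mono = ⊤) ∧
    (∃ p : Ori N, p.POdd ∧ p.mono = alternatingGroup (Fin N)) ∧
    (∃ p : Ori N, p.POdd ∧ p.mono = ⊤) ∧
    (∀ p q : Ori N, p.POdd → q.POdd →
      (p.SameOrbit q ↔ (p.mono = alternatingGroup (Fin N) ↔
        q.mono = alternatingGroup (Fin N)))) := by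
  obtain ⟨N0, h0⟩ := h
  obtain ⟨N1, h1⟩ := exists_Bg
  refine ⟨max (max N0 N1) (2 ^ 120 + 9), fun N hN => ?_⟩
  have k0 : N0 ≤ N := (le_max_left _ _).trans ((le_max_left _ _).trans hN)
  have k1 : N1 ≤ N := (le_max_right _ _).trans ((le_max_left _ _).trans hN)
  have k2 : 2 ^ 120 + 9 ≤ N := (le_max_right _ _).trans hN
  obtain ⟨J, Z, hB⟩ := h1 N k1
  refine main_of_orb (by omega) (fun O O' hO hO' hp hp' he => ?_)
  refine same_orbit_of' hB (fun O hO hp => ?_) hO hO' hp hp' he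
  obtain ⟨O1, c, g1, g2, g3⟩ := treeEx (N := N) (by omega) O hO hp
  exact (h0 N k0 O1 c (g1.odd.1 hO) (g1.prim.1 hp) g3 g2).of g1

end Pool.Agent.H4G.Six
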