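import Pool.Agent.H4G.Six.Column

/-!
# The column lemma, second part: the new parallelograms (helper96)
-/

set_option autoImplicit false

namespace Pool.Agent.H4G.Six

open Pool.Agent.H4G

variable {X : Type}

/-- the products of `a'` with the corners increase -/
theorem sums_mono {a' : Z2} {b : ℕ → Z2} {n : ℕ} (hp : ∀ i ≤ n, 0 < cr a' (b i)) :
    ∀ i j : ℕ, i ≤ j → j ≤ n + 1 → (cr a' (ps b i) : ℝ) ≤ cr a' (ps b j) := by
  intro i j hij hj
  induction j, hij using Nat.le_induction with
  | base => exact le_refl _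
  | succ j hij ih =>
    have h1 : (0 : ℝ) < cr a' (b j) := by exact_mod_cast hp j (by omega)
    rw [ps_succ, cr_addr]
    push_cast
    linarith [ih (by omega)]

theorem sums_lt {a' : Z2} {b : ℕ → Z2} {n : ℕ} (hp : ∀ i ≤ n, 0 < cr a' (b i)) {i j : ℕ}
    (hij : i < j) (hj : j ≤ n + 1) : (cr a' (ps b i) : ℝ) < cr a' (ps b j) := by
  have h1 := sums_mono hp (i + 1) j hij hj
  have h2 : (0 : ℝ) < cr a' (b i) := by exact_mod_cast hp i (by omega)
  rw [ps_succ, cr_addr] at h1
  push_cast at h1
  linarith

theorem mem_pgm_of {a b : Z2} {y : V} (h1 : 0 ≤ crx a y) (h2 : crx a y ≤ cr a b)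
    (h3 : crx b y ≤ 0) (h4 : -(cr a b : ℝ) ≤ crx b y) (h5 : y ≠ em 0) (h6 : y ≠ em a)
    (h7 : y ≠ em b) (h8 : y ≠ em (a + b)) : y ∈ Pgm a b := ⟨h1, h2, h3, h4, h5, h6, h7, h8⟩

theorem sub_em_ne {x : V} {P w : Z2} (h : x ≠ em (P + w)) : x - em P ≠ em w := by
  intro he
  apply h
  rw [em_add, ← he]
  abel

/-- the new parallelogram, `a' = a + Σ b`: inclusion in the stack -/
theorem incl_pos {a a' : Z2} {b : ℕ → Z2} {n : ℕ} (hn : 0 < n) (hb : b n = b 0)
    (ha' : a' = a + ps b n) (hq : ∀ i ≤ n, 0 < cr a (b i)) (hp : ∀ i ≤ n, 0 < cr a' (b i)) {x : V}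
    (hx : x ∈ Pgm a' (b 0)) :
    (hgt a b 0 ≤ crx a x ∧ crx a x ≤ hgt a b (n + 1)) ∧
      ∀ i ≤ n, x ∈ slab a b i → x ∈ PgmAt (ps b i) a (b i) := by
  obtain ⟨x1, x2, x3, x4, x5, x6, x7, x8⟩ := hx
  have hS1 : (cr a' (ps b 1) : ℝ) = cr a' (b 0) := by rw [ps_one]
  have haa : (cr a' a : ℝ) = -cr a' (ps b n) := by
    have : cr a' a + cr a' (ps b n) = 0 := by rw [← cr_addr, ← ha', cr_self']
    have h2 : (cr a' a : ℝ) + cr a' (ps b n) = 0 := by exact_mod_cast this
    linarith
  have hHn : (cr a a' : ℝ) = hgt a b n := by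
    rw [ha', cr_addr, cr_self', hgt]; simp
  have hH : (0 : ℝ) < cr a a' := by
    rw [show (cr a a' : ℝ) = -cr a' a by exact_mod_cast cr_swap' a' a, haa, neg_neg]
    have := sums_lt hp hn (Nat.le_succ n)
    rw [ps_zero, cr_zero'] at this
    exact_mod_cast this
  have hb0 : (0 : ℝ) < cr a' (b 0) := by exact_mod_cast hp 0 (Nat.zero_le n)
  have hab0 : (0 : ℝ) < cr a (b 0) := by exact_mod_cast hq 0 (Nat.zero_le n)
  have key := pluck a a' (b 0) x
  refine ⟨⟨?_, ?_⟩, ?_⟩
  · -- lower bound of the height
    rw [hgt_zero]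
    have h1 : 0 ≤ (cr a' (b 0) : ℝ) * crx a x := by
      have e1 := mul_nonneg hab0.le x1
      have e2 : (cr a a' : ℝ) * crx (b 0) x ≤ 0 := mul_nonpos_of_nonneg_of_nonpos hH.le x3
      linarith
    exact nonneg_of_mul_nonneg_right h1 hb0
  · rw [hgt_succ, hb, ← hHn]
    have h1 : (cr a' (b 0) : ℝ) * crx a x ≤ cr a' (b 0) * (cr a a' + cr a (b 0)) := by
      have e1 := mul_le_mul_of_nonneg_left x2 hab0.le
      have e2 := mul_le_mul_of_nonneg_left x4 hH.le
      nlinarith
    exact le_of_mul_le_mul_left h1 hb0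
  · intro i hi hs
    obtain ⟨s1, s2⟩ := hs
    have hbi : (0 : ℝ) < cr a (b i) := by exact_mod_cast hq i hi
    have hbi' : (0 : ℝ) < cr a' (b i) := by exact_mod_cast hp i hi
    have hSi : (cr a' (ps b (i + 1)) : ℝ) = cr a' (ps b i) + cr a' (b i) := by
      rw [ps_succ, cr_addr]; push_cast; ring
    obtain ⟨y, hy⟩ : ∃ y : V, y = x - em (ps b i) := ⟨_, rfl⟩
    have y1 : crx a y = crx a x - hgt a b i := by rw [hy, crx_sub, crx_em]; rfl
    have y2 : crx a' y = crx a' x - cr a' (ps b i) := by rw [hy, crx_sub, crx_em]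
    have y3 : crx (b i) y = crx (b i) x - cr (b i) (ps b i) := by rw [hy, crx_sub, crx_em]
    have hpl := pluck a a' (b i) y
    rw [hgt_succ] at s2
    have c1 : 0 ≤ crx a y := by rw [y1]; linarith
    have c2 : crx a y ≤ cr a (b i) := by rw [y1]; linarith
    have c3 : crx (b i) y ≤ 0 := by
      rcases Nat.eq_zero_or_pos i with h0 | h0
      · subst h0
        rw [y3, ps_zero, cr_zero']
        push_cast
        linarith
      · have e1 := sums_mono hp 1 i h0 (by omega)
        have e2 : crx a' y ≤ 0 := by rw [y2]; linarith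
        have e3 : (cr a a' : ℝ) * crx (b i) y ≤ 0 := by
          rw [hpl]
          have := mul_nonpos_of_nonneg_of_nonpos hbi.le e2
          have := mul_nonneg hbi'.le c1
          linarith
        exact nonpos_of_mul_nonpos_right e3 hH
    have c4 : -(cr a (b i) : ℝ) ≤ crx (b i) y := by
      rcases hi.lt_or_eq with h0 | h0
      · have e1 := sums_mono hp (i + 1) n h0 (by omega)
        have e2 : (cr a a' : ℝ) * (crx (b i) y + cr a (b i)) ≥ 0 := by
          have e3 : (cr a a' : ℝ) * (crx (b i) y + cr a (b i)) =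
              cr a (b i) * (crx a' y - cr a' a - cr a' (b i)) +
                cr a' (b i) * (cr a (b i) - crx a y) := by
            rw [mul_add, hpl]
            have : (cr a a' : ℝ) = -cr a' a := by exact_mod_cast cr_swap' a' a
            rw [this]; ring
          rw [e3]
          have e4 : 0 ≤ crx a' y - cr a' a - cr a' (b i) := by
            rw [y2, haa]; linarith
          exact add_nonneg (mul_nonneg hbi.le e4) (mul_nonneg hbi'.le (by linarith))
        have := nonneg_of_mul_nonneg_right e2 hH
        linarith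
      · subst h0
        rw [y3, hb]
        have e1 : (cr a' (b 0) : ℝ) = cr a (b 0) - cr (b 0) (ps b i) := by
          rw [ha', cr_addl, cr_swap' (b 0) (ps b i)]; push_cast; ring
        linarith
    show x - em (ps b i) ∈ Pgm a (b i)
    rw [← hy]
    refine mem_pgm_of c1 c2 c3 c4 ?_ ?_ ?_ ?_
    · rw [hy]
      apply sub_em_ne
      rw [add_zero]
      rcases Nat.lt_or_ge i 2 with h0 | h0
      · interval_cases i
        · rw [ps_zero]; exact x5
        · rw [ps_one]; exact x7
      · apply ne_of_crx (a := a')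
        have := sums_lt hp (i := 1) (j := i) h0 (by omega)
        intro h; linarith
    · rw [hy]
      apply sub_em_ne
      rcases hi.lt_or_eq with h0 | h0
      · apply ne_of_crx (a := a')
        rw [cr_addr]
        push_cast
        rw [haa]
        have := sums_lt hp h0 (Nat.le_succ n)
        intro h; linarith
      · subst h0
        rw [add_comm, ← ha']; exact x6
    · rw [hy]
      apply sub_em_ne
      rw [← ps_succ]
      rcases Nat.eq_zero_or_pos i with h0 | h0
      · subst h0
        rw [zero_add, ps_one]; exact x7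
      · apply ne_of_crx (a := a')
        have := sums_lt hp (i := 1) (j := i + 1) (by omega) (by omega)
        intro h; linarith
    · rw [hy]
      apply sub_em_ne
      have e0 : ps b i + (a + b i) = ps b (i + 1) + a := by rw [ps_succ]; abel
      rw [e0]
      rcases Nat.lt_trichotomy (i + 1) n with h0 | h0 | h0
      · apply ne_of_crx (a := a')
        rw [cr_addr]
        push_cast
        rw [haa]
        have := sums_lt hp h0 (Nat.le_succ n)
        intro h; linarith
      · rw [h0, add_comm, ← ha']; exact x6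
      · have h9 : i = n := by omega
        subst h9
        have e1 : ps b (i + 1) + a = a' + b 0 := by rw [ps_succ, ha', hb]; abel
        rw [e1]; exact x8

/-- the new parallelogram, `a' = a - Σ b` -/
theorem incl_neg {a a' : Z2} {b : ℕ → Z2} {n : ℕ} (hn : 0 < n) (hb : b n = b 0)
    (ha' : a = a' + ps b n) (hq : ∀ i ≤ n, 0 < cr a (b i)) (hp : ∀ i ≤ n, 0 < cr a' (b i)) {x : V}
    (hx : x ∈ PgmAt (ps b n) a' (b 0)) :
    (hgt a b 0 ≤ crx a x ∧ crx a x ≤ hgt a b (n + 1)) ∧
      ∀ i ≤ n, x ∈ slab a b i → x ∈ PgmAt (ps b i) a (b i) := by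
  obtain ⟨x1, x2, x3, x4, x5, x6, x7, x8⟩ := hx
  rw [crx_sub, crx_em] at x1 x2 x3 x4
  have hS1 : (cr a' (ps b 1) : ℝ) = cr a' (b 0) := by rw [ps_one]
  have haa : (cr a' a : ℝ) = cr a' (ps b n) := by
    rw [ha', cr_addr, cr_self', zero_add]
  have hHn : (cr a a' : ℝ) = -hgt a b n := by
    have h1 : a' = a - ps b n := by rw [ha']; abel
    rw [h1]
    simp only [hgt, cr, Prod.fst_sub, Prod.snd_sub]; push_cast; ring
  have hSn : (0 : ℝ) < cr a' (ps b n) := by
    have := sums_lt hp hn (Nat.le_succ n)
    rw [ps_zero, cr_zero'] at this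
    exact_mod_cast this
  have hH : (0 : ℝ) < cr a' a := by rw [haa]; exact hSn
  have hHs : (cr a a' : ℝ) = -cr a' a := by exact_mod_cast cr_swap' a' a
  have hb0 : (0 : ℝ) < cr a' (b 0) := by exact_mod_cast hp 0 (Nat.zero_le n)
  have hab0 : (0 : ℝ) < cr a (b 0) := by exact_mod_cast hq 0 (Nat.zero_le n)
  have hP : (cr (b 0) (ps b n) : ℝ) = cr (b 0) a + cr a' (b 0) := by
    have h1 : ps b n = a - a' := by rw [ha']; abel
    rw [h1]
    simp only [cr, Prod.fst_sub, Prod.snd_sub]; push_cast; ring
  have hba : (cr (b 0) a : ℝ) = -cr a (b 0) := by exact_mod_cast cr_swap' a (b 0)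
  have key := pluck a a' (b 0) x
  refine ⟨⟨?_, ?_⟩, ?_⟩
  · rw [hgt_zero]
    have h1 : 0 ≤ (cr a' (b 0) : ℝ) * crx a x := by
      have e1 : 0 ≤ (cr a (b 0) : ℝ) * (crx a' x - cr a' (ps b n)) := mul_nonneg hab0.le x1
      have e2 : (cr a' a : ℝ) * (crx (b 0) x + cr a (b 0)) ≥ 0 := mul_nonneg hH.le (by linarith)
      rw [hHs] at key
      nlinarith
    exact nonneg_of_mul_nonneg_right h1 hb0
  · rw [hgt_succ, hb]
    have h9 : hgt a b n = cr a' a := by linarith
    rw [h9]
    have h1 : (cr a' (b 0) : ℝ) * crx a x ≤ cr a' (b 0) * (cr a' a + cr a (b 0)) := by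
      rw [hHs] at key
      have e1 := mul_le_mul_of_nonneg_left x2 hab0.le
      have e2 := mul_le_mul_of_nonneg_left x3 hH.le
      nlinarith
    exact le_of_mul_le_mul_left h1 hb0
  · intro i hi hs
    obtain ⟨s1, s2⟩ := hs
    have hbi : (0 : ℝ) < cr a (b i) := by exact_mod_cast hq i hi
    have hbi' : (0 : ℝ) < cr a' (b i) := by exact_mod_cast hp i hi
    have hSi : (cr a' (ps b (i + 1)) : ℝ) = cr a' (ps b i) + cr a' (b i) := by
      rw [ps_succ, cr_addr]; push_cast; ring
    obtain ⟨y, hy⟩ : ∃ y : V, y = x - em (ps b i) := ⟨_, rfl⟩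
    have y1 : crx a y = crx a x - hgt a b i := by rw [hy, crx_sub, crx_em]; rfl
    have y2 : crx a' y = crx a' x - cr a' (ps b i) := by rw [hy, crx_sub, crx_em]
    have y3 : crx (b i) y = crx (b i) x - cr (b i) (ps b i) := by rw [hy, crx_sub, crx_em]
    have hpl := pluck a a' (b i) y
    rw [hHs] at hpl
    rw [hgt_succ] at s2
    have c1 : 0 ≤ crx a y := by rw [y1]; linarith
    have c2 : crx a y ≤ cr a (b i) := by rw [y1]; linarith
    have c3 : crx (b i) y ≤ 0 := by
      rcases hi.lt_or_eq with h0 | h0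
      · have e1 := sums_mono hp (i + 1) n h0 (by omega)
        have e2 : 0 ≤ crx a' y - cr a' (b i) := by rw [y2]; linarith
        have e3 : (cr a' a : ℝ) * crx (b i) y ≤ 0 := by
          have e4 := mul_nonneg hbi.le e2
          have e5 : 0 ≤ (cr a' (b i) : ℝ) * (cr a (b i) - crx a y) :=
            mul_nonneg hbi'.le (by linarith)
          nlinarith
        exact nonpos_of_mul_nonpos_right e3 hH
      · subst h0
        rw [y3, hb]
        exact x3
    have c4 : -(cr a (b i) : ℝ) ≤ crx (b i) y := by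
      rcases Nat.eq_zero_or_pos i with h0 | h0
      · subst h0
        rw [y3, ps_zero, cr_zero']
        push_cast
        linarith
      · have e1 := sums_mono hp 1 i h0 (by omega)
        have e2 : crx a' y - cr a' a ≤ 0 := by rw [y2, haa]; linarith
        have e3 : 0 ≤ (cr a' a : ℝ) * (crx (b i) y + cr a (b i)) := by
          have e4 := mul_nonpos_of_nonneg_of_nonpos hbi.le e2
          have e5 := mul_nonneg hbi'.le c1
          nlinarith
        have := nonneg_of_mul_nonneg_right e3 hH
        linarith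
    have hPn : ∀ w : Z2, x - em (ps b n) ≠ em w → x ≠ em (ps b n + w) := by
      intro w hw he
      apply hw
      rw [he, em_add]
      abel
    show x - em (ps b i) ∈ Pgm a (b i)
    rw [← hy]
    refine mem_pgm_of c1 c2 c3 c4 ?_ ?_ ?_ ?_
    · rw [hy]
      apply sub_em_ne
      rw [add_zero]
      rcases hi.lt_or_eq with h0 | h0
      · apply ne_of_crx (a := a')
        have := sums_lt hp h0 (Nat.le_succ n)
        intro h; linarith
      · subst h0
        have := hPn 0 x5
        rwa [add_zero] at this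
    · rw [hy]
      apply sub_em_ne
      rcases Nat.lt_or_ge i 2 with h0 | h0
      · interval_cases i
        · rw [ps_zero, zero_add]
          have := hPn a' x6
          rwa [add_comm, ← ha'] at this
        · rw [ps_one]
          have := hPn (a' + b 0) x8
          have e1 : ps b n + (a' + b 0) = b 0 + a := by rw [ha']; abel
          rwa [e1] at this
      · apply ne_of_crx (a := a')
        rw [cr_addr]
        push_cast
        rw [haa]
        have := sums_lt hp (i := 1) (j := i) h0 (by omega)
        intro h; linarith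
    · rw [hy]
      apply sub_em_ne
      rw [← ps_succ]
      rcases Nat.lt_trichotomy (i + 1) n with h0 | h0 | h0
      · apply ne_of_crx (a := a')
        have := sums_lt hp h0 (Nat.le_succ n)
        intro h; linarith
      · rw [h0]
        have := hPn 0 x5
        rwa [add_zero] at this
      · have h9 : i = n := by omega
        subst h9
        have := hPn (b 0) x7
        rwa [← hb, ← ps_succ] at this
    · rw [hy]
      apply sub_em_ne
      have e0 : ps b i + (a + b i) = ps b (i + 1) + a := by rw [ps_succ]; abel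
      rw [e0]
      rcases Nat.eq_zero_or_pos i with h0 | h0
      · subst h0
        have := hPn (a' + b 0) x8
        have e1 : ps b n + (a' + b 0) = ps b (0 + 1) + a := by rw [zero_add, ps_one, ha']; abel
        rwa [e1] at this
      · apply ne_of_crx (a := a')
        rw [cr_addr]
        push_cast
        rw [haa]
        have := sums_lt hp (i := 1) (j := i + 1) (by omega) (by omega)
        intro h; linarith

end Pool.Agent.H4G.Six
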