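import Pool.Agent.H4G.Six.Column2

/-!
# The column lemma (helper96)
-/

set_option autoImplicit false

namespace Pool.Agent.H4G.Six

open Pool.Agent.H4G

variable {X : Type}

theorem pgmAt_zero (a b : Z2) : PgmAt 0 a b = Pgm a b := by
  ext x
  simp [PgmAt, em_zero]

theorem cvx_pgmAt {a b : Z2} (P : Z2) (h : 0 < cr a b) : Cvx (PgmAt P a b) := by
  intro x hx y hy t h0 h1
  have := cvx_pgm h _ hx _ hy t h0 h1
  have e : (((1 - t) * x.1 + t * y.1, (1 - t) * x.2 + t * y.2) : V) - em P =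
      ((1 - t) * (x - em P).1 + t * (y - em P).1, (1 - t) * (x - em P).2 + t * (y - em P).2) := by
    ext
    · simp only [Prod.fst_sub]; ring
    · simp only [Prod.snd_sub]; ring
  show _ - em P ∈ Pgm a b
  rw [e]
  exact this

theorem seg_sub {A B C : Z2} {x : V} (h : x ∈ Seg (C + A) (C + B)) : x - em C ∈ Seg A B := by
  obtain ⟨t, h0, h1, rfl⟩ := h
  refine ⟨t, h0, h1, ?_⟩
  ext
  · simp only [em, Prod.fst_sub, Prod.fst_add]; push_cast; ring
  · simp only [em, Prod.snd_sub, Prod.snd_add]; push_cast; ring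

theorem seg_add' {A B : Z2} (C : Z2) {x : V} (h : x ∈ Seg A B) : x + em C ∈ Seg (C + A) (C + B) := by
  obtain ⟨t, h0, h1, rfl⟩ := h
  refine ⟨t, h0, h1, ?_⟩
  ext
  · simp only [em, Prod.fst_add]; push_cast; ring
  · simp only [em, Prod.snd_add]; push_cast; ring

/-- the data of one new parallelogram: `E = 0` and `a' = a + Σ b`, or `E = Σ b` and
`a' = a - Σ b`; `g` is given by the pieces of the stack. -/
structure New (O : PO X) (a a' E : Z2) (b : ℕ → Z2) (f : ℕ → Z2 → X) (n : ℕ) (g : Z2 → X) :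
    Prop where
  dev : Dev O (PgmAt E a' (b 0)) g
  ag : ∀ i ≤ n, Agree (PgmAt E a' (b 0) ∩ slab a b i) g (sh (ps b i) (f i))

theorem exists_new_pos {O : PO X} {a a' : Z2} {b : ℕ → Z2} {f : ℕ → Z2 → X} (S : Stk O a b f)
    {n : ℕ} (hn : 0 < n) (hb : b n = b 0) (ha' : a' = a + ps b n)
    (hp : ∀ i ≤ n, 0 < cr a' (b i)) : ∃ g, New O a a' 0 b f n g := by
  have hc : Cvx (PgmAt 0 a' (b 0)) := cvx_pgmAt 0 (hp 0 (Nat.zero_le n))
  obtain ⟨g, g1, g2⟩ := S.cut hc n
    (fun i hi x hx hs => (incl_pos hn hb ha' (fun i _ => S.pos i) hp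
      (by rw [pgmAt_zero] at hx; exact hx)).2 i hi hs)
    (fun x hx => (incl_pos hn hb ha' (fun i _ => S.pos i) hp
      (by rw [pgmAt_zero] at hx; exact hx)).1)
  exact ⟨g, g1, g2⟩

theorem exists_new_neg {O : PO X} {a a' : Z2} {b : ℕ → Z2} {f : ℕ → Z2 → X} (S : Stk O a b f)
    {n : ℕ} (hn : 0 < n) (hb : b n = b 0) (ha' : a = a' + ps b n)
    (hp : ∀ i ≤ n, 0 < cr a' (b i)) : ∃ g, New O a a' (ps b n) b f n g := by
  have hc : Cvx (PgmAt (ps b n) a' (b 0)) := cvx_pgmAt _ (hp 0 (Nat.zero_le n))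
  obtain ⟨g, g1, g2⟩ := S.cut hc n
    (fun i hi x hx hs => (incl_neg hn hb ha' (fun i _ => S.pos i) hp hx).2 i hi hs)
    (fun x hx => (incl_neg hn hb ha' (fun i _ => S.pos i) hp hx).1)
  exact ⟨g, g1, g2⟩

/-- the common part of two consecutive new parallelograms -/
theorem New.top {O : PO X} {a a' E E1 : Z2} {b b1 : ℕ → Z2} {f f1 : ℕ → Z2 → X} {n : ℕ}
    {g g1 : Z2 → X} (h : New O a a' E b f n g) (h1 : New O a a' E1 b1 f1 n g1)
    (hb1 : ∀ i, b1 i = b (i + 1)) (hf1 : ∀ i, f1 i = f (i + 1)) (K : Set V)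
    (hK : ∀ x ∈ K, x ∈ PgmAt E a' (b 0) ∧ x - em (b 0) ∈ PgmAt E1 a' (b1 0) ∧
      hgt a b 1 ≤ crx a x ∧ crx a x ≤ hgt a b (n + 1)) (hn : 0 < n) :
    Agree K g (sh (b 0) g1) := by
  intro x hx z hz
  obtain ⟨k1, k2, k3, k4⟩ := hK x hx
  obtain ⟨m, rfl⟩ : ∃ m, n = m + 1 := ⟨n - 1, by omega⟩
  obtain ⟨i, hi, s1, s2⟩ := slab_exists (h := fun i => hgt a b (i + 1)) m k3 k4
  have e1 := h.ag (i + 1) (by omega) x ⟨k1, s1, s2⟩ z hz
  have hps : ∀ i, ps b (i + 1) = b 0 + ps b1 i := by
    intro i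
    rw [ps_succ']
    congr 2
    funext k
    exact (hb1 k).symm
  have hh : ∀ i, hgt a b1 i = hgt a b (i + 1) - cr a (b 0) := by
    intro i
    simp only [hgt]
    rw [hps, cr_addr]
    push_cast
    ring
  have e2 := h1.ag i (by omega) (x - em (b 0)) ⟨k2, by
    constructor
    · show hgt a b1 i ≤ crx a (x - em (b 0))
      rw [crx_sub, crx_em, hh]; linarith
    · show crx a (x - em (b 0)) ≤ hgt a b1 (i + 1)
      rw [crx_sub, crx_em, hh]; linarith⟩ (z - b 0) ((nr_sub x z _).2 hz)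
  show g z = g1 (z - b 0)
  rw [e1, e2]
  simp only [sh]
  rw [hf1, hps]
  congr 1
  abel

/-! ## Closed columns -/

/-- the cyclic sequences of a column, read from `j` on -/
def cyc {Y : Type} (n : ℕ) (b : ℕ → Y) (j i : ℕ) : Y := b ((j + i) % n)

theorem cyc_zero {Y : Type} {n : ℕ} (b : ℕ → Y) {j : ℕ} (hj : j < n) : cyc n b j 0 = b j := by
  rw [cyc, add_zero, Nat.mod_eq_of_lt hj]

theorem cyc_n {Y : Type} {n : ℕ} (b : ℕ → Y) (j : ℕ) : cyc n b j n = cyc n b j 0 := by
  rw [cyc, cyc, add_zero, Nat.add_mod_right]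

theorem cyc_shift {Y : Type} {n : ℕ} (b : ℕ → Y) (j i : ℕ) :
    cyc n b ((j + 1) % n) i = cyc n b j (i + 1) := by
  rw [cyc, cyc, Nat.mod_add_mod]
  congr 2
  ring

theorem ps_cyc {n : ℕ} (b : ℕ → Z2) (j : ℕ) : ps (cyc n b j) n = ps b n := by
  induction j with
  | zero =>
    simp only [ps]
    apply Finset.sum_congr rfl
    intro k hk
    rw [cyc, zero_add, Nat.mod_eq_of_lt (Finset.mem_range.1 hk)]
  | succ j ih =>
    have h1 := ps_succ' (cyc n b j) n
    have h2 := ps_succ (cyc n b j) n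
    have h3 : (fun k => cyc n b j (k + 1)) = cyc n b (j + 1) := by
      funext k
      rw [cyc, cyc]
      congr 2
      ring
    rw [h3, h2, ih, cyc_n] at h1
    have h4 : ps b n + cyc n b j 0 = ps (cyc n b (j + 1)) n + cyc n b j 0 := by
      rw [h1]; abel
    exact (add_right_cancel h4).symm

/-- the stack of a closed column -/
theorem exists_stk {O : PO X} {a : Z2} {n : ℕ} (hn : 0 < n) {b : ℕ → Z2} {A R L : ℕ → Z2 → X}
    (hpar : ∀ j < n, Par O a (b j) (A j) (R j) (A ((j + 1) % n)) (L j)) :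
    ∃ f : ℕ → Z2 → X, (∀ j, Stk O a (cyc n b j) (cyc n f j)) ∧
      (∀ j < n, Agree (Seg a (a + b j)) (f j) (sh a (R j))) ∧
      (∀ j < n, Agree (Seg 0 (b j)) (f j) (L j)) := by
  have hex : ∀ j : ℕ, ∃ f : Z2 → X, j < n → (0 < cr a (b j) ∧ Dev O (Pgm a (b j)) f ∧
      Agree (Seg 0 a) f (A j) ∧ Agree (Seg a (a + b j)) f (sh a (R j)) ∧
      Agree (Seg (b j) (b j + a)) f (sh (b j) (A ((j + 1) % n))) ∧
      Agree (Seg 0 (b j)) f (L j)) := by
    intro j
    by_cases hj : j < n
    · obtain ⟨h0, f, h1, h2, h3, h4, h5⟩ := hpar j hj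
      exact ⟨f, fun _ => ⟨h0, h1, h2, h3, h4, h5⟩⟩
    · exact ⟨A 0, fun h => absurd h hj⟩
  choose f hf using hex
  refine ⟨f, fun j => ⟨fun i => ?_, fun i => ?_, fun i => ?_⟩, fun j hj => (hf j hj).2.2.2.1,
    fun j hj => (hf j hj).2.2.2.2.2⟩
  · exact (hf _ (Nat.mod_lt _ hn)).1
  · exact (hf _ (Nat.mod_lt _ hn)).2.1
  · have h1 := (hf ((j + i) % n) (Nat.mod_lt _ hn)).2.2.2.2.1
    have h2 := (hf (((j + i) % n + 1) % n) (Nat.mod_lt _ hn)).2.2.1
    have e : cyc n f j (i + 1) = f (((j + i) % n + 1) % n) := by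
      rw [cyc, Nat.mod_add_mod]
      rfl
    show Agree (Seg (b ((j + i) % n)) (b ((j + i) % n) + a)) (f ((j + i) % n))
      (sh (b ((j + i) % n)) (cyc n f j (i + 1)))
    rw [e]
    refine ag_trans h1 (ag_symm (ag_sh h2 (fun x hx => ?_)))
    apply seg_sub
    rwa [add_zero]

/-- COLUMN LEMMA, positive twist -/
theorem column_pos {O : PO X} {a a' : Z2} {n : ℕ} (hn : 0 < n) {b : ℕ → Z2}
    {A R L : ℕ → Z2 → X} (hpar : ∀ j < n, Par O a (b j) (A j) (R j) (A ((j + 1) % n)) (L j))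
    (ha' : a' = a + ps b n) (hp : ∀ j < n, 0 < cr a' (b j)) :
    ∃ A' : ℕ → Z2 → X, ∀ j < n, Par O a' (b j) (A' j) (R j) (A' ((j + 1) % n)) (L j) := by
  obtain ⟨f, hS, hR, hL⟩ := exists_stk hn hpar
  have hpc : ∀ j i : ℕ, 0 < cr a' (cyc n b j i) := fun j i => hp _ (Nat.mod_lt _ hn)
  have hex : ∀ j : ℕ, ∃ g, New O a a' 0 (cyc n b j) (cyc n f j) n g := fun j =>
    exists_new_pos (hS j) hn (cyc_n b j) (by rw [ps_cyc]; exact ha') (fun i _ => hpc j i)
  choose g hg using hex
  have hHn : ∀ j, hgt a (cyc n b j) n = (cr a a' : ℝ) := by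
    intro j
    rw [hgt, ps_cyc, ha', cr_addr, cr_self', zero_add]
  have hmono : ∀ _j : ℕ, (0 : ℝ) ≤ cr a a' := by
    intro j
    rw [← hHn j, ← hgt_zero a (cyc n b j)]
    exact (hS j).mono (Nat.zero_le n)
  refine ⟨g, fun j hj => ⟨hp j hj, g j, ?_, ag_refl _ _, ?_, ?_, ?_⟩⟩
  · have := (hg j).dev
    rw [pgmAt_zero, cyc_zero b hj] at this
    exact this
  · intro x hx z hz
    obtain ⟨t, t0, t1, ht⟩ := seg_pt hx
    have hb : (0 : ℝ) < cr a (b j) := by
      have := (hS j).pos 0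
      rw [cyc_zero b hj] at this
      exact_mod_cast this
    have hx1 : crx a x = cr a a' + t * cr a (b j) := by
      rw [ht, cr_addr]; push_cast; ring
    have h1 := (hg j).ag n (le_refl n) x ⟨by
        rw [pgmAt_zero, cyc_zero b hj]; exact seg_right (hp j hj) hx, by
        constructor
        · rw [hHn, hx1]
          have := mul_pos t0 hb
          linarith
        · rw [hgt_succ, hHn, hx1, cyc_n, cyc_zero b hj]
          nlinarith⟩ z hz
    have h2 := hR j hj (x - em (ps b n)) (by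
      apply seg_sub
      have e1 : ps b n + a = a' := by rw [ha']; abel
      have e2 : ps b n + (a + b j) = a' + b j := by rw [ha']; abel
      rw [e1, e2]; exact hx) (z - ps b n) ((nr_sub x z _).2 hz)
    rw [h1, ps_cyc, cyc_n, cyc_zero f hj]
    simp only [sh] at h2 ⊢
    rw [h2, ha']
    congr 1
    abel
  · have hj1 : (j + 1) % n < n := Nat.mod_lt _ hn
    have h1 := New.top (hg j) (hg ((j + 1) % n)) (fun i => cyc_shift b j i)
      (fun i => cyc_shift f j i) (Seg (b j) (b j + a')) (by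
        intro x hx
        obtain ⟨t, t0, t1, ht⟩ := seg_pt hx
        have hx1 : crx a x = cr a (b j) + t * cr a a' := by
          rw [ht, cr_addr]; push_cast; ring
        have hpos := hmono j
        refine ⟨?_, ?_, ?_, ?_⟩
        · rw [pgmAt_zero, cyc_zero b hj]; exact seg_top (hp j hj) hx
        · rw [pgmAt_zero, cyc_zero b hj, cyc_zero b hj1]
          refine seg_bot (hp _ hj1) ?_
          apply seg_sub
          rwa [add_zero]
        · rw [show (1 : ℕ) = 0 + 1 from rfl, hgt_succ, hgt_zero, cyc_zero b hj, hx1]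
          have := mul_nonneg t0.le hpos
          linarith
        · rw [hgt_succ, hHn, cyc_n, cyc_zero b hj, hx1]
          nlinarith) hn
    rw [cyc_zero b hj] at h1
    exact h1
  · intro x hx z hz
    obtain ⟨t, t0, t1, ht⟩ := seg_pt hx
    have hb : (0 : ℝ) < cr a (b j) := by
      have := (hS j).pos 0
      rw [cyc_zero b hj] at this
      exact_mod_cast this
    have hx1 : crx a x = t * cr a (b j) := by
      rw [ht, cr_zero']; simp
    have h1 := (hg j).ag 0 (Nat.zero_le n) x ⟨by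
        rw [pgmAt_zero, cyc_zero b hj]; exact seg_left (hp j hj) hx, by
        constructor
        · rw [hgt_zero, hx1]
          exact (mul_pos t0 hb).le
        · rw [hgt_succ, hgt_zero, hx1, cyc_zero b hj]
          nlinarith⟩ z hz
    rw [h1, ps_zero, sh_zero, cyc_zero f hj]
    exact hL j hj x hx z hz

/-- COLUMN LEMMA, negative twist -/
theorem column_neg {O : PO X} {a a' : Z2} {n : ℕ} (hn : 0 < n) {b : ℕ → Z2}
    {A R L : ℕ → Z2 → X} (hpar : ∀ j < n, Par O a (b j) (A j) (R j) (A ((j + 1) % n)) (L j))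
    (ha' : a = a' + ps b n) (hp : ∀ j < n, 0 < cr a' (b j)) :
    ∃ A' : ℕ → Z2 → X, ∀ j < n, Par O a' (b j) (A' j) (R j) (A' ((j + 1) % n)) (L j) := by
  obtain ⟨f, hS, hR, hL⟩ := exists_stk hn hpar
  have hpc : ∀ j i : ℕ, 0 < cr a' (cyc n b j i) := fun j i => hp _ (Nat.mod_lt _ hn)
  have hex : ∀ j : ℕ, ∃ g, New O a a' (ps b n) (cyc n b j) (cyc n f j) n g := fun j => by
    have := exists_new_neg (hS j) hn (cyc_n b j) (by rw [ps_cyc]; exact ha')
      (fun i _ => hpc j i)
    rwa [ps_cyc] at this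
  choose g hg using hex
  obtain ⟨E, hE⟩ : ∃ E : Z2, E = ps b n := ⟨_, rfl⟩
  rw [← hE] at hg ha'
  have hHn : ∀ j, hgt a (cyc n b j) n = -(cr a a' : ℝ) := by
    intro j
    have h1 : E = a - a' := by rw [ha']; abel
    rw [hgt, ps_cyc, ← hE, h1]
    simp only [cr, Prod.fst_sub, Prod.snd_sub]; push_cast; ring
  have hmono : ∀ _j : ℕ, (cr a a' : ℝ) ≤ 0 := by
    intro j
    have h1 := (hS j).mono (Nat.zero_le n)
    rw [hgt_zero, hHn] at h1
    linarith
  have hEa : (cr a E : ℝ) = -(cr a a' : ℝ) := by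
    have h1 : E = a - a' := by rw [ha']; abel
    rw [h1]
    simp only [cr, Prod.fst_sub, Prod.snd_sub]; push_cast; ring
  have hback : ∀ x : V, x - em (-E) = x + em E := by
    intro x
    ext <;> simp [em]
  have hzE : ∀ z : Z2, z - -E = z + E := fun z => sub_neg_eq_add z E
  have hNr : ∀ {x : V} {z : Z2}, Nr x z → Nr (x + em E) (z + E) := by
    intro x z hz
    have := (nr_sub x z (-E)).2 hz
    rwa [hback, hzE] at this
  have hPA : ∀ (j : ℕ) (x : V), x ∈ Pgm a' (b j) → x + em E ∈ PgmAt E a' (b j) := by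
    intro j x hx
    show x + em E - em E ∈ Pgm a' (b j)
    rwa [add_sub_cancel_right]
  refine ⟨fun j => sh (-E) (g j), fun j hj => ⟨hp j hj, sh (-E) (g j), ?_, ag_refl _ _, ?_, ?_,
    ?_⟩⟩
  · intro x hx
    apply DevAt.sh
    rw [hback]
    have := (hg j).dev
    rw [cyc_zero b hj] at this
    exact this _ (hPA j x hx)
  · intro x hx z hz
    obtain ⟨t, t0, t1, ht⟩ := seg_pt hx
    have hb : (0 : ℝ) < cr a (b j) := by
      have := (hS j).pos 0
      rw [cyc_zero b hj] at this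
      exact_mod_cast this
    have hx1 : crx a (x + em E) = t * cr a (b j) := by
      have e : crx a (x + em E) = crx a x + crx a (em E) := by
        simp only [crx, Prod.fst_add, Prod.snd_add]; ring
      rw [e, crx_em, hEa, ht, cr_addr]; push_cast; ring
    have h1 := (hg j).ag 0 (Nat.zero_le n) (x + em E) ⟨by
        rw [cyc_zero b hj]; exact hPA j x (seg_right (hp j hj) hx), by
        constructor
        · rw [hgt_zero, hx1]
          exact (mul_pos t0 hb).le
        · rw [hgt_succ, hgt_zero, hx1, cyc_zero b hj]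
          nlinarith⟩ (z + E) (hNr hz)
    have h2 := hR j hj (x + em E) (by
      have := seg_add' E hx
      have e1 : E + a' = a := by rw [ha']; abel
      have e2 : E + (a' + b j) = a + b j := by rw [ha']; abel
      rwa [e1, e2] at this) (z + E) (hNr hz)
    simp only [sh] at h1 h2 ⊢
    rw [hzE, h1, ps_zero, sub_zero, cyc_zero f hj, h2, ha']
    congr 1
    abel
  · have hj1 : (j + 1) % n < n := Nat.mod_lt _ hn
    have h1 := New.top (hg j) (hg ((j + 1) % n)) (fun i => cyc_shift b j i)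
      (fun i => cyc_shift f j i) {x | x - em E ∈ Seg (b j) (b j + a')} (by
        intro x hx
        obtain ⟨t, t0, t1, ht⟩ := seg_pt hx
        have hx1 : crx a x = cr a E + (cr a (b j) + t * cr a a') := by
          have h3 := ht a
          rw [crx_sub, crx_em, cr_addr] at h3
          push_cast at h3
          linarith
        have hpos := hmono j
        refine ⟨?_, ?_, ?_, ?_⟩
        · rw [cyc_zero b hj]; exact seg_top (hp j hj) hx
        · rw [cyc_zero b hj, cyc_zero b hj1]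
          show x - em (b j) - em E ∈ Pgm a' (b ((j + 1) % n))
          refine seg_bot (hp _ hj1) ?_
          have e : x - em (b j) - em E = x - em E - em (b j) := by abel
          rw [e]
          apply seg_sub
          rwa [add_zero]
        · rw [show (1 : ℕ) = 0 + 1 from rfl, hgt_succ, hgt_zero, cyc_zero b hj, hx1, hEa]
          nlinarith
        · rw [hgt_succ, hHn, cyc_n, cyc_zero b hj, hx1, hEa]
          nlinarith) hn
    rw [cyc_zero b hj] at h1
    intro x hx z hz
    have h2 := h1 (x + em E) (by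
      show x + em E - em E ∈ Seg (b j) (b j + a')
      rwa [add_sub_cancel_right]) (z + E) (hNr hz)
    simp only [sh] at h2 ⊢
    rw [hzE, hzE, h2]
    congr 1
    abel
  · intro x hx z hz
    obtain ⟨t, t0, t1, ht⟩ := seg_pt hx
    have hb : (0 : ℝ) < cr a (b j) := by
      have := (hS j).pos 0
      rw [cyc_zero b hj] at this
      exact_mod_cast this
    have hx1 : crx a (x + em E) = cr a E + t * cr a (b j) := by
      have e : crx a (x + em E) = crx a x + crx a (em E) := by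
        simp only [crx, Prod.fst_add, Prod.snd_add]; ring
      rw [e, crx_em, ht, cr_zero']; push_cast; ring
    have h1 := (hg j).ag n (le_refl n) (x + em E) ⟨by
        rw [cyc_zero b hj]; exact hPA j x (seg_left (hp j hj) hx), by
        constructor
        · rw [hHn, hx1, hEa]
          have := mul_pos t0 hb
          linarith
        · rw [hgt_succ, hHn, hx1, hEa, cyc_n, cyc_zero b hj]
          nlinarith⟩ (z + E) (hNr hz)
    simp only [sh] at h1 ⊢
    rw [hzE, h1, ps_cyc, ← hE, cyc_n, cyc_zero f hj, add_sub_cancel_right]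
    exact hL j hj x hx z hz

end Pool.Agent.H4G.Six
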