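import Pool.Agent.H4G.Six.Ex13

/-!
# Configurations (helper96)

A configuration: a torus `ℝ² / Λ`, slit along the path `-l → 0 → m`, with the cylinders `(q, l)`
and `(s, m)` inserted in the two slits. No centre is asked for.
-/

set_option autoImplicit false

namespace Pool.Agent.H4G.Six

open Pool.Agent.H4G Filter Topology

variable {X : Type}

/-- The surface of `O` is the configuration `(Λ; l, q; m, s)`. -/
def HasC (O : PO X) (Λ : AddSubgroup Z2) (l q m s : Z2) : Prop :=
  ∃ (L0 L1 M0 M1 Q S : Z2 → X) (φ : V → Z2 → X), SPD O Λ l m L0 L1 M0 M1 φ ∧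
    Par O q l Q L0 Q L1 ∧ Par O s m S M0 S M1

/-- The path `-l → 0 → m` is embedded in the torus `ℝ² / Λ` (and `l`, `m` are not parallel): no
vector of `Λ` other than `0` is `s l + t m` with `0 ≤ s, t ≤ 1`. -/
def Emb (Λ : AddSubgroup Z2) (l m : Z2) : Prop :=
  ∀ z ∈ Λ, z ≠ 0 → ¬ (0 ≤ cr z m * cr l m ∧ cr z m * cr l m ≤ cr l m * cr l m ∧
    0 ≤ cr l z * cr l m ∧ cr l z * cr l m ≤ cr l m * cr l m)

section

variable {O : PO X} {Λ : AddSubgroup Z2} {u v l q m s U x : Z2}

/-! ## Trees and configurations -/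

/-- a tree gives a configuration -/
theorem Has6.config (h : Has6 O (u, v, l, q, m, s)) :
    HasC O (AddSubgroup.closure {u, v + l + m}) l q m s := by
  obtain ⟨U0, U1, U2, W, L0, L1, M0, M1, Q, S, k1, k2, k3, k4, k5⟩ := h
  obtain ⟨φ, hφ⟩ := spd_of_col k1 k2 k3
  exact ⟨L0, L1, M0, M1, Q, S, φ, hφ, k4, k5⟩

/-- a centre of a configuration gives a tree -/
theorem HasC.center (h : HasC O Λ l q m s) (hΛ : AddSubgroup.closure {u, x} = Λ)
    (h1 : 0 < cr u l) (h2 : 0 < cr u m) (h3 : 0 < cr u (x - l - m)) :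
    Has6 O (u, x - l - m, l, q, m, s) := by
  obtain ⟨L0, L1, M0, M1, Q, S, φ, hφ, k4, k5⟩ := h
  have e : x - l - m + l + m = x := by abel
  rw [← hΛ, ← e] at hφ
  obtain ⟨U0, U1, U2, W, i1, i2, i3⟩ := hφ.col h3 h1 h2
  exact ⟨U0, U1, U2, W, L0, L1, M0, M1, Q, S, i1, i2, i3, k4, k5⟩

theorem HasC.posQ (h : HasC O Λ l q m s) : 0 < cr q l := by
  obtain ⟨L0, L1, M0, M1, Q, S, φ, hφ, k4, k5⟩ := h
  exact k4.1

theorem HasC.posS (h : HasC O Λ l q m s) : 0 < cr s m := by
  obtain ⟨L0, L1, M0, M1, Q, S, φ, hφ, k4, k5⟩ := h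
  exact k5.1

/-- the twist of an inserted cylinder -/
theorem Par.twist {l q : Z2} {Q L0 L1 : Z2 → X} (h : Par O q l Q L0 Q L1) (k : ℤ) :
    ∃ Q', Par O (q + k • l) l Q' L0 Q' L1 := by
  have pos : ∀ j : ℤ, 0 < cr (q + j • l) l := by
    intro j
    have : cr (q + j • l) l = cr q l := by
      simp only [cr, Prod.fst_add, Prod.snd_add, Prod.smul_fst, Prod.smul_snd, smul_eq_mul]; ring
    rw [this]; exact h.1
  induction k using Int.induction_on with
  | zero => exact ⟨Q, by simpa using h⟩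
  | succ i ih =>
    obtain ⟨Q', h'⟩ := ih
    have := col1 h' (a' := q + ((i : ℤ) + 1) • l) (Or.inl (by rw [add_smul, one_smul, ← add_assoc]))
      (pos _)
    exact this
  | pred i ih =>
    obtain ⟨Q', h'⟩ := ih
    have := col1 h' (a' := q + (-(i : ℤ) - 1) • l) (Or.inr (by
      rw [sub_smul, one_smul]; abel)) (pos _)
    exact this

theorem HasC.twist (h : HasC O Λ l q m s) (i j : ℤ) :
    HasC O Λ l (q + i • l) m (s + j • m) := by
  obtain ⟨L0, L1, M0, M1, Q, S, φ, hφ, k4, k5⟩ := h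
  obtain ⟨Q', k4'⟩ := k4.twist i
  obtain ⟨S', k5'⟩ := k5.twist j
  exact ⟨L0, L1, M0, M1, Q', S', φ, hφ, k4', k5'⟩

/-! ## Reversal of the path -/

theorem SPD.rev {L0 L1 M0 M1 : Z2 → X} {φ : V → Z2 → X} (h : SPD O Λ l m L0 L1 M0 M1 φ) :
    SPD O Λ (-m) (-l) (sh (-m) M1) (sh (-m) M0) (sh (-l) L1) (sh (-l) L0) φ := by
  have hreg : ∀ y, Reg Λ (-m) (-l) y ↔ Reg Λ l m y := by
    intro y
    unfold Reg
    rw [neg_neg, cseg_comm m 0, cseg_comm 0 (-l)]
    exact forall₂_congr (fun c _ => and_comm)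
  have hm : ∀ y ∈ Seg 0 (-m), y - em (-m) ∈ Seg 0 m := by
    intro y hy
    have := seg_add' m hy
    rw [add_zero, add_neg_cancel, seg_comm'] at this
    have e : y - em (-m) = y + em m := by ext <;> simp [em]
    rwa [e]
  have hl : ∀ y ∈ Seg 0 (-l), y - em (-l) ∈ Seg 0 l := by
    intro y hy
    have := seg_add' l hy
    rw [add_zero, add_neg_cancel, seg_comm'] at this
    have e : y - em (-l) = y + em l := by ext <;> simp [em]
    rwa [e]
  have hcr : ∀ (a : Z2) (y : V), crx a (y - em (-a)) = -crx (-a) y := by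
    intro a y
    rw [crx_sub, crx_em, crR_neg, crR_self, crx_negl]; ring
  refine ⟨?_, ?_, ?_, ?_, ?_, ?_, ?_, ?_, ?_, ?_, ?_⟩
  · exact fun y hy => h.dev y ((hreg y).1 hy)
  · exact fun y hy => h.lc y ((hreg y).1 hy)
  · exact fun y hy => h.per y ((hreg y).1 hy)
  · intro y hy
    filter_upwards [ev_sub (h.sM1 _ (hm y hy))] with y' e1 e2 z hz
    exact e1 (by rw [hcr]; linarith) _ ((nr_sub y' z _).2 hz)
  · intro y hy
    filter_upwards [ev_sub (h.sM0 _ (hm y hy))] with y' e1 e2 z hz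
    exact e1 (by rw [hcr]; linarith) _ ((nr_sub y' z _).2 hz)
  · intro y hy
    filter_upwards [ev_sub (h.sL1 _ (hl y hy))] with y' e1 e2 z hz
    have := e1 (by rw [hcr]; linarith) _ ((nr_sub y' z _).2 hz)
    have e3 : y' - em (-l) - em l = y' := by
      have : em (-l) = -em l := by ext <;> simp [em]
      rw [this]; abel
    rw [e3, show z - -l - l = z by abel] at this
    exact this
  · intro y hy
    filter_upwards [ev_sub (h.sL0 _ (hl y hy))] with y' e1 e2 z hz
    have := e1 (by rw [hcr]; linarith) _ ((nr_sub y' z _).2 hz)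
    have e3 : y' - em (-l) - em l = y' := by
      have : em (-l) = -em l := by ext <;> simp [em]
      rw [this]; abel
    rw [e3, show z - -l - l = z by abel] at this
    exact this
  · exact fun y hy => DevAt.sh (h.dM1 _ (hm y hy))
  · exact fun y hy => DevAt.sh (h.dM0 _ (hm y hy))
  · exact fun y hy => DevAt.sh (h.dL1 _ (hl y hy))
  · exact fun y hy => DevAt.sh (h.dL0 _ (hl y hy))

/-- REVERSAL -/
theorem HasC.rev (h : HasC O Λ l q m s) : HasC O Λ (-m) (-s) (-l) (-q) := by
  obtain ⟨L0, L1, M0, M1, Q, S, φ, hφ, k4, k5⟩ := h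
  exact ⟨_, _, _, _, sh (-s) S, sh (-q) Q, φ, hφ.rev, k5.rot2, k4.rot2⟩

/-! ## Embedded paths -/

theorem cr_ne_of {a b z : Z2} (h : cr a b ≠ 0) (h1 : cr a z = 0) (h2 : cr z b = 0) : z = 0 := by
  have e1 : cr a b * z.1 = 0 := by
    have : cr a b * z.1 = cr z b * a.1 + cr a z * b.1 := by simp only [cr]; ring
    rw [this, h1, h2]; ring
  have e2 : cr a b * z.2 = 0 := by
    have : cr a b * z.2 = cr z b * a.2 + cr a z * b.2 := by simp only [cr]; ring
    rw [this, h1, h2]; ring
  exact Prod.ext ((mul_eq_zero.1 e1).resolve_left h) ((mul_eq_zero.1 e2).resolve_left h)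

theorem Emb.ne (h : Emb Λ l m) (hΛ : ∃ z ∈ Λ, z ≠ 0) : cr l m ≠ 0 := by
  intro h0
  obtain ⟨z, hz, hz0⟩ := hΛ
  apply h z hz hz0
  rw [h0]
  simp

/-- reversal -/
theorem Emb.rev (h : Emb Λ l m) : Emb Λ (-m) (-l) := by
  intro z hz hz0 hc
  apply h z hz hz0
  have e1 : cr (-m) (-l) = -cr l m := by simp only [cr, Prod.fst_neg, Prod.snd_neg]; ring
  have e2 : cr z (-l) = cr l z := by simp only [cr, Prod.fst_neg, Prod.snd_neg]; ring
  have e3 : cr (-m) z = cr z m := by simp only [cr, Prod.fst_neg, Prod.snd_neg]; ring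
  rw [e1, e2, e3] at hc
  obtain ⟨h1, h2, h3, h4⟩ := hc
  have := h (-z) (Λ.neg_mem hz) (neg_ne_zero.2 hz0)
  exfalso
  apply this
  rw [cr_negl, cr_negr]
  refine ⟨by linarith, by linarith, by linarith, by linarith⟩

/-- the path of a tree is embedded -/
theorem emb_of_tree (h1 : 0 < cr u v) (h2 : 0 < cr u l) (h3 : 0 < cr u m) (h0 : cr l m ≠ 0) :
    Emb (AddSubgroup.closure {u, v + l + m}) l m := by
  rintro z hz hz0 ⟨a1, a2, a3, a4⟩
  obtain ⟨i, j, rfl⟩ := AddSubgroup.mem_closure_pair.1 hz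
  set z := i • u + j • (v + l + m) with hzz
  have hr : 0 < cr l m * cr l m := mul_self_pos.2 h0
  have e : cr l m * cr u z = cr u l * cr z m + cr u m * cr l z := by simp only [cr]; ring
  have e' : (cr l m * cr l m) * cr u z = cr u l * (cr z m * cr l m) +
      cr u m * (cr l z * cr l m) := by
    have : (cr l m * cr l m) * cr u z = cr l m * (cr l m * cr u z) := by ring
    rw [this, e]; ring
  have hu : cr u z = j * (cr u v + cr u l + cr u m) := by
    rw [hzz]
    simp only [cr, Prod.fst_add, Prod.snd_add, Prod.smul_fst, Prod.smul_snd, smul_eq_mul]; ring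
  have b1 : 0 ≤ (cr l m * cr l m) * cr u z := by
    rw [e']; positivity
  have b2 : 0 ≤ cr u z := by
    by_contra hc
    push Not at hc
    nlinarith
  have b3 : (cr l m * cr l m) * cr u z ≤ (cr l m * cr l m) * (cr u l + cr u m) := by
    rw [e']; nlinarith
  have b4 : cr u z ≤ cr u l + cr u m := le_of_mul_le_mul_left b3 hr
  have hj : j = 0 := by
    rw [hu] at b2 b4
    have j0 : 0 ≤ j := by
      by_contra hc
      push Not at hc
      nlinarith
    have j1 : j < 1 := by
      by_contra hc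
      push Not at hc
      nlinarith
    omega
  have hu0 : cr u z = 0 := by rw [hu, hj, zero_mul]
  rw [hu0, mul_zero] at e'
  have c1 : 0 ≤ cr u l * (cr z m * cr l m) := mul_nonneg h2.le a1
  have c2 : 0 ≤ cr u m * (cr l z * cr l m) := mul_nonneg h3.le a3
  have d1 : cr u l * (cr z m * cr l m) = 0 := by linarith
  have d2 : cr u m * (cr l z * cr l m) = 0 := by linarith
  have d1' : cr z m = 0 := by
    rcases mul_eq_zero.1 d1 with h | h
    · omega
    · exact (mul_eq_zero.1 h).resolve_right h0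
  have d2' : cr l z = 0 := by
    rcases mul_eq_zero.1 d2 with h | h
    · omega
    · exact (mul_eq_zero.1 h).resolve_right h0
  exact hz0 (cr_ne_of h0 d2' d1')

/-- the slit `m` is shorter than the cell -/
theorem Emb.lt (h : Emb Λ l m) (hx : x ∈ Λ) (h1 : 0 < cr l x) (h2 : cr m x < 0)
    (h3 : 0 < cr l x + cr m x) (h5 : 0 < cr l m) : cr l m < cr l x := by
  by_contra hc
  push Not at hc
  apply h x hx
  · rintro rfl
    simp [cr] at h1
  · have e : cr x m = -cr m x := cr_swap' m x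
    rw [e]
    refine ⟨by nlinarith, by nlinarith, by nlinarith, by nlinarith⟩

/-- the new path is embedded -/
theorem Emb.ex (h : Emb Λ l m) (hx : x ∈ Λ) (h1 : 0 < cr l x) (h2 : cr m x < 0)
    (h3 : 0 < cr l x + cr m x) (h5 : 0 < cr l m) (h7 : 0 < cr q l) :
    Emb (AddSubgroup.closure {l, x - q}) (-m) x := by
  have h6 := h.lt hx h1 h2 h3 h5
  rintro z hz hz0 ⟨a1, a2, a3, a4⟩
  obtain ⟨j, i, rfl⟩ := AddSubgroup.mem_closure_pair.1 hz
  set z := j • l + i • (x - q) with hzz
  have er : cr (-m) x = -cr m x := cr_negl m x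
  have hg : 0 < -cr m x := by linarith
  rw [er] at a1 a2 a3 a4
  have p1 : 0 ≤ cr z x := by
    by_contra hc
    push Not at hc
    nlinarith
  have p2 : cr z x ≤ -cr m x := by
    by_contra hc
    push Not at hc
    nlinarith
  have p3 : 0 ≤ cr (-m) z := by
    by_contra hc
    push Not at hc
    nlinarith
  have p4 : cr (-m) z ≤ -cr m x := by
    by_contra hc
    push Not at hc
    nlinarith
  have e : -cr m x * cr l z = -(cr z x * cr l m) + cr (-m) z * cr l x := by
    simp only [cr, Prod.fst_neg, Prod.snd_neg]; ring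
  have hl : cr l z = i * (cr l x + cr q l) := by
    rw [hzz]
    simp only [cr, Prod.fst_add, Prod.snd_add, Prod.smul_fst, Prod.smul_snd, smul_eq_mul,
      Prod.fst_sub, Prod.snd_sub]
    ring
  have q1 : cr l z ≤ cr l x := by
    have : -cr m x * cr l z ≤ -cr m x * cr l x := by rw [e]; nlinarith
    exact le_of_mul_le_mul_left this hg
  have q2 : -cr l m ≤ cr l z := by
    have : -cr m x * -cr l m ≤ -cr m x * cr l z := by rw [e]; nlinarith
    exact le_of_mul_le_mul_left this hg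
  have hi : i = 0 := by
    rw [hl] at q1 q2
    have i0 : -1 < i := by
      by_contra hc
      push Not at hc
      nlinarith
    have i1 : i < 1 := by
      by_contra hc
      push Not at hc
      nlinarith
    omega
  have hzx : cr z x = j * cr l x := by
    rw [hzz, hi]
    simp only [cr, Prod.fst_add, Prod.snd_add, Prod.smul_fst, Prod.smul_snd, smul_eq_mul]; ring
  have hj : j = 0 := by
    rw [hzx] at p1 p2
    have i0 : -1 < j := by
      by_contra hc
      push Not at hc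
      nlinarith
    have i1 : j < 1 := by
      by_contra hc
      push Not at hc
      nlinarith
    omega
  apply hz0
  rw [hzz, hi, hj]
  simp

/-! ## The moves -/

/-- the (1,3)-move of configurations, `0 < l × m` -/
theorem HasC.exP (h : HasC O Λ l q m s) (hE : Emb Λ l m)
    (hΛ : AddSubgroup.closure {U, x} = Λ) (h1 : 0 < cr l x) (h4 : cr l x < cr U x)
    (h2 : cr m x < 0) (h3 : 0 < cr l x + cr m x) (h5 : 0 < cr l m) :
    HasC O (AddSubgroup.closure {l, x - q}) (-m) (-s) x (U - l) ∧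
      Emb (AddSubgroup.closure {l, x - q}) (-m) x := by
  have hx : x ∈ Λ := by rw [← hΛ]; exact AddSubgroup.subset_closure (by simp)
  have h7 := h.posQ
  refine ⟨?_, hE.ex hx h1 h2 h3 h5 h7⟩
  obtain ⟨L0, L1, M0, M1, Q, S, φ, hφ, k4, k5⟩ := h
  rw [← hΛ] at hφ
  obtain ⟨X0, X1, Y, φ', j1, j2⟩ := hφ.ex ⟨h1, h2, h3, h4, h5, hE.lt hx h1 h2 h3 h5, h7⟩ k4
  exact ⟨_, _, X0, X1, sh (-s) S, Y, φ', j2, k5.rot2, j1⟩

/-! ## The mirror image -/

theorem brp_cont : Continuous brp := by
  unfold brp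
  fun_prop

theorem brp_brp (y : V) : brp (brp y) = y := by simp [brp]

theorem brp_sub (y : V) (c : Z2) : brp (y - em (bar c)) = brp y - em c := by
  ext
  · simp only [brp, em, bar, Prod.fst_sub]; push_cast; ring
  · simp only [brp, em, bar, Prod.snd_sub]

theorem brp_cseg {A B : Z2} {y : V} : y ∈ CSeg (bar A) (bar B) ↔ brp y ∈ CSeg A B := by
  constructor
  · rintro ⟨t, h0, h1, rfl⟩
    refine ⟨t, h0, h1, ?_⟩
    simp only [brp, bar]
    push_cast
    ext <;> simp only <;> ring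
  · rintro ⟨t, h0, h1, h2⟩
    refine ⟨t, h0, h1, ?_⟩
    rw [← brp_brp y, h2]
    simp only [brp, bar]
    push_cast
    ext <;> simp only <;> ring

theorem mem_map_bar {Λ : AddSubgroup Z2} {c : Z2} (hc : c ∈ Λ.map barH) : bar c ∈ Λ := by
  obtain ⟨d, hd, rfl⟩ := hc
  show bar (bar d) ∈ Λ
  rwa [bar_bar]

theorem bar_mem_map {Λ : AddSubgroup Z2} {c : Z2} (hc : c ∈ Λ) : bar c ∈ Λ.map barH :=
  ⟨c, hc, rfl⟩

theorem reg_bar {y : V} : Reg (Λ.map barH) (bar l) (bar m) y ↔ Reg Λ l m (brp y) := by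
  constructor
  · intro h c hc
    have := h (bar c) (bar_mem_map hc)
    rw [← bar_neg, ← bar_zero, brp_cseg, brp_cseg, brp_sub] at this
    exact this
  · intro h c hc
    have := h (bar c) (mem_map_bar hc)
    rw [← bar_bar c, ← bar_neg, ← bar_zero, brp_cseg, brp_cseg, brp_sub]
    exact this

theorem brf_apply (g : Z2 → X) (z : Z2) : brf g z = g (-z.1 - 1, z.2) := rfl

theorem SPD.mir {L0 L1 M0 M1 : Z2 → X} {φ : V → Z2 → X} (h : SPD O Λ l m L0 L1 M0 M1 φ) :
    SPD O.mir (Λ.map barH) (bar l) (bar m) (brf L1) (brf L0) (brf M1) (brf M0)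
      (fun y => brf (φ (brp y))) := by
  have hseg : ∀ {a : Z2} {y : V}, y ∈ Seg 0 (bar a) → brp y ∈ Seg 0 a := by
    intro a y hy
    rw [← bar_zero] at hy
    exact brp_seg hy
  have hev : ∀ {P : V → Prop} {y : V}, (∀ᶠ p in 𝓝 (brp y), P p) → ∀ᶠ y' in 𝓝 y, P (brp y') :=
    fun hP => brp_cont.continuousAt.eventually hP
  have hdev : ∀ {y : V} {g : Z2 → X}, DevAt O (brp y) g → DevAt O.mir y (brf g) := by
    intro y g hg
    refine devB (K := {brp y}) (L := {y}) ?_ ?_ y rfl
    · rintro x rfl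
      exact hg
    · rintro x rfl
      rfl
  have hz1 : ∀ z c : Z2, ((-(z - bar c).1 - 1, (z - bar c).2) : Z2) = (-z.1 - 1, z.2) - c := by
    intro z c
    ext
    · simp only [bar, Prod.fst_sub]; ring
    · simp only [bar, Prod.snd_sub]
  have hz2 : ∀ z c : Z2, ((-(z + bar c).1 - 1, (z + bar c).2) : Z2) = (-z.1 - 1, z.2) + c := by
    intro z c
    ext
    · simp only [bar, Prod.fst_add]; ring
    · simp only [bar, Prod.snd_add]
  have hadd : ∀ (y : V) (c : Z2), brp (y + em (bar c)) = brp y + em c := by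
    intro y c
    ext
    · simp only [brp, em, bar, Prod.fst_add]; push_cast; ring
    · simp only [brp, em, bar, Prod.snd_add]
  refine ⟨?_, ?_, ?_, ?_, ?_, ?_, ?_, ?_, ?_, ?_, ?_⟩
  · exact fun y hy => hdev (h.dev _ (reg_bar.1 hy))
  · intro y hy
    filter_upwards [hev (h.lc _ (reg_bar.1 hy))] with y' e z hz
    exact e _ ((nr_brp y' z).1 hz)
  · intro y hy c hc z hz
    have hc' := mem_map_bar hc
    have := h.per _ (reg_bar.1 hy) _ hc' _ ((nr_brp y z).1 hz)
    show φ (brp (y + em c)) (-(z + c).1 - 1, (z + c).2) = φ (brp y) (-z.1 - 1, z.2)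
    rw [← bar_bar c, hadd, hz2]
    exact this
  · intro y hy
    filter_upwards [hev (h.sL1 _ (hseg hy))] with y' e hlt z hz
    show φ (brp (y' - em (bar l))) (-(z - bar l).1 - 1, (z - bar l).2) = L1 (-z.1 - 1, z.2)
    rw [brp_sub, hz1]
    exact e (by rw [crx_bar] at hlt; linarith) _ ((nr_brp y' z).1 hz)
  · intro y hy
    filter_upwards [hev (h.sL0 _ (hseg hy))] with y' e hlt z hz
    show φ (brp (y' - em (bar l))) (-(z - bar l).1 - 1, (z - bar l).2) = L0 (-z.1 - 1, z.2)
    rw [brp_sub, hz1]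
    exact e (by rw [crx_bar] at hlt; linarith) _ ((nr_brp y' z).1 hz)
  · intro y hy
    filter_upwards [hev (h.sM1 _ (hseg hy))] with y' e hlt z hz
    exact e (by rw [crx_bar] at hlt; linarith) _ ((nr_brp y' z).1 hz)
  · intro y hy
    filter_upwards [hev (h.sM0 _ (hseg hy))] with y' e hlt z hz
    exact e (by rw [crx_bar] at hlt; linarith) _ ((nr_brp y' z).1 hz)
  · exact fun y hy => hdev (h.dL1 _ (hseg hy))
  · exact fun y hy => hdev (h.dL0 _ (hseg hy))
  · exact fun y hy => hdev (h.dM1 _ (hseg hy))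
  · exact fun y hy => hdev (h.dM0 _ (hseg hy))

/-- MIRROR -/
theorem HasC.mir (h : HasC O Λ l q m s) :
    HasC O.mir (Λ.map barH) (bar l) (-bar q) (bar m) (-bar s) := by
  obtain ⟨L0, L1, M0, M1, Q, S, φ, hφ, k4, k5⟩ := h
  exact ⟨_, _, _, _, _, _, _, hφ.mir, k4.mir, k5.mir⟩

theorem map_bar_closure (a b : Z2) : (AddSubgroup.closure ({a, b} : Set Z2)).map barH =
    AddSubgroup.closure {bar a, bar b} := by
  rw [AddMonoidHom.map_closure]
  congr 1
  rw [Set.image_pair]
  rfl

theorem map_bar_bar : (Λ.map barH).map barH = Λ := by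
  ext c
  constructor
  · intro hc
    have := mem_map_bar (mem_map_bar hc)
    rwa [bar_bar] at this
  · intro hc
    have := bar_mem_map (bar_mem_map hc)
    rwa [bar_bar] at this

theorem HasC.mir_iff : HasC O.mir (Λ.map barH) (bar l) (-bar q) (bar m) (-bar s) ↔
    HasC O Λ l q m s := by
  refine ⟨fun h => ?_, HasC.mir⟩
  have := h.mir
  rwa [PO.mir_mir, map_bar_bar, bar_bar, bar_bar, bar_neg, bar_neg, bar_bar, bar_bar, neg_neg,
    neg_neg] at this

theorem Emb.mir (h : Emb Λ l m) : Emb (Λ.map barH) (bar l) (bar m) := by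
  intro z hz hz0 hc
  apply h (bar z) (mem_map_bar hz)
  · intro h0
    apply hz0
    rw [← bar_bar z, h0, bar_zero]
  · have e1 : cr (bar z) m = -cr z (bar m) := by
      rw [← cr_bar, bar_bar]
    have e2 : cr l (bar z) = -cr (bar l) z := by
      rw [← cr_bar, bar_bar]
    have e3 : cr (bar l) (bar m) = -cr l m := cr_bar l m
    rw [e3] at hc
    rw [e1, e2]
    obtain ⟨h1, h2, h3, h4⟩ := hc
    refine ⟨by linarith, by linarith, by linarith, by linarith⟩

theorem Emb.mir_iff : Emb (Λ.map barH) (bar l) (bar m) ↔ Emb Λ l m := by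
  refine ⟨fun h => ?_, Emb.mir⟩
  have := h.mir
  rwa [map_bar_bar, bar_bar, bar_bar] at this

/-- the (1,3)-move of configurations, `l × m < 0` -/
theorem HasC.exM (h : HasC O Λ l q m s) (hE : Emb Λ l m)
    (hΛ : AddSubgroup.closure {U, x} = Λ) (h1 : 0 < cr l x) (h4 : cr l x < cr U x)
    (h2 : cr m x < 0) (h3 : 0 < cr l x + cr m x) (h5 : cr l m < 0) :
    HasC O (AddSubgroup.closure {l, x - q}) (-m) (-s) (-x) (l - U) ∧
      Emb (AddSubgroup.closure {l, x - q}) (-m) (-x) := by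
  have key := HasC.exP (U := bar U) (x := -bar x) h.mir hE.mir
    (by rw [clo_neg_right, ← map_bar_closure, hΛ]) (by rw [cr_nbar2]; exact h1)
    (by rw [cr_nbar2, cr_nbar2]; exact h4) (by rw [cr_nbar2]; exact h2)
    (by rw [cr_nbar2, cr_nbar2]; exact h3) (by rw [cr_bar]; linarith)
  have e : AddSubgroup.closure ({bar l, -bar x - -bar q} : Set Z2) =
      (AddSubgroup.closure {l, x - q}).map barH := by
    rw [map_bar_closure, show -bar x - -bar q = -bar (x - q) by rw [bar_sub]; abel, clo_neg_right]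
  rw [e] at key
  constructor
  · rw [← HasC.mir_iff, bar_neg, bar_neg, bar_neg, bar_sub, neg_neg, neg_sub]
    rw [neg_neg] at key
    exact key.1
  · rw [← Emb.mir_iff, bar_neg, bar_neg]
    exact key.2

end

end Pool.Agent.H4G.Six
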