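import Pool.Agent.H4G.Six.Config

/-!
# Configurations, the step (helper96)

`(U, x; l, q; m, s)` is the configuration with the torus `ℝ² / ⟨U, x⟩`.
-/

set_option autoImplicit false

namespace Pool.Agent.H4G.Six

open Pool.Agent.H4G Filter Topology

variable {X : Type}

/-- The surface of `O` is the configuration `(U, x; l, q; m, s)` with an embedded path. -/
def OKC (O : PO X) : C6 → Prop
  | (U, x, l, q, m, s) => 0 < cr U x ∧ HasC O (AddSubgroup.closure {U, x}) l q m s ∧
      Emb (AddSubgroup.closure {U, x}) l m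

/-- the number of squares -/
def volC : C6 → ℤ
  | (U, x, l, q, m, s) => cr U x + cr q l + cr s m

section

variable {O : PO X} {u v l q m s U x U' x' : Z2}

theorem area_dvd (h : AddSubgroup.closure ({U', x'} : Set Z2) ≤ AddSubgroup.closure {U, x}) :
    cr U x ∣ cr U' x' := by
  have h1 : U' ∈ AddSubgroup.closure ({U, x} : Set Z2) := h (AddSubgroup.subset_closure (by simp))
  have h2 : x' ∈ AddSubgroup.closure ({U, x} : Set Z2) := h (AddSubgroup.subset_closure (by simp))
  obtain ⟨a, b, rfl⟩ := AddSubgroup.mem_closure_pair.1 h1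
  obtain ⟨c, d, rfl⟩ := AddSubgroup.mem_closure_pair.1 h2
  refine ⟨a * d - b * c, ?_⟩
  simp only [cr, Prod.fst_add, Prod.snd_add, Prod.smul_fst, Prod.smul_snd, smul_eq_mul]
  ring

theorem area_eq (h : AddSubgroup.closure ({U', x'} : Set Z2) = AddSubgroup.closure {U, x})
    (h1 : 0 < cr U x) (h2 : 0 < cr U' x') : cr U' x' = cr U x :=
  Int.dvd_antisymm h2.le h1.le (area_dvd h.ge) (area_dvd h.le)

/-- a primitive vector of the lattice belongs to a positive basis -/
theorem exists_basis (i j : ℤ) (h : IsCoprime i j) : ∃ U',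
    AddSubgroup.closure ({U', i • U + j • x} : Set Z2) = AddSubgroup.closure {U, x} ∧
      cr U' (i • U + j • x) = cr U x := by
  obtain ⟨a, b, hab⟩ := h
  refine ⟨b • U - a • x, ?_, ?_⟩
  · apply le_antisymm
    · rw [AddSubgroup.closure_le]
      rintro z (rfl | rfl)
      · exact AddSubgroup.mem_closure_pair.2 ⟨b, -a, by rw [neg_smul]; abel⟩
      · exact AddSubgroup.mem_closure_pair.2 ⟨i, j, rfl⟩
    · rw [AddSubgroup.closure_le]
      rintro z (rfl | rfl)
      · refine AddSubgroup.mem_closure_pair.2 ⟨j, a, ?_⟩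
        have : j • (b • z - a • x) + a • (i • z + j • x) = (a * i + b * j) • z := by
          module
        rw [this, hab, one_smul]
      · refine AddSubgroup.mem_closure_pair.2 ⟨-i, b, ?_⟩
        have : (-i) • (b • U - a • z) + b • (i • U + j • z) = (a * i + b * j) • z := by
          module
        rw [this, hab, one_smul]
  · have : cr (b • U - a • x) (i • U + j • x) = (a * i + b * j) * cr U x := by
      simp only [cr, Prod.fst_add, Prod.snd_add, Prod.fst_sub, Prod.snd_sub, Prod.smul_fst,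
        Prod.smul_snd, smul_eq_mul]
      ring
    rw [this, hab, one_mul]

theorem OKC.basis (h : OKC O (U, x, l, q, m, s))
    (h1 : AddSubgroup.closure ({U', x'} : Set Z2) = AddSubgroup.closure {U, x})
    (h2 : 0 < cr U' x') : OKC O (U', x', l, q, m, s) := by
  obtain ⟨a1, a2, a3⟩ := h
  exact ⟨h2, by rw [h1]; exact a2, by rw [h1]; exact a3⟩

theorem OKC.neg (h : OKC O (U, x, l, q, m, s)) : OKC O (-U, -x, l, q, m, s) := by
  refine h.basis ?_ ?_
  · rw [clo_neg_left, clo_neg_right]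
  · rw [cr_negl, cr_negr, neg_neg]; exact h.1

theorem OKC.rev (h : OKC O (U, x, l, q, m, s)) : OKC O (U, x, -m, -s, -l, -q) :=
  ⟨h.1, h.2.1.rev, h.2.2.rev⟩

theorem OKC.twist (h : OKC O (U, x, l, q, m, s)) (i j : ℤ) :
    OKC O (U, x, l, q + i • l, m, s + j • m) :=
  ⟨h.1, h.2.1.twist i j, h.2.2⟩

theorem OKC.posQ (h : OKC O (U, x, l, q, m, s)) : 0 < cr q l := h.2.1.posQ

theorem OKC.posS (h : OKC O (U, x, l, q, m, s)) : 0 < cr s m := h.2.1.posS

/-- a tree with `l × m ≠ 0` gives a configuration -/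
theorem Has6.okc (h : Has6 O (u, v, l, q, m, s)) (h0 : cr l m ≠ 0) :
    OKC O (u, v + l + m, l, q, m, s) := by
  obtain ⟨p1, p2, p3, p4, p5⟩ := h.pos
  exact ⟨by rw [cr_addr, cr_addr]; linarith, h.config, emb_of_tree p1 p2 p3 h0⟩

/-- a centre gives a tree -/
theorem OKC.center (h : OKC O (U, x, l, q, m, s)) (h1 : 0 < cr U l) (h2 : 0 < cr U m)
    (h3 : cr U l + cr U m < cr U x) : Has6 O (U, x - l - m, l, q, m, s) := by
  refine h.2.1.center rfl h1 h2 ?_
  simp only [cr, Prod.fst_sub, Prod.snd_sub] at *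
  linarith

theorem OKC.exP (h : OKC O (U, x, l, q, m, s)) (h1 : 0 < cr l x) (h4 : cr l x < cr U x)
    (h2 : cr m x < 0) (h3 : 0 < cr l x + cr m x) (h5 : 0 < cr l m) :
    OKC O (l, x - q, -m, -s, x, U - l) := by
  obtain ⟨k1, k2⟩ := h.2.1.exP h.2.2 rfl h1 h4 h2 h3 h5
  refine ⟨?_, k1, k2⟩
  have := h.posQ
  simp only [cr, Prod.fst_sub, Prod.snd_sub] at *
  linarith

theorem OKC.exM (h : OKC O (U, x, l, q, m, s)) (h1 : 0 < cr l x) (h4 : cr l x < cr U x)
    (h2 : cr m x < 0) (h3 : 0 < cr l x + cr m x) (h5 : cr l m < 0) :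
    OKC O (l, x - q, -m, -s, -x, l - U) := by
  obtain ⟨k1, k2⟩ := h.2.1.exM h.2.2 rfl h1 h4 h2 h3 h5
  refine ⟨?_, k1, k2⟩
  have := h.posQ
  simp only [cr, Prod.fst_sub, Prod.snd_sub] at *
  linarith

/-- the step, `m × x < 0 < l × x`, `|m × x| < l × x` -/
theorem OKC.step1 (h : OKC O (U, x, l, q, m, s)) (h1 : 0 < cr l x) (h4 : cr l x < cr U x)
    (h2 : cr m x < 0) (h3 : 0 < cr l x + cr m x) : ∃ e : ℤ, (e = 1 ∨ e = -1) ∧
      OKC O (l, x - q, -m, -s, e • x, e • (U - l)) := by
  have hx : x ∈ AddSubgroup.closure ({U, x} : Set Z2) := AddSubgroup.subset_closure (by simp)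
  have hx0 : x ≠ 0 := by
    rintro rfl
    simp [cr] at h1
  rcases lt_trichotomy (cr l m) 0 with h5 | h5 | h5
  · refine ⟨-1, Or.inr rfl, ?_⟩
    rw [neg_one_smul, neg_one_smul, neg_sub]
    exact h.exM h1 h4 h2 h3 h5
  · exact (h.2.2.ne ⟨x, hx, hx0⟩ h5).elim
  · refine ⟨1, Or.inl rfl, ?_⟩
    rw [one_smul, one_smul]
    exact h.exP h1 h4 h2 h3 h5

/-- the step, `|m × x| < |l × x|`: the cylinder `(q, l)` is given up -/
theorem OKC.stepL (h : OKC O (U, x, l, q, m, s)) (h1 : cr l x * cr m x < 0)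
    (h2 : |cr m x| < |cr l x|) (h4 : |cr l x| < cr U x) : ∃ e f : ℤ, (e = 1 ∨ e = -1) ∧
      (f = 1 ∨ f = -1) ∧ e * cr l x = |cr l x| ∧
      OKC O (l, e • x - q, -m, -s, f • x, f • (U - e • l)) := by
  rcases lt_trichotomy (cr l x) 0 with g | g | g
  · have g2 : 0 < cr m x := by nlinarith
    rw [abs_of_neg g, abs_of_pos g2] at h2
    rw [abs_of_neg g] at h4
    obtain ⟨e, he, key⟩ := h.neg.step1 (by rw [cr_negr]; linarith)
      (by rw [cr_negr, cr_negl, cr_negr, neg_neg]; exact h4) (by rw [cr_negr]; linarith)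
      (by rw [cr_negr, cr_negr]; linarith)
    refine ⟨-1, -e, Or.inr rfl, ?_, by rw [abs_of_neg g]; ring, ?_⟩
    · rcases he with rfl | rfl
      · exact Or.inr rfl
      · exact Or.inl (by norm_num)
    · have e1 : (-1 : ℤ) • x - q = -x - q := by rw [neg_one_smul]
      have e2 : (-e) • x = e • -x := by rw [neg_smul, smul_neg]
      have e3 : (-e) • (U - (-1 : ℤ) • l) = e • (-U - l) := by
        rw [neg_one_smul, neg_smul, ← smul_neg]
        congr 1
        abel
      rw [e1, e2, e3]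
      exact key
  · rw [g] at h1
    simp at h1
  · have g2 : cr m x < 0 := by nlinarith
    rw [abs_of_pos g, abs_of_neg g2] at h2
    rw [abs_of_pos g] at h4
    obtain ⟨e, he, key⟩ := h.step1 g h4 g2 (by linarith)
    refine ⟨1, e, Or.inl rfl, he, by rw [abs_of_pos g, one_mul], ?_⟩
    rw [one_smul, one_smul]
    exact key

/-- THE STEP -/
theorem OKC.step (h : OKC O (U, x, l, q, m, s)) (h1 : cr l x * cr m x < 0)
    (h2 : |cr l x| ≠ |cr m x|) (h3 : |cr l x| < cr U x) (h4 : |cr m x| < cr U x) :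
    ∃ U' x' l' q' m' s', OKC O (U', x', l', q', m', s') ∧
      |cr l' m'| = min |cr l x| |cr m x| ∧
      volC (U', x', l', q', m', s') = volC (U, x, l, q, m, s) ∧
      (|cr m x| < |cr l x| → l' = -m ∧ (m' = x ∨ m' = -x) ∧ cr U' x' = |cr l x| + cr q l) ∧
      (|cr l x| < |cr m x| → l' = l ∧ (m' = x ∨ m' = -x) ∧ cr U' x' = |cr m x| + cr s m) := by
  rcases lt_or_gt_of_ne h2 with g | g
  · obtain ⟨e, f, he, hf, hef, key⟩ := h.rev.stepL (by
      rw [cr_negl, cr_negl]; linarith) (by rw [cr_negl, cr_negl, abs_neg, abs_neg]; exact g)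
      (by rw [cr_negl, abs_neg]; exact h4)
    rw [cr_negl, abs_neg] at hef
    rw [neg_neg, neg_neg] at key
    refine ⟨_, _, _, _, _, _, key, ?_, ?_, fun h' => absurd h' (not_lt.2 g.le), fun _ => ?_⟩
    · rw [min_eq_left g.le]
      rcases hf with rfl | rfl
      · rw [one_smul]
      · rw [neg_one_smul, cr_negr, abs_neg]
    · rcases he with rfl | rfl <;> rcases hf with rfl | rfl <;>
        simp only [volC, one_smul, neg_one_smul, cr, Prod.fst_sub, Prod.snd_sub, Prod.fst_neg,
          Prod.snd_neg] <;> ring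
    · refine ⟨rfl, ?_, ?_⟩
      · rcases hf with rfl | rfl
        · exact Or.inl (one_smul _ _)
        · exact Or.inr (neg_one_smul _ _)
      · rw [← hef]
        simp only [cr, Prod.fst_sub, Prod.snd_sub, Prod.fst_neg, Prod.snd_neg, Prod.smul_fst,
          Prod.smul_snd, smul_eq_mul]
        ring
  · obtain ⟨e, f, he, hf, hef, key⟩ := h.stepL h1 g h3
    refine ⟨_, _, _, _, _, _, key, ?_, ?_, fun _ => ?_, fun h' => absurd h' (not_lt.2 g.le)⟩
    · rw [min_eq_right g.le]
      rcases hf with rfl | rfl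
      · rw [one_smul, cr_negl, abs_neg]
      · rw [neg_one_smul, cr_negr, cr_negl, neg_neg]
    · rcases he with rfl | rfl <;> rcases hf with rfl | rfl <;>
        simp only [volC, one_smul, neg_one_smul, cr, Prod.fst_sub, Prod.snd_sub, Prod.fst_neg,
          Prod.snd_neg] <;> ring
    · refine ⟨rfl, ?_, ?_⟩
      · rcases hf with rfl | rfl
        · exact Or.inl (one_smul _ _)
        · exact Or.inr (neg_one_smul _ _)
      · rw [← hef]
        simp only [cr, Prod.fst_sub, Prod.snd_sub, Prod.smul_fst, Prod.smul_snd, smul_eq_mul]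
        ring

end

end Pool.Agent.H4G.Six
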