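import Pool.Agent.H4G.Six.Config2
import Pool.Agent.H4G.Six.Block6

/-!
# Configurations: change of the slits at a centre (helper5)

At a centre `U` of the configuration `(U, x; l, q; m, s)` the pair `(l, q)` can be replaced by any
pair `(l₁, q₁)` with the same lattice `⟨l, U + q⟩` and `0 < U × l₁ < area`, and `(m, s)` likewise.
-/

set_option autoImplicit false

namespace Pool.Agent.H4G.Six

open Pool.Agent.H4G

variable {X : Type} {O : PO X} {U v l q m s x l1 q1 m1 s1 : Z2}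

/-- the block lemma for trees of a fixed origami, first torus -/
theorem Has6.blockL_iff (hp : Pos6 (U, v, l, q, m, s)) (h1 : 0 < cr U l1) (h2 : 0 < cr q1 l1)
    (hL : lat l (U + q) = lat l1 (U + q1)) :
    Has6 O (U, v, l, q, m, s) ↔ Has6 O (U, v, l1, q1, m, s) := by
  obtain ⟨g1, g2, g3, g4, g5⟩ := hp
  have hE : BRel U (fun a b => Has6 O (U, v, a.1, a.2, m, s) ↔ Has6 O (U, v, b.1, b.2, m, s)) := by
    refine ⟨fun a => Iff.rfl, fun a b h => h.symm, fun a b c h h' => h.trans h', ?_, ?_⟩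
    · intro l q h
      exact ⟨fun hh => hh.mv (Tw6.tq U v l q m s),
        fun hh => Has6.mv_symm ⟨g1, h.1, g3, h.2, g5⟩ hh (Tw6.tq U v l q m s)⟩
    · intro l q h h'
      exact ⟨fun hh => hh.mv (Tw6.tl U v l q m s h'.1 h'.2),
        fun hh => Has6.mv_symm ⟨g1, h.1, g3, h.2, g5⟩ hh (Tw6.tl U v l q m s h'.1 h'.2)⟩
  exact hE.block ⟨g2, g4⟩ ⟨h1, h2⟩ hL

/-- the block lemma for trees of a fixed origami, second torus -/
theorem Has6.blockM_iff (hp : Pos6 (U, v, l, q, m, s)) (h1 : 0 < cr U m1) (h2 : 0 < cr s1 m1)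
    (hL : lat m (U + s) = lat m1 (U + s1)) :
    Has6 O (U, v, l, q, m, s) ↔ Has6 O (U, v, l, q, m1, s1) := by
  obtain ⟨g1, g2, g3, g4, g5⟩ := hp
  have hE : BRel U (fun a b => Has6 O (U, v, l, q, a.1, a.2) ↔ Has6 O (U, v, l, q, b.1, b.2)) := by
    refine ⟨fun a => Iff.rfl, fun a b h => h.symm, fun a b c h h' => h.trans h', ?_, ?_⟩
    · intro m s h
      exact ⟨fun hh => hh.mv (Tw6.ts U v l q m s),
        fun hh => Has6.mv_symm ⟨g1, g2, h.1, g4, h.2⟩ hh (Tw6.ts U v l q m s)⟩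
    · intro m s h h'
      exact ⟨fun hh => hh.mv (Tw6.tm U v l q m s h'.1 h'.2),
        fun hh => Has6.mv_symm ⟨g1, g2, h.1, g4, h.2⟩ hh (Tw6.tm U v l q m s h'.1 h'.2)⟩
  exact hE.block ⟨g3, g5⟩ ⟨h1, h2⟩ hL

/-- `v` can be changed by multiples of `u`, on the same origami -/
theorem Has6.vk (h : Has6 O (U, v, l, q, m, s)) (k : ℤ) : Has6 O (U, v + k • U, l, q, m, s) := by
  induction k using Int.induction_on with
  | zero => simpa using h
  | succ n ih =>
    have := ih.mv (Tw6.tv U _ l q m s)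
    rw [add_assoc, ← add_one_zsmul] at this
    exact this
  | pred n ih =>
    have := ih.tv (v' := v + (-(n : ℤ) - 1) • U) (Or.inr (by
      rw [sub_smul, one_smul]; abel))
    exact this

/-- a primitive vector of `⟨l, U + q⟩` as a slit -/
theorem exists_slit {i j : ℤ} (h : IsCoprime i j) (hl1 : l1 = i • l + j • (U + q)) :
    ∃ q1, lat l1 (U + q1) = lat l (U + q) ∧ cr q1 l1 = cr U l + cr q l - cr U l1 := by
  obtain ⟨p1, k1, k2⟩ := exists_basis (U := U + q) (x := l) j i h.symm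
  have e : j • (U + q) + i • l = l1 := by rw [hl1]; abel
  rw [e] at k1 k2
  refine ⟨p1 - U, ?_, ?_⟩
  · have e1 : U + (p1 - U) = p1 := by abel
    rw [e1]
    show AddSubgroup.closure {l1, p1} = AddSubgroup.closure {l, U + q}
    rw [clo_comm l1 p1, k1, clo_comm]
  · have e2 : cr (p1 - U) l1 = cr p1 l1 - cr U l1 := by
      simp only [cr, Prod.fst_sub, Prod.snd_sub]; ring
    have e3 : cr (U + q) l = cr U l + cr q l := by
      simp only [cr, Prod.fst_add, Prod.snd_add]; ring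
    rw [e2, k2, e3]

/-- CHANGE OF THE SLITS of a tree, same centre, same origami -/
theorem Has6.change (h : Has6 O (U, v, l, q, m, s)) (hl1 : 0 < cr U l1) (hq1 : 0 < cr q1 l1)
    (hL : lat l1 (U + q1) = lat l (U + q)) (hm1 : 0 < cr U m1) (hs1 : 0 < cr s1 m1)
    (hM : lat m1 (U + s1) = lat m (U + s)) : Has6 O (U, v, l1, q1, m1, s1) := by
  have hp := h.pos
  have h' := (Has6.blockL_iff hp hl1 hq1 hL.symm).1 h
  exact (Has6.blockM_iff h'.pos hm1 hs1 hM.symm).1 h'

/-- CHANGE OF THE SLITS at a centre of a configuration -/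
theorem OKC.change (h : OKC O (U, x, l, q, m, s)) (h1 : 0 < cr U l) (h2 : 0 < cr U m)
    (h3 : cr U l + cr U m < cr U x) (hl1 : 0 < cr U l1) (hq1 : 0 < cr q1 l1)
    (hL : lat l1 (U + q1) = lat l (U + q)) (hm1 : 0 < cr U m1) (hs1 : 0 < cr s1 m1)
    (hM : lat m1 (U + s1) = lat m (U + s)) :
    Has6 O (U, x - l - m, l1, q1, m1, s1) ∧
      (cr l1 m1 ≠ 0 → OKC O (U, x - l - m + l1 + m1, l1, q1, m1, s1)) := by
  have h' := (h.center h1 h2 h3).change hl1 hq1 hL hm1 hs1 hM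
  exact ⟨h', h'.okc⟩

/-- the same with the new slits given as primitive vectors of `⟨l, U + q⟩`, `⟨m, U + s⟩` -/
theorem OKC.change' (h : OKC O (U, x, l, q, m, s)) (h1 : 0 < cr U l) (h2 : 0 < cr U m)
    (h3 : cr U l + cr U m < cr U x) {i j i' j' : ℤ} (hij : IsCoprime i j)
    (hl : l1 = i • l + j • (U + q)) (hl1 : 0 < cr U l1) (hl2 : cr U l1 < cr U l + cr q l)
    (hij' : IsCoprime i' j') (hm : m1 = i' • m + j' • (U + s)) (hm1 : 0 < cr U m1)
    (hm2 : cr U m1 < cr U m + cr s m) :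
    ∃ q1 s1, lat l1 (U + q1) = lat l (U + q) ∧ lat m1 (U + s1) = lat m (U + s) ∧
      cr q1 l1 = cr U l + cr q l - cr U l1 ∧ cr s1 m1 = cr U m + cr s m - cr U m1 ∧
      Has6 O (U, x - l - m, l1, q1, m1, s1) ∧
      (cr l1 m1 ≠ 0 → OKC O (U, x - l - m + l1 + m1, l1, q1, m1, s1)) := by
  obtain ⟨q1, k1, k2⟩ := exists_slit hij hl
  obtain ⟨s1, k3, k4⟩ := exists_slit hij' hm
  exact ⟨q1, s1, k1, k3, k2, k4,
    h.change h1 h2 h3 hl1 (by rw [k2]; linarith) k1 hm1 (by rw [k4]; linarith) k3⟩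

/-- only the first slit is changed -/
theorem OKC.changeL (h : OKC O (U, x, l, q, m, s)) (h1 : 0 < cr U l) (h2 : 0 < cr U m)
    (h3 : cr U l + cr U m < cr U x) {i j : ℤ} (hij : IsCoprime i j)
    (hl : l1 = i • l + j • (U + q)) (hl1 : 0 < cr U l1) (hl2 : cr U l1 < cr U l + cr q l) :
    ∃ q1, lat l1 (U + q1) = lat l (U + q) ∧ cr q1 l1 = cr U l + cr q l - cr U l1 ∧
      Has6 O (U, x - l - m, l1, q1, m, s) ∧
      (cr l1 m ≠ 0 → OKC O (U, x - l + l1, l1, q1, m, s)) := by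
  obtain ⟨q1, k1, k2⟩ := exists_slit hij hl
  have hs := h.posS
  obtain ⟨a, b⟩ := h.change h1 h2 h3 hl1 (by rw [k2]; linarith) k1 h2 hs rfl
  have e : x - l - m + l1 + m = x - l + l1 := by abel
  rw [e] at b
  exact ⟨q1, k1, k2, a, b⟩

/-- only the second slit is changed -/
theorem OKC.changeM (h : OKC O (U, x, l, q, m, s)) (h1 : 0 < cr U l) (h2 : 0 < cr U m)
    (h3 : cr U l + cr U m < cr U x) {i j : ℤ} (hij : IsCoprime i j)
    (hm : m1 = i • m + j • (U + s)) (hm1 : 0 < cr U m1) (hm2 : cr U m1 < cr U m + cr s m) :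
    ∃ s1, lat m1 (U + s1) = lat m (U + s) ∧ cr s1 m1 = cr U m + cr s m - cr U m1 ∧
      Has6 O (U, x - l - m, l, q, m1, s1) ∧
      (cr l m1 ≠ 0 → OKC O (U, x - m + m1, l, q, m1, s1)) := by
  obtain ⟨s1, k1, k2⟩ := exists_slit hij hm
  have hq := h.posQ
  obtain ⟨a, b⟩ := h.change h1 h2 h3 h1 hq rfl hm1 (by rw [k2]; linarith) k1
  have e : x - l - m + l + m1 = x - m + m1 := by abel
  rw [e] at b
  exact ⟨s1, k1, k2, a, b⟩

/-- a vector of the lattice in coordinates -/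
theorem mem_lat_coords {z p : Z2} (h : z ∈ lat l p) : ∃ i j : ℤ, z = i • l + j • p := by
  obtain ⟨i, j, e⟩ := AddSubgroup.mem_closure_pair.1 h
  exact ⟨i, j, e.symm⟩

/-- the pencil: another centre of the same configuration with the same slits; the new centre is
`i U + j x`, given by its products with `l` and `m` -/
theorem OKC.recenter (h : OKC O (U, x, l, q, m, s)) {i j : ℤ} (hij : IsCoprime i j) {U' : Z2}
    (hU : U' = i • U + j • x) : ∃ x', lat U' x' = lat U x ∧ cr U' x' = cr U x ∧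
      OKC O (U', x', l, q, m, s) := by
  obtain ⟨p, k1, k2⟩ := exists_basis (U := U) (x := x) i j hij
  rw [← hU] at k1 k2
  have e1 : lat U' (-p) = lat U x := by
    show AddSubgroup.closure {U', -p} = AddSubgroup.closure {U, x}
    rw [clo_neg_right, clo_comm U' p, k1]
  have e2 : cr U' (-p) = cr U x := by
    rw [← k2]
    simp only [cr, Prod.fst_neg, Prod.snd_neg]; ring
  exact ⟨-p, e1, e2, h.basis e1 (by rw [e2]; exact h.1)⟩

end Pool.Agent.H4G.Six
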