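import Pool.Agent.H4G.Six.SlitE

/-!
# The degenerate centre of a configuration (helper96)

The vector `x` of the lattice is parallel to `m`. Then the cylinder of `x` beside the slit `l`,
together with the cylinder `(q, l)`, is a torus `⟨l, x - q⟩` and this torus may be cut along
every other pair `(l', x - q')`.
-/

set_option autoImplicit false

namespace Pool.Agent.H4G.Six

open Pool.Agent.H4G Filter Topology

variable {X : Type}

section

variable {O : PO X} {l q m s U x l' q' m' s' : Z2}

/-- the slit `m` is shorter than `x` -/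
theorem Emb.ltD {Λ : AddSubgroup Z2} (h : Emb Λ l m) (hx : x ∈ Λ) (h0 : cr m x = 0)
    (h1 : 0 < cr l x) (h5 : 0 < cr l m) : cr l m < cr l x := by
  by_contra hc
  push Not at hc
  apply h x hx
  · rintro rfl
    simp [cr] at h1
  · have e : cr x m = 0 := by rw [cr_swap' m x, h0, neg_zero]
    rw [e]
    refine ⟨by simp, by simpa using mul_self_nonneg _, by positivity, by nlinarith⟩

/-- the new path is embedded -/
theorem Emb.deg (h1 : 0 < cr l x) (h4 : cr l x < cr U x) (h0 : cr m x = 0) (h5 : 0 < cr l m)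
    (h6 : cr l m < cr l x) (c1 : 0 < cr l' x) :
    Emb (AddSubgroup.closure {U - l + l', x}) l' m := by
  have cm : cr l x * cr l' m = cr l m * cr l' x := by
    have e : cr l x * cr l' m - cr l m * cr l' x = cr l' l * cr m x := by
      simp only [cr]; ring
    rw [h0, mul_zero] at e
    linarith
  have r0 : 0 < cr l' m := by
    have : 0 < cr l x * cr l' m := by rw [cm]; exact mul_pos h5 c1
    exact (pos_iff_pos_of_mul_pos this).1 h1
  have r1 : cr l' m < cr l' x := by
    have : cr l x * cr l' m < cr l x * cr l' x := by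
      rw [cm]; exact mul_lt_mul_of_pos_right h6 c1
    exact lt_of_mul_lt_mul_left this h1.le
  rintro z hz hz0 ⟨a1, a2, a3, a4⟩
  obtain ⟨i, j, rfl⟩ := AddSubgroup.mem_closure_pair.1 hz
  have p1 := nonneg_of_mul_nonneg_left a1 r0
  have p2 := le_of_mul_le_mul_right a2 r0
  have p3 := nonneg_of_mul_nonneg_left a3 r0
  have p4 := le_of_mul_le_mul_right a4 r0
  have xm : cr x m = 0 := by rw [cr_swap' m x, h0, neg_zero]
  have e1 : cr (i • (U - l + l') + j • x) m = i * cr (U - l + l') m := by
    have : cr (i • (U - l + l') + j • x) m = i * cr (U - l + l') m + j * cr x m := by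
      simp only [cr, Prod.fst_add, Prod.snd_add, Prod.smul_fst, Prod.smul_snd, smul_eq_mul]; ring
    rw [this, xm]; ring
  have e2 : cr l x * cr (U - l + l') m = cr l m * (cr U x - cr l x + cr l' x) := by
    have e : cr l x * cr (U - l + l') m - cr l m * (cr U x - cr l x + cr l' x) =
        cr (U - l + l') l * cr m x := by
      simp only [cr, Prod.fst_add, Prod.snd_add, Prod.fst_sub, Prod.snd_sub]; ring
    rw [h0, mul_zero] at e
    linarith
  rw [e1] at p1 p2
  have f1 : 0 ≤ cr l m * (i * (cr U x - cr l x + cr l' x)) := by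
    have : cr l m * (i * (cr U x - cr l x + cr l' x)) = cr l x * (i * cr (U - l + l') m) := by
      have : cr l x * (i * cr (U - l + l') m) = i * (cr l x * cr (U - l + l') m) := by ring
      rw [this, e2]; ring
    rw [this]; exact mul_nonneg h1.le p1
  have f2 : cr l m * (i * (cr U x - cr l x + cr l' x)) ≤ cr l m * cr l' x := by
    have : cr l m * (i * (cr U x - cr l x + cr l' x)) = cr l x * (i * cr (U - l + l') m) := by
      have : cr l x * (i * cr (U - l + l') m) = i * (cr l x * cr (U - l + l') m) := by ring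
      rw [this, e2]; ring
    rw [this, ← cm]; exact mul_le_mul_of_nonneg_left p2 h1.le
  have g1 := nonneg_of_mul_nonneg_right f1 h5
  have g2 := le_of_mul_le_mul_left f2 h5
  have i0 : -1 < i := by
    by_contra hc
    push Not at hc
    nlinarith
  have i1 : i < 1 := by
    by_contra hc
    push Not at hc
    nlinarith
  have hi : i = 0 := by omega
  subst hi
  have e3 : cr l' ((0 : ℤ) • (U - l + l') + j • x) = j * cr l' x := by
    simp only [cr, Prod.fst_add, Prod.snd_add, Prod.smul_fst, Prod.smul_snd, smul_eq_mul]; ring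
  rw [e3] at p3 p4
  have j0 : -1 < j := by
    by_contra hc
    push Not at hc
    nlinarith
  have j1 : j < 1 := by
    by_contra hc
    push Not at hc
    nlinarith
  have hj : j = 0 := by omega
  subst hj
  apply hz0
  simp

theorem HasC.degP (h : HasC O (AddSubgroup.closure {U, x}) l q m s)
    (hE : Emb (AddSubgroup.closure {U, x}) l m) (h0 : cr m x = 0) (h1 : 0 < cr l x)
    (h4 : cr l x < cr U x) (h5 : 0 < cr l m) (c1 : 0 < cr l' x) (c7 : 0 < cr q' l')
    (cL : AddSubgroup.closure ({l', x - q'} : Set Z2) = AddSubgroup.closure {l, x - q}) :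
    HasC O (AddSubgroup.closure {U - l + l', x}) l' q' m s ∧
      Emb (AddSubgroup.closure {U - l + l', x}) l' m := by
  have h6 := hE.ltD mem_x h0 h1 h5
  have h7 := h.posQ
  refine ⟨?_, Emb.deg h1 h4 h0 h5 h6 c1⟩
  obtain ⟨L0, L1, M0, M1, Q, S, φ, hφ, k4, k5⟩ := h
  obtain ⟨L0', L1', Q', φ', j1, j2⟩ := hφ.deg ⟨⟨h0, h1, h4, h5, h6, h7⟩, c1, c7, cL⟩ k4
  exact ⟨_, _, _, _, _, _, φ', j2, j1, k5⟩

theorem HasC.degM (h : HasC O (AddSubgroup.closure {U, x}) l q m s)
    (hE : Emb (AddSubgroup.closure {U, x}) l m) (h0 : cr m x = 0) (h1 : 0 < cr l x)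
    (h4 : cr l x < cr U x) (h5 : cr l m < 0) (c1 : 0 < cr l' x) (c7 : 0 < cr q' l')
    (cL : AddSubgroup.closure ({l', x - q'} : Set Z2) = AddSubgroup.closure {l, x - q}) :
    HasC O (AddSubgroup.closure {U - l + l', x}) l' q' m s ∧
      Emb (AddSubgroup.closure {U - l + l', x}) l' m := by
  have em1 : ∀ a b : Z2, (AddSubgroup.closure ({a, b} : Set Z2)).map barH =
      AddSubgroup.closure {bar a, -bar b} := by
    intro a b
    rw [map_bar_closure, clo_neg_right]
  have k1 := h.mir
  have k2 := hE.mir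
  rw [em1] at k1 k2
  have key := HasC.degP (l' := bar l') (q' := -bar q') k1 k2 (by rw [cr_nbar2]; exact h0)
    (by rw [cr_nbar2]; exact h1) (by rw [cr_nbar2, cr_nbar2]; exact h4)
    (by rw [cr_bar]; linarith) (by rw [cr_nbar2]; exact c1)
    (by rw [cr_negl, cr_bar, neg_neg]; exact c7) (by
      have e : ∀ a b : Z2, AddSubgroup.closure ({bar a, -bar x - -bar b} : Set Z2) =
          (AddSubgroup.closure ({a, x - b} : Set Z2)).map barH := by
        intro a b
        rw [em1, bar_sub, neg_sub]
        congr 3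
        abel
      rw [e, e, cL])
  have e : AddSubgroup.closure ({bar U - bar l + bar l', -bar x} : Set Z2) =
      (AddSubgroup.closure {U - l + l', x}).map barH := by
    rw [em1]
    congr 2
    ext <;> simp [bar] <;> ring
  rw [e] at key
  exact ⟨HasC.mir_iff.1 key.1, Emb.mir_iff.1 key.2⟩

/-- THE DEGENERATE CENTRE: `x` is parallel to `m`; then `(l, q)` may be replaced by every
`(l', q')` with `⟨l', x - q'⟩ = ⟨l, x - q⟩`, `0 < l' × x`, `0 < q' × l'` -/
theorem OKC.deg (h : OKC O (U, x, l, q, m, s)) (h0 : cr m x = 0) (h1 : 0 < cr l x)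
    (h4 : cr l x < cr U x) (c1 : 0 < cr l' x) (c7 : 0 < cr q' l')
    (cL : AddSubgroup.closure ({l', x - q'} : Set Z2) = AddSubgroup.closure {l, x - q}) :
    OKC O (U - l + l', x, l', q', m, s) ∧
      volC (U - l + l', x, l', q', m, s) = volC (U, x, l, q, m, s) := by
  have hx0 : x ≠ 0 := by
    rintro rfl
    simp [cr] at h1
  have hW : cr (U - l + l') x = cr U x - cr l x + cr l' x := by
    simp only [cr, Prod.fst_add, Prod.snd_add, Prod.fst_sub, Prod.snd_sub]; ring
  have h7 := h.posQ
  have key : HasC O (AddSubgroup.closure {U - l + l', x}) l' q' m s ∧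
      Emb (AddSubgroup.closure {U - l + l', x}) l' m := by
    rcases lt_trichotomy (cr l m) 0 with h5 | h5 | h5
    · exact h.2.1.degM h.2.2 h0 h1 h4 h5 c1 c7 cL
    · exact (h.2.2.ne ⟨x, mem_x, hx0⟩ h5).elim
    · exact h.2.1.degP h.2.2 h0 h1 h4 h5 c1 c7 cL
  refine ⟨⟨by rw [hW]; linarith, key.1, key.2⟩, ?_⟩
  have e1 : ∀ a b : Z2, cr a (x - b) = cr a x + cr b a := by
    intro a b
    simp only [cr, Prod.fst_sub, Prod.snd_sub]; ring
  have e2 := area_eq cL (by rw [e1]; linarith) (by rw [e1]; linarith)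
  rw [e1, e1] at e2
  simp only [volC]
  rw [hW]
  linarith

/-- the same for the slit `m`: `x` is parallel to `l` -/
theorem OKC.degR (h : OKC O (U, x, l, q, m, s)) (h0 : cr l x = 0) (h1 : 0 < cr m x)
    (h4 : cr m x < cr U x) (c1 : 0 < cr m' x) (c7 : 0 < cr s' m')
    (cL : AddSubgroup.closure ({m', x - s'} : Set Z2) = AddSubgroup.closure {m, x - s}) :
    OKC O (U - m + m', x, l, q, m', s') ∧
      volC (U - m + m', x, l, q, m', s') = volC (U, x, l, q, m, s) := by
  have e0 : ∀ a b : Z2, cr (-a) (-b) = cr a b := by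
    intro a b
    rw [cr_negl, cr_negr, neg_neg]
  have e1 : ∀ a b : Z2, AddSubgroup.closure ({-a, -x - -b} : Set Z2) =
      AddSubgroup.closure {a, x - b} := by
    intro a b
    rw [show -x - -b = -(x - b) by abel, clo_neg_left, clo_neg_right]
  obtain ⟨k1, k2⟩ := h.neg.rev.deg (l' := -m') (q' := -s') (by rw [e0]; exact h0)
    (by rw [e0]; exact h1) (by rw [e0, e0]; exact h4) (by rw [e0]; exact c1)
    (by rw [e0]; exact c7) (by rw [e1, e1]; exact cL)
  have k3 := k1.rev.neg
  have e2 : -(-U - -m + -m') = U - m + m' := by abel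
  simp only [neg_neg] at k3
  rw [e2] at k3
  refine ⟨k3, ?_⟩
  simp only [volC, e0] at k2 ⊢
  rw [show cr (-U - -m + -m') (-x) = cr (U - m + m') x by
    rw [← e2, cr_negl, ← cr_negr]] at k2
  linarith

end

end Pool.Agent.H4G.Six
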