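import Pool.Agent.H4G.Six.Config4
import Pool.Agent.H4G.Six.Recon6

/-!
# The covering theorem for configurations (helper69)

The squares developed by a configuration `(Λ; l, q; m, s)` are an invariant set of at most
`W + q × l + s × m` squares: `coreC`. No centre is asked for; the area is a number of residues.
-/

set_option autoImplicit false

namespace Pool.Agent.H4G.Six

open Pool.Agent.H4G Pool.Agent.H4G.Cov Filter Topology

variable {X : Type}

/-! ## Generalities -/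

/-- a locally constant property on the square -/
theorem qs_const {P : V → Prop} (h : ∀ c ∈ Qs, ∀ᶠ c' in 𝓝 c, c' ∈ Qs → (P c' ↔ P c)) {c c' : V}
    (hc : c ∈ Qs) (hc' : c' ∈ Qs) (hP : P c) : P c' := by
  by_contra hn
  have hU : IsOpen {c | ∀ᶠ y in 𝓝 c, y ∈ Qs → P y} := isOpen_setOfPred_eventually_nhds
  have hW : IsOpen {c | ∀ᶠ y in 𝓝 c, y ∈ Qs → ¬ P y} := isOpen_setOfPred_eventually_nhds
  have hu : ∀ c ∈ Qs, P c → ∀ᶠ y in 𝓝 c, y ∈ Qs → P y := by
    intro c hc hP
    filter_upwards [h c hc] with y h1 hy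
    exact (h1 hy).2 hP
  have hw : ∀ c ∈ Qs, ¬ P c → ∀ᶠ y in 𝓝 c, y ∈ Qs → ¬ P y := by
    intro c hc hP
    filter_upwards [h c hc] with y h1 hy h2
    exact hP ((h1 hy).1 h2)
  obtain ⟨y, hy, hyU, hyW⟩ := Qs_convex.isPreconnected _ _ hU hW (fun y hy => by
    by_cases h1 : P y
    · exact Or.inl (hu y hy h1)
    · exact Or.inr (hw y hy h1)) ⟨c, hc, hu c hc hP⟩ ⟨c', hc', hw c' hc' hn⟩
  exact (Filter.Eventually.self_of_nhds hyW) hy ((Filter.Eventually.self_of_nhds hyU) hy)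

theorem ev_em {P : V → Prop} {z : Z2} {c : V} (h : ∀ᶠ y in 𝓝 (em z + c), P y) :
    ∀ᶠ c' in 𝓝 c, P (em z + c') := by
  have cont : Continuous (fun c' : V => em z + c') := by fun_prop
  exact (cont.tendsto c).eventually h

theorem em_add_c (z d : Z2) (c : V) : em z + c + em d = em (z + d) + c := by
  ext <;> simp [em] <;> ring

/-! ## The slits -/

section

variable {Λ : AddSubgroup Z2} {l m : Z2}

/-- the part of `Emb` used here -/
theorem Emb.comb (hE : Emb Λ l m) (hlm : cr l m ≠ 0) {z : Z2} (hz : z ∈ Λ) (hz0 : z ≠ 0) {s t : ℝ}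
    (h1 : (cr z m : ℝ) = s * cr l m) (h2 : (cr l z : ℝ) = t * cr l m) (s0 : 0 ≤ s) (s1 : s ≤ 1)
    (t0 : 0 ≤ t) (t1 : t ≤ 1) : False := by
  have hp : (0 : ℝ) < cr l m * cr l m := by
    have : (cr l m : ℝ) ≠ 0 := by exact_mod_cast hlm
    exact mul_self_pos.2 this
  apply hE z hz hz0
  refine ⟨?_, ?_, ?_, ?_⟩
  · have : (0 : ℝ) ≤ cr z m * cr l m := by
      rw [h1]; nlinarith
    exact_mod_cast this
  · have : (cr z m * cr l m : ℝ) ≤ cr l m * cr l m := by
      rw [h1]; nlinarith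
    exact_mod_cast this
  · have : (0 : ℝ) ≤ cr l z * cr l m := by
      rw [h2]; nlinarith
    exact_mod_cast this
  · have : (cr l z * cr l m : ℝ) ≤ cr l m * cr l m := by
      rw [h2]; nlinarith
    exact_mod_cast this

theorem Emb.locL (hE : Emb Λ l m) (hlm : cr l m ≠ 0) {y : V} (hy : y ∈ Seg 0 l) {c : Z2}
    (hc : c ∈ Λ) : (y - em l - em c ∈ CSeg (-l) 0 → c = 0) ∧ y - em l - em c ∉ CSeg 0 m := by
  obtain ⟨t, t0, t1, ht⟩ := seg_pt hy
  constructor
  · intro h
    obtain ⟨t', t0', t1', ht'⟩ := cseg_pt h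
    by_contra hc0
    have e1 := ht' m
    have e2 := ht' l
    rw [crx_sub, crx_sub, crx_em, crx_em, ht, crR_zero, crR_neg] at e1 e2
    rw [crR_self] at e2
    rw [crR_swap l m, crR_swap c m] at e1
    rcases le_total t' t with g | g
    · exact hE.comb hlm hc hc0 (s := t - t') (t := 0) (by linarith) (by linarith) (by linarith)
        (by linarith) le_rfl (by norm_num)
    · refine hE.comb hlm (Λ.neg_mem hc) (neg_ne_zero.2 hc0) (s := t' - t) (t := 0) ?_ ?_
        (by linarith) (by linarith) le_rfl (by norm_num)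
      · rw [cr_negl]; push_cast; linarith
      · rw [cr_negr]; push_cast; linarith
  · intro h
    obtain ⟨t', t0', t1', ht'⟩ := cseg_pt h
    have e1 := ht' m
    have e2 := ht' l
    rw [crx_sub, crx_sub, crx_em, crx_em, ht, crR_zero] at e1 e2
    rw [crR_self] at e1 e2
    rw [crR_swap l m, crR_swap c m] at e1
    have hlm' : (cr l m : ℝ) ≠ 0 := by exact_mod_cast hlm
    have hc0 : c ≠ 0 := by
      rintro rfl
      have : (cr (0 : Z2) m : ℝ) = 0 := by simp [cr]
      rw [this] at e1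
      have h3 : (1 - t) * (cr l m : ℝ) = 0 := by linarith
      rcases mul_eq_zero.1 h3 with h4 | h4
      · linarith
      · exact hlm' h4
    refine hE.comb hlm (Λ.neg_mem hc) (neg_ne_zero.2 hc0) (s := 1 - t) (t := t') ?_ ?_
      (by linarith) (by linarith) t0' t1'
    · rw [cr_negl]; push_cast; linarith
    · rw [cr_negr]; push_cast; linarith

theorem Emb.locM (hE : Emb Λ l m) (hlm : cr l m ≠ 0) {y : V} (hy : y ∈ Seg 0 m) {c : Z2}
    (hc : c ∈ Λ) : (y - em c ∈ CSeg 0 m → c = 0) ∧ y - em c ∉ CSeg (-l) 0 := by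
  obtain ⟨t, t0, t1, ht⟩ := seg_pt hy
  constructor
  · intro h
    obtain ⟨t', t0', t1', ht'⟩ := cseg_pt h
    by_contra hc0
    have e1 := ht' m
    have e2 := ht' l
    rw [crx_sub, crx_em, ht, crR_zero] at e1 e2
    rw [crR_self] at e1
    rw [crR_swap c m] at e1
    rcases le_total t' t with g | g
    · exact hE.comb hlm hc hc0 (s := 0) (t := t - t') (by linarith) (by linarith) le_rfl
        (by norm_num) (by linarith) (by linarith)
    · refine hE.comb hlm (Λ.neg_mem hc) (neg_ne_zero.2 hc0) (s := 0) (t := t' - t) ?_ ?_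
        le_rfl (by norm_num) (by linarith) (by linarith)
      · rw [cr_negl]; push_cast; linarith
      · rw [cr_negr]; push_cast; linarith
  · intro h
    obtain ⟨t', t0', t1', ht'⟩ := cseg_pt h
    have e1 := ht' m
    have e2 := ht' l
    rw [crx_sub, crx_em, ht, crR_zero, crR_neg] at e1 e2
    rw [crR_self] at e1 e2
    rw [crR_swap l m, crR_swap c m] at e1
    have hlm' : (cr l m : ℝ) ≠ 0 := by exact_mod_cast hlm
    have hc0 : c ≠ 0 := by
      rintro rfl
      rw [crR_zero] at e2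
      have h3 : t * (cr l m : ℝ) = 0 := by linarith
      rcases mul_eq_zero.1 h3 with h4 | h4
      · linarith
      · exact hlm' h4
    exact hE.comb hlm hc hc0 (s := 1 - t') (t := t) (by linarith) (by linarith)
      (by linarith) (by linarith) t0.le t1.le

theorem Emb.regL (hE : Emb Λ l m) (hlm : cr l m ≠ 0) {y : V} (hy : y ∈ Seg 0 l) :
    ∀ᶠ y' in 𝓝 y, crx l y' ≠ 0 → Reg Λ l m (y' - em l) := by
  have hlne : l ≠ 0 := by
    rintro rfl
    simp [cr] at hlm
  have hmne : m ≠ 0 := by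
    rintro rfl
    simp [cr] at hlm
  filter_upwards [ev_sub (ev_slit hlne hmne (y - em l))] with y' e1 hne c hc
  obtain ⟨k1, k2⟩ := hE.locL hlm hy hc
  refine ⟨fun h1 => ?_, fun h1 => k2 ((e1 c).2 h1)⟩
  have hc0 := k1 ((e1 c).1 h1)
  rw [hc0, em_zero, sub_zero] at h1
  obtain ⟨t, t0, t1, ht⟩ := cseg_pt h1
  apply hne
  have := ht l
  rw [crx_sub, crx_em, crR_neg, crR_self, crR_zero] at this
  linarith

theorem Emb.regM (hE : Emb Λ l m) (hlm : cr l m ≠ 0) {y : V} (hy : y ∈ Seg 0 m) :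
    ∀ᶠ y' in 𝓝 y, crx m y' ≠ 0 → Reg Λ l m y' := by
  have hlne : l ≠ 0 := by
    rintro rfl
    simp [cr] at hlm
  have hmne : m ≠ 0 := by
    rintro rfl
    simp [cr] at hlm
  filter_upwards [ev_slit hlne hmne y] with y' e1 hne c hc
  obtain ⟨k1, k2⟩ := hE.locM hlm hy hc
  refine ⟨fun h1 => k2 ((e1 c).1 h1), fun h1 => ?_⟩
  have hc0 := k1 ((e1 c).2 h1)
  rw [hc0, em_zero, sub_zero] at h1
  obtain ⟨t, t0, t1, ht⟩ := cseg_pt h1
  apply hne
  rw [ht, crR_self, crR_zero]
  ring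

end

/-! ## A slit with its cylinder -/

/-- the slit `a` at the place `d` of the plane `φ`, with the cylinder `(b, a)` -/
structure SCyl (O : PO X) (R : V → Prop) (φ : V → Z2 → X) (a d b : Z2) (f G0 G1 Q : Z2 → X) :
    Prop where
  ba : 0 < cr b a
  dev : Dev O (Pgm b a) f
  lo : Agree (Seg 0 b) f Q
  rt : Agree (Seg b (b + a)) f (sh b G0)
  up : Agree (Seg a (a + b)) f (sh a Q)
  lf : Agree (Seg 0 a) f G1
  s0 : ∀ y ∈ Seg 0 a, ∀ᶠ y' in 𝓝 y, crx a y' < 0 → ∀ z, Nr y' z → φ (y' + em d) (z + d) = G0 z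
  s1 : ∀ y ∈ Seg 0 a, ∀ᶠ y' in 𝓝 y, 0 < crx a y' → ∀ z, Nr y' z → φ (y' + em d) (z + d) = G1 z
  reg : ∀ y ∈ Seg 0 a, ∀ᶠ y' in 𝓝 y, crx a y' ≠ 0 → R (y' + em d)
  non : ∀ y ∈ Seg 0 a, ¬ R (y + em d)

section

variable {O : PO X} {R : V → Prop} {φ : V → Z2 → X} {a d b : Z2} {f G0 G1 Q : Z2 → X}

theorem nr_add' {y : V} {z : Z2} (c : Z2) (h : Nr y z) : Nr (y + em c) (z + c) := by
  exact (nr_sub (y + em c) (z + c) c).1 (by simpa using h)

/-- openness at the points of the cylinder -/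
theorem SCyl.open (h : SCyl O R φ a d b f G0 G1 Q) {z : Z2} {c : V} {s : X} (hc : c ∈ Qs)
    (hz : em z + c ∈ Pgm b a) (hf : f z = s) : ∀ᶠ c' in 𝓝 c, c' ∈ Qs →
      (∃ z', em z' + c' ∈ Pgm b a ∧ f z' = s) ∨
        (∃ z', R (em z' + c') ∧ φ (em z' + c') z' = s) := by
  have hnr := Qs_nr hc z
  obtain ⟨y, hy⟩ : ∃ y : V, y = em z + c := ⟨_, rfl⟩
  rw [← hy] at hz hnr
  have hD : (0 : ℝ) < cr b a := by exact_mod_cast h.ba
  have hpg : ∀ {z' : Z2} {c' : V}, c' ∈ Qs → 0 ≤ crx b (em z' + c') →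
      crx b (em z' + c') ≤ cr b a → crx a (em z' + c') ≤ 0 → -(cr b a : ℝ) ≤ crx a (em z' + c') →
      em z' + c' ∈ Pgm b a := fun hc' h1 h2 h3 h4 =>
    ⟨h1, h2, h3, h4, Qs_lattice hc' _ _, Qs_lattice hc' _ _, Qs_lattice hc' _ _,
      Qs_lattice hc' _ _⟩
  obtain ⟨h1, h2, h3, h4, n1, n2, n3, n4⟩ := id hz
  have gt : ∀ {w : Z2} {r : ℝ}, r < crx w y → ∀ᶠ c' in 𝓝 c, r < crx w (em z + c') := by
    intro w r hr
    have := ev_gt (a := w) (c := 0) (y := y) (r := r) (by rw [em_zero, sub_zero]; exact hr)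
    rw [hy] at this
    filter_upwards [ev_em this] with c' h5
    rwa [em_zero, sub_zero] at h5
  have lt : ∀ {w : Z2} {r : ℝ}, crx w y < r → ∀ᶠ c' in 𝓝 c, crx w (em z + c') < r := by
    intro w r hr
    have := ev_lt (a := w) (c := 0) (y := y) (r := r) (by rw [em_zero, sub_zero]; exact hr)
    rw [hy] at this
    filter_upwards [ev_em this] with c' h5
    rwa [em_zero, sub_zero] at h5
  have sba : (cr a b : ℝ) = -cr b a := crR_swap b a
  rcases h3.lt_or_eq with g3 | g3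
  · rcases h4.lt_or_eq with g4 | g4
    · rcases h1.lt_or_eq with g1 | g1
      · rcases h2.lt_or_eq with g2 | g2
        · -- interior
          filter_upwards [gt g1, lt g2, lt g3, gt g4] with c' k1 k2 k3 k4 hc'
          exact Or.inl ⟨z, hpg hc' k1.le k2.le k3.le k4.le, hf⟩
        · -- upper side
          have hys : y - em a ∈ Seg 0 b := by
            refine mem_seg (A := 0) (B := b) (a := -a) ?_ ?_ ?_ ?_
            · rw [sub_zero, cr_negl, cr_swap' b a, neg_neg]; exact h.ba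
            · rw [sub_zero, crx_sub, crx_em, g2, crR_zero]; ring
            · rw [crx_negl, crx_sub, crx_em, crR_zero, crR_self]; linarith
            · rw [crx_negl, crx_sub, crx_em, crR_self, cr_negl]; push_cast; rw [sba]; linarith
          have hyu : y ∈ Seg a (a + b) := by
            have := seg_add' a hys
            rwa [add_zero, sub_add_cancel] at this
          have e1 := h.up y hyu z hnr
          have e2 := h.lo (y - em a) hys (z - a) ((nr_sub y z a).2 hnr)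
          filter_upwards [gt g1, lt g3, gt g4, lt (w := b) (r := 2 * (cr b a : ℝ))
            (by rw [g2]; linarith)] with c' k1 k3 k4 k5 hc'
          left
          by_cases k2 : crx b (em z + c') ≤ cr b a
          · exact ⟨z, hpg hc' k1.le k2 k3.le k4.le, hf⟩
          · push Not at k2
            have ec : em (z - a) + c' = em z + c' - em a := by
              ext <;> simp [em] <;> ring
            refine ⟨z - a, hpg hc' ?_ ?_ ?_ ?_, ?_⟩
            · rw [ec, crx_sub, crx_em]; linarith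
            · rw [ec, crx_sub, crx_em]; linarith
            · rw [ec, crx_sub, crx_em, crR_self]; linarith
            · rw [ec, crx_sub, crx_em, crR_self]; linarith
            · rw [e2, ← hf, e1]; rfl
      · -- lower side
        have hys : y ∈ Seg 0 b := by
          refine mem_seg (A := 0) (B := b) (a := -a) ?_ ?_ ?_ ?_
          · rw [sub_zero, cr_negl, cr_swap' b a, neg_neg]; exact h.ba
          · rw [sub_zero, ← g1, crR_zero]
          · rw [crx_negl, crR_zero]; linarith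
          · rw [crx_negl, cr_negl]; push_cast; rw [sba]; linarith
        have hyu : y + em a ∈ Seg a (a + b) := by
          have := seg_add' a hys
          rwa [add_zero] at this
        have e1 := h.lo y hys z hnr
        have e2 := h.up (y + em a) hyu (z + a) (nr_add' a hnr)
        filter_upwards [lt g3, gt g4, lt (w := b) (r := (cr b a : ℝ)) (by rw [← g1]; linarith),
          gt (w := b) (r := -(cr b a : ℝ)) (by rw [← g1]; linarith)] with c' k3 k4 k2 k5 hc'
        left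
        by_cases k1 : 0 ≤ crx b (em z + c')
        · exact ⟨z, hpg hc' k1 k2.le k3.le k4.le, hf⟩
        · push Not at k1
          have ec : em (z + a) + c' = em z + c' + em a := by
            ext <;> simp [em] <;> ring
          refine ⟨z + a, hpg hc' ?_ ?_ ?_ ?_, ?_⟩
          · rw [ec, crx_add, crx_em]; linarith
          · rw [ec, crx_add, crx_em]; linarith
          · rw [ec, crx_add, crx_em, crR_self]; linarith
          · rw [ec, crx_add, crx_em, crR_self]; linarith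
          · rw [e2, ← hf, e1]
            show Q (z + a - a) = Q z
            rw [add_sub_cancel_right]
    · -- right side
      have q1 : 0 < crx b y := by
        rcases h1.lt_or_eq with g | g
        · exact g
        · exfalso
          apply n2
          have hA : (0 : ℤ) < cr b a := h.ba
          refine pt_of hA ?_ ?_
          · rw [← g, crR_self]
          · rw [← g4, sba]
      have q2 : crx b y < cr b a := by
        rcases h2.lt_or_eq with g | g
        · exact g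
        · exfalso
          apply n4
          refine pt_of h.ba ?_ ?_
          · rw [g, crR_add, crR_self]; ring
          · rw [← g4, crR_add, crR_self, sba]; ring
      have hys : y - em b ∈ Seg 0 a := by
        refine mem_seg (A := 0) (B := a) (a := b) ?_ ?_ ?_ ?_
        · rw [sub_zero]; exact h.ba
        · rw [sub_zero, crx_sub, crx_em, crR_zero, ← g4, sba]; ring
        · rw [crx_sub, crx_em, crR_zero, crR_self]; linarith
        · rw [crx_sub, crx_em, crR_self]; linarith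
      have hyr : y ∈ Seg b (b + a) := by
        have := seg_add' b hys
        rwa [add_zero, sub_add_cancel] at this
      have e1 := h.rt y hyr z hnr
      have j1 := ev_sub (h.s0 _ hys)
      have j2 := ev_sub (h.reg _ hys)
      rw [hy] at j1 j2
      filter_upwards [gt q1, lt q2, lt g3, ev_em j1, ev_em j2] with c' k1 k2 k3 k5 k6 hc'
      by_cases k4 : -(cr b a : ℝ) ≤ crx a (em z + c')
      · exact Or.inl ⟨z, hpg hc' k1.le k2.le k3.le k4, hf⟩
      · right
        push Not at k4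
        have hneg : crx a (em z + c' - em b) < 0 := by
          rw [crx_sub, crx_em, sba]; linarith
        have ec : em z + c' - em b + em d = em (z - b + d) + c' := by
          ext <;> simp [em] <;> ring
        refine ⟨z - b + d, ?_, ?_⟩
        · rw [← ec]; exact k6 hneg.ne
        · rw [← ec, k5 hneg (z - b) ((nr_sub _ z b).2 (Qs_nr hc' z)), ← hf, e1]; rfl
  · -- left side
    have q1 : 0 < crx b y := by
      rcases h1.lt_or_eq with g | g
      · exact g
      · exfalso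
        apply n1
        refine pt_of h.ba ?_ ?_
        · rw [← g, crR_zero]
        · rw [g3, crR_zero]
    have q2 : crx b y < cr b a := by
      rcases h2.lt_or_eq with g | g
      · exact g
      · exfalso
        apply n3
        refine pt_of h.ba ?_ ?_
        · rw [g]
        · rw [g3, crR_self]
    have hys : y ∈ Seg 0 a := by
      refine mem_seg (A := 0) (B := a) (a := b) ?_ ?_ ?_ ?_
      · rw [sub_zero]; exact h.ba
      · rw [sub_zero, g3, crR_zero]
      · rw [crR_zero]; exact q1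
      · exact q2
    have e1 := h.lf y hys z hnr
    have j1 := h.s1 _ hys
    have j2 := h.reg _ hys
    rw [hy] at j1 j2
    filter_upwards [gt q1, lt q2, gt (w := a) (r := -(cr b a : ℝ)) (by rw [g3]; linarith),
      ev_em j1, ev_em j2] with c' k1 k2 k4 k5 k6 hc'
    by_cases k3 : crx a (em z + c') ≤ 0
    · exact Or.inl ⟨z, hpg hc' k1.le k2.le k3 k4.le, hf⟩
    · right
      push Not at k3
      refine ⟨z + d, ?_, ?_⟩
      · rw [← em_add_c]; exact k6 k3.ne'
      · rw [← em_add_c, k5 k3 z (Qs_nr hc' z), ← hf, e1]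

/-- closedness of the cylinder -/
theorem pgm_closed (a b : Z2) {c : V} (hc : c ∈ Qs) : ∀ᶠ c' in 𝓝 c, ∀ z : Z2,
    em z + c' ∈ Pgm b a → em z + c ∈ Pgm b a := by
  filter_upwards [ev_int (crx_cont b) c, ev_int (crx_cont a) c] with c' e1 e2 z hz
  obtain ⟨h1, h2, h3, h4, -⟩ := hz
  rw [crx_add, crx_em] at h1 h2 h3 h4
  have j1 := (e1 (-cr b z)).1
  have j2 := (e1 (cr b a - cr b z)).2
  have j3 := (e2 (-cr a z)).2
  have j4 := (e2 (-cr b a - cr a z)).1
  push_cast at j1 j2 j3 j4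
  refine ⟨?_, ?_, ?_, ?_, Qs_lattice hc _ _, Qs_lattice hc _ _, Qs_lattice hc _ _,
    Qs_lattice hc _ _⟩
  · rw [crx_add, crx_em]
    have := j1 (by linarith)
    linarith
  · rw [crx_add, crx_em]
    have := j2 (by linarith)
    linarith
  · rw [crx_add, crx_em]
    have := j3 (by linarith)
    linarith
  · rw [crx_add, crx_em]
    have := j4 (by linarith)
    linarith

/-- the values near a point of a slit -/
theorem SCyl.closed (h : SCyl O R φ a d b f G0 G1 Q) {z : Z2} {c : V}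
    (hz : em z + c ∈ Seg 0 a) (hc : c ∈ Qs) : ∀ᶠ c' in 𝓝 c, c' ∈ Qs →
      R (em z + c' + em d) → ∀ s, φ (em z + c' + em d) (z + d) = s →
        ∃ z', em z' + c ∈ Pgm b a ∧ f z' = s := by
  have hD : (0 : ℝ) < cr b a := by exact_mod_cast h.ba
  obtain ⟨t, t0, t1, ht⟩ := seg_pt hz
  have p1 : 0 < crx b (em z + c - em 0) := by
    rw [em_zero, sub_zero, ht, crR_zero]; nlinarith
  have p2 : crx b (em z + c - em 0) < cr b a := by
    rw [em_zero, sub_zero, ht, crR_zero]; nlinarith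
  have hnr := Qs_nr hc z
  filter_upwards [ev_em (h.s0 _ hz), ev_em (h.s1 _ hz), ev_em (ev_gt p1), ev_em (ev_lt p2)]
    with c' k0 k1 k2 k3 hc' hR s hs
  rw [em_zero, sub_zero] at k2 k3
  have hne : crx a (em z + c') ≠ 0 := by
    intro h0
    refine h.non (em z + c') ?_ hR
    refine mem_seg (A := 0) (B := a) (a := b) ?_ ?_ ?_ ?_
    · rw [sub_zero]; exact h.ba
    · rw [sub_zero, h0, crR_zero]
    · rw [crR_zero]; exact k2
    · exact k3
  rcases lt_or_gt_of_ne hne with g | g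
  · have e := k0 g z (Qs_nr hc' z)
    rw [hs] at e
    have hyr : em z + c + em b ∈ Seg b (b + a) := by
      have := seg_add' b hz
      rwa [add_zero] at this
    refine ⟨z + b, ?_, ?_⟩
    · rw [← em_add_c]
      exact seg_right h.ba hyr
    · rw [h.rt _ hyr (z + b) (nr_add' b hnr), e]
      show G0 (z + b - b) = G0 z
      rw [add_sub_cancel_right]
  · have e := k1 g z (Qs_nr hc' z)
    rw [hs] at e
    exact ⟨z, seg_left h.ba hz, by rw [h.lf _ hz z hnr, e]⟩

end

/-! ## The covering relation -/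

theorem cseg_seg {A B : Z2} {y : V} (h : y ∈ CSeg A B) (h1 : y ≠ em A) (h2 : y ≠ em B) :
    y ∈ Seg A B := by
  obtain ⟨t, t0, t1, rfl⟩ := h
  refine ⟨t, lt_of_le_of_ne t0 ?_, lt_of_le_of_ne t1 ?_, rfl⟩
  · rintro rfl
    apply h1
    ext <;> simp [em]
  · rintro rfl
    apply h2
    ext <;> simp [em]

theorem em_neg' (d : Z2) : em (-d) = -em d := by
  ext <;> simp [em]

/-- the data of a configuration -/
structure CC (O : PO X) (Λ : AddSubgroup Z2) (l q m s : Z2) (φ : V → Z2 → X)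
    (L0 L1 M0 M1 Q S fQ fS : Z2 → X) : Prop where
  spd : SPD O Λ l m L0 L1 M0 M1 φ
  cl : SCyl O (Reg Λ l m) φ l (-l) q fQ L0 L1 Q
  cm : SCyl O (Reg Λ l m) φ m 0 s fS M0 M1 S

theorem HasC.cc {O : PO X} {Λ : AddSubgroup Z2} {l q m s : Z2} (h : HasC O Λ l q m s)
    (hE : Emb Λ l m) (hlm : cr l m ≠ 0) : ∃ φ L0 L1 M0 M1 Q S fQ fS,
      CC O Λ l q m s φ L0 L1 M0 M1 Q S fQ fS := by
  obtain ⟨L0, L1, M0, M1, Q, S, φ, hS, ⟨a1, fQ, a2, a3, a4, a5, a6⟩,
    ⟨b1, fS, b2, b3, b4, b5, b6⟩⟩ := h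
  have e0 : ∀ y : V, y + em (0 : Z2) = y := fun y => by rw [em_zero, add_zero]
  have el : ∀ y : V, y + em (-l) = y - em l := fun y => by rw [em_neg', sub_eq_add_neg]
  refine ⟨φ, L0, L1, M0, M1, Q, S, fQ, fS, hS, ?_, ?_⟩
  · refine ⟨a1, a2, a3, a4, a5, a6, ?_, ?_, ?_, ?_⟩
    · intro y hy
      filter_upwards [hS.sL0 y hy] with y' h1 h2 z hz
      rw [el, ← sub_eq_add_neg]
      exact h1 h2 z hz
    · intro y hy
      filter_upwards [hS.sL1 y hy] with y' h1 h2 z hz
      rw [el, ← sub_eq_add_neg]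
      exact h1 h2 z hz
    · intro y hy
      filter_upwards [hE.regL hlm hy] with y' h1 h2
      rw [el]
      exact h1 h2
    · intro y hy hR
      refine (hR 0 Λ.zero_mem).1 ?_
      rw [em_zero, sub_zero]
      apply cseg_neg
      rw [el, sub_add_cancel]
      obtain ⟨t, t0, t1, rfl⟩ := hy
      exact ⟨t, t0.le, t1.le, rfl⟩
  · refine ⟨b1, b2, b3, b4, b5, b6, ?_, ?_, ?_, ?_⟩
    · intro y hy
      filter_upwards [hS.sM0 y hy] with y' h1 h2 z hz
      rw [e0, add_zero]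
      exact h1 h2 z hz
    · intro y hy
      filter_upwards [hS.sM1 y hy] with y' h1 h2 z hz
      rw [e0, add_zero]
      exact h1 h2 z hz
    · intro y hy
      filter_upwards [hE.regM hlm hy] with y' h1 h2
      rw [e0]
      exact h1 h2
    · intro y hy hR
      refine (hR 0 Λ.zero_mem).2 ?_
      rw [em_zero, sub_zero, add_zero]
      obtain ⟨t, t0, t1, rfl⟩ := hy
      exact ⟨t, t0.le, t1.le, rfl⟩

/-- the square `x` is covered at its point `c` -/
def CvX (Λ : AddSubgroup Z2) (l q m s : Z2) (φ : V → Z2 → X) (fQ fS : Z2 → X) (x : X) (c : V) :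
    Prop :=
  (∃ z, Reg Λ l m (em z + c) ∧ φ (em z + c) z = x) ∨ (∃ z, em z + c ∈ Pgm q l ∧ fQ z = x) ∨
    ∃ z, em z + c ∈ Pgm s m ∧ fS z = x

section

variable {O : PO X} {Λ : AddSubgroup Z2} {l q m s : Z2} {φ : V → Z2 → X}
  {L0 L1 M0 M1 Q S fQ fS : Z2 → X}

theorem CC.lne (h : CC O Λ l q m s φ L0 L1 M0 M1 Q S fQ fS) : l ≠ 0 := by
  rintro rfl
  have := h.cl.ba
  rw [cr_zero'] at this
  exact lt_irrefl _ this

theorem CC.mne (h : CC O Λ l q m s φ L0 L1 M0 M1 Q S fQ fS) : m ≠ 0 := by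
  rintro rfl
  have := h.cm.ba
  rw [cr_zero'] at this
  exact lt_irrefl _ this

/-- one class of the torus -/
theorem CC.closed1 (h : CC O Λ l q m s φ L0 L1 M0 M1 Q S fQ fS) (z0 : Z2) {c : V}
    (hc : c ∈ Qs) : ∀ᶠ c' in 𝓝 c, c' ∈ Qs → Reg Λ l m (em z0 + c') →
      CvX Λ l q m s φ fQ fS (φ (em z0 + c') z0) c := by
  by_cases hR : Reg Λ l m (em z0 + c)
  · filter_upwards [ev_em (h.spd.lc _ hR)] with c' h1 hc' _
    exact Or.inl ⟨z0, hR, (h1 z0 (Qs_nr hc' z0)).symm⟩
  · unfold Reg at hR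
    push Not at hR
    obtain ⟨c1, hc1, h1⟩ := hR
    by_cases h2 : em z0 + c - em c1 ∈ CSeg (-l) 0
    · have ew : em (z0 - c1 + l) + c = em z0 + c - em c1 + em l := by
        ext <;> simp [em] <;> ring
      have hw : em (z0 - c1 + l) + c ∈ Seg 0 l := by
        refine cseg_seg ?_ (Qs_lattice hc _ _) (Qs_lattice hc _ _)
        obtain ⟨t, t0, t1, ht⟩ := h2
        refine ⟨t, t0, t1, ?_⟩
        rw [ew, ht]
        ext <;> simp [em] <;> ring
      filter_upwards [h.cl.closed hw hc] with c' h3 hc' hR'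
      have ec : em (z0 - c1 + l) + c' + em (-l) = em z0 + c' - em c1 := by
        ext <;> simp [em] <;> ring
      have ez : z0 - c1 + l + -l = z0 - c1 := by abel
      rw [ec, ez] at h3
      have hR2 := reg_sub hR' hc1
      obtain ⟨z', k1, k2⟩ := h3 hc' hR2 _ rfl
      refine Or.inr (Or.inl ⟨z', k1, ?_⟩)
      rw [k2]
      have := h.spd.per _ hR2 c1 hc1 (z0 - c1) ((nr_sub _ z0 c1).2 (Qs_nr hc' z0))
      rwa [sub_add_cancel, sub_add_cancel, eq_comm] at this
    · have h4 := h1 h2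
      have ew : em (z0 - c1) + c = em z0 + c - em c1 := by
        ext <;> simp [em] <;> ring
      have hw : em (z0 - c1) + c ∈ Seg 0 m := by
        refine cseg_seg ?_ (Qs_lattice hc _ _) (Qs_lattice hc _ _)
        rw [ew]
        exact h4
      filter_upwards [h.cm.closed hw hc] with c' h3 hc' hR'
      have ec : em (z0 - c1) + c' + em 0 = em z0 + c' - em c1 := by
        ext <;> simp [em] <;> ring
      have ez : z0 - c1 + 0 = z0 - c1 := by abel
      rw [ec, ez] at h3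
      have hR2 := reg_sub hR' hc1
      obtain ⟨z', k1, k2⟩ := h3 hc' hR2 _ rfl
      refine Or.inr (Or.inr ⟨z', k1, ?_⟩)
      rw [k2]
      have := h.spd.per _ hR2 c1 hc1 (z0 - c1) ((nr_sub _ z0 c1).2 (Qs_nr hc' z0))
      rwa [sub_add_cancel, sub_add_cancel, eq_comm] at this

theorem CC.closed (h : CC O Λ l q m s φ L0 L1 M0 M1 Q S fQ fS) [Finite (Z2 ⧸ Λ)] {c : V}
    (hc : c ∈ Qs) : ∀ᶠ c' in 𝓝 c, c' ∈ Qs → ∀ x, CvX Λ l q m s φ fQ fS x c' →
      CvX Λ l q m s φ fQ fS x c := by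
  have h1 : ∀ᶠ c' in 𝓝 c, ∀ κ : Z2 ⧸ Λ, c' ∈ Qs → Reg Λ l m (em κ.out + c') →
      CvX Λ l q m s φ fQ fS (φ (em κ.out + c') κ.out) c :=
    Filter.eventually_all.2 (fun κ => h.closed1 κ.out hc)
  filter_upwards [h1, pgm_closed l q hc, pgm_closed m s hc] with c' k1 k2 k3 hc' x hx
  rcases hx with ⟨z, g1, g2⟩ | ⟨z, g1, g2⟩ | ⟨z, g1, g2⟩
  · obtain ⟨z0, hz0⟩ : ∃ z0 : Z2, z0 = (QuotientAddGroup.mk z : Z2 ⧸ Λ).out := ⟨_, rfl⟩
    have hmem : z - z0 ∈ Λ := by
      have : (QuotientAddGroup.mk z0 : Z2 ⧸ Λ) = QuotientAddGroup.mk z := by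
        rw [hz0]; exact QuotientAddGroup.out_eq' _
      rw [QuotientAddGroup.eq] at this
      rwa [sub_eq_neg_add]
    have ey : em z + c' - em (z - z0) = em z0 + c' := by
      ext <;> simp [em] <;> ring
    have hR := reg_sub g1 hmem
    rw [ey] at hR
    have hp := h.spd.per _ hR (z - z0) hmem z0 (Qs_nr hc' z0)
    have e1 : em z0 + c' + em (z - z0) = em z + c' := by rw [← ey, sub_add_cancel]
    have e2 : z0 + (z - z0) = z := by abel
    rw [e1, e2, g2] at hp
    rw [hp, hz0]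
    exact k1 _ hc' (by rw [← hz0]; exact hR)
  · exact Or.inr (Or.inl ⟨z, k2 z g1, g2⟩)
  · exact Or.inr (Or.inr ⟨z, k3 z g1, g2⟩)

theorem CC.open (h : CC O Λ l q m s φ L0 L1 M0 M1 Q S fQ fS) {c : V} (hc : c ∈ Qs) {x : X}
    (hx : CvX Λ l q m s φ fQ fS x c) :
    ∀ᶠ c' in 𝓝 c, c' ∈ Qs → CvX Λ l q m s φ fQ fS x c' := by
  rcases hx with ⟨z, g1, g2⟩ | ⟨z, g1, g2⟩ | ⟨z, g1, g2⟩
  · filter_upwards [ev_em (h.spd.lc _ g1), ev_em (ev_reg h.lne h.mne g1)] with c' k1 k2 hc'
    exact Or.inl ⟨z, k2, by rw [k1 z (Qs_nr hc' z), g2]⟩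
  · filter_upwards [h.cl.open hc g1 g2] with c' k1 hc'
    rcases k1 hc' with ⟨z', k⟩ | ⟨z', k⟩
    · exact Or.inr (Or.inl ⟨z', k⟩)
    · exact Or.inl ⟨z', k⟩
  · filter_upwards [h.cm.open hc g1 g2] with c' k1 hc'
    rcases k1 hc' with ⟨z', k⟩ | ⟨z', k⟩
    · exact Or.inr (Or.inr ⟨z', k⟩)
    · exact Or.inl ⟨z', k⟩

/-- a square covered at one point is covered at all points -/
theorem CC.all (h : CC O Λ l q m s φ L0 L1 M0 M1 Q S fQ fS) [Finite (Z2 ⧸ Λ)] {c c' : V}
    (hc : c ∈ Qs) (hc' : c' ∈ Qs) {x : X} (hx : CvX Λ l q m s φ fQ fS x c) :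
    CvX Λ l q m s φ fQ fS x c' := by
  refine qs_const (P := CvX Λ l q m s φ fQ fS x) ?_ hc hc' hx
  intro c hc
  by_cases hx : CvX Λ l q m s φ fQ fS x c
  · filter_upwards [h.open hc hx] with c' h1 hc'
    exact ⟨fun _ => hx, fun _ => h1 hc'⟩
  · filter_upwards [h.closed hc] with c' h1 hc'
    exact ⟨fun h2 => h1 hc' x h2, fun h2 => absurd h2 hx⟩

theorem q1mem : ((1, 1 / 2) : V) ∈ Qs := by
  refine ⟨?_, ?_, ?_, ?_, Or.inr ⟨?_, ?_⟩⟩ <;> norm_num

theorem q0mem : ((0, 1 / 2) : V) ∈ Qs := by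
  refine ⟨?_, ?_, ?_, ?_, Or.inr ⟨?_, ?_⟩⟩ <;> norm_num

theorem q1mem' : ((1 / 2, 1) : V) ∈ Qs := by
  refine ⟨?_, ?_, ?_, ?_, Or.inl ⟨?_, ?_⟩⟩ <;> norm_num

theorem q0mem' : ((1 / 2, 0) : V) ∈ Qs := by
  refine ⟨?_, ?_, ?_, ?_, Or.inl ⟨?_, ?_⟩⟩ <;> norm_num

theorem CC.right (h : CC O Λ l q m s φ L0 L1 M0 M1 Q S fQ fS) {x : X}
    (hx : CvX Λ l q m s φ fQ fS x (1, 1 / 2)) : CvX Λ l q m s φ fQ fS (O.r x) (0, 1 / 2) := by
  have e : ∀ z : Z2, em z + ((1, 1 / 2) : V) = em (z + (1, 0)) + (0, 1 / 2) := by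
    intro z
    ext <;> simp [em]
  have n1 : ∀ z : Z2, Nr (em z + ((1, 1 / 2) : V)) z := fun z => Qs_nr q1mem z
  have n2 : ∀ z : Z2, Nr (em z + ((1, 1 / 2) : V)) (z + (1, 0)) := fun z => by
    rw [e]; exact Qs_nr q0mem _
  rcases hx with ⟨z, g1, g2⟩ | ⟨z, g1, g2⟩ | ⟨z, g1, g2⟩
  · refine Or.inl ⟨z + (1, 0), by rw [← e]; exact g1, ?_⟩
    rw [← e, (h.spd.dev _ g1).1 z (n1 z) (n2 z), g2]
  · refine Or.inr (Or.inl ⟨z + (1, 0), by rw [← e]; exact g1, ?_⟩)
    rw [(h.cl.dev _ g1).1 z (n1 z) (n2 z), g2]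
  · refine Or.inr (Or.inr ⟨z + (1, 0), by rw [← e]; exact g1, ?_⟩)
    rw [(h.cm.dev _ g1).1 z (n1 z) (n2 z), g2]

theorem CC.up (h : CC O Λ l q m s φ L0 L1 M0 M1 Q S fQ fS) {x : X}
    (hx : CvX Λ l q m s φ fQ fS x (1 / 2, 1)) : CvX Λ l q m s φ fQ fS (O.u x) (1 / 2, 0) := by
  have e : ∀ z : Z2, em z + ((1 / 2, 1) : V) = em (z + (0, 1)) + (1 / 2, 0) := by
    intro z
    ext <;> simp [em]
  have n1 : ∀ z : Z2, Nr (em z + ((1 / 2, 1) : V)) z := fun z => Qs_nr q1mem' z
  have n2 : ∀ z : Z2, Nr (em z + ((1 / 2, 1) : V)) (z + (0, 1)) := fun z => by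
    rw [e]; exact Qs_nr q0mem' _
  rcases hx with ⟨z, g1, g2⟩ | ⟨z, g1, g2⟩ | ⟨z, g1, g2⟩
  · refine Or.inl ⟨z + (0, 1), by rw [← e]; exact g1, ?_⟩
    rw [← e, (h.spd.dev _ g1).2 z (n1 z) (n2 z), g2]
  · refine Or.inr (Or.inl ⟨z + (0, 1), by rw [← e]; exact g1, ?_⟩)
    rw [(h.cl.dev _ g1).2 z (n1 z) (n2 z), g2]
  · refine Or.inr (Or.inr ⟨z + (0, 1), by rw [← e]; exact g1, ?_⟩)
    rw [(h.cm.dev _ g1).2 z (n1 z) (n2 z), g2]

end

end Pool.Agent.H4G.Six
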