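import Pool.Agent.H4G.Six.Can.Sv

/-!
# The sieve for pairs of linear forms (helper2)

Along a line of exits the contents of the new tori at the new slit vector and the common divisor of
the areas are gcd's of two linear forms in the parameter. If the resultants are not zero and there
is no obstruction at a prime, a short window contains a parameter with all gcd's equal to 1.
-/

set_option autoImplicit false

namespace Pool.Agent.H4G.Six

open Pool.Agent.H4G

/-- the pair `(a z + b, c z + d)` seen at the prime `p`: one linear condition -/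
noncomputable def prA (p : ℕ) (a b c d : ℤ) : ℤ := by
  classical
  exact if (p : ℤ) ∣ a * d - b * c then (if (p : ℤ) ∣ a then (if (p : ℤ) ∣ c then 0 else c) else a)
    else 0

/-- the pair `(a z + b, c z + d)` seen at the prime `p`: one linear condition -/
noncomputable def prB (p : ℕ) (a b c d : ℤ) : ℤ := by
  classical
  exact if (p : ℤ) ∣ a * d - b * c then (if (p : ℤ) ∣ a then (if (p : ℤ) ∣ c then 1 else d) else b)
    else 1

/-- outside of the constant case the linear condition is the condition on the pair -/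
theorem pr_iff {p : ℕ} (hp : p.Prime) {a b c d z : ℤ}
    (hc : (p : ℤ) ∣ a → (p : ℤ) ∣ c → (p : ℤ) ∣ b → ¬ (p : ℤ) ∣ d) :
    (p : ℤ) ∣ prA p a b c d * z + prB p a b c d ↔
      ((p : ℤ) ∣ a * z + b ∧ (p : ℤ) ∣ c * z + d) := by
  have hpp := Nat.prime_iff_prime_int.1 hp
  have n1 : ¬ (p : ℤ) ∣ 1 := prime_not_dvd_one hp
  unfold prA prB
  by_cases hR : (p : ℤ) ∣ a * d - b * c
  · simp only [hR, if_true]
    by_cases ha : (p : ℤ) ∣ a
    · by_cases hcc : (p : ℤ) ∣ c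
      · simp only [ha, hcc, if_true, zero_mul, zero_add]
        constructor
        · intro h; exact absurd h n1
        · rintro ⟨h1, h2⟩
          exact absurd ((dvd_add_right (hcc.mul_right z)).1 h2)
            (hc ha hcc ((dvd_add_right (ha.mul_right z)).1 h1))
      · simp only [ha, hcc, if_true, if_false]
        constructor
        · intro h
          refine ⟨?_, h⟩
          -- `c (a z + b) = a (c z + d) - (a d - b c)`
          have h1 : (p : ℤ) ∣ c * (a * z + b) := by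
            have e : c * (a * z + b) = a * (c * z + d) - (a * d - b * c) := by ring
            rw [e]; exact dvd_sub (h.mul_left _) hR
          exact (hpp.dvd_or_dvd h1).resolve_left hcc
        · exact fun h => h.2
    · simp only [ha, if_false]
      constructor
      · intro h
        refine ⟨h, ?_⟩
        have h1 : (p : ℤ) ∣ a * (c * z + d) := by
          have e : a * (c * z + d) = c * (a * z + b) + (a * d - b * c) := by ring
          rw [e]; exact dvd_add (h.mul_left _) hR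
        exact (hpp.dvd_or_dvd h1).resolve_left ha
      · exact fun h => h.1
  · simp only [hR, if_false, zero_mul, zero_add]
    constructor
    · intro h; exact absurd h n1
    · rintro ⟨h1, h2⟩
      exfalso; apply hR
      have e : a * d - b * c = a * (c * z + d) - c * (a * z + b) := by ring
      rw [e]; exact dvd_sub (h2.mul_left _) (h1.mul_left _)

/-- the two coefficients of the linear condition are coprime to each other at `p` -/
theorem pr_dvd {p : ℕ} (hp : p.Prime) {a b c d : ℤ} (h : (p : ℤ) ∣ prA p a b c d) : ¬ (p : ℤ) ∣ prB p a b c d := by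
  intro h2
  have n1 : ¬ (p : ℤ) ∣ 1 := prime_not_dvd_one hp
  unfold prA at h
  unfold prB at h2
  by_cases hR : (p : ℤ) ∣ a * d - b * c
  · simp only [hR, if_true] at h h2
    by_cases ha : (p : ℤ) ∣ a
    · by_cases hcc : (p : ℤ) ∣ c
      · rw [if_pos ha, if_pos hcc] at h2; exact n1 h2
      · rw [if_pos ha, if_neg hcc] at h; exact hcc h
    · rw [if_neg ha] at h; exact ha h
  · rw [if_neg hR] at h2; exact n1 h2

/-- the resultant contains every common prime of the two forms -/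
theorem pr_res {p : ℕ} {a b c d z : ℤ} (h1 : (p : ℤ) ∣ a * z + b) (h2 : (p : ℤ) ∣ c * z + d) :
    (p : ℤ) ∣ a * d - b * c := by
  have e : a * d - b * c = a * (c * z + d) - c * (a * z + b) := by ring
  rw [e]; exact dvd_sub (h2.mul_left _) (h1.mul_left _)

/-- **PAIR SIEVE** -/
theorem sievePair {k J X e : ℕ} {D0 : ℤ} (hcap : Cap J X) (hD : 0 < D0) (hX : D0 ≤ (X : ℤ))
    (hk : k ≤ 2 * e) (a b c d : Fin k → ℤ) (hres : ∀ i, a i * d i - b i * c i ∣ D0)
    (hloc : ∀ p : ℕ, p.Prime → (p : ℤ) ∣ D0 →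
      (k < p ∧ ∀ i, (p : ℤ) ∣ a i → (p : ℤ) ∣ c i → (p : ℤ) ∣ b i → ¬ (p : ℤ) ∣ d i) ∨
      ∃ y : ℤ, ∀ i, (p : ℤ) ∣ a i * y + b i → ¬ (p : ℤ) ∣ c i * y + d i) (z0 : ℤ) :
    ∃ z, z0 ≤ z ∧ z < z0 + (J : ℤ) ^ e ∧ ∀ i, IsCoprime (a i * z + b i) (c i * z + d i) := by
  have hX' : D0.natAbs ≤ X := by omega
  have hcst : ∀ p : ℕ, p.Prime → (p : ℤ) ∣ D0 →
      ∀ i, (p : ℤ) ∣ a i → (p : ℤ) ∣ c i → (p : ℤ) ∣ b i → ¬ (p : ℤ) ∣ d i := by
    intro p hp hpD i h1 h2 h3 h4
    rcases hloc p hp hpD with ⟨-, h⟩ | ⟨y, hy⟩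
    · exact h i h1 h2 h3 h4
    · exact hy i (dvd_add (h1.mul_right _) h3) (dvd_add (h2.mul_right _) h4)
  obtain ⟨z, h1, h2, h3⟩ := sieveLin hcap (D := D0.natAbs) (by omega) hX' hk
    (fun p i => prA p (a i) (b i) (c i) (d i)) (fun p i => prB p (a i) (b i) (c i) (d i))
    (fun p hp hpD => by
      have hpD' : (p : ℤ) ∣ D0 := Int.natCast_dvd.2 hpD
      rcases hloc p hp hpD' with ⟨hk', h⟩ | ⟨y, hy⟩
      · exact Or.inl ⟨hk', fun i => pr_dvd hp⟩
      · refine Or.inr ⟨y, fun i hd => ?_⟩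
        obtain ⟨e1, e2⟩ := (pr_iff hp (hcst p hp hpD' i)).1 hd
        exact hy i e1 e2) z0
  refine ⟨z, h1, h2, fun i => ?_⟩
  refine isCoprime_of_prime fun p hp hd hb => ?_
  have hpD : (p : ℤ) ∣ D0 := (pr_res hb hd).trans (hres i)
  exact h3 p hp (Int.natCast_dvd.1 hpD) i ((pr_iff hp (hcst p hp hpD i)).2 ⟨hb, hd⟩)

/-- **PAIR SIEVE** with a class modulo `m` -/
theorem sievePairQ {k J X e : ℕ} {D0 : ℤ} (hcap : Cap J X) (hD : 0 < D0) (hX : D0 ≤ (X : ℤ))
    (hk : k ≤ 2 * e) (a b c d : Fin k → ℤ) {m : ℤ} (hm : 0 < m) (r : ℤ)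
    (hres : ∀ i, a i * d i - b i * c i ∣ D0)
    (hloc : ∀ p : ℕ, p.Prime → (p : ℤ) ∣ D0 → ¬ (p : ℤ) ∣ m →
      (k < p ∧ ∀ i, (p : ℤ) ∣ a i → (p : ℤ) ∣ c i → (p : ℤ) ∣ b i → ¬ (p : ℤ) ∣ d i) ∨
      ∃ y : ℤ, ∀ i, (p : ℤ) ∣ a i * y + b i → ¬ (p : ℤ) ∣ c i * y + d i)
    (hlm : ∀ p : ℕ, p.Prime → (p : ℤ) ∣ D0 → (p : ℤ) ∣ m → ∀ i,
      (p : ℤ) ∣ a i * r + b i → ¬ (p : ℤ) ∣ c i * r + d i) (z0 : ℤ) :
    ∃ z, z0 ≤ z ∧ z < z0 + m * (J : ℤ) ^ e ∧ m ∣ z - r ∧
      ∀ i, IsCoprime (a i * z + b i) (c i * z + d i) := by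
  have hX' : D0.natAbs ≤ X := by omega
  have hcst : ∀ p : ℕ, p.Prime → (p : ℤ) ∣ D0 →
      ∀ i, (p : ℤ) ∣ a i → (p : ℤ) ∣ c i → (p : ℤ) ∣ b i → ¬ (p : ℤ) ∣ d i := by
    intro p hp hpD i h1 h2 h3 h4
    by_cases hpm : (p : ℤ) ∣ m
    · exact hlm p hp hpD hpm i (dvd_add (h1.mul_right _) h3) (dvd_add (h2.mul_right _) h4)
    · rcases hloc p hp hpD hpm with ⟨-, h⟩ | ⟨y, hy⟩
      · exact h i h1 h2 h3 h4
      · exact hy i (dvd_add (h1.mul_right _) h3) (dvd_add (h2.mul_right _) h4)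
  obtain ⟨z, h1, h2, h2', h3⟩ := sieveCls hcap (D := D0.natAbs) (by omega) hX' hk
    (fun p i => prA p (a i) (b i) (c i) (d i)) (fun p i => prB p (a i) (b i) (c i) (d i)) hm r
    (fun p hp hpD hpm => by
      have hpD' : (p : ℤ) ∣ D0 := Int.natCast_dvd.2 hpD
      rcases hloc p hp hpD' hpm with ⟨hk', h⟩ | ⟨y, hy⟩
      · exact Or.inl ⟨hk', fun i => pr_dvd hp⟩
      · refine Or.inr ⟨y, fun i hd => ?_⟩
        obtain ⟨e1, e2⟩ := (pr_iff hp (hcst p hp hpD' i)).1 hd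
        exact hy i e1 e2)
    (fun p hp hpD hpm i hd => by
      have hpD' : (p : ℤ) ∣ D0 := Int.natCast_dvd.2 hpD
      obtain ⟨e1, e2⟩ := (pr_iff hp (hcst p hp hpD' i)).1 hd
      exact hlm p hp hpD' hpm i e1 e2) z0
  refine ⟨z, h1, h2, h2', fun i => ?_⟩
  refine isCoprime_of_prime fun p hp hd hb => ?_
  have hpD : (p : ℤ) ∣ D0 := (pr_res hb hd).trans (hres i)
  exact h3 p hp (Int.natCast_dvd.1 hpD) i ((pr_iff hp (hcst p hp hpD i)).2 ⟨hb, hd⟩)

/-- a product of `k` resultants which are not zero and at most `B` in absolute value -/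
theorem exists_D0 {k : ℕ} (R : Fin k → ℤ) (hR : ∀ i, R i ≠ 0) {B : ℤ} (hB : ∀ i, |R i| ≤ B) :
    ∃ D0 : ℤ, 0 < D0 ∧ D0 ≤ B ^ k ∧ ∀ i, R i ∣ D0 := by
  refine ⟨∏ i, |R i|, Finset.prod_pos (fun i _ => abs_pos.2 (hR i)), ?_, fun i => ?_⟩
  · calc ∏ i, |R i| ≤ ∏ _i : Fin k, B :=
          Finset.prod_le_prod (fun i _ => abs_nonneg _) (fun i _ => hB i)
      _ = B ^ k := by simp
  · exact ((dvd_abs _ _).2 (dvd_refl _)).trans (Finset.dvd_prod_of_mem _ (Finset.mem_univ i))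

end Pool.Agent.H4G.Six
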