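import Pool.Agent.H4G.Six.Can.Ev4
import Pool.Agent.H4G.Six.Can.Can

/-!
# States with contents 1 are generic states (helper2)

If `u × L = ℤ` and `u × M = ℤ`, then the state `(L, M, u, v)` is one of the states `PG A a a1 z`.
-/

set_option autoImplicit false

namespace Pool.Agent.H4G.Six

open Pool.Agent.H4G

theorem cop_of_cr1 {u y : Z2} (h : cr u y = 1) : IsCoprime y.1 y.2 :=
  ⟨-u.2, u.1, by
    have : u.1 * y.2 - u.2 * y.1 = 1 := h
    linarith⟩

theorem cop_of_cr1' {u y : Z2} (h : cr u y = 1) : IsCoprime u.1 u.2 :=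
  ⟨y.2, -y.1, by
    have : u.1 * y.2 - u.2 * y.1 = 1 := h
    linarith⟩

/-- a lattice of content 1 at `u` is cocyclic -/
theorem lat_of_content {u l p : Z2} (h : IsCoprime (cr u l) (cr u p)) :
    ∃ y : Z2, cr u y = 1 ∧ y ∈ lat l p ∧ lat l p = Ld y (cr p l) := by
  obtain ⟨i, j, hij⟩ := h
  have h1 : cr u (i • l + j • p) = 1 := by
    rw [cr_add_right, cr_smul_right, cr_smul_right]; linarith
  refine ⟨i • l + j • p, h1, mem_lat.2 ⟨i, j, rfl⟩, ?_⟩
  have e1 : lat (i • l + j • p) ((-cr u p) • l + cr u l • p) = lat l p := by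
    refine closure_pair_eq (α := i) (β := j) (γ := -cr u p) (δ := cr u l) rfl rfl (Or.inl ?_)
    linarith
  have e2 : cr ((-cr u p) • l + cr u l • p) (i • l + j • p) = cr p l := by
    simp only [cr_add_left, cr_add_right, cr_smul_left, cr_smul_right, cr_self]
    have hlp : cr l p = -cr p l := by simp only [cr]; ring
    rw [hlp]
    linear_combination cr p l * hij
  rw [← e1, lat_eq_Ld (cop_of_cr1 h1), e2]

/-- **a state with both contents 1 is a generic state** -/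
theorem seq_PG {u v l p m p' : Z2} {z : ℤ} (h0 : 0 < cr u v) (hl : IsCoprime (cr u l) (cr u p))
    (hm : IsCoprime (cr u m) (cr u p')) (ha : 1 < cr p l) (ha1 : 1 < cr p' m)
    (hz : ∀ y ∈ lat l p, ∀ y' ∈ lat m p', cr u y = 1 → cr u y' = 1 →
      (Int.gcd (cr p l) (cr p' m) : ℤ) ∣ z + cr y y') :
    SEq6 ⟨lat l p, lat m p', u, v⟩ (PG (cr u v) (cr p l) (cr p' m) z) := by
  obtain ⟨y, hy1, hy2, hy3⟩ := lat_of_content hl
  obtain ⟨y', hy1', hy2', hy3'⟩ := lat_of_content hm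
  have h := GS.gen (z := z) (cop_of_cr1' hy1) h0 (cop_of_cr1 hy1) (by rw [hy1]; norm_num)
    (by rw [hy1]; exact ha) (cop_of_cr1 hy1') (by rw [hy1']; norm_num) (by rw [hy1']; exact ha1)
    (by rw [hy1]; exact isCoprime_one_left) (by rw [hy1']; exact isCoprime_one_left)
    (by rw [hy1, hy1']; simpa using hz y hy2 y' hy2' hy1 hy1')
  rw [hy3, hy3']
  exact h

/-- coprime areas -/
theorem seq_PG_cop {u v l p m p' : Z2} (h0 : 0 < cr u v) (hl : IsCoprime (cr u l) (cr u p))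
    (hm : IsCoprime (cr u m) (cr u p')) (ha : 1 < cr p l) (ha1 : 1 < cr p' m)
    (hc : IsCoprime (cr p l) (cr p' m)) :
    SEq6 ⟨lat l p, lat m p', u, v⟩ (PG (cr u v) (cr p l) (cr p' m) 0) ∧
      Gd (cr u v + cr p l + cr p' m) (cr u v) (cr p l) (cr p' m) := by
  refine ⟨seq_PG h0 hl hm ha ha1 ?_, ⟨h0, ha, ha1, rfl, hc⟩⟩
  intro y _ y' _ _ _
  rw [Int.isCoprime_iff_gcd_eq_one.1 hc]
  simp

/-- areas with common divisor 2: the lattices differ modulo 2 -/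
theorem seq_PG_two {u v l p m p' : Z2} (h0 : 0 < cr u v) (hA : (2 : ℤ) ∣ cr u v)
    (hl : IsCoprime (cr u l) (cr u p)) (hm : IsCoprime (cr u m) (cr u p')) (ha : 0 < cr p l)
    (ha1 : 0 < cr p' m) (hb : 3 < cr p l ∨ 3 < cr p' m) (hc : G2 (cr p l) (cr p' m))
    (hd : ∃ y ∈ lat l p, ∃ y' ∈ lat m p', cr u y = 1 ∧ cr u y' = 1 ∧ ¬ (2 : ℤ) ∣ cr y y') :
    SEq6 ⟨lat l p, lat m p', u, v⟩ (PG (cr u v) (cr p l) (cr p' m) 1) ∧
      GdE (cr u v + cr p l + cr p' m) (cr u v) (cr p l) (cr p' m) := by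
  have hG : GdE (cr u v + cr p l + cr p' m) (cr u v) (cr p l) (cr p' m) :=
    ⟨h0, hA, ha, ha1, rfl, hc, hb⟩
  refine ⟨seq_PG h0 hl hm hG.a1 hG.a1' ?_, hG⟩
  obtain ⟨y0, hy0, y0', hy0', e1, e2, h2⟩ := hd
  intro y hy y' hy' e3 e4
  refine hc.dvd ?_
  obtain ⟨w, hw1, _, hw3⟩ := lat_of_content hl
  obtain ⟨w', hw1', _, hw3'⟩ := lat_of_content hm
  -- differences are multiples of `u`
  have key : ∀ (a : ℤ) (x x0 w : Z2), (2 : ℤ) ∣ a → cr u w = 1 → x ∈ Ld w a → x0 ∈ Ld w a →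
      cr u x = 1 → cr u x0 = 1 → ∃ n : ℤ, x = x0 + (2 * n) • u := by
    intro a x x0 w ha2 hw hx hx0 hx1 hx01
    have hu := cop_of_cr1' hx1
    have h3 : cr (x - x0) u = 0 := by
      have h4 : cr (x - x0) u = -(cr u x - cr u x0) := by
        simp only [cr, Prod.fst_sub, Prod.snd_sub]; ring
      rw [h4, hx1, hx01]; ring
    obtain ⟨k, hk⟩ := par_prim hu h3
    have h5 : a ∣ cr (x - x0) w := (Ld w a).sub_mem hx hx0
    rw [hk, cr_smul_left, hw, mul_one] at h5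
    obtain ⟨n, hn⟩ := ha2.trans h5
    exact ⟨n, by rw [← hn, ← hk]; abel⟩
  rw [hw3] at hy hy0
  rw [hw3'] at hy' hy0'
  have ha2 : (2 : ℤ) ∣ cr p l := hc.e
  have ha2' : (2 : ℤ) ∣ cr p' m := hc.e'
  obtain ⟨n, hn⟩ := key _ y y0 w ha2 hw1 hy hy0 e3 e1
  obtain ⟨n', hn'⟩ := key _ y' y0' w' ha2' hw1' hy' hy0' e4 e2
  have e5 : cr y y' = cr y0 y0' + 2 * (n * cr u y0' + n' * cr y0 u) := by
    rw [hn, hn']
    simp only [cr_add_left, cr_add_right, cr_smul_left, cr_smul_right, cr_self]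
    ring
  rw [e5]
  omega

end Pool.Agent.H4G.Six
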