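import Pool.Agent.H4G.Six.BExit
import Pool.Agent.H4G.Six.NR.Cen

/-!
# Exits of a general tree with their contents (formulas (F), (T) of helper6; typed by helper2)

`(l, p)`, `p = u + q`, is a basis of `L`. For `l₁ = y l + x p` the content of the new tree over `z` is
`cont (z × ⟨l + x u, p - y u⟩)`, and the same for `M`.
-/

set_option autoImplicit false

namespace Pool.Agent.H4G.Six

open Pool.Agent.H4G

variable {X : Type} {O : PO X} {N : ℤ} {u v l q m s l1 q1 m1 s1 z : Z2}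

/-- gcd's and unimodular transformations -/
theorem gcd_unimod {a b a' b' x y x2 y2 : ℤ} (h : x2 * y - y2 * x = 1) (h1 : a' = y * a + x * b)
    (h2 : b' = y2 * a + x2 * b) : Int.gcd a' b' = Int.gcd a b := by
  apply Nat.dvd_antisymm
  · rw [← Int.natCast_dvd_natCast]
    have d1 : (Int.gcd a' b' : ℤ) ∣ a' := Int.gcd_dvd_left ..
    have d2 : (Int.gcd a' b' : ℤ) ∣ b' := Int.gcd_dvd_right ..
    refine Int.dvd_coe_gcd ?_ ?_
    · have : a = x2 * a' - x * b' := by
        rw [h1, h2]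
        linear_combination (-a) * h
      rw [this]
      exact dvd_sub (d1.mul_left _) (d2.mul_left _)
    · have : b = y * b' - y2 * a' := by
        rw [h1, h2]
        linear_combination (-b) * h
      rw [this]
      exact dvd_sub (d2.mul_left _) (d1.mul_left _)
  · rw [← Int.natCast_dvd_natCast]
    have d1 : (Int.gcd a b : ℤ) ∣ a := Int.gcd_dvd_left ..
    have d2 : (Int.gcd a b : ℤ) ∣ b := Int.gcd_dvd_right ..
    refine Int.dvd_coe_gcd ?_ ?_
    · rw [h1]
      exact dvd_add (d1.mul_left _) (d2.mul_left _)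
    · rw [h2]
      exact dvd_add (d1.mul_left _) (d2.mul_left _)

/-- **(F)** the content over `z` -/
theorem ct_exit {x y x2 y2 : ℤ} (h : x2 * y - y2 * x = 1) (hl : l1 = y • l + x • (u + q))
    (hq : q1 = y2 • l + x2 • (u + q) - u) :
    ct z l1 q1 = Int.gcd (cr z (l + x • u)) (cr z (u + q - y • u)) := by
  unfold ct
  congr 1
  refine gcd_unimod h ?_ ?_
  · rw [hl]
    simp only [cr, Prod.fst_add, Prod.snd_add, Prod.fst_sub, Prod.snd_sub, Prod.smul_fst,
      Prod.smul_snd, smul_eq_mul]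
    ring
  · rw [hq]
    have e : cr z (y2 • l + x2 • (u + q) - u) = y2 * cr z l + x2 * cr z (u + q) - cr z u := by
      simp only [cr, Prod.fst_add, Prod.snd_add, Prod.fst_sub, Prod.snd_sub, Prod.smul_fst,
        Prod.smul_snd, smul_eq_mul]
      ring
    have e1 : cr z (l + x • u) = cr z l + x * cr z u := by
      simp only [cr, Prod.fst_add, Prod.snd_add, Prod.smul_fst, Prod.smul_snd, smul_eq_mul]
      ring
    have e2 : cr z (u + q - y • u) = cr z (u + q) - y * cr z u := by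
      simp only [cr, Prod.fst_add, Prod.snd_add, Prod.fst_sub, Prod.snd_sub, Prod.smul_fst,
        Prod.smul_snd, smul_eq_mul]
      ring
    rw [e, e1, e2]
    linear_combination cr z u * h

/-- **THE EXIT** of a general tree, with the contents, the areas and the lattices -/
theorem Has6.exitF (hT : Has6 O (u, v, l, q, m, s)) {x y x' y' i j : ℤ} (hxy : IsCoprime y x)
    (hxy' : IsCoprime y' x') (hl : l1 = y • l + x • (u + q)) (hm : m1 = y' • m + x' • (u + s))
    (wl : 0 < cr u l1) (wl2 : cr u l1 < cr u l + cr q l)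
    (wm : 0 < cr u m1) (wm2 : cr u m1 < cr u m + cr s m)
    (hij : IsCoprime i j) (hz : z = i • u + j • (v + l1 + m1))
    (z1 : 0 < cr z l1) (z2 : 0 < cr z m1)
    (z3 : cr z l1 + cr z m1 < cr u v + cr u l1 + cr u m1) :
    ∃ v' q1 s1, Has6 O (z, v', l1, q1, m1, s1) ∧
      vol6 (z, v', l1, q1, m1, s1) = vol6 (u, v, l, q, m, s) ∧
      lat z (v' + l1 + m1) = lat u (v + l1 + m1) ∧
      lat l1 (u + q1) = lat l (u + q) ∧ lat m1 (u + s1) = lat m (u + s) ∧
      ct z l1 q1 = Int.gcd (cr z (l + x • u)) (cr z (u + q - y • u)) ∧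
      ct z m1 s1 = Int.gcd (cr z (m + x' • u)) (cr z (u + s - y' • u)) ∧
      cr z v' = cr u v + cr u l1 + cr u m1 - cr z l1 - cr z m1 ∧
      cr q1 l1 = cr u l + cr q l - cr u l1 ∧ cr s1 m1 = cr u m + cr s m - cr u m1 := by
  obtain ⟨x2, y2, h2⟩ := hxy
  obtain ⟨x2', y2', h2'⟩ := hxy'
  have k1 : x2 * y - (-y2) * x = 1 := by linarith
  have k1' : x2' * y' - (-y2') * x' = 1 := by linarith
  obtain ⟨q1, hq1⟩ : ∃ q1, q1 = (-y2) • l + x2 • (u + q) - u := ⟨_, rfl⟩
  obtain ⟨s1, hs1⟩ : ∃ s1, s1 = (-y2') • m + x2' • (u + s) - u := ⟨_, rfl⟩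
  obtain ⟨a1, a2⟩ := slit_compl k1 hl hq1
  obtain ⟨b1, b2⟩ := slit_compl k1' hm hs1
  obtain ⟨v', c1, c2, c3⟩ := hT.exitC k1 k1' hl hq1 hm hs1 wl wl2 wm wm2 hij hz z1 z2 z3
  refine ⟨v', q1, s1, c1, c2, c3, a1, b1, ct_exit k1 hl hq1, ct_exit k1' hm hs1, ?_, a2, b2⟩
  have e := c2
  simp only [vol6] at e
  rw [a2, b2] at e
  linarith

/-! ## The legal region -/

/-- the products of `z = w₀ + m₁`, `w₀ = v' + u + l₁`: with `π = v' × l₁`, `D = w₀ × m₁`,
`W = u × z` -/
theorem legal_products {v' w0 : Z2} (hw : w0 = v' + u + l1) (hz : z = w0 + m1) :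
    cr z m1 = cr w0 m1 ∧ cr u z = cr u v' + cr u l1 + cr u m1 ∧
      (cr u v' + cr u l1) * cr z l1 =
        (cr u l1 + cr v' l1) * cr u z - cr u l1 * cr w0 m1 ∧
      (cr u v' + cr u l1) * (cr u z - cr z l1 - cr z m1) =
        (cr u v' - cr v' l1) * cr u z - cr u v' * cr w0 m1 := by
  subst hw
  subst hz
  refine ⟨?_, ?_, ?_, ?_⟩ <;>
    simp only [cr, Prod.fst_add, Prod.snd_add] <;> ring

/-- **(T)** THE LEGAL REGION: `0 < D`, `F₁ D < (F₁ + π) W`, `A D < (A - π) W`. -/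
theorem Has6.exitT (hT : Has6 O (u, v, l, q, m, s)) {x y x' y' j : ℤ} (hxy : IsCoprime y x)
    (hxy' : IsCoprime y' x') (hl : l1 = y • l + x • (u + q)) (hm : m1 = y' • m + x' • (u + s))
    (wl : 0 < cr u l1) (wl2 : cr u l1 < cr u l + cr q l)
    (wm : 0 < cr u m1) (wm2 : cr u m1 < cr u m + cr s m)
    (hz : z = j • u + (v + l1 + m1))
    (t0 : 0 < cr (v + j • u + l1) m1)
    (t1 : cr u l1 * cr (v + j • u + l1) m1 <
      (cr u l1 + cr (v + (j - 1) • u) l1) * (cr u v + cr u l1 + cr u m1))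
    (t2 : cr u v * cr (v + j • u + l1) m1 <
      (cr u v - cr (v + (j - 1) • u) l1) * (cr u v + cr u l1 + cr u m1)) :
    ∃ v' q1 s1, Has6 O (z, v', l1, q1, m1, s1) ∧
      vol6 (z, v', l1, q1, m1, s1) = vol6 (u, v, l, q, m, s) ∧
      lat z (v' + l1 + m1) = lat u (v + l1 + m1) ∧
      lat l1 (u + q1) = lat l (u + q) ∧ lat m1 (u + s1) = lat m (u + s) ∧
      ct z l1 q1 = Int.gcd (cr z (l + x • u)) (cr z (u + q - y • u)) ∧
      ct z m1 s1 = Int.gcd (cr z (m + x' • u)) (cr z (u + s - y' • u)) ∧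
      cr z v' = cr u v + cr u l1 + cr u m1 - cr z l1 - cr z m1 ∧
      cr q1 l1 = cr u l + cr q l - cr u l1 ∧ cr s1 m1 = cr u m + cr s m - cr u m1 := by
  have p := hT.pos
  have hv : cr u (v + (j - 1) • u) = cr u v := by
    simp only [cr, Prod.fst_add, Prod.snd_add, Prod.smul_fst, Prod.smul_snd, smul_eq_mul]
    ring
  obtain ⟨w0, hw⟩ : ∃ w0, w0 = v + (j - 1) • u + u + l1 := ⟨_, rfl⟩
  have hw' : v + j • u + l1 = w0 := by rw [hw]; module
  have hz' : z = w0 + m1 := by rw [hz, hw]; module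
  obtain ⟨e1, e2, e3, e4⟩ := legal_products hw hz'
  rw [hv] at e2 e3 e4
  rw [hw'] at t0 t1 t2
  rw [← e2] at t1 t2
  have hpos : 0 < cr u v + cr u l1 := by linarith [p.1]
  refine hT.exitF hxy hxy' hl hm wl wl2 wm wm2 (i := j) (j := 1) isCoprime_one_right
    (by rw [hz, one_smul]) ?_ (by rw [e1]; exact t0) ?_
  · have : 0 < (cr u v + cr u l1) * cr z l1 := by rw [e3]; linarith
    exact (mul_pos_iff_of_pos_left hpos).1 this
  · have : 0 < (cr u v + cr u l1) * (cr u z - cr z l1 - cr z m1) := by rw [e4]; linarith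
    have := (mul_pos_iff_of_pos_left hpos).1 this
    rw [← e2]
    linarith

end Pool.Agent.H4G.Six
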