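import Pool.Agent.H4G.FinDefs

/-!
# Origamis without involution: parallelograms of germs, E6 trees (helper96)

An origami is a pair of permutations (`PO X`). A *germ* of a saddle connection with vector `a` is a
function on squares, used only near the open segment `0 → a`. `Par O a b A R T L`: the
parallelogram `0, a, a + b, b` is developed in `O`, with the germs `A` (lower side), `R` (right
side), `T` (upper side), `L` (left side).

`Has6 O (u, v, l, q, m, s)`: the surface of `O` is the union of the five parallelograms `(u, v)`,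
`(u, l)`, `(u, m)`, `(q, l)`, `(s, m)`, glued along the tree `v - u`, `u - l - q`, `u - m - s`: the
column `(u, v), (u, l), (u, m)` is closed up, the left and right sides of `(u, v)` are glued, the
right side of `(u, l)` is the left side of `(q, l)` and the right side of `(q, l)` is the left side
of `(u, l)`, the lower and upper sides of `(q, l)` are glued, and the same for `m, s`.
-/

set_option autoImplicit false

namespace Pool.Agent.H4G.Six

open Pool.Agent.H4G

variable {X : Type}

/-- an origami: right and upper neighbours -/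
structure PO (X : Type) where
  r : Equiv.Perm X
  u : Equiv.Perm X

/-- The values of `f` on the closed squares containing `x` fit together. -/
def DevAt (O : PO X) (x : V) (f : Z2 → X) : Prop :=
  (∀ z : Z2, Nr x z → Nr x (z + (1, 0)) → f (z + (1, 0)) = O.r (f z)) ∧
  (∀ z : Z2, Nr x z → Nr x (z + (0, 1)) → f (z + (0, 1)) = O.u (f z))

/-- `f` is a development on the set `K`. -/
def Dev (O : PO X) (K : Set V) (f : Z2 → X) : Prop := ∀ x ∈ K, DevAt O x f

/-- the exterior product of a lattice vector and a point -/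
def crx (a : Z2) (x : V) : ℝ := (a.1 : ℝ) * x.2 - (a.2 : ℝ) * x.1

/-- the closed parallelogram `0, a, a + b, b` without its vertices -/
def Pgm (a b : Z2) : Set V :=
  {x | 0 ≤ crx a x ∧ crx a x ≤ (cr a b : ℝ) ∧ crx b x ≤ 0 ∧ -(cr a b : ℝ) ≤ crx b x ∧
    x ≠ em 0 ∧ x ≠ em a ∧ x ≠ em b ∧ x ≠ em (a + b)}

/-- the shifted function -/
def sh (c : Z2) (f : Z2 → X) : Z2 → X := fun z => f (z - c)

/-- a developed parallelogram with the germs of its four sides: lower, right, upper, left -/
def Par (O : PO X) (a b : Z2) (A R T L : Z2 → X) : Prop :=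
  0 < cr a b ∧ ∃ f : Z2 → X, Dev O (Pgm a b) f ∧ Agree (Seg 0 a) f A ∧
    Agree (Seg a (a + b)) f (sh a R) ∧ Agree (Seg b (b + a)) f (sh b T) ∧ Agree (Seg 0 b) f L

/-! ## Trees -/

/-- The surface of `O` is the E6 tree with the vectors `(u, v, l, q, m, s)`. -/
def Has6 (O : PO X) : C6 → Prop
  | (u, v, l, q, m, s) => ∃ U0 U1 U2 W L0 L1 M0 M1 Q S : Z2 → X,
      Par O u v U0 W U1 W ∧ Par O u l U1 L1 U2 L0 ∧ Par O u m U2 M1 U0 M0 ∧
      Par O q l Q L0 Q L1 ∧ Par O s m S M0 S M1

/-- the five products are positive -/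
def Pos6 : C6 → Prop
  | (u, v, l, q, m, s) => 0 < cr u v ∧ 0 < cr u l ∧ 0 < cr u m ∧ 0 < cr q l ∧ 0 < cr s m

/-- the number of squares -/
def vol6 : C6 → ℤ
  | (u, v, l, q, m, s) => cr u v + cr u l + cr u m + cr q l + cr s m

/-- The moves: the six twists of the tree, the half turn of the column (it exchanges the two
tori), the two (1,3)-exits, and the generators of `SL₂(ℤ)`.

In the exits the centre `⟨u, v + l + m⟩` has a basis `(U, x)` for which the slit `l` and the slit
`m` are as in the hypotheses, and `(u', x')` is a basis of `⟨l, x - q⟩`. -/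
inductive Mv6 : C6 → C6 → Prop
  | tv (u v l q m s : Z2) : Mv6 (u, v, l, q, m, s) (u, v + u, l, q, m, s)
  | tq (u v l q m s : Z2) : Mv6 (u, v, l, q, m, s) (u, v, l, q + l, m, s)
  | ts (u v l q m s : Z2) : Mv6 (u, v, l, q, m, s) (u, v, l, q, m, s + m)
  | tl (u v l q m s : Z2) : 0 < cr u (l + (u + q)) → 0 < cr q (l + (u + q)) →
      Mv6 (u, v, l, q, m, s) (u, v, l + (u + q), q, m, s)
  | tm (u v l q m s : Z2) : 0 < cr u (m + (u + s)) → 0 < cr s (m + (u + s)) →
      Mv6 (u, v, l, q, m, s) (u, v, l, q, m + (u + s), s)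
  | tu (u v l q m s : Z2) : 0 < cr (u + (v + l + m)) v → 0 < cr (u + (v + l + m)) l →
      0 < cr (u + (v + l + m)) m → Mv6 (u, v, l, q, m, s) (u + (v + l + m), v, l, q, m, s)
  | swap (u v l q m s : Z2) : Mv6 (u, v, l, q, m, s) (-u, -v, -m, -s, -l, -q)
  | exP (u v l q m s U x u' x' : Z2) :
      AddSubgroup.closure {U, x} = AddSubgroup.closure {u, v + l + m} →
      cr U x = cr u (v + l + m) → 0 < cr l x → cr l x < cr U x → cr m x < 0 →
      0 < cr l x + cr m x → 0 < cr l m → cr l m < cr l x →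
      AddSubgroup.closure {u', x'} = AddSubgroup.closure {l, x - q} →
      cr u' x' = cr l x + cr q l → 0 < cr u' (x' + m - x) → 0 < cr u' (-m) → 0 < cr u' x →
      Mv6 (u, v, l, q, m, s) (u', x' + m - x, -m, -s, x, U - l)
  | exM (u v l q m s U x u' x' : Z2) :
      AddSubgroup.closure {U, x} = AddSubgroup.closure {u, v + l + m} →
      cr U x = cr u (v + l + m) → 0 < cr l x → cr l x < cr U x → cr m x < 0 →
      0 < cr l x + cr m x → cr l m < 0 → 0 < cr l x + cr l m →
      AddSubgroup.closure {u', x'} = AddSubgroup.closure {l, x - q} →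
      cr u' x' = cr l x + cr q l → 0 < cr u' (x' + m + x) → 0 < cr u' (-m) → 0 < cr u' (-x) →
      Mv6 (u, v, l, q, m, s) (u', x' + m + x, -m, -s, -x, l - U)
  | T (c : C6) : Mv6 c (c.map shT)
  | J (c : C6) : Mv6 c (c.map shJ)

/-- Equivalence of positive trees. -/
def CEq6 : C6 → C6 → Prop := Relation.EqvGen (fun c c' => Pos6 c ∧ Mv6 c c')

/-- the lattices of the two tori: `L = ⟨l, u + q⟩`, `M = ⟨m, u + s⟩` -/
def latL : C6 → AddSubgroup Z2
  | (u, _, l, q, _, _) => AddSubgroup.closure {l, u + q}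

def latM : C6 → AddSubgroup Z2
  | (u, _, _, _, m, s) => AddSubgroup.closure {m, u + s}

/-! ## Origamis -/

/-- The origami sheared by `(x, y) ↦ (x + y, y)`. -/
def PO.T (O : PO X) : PO X := ⟨O.r, O.u * O.r⁻¹⟩

/-- The origami rotated by a quarter turn. -/
def PO.J (O : PO X) : PO X := ⟨O.u⁻¹, O.r⟩

/-- The product of two origamis. -/
def PO.prod {X' : Type} (O : PO X) (O' : PO X') : PO (X × X') :=
  ⟨O.r.prodCongr O'.r, O.u.prodCongr O'.u⟩

/-- An isomorphism of origamis. -/
structure Iso6 {X' : Type} (O : PO X) (O' : PO X') (e : X ≃ X') : Prop where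
  r : ∀ x, e (O.r x) = O'.r (e x)
  u : ∀ x, e (O.u x) = O'.u (e x)

/-- Transitivity. -/
def PO.Trans (O : PO X) : Prop :=
  ∀ S : Set X, S.Nonempty → (∀ x ∈ S, O.r x ∈ S) → (∀ x ∈ S, O.u x ∈ S) → S = Set.univ

/-- `Path6 O x w y`: some path of unit steps leads from `x` to `y`, with holonomy `w`. -/
inductive Path6 (O : PO X) : X → Z2 → X → Prop
  | refl (x : X) : Path6 O x 0 x
  | right {x y : X} {w : Z2} : Path6 O x w y → Path6 O x (w + (1, 0)) (O.r y)
  | left {x y : X} {w : Z2} : Path6 O x w y → Path6 O x (w - (1, 0)) (O.r.symm y)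
  | up {x y : X} {w : Z2} : Path6 O x w y → Path6 O x (w + (0, 1)) (O.u y)
  | down {x y : X} {w : Z2} : Path6 O x w y → Path6 O x (w - (0, 1)) (O.u.symm y)

/-- The origami is primitive (reduced): from a transitive origami one reaches every square with
every holonomy. -/
def PO.Prim (O : PO X) : Prop := ∀ (x : X) (w : Z2), Path6 O x w x

/-- `i` is an anti-automorphism. -/
structure PO.Anti (O : PO X) (i : Equiv.Perm X) : Prop where
  r : ∀ x, i (O.r x) = O.r.symm (i x)
  u : ∀ x, i (O.u x) = O.u.symm (i x)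

/-- The origami is connected, in `H(4)`, and has no anti-automorphism. -/
structure Odd6 (O : PO X) : Prop where
  trans : O.Trans
  cyc : (O.r * O.u * O.r⁻¹ * O.u⁻¹).IsCycle
  five : {x | (O.r * O.u * O.r⁻¹ * O.u⁻¹) x ≠ x}.ncard = 5
  none : ∀ i : Equiv.Perm X, ¬ O.Anti i

/-- One step of the `SL₂(ℤ)` action, or an isomorphism. -/
inductive Step6 : PO X → PO X → Prop
  | T (O : PO X) : Step6 O O.T
  | J (O : PO X) : Step6 O O.J
  | iso (O O' : PO X) (e : Equiv.Perm X) : Iso6 O O' e → Step6 O O'

/-- The same `SL₂(ℤ)`-orbit. -/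
def SLE6 : PO X → PO X → Prop := Relation.EqvGen Step6

end Pool.Agent.H4G.Six
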