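import Mathlib
import Pool.Agent.H4G.Six.Defs

/-!
# Three centres in a row (helper38)

`(X₀, Q₀)`, `(X₁, Q₁)`, `(X₂, Q₂)` is an arithmetic progression of vectors which are divisible by
large numbers `c₀`, `c₁`, `c₂`. Then the difference is divisible by a large number.
-/

set_option autoImplicit false

namespace Pool.Agent.H4G.Six

/-- **THREE CENTRES.** -/
theorem three_centres {X0 X1 X2 Q0 Q1 Q2 c0 c1 c2 K N : ℤ} (hX : X0 + X2 = 2 * X1)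
    (hQ : Q0 + Q2 = 2 * Q1) (h0 : 0 < c0) (h1 : 0 < c1) (h2 : 0 < c2)
    (a0 : c0 ∣ X0) (b0 : c0 ∣ Q0) (a1 : c1 ∣ X1) (b1 : c1 ∣ Q1) (a2 : c2 ∣ X2) (b2 : c2 ∣ Q2)
    (k0 : N ≤ K * c0) (k1 : N ≤ K * c1) (k2 : N ≤ K * c2) (hN : 0 < N)
    (hD : X0 * Q1 - X1 * Q0 ≠ 0) (hDN : |X0 * Q1 - X1 * Q0| ≤ N ^ 2) :
    ∃ g : ℤ, 0 < g ∧ g ∣ X1 - X0 ∧ g ∣ Q1 - Q0 ∧ N ≤ 2 * K ^ 3 * g ∧ g ∣ c1 ∧ g ∣ c2 := by
  obtain ⟨e0, he0⟩ := a0
  obtain ⟨f0, hf0⟩ := b0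
  obtain ⟨e1, he1⟩ := a1
  obtain ⟨f1, hf1⟩ := b1
  obtain ⟨e2, he2⟩ := a2
  obtain ⟨f2, hf2⟩ := b2
  have hK : 0 < K := by
    by_contra hc
    push Not at hc
    nlinarith
  obtain ⟨D, hDe⟩ : ∃ D, D = X0 * Q1 - X1 * Q0 := ⟨_, rfl⟩
  rw [← hDe] at hD hDN
  have d01 : c0 * c1 * (e0 * f1 - e1 * f0) = D := by
    rw [hDe, he0, hf1, he1, hf0]; ring
  have d02 : c0 * c2 * (e0 * f2 - e2 * f0) = 2 * D := by
    have : c0 * c2 * (e0 * f2 - e2 * f0) = X0 * Q2 - X2 * Q0 := by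
      rw [he0, hf2, he2, hf0]; ring
    rw [this, hDe]
    linear_combination X0 * hQ - Q0 * hX
  have key : 2 * c1 * (e0 * f1 - e1 * f0) = c2 * (e0 * f2 - e2 * f0) := by
    apply mul_left_cancel₀ h0.ne'
    linear_combination 2 * d01 - d02
  obtain ⟨t, ht⟩ : ∃ t, t = e0 * f2 - e2 * f0 := ⟨_, rfl⟩
  rw [← ht] at d02 key
  have ht0 : t ≠ 0 := by
    rintro rfl
    apply hD
    linarith
  have htK : |t| ≤ 2 * K ^ 2 := by
    have e1 : c0 * c2 * |t| = 2 * |D| := by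
      have : |c0 * c2 * t| = |2 * D| := by rw [d02]
      rw [abs_mul, abs_mul, abs_mul, abs_of_pos h0, abs_of_pos h2] at this
      simpa using this
    have e2 : N ^ 2 ≤ (K * c0) * (K * c2) := by
      rw [pow_two]
      exact mul_le_mul k0 k2 hN.le (by positivity)
    have e3 : c0 * c2 * |t| ≤ c0 * c2 * (2 * K ^ 2) := by nlinarith
    exact le_of_mul_le_mul_left e3 (by positivity)
  obtain ⟨g, hg⟩ : ∃ g : ℤ, g = Int.gcd c1 c2 := ⟨_, rfl⟩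
  have g0 : 0 < g := by
    rw [hg]
    exact_mod_cast Int.gcd_pos_of_ne_zero_left _ h1.ne'
  have g1 : g ∣ c1 := by rw [hg]; exact Int.gcd_dvd_left _ _
  have g2 : g ∣ c2 := by rw [hg]; exact Int.gcd_dvd_right _ _
  obtain ⟨c1', hc1⟩ := g1
  obtain ⟨c2', hc2⟩ := g2
  have hco : IsCoprime c1' c2' := by
    have hb := Int.gcd_eq_gcd_ab c1 c2
    rw [← hg] at hb
    refine ⟨Int.gcdA c1 c2, Int.gcdB c1 c2, ?_⟩
    apply mul_left_cancel₀ g0.ne'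
    calc g * (Int.gcdA c1 c2 * c1' + Int.gcdB c1 c2 * c2')
        = (g * c1') * Int.gcdA c1 c2 + (g * c2') * Int.gcdB c1 c2 := by ring
      _ = c1 * Int.gcdA c1 c2 + c2 * Int.gcdB c1 c2 := by rw [← hc1, ← hc2]
      _ = g * 1 := by rw [← hb, mul_one]
  have hdv : c1' ∣ t := by
    have e : c1' * (2 * (e0 * f1 - e1 * f0)) = c2' * t := by
      apply mul_left_cancel₀ g0.ne'
      calc g * (c1' * (2 * (e0 * f1 - e1 * f0)))
          = 2 * (g * c1') * (e0 * f1 - e1 * f0) := by ring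
        _ = 2 * c1 * (e0 * f1 - e1 * f0) := by rw [← hc1]
        _ = c2 * t := key
        _ = (g * c2') * t := by rw [← hc2]
        _ = g * (c2' * t) := by ring
    exact hco.dvd_of_dvd_mul_left ⟨_, e.symm⟩
  have hle : c1' ≤ |t| := Int.le_of_dvd (abs_pos.2 ht0) ((dvd_abs _ _).2 hdv)
  have x1 : g ∣ X1 := ⟨c1' * e1, by rw [he1, hc1]; ring⟩
  have x2 : g ∣ X2 := ⟨c2' * e2, by rw [he2, hc2]; ring⟩
  have y1 : g ∣ Q1 := ⟨c1' * f1, by rw [hf1, hc1]; ring⟩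
  have y2 : g ∣ Q2 := ⟨c2' * f2, by rw [hf2, hc2]; ring⟩
  refine ⟨g, g0, ?_, ?_, ?_, ⟨c1', hc1⟩, ⟨c2', hc2⟩⟩
  · have : X1 - X0 = X2 - X1 := by linarith
    rw [this]
    exact dvd_sub x2 x1
  · have : Q1 - Q0 = Q2 - Q1 := by linarith
    rw [this]
    exact dvd_sub y2 y1
  · have e1 : c1 ≤ g * (2 * K ^ 2) := by
      calc c1 = g * c1' := hc1
        _ ≤ g * (2 * K ^ 2) := mul_le_mul_of_nonneg_left (hle.trans htK) g0.le
    calc N ≤ K * c1 := k1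
      _ ≤ K * (g * (2 * K ^ 2)) := mul_le_mul_of_nonneg_left e1 hK.le
      _ = 2 * K ^ 3 * g := by ring

/-- the form for three vectors `y`, `y + w`, `y + 2 w` and the products with `l`, `q` -/
theorem three_centres_cr {y w l q : Z2} {c0 c1 c2 K N : ℤ} (h0 : 0 < c0) (h1 : 0 < c1)
    (h2 : 0 < c2) (a0 : c0 ∣ cr y l) (b0 : c0 ∣ cr y q) (a1 : c1 ∣ cr (y + w) l)
    (b1 : c1 ∣ cr (y + w) q) (a2 : c2 ∣ cr (y + w + w) l) (b2 : c2 ∣ cr (y + w + w) q)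
    (k0 : N ≤ K * c0) (k1 : N ≤ K * c1) (k2 : N ≤ K * c2) (hN : 0 < N)
    (hw : cr y w ≠ 0) (hq : cr q l ≠ 0) (hDN : |cr y w| * |cr q l| ≤ N ^ 2) :
    ∃ g : ℤ, 0 < g ∧ g ∣ cr w l ∧ g ∣ cr w q ∧ N ≤ 2 * K ^ 3 * g := by
  have e : cr y l * cr (y + w) q - cr (y + w) l * cr y q = -(cr y w * cr q l) := by
    simp only [cr, Prod.fst_add, Prod.snd_add]; ring
  obtain ⟨g, g0, g1, g2, g3, -, -⟩ := three_centres (X0 := cr y l) (X1 := cr (y + w) l)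
    (X2 := cr (y + w + w) l) (Q0 := cr y q) (Q1 := cr (y + w) q) (Q2 := cr (y + w + w) q)
    (by simp only [cr, Prod.fst_add, Prod.snd_add]; ring)
    (by simp only [cr, Prod.fst_add, Prod.snd_add]; ring) h0 h1 h2 a0 b0 a1 b1 a2 b2 k0 k1 k2 hN
    (by rw [e]; exact neg_ne_zero.2 (mul_ne_zero hw hq)) (by rw [e, abs_neg, abs_mul]; exact hDN)
  have e1 : cr (y + w) l - cr y l = cr w l := by
    simp only [cr, Prod.fst_add, Prod.snd_add]; ring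
  have e2 : cr (y + w) q - cr y q = cr w q := by
    simp only [cr, Prod.fst_add, Prod.snd_add]; ring
  rw [e1] at g1
  rw [e2] at g2
  exact ⟨g, g0, g1, g2, g3⟩

end Pool.Agent.H4G.Six
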