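import Pool.Agent.H4G.Six.Column

/-!
# Minkowski's theorem for two integral linear forms (helper37)

`mink`: two integral forms of determinant `D` on `ℤ²`, `|D| < A (B + 1)`: there is a primitive
vector on which the first form is `< A` and the second `≤ B` in absolute value. The proof is
Dirichlet's pigeonhole argument, so the constant is the sharp one for integral forms.
-/

set_option autoImplicit false

namespace Pool.Agent.H4G.Six

open Pool.Agent.H4G

/-- pigeonhole on a circle of integer length -/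
theorem circle_pigeon {c A H : ℕ} (x : ℤ) (hc : 0 < c) (hA : A ≤ c) (h : c < A * (H + 1)) :
    ∃ k j : ℤ, j ≠ 0 ∧ |k * c + j * x| < A ∧ |j| ≤ H := by
  classical
  have hc' : (0 : ℤ) < c := by exact_mod_cast hc
  have hcard : (Finset.range c).card < (Finset.range A ×ˢ Finset.range (H + 1)).card := by
    simpa using h
  have hmaps : ∀ p ∈ Finset.range A ×ˢ Finset.range (H + 1),
      (((p.1 : ℤ) + p.2 * x) % c).toNat ∈ Finset.range c := by
    intro p _
    rw [Finset.mem_range]
    have h1 := Int.emod_lt_of_pos ((p.1 : ℤ) + p.2 * x) hc'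
    have h2 := Int.emod_nonneg ((p.1 : ℤ) + p.2 * x) hc'.ne'
    omega
  obtain ⟨p, hp, p', hp', hne, heq⟩ :=
    Finset.exists_ne_map_eq_of_card_lt_of_maps_to hcard hmaps
  have h1 := Int.emod_nonneg ((p.1 : ℤ) + p.2 * x) hc'.ne'
  have h2 := Int.emod_nonneg ((p'.1 : ℤ) + p'.2 * x) hc'.ne'
  have h3 : ((p.1 : ℤ) + p.2 * x) % c = ((p'.1 : ℤ) + p'.2 * x) % c := by omega
  rw [Int.emod_eq_emod_iff_emod_sub_eq_zero] at h3
  obtain ⟨k, hk⟩ := Int.dvd_of_emod_eq_zero h3
  obtain ⟨a, b⟩ := p
  obtain ⟨a', b'⟩ := p'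
  simp only [Finset.mem_product, Finset.mem_range] at hp hp' hk
  obtain ⟨p1, p2⟩ := hp
  obtain ⟨p3, p4⟩ := hp'
  have e : -k * c + ((b : ℤ) - b') * x = a' - a := by linarith
  refine ⟨-k, (b : ℤ) - b', ?_, ?_, ?_⟩
  · intro hb
    rw [hb, zero_mul, add_zero] at e
    have hk0 : k = 0 := by
      by_contra hk0
      have h5 : (c : ℤ) ≤ |k * c| := by
        rw [abs_mul, abs_of_pos hc']
        have := Int.one_le_abs hk0
        nlinarith
      have h6 : |k * (c : ℤ)| = |(a : ℤ) - a'| := by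
        rw [show k * (c : ℤ) = a - a' by linarith]
      rw [h6, abs_sub_comm] at h5
      have h7 : |(a' : ℤ) - a| < A := by rw [abs_lt]; constructor <;> omega
      have h8 : (A : ℤ) ≤ c := by exact_mod_cast hA
      linarith
    rw [hk0] at e
    apply hne
    ext <;> simp only <;> omega
  · rw [e, abs_lt]
    constructor <;> omega
  · rw [abs_le]
    constructor <;> omega

/-- a vanishing integer form has a primitive zero -/
theorem exists_prim_zero (f1 f2 : ℤ) : ∃ i j : ℤ, IsCoprime i j ∧ i * f1 + j * f2 = 0 := by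
  rcases Nat.eq_zero_or_pos (f1.gcd f2) with h | h
  · rw [Int.gcd_eq_zero_iff] at h
    exact ⟨1, 0, isCoprime_one_left, by rw [h.1, h.2]; ring⟩
  · obtain ⟨m, n, h1, h2, h3⟩ := Int.exists_gcd_one h
    refine ⟨n, -m, ?_, ?_⟩
    · rw [IsCoprime.neg_right_iff, isCoprime_comm]
      exact Int.isCoprime_iff_gcd_eq_one.2 h1
    · generalize ((f1.gcd f2 : ℕ) : ℤ) = g at h2 h3
      rw [h2, h3]
      ring

/-- a nonzero vector is a positive multiple of a primitive one -/
theorem exists_prim_of_ne {i j : ℤ} (h : i ≠ 0 ∨ j ≠ 0) : ∃ d i' j' : ℤ, 0 < d ∧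
    IsCoprime i' j' ∧ i = d * i' ∧ j = d * j' := by
  have h0 : 0 < i.gcd j := by
    rcases Nat.eq_zero_or_pos (i.gcd j) with h1 | h1
    · rw [Int.gcd_eq_zero_iff] at h1
      rcases h with h | h
      · exact absurd h1.1 h
      · exact absurd h1.2 h
    · exact h1
  obtain ⟨m, n, h1, h2, h3⟩ := Int.exists_gcd_one h0
  refine ⟨i.gcd j, m, n, by exact_mod_cast h0, Int.isCoprime_iff_gcd_eq_one.2 h1, ?_, ?_⟩
  · rw [mul_comm]; exact h2
  · rw [mul_comm]; exact h3

/-- **Minkowski's theorem for two integral linear forms.** -/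
theorem mink {f1 f2 g1 g2 A B : ℤ} (hA : 0 < A) (hB : 0 ≤ B)
    (hD : |f1 * g2 - f2 * g1| < A * (B + 1)) :
    ∃ i j : ℤ, IsCoprime i j ∧ |i * f1 + j * f2| < A ∧ |i * g1 + j * g2| ≤ B := by
  rcases Nat.eq_zero_or_pos (g1.gcd g2) with h0 | h0
  · rw [Int.gcd_eq_zero_iff] at h0
    obtain ⟨i, j, h1, h2⟩ := exists_prim_zero f1 f2
    refine ⟨i, j, h1, by rw [h2, abs_zero]; exact hA, ?_⟩
    rw [h0.1, h0.2, mul_zero, mul_zero, add_zero, abs_zero]
    exact hB
  obtain ⟨a, b, h1, h2, h3⟩ := Int.exists_gcd_one h0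
  obtain ⟨r, s, hrs⟩ := Int.isCoprime_iff_gcd_eq_one.2 h1
  have he : (0 : ℤ) < (g1.gcd g2 : ℕ) := by exact_mod_cast h0
  generalize ((g1.gcd g2 : ℕ) : ℤ) = e at h2 h3 he
  -- the values on the basis (b, -a), (r, s)
  have hcop : IsCoprime b (-a) := by
    rw [IsCoprime.neg_right_iff, isCoprime_comm]
    exact Int.isCoprime_iff_gcd_eq_one.2 h1
  set c : ℤ := b * f1 - a * f2 with hc
  set x : ℤ := r * f1 + s * f2 with hx
  have hce : f1 * g2 - f2 * g1 = c * e := by rw [h2, h3, hc]; ring
  by_cases hcA : |c| < A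
  · refine ⟨b, -a, hcop, ?_, ?_⟩
    · rw [show b * f1 + -a * f2 = c by rw [hc]; ring]; exact hcA
    · rw [show b * g1 + -a * g2 = 0 by rw [h2, h3]; ring, abs_zero]; exact hB
  push Not at hcA
  set H : ℤ := B / e with hH
  have hH0 : 0 ≤ H := Int.ediv_nonneg hB he.le
  have hH1 : B + 1 ≤ e * (H + 1) := by
    have := Int.lt_ediv_add_one_mul_self B he
    rw [← hH] at this
    linarith [mul_comm e (H + 1)]
  have hH2 : H * e ≤ B := Int.ediv_mul_le B he.ne'
  have hlt : |c| < A * (H + 1) := by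
    rw [hce, abs_mul, abs_of_pos he] at hD
    have h5 : |c| * e < A * (H + 1) * e := by nlinarith
    exact lt_of_mul_lt_mul_right h5 he.le
  have hc0 : 0 < |c| := lt_of_lt_of_le hA hcA
  have hcn : (c.natAbs : ℤ) = |c| := Int.natCast_natAbs c
  obtain ⟨k, j, j1, j2, j3⟩ := circle_pigeon (c := c.natAbs) (A := A.toNat) (H := H.toNat) x
    (by omega) (by omega) (by
      zify
      rw [Int.toNat_of_nonneg hA.le, Int.toNat_of_nonneg hH0]
      exact hlt)
  rw [Int.toNat_of_nonneg hA.le] at j2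
  rw [Int.toNat_of_nonneg hH0] at j3
  obtain ⟨k', hk'⟩ : ∃ k' : ℤ, k * (c.natAbs : ℤ) = k' * c := by
    rcases Int.natAbs_eq c with h | h
    · exact ⟨k, by rw [← h]⟩
    · refine ⟨-k, ?_⟩
      have : (c.natAbs : ℤ) = -c := by linarith
      rw [this]; ring
  rw [hk'] at j2
  have hne : k' * b + j * r ≠ 0 ∨ -(k' * a) + j * s ≠ 0 := by
    by_contra hcon
    push Not at hcon
    apply j1
    have e1 : j * (r * a + s * b) = a * (k' * b + j * r) + b * (-(k' * a) + j * s) := by ring
    rw [hcon.1, hcon.2, hrs] at e1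
    linarith
  obtain ⟨d, i', j', d1, d2, d3, d4⟩ := exists_prim_of_ne hne
  have v1 : d * (i' * f1 + j' * f2) = k' * c + j * x := by
    rw [hc, hx]
    linear_combination (-f1) * d3 + (-f2) * d4
  have v2 : d * (i' * g1 + j' * g2) = j * e := by
    rw [h2, h3]
    linear_combination (-(a * e)) * d3 + (-(b * e)) * d4 + j * e * hrs
  refine ⟨i', j', d2, ?_, ?_⟩
  · have h6 : |i' * f1 + j' * f2| ≤ |d * (i' * f1 + j' * f2)| := by
      rw [abs_mul, abs_of_pos d1]
      nlinarith [abs_nonneg (i' * f1 + j' * f2)]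
    rw [v1] at h6
    linarith
  · have h6 : |i' * g1 + j' * g2| ≤ |d * (i' * g1 + j' * g2)| := by
      rw [abs_mul, abs_of_pos d1]
      nlinarith [abs_nonneg (i' * g1 + j' * g2)]
    rw [v2, abs_mul, abs_of_pos he] at h6
    nlinarith

/-! ## Lattices -/

/-- the Grassmann–Plücker relation -/
theorem cr_plucker (u x l m : Z2) :
    cr u l * cr x m - cr x l * cr u m = cr u x * cr l m := by
  simp only [cr]; ring

theorem cr_zz_left (u x l : Z2) (i j : ℤ) :
    cr (i • u + j • x) l = i * cr u l + j * cr x l := by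
  simp only [cr, Prod.fst_add, Prod.snd_add, Prod.smul_fst, Prod.smul_snd, smul_eq_mul]; ring

theorem cr_zz_right (u x l : Z2) (i j : ℤ) :
    cr l (i • u + j • x) = i * cr l u + j * cr l x := by
  simp only [cr, Prod.fst_add, Prod.snd_add, Prod.smul_fst, Prod.smul_snd, smul_eq_mul]; ring

/-- Minkowski's theorem for the forms `· × l`, `· × m` on the lattice `⟨u, x⟩`. -/
theorem mink_lat {u x l m : Z2} {A B : ℤ} (hA : 0 < A) (hB : 0 ≤ B)
    (h : |cr u x * cr l m| < A * (B + 1)) :
    ∃ i j : ℤ, IsCoprime i j ∧ |cr (i • u + j • x) l| < A ∧ |cr (i • u + j • x) m| ≤ B := by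
  rw [← cr_plucker] at h
  obtain ⟨i, j, h1, h2, h3⟩ := mink hA hB h
  refine ⟨i, j, h1, ?_, ?_⟩
  · rw [cr_zz_left]; exact h2
  · rw [cr_zz_left]; exact h3

/-- Minkowski's theorem for the forms `u × ·`, `· × m` on the lattice `⟨l, p⟩`. -/
theorem mink_win {u l p m : Z2} {A B : ℤ} (hA : 0 < A) (hB : 0 ≤ B)
    (h : |cr p l * cr u m| < A * (B + 1)) :
    ∃ i j : ℤ, IsCoprime i j ∧ |cr u (i • l + j • p)| < A ∧ |cr (i • l + j • p) m| ≤ B := by
  have h' : |cr l p * cr u m| < A * (B + 1) := by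
    rw [cr_swap' p l, neg_mul, abs_neg]; exact h
  obtain ⟨i, j, h1, h2, h3⟩ := mink_lat hA hB h'
  refine ⟨i, j, h1, ?_, h3⟩
  rw [cr_swap', abs_neg]; exact h2

/-- A primitive vector of a lattice belongs to a basis. -/
theorem exists_compl {u x : Z2} {i j : ℤ} (h : IsCoprime i j) : ∃ y : Z2,
    cr (i • u + j • x) y = cr u x ∧
      AddSubgroup.closure ({i • u + j • x, y} : Set Z2) = AddSubgroup.closure {u, x} := by
  obtain ⟨r, s, hrs⟩ := h
  refine ⟨(-s) • u + r • x, ?_, ?_⟩
  · simp only [cr, Prod.fst_add, Prod.snd_add, Prod.smul_fst, Prod.smul_snd, smul_eq_mul]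
    linear_combination (u.1 * x.2 - u.2 * x.1) * hrs
  · apply le_antisymm
    · rw [AddSubgroup.closure_le]
      rintro z (rfl | rfl)
      · exact add_mem (zsmul_mem (AddSubgroup.subset_closure (by simp)) _)
          (zsmul_mem (AddSubgroup.subset_closure (by simp)) _)
      · exact add_mem (zsmul_mem (AddSubgroup.subset_closure (by simp)) _)
          (zsmul_mem (AddSubgroup.subset_closure (by simp)) _)
    · rw [AddSubgroup.closure_le]
      have e1 : u = r • (i • u + j • x) + (-j) • ((-s) • u + r • x) := by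
        ext <;> simp only [Prod.fst_add, Prod.snd_add, Prod.smul_fst, Prod.smul_snd, smul_eq_mul]
        · linear_combination (-u.1) * hrs
        · linear_combination (-u.2) * hrs
      have e2 : x = s • (i • u + j • x) + i • ((-s) • u + r • x) := by
        ext <;> simp only [Prod.fst_add, Prod.snd_add, Prod.smul_fst, Prod.smul_snd, smul_eq_mul]
        · linear_combination (-x.1) * hrs
        · linear_combination (-x.2) * hrs
      have m1 : i • u + j • x ∈ AddSubgroup.closure
          ({i • u + j • x, (-s) • u + r • x} : Set Z2) := AddSubgroup.subset_closure (by simp)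
      have m2 : (-s) • u + r • x ∈ AddSubgroup.closure
          ({i • u + j • x, (-s) • u + r • x} : Set Z2) := AddSubgroup.subset_closure (by simp)
      have n1 := add_mem (zsmul_mem m1 r) (zsmul_mem m2 (-j))
      have n2 := add_mem (zsmul_mem m1 s) (zsmul_mem m2 i)
      rw [← e1] at n1
      rw [← e2] at n2
      rintro z (rfl | rfl)
      · exact n1
      · exact n2

end Pool.Agent.H4G.Six
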