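import Pool.Agent.H4G.Six.CovC
import Pool.Agent.H4G.Six.Model2
import Pool.Agent.H4G.Six.Mink

/-!
# The periods of a configuration of a primitive origami (helper69)

`spanC_top`: if the configuration `(U, x; l, q; m, s)` of a transitive primitive origami has as many
squares as the origami, its six vectors generate the lattice. No centre is asked for.
-/

set_option autoImplicit false

namespace Pool.Agent.H4G.Six

open Pool.Agent.H4G Pool.Agent.H4G.Cov Filter Topology

variable {X : Type}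

/-! ## The index of a lattice -/

theorem clo_card {a b : Z2} (h : 0 < cr a b) :
    Finite (Z2 ⧸ AddSubgroup.closure ({a, b} : Set Z2)) ∧
      (Nat.card (Z2 ⧸ AddSubgroup.closure ({a, b} : Set Z2)) : ℤ) = cr a b := by
  obtain ⟨i, j, hij, h0⟩ := exists_prim_zero a.2 b.2
  obtain ⟨v, h1, h2⟩ := exists_basis (U := a) (x := b) i j hij
  obtain ⟨z, hz⟩ : ∃ z : Z2, z = i • a + j • b := ⟨_, rfl⟩
  rw [← hz] at h1 h2
  have z2 : z.2 = 0 := by
    rw [hz]
    simp only [Prod.snd_add, Prod.smul_snd, smul_eq_mul]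
    exact h0
  have e : -(v.2 * z.1) = cr a b := by
    rw [← h2]
    simp only [cr, z2]; ring
  have key : ∀ w s t : ℤ, 0 < w → 0 < t → w * t = cr a b →
      latN w s t = AddSubgroup.closure {a, b} →
      Finite (Z2 ⧸ AddSubgroup.closure ({a, b} : Set Z2)) ∧
      (Nat.card (Z2 ⧸ AddSubgroup.closure ({a, b} : Set Z2)) : ℤ) = cr a b := by
    intro w s t hw ht hwt hl
    rw [← hl, ← hwt]
    exact ⟨latN_finite hw ht, latN_card hw ht⟩
  rcases lt_trichotomy z.1 0 with g | g | g
  · refine key (-z.1) v.1 v.2 (by linarith) ?_ (by rw [← e]; ring) ?_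
    · nlinarith
    · unfold latN
      rw [← h1]
      have e1 : ((-z.1, 0) : Z2) = -z := by ext <;> simp [z2]
      have e2 : ((v.1, v.2) : Z2) = v := rfl
      rw [e1, e2, clo_comm, clo_neg_right]
  · rw [g] at e
    simp at e
    linarith
  · refine key z.1 (-v.1) (-v.2) g ?_ (by rw [← e]; ring) ?_
    · nlinarith
    · unfold latN
      rw [← h1]
      have e1 : ((z.1, 0) : Z2) = z := by ext <;> simp [z2]
      have e2 : ((-v.1, -v.2) : Z2) = -v := rfl
      rw [e1, e2, clo_neg_right, clo_comm]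

/-! ## A generic point -/

/-- the products of `a` with the lattice translates of `c` are not integers -/
def GenPt (a : Z2) (c : V) : Prop := ∀ n : ℤ, crx a c ≠ n

theorem exists_genPt (A : Finset Z2) (hA : ∀ a ∈ A, a ≠ 0) : ∃ c ∈ Qs, ∀ a ∈ A, GenPt a c := by
  obtain ⟨K, hK⟩ : ∃ K : ℤ, K = 2 + ∑ a ∈ A, (|a.1| + |a.2|) := ⟨_, rfl⟩
  have hle : ∀ a ∈ A, |a.1| + |a.2| + 2 ≤ K := by
    intro a ha
    rw [hK]
    have := Finset.single_le_sum (f := fun a : Z2 => |a.1| + |a.2|)
      (fun b _ => by positivity) ha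
    linarith
  have hK2 : 2 ≤ K := by
    rw [hK]
    have : 0 ≤ ∑ a ∈ A, (|a.1| + |a.2|) := Finset.sum_nonneg (fun b _ => by positivity)
    linarith
  have hKr : (2 : ℝ) ≤ K := by exact_mod_cast hK2
  have hK0 : (0 : ℝ) < K := by linarith
  refine ⟨(1 / K, 1 / (K : ℝ) ^ 2), ⟨?_, ?_, ?_, ?_, Or.inl ⟨?_, ?_⟩⟩, ?_⟩
  · positivity
  · show (1 : ℝ) / K ≤ 1
    rw [div_le_one hK0]; linarith
  · positivity
  · show (1 : ℝ) / (K : ℝ) ^ 2 ≤ 1
    rw [div_le_one (by positivity)]; nlinarith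
  · positivity
  · show (1 : ℝ) / K < 1
    rw [div_lt_one hK0]; linarith
  · intro a ha n hn
    have e : crx a (1 / K, 1 / (K : ℝ) ^ 2) * (K : ℝ) ^ 2 = a.1 - a.2 * K := by
      simp only [crx]
      field_simp
    rw [hn] at e
    have e' : n * K ^ 2 = a.1 - a.2 * K := by exact_mod_cast e
    have h1 := hle a ha
    have b1 := abs_nonneg a.1
    have b2 := abs_nonneg a.2
    have hlt : |a.1 - a.2 * K| < K ^ 2 := by
      have c1 : |a.1 - a.2 * K| ≤ |a.1| + |a.2 * K| := abs_sub _ _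
      rw [abs_mul, abs_of_pos (by linarith : (0 : ℤ) < K)] at c1
      nlinarith
    have hn0 : n = 0 := by
      by_contra hc
      have c2 : 1 ≤ |n| := Int.one_le_abs hc
      have c3 : |n * K ^ 2| = |n| * K ^ 2 := by
        rw [abs_mul, abs_of_pos (by positivity : (0 : ℤ) < K ^ 2)]
      rw [← e', c3] at hlt
      nlinarith [sq_nonneg K]
    rw [hn0, zero_mul] at e'
    apply hA a ha
    have h2 : a.1 = a.2 * K := by linarith
    have h3 : a.2 = 0 := by
      by_contra hc
      have c2 : 1 ≤ |a.2| := Int.one_le_abs hc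
      have c3 : |a.1| = |a.2| * K := by
        rw [h2, abs_mul, abs_of_pos (by linarith : (0 : ℤ) < K)]
      nlinarith
    rw [h3, zero_mul] at h2
    exact Prod.ext h2 h3

theorem GenPt.add {a z : Z2} {c : V} (h : GenPt a c) (n : ℤ) : crx a (em z + c) ≠ n := by
  intro h1
  rw [crx_add, crx_em] at h1
  apply h (n - cr a z)
  push_cast
  linarith

/-! ## Counting -/

theorem count_inj {ι : Type} [Finite ι] {T : Set X} (g : T → ι) (hg : Function.Injective g) :
    T.Finite ∧ T.ncard ≤ Nat.card ι := by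
  have : Finite T := Finite.of_injective g hg
  exact ⟨T.toFinite, Nat.card_le_card_of_injective g hg⟩

/-- the squares of a parallelogram at a generic point -/
theorem count_pgm {a b : Z2} (h : 0 < cr b a) {c : V} (ga : GenPt a c) (gb : GenPt b c)
    (f : Z2 → X) : {x | ∃ z, em z + c ∈ Pgm b a ∧ f z = x}.Finite ∧
      ({x | ∃ z, em z + c ∈ Pgm b a ∧ f z = x}.ncard : ℤ) ≤ cr b a := by
  obtain ⟨hf, hcard⟩ := clo_card h
  have hD : (0 : ℝ) < cr b a := by exact_mod_cast h
  obtain ⟨T, hT⟩ : ∃ T : Set X, T = {x | ∃ z, em z + c ∈ Pgm b a ∧ f z = x} := ⟨_, rfl⟩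
  rw [← hT]
  have hz : ∀ x : T, ∃ z, em z + c ∈ Pgm b a ∧ f z = x := by
    rintro ⟨x, hx⟩
    rw [hT] at hx
    exact hx
  choose z z1 z2 using hz
  have hinj : Function.Injective
      (fun x : T => (QuotientAddGroup.mk (z x) : Z2 ⧸ AddSubgroup.closure ({b, a} : Set Z2))) := by
    intro x y hxy
    have hmem : -(z x) + z y ∈ AddSubgroup.closure ({b, a} : Set Z2) := QuotientAddGroup.eq.1 hxy
    obtain ⟨i, j, hij⟩ := AddSubgroup.mem_closure_pair.1 hmem
    obtain ⟨p1, p2, p3, p4, -⟩ := z1 x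
    obtain ⟨q1, q2, q3, q4, -⟩ := z1 y
    have zy : z y = z x + (i • b + j • a) := by rw [hij]; abel
    have n1 : crx b (em (z x) + c) ≠ 0 := by
      have := gb.add (z := z x) 0
      push_cast at this; exact this
    have n2 : crx b (em (z y) + c) ≠ 0 := by
      have := gb.add (z := z y) 0
      push_cast at this; exact this
    have n3 : crx b (em (z x) + c) ≠ cr b a := gb.add (z := z x) (cr b a)
    have n4 : crx b (em (z y) + c) ≠ cr b a := gb.add (z := z y) (cr b a)
    have n5 : crx a (em (z x) + c) ≠ 0 := by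
      have := ga.add (z := z x) 0
      push_cast at this; exact this
    have n6 : crx a (em (z y) + c) ≠ 0 := by
      have := ga.add (z := z y) 0
      push_cast at this; exact this
    have n7 : crx a (em (z x) + c) ≠ -(cr b a : ℝ) := by
      have := ga.add (z := z x) (-cr b a)
      push_cast at this; exact this
    have n8 : crx a (em (z y) + c) ≠ -(cr b a : ℝ) := by
      have := ga.add (z := z y) (-cr b a)
      push_cast at this; exact this
    have eb : crx b (em (z y) + c) = crx b (em (z x) + c) + j * cr b a := by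
      rw [crx_add, crx_add, crx_em, crx_em, zy, crR_add, cr_comb, crR_self]; ring
    have ea : crx a (em (z y) + c) = crx a (em (z x) + c) - i * cr b a := by
      rw [crx_add, crx_add, crx_em, crx_em, zy, crR_add, cr_comb, crR_self, crR_swap b a]; ring
    have l1 := lt_of_le_of_ne p1 n1.symm
    have l2 := lt_of_le_of_ne p2 n3
    have l3 := lt_of_le_of_ne p3 n5
    have l4 := lt_of_le_of_ne p4 n7.symm
    have k1 := lt_of_le_of_ne q1 n2.symm
    have k2 := lt_of_le_of_ne q2 n4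
    have k3 := lt_of_le_of_ne q3 n6
    have k4 := lt_of_le_of_ne q4 n8.symm
    have hj : j = 0 := int_zero hD (by linarith) (by linarith)
    have hi : i = 0 := int_zero hD (by linarith) (by linarith)
    rw [hi, hj] at zy
    have e : z y = z x := by rw [zy]; simp
    exact Subtype.ext (by rw [← z2 x, ← z2 y, e])
  obtain ⟨k1, k2⟩ := count_inj _ hinj
  exact ⟨k1, by rw [← hcard]; exact_mod_cast k2⟩

/-- the squares of the torus at a point -/
theorem count_torus {O : PO X} {Λ : AddSubgroup Z2} {l m : Z2} {L0 L1 M0 M1 : Z2 → X}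
    {φ : V → Z2 → X} (h : SPD O Λ l m L0 L1 M0 M1 φ) [Finite (Z2 ⧸ Λ)] {c : V} (hc : c ∈ Qs) :
    {x | ∃ z, Reg Λ l m (em z + c) ∧ φ (em z + c) z = x}.Finite ∧
      {x | ∃ z, Reg Λ l m (em z + c) ∧ φ (em z + c) z = x}.ncard ≤ Nat.card (Z2 ⧸ Λ) := by
  obtain ⟨T, hT⟩ : ∃ T : Set X, T = {x | ∃ z, Reg Λ l m (em z + c) ∧ φ (em z + c) z = x} :=
    ⟨_, rfl⟩
  rw [← hT]
  have hz : ∀ x : T, ∃ z, Reg Λ l m (em z + c) ∧ φ (em z + c) z = x := by
    rintro ⟨x, hx⟩
    rw [hT] at hx
    exact hx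
  choose z z1 z2 using hz
  refine count_inj (fun x : T => (QuotientAddGroup.mk (z x) : Z2 ⧸ Λ)) ?_
  intro x y hxy
  have hmem : -(z x) + z y ∈ Λ := QuotientAddGroup.eq.1 hxy
  have hp := h.per _ (z1 x) _ hmem (z x) (Qs_nr hc _)
  have e1 : em (z x) + c + em (-(z x) + z y) = em (z y) + c := by
    ext <;> simp [em] <;> ring
  have e2 : z x + (-(z x) + z y) = z y := by abel
  rw [e1, e2, z2 x, z2 y] at hp
  exact Subtype.ext hp.symm

/-! ## The core theorem -/

/-- **The core theorem for configurations.** -/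
theorem coreC {O : PO X} {U x l q m s : Z2} (h : HasC O (AddSubgroup.closure {U, x}) l q m s)
    (hE : Emb (AddSubgroup.closure {U, x}) l m) (hlm : cr l m ≠ 0) (hW : 0 < cr U x) :
    ∃ R : Set X, R.Nonempty ∧ (∀ y ∈ R, O.r y ∈ R) ∧ (∀ y ∈ R, O.u y ∈ R) ∧ R.Finite ∧
      (R.ncard : ℤ) ≤ cr U x + cr q l + cr s m := by
  obtain ⟨φ, L0, L1, M0, M1, Q, S, fQ, fS, hC⟩ := h.cc hE hlm
  obtain ⟨hf, hcard⟩ := clo_card hW
  have hq : 0 < cr q l := hC.cl.ba
  have hs : 0 < cr s m := hC.cm.ba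
  have qne : q ≠ 0 := by
    rintro rfl
    simp [cr] at hq
  have sne : s ≠ 0 := by
    rintro rfl
    simp [cr] at hs
  obtain ⟨c, hc, hgen⟩ := exists_genPt {l, q, m, s} (by
    intro a ha
    simp only [Finset.mem_insert, Finset.mem_singleton] at ha
    rcases ha with rfl | rfl | rfl | rfl
    · exact hC.lne
    · exact qne
    · exact hC.mne
    · exact sne)
  obtain ⟨P, hP⟩ : ∃ P : X → V → Prop,
      P = CvX (AddSubgroup.closure {U, x}) l q m s φ fQ fS := ⟨_, rfl⟩
  have hall : ∀ {y : X} {c c' : V}, c ∈ Qs → c' ∈ Qs → P y c → P y c' := by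
    intro y c c' h1 h2 h3
    rw [hP] at h3 ⊢
    exact hC.all h1 h2 h3
  refine ⟨{y | P y c}, ?_, ?_, ?_, ?_⟩
  · -- a covered square
    have hne : ∃ y : X, ∃ c' ∈ Qs, TCov.Cv [(⟨0, q, q + l, fQ⟩ : Trg X)] y c' := by
      refine TCov.Cv.exists ?_ (by simp)
      intro T hT
      simp only [List.mem_singleton] at hT
      subst hT
      show 0 < tri 0 q (q + l)
      have : tri 0 q (q + l) = cr q l := by
        simp only [tri, cr, Prod.fst_sub, Prod.snd_sub, Prod.fst_add, Prod.snd_add, Prod.fst_zero,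
          Prod.snd_zero]
        ring
      rw [this]
      exact hq
    obtain ⟨y, c', hc', T, hT, z, h1, h2⟩ := hne
    simp only [List.mem_singleton] at hT
    subst hT
    refine ⟨y, hall hc' hc ?_⟩
    rw [hP]
    refine Or.inr (Or.inl ⟨z, ?_, h2⟩)
    have h3 := mem_Tri h1 (fun w => Qs_lattice hc' z w)
    exact t1_sub (P := (⟨q, l, fQ⟩ : Pg X)) hq h3
  · intro y hy
    refine hall q0mem hc ?_
    have := hall hc q1mem hy
    rw [hP] at this ⊢
    exact hC.right this
  · intro y hy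
    refine hall q0mem' hc ?_
    have := hall hc q1mem' hy
    rw [hP] at this ⊢
    exact hC.up this
  · have e : {y | P y c} = {y | ∃ z, Reg (AddSubgroup.closure {U, x}) l m (em z + c) ∧
          φ (em z + c) z = y} ∪ ({y | ∃ z, em z + c ∈ Pgm q l ∧ fQ z = y} ∪
            {y | ∃ z, em z + c ∈ Pgm s m ∧ fS z = y}) := by
      rw [hP]; rfl
    obtain ⟨t1, t2⟩ := count_torus hC.spd hc
    obtain ⟨t3, t4⟩ := count_pgm hq (hgen l (by simp)) (hgen q (by simp)) fQ
    obtain ⟨t5, t6⟩ := count_pgm hs (hgen m (by simp)) (hgen s (by simp)) fS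
    rw [e]
    refine ⟨t1.union (t3.union t5), ?_⟩
    have u1 := Set.ncard_union_le {y | ∃ z, Reg (AddSubgroup.closure {U, x}) l m (em z + c) ∧
      φ (em z + c) z = y} ({y | ∃ z, em z + c ∈ Pgm q l ∧ fQ z = y} ∪
        {y | ∃ z, em z + c ∈ Pgm s m ∧ fS z = y})
    have u2 := Set.ncard_union_le {y | ∃ z, em z + c ∈ Pgm q l ∧ fQ z = y}
      {y | ∃ z, em z + c ∈ Pgm s m ∧ fS z = y}
    have u1' := (Int.ofNat_le.2 u1)
    have u2' := (Int.ofNat_le.2 u2)
    have t2' := (Int.ofNat_le.2 t2)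
    push_cast at u1' u2' t2'
    linarith

/-! ## Primitivity -/

theorem mq_add {S : AddSubgroup Z2} {c : Z2} (hc : c ∈ S) (z : Z2) : mq S (z + c) = mq S z := by
  show (QuotientAddGroup.mk (z + c) : Z2 ⧸ S) = QuotientAddGroup.mk z
  rw [QuotientAddGroup.eq]
  have e : -(z + c) + z = -c := by abel
  rw [e]
  exact S.neg_mem hc

theorem mq_sub {S : AddSubgroup Z2} {c : Z2} (hc : c ∈ S) (z : Z2) : mq S (z - c) = mq S z := by
  rw [sub_eq_add_neg]
  exact mq_add (S.neg_mem hc) z

theorem SPD.prodT {O : PO X} {S Λ : AddSubgroup Z2} {l m : Z2} {L0 L1 M0 M1 : Z2 → X}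
    {φ : V → Z2 → X} (h : SPD O Λ l m L0 L1 M0 M1 φ) (hΛ : Λ ≤ S) (hl : l ∈ S) :
    SPD (O.prod (ptorus S)) Λ l m (fun z => (L0 z, mq S z)) (fun z => (L1 z, mq S z))
      (fun z => (M0 z, mq S z)) (fun z => (M1 z, mq S z)) (fun y z => (φ y z, mq S z)) := by
  have dv : ∀ {y : V} {f : Z2 → X}, DevAt O y f →
      DevAt (O.prod (ptorus S)) y (fun z => (f z, mq S z)) := fun hd =>
    ⟨fun z h1 h2 => Prod.ext (hd.1 z h1 h2) rfl, fun z h1 h2 => Prod.ext (hd.2 z h1 h2) rfl⟩
  refine ⟨?_, ?_, ?_, ?_, ?_, ?_, ?_, ?_, ?_, ?_, ?_⟩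
  · exact fun y hy => dv (h.dev y hy)
  · intro y hy
    filter_upwards [h.lc y hy] with y' h1 z hz
    exact Prod.ext (h1 z hz) rfl
  · intro y hy c hc z hz
    exact Prod.ext (h.per y hy c hc z hz) (mq_add (hΛ hc) z)
  · intro y hy
    filter_upwards [h.sL0 y hy] with y' h1 h2 z hz
    exact Prod.ext (h1 h2 z hz) (mq_sub hl z)
  · intro y hy
    filter_upwards [h.sL1 y hy] with y' h1 h2 z hz
    exact Prod.ext (h1 h2 z hz) (mq_sub hl z)
  · intro y hy
    filter_upwards [h.sM0 y hy] with y' h1 h2 z hz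
    exact Prod.ext (h1 h2 z hz) rfl
  · intro y hy
    filter_upwards [h.sM1 y hy] with y' h1 h2 z hz
    exact Prod.ext (h1 h2 z hz) rfl
  · exact fun y hy => dv (h.dL0 y hy)
  · exact fun y hy => dv (h.dL1 y hy)
  · exact fun y hy => dv (h.dM0 y hy)
  · exact fun y hy => dv (h.dM1 y hy)

theorem HasC.prodT {O : PO X} {S Λ : AddSubgroup Z2} {l q m s : Z2} (h : HasC O Λ l q m s)
    (hΛ : Λ ≤ S) (hl : l ∈ S) (hq : q ∈ S) (hm : m ∈ S) (hs : s ∈ S) :
    HasC (O.prod (ptorus S)) Λ l q m s := by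
  obtain ⟨L0, L1, M0, M1, Q, T, φ, h1, h2, h3⟩ := h
  exact ⟨_, _, _, _, _, _, _, h1.prodT hΛ hl, h2.prod (ptorus_par hq hl h2.1),
    h3.prod (ptorus_par hs hm h3.1)⟩

/-- **Primitivity.** The six vectors of a configuration generate the lattice. -/
theorem spanC_top [Finite X] {O : PO X} (hO : O.Trans) (hp : O.Prim) {U x l q m s : Z2}
    (h : OKC O (U, x, l, q, m, s)) (hX : (Nat.card X : ℤ) = volC (U, x, l, q, m, s)) :
    AddSubgroup.closure ({U, x, l, q, m, s} : Set Z2) = ⊤ := by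
  obtain ⟨hW, hC, hE⟩ := id h
  have hlm : cr l m ≠ 0 := by
    refine hE.ne ⟨x, AddSubgroup.subset_closure (by simp), ?_⟩
    rintro rfl
    simp [cr] at hW
  obtain ⟨S, hS⟩ : ∃ S : AddSubgroup Z2,
      S = AddSubgroup.closure ({U, x, l, q, m, s} : Set Z2) := ⟨_, rfl⟩
  rw [← hS]
  have mU : U ∈ S := by rw [hS]; exact AddSubgroup.subset_closure (by simp)
  have mx : x ∈ S := by rw [hS]; exact AddSubgroup.subset_closure (by simp)
  have ml : l ∈ S := by rw [hS]; exact AddSubgroup.subset_closure (by simp)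
  have mqq : q ∈ S := by rw [hS]; exact AddSubgroup.subset_closure (by simp)
  have mm : m ∈ S := by rw [hS]; exact AddSubgroup.subset_closure (by simp)
  have ms : s ∈ S := by rw [hS]; exact AddSubgroup.subset_closure (by simp)
  have hΛ : AddSubgroup.closure ({U, x} : Set Z2) ≤ S := by
    rw [AddSubgroup.closure_le]
    rintro z (rfl | rfl)
    · exact mU
    · exact mx
  have hfin : Finite (Z2 ⧸ S) := finite_quotient _ (a := U) (b := x) mU mx hW
  obtain ⟨R, hne, hr, hu, -, hcard⟩ := coreC (hC.prodT hΛ ml mqq mm ms) hE hlm hW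
  have h1 : R.ncard ≤ Nat.card X := by
    have e : cr U x + cr q l + cr s m = volC (U, x, l, q, m, s) := rfl
    rw [e, ← hX] at hcard
    exact_mod_cast hcard
  have p1 := pproj_fst hO hne hr hu
  choose F hF using p1
  have hun : ∀ {x : X} {y : Z2 ⧸ S}, (x, y) ∈ R → F x = y := fun hxy =>
    graph_unique R (fun x => ⟨F x, hF x⟩) h1 (hF _) hxy
  have hFr : ∀ x, F (O.r x) = F x + QuotientAddGroup.mk (1, 0) := fun x => hun (hr _ (hF x))
  have hFu : ∀ x, F (O.u x) = F x + QuotientAddGroup.mk (0, 1) := fun x => hun (hu _ (hF x))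
  have hpath : ∀ {x y : X} {w : Z2}, Path6 O x w y → F y = F x + QuotientAddGroup.mk w := by
    intro x y w hxy
    induction hxy with
    | refl => rw [QuotientAddGroup.mk_zero, add_zero]
    | right _ ih => rw [hFr, ih, add_assoc, ← QuotientAddGroup.mk_add]
    | @left y w _ ih =>
      have := hFr (O.r.symm y)
      rw [O.r.apply_symm_apply, ih] at this
      rw [QuotientAddGroup.mk_sub, ← add_sub_assoc, this, add_sub_cancel_right]
    | up _ ih => rw [hFu, ih, add_assoc, ← QuotientAddGroup.mk_add]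
    | @down y w _ ih =>
      have := hFu (O.u.symm y)
      rw [O.u.apply_symm_apply, ih] at this
      rw [QuotientAddGroup.mk_sub, ← add_sub_assoc, this, add_sub_cancel_right]
  obtain ⟨⟨y, _⟩, _⟩ := hne
  rw [eq_top_iff]
  intro w _
  have := hpath (hp y w)
  have h2 : (QuotientAddGroup.mk w : Z2 ⧸ S) = 0 := by
    have h3 : F y + 0 = F y + QuotientAddGroup.mk w := by rw [add_zero]; exact this
    exact (add_left_cancel h3).symm
  exact (QuotientAddGroup.eq_zero_iff w).1 h2

end Pool.Agent.H4G.Six
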