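import Pool.Agent.H4G.Six.RectSize
import Pool.Agent.H4G.Six.SpanC

/-!
# BOUNDED RECT (row A12, helper69)

`RC.size`: in a primitive origami of `N` squares the least value `r` of `|l × m|` satisfies
`r ≤ 16 T ^ 18` for every `T` with `N ≤ T r`; hence `N ≤ 16 T ^ 19`.
-/

set_option autoImplicit false

namespace Pool.Agent.H4G.Six

open Pool.Agent.H4G

variable {X : Type} [Finite X] {O : PO X} {N r T : ℤ} {U x l q m s : Z2}

/-- the periods of a configuration in the normal form -/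
theorem RNorm.gen (hR : RNorm O U x l q m s) (hO : O.Trans) (hp : O.Prim)
    (hX : (Nat.card X : ℤ) = N) (hN : volC (U, x, l, q, m, s) = N) :
    AddSubgroup.closure ({U, x, l, q, m, s} : Set Z2) = ⊤ :=
  spanC_top hO hp hR.okc (hX.trans hN.symm)

theorem RC.size (h : RC O N r) (hO : O.Trans) (hp : O.Prim) (hX : (Nat.card X : ℤ) = N)
    (hT : N ≤ T * r) : r ≤ 16 * T ^ 18 := by
  obtain ⟨U, x, l, q, m, s, h1, h2, h3⟩ := h.norm
  exact h1.size h h2 h3 (h1.gen hO hp hX h2) hT

/-- **BOUNDED SCALED GEOMETRY**: `N ≤ T r` implies `N ≤ 16 T ^ 19` -/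
theorem RC.bound (h : RC O N r) (hO : O.Trans) (hp : O.Prim) (hX : (Nat.card X : ℤ) = N)
    (hN : 0 < N) (hT : N ≤ T * r) : N ≤ 16 * T ^ 19 := by
  have h1 := h.size hO hp hX hT
  have h2 := h.conf.pos
  have h3 : 0 < T := by
    have : 0 < T * r := by linarith
    exact (pos_iff_pos_of_mul_pos this).2 h2
  calc N ≤ T * r := hT
    _ ≤ T * (16 * T ^ 18) := mul_le_mul_of_nonneg_left h1 h3.le
    _ = 16 * T ^ 19 := by ring

end Pool.Agent.H4G.Six
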