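import Pool.Agent.H4G.Six.Yng95
import Pool.Agent.H4G.Six.RectBound

/-!
# Theorem B from `RC` (helper58; copied from `RMin` to `RC` by helper95)

The proofs are those of `TheoremB0`, `TheoremB` with `RC.toRect`, `RC.norm`. `RC.stage1`: if all
contents are at least `N / K`, then `N` is bounded.
-/

set_option autoImplicit false

namespace Pool.Agent.H4G.Six

open Pool.Agent.H4G

variable {X : Type} {O : PO X} {N K r σ E F H T J : ℤ} {U x u v l q m s z : Z2}

/-- `n1` is an integer, or the geometry is bounded -/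
theorem Yng.n1C (h : Yng O N r σ E F H T U x l q m s) (hm : RC O N r) (hco : Coarse O N K)
    (hK : 0 < K) : (∃ n1, n1 * (E * r) = (E + T) * (F - r)) ∨ N ≤ K ^ 2 * r := by
  have hr0 := h.r0
  have hE0 : 0 < E := hr0.trans h.rE
  have hT0 := h.T0
  obtain ⟨s', j1, j2, -, -, j3, j4, j5, j6, j7⟩ := h.move (y := 1) (k := 1) one_pos
    isCoprime_one_left (by linarith) rfl
  set m' : Z2 := (1 : ℤ) • m + (1 : ℤ) • (U + s) with hm'
  rw [one_mul] at j3 j4 j5 j6 j7
  have hB : cr (x - m + m') (-U) = cr U (x - m + m') := by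
    rw [cr_negr, cr_swap' U, neg_neg]
  have hbas : AddSubgroup.closure ({U, x - m + m'} : Set Z2) =
      AddSubgroup.closure {x - m + m', -U} := by
    rw [clo_neg_right, clo_comm]
  have hok : OKC O (U, x - m + m', l, q, m', s') :=
    j1.basis hbas (by rw [← hB]; exact j1.1)
  have hvol : volC (U, x - m + m', l, q, m', s') = N := by
    rw [← j2]
    simp only [volC, hB]
  have habs : |cr l m'| = r := by rw [j3, abs_mul, h.sa, one_mul, abs_of_pos hr0]
  have hWE : E < cr U (x - m + m') := by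
    rw [hB] at j7
    have : E * r < cr U (x - m + m') * r := by
      rw [j7]
      have := h.rF
      exact mul_lt_mul_of_pos_left (by linarith) hE0
    exact lt_of_mul_lt_mul_right this hr0.le
  have hBig : Big (AddSubgroup.closure {U, x - m + m'}) (cr U (x - m + m')) l m' := by
    refine Or.inr (Or.inr (Or.inr ⟨U, AddSubgroup.subset_closure (by simp), h.Ul, ?_, ?_⟩))
    · rw [abs_cr_comm, habs, j4, abs_of_pos hE0]; exact h.rE
    · rw [j4, abs_of_pos hE0]; exact hWE.le
  obtain ⟨q1, s1, hR, -⟩ := hm.toRect hok hvol habs hBig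
  have hg : r ≤ Int.gcd E (cr (x - m + m') m') := by
    have := hR.gm.gcd_le (Or.inl (by rw [j4]; exact hE0.ne'))
    rwa [habs, j4] at this
  by_cases hd : E ∣ cr (x - m + m') m'
  · left
    obtain ⟨n, hn⟩ := hd
    refine ⟨-n, ?_⟩
    rw [hn] at j6
    linear_combination -j6
  · right
    refine hco.row hK hok hvol (F := F) h.sgn hr0 j3 h.Ul j4 ?_ h.rE h.rF.le hg hd
    rw [cr_swap', j5]
    ring

/-- `n2` is an integer, or the geometry is bounded -/
theorem Yng.n2C (h : Yng O N r σ E F H T U x l q m s) (hm : RC O N r) (hco : Coarse O N K)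
    (hK : 0 < K) : (∃ n2, n2 * (F * r) = (F + H) * (E - r)) ∨ N ≤ K ^ 2 * r :=
  h.rev.n1C hm hco hK

/-- the least configuration has a bounded geometry, or it is a Young configuration -/
theorem RC.yng_or (hm : RC O N r) (hco : Coarse O N K) (hK : 0 < K) :
    N ≤ K ^ 2 * r ∨ ∃ E F H T U x l q m s, Yng O N r 1 E F H T U x l q m s := by
  obtain ⟨U, x, l, q, m, s, h1, h2, h3⟩ := hm.norm
  have hr0 : 0 < r := by rw [← h3]; exact h1.pos
  have hE := h1.X0
  have hF := h1.eta
  have hg := h1.tau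
  have hC := h1.okc
  have hUl := h1.Ul
  rw [h3] at hE hF hg
  by_cases hd : cr U m ∣ cr x m
  · obtain ⟨c, hc⟩ := hd
    have hcl : AddSubgroup.closure ({U, x - c • U} : Set Z2) = AddSubgroup.closure {U, x} := by
      apply le_antisymm
      · rw [AddSubgroup.closure_le]
        rintro w (rfl | rfl)
        · exact AddSubgroup.mem_closure_pair.2 ⟨1, 0, by module⟩
        · exact AddSubgroup.mem_closure_pair.2 ⟨-c, 1, by module⟩
      · rw [AddSubgroup.closure_le]
        rintro w (rfl | rfl)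
        · exact AddSubgroup.mem_closure_pair.2 ⟨1, 0, by module⟩
        · exact AddSubgroup.mem_closure_pair.2 ⟨c, 1, by module⟩
    have ha : cr U (x - c • U) = cr U x := by
      simp only [cr, Prod.fst_sub, Prod.snd_sub, Prod.smul_fst, Prod.smul_snd, smul_eq_mul]; ring
    have hC1 : OKC O (U, x - c • U, l, q, m, s) := hC.basis hcl (by rw [ha]; exact hC.1)
    have hN1 : volC (U, x - c • U, l, q, m, s) = N := by
      rw [← h2]
      simp only [volC, ha]
    have xm : cr (x - c • U) m = 0 := by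
      simp only [cr, Prod.fst_sub, Prod.snd_sub, Prod.smul_fst, Prod.smul_snd,
        smul_eq_mul] at hc ⊢
      linear_combination hc
    have lx : cr l (x - c • U) = cr l x := by
      simp only [cr, Prod.fst_sub, Prod.snd_sub, Prod.smul_fst, Prod.smul_snd,
        smul_eq_mul] at hUl ⊢
      linear_combination c * hUl
    have hF1 : r < cr l x := by
      by_contra hcon
      have hFr : cr l x = r := le_antisymm (not_lt.1 hcon) hF
      refine hC1.2.2 (x - c • U) (AddSubgroup.subset_closure (by simp)) ?_ ?_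
      · intro e
        rw [e, cr_zero'] at lx
        linarith
      · rw [xm, lx, hFr, h3]
        exact ⟨by simp, by rw [zero_mul]; exact (mul_pos hr0 hr0).le, (mul_pos hr0 hr0).le,
          le_rfl⟩
    by_cases hy : cr U m * cr l x ≤ (cr U m + cr l x) * r
    · right
      exact ⟨cr U m, cr l x, cr q l, cr s m, U, x - c • U, l, q, m, s,
        ⟨hC1, hN1, Or.inl rfl, hr0, by rw [h3, one_mul], hUl, rfl, xm, by rw [lx, one_mul], h1.qm,
          h1.sl, rfl, rfl, hE, hF1, hy⟩⟩
    · left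
      exact hco.corner hK hC1 hN1 hr0 h3 hUl rfl xm lx hE hF1 (not_le.1 hy)
  · left
    exact hco.row hK hC h2 (σ := 1) (Or.inl rfl) hr0 (by rw [h3, one_mul]) hUl rfl
      (by rw [one_mul]) hE hF hg hd

/-- THEOREM B -/
theorem RC.theoremB0 (hm : RC O N r) (hco : Coarse O N K) (hK : 3 ≤ K) (hY : YngMain O N K r) :
    N ≤ K ^ 4 * r := by
  have hK0 : 0 < K := by linarith
  have hr0 : 0 < r := hm.conf.pos
  have hk2 : K ^ 2 * r ≤ K ^ 4 * r := by
    refine mul_le_mul_of_nonneg_right ?_ hr0.le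
    exact pow_le_pow_right₀ (by linarith) (by norm_num)
  have hk3 : (K ^ 2 + 2 * K) * r ≤ K ^ 4 * r := by
    refine mul_le_mul_of_nonneg_right ?_ hr0.le
    have : K ^ 2 * 9 ≤ K ^ 2 * K ^ 2 := mul_le_mul_of_nonneg_left (by nlinarith) (sq_nonneg K)
    have : K ^ 4 = K ^ 2 * K ^ 2 := by ring
    nlinarith
  rcases hm.yng_or hco hK0 with h | ⟨E, F, H, T, U, x, l, q, m, s, h⟩
  · exact h.trans hk2
  rcases h.n1C hm hco hK0 with ⟨n1, e1⟩ | g
  swap
  · exact g.trans hk2
  rcases h.n2C hm hco hK0 with ⟨n2, e2⟩ | g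
  swap
  · exact g.trans hk2
  by_cases hE : K * E < N
  swap
  · exact (h.large e1 hK0 (not_lt.1 hE)).trans hk3
  by_cases hF : K * F < N
  swap
  · exact (h.rev.large e2 hK0 (not_lt.1 hF)).trans hk3
  rcases le_total H T with g | g
  · exact hY _ _ _ _ _ _ _ _ _ _ _ _ _ h e1 e2 hE hF g
  · exact hY _ _ _ _ _ _ _ _ _ _ _ _ _ h.rev e2 e1 hF hE g

/-- **THEOREM B from `RC`** -/
theorem RC.theoremB (hm : RC O N r) (hco : Coarse O N K)
    (hcap : ∀ a n : ℤ, 0 < n → n ≤ N ^ 2 → ∃ y, a ≤ y ∧ y < a + J ∧ IsCoprime n y)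
    (hK : 100 * (J + 2) ^ 2 ≤ K) : N ≤ K ^ 4 * r := by
  obtain ⟨U, x, l, q, m, s, h1, h2, -, -⟩ := hm.conf
  have hN : 0 < N := h1.1.trans (volC_pos h1 h2)
  have J1 : 1 ≤ J := by
    obtain ⟨y, y1, y2, -⟩ := hcap 0 1 one_pos (by nlinarith)
    linarith
  exact hm.theoremB0 hco (by nlinarith) (yngMain hco hcap hK)

/-- **STAGE I**: a positive least `|l × m|` and contents at least `N / K`, then `N ≤ 16 K ^ 76`. -/
theorem RC.stage1 [Finite X] (hm : RC O N r) (hO : O.Trans) (hp : O.Prim) (hX : (Nat.card X : ℤ) = N)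
    (hco : Coarse O N K)
    (hcap : ∀ a n : ℤ, 0 < n → n ≤ N ^ 2 → ∃ y, a ≤ y ∧ y < a + J ∧ IsCoprime n y)
    (hK : 100 * (J + 2) ^ 2 ≤ K) : N ≤ 16 * (K ^ 4) ^ 19 := by
  obtain ⟨U, x, l, q, m, s, h1, h2, -, -⟩ := hm.conf
  have hN : 0 < N := h1.1.trans (volC_pos h1 h2)
  exact hm.bound hO hp hX hN (hm.theoremB hco hcap hK)

end Pool.Agent.H4G.Six
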