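import Pool.Agent.H4G.Six.Block6

/-!
# Bases of a lattice with the first vector in a convex region (helper91)

`FRel D P E`: `E` is an equivalence relation on pairs `(l, p)` with `l × p = D` which contains
`(l, p) ~ (l, p + l)` for `P l` and `(l, p) ~ (l + p, p)` for `P l`, `P (l + p)`. If `P` is convex
(with the origin), any two bases of a lattice with first vectors in `P` are related.
-/

set_option autoImplicit false

namespace Pool.Agent.H4G.Six

open Pool.Agent.H4G

/-- An equivalence relation on pairs which contains the two steps. -/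
structure FRel (D : ℤ) (P : Z2 → Prop) (E : Z2 × Z2 → Z2 × Z2 → Prop) : Prop where
  refl : ∀ a, E a a
  symm : ∀ a b, E a b → E b a
  trans : ∀ a b c, E a b → E b c → E a c
  ta : ∀ l p, cr l p = D → P l → E (l, p) (l, p + l)
  tb : ∀ l p, cr l p = D → P l → P (l + p) → E (l, p) (l + p, p)

/-- The region is convex (together with the origin) and contains no pair `l, -l`. -/
structure FCvx (P : Z2 → Prop) : Prop where
  neg : ∀ l, P l → ¬ P (-l)
  comb : ∀ (n k : ℤ) (l l1 l2 : Z2), 0 < n → 0 ≤ k → k < n → n • l2 = l1 + k • l → P l → P l1 →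
    P l2

namespace FRel

variable {D : ℤ} {P : Z2 → Prop} {E : Z2 × Z2 → Z2 × Z2 → Prop}

theorem tak (hE : FRel D P E) {l p : Z2} (h : cr l p = D) (hl : P l) (k : ℤ) :
    E (l, p) (l, p + k • l) := by
  have hcr : ∀ k : ℤ, cr l (p + k • l) = D := by
    intro k
    rw [cr_add_right, cr_smul_right, cr_self, h]; ring
  induction k using Int.induction_on with
  | zero => simpa using hE.refl _
  | succ n ih =>
    refine hE.trans _ _ _ ih ?_
    have := hE.ta l _ (hcr n) hl
    rw [add_assoc, ← add_one_zsmul] at this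
    exact this
  | pred n ih =>
    refine hE.trans _ _ _ ih ?_
    have := hE.ta l _ (hcr (-n - 1)) hl
    rw [add_assoc, ← add_one_zsmul, sub_add_cancel] at this
    exact hE.symm _ _ this

/-- the basic step -/
theorem blk (hE : FRel D P E) {l p : Z2} (h : cr l p = D) (hl : P l) (k : ℤ)
    (hk : P (k • l + p)) : E (l, p) (k • l + p, -l) := by
  refine hE.trans _ _ _ (hE.tak h hl (k - 1)) ?_
  have e1 : l + (p + (k - 1) • l) = k • l + p := by
    rw [sub_smul, one_smul]; abel
  have h1 : cr l (p + (k - 1) • l) = D := by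
    rw [cr_add_right, cr_smul_right, cr_self, h]; ring
  have hm := hE.tb l (p + (k - 1) • l) h1 hl (by rw [e1]; exact hk)
  rw [e1] at hm
  refine hE.trans _ _ _ hm ?_
  have h2 : cr (k • l + p) (p + (k - 1) • l) = D := by
    rw [← h]
    simp only [cr_add_left, cr_add_right, cr_smul_left, cr_smul_right, cr_self]
    rw [cr_swap p l]; ring
  have := hE.tak (l := k • l + p) (p := p + (k - 1) • l) h2 hk (-1)
  have e2 : p + (k - 1) • l + (-1 : ℤ) • (k • l + p) = -l := by
    rw [neg_smul, one_smul, sub_smul, one_smul]; abel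
  rw [e2] at this
  exact this

/-- the basic step, second form -/
theorem blk' (hE : FRel D P E) {l p : Z2} (h : cr l p = D) (hl : P l) (k : ℤ)
    (hk : P (k • l - p)) : E (l, p) (k • l - p, l) := by
  have h1 : cr (k • l - p) l = D := by
    rw [← h, cr_sub_left, cr_smul_left, cr_self, cr_swap p l]; ring
  have h2 := hE.blk (l := k • l - p) (p := l) h1 hk 0 (by rw [zero_smul, zero_add]; exact hl)
  rw [zero_smul, zero_add, neg_sub] at h2
  have h3 := hE.tak h hl (-k)
  have e : p + (-k) • l = p - k • l := by rw [neg_smul]; abel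
  rw [e] at h3
  exact hE.trans _ _ _ h3 (hE.symm _ _ h2)

theorem aux (hE : FRel D P E) (hP : FCvx P) (n : ℕ) :
    ∀ (p l l1 p1 : Z2) (α β γ δ : ℤ), β.natAbs = n → cr l p = D → P l → P l1 →
      l1 = α • l + β • p → p1 = γ • l + δ • p → α * δ - β * γ = 1 → E (l, p) (l1, p1) := by
  induction n using Nat.strong_induction_on with
  | _ n ih =>
  intro p l l1 p1 α β γ δ hn hp hl hl' hl1 hp1 hdet
  by_cases hβ : β = 0
  · subst hβ
    have hαδ : α * δ = 1 := by linarith
    have hα : α = 1 := by
      rcases Int.eq_one_or_neg_one_of_mul_eq_one hαδ with h | h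
      · exact h
      · exfalso
        rw [hl1, h, zero_smul, add_zero, neg_smul, one_smul] at hl'
        exact hP.neg l hl hl'
    have hδ : δ = 1 := by rw [hα] at hαδ; linarith
    have e1 : l1 = l := by rw [hl1, hα]; simp
    have e2 : p1 = p + γ • l := by rw [hp1, hδ, one_smul]; abel
    rw [e1, e2]
    exact hE.tak hp hl γ
  · set N : ℤ := (β.natAbs : ℤ) with hN
    have hNpos : 0 < N := Int.natCast_pos.2 (Int.natAbs_pos.2 hβ)
    set t := (α - 1) / N with ht
    set r := (α - 1) % N + 1 with hr
    have hα : α = r + N * t := by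
      have := Int.emod_add_mul_ediv (α - 1) N
      rw [hr, ht]; linarith
    have hr1 : 1 ≤ r := by
      have := Int.emod_nonneg (α - 1) hNpos.ne'
      linarith
    have hr2 : r ≤ N := by
      have := Int.emod_lt_of_pos (α - 1) hNpos
      linarith
    have hnat : (N - r).natAbs < n := by
      rw [← hn]; omega
    have hnat' : (r - N).natAbs < n := by
      rw [← hn]; omega
    have key : ∀ l2 : Z2, l1 = (r - N) • l + N • l2 → P l2 := by
      intro l2 e
      refine hP.comb N (N - r) l l1 l2 hNpos (by linarith) (by linarith) ?_ hl hl'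
      rw [e]; module
    rcases Int.natAbs_eq β with hb | hb
    · have hβD : β = N := hb
      set l2 := (t + 1) • l + p with hl2
      have el1 : l1 = (r - N) • l + N • l2 := by
        rw [hl1, hl2, hβD, hα]
        module
      have k1 := key l2 el1
      have hstep := hE.blk hp hl (t + 1) k1
      rw [← hl2] at hstep
      have ecr : cr l2 (-l) = D := by
        rw [hl2, cr_neg_right, cr_add_left, cr_smul_left, cr_self, cr_swap p l, hp]; ring
      refine hE.trans _ _ _ hstep ?_
      refine ih _ hnat (-l) l2 l1 p1 N (N - r) δ ((t + 1) * δ - γ) rfl ecr k1 hl' ?_ ?_ ?_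
      · rw [el1]; module
      · rw [hp1, hl2]; module
      · rw [hα, hβD] at hdet
        linear_combination hdet
    · have hβD : β = -N := hb
      set l2 := (t + 1) • l - p with hl2
      have el1 : l1 = (r - N) • l + N • l2 := by
        rw [hl1, hl2, hβD, hα]
        module
      have k1 := key l2 el1
      have hstep := hE.blk' hp hl (t + 1) k1
      rw [← hl2] at hstep
      have ecr : cr l2 l = D := by
        rw [hl2, cr_sub_left, cr_smul_left, cr_self, cr_swap p l, hp]; ring
      refine hE.trans _ _ _ hstep ?_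
      refine ih _ hnat' l l2 l1 p1 N (r - N) (-δ) (γ + (t + 1) * δ) rfl ecr k1 hl' ?_ ?_ ?_
      · rw [el1]; module
      · rw [hp1, hl2]; module
      · rw [hα, hβD] at hdet
        linear_combination hdet

/-- Two bases of the same lattice, with the same determinant, are related. -/
theorem bases (hE : FRel D P E) (hP : FCvx P) (hD : D ≠ 0) {l p l1 p1 : Z2} (h : cr l p = D)
    (h1 : cr l1 p1 = D) (hl : P l) (hl1 : P l1) (hlat : lat l p = lat l1 p1) :
    E (l, p) (l1, p1) := by
  have m1 : l1 ∈ lat l p := by
    rw [hlat]; exact AddSubgroup.subset_closure (by simp)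
  have m2 : p1 ∈ lat l p := by
    rw [hlat]; exact AddSubgroup.subset_closure (by simp)
  obtain ⟨α, β, e1⟩ := mem_lat.1 m1
  obtain ⟨γ, δ, e2⟩ := mem_lat.1 m2
  have d1 : cr l1 p1 = (α * δ - β * γ) * cr l p := by
    rw [← e1, ← e2]
    simp only [cr_add_left, cr_add_right, cr_smul_left, cr_smul_right, cr_self]
    rw [cr_swap p l]; ring
  have hdet : α * δ - β * γ = 1 := by
    rw [h1, h] at d1
    have : (α * δ - β * γ - 1) * D = 0 := by linarith
    rcases mul_eq_zero.1 this with h | h
    · linarith
    · exact absurd h hD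
  exact hE.aux hP _ p l l1 p1 α β γ δ rfl h hl hl1 e1.symm e2.symm hdet

end FRel

theorem cr_lin (α β γ δ : ℤ) (a b : Z2) :
    cr (α • a + β • b) (γ • a + δ • b) = (α * δ - β * γ) * cr a b := by
  simp only [cr_add_left, cr_add_right, cr_smul_left, cr_smul_right, cr_self]
  rw [cr_swap b a]; ring

/-! ## The pencil of a two-handle surface -/

/-- PENCIL LEMMA: all trees with the same handles `(l, q)`, `(m, s)` and the same lattice
`⟨u, v + l + m⟩` are equivalent. -/
theorem CEq6.pencil {u v u' v' l q m s : Z2} (hp : Pos6 (u, v, l, q, m, s))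
    (hp' : Pos6 (u', v', l, q, m, s)) (h : lat u (v + l + m) = lat u' (v' + l + m)) :
    CEq6 (u, v, l, q, m, s) (u', v', l, q, m, s) := by
  obtain ⟨g1, g2, g3, g4, g5⟩ := hp
  obtain ⟨k1, k2, k3, -, -⟩ := hp'
  set D := cr u (v + l + m) with hD
  have eD : D = cr u v + cr u l + cr u m := by rw [hD, cr_add_right, cr_add_right]
  have eD' : cr u' (v' + l + m) = cr u' v' + cr u' l + cr u' m := by
    rw [cr_add_right, cr_add_right]
  have hD0 : 0 < D := by rw [eD]; linarith
  have hD0' : 0 < cr u' (v' + l + m) := by rw [eD']; linarith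
  -- the determinants agree
  have hdet : cr u' (v' + l + m) = D := by
    have m1 : u' ∈ lat u (v + l + m) := by
      rw [h]; exact AddSubgroup.subset_closure (by simp)
    have m2 : v' + l + m ∈ lat u (v + l + m) := by
      rw [h]; exact AddSubgroup.subset_closure (by simp)
    have m3 : u ∈ lat u' (v' + l + m) := by
      rw [← h]; exact AddSubgroup.subset_closure (by simp)
    have m4 : v + l + m ∈ lat u' (v' + l + m) := by
      rw [← h]; exact AddSubgroup.subset_closure (by simp)
    obtain ⟨α, β, e1⟩ := mem_lat.1 m1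
    obtain ⟨γ, δ, e2⟩ := mem_lat.1 m2
    obtain ⟨α', β', e3⟩ := mem_lat.1 m3
    obtain ⟨γ', δ', e4⟩ := mem_lat.1 m4
    have d1 : cr u' (v' + l + m) = (α * δ - β * γ) * D := by
      rw [hD, ← cr_lin, e1, e2]
    have d2 : D = (α' * δ' - β' * γ') * cr u' (v' + l + m) := by
      rw [← cr_lin, e3, e4]
    have hpos : 0 < α * δ - β * γ := by
      by_contra hn
      push Not at hn
      have : (α * δ - β * γ) * D ≤ 0 := mul_nonpos_of_nonpos_of_nonneg hn hD0.le
      linarith
    have hpos' : 0 < α' * δ' - β' * γ' := by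
      by_contra hn
      push Not at hn
      have : (α' * δ' - β' * γ') * cr u' (v' + l + m) ≤ 0 :=
        mul_nonpos_of_nonpos_of_nonneg hn hD0'.le
      linarith
    have h1 : D ≤ cr u' (v' + l + m) := by rw [d1]; nlinarith
    have h2 : cr u' (v' + l + m) ≤ D := by
      have : (1 : ℤ) * cr u' (v' + l + m) ≤ (α' * δ' - β' * γ') * cr u' (v' + l + m) :=
        mul_le_mul_of_nonneg_right hpos' hD0'.le
      linarith
    exact le_antisymm h2 h1
  have hE : FRel D (fun a => 0 < cr a l ∧ 0 < cr a m ∧ cr a l + cr a m < D)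
      (fun a b => CEq6 (a.1, a.2 - l - m, l, q, m, s) (b.1, b.2 - l - m, l, q, m, s)) := by
    refine ⟨fun a => CEq6.refl _, fun a b h => h.symm, fun a b c h h' => h.trans h', ?_, ?_⟩
    · rintro a b hab ⟨h1, h2, h3⟩
      have hv : 0 < cr a (b - l - m) := by
        rw [cr_sub_right, cr_sub_right, hab]; linarith
      have := CEq6.mv (c := (a, b - l - m, l, q, m, s)) ⟨hv, h1, h2, g4, g5⟩
        (Mv6.tv a (b - l - m) l q m s)
      have e : b - l - m + a = b + a - l - m := by abel
      rw [e] at this
      exact this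
    · rintro a b hab ⟨h1, h2, h3⟩ ⟨h4, h5, h6⟩
      have hv : 0 < cr a (b - l - m) := by
        rw [cr_sub_right, cr_sub_right, hab]; linarith
      have e : a + (b - l - m + l + m) = a + b := by abel
      have hv' : 0 < cr (a + b) (b - l - m) := by
        rw [cr_sub_right, cr_sub_right, cr_add_left a b b, cr_self, hab]; linarith
      have := CEq6.mv (c := (a, b - l - m, l, q, m, s)) ⟨hv, h1, h2, g4, g5⟩
        (Mv6.tu a (b - l - m) l q m s (by rw [e]; exact hv') (by rw [e]; exact h4)
          (by rw [e]; exact h5))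
      rw [e] at this
      exact this
  have hP : FCvx (fun a : Z2 => 0 < cr a l ∧ 0 < cr a m ∧ cr a l + cr a m < D) := by
    constructor
    · rintro a ⟨h1, -, -⟩ ⟨h2, -, -⟩
      rw [cr_neg_left] at h2
      linarith
    · rintro n k a a1 a2 hn hk hkn e ⟨h1, h2, h3⟩ ⟨h4, h5, h6⟩
      have f1 : n * cr a2 l = cr a1 l + k * cr a l := by
        rw [← cr_smul_left, e, cr_add_left, cr_smul_left]
      have f2 : n * cr a2 m = cr a1 m + k * cr a m := by
        rw [← cr_smul_left, e, cr_add_left, cr_smul_left]
      refine ⟨?_, ?_, ?_⟩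
      · by_contra hneg
        push Not at hneg
        have : n * cr a2 l ≤ 0 := mul_nonpos_of_nonneg_of_nonpos hn.le hneg
        have := mul_nonneg hk h1.le
        linarith
      · by_contra hneg
        push Not at hneg
        have : n * cr a2 m ≤ 0 := mul_nonpos_of_nonneg_of_nonpos hn.le hneg
        have := mul_nonneg hk h2.le
        linarith
      · by_contra hge
        push Not at hge
        have i1 : n * D ≤ n * (cr a2 l + cr a2 m) := mul_le_mul_of_nonneg_left hge hn.le
        have i2 : k * (cr a l + cr a m) ≤ k * D := mul_le_mul_of_nonneg_left h3.le hk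
        have i3 : (k + 1) * D ≤ n * D := mul_le_mul_of_nonneg_right (by linarith) hD0.le
        nlinarith
  have hu : 0 < cr u l ∧ 0 < cr u m ∧ cr u l + cr u m < D := ⟨g2, g3, by rw [eD]; linarith⟩
  have hu' : 0 < cr u' l ∧ 0 < cr u' m ∧ cr u' l + cr u' m < D :=
    ⟨k2, k3, by rw [← hdet, eD']; linarith⟩
  have := hE.bases hP hD0.ne' (l := u) (p := v + l + m) (l1 := u') (p1 := v' + l + m) rfl hdet
    hu hu' h
  have e1 : v + l + m - l - m = v := by abel
  have e2 : v' + l + m - l - m = v' := by abel
  simp only [e1, e2] at this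
  exact this

end Pool.Agent.H4G.Six
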