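import Pool.Agent.H4G.Six.Reach6
import Pool.Agent.H4G.Ctwo.AllN
import Pool.Agent.H4G.Ctwo.G3T

/-!
# The complete classification for large `N` from the descent (helper27)

`complete_desc`: if `Desc6 N` holds for all large `N`, then for all large `N` all three parts of
the question hold.
-/

set_option autoImplicit false

namespace Pool.Agent.H4G.Six

open Pool.Agent.H4G

/-- part (i) in its final form -/
theorem odd_form {N : ℕ} (hN : 2 ≤ N)
    (h : (∀ p : Ori N, p.POdd → p.mono = alternatingGroup (Fin N) ∨ p.mono = ⊤) ∧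
    (∃ p : Ori N, p.POdd ∧ p.mono = alternatingGroup (Fin N)) ∧
    (∃ p : Ori N, p.POdd ∧ p.mono = ⊤) ∧
    (∀ p q : Ori N, p.POdd → q.POdd →
      (p.SameOrbit q ↔ (p.mono = alternatingGroup (Fin N) ↔
        q.mono = alternatingGroup (Fin N))))) :
    (∀ p : Ori N, p.POdd → p.mono = alternatingGroup (Fin N) ∨ p.mono = ⊤) ∧
    (∃ p : Ori N, p.POdd ∧ p.mono = alternatingGroup (Fin N)) ∧
    (∃ p : Ori N, p.POdd ∧ p.mono = ⊤) ∧
    (∀ p q : Ori N, p.POdd → q.POdd → (p.SameOrbit q ↔ p.mono = q.mono)) := by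
  obtain ⟨h1, h2, h3, h4⟩ := h
  refine ⟨h1, h2, h3, fun p q hp hq => ?_⟩
  haveI : Nontrivial (Fin N) := Fin.nontrivial_iff_two_le.2 hN
  have hne : (⊤ : Subgroup (Equiv.Perm (Fin N))) ≠ alternatingGroup (Fin N) := by
    intro he
    have h5 : (alternatingGroup (Fin N)).index = 2 := alternatingGroup.index_eq_two
    rw [← he, Subgroup.index_top] at h5
    exact absurd h5 (by norm_num)
  rw [h4 p q hp hq]
  rcases h1 p hp with a | a <;> rcases h1 q hq with b | b <;> rw [a, b]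
  · simp
  · simp only [true_iff]
    exact ⟨fun h => h.symm, fun h => h.symm⟩
  · simp
  · simp [hne]

/-- parts (i), (ii) and (iii) for all large `N` from the descent -/
theorem complete_desc (h : ∃ N0 : ℕ, ∀ N : ℕ, N0 ≤ N → Desc6 N) : ∃ N0 : ℕ, ∀ N : ℕ, N0 ≤ N →
    ((∀ p : Ori N, p.POdd → p.mono = alternatingGroup (Fin N) ∨ p.mono = ⊤) ∧
      (∃ p : Ori N, p.POdd ∧ p.mono = alternatingGroup (Fin N)) ∧
      (∃ p : Ori N, p.POdd ∧ p.mono = ⊤) ∧
      ∀ p q : Ori N, p.POdd → q.POdd → (p.SameOrbit q ↔ p.mono = q.mono)) ∧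
    ((∀ p : Ori N, p.PH → ∃! v, p.HLK v) ∧
      (∀ v, (∃ p : Ori N, p.PH ∧ p.HLK v) ↔ v ∈ vals N) ∧
      ∀ p q : Ori N, p.PH → q.PH → (p.SameOrbit q ↔ ∃ v, p.HLK v ∧ q.HLK v)) := by
  obtain ⟨N1, h1⟩ := main_desc h
  obtain ⟨N2, h2⟩ := complete_all_of (chains_large_of redK_all
    (g3_all_of fun _ _ _ B _ _ _ _ _ S h1 h2 h3 => KSt.g1420 B S h1 h2 h3))
  refine ⟨max (max N1 N2) 2, fun N hN => ⟨odd_form ?_ (h1 N ?_), h2 N ?_⟩⟩
  · exact (le_max_right _ _).trans hN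
  · exact (le_max_left _ _).trans ((le_max_left _ _).trans hN)
  · exact (le_max_right _ _).trans ((le_max_left _ _).trans hN)

end Pool.Agent.H4G.Six
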