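import Pool.Agent.H4G.Six.State6
import Pool.Agent.H4G.Arith.Moves

/-!
# The (1,3)-exits on states (helper66)

-/

set_option autoImplicit false

namespace Pool.Agent.H4G.Six

open Pool.Agent.H4G

/-- The slits are embedded: the product `l × m` is not zero, and smaller than `l × x`. -/
theorem auto13 {u v l m x : Z2} (h0 : 0 < cr u v) (h1 : 0 < cr u l) (h3 : 0 < cr u m)
    (hx : cr u (v + l + m) ∣ cr u x) (a1 : 0 < cr l x) (a3 : cr m x < 0)
    (a4 : 0 < cr l x + cr m x) :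
    cr l m ≠ 0 ∧ cr l m < cr l x ∧ 0 < cr l x + cr l m := by
  have key : cr l m * cr u x = -cr m x * cr u l + cr l x * cr u m := by
    simp only [cr]; ring
  have hP : 0 < cr l m * cr u x := by
    rw [key]; nlinarith
  have hne : cr l m ≠ 0 := by
    intro h
    rw [h, zero_mul] at hP
    exact lt_irrefl _ hP
  have hux : cr u x ≠ 0 := by
    intro h
    rw [h, mul_zero] at hP
    exact lt_irrefl _ hP
  have hW : cr u (v + l + m) = cr u v + cr u l + cr u m := by
    rw [cr_add_right, cr_add_right]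
  have hle : |cr u (v + l + m)| ≤ |cr u x| := by
    obtain ⟨t, ht⟩ := hx
    have ht0 : t ≠ 0 := by
      rintro rfl
      exact hux (by rw [ht, mul_zero])
    rw [ht, abs_mul]
    have h1 : 1 ≤ |t| := Int.one_le_abs ht0
    nlinarith [abs_nonneg (cr u (v + l + m))]
  rw [hW, abs_of_pos (by linarith)] at hle
  have habs : |cr l m| < cr l x := by
    by_contra hc
    push Not at hc
    have e1 : cr l m * cr u x = |cr l m| * |cr u x| := by
      rw [← abs_mul, abs_of_pos hP]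
    rw [e1] at key
    have h5 : |cr l m| * (cr u v + cr u l + cr u m) ≤ |cr l m| * |cr u x| :=
      mul_le_mul_of_nonneg_left hle (abs_nonneg _)
    have h6 : 0 < |cr l m| := abs_pos.2 hne
    nlinarith [mul_pos h6 h0, mul_le_mul_of_nonneg_right hc h1.le,
      mul_le_mul_of_nonneg_right hc h3.le, mul_pos (show 0 < cr l x + cr m x from a4) h1]
  obtain ⟨b1, b2⟩ := abs_lt.1 habs
  exact ⟨hne, b2, by linarith⟩

/-- the two exits on trees -/
structure Ex13 : Prop where
  exP : ∀ u v l q m s U x u' x' : Z2, Pos6 (u, v, l, q, m, s) →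
    lat U x = lat u (v + l + m) → cr U x = cr u (v + l + m) → 0 < cr l x → cr l x < cr U x →
    cr m x < 0 → 0 < cr l x + cr m x → 0 < cr l m → cr l m < cr l x →
    lat u' x' = lat l (x - q) → cr u' x' = cr l x + cr q l → 0 < cr u' (x' + m - x) →
    0 < cr u' (-m) → 0 < cr u' x →
    CEq6 (u, v, l, q, m, s) (u', x' + m - x, -m, -s, x, U - l)
  exM : ∀ u v l q m s U x u' x' : Z2, Pos6 (u, v, l, q, m, s) →
    lat U x = lat u (v + l + m) → cr U x = cr u (v + l + m) → 0 < cr l x → cr l x < cr U x →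
    cr m x < 0 → 0 < cr l x + cr m x → cr l m < 0 → 0 < cr l x + cr l m →
    lat u' x' = lat l (x - q) → cr u' x' = cr l x + cr q l → 0 < cr u' (x' + m + x) →
    0 < cr u' (-m) → 0 < cr u' (-x) →
    CEq6 (u, v, l, q, m, s) (u', x' + m + x, -m, -s, -x, l - U)

theorem lat_unimod {l y u' x' : Z2} {al be ga de : ℤ} (h1 : u' = al • l + be • y)
    (h2 : x' = ga • l + de • y) (h : al * de - be * ga = 1) :
    lat u' x' = lat l y ∧ cr u' x' = cr l y := by
  refine ⟨closure_pair_eq h1 h2 (Or.inl (by linarith)), ?_⟩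
  rw [h1, h2]
  simp only [cr_add_left, cr_add_right, cr_smul_left, cr_smul_right, cr_self]
  rw [cr_swap y l]
  linear_combination (cr l y) * h

/-- (1,3)-EXIT of a state, the slit `m` on the left of `l`. -/
theorem SEq6.exP (H : Ex13) {L M : AddSubgroup Z2} {u v l p m p' U x u' x' : Z2}
    {i j i1 j1 al be ga de : ℤ} (h0 : 0 < cr u v)
    (hL : lat l p = L) (h1 : 0 < cr u l) (h2 : cr u l < cr p l)
    (hM : lat m p' = M) (h3 : 0 < cr u m) (h4 : cr u m < cr p' m)
    (hx : x = i • u + j • (v + l + m)) (hU : U = i1 • u + j1 • (v + l + m))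
    (hd : i1 * j - j1 * i = 1) (a1 : 0 < cr l x) (a2 : cr l x < cr u (v + l + m))
    (a3 : cr m x < 0) (a4 : 0 < cr l x + cr m x) (a5 : 0 < cr l m)
    (hu' : u' = al • l + be • (x + u - p)) (hx' : x' = ga • l + de • (x + u - p))
    (hd' : al * de - be * ga = 1) (g1 : cr u' m < 0) (g2 : 0 < cr u' x)
    (g0 : cr u' x - cr u' m < cr l x + cr p l - cr u l) :
    SEq6 ⟨L, M, u, v⟩ ⟨lat m (p' - u - u'), lat x (u' + U - l), u', x' + m - x⟩ := by
  have hp : Pos6 (u, v, l, p - u, m, p' - u) :=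
    ⟨h0, h1, h3, by rw [cr_sub_left]; linarith, by rw [cr_sub_left]; linarith⟩
  obtain ⟨e1, e2⟩ := lat_unimod hU hx hd
  obtain ⟨e3, e4⟩ := lat_unimod hu' hx' hd'
  have hau := auto13 (v := v) h0 h1 h3 (x := x) (by
    rw [hx]
    refine ⟨j, ?_⟩
    rw [cr_add_right, cr_smul_right, cr_smul_right, cr_self]; ring) a1 a3 a4
  have e5 : x + u - p = x - (p - u) := by abel
  rw [e5] at e3
  have e6 : cr u' x' = cr l x + cr (p - u) l := by
    rw [e4]
    simp only [cr_add_right, cr_sub_right, cr_sub_left]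
    rw [cr_swap l p, cr_swap l u]; ring
  have e7 : cr u' x' = cr l x + cr p l - cr u l := by rw [e6, cr_sub_left]; ring
  have g3 : 0 < cr u' (x' + m - x) := by
    rw [cr_sub_right, cr_add_right]; linarith
  have g4 : 0 < cr u' (-m) := by rw [cr_neg_right]; linarith
  have key := H.exP u v l (p - u) m (p' - u) U x u' x' hp e1 e2 a1 (by rw [e2]; exact a2) a3 a4 a5
    hau.2.1 e3 e6 g3 g4 g2
  refine ⟨_, _, ⟨rfl, rfl, h0, blk6_mk hL h1 h2, blk6_mk hM h3 h4⟩,
    ⟨rfl, rfl, g3, ⟨g4, ?_, ?_⟩, ⟨g2, ?_, ?_⟩⟩, key⟩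
  · show 0 < cr (-(p' - u)) (-m)
    rw [cr_neg_left, cr_neg_right, neg_neg]; exact hp.2.2.2.2
  · show lat (-m) (u' + -(p' - u)) = lat m (p' - u - u')
    rw [show u' + -(p' - u) = -(p' - u - u') by abel, lat_neg_left, lat_neg_right]
  · show 0 < cr (U - l) x
    rw [cr_sub_left, e2]; linarith
  · show lat x (u' + (U - l)) = lat x (u' + U - l)
    rw [add_sub_assoc]

/-- (1,3)-EXIT of a state, the slit `m` on the right of `l`. -/
theorem SEq6.exM (H : Ex13) {L M : AddSubgroup Z2} {u v l p m p' U x u' x' : Z2}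
    {i j i1 j1 al be ga de : ℤ} (h0 : 0 < cr u v)
    (hL : lat l p = L) (h1 : 0 < cr u l) (h2 : cr u l < cr p l)
    (hM : lat m p' = M) (h3 : 0 < cr u m) (h4 : cr u m < cr p' m)
    (hx : x = i • u + j • (v + l + m)) (hU : U = i1 • u + j1 • (v + l + m))
    (hd : i1 * j - j1 * i = 1) (a1 : 0 < cr l x) (a2 : cr l x < cr u (v + l + m))
    (a3 : cr m x < 0) (a4 : 0 < cr l x + cr m x) (a5 : cr l m < 0)
    (hu' : u' = al • l + be • (x + u - p)) (hx' : x' = ga • l + de • (x + u - p))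
    (hd' : al * de - be * ga = 1) (g1 : cr u' m < 0) (g2 : cr u' x < 0)
    (g0 : -cr u' x - cr u' m < cr l x + cr p l - cr u l) :
    SEq6 ⟨L, M, u, v⟩ ⟨lat m (p' - u - u'), lat x (u' + l - U), u', x' + m + x⟩ := by
  have hp : Pos6 (u, v, l, p - u, m, p' - u) :=
    ⟨h0, h1, h3, by rw [cr_sub_left]; linarith, by rw [cr_sub_left]; linarith⟩
  obtain ⟨e1, e2⟩ := lat_unimod hU hx hd
  obtain ⟨e3, e4⟩ := lat_unimod hu' hx' hd'
  have hau := auto13 (v := v) h0 h1 h3 (x := x) (by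
    rw [hx]
    refine ⟨j, ?_⟩
    rw [cr_add_right, cr_smul_right, cr_smul_right, cr_self]; ring) a1 a3 a4
  have e5 : x + u - p = x - (p - u) := by abel
  rw [e5] at e3
  have e6 : cr u' x' = cr l x + cr (p - u) l := by
    rw [e4]
    simp only [cr_add_right, cr_sub_right, cr_sub_left]
    rw [cr_swap l p, cr_swap l u]; ring
  have g3 : 0 < cr u' (x' + m + x) := by
    have e7 : cr u' x' = cr l x + cr p l - cr u l := by rw [e6, cr_sub_left]; ring
    rw [cr_add_right, cr_add_right]; linarith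
  have g4 : 0 < cr u' (-m) := by rw [cr_neg_right]; linarith
  have g5 : 0 < cr u' (-x) := by rw [cr_neg_right]; linarith
  have key := H.exM u v l (p - u) m (p' - u) U x u' x' hp e1 e2 a1 (by rw [e2]; exact a2) a3 a4 a5
    hau.2.2 e3 e6 g3 g4 g5
  refine ⟨_, _, ⟨rfl, rfl, h0, blk6_mk hL h1 h2, blk6_mk hM h3 h4⟩,
    ⟨rfl, rfl, g3, ⟨g4, ?_, ?_⟩, ⟨g5, ?_, ?_⟩⟩, key⟩
  · show 0 < cr (-(p' - u)) (-m)
    rw [cr_neg_left, cr_neg_right, neg_neg]; exact hp.2.2.2.2
  · show lat (-m) (u' + -(p' - u)) = lat m (p' - u - u')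
    rw [show u' + -(p' - u) = -(p' - u - u') by abel, lat_neg_left, lat_neg_right]
  · show 0 < cr (l - U) (-x)
    rw [cr_neg_right, cr_sub_left, e2]; linarith
  · show lat (-x) (u' + (l - U)) = lat x (u' + l - U)
    rw [lat_neg_left, add_sub_assoc]

end Pool.Agent.H4G.Six
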