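import Pool.Agent.H4G.Six.ForkCRT
import Pool.Agent.H4G.Six.State13

/-!
# Forks (helper2)

A fork is a tree with parallel slits `l ∥ m`. The centre `⟨u, v + l + m⟩` has a basis `(u₀, x₀)`
with `x₀ ∥ l`, and all vectors `u₀ + j x₀` are new slit vectors. By the Chinese remainder theorem
the content of `u' × L'` can be made as small as possible.
-/

set_option autoImplicit false

namespace Pool.Agent.H4G.Six

open Pool.Agent.H4G

/-- the basis of the centre at a fork -/
theorem exists_fork {u v l m : Z2} (h1 : 0 < cr u l) (h3 : 0 < cr u m)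
    (hlm : cr l m = 0) : ∃ u0 x0 : Z2, ∃ i j i' j' : ℤ, u = i • u0 + j • x0 ∧
      v + l + m = i' • u0 + j' • x0 ∧ i * j' - j * i' = 1 ∧ 0 < i ∧
      lat u0 x0 = lat u (v + l + m) ∧ cr u0 x0 = cr u (v + l + m) ∧
      cr x0 l = 0 ∧ cr x0 m = 0 ∧ 0 < cr u0 l ∧ 0 < cr u0 m ∧
      cr u l = i * cr u0 l ∧ cr u m = i * cr u0 m ∧
      cr v l = i' * cr u0 l ∧ cr v m = i' * cr u0 m := by
  set x : Z2 := v + l + m with hx
  have hml : cr m l = 0 := by rw [cr_swap, hlm, neg_zero]
  set g : ℤ := (Int.gcd (cr u l) (cr x l) : ℤ) with hg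
  have hg0 : 0 < g := by
    rw [hg]
    exact_mod_cast Int.gcd_pos_of_ne_zero_left _ h1.ne'
  obtain ⟨i, hi⟩ : g ∣ cr u l := Int.gcd_dvd_left ..
  obtain ⟨i', hi'⟩ : g ∣ cr x l := Int.gcd_dvd_right ..
  have hab := Int.gcd_eq_gcd_ab (cr u l) (cr x l)
  set a : ℤ := Int.gcdA (cr u l) (cr x l) with ha
  set b : ℤ := Int.gcdB (cr u l) (cr x l) with hb
  have hone : i * a + i' * b = 1 := by
    have e : g * (i * a + i' * b) = g * 1 := by
      have e2 : g = cr u l * a + cr x l * b := hab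
      rw [hi, hi'] at e2
      linarith
    exact mul_left_cancel₀ hg0.ne' e
  have hipos : 0 < i := by
    rw [hi] at h1
    exact (mul_pos_iff_of_pos_left hg0).1 h1
  -- `u₀ = a u + b x`, `x₀ = - i' u + i x`
  have e1 : cr (a • u + b • x) l = g := by
    rw [cr_add_left, cr_smul_left, cr_smul_left]
    linarith [hab]
  have e2 : cr ((-i') • u + i • x) l = 0 := by
    rw [cr_add_left, cr_smul_left, cr_smul_left, hi, hi']; ring
  have e3 : cr (a • u + b • x) ((-i') • u + i • x) = cr u x := by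
    have e : cr (a • u + b • x) ((-i') • u + i • x) = (i * a + i' * b) * cr u x := by
      simp only [cr_add_left, cr_add_right, cr_smul_left, cr_smul_right, cr_self]
      rw [cr_swap x u]; ring
    rw [e, hone, one_mul]
  have e4 : lat (a • u + b • x) ((-i') • u + i • x) = lat u x :=
    closure_pair_eq (α := a) (β := b) (γ := -i') (δ := i) rfl rfl (Or.inl (by linarith))
  -- Plücker
  have pl : ∀ w : Z2, cr w m * cr u l = cr w l * cr u m := by
    intro w
    have : cr w m * cr u l - cr w l * cr u m = - cr u w * cr m l := by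
      simp only [cr]; ring
    rw [hml, mul_zero] at this
    linarith
  have e5 : cr ((-i') • u + i • x) m = 0 := by
    have := pl ((-i') • u + i • x)
    rw [e2, zero_mul] at this
    exact (mul_eq_zero.1 this).resolve_right h1.ne'
  have e6 : 0 < cr (a • u + b • x) m := by
    have := pl (a • u + b • x)
    rw [e1] at this
    have h5 : 0 < cr (a • u + b • x) m * cr u l := by rw [this]; exact mul_pos hg0 h3
    exact (mul_pos_iff_of_pos_right h1).1 h5
  have hu : u = i • (a • u + b • x) + (-b) • ((-i') • u + i • x) := by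
    have : i • (a • u + b • x) + (-b) • ((-i') • u + i • x) =
        (i * a + i' * b) • u := by module
    rw [this, hone, one_smul]
  have hxx : x = i' • (a • u + b • x) + a • ((-i') • u + i • x) := by
    have : i' • (a • u + b • x) + a • ((-i') • u + i • x) =
        (i * a + i' * b) • x := by module
    rw [this, hone, one_smul]
  set U0 : Z2 := a • u + b • x with hU0
  set X0 : Z2 := (-i') • u + i • x with hX0
  refine ⟨U0, X0, i, -b, i', a, hu, hxx, by linarith, hipos, e4, e3, e2, e5, by rw [e1]; exact hg0,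
    e6, by rw [e1, hi]; ring, ?_, ?_, ?_⟩
  · have h := congrArg (fun w => cr w m) hu
    simp only [cr_add_left, cr_smul_left, e5] at h
    rw [h]; ring
  · have h := congrArg (fun w => cr w l) hxx
    simp only [cr_add_left, cr_smul_left, e2] at h
    have e : cr x l = cr v l := by
      rw [hx, cr_add_left, cr_add_left, cr_self, hml]; ring
    rw [← e, h]; ring
  · have h := congrArg (fun w => cr w m) hxx
    simp only [cr_add_left, cr_smul_left, e5] at h
    have e : cr x m = cr v m := by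
      rw [hx, cr_add_left, cr_add_left, cr_self, hlm]; ring
    rw [← e, h]; ring

/-- **All centres of a fork.** -/
theorem SEq6.fork {L M : AddSubgroup Z2} {u v l p m p' u0 x0 : Z2} (h0 : 0 < cr u v)
    (hL : lat l p = L) (h1 : 0 < cr u l) (h2 : cr u l < cr p l)
    (hM : lat m p' = M) (h3 : 0 < cr u m) (h4 : cr u m < cr p' m)
    (hb : lat u0 x0 = lat u (v + l + m)) (hc : cr u0 x0 = cr u (v + l + m)) (k1 : cr x0 l = 0)
    (k2 : cr x0 m = 0) (k3 : 0 < cr u0 l) (k4 : 0 < cr u0 m) {i j a b : ℤ} (hi : 0 < i)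
    (hij : i * a - j * b = 1) (hw : i * (cr u0 l + cr u0 m) < cr u (v + l + m)) :
    lat (i • u0 + j • x0) (b • u0 + a • x0 - l - m + l + m) = lat u (v + l + m) ∧
    cr (i • u0 + j • x0) (b • u0 + a • x0 - l - m) =
      cr u (v + l + m) - i * (cr u0 l + cr u0 m) ∧
    cr (i • u0 + j • x0) l = i * cr u0 l ∧ cr (i • u0 + j • x0) m = i * cr u0 m ∧
    SEq6 ⟨L, M, u, v⟩ ⟨lat l (p + (i • u0 + j • x0 - u)), lat m (p' + (i • u0 + j • x0 - u)),
      i • u0 + j • x0, b • u0 + a • x0 - l - m⟩ := by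
  have e0 : b • u0 + a • x0 - l - m + l + m = b • u0 + a • x0 := by abel
  have e1 : lat (i • u0 + j • x0) (b • u0 + a • x0) = lat u (v + l + m) := by
    rw [← hb]
    exact closure_pair_eq (α := i) (β := j) (γ := b) (δ := a) rfl rfl (Or.inl hij)
  have e2 : cr (i • u0 + j • x0) (b • u0 + a • x0) = cr u (v + l + m) := by
    have e : cr (i • u0 + j • x0) (b • u0 + a • x0) = (i * a - j * b) * cr u0 x0 := by
      simp only [cr_add_left, cr_add_right, cr_smul_left, cr_smul_right, cr_self]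
      rw [cr_swap x0 u0]; ring
    rw [e, hij, one_mul, hc]
  have e3 : cr (i • u0 + j • x0) l = i * cr u0 l := by
    rw [cr_add_left, cr_smul_left, cr_smul_left, k1]; ring
  have e4 : cr (i • u0 + j • x0) m = i * cr u0 m := by
    rw [cr_add_left, cr_smul_left, cr_smul_left, k2]; ring
  have e5 : cr (i • u0 + j • x0) (b • u0 + a • x0 - l - m) =
      cr u (v + l + m) - i * (cr u0 l + cr u0 m) := by
    rw [cr_sub_right, cr_sub_right, e2, e3, e4]; ring
  refine ⟨by rw [e0]; exact e1, e5, e3, e4, ?_⟩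
  refine SEq6.pencil h0 hL h1 h2 hM h3 h4 (by rw [e5]; linarith) (by rw [e3]; exact mul_pos hi k3)
    (by rw [e4]; exact mul_pos hi k4) ?_
  rw [e0, e1]

/-- the contents of the centre -/
theorem cont_of_exJ {u0 x0 l q : Z2} {j : ℤ} (k1 : cr x0 l = 0)
    (h : ExJ (cr u0 l) (cr u0 q) (cr x0 q) j) {k : ℤ} (d1 : k ∣ cr (u0 + j • x0) l)
    (d2 : k ∣ cr (u0 + j • x0) q) {w : Z2} (hw : w ∈ lat u0 x0) : k ∣ cr w l ∧ k ∣ cr w q := by
  have e1 : cr (u0 + j • x0) l = cr u0 l := by
    rw [cr_add_left, cr_smul_left, k1]; ring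
  have e2 : cr (u0 + j • x0) q = cr u0 q + j * cr x0 q := by
    rw [cr_add_left, cr_smul_left]
  rw [e1] at d1
  rw [e2] at d2
  obtain ⟨f1, f2⟩ := h k d1 d2
  obtain ⟨s, t, rfl⟩ := mem_lat.1 hw
  refine ⟨?_, ?_⟩
  · rw [cr_add_left, cr_smul_left, cr_smul_left, k1, mul_zero, add_zero]
    exact d1.mul_left _
  · rw [cr_add_left, cr_smul_left, cr_smul_left]
    exact dvd_add (f1.mul_left _) (f2.mul_left _)

/-- the same for odd divisors -/
theorem cont_of_exJo {u0 x0 l q : Z2} {j : ℤ} (k1 : cr x0 l = 0)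
    (h : ExJo (cr u0 l) (cr u0 q) (cr x0 q) j) {k : ℤ} (hk : ¬ (2 : ℤ) ∣ k)
    (d1 : k ∣ cr (u0 + j • x0) l)
    (d2 : k ∣ cr (u0 + j • x0) q) {w : Z2} (hw : w ∈ lat u0 x0) : k ∣ cr w l ∧ k ∣ cr w q := by
  have e1 : cr (u0 + j • x0) l = cr u0 l := by
    rw [cr_add_left, cr_smul_left, k1]; ring
  have e2 : cr (u0 + j • x0) q = cr u0 q + j * cr x0 q := by
    rw [cr_add_left, cr_smul_left]
  rw [e1] at d1
  rw [e2] at d2
  obtain ⟨f1, f2⟩ := h k hk d1 d2
  obtain ⟨s, t, rfl⟩ := mem_lat.1 hw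
  refine ⟨?_, ?_⟩
  · rw [cr_add_left, cr_smul_left, cr_smul_left, k1, mul_zero, add_zero]
    exact d1.mul_left _
  · rw [cr_add_left, cr_smul_left, cr_smul_left]
    exact dvd_add (f1.mul_left _) (f2.mul_left _)

end Pool.Agent.H4G.Six
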