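import Pool.Agent.H4G.Six.Pencil6
import Pool.Agent.H4G.Arith.Crt

/-!
# The Chinese remainder theorem at a fork (helper2)

At a fork (`l ∥ m`) all vectors `u₀ + j x₀` are centres. The content of the new torus at the new
slit vector is `gcd (g, a + j b)`; for a suitable `j` it is as small as possible, `gcd (g, a, b)`,
for both tori at once (up to the prime 2).
-/

set_option autoImplicit false

namespace Pool.Agent.H4G.Six

open Pool.Agent.H4G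

/-! ## Integers -/

/-- `gcd (g, a + j b) = gcd (g, a, b)` -/
def ExJ (g a b j : ℤ) : Prop := ∀ k : ℤ, k ∣ g → k ∣ a + j * b → k ∣ a ∧ k ∣ b

/-- the same for powers of 2 -/
def ExJ2 (g a b j : ℤ) : Prop :=
  ∀ n : ℕ, (2 : ℤ) ^ n ∣ g → (2 : ℤ) ^ n ∣ a + j * b → (2 : ℤ) ^ n ∣ a ∧ (2 : ℤ) ^ n ∣ b

/-- the same for odd numbers -/
def ExJo (g a b j : ℤ) : Prop :=
  ∀ k : ℤ, ¬ (2 : ℤ) ∣ k → k ∣ g → k ∣ a + j * b → k ∣ a ∧ k ∣ b

theorem ExJ.odd {g a b j : ℤ} (h : ExJ g a b j) : ExJo g a b j := fun k _ => h k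

theorem ExJ.two {g a b j : ℤ} (h : ExJ g a b j) : ExJ2 g a b j := fun _ => h _

/-- scaling -/
theorem exists_scale (g a b : ℤ) (hg : g ≠ 0) : ∃ G g1 a1 b1 : ℤ, 0 < G ∧ g = G * g1 ∧
    a = G * a1 ∧ b = G * b1 ∧ ∀ k : ℤ, k ∣ g1 → k ∣ a1 → k ∣ b1 → k ∣ 1 := by
  set G : ℤ := (Int.gcd g (Int.gcd a b : ℤ) : ℤ) with hG
  have hG0 : 0 < G := by
    rw [hG]; exact_mod_cast Int.gcd_pos_of_ne_zero_left _ hg
  have d1 : G ∣ g := Int.gcd_dvd_left ..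
  have d2 : G ∣ (Int.gcd a b : ℤ) := Int.gcd_dvd_right ..
  obtain ⟨g1, h1⟩ := d1
  obtain ⟨a1, h2⟩ := d2.trans (Int.gcd_dvd_left ..)
  obtain ⟨b1, h3⟩ := d2.trans (Int.gcd_dvd_right ..)
  refine ⟨G, g1, a1, b1, hG0, h1, h2, h3, fun k k1 k2 k3 => ?_⟩
  have e1 : G * k ∣ g := by rw [h1]; exact mul_dvd_mul_left _ k1
  have e2 : G * k ∣ a := by rw [h2]; exact mul_dvd_mul_left _ k2
  have e3 : G * k ∣ b := by rw [h3]; exact mul_dvd_mul_left _ k3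
  have e4 : G * k ∣ G := by
    rw [hG]; exact Int.dvd_coe_gcd e1 (Int.dvd_coe_gcd e2 e3)
  obtain ⟨c, hc⟩ := e4
  refine ⟨c, ?_⟩
  have : G * (k * c) = G * 1 := by linarith
  exact (mul_left_cancel₀ hG0.ne' this).symm

/-- the scaled form of `ExJ` -/
theorem exJ_of_prime {G g1 a1 b1 j : ℤ}
    (h : ∀ p : ℕ, p.Prime → (p : ℤ) ∣ g1 → ¬ (p : ℤ) ∣ a1 + j * b1) :
    ExJ (G * g1) (G * a1) (G * b1) j := by
  intro k k1 k2
  have hc : IsCoprime g1 (a1 + j * b1) := by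
    apply IsCoprime.symm
    exact isCoprime_of_prime h
  obtain ⟨x, y, hxy⟩ := hc
  have e : G * a1 + j * (G * b1) = G * (a1 + j * b1) := by ring
  rw [e] at k2
  have kG : k ∣ G := by
    have : G = x * (G * g1) + y * (G * (a1 + j * b1)) := by
      linear_combination (-G) * hxy
    rw [this]
    exact dvd_add (k1.mul_left _) (k2.mul_left _)
  exact ⟨kG.mul_right _, kG.mul_right _⟩

/-- the scaled form of `ExJo` -/
theorem exJo_of_prime {G g1 a1 b1 j : ℤ} (hg : g1 ≠ 0)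
    (h : ∀ p : ℕ, p.Prime → p ≠ 2 → (p : ℤ) ∣ g1 → ¬ (p : ℤ) ∣ a1 + j * b1) :
    ExJo (G * g1) (G * a1) (G * b1) j := by
  intro k k2' k1 k2
  -- `gcd (g1, a1 + j b1)` is a power of 2
  have e : G * a1 + j * (G * b1) = G * (a1 + j * b1) := by ring
  rw [e] at k2
  set c : ℤ := (Int.gcd g1 (a1 + j * b1) : ℤ) with hc
  have hc0 : c ≠ 0 := by
    rw [hc]
    have := Int.gcd_pos_of_ne_zero_left (a1 + j * b1) hg
    omega
  have hk : IsCoprime k c := by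
    refine isCoprime_of_prime fun p hp hpc hpk => ?_
    have hp2 : p ≠ 2 := by
      rintro rfl
      exact k2' (by exact_mod_cast hpk)
    exact h p hp hp2 (hpc.trans (Int.gcd_dvd_left ..)) (hpc.trans (Int.gcd_dvd_right ..))
  have hGc : k ∣ G * c := by
    have e1 := Int.gcd_eq_gcd_ab g1 (a1 + j * b1)
    have : G * c = G * g1 * Int.gcdA g1 (a1 + j * b1) +
        G * (a1 + j * b1) * Int.gcdB g1 (a1 + j * b1) := by
      rw [hc, e1]; ring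
    rw [this]
    exact dvd_add (k1.mul_right _) (k2.mul_right _)
  have kG : k ∣ G := hk.dvd_of_dvd_mul_right hGc
  exact ⟨kG.mul_right _, kG.mul_right _⟩

/-- a class modulo an odd prime which avoids two classes -/
theorem avoid_two {p : ℕ} (hp : p.Prime) (h2 : p ≠ 2) {a b a' b' : ℤ}
    (h : (p : ℤ) ∣ a → ¬ (p : ℤ) ∣ b) (h' : (p : ℤ) ∣ a' → ¬ (p : ℤ) ∣ b') :
    ∃ j : ℤ, ¬ (p : ℤ) ∣ a + j * b ∧ ¬ (p : ℤ) ∣ a' + j * b' := by
  have hpp := Nat.prime_iff_prime_int.1 hp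
  have hp3 : 3 ≤ p := by
    have := hp.two_le
    omega
  -- the bad classes
  have key : ∀ a b : ℤ, ((p : ℤ) ∣ a → ¬ (p : ℤ) ∣ b) → ∀ i j : ℤ, 0 ≤ i → i < j → j ≤ 2 →
      (p : ℤ) ∣ a + i * b → ¬ (p : ℤ) ∣ a + j * b := by
    intro a b h i j hi hij hj h1 h2
    have h3 : (p : ℤ) ∣ (j - i) * b := by
      have : (j - i) * b = (a + j * b) - (a + i * b) := by ring
      rw [this]; exact dvd_sub h2 h1
    rcases hpp.dvd_or_dvd h3 with h4 | h4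
    · have := Int.le_of_dvd (by omega) h4
      omega
    · exact h ((dvd_add_left (h4.mul_left i)).1 h1) h4
  by_cases c0 : (p : ℤ) ∣ a + 0 * b
  · have c1 := key a b h 0 1 (by norm_num) (by norm_num) (by norm_num) c0
    have c2 := key a b h 0 2 (by norm_num) (by norm_num) (by norm_num) c0
    by_cases d1 : (p : ℤ) ∣ a' + 1 * b'
    · exact ⟨2, c2, key a' b' h' 1 2 (by norm_num) (by norm_num) (by norm_num) d1⟩
    · exact ⟨1, c1, d1⟩
  · by_cases d0 : (p : ℤ) ∣ a' + 0 * b'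
    · have d1 := key a' b' h' 0 1 (by norm_num) (by norm_num) (by norm_num) d0
      have d2 := key a' b' h' 0 2 (by norm_num) (by norm_num) (by norm_num) d0
      by_cases c1 : (p : ℤ) ∣ a + 1 * b
      · exact ⟨2, key a b h 1 2 (by norm_num) (by norm_num) (by norm_num) c1, d2⟩
      · exact ⟨1, c1, d1⟩
    · exact ⟨0, c0, d0⟩

/-- the CRT: a good class at every prime gives a number -/
theorem exists_class {g g' : ℤ} (hg : g ≠ 0) (hg' : g' ≠ 0) (a b a' b' : ℤ) (m : ℤ)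
    (h : ∀ p : ℕ, p.Prime → ∃ y : ℤ, ((p : ℤ) ∣ m → (p : ℤ) ∣ y - 1) ∧
      ((p : ℤ) ∣ g → ¬ (p : ℤ) ∣ a + y * b) ∧ ((p : ℤ) ∣ g' → ¬ (p : ℤ) ∣ a' + y * b'))
    (hm : m ≠ 0) :
    ∃ j : ℤ, (∀ p : ℕ, p.Prime → (p : ℤ) ∣ m → (p : ℤ) ∣ j - 1) ∧
      (∀ p : ℕ, p.Prime → (p : ℤ) ∣ g → ¬ (p : ℤ) ∣ a + j * b) ∧
      (∀ p : ℕ, p.Prime → (p : ℤ) ∣ g' → ¬ (p : ℤ) ∣ a' + j * b') := by
  obtain ⟨j, hj⟩ := crt_exists (g * g' * m) (mul_ne_zero (mul_ne_zero hg hg') hm)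
    (fun p y => ((p : ℤ) ∣ m → (p : ℤ) ∣ y - 1) ∧
      ((p : ℤ) ∣ g → ¬ (p : ℤ) ∣ a + y * b) ∧ ((p : ℤ) ∣ g' → ¬ (p : ℤ) ∣ a' + y * b'))
    (fun p hp _ => h p hp) (by
      intro p hp _ y y' hy ⟨h0, h1, h2⟩
      have key : ∀ a b : ℤ, (p : ℤ) ∣ a + y' * b → (p : ℤ) ∣ a + y * b := by
        intro a b hd
        have e : a + y * b = (a + y' * b) - (y' - y) * b := by ring
        rw [e]; exact dvd_sub hd (hy.mul_right _)
      refine ⟨fun hd => ?_, fun hd hd' => h1 hd (key _ _ hd'), fun hd hd' => h2 hd (key _ _ hd')⟩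
      have e : y' - 1 = (y' - y) + (y - 1) := by ring
      rw [e]; exact dvd_add hy (h0 hd))
  refine ⟨j, fun p hp hd => ?_, fun p hp hd => ?_, fun p hp hd => ?_⟩
  · exact (hj p hp (hd.mul_left _)).1 hd
  · exact (hj p hp ((hd.mul_right _).mul_right _)).2.1 hd
  · exact (hj p hp ((hd.mul_left _).mul_right _)).2.2 hd

/-- **both gcd's as small as possible** -/
theorem exists_exJ {g a b g' a' b' : ℤ} (hg : g ≠ 0) (hg' : g' ≠ 0)
    (h2 : ∃ y : ℤ, ExJ2 g a b y ∧ ExJ2 g' a' b' y) : ∃ j : ℤ, ExJ g a b j ∧ ExJ g' a' b' j := by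
  obtain ⟨G, g1, a1, b1, hG, rfl, rfl, rfl, hc⟩ := exists_scale g a b hg
  obtain ⟨G', g1', a1', b1', hG', rfl, rfl, rfl, hc'⟩ := exists_scale g' a' b' hg'
  have hg1 : g1 ≠ 0 := fun h => hg (by rw [h, mul_zero])
  have hg1' : g1' ≠ 0 := fun h => hg' (by rw [h, mul_zero])
  -- the class at 2
  have two : ∀ (G g1 a1 b1 y : ℤ), 0 < G → (∀ k : ℤ, k ∣ g1 → k ∣ a1 → k ∣ b1 → k ∣ 1) →
      ExJ2 (G * g1) (G * a1) (G * b1) y → ((2 : ℕ) : ℤ) ∣ g1 → ¬ ((2 : ℕ) : ℤ) ∣ a1 + y * b1 := by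
    intro G g1 a1 b1 y hG hc hy k1 k2
    obtain ⟨n, c, hc2, hn⟩ : ∃ (n : ℕ) (c : ℤ), ¬ (2 : ℤ) ∣ c ∧ G = 2 ^ n * c := by
      have hfin : FiniteMultiplicity (2 : ℤ) G := Int.finiteMultiplicity_iff.2 ⟨by norm_num, hG.ne'⟩
      obtain ⟨c, e1, e2⟩ := hfin.exists_eq_pow_mul_and_not_dvd
      exact ⟨_, c, e2, e1⟩
    have k1' : (2 : ℤ) ∣ g1 := by exact_mod_cast k1
    have k2' : (2 : ℤ) ∣ a1 + y * b1 := by exact_mod_cast k2
    have e1 : (2 : ℤ) ^ (n + 1) ∣ G * g1 := by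
      rw [pow_succ]
      exact mul_dvd_mul ⟨c, hn⟩ k1'
    have e2 : (2 : ℤ) ^ (n + 1) ∣ G * a1 + y * (G * b1) := by
      have : G * a1 + y * (G * b1) = G * (a1 + y * b1) := by ring
      rw [this, pow_succ]
      exact mul_dvd_mul ⟨c, hn⟩ k2'
    obtain ⟨f1, f2⟩ := hy (n + 1) e1 e2
    have cancel : ∀ t : ℤ, (2 : ℤ) ^ (n + 1) ∣ G * t → (2 : ℤ) ∣ t := by
      intro t ht
      rw [hn, pow_succ, mul_assoc] at ht
      have h3 : (2 : ℤ) ∣ c * t := (mul_dvd_mul_iff_left (pow_ne_zero n (by norm_num))).1 ht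
      exact (Int.prime_two.dvd_or_dvd h3).resolve_left hc2
    have := hc 2 k1' (cancel _ f1) (cancel _ f2)
    norm_num at this
  obtain ⟨y2, hy2, hy2'⟩ := h2
  obtain ⟨j, -, hj1, hj2⟩ := exists_class (g := g1) (g' := g1') hg1 hg1' a1 b1 a1' b1' 1 (by
    intro p hp
    by_cases hp2 : p = 2
    · subst hp2
      exact ⟨y2, fun h => absurd h (prime_not_dvd_one hp), two _ _ _ _ _ hG hc hy2,
        two _ _ _ _ _ hG' hc' hy2'⟩
    · have n1 := prime_not_dvd_one hp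
      by_cases d1 : (p : ℤ) ∣ g1
      · by_cases d2 : (p : ℤ) ∣ g1'
        · obtain ⟨y, e1, e2⟩ := avoid_two hp hp2 (a := a1) (b := b1) (a' := a1') (b' := b1')
            (fun k1 k2 => n1 (hc _ d1 k1 k2)) (fun k1 k2 => n1 (hc' _ d2 k1 k2))
          exact ⟨y, fun h => absurd h n1, fun _ => e1, fun _ => e2⟩
        · obtain ⟨y, e1, -⟩ := avoid_two hp hp2 (a := a1) (b := b1) (a' := 1) (b' := 0)
            (fun k1 k2 => n1 (hc _ d1 k1 k2)) (fun k1 _ => n1 k1)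
          exact ⟨y, fun h => absurd h n1, fun _ => e1, fun h => absurd h d2⟩
      · by_cases d2 : (p : ℤ) ∣ g1'
        · obtain ⟨y, e1, -⟩ := avoid_two hp hp2 (a := a1') (b := b1') (a' := 1) (b' := 0)
            (fun k1 k2 => n1 (hc' _ d2 k1 k2)) (fun k1 _ => n1 k1)
          exact ⟨y, fun h => absurd h n1, fun h => absurd h d1, fun _ => e1⟩
        · exact ⟨0, fun h => absurd h n1, fun h => absurd h d1, fun h => absurd h d2⟩)
    (by norm_num)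
  exact ⟨j, exJ_of_prime hj1, exJ_of_prime hj2⟩

/-- the class modulo 2 decides the powers of 2 -/
theorem exJ2_of_two {G g1 a1 b1 j : ℤ}
    (h : (2 : ℤ) ∣ g1 → ¬ (2 : ℤ) ∣ a1 + j * b1) : ExJ2 (G * g1) (G * a1) (G * b1) j := by
  intro n k1 k2
  have e : G * a1 + j * (G * b1) = G * (a1 + j * b1) := by ring
  rw [e] at k2
  have odd : ∀ t : ℤ, ¬ (2 : ℤ) ∣ t → (2 : ℤ) ^ n ∣ G * t → (2 : ℤ) ^ n ∣ G := by
    intro t ht hd
    have hc : IsCoprime ((2 : ℤ) ^ n) t :=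
      IsCoprime.pow_left ((Int.prime_two.coprime_iff_not_dvd).2 ht)
    exact hc.dvd_of_dvd_mul_right hd
  have kG : (2 : ℤ) ^ n ∣ G := by
    by_cases h1 : (2 : ℤ) ∣ g1
    · exact odd _ (h h1) k2
    · exact odd _ h1 k1
  exact ⟨kG.mul_right _, kG.mul_right _⟩

/-- one gcd as small as possible, the other up to powers of 2 -/
theorem exists_exJ' {g a b g' a' b' : ℤ} (hg : g ≠ 0) (hg' : g' ≠ 0) :
    ∃ j : ℤ, ExJ g a b j ∧ ExJo g' a' b' j := by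
  obtain ⟨G, g1, a1, b1, hG, rfl, rfl, rfl, hc⟩ := exists_scale g a b hg
  obtain ⟨G', g1', a1', b1', hG', rfl, rfl, rfl, hc'⟩ := exists_scale g' a' b' hg'
  have hg1 : g1 ≠ 0 := fun h => hg (by rw [h, mul_zero])
  have hg1' : g1' ≠ 0 := fun h => hg' (by rw [h, mul_zero])
  -- the odd part of `g1'`
  obtain ⟨n, c, hc2, hn⟩ : ∃ (n : ℕ) (c : ℤ), ¬ (2 : ℤ) ∣ c ∧ g1' = 2 ^ n * c := by
    have hfin : FiniteMultiplicity (2 : ℤ) g1' := Int.finiteMultiplicity_iff.2 ⟨by norm_num, hg1'⟩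
    obtain ⟨c, e1, e2⟩ := hfin.exists_eq_pow_mul_and_not_dvd
    exact ⟨_, c, e2, e1⟩
  have hc0 : c ≠ 0 := fun h => hc2 (by rw [h]; exact dvd_zero _)
  obtain ⟨j, -, hj1, hj2⟩ := exists_class (g := g1) (g' := c) hg1 hc0 a1 b1 a1' b1' 1 (by
    intro p hp
    have n1 := prime_not_dvd_one hp
    by_cases hp2 : p = 2
    · subst hp2
      have hnc : ¬ ((2 : ℕ) : ℤ) ∣ c := by exact_mod_cast hc2
      by_cases d1 : ((2 : ℕ) : ℤ) ∣ a1 + 0 * b1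
      · refine ⟨1, fun h => absurd h n1, fun d2 d3 => ?_, fun h => absurd h hnc⟩
        have d4 : ((2 : ℕ) : ℤ) ∣ a1 := by simpa using d1
        exact n1 (hc _ d2 d4 (by simpa using (dvd_add_right d4).1 d3))
      · exact ⟨0, fun h => absurd h n1, fun _ => d1, fun h => absurd h hnc⟩
    · by_cases d1 : (p : ℤ) ∣ g1
      · by_cases d2 : (p : ℤ) ∣ g1'
        · obtain ⟨y, e1, e2⟩ := avoid_two hp hp2 (a := a1) (b := b1) (a' := a1') (b' := b1')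
            (fun k1 k2 => n1 (hc _ d1 k1 k2)) (fun k1 k2 => n1 (hc' _ d2 k1 k2))
          exact ⟨y, fun h => absurd h n1, fun _ => e1, fun _ => e2⟩
        · obtain ⟨y, e1, -⟩ := avoid_two hp hp2 (a := a1) (b := b1) (a' := 1) (b' := 0)
            (fun k1 k2 => n1 (hc _ d1 k1 k2)) (fun k1 _ => n1 k1)
          exact ⟨y, fun h => absurd h n1, fun _ => e1,
            fun h => absurd (hn ▸ h.mul_left _) d2⟩
      · by_cases d2 : (p : ℤ) ∣ g1'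
        · obtain ⟨y, e1, -⟩ := avoid_two hp hp2 (a := a1') (b := b1') (a' := 1) (b' := 0)
            (fun k1 k2 => n1 (hc' _ d2 k1 k2)) (fun k1 _ => n1 k1)
          exact ⟨y, fun h => absurd h n1, fun h => absurd h d1, fun _ => e1⟩
        · exact ⟨0, fun h => absurd h n1, fun h => absurd h d1,
            fun h => absurd (hn ▸ h.mul_left _) d2⟩)
    (by norm_num)
  refine ⟨j, exJ_of_prime hj1, exJo_of_prime hg1' fun p hp hp2 hd => hj2 p hp ?_⟩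
  have hpp := Nat.prime_iff_prime_int.1 hp
  rw [hn] at hd
  refine (hpp.dvd_or_dvd hd).resolve_left fun h => hp2 ?_
  have h3 := hpp.dvd_of_dvd_pow h
  have h4 : p ∣ 2 := by exact_mod_cast h3
  exact (Nat.prime_dvd_prime_iff_eq hp Nat.prime_two).1 h4

/-- if the condition at 2 fails then both gcd's are as small as possible at the next level:
`gcd (2 g, 2 a + j b) = gcd (g, a, b)` for some odd `j` -/
theorem exists_exJ_level {g a b g' a' b' : ℤ} (hg : g ≠ 0) (hg' : g' ≠ 0)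
    (h2 : ¬ ∃ y : ℤ, ExJ2 g a b y ∧ ExJ2 g' a' b' y) :
    ∃ j : ℤ, ¬ (2 : ℤ) ∣ j ∧
      (∀ k : ℤ, k ∣ 2 * g → k ∣ 2 * a + j * b → k ∣ g ∧ k ∣ a ∧ k ∣ b) ∧
      (∀ k : ℤ, k ∣ 2 * g' → k ∣ 2 * a' + j * b' → k ∣ g' ∧ k ∣ a' ∧ k ∣ b') := by
  obtain ⟨G, g1, a1, b1, hG, rfl, rfl, rfl, hc⟩ := exists_scale g a b hg
  obtain ⟨G', g1', a1', b1', hG', rfl, rfl, rfl, hc'⟩ := exists_scale g' a' b' hg'
  have hg1 : g1 ≠ 0 := fun h => hg (by rw [h, mul_zero])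
  have hg1' : g1' ≠ 0 := fun h => hg' (by rw [h, mul_zero])
  -- the parities
  have key : (2 : ℤ) ∣ g1 ∧ ¬ (2 : ℤ) ∣ b1 ∧ (2 : ℤ) ∣ g1' ∧ ¬ (2 : ℤ) ∣ b1' := by
    by_contra hcon
    apply h2
    have n1 : ¬ (2 : ℤ) ∣ 1 := by norm_num
    have one : ∀ g1 a1 b1 : ℤ, (∀ k : ℤ, k ∣ g1 → k ∣ a1 → k ∣ b1 → k ∣ 1) →
        ∃ y : ℤ, (2 : ℤ) ∣ g1 → ¬ (2 : ℤ) ∣ a1 + y * b1 := by
      intro g1 a1 b1 hc
      by_cases d1 : (2 : ℤ) ∣ a1 + 0 * b1
      · refine ⟨1, fun d2 d3 => ?_⟩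
        have d4 : (2 : ℤ) ∣ a1 := by simpa using d1
        exact n1 (hc _ d2 d4 (by simpa using (dvd_add_right d4).1 d3))
      · exact ⟨0, fun _ => d1⟩
    have free : ∀ g1 a1 b1 : ℤ, (∀ k : ℤ, k ∣ g1 → k ∣ a1 → k ∣ b1 → k ∣ 1) →
        ¬ ((2 : ℤ) ∣ g1 ∧ ¬ (2 : ℤ) ∣ b1) →
        ∀ y : ℤ, (2 : ℤ) ∣ g1 → ¬ (2 : ℤ) ∣ a1 + y * b1 := by
      intro g1 a1 b1 hc hn y d1 d2
      have d3 : (2 : ℤ) ∣ b1 := by
        by_contra h
        exact hn ⟨d1, h⟩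
      exact n1 (hc _ d1 ((dvd_add_left (d3.mul_left y)).1 d2) d3)
    by_cases hA : (2 : ℤ) ∣ g1 ∧ ¬ (2 : ℤ) ∣ b1
    · have hB : ¬ ((2 : ℤ) ∣ g1' ∧ ¬ (2 : ℤ) ∣ b1') := fun h => hcon ⟨hA.1, hA.2, h.1, h.2⟩
      obtain ⟨y, hy⟩ := one g1 a1 b1 hc
      exact ⟨y, exJ2_of_two hy, exJ2_of_two (free _ _ _ hc' hB y)⟩
    · obtain ⟨y, hy⟩ := one g1' a1' b1' hc'
      exact ⟨y, exJ2_of_two (free _ _ _ hc hA y), exJ2_of_two hy⟩
  obtain ⟨e1, e2, e3, e4⟩ := key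
  obtain ⟨j, hj0, hj1, hj2⟩ := exists_class (g := g1) (g' := g1') hg1 hg1' (2 * a1) b1 (2 * a1')
    b1' 2 (by
    intro p hp
    have n1 := prime_not_dvd_one hp
    by_cases hp2 : p = 2
    · subst hp2
      have aux : ∀ a b : ℤ, ¬ (2 : ℤ) ∣ b → ¬ ((2 : ℕ) : ℤ) ∣ 2 * a + 1 * b := by
        intro a b hb h
        apply hb
        have h' : (2 : ℤ) ∣ 2 * a + b := by simpa using h
        exact (dvd_add_right (Dvd.intro _ rfl)).1 h'
      exact ⟨1, fun _ => by simp, fun _ => aux _ _ e2, fun _ => aux _ _ e4⟩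
    · have hpp := Nat.prime_iff_prime_int.1 hp
      have np2 : ¬ (p : ℤ) ∣ 2 := by
        intro h
        have h4 : p ∣ 2 := by exact_mod_cast h
        exact hp2 ((Nat.prime_dvd_prime_iff_eq hp Nat.prime_two).1 h4)
      have half : ∀ a : ℤ, (p : ℤ) ∣ 2 * a → (p : ℤ) ∣ a := fun a h =>
        (hpp.dvd_or_dvd h).resolve_left np2
      by_cases d1 : (p : ℤ) ∣ g1
      · by_cases d2 : (p : ℤ) ∣ g1'
        · obtain ⟨y, f1, f2⟩ := avoid_two hp hp2 (a := 2 * a1) (b := b1) (a' := 2 * a1')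
            (b' := b1') (fun k1 k2 => n1 (hc _ d1 (half _ k1) k2))
            (fun k1 k2 => n1 (hc' _ d2 (half _ k1) k2))
          exact ⟨y, fun h => absurd h np2, fun _ => f1, fun _ => f2⟩
        · obtain ⟨y, f1, -⟩ := avoid_two hp hp2 (a := 2 * a1) (b := b1) (a' := 1) (b' := 0)
            (fun k1 k2 => n1 (hc _ d1 (half _ k1) k2)) (fun k1 _ => n1 k1)
          exact ⟨y, fun h => absurd h np2, fun _ => f1, fun h => absurd h d2⟩
      · by_cases d2 : (p : ℤ) ∣ g1'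
        · obtain ⟨y, f1, -⟩ := avoid_two hp hp2 (a := 2 * a1') (b := b1') (a' := 1) (b' := 0)
            (fun k1 k2 => n1 (hc' _ d2 (half _ k1) k2)) (fun k1 _ => n1 k1)
          exact ⟨y, fun h => absurd h np2, fun h => absurd h d1, fun _ => f1⟩
        · exact ⟨0, fun h => absurd h np2, fun h => absurd h d1, fun h => absurd h d2⟩)
    (by norm_num)
  have hjo : ¬ (2 : ℤ) ∣ j := by
    have := hj0 2 Nat.prime_two (by norm_num)
    push_cast at this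
    omega
  have fin : ∀ (G g1 a1 b1 : ℤ), (2 : ℤ) ∣ g1 → ¬ (2 : ℤ) ∣ b1 →
      (∀ p : ℕ, p.Prime → (p : ℤ) ∣ g1 → ¬ (p : ℤ) ∣ 2 * a1 + j * b1) →
      ∀ k : ℤ, k ∣ 2 * (G * g1) → k ∣ 2 * (G * a1) + j * (G * b1) →
        k ∣ G * g1 ∧ k ∣ G * a1 ∧ k ∣ G * b1 := by
    intro G g1 a1 b1 d1 d2 hp k k1 k2
    have hcop : IsCoprime (2 * g1) (2 * a1 + j * b1) := by
      apply IsCoprime.symm
      refine isCoprime_of_prime fun p hpr h1 h2 => ?_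
      have hpp := Nat.prime_iff_prime_int.1 hpr
      rcases hpp.dvd_or_dvd h1 with h3 | h3
      · have h4 : p ∣ 2 := by exact_mod_cast h3
        have h5 := (Nat.prime_dvd_prime_iff_eq hpr Nat.prime_two).1 h4
        subst h5
        exact hp 2 Nat.prime_two (by exact_mod_cast d1) h2
      · exact hp p hpr h3 h2
    obtain ⟨x, y, hxy⟩ := hcop
    have kG : k ∣ G := by
      have : G = x * (2 * (G * g1)) + y * (2 * (G * a1) + j * (G * b1)) := by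
        linear_combination (-G) * hxy
      rw [this]
      exact dvd_add (k1.mul_left _) (k2.mul_left _)
    exact ⟨kG.mul_right _, kG.mul_right _, kG.mul_right _⟩
  exact ⟨j, hjo, fin G g1 a1 b1 e1 e2 hj1, fin G' g1' a1' b1' e3 e4 hj2⟩

end Pool.Agent.H4G.Six
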