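import Pool.Agent.H4G.Six.Config2
import Pool.Agent.H4G.Six.Mink

/-!
# Stage I: the near-critical analysis (helper42, helper83; typed by helper46)

A lattice `Φ ⊆ ℤ²` of covolume `W r` without nonzero points in the closed squares
`x y ≤ 0, |x| ≤ r, |y| ≤ r` has a good point, or it has points on both axes.
-/

set_option autoImplicit false

namespace Pool.Agent.H4G.Six

open Pool.Agent.H4G

/-- good points: off the axes, `min < r`, and inside the window -/
def GoodP (r W : ℤ) (p : Z2) : Prop :=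
  (p.1 * p.2 < 0 ∧ (|p.1| < r ∨ |p.2| < r) ∧ |p.1| < W ∧ |p.2| < W) ∨
  (0 < p.1 * p.2 ∧ (|p.1| < r ∨ |p.2| < r) ∧ |p.1| + |p.2| < W)

/-- the window is large: `2 r ≤ W`, or the old handle vector is there -/
def BigP (r W : ℤ) (Φ : AddSubgroup Z2) : Prop :=
  2 * r ≤ W ∨ ∃ h ∈ Φ, h.1 * h.2 < 0 ∧ r < |h.1| ∧ |h.1| < W ∧ r < |h.2| ∧ |h.2| < W

section

variable {Φ : AddSubgroup Z2} {r W x1 y1 x2 y2 D : ℤ}

theorem red_row (h1 : (x1, y1) ∈ Φ) (h2 : (x2, y2) ∈ Φ) (hy : 0 < y1)
    (hdet : x1 * y2 - y1 * x2 = D) : ∃ a b, (a, b) ∈ Φ ∧ 0 ≤ b ∧ b < y1 ∧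
      x1 * b - y1 * a = D := by
  refine ⟨x2 - y2 / y1 * x1, y2 - y2 / y1 * y1, ?_, ?_, ?_, ?_⟩
  · have h3 := Φ.sub_mem h2 (Φ.zsmul_mem h1 (y2 / y1))
    have e : ((x2, y2) : Z2) - (y2 / y1) • ((x1, y1) : Z2) =
        (x2 - y2 / y1 * x1, y2 - y2 / y1 * y1) := by
      ext <;> simp
    rwa [e] at h3
  · have := Int.ediv_mul_le y2 hy.ne'
    linarith
  · have := Int.lt_ediv_add_one_mul_self y2 hy
    linarith
  · rw [← hdet]; ring

theorem BigP.lt (hr : 0 < r) (hb : BigP r W Φ) : r < W := by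
  rcases hb with h | ⟨h, -, -, h1, h2, -⟩
  · linarith
  · linarith

/-- the corner case -/
theorem corner (hr : 0 < r)
    (hE : ∀ p ∈ Φ, p ≠ 0 → p.1 * p.2 ≤ 0 → |p.1| ≤ r → r < |p.2|)
    (hno : ∀ p ∈ Φ, ¬ GoodP r W p)
    (hd : ∀ p ∈ Φ, ∀ q ∈ Φ, W * r ∣ p.1 * q.2 - p.2 * q.1)
    (hbig : BigP r W Φ)
    (h1 : (x1, y1) ∈ Φ) (h2 : (x2, y2) ∈ Φ) (hdet : x1 * y2 - y1 * x2 = W * r)
    (a1 : x1 < W) (a2 : y1 ≤ r) (a3 : 0 < x1) (a4 : 0 < y1) (a5 : W ≤ x1 + y1)
    (b1 : 0 ≤ y2) (b2 : y2 < y1) : ∃ X, 0 < X ∧ X ≤ W ∧ (X, 0) ∈ Φ := by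
  have hrW := hbig.lt hr
  have c1 : x2 < 0 := by
    by_contra hc
    push Not at hc
    have q1 : 0 ≤ y1 * x2 := mul_nonneg a4.le hc
    have q2 : x1 * y2 ≤ W * y2 := mul_le_mul_of_nonneg_right a1.le b1
    have q3 : W * y2 < W * r := mul_lt_mul_of_pos_left (by linarith) (by linarith)
    linarith
  rcases lt_or_ge (-W) x2 with c2 | c2
  · rcases eq_or_lt_of_le b1 with c3 | c3
    · refine ⟨-x2, by linarith, by linarith, ?_⟩
      have := Φ.neg_mem h2
      rw [← c3] at this
      simpa using this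
    · exfalso
      apply hno _ h2
      left
      refine ⟨mul_neg_of_neg_of_pos c1 c3, Or.inr ?_, ?_, ?_⟩
      · simp only; rw [abs_of_pos c3]; linarith
      · simp only; rw [abs_of_neg c1]; linarith
      · simp only; rw [abs_of_pos c3]; linarith
  -- the chain
  have hmem : ∀ n : ℕ, (x2 + n * x1, y2 + n * y1) ∈ Φ := by
    intro n
    have h3 := Φ.add_mem h2 (Φ.zsmul_mem h1 (n : ℤ))
    have e : ((x2, y2) : Z2) + (n : ℤ) • ((x1, y1) : Z2) = (x2 + n * x1, y2 + n * y1) := by
      ext <;> simp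
    rwa [e] at h3
  have chain : ∀ n : ℕ, y2 + n * y1 < r → x2 + n * x1 ≤ -W := by
    intro n
    induction n with
    | zero => intro _; simpa using c2
    | succ n ih =>
      intro hn
      push_cast at hn ⊢
      have h3 := ih (by linarith)
      by_contra hc
      push Not at hc
      have hp : 0 < y2 + (n + 1) * y1 := by
        have q1 : 0 ≤ (n : ℤ) * y1 := by positivity
        linarith
      have hx : x2 + (n + 1) * x1 < 0 := by linarith
      apply hno _ (hmem (n + 1))
      left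
      push_cast
      refine ⟨mul_neg_of_neg_of_pos hx hp, Or.inr ?_, ?_, ?_⟩
      · rw [abs_of_pos hp]; exact hn
      · rw [abs_of_neg hx]; linarith
      · rw [abs_of_pos hp]; linarith
  obtain ⟨n, n1, n2⟩ : ∃ n : ℕ, y2 + n * y1 < r ∧ r ≤ y2 + n * y1 + y1 := by
    refine ⟨((r - 1 - y2) / y1).toNat, ?_, ?_⟩
    · rw [Int.toNat_of_nonneg (Int.ediv_nonneg (by linarith) a4.le)]
      have := Int.ediv_mul_le (r - 1 - y2) a4.ne'
      linarith
    · rw [Int.toNat_of_nonneg (Int.ediv_nonneg (by linarith) a4.le)]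
      have := Int.lt_ediv_add_one_mul_self (r - 1 - y2) a4
      linarith
  have hQ := chain n n1
  have hQ2 := hmem (n + 1)
  push_cast at hQ2
  set XQ := x2 + n * x1 with hXQ
  set Y := y2 + n * y1 with hY
  have hdQ : x1 * Y - y1 * XQ = W * r := by rw [hXQ, hY, ← hdet]; ring
  have e1 : x2 + (n + 1) * x1 = XQ + x1 := by rw [hXQ]; ring
  have e2 : y2 + (n + 1) * y1 = Y + y1 := by rw [hY]; ring
  rw [e1, e2] at hQ2
  have s1 : XQ + x1 < 0 := by linarith
  have s2 : 0 < Y + y1 := by linarith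
  have hY0 : 0 ≤ Y := by rw [hY]; positivity
  have key : x1 + r ≤ -XQ := by
    by_contra hc
    push Not at hc
    have hyW : W ≤ Y + y1 := by
      by_contra hc2
      push Not at hc2
      apply hno _ hQ2
      left
      refine ⟨mul_neg_of_neg_of_pos s1 s2, Or.inl ?_, ?_, ?_⟩
      · simp only; rw [abs_of_neg s1]; linarith
      · simp only; rw [abs_of_neg s1]; linarith
      · simp only; rw [abs_of_pos s2]; exact hc2
    rcases hbig with hb | ⟨h, hh, g1, g2, g3, g4, g5⟩
    · linarith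
    · have hx1 : r < x1 := by
        by_contra hc3
        push Not at hc3
        obtain ⟨k, hk⟩ := hd _ hh _ h1
        obtain ⟨a, b⟩ := h
        simp only at g1 g2 g3 g4 g5 hk
        rcases lt_or_ge a 0 with ha | ha
        · have hb : 0 < b := by
            by_contra hc4
            push Not at hc4
            have := mul_nonneg (neg_nonneg.2 ha.le) (neg_nonneg.2 hc4)
            linarith
          rw [abs_of_neg ha] at g2 g3
          rw [abs_of_pos hb] at g4 g5
          have q1 := mul_lt_mul_of_pos_right g2 a4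
          have q2 := mul_lt_mul_of_pos_right g4 a3
          have q3 := mul_lt_mul_of_pos_right g3 a4
          have q4 := mul_lt_mul_of_pos_right g5 a3
          have i1 : r * (x1 + y1) < -(a * y1 - b * x1) := by linarith
          have i2 : -(a * y1 - b * x1) < W * (x1 + y1) := by linarith
          have i3 : r * W ≤ r * (x1 + y1) := mul_le_mul_of_nonneg_left a5 hr.le
          have i4 : W * (x1 + y1) ≤ W * (r * 2) :=
            mul_le_mul_of_nonneg_left (by linarith) (by linarith)
          rw [hk] at i1 i2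
          have hWr : 0 < W * r := mul_pos (by linarith) hr
          have k1 : W * r * 1 < W * r * (-k) := by linarith
          have k2 : W * r * (-k) < W * r * 2 := by linarith
          have k3 := lt_of_mul_lt_mul_left k1 hWr.le
          have k4 := lt_of_mul_lt_mul_left k2 hWr.le
          omega
        · have ha' : 0 < a := by
            rcases eq_or_lt_of_le ha with h5 | h5
            · rw [← h5] at g1; simp at g1
            · exact h5
          have hb : b < 0 := by
            by_contra hc4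
            push Not at hc4
            have := mul_nonneg ha hc4
            linarith
          rw [abs_of_pos ha'] at g2 g3
          rw [abs_of_neg hb] at g4 g5
          have q1 := mul_lt_mul_of_pos_right g2 a4
          have q2 := mul_lt_mul_of_pos_right g4 a3
          have q3 := mul_lt_mul_of_pos_right g3 a4
          have q4 := mul_lt_mul_of_pos_right g5 a3
          have i1 : r * (x1 + y1) < a * y1 - b * x1 := by linarith
          have i2 : a * y1 - b * x1 < W * (x1 + y1) := by linarith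
          have i3 : r * W ≤ r * (x1 + y1) := mul_le_mul_of_nonneg_left a5 hr.le
          have i4 : W * (x1 + y1) ≤ W * (r * 2) :=
            mul_le_mul_of_nonneg_left (by linarith) (by linarith)
          rw [hk] at i1 i2
          have hWr : 0 < W * r := mul_pos (by linarith) hr
          have k1 : W * r * 1 < W * r * k := by linarith
          have k2 : W * r * k < W * r * 2 := by linarith
          have k3 := lt_of_mul_lt_mul_left k1 hWr.le
          have k4 := lt_of_mul_lt_mul_left k2 hWr.le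
          omega
      have j1 : x1 * (W - y1) ≤ x1 * Y := mul_le_mul_of_nonneg_left (by linarith) a3.le
      have j2 : y1 * W ≤ y1 * (-XQ) := mul_le_mul_of_nonneg_left (by linarith) a4.le
      have j3 : W * (x1 + y1 - r) ≤ x1 * y1 := by linarith
      have j4 : W * y1 < W * (x1 + y1 - r) := mul_lt_mul_of_pos_left (by linarith) (by linarith)
      have j5 : x1 * y1 < W * y1 := mul_lt_mul_of_pos_right a1 a4
      linarith
  have t1 : y1 * (x1 + r) ≤ y1 * (-XQ) := mul_le_mul_of_nonneg_left key a4.le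
  have t2 : x1 * r ≤ x1 * (Y + y1) := mul_le_mul_of_nonneg_left n2 a3.le
  have t3 : r * W ≤ r * (x1 + y1) := mul_le_mul_of_nonneg_left a5 hr.le
  have u1 : x1 * (Y + y1) = x1 * r := by linarith
  have u2 : y1 * (-XQ) = y1 * (x1 + r) := by linarith
  have v1 : Y + y1 = r := mul_left_cancel₀ a3.ne' u1
  have v2 : -XQ = x1 + r := mul_left_cancel₀ a4.ne' u2
  exfalso
  have e3 : XQ + x1 = -r := by linarith
  rw [e3, v1] at hQ2
  have := hE _ hQ2 (by simp only [ne_eq, Prod.mk_eq_zero, not_and]; intro h; linarith)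
    (mul_neg_of_neg_of_pos (neg_lt_zero.2 hr) hr).le (by simp only; rw [abs_neg, abs_of_pos hr])
  simp only [abs_of_pos hr, lt_irrefl] at this

theorem axis_pos (hr : 0 < r)
    (hE : ∀ p ∈ Φ, p ≠ 0 → p.1 * p.2 ≤ 0 → |p.1| ≤ r → r < |p.2|)
    (hno : ∀ p ∈ Φ, ¬ GoodP r W p)
    (hd : ∀ p ∈ Φ, ∀ q ∈ Φ, W * r ∣ p.1 * q.2 - p.2 * q.1)
    (hbig : BigP r W Φ)
    (h1 : (x1, y1) ∈ Φ) (h2 : (x2, y2) ∈ Φ) (hdet : x1 * y2 - y1 * x2 = W * r)
    (a1 : |x1| < W) (a2 : y1 ≤ r) (a4 : 0 < y1) : ∃ X, 0 < X ∧ X ≤ W ∧ (X, 0) ∈ Φ := by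
  have hrW := hbig.lt hr
  rcases lt_trichotomy x1 0 with g | g | g
  · -- opposite signs
    rw [abs_of_neg g] at a1
    have i1 : r < -x1 := by
      by_contra hc
      push Not at hc
      have := hE _ h1 (by simp only [ne_eq, Prod.mk_eq_zero, not_and]; intro h; linarith)
        (mul_neg_of_neg_of_pos g a4).le (by simp only; rw [abs_of_neg g]; exact hc)
      simp only [abs_of_pos a4] at this
      linarith
    have i2 : y1 = r := by
      by_contra hc
      apply hno _ h1
      left
      refine ⟨mul_neg_of_neg_of_pos g a4, Or.inr ?_, ?_, ?_⟩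
      · simp only; rw [abs_of_pos a4]; omega
      · simp only; rw [abs_of_neg g]; exact a1
      · simp only; rw [abs_of_pos a4]; linarith
    obtain ⟨a, b, j1, j2, j3, j4⟩ := red_row h1 (Φ.neg_mem h2) a4 (D := -(W * r)) (by
      simp only; linarith)
    rw [i2] at j3 j4
    rcases eq_or_lt_of_le j2 with j5 | j5
    · subst j5
      have : a = W := by
        have : r * a = r * W := by linarith
        exact mul_left_cancel₀ hr.ne' this
      subst this
      exact ⟨a, by linarith, le_refl _, j1⟩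
    · exfalso
      have k1 : r * a = W * r + x1 * b := by linarith
      have q1 := mul_lt_mul_of_pos_right a1 j5
      have q2 : W * b < W * r := mul_lt_mul_of_pos_left j3 (by linarith)
      have k2 : 0 < r * a := by linarith
      have k3 : 0 < a := by
        by_contra hc
        push Not at hc
        have := mul_nonneg hr.le (neg_nonneg.2 hc)
        linarith
      have k4 : r * (a + b) < r * W := by
        have q3 : (r + x1) * b < 0 := mul_neg_of_neg_of_pos (by linarith) j5
        linarith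
      have k5 := lt_of_mul_lt_mul_left k4 hr.le
      apply hno _ j1
      right
      refine ⟨mul_pos k3 j5, Or.inr ?_, ?_⟩
      · simp only; rw [abs_of_pos j5]; exact j3
      · simp only; rw [abs_of_pos j5, abs_of_pos k3]; exact k5
  · subst g
    have := hE _ h1 (by simp only [ne_eq, Prod.mk_eq_zero, not_and]; intro _ h; linarith)
      (by simp only [zero_mul, le_refl]) (by simp only [abs_zero]; exact hr.le)
    simp only [abs_of_pos a4] at this
    linarith
  · rw [abs_of_pos g] at a1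
    obtain ⟨a, b, j1, j2, j3, j4⟩ := red_row h1 h2 a4 hdet
    rcases lt_or_ge (x1 + y1) W with c | c
    · -- a centre
      have i2 : y1 = r := by
        by_contra hc
        apply hno _ h1
        right
        refine ⟨mul_pos g a4, Or.inr ?_, ?_⟩
        · simp only; rw [abs_of_pos a4]; omega
        · simp only; rw [abs_of_pos g, abs_of_pos a4]; exact c
      rw [i2] at j3 j4
      have k1 : r * a = x1 * b - W * r := by linarith
      rcases eq_or_lt_of_le j2 with j5 | j5
      · subst j5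
        have : a = -W := by
          have : r * a = r * (-W) := by linarith
          exact mul_left_cancel₀ hr.ne' this
        subst this
        refine ⟨W, by linarith, le_refl _, ?_⟩
        have := Φ.neg_mem j1
        simpa using this
      · exfalso
        have q1 := mul_lt_mul_of_pos_right a1 j5
        have q2 : W * b < W * r := mul_lt_mul_of_pos_left j3 (by linarith)
        have k2 : r * a < 0 := by linarith
        have k3 : a < 0 := by
          by_contra hc
          push Not at hc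
          have := mul_nonneg hr.le hc
          linarith
        have k4 : r * (-a) < r * W := by
          have q3 := mul_pos g j5
          linarith
        have k5 := lt_of_mul_lt_mul_left k4 hr.le
        apply hno _ j1
        left
        refine ⟨mul_neg_of_neg_of_pos k3 j5, Or.inr ?_, ?_, ?_⟩
        · simp only; rw [abs_of_pos j5]; exact j3
        · simp only; rw [abs_of_neg k3]; exact k5
        · simp only; rw [abs_of_pos j5]; linarith
    · exact corner hr hE hno hd hbig h1 j1 j4 a1 a2 g a4 c j2 j3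

/-- **a point on the first axis** -/
theorem axis_one (hr : 0 < r)
    (hE : ∀ p ∈ Φ, p ≠ 0 → p.1 * p.2 ≤ 0 → |p.1| ≤ r → r < |p.2|)
    (hno : ∀ p ∈ Φ, ¬ GoodP r W p)
    (hd : ∀ p ∈ Φ, ∀ q ∈ Φ, W * r ∣ p.1 * q.2 - p.2 * q.1)
    (hbig : BigP r W Φ)
    (h1 : (x1, y1) ∈ Φ) (h2 : (x2, y2) ∈ Φ) (hdet : |x1 * y2 - y1 * x2| = W * r)
    (a1 : |x1| < W) (a2 : |y1| ≤ r) : ∃ X, 0 < X ∧ X ≤ W ∧ (X, 0) ∈ Φ := by
  have hrW := hbig.lt hr
  have hWr : 0 < W * r := mul_pos (by linarith) hr
  rcases lt_trichotomy y1 0 with g | g | g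
  · rw [abs_of_neg g] at a2
    have h1' : (-x1, -y1) ∈ Φ := by simpa using Φ.neg_mem h1
    have h2' : (-x2, -y2) ∈ Φ := by simpa using Φ.neg_mem h2
    rcases abs_eq hWr.le |>.1 hdet with h | h
    · exact axis_pos hr hE hno hd hbig h1' h2' (by linarith) (by rwa [abs_neg]) a2 (by linarith)
    · exact axis_pos hr hE hno hd hbig h1' h2 (by linarith) (by rwa [abs_neg]) a2 (by linarith)
  · subst g
    have hx : x1 ≠ 0 := by
      rintro rfl
      rw [zero_mul, zero_mul, sub_zero, abs_zero] at hdet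
      exact absurd hdet hWr.ne
    rcases lt_or_gt_of_ne hx with h | h
    · rw [abs_of_neg h] at a1
      exact ⟨-x1, by linarith, by linarith, by simpa using Φ.neg_mem h1⟩
    · rw [abs_of_pos h] at a1
      exact ⟨x1, h, a1.le, h1⟩
  · rw [abs_of_pos g] at a2
    have h2' : (-x2, -y2) ∈ Φ := by simpa using Φ.neg_mem h2
    rcases abs_eq hWr.le |>.1 hdet with h | h
    · exact axis_pos hr hE hno hd hbig h1 h2 h a1 a2 g
    · exact axis_pos hr hE hno hd hbig h1 h2' (by linarith) a1 a2 g

end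

/-! ## The lattice of a configuration -/

theorem GoodP.swap {r W a b : ℤ} (h : GoodP r W (a, b)) : GoodP r W (b, a) := by
  rcases h with ⟨h1, h2, h3, h4⟩ | ⟨h1, h2, h3⟩
  · exact Or.inl ⟨by simp only at h1 ⊢; rwa [mul_comm], h2.symm, h4, h3⟩
  · exact Or.inr ⟨by simp only at h1 ⊢; rwa [mul_comm], h2.symm, by
      simp only at h3 ⊢; rwa [add_comm]⟩

theorem GoodP.div {r W a b d : ℤ} (hd : 0 < d) (h : GoodP r W (d * a, d * b)) :
    GoodP r W (a, b) := by
  have hd1 : 1 ≤ d := hd
  have key : ∀ c : ℤ, |c| ≤ |d * c| := by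
    intro c
    rw [abs_mul, abs_of_pos hd]
    nlinarith [abs_nonneg c]
  have e : d * a * (d * b) = d * d * (a * b) := by ring
  have hdd : 0 < d * d := mul_pos hd hd
  have ka := key a
  have kb := key b
  rcases h with ⟨h1, h2, h3, h4⟩ | ⟨h1, h2, h3⟩
  · simp only [e] at h1 h2 h3 h4
    refine Or.inl ⟨?_, ?_, by simp only; linarith, by simp only; linarith⟩
    · simp only
      by_contra hc
      push Not at hc
      have := mul_nonneg hdd.le hc
      linarith
    · exact h2.imp (fun h => lt_of_le_of_lt ka h) (fun h => lt_of_le_of_lt kb h)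
  · simp only [e] at h1 h2 h3
    refine Or.inr ⟨?_, ?_, by simp only; linarith⟩
    · simp only
      by_contra hc
      push Not at hc
      have := mul_nonneg hdd.le (neg_nonneg.2 hc)
      linarith
    · exact h2.imp (fun h => lt_of_le_of_lt ka h) (fun h => lt_of_le_of_lt kb h)

/-- the pair of forms `z ↦ (z × l, z × m)` -/
def phi (l m : Z2) : Z2 →+ Z2 where
  toFun z := (cr z l, cr z m)
  map_zero' := by simp [cr]
  map_add' a b := by ext <;> simp only [cr, Prod.fst_add, Prod.snd_add] <;> ring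

@[simp] theorem phi_apply (l m z : Z2) : phi l m z = (cr z l, cr z m) := rfl

theorem Emb.symm {Λ : AddSubgroup Z2} {l m : Z2} (h : Emb Λ l m) : Emb Λ m l := by
  rintro z hz hz0 ⟨a1, a2, a3, a4⟩
  apply h z hz hz0
  have e1 : cr z l * cr m l = cr l z * cr l m := by simp only [cr]; ring
  have e2 : cr m z * cr m l = cr z m * cr l m := by simp only [cr]; ring
  have e3 : cr m l * cr m l = cr l m * cr l m := by simp only [cr]; ring
  rw [e1] at a1
  rw [e1, e3] at a2
  rw [e2] at a3
  rw [e2, e3] at a4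
  exact ⟨a3, a4, a1, a2⟩

/-- no point of the lattice in the closed squares -/
theorem Emb.square {Λ : AddSubgroup Z2} {l m z : Z2} (h : Emb Λ l m) (hz : z ∈ Λ) (hz0 : z ≠ 0)
    (h1 : cr z l * cr z m ≤ 0) (h2 : |cr z l| ≤ |cr l m|) : |cr l m| < |cr z m| := by
  by_contra h3
  push Not at h3
  set σ := cr l m with hσ
  have e1 : cr l z = -cr z l := cr_swap' _ _
  have hsq : |σ| * |σ| = σ * σ := abs_mul_abs_self σ
  have b1 : |cr z m * σ| ≤ σ * σ := by
    rw [abs_mul, ← hsq]
    exact mul_le_mul_of_nonneg_right h3 (abs_nonneg _)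
  have b2 : |cr l z * σ| ≤ σ * σ := by
    rw [abs_mul, ← hsq, e1, abs_neg]
    exact mul_le_mul_of_nonneg_right h2 (abs_nonneg _)
  have b3 : 0 ≤ (cr z m * σ) * (cr l z * σ) := by
    have : (cr z m * σ) * (cr l z * σ) = -(cr z l * cr z m) * (σ * σ) := by rw [e1]; ring
    rw [this]
    exact mul_nonneg (by linarith) (mul_self_nonneg _)
  have b4 := abs_le.1 b1
  have b5 := abs_le.1 b2
  have n1 : cr (-z) m * σ = -(cr z m * σ) := by rw [cr_negl]; ring
  have n2 : cr l (-z) * σ = -(cr l z * σ) := by rw [cr_negr]; ring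
  rcases lt_trichotomy (cr z m * σ) 0 with g | g | g
  · have g2 : cr l z * σ ≤ 0 := by
      by_contra hc
      push Not at hc
      have := mul_neg_of_neg_of_pos g hc
      linarith
    apply h (-z) (Λ.neg_mem hz) (neg_ne_zero.2 hz0)
    rw [n1, n2]
    exact ⟨by linarith, by linarith [b4.1], by linarith, by linarith [b5.1]⟩
  · rcases le_or_gt 0 (cr l z * σ) with g2 | g2
    · exact h z hz hz0 ⟨g.ge, b4.2, g2, b5.2⟩
    · apply h (-z) (Λ.neg_mem hz) (neg_ne_zero.2 hz0)
      rw [n1, n2]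
      exact ⟨by linarith, by linarith [b4.1], by linarith, by linarith [b5.1]⟩
  · have g2 : 0 ≤ cr l z * σ := by
      by_contra hc
      push Not at hc
      have := mul_neg_of_pos_of_neg g hc
      linarith
    exact h z hz hz0 ⟨g.le, b4.2, g2, b5.2⟩

section

variable {U x l m z : Z2}

/-- the hypothesis on the size, for the lattice of a configuration -/
def BigL (U x l m : Z2) : Prop :=
  2 * |cr l m| ≤ cr U x ∨ ∃ h ∈ AddSubgroup.closure ({U, x} : Set Z2), cr h l * cr h m < 0 ∧
    |cr l m| < |cr h l| ∧ |cr h l| < cr U x ∧ |cr l m| < |cr h m| ∧ |cr h m| < cr U x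

theorem BigL.swap (h : BigL U x l m) : BigL U x m l := by
  have e : |cr m l| = |cr l m| := by rw [cr_swap' l m, abs_neg]
  unfold BigL
  rw [e]
  rcases h with h | ⟨z, h1, h2, h3, h4, h5, h6⟩
  · exact Or.inl h
  · exact Or.inr ⟨z, h1, by rwa [mul_comm], h5, h6, h3, h4⟩

theorem cr_dvd_of_mem {z' : Z2} (hz : z ∈ AddSubgroup.closure ({U, x} : Set Z2))
    (hz' : z' ∈ AddSubgroup.closure ({U, x} : Set Z2)) : cr U x ∣ cr z z' := by
  refine area_dvd ?_
  rw [AddSubgroup.closure_le]
  rintro y (rfl | rfl)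
  · exact hz
  · exact hz'

/-- a point on the first axis -/
theorem axis_lat (hW : 0 < cr U x) (h0 : cr l m ≠ 0)
    (hE : Emb (AddSubgroup.closure {U, x}) l m) (hbig : BigL U x l m)
    (hno : ∀ i j : ℤ, IsCoprime i j →
      ¬ GoodP |cr l m| (cr U x) (cr (i • U + j • x) l, cr (i • U + j • x) m)) :
    ∃ i j : ℤ, IsCoprime i j ∧ cr (i • U + j • x) m = 0 ∧ |cr l m| < cr (i • U + j • x) l ∧
      cr (i • U + j • x) l ≤ cr U x := by
  set Λ := AddSubgroup.closure ({U, x} : Set Z2) with hΛ
  have hr : 0 < |cr l m| := abs_pos.2 h0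
  have hne : ∀ z : Z2, (cr z l, cr z m) ≠ ((0, 0) : ℤ × ℤ) → z ≠ 0 := by
    rintro z hz rfl
    exact hz (by simp [cr])
  have hno' : ∀ p ∈ Λ.map (phi l m), ¬ GoodP |cr l m| (cr U x) p := by
    rintro p ⟨z, hz, rfl⟩ hg
    rw [phi_apply] at hg
    obtain ⟨i, j, rfl⟩ := AddSubgroup.mem_closure_pair.1 hz
    have hij : i ≠ 0 ∨ j ≠ 0 := by
      by_contra hc
      push Not at hc
      rw [hc.1, hc.2] at hg
      rcases hg with ⟨h1, -⟩ | ⟨h1, -⟩ <;> simp [cr] at h1
    obtain ⟨d, i', j', d1, d2, d3, d4⟩ := exists_prim_of_ne hij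
    apply hno i' j' d2
    apply GoodP.div d1
    have e : ∀ w : Z2, cr (i • U + j • x) w = d * cr (i' • U + j' • x) w := by
      intro w
      rw [cr_zz_left, cr_zz_left, d3, d4]; ring
    rwa [e, e] at hg
  have hE' : ∀ p ∈ Λ.map (phi l m), p ≠ 0 → p.1 * p.2 ≤ 0 → |p.1| ≤ |cr l m| →
      |cr l m| < |p.2| := by
    rintro p ⟨z, hz, rfl⟩ hp h1 h2
    rw [phi_apply] at hp h1 h2 ⊢
    exact hE.square hz (hne z (by simpa using hp)) h1 h2
  have hd : ∀ p ∈ Λ.map (phi l m), ∀ q ∈ Λ.map (phi l m),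
      cr U x * |cr l m| ∣ p.1 * q.2 - p.2 * q.1 := by
    rintro p ⟨z, hz, rfl⟩ q ⟨z', hz', rfl⟩
    rw [phi_apply, phi_apply]
    have e : cr z l * cr z' m - cr z m * cr z' l = cr z z' * cr l m := by
      rw [← cr_plucker z z' l m]; ring
    rw [e]
    exact mul_dvd_mul (cr_dvd_of_mem hz hz') ((abs_dvd _ _).2 dvd_rfl)
  have hbig' : BigP |cr l m| (cr U x) (Λ.map (phi l m)) := by
    rcases hbig with h | ⟨z, h1, h2, h3, h4, h5, h6⟩
    · exact Or.inl h
    · exact Or.inr ⟨phi l m z, ⟨z, h1, rfl⟩, h2, h3, h4, h5, h6⟩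
  obtain ⟨i, j, c1, c2, c3⟩ := mink_lat (u := U) (x := x) (l := l) (m := m) (A := cr U x)
    (B := |cr l m|) hW hr.le (by rw [abs_mul, abs_of_pos hW]; nlinarith)
  obtain ⟨y, y1, y2⟩ := exists_compl (u := U) (x := x) c1
  have hz1 : i • U + j • x ∈ Λ := AddSubgroup.mem_closure_pair.2 ⟨i, j, rfl⟩
  have hy1 : y ∈ Λ := by
    rw [hΛ, ← y2]
    exact AddSubgroup.subset_closure (by simp)
  have hdet : |cr (i • U + j • x) l * cr y m - cr (i • U + j • x) m * cr y l| =
      cr U x * |cr l m| := by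
    have e : cr (i • U + j • x) l * cr y m - cr (i • U + j • x) m * cr y l =
        cr (i • U + j • x) y * cr l m := by
      rw [← cr_plucker (i • U + j • x) y l m]; ring
    rw [e, y1, abs_mul, abs_of_pos hW]
  obtain ⟨X, X1, X2, z, hz, hz'⟩ := axis_one hr hE' hno' hd hbig'
    ⟨i • U + j • x, hz1, rfl⟩ ⟨y, hy1, rfl⟩ hdet c2 c3
  rw [phi_apply, Prod.mk.injEq] at hz'
  obtain ⟨i1, j1, rfl⟩ := AddSubgroup.mem_closure_pair.1 hz
  have hij : i1 ≠ 0 ∨ j1 ≠ 0 := by
    by_contra hc
    push Not at hc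
    rw [hc.1, hc.2] at hz'
    have := hz'.1
    simp [cr] at this
    linarith
  obtain ⟨d, i', j', d1, d2, d3, d4⟩ := exists_prim_of_ne hij
  have e : ∀ w : Z2, cr (i1 • U + j1 • x) w = d * cr (i' • U + j' • x) w := by
    intro w
    rw [cr_zz_left, cr_zz_left, d3, d4]; ring
  rw [e, e] at hz'
  have f1 : cr (i' • U + j' • x) m = 0 := by
    rcases mul_eq_zero.1 hz'.2 with h | h
    · exact absurd h d1.ne'
    · exact h
  have f2 : 0 < cr (i' • U + j' • x) l := by
    by_contra hc
    push Not at hc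
    have := mul_nonneg d1.le (neg_nonneg.2 hc)
    linarith
  have f3 : cr (i' • U + j' • x) l ≤ cr U x := by
    have : 1 * cr (i' • U + j' • x) l ≤ d * cr (i' • U + j' • x) l :=
      mul_le_mul_of_nonneg_right d1 f2.le
    linarith
  refine ⟨i', j', d2, f1, ?_, f3⟩
  by_contra hc
  push Not at hc
  have := hE.square (z := i' • U + j' • x) (AddSubgroup.mem_closure_pair.2 ⟨i', j', rfl⟩) ?_
    (by rw [f1, mul_zero]) (by rw [abs_of_pos f2]; exact hc)
  · rw [f1, abs_zero] at this
    linarith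
  · intro h
    rw [h] at f2
    simp [cr] at f2

/-- **helper42's Theorem 1 / helper83's Theorem A**: no good vector, so `Λ` has vectors parallel
to `m` and to `l`. -/
theorem axes (hW : 0 < cr U x) (h0 : cr l m ≠ 0)
    (hE : Emb (AddSubgroup.closure {U, x}) l m) (hbig : BigL U x l m)
    (hno : ∀ i j : ℤ, IsCoprime i j →
      ¬ GoodP |cr l m| (cr U x) (cr (i • U + j • x) l, cr (i • U + j • x) m)) :
    (∃ i j : ℤ, IsCoprime i j ∧ cr (i • U + j • x) m = 0 ∧ |cr l m| < cr (i • U + j • x) l ∧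
      cr (i • U + j • x) l ≤ cr U x) ∧
    (∃ i j : ℤ, IsCoprime i j ∧ cr (i • U + j • x) l = 0 ∧ |cr l m| < cr (i • U + j • x) m ∧
      cr (i • U + j • x) m ≤ cr U x) := by
  refine ⟨axis_lat hW h0 hE hbig hno, ?_⟩
  have e : |cr m l| = |cr l m| := by rw [cr_swap' l m, abs_neg]
  have h0' : cr m l ≠ 0 := by rw [cr_swap' l m]; exact neg_ne_zero.2 h0
  have := axis_lat hW h0' hE.symm hbig.swap (fun i j hij hg => hno i j hij (by
    rw [e] at hg; exact hg.swap))
  rwa [e] at this

/-- rows: the values `z × m` off the axis are at least `|l × m|` -/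
theorem rows (hW : 0 < cr U x) {p : Z2} (hp : p ∈ AddSubgroup.closure ({U, x} : Set Z2))
    (h1 : cr p m = 0) (h2 : 0 < cr p l) (h2' : cr p l ≤ cr U x)
    (hz : z ∈ AddSubgroup.closure ({U, x} : Set Z2)) (h3 : cr z m ≠ 0) :
    |cr l m| ≤ |cr z m| := by
  have e : cr p l * cr z m = cr p z * cr l m := by
    rw [← cr_plucker p z l m, h1]; ring
  obtain ⟨k, hk⟩ := cr_dvd_of_mem hp hz
  have hk0 : k ≠ 0 := by
    rintro rfl
    rw [hk, mul_zero, zero_mul] at e
    rcases mul_eq_zero.1 e with g1 | g1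
    · exact h2.ne' g1
    · exact h3 g1
  have e2 : cr p l * |cr z m| = cr U x * |k| * |cr l m| := by
    have f0 : |cr p l * cr z m| = |cr p z * cr l m| := by rw [e]
    rw [hk, abs_mul, abs_mul, abs_mul, abs_of_pos h2, abs_of_pos hW] at f0
    exact f0
  have k1 : 1 ≤ |k| := Int.one_le_abs hk0
  have f1 : cr p l * |cr z m| ≤ cr U x * |cr z m| :=
    mul_le_mul_of_nonneg_right h2' (abs_nonneg _)
  have f2 : cr U x * 1 * |cr l m| ≤ cr U x * |k| * |cr l m| :=
    mul_le_mul_of_nonneg_right (mul_le_mul_of_nonneg_left k1 hW.le) (abs_nonneg _)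
  have f3 : cr U x * |cr l m| ≤ cr U x * |cr z m| := by linarith
  exact le_of_mul_le_mul_left f3 hW

/-- columns: the values `z × l` off the axis are at least `|l × m|` -/
theorem cols (hW : 0 < cr U x) {p : Z2} (hp : p ∈ AddSubgroup.closure ({U, x} : Set Z2))
    (h1 : cr p l = 0) (h2 : 0 < cr p m) (h2' : cr p m ≤ cr U x)
    (hz : z ∈ AddSubgroup.closure ({U, x} : Set Z2)) (h3 : cr z l ≠ 0) :
    |cr l m| ≤ |cr z l| := by
  have := rows (l := m) (m := l) hW hp h1 h2 h2' hz h3
  rwa [cr_swap' l m, abs_neg] at this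

end

end Pool.Agent.H4G.Six
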