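import Mathlib

/-!
# The sign of a translation of a finite abelian group (helper41)
-/

set_option autoImplicit false

namespace Pool.Agent.H4G.Sgn

open Equiv Equiv.Perm

variable {A : Type*} [AddCommGroup A] [Fintype A] [DecidableEq A]

/-- the translation by a generator of a cyclic group is a cycle -/
theorem sign_gen {C : Type*} [AddCommGroup C] [Fintype C] [DecidableEq C] (d : C)
    (hd : ∀ x : C, ∃ k : ℤ, k • d = x) :
    Perm.sign (Equiv.addRight d) = -(-1) ^ Fintype.card C := by
  by_cases h0 : d = 0
  · have h1 : ∀ x : C, x = 0 := fun x => by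
      obtain ⟨k, hk⟩ := hd x
      rw [← hk, h0, smul_zero]
    have : Subsingleton C := ⟨fun x y => by rw [h1 x, h1 y]⟩
    have hc : Fintype.card C = 1 := by
      apply le_antisymm (Fintype.card_le_one_iff_subsingleton.2 this)
      exact Fintype.card_pos_iff.2 ⟨0⟩
    have h2 : (Equiv.addRight d) = 1 := Equiv.ext fun x => Subsingleton.elim _ _
    rw [h2, hc]
    simp
  · have hpow : ∀ (k : ℤ) (x : C), ((Equiv.addRight d) ^ k) x = x + k • d := by
      intro k x
      induction k using Int.induction_on generalizing x with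
      | zero => simp
      | succ n ih => rw [zpow_add_one, Perm.mul_apply, ih]; simp [add_smul]; abel
      | pred n ih =>
        rw [zpow_sub_one, Perm.mul_apply, ih]
        have : (Equiv.addRight d)⁻¹ x = x - d := by
          rw [Perm.inv_eq_iff_eq]; simp
        rw [this, sub_smul, one_smul]; abel
    have hcyc : IsCycle (Equiv.addRight d) := by
      refine ⟨0, ?_, fun y _ => ?_⟩
      · simpa using h0
      · obtain ⟨k, hk⟩ := hd y
        exact ⟨k, by rw [hpow, zero_add, hk]⟩
    have hsupp : (Equiv.addRight d).support = Finset.univ := by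
      ext x
      simp [h0]
    rw [hcyc.sign, hsupp, Finset.card_univ]

/-- the sign of a translation -/
theorem sign_addRight (d : A) [Fintype (A ⧸ AddSubgroup.zmultiples d)] :
    Perm.sign (Equiv.addRight d) =
      (-(-1) ^ addOrderOf d) ^ Fintype.card (A ⧸ AddSubgroup.zmultiples d) := by
  classical
  have hdH : d ∈ AddSubgroup.zmultiples d := AddSubgroup.mem_zmultiples d
  let o : A ⧸ AddSubgroup.zmultiples d → A := fun q => q.out
  have ho : ∀ q : A ⧸ AddSubgroup.zmultiples d, (o q : A ⧸ AddSubgroup.zmultiples d) = q :=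
    fun q => Quotient.out_eq' q
  have hx : ∀ x : A, x - o x ∈ AddSubgroup.zmultiples d := fun x => by
    have h1 := ho (x : A ⧸ AddSubgroup.zmultiples d)
    have h2 := (QuotientAddGroup.eq).1 h1
    rwa [neg_add_eq_sub] at h2
  have hq : ∀ (q : A ⧸ AddSubgroup.zmultiples d) (h : AddSubgroup.zmultiples d),
      ((o q + h : A) : A ⧸ AddSubgroup.zmultiples d) = q := fun q h => by
    rw [QuotientAddGroup.mk_add_of_mem _ h.2]
    exact ho q
  let e : (A ⧸ AddSubgroup.zmultiples d) × AddSubgroup.zmultiples d ≃ A :=
    { toFun := fun p => o p.1 + p.2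
      invFun := fun x => (x, ⟨x - o x, hx x⟩)
      left_inv := fun p => by
        refine Prod.ext (hq _ _) (Subtype.ext ?_)
        show o p.1 + p.2 - o ((o p.1 + p.2 : A) : A ⧸ AddSubgroup.zmultiples d) = p.2
        rw [hq]
        abel
      right_inv := fun x => by
        show o x + (x - o x) = x
        abel }
  have he : Equiv.addRight d = e.permCongr
      (prodCongrRight fun _ => Equiv.addRight (⟨d, hdH⟩ : AddSubgroup.zmultiples d)) := by
    ext x
    rw [Equiv.permCongr_apply]
    show x + d = o x + (x - o x + d)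
    abel
  rw [he, sign_permCongr, sign_prodCongrRight, Finset.prod_const, Finset.card_univ,
    sign_gen _ (fun x => ?_)]
  · congr 3
    rw [← Nat.card_eq_fintype_card, Nat.card_zmultiples]
  · obtain ⟨k, hk⟩ := AddSubgroup.mem_zmultiples_iff.1 x.2
    exact ⟨k, Subtype.ext (by simpa using hk)⟩

/-- doubling is onto on a group of odd order only -/
theorem odd_of_double {B : Type*} [AddCommGroup B] [Fintype B]
    (h : ∀ q : B, ∃ y : B, 2 • y = q) : Odd (Fintype.card B) := by
  rw [← Nat.not_even_iff_odd]
  intro he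
  obtain ⟨b, hb⟩ := exists_prime_addOrderOf_dvd_card 2 he.two_dvd
  have hsurj : Function.Surjective (fun y : B => 2 • y) := fun q => h q
  have hinj := Finite.injective_iff_surjective.2 hsurj
  have h1 : 2 • b = 2 • (0 : B) := by
    rw [smul_zero, ← hb]
    exact addOrderOf_nsmul_eq_zero b
  have h2 : b = 0 := hinj h1
  rw [h2, addOrderOf_zero] at hb
  omega

/-- a group of odd order is divisible by `2` -/
theorem double_of_odd {B : Type*} [AddCommGroup B] [Fintype B] (h : Odd (Fintype.card B))
    (q : B) : ∃ y : B, 2 • y = q := by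
  obtain ⟨m, hm⟩ := h
  refine ⟨(m + 1) • q, ?_⟩
  have h1 : Fintype.card B • q = 0 := card_nsmul_eq_zero
  rw [← mul_smul]
  have e : 2 * (m + 1) = Fintype.card B + 1 := by omega
  rw [e, add_smul, h1, one_smul, zero_add]

/-- THE SIGN OF A TRANSLATION is `-1` iff the order of the group is even and the vector together
with `2 A` generates the group. -/
theorem sign_trans (d : A) : Perm.sign (Equiv.addRight d) = -1 ↔
    Even (Fintype.card A) ∧ ∀ x : A, ∃ (y : A) (k : ℤ), x = 2 • y + k • d := by
  classical
  haveI : Fintype (A ⧸ AddSubgroup.zmultiples d) := Fintype.ofFinite _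
  have hcard : Fintype.card A =
      Fintype.card (A ⧸ AddSubgroup.zmultiples d) * addOrderOf d := by
    have h1 := AddSubgroup.card_eq_card_quotient_mul_card_addSubgroup (AddSubgroup.zmultiples d)
    rw [Nat.card_eq_fintype_card, Nat.card_eq_fintype_card, Nat.card_zmultiples] at h1
    exact h1
  have hm : (∀ x : A, ∃ (y : A) (k : ℤ), x = 2 • y + k • d) ↔
      Odd (Fintype.card (A ⧸ AddSubgroup.zmultiples d)) := by
    constructor
    · intro h
      apply odd_of_double
      intro q
      obtain ⟨x, rfl⟩ := QuotientAddGroup.mk_surjective q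
      obtain ⟨y, k, e⟩ := h x
      refine ⟨(y : A ⧸ AddSubgroup.zmultiples d), ?_⟩
      rw [← QuotientAddGroup.mk_nsmul]
      apply (QuotientAddGroup.eq).2
      rw [e, neg_add_cancel_left]
      exact AddSubgroup.mem_zmultiples_iff.2 ⟨k, rfl⟩
    · intro h x
      obtain ⟨q, hq⟩ := double_of_odd h (x : A ⧸ AddSubgroup.zmultiples d)
      obtain ⟨y, rfl⟩ := QuotientAddGroup.mk_surjective q
      rw [← QuotientAddGroup.mk_nsmul] at hq
      have h1 := (QuotientAddGroup.eq).1 hq
      obtain ⟨k, hk⟩ := AddSubgroup.mem_zmultiples_iff.1 h1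
      exact ⟨y, k, by rw [hk]; abel⟩
  rw [hm, sign_addRight, hcard, Nat.even_mul]
  rcases Nat.even_or_odd (addOrderOf d) with h1 | h1
  · rw [h1.neg_one_pow]
    rcases Nat.even_or_odd (Fintype.card (A ⧸ AddSubgroup.zmultiples d)) with h2 | h2
    · rw [h2.neg_one_pow]
      simp only [h2, true_or, true_and, Nat.not_odd_iff_even.2 h2, iff_false]
      decide
    · rw [h2.neg_one_pow]
      simp [h1, h2]
  · rw [h1.neg_one_pow, neg_neg, one_pow]
    have h3 : ¬ (Even (addOrderOf d)) := Nat.not_even_iff_odd.2 h1
    constructor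
    · intro h
      exact absurd h (by decide)
    · rintro ⟨h4 | h4, h5⟩
      · exact absurd h4 (Nat.not_even_iff_odd.2 h5)
      · exact absurd h4 h3

end Pool.Agent.H4G.Sgn
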