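import Pool.Agent.H4G.Six.Par
import Pool.Agent.H4G.Six.Sign

/-!
# The explicit origami of a horizontal E6 state (helper41)

Three tori `ℤ² / L i`, `L i = ⟨(w i, 0), (s i, h i)⟩`, `w 0 = k < w 1, w 2`, all slit along the
segment from `0` to `(k, 0)` and glued cyclically: `r = + (1, 0)`, `u = σ ∘ (+ (0, 1))`, where `σ`
is the product of the `3`-cycles `(j, 0)₀ → (j, 0)₁ → (j, 0)₂`, `0 ≤ j < k`.
-/

set_option autoImplicit false

namespace Pool.Agent.H4G.Six

open Pool.Agent.H4G

/-- the lattice generated by `(w, 0)` and `(s, h)` -/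
def latN (w s h : ℤ) : AddSubgroup Z2 := AddSubgroup.closure {((w, 0) : Z2), (s, h)}

theorem mem_latN {w s h : ℤ} {z : Z2} :
    z ∈ latN w s h ↔ ∃ m n : ℤ, z = (m * w + n * s, n * h) := by
  rw [latN, AddSubgroup.mem_closure_pair]
  constructor
  · rintro ⟨m, n, rfl⟩
    exact ⟨m, n, by ext <;> simp⟩
  · rintro ⟨m, n, rfl⟩
    exact ⟨m, n, by ext <;> simp⟩

theorem latN_w (w s h : ℤ) : ((w, 0) : Z2) ∈ latN w s h := mem_latN.2 ⟨1, 0, by ext <;> simp⟩

theorem latN_s (w s h : ℤ) : ((s, h) : Z2) ∈ latN w s h := mem_latN.2 ⟨0, 1, by ext <;> simp⟩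

/-- horizontal vectors of the lattice -/
theorem latN_hor {w s h x : ℤ} (hh : 0 < h) (hx : ((x, 0) : Z2) ∈ latN w s h) : w ∣ x := by
  obtain ⟨m, n, e⟩ := mem_latN.1 hx
  have e1 := congrArg Prod.fst e
  have e2 := congrArg Prod.snd e
  simp only at e1 e2
  have hn : n = 0 := by
    rcases mul_eq_zero.1 e2.symm with h1 | h1
    · exact h1
    · omega
  rw [hn] at e1
  exact ⟨m, by rw [e1]; ring⟩

/-- heights of the vectors of the lattice -/
theorem latN_ht {w s h x y : ℤ} (hx : ((x, y) : Z2) ∈ latN w s h) : h ∣ y := by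
  obtain ⟨m, n, e⟩ := mem_latN.1 hx
  exact ⟨n, by rw [mul_comm]; exact congrArg Prod.snd e⟩

/-- the data of the model -/
structure MD where
  k : ℕ
  w : Fin 3 → ℤ
  s : Fin 3 → ℤ
  h : Fin 3 → ℤ
  k0 : 0 < k
  w0 : w 0 = k
  w1 : (k : ℤ) < w 1
  w2 : (k : ℤ) < w 2
  hh : ∀ i, 0 < h i

namespace MD

variable (D : MD)

/-- the three lattices -/
abbrev L (i : Fin 3) : AddSubgroup Z2 := latN (D.w i) (D.s i) (D.h i)

/-- the squares of the model -/
abbrev Sq : Type := Σ i : Fin 3, Z2 ⧸ D.L i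

/-- the square `z` of the torus `i` -/
def pt (i : Fin 3) (z : Z2) : D.Sq := ⟨i, (z : Z2 ⧸ D.L i)⟩

/-- the translation of the three tori -/
def tr (d : Z2) : Equiv.Perm D.Sq :=
  Equiv.sigmaCongrRight fun i => Equiv.addRight (d : Z2 ⧸ D.L i)

theorem tr_pt (d : Z2) (i : Fin 3) (z : Z2) : D.tr d (D.pt i z) = D.pt i (z + d) := rfl

theorem kw (i : Fin 3) : (D.k : ℤ) ≤ D.w i := by
  fin_cases i
  · exact D.w0.ge
  · exact D.w1.le
  · exact D.w2.le

theorem pt_eq {i : Fin 3} {z z' : Z2} : D.pt i z = D.pt i z' ↔ z - z' ∈ D.L i := by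
  unfold pt
  constructor
  · intro h
    have h1 := eq_of_heq (Sigma.mk.inj h).2
    have h2 := (QuotientAddGroup.eq).1 h1
    have h3 := (D.L i).neg_mem h2
    rwa [neg_add_rev, neg_neg, neg_add_eq_sub] at h3
  · intro h
    have h3 := (D.L i).neg_mem h
    rw [neg_sub, ← neg_add_eq_sub] at h3
    rw [(QuotientAddGroup.eq).2 h3]

theorem pt_ne {i j : Fin 3} (hij : i ≠ j) (z z' : Z2) : D.pt i z ≠ D.pt j z' := by
  intro h
  exact hij (Sigma.mk.inj h).1

/-- the squares above the slit -/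
def slit : Fin D.k × Fin 3 ↪ D.Sq where
  toFun p := D.pt p.2 ((p.1 : ℕ), 0)
  inj' := by
    rintro ⟨a, i⟩ ⟨b, j⟩ hab
    have hij : i = j := (Sigma.mk.inj hab).1
    subst hij
    have h1 := D.pt_eq.1 hab
    have h2 : (((a : ℕ) : ℤ) - ((b : ℕ) : ℤ), (0 : ℤ)) ∈ D.L i := by
      simpa using h1
    have h3 := latN_hor (D.hh i) h2
    have h4 := D.kw i
    have ha := a.2
    have hb := b.2
    have h5 : ((a : ℕ) : ℤ) - ((b : ℕ) : ℤ) = 0 := by
      apply Int.eq_zero_of_abs_lt_dvd h3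
      rw [abs_lt]
      constructor <;> omega
    have : (a : ℕ) = b := by omega
    rw [Fin.ext this]

open Classical in
/-- the product of the `3`-cycles -/
noncomputable def sg : Equiv.Perm D.Sq :=
  Equiv.Perm.viaFintypeEmbedding (Equiv.prodCongrRight fun _ : Fin D.k => finRotate 3) D.slit

theorem sg_slit (i : Fin 3) {j : ℤ} (h0 : 0 ≤ j) (hk : j < D.k) :
    D.sg (D.pt i (j, 0)) = D.pt (i + 1) (j, 0) := by
  classical
  obtain ⟨n, rfl⟩ := Int.eq_ofNat_of_zero_le h0
  have hn : n < D.k := by omega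
  have e1 : D.pt i (((n : ℕ) : ℤ), 0) = D.slit (⟨n, hn⟩, i) := rfl
  rw [e1, sg, Equiv.Perm.viaFintypeEmbedding_apply_image]
  show D.pt (finRotate 3 i) _ = _
  rw [finRotate_apply]
  rfl

theorem sg_of_not {x : D.Sq} (hx : ∀ (j : Fin D.k) (i : Fin 3), x ≠ D.pt i ((j : ℕ), 0)) :
    D.sg x = x := by
  classical
  rw [sg]
  apply Equiv.Perm.viaFintypeEmbedding_apply_notMem_range
  rintro ⟨⟨j, i⟩, h⟩
  exact hx j i h.symm

/-- a row of positive height does not meet the slit -/
theorem sg_row {i : Fin 3} {z : Z2} (h1 : 0 < z.2) (h2 : z.2 < D.h i) :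
    D.sg (D.pt i z) = D.pt i z := by
  apply D.sg_of_not
  intro j i' he
  have hi : i = i' := (Sigma.mk.inj he).1
  subst hi
  have h3 := D.pt_eq.1 he
  have h4 : ((z.1 - ((j : ℕ) : ℤ), z.2) : Z2) ∈ D.L i := by
    have e : z - (((j : ℕ) : ℤ), 0) = (z.1 - ((j : ℕ) : ℤ), z.2) := by ext <;> simp
    rwa [e] at h3
  have h5 := latN_ht h4
  have h6 := Int.le_of_dvd h1 h5
  omega

/-- the squares of the row `0` beyond the slit -/
theorem sg_far {i : Fin 3} {x : ℤ} (h1 : (D.k : ℤ) ≤ x) (h2 : x < D.w i) :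
    D.sg (D.pt i (x, 0)) = D.pt i (x, 0) := by
  apply D.sg_of_not
  intro j i' he
  have hi : i = i' := (Sigma.mk.inj he).1
  subst hi
  have h3 := D.pt_eq.1 he
  have h4 : ((x - ((j : ℕ) : ℤ), 0) : Z2) ∈ D.L i := by
    have e : ((x, 0) : Z2) - (((j : ℕ) : ℤ), 0) = (x - ((j : ℕ) : ℤ), 0) := by ext <;> simp
    rwa [e] at h3
  have h5 := latN_hor (D.hh i) h4
  have hj := j.2
  have h6 := Int.le_of_dvd (by omega) h5
  omega

/-- the origami -/
noncomputable def O : PO D.Sq := ⟨D.tr (1, 0), D.sg * D.tr (0, 1)⟩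

theorem O_r (i : Fin 3) (z : Z2) : D.O.r (D.pt i z) = D.pt i (z + (1, 0)) := rfl

theorem O_u (i : Fin 3) (z : Z2) : D.O.u (D.pt i z) = D.sg (D.pt i (z + (0, 1))) := rfl

/-- the period `(s i, h i)` -/
theorem pt_s (i : Fin 3) (z : Z2) : D.pt i (z - (D.s i, D.h i)) = D.pt i z := by
  rw [pt_eq]
  have : z - (D.s i, D.h i) - z = -(D.s i, D.h i) := by abel
  rw [this]
  exact (D.L i).neg_mem (latN_s _ _ _)

/-- the period `(w i, 0)` -/
theorem pt_w (i : Fin 3) (z : Z2) : D.pt i (z + (D.w i, 0)) = D.pt i z := by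
  rw [pt_eq, add_sub_cancel_left]
  exact latN_w _ _ _

/-- the development of the column piece `i` -/
def fc (i : Fin 3) (z : Z2) : D.Sq :=
  if z.2 < 0 then D.pt (i - 1) z else if z.2 < D.h i then D.pt i z
    else D.pt (i + 1) (z - (D.s i, D.h i))

/-- the vector of the slit -/
abbrev uu : Z2 := (D.k, 0)

abbrev vv (i : Fin 3) : Z2 := (D.s i, D.h i)

end MD

/-- the squares around the points of a parallelogram with horizontal base -/
theorem pgm_rows {b s h : ℤ} (hb : 0 < b) (hh : 0 < h) {x : V} (hx : x ∈ Pgm (b, 0) (s, h))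
    {z : Z2} (hz : Nr x z) (hz' : Nr x (z + (0, 1))) :
    (z.2 = -1 ∧ 0 ≤ z.1 ∧ z.1 < b) ∨ (0 ≤ z.2 ∧ z.2 + 1 < h) ∨
      (0 ≤ z.2 ∧ z.2 + 1 = h ∧ 0 ≤ z.1 - s ∧ z.1 - s < b) := by
  have hb' : (0 : ℝ) < b := by exact_mod_cast hb
  have hh' : (0 : ℝ) < h := by exact_mod_cast hh
  obtain ⟨h1, h2, h3, h4, n1, n2, n3, n4⟩ := hx
  simp only [crx, cr] at h1 h2 h3 h4
  push_cast at h1 h2 h3 h4
  have y0 : 0 ≤ x.2 := by
    by_contra h
    push Not at h
    nlinarith
  have y1 : x.2 ≤ h := by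
    by_contra h
    push Not at h
    nlinarith
  obtain ⟨a1, a2, a3, a4⟩ := hz
  obtain ⟨b1, b2, b3, b4⟩ := hz'
  simp only [Prod.fst_add, Prod.snd_add, add_zero] at b1 b2 b3 b4
  push_cast at b1 b2 b3 b4
  have c1 : (-1 : ℤ) ≤ z.2 := by
    have : (-1 : ℝ) ≤ (z.2 : ℝ) := by linarith
    exact_mod_cast this
  have c2 : z.2 ≤ h - 1 := by
    have : (z.2 : ℝ) ≤ (h : ℝ) - 1 := by linarith
    exact_mod_cast this
  rcases lt_trichotomy z.2 (-1) with g | g | g
  · omega
  · -- the lower side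
    left
    have e2 : x.2 = 0 := by
      rw [g] at b3 a4
      push_cast at b3 a4
      linarith
    have d1 : 0 < x.1 := by
      rcases lt_trichotomy x.1 0 with h | h | h
      · rw [e2] at h3
        nlinarith
      · exfalso; apply n1; ext <;> simp [em, h, e2]
      · exact h
    have d2 : x.1 < b := by
      rcases lt_trichotomy x.1 b with h | h | h
      · exact h
      · exfalso; apply n2; ext <;> simp [em, h, e2]
      · rw [e2] at h4
        nlinarith
    refine ⟨g, ?_, ?_⟩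
    · have : (-1 : ℝ) < (z.1 : ℝ) := by linarith
      have : (-1 : ℤ) < z.1 := by exact_mod_cast this
      omega
    · have : (z.1 : ℝ) < (b : ℝ) := by linarith
      exact_mod_cast this
  · right
    rcases lt_or_ge (z.2 + 1) h with g3 | g3
    · exact Or.inl ⟨by omega, g3⟩
    · -- the upper side
      right
      have g4 : z.2 + 1 = h := by omega
      have g4' : (z.2 : ℝ) + 1 = h := by exact_mod_cast g4
      have e2 : x.2 = h := by linarith
      have d1 : 0 < x.1 - s := by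
        rcases lt_trichotomy (x.1 - s) 0 with h | h | h
        · rw [e2] at h3
          nlinarith
        · exfalso; apply n3
          have : x.1 = s := by linarith
          ext <;> simp [em, this, e2]
        · exact h
      have d2 : x.1 - s < b := by
        rcases lt_trichotomy (x.1 - s) b with h | h | h
        · exact h
        · exfalso; apply n4
          have : x.1 = b + s := by linarith
          ext <;> simp [em, this, e2]
        · rw [e2] at h4
          nlinarith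
      refine ⟨by omega, g4, ?_, ?_⟩
      · have : (-1 : ℝ) < (z.1 : ℝ) - s := by linarith
        have : (-1 : ℤ) < z.1 - s := by exact_mod_cast this
        omega
      · have : (z.1 : ℝ) - s < (b : ℝ) := by linarith
        exact_mod_cast this

/-- the squares around the points of a side -/
theorem seg_rows {c v : Z2} (hv : 0 < v.2) (hc : c.2 = 0) {x : V} (hx : x ∈ Seg c (c + v))
    {z : Z2} (hz : Nr x z) : 0 ≤ z.2 ∧ z.2 < v.2 := by
  obtain ⟨t, t0, t1, rfl⟩ := hx
  obtain ⟨_, _, a3, a4⟩ := hz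
  simp only [Prod.snd_add, hc, zero_add] at a3 a4
  have hv' : (0 : ℝ) < v.2 := by exact_mod_cast hv
  push_cast at a3 a4
  have h1 : (1 - t) * (0 : ℝ) + t * (v.2 : ℝ) = t * v.2 := by ring
  rw [h1] at a3 a4
  constructor
  · have : (-1 : ℝ) < (z.2 : ℝ) := by nlinarith [mul_pos t0 hv']
    have : (-1 : ℤ) < z.2 := by exact_mod_cast this
    omega
  · have : (z.2 : ℝ) < (v.2 : ℝ) := by nlinarith [mul_lt_mul_of_pos_right t1 hv']
    exact_mod_cast this

/-- the squares around the points of a horizontal side -/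
theorem seg_hor {c u : Z2} (hu : u.2 = 0) {x : V} (hx : x ∈ Seg c (c + u))
    {z : Z2} (hz : Nr x z) : z.2 = c.2 - 1 ∨ z.2 = c.2 := by
  obtain ⟨t, t0, t1, rfl⟩ := hx
  obtain ⟨_, _, a3, a4⟩ := hz
  simp only [Prod.snd_add, hu, add_zero] at a3 a4
  have h1 : (1 - t) * (c.2 : ℝ) + t * (c.2 : ℝ) = c.2 := by ring
  rw [h1] at a3 a4
  have b1 : z.2 ≤ c.2 := by exact_mod_cast a3
  have b2 : c.2 ≤ z.2 + 1 := by exact_mod_cast a4
  omega

namespace MD

variable (D : MD)

theorem dev_col (i : Fin 3) : Dev D.O (Pgm D.uu (D.vv i)) (D.fc i) := by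
  intro x hx
  constructor
  · intro z hz _
    simp only [fc, Prod.snd_add, add_zero]
    split_ifs with g1 g2
    · rfl
    · rfl
    · rw [O_r]; congr 1; abel
  · intro z hz hz'
    rcases pgm_rows (by exact_mod_cast D.k0) (D.hh i) hx hz hz' with
      ⟨g, f1, f2⟩ | ⟨g0, g3⟩ | ⟨g0, g4, f1, f2⟩
    · -- the lower side
      have e3 : z + (0, 1) = (z.1, 0) := by ext <;> simp [g]
      have g1 : D.fc i z = D.pt (i - 1) z := by simp [fc, g]
      have g2 : D.fc i (z + (0, 1)) = D.pt i (z.1, 0) := by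
        rw [e3]; simp [fc, D.hh i]
      rw [g1, g2, O_u, e3, D.sg_slit _ f1 f2, sub_add_cancel]
    · have g1 : D.fc i z = D.pt i z := by
        rw [fc, if_neg (by omega), if_pos (by omega)]
      have g2 : D.fc i (z + (0, 1)) = D.pt i (z + (0, 1)) := by
        rw [fc, if_neg (by simp only [Prod.snd_add]; omega),
          if_pos (by simp only [Prod.snd_add]; omega)]
      rw [g1, O_u, g2, D.sg_row (by simp only [Prod.snd_add]; omega)
        (by simp only [Prod.snd_add]; omega)]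
    · -- the upper side
      have g1 : D.fc i z = D.pt i z := by
        rw [fc, if_neg (by omega), if_pos (by omega)]
      have e3 : z + (0, 1) - (D.s i, D.h i) = (z.1 - D.s i, 0) := by
        ext <;> simp [← g4]
      have g5 : D.fc i (z + (0, 1)) = D.pt (i + 1) (z.1 - D.s i, 0) := by
        rw [fc, if_neg (by simp only [Prod.snd_add]; omega),
          if_neg (by simp only [Prod.snd_add]; omega), e3]
      rw [g1, O_u, g5, ← D.pt_s i (z + (0, 1)), e3, D.sg_slit _ f1 f2]

/-- the germ beyond the slit -/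
def fs (i : Fin 3) (z : Z2) : D.Sq := D.pt i (z + D.uu)

theorem dev_side (i : Fin 3) (hi : (D.k : ℤ) < D.w i) :
    Dev D.O (Pgm (D.w i - D.k, 0) (D.vv i)) (D.fs i) := by
  intro x hx
  constructor
  · intro z hz _
    rw [fs, fs, O_r]; congr 1; abel
  · intro z hz hz'
    rw [fs, fs, O_u]
    have e0 : z + (0, 1) + D.uu = z + D.uu + (0, 1) := by abel
    rw [e0]
    symm
    rcases pgm_rows (by omega) (D.hh i) hx hz hz' with
      ⟨g, f1, f2⟩ | ⟨g0, g3⟩ | ⟨g0, g4, f1, f2⟩
    · have e3 : z + D.uu + (0, 1) = (z.1 + D.k, 0) := by ext <;> simp [g]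
      rw [e3]
      exact D.sg_far (by omega) (by omega)
    · exact D.sg_row (by simp only [Prod.snd_add]; omega) (by simp only [Prod.snd_add]; omega)
    · have e3 : z + D.uu + (0, 1) - (D.s i, D.h i) = (z.1 - D.s i + D.k, 0) := by
        ext <;> simp [← g4]
        ring
      rw [← D.pt_s i (z + D.uu + (0, 1)), e3]
      exact D.sg_far (by omega) (by omega)

/-- the column piece `i` -/
theorem par_col (i : Fin 3) :
    Par D.O D.uu (D.vv i) (D.fc i) (D.fs i) (D.fc (i + 1)) (D.pt i) := by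
  have hk : (0 : ℤ) < D.k := by exact_mod_cast D.k0
  have hh := D.hh i
  refine ⟨by simp only [cr]; nlinarith, D.fc i, D.dev_col i, ag_refl _ _, ?_, ?_, ?_⟩
  · intro x hx z hz
    obtain ⟨h1, h2⟩ := seg_rows hh rfl hx hz
    rw [fc, if_neg (by omega), if_pos h2]
    simp only [sh, fs, sub_add_cancel]
  · intro x hx z hz
    simp only [sh]
    rcases seg_hor rfl hx hz with h1 | h1
    · have h2 : z.2 = D.h i - 1 := h1
      rw [fc, if_neg (by omega), if_pos (by omega), fc,
        if_pos (by simp only [Prod.snd_sub]; omega), add_sub_cancel_right, D.pt_s]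
    · have h2 : z.2 = D.h i := h1
      rw [fc, if_neg (by omega), if_neg (by omega), fc,
        if_neg (by simp only [Prod.snd_sub]; omega),
        if_pos (by simp only [Prod.snd_sub]; rw [h2, sub_self]; exact D.hh _)]
  · intro x hx z hz
    have hx' : x ∈ Seg 0 (0 + D.vv i) := by rwa [zero_add]
    obtain ⟨h1, h2⟩ := seg_rows hh rfl hx' hz
    rw [fc, if_neg (by omega), if_pos h2]

/-- the rest of the torus `i` -/
theorem par_side (i : Fin 3) (hi : (D.k : ℤ) < D.w i) :
    Par D.O (D.w i - D.k, 0) (D.vv i) (D.fs i) (D.pt i) (D.fs i) (D.fs i) := by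
  have hh := D.hh i
  refine ⟨by simp only [cr]; nlinarith, D.fs i, D.dev_side i hi, ag_refl _ _, ?_, ?_,
    ag_refl _ _⟩
  · intro x hx z hz
    simp only [sh, fs]
    have e : z + D.uu = z - (D.w i - D.k, 0) + (D.w i, 0) := by ext <;> simp; ring
    rw [e, D.pt_w]
  · intro x hx z hz
    simp only [sh, fs]
    have e : z - D.vv i + D.uu = z + D.uu - (D.s i, D.h i) := by abel
    rw [e, D.pt_s]

/-- THE MODEL: its tree -/
theorem has6 : Has6 D.O (D.uu, D.vv 0, D.vv 1, (D.w 1 - D.k, 0), D.vv 2, (D.w 2 - D.k, 0)) := by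
  have h0 : D.fs 0 = D.pt 0 := by
    funext z
    have h := D.pt_w 0 z
    rw [D.w0] at h
    exact h
  have p0 := D.par_col 0
  rw [h0] at p0
  exact ⟨D.fc 0, D.fc 1, D.fc 2, D.pt 0, D.pt 1, D.fs 1, D.pt 2, D.fs 2, D.fs 1, D.fs 2,
    p0, D.par_col 1, D.par_col 2, D.par_side 1 D.w1, D.par_side 2 D.w2⟩

end MD

end Pool.Agent.H4G.Six
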