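import Pool.Agent.H4G.Six.Model3

/-!
# The explicit origami of a horizontal E6 state: the commutator is a 5-cycle (helper41)
-/

set_option autoImplicit false

namespace Pool.Agent.H4G.Six

open Pool.Agent.H4G Equiv

namespace MD

variable (D : MD)

theorem tr_mul (a b : Z2) : D.tr a * D.tr b = D.tr (a + b) := by
  apply Equiv.ext
  intro x
  obtain ⟨i, z, rfl⟩ := D.exists_pt x
  rw [Perm.mul_apply, tr_pt, tr_pt, tr_pt, add_assoc, add_comm b a]

theorem tr_inv (a : Z2) : (D.tr a)⁻¹ = D.tr (-a) := by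
  rw [inv_eq_iff_mul_eq_one, tr_mul, add_neg_cancel]
  apply Equiv.ext
  intro x
  obtain ⟨i, z, rfl⟩ := D.exists_pt x
  rw [tr_pt, add_zero, Perm.one_apply]

/-- the commutator -/
noncomputable def rho : Perm D.Sq := D.O.r * D.O.u * D.O.r⁻¹ * D.O.u⁻¹

theorem rho_eq : D.rho = D.tr (1, 0) * D.sg * D.tr (-(1, 0)) * D.sg⁻¹ := by
  show D.tr (1, 0) * (D.sg * D.tr (0, 1)) * (D.tr (1, 0))⁻¹ * (D.sg * D.tr (0, 1))⁻¹ = _
  rw [mul_inv_rev, D.tr_inv, D.tr_inv]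
  have e : D.tr (0, 1) * D.tr (-(1, 0)) * D.tr (-(0, 1)) = D.tr (-(1, 0)) := by
    rw [tr_mul, tr_mul]
    congr 1
  calc D.tr (1, 0) * (D.sg * D.tr (0, 1)) * D.tr (-(1, 0)) * (D.tr (-(0, 1)) * D.sg⁻¹)
      = D.tr (1, 0) * D.sg * (D.tr (0, 1) * D.tr (-(1, 0)) * D.tr (-(0, 1))) * D.sg⁻¹ := by
        simp only [mul_assoc]
    _ = _ := by rw [e]

theorem sg_inv_slit (i : Fin 3) {j : ℤ} (h0 : 0 ≤ j) (hk : j < D.k) :
    D.sg⁻¹ (D.pt i (j, 0)) = D.pt (i - 1) (j, 0) := by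
  rw [Perm.inv_eq_iff_eq, D.sg_slit _ h0 hk, sub_add_cancel]

theorem sg_inv_fix {x : D.Sq} (h : D.sg x = x) : D.sg⁻¹ x = x := by
  rw [Perm.inv_eq_iff_eq, h]

/-- the shifted product of `3`-cycles -/
theorem tau_slit (i : Fin 3) {j : ℤ} (h0 : 1 ≤ j) (hk : j ≤ D.k) :
    (D.tr (1, 0) * D.sg * D.tr (-(1, 0))) (D.pt i (j, 0)) = D.pt (i + 1) (j, 0) := by
  rw [Perm.mul_apply, Perm.mul_apply, tr_pt]
  have e : ((j, 0) : Z2) + -(1, 0) = (j - 1, 0) := by ext <;> simp; ring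
  rw [e, D.sg_slit i (by omega) (by omega), tr_pt]
  congr 1
  ext <;> simp

theorem tau_zero {i : Fin 3} (hi : (D.k : ℤ) < D.w i) :
    (D.tr (1, 0) * D.sg * D.tr (-(1, 0))) (D.pt i (0, 0)) = D.pt i (0, 0) := by
  rw [Perm.mul_apply, Perm.mul_apply, tr_pt]
  have e : D.pt i (((0, 0) : Z2) + -(1, 0)) = D.pt i (D.w i - 1, 0) := by
    rw [← D.pt_w]
    congr 1
    ext <;> simp; ring
  rw [e, D.sg_far (by omega) (by omega), tr_pt, ← D.pt_w i (0, 0)]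
  congr 1
  ext <;> simp

theorem pt0k : D.pt 0 (D.k, 0) = D.pt 0 (0, 0) := by
  have h := D.pt_w 0 (0, 0)
  rw [D.w0] at h
  rw [← h]
  congr 1
  ext <;> simp

theorem kpos : (0 : ℤ) < D.k := by exact_mod_cast D.k0

theorem far_k {i : Fin 3} (hi : (D.k : ℤ) < D.w i) : D.sg (D.pt i (D.k, 0)) = D.pt i (D.k, 0) :=
  D.sg_far le_rfl hi

theorem rho_a : D.rho (D.pt 0 (0, 0)) = D.pt 2 (0, 0) := by
  rw [rho_eq, Perm.mul_apply, D.sg_inv_slit 0 le_rfl D.kpos]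
  exact D.tau_zero D.w2

theorem rho_c : D.rho (D.pt 2 (0, 0)) = D.pt 1 (0, 0) := by
  rw [rho_eq, Perm.mul_apply, D.sg_inv_slit 2 le_rfl D.kpos]
  exact D.tau_zero D.w1

theorem rho_b : D.rho (D.pt 1 (0, 0)) = D.pt 1 (D.k, 0) := by
  rw [rho_eq, Perm.mul_apply, D.sg_inv_slit 1 le_rfl D.kpos]
  have e : D.pt (1 - 1) (0, 0) = D.pt 0 (D.k, 0) := by
    rw [D.pt0k]; rfl
  rw [e, D.tau_slit 0 (by have := D.kpos; omega) le_rfl]
  rfl

theorem rho_bk : D.rho (D.pt 1 (D.k, 0)) = D.pt 2 (D.k, 0) := by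
  rw [rho_eq, Perm.mul_apply, D.sg_inv_fix (D.far_k D.w1),
    D.tau_slit 1 (by have := D.kpos; omega) le_rfl]
  rfl

theorem rho_ck : D.rho (D.pt 2 (D.k, 0)) = D.pt 0 (0, 0) := by
  rw [rho_eq, Perm.mul_apply, D.sg_inv_fix (D.far_k D.w2),
    D.tau_slit 2 (by have := D.kpos; omega) le_rfl, ← D.pt0k]
  rfl

theorem rho_fix {x : D.Sq} (h : ∀ i, x ≠ D.pt i (0, 0)) (h' : ∀ i, x ≠ D.pt i (D.k, 0)) :
    D.rho x = x := by
  rw [rho_eq, Perm.mul_apply]
  by_cases hs : ∃ (i : Fin 3) (j : ℤ), 0 ≤ j ∧ j < D.k ∧ x = D.pt i (j, 0)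
  · obtain ⟨i, j, h0, hk, rfl⟩ := hs
    have hj : 1 ≤ j := by
      rcases lt_or_ge j 1 with g | g
      · have : j = 0 := by omega
        subst this
        exact absurd rfl (h i)
      · exact g
    rw [D.sg_inv_slit i h0 hk, D.tau_slit _ hj hk.le, sub_add_cancel]
  · have h1 : D.sg x = x := by
      apply D.sg_of_not
      intro j i e
      exact hs ⟨i, (j : ℕ), by omega, by have := j.2; omega, e⟩
    rw [D.sg_inv_fix h1, Perm.mul_apply, Perm.mul_apply]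
    have h2 : D.sg (D.tr (-(1, 0)) x) = D.tr (-(1, 0)) x := by
      apply D.sg_of_not
      intro j i e
      have e1 : x = D.pt i (((j : ℕ) : ℤ) + 1, 0) := by
        have e2 := congrArg (D.tr (1, 0)) e
        rw [← Perm.mul_apply, tr_mul, add_neg_cancel, tr_pt] at e2
        have e3 : D.tr 0 x = x := by
          obtain ⟨i', z, rfl⟩ := D.exists_pt x
          rw [tr_pt, add_zero]
        rw [e3] at e2
        rw [e2]
        congr 1
      have hj := j.2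
      rcases lt_or_ge (((j : ℕ) : ℤ) + 1) D.k with g | g
      · exact hs ⟨i, _, by omega, g, e1⟩
      · have : ((j : ℕ) : ℤ) + 1 = D.k := by omega
        rw [this] at e1
        exact h' i e1
    rw [h2, ← Perm.mul_apply, tr_mul, add_neg_cancel]
    obtain ⟨i', z, rfl⟩ := D.exists_pt x
    rw [tr_pt, add_zero]

theorem pt_0k {i : Fin 3} (hi : (D.k : ℤ) < D.w i) : D.pt i (0, 0) ≠ D.pt i (D.k, 0) := by
  intro h
  have h1 := D.pt_eq.1 h.symm
  have e : ((D.k, 0) : Z2) - (0, 0) = ((D.k : ℤ), 0) := by ext <;> simp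
  rw [e] at h1
  have h2 := Int.le_of_dvd D.kpos (latN_hor (D.hh i) h1)
  omega

theorem supp : {x | D.rho x ≠ x} = {D.pt 0 (0, 0), D.pt 2 (0, 0), D.pt 1 (0, 0),
    D.pt 1 (D.k, 0), D.pt 2 (D.k, 0)} := by
  ext x
  simp only [Set.mem_ofPred_eq, Set.mem_insert_iff, Set.mem_singleton_iff]
  constructor
  · intro hx
    by_contra hno
    push Not at hno
    obtain ⟨g1, g2, g3, g4, g5⟩ := hno
    apply hx
    apply D.rho_fix
    · intro i
      fin_cases i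
      · exact g1
      · exact g3
      · exact g2
    · intro i
      fin_cases i
      · rw [show D.pt ⟨0, by norm_num⟩ (D.k, 0) = D.pt 0 (D.k, 0) from rfl, D.pt0k]
        exact g1
      · exact g4
      · exact g5
  · rintro (rfl | rfl | rfl | rfl | rfl)
    · rw [D.rho_a]; exact D.pt_ne (by decide) _ _
    · rw [D.rho_c]; exact D.pt_ne (by decide) _ _
    · rw [D.rho_b]; exact (D.pt_0k D.w1).symm
    · rw [D.rho_bk]; exact D.pt_ne (by decide) _ _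
    · rw [D.rho_ck]; exact D.pt_ne (by decide) _ _

theorem cyc : (D.O.r * D.O.u * D.O.r⁻¹ * D.O.u⁻¹).IsCycle := by
  show D.rho.IsCycle
  refine ⟨D.pt 0 (0, 0), ?_, fun y hy => ?_⟩
  · rw [D.rho_a]; exact D.pt_ne (by decide) _ _
  · have h1 : y ∈ {x | D.rho x ≠ x} := hy
    rw [D.supp] at h1
    simp only [Set.mem_insert_iff, Set.mem_singleton_iff] at h1
    have e1 : (D.rho ^ (1 : ℕ)) (D.pt 0 (0, 0)) = D.pt 2 (0, 0) := by
      rw [pow_one, D.rho_a]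
    have e2 : (D.rho ^ (2 : ℕ)) (D.pt 0 (0, 0)) = D.pt 1 (0, 0) := by
      rw [pow_succ', Perm.mul_apply, e1, D.rho_c]
    have e3 : (D.rho ^ (3 : ℕ)) (D.pt 0 (0, 0)) = D.pt 1 (D.k, 0) := by
      rw [pow_succ', Perm.mul_apply, e2, D.rho_b]
    have e4 : (D.rho ^ (4 : ℕ)) (D.pt 0 (0, 0)) = D.pt 2 (D.k, 0) := by
      rw [pow_succ', Perm.mul_apply, e3, D.rho_bk]
    rcases h1 with rfl | rfl | rfl | rfl | rfl
    · exact ⟨0, by simp⟩
    · exact ⟨(1 : ℕ), by rw [zpow_natCast]; exact e1⟩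
    · exact ⟨(2 : ℕ), by rw [zpow_natCast]; exact e2⟩
    · exact ⟨(3 : ℕ), by rw [zpow_natCast]; exact e3⟩
    · exact ⟨(4 : ℕ), by rw [zpow_natCast]; exact e4⟩

theorem five : {x | (D.O.r * D.O.u * D.O.r⁻¹ * D.O.u⁻¹) x ≠ x}.ncard = 5 := by
  show {x | D.rho x ≠ x}.ncard = 5
  rw [D.supp]
  have n01 : (0 : Fin 3) ≠ 1 := by decide
  have n02 : (0 : Fin 3) ≠ 2 := by decide
  have n12 : (1 : Fin 3) ≠ 2 := by decide
  rw [Set.ncard_insert_of_notMem, Set.ncard_insert_of_notMem, Set.ncard_insert_of_notMem,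
    Set.ncard_insert_of_notMem, Set.ncard_singleton]
  · simp only [Set.mem_singleton_iff]
    exact D.pt_ne n12 _ _
  · simp only [Set.mem_insert_iff, Set.mem_singleton_iff, not_or]
    exact ⟨D.pt_0k D.w1, D.pt_ne n12 _ _⟩
  · simp only [Set.mem_insert_iff, Set.mem_singleton_iff, not_or]
    exact ⟨D.pt_ne n12.symm _ _, D.pt_ne n12.symm _ _, D.pt_0k D.w2⟩
  · simp only [Set.mem_insert_iff, Set.mem_singleton_iff, not_or]
    exact ⟨D.pt_ne n02 _ _, D.pt_ne n01 _ _, D.pt_ne n01 _ _, D.pt_ne n02 _ _⟩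

/-- the model is an odd origami unless it has an anti-automorphism -/
theorem odd6 (h : ∀ i : Equiv.Perm D.Sq, ¬ D.O.Anti i) : Odd6 D.O :=
  ⟨D.trans, D.cyc, D.five, h⟩

end MD

end Pool.Agent.H4G.Six
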