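import Pool.Agent.H4G.Six.Model4
import Pool.Agent.H4G.Six.Fin6

/-!
# The explicit origami of a horizontal E6 state: primitive if the lattices generate (helper41)
-/

set_option autoImplicit false

namespace Pool.Agent.H4G.Six

open Pool.Agent.H4G Equiv

namespace MD

variable (D : MD)

theorem path_hor (i : Fin 3) (z : Z2) (n : ℤ) :
    Path6 D.O (D.pt i z) (n, 0) (D.pt i (z + (n, 0))) := by
  have key : ∀ (n : ℕ) (z : Z2), Path6 D.O (D.pt i z) ((n : ℤ), 0) (D.pt i (z + ((n : ℤ), 0))) := by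
    intro n z
    induction n with
    | zero =>
      have e : z + (((0 : ℕ) : ℤ), 0) = z := by ext <;> simp
      rw [e]
      exact Path6.refl _
    | succ n ih =>
      have h2 := ih.right
      rw [O_r] at h2
      have e : z + (((n + 1 : ℕ) : ℤ), 0) = z + ((n : ℤ), 0) + (1, 0) := by
        ext <;> simp; ring
      rw [e]
      exact h2.cast (by ext <;> simp)
  rcases Int.le_total 0 n with h | h
  · obtain ⟨m, rfl⟩ := Int.eq_ofNat_of_zero_le h
    exact key m z
  · obtain ⟨m, hm⟩ := Int.eq_ofNat_of_zero_le (neg_nonneg.2 h)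
    have h1 := (key m (z + (n, 0))).rev
    have e : z + (n, 0) + ((m : ℤ), 0) = z := by
      rw [← hm]; ext <;> simp
    rw [e] at h1
    exact h1.cast (by rw [← hm]; ext <;> simp)

theorem path_up (i : Fin 3) {x y : ℤ} (hy : 0 ≤ y) (n : ℕ) (hn : y + n < D.h i) :
    Path6 D.O (D.pt i (x, y)) (0, n) (D.pt i (x, y + n)) := by
  induction n with
  | zero =>
    have e : ((x, y + ((0 : ℕ) : ℤ)) : Z2) = (x, y) := by ext <;> simp
    rw [e]
    exact Path6.refl _
  | succ n ih =>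
    have h1 := (ih (by push_cast at hn; omega)).up
    rw [O_u, D.sg_row (by simp only [Prod.snd_add]; omega)
      (by simp only [Prod.snd_add]; push_cast at hn; omega)] at h1
    have e : ((x, y + ((n + 1 : ℕ) : ℤ)) : Z2) = (x, y + n) + (0, 1) := by
      ext <;> simp; ring
    rw [e]
    exact h1.cast (by ext <;> simp)

/-- up through the torus -/
theorem path_thru (i : Fin 3) (x : ℤ) :
    Path6 D.O (D.pt i (x + D.s i, 0)) (0, D.h i) (D.sg (D.pt i (x, 0))) := by
  have hh := D.hh i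
  obtain ⟨n, hn⟩ := Int.eq_ofNat_of_zero_le (show 0 ≤ D.h i - 1 by omega)
  have h1 := (D.path_up i (x := x + D.s i) le_rfl n (by omega)).up
  rw [O_u, ← D.pt_s i ((x + D.s i, 0 + (n : ℤ)) + (0, 1))] at h1
  have e : ((x + D.s i, 0 + (n : ℤ)) : Z2) + (0, 1) - (D.s i, D.h i) = (x, 0) := by
    ext
    · simp
    · simp only [Prod.snd_sub, Prod.snd_add]; omega
  rw [e] at h1
  exact h1.cast (by
    ext
    · simp
    · simp only [Prod.snd_add]; omega)

theorem hol_loop {i : Fin 3} (hi : (D.k : ℤ) < D.w i) :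
    Path6 D.O (D.pt i (D.k + D.s i, 0)) (D.s i, D.h i) (D.pt i (D.k + D.s i, 0)) := by
  have h1 := D.path_thru i D.k
  rw [D.sg_far le_rfl hi] at h1
  have h2 := h1.tr (D.path_hor i (D.k, 0) (D.s i))
  have e : ((D.k, 0) : Z2) + (D.s i, 0) = (D.k + D.s i, 0) := by ext <;> simp
  rw [e] at h2
  exact h2.cast (by ext <;> simp)

theorem path_cross (i : Fin 3) :
    Path6 D.O (D.pt i (D.s i, 0)) (D.s (i + 1), D.h i) (D.pt (i + 1) (D.s (i + 1), 0)) := by
  have h1 := D.path_thru i 0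
  rw [zero_add, D.sg_slit i le_rfl D.kpos] at h1
  have h2 := h1.tr (D.path_hor (i + 1) (0, 0) (D.s (i + 1)))
  have e : ((0, 0) : Z2) + (D.s (i + 1), 0) = (D.s (i + 1), 0) := by ext <;> simp
  rw [e] at h2
  exact h2.cast (by ext <;> simp)

theorem hol_w (i : Fin 3) : Path6 D.O (D.pt i (0, 0)) (D.w i, 0) (D.pt i (0, 0)) := by
  have h1 := D.path_hor i (0, 0) (D.w i)
  rwa [D.pt_w] at h1

/-- the lattices of the tori are contained in the group of the holonomies -/
theorem lat_le (i : Fin 3) (x : D.Sq) : D.L i ≤ hol6 D.O x := by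
  have hw : ∀ i, ((D.w i, 0) : Z2) ∈ hol6 D.O x := fun i => by
    rw [hol6_eq D.trans x (D.pt i (0, 0))]
    exact D.hol_w i
  have hs1 : ((D.s 1, D.h 1) : Z2) ∈ hol6 D.O x := by
    rw [hol6_eq D.trans x (D.pt 1 (D.k + D.s 1, 0))]
    exact D.hol_loop D.w1
  have hs2 : ((D.s 2, D.h 2) : Z2) ∈ hol6 D.O x := by
    rw [hol6_eq D.trans x (D.pt 2 (D.k + D.s 2, 0))]
    exact D.hol_loop D.w2
  have hs0 : ((D.s 0, D.h 0) : Z2) ∈ hol6 D.O x := by
    have h1 : ((D.s 1, D.h 0) : Z2) + (D.s 2, D.h 1) + (D.s 0, D.h 2) ∈ hol6 D.O x := by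
      rw [hol6_eq D.trans x (D.pt 0 (D.s 0, 0))]
      exact ((D.path_cross 0).tr (D.path_cross 1)).tr (D.path_cross 2)
    have h2 := sub_mem (sub_mem h1 hs1) hs2
    have e : ((D.s 1, D.h 0) : Z2) + (D.s 2, D.h 1) + (D.s 0, D.h 2) - (D.s 1, D.h 1) -
        (D.s 2, D.h 2) = (D.s 0, D.h 0) := by
      ext <;> simp <;> ring
    rwa [e] at h2
  rw [L, latN, AddSubgroup.closure_le]
  rintro w (rfl | rfl)
  · exact hw i
  · fin_cases i
    · exact hs0
    · exact hs1
    · exact hs2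

/-- THE MODEL IS PRIMITIVE if the three lattices generate `ℤ²` -/
theorem prim (h : D.L 0 ⊔ D.L 1 ⊔ D.L 2 = ⊤) : D.O.Prim := by
  rw [D.trans.prim_iff (D.pt 0 (0, 0)), eq_top_iff, ← h]
  exact sup_le (sup_le (D.lat_le 0 _) (D.lat_le 1 _)) (D.lat_le 2 _)

end MD

end Pool.Agent.H4G.Six
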