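import Pool.Agent.H4G.Six.Farey42
import Pool.Agent.H4G.Six.State6

/-!
# Both contents small (route NR, step (4); paper helper75, typed by helper79)

`farey_win`: the Farey lemma for a window.  `both_small`: if every pair of small levels is far from
parallel, then the contents of two large tori at one slit are not both small.
-/

set_option autoImplicit false

namespace Pool.Agent.H4G.Six

open Pool.Agent.H4G

/-- **Farey lemma for a window `Y`.** -/
theorem farey_win {L : AddSubgroup Z2} {l p u m : Z2} {a Y : ℤ} (hL : lat l p = L)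
    (hp : cr p l = a) (h0 : 0 < cr u l) (h1 : cr u l ≤ Y) (hY : Y < a) (hm : 0 < cr u m) :
    ∃ e q : Z2, Blk6 L u e q ∧ cr u e ≤ Y ∧ |cr e m| * Y ≤ 2 * (a * cr u m) := by
  have ha : 0 < a := by linarith
  obtain ⟨e, l₁, l₂, he, q1, q2, q3, q4, q5, q6, q7, q8, q9, q10⟩ := farey_nb ha hp h0 h1 hm
  obtain ⟨c1, c2, c3, c4⟩ := farey_compl he q2
  have habs : ∀ x : ℤ, |e * x| = |x| := by
    intro x
    rcases he with rfl | rfl
    · rw [one_mul]
    · rw [neg_one_mul, abs_neg]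
  have k1 : 0 ≤ cr u l₂ * (e * cr l₁ m) := mul_nonneg q5.le q8
  have k2 : 0 ≤ cr u l₁ * (-(e * cr l₂ m)) := mul_nonneg q3.le (by linarith)
  rcases le_total (cr u l₁) (cr u l₂) with h | h
  · refine ⟨l₁, (-e) • l₂ - u, blk6_mk (c3.trans (q1.trans hL)) q3 (by rw [c1]; linarith), q4, ?_⟩
    rw [← habs, abs_of_nonneg q8]
    have : (e * cr l₁ m) * Y ≤ (e * cr l₁ m) * (2 * cr u l₂) :=
      mul_le_mul_of_nonneg_left (by linarith) q8
    nlinarith
  · refine ⟨l₂, e • l₁ - u, blk6_mk (c4.trans (q1.trans hL)) q5 (by rw [c2]; linarith), q6, ?_⟩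
    rw [← habs, abs_of_nonpos q9]
    have : (-(e * cr l₂ m)) * Y ≤ (-(e * cr l₂ m)) * (2 * cr u l₁) :=
      mul_le_mul_of_nonneg_left (by linarith) (by linarith)
    nlinarith

/-- the same with a window `N / K` -/
theorem farey_K {L : AddSubgroup Z2} {l p u m : Z2} {a N K : ℤ} (hL : lat l p = L)
    (hp : cr p l = a) (h0 : 0 < cr u l) (h1 : K * cr u l ≤ N) (hK : 0 < K) (haN : a ≤ N)
    (ha : N < K * a) (hm : 0 < cr u m) :
    ∃ e q : Z2, Blk6 L u e q ∧ K * cr u e ≤ N ∧ |cr e m| ≤ 4 * K * cr u m := by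
  obtain ⟨Y, hY⟩ : ∃ Y, Y = N / K := ⟨_, rfl⟩
  have e1 : K * Y + N % K = N := by rw [hY]; exact Int.mul_ediv_add_emod N K
  have e2 : 0 ≤ N % K := Int.emod_nonneg _ hK.ne'
  have e3 : N % K < K := Int.emod_lt_of_pos _ hK
  have h2 : cr u l ≤ Y := by
    rw [hY]
    exact (Int.le_ediv_iff_mul_le hK).2 (by linarith)
  have hY1 : 1 ≤ Y := by linarith
  have h3 : Y < a := by
    by_contra hc
    push Not at hc
    have : K * a ≤ K * Y := mul_le_mul_of_nonneg_left hc hK.le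
    linarith
  obtain ⟨e, q, g1, g2, g3⟩ := farey_win hL hp h0 h2 h3 hm
  refine ⟨e, q, g1, ?_, ?_⟩
  · have : K * cr u e ≤ K * Y := mul_le_mul_of_nonneg_left g2 hK.le
    linarith
  · have h4 : N ≤ 2 * K * Y := by nlinarith
    have h5 : |cr e m| * Y ≤ (4 * K * cr u m) * Y := by
      have : 2 * (a * cr u m) ≤ 2 * ((2 * K * Y) * cr u m) := by
        have := mul_le_mul_of_nonneg_right (haN.trans h4) hm.le
        linarith
      nlinarith
    exact le_of_mul_le_mul_right h5 (by linarith)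

/-- the relation between four vectors -/
theorem cr_rel (u m e x : Z2) : cr u m * cr e x = cr u e * cr m x + cr e m * cr u x := by
  simp only [cr]
  ring

/-- the elements of a lattice have products divisible by its area -/
theorem cr_mem_dvd {L : AddSubgroup Z2} {l p x y : Z2} {a : ℤ} (hL : lat l p = L)
    (hp : cr p l = a) (hx : x ∈ L) (hy : y ∈ L) : a ∣ cr x y := by
  rw [← hL] at hx hy
  obtain ⟨i, j, rfl⟩ := AddSubgroup.mem_closure_pair.1 hx
  obtain ⟨i', j', rfl⟩ := AddSubgroup.mem_closure_pair.1 hy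
  refine ⟨j * i' - i * j', ?_⟩
  rw [← hp]
  simp only [cr, Prod.fst_add, Prod.snd_add, Prod.smul_fst, Prod.smul_snd, smul_eq_mul]
  ring

theorem cr_mem_dvd_u {L : AddSubgroup Z2} {l p u x : Z2} {b : ℤ} (hL : lat l p = L)
    (h1 : b ∣ cr u l) (h2 : b ∣ cr u p) (hx : x ∈ L) : b ∣ cr u x := by
  rw [← hL] at hx
  obtain ⟨i, j, rfl⟩ := AddSubgroup.mem_closure_pair.1 hx
  have : cr u (i • l + j • p) = i * cr u l + j * cr u p := by
    simp only [cr, Prod.fst_add, Prod.snd_add, Prod.smul_fst, Prod.smul_snd, smul_eq_mul]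
    ring
  rw [this]
  exact dvd_add (h1.mul_left i) (h2.mul_left j)

theorem Blk6.mem {L : AddSubgroup Z2} {u l q : Z2} (h : Blk6 L u l q) : l ∈ L := by
  rw [← h.2.2]
  exact AddSubgroup.subset_closure (by simp)

/-- **Step (4), the contradiction**: two vectors with shears of the same sign. -/
theorem nr4_core {u e1 e2 e m1 m2 m : Z2} {a a' b b' κ K₁ N X i1 i2 w : ℤ}
    (ha : 0 < a) (hb : 0 < b) (hb' : 0 < b') (hκ : 1 ≤ κ) (hX : 1 ≤ X) (hw1 : 1 ≤ w) (hw2 : w ≤ 2)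
    (hm1 : cr u m1 = b') (hm2 : cr u m2 = b') (hm12 : cr m1 m2 = -(w * a')) (hba' : b' ≤ a')
    (hm : m = X • m1 + m2) (hi1 : cr u e1 = b * i1) (hi2 : cr u e2 = b * i2) (p1 : 0 < i1)
    (p2 : 0 < i2) (p3 : 0 < cr u e) (hbb : b' < 2 * κ * b)
    (d1 : b' < 2 * |cr e1 m1|) (d1' : cr u e1 < 2 * |cr e1 m1|) (d1'' : |cr e1 m1| ≤ κ * b')
    (d2' : cr u e2 < 2 * |cr e2 m2|) (d2'' : |cr e2 m2| ≤ κ * b')
    (d3' : cr u e < 2 * |cr e m|) (d3'' : |cr e m| ≤ κ * ((X + 1) * b'))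
    (hsg : 0 < cr e1 m1 * cr e2 m2)
    (hE : a ∣ i2 * X * cr e1 e + i1 * cr e2 e) (h1e : a ∣ cr e1 e)
    (haN' : a' ≤ N) (hK1 : 0 < K₁) (hKa : N ≤ K₁ * a)
    (hA1 : 16 * κ ^ 4 * (X + 1) ^ 2 * b' < a) (hA2 : 2 * κ ^ 2 * b' < a')
    (hA3 : 192 * κ ^ 5 * K₁ ≤ X) : False := by
  obtain ⟨n, hn⟩ : ∃ n, n = cr u e := ⟨_, rfl⟩
  obtain ⟨δ, hδ⟩ : ∃ δ, δ = cr e m := ⟨_, rfl⟩
  obtain ⟨δ1, hδ1⟩ : ∃ δ1, δ1 = cr e1 m1 := ⟨_, rfl⟩
  obtain ⟨δ2, hδ2⟩ : ∃ δ2, δ2 = cr e2 m2 := ⟨_, rfl⟩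
  have hum : cr u m = (X + 1) * b' := by
    rw [hm]
    have : cr u (X • m1 + m2) = X * cr u m1 + cr u m2 := by
      simp only [cr, Prod.fst_add, Prod.snd_add, Prod.smul_fst, Prod.smul_snd, smul_eq_mul]
      ring
    rw [this, hm1, hm2]
    ring
  have ri : ∀ x, cr m x = X * cr m1 x + cr m2 x := by
    intro x
    rw [hm]
    simp only [cr, Prod.fst_add, Prod.snd_add, Prod.smul_fst, Prod.smul_snd, smul_eq_mul]
    ring
  have R1 := fun x => cr_rel u m1 e1 x
  have R2 := fun x => cr_rel u m2 e2 x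
  simp only [hm1, hm2, hi1, hi2, ← hδ1, ← hδ2] at R1 R2
  rw [← hδ1] at d1 d1' d1'' hsg
  rw [← hδ2] at d2' d2'' hsg
  rw [← hδ] at d3' d3''
  rw [← hn] at p3 d3'
  rw [hi1] at d1'
  rw [hi2] at d2'
  have κ0 : 0 < κ := by linarith
  have X0 : 0 < X := by linarith
  have hX1 : (0 : ℤ) < X + 1 := by linarith
  -- the numbers i1, i2 are bounded
  have n1 : b * i1 < 2 * κ * b' := by linarith
  have n2 : b * i2 < 2 * κ * b' := by linarith
  have hκb : 2 * κ * b' < 4 * κ ^ 2 * b := by nlinarith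
  have I1 : i1 < 4 * κ ^ 2 := by
    by_contra hc
    push Not at hc
    have := mul_le_mul_of_nonneg_left hc hb.le
    linarith
  have I2 : i2 < 4 * κ ^ 2 := by
    by_contra hc
    push Not at hc
    have := mul_le_mul_of_nonneg_left hc hb.le
    linarith
  -- the product of E and e
  obtain ⟨F, hF⟩ : ∃ F, F = i2 * X * cr e1 e + i1 * cr e2 e := ⟨_, rfl⟩
  obtain ⟨τ, hτ⟩ : ∃ τ, τ = i2 * X * δ1 + i1 * δ2 := ⟨_, rfl⟩
  have hme : cr m e = -δ := by
    rw [hδ]
    simp only [cr]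
    ring
  have J1 : b' * F = τ * n - b * i1 * i2 * δ := by
    have r1 := R1 e
    have r2 := R2 e
    have r3 := ri e
    rw [← hn] at r1 r2
    rw [hme] at r3
    rw [hF, hτ]
    linear_combination i2 * X * r1 + i1 * r2 - b * i1 * i2 * r3
  have aτ : |τ| = i2 * X * |δ1| + i1 * |δ2| := by
    rcases lt_or_ge 0 δ1 with h | h
    · have h2 : 0 < δ2 := by
        by_contra hc
        push Not at hc
        nlinarith
      rw [hτ, abs_of_pos h, abs_of_pos h2, abs_of_pos (by positivity)]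
    · have h1 : δ1 < 0 := by
        rcases h.lt_or_eq with h3 | h3
        · exact h3
        · rw [h3, zero_mul] at hsg
          exact absurd hsg (lt_irrefl _)
      have h2 : δ2 < 0 := by
        by_contra hc
        push Not at hc
        nlinarith
      have h3 : τ < 0 := by
        rw [hτ]
        have h4 : i2 * X * δ1 < 0 := mul_neg_of_pos_of_neg (mul_pos p2 X0) h1
        have h5 : i1 * δ2 < 0 := mul_neg_of_pos_of_neg p1 h2
        linarith
      rw [abs_of_neg h3, abs_of_neg h1, abs_of_neg h2, hτ]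
      ring
  have τb : |τ| ≤ 4 * κ ^ 3 * ((X + 1) * b') := by
    have t1 : i2 * X * |δ1| ≤ 4 * κ ^ 2 * X * (κ * b') :=
      mul_le_mul (mul_le_mul_of_nonneg_right I2.le X0.le) d1'' (abs_nonneg _) (by positivity)
    have t2 : i1 * |δ2| ≤ 4 * κ ^ 2 * (κ * b') :=
      mul_le_mul I1.le d2'' (abs_nonneg _) (by positivity)
    rw [aτ]
    linarith
  have nb : n ≤ 2 * κ * ((X + 1) * b') := by linarith
  have bi : b * i1 * i2 ≤ 2 * κ * b' * (4 * κ ^ 2) :=
    mul_le_mul n1.le I2.le p2.le (by positivity)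
  have hF0 : F = 0 := by
    by_contra hc
    have h1 : a ≤ |F| := Int.le_of_dvd (abs_pos.2 hc) ((dvd_abs _ _).2 (hF ▸ hE))
    have h2 : b' * |F| ≤ |τ| * n + b * i1 * i2 * |δ| := by
      have : |b' * F| = |τ * n - b * i1 * i2 * δ| := by rw [J1]
      rw [abs_mul, abs_of_pos hb'] at this
      rw [this]
      refine (abs_sub _ _).trans (le_of_eq ?_)
      rw [abs_mul τ n, abs_of_pos p3, abs_mul (b * i1 * i2) δ,
        abs_of_pos (mul_pos (mul_pos hb p1) p2)]
    have h3 : |τ| * n ≤ 4 * κ ^ 3 * ((X + 1) * b') * (2 * κ * ((X + 1) * b')) :=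
      mul_le_mul τb nb p3.le (by positivity)
    have h4 : b * i1 * i2 * |δ| ≤ 2 * κ * b' * (4 * κ ^ 2) * (κ * ((X + 1) * b')) :=
      mul_le_mul bi d3'' (abs_nonneg _) (by positivity)
    have h5 : 2 * κ * b' * (4 * κ ^ 2) * (κ * ((X + 1) * b')) ≤
        8 * κ ^ 4 * (X + 1) ^ 2 * b' ^ 2 := by
      have : (X + 1) * 1 ≤ (X + 1) * (X + 1) := mul_le_mul_of_nonneg_left (by linarith) hX1.le
      have h6 : 0 ≤ 8 * κ ^ 4 * b' ^ 2 := by positivity
      nlinarith [mul_le_mul_of_nonneg_left this h6]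
    have h7 : b' * |F| ≤ b' * (16 * κ ^ 4 * (X + 1) ^ 2 * b') := by
      refine h2.trans ((add_le_add h3 (h4.trans h5)).trans (le_of_eq ?_))
      ring
    have h8 := le_of_mul_le_mul_left h7 hb'
    linarith
  have J2 : τ * n = b * i1 * i2 * δ := by
    rw [hF0, mul_zero] at J1
    linarith
  -- E is parallel to e
  have J3 : n * cr e1 e2 = b * i2 * (X + 1) * cr e1 e := by
    have r := cr_rel u e ((i2 * X) • e1 + i1 • e2) e1
    have s1 : cr u ((i2 * X) • e1 + i1 • e2) = i2 * X * cr u e1 + i1 * cr u e2 := by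
      simp only [cr, Prod.fst_add, Prod.snd_add, Prod.smul_fst, Prod.smul_snd, smul_eq_mul]
      ring
    have s2 : cr ((i2 * X) • e1 + i1 • e2) e = F := by
      rw [hF]
      simp only [cr, Prod.fst_add, Prod.snd_add, Prod.smul_fst, Prod.smul_snd, smul_eq_mul]
      ring
    have s3 : cr ((i2 * X) • e1 + i1 • e2) e1 = -(i1 * cr e1 e2) := by
      simp only [cr, Prod.fst_add, Prod.snd_add, Prod.smul_fst, Prod.smul_snd, smul_eq_mul]
      ring
    have s4 : cr e e1 = -cr e1 e := by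
      simp only [cr]
      ring
    rw [s1, s2, s3, s4, hF0, hi1, hi2, ← hn] at r
    have h1 : i1 * (n * cr e1 e2) = i1 * (b * i2 * (X + 1) * cr e1 e) := by
      linear_combination -r
    exact mul_left_cancel₀ p1.ne' h1
  -- the product of e1 and e2
  have J4 : b' ^ 2 * cr e1 e2 = -(b * i1 * (b * i2) * (w * a')) +
      b' * (δ1 * (b * i2) - b * i1 * δ2) := by
    have r1 := R1 e2
    have r2 := R2 m1
    have s1 : cr e2 m1 = -cr m1 e2 := by simp only [cr]; ring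
    have s2 : cr m2 m1 = w * a' := by
      have : cr m2 m1 = -cr m1 m2 := by simp only [cr]; ring
      rw [this, hm12]
      ring
    rw [hi2] at r1
    rw [s1, s2, hm1] at r2
    linear_combination b' * r1 - b * i1 * r2
  have q1 : 0 < b * i1 := mul_pos hb p1
  have q2 : 0 < b * i2 := mul_pos hb p2
  have ha'0 : 0 < a' := by linarith
  have hne : cr e1 e2 ≠ 0 := by
    intro hc
    rw [hc, mul_zero] at J4
    have h1 : b * i1 * (b * i2) * (w * a') = b' * (δ1 * (b * i2) - b * i1 * δ2) := by linarith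
    have h2 : δ1 * (b * i2) - b * i1 * δ2 ≤ κ * b' * (b * i2) ∨
        δ1 * (b * i2) - b * i1 * δ2 ≤ κ * b' * (b * i1) := by
      rcases lt_or_ge 0 δ1 with h | h
      · left
        have h3 : 0 < δ2 := by
          by_contra hc
          push Not at hc
          nlinarith
        have h4 : 0 < b * i1 * δ2 := mul_pos q1 h3
        have h5 : δ1 * (b * i2) ≤ κ * b' * (b * i2) :=
          mul_le_mul_of_nonneg_right ((le_abs_self _).trans d1'') q2.le
        linarith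
      · right
        have h4 : δ1 * (b * i2) ≤ 0 := mul_nonpos_of_nonpos_of_nonneg h q2.le
        have h5 : (-δ2) * (b * i1) ≤ κ * b' * (b * i1) :=
          mul_le_mul_of_nonneg_right ((neg_le_abs _).trans d2'') q1.le
        linarith
    have h3 : b * i1 * (b * i2) * a' ≤ b * i1 * (b * i2) * (w * a') := by
      have : 1 * a' ≤ w * a' := mul_le_mul_of_nonneg_right hw1 ha'0.le
      have h4 := mul_le_mul_of_nonneg_left this (mul_pos q1 q2).le
      linarith
    have key : ∀ x y : ℤ, b ≤ x → 0 < y → x * y * a' ≤ b' * (κ * b' * y) → False := by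
      intro x y hx hy h
      have h4 : (x * a') * y ≤ (κ * b' * b') * y := by linarith
      have h5 : x * a' ≤ κ * b' * b' := le_of_mul_le_mul_right h4 hy
      have h6 : b * a' ≤ x * a' := mul_le_mul_of_nonneg_right hx ha'0.le
      have h7 : κ * b' * b' ≤ κ * b' * (2 * κ * b) :=
        mul_le_mul_of_nonneg_left hbb.le (by positivity)
      have h8 : b * a' ≤ b * (2 * κ ^ 2 * b') := by linarith
      have h9 := le_of_mul_le_mul_left h8 hb
      linarith
    have b1 : b ≤ b * i1 := le_mul_of_one_le_right hb.le p1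
    have b2 : b ≤ b * i2 := le_mul_of_one_le_right hb.le p2
    rcases h2 with h2 | h2
    · refine key (b * i1) (b * i2) b1 q2 ?_
      have := mul_le_mul_of_nonneg_left h2 hb'.le
      linarith
    · refine key (b * i2) (b * i1) b2 q1 ?_
      have := mul_le_mul_of_nonneg_left h2 hb'.le
      linarith
  have hne2 : cr e1 e ≠ 0 := by
    intro hc
    rw [hc, mul_zero] at J3
    rcases mul_eq_zero.1 J3 with h | h
    · exact p3.ne' h
    · exact hne h
  have G1 : a ≤ |cr e1 e| := Int.le_of_dvd (abs_pos.2 hne2) ((dvd_abs _ _).2 h1e)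
  have G2 : n * |cr e1 e2| = b * i2 * (X + 1) * |cr e1 e| := by
    have : |n * cr e1 e2| = |b * i2 * (X + 1) * cr e1 e| := by rw [J3]
    rw [abs_mul, abs_mul, abs_of_pos p3, abs_of_pos (mul_pos q2 hX1)] at this
    exact this
  -- upper bound of n
  have G3 : n ≤ 4 * κ * (b * i1) := by
    have h1 : |τ| * n = b * i1 * i2 * |δ| := by
      have : |τ * n| = |b * i1 * i2 * δ| := by rw [J2]
      rw [abs_mul, abs_mul, abs_of_pos p3, abs_of_pos (mul_pos (mul_pos hb p1) p2)] at this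
      exact this
    have h2 : i2 * X * b' ≤ 2 * |τ| := by
      have h3 : i2 * X * b' ≤ i2 * X * (2 * |δ1|) :=
        mul_le_mul_of_nonneg_left d1.le (mul_pos p2 X0).le
      have h4 : 0 ≤ i1 * |δ2| := mul_nonneg p1.le (abs_nonneg _)
      rw [aτ]
      linarith
    have h5 : b * i1 * i2 * |δ| ≤ b * i1 * i2 * (κ * ((X + 1) * b')) :=
      mul_le_mul_of_nonneg_left d3'' (mul_pos (mul_pos hb p1) p2).le
    have h6 : b * i1 * i2 * (κ * ((X + 1) * b')) ≤ b * i1 * i2 * (κ * ((2 * X) * b')) := by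
      refine mul_le_mul_of_nonneg_left ?_ (mul_pos (mul_pos hb p1) p2).le
      refine mul_le_mul_of_nonneg_left ?_ κ0.le
      exact mul_le_mul_of_nonneg_right (by linarith) hb'.le
    have h7 : i2 * X * b' * n ≤ 2 * |τ| * n := mul_le_mul_of_nonneg_right h2 p3.le
    have h8 : (i2 * X * b') * n ≤ (i2 * X * b') * (4 * κ * (b * i1)) := by linarith
    exact le_of_mul_le_mul_left h8 (mul_pos (mul_pos p2 X0) hb')
  -- upper bound of the product
  have G4 : |cr e1 e2| ≤ 12 * κ ^ 2 * a' := by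
    have h1 : b' ^ 2 * |cr e1 e2| ≤ b * i1 * (b * i2) * (w * a') +
        b' * (|δ1| * (b * i2) + b * i1 * |δ2|) := by
      have e0 : |b' ^ 2 * cr e1 e2| = |-(b * i1 * (b * i2) * (w * a')) +
        b' * (δ1 * (b * i2) - b * i1 * δ2)| := by rw [J4]
      rw [abs_mul, abs_of_pos (pow_pos hb' 2)] at e0
      rw [e0]
      refine (abs_add_le _ _).trans (add_le_add ?_ ?_)
      · rw [abs_neg, abs_of_pos]
        positivity
      · rw [abs_mul, abs_of_pos hb']
        refine mul_le_mul_of_nonneg_left ((abs_sub _ _).trans (le_of_eq ?_)) hb'.le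
        rw [abs_mul δ1, abs_mul (b * i1) δ2, abs_of_pos q1, abs_of_pos q2]
    have h2 : b * i1 * (b * i2) * (w * a') ≤ 2 * κ * b' * (2 * κ * b') * (2 * a') :=
      mul_le_mul (mul_le_mul n1.le n2.le q2.le (by positivity))
        (mul_le_mul_of_nonneg_right hw2 ha'0.le) (by positivity) (by positivity)
    have h3 : |δ1| * (b * i2) ≤ κ * b' * (2 * κ * b') :=
      mul_le_mul d1'' n2.le q2.le (by positivity)
    have h4 : b * i1 * |δ2| ≤ 2 * κ * b' * (κ * b') :=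
      mul_le_mul n1.le d2'' (abs_nonneg _) (by positivity)
    have h5 : b' * (|δ1| * (b * i2) + b * i1 * |δ2|) ≤
        b' * (κ * b' * (2 * κ * b') + 2 * κ * b' * (κ * b')) :=
      mul_le_mul_of_nonneg_left (add_le_add h3 h4) hb'.le
    have h6 : 4 * κ ^ 2 * b' ^ 2 * b' ≤ 4 * κ ^ 2 * b' ^ 2 * a' :=
      mul_le_mul_of_nonneg_left hba' (by positivity)
    have h7 : b' ^ 2 * |cr e1 e2| ≤ b' ^ 2 * (12 * κ ^ 2 * a') := by linarith
    exact le_of_mul_le_mul_left h7 (pow_pos hb' 2)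
  -- the end
  have E1 : b * i2 * (X + 1) * a ≤ n * |cr e1 e2| := by
    rw [G2]
    exact mul_le_mul_of_nonneg_left G1 (mul_pos q2 hX1).le
  have hN0 : 0 < N := by linarith
  have E2 : n * |cr e1 e2| ≤ 4 * κ * (b * i1) * (12 * κ ^ 2 * N) :=
    mul_le_mul G3 (G4.trans (mul_le_mul_of_nonneg_left haN' (by positivity))) (abs_nonneg _)
      (by positivity)
  have E3 : b * i1 ≤ 4 * κ ^ 2 * (b * i2) := by
    have b2 : b ≤ b * i2 := le_mul_of_one_le_right hb.le p2
    have := mul_le_mul_of_nonneg_left b2 (show 0 ≤ 4 * κ ^ 2 by positivity)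
    linarith
  have E4 : 4 * κ * (b * i1) * (12 * κ ^ 2 * N) ≤ b * i2 * (192 * κ ^ 5 * N) := by
    have := mul_le_mul_of_nonneg_left E3 (show 0 ≤ 48 * κ ^ 3 * N by positivity)
    linarith
  have E5 : b * i2 * ((X + 1) * a) ≤ b * i2 * (192 * κ ^ 5 * N) := by linarith
  have E6 := le_of_mul_le_mul_left E5 q2
  have E7 : 192 * κ ^ 5 * N ≤ 192 * κ ^ 5 * (K₁ * a) :=
    mul_le_mul_of_nonneg_left hKa (by positivity)
  have E8 : (X + 1) * a ≤ X * a := by
    have := mul_le_mul_of_nonneg_right hA3 ha.le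
    linarith
  linarith

/-- two of three nonzero integers have the same sign -/
theorem same_sign {a b c : ℤ} (ha : a ≠ 0) (hb : b ≠ 0) (hc : c ≠ 0) :
    0 < a * b ∨ 0 < a * c ∨ 0 < b * c := by
  rcases lt_or_gt_of_ne ha with h1 | h1 <;> rcases lt_or_gt_of_ne hb with h2 | h2 <;>
    rcases lt_or_gt_of_ne hc with h3 | h3
  · exact Or.inl (mul_pos_of_neg_of_neg h1 h2)
  · exact Or.inl (mul_pos_of_neg_of_neg h1 h2)
  · exact Or.inr (Or.inl (mul_pos_of_neg_of_neg h1 h3))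
  · exact Or.inr (Or.inr (mul_pos h2 h3))
  · exact Or.inr (Or.inr (mul_pos_of_neg_of_neg h2 h3))
  · exact Or.inr (Or.inl (mul_pos h1 h3))
  · exact Or.inl (mul_pos h1 h2)
  · exact Or.inl (mul_pos h1 h2)

/-- **(4) BOTH CONTENTS SMALL.**  Two large tori `L`, `M` at a slit `u` with small contents `b`, `b'` give
a pair of small levels which is almost parallel (`h3` = step (3)). -/
theorem both_small {L M : AddSubgroup Z2} {u l0 p0 m0 ρ : Z2} {a a' b b' N K K₁ T C X : ℤ}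
    (hL : lat l0 p0 = L) (hp : cr p0 l0 = a) (hb0 : cr u l0 = b) (hbd : b ∣ cr u p0)
    (hM : lat m0 ρ = M) (hρ : cr ρ m0 = a') (hb0' : cr u m0 = b') (hρu : cr u ρ = 0)
    (hb : 0 < b) (hb' : 0 < b') (haN : a ≤ N) (haN' : a' ≤ N) (hT : 1 ≤ T) (hK1 : 1 ≤ K₁)
    (hTK : T ≤ K) (hKK : K₁ < K) (hKa : N ≤ K₁ * a) (hKa' : N ≤ K₁ * a')
    (h3 : ∀ l q m s, Blk6 L u l q → Blk6 M u m s → T * cr u l ≤ N → T * cr u m ≤ N →
      cr u l < 2 * |cr l m| ∧ cr u m < 2 * |cr l m|)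
    (hX : X = 192 * (4 * K) ^ 5 * K₁) (hC : 16 * (4 * K) ^ 4 * (X + 1) ^ 2 * K₁ < C)
    (hs : C * b ≤ N) (hs' : C * b' ≤ N) : False := by
  have hK0 : 0 < K := by linarith
  have hK10 : 0 < K₁ := by linarith
  obtain ⟨κ, hκ⟩ : ∃ κ, κ = 4 * K := ⟨_, rfl⟩
  rw [← hκ] at hX hC
  have hκ4 : 4 ≤ κ := by linarith
  have hκ1 : 1 ≤ κ := by linarith
  have hκ0 : 0 < κ := by linarith
  have hX1 : 1 ≤ X := by
    rw [hX]
    have : 0 < 192 * κ ^ 5 * K₁ := by positivity
    linarith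
  have hX0 : 0 < X := by linarith
  have hXe : ∃ k, X = 2 * k := ⟨96 * κ ^ 5 * K₁, by rw [hX]; ring⟩
  have hC0 : 0 < C := by
    have : 0 < 16 * κ ^ 4 * (X + 1) ^ 2 * K₁ := by positivity
    linarith
  have hN0 : 0 < N := by
    have := mul_pos hC0 hb
    linarith
  have ha : 0 < a := by
    by_contra hc
    push Not at hc
    have := mul_nonneg_of_nonpos_of_nonpos hc (neg_nonpos.2 hK10.le)
    linarith
  have ha' : 0 < a' := by
    by_contra hc
    push Not at hc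
    have := mul_nonneg_of_nonpos_of_nonpos hc (neg_nonpos.2 hK10.le)
    linarith
  -- comparisons with C
  have sm : ∀ t y : ℤ, t ≤ 16 * κ ^ 4 * (X + 1) ^ 2 * K₁ → 0 < y → C * y ≤ N → t * y < N := by
    intro t y ht hy h
    have h1 : t * y < C * y := mul_lt_mul_of_pos_right (by linarith) hy
    linarith
  have sma : ∀ t x : ℤ, t * K₁ ≤ 16 * κ ^ 4 * (X + 1) ^ 2 * K₁ → N ≤ K₁ * x → ∀ y, 0 < y →
      C * y ≤ N → t * y < x := by
    intro t x ht hx y hy h
    have h1 := sm _ y ht hy h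
    have h2 : K₁ * (t * y) < K₁ * x := by linarith
    exact lt_of_mul_lt_mul_left h2 hK10.le
  have g4 : (1 : ℤ) ≤ κ ^ 4 := one_le_pow₀ hκ1
  have g3 : (1 : ℤ) ≤ κ ^ 3 := one_le_pow₀ hκ1
  have g2 : (1 : ℤ) ≤ κ ^ 2 := one_le_pow₀ hκ1
  have hX11 : 1 ≤ X + 1 := by linarith
  have gX2 : X + 1 ≤ (X + 1) ^ 2 := by nlinarith
  have gX3 : 1 ≤ (X + 1) ^ 2 := by linarith
  have t1 : K * K₁ ≤ 16 * κ ^ 4 * (X + 1) ^ 2 * K₁ := by
    refine mul_le_mul_of_nonneg_right ?_ hK10.le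
    have e1 : κ * 1 ≤ κ * κ ^ 3 := mul_le_mul_of_nonneg_left g3 hκ0.le
    have e2 : κ ^ 4 * 1 ≤ κ ^ 4 * (X + 1) ^ 2 := mul_le_mul_of_nonneg_left gX3 (by linarith)
    nlinarith
  have t1' : K ≤ 16 * κ ^ 4 * (X + 1) ^ 2 * K₁ := by
    refine le_trans ?_ t1
    nlinarith
  have t2 : 1 * K₁ ≤ 16 * κ ^ 4 * (X + 1) ^ 2 * K₁ := by
    refine le_trans (mul_le_mul_of_nonneg_right ?_ hK10.le) t1
    linarith
  have t3 : (X + 1) * K₁ ≤ 16 * κ ^ 4 * (X + 1) ^ 2 * K₁ := by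
    refine mul_le_mul_of_nonneg_right ?_ hK10.le
    have e2 : 1 * (X + 1) ^ 2 ≤ κ ^ 4 * (X + 1) ^ 2 :=
      mul_le_mul_of_nonneg_right g4 (by positivity)
    nlinarith
  have t4 : T * (X + 1) ≤ 16 * κ ^ 4 * (X + 1) ^ 2 * K₁ := by
    have e1 : T * (X + 1) ≤ κ * (X + 1) := mul_le_mul_of_nonneg_right (by linarith) (by linarith)
    have e2 : κ * (X + 1) ≤ κ ^ 4 * (X + 1) ^ 2 := by
      refine mul_le_mul ?_ gX2 (by linarith) (by positivity)
      have : κ * 1 ≤ κ * κ ^ 3 := mul_le_mul_of_nonneg_left g3 hκ0.le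
      linarith
    have e3 : 0 ≤ κ ^ 4 * (X + 1) ^ 2 := by positivity
    have e4 : κ ^ 4 * (X + 1) ^ 2 * 1 ≤ κ ^ 4 * (X + 1) ^ 2 * (16 * K₁) :=
      mul_le_mul_of_nonneg_left (by linarith) e3
    linarith
  have t5 : 2 * κ ^ 2 * K₁ ≤ 16 * κ ^ 4 * (X + 1) ^ 2 * K₁ := by
    refine mul_le_mul_of_nonneg_right ?_ hK10.le
    have e1 : κ ^ 2 * 1 ≤ κ ^ 2 * κ ^ 2 := mul_le_mul_of_nonneg_left g2 (by positivity)
    have e2 : κ ^ 4 * 1 ≤ κ ^ 4 * (X + 1) ^ 2 := mul_le_mul_of_nonneg_left gX3 (by linarith)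
    nlinarith
  have hba : b < a := by
    have := sma 1 a t2 hKa b hb hs
    linarith
  have hba' : b' < a' := by
    have := sma 1 a' t2 hKa' b' hb' hs'
    linarith
  have hKb : K * b ≤ N := (sm K b t1' hb hs).le
  have hKb' : K * b' ≤ N := (sm K b' t1' hb' hs').le
  have hKa1 : N < K * a := by
    have := mul_lt_mul_of_pos_right hKK ha
    linarith
  have hKa1' : N < K * a' := by
    have := mul_lt_mul_of_pos_right hKK ha'
    linarith
  have TK : ∀ x, 0 ≤ x → K * x ≤ N → T * x ≤ N := fun x hx h => by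
    have := mul_le_mul_of_nonneg_right hTK hx
    linarith
  have hTb : T * b ≤ N := TK b hb.le hKb
  have hTb' : T * b' ≤ N := TK b' hb'.le hKb'
  -- the bound b' < 2 κ b
  have hbb : b' < 2 * κ * b := by
    obtain ⟨e, q, h1, h2, h4⟩ := farey_K (m := l0) hM hρ (by rw [hb0']; exact hb')
      (by rw [hb0']; exact hKb') hK0 haN' hKa1' (by rw [hb0]; exact hb)
    have hB0 : Blk6 L u l0 (p0 - u) := blk6_mk hL (by rw [hb0]; exact hb) (by rw [hb0, hp]; exact hba)
    obtain ⟨h5, h6⟩ := h3 l0 (p0 - u) e q hB0 h1 (by rw [hb0]; exact hTb) (TK _ h1.1.le h2)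
    have h7 : b' ∣ cr u e := cr_mem_dvd_u hM (by rw [hb0']) (by rw [hρu]; exact dvd_zero _) h1.mem
    have h8 : b' ≤ cr u e := Int.le_of_dvd h1.1 h7
    have h9 : |cr e l0| = |cr l0 e| := by
      rw [← abs_neg]
      congr 1
      simp only [cr]
      ring
    rw [h9, hb0, ← hκ] at h4
    linarith
  -- the vectors over the vectors of M
  have key : ∀ m s, Blk6 M u m s → T * cr u m ≤ N → ∃ e i : _, e ∈ L ∧ cr u e = b * i ∧ 0 < i ∧
      0 < cr u e ∧ cr u m < 2 * |cr e m| ∧ cr u e < 2 * |cr e m| ∧ |cr e m| ≤ κ * cr u m := by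
    intro m s hm hTm
    obtain ⟨e, q, h1, h2, h4⟩ := farey_K (m := m) hL hp (by rw [hb0]; exact hb)
      (by rw [hb0]; exact hKb) hK0 haN hKa1 hm.1
    obtain ⟨h5, h6⟩ := h3 e q m s h1 hm (TK _ h1.1.le h2) hTm
    obtain ⟨i, hi⟩ := cr_mem_dvd_u hL (by rw [hb0]) hbd h1.mem
    refine ⟨e, i, h1.mem, hi, ?_, h1.1, h6, h5, by rw [hκ]; exact h4⟩
    by_contra hc
    push Not at hc
    have := mul_nonpos_of_nonneg_of_nonpos hb.le hc
    linarith [h1.1]
  have hmy : ∀ y : ℤ, cr u (m0 + y • ρ) = b' ∧ Blk6 M u (m0 + y • ρ) (ρ - u) := by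
    intro y
    have h1 : cr u (m0 + y • ρ) = b' := by
      rw [cr_add_right, cr_smul_right, hρu, hb0']
      ring
    refine ⟨h1, blk6_mk ?_ (by rw [h1]; exact hb') ?_⟩
    · rw [← hM]
      exact closure_pair_eq (α := 1) (β := y) (γ := 0) (δ := 1) (by module) (by module)
        (Or.inl (by norm_num))
    · have h2 : cr ρ (m0 + y • ρ) = a' := by
        rw [cr_add_right, cr_smul_right, cr_self, hρ]
        ring
      rw [h1, h2]
      exact hba'
  have pair : ∀ (y w : ℤ), 1 ≤ w → w ≤ 2 → ∀ (e1 e2 : Z2) (i1 i2 : ℤ), e1 ∈ L → e2 ∈ L →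
      cr u e1 = b * i1 → cr u e2 = b * i2 → 0 < i1 → 0 < i2 →
      b' < 2 * |cr e1 (m0 + y • ρ)| → cr u e1 < 2 * |cr e1 (m0 + y • ρ)| →
      |cr e1 (m0 + y • ρ)| ≤ κ * b' → cr u e2 < 2 * |cr e2 (m0 + (y + w) • ρ)| →
      |cr e2 (m0 + (y + w) • ρ)| ≤ κ * b' →
      0 < cr e1 (m0 + y • ρ) * cr e2 (m0 + (y + w) • ρ) → False := by
    intro y w hw1 hw2 e1 e2 i1 i2 m1 m2 k1 k2 k3 k4 k5 k6 k7 k8 k9 k10
    obtain ⟨μ1, hμ1⟩ : ∃ μ1, μ1 = m0 + y • ρ := ⟨_, rfl⟩
    obtain ⟨μ2, hμ2⟩ : ∃ μ2, μ2 = m0 + (y + w) • ρ := ⟨_, rfl⟩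
    rw [← hμ1] at k5 k6 k7 k10
    rw [← hμ2] at k8 k9 k10
    obtain ⟨u1, bl1⟩ := hmy y
    obtain ⟨u2, bl2⟩ := hmy (y + w)
    rw [← hμ1] at u1 bl1
    rw [← hμ2] at u2 bl2
    have h12 : cr μ1 μ2 = -(w * a') := by
      rw [← hρ, hμ1, hμ2]
      simp only [cr, Prod.fst_add, Prod.snd_add, Prod.smul_fst, Prod.smul_snd, smul_eq_mul]
      ring
    obtain ⟨m, hm⟩ : ∃ m, m = X • μ1 + μ2 := ⟨_, rfl⟩
    have hum : cr u m = (X + 1) * b' := by
      rw [hm, cr_add_right, cr_smul_right, u1, u2]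
      ring
    have hmw : m = (X + 1) • μ1 + w • ρ := by
      rw [hm, hμ1, hμ2]
      module
    obtain ⟨k, hk⟩ := hXe
    have hM1 : lat μ1 ρ = M := by
      rw [← hM, hμ1]
      exact closure_pair_eq (α := 1) (β := y) (γ := 0) (δ := 1) (by module) (by module)
        (Or.inl (by norm_num))
    have hρ1 : cr ρ μ1 = a' := by
      rw [hμ1, cr_add_right, cr_smul_right, cr_self, hρ]
      ring
    have hlt : cr u m < a' := by
      rw [hum]
      exact sma (X + 1) a' t3 hKa' b' hb' hs'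
    have hbm : ∃ s, Blk6 M u m s := by
      have hw : w = 1 ∨ w = 2 := by omega
      rcases hw with rfl | rfl
      · refine ⟨-μ1 - u, blk6_mk ?_ (by rw [hum]; positivity) ?_⟩
        · rw [← hM1, hmw]
          exact closure_pair_eq (α := X + 1) (β := 1) (γ := -1) (δ := 0) (by module) (by module)
            (Or.inl (by norm_num))
        · have : cr (-μ1) m = a' := by
            rw [hmw, ← hρ1]
            simp only [cr, Prod.fst_add, Prod.snd_add, Prod.smul_fst, Prod.smul_snd, smul_eq_mul,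
              Prod.fst_neg, Prod.snd_neg]
            ring
          rw [this]
          exact hlt
      · refine ⟨k • μ1 + ρ - u, blk6_mk ?_ (by rw [hum]; positivity) ?_⟩
        · rw [← hM1, hmw]
          refine closure_pair_eq (α := X + 1) (β := 2) (γ := k) (δ := 1) (by module) (by module)
            (Or.inl ?_)
          rw [hk]
          ring
        · have : cr (k • μ1 + ρ) m = a' := by
            rw [hmw, ← hρ1, hk]
            simp only [cr, Prod.fst_add, Prod.snd_add, Prod.smul_fst, Prod.smul_snd, smul_eq_mul]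
            ring
          rw [this]
          exact hlt
    obtain ⟨s, hbm⟩ := hbm
    obtain ⟨e, i, f1, f2, f3, f4, f5, f6, f7⟩ := key m s hbm (by
      rw [hum]
      have := sm (T * (X + 1)) b' t4 hb' hs'
      linarith)
    rw [hum] at f7
    refine nr4_core (u := u) (e1 := e1) (e2 := e2) (e := e) (m1 := μ1) (m2 := μ2) (m := m)
      (K₁ := K₁) (N := N) ha hb hb' hκ1 hX1 hw1 hw2 u1 u2 h12 hba'.le hm k1 k2 k3 k4 f4 hbb k5 k6 k7
      k8 k9 f6 f7 k10 ?_ (cr_mem_dvd hL hp m1 f1) haN' hK10 hKa ?_ ?_ hX.ge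
    · exact dvd_add ((cr_mem_dvd hL hp m1 f1).mul_left _) ((cr_mem_dvd hL hp m2 f1).mul_left _)
    · exact sma _ a (by linarith) hKa b' hb' hs'
    · exact sma _ a' t5 hKa' b' hb' hs'
  -- three vectors
  have get : ∀ y : ℤ, ∃ e i : _, e ∈ L ∧ cr u e = b * i ∧ 0 < i ∧ b' < 2 * |cr e (m0 + y • ρ)| ∧
      cr u e < 2 * |cr e (m0 + y • ρ)| ∧ |cr e (m0 + y • ρ)| ≤ κ * b' := by
    intro y
    obtain ⟨h1, h2⟩ := hmy y
    obtain ⟨e, i, f1, f2, f3, f4, f5, f6, f7⟩ := key _ _ h2 (by rw [h1]; exact hTb')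
    rw [h1] at f5 f7
    exact ⟨e, i, f1, f2, f3, f5, f6, f7⟩
  obtain ⟨e0, i0, a0, a1, a2, a3, a4, a5⟩ := get 0
  obtain ⟨e1, i1, b0, b1, b2, b3, b4, b5⟩ := get (0 + 1)
  obtain ⟨e2, i2, c0, c1, c2, c3, c4, c5⟩ := get (0 + 2)
  have nz : ∀ x : ℤ, b' < 2 * |x| → x ≠ 0 := by
    rintro x hx rfl
    rw [abs_zero] at hx
    linarith
  rcases same_sign (nz _ a3) (nz _ b3) (nz _ c3) with h | h | h
  · exact pair 0 1 le_rfl (by norm_num) e0 e1 i0 i1 a0 b0 a1 b1 a2 b2 a3 a4 a5 b4 b5 h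
  · exact pair 0 2 (by norm_num) le_rfl e0 e2 i0 i2 a0 c0 a1 c1 a2 c2 a3 a4 a5 c4 c5 h
  · have e : (0 : ℤ) + 2 = 0 + 1 + 1 := by norm_num
    rw [e] at c4 c5 h
    exact pair (0 + 1) 1 le_rfl (by norm_num) e1 e2 i1 i2 b0 c0 b1 c1 b2 c2 b3 b4 b5 c4 c5 h

end Pool.Agent.H4G.Six
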