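import Pool.Agent.H4G.Six.Defs

/-!
# Elementary facts, convex gluing (helper96)
-/

set_option autoImplicit false

namespace Pool.Agent.H4G.Six

open Pool.Agent.H4G

variable {X : Type}

/-! ## Elementary facts -/

theorem crx_em (a c : Z2) : crx a (em c) = (cr a c : ℝ) := by
  simp only [crx, em, cr]; push_cast; ring

theorem crx_sub (a : Z2) (x y : V) : crx a (x - y) = crx a x - crx a y := by
  simp only [crx, Prod.fst_sub, Prod.snd_sub]; ring

theorem crx_add_left (a b : Z2) (x : V) : crx (a + b) x = crx a x + crx b x := by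
  simp only [crx, Prod.fst_add, Prod.snd_add]; push_cast; ring

theorem em_add (a b : Z2) : em (a + b) = em a + em b := by
  ext <;> simp [em]

theorem em_zero : em 0 = (0 : V) := by
  ext <;> simp [em]

theorem em_inj {a b : Z2} (h : em a = em b) : a = b := by
  simp only [em, Prod.mk.injEq] at h
  ext
  · exact_mod_cast h.1
  · exact_mod_cast h.2

theorem nr_sub (x : V) (z c : Z2) : Nr (x - em c) (z - c) ↔ Nr x z := by
  simp only [Nr, em, Prod.fst_sub, Prod.snd_sub]
  push_cast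
  constructor
  · rintro ⟨h1, h2, h3, h4⟩
    exact ⟨by linarith, by linarith, by linarith, by linarith⟩
  · rintro ⟨h1, h2, h3, h4⟩
    exact ⟨by linarith, by linarith, by linarith, by linarith⟩

theorem sh_sh (c d : Z2) (f : Z2 → X) : sh c (sh d f) = sh (c + d) f := by
  funext z
  simp only [sh]
  congr 1
  abel

theorem sh_zero (f : Z2 → X) : sh 0 f = f := by
  funext z
  simp [sh]

theorem DevAt.congr {O : PO X} {x : V} {f g : Z2 → X} (h : DevAt O x g)
    (hfg : ∀ z, Nr x z → f z = g z) : DevAt O x f := by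
  constructor
  · intro z h1 h2
    rw [hfg _ h1, hfg _ h2]
    exact h.1 z h1 h2
  · intro z h1 h2
    rw [hfg _ h1, hfg _ h2]
    exact h.2 z h1 h2

theorem DevAt.sh {O : PO X} {x : V} {c : Z2} {f : Z2 → X} (h : DevAt O (x - em c) f) :
    DevAt O x (sh c f) := by
  constructor
  · intro z h1 h2
    have e : z + (1, 0) - c = z - c + (1, 0) := by abel
    have h3 := (nr_sub x z c).2 h1
    have h4 := (nr_sub x _ c).2 h2
    rw [e] at h4
    simp only [Six.sh, e]
    exact h.1 _ h3 h4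
  · intro z h1 h2
    have e : z + (0, 1) - c = z - c + (0, 1) := by abel
    have h3 := (nr_sub x z c).2 h1
    have h4 := (nr_sub x _ c).2 h2
    rw [e] at h4
    simp only [Six.sh, e]
    exact h.2 _ h3 h4

theorem ag_sh {K L : Set V} {c : Z2} {f g : Z2 → X} (h : Agree K f g)
    (hL : ∀ x ∈ L, x - em c ∈ K) : Agree L (sh c f) (sh c g) := by
  intro x hx z hz
  exact h _ (hL x hx) _ ((nr_sub x z c).2 hz)

theorem ag_symm {K : Set V} {f g : Z2 → X} (h : Agree K f g) : Agree K g f :=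
  fun x hx z hz => (h x hx z hz).symm

theorem ag_trans {K : Set V} {f g k : Z2 → X} (h : Agree K f g) (h' : Agree K g k) :
    Agree K f k := fun x hx z hz => (h x hx z hz).trans (h' x hx z hz)

theorem ag_mono {K L : Set V} {f g : Z2 → X} (h : Agree K f g) (hL : L ⊆ K) :
    Agree L f g := fun x hx => h x (hL hx)

theorem ag_refl (K : Set V) (f : Z2 → X) : Agree K f f := fun _ _ _ _ => rfl

/-! ## Convex gluing -/

/-- Convexity, in elementary form. -/
def Cvx (K : Set V) : Prop := ∀ x ∈ K, ∀ y ∈ K, ∀ t : ℝ, 0 ≤ t → t ≤ 1 →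
  (((1 - t) * x.1 + t * y.1, (1 - t) * x.2 + t * y.2) : V) ∈ K

theorem crx_comb (a : Z2) (x y : V) (t : ℝ) :
    crx a ((1 - t) * x.1 + t * y.1, (1 - t) * x.2 + t * y.2) =
      (1 - t) * crx a x + t * crx a y := by
  simp only [crx]; ring

theorem nr_comb {x y : V} {z : Z2} (hx : Nr x z) (hy : Nr y z) {t : ℝ} (h0 : 0 ≤ t)
    (h1 : t ≤ 1) : Nr ((1 - t) * x.1 + t * y.1, (1 - t) * x.2 + t * y.2) z := by
  obtain ⟨a1, a2, a3, a4⟩ := hx
  obtain ⟨b1, b2, b3, b4⟩ := hy
  have h1' : 0 ≤ 1 - t := sub_nonneg.2 h1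
  refine ⟨?_, ?_, ?_, ?_⟩ <;> simp only
  · nlinarith [mul_le_mul_of_nonneg_left a1 h1', mul_le_mul_of_nonneg_left b1 h0]
  · nlinarith [mul_le_mul_of_nonneg_left a2 h1', mul_le_mul_of_nonneg_left b2 h0]
  · nlinarith [mul_le_mul_of_nonneg_left a3 h1', mul_le_mul_of_nonneg_left b3 h0]
  · nlinarith [mul_le_mul_of_nonneg_left a4 h1', mul_le_mul_of_nonneg_left b4 h0]

/-- CONVEX GLUING -/
theorem glue {K : Set V} (hK : Cvx K) (a : Z2) (c : ℝ) {f g : Z2 → X}
    (h : Agree (K ∩ {x | crx a x = c}) f g) : ∃ F : Z2 → X,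
      Agree (K ∩ {x | crx a x ≤ c}) F f ∧ Agree (K ∩ {x | c ≤ crx a x}) F g := by
  classical
  refine ⟨fun z => if ∃ x ∈ K, crx a x ≤ c ∧ Nr x z then f z else g z, ?_, ?_⟩
  · rintro x ⟨hx, hx2⟩ z hz
    have : ∃ x ∈ K, crx a x ≤ c ∧ Nr x z := ⟨x, hx, hx2, hz⟩
    simp only [this, if_true]
  · rintro x ⟨hx, hx2⟩ z hz
    simp only
    split_ifs with hy
    · obtain ⟨y, hy, hy2, hyz⟩ := hy
      have hx3 : c ≤ crx a x := hx2
      obtain ⟨t, t0, t1, ht⟩ : ∃ t : ℝ, 0 ≤ t ∧ t ≤ 1 ∧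
          (1 - t) * crx a x + t * crx a y = c := by
        rcases hx3.lt_or_eq with h | h
        · have hd : 0 < crx a x - crx a y := by linarith
          refine ⟨(crx a x - c) / (crx a x - crx a y), by
            apply div_nonneg <;> linarith, by rw [div_le_one hd]; linarith, ?_⟩
          field_simp
          ring
        · exact ⟨0, le_refl _, zero_le_one, by rw [← h]; ring⟩
      exact h _ ⟨hK x hx y hy t t0 t1, by
        show crx a _ = c
        rw [crx_comb]; exact ht⟩ z (nr_comb hz hyz t0 t1)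
    · rfl

/-- gluing along several parallel lines -/
theorem build {K : Set V} (hK : Cvx K) (a : Z2) {h : ℕ → ℝ} (hm : Monotone h)
    (F : ℕ → Z2 → X) (m : ℕ)
    (hag : ∀ i < m, Agree (K ∩ {x | crx a x = h (i + 1)}) (F i) (F (i + 1))) : ∃ g : Z2 → X,
      (∀ i < m, Agree (K ∩ {x | h i ≤ crx a x ∧ crx a x ≤ h (i + 1)}) g (F i)) ∧
      Agree (K ∩ {x | h m ≤ crx a x}) g (F m) := by
  induction m with
  | zero => exact ⟨F 0, fun i hi => absurd hi (Nat.not_lt_zero i), ag_refl _ _⟩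
  | succ m ih =>
    obtain ⟨g, g1, g2⟩ := ih (fun i hi => hag i (by omega))
    obtain ⟨G, G1, G2⟩ := glue hK a (h (m + 1)) (f := g) (g := F (m + 1)) (by
      have h1 : Agree (K ∩ {x | crx a x = h (m + 1)}) g (F m) := ag_mono g2 (by
        rintro x ⟨hx, hx2⟩
        exact ⟨hx, by
          show h m ≤ crx a x
          rw [show crx a x = h (m + 1) from hx2]; exact hm (Nat.le_succ m)⟩)
      exact ag_trans h1 (hag m (Nat.lt_succ_self m)))
    refine ⟨G, fun i hi => ?_, G2⟩
    have h1 : Agree (K ∩ {x | h i ≤ crx a x ∧ crx a x ≤ h (i + 1)}) G g := ag_mono G1 (by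
      rintro x ⟨hx, hx2, hx3⟩
      exact ⟨hx, le_trans hx3 (hm (by omega))⟩)
    rcases Nat.lt_succ_iff_lt_or_eq.1 hi with h2 | h2
    · exact ag_trans h1 (g1 i h2)
    · subst h2
      exact ag_trans h1 (ag_mono g2 (by
        rintro x ⟨hx, hx2, hx3⟩
        exact ⟨hx, hx2⟩))

end Pool.Agent.H4G.Six
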