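import Pool.Agent.H4G.Six.Lam6

/-!
# Parity, volume and positivity for the (1,3)-exits (MP_4f7c28, part (i); helper69)

The new tree of the exit with `x = v + l + m` is `(u', x' + m - x, -m, -s, x, u - l)`, where `u', x'`
is a basis of `⟨l, x - q⟩`; the mirror image is `(u', x' + m - x, -m, -s, x, u + l)` with a basis of
`⟨l, x + q⟩`.
-/

set_option autoImplicit false

namespace Pool.Agent.H4G.Six

open Pool.Agent.H4G

/-- the lattices of the new tree -/
theorem latL_ex13 (u' v' m s x z : Z2) :
    latL (u', v', -m, -s, x, z) = lat m (u' - s) := by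
  show lat (-m) (u' + -s) = _
  rw [lat_neg_left, ← sub_eq_add_neg]

theorem latM_ex13 (u' v' m s x z : Z2) : latM (u', v', -m, -s, x, z) = lat x (u' + z) := rfl

end Pool.Agent.H4G.Six
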