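import Pool.Agent.H4G.Six.Defs
import Pool.Agent.H4G.Arith.State

/-!
# Parity of E6 trees (row G6, helper69)

`inv6 c` is the sum in `𝔽₂²` of the vectors attached to the three lattices `⟨u, v⟩`, `⟨l, u + q⟩`,
`⟨m, u + s⟩`: to a lattice whose image in `𝔽₂²` is a line we attach the nonzero vector of this line,
to all other lattices the vector `0`. It is invariant under the moves of the tree, and equivariant
under the action of `SL₂(ℤ)`. `Even6 O` says that the two permutations of `O` are even.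
-/

set_option autoImplicit false

namespace Pool.Agent.H4G.Six

open Pool.Agent.H4G

/-- vectors modulo `2` -/
abbrev F2 : Type := ZMod 2 × ZMod 2

/-- the reduction modulo `2` -/
def m2 (w : Z2) : F2 := ((w.1 : ZMod 2), (w.2 : ZMod 2))

/-- the vector of the line spanned by two vectors of `𝔽₂²`, or `0` -/
def lam2 (a b : F2) : F2 := if a.1 * b.2 - a.2 * b.1 = 0 then (if a = 0 then b else a) else 0

/-- the vector of the lattice `⟨x, y⟩` -/
def lam (x y : Z2) : F2 := lam2 (m2 x) (m2 y)

/-- the parity invariant of a tree -/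
def inv6 : C6 → F2
  | (u, v, l, q, m, s) => lam u v + lam l (u + q) + lam m (u + s)

/-- the shear modulo `2` -/
def T2 (a : F2) : F2 := (a.1 + a.2, a.2)

/-- the quarter turn modulo `2` -/
def J2 (a : F2) : F2 := (a.2, a.1)

theorem m2_add (a b : Z2) : m2 (a + b) = m2 a + m2 b := by
  unfold m2
  ext <;> simp

theorem m2_neg (a : Z2) : m2 (-a) = m2 a := by
  unfold m2
  ext <;> simp

theorem m2_T (a : Z2) : m2 (shT a) = T2 (m2 a) := by
  unfold m2 shT T2
  ext <;> simp

theorem m2_J (a : Z2) : m2 (shJ a) = J2 (m2 a) := by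
  unfold m2 shJ J2
  ext <;> simp

theorem lam2_T : ∀ a b : F2, lam2 (T2 a) (T2 b) = T2 (lam2 a b) := by decide

theorem lam2_J : ∀ a b : F2, lam2 (J2 a) (J2 b) = J2 (lam2 a b) := by decide

theorem T2_add : ∀ a b : F2, T2 (a + b) = T2 a + T2 b := by decide

theorem J2_add : ∀ a b : F2, J2 (a + b) = J2 a + J2 b := by decide

theorem T2_zero : ∀ a : F2, T2 a = 0 ↔ a = 0 := by decide

theorem J2_zero : ∀ a : F2, J2 a = 0 ↔ a = 0 := by decide

/-- the twist of the centre -/
theorem inv_tu_aux : ∀ u v l q m s : F2,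
    lam2 (u + (v + l + m)) v + lam2 l (u + (v + l + m) + q) + lam2 m (u + (v + l + m) + s) =
      lam2 u v + lam2 l (u + q) + lam2 m (u + s) := by
  decide +kernel

theorem lam2_a1 : ∀ a b : F2, lam2 a (b + a) = lam2 a b := by decide

theorem lam2_a2 : ∀ l u q : F2, lam2 l (u + (q + l)) = lam2 l (u + q) := by decide

theorem lam2_a3 : ∀ l u q : F2, lam2 (l + (u + q)) (u + q) = lam2 l (u + q) := by decide

/-- the lattice determines the vector: the elementary operations on a basis -/
theorem lam_add_left (x y : Z2) : lam (x + y) y = lam x y := by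
  unfold lam
  rw [m2_add]
  generalize m2 x = a
  generalize m2 y = b
  revert a b
  decide

theorem lam_swap (x y : Z2) : lam x y = lam y x := by
  unfold lam
  generalize m2 x = a
  generalize m2 y = b
  revert a b
  decide

theorem lam_add_right (x y : Z2) : lam x (y + x) = lam x y := by
  rw [lam_swap, lam_add_left, lam_swap]

/-- the four combinations modulo `2` -/
def Cmb (x y w : F2) : Prop := w = 0 ∨ w = x ∨ w = y ∨ w = x + y

instance (x y w : F2) : Decidable (Cmb x y w) := by unfold Cmb; infer_instance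

theorem lam2_congr : ∀ x y x' y' : F2, Cmb x y x' → Cmb x y y' → Cmb x' y' x → Cmb x' y' y →
    lam2 x y = lam2 x' y' := by
  decide +kernel

theorem mem_m2 {x y w : Z2} (h : w ∈ lat x y) : Cmb (m2 x) (m2 y) (m2 w) := by
  obtain ⟨m, n, rfl⟩ := mem_lat.1 h
  have key : ∀ (x y : F2) (a b : ZMod 2),
      Cmb x y (a * x.1 + b * y.1, a * x.2 + b * y.2) := by decide
  have e : m2 (m • x + n • y) = ((m : ZMod 2) * (m2 x).1 + (n : ZMod 2) * (m2 y).1,
      (m : ZMod 2) * (m2 x).2 + (n : ZMod 2) * (m2 y).2) := by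
    unfold m2
    ext <;> simp
  rw [e]
  exact key _ _ _ _

/-- `lam` depends only on the lattice -/
theorem lam_congr {x y x' y' : Z2} (h : lat x y = lat x' y') : lam x y = lam x' y' := by
  refine lam2_congr _ _ _ _ (mem_m2 ?_) (mem_m2 ?_) (mem_m2 ?_) (mem_m2 ?_)
  · rw [h]; exact AddSubgroup.subset_closure (by simp)
  · rw [h]; exact AddSubgroup.subset_closure (by simp)
  · rw [← h]; exact AddSubgroup.subset_closure (by simp)
  · rw [← h]; exact AddSubgroup.subset_closure (by simp)

/-! ## The (1,3)-exits -/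

/-- the centre may be changed (modulo `2`) -/
theorem inv13_span : ∀ l y a b : F2, Cmb l y a → Cmb l y b → Cmb a b l → Cmb a b y →
    ∀ m x s z : F2, lam2 a (b + m + x) + lam2 m (a + s) + lam2 x (a + z) =
      lam2 l (y + m + x) + lam2 m (l + s) + lam2 x (l + z) := by
  decide +kernel

/-- the exit with `u' = l`, `x' = x - q` (modulo `2`) -/
theorem inv13_base : ∀ l m v s u q : F2,
    lam2 l ((v + l + m + q) + m + (v + l + m)) + lam2 m (l + s) + lam2 (v + l + m) (l + (u + l)) =
      lam2 u v + lam2 l (u + q) + lam2 m (u + s) := by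
  decide +kernel

theorem m2_sub (a b : Z2) : m2 (a - b) = m2 a + m2 b := by
  rw [sub_eq_add_neg, m2_add, m2_neg]

/-- the centre of the tree may be changed (modulo `2`) -/
theorem inv_centre_span : ∀ u y a b : F2, Cmb u y a → Cmb u y b → Cmb a b u → Cmb a b y →
    ∀ l m q s : F2, lam2 a (b + l + m) + lam2 l (a + q) + lam2 m (a + s) =
      lam2 u (y + l + m) + lam2 l (u + q) + lam2 m (u + s) := by
  decide +kernel

/-- the four combinations of two bases of one lattice -/
theorem cmb_of_lat {x y x' y' : Z2} (h : lat x' y' = lat x y) :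
    Cmb (m2 x) (m2 y) (m2 x') ∧ Cmb (m2 x) (m2 y) (m2 y') ∧ Cmb (m2 x') (m2 y') (m2 x) ∧
      Cmb (m2 x') (m2 y') (m2 y) := by
  refine ⟨mem_m2 ?_, mem_m2 ?_, mem_m2 ?_, mem_m2 ?_⟩
  · rw [← h]; exact AddSubgroup.subset_closure (by simp)
  · rw [← h]; exact AddSubgroup.subset_closure (by simp)
  · rw [h]; exact AddSubgroup.subset_closure (by simp)
  · rw [h]; exact AddSubgroup.subset_closure (by simp)

/-- PARITY: a new basis of the centre -/
theorem inv6_centre {u v l q m s U x : Z2} (h : lat U x = lat u (v + l + m)) :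
    inv6 (U, x - l - m, l, q, m, s) = inv6 (u, v, l, q, m, s) := by
  obtain ⟨h1, h2, h3, h4⟩ := cmb_of_lat h
  have h5 := inv_centre_span _ _ _ _ h1 h2 h3 h4 (m2 l) (m2 m) (m2 q) (m2 s)
  have key : ∀ v l m : F2, v + l + m + l + m = v := by decide
  simp only [inv6, lam, m2_sub, m2_add U, m2_add u]
  rw [h5, m2_add, m2_add, key]

/-- PARITY, any sign -/
theorem inv13_aux {u v l q m s u' x' y z w x z' : Z2} (h : lat u' x' = lat l y)
    (hy : m2 y = m2 (v + l + m) + m2 q) (hz : m2 z' = m2 u + m2 l)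
    (hx : m2 x = m2 (v + l + m)) (hw : m2 w = m2 x' + m2 m + m2 x) (hm : m2 z = m2 m) :
    inv6 (u', w, z, -s, x, z') = inv6 (u, v, l, q, m, s) := by
  obtain ⟨h1, h2, h3, h4⟩ := cmb_of_lat h
  have h5 := inv13_span _ _ _ _ h1 h2 h3 h4 (m2 m) (m2 (v + l + m)) (m2 s) (m2 z')
  simp only [inv6, lam, m2_neg, m2_add u', hw, hx, hm]
  rw [h5, hy, hz]
  have h6 := inv13_base (m2 l) (m2 m) (m2 v) (m2 s) (m2 u) (m2 q)
  simp only [m2_add]
  exact h6

theorem inv6_exP {u v l q m s U x u' x' : Z2} (h0 : lat U x = lat u (v + l + m))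
    (h : lat u' x' = lat l (x - q)) :
    inv6 (u', x' + m - x, -m, -s, x, U - l) = inv6 (u, v, l, q, m, s) := by
  rw [← inv6_centre h0]
  have e : x - l - m + l + m = x := by abel
  refine inv13_aux h ?_ ?_ ?_ ?_ ?_
  · rw [e, m2_sub]
  · rw [m2_sub]
  · rw [e]
  · rw [m2_sub, m2_add]
  · rw [m2_neg]

theorem inv6_exM {u v l q m s U x u' x' : Z2} (h0 : lat U x = lat u (v + l + m))
    (h : lat u' x' = lat l (x - q)) :
    inv6 (u', x' + m + x, -m, -s, -x, l - U) = inv6 (u, v, l, q, m, s) := by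
  rw [← inv6_centre h0]
  have e : x - l - m + l + m = x := by abel
  refine inv13_aux h ?_ ?_ ?_ ?_ ?_
  · rw [e, m2_sub]
  · rw [m2_sub, add_comm]
  · rw [e, m2_neg]
  · rw [m2_add, m2_add, m2_neg]
  · rw [m2_neg]

/-! ## Invariance -/

/-- the moves of the tree keep the parity invariant; `T` and `J` act on it -/
theorem Mv6.inv {c c' : C6} (h : Mv6 c c') :
    inv6 c' = inv6 c ∨ inv6 c' = T2 (inv6 c) ∨ inv6 c' = J2 (inv6 c) := by
  cases h with
  | tv u v l q m s => left; simp only [inv6, lam, m2_add, lam2_a1]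
  | tq u v l q m s => left; simp only [inv6, lam, m2_add, lam2_a2]
  | ts u v l q m s => left; simp only [inv6, lam, m2_add, lam2_a2]
  | tl u v l q m s _ _ => left; simp only [inv6, lam, m2_add, lam2_a3]
  | tm u v l q m s _ _ => left; simp only [inv6, lam, m2_add, lam2_a3]
  | tu u v l q m s _ _ _ => left; simp only [inv6, lam, m2_add, inv_tu_aux]
  | swap u v l q m s =>
    left
    simp only [inv6, lam, m2_add, m2_neg]
    rw [add_assoc, add_assoc, add_comm (lam2 (m2 m) _)]
  | exP _ _ _ _ _ _ _ _ _ _ h1 _ _ _ _ _ _ _ h2 => exact Or.inl (inv6_exP h1 h2)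
  | exM _ _ _ _ _ _ _ _ _ _ h1 _ _ _ _ _ _ _ h2 => exact Or.inl (inv6_exM h1 h2)
  | T c =>
    right; left
    obtain ⟨u, v, l, q, m, s⟩ := c
    simp only [inv6, lam, C6.map, m2_add, m2_T, ← T2_add, lam2_T]
  | J c =>
    right; right
    obtain ⟨u, v, l, q, m, s⟩ := c
    simp only [inv6, lam, C6.map, m2_add, m2_J, ← J2_add, lam2_J]

/-- whether the parity invariant vanishes is invariant under all moves -/
theorem Mv6.inv_zero {c c' : C6} (h : Mv6 c c') : inv6 c = 0 ↔ inv6 c' = 0 := by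
  rcases h.inv with h | h | h
  · rw [h]
  · rw [h, T2_zero]
  · rw [h, J2_zero]

theorem CEq6.inv_zero {c c' : C6} (h : CEq6 c c') : inv6 c = 0 ↔ inv6 c' = 0 := by
  induction h with
  | rel c c' h => exact h.2.inv_zero
  | refl c => rfl
  | symm c c' _ ih => exact ih.symm
  | trans c c' c'' _ _ ih1 ih2 => exact ih1.trans ih2

/-! ## Even origamis -/

section

variable {X : Type} [Fintype X] [DecidableEq X]

/-- both permutations are even -/
def Even6 (O : PO X) : Prop := Equiv.Perm.sign O.r = 1 ∧ Equiv.Perm.sign O.u = 1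

theorem Even6.T (O : PO X) : Even6 O ↔ Even6 O.T := by
  unfold Even6 PO.T
  constructor
  · rintro ⟨h1, h2⟩
    refine ⟨h1, ?_⟩
    rw [Equiv.Perm.sign_mul, Equiv.Perm.sign_inv, h1, h2, one_mul]
  · rintro ⟨h1, h2⟩
    refine ⟨h1, ?_⟩
    rw [Equiv.Perm.sign_mul, Equiv.Perm.sign_inv] at h2
    have h3 : Equiv.Perm.sign O.r = 1 := h1
    rwa [h3, mul_one] at h2

theorem Even6.J (O : PO X) : Even6 O ↔ Even6 O.J := by
  unfold Even6 PO.J
  simp only [Equiv.Perm.sign_inv]
  exact and_comm

theorem Iso6.sign_r {X' : Type} [Fintype X'] [DecidableEq X'] {O : PO X} {O' : PO X'} {e : X ≃ X'}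
    (h : Iso6 O O' e) : Equiv.Perm.sign O'.r = Equiv.Perm.sign O.r := by
  have h1 : O'.r = e.permCongr O.r := by
    ext x
    rw [Equiv.permCongr_apply, h.r, e.apply_symm_apply]
  rw [h1, Equiv.Perm.sign_permCongr]

theorem Iso6.sign_u {X' : Type} [Fintype X'] [DecidableEq X'] {O : PO X} {O' : PO X'} {e : X ≃ X'}
    (h : Iso6 O O' e) : Equiv.Perm.sign O'.u = Equiv.Perm.sign O.u := by
  have h1 : O'.u = e.permCongr O.u := by
    ext x
    rw [Equiv.permCongr_apply, h.u, e.apply_symm_apply]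
  rw [h1, Equiv.Perm.sign_permCongr]

theorem Iso6.even {X' : Type} [Fintype X'] [DecidableEq X'] {O : PO X} {O' : PO X'} {e : X ≃ X'}
    (h : Iso6 O O' e) : Even6 O ↔ Even6 O' := by
  unfold Even6
  rw [h.sign_r, h.sign_u]

theorem Step6.even {O O' : PO X} (h : Step6 O O') : Even6 O ↔ Even6 O' := by
  cases h with
  | T => exact Even6.T O
  | J => exact Even6.J O
  | iso _ e he => exact he.even

theorem SLE6.even {O O' : PO X} (h : SLE6 O O') : Even6 O ↔ Even6 O' := by
  induction h with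
  | rel _ _ h => exact h.even
  | refl _ => rfl
  | symm _ _ _ ih => exact ih.symm
  | trans _ _ _ _ _ ih1 ih2 => exact ih1.trans ih2

end

end Pool.Agent.H4G.Six
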