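import Mathlib.Tactic
import Mathlib.RingTheory.Coprime.Basic
import Pool.Agent.H4G.Arith.Block

/-!
# Rational Perron vectors of positive integer matrices have bounded height (helper5)

A positive integer vector which is an eigenvector (with a rational eigenvalue) of a positive
integer matrix `3 × 3` with entries at most `K` is an integer multiple of a vector with entries at
most `9 K²`.
-/

set_option autoImplicit false

namespace Pool.Agent.H4G.Six

/-- the entries of a `3 × 3` integer matrix lie in `[1, K]` -/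
def PMat (K : ℤ) (M : Fin 3 → Fin 3 → ℤ) : Prop := ∀ i j, 1 ≤ M i j ∧ M i j ≤ K

/-- the image of a vector -/
def mv (M : Fin 3 → Fin 3 → ℤ) (w : Fin 3 → ℤ) (i : Fin 3) : ℤ :=
  M i 0 * w 0 + M i 1 * w 1 + M i 2 * w 2

theorem mv_pos {K : ℤ} {M : Fin 3 → Fin 3 → ℤ} (hM : PMat K M) {w : Fin 3 → ℤ}
    (hw : ∀ i, 0 < w i) (i : Fin 3) : 0 < mv M w i := by
  unfold mv
  have h0 := mul_pos (show 0 < M i 0 by linarith [(hM i 0).1]) (hw 0)
  have h1 := mul_pos (show 0 < M i 1 by linarith [(hM i 1).1]) (hw 1)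
  have h2 := mul_pos (show 0 < M i 2 by linarith [(hM i 2).1]) (hw 2)
  linarith

/-- the integer case: `M w = y w` -/
theorem perron_int {K : ℤ} {M : Fin 3 → Fin 3 → ℤ} (hM : PMat K M) {w : Fin 3 → ℤ}
    (hw : ∀ i, 0 < w i) (hg : ∀ d : ℤ, (∀ i, d ∣ w i) → IsUnit d) {y : ℤ}
    (h : ∀ i, mv M w i = y * w i) : y ≤ 3 * K ∧ ∀ i, w i ≤ 9 * K ^ 2 := by
  have w0 := hw 0
  have w1 := hw 1
  have w2 := hw 2
  have e0 := h 0
  have e1 := h 1
  have e2 := h 2
  unfold mv at e0 e1 e2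
  obtain ⟨a1, a2⟩ := hM 0 0
  obtain ⟨a3, a4⟩ := hM 0 1
  obtain ⟨a5, a6⟩ := hM 0 2
  obtain ⟨b1, b2⟩ := hM 1 0
  obtain ⟨b3, b4⟩ := hM 1 1
  obtain ⟨b5, b6⟩ := hM 1 2
  obtain ⟨c1, c2⟩ := hM 2 0
  obtain ⟨c3, c4⟩ := hM 2 1
  obtain ⟨c5, c6⟩ := hM 2 2
  generalize M 0 0 = m00 at *
  generalize M 0 1 = m01 at *
  generalize M 0 2 = m02 at *
  generalize M 1 0 = m10 at *
  generalize M 1 1 = m11 at *
  generalize M 1 2 = m12 at *
  generalize M 2 0 = m20 at *
  generalize M 2 1 = m21 at *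
  generalize M 2 2 = m22 at *
  have hK : 1 ≤ K := by linarith
  -- the eigenvalue
  have hy : y ≤ 3 * K := by
    by_contra hc
    push Not at hc
    have s : y * (w 0 + w 1 + w 2) = (m00 + m10 + m20) * w 0 + (m01 + m11 + m21) * w 1 +
        (m02 + m12 + m22) * w 2 := by linear_combination -e0 - e1 - e2
    have t0 : (m00 + m10 + m20) * w 0 ≤ 3 * K * w 0 :=
      mul_le_mul_of_nonneg_right (by linarith) w0.le
    have t1 : (m01 + m11 + m21) * w 1 ≤ 3 * K * w 1 :=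
      mul_le_mul_of_nonneg_right (by linarith) w1.le
    have t2 : (m02 + m12 + m22) * w 2 ≤ 3 * K * w 2 :=
      mul_le_mul_of_nonneg_right (by linarith) w2.le
    have t3 : (3 * K) * (w 0 + w 1 + w 2) < y * (w 0 + w 1 + w 2) :=
      mul_lt_mul_of_pos_right hc (by linarith)
    linarith
  have d0 : 0 < y - m00 := by
    have : 0 < (y - m00) * w 0 := by
      have : (y - m00) * w 0 = m01 * w 1 + m02 * w 2 := by linear_combination -e0
      rw [this]
      have := mul_pos (show 0 < m01 by linarith) w1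
      have := mul_pos (show 0 < m02 by linarith) w2
      linarith
    exact (mul_pos_iff_of_pos_right w0).1 this
  have d1 : 0 < y - m11 := by
    have : 0 < (y - m11) * w 1 := by
      have : (y - m11) * w 1 = m10 * w 0 + m12 * w 2 := by linear_combination -e1
      rw [this]
      have := mul_pos (show 0 < m10 by linarith) w0
      have := mul_pos (show 0 < m12 by linarith) w2
      linarith
    exact (mul_pos_iff_of_pos_right w1).1 this
  -- the vector product of the first two rows of `M - y`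
  obtain ⟨p0, hp0⟩ : ∃ p : ℤ, p = m01 * m12 + m02 * (y - m11) := ⟨_, rfl⟩
  obtain ⟨p1, hp1⟩ : ∃ p : ℤ, p = m02 * m10 + (y - m00) * m12 := ⟨_, rfl⟩
  obtain ⟨p2, hp2⟩ : ∃ p : ℤ, p = (y - m00) * (y - m11) - m01 * m10 := ⟨_, rfl⟩
  have q01 : w 0 * p1 = w 1 * p0 := by
    rw [hp0, hp1]
    linear_combination (-m12) * e0 + m02 * e1
  have q02 : w 0 * p2 = w 2 * p0 := by
    rw [hp0, hp2]
    linear_combination (-(y - m11)) * e0 - m01 * e1
  have q12 : w 1 * p2 = w 2 * p1 := by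
    rw [hp1, hp2]
    linear_combination (-(m10)) * e0 - (y - m00) * e1
  have pp0 : 0 < p0 := by
    rw [hp0]
    have := mul_pos (show 0 < m01 by linarith) (show 0 < m12 by linarith)
    have := mul_pos (show 0 < m02 by linarith) d1
    linarith
  have b0 : p0 ≤ 9 * K ^ 2 := by
    rw [hp0]
    have t1 : m01 * m12 ≤ K * K := mul_le_mul a4 b6 (by linarith) (by linarith)
    have t2 : m02 * (y - m11) ≤ K * (3 * K) := mul_le_mul a6 (by linarith) d1.le (by linarith)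
    nlinarith
  have b1' : p1 ≤ 9 * K ^ 2 := by
    rw [hp1]
    have t1 : m02 * m10 ≤ K * K := mul_le_mul a6 b2 (by linarith) (by linarith)
    have t2 : (y - m00) * m12 ≤ (3 * K) * K := mul_le_mul (by linarith) b6 (by linarith)
      (by linarith)
    nlinarith
  have b2' : p2 ≤ 9 * K ^ 2 := by
    rw [hp2]
    have t1 : (y - m00) * (y - m11) ≤ (3 * K) * (3 * K) :=
      mul_le_mul (by linarith) (by linarith) d1.le (by linarith)
    have t2 : 0 < m01 * m10 := mul_pos (by linarith) (by linarith)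
    nlinarith
  -- `p = t w`
  obtain ⟨g, hgd⟩ : ∃ g : ℤ, g = Int.gcd (w 0) (Int.gcd (w 1) (w 2)) := ⟨_, rfl⟩
  have hgu : g = 1 := by
    have h0 : g ∣ w 0 := by rw [hgd]; exact Int.gcd_dvd_left _ _
    have h12 : g ∣ (Int.gcd (w 1) (w 2) : ℤ) := by rw [hgd]; exact Int.gcd_dvd_right _ _
    have h1 : g ∣ w 1 := h12.trans (Int.gcd_dvd_left _ _)
    have h2 : g ∣ w 2 := h12.trans (Int.gcd_dvd_right _ _)
    have hu := hg g (by
      intro i
      fin_cases i
      · exact h0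
      · exact h1
      · exact h2)
    rcases Int.isUnit_iff.1 hu with h9 | h9
    · exact h9
    · rw [hgd] at h9
      have : (0 : ℤ) ≤ (Int.gcd (w 0) (Int.gcd (w 1) (w 2)) : ℤ) := by positivity
      omega
  obtain ⟨α, β, γ, hab⟩ : ∃ α β γ : ℤ, α * w 0 + β * w 1 + γ * w 2 = 1 := by
    obtain ⟨α1, β1, h1⟩ : ∃ α1 β1 : ℤ, (g : ℤ) = w 0 * α1 + (Int.gcd (w 1) (w 2) : ℤ) * β1 :=
      ⟨_, _, by rw [hgd]; exact Int.gcd_eq_gcd_ab (w 0) (Int.gcd (w 1) (w 2))⟩
    obtain ⟨α2, β2, h2⟩ : ∃ α2 β2 : ℤ, (Int.gcd (w 1) (w 2) : ℤ) = w 1 * α2 + w 2 * β2 :=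
      ⟨_, _, Int.gcd_eq_gcd_ab (w 1) (w 2)⟩
    rw [hgu, h2] at h1
    exact ⟨α1, α2 * β1, β2 * β1, by linear_combination -h1⟩
  obtain ⟨t, ht⟩ : ∃ t : ℤ, t = α * p0 + β * p1 + γ * p2 := ⟨_, rfl⟩
  have t0 : p0 = t * w 0 := by
    rw [ht]; linear_combination (-p0) * hab - β * q01 - γ * q02
  have t1 : p1 = t * w 1 := by
    rw [ht]; linear_combination (-p1) * hab + α * q01 - γ * q12
  have t2 : p2 = t * w 2 := by
    rw [ht]; linear_combination (-p2) * hab + α * q02 + β * q12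
  have ht0 : 0 < t := by
    rw [t0] at pp0
    exact (mul_pos_iff_of_pos_right w0).1 pp0
  refine ⟨hy, fun i => ?_⟩
  have key : ∀ p z : ℤ, 0 < z → p = t * z → p ≤ 9 * K ^ 2 → z ≤ 9 * K ^ 2 := by
    intro p z hz h1 h2
    have : 1 * z ≤ t * z := mul_le_mul_of_nonneg_right ht0 hz.le
    linarith
  fin_cases i
  · exact key _ _ w0 t0 b0
  · exact key _ _ w1 t1 b1'
  · exact key _ _ w2 t2 b2'

/-- every positive vector is a multiple of a primitive one -/
theorem exists_prim3 {w : Fin 3 → ℤ} (hw : ∀ i, 0 < w i) :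
    ∃ (g : ℤ) (o : Fin 3 → ℤ), 0 < g ∧ (∀ i, w i = g * o i) ∧ (∀ i, 0 < o i) ∧
      ∀ d : ℤ, (∀ i, d ∣ o i) → IsUnit d := by
  obtain ⟨g, hgd⟩ : ∃ g : ℤ, g = Int.gcd (w 0) (Int.gcd (w 1) (w 2)) := ⟨_, rfl⟩
  have hg0 : 0 < g := by
    rw [hgd]
    have : 0 < Int.gcd (w 0) (Int.gcd (w 1) (w 2)) := Int.gcd_pos_of_ne_zero_left _ (hw 0).ne'
    exact_mod_cast this
  have h0 : g ∣ w 0 := by rw [hgd]; exact Int.gcd_dvd_left _ _
  have h12 : g ∣ (Int.gcd (w 1) (w 2) : ℤ) := by rw [hgd]; exact Int.gcd_dvd_right _ _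
  have h1 : g ∣ w 1 := h12.trans (Int.gcd_dvd_left _ _)
  have h2 : g ∣ w 2 := h12.trans (Int.gcd_dvd_right _ _)
  have hall : ∀ i, g ∣ w i := by
    intro i
    fin_cases i
    · exact h0
    · exact h1
    · exact h2
  choose o ho using hall
  refine ⟨g, o, hg0, ho, fun i => ?_, fun d hd => ?_⟩
  · have := hw i
    rw [ho i] at this
    exact (mul_pos_iff_of_pos_left hg0).1 this
  · have k0 : g * d ∣ g := by
      conv_rhs => rw [hgd]
      refine Int.dvd_coe_gcd ?_ (Int.dvd_coe_gcd ?_ ?_)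
      · rw [ho 0]; exact mul_dvd_mul_left g (hd 0)
      · rw [ho 1]; exact mul_dvd_mul_left g (hd 1)
      · rw [ho 2]; exact mul_dvd_mul_left g (hd 2)
    have k1 : g * d ∣ g * 1 := by rwa [mul_one]
    exact isUnit_of_dvd_one ((mul_dvd_mul_iff_left hg0.ne').1 k1)

/-- PERRON: rational eigenvalue, any positive vector -/
theorem perron3 {K : ℤ} {M : Fin 3 → Fin 3 → ℤ} (hM : PMat K M) {w : Fin 3 → ℤ}
    (hw : ∀ i, 0 < w i) {x y : ℤ} (hx : 0 < x) (h : ∀ i, x * mv M w i = y * w i) :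
    ∃ (g : ℤ) (o : Fin 3 → ℤ), 0 < g ∧ (∀ i, w i = g * o i) ∧
      ∀ i, 0 < o i ∧ o i ≤ 9 * K ^ 2 := by
  obtain ⟨g, o, g0, h1, h2, h3⟩ := exists_prim3 hw
  have hmv : ∀ i, mv M w i = g * mv M o i := by
    intro i
    unfold mv
    rw [h1 0, h1 1, h1 2]; ring
  have h4 : ∀ i, x * mv M o i = y * o i := by
    intro i
    have := h i
    rw [hmv i, h1 i] at this
    have : g * (x * mv M o i - y * o i) = 0 := by linear_combination this
    rcases mul_eq_zero.1 this with h9 | h9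
    · omega
    · linarith
  -- the reduced fraction
  obtain ⟨d, hd⟩ : ∃ d : ℤ, d = Int.gcd x y := ⟨_, rfl⟩
  have hd0 : 0 < d := by
    rw [hd]
    have : 0 < Int.gcd x y := Int.gcd_pos_of_ne_zero_left _ hx.ne'
    exact_mod_cast this
  obtain ⟨x1, hx1⟩ : d ∣ x := by rw [hd]; exact Int.gcd_dvd_left _ _
  obtain ⟨y1, hy1⟩ : d ∣ y := by rw [hd]; exact Int.gcd_dvd_right _ _
  have hcop : IsCoprime x1 y1 := by
    have h5 := Int.gcd_eq_gcd_ab x y
    rw [← hd] at h5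
    refine ⟨Int.gcdA x y, Int.gcdB x y, ?_⟩
    have : d * (Int.gcdA x y * x1 + Int.gcdB x y * y1 - 1) = 0 := by
      linear_combination (-(1 : ℤ)) * h5 - Int.gcdA x y * hx1 - Int.gcdB x y * hy1
    rcases mul_eq_zero.1 this with h9 | h9
    · omega
    · linarith
  have h5 : ∀ i, x1 * mv M o i = y1 * o i := by
    intro i
    have := h4 i
    rw [hx1, hy1] at this
    have : d * (x1 * mv M o i - y1 * o i) = 0 := by linear_combination this
    rcases mul_eq_zero.1 this with h9 | h9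
    · omega
    · linarith
  have hx10 : 0 < x1 := by
    rw [hx1] at hx
    exact (mul_pos_iff_of_pos_left hd0).1 hx
  have h6 : IsUnit x1 := h3 x1 fun i => hcop.dvd_of_dvd_mul_left ⟨_, (h5 i).symm⟩
  have h7 : x1 = 1 := by
    rcases Int.isUnit_iff.1 h6 with h9 | h9
    · exact h9
    · omega
  have h8 : ∀ i, mv M o i = y1 * o i := by
    intro i
    have := h5 i
    rwa [h7, one_mul] at this
  exact ⟨g, o, g0, h1, fun i => ⟨h2 i, (perron_int hM h2 h3 h8).2 i⟩⟩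

/-- the product of two positive matrices -/
def mm (B C : Fin 3 → Fin 3 → ℤ) (i j : Fin 3) : ℤ := B i 0 * C 0 j + B i 1 * C 1 j + B i 2 * C 2 j

theorem PMat.mul {K : ℤ} {B C : Fin 3 → Fin 3 → ℤ} (hB : PMat K B) (hC : PMat K C) :
    PMat (3 * K ^ 2) (mm B C) := by
  intro i j
  unfold mm
  have key : ∀ k : Fin 3, 1 ≤ B i k * C k j ∧ B i k * C k j ≤ K ^ 2 := by
    intro k
    obtain ⟨h1, h2⟩ := hB i k
    obtain ⟨h3, h4⟩ := hC k j
    constructor
    · nlinarith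
    · have := mul_le_mul h2 h4 (by linarith) (by linarith)
      nlinarith
  obtain ⟨k1, k2⟩ := key 0
  obtain ⟨k3, k4⟩ := key 1
  obtain ⟨k5, k6⟩ := key 2
  constructor <;> linarith

theorem mv_mm (B C : Fin 3 → Fin 3 → ℤ) (w : Fin 3 → ℤ) (i : Fin 3) :
    mv (mm B C) w i = mv B (mv C w) i := by
  unfold mv mm; ring

/-- PERRON for a pair of vectors: `B w' ∼ w`, `C w ∼ w'` -/
theorem perron_pair {K : ℤ} {B C : Fin 3 → Fin 3 → ℤ} (hB : PMat K B) (hC : PMat K C)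
    {w w' : Fin 3 → ℤ} (hw : ∀ i, 0 < w i) (hw' : ∀ i, 0 < w' i) {x y x' y' : ℤ} (hx : 0 < x)
    (hx' : 0 < x') (h : ∀ i, x * mv B w' i = y * w i) (h' : ∀ i, x' * mv C w i = y' * w' i) :
    (∃ (g : ℤ) (o : Fin 3 → ℤ), 0 < g ∧ (∀ i, w i = g * o i) ∧
      ∀ i, 0 < o i ∧ o i ≤ 81 * K ^ 4) ∧
    ∃ (g : ℤ) (o : Fin 3 → ℤ), 0 < g ∧ (∀ i, w' i = g * o i) ∧
      ∀ i, 0 < o i ∧ o i ≤ 81 * K ^ 4 := by
  have key : ∀ {B C : Fin 3 → Fin 3 → ℤ} (_ : PMat K B) (_ : PMat K C)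
      {w w' : Fin 3 → ℤ} (_ : ∀ i, 0 < w i) {x y x' y' : ℤ} (_ : 0 < x)
      (_ : 0 < x') (_ : ∀ i, x * mv B w' i = y * w i) (_ : ∀ i, x' * mv C w i = y' * w' i),
      ∃ (g : ℤ) (o : Fin 3 → ℤ), 0 < g ∧ (∀ i, w i = g * o i) ∧
        ∀ i, 0 < o i ∧ o i ≤ 81 * K ^ 4 := by
    intro B C hB hC w w' hw x y x' y' hx hx' h h'
    obtain ⟨g, o, h1, h2, h3⟩ := perron3 (hB.mul hC) hw (x := x * x') (y := y * y')
      (mul_pos hx hx') (fun i => by
        rw [mv_mm]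
        have e1 : x' * mv B (mv C w) i = y' * mv B w' i := by
          have a0 := h' 0
          have a1 := h' 1
          have a2 := h' 2
          show x' * (B i 0 * mv C w 0 + B i 1 * mv C w 1 + B i 2 * mv C w 2) =
            y' * (B i 0 * w' 0 + B i 1 * w' 1 + B i 2 * w' 2)
          linear_combination (B i 0) * a0 + (B i 1) * a1 + (B i 2) * a2
        linear_combination x * e1 + y' * h i)
    refine ⟨g, o, h1, h2, fun i => ⟨(h3 i).1, ?_⟩⟩
    have := (h3 i).2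
    have e : 9 * (3 * K ^ 2) ^ 2 = 81 * K ^ 4 := by ring
    rwa [e] at this
  exact ⟨key hB hC hw hx hx' h h', key hC hB hw' hx' hx h' h⟩

/-- INDEX: if `n Z²` is contained in the lattice of `u, u'`, then `u × u' ≤ n²` -/
theorem index_bound {u u' : Z2} {n : ℤ} (hn : n ≠ 0)
    (h : ∀ z : Z2, ∃ a b : ℤ, n • z = a • u + b • u') : cr u u' ≤ n ^ 2 := by
  obtain ⟨a, b, h1⟩ := h (1, 0)
  obtain ⟨c, d, h2⟩ := h (0, 1)
  have e : (a * d - b * c) * cr u u' = n ^ 2 * cr (1, 0) (0, 1) := by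
    have e1 : cr (n • ((1, 0) : Z2)) (n • ((0, 1) : Z2)) = n ^ 2 * cr (1, 0) (0, 1) := by
      rw [cr_smul_left, cr_smul_right]; ring
    rw [← e1, h1, h2]
    simp only [cr_add_left, cr_add_right, cr_smul_left, cr_smul_right, cr_self]
    rw [cr_swap u' u]; ring
  have e2 : cr ((1, 0) : Z2) ((0, 1) : Z2) ∣ 1 ∧ 0 < n ^ 2 := ⟨by simp [cr], by positivity⟩
  have e3 : cr u u' ∣ n ^ 2 := by
    have : cr ((1, 0) : Z2) ((0, 1) : Z2) = 1 := by simp [cr]
    rw [this, mul_one] at e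
    exact ⟨a * d - b * c, by linear_combination -e⟩
  exact Int.le_of_dvd e2.2 e3

end Pool.Agent.H4G.Six
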