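import Pool.Agent.H4G.Six.Perron

/-!
# Two coarse directions joined by a bounded exit: the surface is bounded (helper5; idea: helper26)

`u` a centre with heights `A = u × v`, `b = u × l`, `b' = u × m` and left vectors `ρ₁ = z₁ u`,
`ρ₂ = z₂ u`; `u' = α u + d (v + l + m)` another centre of the same column lattice, with heights
`A', X, Y`, and `z₁ = 1 + ν₁ X / (d W)`, `z₂ = 1 + ν₂ Y / (d W)`.
-/

set_option autoImplicit false

namespace Pool.Agent.H4G.Six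

/-- the matrix of an exit -/
def exMat (d p₀ p₁ p₂ ν₁ ν₂ : ℤ) (i j : Fin 3) : ℤ :=
  match i, j with
  | 0, _ => p₀ * d
  | 1, 1 => p₁ * (d + ν₁)
  | 1, _ => p₁ * d
  | 2, 2 => p₂ * (d + ν₂)
  | 2, _ => p₂ * d

theorem exMat_pos {K d p₀ p₁ p₂ ν₁ ν₂ : ℤ} (hd : 1 ≤ d ∧ d ≤ K) (h0 : 1 ≤ p₀ ∧ p₀ ≤ K)
    (h1 : 1 ≤ p₁ ∧ p₁ ≤ K) (h2 : 1 ≤ p₂ ∧ p₂ ≤ K) (h3 : 1 ≤ ν₁ ∧ ν₁ ≤ K)
    (h4 : 1 ≤ ν₂ ∧ ν₂ ≤ K) : PMat (2 * K ^ 2) (exMat d p₀ p₁ p₂ ν₁ ν₂) := by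
  have hK : 1 ≤ K := by linarith [hd.1, hd.2]
  have key : ∀ p q : ℤ, 1 ≤ p ∧ p ≤ K → 1 ≤ q ∧ q ≤ 2 * K → 1 ≤ p * q ∧ p * q ≤ 2 * K ^ 2 := by
    intro p q hp hq
    constructor
    · nlinarith [hp.1, hq.1]
    · have := mul_le_mul hp.2 hq.2 (by linarith [hq.1]) (by linarith)
      nlinarith
  have hd' : 1 ≤ d ∧ d ≤ 2 * K := ⟨hd.1, by linarith [hd.2]⟩
  have hn1 : 1 ≤ d + ν₁ ∧ d + ν₁ ≤ 2 * K := ⟨by linarith [hd.1, h3.1], by linarith [hd.2, h3.2]⟩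
  have hn2 : 1 ≤ d + ν₂ ∧ d + ν₂ ≤ 2 * K := ⟨by linarith [hd.1, h4.1], by linarith [hd.2, h4.2]⟩
  intro i j
  fin_cases i <;> fin_cases j
  · exact key p₀ d h0 hd'
  · exact key p₀ d h0 hd'
  · exact key p₀ d h0 hd'
  · exact key p₁ d h1 hd'
  · exact key p₁ _ h1 hn1
  · exact key p₁ d h1 hd'
  · exact key p₂ d h2 hd'
  · exact key p₂ d h2 hd'
  · exact key p₂ _ h2 hn2

/-- one direction of the pair -/
theorem exMat_eig {d p₀ p₁ p₂ ν₁ ν₂ A b b' A' X Y W : ℤ} (hW : A' + X + Y = W)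
    (e1 : p₁ * (d * W + ν₁ * X) * A = p₀ * b * (d * W))
    (e2 : p₂ * (d * W + ν₂ * Y) * A = p₀ * b' * (d * W)) (i : Fin 3) :
    A * mv (exMat d p₀ p₁ p₂ ν₁ ν₂) ![A', X, Y] i = (p₀ * (d * W)) * ![A, b, b'] i := by
  subst hW
  fin_cases i
  · show A * (p₀ * d * A' + p₀ * d * X + p₀ * d * Y) = p₀ * (d * (A' + X + Y)) * A
    ring
  · show A * (p₁ * d * A' + p₁ * (d + ν₁) * X + p₁ * d * Y) = p₀ * (d * (A' + X + Y)) * b
    linear_combination e1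
  · show A * (p₂ * d * A' + p₂ * d * X + p₂ * (d + ν₂) * Y) = p₀ * (d * (A' + X + Y)) * b'
    linear_combination e2

/-- PERRON FOR AN EXIT: both directions coarse with numbers at most `K`, the surface primitive:
then `W ≤ K (3888 K⁸)⁴` -/
theorem exit_bound {K α d p₀ p₁ p₂ p₀' p₁' p₂' ν₁ ν₂ W A' : ℤ} {u v l m ρ₁ ρ₂ u' : Z2}
    (hd : 1 ≤ d ∧ d ≤ K) (h0 : 1 ≤ p₀ ∧ p₀ ≤ K) (h1 : 1 ≤ p₁ ∧ p₁ ≤ K) (h2 : 1 ≤ p₂ ∧ p₂ ≤ K)
    (h0' : 1 ≤ p₀' ∧ p₀' ≤ K) (h1' : 1 ≤ p₁' ∧ p₁' ≤ K) (h2' : 1 ≤ p₂' ∧ p₂' ≤ K)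
    (h3 : 1 ≤ ν₁ ∧ ν₁ ≤ K) (h4 : 1 ≤ ν₂ ∧ ν₂ ≤ K)
    (hu' : u' = α • u + d • (v + l + m)) (hW : W = cr u (v + l + m))
    (hAe : A' = W - cr u' l - cr u' m)
    (hA : 0 < cr u v) (hb : 0 < cr u l) (hb' : 0 < cr u m)
    (hA' : 0 < A') (hX : 0 < cr u' l) (hY : 0 < cr u' m)
    (r1 : (d * W) • ρ₁ = (d * W + ν₁ * cr u' l) • u)
    (r2 : (d * W) • ρ₂ = (d * W + ν₂ * cr u' m) • u)
    (e1 : p₁ * (d * W + ν₁ * cr u' l) * cr u v = p₀ * cr u l * (d * W))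
    (e2 : p₂ * (d * W + ν₂ * cr u' m) * cr u v = p₀ * cr u m * (d * W))
    (e1' : p₁' * (d * W + ν₁ * cr u l) * A' = p₀' * cr u' l * (d * W))
    (e2' : p₂' * (d * W + ν₂ * cr u m) * A' = p₀' * cr u' m * (d * W))
    (hprim : ∀ z : Z2, z ∈ AddSubgroup.closure {u, v, l, ρ₁, m, ρ₂}) :
    W ≤ K * (3888 * K ^ 8) ^ 4 := by
  have hWs : W = cr u v + cr u l + cr u m := by rw [hW, cr_add_right, cr_add_right]
  have hW0 : 0 < W := by rw [hWs]; linarith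
  have hd0 : 0 < d := by linarith [hd.1]
  have hK : 1 ≤ K := by linarith [hd.1, hd.2]
  have huu : cr u u' = d * W := by
    rw [hu', cr_add_right, cr_smul_right, cr_smul_right, cr_self, ← hW]; ring
  have hWs' : A' + cr u' l + cr u' m = W := by rw [hAe]; ring
  obtain ⟨⟨g, o, g0, k1, k2⟩, g', o', g0', k1', k2'⟩ :=
    perron_pair (exMat_pos hd h0 h1 h2 h3 h4) (exMat_pos hd h0' h1' h2' h3 h4)
      (w := ![cr u v, cr u l, cr u m]) (w' := ![A', cr u' l, cr u' m])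
      (fun i => by fin_cases i <;> assumption) (fun i => by fin_cases i <;> assumption)
      hA hA' (exMat_eig hWs' e1 e2) (exMat_eig hWs.symm e1' e2')
  have a0 : cr u v = g * o 0 := k1 0
  have a1 : cr u l = g * o 1 := k1 1
  have a2 : cr u m = g * o 2 := k1 2
  have a0' : A' = g' * o' 0 := k1' 0
  have a1' : cr u' l = g' * o' 1 := k1' 1
  have a2' : cr u' m = g' * o' 2 := k1' 2
  obtain ⟨D, hD⟩ : ∃ D : ℤ, D = o 0 + o 1 + o 2 := ⟨_, rfl⟩
  obtain ⟨D', hD'⟩ : ∃ D' : ℤ, D' = o' 0 + o' 1 + o' 2 := ⟨_, rfl⟩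
  have w1 : W = g * D := by rw [hWs, a0, a1, a2, hD]; ring
  have w2 : W = g' * D' := by rw [← hWs', a0', a1', a2', hD']; ring
  have D0 : 0 < D := by rw [hD]; linarith [(k2 0).1, (k2 1).1, (k2 2).1]
  have D0' : 0 < D' := by rw [hD']; linarith [(k2' 0).1, (k2' 1).1, (k2' 2).1]
  have DK : D ≤ 3888 * K ^ 8 := by
    have e : (81 : ℤ) * (2 * K ^ 2) ^ 4 = 1296 * K ^ 8 := by ring
    rw [hD]
    have := (k2 0).2
    have := (k2 1).2
    have := (k2 2).2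
    linarith
  have DK' : D' ≤ 3888 * K ^ 8 := by
    have e : (81 : ℤ) * (2 * K ^ 2) ^ 4 = 1296 * K ^ 8 := by ring
    rw [hD']
    have := (k2' 0).2
    have := (k2' 1).2
    have := (k2' 2).2
    linarith
  -- membership in `(1/n) ⟨u, u'⟩`
  obtain ⟨n, hn⟩ : ∃ n : ℤ, n = d * (D * D') := ⟨_, rfl⟩
  have n0 : 0 < n := by rw [hn]; exact mul_pos hd0 (mul_pos D0 D0')
  have cancel : ∀ y : Z2, W • y = 0 → y = 0 := fun y hy => (smul_eq_zero.1 hy).resolve_left hW0.ne'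
  have hcr : ∀ y : Z2, (d * W) • y = (cr u y) • u' - (cr u' y) • u := by
    intro y
    have := cr_dep u u' y
    rw [cr_swap y u, huu] at this
    have h9 := eq_neg_of_add_eq_zero_right this
    rw [h9]; module
  have hl : ∀ (y : Z2) (i : Fin 3), cr u y = g * o i → cr u' y = g' * o' i →
      ∃ s t : ℤ, n • y = s • u + t • u' := by
    intro y i f1 f2
    refine ⟨-(D * o' i), D' * o i, ?_⟩
    refine sub_eq_zero.1 (cancel _ ?_)
    have f3 := hcr y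
    rw [f1, f2] at f3
    have f4 : W • (n • y) = (D * D') • ((d * W) • y) := by
      rw [smul_smul, smul_smul, hn]; congr 1; ring
    rw [smul_sub, f4, f3, smul_sub, smul_add, smul_smul, smul_smul, smul_smul, smul_smul]
    have f5 : D * D' * (g * o i) = W * (D' * o i) := by rw [w1]; ring
    have f6 : D * D' * (g' * o' i) = W * (D * o' i) := by
      calc D * D' * (g' * o' i) = (g' * D') * (D * o' i) := by ring
        _ = W * (D * o' i) := by rw [← w2]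
    rw [f5, f6]
    module
  have hx : ∃ s t : ℤ, n • (v + l + m) = s • u + t • u' := by
    refine ⟨-(D * D' * α), D * D', ?_⟩
    have : n • (v + l + m) = (D * D') • (d • (v + l + m)) := by
      rw [smul_smul, hn]; congr 1; ring
    rw [this]
    have e : d • (v + l + m) = u' - α • u := by rw [hu']; abel
    rw [e]; module
  have hrho : ∀ (ρ : Z2) (ν : ℤ) (Z : ℤ) (i : Fin 3), Z = g' * o' i →
      (d * W) • ρ = (d * W + ν * Z) • u → ∃ s t : ℤ, n • ρ = s • u + t • u' := by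
    intro ρ ν Z i f1 f2
    refine ⟨n + ν * (D * o' i), 0, ?_⟩
    refine sub_eq_zero.1 (cancel _ ?_)
    have f4 : W • (n • ρ) = (D * D') • ((d * W) • ρ) := by
      rw [smul_smul, smul_smul, hn]; congr 1; ring
    rw [smul_sub, f4, f2, f1, zero_smul, add_zero, smul_smul, smul_smul]
    have f5 : D * D' * (d * W + ν * (g' * o' i)) = W * (n + ν * (D * o' i)) := by
      rw [hn]
      calc D * D' * (d * W + ν * (g' * o' i)) = W * (d * (D * D')) + ν * ((g' * D') * (D * o' i)) := by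
            ring
        _ = W * (d * (D * D')) + ν * (W * (D * o' i)) := by rw [← w2]
        _ = W * (d * (D * D') + ν * (D * o' i)) := by ring
    rw [f5, sub_self]
  have hlem := hl l 1 a1 a1'
  have hmem := hl m 2 a2 a2'
  have hvem : ∃ s t : ℤ, n • v = s • u + t • u' := by
    obtain ⟨s1, t1, f1⟩ := hx
    obtain ⟨s2, t2, f2⟩ := hlem
    obtain ⟨s3, t3, f3⟩ := hmem
    refine ⟨s1 - s2 - s3, t1 - t2 - t3, ?_⟩
    have : n • v = n • (v + l + m) - n • l - n • m := by module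
    rw [this, f1, f2, f3]; module
  have hall : ∀ z : Z2, ∃ s t : ℤ, n • z = s • u + t • u' := by
    intro z
    refine AddSubgroup.closure_induction (p := fun z _ => ∃ s t : ℤ, n • z = s • u + t • u')
      ?_ ⟨0, 0, by simp⟩ ?_ ?_ (hprim z)
    · intro y hy
      simp only [Set.mem_insert_iff, Set.mem_singleton_iff] at hy
      rcases hy with rfl | rfl | rfl | rfl | rfl | rfl
      · exact ⟨n, 0, by rw [zero_smul, add_zero]⟩
      · exact hvem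
      · exact hlem
      · exact hrho _ _ _ 1 a1' r1
      · exact hmem
      · exact hrho _ _ _ 2 a2' r2
    · rintro y z _ _ ⟨s, t, f⟩ ⟨s', t', f'⟩
      exact ⟨s + s', t + t', by rw [smul_add, f, f']; module⟩
    · rintro y _ ⟨s, t, f⟩
      exact ⟨-s, -t, by rw [smul_neg, f]; module⟩
  have hfin := index_bound n0.ne' hall
  rw [huu] at hfin
  have f1 : d * W ≤ d * (d * (D * D') ^ 2) := by
    calc d * W ≤ n ^ 2 := hfin
      _ = d * (d * (D * D') ^ 2) := by rw [hn]; ring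
  have f2 : W ≤ d * (D * D') ^ 2 := le_of_mul_le_mul_left f1 hd0
  have f3 : D * D' ≤ (3888 * K ^ 8) ^ 2 := by
    rw [pow_two]; exact mul_le_mul DK DK' D0'.le (by positivity)
  have f4 : (D * D') ^ 2 ≤ ((3888 * K ^ 8) ^ 2) ^ 2 :=
    pow_le_pow_left₀ (mul_pos D0 D0').le f3 2
  calc W ≤ d * (D * D') ^ 2 := f2
    _ ≤ K * ((3888 * K ^ 8) ^ 2) ^ 2 := mul_le_mul hd.2 f4 (by positivity) (by linarith)
    _ = K * (3888 * K ^ 8) ^ 4 := by ring

end Pool.Agent.H4G.Six
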