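import Pool.Agent.H4G.Six.Stage1B
import Pool.Agent.H4G.Six.BMin

/-!
# Stage I and the first case of stage II together: `RC` (helper14, after helper96)

`RC O N r`: `r` is the least value of `|l × m| > 0` of the good configurations, and all contents of
the trees are at least `r`; parallel slits are allowed. It follows from `RMin` (no parallel slits)
and from `RB` (the least content `b` is at least `r`). The proofs are those of `Stage1`.
-/

set_option autoImplicit false

namespace Pool.Agent.H4G.Six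

open Pool.Agent.H4G

variable {X : Type} {O : PO X} {N r b : ℤ} {u v l q m s U x l1 q1 m1 s1 : Z2}

/-- The least good configuration, and the contents are at least `r`. -/
structure RC (O : PO X) (N r : ℤ) : Prop where
  conf : GoodConf O N r
  least : ∀ r', GoodConf O N r' → r ≤ r'
  cont : ∀ u v l q m s : Z2, Has6 O (u, v, l, q, m, s) → vol6 (u, v, l, q, m, s) = N →
    r ≤ ct u l q

theorem RMin.rc (h : RMin O N r) : RC O N r :=
  ⟨h.conf, h.least, fun _ _ _ _ _ _ h1 h2 => (h.cont h1 h2).1⟩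

theorem RB.rc (h : RB O N r b) : RC O N r :=
  ⟨h.conf, h.least, fun _ _ _ _ _ _ h1 h2 => h.le.trans (h.bm.least _ _ _ _ _ _ h1 h2)⟩

theorem RC.contM (h : RC O N r) (hT : Has6 O (u, v, l, q, m, s))
    (hN : vol6 (u, v, l, q, m, s) = N) : r ≤ ct u m s := by
  have := h.cont _ _ _ _ _ _ hT.swap (vol6_swap.trans hN)
  unfold ct at *
  rwa [cr_negl, cr_negr, neg_neg, cr_negl, cr_negr, neg_neg] at this

theorem RC.tree (h : RC O N r) (hT : Has6 O (u, v, l, q, m, s))
    (hN : vol6 (u, v, l, q, m, s) = N) :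
    r ≤ cr u l ∧ r ≤ cr u m ∧ (cr l m = 0 ∨ r ≤ |cr l m|) := by
  have p := hT.pos
  have a1 : r ≤ cr u l := (h.cont _ _ _ _ _ _ hT hN).trans (ct_le p.2.1)
  have a2 : r ≤ cr u m := (h.contM hT hN).trans (ct_le p.2.2.1)
  refine ⟨a1, a2, ?_⟩
  by_cases h0 : cr l m = 0
  · exact Or.inl h0
  right
  by_contra hc
  push Not at hc
  refine absurd (h.least |cr l m| ⟨u, v + l + m, l, q, m, s, hT.okc h0, ?_, rfl, Or.inl ?_⟩)
    (not_le.2 hc)
  · rw [← hN]
    simp only [volC, vol6, cr, Prod.fst_add, Prod.snd_add]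
    ring
  · rw [cr_addr, cr_addr]
    have := p.1
    linarith

/-- no good vectors in a configuration with `|l × m| = r` -/
theorem RC.noGood (h : RC O N r) (hC : OKC O (U, x, l, q, m, s))
    (hN : volC (U, x, l, q, m, s) = N) (hrr : |cr l m| = r) {i j : ℤ} (hij : IsCoprime i j) :
    ¬ GoodP |cr l m| (cr U x) (cr (i • U + j • x) l, cr (i • U + j • x) m) := by
  rintro (⟨g1, g2, g3, g4⟩ | ⟨g1, g2, g3⟩)
  · simp only at g1 g2 g3 g4
    have hmin : min |cr (i • U + j • x) l| |cr (i • U + j • x) m| < |cr l m| :=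
      min_lt_iff.2 g2
    have := h.least _ (hC.dropNeg hN hij rfl g1 g3 g4 hmin)
    rw [← hrr] at this
    exact absurd hmin (not_lt.2 this)
  · simp only at g1 g2 g3
    obtain ⟨w, v', -, k1, k2, k3, k4, -⟩ := hC.tree_at hN hij rfl g1 g3
    obtain ⟨a1, a2, -⟩ := h.tree k1 k2
    rw [k3] at a1
    rw [k4] at a2
    rw [hrr] at g2
    rcases g2 with g2 | g2 <;> linarith

/-- the degenerate centre, `0 < l × x < W` -/
theorem RC.degA (h : RC O N r) (hC : OKC O (U, x, l, q, m, s))
    (hN : volC (U, x, l, q, m, s) = N) (hrr : |cr l m| = r) (h0 : cr m x = 0) (h1 : 0 < cr l x)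
    (h4 : cr l x < cr U x) : cr l x ∣ cr q x := by
  have hx0 : x ≠ 0 := by
    rintro rfl
    simp [cr] at h1
  have hx : x ∈ AddSubgroup.closure ({U, x} : Set Z2) := AddSubgroup.subset_closure (by simp)
  have h7 := hC.posQ
  have hr := hC.rpos
  have hfar : |cr l m| < cr l x := by
    rcases hC.2.2.farV hx hx0 (by rw [h0, mul_zero]) with g | g
    · rwa [abs_of_pos h1] at g
    · rw [h0, abs_zero] at g
      linarith
  -- the gcd
  obtain ⟨g, hg⟩ : ∃ g : ℤ, g = (Int.gcd (cr l x) (cr (x - q) x) : ℤ) := ⟨_, rfl⟩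
  have hg0 : 0 < g := by
    rw [hg]
    have : 0 < Int.gcd (cr l x) (cr (x - q) x) := Int.gcd_pos_of_ne_zero_left _ h1.ne'
    exact_mod_cast this
  have hgA : g ∣ cr l x := by rw [hg]; exact Int.gcd_dvd_left ..
  have hgB : g ∣ cr (x - q) x := by rw [hg]; exact Int.gcd_dvd_right ..
  have hgle : g ≤ cr l x := Int.le_of_dvd h1 hgA
  obtain ⟨A', hA'⟩ := id hgA
  obtain ⟨B', hB'⟩ := id hgB
  obtain ⟨a, ha⟩ : ∃ a : ℤ, a = Int.gcdA (cr l x) (cr (x - q) x) := ⟨_, rfl⟩
  obtain ⟨b, hb⟩ : ∃ b : ℤ, b = Int.gcdB (cr l x) (cr (x - q) x) := ⟨_, rfl⟩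
  have hbez : cr l x * a + cr (x - q) x * b = g := by
    rw [hg, ha, hb]; exact (Int.gcd_eq_gcd_ab _ _).symm
  have hcop : IsCoprime a b := by
    refine ⟨A', B', ?_⟩
    have : g * (A' * a + B' * b) = g * 1 := by
      rw [mul_one]
      conv_rhs => rw [← hbez, hA', hB']
      ring
    exact mul_left_cancel₀ hg0.ne' this
  obtain ⟨p, p1, p2⟩ := exists_basis (U := l) (x := x - q) a b hcop
  obtain ⟨l', hl'⟩ : ∃ l' : Z2, l' = a • l + b • (x - q) := ⟨_, rfl⟩
  rw [← hl'] at p1 p2
  have hD : cr l (x - q) = cr l x + cr q l := by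
    simp only [cr, Prod.fst_sub, Prod.snd_sub]; ring
  have hl'x : cr l' x = g := by
    rw [hl', ← hbez]
    simp only [cr, Prod.fst_add, Prod.snd_add, Prod.smul_fst, Prod.smul_snd, smul_eq_mul]; ring
  have hxl' : cr (x + p) l' = -g + (cr l x + cr q l) := by
    rw [cr_addl, p2, hD, cr_swap' l' x, hl'x]
  obtain ⟨k1, k2⟩ := hC.deg (l' := l') (q' := x + p) h0 h1 h4 (by rw [hl'x]; exact hg0)
    (by rw [hxl']; linarith) (by
      rw [show x - (x + p) = -p by abel, clo_neg_right, Set.pair_comm]; exact p1)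
  have cm : cr l x * cr l' m = cr l m * g := by
    have e : cr l x * cr l' m - cr l m * cr l' x = cr l' l * cr m x := by
      simp only [cr]; ring
    rw [h0, mul_zero, hl'x] at e
    linarith
  have cm' : cr l x * |cr l' m| = |cr l m| * g := by
    have := congrArg abs cm
    rwa [abs_mul, abs_mul, abs_of_pos h1, abs_of_pos hg0] at this
  have hW' : cr (U - l + l') x = cr U x - cr l x + g := by
    rw [← hl'x]
    simp only [cr, Prod.fst_add, Prod.snd_add, Prod.fst_sub, Prod.snd_sub]; ring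
  have hbig : GoodConf O N |cr l' m| := by
    refine ⟨_, _, _, _, _, _, k1, k2.trans hN, rfl,
      Or.inr (Or.inr (Or.inl ⟨x, AddSubgroup.subset_closure (by simp), ?_, ?_, ?_⟩))⟩
    · rw [cr_swap' m x, h0, neg_zero]
    · rw [abs_cr_comm x l', hl'x, abs_of_pos hg0]
      have : cr l x * |cr l' m| < cr l x * g := by
        rw [cm']; exact mul_lt_mul_of_pos_right hfar hg0
      exact lt_of_mul_lt_mul_left this h1.le
    · rw [abs_cr_comm x l', hl'x, abs_of_pos hg0, hW']; linarith
  have hmin : |cr l m| ≤ |cr l' m| := by rw [hrr]; exact h.least _ hbig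
  have hfin : cr l x ≤ g := by
    have : |cr l m| * cr l x ≤ |cr l m| * g := by
      rw [← cm', mul_comm (|cr l m|)]
      exact mul_le_mul_of_nonneg_left hmin h1.le
    exact le_of_mul_le_mul_left this hr
  have heq : g = cr l x := le_antisymm hgle hfin
  rw [heq] at hgB
  have e : cr (x - q) x = -cr q x := by
    rw [cr_subl, cr_self']; ring
  rw [e] at hgB
  exact (dvd_neg.1 hgB)

/-- the case `l × x = W` -/
theorem RC.degB (h : RC O N r) (hC : OKC O (U, x, l, q, m, s))
    (hN : volC (U, x, l, q, m, s) = N) (hrr : |cr l m| = r) (h0 : cr m x = 0)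
    (h1 : cr l x = cr U x) : cr l x ∣ cr q x := by
  have hW := hC.1
  have hr := hC.rpos
  have hm0 : cr U m = cr l m := by
    have e : cr l x * (cr U m - cr l m) = (cr U x - cr l x) * cr l m +
        (cr U l) * cr m x := by
      simp only [cr]; ring
    rw [h0, h1] at e
    have e2 : cr U x * (cr U m - cr l m) = 0 := by rw [e]; ring
    have := (mul_eq_zero.1 e2).resolve_left hW.ne'
    linarith
  obtain ⟨ε, hε, hερ⟩ : ∃ ε : ℤ, (ε = 1 ∨ ε = -1) ∧ ε * cr l m = |cr l m| := by
    rcases le_total 0 (cr l m) with g | g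
    · exact ⟨1, Or.inl rfl, by rw [abs_of_nonneg g, one_mul]⟩
    · exact ⟨-1, Or.inr rfl, by rw [abs_of_nonpos g, neg_one_mul]⟩
  have hεε : ε * ε = 1 := by rcases hε with rfl | rfl <;> norm_num
  obtain ⟨j, hj⟩ : ∃ j : ℤ, j = (ε * cr U l) / cr U x := ⟨_, rfl⟩
  obtain ⟨u, hu⟩ : ∃ u : Z2, u = ε • U + j • x := ⟨_, rfl⟩
  have hcop : IsCoprime ε j := by
    refine ⟨ε, 0, ?_⟩
    rw [zero_mul, add_zero, hεε]
  have um : cr u m = |cr l m| := by
    have : cr u m = ε * cr U m + j * cr x m := by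
      rw [hu]
      simp only [cr, Prod.fst_add, Prod.snd_add, Prod.smul_fst, Prod.smul_snd, smul_eq_mul]; ring
    rw [this, hm0, hερ, cr_swap' m x, h0]; ring
  have ul : cr u l = ε * cr U l - j * cr U x := by
    have : cr u l = ε * cr U l + j * cr x l := by
      rw [hu]
      simp only [cr, Prod.fst_add, Prod.snd_add, Prod.smul_fst, Prod.smul_snd, smul_eq_mul]; ring
    rw [this, cr_swap' l x, h1]; ring
  have ul0 : 0 ≤ cr u l := by
    rw [ul, hj]
    have := Int.emod_nonneg (ε * cr U l) hW.ne'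
    have h2 := Int.emod_add_mul_ediv (ε * cr U l) (cr U x)
    nlinarith
  have ul1 : cr u l < cr U x := by
    rw [ul, hj]
    have := Int.emod_lt_of_pos (ε * cr U l) hW
    have h2 := Int.emod_add_mul_ediv (ε * cr U l) (cr U x)
    nlinarith
  have ux : cr u x = ε * cr U x := by
    rw [hu]
    simp only [cr, Prod.fst_add, Prod.snd_add, Prod.smul_fst, Prod.smul_snd, smul_eq_mul]; ring
  have hu0 : u ≠ 0 := by
    intro h3
    have e : cr u m = 0 := by rw [h3]; simp [cr]
    rw [e] at um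
    rw [← um] at hr
    exact lt_irrefl _ hr
  have hmem : u ∈ AddSubgroup.closure ({U, x} : Set Z2) :=
    AddSubgroup.mem_closure_pair.2 ⟨ε, j, hu.symm⟩
  have hxm : x ∈ AddSubgroup.closure ({U, x} : Set Z2) := AddSubgroup.subset_closure (by simp)
  have ul2 : 0 < cr u l := by
    rcases ul0.lt_or_eq with g | g
    · exact g
    · exfalso
      have e1 : cr l u = 0 := by rw [cr_swap' u l, ← g, neg_zero]
      rcases hC.2.2.farV hmem hu0 (by rw [e1, zero_mul]) with f | f
      · rw [e1, abs_zero] at f; linarith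
      · rw [abs_cr_comm m u, um, abs_abs] at f; exact lt_irrefl _ f
  have ul3 : cr u l + cr u m < cr U x := by
    have hz : u + x ∈ AddSubgroup.closure ({U, x} : Set Z2) := AddSubgroup.add_mem _ hmem hxm
    have e1 : cr l (u + x) = cr U x - cr u l := by
      rw [cr_addr, h1, cr_swap' u l]; ring
    have e2 : cr m (u + x) = -|cr l m| := by
      rw [cr_addr, h0, cr_swap' u m, um]; ring
    have hz0 : u + x ≠ 0 := by
      intro h3
      rw [h3, cr_zero'] at e1
      linarith
    rcases hC.2.2.farV hz hz0 (by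
      rw [e1, e2]
      have : 0 < (cr U x - cr u l) * |cr l m| := mul_pos (by linarith) hr
      linarith) with f | f
    · rw [e1, abs_of_pos (by linarith : (0 : ℤ) < cr U x - cr u l)] at f
      rw [um]; linarith
    · rw [e2, abs_neg, abs_abs] at f
      exact (lt_irrefl _ f).elim
  obtain ⟨x', y1, y2, y3⟩ := hC.recenter hcop hu
  have ht := y3.center ul2 (by rw [um]; exact hr) (by rw [y2]; exact ul3)
  have hp := ht.pos
  have hb : Blk6 (lat l (u + q)) u l q := ⟨hp.2.1, hp.2.2.2.1, rfl⟩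
  rcases hb.farey hp.2.2.1 with ⟨l1, q1, k1, k2, k3⟩ | ⟨l1, l2, q1, q2, k1, k2, k3, k4, k5, k6, k7,
    k8, k9, k10⟩
  · exfalso
    have ht1 : Has6 O (u, x' - l - m, l1, q1, m, s) :=
      ht.change k1.1 k1.2.1 k1.2.2 hp.2.2.1 hp.2.2.2.2 rfl
    have htr := (h.tree ht1 (by
      rw [← hN]
      simp only [vol6, volC]
      rw [← y2]
      simp only [cr, Prod.fst_sub, Prod.snd_sub] at k2 ⊢
      linarith)).2.2
    rcases htr with htr | htr
    · -- `l1 ∥ m` is impossible
      have k4 := k1.2.1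
      have f1 := cr_plucker u l l1 m
      rw [htr, mul_zero] at f1
      have f2 : |cr l l1| = cr u l1 := by
        have f3 : cr l l1 * |cr l m| = cr u l1 * cr l m := by
          rw [um] at f1
          linarith
        have f4 : |cr l l1| * |cr l m| = cr u l1 * |cr l m| := by
          have := congrArg abs f3
          rw [abs_mul, abs_mul, abs_abs, abs_of_pos k1.1] at this
          exact this
        exact mul_right_cancel₀ hr.ne' f4
      have hmem1 : l1 ∈ lat l (u + q) := by
        rw [← k1.2.2]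
        exact AddSubgroup.subset_closure (by simp)
      obtain ⟨i, n, hin⟩ := mem_lat_coords hmem1
      have f5 : cr l l1 = -(n * (cr u l + cr q l)) := by
        rw [hin]
        simp only [cr, Prod.fst_add, Prod.snd_add, Prod.smul_fst, Prod.smul_snd, smul_eq_mul]; ring
      have ha : 0 < cr u l + cr q l := by linarith [hp.2.2.2.1]
      rw [f5, abs_neg, abs_mul, abs_of_pos ha] at f2
      have f6 : |n| * (cr u l + cr q l) < 1 * (cr u l + cr q l) := by
        rw [f2]
        linarith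
      have f7 : |n| < 1 := lt_of_mul_lt_mul_right f6 ha.le
      have f8 : n = 0 := Int.abs_lt_one_iff.1 f7
      rw [f8, abs_zero, zero_mul] at f2
      have := k1.1
      linarith
    · rw [um, hrr] at k3
      exact absurd k3 (not_lt.2 htr)
  · have hy : l1 + l2 ∈ lat l (u + q) := by
      rw [← k3]
      exact AddSubgroup.mem_closure_pair.2 ⟨1, 1, by rw [one_smul, one_smul]⟩
    obtain ⟨i, n, hin⟩ := mem_lat_coords hy
    obtain ⟨y, hyy⟩ : ∃ y : Z2, y = l1 + l2 := ⟨_, rfl⟩
    rw [← hyy] at hin k8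
    have uy : cr u y = cr u l + cr q l := by rw [hyy, cr_addr]; exact k7
    -- `y × l`
    have e1 := cr_plucker u y l m
    rw [k8, mul_zero, zero_sub, um, uy] at e1
    have e2 : cr y l = n * (cr u l + cr q l) := by
      rw [hin]
      simp only [cr, Prod.fst_add, Prod.snd_add, Prod.smul_fst, Prod.smul_snd, smul_eq_mul]; ring
    have hn : n = -ε := by
      have ha : 0 < cr u l + cr q l := by linarith [hp.2.2.2.1]
      rw [e2] at e1
      have e3 : (cr u l + cr q l) * (n * |cr l m| + cr l m) = 0 := by linear_combination -e1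
      have e4 := (mul_eq_zero.1 e3).resolve_left ha.ne'
      have e5 : (n + ε) * |cr l m| = 0 := by
        have : cr l m = ε * |cr l m| := by
          rw [← hερ, ← mul_assoc, hεε, one_mul]
        linear_combination e4 - this
      have := (mul_eq_zero.1 e5).resolve_right hr.ne'
      linarith
    -- `y × x = 0`
    have e6 : cr y x = 0 := by
      have e : cr l m * cr y x = cr l x * cr y m + cr l y * cr m x := by
        simp only [cr]; ring
      rw [k8, h0, mul_zero, mul_zero, add_zero] at e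
      exact (mul_eq_zero.1 e).resolve_left hC.lm_ne
    have e7 : cr y x = i * cr l x + n * (cr u x + cr q x) := by
      rw [hin]
      simp only [cr, Prod.fst_add, Prod.snd_add, Prod.smul_fst, Prod.smul_snd, smul_eq_mul]; ring
    refine ⟨ε * (i - 1), ?_⟩
    rw [e6, hn, ux, ← h1] at e7
    have e8 : ε * (i * cr l x + -ε * (ε * cr l x + cr q x)) = 0 := by rw [← e7, mul_zero]
    have e9 : ε * (i * cr l x + -ε * (ε * cr l x + cr q x)) =
        ε * i * cr l x - ε * ε * (ε * cr l x + cr q x) := by ring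
    rw [e9, hεε] at e8
    linear_combination -e8

/-- `x` parallel to `m`: `l × x` divides `q × x` -/
theorem RC.dvdQ (h : RC O N r) (hC : OKC O (U, x, l, q, m, s))
    (hN : volC (U, x, l, q, m, s) = N) (hrr : |cr l m| = r) (h0 : cr m x = 0) (h1 : cr l x ≠ 0)
    (h2 : |cr l x| ≤ cr U x) : cr l x ∣ cr q x := by
  have key : ∀ {U x : Z2}, OKC O (U, x, l, q, m, s) → volC (U, x, l, q, m, s) = N →
      cr m x = 0 → 0 < cr l x → cr l x ≤ cr U x → cr l x ∣ cr q x := by
    intro U x hC hN h0 h1 h2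
    rcases h2.lt_or_eq with g | g
    · exact h.degA hC hN hrr h0 h1 g
    · exact h.degB hC hN hrr h0 g
  rcases lt_or_gt_of_ne h1 with g | g
  · rw [abs_of_neg g] at h2
    have := key hC.neg (by
      rw [← hN]
      simp only [volC, cr, Prod.fst_neg, Prod.snd_neg]
      ring) (by rw [cr_negr, h0, neg_zero]) (by rw [cr_negr]; linarith)
      (by rw [cr_negr, cr_negl, cr_negr, neg_neg]; exact h2)
    rw [cr_negr, cr_negr] at this
    exact dvd_neg.1 (neg_dvd.1 this)
  · rw [abs_of_pos g] at h2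
    exact key hC hN h0 g h2

theorem RC.dvdS (h : RC O N r) (hC : OKC O (U, x, l, q, m, s))
    (hN : volC (U, x, l, q, m, s) = N) (hrr : |cr l m| = r) (h0 : cr l x = 0) (h1 : cr m x ≠ 0)
    (h2 : |cr m x| ≤ cr U x) : cr m x ∣ cr s x := by
  have := h.dvdQ hC.rev (by
      rw [← hN]
      simp only [volC, cr, Prod.fst_neg, Prod.snd_neg]
      ring) (by rw [cr_negl, cr_negr, neg_neg, abs_cr_comm]; exact hrr)
    (by rw [cr_negl, h0, neg_zero]) (by rw [cr_negl]; exact neg_ne_zero.2 h1)
    (by rw [cr_negl, abs_neg]; exact h2)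
  rw [cr_negl, cr_negl] at this
  exact dvd_neg.1 (neg_dvd.1 this)

/-- THE MINIMAL CONFIGURATION IS RECTANGULAR, given the two axes -/
theorem RC.rect (h : RC O N r) (hC : OKC O (U, x, l, q, m, s))
    (hN : volC (U, x, l, q, m, s) = N) (hrr : |cr l m| = r) {i j i' j' : ℤ} (hij : IsCoprime i j)
    (a1 : cr (i • U + j • x) m = 0) (a2 : |cr l m| < cr (i • U + j • x) l)
    (a3 : cr (i • U + j • x) l ≤ cr U x) (hij' : IsCoprime i' j')
    (b1 : cr (i' • U + j' • x) l = 0) (b2 : |cr l m| < cr (i' • U + j' • x) m)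
    (b3 : cr (i' • U + j' • x) m ≤ cr U x) : ∃ q1 s1, Rect O U x l q1 m s1 ∧
      volC (U, x, l, q1, m, s1) = N := by
  have hr := hC.rpos
  have hW := hC.1
  obtain ⟨V, k1, k2⟩ := exists_basis (U := U) (x := x) i j hij
  obtain ⟨V', k1', k2'⟩ := exists_basis (U := U) (x := x) i' j' hij'
  obtain ⟨z, hz⟩ : ∃ z : Z2, z = i • U + j • x := ⟨_, rfl⟩
  obtain ⟨z', hz'⟩ : ∃ z' : Z2, z' = i' • U + j' • x := ⟨_, rfl⟩
  have zm : z ∈ AddSubgroup.closure ({U, x} : Set Z2) :=
    AddSubgroup.mem_closure_pair.2 ⟨i, j, hz.symm⟩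
  have zm' : z' ∈ AddSubgroup.closure ({U, x} : Set Z2) :=
    AddSubgroup.mem_closure_pair.2 ⟨i', j', hz'.symm⟩
  rw [← hz] at k1 k2 a1 a2 a3
  rw [← hz'] at k1' k2' b1 b2 b3
  have hzl : cr l z ≠ 0 := by
    intro h0
    rw [cr_swap' l z, h0, neg_zero] at a2
    linarith
  have hzm : cr m z' ≠ 0 := by
    intro h0
    rw [cr_swap' m z', h0, neg_zero] at b2
    linarith
  have d1 := h.dvdQ (hC.basis k1 (by rw [k2]; exact hW)) (by
      rw [← hN]
      simp only [volC]
      rw [k2]) hrr (by rw [cr_swap' z m, a1, neg_zero]) hzl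
    (by rw [k2, abs_cr_comm, abs_of_pos (by linarith)]; exact a3)
  have d2 := h.dvdS (hC.basis k1' (by rw [k2']; exact hW)) (by
      rw [← hN]
      simp only [volC]
      rw [k2']) hrr (by rw [cr_swap' z' l, b1, neg_zero]) hzm
    (by rw [k2', abs_cr_comm, abs_of_pos (by linarith)]; exact b3)
  obtain ⟨a, ha⟩ := d1
  obtain ⟨b, hb⟩ := d2
  refine ⟨q + (-a) • l, s + (-b) • m, ⟨hC.twist _ _, ?_, ?_, ?_, ?_⟩, ?_⟩
  · intro w hw hw0
    exact cols hW zm' b1 (by linarith) b3 hw hw0
  · intro w hw hw0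
    exact rows hW zm a1 (by linarith) a3 hw hw0
  · have e1 : cr (q + (-a) • l) z = 0 := by
      rw [cr_addl, ha]
      simp only [cr, Prod.smul_fst, Prod.smul_snd, smul_eq_mul]; ring
    have e2 : cr l z * cr (q + (-a) • l) m =
        cr l m * cr (q + (-a) • l) z - cr l (q + (-a) • l) * cr m z := by
      simp only [cr]; ring
    rw [e1, cr_swap' z m, a1] at e2
    simp only [mul_zero, neg_zero, sub_zero] at e2
    exact (mul_eq_zero.1 e2).resolve_left hzl
  · have e1 : cr (s + (-b) • m) z' = 0 := by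
      rw [cr_addl, hb]
      simp only [cr, Prod.smul_fst, Prod.smul_snd, smul_eq_mul]; ring
    have e2 : cr m z' * cr (s + (-b) • m) l =
        cr m l * cr (s + (-b) • m) z' - cr m (s + (-b) • m) * cr l z' := by
      simp only [cr]; ring
    rw [e1, cr_swap' z' l, b1] at e2
    simp only [mul_zero, neg_zero, sub_zero] at e2
    exact (mul_eq_zero.1 e2).resolve_left hzm
  · rw [← hN]
    simp only [volC, cr, Prod.fst_add, Prod.snd_add, Prod.smul_fst, Prod.smul_snd, smul_eq_mul]
    ring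

/-- EVERY minimal configuration is rectangular after a twist. -/
theorem RC.toRect (h : RC O N r) (hC : OKC O (U, x, l, q, m, s))
    (hN : volC (U, x, l, q, m, s) = N) (hrr : |cr l m| = r)
    (hB : Big (AddSubgroup.closure {U, x}) (cr U x) l m) :
    ∃ q1 s1, Rect O U x l q1 m s1 ∧ volC (U, x, l, q1, m, s1) = N := by
  obtain ⟨⟨i, j, hij, a1, a2, a3⟩, ⟨i', j', hij', b1, b2, b3⟩⟩ :=
    axesB hC.1 hC.lm_ne hC.2.2 hB (fun i j hij => h.noGood hC hN hrr hij)
  exact h.rect hC hN hrr hij a1 a2 a3 hij' b1 b2 b3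

/-- the normal form of the minimal configuration -/
theorem RC.norm (h : RC O N r) : ∃ U x l q m s, RNorm O U x l q m s ∧
    volC (U, x, l, q, m, s) = N ∧ cr l m = r := by
  obtain ⟨U, x, l, q, m, s, h1, h2, h3, h4⟩ := h.conf
  obtain ⟨q1, s1, k1, k2⟩ := h.toRect h1 h2 h3 h4
  rcases k1.pos_or h1.lm_ne with ⟨g1, g2⟩ | ⟨g1, g2⟩
  · obtain ⟨U', x', j1, j2⟩ := g1.norm g2
    refine ⟨U', x', l, q1, m, s1, j1, ?_, by rw [← h3, abs_of_pos g2]⟩
    rw [← k2]
    simp only [volC]
    rw [area_eq j2 h1.1 j1.okc.1]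
  · obtain ⟨U', x', j1, j2⟩ := g1.norm g2
    refine ⟨U', x', -m, -s1, -l, -q1, j1, ?_, ?_⟩
    · rw [← k2]
      simp only [volC]
      rw [area_eq j2 h1.1 j1.okc.1, cr_negl, cr_negr, cr_negl, cr_negr]
      ring
    · rw [← abs_of_pos g2, cr_negl, cr_negr, neg_neg, abs_cr_comm]; exact h3

end Pool.Agent.H4G.Six
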