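import Pool.Agent.H4G.Six.Config3
import Pool.Agent.H4G.Six.Mink

/-!
# Rectangular configurations (row A5, helper69)

`Rect O U x l q m s`: a configuration in which the vectors of the lattice `⟨U, x⟩` not parallel to
`l` (to `m`) have products at least `|l × m|` with `l` (with `m`), and `q ∥ m`, `s ∥ l`. All vectors
are then determined by their coordinates in the basis `l, m`.
-/

set_option autoImplicit false

namespace Pool.Agent.H4G.Six

open Pool.Agent.H4G

variable {X : Type}

/-- the products `z × l`, `z ∈ Λ`, are zero or at least `r` in absolute value -/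
def Spc (Λ : AddSubgroup Z2) (l : Z2) (r : ℤ) : Prop := ∀ z ∈ Λ, cr z l ≠ 0 → r ≤ |cr z l|

/-- A rectangular configuration. -/
structure Rect (O : PO X) (U x l q m s : Z2) : Prop where
  okc : OKC O (U, x, l, q, m, s)
  gl : Spc (AddSubgroup.closure {U, x}) l |cr l m|
  gm : Spc (AddSubgroup.closure {U, x}) m |cr l m|
  qm : cr q m = 0
  sl : cr s l = 0

section

variable {O : PO X} {U x l q m s U' x' u l1 m1 z : Z2}

/-! ## Changes of the presentation -/

theorem Rect.basis (h : Rect O U x l q m s)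
    (h1 : AddSubgroup.closure ({U', x'} : Set Z2) = AddSubgroup.closure {U, x})
    (h2 : 0 < cr U' x') : Rect O U' x' l q m s :=
  ⟨h.okc.basis h1 h2, by rw [h1]; exact h.gl, by rw [h1]; exact h.gm, h.qm, h.sl⟩

theorem Rect.neg (h : Rect O U x l q m s) : Rect O (-U) (-x) l q m s := by
  refine h.basis ?_ ?_
  · rw [clo_neg_left, clo_neg_right]
  · rw [cr_negl, cr_negr, neg_neg]; exact h.okc.1

theorem Spc.neg {Λ : AddSubgroup Z2} {r : ℤ} (h : Spc Λ l r) : Spc Λ (-l) r := by
  intro z hz h0
  rw [cr_negr] at h0 ⊢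
  rw [abs_neg]
  exact h z hz (by intro h'; exact h0 (by rw [h', neg_zero]))

theorem Rect.rev (h : Rect O U x l q m s) : Rect O U x (-m) (-s) (-l) (-q) := by
  have e : |cr (-m) (-l)| = |cr l m| := by
    rw [cr_negl, cr_negr, neg_neg, cr_swap', abs_neg]
  refine ⟨h.okc.rev, ?_, ?_, ?_, ?_⟩
  · rw [e]; exact h.gm.neg
  · rw [e]; exact h.gl.neg
  · rw [cr_negl, cr_negr, neg_neg]; exact h.sl
  · rw [cr_negl, cr_negr, neg_neg]; exact h.qm

/-- the sign of `l × m` may be chosen -/
theorem Rect.pos_or (h : Rect O U x l q m s) (h0 : cr l m ≠ 0) :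
    (Rect O U x l q m s ∧ 0 < cr l m) ∨
      (Rect O U x (-m) (-s) (-l) (-q) ∧ 0 < cr (-m) (-l)) := by
  rcases lt_or_gt_of_ne h0 with h1 | h1
  · right
    refine ⟨h.rev, ?_⟩
    rw [cr_negl, cr_negr, neg_neg, cr_swap']
    linarith
  · exact Or.inl ⟨h, h1⟩

/-- `l × m ≠ 0` -/
theorem OKC.lm_ne (h : OKC O (U, x, l, q, m, s)) : cr l m ≠ 0 := by
  refine h.2.2.ne ⟨x, AddSubgroup.subset_closure (by simp), ?_⟩
  rintro rfl
  have := h.1
  simp [cr] at this

/-! ## Coordinates -/

/-- the coordinates in the basis `l, m` -/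
theorem lm_coord (l m w : Z2) : cr l m • w = cr w m • l + cr l w • m := by
  ext
  · simp only [cr, Prod.smul_fst, Prod.fst_add, smul_eq_mul]; ring
  · simp only [cr, Prod.smul_snd, Prod.snd_add, smul_eq_mul]; ring

/-- products in coordinates -/
theorem lm_cross (l m w z : Z2) : cr l m * cr w z = cr w m * cr l z - cr l w * cr z m := by
  simp only [cr]; ring

theorem Rect.q_cross (h : Rect O U x l q m s) (z : Z2) :
    cr l m * cr q z = cr q l * cr z m := by
  have h1 := lm_cross l m q z
  rw [h.qm] at h1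
  rw [h1, cr_swap' q l]
  ring

theorem Rect.s_cross (h : Rect O U x l q m s) (z : Z2) :
    cr l m * cr s z = cr s m * cr l z := by
  have h1 := lm_cross l m s z
  have h2 : cr l s = 0 := by rw [cr_swap', h.sl, neg_zero]
  rw [h2] at h1
  rw [h1]
  ring

theorem Rect.qs (h : Rect O U x l q m s) : cr l m * cr q s = cr q l * cr s m := h.q_cross s

/-! ## Slits at a centre -/

/-- the product of `u` with a vector of `⟨l, u + q⟩` -/
theorem cr_slitL (u l q : Z2) (a b : ℤ) :
    cr u (a • l + b • (u + q)) = a * cr u l - b * cr q u := by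
  simp only [cr, Prod.fst_add, Prod.snd_add, Prod.smul_fst, Prod.smul_snd, smul_eq_mul]; ring

theorem cr_slitM (u m s : Z2) (c d : ℤ) :
    cr u (c • m + d • (u + s)) = c * cr u m + d * cr u s := by
  simp only [cr, Prod.fst_add, Prod.snd_add, Prod.smul_fst, Prod.smul_snd, smul_eq_mul]; ring

/-- THE PRODUCT OF TWO SLITS at a centre of a rectangular configuration -/
theorem Rect.slits (h : Rect O U x l q m s) (u : Z2) (a b c d : ℤ) :
    cr (a • l + b • (u + q)) (c • m + d • (u + s)) =
      a * c * cr l m - a * d * cr u l + b * c * cr u m +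
        b * d * (cr u s + cr q u + cr q s) := by
  have h1 := h.qm
  have h2 := h.sl
  simp only [cr, Prod.fst_add, Prod.snd_add, Prod.smul_fst, Prod.smul_snd, smul_eq_mul] at h1 h2 ⊢
  linear_combination b * c * h1 - a * d * h2

/-! ## The normal form -/

/-- the spacing of the products with a basis -/
theorem Spc.of_gcd {r : ℤ} (h : r ≤ Int.gcd (cr U l) (cr x l)) :
    Spc (AddSubgroup.closure {U, x}) l r := by
  intro z hz h0
  obtain ⟨i, j, rfl⟩ := AddSubgroup.mem_closure_pair.1 hz
  rw [cr_zz_left] at h0 ⊢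
  have h1 : ((Int.gcd (cr U l) (cr x l) : ℕ) : ℤ) ∣ i * cr U l + j * cr x l :=
    dvd_add (Dvd.dvd.mul_left (Int.gcd_dvd_left ..) _) (Dvd.dvd.mul_left (Int.gcd_dvd_right ..) _)
  exact h.trans (Int.le_of_dvd (abs_pos.2 h0) ((dvd_abs _ _).2 h1))

theorem Spc.gcd_le {r : ℤ} (h : Spc (AddSubgroup.closure {U, x}) l r)
    (h0 : cr U l ≠ 0 ∨ cr x l ≠ 0) : r ≤ Int.gcd (cr U l) (cr x l) := by
  have hg : 0 < Int.gcd (cr U l) (cr x l) := by
    rcases Nat.eq_zero_or_pos (Int.gcd (cr U l) (cr x l)) with h1 | h1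
    · rw [Int.gcd_eq_zero_iff] at h1
      rcases h0 with h0 | h0
      · exact absurd h1.1 h0
      · exact absurd h1.2 h0
    · exact h1
  have hb := Int.gcd_eq_gcd_ab (cr U l) (cr x l)
  set i := Int.gcdA (cr U l) (cr x l)
  set j := Int.gcdB (cr U l) (cr x l)
  have e : cr (i • U + j • x) l = Int.gcd (cr U l) (cr x l) := by
    rw [cr_zz_left, hb]; ring
  have h2 := h (i • U + j • x) (AddSubgroup.mem_closure_pair.2 ⟨i, j, rfl⟩)
    (by rw [e]; exact_mod_cast hg.ne')
  rw [e, abs_of_nonneg (by positivity)] at h2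
  exact h2

/-- `U ∥ l`: the parameters of a rectangular configuration, `r = l × m`, `X₀ = U × m`,
`τ = x × m`, `η = l × x`. -/
structure RNorm (O : PO X) (U x l q m s : Z2) : Prop extends Rect O U x l q m s where
  pos : 0 < cr l m
  Ul : cr U l = 0
  X0 : cr l m < cr U m
  eta : cr l m ≤ cr l x
  tau : cr l m ≤ Int.gcd (cr U m) (cr x m)

theorem Rect.norm (h : Rect O U x l q m s) (hpos : 0 < cr l m) :
    ∃ U' x', RNorm O U' x' l q m s ∧
      AddSubgroup.closure ({U', x'} : Set Z2) = AddSubgroup.closure {U, x} := by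
  obtain ⟨i, j, hij, h0⟩ := exists_prim_zero (cr U l) (cr x l)
  have key : ∀ i j : ℤ, IsCoprime i j → i * cr U l + j * cr x l = 0 →
      0 < cr (i • U + j • x) m → ∃ U' x', RNorm O U' x' l q m s ∧
      AddSubgroup.closure ({U', x'} : Set Z2) = AddSubgroup.closure {U, x} := by
    intro i j hij h0 hm
    obtain ⟨x', h1, h2, h3⟩ := h.okc.recenter hij rfl
    set U' := i • U + j • x with hU'
    have hR := h.basis h1 h3.1
    have hl : cr U' l = 0 := by rw [hU', cr_zz_left]; exact h0
    have hpl := cr_plucker U' x' l m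
    rw [hl] at hpl
    have hw : 0 < cr l x' := by
      have h4 : 0 < cr U' x' * cr l m := mul_pos h3.1 hpos
      rw [← hpl, zero_mul, zero_sub, cr_swap' l x'] at h4
      have h5 : 0 < cr l x' * cr U' m := by linarith
      exact (pos_iff_pos_of_mul_pos h5).2 hm
    refine ⟨U', x', ⟨hR, hpos, hl, ?_, ?_, ?_⟩, h1⟩
    · by_contra hc
      push Not at hc
      apply hR.okc.2.2 U' (AddSubgroup.subset_closure (by simp))
      · intro h6
        rw [h6] at hm
        simp [cr] at hm
      · have e : cr l U' = 0 := by rw [cr_swap', hl, neg_zero]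
        rw [e]
        refine ⟨by positivity, by nlinarith, by simp, by rw [zero_mul]; positivity⟩
    · have h6 := hR.gl x' (AddSubgroup.subset_closure (by simp)) (by
        rw [cr_swap']; exact (neg_neg_of_pos hw).ne)
      rw [abs_of_pos hpos, cr_swap' l x', abs_neg, abs_of_pos hw] at h6
      exact h6
    · have h6 := hR.gm.gcd_le (Or.inl hm.ne')
      rw [abs_of_pos hpos] at h6
      exact h6
  have hne : cr (i • U + j • x) m ≠ 0 := by
    intro hc
    have hz : i • U + j • x = 0 := by
      refine cr_ne_of (a := l) (b := m) hpos.ne' ?_ hc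
      rw [cr_swap', cr_zz_left, h0, neg_zero]
    have h1 : cr U (i • U + j • x) = 0 := by rw [hz]; simp [cr]
    have h2 : cr (i • U + j • x) x = 0 := by rw [hz]; simp [cr]
    have hW := h.okc.1
    have h3 : j * cr U x = 0 := by
      rw [← h1, cr_zz_right]
      simp only [cr]; ring
    have h4 : i * cr U x = 0 := by
      rw [← h2, cr_zz_left]
      simp only [cr]; ring
    have hj : j = 0 := by
      rcases mul_eq_zero.1 h3 with h | h
      · exact h
      · exact absurd h hW.ne'
    have hi : i = 0 := by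
      rcases mul_eq_zero.1 h4 with h | h
      · exact h
      · exact absurd h hW.ne'
    rw [hi, hj] at hij
    obtain ⟨a, b, hab⟩ := hij
    simp at hab
  rcases lt_or_gt_of_ne hne with hc | hc
  · refine key (-i) (-j) (IsCoprime.neg_neg hij) (by linarith) ?_
    rw [neg_smul, neg_smul, ← neg_add, cr_negl]
    linarith
  · exact key i j hij h0 hc

namespace RNorm

/-- `W r = X₀ η` -/
theorem area (h : RNorm O U x l q m s) : cr U x * cr l m = cr U m * cr l x := by
  have := cr_plucker U x l m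
  rw [h.Ul, cr_swap' l x] at this
  rw [← this]
  ring

/-- `X₀ ≤ W` -/
theorem X0_le (h : RNorm O U x l q m s) : cr U m ≤ cr U x := by
  have h1 := h.area
  have h2 := h.pos
  have h3 := h.X0
  have h4 := h.eta
  by_contra hc
  push Not at hc
  nlinarith

/-- the products of a vector `i U + j x` -/
theorem cr_l (h : RNorm O U x l q m s) (i j : ℤ) : cr (i • U + j • x) l = -(j * cr l x) := by
  rw [cr_zz_left, h.Ul, cr_swap' l x]
  ring

end RNorm

/-- A SMALLER PAIR at a centre of a configuration. -/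
theorem OKC.smaller (h : OKC O (U, x, l, q, m, s)) {i j : ℤ} (hij : IsCoprime i j)
    (hu : u = i • U + j • x) (h1 : 0 < cr u l) (h2 : 0 < cr u m)
    (h3 : cr u l + cr u m < cr U x) {a b c d : ℤ} (hab : IsCoprime a b)
    (hl : l1 = a • l + b • (u + q)) (hl1 : 0 < cr u l1) (hl2 : cr u l1 < cr u l + cr q l)
    (hcd : IsCoprime c d) (hm : m1 = c • m + d • (u + s)) (hm1 : 0 < cr u m1)
    (hm2 : cr u m1 < cr u m + cr s m) :
    ∃ v q1 s1, Has6 O (u, v, l1, q1, m1, s1) := by
  obtain ⟨x', k1, k2, k3⟩ := h.recenter hij hu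
  obtain ⟨q1, s1, _, _, _, _, k4, _⟩ := k3.change' h1 h2 (by rw [k2]; exact h3) hab hl hl1 hl2
    hcd hm hm1 hm2
  exact ⟨_, q1, s1, k4⟩

end

end Pool.Agent.H4G.Six
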