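import Mathlib

/-!
# The Perron bound for rectangular configurations, arithmetic part (row A12, helper69)

A rectangular configuration with both multitwists rigid has the four relations `P, Q, t₁, t₂`
below. The product `x = α β` of the two long circumferences is then (after multiplication by
`e e'`) a rational root of a monic integral cubic, and all normalised parameters have denominators
bounded by a power of the normalised size `T`. As the lattice of all periods has index `ρ`, this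
bounds `ρ`.
-/

set_option autoImplicit false

namespace Pool.Agent.H4G.Six

/-- a rational root of a monic integral cubic is an integer -/
theorem rat_root3 {X : ℚ} {a b c : ℤ} (h : X ^ 3 + a * X ^ 2 + b * X + c = 0) :
    ∃ n : ℤ, (n : ℚ) = X := by
  have hi : IsIntegral ℤ X := by
    refine ⟨Polynomial.X ^ 3 + (Polynomial.C a * Polynomial.X ^ 2 +
      (Polynomial.C b * Polynomial.X + Polynomial.C c)), ?_, ?_⟩
    · refine Polynomial.monic_X_pow_add (n := 3) ?_
      refine lt_of_le_of_lt (Polynomial.degree_add_le _ _) ?_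
      refine max_lt ?_ (lt_of_le_of_lt (Polynomial.degree_add_le _ _) (max_lt ?_ ?_))
      · exact lt_of_le_of_lt (Polynomial.degree_C_mul_X_pow_le 2 a) (by norm_num)
      · have := Polynomial.degree_C_mul_X_le b
        exact lt_of_le_of_lt this (by norm_num)
      · exact lt_of_le_of_lt Polynomial.degree_C_le (by norm_num)
    · have hc : ∀ n : ℤ, algebraMap ℤ ℚ n = n := fun n => by simp
      rw [Polynomial.eval₂_add, Polynomial.eval₂_add, Polynomial.eval₂_add, Polynomial.eval₂_mul,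
        Polynomial.eval₂_mul, Polynomial.eval₂_pow, Polynomial.eval₂_pow, Polynomial.eval₂_X,
        Polynomial.eval₂_C, Polynomial.eval₂_C, Polynomial.eval₂_C, hc, hc, hc]
      linarith
  obtain ⟨n, hn⟩ := IsIntegrallyClosed.isIntegral_iff.1 hi
  exact ⟨n, by simpa using hn⟩

/-- The data over `ℚ`: `z = ζ`, `y = η`, `α`, `β` the long circumferences. -/
structure RQ (k e e' P Q t1 t2 : ℤ) (z y α β : ℚ) : Prop where
  hk : 0 < k
  he : 0 < e
  he' : 0 < e'
  z0 : 0 < z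
  y0 : 0 < y
  α0 : 0 < α
  β0 : 0 < β
  hP : (β - k * y) * α = P
  hQ : (α - k * z) * β = Q
  ht1 : e * α * (y - 1) = t1 * z
  ht2 : e' * β * (z - 1) = t2 * y

section

variable {k e e' P Q t1 t2 : ℤ} {z y α β : ℚ}

theorem RQ.swap (h : RQ k e e' P Q t1 t2 z y α β) : RQ k e' e Q P t2 t1 y z β α :=
  ⟨h.hk, h.he', h.he, h.y0, h.z0, h.β0, h.α0, h.hQ, h.hP, h.ht2, h.ht1⟩

theorem RQ.cubic (h : RQ k e e' P Q t1 t2 z y α β) :
    ∃ X : ℤ, (X : ℚ) = e * e' * (α * β) := by
  have hz := h.z0.ne'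
  have hy := h.y0.ne'
  set E : ℚ := e * e' with hE
  set x : ℚ := α * β with hx
  have e1 : E * x - P * E = E * (k * α * y) := by rw [← h.hP, hx]; ring
  have e2 : E * x - Q * E = E * (k * β * z) := by rw [← h.hQ, hx]; ring
  have e3 : (E * x - Q * E) * (E * x - t1 * t2) - k * t2 * e * (E * x) = k * E ^ 2 * β * x := by
    rw [e2]
    have h1 : (t1 : ℚ) = e * α * (y - 1) / z := by rw [h.ht1]; field_simp
    have h2 : (t2 : ℚ) = e' * β * (z - 1) / y := by rw [h.ht2]; field_simp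
    rw [h1, h2, hE, hx]
    field_simp
    ring
  have e4 : k ^ 2 * E * (E * x) + k * t1 * e' * (E * x - Q * E) = k ^ 2 * E ^ 2 * x * y := by
    rw [e2]
    have h1 : (t1 : ℚ) = e * α * (y - 1) / z := by rw [h.ht1]; field_simp
    rw [h1, hE, hx]
    field_simp
    ring
  have key : (E * x - P * E) * ((E * x - Q * E) * (E * x - t1 * t2) - k * t2 * e * (E * x)) -
      (E * x) * (k ^ 2 * E * (E * x) + k * t1 * e' * (E * x - Q * E)) = 0 := by
    rw [e3, e4, e1, hx]
    ring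
  obtain ⟨n, hn⟩ := rat_root3 (X := E * x)
    (a := -(P * (e * e')) - Q * (e * e') - t1 * t2 - k * t2 * e - k ^ 2 * (e * e') -
      k * t1 * e')
    (b := P * Q * (e * e') ^ 2 + (P * (e * e') + Q * (e * e')) * (t1 * t2) +
      P * (e * e') * (k * t2 * e) + k * t1 * e' * (Q * (e * e')))
    (c := -(P * Q * (e * e') ^ 2 * (t1 * t2))) (by
      rw [← key, hE]
      push_cast
      ring)
  exact ⟨n, hn⟩

/-- THE DENOMINATOR of `z` and `α` -/
theorem RQ.denom (h : RQ k e e' P Q t1 t2 z y α β) :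
    ∃ Δ A B : ℤ, (Δ : ℚ) = (e * e') ^ 2 * k ^ 2 * e * (α * β) * y ∧ (Δ : ℚ) * z = A ∧
      (Δ : ℚ) * α = B := by
  obtain ⟨X, hX⟩ := h.cubic
  have hz := h.z0.ne'
  have hy := h.y0.ne'
  have e1 : (X : ℚ) - P * (e * e') = e * e' * (k * α * y) := by rw [hX, ← h.hP]; ring
  have e2 : (X : ℚ) - Q * (e * e') = e * e' * (k * β * z) := by rw [hX, ← h.hQ]; ring
  refine ⟨(e * e') * (k ^ 2 * e * X + k * t1 * (X - Q * (e * e'))),
    e * ((X - P * (e * e')) * (X - Q * (e * e'))), k * e * (X * (X - P * (e * e'))), ?_, ?_, ?_⟩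
  · push_cast
    rw [e2, hX]
    have h1 : (t1 : ℚ) = e * α * (y - 1) / z := by rw [h.ht1]; field_simp
    rw [h1]
    field_simp
    ring
  · push_cast
    rw [e1, e2, hX]
    have h1 : (t1 : ℚ) = e * α * (y - 1) / z := by rw [h.ht1]; field_simp
    rw [h1]
    field_simp
    ring
  · push_cast
    rw [e1, e2, hX]
    have h1 : (t1 : ℚ) = e * α * (y - 1) / z := by rw [h.ht1]; field_simp
    rw [h1]
    field_simp
    ring

end

/-- THE FOUR RELATIONS of a rectangular configuration, in integers: `r = ρ`, the columns are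
spaced by `Z`, the rows by `H`, there are `k` classes, the handles have areas `D₁, D₂`. -/
structure RRel (r k Z H D1 D2 : ℤ) : Prop where
  r0 : 0 < r
  k0 : 0 < k
  hZ : r ≤ Z
  hH : r ≤ H
  d1 : 0 < D1
  d2 : 0 < D2
  hP : r ^ 2 ∣ D1 * (k * Z + D2)
  hQ : r ^ 2 ∣ D2 * (k * H + D1)
  hG : ∃ G s : ℤ, r ≤ G ∧ G ∣ Z ∧ G ∣ s ∧ (k * Z + D2) * (H - r) = r * s
  hG' : ∃ G s : ℤ, r ≤ G ∧ G ∣ H ∧ G ∣ s ∧ (k * H + D1) * (Z - r) = r * s

theorem RRel.swap {r k Z H D1 D2 : ℤ} (h : RRel r k Z H D1 D2) : RRel r k H Z D2 D1 :=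
  ⟨h.r0, h.k0, h.hH, h.hZ, h.d2, h.d1, h.hQ, h.hP, h.hG', h.hG⟩

/-- one half of the Perron bound -/
theorem RRel.half {r k Z H D1 D2 T : ℤ} (h : RRel r k Z H D1 D2)
    (hW : k * Z * H ≤ T * r ^ 2) (h1 : D1 ≤ T * r) (h2 : D2 ≤ T * r) :
    ∃ Δ : ℤ, 0 < Δ ∧ Δ ≤ 4 * T ^ 9 ∧ r ∣ Δ * Z ∧ r ∣ Δ * D2 := by
  obtain ⟨r0, k0, hZ, hH, d1, d2, ⟨P, hP⟩, ⟨Q, hQ⟩, ⟨G, s, g1, ⟨e, g2⟩, ⟨t1, g3⟩, g4⟩,
    ⟨G', s', g1', ⟨e', g2'⟩, ⟨t2, g3'⟩, g4'⟩⟩ := h
  have G0 : 0 < G := by linarith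
  have G0' : 0 < G' := by linarith
  have e0 : 0 < e := by
    have : 0 < G * e := by rw [← g2]; linarith
    exact (pos_iff_pos_of_mul_pos this).1 G0
  have e0' : 0 < e' := by
    have : 0 < G' * e' := by rw [← g2']; linarith
    exact (pos_iff_pos_of_mul_pos this).1 G0'
  have rq : (0 : ℚ) < r := by exact_mod_cast r0
  have rne : (r : ℚ) ≠ 0 := rq.ne'
  have Gq : (0 : ℚ) < G := by exact_mod_cast G0
  have Gq' : (0 : ℚ) < G' := by exact_mod_cast G0'
  have Zq : (0 : ℚ) < Z := by exact_mod_cast (by linarith : 0 < Z)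
  have Hq : (0 : ℚ) < H := by exact_mod_cast (by linarith : 0 < H)
  have D1q : (0 : ℚ) < D1 := by exact_mod_cast d1
  have D2q : (0 : ℚ) < D2 := by exact_mod_cast d2
  have kq : (0 : ℚ) < k := by exact_mod_cast k0
  have eq : (0 : ℚ) < e := by exact_mod_cast e0
  have eq' : (0 : ℚ) < e' := by exact_mod_cast e0'
  have hPq : (D1 : ℚ) * (k * Z + D2) = r ^ 2 * P := by exact_mod_cast hP
  have hQq : (D2 : ℚ) * (k * H + D1) = r ^ 2 * Q := by exact_mod_cast hQ
  have g2q : (Z : ℚ) = G * e := by exact_mod_cast g2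
  have g2q' : (H : ℚ) = G' * e' := by exact_mod_cast g2'
  have g3q : (s : ℚ) = G * t1 := by exact_mod_cast g3
  have g3q' : (s' : ℚ) = G' * t2 := by exact_mod_cast g3'
  have g4q : ((k : ℚ) * Z + D2) * (H - r) = r * s := by exact_mod_cast g4
  have g4q' : ((k : ℚ) * H + D1) * (Z - r) = r * s' := by exact_mod_cast g4'
  set z : ℚ := Z / r with hz
  set y : ℚ := H / r with hy
  set l : ℚ := D1 / r with hl
  set m : ℚ := D2 / r with hm
  have Ze : (Z : ℚ) = z * r := by rw [hz]; field_simp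
  have He : (H : ℚ) = y * r := by rw [hy]; field_simp
  have D1e : (D1 : ℚ) = l * r := by rw [hl]; field_simp
  have D2e : (D2 : ℚ) = m * r := by rw [hm]; field_simp
  have z0 : 0 < z := by rw [hz]; positivity
  have y0 : 0 < y := by rw [hy]; positivity
  have l0 : 0 < l := by rw [hl]; positivity
  have m0 : 0 < m := by rw [hm]; positivity
  have hR : RQ k e e' P Q t1 t2 z y (k * z + m) (k * y + l) := by
    refine ⟨k0, e0, e0', z0, y0, by positivity, by positivity, ?_, ?_, ?_, ?_⟩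
    · have : (r : ℚ) ^ 2 * ((k * y + l - k * y) * (k * z + m)) = r ^ 2 * P := by
        rw [← hPq, Ze, D1e, D2e]; ring
      exact mul_left_cancel₀ (pow_ne_zero 2 rne) this
    · have : (r : ℚ) ^ 2 * ((k * z + m - k * z) * (k * y + l)) = r ^ 2 * Q := by
        rw [← hQq, He, D1e, D2e]; ring
      exact mul_left_cancel₀ (pow_ne_zero 2 rne) this
    · have h3 : (r : ℚ) ^ 2 * (e * (k * z + m) * (y - 1)) = r ^ 2 * (t1 * z) := by
        have : (r : ℚ) ^ 2 * (e * (k * z + m) * (y - 1)) =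
            e * ((k * (z * r) + m * r) * (y * r - r)) := by ring
        rw [this, ← Ze, ← He, ← D2e, g4q, g3q]
        have : (r : ℚ) ^ 2 * (t1 * z) = r * (t1 * (z * r)) := by ring
        rw [this, ← Ze, g2q]
        ring
      exact mul_left_cancel₀ (pow_ne_zero 2 rne) h3
    · have h3 : (r : ℚ) ^ 2 * (e' * (k * y + l) * (z - 1)) = r ^ 2 * (t2 * y) := by
        have : (r : ℚ) ^ 2 * (e' * (k * y + l) * (z - 1)) =
            e' * ((k * (y * r) + l * r) * (z * r - r)) := by ring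
        rw [this, ← He, ← Ze, ← D1e, g4q', g3q']
        have : (r : ℚ) ^ 2 * (t2 * y) = r * (t2 * (y * r)) := by ring
        rw [this, ← He, g2q']
        ring
      exact mul_left_cancel₀ (pow_ne_zero 2 rne) h3
  obtain ⟨Δ, A, B, hΔ, hA, hB⟩ := hR.denom
  have hΔ0 : (0 : ℚ) < Δ := by rw [hΔ]; positivity
  have hT : (0 : ℚ) < T := by
    have : (0 : ℚ) < T * r := lt_of_lt_of_le D1q (by exact_mod_cast h1)
    exact (pos_iff_pos_of_mul_pos this).2 rq
  have T1 : (1 : ℚ) ≤ T := by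
    have : 0 < T := by exact_mod_cast hT
    exact_mod_cast this
  -- the sizes
  have z1 : 1 ≤ z := by rw [hz, le_div_iff₀ rq, one_mul]; exact_mod_cast hZ
  have y1 : 1 ≤ y := by rw [hy, le_div_iff₀ rq, one_mul]; exact_mod_cast hH
  have k1 : (1 : ℚ) ≤ k := by exact_mod_cast k0
  have kzy : k * z * y ≤ T := by
    have h3 : (k : ℚ) * Z * H ≤ T * r ^ 2 := by exact_mod_cast hW
    rw [Ze, He] at h3
    have h4 : r ^ 2 * (k * z * y) ≤ r ^ 2 * T := by nlinarith
    exact le_of_mul_le_mul_left h4 (by positivity)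
  have lT : l ≤ T := by rw [hl, div_le_iff₀ rq]; exact_mod_cast h1
  have mT : m ≤ T := by rw [hm, div_le_iff₀ rq]; exact_mod_cast h2
  have kz : k * z ≤ T := le_trans (by nlinarith [mul_pos kq z0]) kzy
  have ky : k * y ≤ T := by
    refine le_trans ?_ kzy
    have : k * z * y = z * (k * y) := by ring
    rw [this]
    nlinarith [mul_pos kq y0]
  have ez : (e : ℚ) ≤ z := by
    have h3 : (r : ℚ) * e ≤ z * r := by
      rw [← Ze, g2q]
      exact mul_le_mul_of_nonneg_right (by exact_mod_cast g1) eq.le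
    nlinarith
  have ey : (e' : ℚ) ≤ y := by
    have h3 : (r : ℚ) * e' ≤ y * r := by
      rw [← He, g2q']
      exact mul_le_mul_of_nonneg_right (by exact_mod_cast g1') eq'.le
    nlinarith
  have zT : z ≤ T := le_trans (by nlinarith) kz
  have yT : y ≤ T := le_trans (by nlinarith) ky
  have eT : (e : ℚ) ≤ T := ez.trans zT
  have eT' : (e' : ℚ) ≤ T := ey.trans yT
  have kT : (k : ℚ) ≤ T := le_trans (by nlinarith) kz
  have ke : (k : ℚ) * e ≤ T := le_trans (mul_le_mul_of_nonneg_left ez kq.le) kz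
  have hα : k * z + m ≤ 2 * T := by linarith
  have hβ : k * y + l ≤ 2 * T := by linarith
  have hαβ : (k * z + m) * (k * y + l) ≤ 4 * T ^ 2 := by
    calc (k * z + m) * (k * y + l) ≤ (2 * T) * (2 * T) :=
          mul_le_mul hα hβ (by positivity) (by positivity)
      _ = 4 * T ^ 2 := by ring
  refine ⟨Δ, by exact_mod_cast hΔ0, ?_, ?_, ?_⟩
  · have : (Δ : ℚ) ≤ 4 * T ^ 9 := by
      rw [hΔ]
      have b1 : ((e : ℚ) * e') ^ 2 ≤ (T * T) ^ 2 := by
        apply pow_le_pow_left₀ (by positivity)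
        exact mul_le_mul eT eT' eq'.le hT.le
      have b2 : (k : ℚ) ^ 2 * e ≤ T * T := by
        have : (k : ℚ) ^ 2 * e = k * (k * e) := by ring
        rw [this]
        exact mul_le_mul kT ke (by positivity) hT.le
      have b3 : ((e : ℚ) * e') ^ 2 * (k ^ 2 * e) ≤ (T * T) ^ 2 * (T * T) :=
        mul_le_mul b1 b2 (by positivity) (by positivity)
      have b4 : ((k : ℚ) * z + m) * (k * y + l) * y ≤ 4 * T ^ 2 * T :=
        mul_le_mul hαβ yT y0.le (by positivity)
      calc ((e : ℚ) * (e' : ℚ)) ^ 2 * (k : ℚ) ^ 2 * (e : ℚ) *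
            (((k : ℚ) * z + m) * ((k : ℚ) * y + l)) * y
          = (((e : ℚ) * (e' : ℚ)) ^ 2 * ((k : ℚ) ^ 2 * (e : ℚ))) *
            (((k : ℚ) * z + m) * ((k : ℚ) * y + l) * y) := by ring
        _ ≤ (((T : ℚ) * T) ^ 2 * ((T : ℚ) * T)) * (4 * (T : ℚ) ^ 2 * T) :=
          mul_le_mul b3 b4 (by positivity) (by positivity)
        _ = 4 * (T : ℚ) ^ 9 := by ring
    exact_mod_cast this
  · refine ⟨A, ?_⟩
    have h5 : (Δ : ℚ) * Z = r * A := by
      calc (Δ : ℚ) * Z = Δ * (z * r) := by rw [Ze]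
        _ = r * (Δ * z) := by ring
        _ = (r : ℚ) * A := by rw [hA]
    exact_mod_cast h5
  · refine ⟨B - k * A, ?_⟩
    have h5 : (Δ : ℚ) * D2 = r * (B - k * A) := by
      calc (Δ : ℚ) * D2 = Δ * (m * r) := by rw [D2e]
        _ = r * (Δ * (k * z + m) - k * (Δ * z)) := by ring
        _ = (r : ℚ) * (B - k * A) := by rw [hA, hB]
    exact_mod_cast h5

/-- **THE PERRON BOUND**: the relations, with the index of the lattice of periods, bound `r` by a
power of the normalised size. -/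
theorem RRel.perron {r k Z H D1 D2 T : ℤ} (h : RRel r k Z H D1 D2)
    (hW : k * Z * H ≤ T * r ^ 2) (h1 : D1 ≤ T * r) (h2 : D2 ≤ T * r)
    (hidx : ∀ a b : ℤ, 0 < a → 0 < b → a ∣ r → a ∣ D2 → a ∣ Z → b ∣ r → b ∣ D1 → b ∣ H →
      a * b ≤ r) : r ≤ 16 * T ^ 18 := by
  obtain ⟨Δ, a0, a1, a2, a3⟩ := h.half hW h1 h2
  have hW' : k * H * Z ≤ T * r ^ 2 := by
    have : k * H * Z = k * Z * H := by ring
    rw [this]
    exact hW
  obtain ⟨Δ', b0, b1, b2, b3⟩ := h.swap.half hW' h2 h1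
  have r0 := h.r0
  have key : ∀ {Δ u v : ℤ}, 0 < Δ → r ∣ Δ * u → r ∣ Δ * v →
      r ≤ Δ * Int.gcd r (Int.gcd u v) := by
    intro Δ u v hΔ hu hv
    have hd : r ∣ Δ * (Int.gcd r (Int.gcd u v) : ℤ) := by
      have e1 : Δ * (Int.gcd r (Int.gcd u v) : ℤ) = Int.gcd (Δ * r) (Δ * Int.gcd u v) := by
        rw [Int.gcd_mul_left]
        push_cast
        rw [abs_of_pos hΔ]
      have e2 : Δ * (Int.gcd u v : ℤ) = Int.gcd (Δ * u) (Δ * v) := by
        rw [Int.gcd_mul_left]
        push_cast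
        rw [abs_of_pos hΔ]
      rw [e1]
      apply Int.dvd_coe_gcd (Dvd.intro_left _ rfl)
      rw [e2]
      exact Int.dvd_coe_gcd hu hv
    refine Int.le_of_dvd ?_ hd
    apply mul_pos hΔ
    have : 0 < Int.gcd r (Int.gcd u v) := Int.gcd_pos_of_ne_zero_left _ r0.ne'
    exact_mod_cast this
  have c1 := key a0 a2 a3
  have c2 := key b0 b2 b3
  set g := (Int.gcd r (Int.gcd Z D2) : ℤ) with hg
  set g' := (Int.gcd r (Int.gcd H D1) : ℤ) with hg'
  have g0 : 0 < g := by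
    have : 0 < Int.gcd r (Int.gcd Z D2) := Int.gcd_pos_of_ne_zero_left _ r0.ne'
    rw [hg]
    exact_mod_cast this
  have g0' : 0 < g' := by
    have : 0 < Int.gcd r (Int.gcd H D1) := Int.gcd_pos_of_ne_zero_left _ r0.ne'
    rw [hg']
    exact_mod_cast this
  have hgg := hidx g g' g0 g0' (Int.gcd_dvd_left ..)
    ((Int.gcd_dvd_right r (Int.gcd Z D2)).trans (Int.gcd_dvd_right Z D2))
    ((Int.gcd_dvd_right r (Int.gcd Z D2)).trans (Int.gcd_dvd_left Z D2))
    (Int.gcd_dvd_left ..)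
    ((Int.gcd_dvd_right r (Int.gcd H D1)).trans (Int.gcd_dvd_right H D1))
    ((Int.gcd_dvd_right r (Int.gcd H D1)).trans (Int.gcd_dvd_left H D1))
  have c3 : r * r ≤ (Δ * Δ') * r := by
    calc r * r ≤ (Δ * g) * (Δ' * g') := mul_le_mul c1 c2 r0.le (by positivity)
      _ = (Δ * Δ') * (g * g') := by ring
      _ ≤ (Δ * Δ') * r := mul_le_mul_of_nonneg_left hgg (by positivity)
  have c4 : r ≤ Δ * Δ' := le_of_mul_le_mul_right c3 r0
  calc r ≤ Δ * Δ' := c4
    _ ≤ (4 * T ^ 9) * (4 * T ^ 9) := mul_le_mul a1 b1 b0.le (by linarith)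
    _ = 16 * T ^ 18 := by ring

end Pool.Agent.H4G.Six
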