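import Pool.Agent.H4G.Six.RC14
import Pool.Agent.H4G.Six.RectPerron

/-!
# Relations of a minimal rectangular configuration (row A12, helper69)

`RC.twL`, `RC.twM`: the twists `l + j (x - q)`, `m + j (x - s)` along a lattice vector `x`
parallel to the other slit give minimal configurations again, so they are rectangular.
`RNorm.rrel`: the four relations in the normal form.
-/

set_option autoImplicit false

namespace Pool.Agent.H4G.Six

open Pool.Agent.H4G

/-! ## The greatest common divisor of a progression -/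

theorem exists_coprime_shift {A B C : ℤ} (hA : A ≠ 0)
    (h : ∀ p : ℤ, Prime p → p ∣ A → p ∣ B → ¬ p ∣ C) : ∃ j : ℤ, IsCoprime A (B + j * C) := by
  classical
  obtain ⟨F, hF⟩ : ∃ F : Finset ℕ, F = A.natAbs.primeFactors.filter
    (fun p : ℕ => ¬ ((p : ℤ) ∣ B)) := ⟨_, rfl⟩
  refine ⟨∏ p ∈ F, (p : ℤ), ?_⟩
  rw [Int.isCoprime_iff_gcd_eq_one]
  by_contra hg
  obtain ⟨p, hp, hd⟩ := Nat.exists_prime_and_dvd hg
  have hpA : (p : ℤ) ∣ A := (Int.natCast_dvd_natCast.2 hd).trans (Int.gcd_dvd_left ..)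
  have hpB : (p : ℤ) ∣ B + (∏ p ∈ F, (p : ℤ)) * C :=
    (Int.natCast_dvd_natCast.2 hd).trans (Int.gcd_dvd_right ..)
  have hpp : Prime (p : ℤ) := Nat.prime_iff_prime_int.1 hp
  by_cases hB : (p : ℤ) ∣ B
  · have h1 : (p : ℤ) ∣ (∏ p ∈ F, (p : ℤ)) * C := (dvd_add_right hB).1 hpB
    rcases hpp.dvd_or_dvd h1 with h2 | h2
    · obtain ⟨q, hq, h3⟩ := (hpp.dvd_finsetProd_iff _).1 h2
      rw [hF, Finset.mem_filter] at hq
      obtain ⟨h4, h5⟩ := hq
      have h6 : p ∣ q := Int.natCast_dvd_natCast.1 h3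
      have h7 : p = q := (Nat.prime_dvd_prime_iff_eq hp (Nat.prime_of_mem_primeFactors h4)).1 h6
      subst h7
      exact h5 hB
    · exact h _ hpp hpA hB h2
  · have hmem : p ∈ F := by
      rw [hF, Finset.mem_filter]
      refine ⟨Nat.mem_primeFactors.2 ⟨hp, ?_, ?_⟩, hB⟩
      · exact Int.natCast_dvd.1 hpA
      · exact Int.natAbs_ne_zero.2 hA
    have h1 : (p : ℤ) ∣ (∏ p ∈ F, (p : ℤ)) * C :=
      Dvd.dvd.mul_right (Finset.dvd_prod_of_mem (fun p : ℕ => (p : ℤ)) hmem) _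
    exact hB ((dvd_add_left h1).1 hpB)

/-- if all the gcds of `A` with the progression are at least `r`, so is the gcd of the three -/
theorem gcd_shift {A B C r : ℤ} (hA : A ≠ 0) (h : ∀ j : ℤ, r ≤ Int.gcd A (B + j * C)) :
    ∃ g : ℤ, r ≤ g ∧ 0 < g ∧ g ∣ A ∧ g ∣ B ∧ g ∣ C := by
  obtain ⟨g, hg⟩ : ∃ g : ℤ, g = Int.gcd A (Int.gcd B C) := ⟨_, rfl⟩
  have g0 : 0 < g := by
    have : 0 < Int.gcd A (Int.gcd B C) := Int.gcd_pos_of_ne_zero_left _ hA
    rw [hg]
    exact_mod_cast this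
  obtain ⟨a, ha⟩ : g ∣ A := by rw [hg]; exact Int.gcd_dvd_left ..
  have hBC : g ∣ (Int.gcd B C : ℤ) := by rw [hg]; exact Int.gcd_dvd_right ..
  obtain ⟨b, hb⟩ : g ∣ B := hBC.trans (Int.gcd_dvd_left ..)
  obtain ⟨c, hc⟩ : g ∣ C := hBC.trans (Int.gcd_dvd_right ..)
  have ha0 : a ≠ 0 := by
    rintro rfl
    apply hA
    rw [ha, mul_zero]
  obtain ⟨j, hj⟩ := exists_coprime_shift (A := a) (B := b) (C := c) ha0 (by
    intro p hp h1 h2 h3
    have k1 : g * p ∣ (Int.gcd B C : ℤ) := by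
      apply Int.dvd_coe_gcd
      · rw [hb]; exact mul_dvd_mul_left _ h2
      · rw [hc]; exact mul_dvd_mul_left _ h3
    have k2 : g * p ∣ g := by
      have : g * p ∣ (Int.gcd A (Int.gcd B C) : ℤ) := by
        apply Int.dvd_coe_gcd _ k1
        rw [ha]; exact mul_dvd_mul_left _ h1
      rwa [← hg] at this
    obtain ⟨t, ht⟩ := k2
    apply hp.not_isUnit
    refine IsUnit.of_mul_eq_one t ?_
    have : g * (p * t) = g * 1 := by rw [mul_one, ← mul_assoc]; exact ht.symm
    exact mul_left_cancel₀ g0.ne' this)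
  refine ⟨g, ?_, g0, ⟨a, ha⟩, ⟨b, hb⟩, ⟨c, hc⟩⟩
  have h1 := h j
  have h2 : Int.gcd A (B + j * C) = g.natAbs := by
    have e : B + j * C = g * (b + j * c) := by rw [hb, hc]; ring
    rw [e, ha, Int.gcd_mul_left, Int.isCoprime_iff_gcd_eq_one.1 hj, mul_one]
  rw [h2, Int.natCast_natAbs, abs_of_pos g0] at h1
  exact h1

variable {X : Type} {O : PO X} {N r : ℤ} {U x l q m s : Z2}

/-! ## Twists along a lattice vector parallel to `m` -/

/-- `x ∥ m`: the twists `l + j (x - q)` -/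
theorem RC.twL (h : RC O N r) (hR : Rect O U x l q m s)
    (hN : volC (U, x, l, q, m, s) = N) (hrr : |cr l m| = r) (h0 : cr m x = 0) (h1 : 0 < cr l x)
    (h2 : cr l x < cr U x) : (∃ g : ℤ, r ≤ g ∧ 0 < g ∧ g ∣ cr l x ∧ g ∣ cr U l ∧
      g ∣ cr U (x - q) + cr (x - q) l) ∧ cr l m ∣ cr s (x - q) := by
  have hC := hR.okc
  have hr : 0 < |cr l m| := hC.rpos
  have hlm := hC.lm_ne
  have h7 := hC.posQ
  have hqx : cr q x = 0 := by
    have e : cr l m * cr q x = cr q m * cr l x - cr l q * cr x m := lm_cross l m q x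
    rw [hR.qm, cr_swap' m x, h0] at e
    have e2 : cr l m * cr q x = 0 := by rw [e]; ring
    exact (mul_eq_zero.1 e2).resolve_left hlm
  have hx0 : x ≠ 0 := by
    rintro rfl
    simp [cr] at h1
  have hfar : |cr l m| < cr l x := by
    have hx : x ∈ AddSubgroup.closure ({U, x} : Set Z2) := AddSubgroup.subset_closure (by simp)
    rcases hC.2.2.farV hx hx0 (by rw [h0, mul_zero]) with g | g
    · rwa [abs_of_pos h1] at g
    · rw [h0, abs_zero] at g
      linarith
  -- the twisted configurations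
  have key : ∀ j : ℤ, OKC O (U + j • (x - q), x, l + j • (x - q), q, m, s) ∧
      volC (U + j • (x - q), x, l + j • (x - q), q, m, s) = N ∧
      cr (l + j • (x - q)) m = cr l m ∧ cr (l + j • (x - q)) x = cr l x ∧
      cr (U + j • (x - q)) x = cr U x := by
    intro j
    have e1 : cr (l + j • (x - q)) x = cr l x := by
      have : cr (l + j • (x - q)) x = cr l x - j * cr q x := by
        simp only [cr, Prod.fst_add, Prod.snd_add, Prod.fst_sub, Prod.snd_sub, Prod.smul_fst,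
          Prod.smul_snd, smul_eq_mul]
        ring
      rw [this, hqx]; ring
    have e2 : cr q (l + j • (x - q)) = cr q l := by
      have : cr q (l + j • (x - q)) = cr q l + j * cr q x := by
        simp only [cr, Prod.fst_add, Prod.snd_add, Prod.fst_sub, Prod.snd_sub, Prod.smul_fst,
          Prod.smul_snd, smul_eq_mul]
        ring
      rw [this, hqx]; ring
    have e3 : cr (l + j • (x - q)) m = cr l m := by
      have : cr (l + j • (x - q)) m = cr l m + j * (-cr m x - cr q m) := by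
        simp only [cr, Prod.fst_add, Prod.snd_add, Prod.fst_sub, Prod.snd_sub, Prod.smul_fst,
          Prod.smul_snd, smul_eq_mul]
        ring
      rw [this, h0, hR.qm]; ring
    obtain ⟨k1, k2⟩ := hC.deg (l' := l + j • (x - q)) (q' := q) h0 h1 h2
      (by rw [e1]; exact h1) (by rw [e2]; exact h7)
      (closure_pair_eq (α := 1) (β := j) (γ := 0) (δ := 1) (by module) (by module)
        (Or.inl (by norm_num)))
    have eU : U - l + (l + j • (x - q)) = U + j • (x - q) := by abel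
    rw [eU] at k1 k2
    refine ⟨k1, k2.trans hN, e3, e1, ?_⟩
    have : cr (U + j • (x - q)) x = cr U x - j * cr q x := by
      simp only [cr, Prod.fst_add, Prod.snd_add, Prod.fst_sub, Prod.snd_sub, Prod.smul_fst,
        Prod.smul_snd, smul_eq_mul]
      ring
    rw [this, hqx]; ring
  have hBig : ∀ j : ℤ, Big (AddSubgroup.closure {U + j • (x - q), x}) (cr (U + j • (x - q)) x)
      (l + j • (x - q)) m := by
    intro j
    obtain ⟨k1, k2, k3, k4, k5⟩ := key j
    refine Or.inr (Or.inr (Or.inl ⟨x, AddSubgroup.subset_closure (by simp), ?_, ?_, ?_⟩))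
    · rw [cr_swap' m x, h0, neg_zero]
    · rw [k3, abs_cr_comm x, k4, abs_of_pos h1]; exact hfar
    · rw [abs_cr_comm x, k4, abs_of_pos h1, k5]; exact h2.le
  constructor
  · have hg : ∀ j : ℤ, r ≤ Int.gcd (cr l x) (cr U l + j * (cr U (x - q) + cr (x - q) l)) := by
      intro j
      obtain ⟨k1, k2, k3, k4, k5⟩ := key j
      obtain ⟨q1, s1, k6, k7⟩ := h.toRect k1 k2 (by rw [k3]; exact hrr) (hBig j)
      have k8 := k6.gl.gcd_le (Or.inr (by rw [cr_swap', k4]; exact neg_ne_zero.2 h1.ne'))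
      rw [k3, hrr, cr_swap' (l + j • (x - q)) x, k4, Int.gcd_neg, Int.gcd_comm] at k8
      have e : cr (U + j • (x - q)) (l + j • (x - q)) =
          cr U l + j * (cr U (x - q) + cr (x - q) l) := by
        simp only [cr, Prod.fst_add, Prod.snd_add, Prod.fst_sub, Prod.snd_sub, Prod.smul_fst,
          Prod.smul_snd, smul_eq_mul]
        ring
      rwa [e] at k8
    exact gcd_shift h1.ne' hg
  · obtain ⟨k1, k2, k3, k4, k5⟩ := key 1
    have hB := hBig 1
    rw [one_smul] at k1 k2 k3 k4 k5 hB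
    obtain ⟨l', hl'⟩ : ∃ l', l' = l + (x - q) := ⟨_, rfl⟩
    obtain ⟨U', hU'⟩ : ∃ U', U' = U + (x - q) := ⟨_, rfl⟩
    rw [← hl', ← hU'] at k1 k2 hB
    rw [← hl'] at k3 k4
    rw [← hU'] at k5
    obtain ⟨-, i, j, hij, b1, b2, b3⟩ := axesB k1.1 k1.lm_ne k1.2.2 hB
      (fun i j hij => h.noGood k1 k2 (by rw [k3]; exact hrr) hij)
    obtain ⟨V, p1, p2⟩ := exists_basis (U := U') (x := x) i j hij
    obtain ⟨z, hz⟩ : ∃ z : Z2, z = i • U' + j • x := ⟨_, rfl⟩
    rw [← hz] at p1 p2 b1 b2 b3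
    have hW' : 0 < cr U' x := k1.1
    have hzm : cr m z ≠ 0 := by
      intro h0
      rw [cr_swap' m z, h0, neg_zero, k3] at b2
      linarith
    have d2 := h.dvdS (k1.basis p1 (by rw [p2]; exact hW')) (by
        rw [← k2]
        simp only [volC]
        rw [p2]) (by rw [k3]; exact hrr) (by rw [cr_swap' z l', b1, neg_zero]) hzm
      (by rw [p2, abs_cr_comm, abs_of_pos (by linarith [abs_nonneg (cr l' m)])]; exact b3)
    obtain ⟨t, ht⟩ := d2
    -- `z ∥ l'`
    have e1 : cr l' m * cr s z = cr s m * cr l' z - cr l' s * cr z m := lm_cross l' m s z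
    rw [cr_swap' z l', b1, neg_zero, mul_zero, zero_sub, k3, ht, cr_swap' m z, cr_swap' s l'] at e1
    have e2 : cr m z * (cr l m * t) = cr m z * (-cr s l') := by linear_combination e1
    have e3 := mul_left_cancel₀ hzm e2
    have e4 : cr s l' = cr s (x - q) := by
      rw [hl', cr_addr, hR.sl, zero_add]
    refine ⟨-t, ?_⟩
    rw [← e4]
    linear_combination e3

/-- `x ∥ l`: the twists `m + j (x - s)` -/
theorem RC.twM (h : RC O N r) (hR : Rect O U x l q m s)
    (hN : volC (U, x, l, q, m, s) = N) (hrr : |cr l m| = r) (h0 : cr l x = 0) (h1 : 0 < cr m x)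
    (h2 : cr m x < cr U x) : (∃ g : ℤ, r ≤ g ∧ 0 < g ∧ g ∣ cr m x ∧ g ∣ cr U m ∧
      g ∣ cr U (x - s) + cr (x - s) m) ∧ cr l m ∣ cr q (x - s) := by
  have e0 : ∀ a b : Z2, cr (-a) (-b) = cr a b := by
    intro a b
    rw [cr_negl, cr_negr, neg_neg]
  have hN' : volC (-U, -x, -m, -s, -l, -q) = N := by
    rw [← hN]
    simp only [volC, e0]
    ring
  have e1 : -x - -s = -(x - s) := by abel
  obtain ⟨⟨g, g1, g2, g3, g4, g5⟩, k⟩ := h.twL hR.neg.rev hN' (by rw [e0, abs_cr_comm]; exact hrr)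
    (by rw [e0]; exact h0) (by rw [e0]; exact h1) (by rw [e0, e0]; exact h2)
  rw [e1] at g5 k
  rw [e0] at g3 g4 k
  rw [e0, e0] at g5
  rw [e0] at k
  refine ⟨⟨g, g1, g2, g3, g4, g5⟩, ?_⟩
  rw [cr_swap' l m] at k
  exact neg_dvd.1 k

/-! ## The normal form -/

/-- the column basis `(p, V)`, `V ∥ m` -/
structure ColB (U x l m p V : Z2) (k Z : ℤ) : Prop where
  k0 : 0 < k
  Z0 : 0 < Z
  clo : AddSubgroup.closure ({p, V} : Set Z2) = AddSubgroup.closure {U, x}
  pV : cr p V = cr U x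
  Vm : cr V m = 0
  lV : cr l V = k * cr l x
  pm : cr p m = Z
  Um : cr U m = k * Z
  xm : Z ∣ cr x m
  gcd : Z = Int.gcd (cr U m) (cr x m)

theorem RNorm.colB (h : RNorm O U x l q m s) : ∃ (p V : Z2) (k Z : ℤ), ColB U x l m p V k Z := by
  have hr := h.pos
  have hX := h.X0
  have hη := h.eta
  have hW := h.okc.1
  obtain ⟨Z, hZ⟩ : ∃ Z : ℤ, Z = Int.gcd (cr U m) (cr x m) := ⟨_, rfl⟩
  have hX0 : 0 < cr U m := by linarith
  have Z0 : 0 < Z := by
    have : 0 < Int.gcd (cr U m) (cr x m) := Int.gcd_pos_of_ne_zero_left _ hX0.ne'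
    rw [hZ]
    exact_mod_cast this
  obtain ⟨k, hk⟩ : Z ∣ cr U m := by rw [hZ]; exact Int.gcd_dvd_left ..
  obtain ⟨κ, hκ⟩ : Z ∣ cr x m := by rw [hZ]; exact Int.gcd_dvd_right ..
  have k0 : 0 < k := by
    rw [hk] at hX0
    exact (pos_iff_pos_of_mul_pos hX0).1 Z0
  have hco : IsCoprime (-κ) k := by
    rw [IsCoprime.neg_left_iff, isCoprime_comm, Int.isCoprime_iff_gcd_eq_one]
    have h1 : Z = Z * (Int.gcd k κ : ℤ) := by
      conv_lhs => rw [hZ, hk, hκ, Int.gcd_mul_left]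
      push_cast
      rw [abs_of_pos Z0]
    have h2 : Z * 1 = Z * (Int.gcd k κ : ℤ) := by rw [mul_one]; exact h1
    have h3 := mul_left_cancel₀ Z0.ne' h2
    exact_mod_cast h3.symm
  obtain ⟨p, p1, p2⟩ := exists_basis (U := U) (x := x) (-κ) k hco
  obtain ⟨V, hV⟩ : ∃ V : Z2, V = (-κ) • U + k • x := ⟨_, rfl⟩
  rw [← hV] at p1 p2
  have Vm : cr V m = 0 := by
    have : cr V m = -κ * cr U m + k * cr x m := by
      rw [hV]
      simp only [cr, Prod.fst_add, Prod.snd_add, Prod.smul_fst, Prod.smul_snd, smul_eq_mul]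
      ring
    rw [this, hk, hκ]; ring
  have lU : cr l U = 0 := by rw [cr_swap' U l, h.Ul, neg_zero]
  have lV : cr l V = k * cr l x := by
    have : cr l V = -κ * cr l U + k * cr l x := by
      rw [hV]
      simp only [cr, Prod.fst_add, Prod.snd_add, Prod.smul_fst, Prod.smul_snd, smul_eq_mul]
      ring
    rw [this, lU]; ring
  have pm : cr p m = Z := by
    have e1 := cr_plucker p V l m
    rw [Vm, p2, h.area, hk, cr_swap' l V, lV] at e1
    have e2 : (k * cr l x) * cr p m = (k * cr l x) * Z := by linear_combination e1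
    exact mul_left_cancel₀ (mul_pos k0 (by linarith)).ne' e2
  exact ⟨p, V, k, Z, k0, Z0, p1, p2, Vm, lV, pm, by rw [hk]; ring, ⟨κ, hκ⟩, hZ⟩

section

variable {p V : Z2} {k Z : ℤ}

/-- the relations of the twists of `m`: `η > r` -/
theorem RNorm.relM (hR : RNorm O U x l q m s) (h : RC O N r)
    (hN : volC (U, x, l, q, m, s) = N) (hr : cr l m = r) (h1 : r < cr l x) :
    r ^ 2 ∣ cr q l * (cr U m + cr s m) ∧ ∃ g σ : ℤ, r ≤ g ∧ 0 < g ∧ g ∣ cr U m ∧ g ∣ cr x m ∧
      g ∣ σ ∧ (cr U m + cr s m) * (cr l x - r) = r * σ := by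
  have hpos := hR.pos
  have hX := hR.X0
  have har := hR.area
  rw [hr] at hpos hX har
  have e1 : cr m (-U) = cr U m := by rw [cr_negr, cr_swap' U m, neg_neg]
  have e2 : cr x (-U) = cr U x := by rw [cr_negr, cr_swap' U x, neg_neg]
  have hW : 0 < cr U x := hR.okc.1
  have hR' : Rect O x (-U) l q m s := by
    refine hR.toRect.basis ?_ (by rw [e2]; exact hW)
    rw [clo_neg_right, clo_comm]
  have hlt : cr U m < cr U x := by
    have : r * cr U m < r * cr U x := by
      calc r * cr U m = cr U m * r := mul_comm _ _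
        _ < cr U m * cr l x := mul_lt_mul_of_pos_left h1 (by linarith)
        _ = r * cr U x := by rw [← har]; ring
    exact lt_of_mul_lt_mul_left this hpos.le
  obtain ⟨⟨g, g1, g2, g3, g4, g5⟩, c⟩ := h.twM hR' (by
      rw [← hN]
      simp only [volC]
      rw [e2]) (by rw [hr, abs_of_pos hpos]) (by rw [cr_negr, cr_swap' U l, hR.Ul]; simp)
    (by rw [e1]; linarith) (by rw [e1, e2]; exact hlt)
  rw [e1] at g3
  have q1 := hR.q_cross U
  have q2 := hR.qs
  have s1 := hR.s_cross x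
  rw [hr] at q1 q2 s1 c
  constructor
  · obtain ⟨t, ht⟩ := c
    have e3 : cr q (-U - s) = -(cr q U + cr q s) := by
      simp only [cr, Prod.fst_neg, Prod.snd_neg, Prod.fst_sub, Prod.snd_sub]; ring
    rw [e3] at ht
    refine ⟨-t, ?_⟩
    linear_combination -q1 - q2 - r * ht
  · refine ⟨g, cr x (-U - s) + cr (-U - s) m, g1, g2, g3, g4, g5, ?_⟩
    have e4 : cr x (-U - s) + cr (-U - s) m = cr U x + cr s x - cr U m - cr s m := by
      simp only [cr, Prod.fst_neg, Prod.snd_neg, Prod.fst_sub, Prod.snd_sub]; ring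
    rw [e4]
    linear_combination -har - s1

/-- the relations of the twists of `l`: `Z > r` -/
theorem RNorm.relL (hR : RNorm O U x l q m s) (h : RC O N r)
    (hN : volC (U, x, l, q, m, s) = N) (hr : cr l m = r) (hc : ColB U x l m p V k Z)
    (h1 : r < Z) :
    r ^ 2 ∣ cr s m * (k * cr l x + cr q l) ∧ ∃ g σ : ℤ, r ≤ g ∧ 0 < g ∧ g ∣ cr l x ∧ g ∣ σ ∧
      (k * cr l x + cr q l) * (Z - r) = r * σ := by
  have hpos := hR.pos
  have hη := hR.eta
  have har := hR.area
  have Um := hc.Um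
  rw [hr] at hpos hη har
  have hk0 := hc.k0
  have hW : 0 < cr U x := hR.okc.1
  have hη0 : 0 < cr l x := by linarith
  have hR' : Rect O p V l q m s := hR.toRect.basis hc.clo (by rw [hc.pV]; exact hW)
  have hlt : cr l V < cr p V := by
    rw [hc.lV, hc.pV]
    have : r * (k * cr l x) < r * cr U x := by
      calc r * (k * cr l x) < Z * (k * cr l x) :=
            mul_lt_mul_of_pos_right h1 (mul_pos hk0 hη0)
        _ = cr U m * cr l x := by rw [Um]; ring
        _ = r * cr U x := by rw [← har]; ring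
    exact lt_of_mul_lt_mul_left this hpos.le
  obtain ⟨⟨g, g1, g2, g3, g4, g5⟩, c⟩ := h.twL hR' (by
      rw [← hN]
      simp only [volC]
      rw [hc.pV]) (by rw [hr, abs_of_pos hpos]) (by rw [cr_swap' V m, hc.Vm, neg_zero])
    (by rw [hc.lV]; exact mul_pos hk0 hη0) hlt
  have q1 := hR'.q_cross p
  have q2 := hR'.qs
  have s1 := hR'.s_cross V
  rw [hr] at q1 q2 s1 c
  rw [hc.pm] at q1
  rw [hc.lV] at s1
  constructor
  · obtain ⟨t, ht⟩ := c
    have e3 : cr s (V - q) = cr s V + cr q s := by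
      simp only [cr, Prod.fst_sub, Prod.snd_sub]; ring
    rw [e3] at ht
    refine ⟨t, ?_⟩
    linear_combination -s1 - q2 + r * ht
  · refine ⟨g, cr p (V - q) + cr (V - q) l, g1, g2, ?_, g5, ?_⟩
    · have hx : x ∈ AddSubgroup.closure ({p, V} : Set Z2) := by
        rw [hc.clo]; exact AddSubgroup.subset_closure (by simp)
      obtain ⟨a, b, hab⟩ := AddSubgroup.mem_closure_pair.1 hx
      have e : cr l x = -(a * cr p l) + b * cr l V := by
        rw [← hab]
        simp only [cr, Prod.fst_add, Prod.snd_add, Prod.smul_fst, Prod.smul_snd, smul_eq_mul]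
        ring
      rw [e]
      exact dvd_add ((dvd_neg.2 (Dvd.dvd.mul_left g4 _))) (Dvd.dvd.mul_left g3 _)
    · have e4 : cr p (V - q) + cr (V - q) l = cr p V + cr q p - cr l V - cr q l := by
        simp only [cr, Prod.fst_sub, Prod.snd_sub]; ring
      rw [e4, hc.pV, hc.lV]
      rw [Um] at har
      linear_combination -har - q1

/-- **THE FOUR RELATIONS** -/
theorem RNorm.rrel (hR : RNorm O U x l q m s) (h : RC O N r)
    (hN : volC (U, x, l, q, m, s) = N) (hr : cr l m = r) (hc : ColB U x l m p V k Z)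
    (h1 : r < cr l x) (h2 : r < Z) : RRel r k Z (cr l x) (cr q l) (cr s m) := by
  have hpos := hR.pos
  rw [hr] at hpos
  obtain ⟨a1, g, σ, a2, -, a3, a4, a5, a6⟩ := hR.relM h hN hr h1
  obtain ⟨b1, g', σ', b2, -, b3, b4, b5⟩ := hR.relL h hN hr hc h2
  rw [hc.Um] at a1 a6
  refine ⟨hpos, hc.k0, h2.le, h1.le, hR.okc.posQ, hR.okc.posS, a1, b1,
    ⟨g, σ, a2, ?_, a5, a6⟩, ⟨g', σ', b2, b3, b4, b5⟩⟩
  rw [hc.gcd]
  exact Int.dvd_coe_gcd a3 a4

end

end Pool.Agent.H4G.Six
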