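import Pool.Agent.H4G.Six.RectRel

/-!
# The size of a minimal rectangular configuration (row A12, helper69)

If the periods generate the lattice and `N ≤ T r` then `r ≤ 16 T ^ 18`: a large surface has a
large normalised size.
-/

set_option autoImplicit false

namespace Pool.Agent.H4G.Six

open Pool.Agent.H4G

/-! ## Arithmetic -/

/-- the index of the lattice of periods -/
theorem idx_bound {r Z H D1 D2 a b : ℤ} (r0 : 0 < r) (a0 : 0 < a) (b0 : 0 < b) (h1 : r ∣ a * Z)
    (h2 : r ∣ a * D2) (h3 : r ∣ b * H) (h4 : r ∣ b * D1)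
    (hidx : ∀ a b : ℤ, 0 < a → 0 < b → a ∣ r → a ∣ D2 → a ∣ Z → b ∣ r → b ∣ D1 → b ∣ H →
      a * b ≤ r) : r ≤ a * b := by
  have key : ∀ {Δ u v : ℤ}, 0 < Δ → r ∣ Δ * u → r ∣ Δ * v →
      r ≤ Δ * Int.gcd r (Int.gcd u v) := by
    intro Δ u v hΔ hu hv
    have hd : r ∣ Δ * (Int.gcd r (Int.gcd u v) : ℤ) := by
      have e1 : Δ * (Int.gcd r (Int.gcd u v) : ℤ) = Int.gcd (Δ * r) (Δ * Int.gcd u v) := by
        rw [Int.gcd_mul_left]
        push_cast
        rw [abs_of_pos hΔ]
      have e2 : Δ * (Int.gcd u v : ℤ) = Int.gcd (Δ * u) (Δ * v) := by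
        rw [Int.gcd_mul_left]
        push_cast
        rw [abs_of_pos hΔ]
      rw [e1]
      apply Int.dvd_coe_gcd (Dvd.intro_left _ rfl)
      rw [e2]
      exact Int.dvd_coe_gcd hu hv
    refine Int.le_of_dvd ?_ hd
    apply mul_pos hΔ
    have : 0 < Int.gcd r (Int.gcd u v) := Int.gcd_pos_of_ne_zero_left _ r0.ne'
    exact_mod_cast this
  have c1 := key a0 h1 h2
  have c2 := key b0 h3 h4
  have g0 : (0 : ℤ) < (Int.gcd r (Int.gcd Z D2) : ℤ) := by
    have : 0 < Int.gcd r (Int.gcd Z D2) := Int.gcd_pos_of_ne_zero_left _ r0.ne'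
    exact_mod_cast this
  have g0' : (0 : ℤ) < (Int.gcd r (Int.gcd H D1) : ℤ) := by
    have : 0 < Int.gcd r (Int.gcd H D1) := Int.gcd_pos_of_ne_zero_left _ r0.ne'
    exact_mod_cast this
  have hgg := hidx _ _ g0 g0' (Int.gcd_dvd_left ..)
    ((Int.gcd_dvd_right r (Int.gcd Z D2)).trans (Int.gcd_dvd_right Z D2))
    ((Int.gcd_dvd_right r (Int.gcd Z D2)).trans (Int.gcd_dvd_left Z D2))
    (Int.gcd_dvd_left ..)
    ((Int.gcd_dvd_right r (Int.gcd H D1)).trans (Int.gcd_dvd_right H D1))
    ((Int.gcd_dvd_right r (Int.gcd H D1)).trans (Int.gcd_dvd_left H D1))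
  have c3 : r * r ≤ (a * b) * r := by
    calc r * r ≤ (a * (Int.gcd r (Int.gcd Z D2) : ℤ)) * (b * (Int.gcd r (Int.gcd H D1) : ℤ)) :=
          mul_le_mul c1 c2 r0.le (by positivity)
      _ = (a * b) * ((Int.gcd r (Int.gcd Z D2) : ℤ) * (Int.gcd r (Int.gcd H D1) : ℤ)) := by ring
      _ ≤ (a * b) * r := mul_le_mul_of_nonneg_left hgg (by positivity)
  exact le_of_mul_le_mul_right c3 r0

/-- the case `H = r` -/
theorem row_heights {r k Z D1 D2 J T : ℤ} (r0 : 0 < r) (k0 : 0 < k) (hZ : r ≤ Z) (d1 : 0 < D1)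
    (d2 : 0 < D2) (J0 : 0 < J) (hJ : Z ∣ J) (h1 : r ^ 2 ∣ D1 * J)
    (h2 : ∃ g : ℤ, r ≤ g ∧ g ∣ J ∧ g ∣ D2) (h3 : r < Z → r ^ 2 ∣ D2 * (k * r + D1))
    (b1 : J ≤ T * r) (b2 : k * Z ≤ T * r) (b3 : D1 ≤ T * r) (b4 : D2 ≤ T * r) :
    ∃ a b : ℤ, 0 < a ∧ 0 < b ∧ a * b ≤ T ^ 7 ∧ r ∣ a * Z ∧ r ∣ a * D2 ∧ r ∣ b * D1 := by
  obtain ⟨b, hb⟩ := hJ
  obtain ⟨f, hf⟩ := h1
  obtain ⟨g, g1, ⟨e, he⟩, ⟨f', hf'⟩⟩ := h2
  have Z0 : 0 < Z := by linarith
  have g0 : 0 < g := by linarith
  have b0 : 0 < b := by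
    rw [hb] at J0
    exact (pos_iff_pos_of_mul_pos J0).1 Z0
  have e0 : 0 < e := by
    rw [he] at J0
    exact (pos_iff_pos_of_mul_pos J0).1 g0
  have f0' : 0 < f' := by
    rw [hf'] at d2
    exact (pos_iff_pos_of_mul_pos d2).1 g0
  have r2 : 0 < r ^ 2 := by positivity
  have f0 : 0 < f := by
    have : 0 < r ^ 2 * f := by rw [← hf]; exact mul_pos d1 J0
    exact (pos_iff_pos_of_mul_pos this).1 r2
  -- sizes
  have div : ∀ {u v : ℤ}, 0 < v → r ≤ u → u * v ≤ T * r → v ≤ T := by
    intro u v hv hu huv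
    have : r * v ≤ r * T := by nlinarith
    exact le_of_mul_le_mul_left this r0
  have bT : b ≤ T := div b0 hZ (by rw [← hb]; exact b1)
  have eT : e ≤ T := div e0 g1 (by rw [← he]; exact b1)
  have fT' : f' ≤ T := div f0' g1 (by rw [← hf']; exact b4)
  have kT : k ≤ T := div k0 hZ (by rw [mul_comm]; exact b2)
  have T1 : 1 ≤ T := by linarith
  by_cases hc : r < Z
  · obtain ⟨Q, hQ⟩ := h3 hc
    have key : r * (Q * e - f * f') = k * e * f' * g := by
      have e1 : r * g * (r * (Q * e - f * f')) = r * g * (k * e * f' * g) := by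
        have e2 : r ^ 2 * Q * J = D2 * (k * r + D1) * J := by rw [hQ]
        have e3 : D2 * (k * r + D1) * J = D2 * k * r * J + D2 * (D1 * J) := by ring
        rw [e3, hf, hf', he] at e2
        linear_combination e2
      exact mul_left_cancel₀ (mul_pos r0 g0).ne' e1
    have hn : r ∣ k * e * f' * g := ⟨_, key.symm⟩
    obtain ⟨n, hn'⟩ : ∃ n : ℤ, n = Q * e - f * f' := ⟨_, rfl⟩
    rw [← hn'] at key
    have n0 : 0 < n := by
      have : 0 < r * n := by rw [key]; positivity
      exact (pos_iff_pos_of_mul_pos this).1 r0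
    have nT : n ≤ T ^ 3 := by
      have h5 : r * n ≤ r * T ^ 3 := by
        rw [key]
        have e4 : k * e * f' * g = k * f' * J := by rw [he]; ring
        rw [e4]
        have c1 : k * f' ≤ T * T := mul_le_mul kT fT' f0'.le (by linarith)
        calc k * f' * J ≤ (T * T) * (T * r) := mul_le_mul c1 b1 J0.le (by positivity)
          _ = r * T ^ 3 := by ring
      exact le_of_mul_le_mul_left h5 r0
    refine ⟨k * b * e * f', n, by positivity, n0, ?_, ?_, ?_, ?_⟩
    · have c1 : k * b ≤ T * T := mul_le_mul kT bT b0.le (by linarith)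
      have c2 : k * b * e ≤ T * T * T := mul_le_mul c1 eT e0.le (by positivity)
      have c3 : k * b * e * f' ≤ T * T * T * T := mul_le_mul c2 fT' f0'.le (by positivity)
      calc k * b * e * f' * n ≤ (T * T * T * T) * T ^ 3 :=
            mul_le_mul c3 nT n0.le (by positivity)
        _ = T ^ 7 := by ring
    · have e5 : k * b * e * f' * Z = e * (k * e * f' * g) := by
        have : k * b * e * f' * Z = k * e * f' * (Z * b) := by ring
        rw [this, ← hb, he]; ring
      rw [e5]
      exact Dvd.dvd.mul_left hn _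
    · have e5 : k * b * e * f' * D2 = (b * f') * (k * e * f' * g) := by rw [hf']; ring
      rw [e5]
      exact Dvd.dvd.mul_left hn _
    · have e6 : r * (n * D1) = r * (r * (k * f * f')) := by
        have : r * (n * D1) = (r * n) * D1 := by ring
        rw [this, key]
        have e7 : k * e * f' * g * D1 = k * f' * (D1 * J) := by rw [he]; ring
        rw [e7, hf]; ring
      exact ⟨_, mul_left_cancel₀ r0.ne' e6⟩
  · have hZr : Z = r := by linarith
    subst hZr
    refine ⟨e, b, e0, b0, ?_, Dvd.intro_left _ rfl, ?_, ?_⟩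
    · have c1 : e * b ≤ T * T := mul_le_mul eT bT b0.le (by linarith)
      have c2 : T * T ≤ T ^ 7 := by
        have : T * T * 1 ≤ T * T * T ^ 5 :=
          mul_le_mul_of_nonneg_left (one_le_pow₀ T1) (by positivity)
        calc T * T = T * T * 1 := by ring
          _ ≤ T * T * T ^ 5 := this
          _ = T ^ 7 := by ring
      exact c1.trans c2
    · refine ⟨f' * b, ?_⟩
      rw [hf']
      have : e * (g * f') = (g * e) * f' := by ring
      rw [this, ← he, hb]; ring
    · refine ⟨f, ?_⟩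
      have e6 : Z * (b * D1) = Z * (Z * f) := by
        have : Z * (b * D1) = D1 * (Z * b) := by ring
        rw [this, ← hb, hf]; ring
      exact mul_left_cancel₀ r0.ne' e6

variable {X : Type} {O : PO X} {N r T : ℤ} {U x l q m s p V : Z2} {k Z : ℤ}

/-! ## The lattice of periods -/

theorem RNorm.idx (hR : RNorm O U x l q m s) (hc : ColB U x l m p V k Z)
    (hg : AddSubgroup.closure ({U, x, l, q, m, s} : Set Z2) = ⊤) {a b : ℤ} (a1 : a ∣ cr l m) (a2 : a ∣ cr s m) (a3 : a ∣ Z) (b1 : b ∣ cr l m)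
    (b2 : b ∣ cr q l) (b3 : b ∣ cr l x) : a * b ≤ cr l m := by
  have hm : ∀ w : Z2, a ∣ cr w m := by
    intro w
    have hw : w ∈ AddSubgroup.closure ({U, x, l, q, m, s} : Set Z2) := by rw [hg]; trivial
    induction hw using AddSubgroup.closure_induction with
    | mem y hy =>
      simp only [Set.mem_insert_iff, Set.mem_singleton_iff] at hy
      rcases hy with rfl | rfl | rfl | rfl | rfl | rfl
      · rw [hc.Um]; exact Dvd.dvd.mul_left a3 _
      · exact a3.trans hc.xm
      · exact a1
      · rw [hR.qm]; exact dvd_zero _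
      · rw [cr_self']; exact dvd_zero _
      · exact a2
    | zero => simp [cr]
    | add y z _ _ h1 h2 => rw [cr_addl]; exact dvd_add h1 h2
    | neg y _ h1 => rw [cr_negl]; exact (dvd_neg).2 h1
  have hl : ∀ w : Z2, b ∣ cr l w := by
    intro w
    have hw : w ∈ AddSubgroup.closure ({U, x, l, q, m, s} : Set Z2) := by rw [hg]; trivial
    induction hw using AddSubgroup.closure_induction with
    | mem y hy =>
      simp only [Set.mem_insert_iff, Set.mem_singleton_iff] at hy
      rcases hy with rfl | rfl | rfl | rfl | rfl | rfl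
      · rw [cr_swap' y l, hR.Ul, neg_zero]; exact dvd_zero _
      · exact b3
      · rw [cr_self']; exact dvd_zero _
      · rw [cr_swap' y l]; exact (dvd_neg).2 b2
      · exact b1
      · rw [cr_swap' y l, hR.sl, neg_zero]; exact dvd_zero _
    | zero => rw [cr_zero']; exact dvd_zero _
    | add y z _ _ h1 h2 => rw [cr_addr]; exact dvd_add h1 h2
    | neg y _ h1 => rw [cr_negr]; exact (dvd_neg).2 h1
  have e := lm_cross l m (1, 0) (0, 1)
  have e1 : cr ((1, 0) : Z2) (0, 1) = 1 := by simp [cr]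
  rw [e1, mul_one] at e
  have hd : a * b ∣ cr l m := by
    rw [e]
    refine dvd_sub (mul_dvd_mul (hm _) (hl _)) ?_
    rw [mul_comm a b]
    exact mul_dvd_mul (hl _) (hm _)
  exact Int.le_of_dvd hR.pos hd

/-! ## Centres of the first row and of the first column -/

/-- a centre of a configuration gives a tree; its contents -/
theorem RC.contC (h : RC O N r) (hC : OKC O (U, x, l, q, m, s))
    (hN : volC (U, x, l, q, m, s) = N) {i j : ℤ} (hij : IsCoprime i j) {u : Z2}
    (hu : u = i • U + j • x) (h1 : 0 < cr u l) (h2 : 0 < cr u m) (h3 : cr u l + cr u m < cr U x) :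
    r ≤ Int.gcd (cr u l) (cr u q) ∧ r ≤ Int.gcd (cr u m) (cr u s) := by
  obtain ⟨x', k1, k2, k3⟩ := hC.recenter hij hu
  have hT := k3.center h1 h2 (by rw [k2]; exact h3)
  have hv : vol6 (u, x' - l - m, l, q, m, s) = N := by
    rw [← hN]
    simp only [vol6, volC]
    rw [← k2]
    simp only [cr, Prod.fst_sub, Prod.snd_sub]
    ring
  exact ⟨h.cont _ _ _ _ _ _ hT hv, h.contM hT hv⟩

/-- the case `η = r`: a centre with `u × l = r` -/
theorem RNorm.rowC (hR : RNorm O U x l q m s) (hr : cr l m = r) (h1 : cr l x = r) :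
    ∃ (i : ℤ) (u : Z2), IsCoprime i (-1) ∧ u = i • U + (-1 : ℤ) • x ∧ cr u l = r ∧
      0 < cr u m ∧ cr u l + cr u m < cr U x := by
  have hpos := hR.pos
  have hX := hR.X0
  have har := hR.area
  rw [hr] at hpos hX har
  rw [h1] at har
  have hXW : cr U m = cr U x := mul_right_cancel₀ hpos.ne' har.symm
  have X0 : 0 < cr U m := by linarith
  obtain ⟨i, hi⟩ : ∃ i : ℤ, i = -((-cr x m) / cr U m) := ⟨_, rfl⟩
  obtain ⟨u, hu⟩ : ∃ u : Z2, u = i • U + (-1 : ℤ) • x := ⟨_, rfl⟩
  have ul : cr u l = r := by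
    rw [hu, hR.cr_l, h1]; ring
  have um : cr u m = (-cr x m) % cr U m := by
    have e1 : cr u m = i * cr U m + (-1) * cr x m := by rw [hu, cr_zz_left]
    have e2 := Int.emod_add_mul_ediv (-cr x m) (cr U m)
    rw [e1, hi]
    linear_combination -e2
  have um0 : 0 ≤ cr u m := by rw [um]; exact Int.emod_nonneg _ X0.ne'
  have um1 : cr u m < cr U m := by rw [um]; exact Int.emod_lt_of_pos _ X0
  have hmem : u ∈ AddSubgroup.closure ({U, x} : Set Z2) :=
    AddSubgroup.mem_closure_pair.2 ⟨i, -1, hu.symm⟩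
  have hUm : U ∈ AddSubgroup.closure ({U, x} : Set Z2) := AddSubgroup.subset_closure (by simp)
  have lu : cr l u = -r := by rw [cr_swap' u l, ul]
  have um2 : 0 < cr u m := by
    rcases um0.lt_or_eq with g | g
    · exact g
    exfalso
    have hu0 : u ≠ 0 := by
      rintro h0
      rw [h0] at ul
      simp [cr] at ul
      linarith
    have e1 : cr m u = 0 := by rw [cr_swap' u m, ← g, neg_zero]
    rcases hR.okc.2.2.farV hmem hu0 (by rw [e1, mul_zero]) with f | f
    · rw [hr, lu, abs_neg] at f; exact lt_irrefl _ f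
    · rw [e1, abs_zero] at f
      exact absurd (abs_nonneg (cr l m)) (not_le.2 f)
  have hz : u - U ∈ AddSubgroup.closure ({U, x} : Set Z2) := AddSubgroup.sub_mem _ hmem hUm
  have e3 : cr l (u - U) = -r := by
    have : cr l (u - U) = cr l u + cr U l := by
      simp only [cr, Prod.fst_sub, Prod.snd_sub]; ring
    rw [this, lu, hR.Ul, add_zero]
  have e4 : cr m (u - U) = cr U m - cr u m := by
    simp only [cr, Prod.fst_sub, Prod.snd_sub]; ring
  have hz0 : u - U ≠ 0 := by
    intro h0
    rw [h0, cr_zero'] at e3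
    linarith
  have um3 : r < cr U m - cr u m := by
    rcases hR.okc.2.2.farV hz hz0 (by
      rw [e3, e4]
      have : 0 < r * (cr U m - cr u m) := mul_pos hpos (by linarith)
      linarith) with f | f
    · rw [hr, e3, abs_neg] at f; exact absurd f (lt_irrefl _)
    · rw [hr, e4, abs_of_pos hpos, abs_of_pos (by linarith)] at f; exact f
  exact ⟨i, u, ⟨0, -1, by ring⟩, hu, ul, um2, by rw [ul]; linarith⟩

/-- the case `Z = r`: a centre with `u × m = r` -/
theorem RNorm.colC (hR : RNorm O U x l q m s) (hr : cr l m = r) (hc : ColB U x l m p V k Z)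
    (h1 : Z = r) :
    ∃ (j : ℤ) (u : Z2), IsCoprime 1 j ∧ u = (1 : ℤ) • p + j • V ∧ cr u m = r ∧
      0 < cr u l ∧ cr u l + cr u m < cr p V := by
  have hpos := hR.pos
  have hη := hR.eta
  have har := hR.area
  rw [hr] at hpos hη har
  rw [hc.Um, h1] at har
  have hVW : cr l V = cr p V := by
    rw [hc.lV, hc.pV]
    have : r * (k * cr l x) = r * cr U x := by linear_combination -har
    exact mul_left_cancel₀ hpos.ne' this
  have W0 : 0 < cr p V := by rw [hc.pV]; exact hR.okc.1
  obtain ⟨j, hj⟩ : ∃ j : ℤ, j = cr p l / cr p V := ⟨_, rfl⟩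
  obtain ⟨u, hu⟩ : ∃ u : Z2, u = (1 : ℤ) • p + j • V := ⟨_, rfl⟩
  have um : cr u m = r := by
    rw [hu, cr_zz_left, hc.pm, hc.Vm, h1]; ring
  have ul : cr u l = cr p l % cr p V := by
    have e1 : cr u l = 1 * cr p l + j * cr V l := by rw [hu, cr_zz_left]
    have e2 := Int.emod_add_mul_ediv (cr p l) (cr p V)
    rw [e1, hj, cr_swap' l V, hVW]
    linear_combination -e2
  have ul0 : 0 ≤ cr u l := by rw [ul]; exact Int.emod_nonneg _ W0.ne'
  have ul1 : cr u l < cr p V := by rw [ul]; exact Int.emod_lt_of_pos _ W0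
  have hE : Emb (AddSubgroup.closure {p, V}) l m := by rw [hc.clo]; exact hR.okc.2.2
  have hmem : u ∈ AddSubgroup.closure ({p, V} : Set Z2) :=
    AddSubgroup.mem_closure_pair.2 ⟨1, j, hu.symm⟩
  have hVm : V ∈ AddSubgroup.closure ({p, V} : Set Z2) := AddSubgroup.subset_closure (by simp)
  have mu : cr m u = -r := by rw [cr_swap' u m, um]
  have ul2 : 0 < cr u l := by
    rcases ul0.lt_or_eq with g | g
    · exact g
    exfalso
    have hu0 : u ≠ 0 := by
      rintro h0
      rw [h0] at um
      simp [cr] at um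
      linarith
    have e1 : cr l u = 0 := by rw [cr_swap' u l, ← g, neg_zero]
    rcases hE.farV hmem hu0 (by rw [e1, zero_mul]) with f | f
    · rw [e1, abs_zero] at f
      exact absurd (abs_nonneg (cr l m)) (not_le.2 f)
    · rw [hr, mu, abs_neg] at f; exact lt_irrefl _ f
  have hz : u + V ∈ AddSubgroup.closure ({p, V} : Set Z2) := AddSubgroup.add_mem _ hmem hVm
  have e3 : cr m (u + V) = -r := by
    have : cr m (u + V) = cr m u - cr V m := by
      simp only [cr, Prod.fst_add, Prod.snd_add]; ring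
    rw [this, mu, hc.Vm, sub_zero]
  have e4 : cr l (u + V) = cr p V - cr u l := by
    rw [← hVW]
    simp only [cr, Prod.fst_add, Prod.snd_add]; ring
  have hz0 : u + V ≠ 0 := by
    intro h0
    rw [h0, cr_zero'] at e3
    linarith
  have ul3 : r < cr p V - cr u l := by
    rcases hE.farV hz hz0 (by
      rw [e3, e4]
      have : 0 < r * (cr p V - cr u l) := mul_pos hpos (by linarith)
      linarith) with f | f
    · rw [hr, e4, abs_of_pos hpos, abs_of_pos (by linarith)] at f; exact f
    · rw [hr, e3, abs_neg] at f; exact absurd f (lt_irrefl _)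
  exact ⟨j, u, isCoprime_one_left, hu, um, ul2, by rw [um]; linarith⟩

/-! ## The bound -/

/-- **THE SIZE**: `N ≤ T r` implies `r ≤ 16 T ^ 18` -/
theorem RNorm.size (hR : RNorm O U x l q m s) (h : RC O N r)
    (hN : volC (U, x, l, q, m, s) = N) (hr : cr l m = r)
    (hg : AddSubgroup.closure ({U, x, l, q, m, s} : Set Z2) = ⊤) (hT : N ≤ T * r) :
    r ≤ 16 * T ^ 18 := by
  obtain ⟨p, V, k, Z, hc⟩ := hR.colB
  have hpos := hR.pos
  have hη := hR.eta
  have har := hR.area
  have htau := hR.tau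
  rw [← hc.gcd] at htau
  rw [hr] at hpos hη har htau
  have hW : 0 < cr U x := hR.okc.1
  have d1 : 0 < cr q l := hR.okc.posQ
  have d2 : 0 < cr s m := hR.okc.posS
  have hk := hc.k0
  have Um := hc.Um
  have hNv : cr U x + cr q l + cr s m = N := hN
  have hidx : ∀ a b : ℤ, 0 < a → 0 < b → a ∣ r → a ∣ cr s m → a ∣ Z → b ∣ r → b ∣ cr q l →
      b ∣ cr l x → a * b ≤ r := by
    intro a b _ _ a1 a2 a3 b1 b2 b3
    rw [← hr] at a1 b1 ⊢
    exact hR.idx hc hg a1 a2 a3 b1 b2 b3
  have bW : cr U x ≤ T * r := by linarith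
  have T0 : 0 < T := by
    have : 0 < T * r := by linarith
    exact (pos_iff_pos_of_mul_pos this).2 hpos
  have T1 : 1 ≤ T := T0
  have fin : ∀ {a b : ℤ}, a * b ≤ T ^ 7 → r ≤ a * b → r ≤ 16 * T ^ 18 := by
    intro a b h1 h2
    have : T ^ 7 * 1 ≤ T ^ 7 * T ^ 11 :=
      mul_le_mul_of_nonneg_left (one_le_pow₀ T1) (by positivity)
    have h3 : T ^ 7 * T ^ 11 = T ^ 18 := by ring
    have h4 : 0 < T ^ 18 := by positivity
    linarith
  have hr0 : |cr l m| = r := by rw [hr, abs_of_pos hpos]
  rcases hη.lt_or_eq with g1 | g1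
  · rcases htau.lt_or_eq with g2 | g2
    · refine (hR.rrel h hN hr hc g1 g2).perron ?_ (by linarith) (by linarith) hidx
      have : k * Z * cr l x = cr U x * r := by rw [har, Um]
      rw [this]
      calc cr U x * r ≤ T * r * r := mul_le_mul_of_nonneg_right bW hpos.le
        _ = T * r ^ 2 := by ring
    · -- `Z = r`
      obtain ⟨j, u, hj, hu, um, ul, hlt⟩ := hR.colC hr hc g2.symm
      have hC' : OKC O (p, V, l, q, m, s) := hR.okc.basis hc.clo (by rw [hc.pV]; exact hW)
      obtain ⟨c1, c2⟩ := h.contC hC' (by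
        rw [← hN]
        simp only [volC]
        rw [hc.pV]) hj hu ul (by rw [um]; exact hpos) hlt
      have qu := hR.q_cross u
      have su := hR.s_cross u
      rw [hr, um] at qu
      rw [hr, cr_swap' u l] at su
      have qu' : cr q u = cr q l := by
        have : r * cr q u = r * cr q l := by rw [qu]; ring
        exact mul_left_cancel₀ hpos.ne' this
      -- `η ∣ u × l`
      have hη' : cr l x ∣ cr u l := by
        have hmem : u ∈ AddSubgroup.closure ({U, x} : Set Z2) := by
          rw [← hc.clo]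
          exact AddSubgroup.mem_closure_pair.2 ⟨1, j, hu.symm⟩
        obtain ⟨a, b, hab⟩ := AddSubgroup.mem_closure_pair.1 hmem
        rw [← hab, hR.cr_l]
        exact (dvd_neg).2 (Dvd.intro_left _ rfl)
      obtain ⟨a, b, a0, b0, hab, e1, e2, e3⟩ := row_heights (Z := cr l x) (D1 := cr s m)
        (D2 := cr q l) (J := cr u l) (T := T) hpos hk hη d2 d1 ul hη' (by
          rw [um] at c2
          have c3 : (Int.gcd r (cr u s) : ℤ) ≤ r :=
            Int.le_of_dvd hpos (Int.gcd_dvd_left ..)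
          have c4 : (Int.gcd r (cr u s) : ℤ) = r := le_antisymm c3 c2
          obtain ⟨t, ht⟩ : r ∣ cr u s := by
            have : (Int.gcd r (cr u s) : ℤ) ∣ cr u s := Int.gcd_dvd_right ..
            rwa [c4] at this
          refine ⟨t, ?_⟩
          rw [cr_swap' u s] at su
          linear_combination su + r * ht)
        (by
          refine ⟨_, c1, Int.gcd_dvd_left .., ?_⟩
          have h5 : (Int.gcd (cr u l) (cr u q) : ℤ) ∣ cr u q := Int.gcd_dvd_right ..
          rw [← qu', cr_swap' u q]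
          exact (dvd_neg).2 h5)
        (fun _ => by
          have := (hR.relM h hN hr g1).1
          rw [Um, ← g2] at this
          exact this)
        (by rw [hc.pV] at hlt; rw [um] at hlt; linarith)
        (by
          have : r * (k * cr l x) = r * cr U x := by
            rw [Um, ← g2] at har
            linear_combination -har
          rw [mul_left_cancel₀ hpos.ne' this]
          exact bW)
        (by linarith) (by linarith)
      refine fin (a := b) (b := a) (by rw [mul_comm]; exact hab) ?_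
      refine idx_bound hpos b0 a0 ?_ e3 e1 e2 hidx
      rw [← g2]
      exact Dvd.intro_left _ rfl
  · -- `η = r`
    obtain ⟨i, u, hi, hu, ul, um, hlt⟩ := hR.rowC hr g1.symm
    obtain ⟨c1, c2⟩ := h.contC hR.okc hN hi hu (by rw [ul]; exact hpos) um hlt
    have qu := hR.q_cross u
    have su := hR.s_cross u
    rw [hr] at qu
    rw [hr, cr_swap' u l, ul] at su
    have su' : cr u s = cr s m := by
      have : r * cr u s = r * cr s m := by
        rw [cr_swap' s u]
        linear_combination -su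
      exact mul_left_cancel₀ hpos.ne' this
    have hZu : Z ∣ cr u m := by
      rw [hu, cr_zz_left, Um]
      exact dvd_add (Dvd.intro_left (i * k) (by ring)) (Dvd.dvd.mul_left hc.xm _)
    obtain ⟨a, b, a0, b0, hab, e1, e2, e3⟩ := row_heights (Z := Z) (D1 := cr q l)
      (D2 := cr s m) (J := cr u m) (T := T) hpos hk htau d1 d2 um hZu (by
        rw [ul] at c1
        have c3 : (Int.gcd r (cr u q) : ℤ) ≤ r := Int.le_of_dvd hpos (Int.gcd_dvd_left ..)
        have c4 : (Int.gcd r (cr u q) : ℤ) = r := le_antisymm c3 c1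
        obtain ⟨t, ht⟩ : r ∣ cr u q := by
          have : (Int.gcd r (cr u q) : ℤ) ∣ cr u q := Int.gcd_dvd_right ..
          rwa [c4] at this
        refine ⟨-t, ?_⟩
        have e5 : cr q u = -cr u q := cr_swap' u q
        rw [e5, ht] at qu
        linear_combination -qu)
      (by
        refine ⟨_, c2, Int.gcd_dvd_left .., ?_⟩
        rw [← su']
        exact Int.gcd_dvd_right ..)
      (fun g2 => by
        have := (hR.relL h hN hr hc g2).1
        rw [← g1] at this
        exact this)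
      (by rw [ul] at hlt; linarith)
      (by
        have : k * Z * r = cr U x * r := by rw [har, Um, ← g1]
        rw [mul_right_cancel₀ hpos.ne' this]
        exact bW)
      (by linarith) (by linarith)
    refine fin hab ?_
    refine idx_bound hpos a0 b0 e1 e2 ?_ e3 hidx
    rw [← g1]
    exact Dvd.intro_left _ rfl

end Pool.Agent.H4G.Six
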