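import Pool.Agent.H4G.Six.RC14

/-!
# Rectangular configurations: centres, exits and twists (typed by helper86)

`CtB O N c`: all contents are at least `c` (`RC.ctb`: `c = r`, `RB.ctb`: `c = b`).
`CtB.cen`: the centre `z` and its two contents. `CtB.exitR`: the exit at a vector `x` with
`0 < x × m < l × x < W`, its centres and their contents. `RC.twistM`, `RC.twistL`: the twists.
-/

set_option autoImplicit false

namespace Pool.Agent.H4G.Six

open Pool.Agent.H4G

variable {X : Type} {O : PO X} {N r b c : ℤ} {U x u v l q m s z : Z2}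

/-! ## Contents -/

/-- all contents of the trees are at least `c` -/
def CtB (O : PO X) (N c : ℤ) : Prop :=
  ∀ u v l q m s : Z2, Has6 O (u, v, l, q, m, s) → vol6 (u, v, l, q, m, s) = N → c ≤ ct u l q

theorem RC.ctb (h : RC O N r) : CtB O N r := h.cont

theorem RB.ctb (h : RB O N r b) : CtB O N b := h.bm.least

theorem BMin.ctb (h : BMin O N b) : CtB O N b := h.least

theorem CtB.contM (h : CtB O N c) (hT : Has6 O (u, v, l, q, m, s))
    (hN : vol6 (u, v, l, q, m, s) = N) : c ≤ ct u m s := by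
  have := h _ _ _ _ _ _ hT.swap (vol6_swap.trans hN)
  unfold ct at *
  rwa [cr_negl, cr_negr, neg_neg, cr_negl, cr_negr, neg_neg] at this

/-! ## Centres -/

/-- **a centre of a configuration** and the contents -/
theorem CtB.cen (h : CtB O N c) (hC : OKC O (U, x, l, q, m, s))
    (hN : volC (U, x, l, q, m, s) = N) {i j : ℤ} (hij : IsCoprime i j)
    (hz : z = i • U + j • x) (h1 : 0 < cr z l) (h2 : 0 < cr z m)
    (h3 : cr z l + cr z m < cr U x) :
    ∃ v, Has6 O (z, v, l, q, m, s) ∧ vol6 (z, v, l, q, m, s) = N ∧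
      lat z (v + l + m) = lat U x ∧ c ≤ Int.gcd (cr z l) (cr q z) ∧
      c ≤ Int.gcd (cr z m) (cr s z) := by
  obtain ⟨x', k1, k2, k3⟩ := hC.recenter hij hz
  have hT := k3.center h1 h2 (by rw [k2]; exact h3)
  have hV : vol6 (z, x' - l - m, l, q, m, s) = N := by
    rw [← hN]
    simp only [vol6, volC]
    rw [← k2]
    simp only [cr, Prod.fst_sub, Prod.snd_sub]
    ring
  have a1 := h _ _ _ _ _ _ hT hV
  have a2 := h.contM hT hV
  unfold ct at a1 a2
  rw [cr_swap' q z, Int.gcd_neg] at a1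
  rw [cr_swap' s z, Int.gcd_neg] at a2
  refine ⟨x' - l - m, hT, hV, ?_, a1, a2⟩
  have e : x' - l - m + l + m = x' := by abel
  rw [e, k1]

theorem RC.cen (h : RC O N r) (hC : OKC O (U, x, l, q, m, s))
    (hN : volC (U, x, l, q, m, s) = N) {i j : ℤ} (hij : IsCoprime i j)
    (hz : z = i • U + j • x) (h1 : 0 < cr z l) (h2 : 0 < cr z m)
    (h3 : cr z l + cr z m < cr U x) :
    ∃ v, Has6 O (z, v, l, q, m, s) ∧ vol6 (z, v, l, q, m, s) = N ∧
      lat z (v + l + m) = lat U x ∧ r ≤ Int.gcd (cr z l) (cr q z) ∧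
      r ≤ Int.gcd (cr z m) (cr s z) := h.ctb.cen hC hN hij hz h1 h2 h3

/-- the contents of a rectangular configuration -/
theorem CtB.cenR (h : CtB O N c) (hR : Rect O U x l q m s) (hr : cr l m = r)
    (hN : volC (U, x, l, q, m, s) = N) {i j : ℤ} (hij : IsCoprime i j)
    (hz : z = i • U + j • x) (h1 : 0 < cr z l) (h2 : 0 < cr z m)
    (h3 : cr z l + cr z m < cr U x) :
    ∃ P Q : ℤ, r * P = cr q l * cr z m ∧ r * Q = cr s m * cr z l ∧
      c ≤ Int.gcd (cr z l) P ∧ c ≤ Int.gcd (cr z m) Q := by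
  obtain ⟨v, -, -, -, a1, a2⟩ := h.cen hR.okc hN hij hz h1 h2 h3
  refine ⟨cr q z, -cr s z, ?_, ?_, a1, ?_⟩
  · rw [← hr]; exact hR.q_cross z
  · have := hR.s_cross z
    rw [hr] at this
    rw [mul_neg, this, cr_swap' z l]; ring
  · rw [Int.gcd_neg]; exact a2

theorem RC.cenR (h : RC O N r) (hR : Rect O U x l q m s) (hr : cr l m = r)
    (hN : volC (U, x, l, q, m, s) = N) {i j : ℤ} (hij : IsCoprime i j)
    (hz : z = i • U + j • x) (h1 : 0 < cr z l) (h2 : 0 < cr z m)
    (h3 : cr z l + cr z m < cr U x) :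
    ∃ P Q : ℤ, r * P = cr q l * cr z m ∧ r * Q = cr s m * cr z l ∧
      r ≤ Int.gcd (cr z l) P ∧ r ≤ Int.gcd (cr z m) Q :=
  h.ctb.cenR hR hr hN hij hz h1 h2 h3

/-! ## Exits -/

/-- the exit at `x`: the new configuration -/
theorem OKC.exitP (hC : OKC O (U, x, l, q, m, s)) (hN : volC (U, x, l, q, m, s) = N)
    (hr : 0 < cr l m) (h1 : 0 < cr x m) (h2 : cr x m < cr l x) (h3 : cr l x < cr U x) :
    OKC O (l, x - q, -m, -s, x, U - l) ∧ volC (l, x - q, -m, -s, x, U - l) = N ∧
      cr l (x - q) = cr l x + cr q l := by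
  have e : cr m x = -cr x m := cr_swap' x m
  refine ⟨hC.exP (by linarith) h3 (by linarith) (by linarith) hr, ?_, ?_⟩
  · rw [← hN]
    simp only [volC, cr, Prod.fst_sub, Prod.snd_sub, Prod.fst_neg, Prod.snd_neg]
    ring
  · simp only [cr, Prod.fst_sub, Prod.snd_sub]
    ring

/-- **the centres of the exit at `x`** of a rectangular configuration: the vector
`z = -(n l + j (x - q))`. -/
theorem CtB.exitR (h : CtB O N c) (hR : Rect O U x l q m s) (hr0 : 0 < r) (hr : cr l m = r)
    (hN : volC (U, x, l, q, m, s) = N) (h1 : 0 < cr x m) (h2 : cr x m < cr l x)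
    (h3 : cr l x < cr U x) {n j : ℤ} (hnj : IsCoprime n j)
    (hz : z = -(n • l + j • (x - q))) (c1 : 0 < n * r + j * cr x m)
    (c2 : 0 < j * cr q x - n * cr l x)
    (c3 : (n * r + j * cr x m) + (j * cr q x - n * cr l x) < cr l x + cr q l) :
    cr z (-m) = n * r + j * cr x m ∧ cr z x = j * cr q x - n * cr l x ∧
    cr z (-s) = j * (cr s q - cr s x) ∧
    cr z (U - l) = j * (cr U x - cr l x - cr q l + cr q U) + n * cr U l ∧
    (∃ v, Has6 O (z, v, -m, -s, x, U - l) ∧ vol6 (z, v, -m, -s, x, U - l) = N ∧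
      lat z (v + -m + x) = lat l (x - q)) ∧
    c ≤ Int.gcd (n * r + j * cr x m) (j * (cr s x - cr s q)) ∧
    c ≤ Int.gcd (j * cr q x - n * cr l x)
      (j * (cr U x - cr l x - cr q l + cr q U) + n * cr U l) := by
  obtain ⟨k1, k2, k3⟩ := hR.okc.exitP hN (by rw [hr]; exact hr0) h1 h2 h3
  have qm := hR.qm
  have sl := hR.sl
  have ls : cr l s = 0 := by rw [cr_swap', sl, neg_zero]
  have e1 : cr z (-m) = n * r + j * cr x m := by
    have : cr z (-m) = n * cr l m + j * cr x m - j * cr q m := by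
      rw [hz]
      simp only [cr, Prod.fst_add, Prod.snd_add, Prod.fst_sub, Prod.snd_sub, Prod.fst_neg,
        Prod.snd_neg, Prod.smul_fst, Prod.smul_snd, smul_eq_mul]
      ring
    rw [this, qm, hr]; ring
  have e2 : cr z x = j * cr q x - n * cr l x := by
    rw [hz]
    simp only [cr, Prod.fst_add, Prod.snd_add, Prod.fst_sub, Prod.snd_sub, Prod.fst_neg,
      Prod.snd_neg, Prod.smul_fst, Prod.smul_snd, smul_eq_mul]
    ring
  have e3 : cr z (-s) = j * (cr s q - cr s x) := by
    have : cr z (-s) = j * (cr s q - cr s x) + n * cr l s := by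
      rw [hz]
      simp only [cr, Prod.fst_add, Prod.snd_add, Prod.fst_sub, Prod.snd_sub, Prod.fst_neg,
        Prod.snd_neg, Prod.smul_fst, Prod.smul_snd, smul_eq_mul]
      ring
    rw [this, ls]; ring
  have e4 : cr z (U - l) = j * (cr U x - cr l x - cr q l + cr q U) + n * cr U l := by
    rw [hz]
    simp only [cr, Prod.fst_add, Prod.snd_add, Prod.fst_sub, Prod.snd_sub, Prod.fst_neg,
      Prod.snd_neg, Prod.smul_fst, Prod.smul_snd, smul_eq_mul]
    ring
  obtain ⟨v, a1, a2, a3, a4, a5⟩ := h.cen k1 k2 (i := -n) (j := -j) (z := z)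
    (IsCoprime.neg_neg hnj) (by rw [hz]; module) (by rw [e1]; exact c1) (by rw [e2]; exact c2)
    (by rw [e1, e2, k3]; exact c3)
  refine ⟨e1, e2, e3, e4, ⟨v, a1, a2, a3⟩, ?_, ?_⟩
  · rw [e1, cr_swap' z (-s), Int.gcd_neg, e3] at a4
    have e5 : j * (cr s x - cr s q) = -(j * (cr s q - cr s x)) := by ring
    rw [e5, Int.gcd_neg]
    exact a4
  · rw [e2, cr_swap' z (U - l), Int.gcd_neg, e4] at a5
    exact a5

theorem RC.exitR (h : RC O N r) (hR : Rect O U x l q m s) (hr0 : 0 < r) (hr : cr l m = r)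
    (hN : volC (U, x, l, q, m, s) = N) (h1 : 0 < cr x m) (h2 : cr x m < cr l x)
    (h3 : cr l x < cr U x) {n j : ℤ} (hnj : IsCoprime n j)
    (hz : z = -(n • l + j • (x - q))) (c1 : 0 < n * r + j * cr x m)
    (c2 : 0 < j * cr q x - n * cr l x)
    (c3 : (n * r + j * cr x m) + (j * cr q x - n * cr l x) < cr l x + cr q l) :
    cr z (-m) = n * r + j * cr x m ∧ cr z x = j * cr q x - n * cr l x ∧
    cr z (-s) = j * (cr s q - cr s x) ∧
    cr z (U - l) = j * (cr U x - cr l x - cr q l + cr q U) + n * cr U l ∧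
    (∃ v, Has6 O (z, v, -m, -s, x, U - l) ∧ vol6 (z, v, -m, -s, x, U - l) = N ∧
      lat z (v + -m + x) = lat l (x - q)) ∧
    r ≤ Int.gcd (n * r + j * cr x m) (j * (cr s x - cr s q)) ∧
    r ≤ Int.gcd (j * cr q x - n * cr l x)
      (j * (cr U x - cr l x - cr q l + cr q U) + n * cr U l) :=
  h.ctb.exitR hR hr0 hr hN h1 h2 h3 hnj hz c1 c2 c3

/-- the products of the exit -/
theorem Rect.exit_cross (hR : Rect O U x l q m s) (hr : cr l m = r) :
    r * cr q x = cr q l * cr x m ∧ r * cr q U = cr q l * cr U m ∧ r * cr s x = cr s m * cr l x ∧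
      r * cr s q = -(cr s m * cr q l) ∧ r * (cr s x - cr s q) = cr s m * (cr l x + cr q l) := by
  have a1 := hR.q_cross x
  have a2 := hR.q_cross U
  have a3 := hR.s_cross x
  have a4 := hR.s_cross q
  rw [hr] at a1 a2 a3 a4
  rw [cr_swap' q l] at a4
  refine ⟨a1, a2, a3, by rw [a4]; ring, ?_⟩
  rw [mul_sub, a3, a4]; ring

/-! ## Twists -/

/-- the rectangular form of a minimal configuration, with the changes of the handles -/
theorem RC.toRectE (h : RC O N r) (hC : OKC O (U, x, l, q, m, s))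
    (hN : volC (U, x, l, q, m, s) = N) (hrr : |cr l m| = r)
    (hB : Big (AddSubgroup.closure {U, x}) (cr U x) l m) :
    ∃ a b : ℤ, Rect O U x l (q + a • l) m (s + b • m) ∧
      volC (U, x, l, q + a • l, m, s + b • m) = N := by
  obtain ⟨q0, s0, hR0, -⟩ := h.toRect hC hN hrr hB
  obtain ⟨⟨i, j, hij, a1, a2, a3⟩, ⟨i', j', hij', b1, b2, b3⟩⟩ :=
    axesB hC.1 hC.lm_ne hC.2.2 hB (fun i j hij => h.noGood hC hN hrr hij)
  have hW := hC.1
  obtain ⟨V, k1, k2⟩ := exists_basis (U := U) (x := x) i j hij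
  obtain ⟨V', k1', k2'⟩ := exists_basis (U := U) (x := x) i' j' hij'
  obtain ⟨z, hz⟩ : ∃ z : Z2, z = i • U + j • x := ⟨_, rfl⟩
  obtain ⟨z', hz'⟩ : ∃ z' : Z2, z' = i' • U + j' • x := ⟨_, rfl⟩
  have hr := hC.rpos
  rw [← hz] at k1 k2 a1 a2 a3
  rw [← hz'] at k1' k2' b1 b2 b3
  have hzl : cr l z ≠ 0 := by
    intro h0
    rw [cr_swap' l z, h0, neg_zero] at a2
    linarith
  have hzm : cr m z' ≠ 0 := by
    intro h0
    rw [cr_swap' m z', h0, neg_zero] at b2
    linarith
  have d1 := h.dvdQ (hC.basis k1 (by rw [k2]; exact hW)) (by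
      rw [← hN]
      simp only [volC]
      rw [k2]) hrr (by rw [cr_swap' z m, a1, neg_zero]) hzl
    (by rw [k2, abs_cr_comm, abs_of_pos (by linarith)]; exact a3)
  have d2 := h.dvdS (hC.basis k1' (by rw [k2']; exact hW)) (by
      rw [← hN]
      simp only [volC]
      rw [k2']) hrr (by rw [cr_swap' z' l, b1, neg_zero]) hzm
    (by rw [k2', abs_cr_comm, abs_of_pos (by linarith)]; exact b3)
  obtain ⟨a, ha⟩ := d1
  obtain ⟨b, hb⟩ := d2
  refine ⟨-a, -b, ⟨hC.twist _ _, hR0.gl, hR0.gm, ?_, ?_⟩, ?_⟩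
  · have e1 : cr (q + (-a) • l) z = 0 := by
      rw [cr_addl, ha]
      simp only [cr, Prod.smul_fst, Prod.smul_snd, smul_eq_mul]; ring
    have e2 : cr l z * cr (q + (-a) • l) m =
        cr l m * cr (q + (-a) • l) z - cr l (q + (-a) • l) * cr m z := by
      simp only [cr]; ring
    rw [e1, cr_swap' z m, a1] at e2
    simp only [mul_zero, neg_zero, sub_zero] at e2
    exact (mul_eq_zero.1 e2).resolve_left hzl
  · have e1 : cr (s + (-b) • m) z' = 0 := by
      rw [cr_addl, hb]
      simp only [cr, Prod.smul_fst, Prod.smul_snd, smul_eq_mul]; ring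
    have e2 : cr m z' * cr (s + (-b) • m) l =
        cr m l * cr (s + (-b) • m) z' - cr m (s + (-b) • m) * cr l z' := by
      simp only [cr]; ring
    rw [e1, cr_swap' z' l, b1] at e2
    simp only [mul_zero, neg_zero, sub_zero] at e2
    exact (mul_eq_zero.1 e2).resolve_left hzm
  · rw [← hN]
    simp only [volC, cr, Prod.fst_add, Prod.snd_add, Prod.smul_fst, Prod.smul_snd, smul_eq_mul]
    ring

/-- **the twist of `m`** along `x ∥ l` -/
theorem RC.twistM (h : RC O N r) (hR : Rect O U x l q m s) (hrr : |cr l m| = r)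
    (hN : volC (U, x, l, q, m, s) = N) (h0 : cr l x = 0) (h1 : 0 < cr m x)
    (h2 : cr m x < cr U x) :
    cr l m ∣ cr q (x - s) ∧ ∀ k : ℤ, ∃ a : ℤ, cr l m * a = -(k * cr q (x - s)) ∧
      Rect O (U + k • (x - s)) x l (q + a • l) (m + k • (x - s)) s ∧
      volC (U + k • (x - s), x, l, q + a • l, m + k • (x - s), s) = N ∧
      cr l (m + k • (x - s)) = cr l m ∧ cr (m + k • (x - s)) x = cr m x ∧
      cr (U + k • (x - s)) x = cr U x := by
  have hlm := hR.okc.lm_ne
  have hr := hR.okc.rpos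
  have qm := hR.qm
  have sl := hR.sl
  have ls : cr l s = 0 := by rw [cr_swap', sl, neg_zero]
  have sx : cr s x = 0 := by
    have := hR.s_cross x
    rw [h0, mul_zero] at this
    exact (mul_eq_zero.1 this).resolve_left hlm
  have key : ∀ k : ℤ, ∃ a : ℤ, cr l m * a = -(k * cr q (x - s)) ∧
      Rect O (U + k • (x - s)) x l (q + a • l) (m + k • (x - s)) s ∧
      volC (U + k • (x - s), x, l, q + a • l, m + k • (x - s), s) = N ∧
      cr l (m + k • (x - s)) = cr l m ∧ cr (m + k • (x - s)) x = cr m x ∧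
      cr (U + k • (x - s)) x = cr U x := by
    intro k
    have e1 : cr l (m + k • (x - s)) = cr l m := by
      have : cr l (m + k • (x - s)) = cr l m + k * (cr l x - cr l s) := by
        simp only [cr, Prod.fst_add, Prod.snd_add, Prod.fst_sub, Prod.snd_sub, Prod.smul_fst,
          Prod.smul_snd, smul_eq_mul]
        ring
      rw [this, h0, ls]; ring
    have e2 : cr (m + k • (x - s)) x = cr m x := by
      have : cr (m + k • (x - s)) x = cr m x - k * cr s x := by
        simp only [cr, Prod.fst_add, Prod.snd_add, Prod.fst_sub, Prod.snd_sub, Prod.smul_fst,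
          Prod.smul_snd, smul_eq_mul]
        ring
      rw [this, sx]; ring
    have e3 : cr s (m + k • (x - s)) = cr s m := by
      have : cr s (m + k • (x - s)) = cr s m + k * cr s x := by
        simp only [cr, Prod.fst_add, Prod.snd_add, Prod.fst_sub, Prod.snd_sub, Prod.smul_fst,
          Prod.smul_snd, smul_eq_mul]
        ring
      rw [this, sx]; ring
    have e4 : cr (U + k • (x - s)) x = cr U x := by
      have : cr (U + k • (x - s)) x = cr U x - k * cr s x := by
        simp only [cr, Prod.fst_add, Prod.snd_add, Prod.fst_sub, Prod.snd_sub, Prod.smul_fst,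
          Prod.smul_snd, smul_eq_mul]
        ring
      rw [this, sx]; ring
    obtain ⟨k1, k2⟩ := hR.okc.degR (m' := m + k • (x - s)) (s' := s) h0 h1 h2
      (by rw [e2]; exact h1) (by rw [e3]; exact hR.okc.posS)
      (closure_pair_eq (α := 1) (β := k) (γ := 0) (δ := 1) (by module) (by module)
        (Or.inl (by norm_num)))
    have e5 : U - m + (m + k • (x - s)) = U + k • (x - s) := by abel
    rw [e5] at k1 k2
    have hfar : |cr l m| < cr m x := by
      by_contra hc
      push Not at hc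
      have hx0 : x ≠ 0 := by
        rintro rfl
        simp [cr] at h1
      refine hR.okc.2.2.sq (z := x) (AddSubgroup.subset_closure (by simp)) hx0 ?_ ?_ ?_
      · rw [cr_swap' l x, h0]; simp
      · rw [cr_swap' l x, h0]; simp
      · rw [cr_swap' m x, abs_neg, abs_of_pos h1]; exact hc
    obtain ⟨a, b, hR', hN'⟩ := h.toRectE k1 (k2.trans hN) (by rw [e1]; exact hrr)
      (Or.inr (Or.inr (Or.inr ⟨x, AddSubgroup.subset_closure (by simp),
        by rw [cr_swap' l x, h0, neg_zero], by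
          rw [abs_cr_comm, e1, abs_cr_comm x, e2, abs_of_pos h1]; exact hfar, by
          rw [abs_cr_comm x, e2, abs_of_pos h1, e4]; exact h2.le⟩)))
    have hb : b = 0 := by
      have h3 := hR'.sl
      have : cr (s + b • (m + k • (x - s))) l = cr s l - b * cr l (m + k • (x - s)) := by
        simp only [cr, Prod.fst_add, Prod.snd_add, Prod.fst_sub, Prod.snd_sub, Prod.smul_fst,
          Prod.smul_snd, smul_eq_mul]
        ring
      rw [this, e1, sl, zero_sub, neg_eq_zero] at h3
      exact (mul_eq_zero.1 h3).resolve_right hlm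
    rw [hb, zero_smul, add_zero] at hR' hN'
    refine ⟨a, ?_, hR', hN', e1, e2, e4⟩
    have h3 := hR'.qm
    have : cr (q + a • l) (m + k • (x - s)) = cr q m + k * cr q (x - s) +
        a * cr l (m + k • (x - s)) := by
      simp only [cr, Prod.fst_add, Prod.snd_add, Prod.fst_sub, Prod.snd_sub, Prod.smul_fst,
        Prod.smul_snd, smul_eq_mul]
      ring
    rw [this, qm, e1] at h3
    linarith
  refine ⟨?_, key⟩
  obtain ⟨a, ha, -⟩ := key 1
  exact ⟨-a, by rw [mul_neg, ha]; ring⟩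

/-- **the twist of `l`** along `x ∥ m` -/
theorem RC.twistL (h : RC O N r) (hR : Rect O U x l q m s) (hrr : |cr l m| = r)
    (hN : volC (U, x, l, q, m, s) = N) (h0 : cr m x = 0) (h1 : 0 < cr l x)
    (h2 : cr l x < cr U x) :
    cr l m ∣ cr s (x - q) ∧ ∀ k : ℤ, ∃ a : ℤ, cr l m * a = k * cr s (x - q) ∧
      Rect O (U + k • (x - q)) x (l + k • (x - q)) q m (s + a • m) ∧
      volC (U + k • (x - q), x, l + k • (x - q), q, m, s + a • m) = N ∧
      cr (l + k • (x - q)) m = cr l m ∧ cr (l + k • (x - q)) x = cr l x ∧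
      cr (U + k • (x - q)) x = cr U x := by
  have e : ∀ a b : Z2, cr (-a) (-b) = cr a b := by
    intro a b
    rw [cr_negl, cr_negr, neg_neg]
  obtain ⟨j1, j2⟩ := h.twistM hR.neg.rev (by rw [e, abs_cr_comm]; exact hrr) (by
      rw [← hN]
      simp only [volC, e]
      ring) (by rw [e]; exact h0) (by rw [e]; exact h1) (by rw [e, e]; exact h2)
  have e0 : -x - -q = -(x - q) := by abel
  rw [e0, e, e, cr_swap' l m] at j1
  refine ⟨neg_dvd.1 j1, fun k => ?_⟩
  obtain ⟨a, a1, a2, a3, a4, a5, a6⟩ := j2 k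
  rw [e0] at a1 a2 a3 a4 a5 a6
  have e1 : -l + k • -(x - q) = -(l + k • (x - q)) := by module
  have e2 : -U + k • -(x - q) = -(U + k • (x - q)) := by module
  have e3 : -s + a • -m = -(s + a • m) := by module
  rw [e1] at a2 a3 a4 a5
  rw [e2] at a2 a3 a6
  rw [e3] at a2 a3
  rw [e, e, cr_swap' l m] at a1
  rw [e, e] at a4 a5 a6
  have a7 := a2.neg.rev
  rw [neg_neg, neg_neg, neg_neg, neg_neg, neg_neg, neg_neg] at a7
  refine ⟨a, by linarith, a7, ?_, ?_, a5, a6⟩
  · rw [← a3]
    simp only [volC, e]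
    ring
  · rw [cr_swap' (l + k • (x - q)) m, cr_swap' l m] at a4
    linarith

end Pool.Agent.H4G.Six
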