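import Pool.Agent.H4G.Six.Can.Sv

/-!
# The room lemma (helper27)

Regime (R1) of stage II: the lattice of the pencil over the pair `(g, m')` always has a primitive
point in the triangle which avoids one linear condition for every prime of a given number.
-/

set_option autoImplicit false

namespace Pool.Agent.H4G.Six

open Pool.Agent.H4G

/-- the two basis vectors given by the minimal good denominator -/
theorem room_basis (σ : ℝ) (J Q : ℕ) (hJ : 2 ≤ J) (hQ : 256 * J ^ 2 ≤ Q) :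
    ∃ a0 b0 a1 b1 : ℤ, a0 * b1 - a1 * b0 = 1 ∧ 0 ≤ b0 ∧ b0 < b1 ∧ b1 ≤ Q ∧
      |(a1 : ℝ) - b1 * σ| ≤ 1 / (Q + 1) ∧
      ((8 * J ≤ b1 ∧ ∃ n1 : ℤ, 1 ≤ n1 ∧ n1 ≤ Q ∧ ∀ n t : ℤ, n1 ≤ n → n < n1 + J → 0 ≤ t → t < J →
          0 < ((n * a0 + t * a1 : ℤ) : ℝ) - (n * b0 + t * b1 : ℤ) * σ ∧
          ((n * a0 + t * a1 : ℤ) : ℝ) - (n * b0 + t * b1 : ℤ) * σ ≤ 3 / 4 ∧
          n * b0 + t * b1 ≤ 3 * (Q : ℤ) ^ 2) ∨
       (2 ≤ b1 ∧ b1 < 8 * J ∧ ∀ t : ℤ, 0 ≤ t → t < J →
          0 < ((a0 + t * a1 : ℤ) : ℝ) - (b0 + t * b1 : ℤ) * σ ∧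
          ((a0 + t * a1 : ℤ) : ℝ) - (b0 + t * b1 : ℤ) * σ ≤ 3 / 4 ∧
          b0 + t * b1 ≤ 3 * (Q : ℤ) ^ 2) ∨
       (b1 = 1 ∧ b0 = 0 ∧ a0 = 1)) := by
  have hJ' : (2 : ℝ) ≤ J := by exact_mod_cast hJ
  have hQ' : 256 * (J : ℝ) ^ 2 ≤ Q := by exact_mod_cast hQ
  have hQ0 : 0 < Q := by
    have : 0 < 256 * J ^ 2 := by positivity
    omega
  have hQr : (0 : ℝ) < Q := by exact_mod_cast hQ0
  have hQ1 : (0 : ℝ) < (Q : ℝ) + 1 := by linarith
  have hQJ : 256 * (J : ℝ) * J ≤ Q := by nlinarith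
  have hex : ∃ k : ℕ, 0 < k ∧ |(k : ℝ) * σ - round ((k : ℝ) * σ)| ≤ 1 / ((Q : ℝ) + 1) := by
    obtain ⟨k, h1, h2, h3⟩ := Real.exists_nat_abs_mul_sub_round_le σ hQ0
    exact ⟨k, h1, h3⟩
  classical
  set k := Nat.find hex with hk
  obtain ⟨hk0, hk1⟩ := Nat.find_spec hex
  rw [← hk] at hk0 hk1
  have hkQ : k ≤ Q := by
    obtain ⟨k', h1, h2, h3⟩ := Real.exists_nat_abs_mul_sub_round_le σ hQ0
    exact (Nat.find_min' hex ⟨h1, h3⟩).trans h2
  have hmin : ∀ j : ℕ, 0 < j → j < k → ∀ i : ℤ, 1 / ((Q : ℝ) + 1) < |(i : ℝ) - j * σ| := by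
    intro j h1 h2 i
    have h3 := Nat.find_min hex h2
    have h4 : 1 / ((Q : ℝ) + 1) < |(j : ℝ) * σ - round ((j : ℝ) * σ)| := by
      by_contra hc
      exact h3 ⟨h1, not_lt.1 hc⟩
    refine h4.trans_le ?_
    rw [abs_sub_comm (i : ℝ)]
    exact round_le _ i
  set a1 : ℤ := round ((k : ℝ) * σ) with ha1
  have hη : |(a1 : ℝ) - (k : ℤ) * σ| ≤ 1 / ((Q : ℝ) + 1) := by
    rw [abs_sub_comm]
    push_cast
    exact hk1
  -- coprimality
  have hcop : IsCoprime a1 (k : ℤ) := by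
    rw [Int.isCoprime_iff_gcd_eq_one]
    by_contra hg
    set g := Int.gcd a1 k with hgdef
    have hg0 : 0 < g := Int.gcd_pos_of_ne_zero_right _ (by exact_mod_cast hk0.ne')
    have hg2 : 2 ≤ g := by omega
    obtain ⟨a', ha'⟩ : (g : ℤ) ∣ a1 := Int.gcd_dvd_left _ _
    obtain ⟨k', hk'⟩ : (g : ℤ) ∣ (k : ℤ) := Int.gcd_dvd_right _ _
    have hk'0 : 0 < k' := by
      have : (0 : ℤ) < g * k' := by rw [← hk']; exact_mod_cast hk0
      exact (mul_pos_iff_of_pos_left (by exact_mod_cast hg0)).1 this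
    obtain ⟨kk, rfl⟩ : ∃ kk : ℕ, k' = kk := ⟨k'.toNat, (Int.toNat_of_nonneg hk'0.le).symm⟩
    have h1 : 0 < kk := by exact_mod_cast hk'0
    have h2 : kk < k := by
      have : (k : ℤ) = g * kk := hk'
      have h3 : k = g * kk := by exact_mod_cast this
      rw [h3]
      nlinarith
    have h3 := hmin kk h1 h2 a'
    have e : (a1 : ℝ) - (k : ℤ) * σ = g * ((a' : ℝ) - kk * σ) := by
      rw [ha', show ((k : ℤ) : ℝ) = (g : ℝ) * kk by rw [hk']; push_cast; ring]
      push_cast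
      ring
    rw [e, abs_mul] at hη
    have hgr : (2 : ℝ) ≤ |(g : ℝ)| := by
      rw [abs_of_pos (by exact_mod_cast hg0)]
      exact_mod_cast hg2
    have hpos : (0 : ℝ) < 1 / ((Q : ℝ) + 1) := by positivity
    nlinarith [abs_nonneg ((a' : ℝ) - kk * σ)]
  -- the second vector
  obtain ⟨x, y, hxy⟩ := hcop
  -- `x a1 + y k = 1`
  set b1 : ℤ := (k : ℤ) with hb1
  have hb1pos : 0 < b1 := by rw [hb1]; exact_mod_cast hk0
  set b0 : ℤ := (-x) % b1 with hb0
  have hb00 : 0 ≤ b0 := Int.emod_nonneg _ hb1pos.ne'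
  have hb01 : b0 < b1 := Int.emod_lt_of_pos _ hb1pos
  set a0 : ℤ := y - a1 * ((-x) / b1) with ha0
  have hdet : a0 * b1 - a1 * b0 = 1 := by
    have h1 : b0 = -x - b1 * ((-x) / b1) := by
      rw [hb0, Int.emod_def]
    rw [h1, ha0]
    linear_combination hxy
  refine ⟨a0, b0, a1, b1, hdet, hb00, hb01, by rw [hb1]; exact_mod_cast hkQ, hη, ?_⟩
  set η : ℝ := (a1 : ℝ) - b1 * σ with hηd
  have hb1r : (0 : ℝ) < b1 := by exact_mod_cast hb1pos
  have hb1Q : (b1 : ℝ) ≤ Q := by rw [hb1]; exact_mod_cast hkQ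
  have hb0r : (0 : ℝ) ≤ b0 := by exact_mod_cast hb00
  have hb0r1 : (b0 : ℝ) < b1 := by exact_mod_cast hb01
  have hω : ((a0 : ℝ) - b0 * σ) * b1 = 1 + b0 * η := by
    have h1 : (a0 : ℝ) * b1 - a1 * b0 = 1 := by exact_mod_cast hdet
    rw [hηd]
    linear_combination h1
  have hηQ : |η| * (Q + 1) ≤ 1 := by
    rw [← le_div_iff₀ hQ1]
    exact hη
  have hη1 : -1 ≤ η * (Q + 1) := by
    have := (abs_le.1 (by rw [abs_mul, abs_of_pos hQ1]; exact hηQ : |η * (Q + 1)| ≤ 1)).1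
    exact this
  have hη2 : η * (Q + 1) ≤ 1 :=
    (abs_le.1 (by rw [abs_mul, abs_of_pos hQ1]; exact hηQ : |η * (Q + 1)| ≤ 1)).2
  set ω : ℝ := (a0 : ℝ) - b0 * σ with hωd
  rcases lt_or_ge b1 (8 * J) with hb8 | hb8
  · rcases lt_or_ge b1 2 with hb2 | hb2
    · right; right
      have e1 : b1 = 1 := by omega
      have e0 : b0 = 0 := by omega
      refine ⟨e1, e0, ?_⟩
      rw [e1, e0] at hdet
      linarith
    · right; left
      refine ⟨hb2, hb8, fun t h1 h2 => ?_⟩
      have hb8r : (b1 : ℝ) < 8 * J := by exact_mod_cast hb8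
      have hb2r : (2 : ℝ) ≤ b1 := by exact_mod_cast hb2
      have h1r : (0 : ℝ) ≤ t := by exact_mod_cast h1
      have h2r : (t : ℝ) < J := by exact_mod_cast h2
      have e : ((a0 + t * a1 : ℤ) : ℝ) - (b0 + t * b1 : ℤ) * σ = ω + t * η := by
        rw [hωd, hηd]
        push_cast
        ring
      rw [e]
      have k1 : |t * η| * (256 * J) ≤ 1 := by
        rw [abs_mul, abs_of_nonneg h1r]
        have : (t : ℝ) * |η| * (256 * J) ≤ |η| * (Q + 1) := by
          have h3 : (t : ℝ) * (256 * J) ≤ Q + 1 := by nlinarith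
          calc (t : ℝ) * |η| * (256 * J) = |η| * (t * (256 * J)) := by ring
            _ ≤ |η| * (Q + 1) := mul_le_mul_of_nonneg_left h3 (abs_nonneg _)
        linarith
      have k2 : |b0 * η| * 32 ≤ 1 := by
        rw [abs_mul, abs_of_nonneg hb0r]
        have : (b0 : ℝ) * |η| * 32 ≤ |η| * (Q + 1) := by
          have h3 : (b0 : ℝ) * 32 ≤ Q + 1 := by nlinarith
          calc (b0 : ℝ) * |η| * 32 = |η| * (b0 * 32) := by ring
            _ ≤ |η| * (Q + 1) := mul_le_mul_of_nonneg_left h3 (abs_nonneg _)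
        linarith
      have k2a := (abs_le.1 (show |b0 * η| ≤ 1 / 32 by linarith)).1
      have k2b := (abs_le.1 (show |b0 * η| ≤ 1 / 32 by linarith)).2
      have k1' : |t * η| ≤ 1 / (256 * J) := by
        rw [le_div_iff₀ (by positivity)]; exact k1
      have k1a := (abs_le.1 k1').1
      have k1b := (abs_le.1 k1').2
      have hJ3 : 1 / (256 * (J : ℝ)) ≤ 1 / 512 := by
        apply one_div_le_one_div_of_le <;> linarith
      have hb3 : 1 / (256 * (J : ℝ)) * b1 < 1 / 32 := by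
        have : 1 / (256 * (J : ℝ)) * b1 < 1 / (256 * (J : ℝ)) * (8 * J) :=
          mul_lt_mul_of_pos_left hb8r (by positivity)
        have e2 : 1 / (256 * (J : ℝ)) * (8 * J) = 1 / 32 := by
          field_simp
          norm_num
        linarith
      refine ⟨?_, ?_, ?_⟩
      · by_contra hc
        push Not at hc
        have : (ω + t * η) * b1 ≤ 0 := mul_nonpos_of_nonpos_of_nonneg hc hb1r.le
        nlinarith
      · have h5 : ω * b1 ≤ 33 / 32 := by rw [hω]; linarith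
        have h6 : ω ≤ 33 / 64 := by nlinarith
        linarith
      · have : b0 + t * b1 ≤ 8 * J * J := by nlinarith
        have h7 : (256 : ℤ) * J ^ 2 ≤ Q := by exact_mod_cast hQ
        nlinarith
  · left
    refine ⟨hb8, ?_⟩
    have hb8r : 8 * (J : ℝ) ≤ b1 := by exact_mod_cast hb8
    have hb0pos : 0 < b0 := by
      rcases hb00.lt_or_eq with h | h
      · exact h
      · exfalso
        rw [← h] at hdet
        have h9 : a0 * b1 = 1 := by linarith
        have h10 : b1 ∣ 1 := ⟨a0, by linarith⟩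
        have h11 := Int.le_of_dvd one_pos h10
        have : (8 : ℤ) * J ≥ 16 := by
          have : (2 : ℤ) ≤ J := by exact_mod_cast hJ
          linarith
        linarith
    have hω1 : 1 / ((Q : ℝ) + 1) < |ω| := by
      obtain ⟨bb, hbb⟩ : ∃ bb : ℕ, b0 = bb := ⟨b0.toNat, (Int.toNat_of_nonneg hb00).symm⟩
      have h1 : 0 < bb := by rw [hbb] at hb0pos; exact_mod_cast hb0pos
      have h2 : bb < k := by rw [hbb, hb1] at hb01; exact_mod_cast hb01
      have := hmin bb h1 h2 a0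
      rw [hωd, hbb]
      push_cast
      exact this
    have hb0η : -1 < b0 * η := by
      have h3 : (b0 : ℝ) < Q + 1 := by linarith
      rcases le_or_gt 0 η with h4 | h4
      · have := mul_nonneg hb0r h4
        linarith
      · nlinarith
    have hωpos : 0 < ω := by
      have h3 : 0 < ω * b1 := by rw [hω]; linarith
      exact (mul_pos_iff_of_pos_right hb1r).1 h3
    rw [abs_of_pos hωpos] at hω1
    have hω2 : ω * (4 * J) ≤ 1 := by
      have h3 : b0 * η ≤ 1 := by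
        rcases le_or_gt 0 η with h4 | h4
        · have : (b0 : ℝ) * η ≤ (Q + 1) * η := mul_le_mul_of_nonneg_right (by linarith) h4
          linarith
        · have := mul_nonpos_of_nonneg_of_nonpos hb0r h4.le
          linarith
      have h5 : ω * b1 ≤ 2 := by rw [hω]; linarith
      nlinarith
    have hω3 : ω * (Q + 1) > 1 := by
      have := (div_lt_iff₀ hQ1).1 hω1
      linarith
    -- the number of steps
    set n1 : ℤ := ⌈1 / (4 * ω)⌉ with hn1
    have hn1a : 1 / (4 * ω) ≤ n1 := Int.le_ceil _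
    have hn1b : (n1 : ℝ) < 1 / (4 * ω) + 1 := Int.ceil_lt_add_one _
    have hn1pos : 0 < n1 := Int.ceil_pos.2 (by positivity)
    have hωi : 1 / (4 * ω) * ω = 1 / 4 := by
      field_simp
    have hn1c : (1 : ℝ) / 4 ≤ n1 * ω := by nlinarith
    have hn1d : (n1 : ℝ) * ω < 1 / 4 + ω := by nlinarith
    have hQbig : (1024 : ℝ) ≤ Q := by nlinarith
    refine ⟨n1, hn1pos, ?_, ?_⟩
    · have h3 : 1 / (4 * ω) < (Q + 1) / 4 := by
        rw [div_lt_div_iff₀ (by positivity) (by norm_num)]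
        nlinarith
      have h4 : (n1 : ℝ) < (Q : ℝ) := by linarith
      exact_mod_cast h4.le
    · intro n t h1 h2 h3 h4
      have h1r : (n1 : ℝ) ≤ n := by exact_mod_cast h1
      have h2r : (n : ℝ) < n1 + J := by exact_mod_cast h2
      have h3r : (0 : ℝ) ≤ t := by exact_mod_cast h3
      have h4r : (t : ℝ) < J := by exact_mod_cast h4
      have e : ((n * a0 + t * a1 : ℤ) : ℝ) - (n * b0 + t * b1 : ℤ) * σ = n * ω + t * η := by
        rw [hωd, hηd]
        push_cast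
        ring
      rw [e]
      have k1 : |t * η| * (256 * J) ≤ 1 := by
        rw [abs_mul, abs_of_nonneg h3r]
        have : (t : ℝ) * |η| * (256 * J) ≤ |η| * (Q + 1) := by
          have h3 : (t : ℝ) * (256 * J) ≤ Q + 1 := by nlinarith
          calc (t : ℝ) * |η| * (256 * J) = |η| * (t * (256 * J)) := by ring
            _ ≤ |η| * (Q + 1) := mul_le_mul_of_nonneg_left h3 (abs_nonneg _)
        linarith
      have k1' : |t * η| ≤ 1 / 512 := by
        have : |t * η| * 512 ≤ |t * η| * (256 * J) :=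
          mul_le_mul_of_nonneg_left (by linarith) (abs_nonneg _)
        linarith
      have k1a := (abs_le.1 k1').1
      have k1b := (abs_le.1 k1').2
      have hω8 : ω ≤ 1 / 8 := by nlinarith
      have hωJ : ω * J ≤ 1 / 4 := by linarith
      have l1 : (1 : ℝ) / 4 ≤ n * ω := by nlinarith
      have l2 : (n : ℝ) * ω ≤ 1 / 4 + ω + 1 / 4 := by nlinarith
      refine ⟨by linarith, by linarith, ?_⟩
      have hn1Q : (n1 : ℤ) ≤ Q := by
        have h3 : 1 / (4 * ω) < (Q + 1) / 4 := by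
          rw [div_lt_div_iff₀ (by positivity) (by norm_num)]
          nlinarith
        have h4 : (n1 : ℝ) < (Q : ℝ) := by linarith
        exact_mod_cast h4.le
      have hb1Q' : b1 ≤ Q := by rw [hb1]; exact_mod_cast hkQ
      have hJQ : (2 * J : ℤ) ≤ Q := by
        have : (256 : ℤ) * J ^ 2 ≤ Q := by exact_mod_cast hQ
        have h5 : (2 : ℤ) ≤ J := by exact_mod_cast hJ
        nlinarith
      have hn2 : n ≤ 2 * (Q : ℤ) := by linarith
      have hn0 : 0 ≤ n := by linarith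
      have m1 : n * b0 ≤ 2 * (Q : ℤ) * Q := by
        calc n * b0 ≤ n * Q := mul_le_mul_of_nonneg_left (by linarith) hn0
          _ ≤ 2 * (Q : ℤ) * Q := mul_le_mul_of_nonneg_right hn2 (by positivity)
      have m2 : t * b1 ≤ (Q : ℤ) * Q := by
        calc t * b1 ≤ t * Q := mul_le_mul_of_nonneg_left hb1Q' h3
          _ ≤ (Q : ℤ) * Q := mul_le_mul_of_nonneg_right (by linarith) (by positivity)
      nlinarith

end Pool.Agent.H4G.Six
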