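import Pool.Agent.H4G.Six.Twist
import Mathlib.Topology.Instances.Real.Lemmas
import Mathlib.Topology.Connected.Basic
import Mathlib.Topology.Order.LeftRight

/-!
# The slit plane (helper96)

A torus `ℝ² / Λ`, slit along `-l → 0` and `0 → m`, is developed in the origami: `φ y z` is the
value of the development near the point `y` on the square `z`.
-/

set_option autoImplicit false

namespace Pool.Agent.H4G.Six

open Pool.Agent.H4G Filter Topology

variable {X : Type}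

/-- the closed segment -/
def CSeg (A B : Z2) : Set V :=
  {x | ∃ t : ℝ, 0 ≤ t ∧ t ≤ 1 ∧
    x = ((1 - t) * A.1 + t * B.1, (1 - t) * A.2 + t * B.2)}

/-- the point `y` is not on the slits -/
def Reg (Λ : AddSubgroup Z2) (l m : Z2) (y : V) : Prop :=
  ∀ c ∈ Λ, y - em c ∉ CSeg (-l) 0 ∧ y - em c ∉ CSeg 0 m

/-- development of the slit plane; the left side of the slit `-l → 0` has the germ `L1`, its right
side has the germ `L0`; the left side of the slit `0 → m` has the germ `M1`, its right side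
has the germ `M0` -/
structure SPD (O : PO X) (Λ : AddSubgroup Z2) (l m : Z2) (L0 L1 M0 M1 : Z2 → X)
    (φ : V → Z2 → X) : Prop where
  dev : ∀ y, Reg Λ l m y → DevAt O y (φ y)
  lc : ∀ y, Reg Λ l m y → ∀ᶠ y' in 𝓝 y, ∀ z, Nr y' z → φ y' z = φ y z
  per : ∀ y, Reg Λ l m y → ∀ c ∈ Λ, ∀ z, Nr y z → φ (y + em c) (z + c) = φ y z
  sL0 : ∀ y ∈ Seg 0 l, ∀ᶠ y' in 𝓝 y, crx l y' < 0 → ∀ z, Nr y' z → φ (y' - em l) (z - l) = L0 z
  sL1 : ∀ y ∈ Seg 0 l, ∀ᶠ y' in 𝓝 y, 0 < crx l y' → ∀ z, Nr y' z → φ (y' - em l) (z - l) = L1 z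
  sM0 : ∀ y ∈ Seg 0 m, ∀ᶠ y' in 𝓝 y, crx m y' < 0 → ∀ z, Nr y' z → φ y' z = M0 z
  sM1 : ∀ y ∈ Seg 0 m, ∀ᶠ y' in 𝓝 y, 0 < crx m y' → ∀ z, Nr y' z → φ y' z = M1 z
  dL0 : ∀ y ∈ Seg 0 l, DevAt O y L0
  dL1 : ∀ y ∈ Seg 0 l, DevAt O y L1
  dM0 : ∀ y ∈ Seg 0 m, DevAt O y M0
  dM1 : ∀ y ∈ Seg 0 m, DevAt O y M1

/-! ## Neighbourhoods -/

/-- near `y`, the integer inequalities of a continuous function persist -/
theorem ev_int {H : V → ℝ} (hH : Continuous H) (y : V) : ∀ᶠ y' in 𝓝 y, ∀ n : ℤ,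
    ((n : ℝ) ≤ H y' → (n : ℝ) ≤ H y) ∧ (H y' ≤ n → H y ≤ n) := by
  have h1 : ∀ᶠ y' in 𝓝 y, H y' < (⌊H y⌋ : ℝ) + 1 :=
    hH.continuousAt.eventually_lt continuousAt_const (Int.lt_floor_add_one _)
  have h2 : ∀ᶠ y' in 𝓝 y, (⌈H y⌉ : ℝ) - 1 < H y' :=
    continuousAt_const.eventually_lt hH.continuousAt (by linarith [Int.ceil_lt_add_one (H y)])
  filter_upwards [h1, h2] with y' h1 h2 n
  constructor
  · intro h
    have h3 : (n : ℝ) < (⌊H y⌋ : ℝ) + 1 := lt_of_le_of_lt h h1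
    have h4 : n < ⌊H y⌋ + 1 := by exact_mod_cast h3
    have h5 : n ≤ ⌊H y⌋ := by omega
    exact Int.le_floor.1 h5
  · intro h
    have h3 : (⌈H y⌉ : ℝ) - 1 < n := lt_of_lt_of_le h2 h
    have h4 : ⌈H y⌉ - 1 < n := by exact_mod_cast h3
    have h5 : ⌈H y⌉ ≤ n := by omega
    exact Int.ceil_le.1 h5

theorem crx_cont (a : Z2) : Continuous (crx a) := by
  unfold crx
  fun_prop

/-- squares near a nearby point are near -/
theorem ev_nr (y : V) : ∀ᶠ y' in 𝓝 y, ∀ z, Nr y' z → Nr y z := by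
  filter_upwards [ev_int continuous_fst y, ev_int continuous_snd y] with y' h1 h2 z hz
  obtain ⟨a1, a2, a3, a4⟩ := hz
  refine ⟨(h1 z.1).1 a1, ?_, (h2 z.2).1 a3, ?_⟩
  · have := (h1 (z.1 + 1)).2 (by push_cast; exact a2)
    push_cast at this
    exact this
  · have := (h2 (z.2 + 1)).2 (by push_cast; exact a4)
    push_cast at this
    exact this

/-- points of the segment from `x` to `y` -/
def lin (x y : V) (t : ℝ) : V := ((1 - t) * x.1 + t * y.1, (1 - t) * x.2 + t * y.2)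

theorem lin_cont (x y : V) : Continuous (lin x y) := by
  unfold lin
  fun_prop

theorem lin_zero (x y : V) : lin x y 0 = x := by
  ext <;> simp [lin]

theorem lin_one (x y : V) : lin x y 1 = y := by
  ext <;> simp [lin]

/-- locally constant functions on a segment -/
theorem seg_const {c : ℝ → X} (h : ∀ t : ℝ, 0 ≤ t → t ≤ 1 → ∀ᶠ t' in 𝓝 t, 0 ≤ t' → t' ≤ 1 →
    c t' = c t) : c 0 = c 1 := by
  let _ : TopologicalSpace X := ⊥
  have _ : DiscreteTopology X := ⟨rfl⟩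
  have hc : ContinuousOn c (Set.Icc 0 1) := by
    intro t ht
    unfold ContinuousWithinAt
    rw [nhds_discrete X]
    apply tendsto_pure.2
    rw [eventually_nhdsWithin_iff]
    filter_upwards [h t ht.1 ht.2] with t' h' ht'
    exact h' ht'.1 ht'.2
  exact isPreconnected_Icc.constant hc (Set.left_mem_Icc.2 zero_le_one)
    (Set.right_mem_Icc.2 zero_le_one)

section convex

variable {O : PO X} {Λ : AddSubgroup Z2} {l m : Z2} {L0 L1 M0 M1 : Z2 → X} {φ : V → Z2 → X}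

theorem SPD.seg_eq (h : SPD O Λ l m L0 L1 M0 M1 φ) {x y : V}
    (hR : ∀ t : ℝ, 0 ≤ t → t ≤ 1 → Reg Λ l m (lin x y t)) {z : Z2} (hx : Nr x z) (hy : Nr y z) :
    φ x z = φ y z := by
  have := seg_const (c := fun t => φ (lin x y t) z) (by
    intro t h0 h1
    have e1 := (lin_cont x y).continuousAt.eventually (h.lc (lin x y t) (hR t h0 h1))
    filter_upwards [e1] with t' e1 h0' h1'
    exact e1 z (nr_comb hx hy h0' h1'))
  simp only [lin_zero, lin_one] at this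
  exact this

/-- CONVEX DEVELOPMENT -/
theorem SPD.convex (h : SPD O Λ l m L0 L1 M0 M1 φ) {K : Set V} (hK : Cvx K)
    (hR : ∀ y ∈ K, Reg Λ l m y) : ∃ g : Z2 → X, ∀ y ∈ K, ∀ z, Nr y z → g z = φ y z := by
  classical
  refine ⟨fun z => if hz : ∃ y ∈ K, Nr y z then φ hz.choose z else φ 0 z, ?_⟩
  intro y hy z hz
  have hz' : ∃ y ∈ K, Nr y z := ⟨y, hy, hz⟩
  simp only [hz', dif_pos]
  obtain ⟨h1, h2⟩ := hz'.choose_spec
  exact h.seg_eq (fun t h0 h1' => hR _ (hK _ h1 _ hy t h0 h1')) h2 hz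

end convex

end Pool.Agent.H4G.Six
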