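import Pool.Agent.H4G.Six.Slit

/-!
# Closed segments and regular points (helper96)

-/

set_option autoImplicit false

namespace Pool.Agent.H4G.Six

open Pool.Agent.H4G Filter Topology

variable {X : Type}

/-! ## Closed segments -/

theorem cseg_pt {A B : Z2} {y : V} (h : y ∈ CSeg A B) : ∃ t : ℝ, 0 ≤ t ∧ t ≤ 1 ∧
    (∀ c : Z2, crx c y = (1 - t) * cr c A + t * cr c B) := by
  obtain ⟨t, h0, h1, rfl⟩ := h
  refine ⟨t, h0, h1, fun c => ?_⟩
  simp only [crx, cr_cast]; ring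

theorem cseg_comm (A B : Z2) : CSeg A B = CSeg B A := by
  ext x
  constructor <;>
  · rintro ⟨t, h0, h1, rfl⟩
    refine ⟨1 - t, by linarith, by linarith, ?_⟩
    ext <;> simp <;> ring

theorem mem_cseg {A B a : Z2} {y : V} (h : 0 < cr a (B - A)) (h1 : crx (B - A) y = cr (B - A) A)
    (h2 : (cr a A : ℝ) ≤ crx a y) (h3 : crx a y ≤ cr a B) : y ∈ CSeg A B := by
  have h' : (0 : ℝ) < cr a (B - A) := by exact_mod_cast h
  have hd : (cr a (B - A) : ℝ) = cr a B - cr a A := by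
    simp only [cr, Prod.fst_sub, Prod.snd_sub]; push_cast; ring
  obtain ⟨t, ht⟩ : ∃ t : ℝ, t = (crx a y - cr a A) / cr a (B - A) := ⟨_, rfl⟩
  have ht' : t * cr a (B - A) = crx a y - cr a A := by rw [ht]; field_simp
  refine ⟨t, by rw [ht]; exact div_nonneg (by linarith) h'.le, by
    rw [ht, div_le_one h']; linarith, ?_⟩
  obtain ⟨p, q⟩ := y
  simp only [crx, cr_cast, Prod.fst_sub, Prod.snd_sub] at h1 ht' h'
  push_cast at h1 ht' h'
  have e1 : ((a.1 : ℝ) * ((B.2 : ℝ) - A.2) - (a.2 : ℝ) * ((B.1 : ℝ) - A.1)) *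
      (p - ((1 - t) * A.1 + t * B.1)) = 0 := by
    linear_combination (-(a.1 : ℝ)) * h1 - ((B.1 : ℝ) - A.1) * ht'
  have e2 : ((a.1 : ℝ) * ((B.2 : ℝ) - A.2) - (a.2 : ℝ) * ((B.1 : ℝ) - A.1)) *
      (q - ((1 - t) * A.2 + t * B.2)) = 0 := by
    linear_combination (-(a.2 : ℝ)) * h1 - ((B.2 : ℝ) - A.2) * ht'
  have f1 := (mul_eq_zero.1 e1).resolve_left h'.ne'
  have f2 := (mul_eq_zero.1 e2).resolve_left h'.ne'
  simp only [Prod.mk.injEq]
  exact ⟨by linarith, by linarith⟩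

theorem mem_seg {A B a : Z2} {y : V} (h : 0 < cr a (B - A)) (h1 : crx (B - A) y = cr (B - A) A)
    (h2 : (cr a A : ℝ) < crx a y) (h3 : crx a y < cr a B) : y ∈ Seg A B := by
  obtain ⟨t, h0, h4, rfl⟩ := mem_cseg h h1 h2.le h3.le
  have hh : ∀ c : Z2, crx c ((1 - t) * A.1 + t * B.1, (1 - t) * A.2 + t * B.2) =
      (1 - t) * cr c A + t * cr c B := by
    intro c
    simp only [crx, cr_cast]; ring
  rw [hh] at h2 h3
  refine ⟨t, lt_of_le_of_ne h0 ?_, lt_of_le_of_ne h4 ?_, rfl⟩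
  · rintro rfl
    simp at h2
  · rintro rfl
    simp at h3

theorem ev_cseg {A B : Z2} (hAB : A ≠ B) (y : V) : ∀ᶠ y' in 𝓝 y, ∀ c : Z2,
    y' - em c ∈ CSeg A B → y - em c ∈ CSeg A B := by
  obtain ⟨a, ha⟩ : ∃ a : Z2, a = ((B - A).2, -(B - A).1) := ⟨_, rfl⟩
  have h0 : 0 < cr a (B - A) := by
    have hb : (B - A).1 ≠ 0 ∨ (B - A).2 ≠ 0 := by
      by_contra hc
      push Not at hc
      apply hAB
      have : B - A = 0 := Prod.ext hc.1 hc.2
      exact (sub_eq_zero.1 this).symm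
    have e : cr a (B - A) = (B - A).2 * (B - A).2 + (B - A).1 * (B - A).1 := by
      rw [ha]; simp only [cr]; ring
    rw [e]
    rcases hb with hb | hb
    · have := mul_self_pos.2 hb
      have := mul_self_nonneg (B - A).2
      linarith
    · have := mul_self_pos.2 hb
      have := mul_self_nonneg (B - A).1
      linarith
  have hself : (cr (B - A) B : ℝ) = cr (B - A) A := by
    simp only [cr, Prod.fst_sub, Prod.snd_sub]; push_cast; ring
  have hd : (cr a (B - A) : ℝ) = cr a B - cr a A := by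
    simp only [cr, Prod.fst_sub, Prod.snd_sub]; push_cast; ring
  have h0' : (0 : ℝ) < cr a (B - A) := by exact_mod_cast h0
  filter_upwards [ev_int (crx_cont (B - A)) y, ev_int (crx_cont a) y] with y' e1 e2 c hc
  obtain ⟨t, t0, t1, ht⟩ := cseg_pt hc
  have k1 := ht (B - A)
  have k2 := ht a
  rw [crx_sub, crx_em] at k1 k2
  rw [hself] at k1
  have j1 := e1 (cr (B - A) A + cr (B - A) c)
  have j2 := (e2 (cr a A + cr a c)).1
  have j3 := (e2 (cr a B + cr a c)).2
  push_cast at j1 j2 j3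
  refine mem_cseg h0 ?_ ?_ ?_
  · rw [crx_sub, crx_em]
    have a1 := j1.1 (by linarith)
    have a2 := j1.2 (by linarith)
    linarith
  · rw [crx_sub, crx_em]
    have := j2 (by nlinarith)
    linarith
  · rw [crx_sub, crx_em]
    have := j3 (by nlinarith)
    linarith

/-- the slits have no new points near `y` -/
theorem ev_slit {l m : Z2} (hl : l ≠ 0) (hm : m ≠ 0) (y : V) : ∀ᶠ y' in 𝓝 y, ∀ c : Z2,
    (y' - em c ∈ CSeg (-l) 0 → y - em c ∈ CSeg (-l) 0) ∧
    (y' - em c ∈ CSeg 0 m → y - em c ∈ CSeg 0 m) := by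
  filter_upwards [ev_cseg (A := -l) (B := 0) (by simpa using hl) y,
    ev_cseg (A := 0) (B := m) (Ne.symm hm) y] with y' h1 h2 c
  exact ⟨h1 c, h2 c⟩

theorem ev_reg {Λ : AddSubgroup Z2} {l m : Z2} (hl : l ≠ 0) (hm : m ≠ 0) {y : V}
    (h : Reg Λ l m y) : ∀ᶠ y' in 𝓝 y, Reg Λ l m y' := by
  filter_upwards [ev_slit hl hm y] with y' h1 c hc
  exact ⟨fun h2 => (h c hc).1 ((h1 c).1 h2), fun h2 => (h c hc).2 ((h1 c).2 h2)⟩

theorem reg_add {Λ : AddSubgroup Z2} {l m : Z2} {y : V} (h : Reg Λ l m y) {c : Z2}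
    (hc : c ∈ Λ) : Reg Λ l m (y + em c) := by
  intro d hd
  have e : y + em c - em d = y - em (d - c) := by
    have : em (d - c) = em d - em c := by ext <;> simp [em]
    rw [this]; abel
  rw [e]
  exact h _ (Λ.sub_mem hd hc)

theorem reg_sub {Λ : AddSubgroup Z2} {l m : Z2} {y : V} (h : Reg Λ l m y) {c : Z2}
    (hc : c ∈ Λ) : Reg Λ l m (y - em c) := by
  have e : y - em c = y + em (-c) := by ext <;> simp [em, sub_eq_add_neg]
  rw [e]
  exact reg_add h (Λ.neg_mem hc)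

/-- products with an element of the lattice -/
theorem cr_comb (a l t : Z2) (i j : ℤ) : (cr a (j • l + i • t) : ℝ) = j * cr a l + i * cr a t := by
  simp only [cr, Prod.fst_add, Prod.snd_add, Prod.smul_fst, Prod.smul_snd, smul_eq_mul]
  push_cast; ring

theorem int_zero {i : ℤ} {B : ℝ} (hB : 0 < B) (h1 : (i : ℝ) * B < B) (h2 : -B < (i : ℝ) * B) :
    i = 0 := by
  have a1 : (i : ℝ) < 1 := by
    by_contra h
    push Not at h
    nlinarith
  have a2 : (-1 : ℝ) < i := by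
    by_contra h
    push Not at h
    nlinarith
  have b1 : i < 1 := by exact_mod_cast a1
  have b2 : -1 < i := by exact_mod_cast a2
  omega

theorem exists_fl {B : ℝ} (hB : 0 < B) (s : ℝ) : ∃ i : ℤ, 0 ≤ s - i * B ∧ s - i * B < B := by
  refine ⟨⌊s / B⌋, ?_, ?_⟩
  · have := Int.floor_le (s / B)
    rw [le_div_iff₀ hB] at this
    linarith
  · have := Int.lt_floor_add_one (s / B)
    rw [div_lt_iff₀ hB] at this
    linarith

end Pool.Agent.H4G.Six
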