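import Pool.Agent.H4G.Six.Slit

/-!
# A closed column develops the slit plane (helper37)

The column `(u, v), (u, l), (u, m)` develops the torus `ℝ² / ⟨u, v + l + m⟩`, slit along
`-l → 0` and `0 → m`.
-/

set_option autoImplicit false

namespace Pool.Agent.H4G.Six

open Pool.Agent.H4G Filter Topology

variable {X : Type}

/-! ## Closed lattice parallelograms -/

/-- the closed parallelogram `(a, b)` at `c` contains `y` -/
def InP (a b c : Z2) (y : V) : Prop :=
  (cr a c : ℝ) ≤ crx a y ∧ crx a y ≤ (cr a (c + b) : ℝ) ∧ crx b y ≤ (cr b c : ℝ) ∧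
    (cr b (c + a) : ℝ) ≤ crx b y

theorem ev_inP (a b : Z2) (y : V) : ∀ᶠ y' in 𝓝 y, ∀ c, InP a b c y' → InP a b c y := by
  filter_upwards [ev_int (crx_cont a) y, ev_int (crx_cont b) y] with y' h1 h2 c h
  exact ⟨(h1 _).1 h.1, (h1 _).2 h.2.1, (h2 _).2 h.2.2.1, (h2 _).1 h.2.2.2⟩

theorem cr_zsm (a b : Z2) (i : ℤ) : cr a (i • b) = i * cr a b := by
  simp only [cr, Prod.smul_fst, Prod.smul_snd, smul_eq_mul]; ring

/-- the two products determine the point -/
theorem real_pt {a b : Z2} (h : 0 < cr a b) {p : V} {s t : ℝ}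
    (h1 : crx a p = t * (cr a b : ℝ)) (h2 : crx b p = -(s * (cr a b : ℝ))) :
    p = (s * a.1 + t * b.1, s * a.2 + t * b.2) := by
  have h' : (0 : ℝ) < cr a b := by exact_mod_cast h
  rw [cr_cast] at h' h1 h2
  obtain ⟨x1, x2⟩ := p
  simp only [crx] at h1 h2
  have e1 : ((a.1 : ℝ) * b.2 - (a.2 : ℝ) * b.1) * (x1 - (s * a.1 + t * b.1)) = 0 := by
    linear_combination (b.1 : ℝ) * h1 - (a.1 : ℝ) * h2
  have e2 : ((a.1 : ℝ) * b.2 - (a.2 : ℝ) * b.1) * (x2 - (s * a.2 + t * b.2)) = 0 := by
    linear_combination (b.2 : ℝ) * h1 - (a.2 : ℝ) * h2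
  have f1 := (mul_eq_zero.1 e1).resolve_left h'.ne'
  have f2 := (mul_eq_zero.1 e2).resolve_left h'.ne'
  simp only [Prod.mk.injEq]
  exact ⟨by linarith, by linarith⟩

theorem cseg_of {a b : Z2} (h : 0 < cr a b) {p : V} (h1 : crx b p = 0) (h2 : 0 ≤ crx a p)
    (h3 : crx a p ≤ cr a b) : p ∈ CSeg 0 b := by
  have h' : (0 : ℝ) < cr a b := by exact_mod_cast h
  have h4 := real_pt (s := 0) (t := crx a p / cr a b) h (by field_simp) (by rw [h1]; simp)
  refine ⟨crx a p / cr a b, div_nonneg h2 h'.le, (div_le_one h').2 h3, ?_⟩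
  conv_lhs => rw [h4]
  ext <;> simp

theorem cseg_neg {l : Z2} {p : V} (h : p + em l ∈ CSeg 0 l) : p ∈ CSeg (-l) 0 := by
  obtain ⟨t, h0, h1, h2⟩ := h
  refine ⟨t, h0, h1, ?_⟩
  have e1 := congrArg Prod.fst h2
  have e2 := congrArg Prod.snd h2
  simp only [em, Prod.fst_add, Prod.snd_add, Prod.fst_zero, Prod.snd_zero] at e1 e2
  ext
  · simp only [Prod.fst_neg, Prod.fst_zero]; push_cast; push_cast at e1; linarith
  · simp only [Prod.snd_neg, Prod.snd_zero]; push_cast; push_cast at e2; linarith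

/-- a point of the lower side -/
theorem seg_horA {a b : Z2} (h : 0 < cr a b) {p : V} {s : ℝ} (h1 : crx a p = 0)
    (h2 : crx b p = -(s * (cr a b : ℝ))) (h3 : 0 < s) (h4 : s < 1) : p ∈ Seg 0 a := by
  have h5 := real_pt (s := s) (t := 0) h (by rw [h1]; simp) h2
  refine ⟨s, h3, h4, ?_⟩
  rw [h5]
  ext <;> simp

/-- a point of the left side -/
theorem seg_ver {a b : Z2} (h : 0 < cr a b) {p : V} (h1 : crx b p = 0) (h2 : 0 < crx a p)
    (h3 : crx a p < cr a b) : p ∈ Seg 0 b := by
  have h' : (0 : ℝ) < cr a b := by exact_mod_cast h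
  have h4 := real_pt (s := 0) (t := crx a p / cr a b) h (by field_simp) (by rw [h1]; simp)
  refine ⟨crx a p / cr a b, div_pos h2 h', (div_lt_one h').2 h3, ?_⟩
  conv_lhs => rw [h4]
  ext <;> simp

theorem InP.pgm {a b c : Z2} {y : V} (h : InP a b c y) (n1 : y ≠ em c) (n2 : y ≠ em (c + a))
    (n3 : y ≠ em (c + b)) (n4 : y ≠ em (c + b + a)) : y - em c ∈ Pgm a b := by
  obtain ⟨h1, h2, h3, h4⟩ := h
  have ha := crx_sub a y (em c)
  have hb := crx_sub b y (em c)
  rw [crx_em] at ha hb
  have hne : ∀ w : Z2, y ≠ em (c + w) → y - em c ≠ em w := by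
    intro w hw he
    apply hw
    rw [em_add, ← he]
    abel
  have e1 : (cr a (c + b) : ℝ) = cr a c + cr a b := by rw [cr_addr]; push_cast; ring
  have e2 : (cr b (c + a) : ℝ) = cr b c - cr a b := by
    rw [cr_addr, cr_swap' a b]; push_cast; ring
  rw [e1] at h2
  rw [e2] at h4
  refine ⟨by linarith, by linarith, by linarith, by linarith, ?_, hne a n2, hne b n3, ?_⟩
  · exact hne 0 (by rwa [add_zero])
  · refine hne (a + b) ?_
    have e : c + (a + b) = c + b + a := by abel
    rwa [e]

/-! ## Regular points -/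

section reg

variable {Λ : AddSubgroup Z2} {l m : Z2} {y : V}

theorem Reg.ne0 (h : Reg Λ l m y) {c : Z2} (hc : c ∈ Λ) : y ≠ em c := by
  rintro rfl
  apply (h c hc).2
  rw [sub_self]
  exact ⟨0, le_refl _, zero_le_one, by ext <;> simp⟩

theorem Reg.nem (h : Reg Λ l m y) {c : Z2} (hc : c ∈ Λ) : y ≠ em (c + m) := by
  rintro rfl
  apply (h c hc).2
  rw [em_add, add_sub_cancel_left]
  exact ⟨1, zero_le_one, le_refl _, by ext <;> simp [em]⟩

theorem Reg.nel (h : Reg Λ l m y) {c : Z2} (hc : c ∈ Λ) : y ≠ em (c - l) := by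
  rintro rfl
  apply (h c hc).1
  have e : em (c - l) - em c = em (-l) := by
    ext <;> simp [em]
  rw [e]
  exact ⟨0, le_refl _, zero_le_one, by ext <;> simp [em]⟩

end reg

/-! ## Positions of lattice points -/

theorem lat_pos {u x c : Z2} (h : c ∈ AddSubgroup.closure ({u, x} : Set Z2)) :
    ∃ i k : ℤ, c = i • u + k • x := by
  obtain ⟨i, k, h⟩ := AddSubgroup.mem_closure_pair.1 h
  exact ⟨i, k, h.symm⟩

theorem lat_mem (u x : Z2) (i k : ℤ) :
    i • u + k • x ∈ AddSubgroup.closure ({u, x} : Set Z2) :=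
  AddSubgroup.mem_closure_pair.2 ⟨i, k, rfl⟩

theorem cr_pos' (a u x e : Z2) (i k : ℤ) :
    cr a (i • u + k • x + e) = i * cr a u + k * cr a x + cr a e := by
  rw [cr_addr, cr_addr, cr_zsm, cr_zsm]

/-- two parallelograms of the same kind -/
theorem same_kind {u x b e c c' : Z2} {y : V} (hb : 0 < cr u b) (hU : cr u b < cr u x)
    (hc : c ∈ AddSubgroup.closure ({u, x} : Set Z2))
    (hc' : c' ∈ AddSubgroup.closure ({u, x} : Set Z2))
    (h : InP u b (c + e) y) (h' : InP u b (c' + e) y) :
    c' = c ∨ (c' = c + u ∧ crx b y = cr b (c' + e)) ∨ (c = c' + u ∧ crx b y = cr b (c + e)) := by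
  obtain ⟨i, k, rfl⟩ := lat_pos hc
  obtain ⟨i', k', rfl⟩ := lat_pos hc'
  obtain ⟨h1, h2, h3, h4⟩ := h
  obtain ⟨g1, g2, g3, g4⟩ := h'
  have hs : cr b u = -cr u b := cr_swap' u b
  have a1 : (cr u (i • u + k • x + e) : ℤ) ≤ cr u (i' • u + k' • x + e + b) := by
    exact_mod_cast h1.trans g2
  have a2 : (cr u (i' • u + k' • x + e) : ℤ) ≤ cr u (i • u + k • x + e + b) := by
    exact_mod_cast g1.trans h2
  rw [cr_addr u _ b, cr_pos', cr_pos', cr_self'] at a1 a2
  have hk : k' = k := by
    have b1 : (k - k') * cr u x < 1 * cr u x := by linarith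
    have b2 : (k' - k) * cr u x < 1 * cr u x := by linarith
    have b3 := lt_of_mul_lt_mul_right b1 (by linarith)
    have b4 := lt_of_mul_lt_mul_right b2 (by linarith)
    omega
  subst hk
  have a3 : (cr b (i • u + k' • x + e + u) : ℤ) ≤ cr b (i' • u + k' • x + e) := by
    exact_mod_cast h4.trans g3
  have a4 : (cr b (i' • u + k' • x + e + u) : ℤ) ≤ cr b (i • u + k' • x + e) := by
    exact_mod_cast g4.trans h3
  rw [cr_addr b _ u, cr_pos', cr_pos', hs] at a3 a4
  have b1 : (i' - i - 1) * cr u b ≤ 0 * cr u b := by linarith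
  have b2 : (i - i' - 1) * cr u b ≤ 0 * cr u b := by linarith
  have b3 := le_of_mul_le_mul_right b1 hb
  have b4 := le_of_mul_le_mul_right b2 hb
  have b5 : i' = i ∨ i' = i + 1 ∨ i = i' + 1 := by omega
  rcases b5 with rfl | rfl | rfl
  · exact Or.inl rfl
  · right; left
    have e1 : (i + 1) • u + k' • x = i • u + k' • x + u := by rw [add_smul, one_smul]; abel
    refine ⟨e1, le_antisymm g3 ?_⟩
    have e2 : (i + 1) • u + k' • x + e = i • u + k' • x + e + u := by rw [e1]; abel
    rw [e2]; exact h4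
  · right; right
    have e1 : (i' + 1) • u + k' • x = i' • u + k' • x + u := by rw [add_smul, one_smul]; abel
    refine ⟨e1, le_antisymm h3 ?_⟩
    have e2 : (i' + 1) • u + k' • x + e = i' • u + k' • x + e + u := by rw [e1]; abel
    rw [e2]; exact g4

/-- a parallelogram and the next one above it -/
theorem adj_kind {u x b b' e c c' : Z2} {y : V} (hb : 0 < cr u b) (hb' : 0 < cr u b')
    (hU : cr u b + cr u b' < cr u x)
    (hc : c ∈ AddSubgroup.closure ({u, x} : Set Z2))
    (hc' : c' ∈ AddSubgroup.closure ({u, x} : Set Z2))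
    (h : InP u b (c + e) y) (h' : InP u b' (c' + (e + b)) y)
    (n1 : y ≠ em (c + (e + b))) (n2 : y ≠ em (c + (e + b) + u)) :
    c' = c ∧ y - em (c + (e + b)) ∈ Seg 0 u := by
  obtain ⟨i, k, rfl⟩ := lat_pos hc
  obtain ⟨i', k', rfl⟩ := lat_pos hc'
  obtain ⟨h1, h2, h3, h4⟩ := h
  obtain ⟨g1, g2, g3, g4⟩ := h'
  have hs : cr b u = -cr u b := cr_swap' u b
  have hs' : cr b' u = -cr u b' := cr_swap' u b'
  have a1 : (cr u (i • u + k • x + e) : ℤ) ≤ cr u (i' • u + k' • x + (e + b) + b') := by
    exact_mod_cast h1.trans g2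
  have a2 : (cr u (i' • u + k' • x + (e + b)) : ℤ) ≤ cr u (i • u + k • x + e + b) := by
    exact_mod_cast g1.trans h2
  rw [cr_addr u _ b', cr_pos', cr_pos', cr_self', cr_addr u e b] at a1
  rw [cr_addr u _ b, cr_pos', cr_pos', cr_self', cr_addr u e b] at a2
  have hk : k' = k := by
    have b1 : (k - k') * cr u x < 1 * cr u x := by linarith
    have b2 : (k' - k) * cr u x < 1 * cr u x := by linarith
    have b3 := lt_of_mul_lt_mul_right b1 (by linarith)
    have b4 := lt_of_mul_lt_mul_right b2 (by linarith)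
    omega
  subst hk
  have hb0 : (0 : ℝ) < cr u b := by exact_mod_cast hb
  have hb0' : (0 : ℝ) < cr u b' := by exact_mod_cast hb'
  -- the height
  have e0 : i • u + k' • x + e + b = i • u + k' • x + (e + b) := by abel
  rw [e0] at h2
  have e0' : (cr u (i' • u + k' • x + (e + b)) : ℝ) = cr u (i • u + k' • x + (e + b)) := by
    rw [cr_pos', cr_pos', cr_self']; push_cast; ring
  rw [e0'] at g1
  have hh : crx u y = cr u (i • u + k' • x + (e + b)) := le_antisymm h2 g1
  have f0 := crx_sub u y (em (i • u + k' • x + (e + b)))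
  rw [crx_em, hh, sub_self] at f0
  have f1 := crx_sub b y (em (i • u + k' • x + (e + b)))
  have f2 := crx_sub b' y (em (i • u + k' • x + (e + b)))
  rw [crx_em] at f1 f2
  set p : V := y - em (i • u + k' • x + (e + b)) with hp
  have c1 : (cr b (i • u + k' • x + (e + b)) : ℝ) = cr b (i • u + k' • x + e) := by
    rw [← e0, cr_addr, cr_self']; push_cast; ring
  have c2 : (cr b (i • u + k' • x + e + u) : ℝ) = cr b (i • u + k' • x + e) - cr u b := by
    rw [cr_addr, hs]; push_cast; ring
  rw [c1] at f1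
  rw [c2] at h4
  have c3 : (cr b' (i' • u + k' • x + (e + b)) : ℝ) =
      cr b' (i • u + k' • x + (e + b)) - (i' - i) * cr u b' := by
    rw [cr_pos', cr_pos', hs']; push_cast; ring
  have c4 : (cr b' (i' • u + k' • x + (e + b) + u) : ℝ) =
      cr b' (i • u + k' • x + (e + b)) - (i' - i) * cr u b' - cr u b' := by
    rw [cr_addr, cr_pos', cr_pos', hs']; push_cast; ring
  rw [c3] at g3
  rw [c4] at g4
  -- the parameter
  obtain ⟨s, hs0⟩ : ∃ s : ℝ, crx b p = -(s * (cr u b : ℝ)) :=
    ⟨-(crx b p) / cr u b, by field_simp⟩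
  have hpt := real_pt (s := s) (t := 0) hb (by rw [f0]; simp) hs0
  have hs1 : crx b' p = -(s * (cr u b' : ℝ)) := by
    rw [hpt]
    simp only [crx, cr_cast]; ring
  have s0 : 0 ≤ s := by
    have : 0 * (cr u b : ℝ) ≤ s * cr u b := by linarith
    exact le_of_mul_le_mul_right this hb0
  have s1 : s ≤ 1 := by
    have : s * (cr u b : ℝ) ≤ 1 * cr u b := by linarith
    exact le_of_mul_le_mul_right this hb0
  have s2 : s ≠ 0 := by
    rintro rfl
    apply n1
    have : p = em 0 := by rw [hpt]; ext <;> simp [em]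
    rw [em_zero] at this
    exact sub_eq_zero.1 this
  have s3 : s ≠ 1 := by
    rintro rfl
    apply n2
    have : p = em u := by rw [hpt]; ext <;> simp [em]
    rw [em_add, ← this, hp]
    abel
  have s0' : 0 < s := lt_of_le_of_ne s0 (Ne.symm s2)
  have s1' : s < 1 := lt_of_le_of_ne s1 s3
  refine ⟨?_, seg_horA hb f0 hs0 s0' s1'⟩
  have t1 : ((i' - i : ℤ) : ℝ) ≤ s := by
    have : ((i' - i : ℤ) : ℝ) * (cr u b' : ℝ) ≤ s * cr u b' := by push_cast; linarith
    exact le_of_mul_le_mul_right this hb0'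
  have t2 : s ≤ ((i' - i : ℤ) : ℝ) + 1 := by
    have : s * (cr u b' : ℝ) ≤ (((i' - i : ℤ) : ℝ) + 1) * cr u b' := by push_cast; linarith
    exact le_of_mul_le_mul_right this hb0'
  have t3 : ((i' - i : ℤ) : ℝ) < 1 := lt_of_le_of_lt t1 s1'
  have t4 : (-1 : ℝ) < ((i' - i : ℤ) : ℝ) := by linarith
  have t5 : i' - i < 1 := by exact_mod_cast t3
  have t6 : -1 < i' - i := by exact_mod_cast t4
  have : i' = i := by omega
  rw [this]

/-- every point lies in one of the horizontal translates -/
theorem exists_shift {u b : Z2} (hb : 0 < cr u b) (c : Z2) (y : V) : ∃ i : ℤ,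
    crx b y ≤ (cr b (i • u + c) : ℝ) ∧ (cr b (i • u + c + u) : ℝ) ≤ crx b y := by
  have hb0 : (0 : ℝ) < cr u b := by exact_mod_cast hb
  have hs : cr b u = -cr u b := cr_swap' u b
  refine ⟨⌊((cr b c : ℝ) - crx b y) / cr u b⌋, ?_⟩
  set i := ⌊((cr b c : ℝ) - crx b y) / cr u b⌋ with hi
  have h1 : (i : ℝ) ≤ ((cr b c : ℝ) - crx b y) / cr u b := Int.floor_le _
  have h2 : ((cr b c : ℝ) - crx b y) / cr u b < i + 1 := Int.lt_floor_add_one _
  rw [le_div_iff₀ hb0] at h1
  rw [div_lt_iff₀ hb0] at h2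
  have e1 : (cr b (i • u + c) : ℝ) = cr b c - i * cr u b := by
    rw [cr_addr, cr_zsm, hs]; push_cast; ring
  have e2 : (cr b (i • u + c + u) : ℝ) = cr b c - i * cr u b - cr u b := by
    rw [cr_addr, cr_addr, cr_zsm, hs]; push_cast; ring
  rw [e1, e2]
  exact ⟨by linarith, by linarith⟩

/-! ## The development of the column -/

/-- a closed column -/
structure Col (O : PO X) (u v l m : Z2) (U0 U1 U2 W L0 L1 M0 M1 fv fl fm : Z2 → X) : Prop where
  hv : 0 < cr u v
  hl : 0 < cr u l
  hm : 0 < cr u m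
  dv : Dev O (Pgm u v) fv
  dl : Dev O (Pgm u l) fl
  dm : Dev O (Pgm u m) fm
  vb : Agree (Seg 0 u) fv U0
  vr : Agree (Seg u (u + v)) fv (sh u W)
  vt : Agree (Seg v (v + u)) fv (sh v U1)
  vl : Agree (Seg 0 v) fv W
  lb : Agree (Seg 0 u) fl U1
  lr : Agree (Seg u (u + l)) fl (sh u L1)
  lt : Agree (Seg l (l + u)) fl (sh l U2)
  ll : Agree (Seg 0 l) fl L0
  mb : Agree (Seg 0 u) fm U2
  mr : Agree (Seg u (u + m)) fm (sh u M1)
  mt : Agree (Seg m (m + u)) fm (sh m U0)
  ml : Agree (Seg 0 m) fm M0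

/-- `F` is the function of a closed piece which contains `y` -/
def GoodA (u v l m : Z2) (fv fl fm : Z2 → X) (y : V) (F : Z2 → X) : Prop :=
  (∃ c ∈ AddSubgroup.closure ({u, v + l + m} : Set Z2), InP u m (c + 0) y ∧ F = sh (c + 0) fm) ∨
  (∃ c ∈ AddSubgroup.closure ({u, v + l + m} : Set Z2), InP u v (c + m) y ∧ F = sh (c + m) fv) ∨
  (∃ c ∈ AddSubgroup.closure ({u, v + l + m} : Set Z2), InP u l (c + (m + v)) y ∧
    F = sh (c + (m + v)) fl)

theorem goodA_cover {u v l m : Z2} (hv : 0 < cr u v) (hl : 0 < cr u l) (hm : 0 < cr u m)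
    (fv fl fm : Z2 → X) (y : V) : ∃ F, GoodA u v l m fv fl fm y F := by
  have hU : cr u (v + l + m) = cr u v + cr u l + cr u m := by rw [cr_addr, cr_addr]
  have hU0 : (0 : ℝ) < (cr u (v + l + m) : ℝ) := by
    have : 0 < cr u (v + l + m) := by rw [hU]; linarith
    exact_mod_cast this
  set k := ⌊crx u y / (cr u (v + l + m) : ℝ)⌋ with hk
  have h1 : (k : ℝ) ≤ crx u y / (cr u (v + l + m) : ℝ) := Int.floor_le _
  have h2 : crx u y / (cr u (v + l + m) : ℝ) < k + 1 := Int.lt_floor_add_one _
  rw [le_div_iff₀ hU0] at h1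
  rw [div_lt_iff₀ hU0] at h2
  have hU' : ((cr u (v + l + m) : ℤ) : ℝ) = cr u v + cr u l + cr u m := by
    rw [hU]; push_cast; ring
  have hp : ∀ (i : ℤ) (e : Z2), (cr u (i • u + k • (v + l + m) + e) : ℝ) =
      k * (cr u (v + l + m) : ℝ) + cr u e := by
    intro i e
    rw [cr_pos', cr_self']; push_cast; ring
  have hre : ∀ (i : ℤ) (e : Z2), i • u + (k • (v + l + m) + e) = i • u + k • (v + l + m) + e :=
    fun i e => (add_assoc _ _ _).symm
  rcases le_total (crx u y) (k * (cr u (v + l + m) : ℝ) + cr u m) with h3 | h3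
  · obtain ⟨i, i1, i2⟩ := exists_shift hm (k • (v + l + m) + 0) y
    rw [hre] at i1 i2
    refine ⟨_, Or.inl ⟨_, lat_mem u (v + l + m) i k, ⟨?_, ?_, i1, i2⟩, rfl⟩⟩
    · rw [hp, cr_zero']; push_cast; linarith
    · rw [add_assoc, hp, zero_add]; exact h3
  · rcases le_total (crx u y) (k * (cr u (v + l + m) : ℝ) + cr u (m + v)) with h4 | h4
    · obtain ⟨i, i1, i2⟩ := exists_shift hv (k • (v + l + m) + m) y
      rw [hre] at i1 i2
      refine ⟨_, Or.inr (Or.inl ⟨_, lat_mem u (v + l + m) i k, ⟨?_, ?_, i1, i2⟩, rfl⟩)⟩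
      · rw [hp]; exact h3
      · rw [add_assoc, hp]; exact h4
    · obtain ⟨i, i1, i2⟩ := exists_shift hl (k • (v + l + m) + (m + v)) y
      rw [hre] at i1 i2
      refine ⟨_, Or.inr (Or.inr ⟨_, lat_mem u (v + l + m) i k, ⟨?_, ?_, i1, i2⟩, rfl⟩)⟩
      · rw [hp]; exact h4
      · rw [add_assoc, hp]
        have e : (cr u (m + v + l) : ℝ) = (cr u (v + l + m) : ℝ) := by
          have : m + v + l = v + l + m := by abel
          rw [this]
        rw [e]; linarith

section uniq

variable {O : PO X} {u v l m : Z2} {U0 U1 U2 W L0 L1 M0 M1 fv fl fm : Z2 → X} {y : V}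

/-- agreement across a horizontal side -/
theorem agree_hor {u b c : Z2} {f g T : Z2 → X} (h1 : Agree (Seg b (b + u)) f (sh b T))
    (h2 : Agree (Seg 0 u) g T) {y : V} (hy : y - em (c + b) ∈ Seg 0 u) {z : Z2} (hz : Nr y z) :
    sh c f z = sh (c + b) g z := by
  have k1 := h2 _ hy _ ((nr_sub y z (c + b)).2 hz)
  have k2 : y - em c ∈ Seg b (b + u) := by
    have := seg_add' b hy
    rw [add_zero] at this
    have e : y - em (c + b) + em b = y - em c := by rw [em_add]; abel
    rwa [e] at this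
  have k3 := h1 _ k2 _ ((nr_sub y z c).2 hz)
  have k4 : sh b T (z - c) = T (z - (c + b)) := by
    simp only [sh]; congr 1; abel
  show f (z - c) = g (z - (c + b))
  rw [k1, k3, k4]

/-- agreement across a vertical side -/
theorem agree_ver {u b c : Z2} {f g T : Z2 → X} (h1 : Agree (Seg u (u + b)) f (sh u T))
    (h2 : Agree (Seg 0 b) g T) {y : V} (hy : y - em (c + u) ∈ Seg 0 b) {z : Z2} (hz : Nr y z) :
    sh c f z = sh (c + u) g z := by
  have k1 := h2 _ hy _ ((nr_sub y z (c + u)).2 hz)
  have k2 : y - em c ∈ Seg u (u + b) := by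
    have := seg_add' u hy
    rw [add_zero] at this
    have e : y - em (c + u) + em u = y - em c := by rw [em_add]; abel
    rwa [e] at this
  have k3 := h1 _ k2 _ ((nr_sub y z c).2 hz)
  have k4 : sh u T (z - c) = T (z - (c + u)) := by
    simp only [sh]; congr 1; abel
  show f (z - c) = g (z - (c + u))
  rw [k1, k3, k4]

/-- UNIQUENESS -/
theorem goodA_uniq (C : Col O u v l m U0 U1 U2 W L0 L1 M0 M1 fv fl fm)
    (hR : Reg (AddSubgroup.closure ({u, v + l + m} : Set Z2)) l m y) {F F' : Z2 → X}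
    (h : GoodA u v l m fv fl fm y F) (h' : GoodA u v l m fv fl fm y F') {z : Z2}
    (hz : Nr y z) : F z = F' z := by
  have hU : cr u (v + l + m) = cr u v + cr u l + cr u m := by rw [cr_addr, cr_addr]
  have hv := C.hv
  have hl := C.hl
  have hm := C.hm
  have uΛ : u ∈ AddSubgroup.closure ({u, v + l + m} : Set Z2) :=
    AddSubgroup.subset_closure (by simp)
  have xΛ : v + l + m ∈ AddSubgroup.closure ({u, v + l + m} : Set Z2) :=
    AddSubgroup.subset_closure (by simp)
  -- same kind
  have kmm : ∀ c ∈ AddSubgroup.closure ({u, v + l + m} : Set Z2), InP u m (c + 0) y →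
      crx m y ≠ cr m (c + 0) := by
    intro c hc g he
    apply (hR c hc).2
    have e0 : c + 0 = c := add_zero c
    rw [e0] at g he
    refine cseg_of hm ?_ ?_ ?_
    · rw [crx_sub, crx_em, he, sub_self]
    · rw [crx_sub, crx_em]; linarith [g.1]
    · have := g.2.1
      rw [cr_addr] at this
      push_cast at this
      rw [crx_sub, crx_em]; linarith
  have kll : ∀ c ∈ AddSubgroup.closure ({u, v + l + m} : Set Z2), InP u l (c + (m + v)) y →
      crx l y ≠ cr l (c + (m + v)) := by
    intro c hc g he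
    apply (hR (c + (v + l + m)) (add_mem hc xΛ)).1
    apply cseg_neg
    have e : y - em (c + (v + l + m)) + em l = y - em (c + (m + v)) := by
      have : c + (v + l + m) = c + (m + v) + l := by abel
      rw [this, em_add]; abel
    rw [e]
    refine cseg_of hl ?_ ?_ ?_
    · rw [crx_sub, crx_em, he, sub_self]
    · rw [crx_sub, crx_em]; linarith [g.1]
    · have := g.2.1
      rw [cr_addr] at this
      push_cast at this
      rw [crx_sub, crx_em]; linarith
  have nm : ∀ c ∈ AddSubgroup.closure ({u, v + l + m} : Set Z2), y ≠ em (c + m) :=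
    fun c hc => hR.nem hc
  have nl : ∀ c ∈ AddSubgroup.closure ({u, v + l + m} : Set Z2), y ≠ em (c + (m + v)) := by
    intro c hc
    have e : c + (m + v) = c + (v + l + m) - l := by abel
    rw [e]
    exact hR.nel (add_mem hc xΛ)
  have kvv : ∀ c ∈ AddSubgroup.closure ({u, v + l + m} : Set Z2),
      InP u v (c + u + m) y → crx v y = cr v (c + u + m) →
      sh (c + m) fv z = sh (c + u + m) fv z := by
    intro c hc g he
    have g1 := g.1
    have g2 := g.2.1
    rw [cr_addr] at g2
    push_cast at g2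
    have e1 : crx v (y - em (c + u + m)) = 0 := by rw [crx_sub, crx_em, he, sub_self]
    have e2 : crx u (y - em (c + u + m)) = crx u y - cr u (c + u + m) := by rw [crx_sub, crx_em]
    have hv0 : (0 : ℝ) < cr u v := by exact_mod_cast hv
    have hs : y - em (c + u + m) ∈ Seg 0 v := by
      refine seg_ver hv e1 ?_ ?_
      · rw [e2]
        refine lt_of_le_of_ne (by linarith) (fun h0 => ?_)
        have := pt_of (w := 0) hv (x := y - em (c + u + m)) (by rw [e2, ← h0, cr_zero']; simp)
          (by rw [e1, cr_zero']; simp)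
        apply nm (c + u) (add_mem hc uΛ)
        rw [em_zero] at this
        exact sub_eq_zero.1 this
      · rw [e2]
        refine lt_of_le_of_ne (by linarith) (fun h0 => ?_)
        have := pt_of (w := v) hv (x := y - em (c + u + m)) (by rw [e2, h0])
          (by rw [e1, cr_self']; simp)
        apply nl (c + u) (add_mem hc uΛ)
        have e3 : c + u + (m + v) = c + u + m + v := by abel
        rw [e3, em_add, ← this]; abel
    have e4 : c + u + m = c + m + u := by abel
    rw [e4] at hs ⊢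
    exact agree_ver C.vr C.vl hs hz
  -- neighbours
  have hmv : ∀ c ∈ AddSubgroup.closure ({u, v + l + m} : Set Z2),
      ∀ c' ∈ AddSubgroup.closure ({u, v + l + m} : Set Z2),
      InP u m (c + 0) y → InP u v (c' + m) y → sh (c + 0) fm z = sh (c' + m) fv z := by
    intro c hc c' hc' g g'
    have e : (0 : Z2) + m = m := zero_add m
    obtain ⟨rfl, k⟩ := adj_kind (e := 0) hm hv (by rw [hU]; linarith) hc hc' g
      (by rw [e]; exact g') (by rw [e]; exact nm c hc)
      (by
        have e' : c + (0 + m) + u = c + u + m := by abel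
        rw [e']; exact nm _ (add_mem hc uΛ))
    have e2 : c' + (0 + m) = c' + 0 + m := by abel
    rw [e2] at k
    have := agree_hor C.mt C.vb k hz
    rw [this]
    congr 1
    abel
  have hvl : ∀ c ∈ AddSubgroup.closure ({u, v + l + m} : Set Z2),
      ∀ c' ∈ AddSubgroup.closure ({u, v + l + m} : Set Z2),
      InP u v (c + m) y → InP u l (c' + (m + v)) y →
      sh (c + m) fv z = sh (c' + (m + v)) fl z := by
    intro c hc c' hc' g g'
    obtain ⟨rfl, k⟩ := adj_kind (e := m) hv hl (by rw [hU]; linarith) hc hc' g g' (nl c hc)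
      (by
        have e' : c + (m + v) + u = c + u + (m + v) := by abel
        rw [e']; exact nl _ (add_mem hc uΛ))
    have e2 : c' + (m + v) = c' + m + v := by abel
    rw [e2] at k ⊢
    exact agree_hor C.vt C.lb k hz
  have hlm : ∀ c ∈ AddSubgroup.closure ({u, v + l + m} : Set Z2),
      ∀ c' ∈ AddSubgroup.closure ({u, v + l + m} : Set Z2),
      InP u l (c + (m + v)) y → InP u m (c' + 0) y →
      sh (c + (m + v)) fl z = sh (c' + 0) fm z := by
    intro c hc c' hc' g g'
    have hx : ∀ d : Z2, d + (m + v + l) = d + (v + l + m) := fun d => by abel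
    have e : c' - (v + l + m) + (m + v + l) = c' + 0 := by abel
    obtain ⟨k0, k⟩ := adj_kind (e := m + v) hl hm (by rw [hU]; linarith) hc (sub_mem hc' xΛ) g
      (by rw [e]; exact g') (by rw [hx]; exact hR.ne0 (add_mem hc xΛ))
      (by
        rw [hx]; exact hR.ne0 (add_mem (add_mem hc xΛ) uΛ))
    have e2 : c + (m + v + l) = c + (m + v) + l := by abel
    rw [e2] at k
    have := agree_hor C.lt C.mb k hz
    rw [this]
    congr 1
    rw [← k0]
    abel
  rcases h with ⟨c, hc, g, rfl⟩ | ⟨c, hc, g, rfl⟩ | ⟨c, hc, g, rfl⟩ <;>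
    rcases h' with ⟨c', hc', g', rfl⟩ | ⟨c', hc', g', rfl⟩ | ⟨c', hc', g', rfl⟩
  · rcases same_kind hm (by rw [hU]; linarith) hc hc' g g' with rfl | ⟨rfl, k⟩ | ⟨rfl, k⟩
    · rfl
    · exact absurd k (kmm _ hc' g')
    · exact absurd k (kmm _ hc g)
  · exact hmv c hc c' hc' g g'
  · exact (hlm c' hc' c hc g' g).symm
  · exact (hmv c' hc' c hc g' g).symm
  · rcases same_kind hv (by rw [hU]; linarith) hc hc' g g' with rfl | ⟨rfl, k⟩ | ⟨rfl, k⟩
    · rfl
    · exact kvv c hc g' k
    · exact (kvv c' hc' g k).symm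
  · exact hvl c hc c' hc' g g'
  · exact hlm c hc c' hc' g g'
  · exact (hvl c' hc' c hc g' g).symm
  · rcases same_kind hl (by rw [hU]; linarith) hc hc' g g' with rfl | ⟨rfl, k⟩ | ⟨rfl, k⟩
    · rfl
    · exact absurd k (kll _ hc' g')
    · exact absurd k (kll _ hc g)

end uniq

/-! ## Regular points in the open pieces -/

theorem InP.shift {a b d : Z2} {y : V} (h : InP a b d y) (c : Z2) :
    InP a b (c + d) (y + em c) := by
  obtain ⟨h1, h2, h3, h4⟩ := h
  have e : ∀ w : Z2, crx w (y + em c) = crx w y + cr w c := by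
    intro w
    simp only [crx, em, cr, Prod.fst_add, Prod.snd_add]; push_cast; ring
  refine ⟨?_, ?_, ?_, ?_⟩
  · rw [e, cr_addr]; push_cast; linarith
  · rw [e, add_assoc, cr_addr]; push_cast; linarith
  · rw [e, cr_addr]; push_cast; linarith
  · rw [e, add_assoc, cr_addr]; push_cast; linarith

theorem Reg.shift {Λ : AddSubgroup Z2} {l m : Z2} {y : V} (h : Reg Λ l m y) {c : Z2}
    (hc : c ∈ Λ) : Reg Λ l m (y + em c) := by
  intro d hd
  have e : y + em c - em d = y - em (d - c) := by
    have : d = (d - c) + c := by abel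
    conv_lhs => rw [this, em_add]
    abel
  rw [e]
  exact h _ (sub_mem hd hc)

theorem crx_cseg {A B : Z2} {p : V} (h : p ∈ CSeg A B) : ∃ t : ℝ, 0 ≤ t ∧ t ≤ 1 ∧
    ∀ w : Z2, crx w p = (1 - t) * cr w A + t * cr w B := by
  obtain ⟨t, h0, h1, rfl⟩ := h
  exact ⟨t, h0, h1, fun w => by simp only [crx, cr_cast]; ring⟩

section reg2

variable {u v l m : Z2} {p : V}

theorem reg_lA (hv : 0 < cr u v) (hl : 0 < cr u l) (hm : 0 < cr u m) (h1 : 0 < crx u p)
    (h2 : crx u p < cr u l) (h3 : crx l p < 0) (h4 : -(cr u l : ℝ) < crx l p) :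
    Reg (AddSubgroup.closure ({u, v + l + m} : Set Z2)) l m (p - em l) := by
  have hU : cr u (v + l + m) = cr u v + cr u l + cr u m := by rw [cr_addr, cr_addr]
  have hU' : ((cr u (v + l + m) : ℤ) : ℝ) = cr u v + cr u l + cr u m := by
    rw [hU]; push_cast; ring
  have hv0 : (0 : ℝ) < cr u v := by exact_mod_cast hv
  have hl0 : (0 : ℝ) < cr u l := by exact_mod_cast hl
  have hm0 : (0 : ℝ) < cr u m := by exact_mod_cast hm
  intro c hc
  obtain ⟨i, k, rfl⟩ := lat_pos hc
  have e : ∀ w : Z2, crx w (p - em l - em (i • u + k • (v + l + m))) =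
      crx w p - cr w l - (i * cr w u + k * cr w (v + l + m)) := by
    intro w
    rw [crx_sub, crx_sub, crx_em, crx_em, cr_addr, cr_zsm, cr_zsm]; push_cast; ring
  constructor
  · intro hs
    obtain ⟨t, t0, t1, ht⟩ := crx_cseg hs
    have a1 := ht u
    have a2 := ht l
    rw [e, cr_zero', cr_negr, cr_self'] at a1
    rw [e, cr_zero', cr_negr, cr_self', cr_swap' u l] at a2
    push_cast at a1 a2
    rw [hU'] at a1
    have t1' : t * (cr u l : ℝ) ≤ cr u l := by nlinarith
    have t0' : 0 ≤ t * (cr u l : ℝ) := mul_nonneg t0 hl0.le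
    have hk : k = 0 := by
      have b1 : (k : ℝ) * ((cr u v : ℝ) + cr u l + cr u m) <
          1 * ((cr u v : ℝ) + cr u l + cr u m) := by nlinarith
      have b2 : (-1 : ℝ) * ((cr u v : ℝ) + cr u l + cr u m) <
          k * ((cr u v : ℝ) + cr u l + cr u m) := by nlinarith
      have b3 := lt_of_mul_lt_mul_right b1 (by positivity)
      have b4 := lt_of_mul_lt_mul_right b2 (by positivity)
      have b5 : k < 1 := by exact_mod_cast b3
      have b6 : -1 < k := by exact_mod_cast b4
      omega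
    subst hk
    push_cast at a2
    have a3 : crx l p = -((i : ℝ) * cr u l) := by linarith
    rw [a3] at h3 h4
    have b1 : (0 : ℝ) * cr u l < i * cr u l := by linarith
    have b2 : (i : ℝ) * cr u l < 1 * cr u l := by linarith
    have b3 := lt_of_mul_lt_mul_right b1 hl0.le
    have b4 := lt_of_mul_lt_mul_right b2 hl0.le
    have b5 : 0 < i := by exact_mod_cast b3
    have b6 : i < 1 := by exact_mod_cast b4
    omega
  · intro hs
    obtain ⟨t, t0, t1, ht⟩ := crx_cseg hs
    have a1 := ht u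
    rw [e, cr_zero', cr_self'] at a1
    push_cast at a1
    rw [hU'] at a1
    have t1' : t * (cr u m : ℝ) ≤ cr u m := by nlinarith
    have t0' : 0 ≤ t * (cr u m : ℝ) := mul_nonneg t0 hm0.le
    have b1 : (k : ℝ) * ((cr u v : ℝ) + cr u l + cr u m) <
        0 * ((cr u v : ℝ) + cr u l + cr u m) := by linarith
    have b3 := lt_of_mul_lt_mul_right b1 (by positivity)
    have b5 : k < 0 := by exact_mod_cast b3
    have b6 : (k : ℝ) ≤ -1 := by
      have : k ≤ -1 := by omega
      exact_mod_cast this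
    have b7 : (k : ℝ) * ((cr u v : ℝ) + cr u l + cr u m) ≤
        -1 * ((cr u v : ℝ) + cr u l + cr u m) :=
      mul_le_mul_of_nonneg_right b6 (by positivity)
    linarith

theorem reg_mA (hv : 0 < cr u v) (hl : 0 < cr u l) (hm : 0 < cr u m) (h1 : 0 < crx u p)
    (h2 : crx u p < cr u m) (h3 : crx m p < 0) (h4 : -(cr u m : ℝ) < crx m p) :
    Reg (AddSubgroup.closure ({u, v + l + m} : Set Z2)) l m p := by
  have hU : cr u (v + l + m) = cr u v + cr u l + cr u m := by rw [cr_addr, cr_addr]
  have hU' : ((cr u (v + l + m) : ℤ) : ℝ) = cr u v + cr u l + cr u m := by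
    rw [hU]; push_cast; ring
  have hv0 : (0 : ℝ) < cr u v := by exact_mod_cast hv
  have hl0 : (0 : ℝ) < cr u l := by exact_mod_cast hl
  have hm0 : (0 : ℝ) < cr u m := by exact_mod_cast hm
  intro c hc
  obtain ⟨i, k, rfl⟩ := lat_pos hc
  have e : ∀ w : Z2, crx w (p - em (i • u + k • (v + l + m))) =
      crx w p - (i * cr w u + k * cr w (v + l + m)) := by
    intro w
    rw [crx_sub, crx_em, cr_addr, cr_zsm, cr_zsm]; push_cast; ring
  constructor
  · intro hs
    obtain ⟨t, t0, t1, ht⟩ := crx_cseg hs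
    have a1 := ht u
    rw [e, cr_zero', cr_negr, cr_self'] at a1
    push_cast at a1
    rw [hU'] at a1
    have t1' : t * (cr u l : ℝ) ≤ cr u l := by nlinarith
    have t0' : 0 ≤ t * (cr u l : ℝ) := mul_nonneg t0 hl0.le
    have b1 : (0 : ℝ) * ((cr u v : ℝ) + cr u l + cr u m) <
        k * ((cr u v : ℝ) + cr u l + cr u m) := by linarith
    have b3 := lt_of_mul_lt_mul_right b1 (by positivity)
    have b5 : 0 < k := by exact_mod_cast b3
    have b6 : (1 : ℝ) ≤ k := by exact_mod_cast b5
    have b7 : 1 * ((cr u v : ℝ) + cr u l + cr u m) ≤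
        k * ((cr u v : ℝ) + cr u l + cr u m) :=
      mul_le_mul_of_nonneg_right b6 (by positivity)
    linarith
  · intro hs
    obtain ⟨t, t0, t1, ht⟩ := crx_cseg hs
    have a1 := ht u
    have a2 := ht m
    rw [e, cr_zero', cr_self'] at a1
    rw [e, cr_zero', cr_self', cr_swap' u m] at a2
    push_cast at a1 a2
    rw [hU'] at a1
    have t1' : t * (cr u m : ℝ) ≤ cr u m := by nlinarith
    have t0' : 0 ≤ t * (cr u m : ℝ) := mul_nonneg t0 hm0.le
    have hk : k = 0 := by
      have b1 : (k : ℝ) * ((cr u v : ℝ) + cr u l + cr u m) <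
          1 * ((cr u v : ℝ) + cr u l + cr u m) := by nlinarith
      have b2 : (-1 : ℝ) * ((cr u v : ℝ) + cr u l + cr u m) <
          k * ((cr u v : ℝ) + cr u l + cr u m) := by nlinarith
      have b3 := lt_of_mul_lt_mul_right b1 (by positivity)
      have b4 := lt_of_mul_lt_mul_right b2 (by positivity)
      have b5 : k < 1 := by exact_mod_cast b3
      have b6 : -1 < k := by exact_mod_cast b4
      omega
    subst hk
    push_cast at a2
    have a3 : crx m p = -((i : ℝ) * cr u m) := by linarith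
    rw [a3] at h3 h4
    have b1 : (0 : ℝ) * cr u m < i * cr u m := by linarith
    have b2 : (i : ℝ) * cr u m < 1 * cr u m := by linarith
    have b3 := lt_of_mul_lt_mul_right b1 hm0.le
    have b4 := lt_of_mul_lt_mul_right b2 hm0.le
    have b5 : 0 < i := by exact_mod_cast b3
    have b6 : i < 1 := by exact_mod_cast b4
    omega

end reg2

/-! ## The slit plane of a column -/

theorem DevAt.unsh {O : PO X} {x : V} {c : Z2} {f : Z2 → X}
    (h : DevAt O (x + em c) (Six.sh c f)) :
    DevAt O x f := by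
  have e : x - em (-c) = x + em c := by ext <;> simp [em]
  have h' : DevAt O (x - em (-c)) (Six.sh c f) := by rw [e]; exact h
  have h2 := DevAt.sh h'
  rw [sh_sh, neg_add_cancel, sh_zero] at h2
  exact h2

theorem GoodA.shift {u v l m : Z2} {fv fl fm F : Z2 → X} {y : V}
    (h : GoodA u v l m fv fl fm y F) {d : Z2}
    (hd : d ∈ AddSubgroup.closure ({u, v + l + m} : Set Z2)) :
    GoodA u v l m fv fl fm (y + em d) (sh d F) := by
  rcases h with ⟨c, hc, g, rfl⟩ | ⟨c, hc, g, rfl⟩ | ⟨c, hc, g, rfl⟩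
  · refine Or.inl ⟨d + c, add_mem hd hc, ?_, ?_⟩
    · rw [add_assoc]; exact g.shift d
    · rw [sh_sh, add_assoc]
  · refine Or.inr (Or.inl ⟨d + c, add_mem hd hc, ?_, ?_⟩)
    · rw [add_assoc]; exact g.shift d
    · rw [sh_sh, add_assoc]
  · refine Or.inr (Or.inr ⟨d + c, add_mem hd hc, ?_, ?_⟩)
    · rw [add_assoc]; exact g.shift d
    · rw [sh_sh, add_assoc]

theorem GoodA.dev {O : PO X} {u v l m : Z2} {U0 U1 U2 W L0 L1 M0 M1 fv fl fm : Z2 → X} {y : V}
    (C : Col O u v l m U0 U1 U2 W L0 L1 M0 M1 fv fl fm)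
    (hR : Reg (AddSubgroup.closure ({u, v + l + m} : Set Z2)) l m y) {F : Z2 → X}
    (h : GoodA u v l m fv fl fm y F) : DevAt O y F := by
  have uΛ : u ∈ AddSubgroup.closure ({u, v + l + m} : Set Z2) :=
    AddSubgroup.subset_closure (by simp)
  have xΛ : v + l + m ∈ AddSubgroup.closure ({u, v + l + m} : Set Z2) :=
    AddSubgroup.subset_closure (by simp)
  have n0 : ∀ c ∈ AddSubgroup.closure ({u, v + l + m} : Set Z2), y ≠ em c :=
    fun c hc => hR.ne0 hc
  have nm : ∀ c ∈ AddSubgroup.closure ({u, v + l + m} : Set Z2), y ≠ em (c + m) :=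
    fun c hc => hR.nem hc
  have nl : ∀ c ∈ AddSubgroup.closure ({u, v + l + m} : Set Z2), y ≠ em (c + (m + v)) := by
    intro c hc
    have e : c + (m + v) = c + (v + l + m) - l := by abel
    rw [e]
    exact hR.nel (add_mem hc xΛ)
  rcases h with ⟨c, hc, g, rfl⟩ | ⟨c, hc, g, rfl⟩ | ⟨c, hc, g, rfl⟩
  · refine DevAt.sh (C.dm _ (g.pgm ?_ ?_ ?_ ?_))
    · rw [add_zero]; exact n0 c hc
    · rw [add_zero]; exact n0 _ (add_mem hc uΛ)
    · rw [add_zero]; exact nm c hc
    · have e : c + 0 + m + u = c + u + m := by abel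
      rw [e]; exact nm _ (add_mem hc uΛ)
  · refine DevAt.sh (C.dv _ (g.pgm ?_ ?_ ?_ ?_))
    · exact nm c hc
    · have e : c + m + u = c + u + m := by abel
      rw [e]; exact nm _ (add_mem hc uΛ)
    · rw [add_assoc]; exact nl c hc
    · have e : c + m + v + u = c + u + (m + v) := by abel
      rw [e]; exact nl _ (add_mem hc uΛ)
  · refine DevAt.sh (C.dl _ (g.pgm ?_ ?_ ?_ ?_))
    · exact nl c hc
    · have e : c + (m + v) + u = c + u + (m + v) := by abel
      rw [e]; exact nl _ (add_mem hc uΛ)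
    · have e : c + (m + v) + l = c + (v + l + m) := by abel
      rw [e]; exact n0 _ (add_mem hc xΛ)
    · have e : c + (m + v) + l + u = c + (v + l + m) + u := by abel
      rw [e]; exact n0 _ (add_mem (add_mem hc xΛ) uΛ)

/-- ROW A: a closed column develops the slit plane -/
theorem spd_of_col {O : PO X} {u v l m : Z2} {U0 U1 U2 W L0 L1 M0 M1 : Z2 → X}
    (h1 : Par O u v U0 W U1 W) (h2 : Par O u l U1 L1 U2 L0) (h3 : Par O u m U2 M1 U0 M0) :
    ∃ φ, SPD O (AddSubgroup.closure {u, v + l + m}) l m L0 L1 M0 M1 φ := by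
  obtain ⟨hv, fv, a1, a2, a3, a4, a5⟩ := h1
  obtain ⟨hl, fl, b1, b2, b3, b4, b5⟩ := h2
  obtain ⟨hm, fm, c1, c2, c3, c4, c5⟩ := h3
  have C : Col O u v l m U0 U1 U2 W L0 L1 M0 M1 fv fl fm :=
    ⟨hv, hl, hm, a1, b1, c1, a2, a3, a4, a5, b2, b3, b4, b5, c2, c3, c4, c5⟩
  have hv0 : (0 : ℝ) < cr u v := by exact_mod_cast hv
  have hl0 : (0 : ℝ) < cr u l := by exact_mod_cast hl
  have hm0 : (0 : ℝ) < cr u m := by exact_mod_cast hm
  have uΛ : u ∈ AddSubgroup.closure ({u, v + l + m} : Set Z2) :=
    AddSubgroup.subset_closure (by simp)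
  have xΛ : v + l + m ∈ AddSubgroup.closure ({u, v + l + m} : Set Z2) :=
    AddSubgroup.subset_closure (by simp)
  choose φ hφ using goodA_cover hv hl hm fv fl fm
  -- values at the two sides of a slit
  have hL : ∀ p : V, 0 < crx u p → crx u p < cr u l → crx l p < 0 → -(cr u l : ℝ) < crx l p →
      ∀ z, Nr p z → φ (p - em l) (z - l) = fl z := by
    intro p p1 p2 p3 p4 z hz
    have hR := reg_lA (v := v) hv hl hm p1 p2 p3 p4
    have hg : GoodA u v l m fv fl fm (p - em l) (sh (-(v + l + m) + (m + v)) fl) := by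
      refine Or.inr (Or.inr ⟨_, neg_mem xΛ, ?_, rfl⟩)
      have e : InP u l 0 p := by
        refine ⟨by rw [cr_zero']; exact_mod_cast p1.le, by rw [zero_add]; exact p2.le,
          by rw [cr_zero']; exact_mod_cast p3.le, ?_⟩
        rw [zero_add, cr_swap' u l]; push_cast; exact p4.le
      have e2 := e.shift (-l)
      have e3 : -l + 0 = -(v + l + m) + (m + v) := by abel
      have e4 : p + em (-l) = p - em l := by ext <;> simp [em, sub_eq_add_neg]
      rw [e3, e4] at e2
      exact e2
    rw [goodA_uniq C hR (hφ _) hg ((nr_sub p z l).2 hz)]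
    simp only [sh]
    congr 1
    abel
  have hM : ∀ p : V, 0 < crx u p → crx u p < cr u m → crx m p < 0 → -(cr u m : ℝ) < crx m p →
      ∀ z, Nr p z → φ p z = fm z := by
    intro p p1 p2 p3 p4 z hz
    have hR := reg_mA (v := v) (l := l) hv hl hm p1 p2 p3 p4
    have hg : GoodA u v l m fv fl fm p (sh (0 + 0) fm) := by
      refine Or.inl ⟨0, zero_mem _, ?_, rfl⟩
      refine ⟨by rw [add_zero, cr_zero']; exact_mod_cast p1.le, by
        rw [add_zero, zero_add]; exact p2.le, by
        rw [add_zero, cr_zero']; exact_mod_cast p3.le, ?_⟩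
      rw [add_zero, zero_add, cr_swap' u m]; push_cast; exact p4.le
    rw [goodA_uniq C hR (hφ _) hg hz, add_zero, sh_zero]
  have hper : ∀ y, Reg (AddSubgroup.closure ({u, v + l + m} : Set Z2)) l m y →
      ∀ c ∈ AddSubgroup.closure ({u, v + l + m} : Set Z2), ∀ z, Nr y z →
      φ (y + em c) (z + c) = φ y z := by
    intro y hy c hc z hz
    have hz' : Nr (y + em c) (z + c) := by
      have := (nr_sub (y + em c) (z + c) c)
      rw [add_sub_cancel_right, add_sub_cancel_right] at this
      exact this.1 hz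
    rw [goodA_uniq C (hy.shift hc) (hφ _) ((hφ y).shift hc) hz']
    simp only [sh, add_sub_cancel_right]
  refine ⟨φ, ⟨fun y hy => (hφ y).dev C hy, ?_, hper, ?_, ?_, ?_, ?_, ?_, ?_, ?_, ?_⟩⟩
  · -- locally constant
    intro y hy
    filter_upwards [ev_inP u m y, ev_inP u v y, ev_inP u l y, ev_nr y] with y' k1 k2 k3 k4 z hz
    refine goodA_uniq C hy ?_ (hφ y) (k4 z hz)
    rcases hφ y' with ⟨c, hc, g, e⟩ | ⟨c, hc, g, e⟩ | ⟨c, hc, g, e⟩
    · exact Or.inl ⟨c, hc, k1 _ g, e⟩
    · exact Or.inr (Or.inl ⟨c, hc, k2 _ g, e⟩)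
    · exact Or.inr (Or.inr ⟨c, hc, k3 _ g, e⟩)
  · -- right side of the slit `-l → 0`
    intro y hy
    obtain ⟨t, t0, t1, ht⟩ := seg_pt hy
    have e1 : crx u y = t * cr u l := by rw [ht, cr_zero']; simp
    have e2 : crx l y = 0 := by rw [ht, cr_zero', cr_self']; simp
    have p1 := mul_pos t0 hl0
    have p2 := mul_pos (sub_pos.2 t1) hl0
    filter_upwards [ev_nr y, (crx_cont u).continuousAt.eventually_lt continuousAt_const
      (show crx u y < (cr u l : ℝ) by rw [e1]; linarith),
      continuousAt_const.eventually_lt (crx_cont u).continuousAt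
      (show (0 : ℝ) < crx u y by rw [e1]; exact p1),
      continuousAt_const.eventually_lt (crx_cont l).continuousAt
      (show -(cr u l : ℝ) < crx l y by rw [e2]; linarith)] with y' k1 k2 k3 k4 k5 z hz
    rw [hL y' k3 k2 k5 k4 z hz]
    exact b5 y hy z (k1 z hz)
  · -- left side of the slit `-l → 0`
    intro y hy
    obtain ⟨t, t0, t1, ht⟩ := seg_pt hy
    have e1 : crx u y = t * cr u l := by rw [ht, cr_zero']; simp
    have e2 : crx l y = 0 := by rw [ht, cr_zero', cr_self']; simp
    have p1 := mul_pos t0 hl0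
    have p2 := mul_pos (sub_pos.2 t1) hl0
    have hyu : y + em u ∈ Seg u (u + l) := by
      have := seg_add' u hy
      rwa [add_zero] at this
    filter_upwards [ev_nr y, (crx_cont u).continuousAt.eventually_lt continuousAt_const
      (show crx u y < (cr u l : ℝ) by rw [e1]; linarith),
      continuousAt_const.eventually_lt (crx_cont u).continuousAt
      (show (0 : ℝ) < crx u y by rw [e1]; exact p1),
      (crx_cont l).continuousAt.eventually_lt continuousAt_const
      (show crx l y < (cr u l : ℝ) by rw [e2]; exact hl0)] with y' k1 k2 k3 k4 k5 z hz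
    have q1 : ∀ w : Z2, crx w (y' + em u) = crx w y' + cr w u := by
      intro w
      simp only [crx, em, cr, Prod.fst_add, Prod.snd_add]; push_cast; ring
    have q2 : crx u (y' + em u) = crx u y' := by rw [q1, cr_self']; simp
    have q3 : crx l (y' + em u) = crx l y' - cr u l := by
      rw [q1, cr_swap' u l]; push_cast; ring
    have hz2 : Nr (y' + em u) (z + u) := by
      have := nr_sub (y' + em u) (z + u) u
      rw [add_sub_cancel_right, add_sub_cancel_right] at this
      exact this.1 hz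
    have r1 := hL (y' + em u) (by rw [q2]; exact k3) (by rw [q2]; exact k2)
      (by rw [q3]; linarith) (by rw [q3]; linarith) (z + u) hz2
    have hR := reg_lA (v := v) hv hl hm (p := y' + em u) (by rw [q2]; exact k3)
      (by rw [q2]; exact k2) (by rw [q3]; linarith) (by rw [q3]; linarith)
    have r2 := hper _ hR (-u) (neg_mem uΛ) (z + u - l) ((nr_sub _ _ l).2 hz2)
    have e3 : y' + em u - em l + em (-u) = y' - em l := by
      ext <;> simp [em, sub_eq_add_neg] <;> ring
    have e4 : z + u - l + -u = z - l := by abel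
    rw [e3, e4] at r2
    rw [r2, r1]
    have r3 := b3 _ hyu (z + u) (by
      have := nr_sub (y + em u) (z + u) u
      rw [add_sub_cancel_right, add_sub_cancel_right] at this
      exact this.1 (k1 z hz))
    rw [r3]
    simp only [sh, add_sub_cancel_right]
  · -- right side of the slit `0 → m`
    intro y hy
    obtain ⟨t, t0, t1, ht⟩ := seg_pt hy
    have e1 : crx u y = t * cr u m := by rw [ht, cr_zero']; simp
    have e2 : crx m y = 0 := by rw [ht, cr_zero', cr_self']; simp
    have p1 := mul_pos t0 hm0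
    have p2 := mul_pos (sub_pos.2 t1) hm0
    filter_upwards [ev_nr y, (crx_cont u).continuousAt.eventually_lt continuousAt_const
      (show crx u y < (cr u m : ℝ) by rw [e1]; linarith),
      continuousAt_const.eventually_lt (crx_cont u).continuousAt
      (show (0 : ℝ) < crx u y by rw [e1]; exact p1),
      continuousAt_const.eventually_lt (crx_cont m).continuousAt
      (show -(cr u m : ℝ) < crx m y by rw [e2]; linarith)] with y' k1 k2 k3 k4 k5 z hz
    rw [hM y' k3 k2 k5 k4 z hz]
    exact c5 y hy z (k1 z hz)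
  · -- left side of the slit `0 → m`
    intro y hy
    obtain ⟨t, t0, t1, ht⟩ := seg_pt hy
    have e1 : crx u y = t * cr u m := by rw [ht, cr_zero']; simp
    have e2 : crx m y = 0 := by rw [ht, cr_zero', cr_self']; simp
    have p1 := mul_pos t0 hm0
    have p2 := mul_pos (sub_pos.2 t1) hm0
    have hyu : y + em u ∈ Seg u (u + m) := by
      have := seg_add' u hy
      rwa [add_zero] at this
    filter_upwards [ev_nr y, (crx_cont u).continuousAt.eventually_lt continuousAt_const
      (show crx u y < (cr u m : ℝ) by rw [e1]; linarith),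
      continuousAt_const.eventually_lt (crx_cont u).continuousAt
      (show (0 : ℝ) < crx u y by rw [e1]; exact p1),
      (crx_cont m).continuousAt.eventually_lt continuousAt_const
      (show crx m y < (cr u m : ℝ) by rw [e2]; exact hm0)] with y' k1 k2 k3 k4 k5 z hz
    have q1 : ∀ w : Z2, crx w (y' + em u) = crx w y' + cr w u := by
      intro w
      simp only [crx, em, cr, Prod.fst_add, Prod.snd_add]; push_cast; ring
    have q2 : crx u (y' + em u) = crx u y' := by rw [q1, cr_self']; simp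
    have q3 : crx m (y' + em u) = crx m y' - cr u m := by
      rw [q1, cr_swap' u m]; push_cast; ring
    have hz2 : Nr (y' + em u) (z + u) := by
      have := nr_sub (y' + em u) (z + u) u
      rw [add_sub_cancel_right, add_sub_cancel_right] at this
      exact this.1 hz
    have r1 := hM (y' + em u) (by rw [q2]; exact k3) (by rw [q2]; exact k2)
      (by rw [q3]; linarith) (by rw [q3]; linarith) (z + u) hz2
    have hR := reg_mA (v := v) (l := l) hv hl hm (p := y' + em u) (by rw [q2]; exact k3)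
      (by rw [q2]; exact k2) (by rw [q3]; linarith) (by rw [q3]; linarith)
    have r2 := hper _ hR (-u) (neg_mem uΛ) (z + u) hz2
    have e3 : y' + em u + em (-u) = y' := by
      ext <;> simp [em]
    have e4 : z + u + -u = z := by abel
    rw [e3, e4] at r2
    rw [r2, r1]
    have r3 := c3 _ hyu (z + u) (by
      have := nr_sub (y + em u) (z + u) u
      rw [add_sub_cancel_right, add_sub_cancel_right] at this
      exact this.1 (k1 z hz))
    rw [r3]
    simp only [sh, add_sub_cancel_right]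
  · exact fun y hy => (b1 y (seg_left hl hy)).congr (fun z hz => (b5 y hy z hz).symm)
  · intro y hy
    have hyu : y + em u ∈ Seg u (u + l) := by
      have := seg_add' u hy
      rwa [add_zero] at this
    exact DevAt.unsh ((b1 _ (seg_right hl hyu)).congr (fun z hz => (b3 _ hyu z hz).symm))
  · exact fun y hy => (c1 y (seg_left hm hy)).congr (fun z hz => (c5 y hy z hz).symm)
  · intro y hy
    have hyu : y + em u ∈ Seg u (u + m) := by
      have := seg_add' u hy
      rwa [add_zero] at this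
    exact DevAt.unsh ((c1 _ (seg_right hm hyu)).congr (fun z hz => (c3 _ hyu z hz).symm))

end Pool.Agent.H4G.Six
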