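import Pool.Agent.H4G.Six.Config2

/-!
# The degenerate centre, first step (helper96)

The vector `x` of the lattice is a multiple of `m`. The plane of the torus `⟨l, x - q⟩`, slit
along `0 → x`.
-/

set_option autoImplicit false

namespace Pool.Agent.H4G.Six

open Pool.Agent.H4G Filter Topology

variable {X : Type}

section

variable {u x l q m : Z2}

/-- the geometric hypotheses for uniqueness -/
structure HQ (l x q : Z2) : Prop where
  b1 : (0 : ℝ) < cr l x
  b7 : (0 : ℝ) < cr q l

theorem HQ.D (h : HQ l x q) : (cr l (x - q) : ℝ) = cr l x + cr q l := by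
  rw [crR_sub, crR_swap q l]; ring

/-- a regular point is not on the sides `x` of the cell -/
theorem cell_strictD (h : HQ l x q) {y : V}
    (hy : Reg (AddSubgroup.closure {l, x - q}) (-m) x y) {c : Z2}
    (hc : c ∈ AddSubgroup.closure {l, x - q}) (hin : InCell l x (y - em c)) :
    0 < crx x (y - em c) ∧ crx x (y - em c) < cr l x := by
  obtain ⟨h1, h2, h3, h4⟩ := hin
  have hl : l ∈ AddSubgroup.closure {l, x - q} := AddSubgroup.subset_closure (by simp)
  have b1' : 0 < cr l (x - 0) := by rw [sub_zero]; exact_mod_cast h.b1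
  constructor
  · rcases h3.lt_or_eq with h5 | h5
    · exact h5
    · exfalso
      apply (hy c hc).2
      refine mem_cseg (a := l) b1' ?_ ?_ ?_
      · rw [sub_zero, crR_zero, ← h5]
      · rw [crR_zero]; exact h1
      · exact h2
  · rcases h4.lt_or_eq with h5 | h5
    · exact h5
    · exfalso
      apply (hy (c - l) (AddSubgroup.sub_mem _ hc hl)).2
      have e : y - em (c - l) = y - em c + em l := by
        have : em (c - l) = em c - em l := by ext <;> simp [em]
        rw [this]; abel
      rw [e]
      refine mem_cseg (a := l) b1' ?_ ?_ ?_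
      · rw [sub_zero, crR_zero, crx_add, crx_em, h5, crR_swap l x]; ring
      · rw [crR_zero, crx_add, crx_em, crR_self]; linarith
      · rw [crx_add, crx_em, crR_self]; linarith

/-- uniqueness of the germs -/
theorem GB.uniqD {O : PO X} {L0 L1 fD : Z2 → X} {φ : V → Z2 → X} (h : HQ l x q)
    (hf : CylF O l q L0 L1 fD) {y : V}
    (hy : Reg (AddSubgroup.closure {l, x - q}) (-m) x y) {F F' : Z2 → X}
    (h1 : GB l x q L0 L1 fD φ y F) (h2 : GB l x q L0 L1 fD φ y F') {z : Z2} (hz : Nr y z) :
    F z = F' z := by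
  have hD := h.D
  obtain ⟨b1, b7⟩ := id h
  have hcr : ∀ (a : Z2) (w : V) (c : Z2), crx a (w - em c) = crx a w - cr a c := by
    intro a w c
    rw [crx_sub, crx_em]
  have hcyl : ∀ c c' : Z2, c ∈ AddSubgroup.closure {l, x - q} →
      c' ∈ AddSubgroup.closure {l, x - q} → InCell l x (y - em c) →
      InCyl l q (y - em (c' + (x - l))) → False := by
    rintro c c' hc hc' ⟨p1, p2, p3, p4⟩ ⟨q1, q2, q3, q4⟩
    rw [hcr] at p1 p2 q1 q2
    rw [crR_add, crR_sub, crR_self] at q1 q2
    obtain ⟨k, hk⟩ := lat_small (c := c - c') (AddSubgroup.sub_mem _ hc hc') (by linarith)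
      (by rw [crR_sub l c c']; linarith) (by rw [crR_sub l c c']; linarith)
    have e : (cr l (c - c') : ℝ) = 0 := by rw [hk, crR_zsmul, crR_self, mul_zero]
    rw [crR_sub] at e
    linarith
  cases h1 with
  | cell c hc hin =>
    cases h2 with
    | cell c' hc' hin' =>
      have s1 := cell_strictD h hy hc hin
      have s2 := cell_strictD h hy hc' hin'
      obtain ⟨p1, p2, p3, p4⟩ := hin
      obtain ⟨q1, q2, q3, q4⟩ := hin'
      rw [hcr] at s1 s2 p1 p2 q1 q2
      obtain ⟨k, hk⟩ := lat_small (c := c - c') (AddSubgroup.sub_mem _ hc hc') (by linarith)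
        (by rw [crR_sub l c c']; linarith) (by rw [crR_sub l c c']; linarith)
      have e : (cr x (c - c') : ℝ) = -(k * cr l x) := by
        rw [hk, crR_zsmul, crR_swap l x]; ring
      rw [crR_sub] at e
      have hk0 : k = 0 := int_zero b1 (by linarith) (by linarith)
      rw [hk0, zero_smul, sub_eq_zero] at hk
      rw [hk]
    | cyl c' hc' hin' => exact (hcyl c c' hc hc' hin hin').elim
  | cyl c hc hin =>
    cases h2 with
    | cell c' hc' hin' => exact (hcyl c' c hc' hc hin' hin).elim
    | cyl c' hc' hin' =>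
      obtain ⟨p1, p2, p3, p4⟩ := id hin
      obtain ⟨q1, q2, q3, q4⟩ := id hin'
      have key : ∀ c c' : Z2, InCyl l q (y - em (c + (x - l))) →
          InCyl l q (y - em (c' + (x - l))) → c = c' + l →
          sh (c + (x - l)) fD z = sh (c' + (x - l)) fD z := by
        rintro c c' ⟨p1, p2, p3, p4⟩ ⟨q1, q2, q3, q4⟩ rfl
        have e0 : y - em (c' + l + (x - l)) = y - em (c' + (x - l)) - em l := by
          have : em (c' + l + (x - l)) = em (c' + (x - l)) + em l := by
            rw [← em_add]; congr 1; abel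
          rw [this]; abel
        have hq : crx q (y - em (c' + (x - l))) = cr q l := by
          rw [e0, hcr] at p3
          linarith
        have hseg : y - em (c' + l + (x - l)) ∈ Seg 0 (-q) := by
          refine mem_seg (a := l) (by rw [sub_zero, cr_negr, cr_swap' q l, neg_neg]; exact_mod_cast b7)
            ?_ ?_ ?_
          · rw [sub_zero, crR_zero, e0, crx_negl, hcr, hq]; ring
          · rw [crR_zero]; exact p1
          · rw [crR_neg, crR_swap q l]; linarith
        have := hf.gl _ hseg (z - (c' + l + (x - l))) ((nr_sub y z _).2 hz)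
        show fD (z - (c' + l + (x - l))) = fD (z - (c' + (x - l)))
        rw [this]
        show fD (z - (c' + l + (x - l)) + l) = _
        congr 1
        abel
      rw [hcr] at p1 p2 p3 p4 q1 q2 q3 q4
      rw [crR_add] at p1 p2 p3 p4 q1 q2 q3 q4
      obtain ⟨k, hk⟩ := lat_small (c := c - c') (AddSubgroup.sub_mem _ hc hc') (by linarith)
        (by rw [crR_sub l c c']; linarith) (by rw [crR_sub l c c']; linarith)
      have e : (cr q (c - c') : ℝ) = k * cr q l := by
        rw [hk, crR_zsmul]
      rw [crR_sub] at e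
      have k1 : (k : ℝ) ≤ 1 := by
        by_contra hc
        push Not at hc
        nlinarith
      have k2 : (-1 : ℝ) ≤ k := by
        by_contra hc
        push Not at hc
        nlinarith
      have k1' : k ≤ 1 := by exact_mod_cast k1
      have k2' : -1 ≤ k := by exact_mod_cast k2
      interval_cases k
      · exact (key c' c hin' hin (by
          rw [neg_one_smul] at hk
          have : c' = c - (c - c') := by abel
          rw [hk] at this
          rw [this]; abel)).symm
      · rw [zero_smul, sub_eq_zero] at hk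
        rw [hk]
      · exact key c c' hin hin' (by
          rw [one_smul] at hk
          have : c = c' + (c - c') := by abel
          rw [hk] at this
          exact this)

/-- every point lies in a cell or in a cylinder -/
theorem HQ.cover (h : HQ l x q) (y : V) : ∃ c ∈ AddSubgroup.closure {l, x - q},
    InCell l x (y - em c) ∨
      (InCyl l q (y - em (c + (x - l))) ∧ crx q (y - em (c + (x - l))) < cr q l) := by
  have hD := h.D
  obtain ⟨b1, b7⟩ := id h
  have hcr : ∀ (a : Z2) (w : V) (c : Z2), crx a (w - em c) = crx a w - cr a c := by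
    intro a w c
    rw [crx_sub, crx_em]
  obtain ⟨i, i1, i2⟩ := exists_fl (B := (cr l (x - q) : ℝ)) (by linarith) (crx l y)
  by_cases hc : crx l y - i * (cr l (x - q) : ℝ) ≤ cr l x
  · obtain ⟨j, j1, j2⟩ := exists_fl (B := (cr l x : ℝ)) b1
      (crx x y - i * cr x (x - q))
    refine ⟨(-j) • l + i • (x - q), AddSubgroup.mem_closure_pair.2 ⟨-j, i, rfl⟩, Or.inl ?_⟩
    refine ⟨?_, ?_, ?_, ?_⟩ <;> rw [hcr, cr_comb]
    · rw [crR_self]; linarith
    · rw [crR_self]; linarith
    · rw [crR_swap l x]; push_cast; linarith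
    · rw [crR_swap l x]; push_cast; linarith
  · push Not at hc
    obtain ⟨j, j1, j2⟩ := exists_fl (B := (cr q l : ℝ)) b7
      (crx q y - i * cr q (x - q) - cr q (x - l))
    refine ⟨j • l + i • (x - q), AddSubgroup.mem_closure_pair.2 ⟨j, i, rfl⟩, Or.inr ?_⟩
    refine ⟨⟨?_, ?_, ?_, ?_⟩, ?_⟩ <;> rw [hcr, crR_add, cr_comb]
    · rw [crR_self, crR_sub l x l, crR_self]; linarith
    · rw [crR_self, crR_sub l x l, crR_self]; linarith
    · linarith
    · linarith
    · linarith

theorem line_qD (h : HQ l x q) {w : V} (h0 : crx l w = 0) :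
    (cr l x : ℝ) * crx q w = -(cr q l * crx x w) := by
  have := pluck l x q w
  rw [h0, crR_swap q l] at this
  linarith

theorem seg_lD (h : HQ l x q) {w : V} (h0 : crx l w = 0) (h1 : crx x w < 0)
    (h2 : -(cr l x : ℝ) < crx x w) : w ∈ Seg 0 l := by
  refine mem_seg (a := -x) ?_ ?_ ?_ ?_
  · rw [sub_zero, cr_negl, cr_swap' l x, neg_neg]; exact_mod_cast h.b1
  · rw [sub_zero, crR_zero, h0]
  · rw [crR_zero, crx_negl]; linarith
  · have : (cr (-x) l : ℝ) = cr l x := by
      have : cr (-x) l = cr l x := by rw [cr_negl, cr_swap' l x, neg_neg]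
      exact_mod_cast this
    rw [this, crx_negl]; linarith

theorem InCyl.pgmD (h : HQ l x q) {w : V} (hw : InCyl l q w) : w ∈ Pgm l (-q) := by
  obtain ⟨h1, h2, h3, h4⟩ := hw
  have e : (cr l (-q) : ℝ) = cr q l := by rw [crR_neg, crR_swap q l]; ring
  refine ⟨h1.le, by rw [e]; exact h2.le, by rw [crx_negl]; linarith,
    by rw [e, crx_negl]; linarith, ?_, ?_, ?_, ?_⟩
  · apply ne_of_crx (a := l); rw [crR_zero]; exact h1.ne'
  · apply ne_of_crx (a := l); rw [crR_self]; exact h1.ne'
  · apply ne_of_crx (a := l); rw [e]; exact h2.ne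
  · apply ne_of_crx (a := l); rw [crR_add, crR_self, e, zero_add]; exact h2.ne

theorem seg_qD (h : HQ l x q) {w : V} (h0 : crx q w = 0) (h1 : 0 < crx l w)
    (h2 : crx l w < cr q l) : w ∈ Seg 0 (-q) := by
  refine mem_seg (a := l) (by
    rw [sub_zero, cr_negr, cr_swap' q l, neg_neg]; exact_mod_cast h.b7) ?_ ?_ ?_
  · rw [sub_zero, crR_zero, crx_negl, h0, neg_zero]
  · rw [crR_zero]; exact h1
  · rw [crR_neg, crR_swap q l]; linarith

/-- the geometric hypotheses of the degenerate centre: `x` is a multiple of `m` -/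
structure HX (u x l q m : Z2) : Prop where
  b0 : cr m x = 0
  b1 : 0 < cr l x
  b4 : cr l x < cr u x
  b5 : 0 < cr l m
  b6 : cr l m < cr l x
  b7 : 0 < cr q l

theorem HX.hq (h : HX u x l q m) : HQ l x q :=
  ⟨by exact_mod_cast h.b1, by exact_mod_cast h.b7⟩

/-- the interior of the cell is off the slits -/
theorem HX.reg_cell (h : HX u x l q m) {w : V} (h1 : 0 < crx l w) (h2 : crx l w < cr l x)
    (h3 : 0 < crx x w) (h4 : crx x w < cr l x) :
    Reg (AddSubgroup.closure {u, x}) l m w := by
  have b0 : (cr m x : ℝ) = 0 := by exact_mod_cast h.b0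
  have b1 : (0 : ℝ) < cr l x := by exact_mod_cast h.b1
  have b4 : (cr l x : ℝ) < cr u x := by exact_mod_cast h.b4
  intro c hc
  obtain ⟨i, j, rfl⟩ := AddSubgroup.mem_closure_pair.1 hc
  constructor
  · intro hw
    obtain ⟨t, t0, t1, ht⟩ := cseg_pt hw
    have e1 := ht x
    have e2 := ht l
    rw [crx_sub, crx_em, cr_comb, crR_neg, crR_zero, crR_swap u x, crR_swap l x, crR_self] at e1
    rw [crx_sub, crx_em, cr_comb, crR_neg, crR_zero, crR_self] at e2
    have hi : i = 0 := int_zero (B := (cr u x : ℝ)) (by linarith) (by nlinarith) (by nlinarith)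
    subst hi
    simp only [Int.cast_zero, zero_mul, zero_add] at e2
    have hj : j = 0 := int_zero b1 (by nlinarith) (by nlinarith)
    subst hj
    simp only [Int.cast_zero, zero_mul] at e2
    linarith
  · intro hw
    obtain ⟨t, t0, t1, ht⟩ := cseg_pt hw
    have e1 := ht x
    rw [crx_sub, crx_em, cr_comb, crR_zero, crR_swap u x, crR_swap m x, crR_self, b0] at e1
    have hi : i = 0 := int_zero (B := (cr u x : ℝ)) (by linarith) (by nlinarith) (by nlinarith)
    subst hi
    simp only [Int.cast_zero, zero_mul, zero_add, mul_zero, neg_zero] at e1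
    linarith

/-- the germs are developed -/
theorem GB.devD {O : PO X} {L0 L1 M0 M1 fD : Z2 → X} {φ : V → Z2 → X} (hb : HX u x l q m)
    (hS : SPD O (AddSubgroup.closure {u, x}) l m L0 L1 M0 M1 φ)
    (hf : CylF O l q L0 L1 fD) {y : V}
    (hy : Reg (AddSubgroup.closure {l, x - q}) (-m) x y) {F : Z2 → X}
    (h1 : GB l x q L0 L1 fD φ y F) : DevAt O y F := by
  have h := hb.hq
  cases h1 with
  | cell c hc hin =>
    have s1 := cell_strictD h hy hc hin
    apply DevAt.sh
    unfold cellF
    split_ifs with k1 k2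
    · apply DevAt.sh
      apply hS.dL1
      apply seg_lD h
      · rw [crx_sub, crx_em, k1, crR_neg, crR_self]; ring
      · rw [crx_sub, crx_em, crR_neg, crR_swap l x]; linarith
      · rw [crx_sub, crx_em, crR_neg, crR_swap l x]; linarith
    · apply DevAt.sh
      apply hS.dL0
      apply seg_lD h
      · rw [crx_sub, crx_em, k2, crR_sub, crR_self]; ring
      · rw [crx_sub, crx_em, crR_sub, crR_self, crR_swap l x]; linarith
      · rw [crx_sub, crx_em, crR_sub, crR_self, crR_swap l x]; linarith
    · apply hS.dev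
      exact hb.reg_cell (lt_of_le_of_ne hin.1 (Ne.symm k1)) (lt_of_le_of_ne hin.2.1 k2) s1.1 s1.2
  | cyl c hc hin =>
    apply DevAt.sh
    exact hf.dev _ (hin.pgmD h)

/-- local constancy of the germs -/
theorem GB.nearD {O : PO X} {L0 L1 M0 M1 fD : Z2 → X} {φ : V → Z2 → X} (hb : HX u x l q m)
    (hS : SPD O (AddSubgroup.closure {u, x}) l m L0 L1 M0 M1 φ)
    (hf : CylF O l q L0 L1 fD) {y : V}
    (hy : Reg (AddSubgroup.closure {l, x - q}) (-m) x y) :
    ∃ F0, GB l x q L0 L1 fD φ y F0 ∧ ∀ᶠ y' in 𝓝 y, ∃ F', GB l x q L0 L1 fD φ y' F' ∧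
      ∀ z, Nr y' z → F' z = F0 z := by
  have h := hb.hq
  have hD := h.D
  obtain ⟨b1, b7⟩ := id h
  have hl : l ∈ AddSubgroup.closure {l, x - q} := AddSubgroup.subset_closure (by simp)
  have ht : x - q ∈ AddSubgroup.closure {l, x - q} := AddSubgroup.subset_closure (by simp)
  have hx : x ∈ AddSubgroup.closure {u, x} := AddSubgroup.subset_closure (by simp)
  have hcr : ∀ (a : Z2) (w : V) (c : Z2), crx a (w - em c) = crx a w - cr a c := by
    intro a w c
    rw [crx_sub, crx_em]
  obtain ⟨c, hc, hin | ⟨hin, hlt⟩⟩ := HQ.cover h y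
  · have s := cell_strictD h hy hc hin
    rcases eq_or_ne (crx l (y - em c)) 0 with r0 | r0
    · refine ⟨sh c (sh (-l) L1), ?_, ?_⟩
      · have := GB.cell (L0 := L0) (L1 := L1) (fD := fD) (φ := φ) c hc hin
        simpa only [cellF, r0, if_true] using this
      · have hseg : y - em (c - l) ∈ Seg 0 l := by
          apply seg_lD h
          · rw [hcr] at r0 ⊢
            rw [crR_sub, crR_self]; linarith
          · rw [hcr] at s ⊢
            rw [crR_sub, crR_swap l x]; linarith
          · rw [hcr] at s ⊢
            rw [crR_sub, crR_swap l x]; linarith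
        have hq := line_qD h r0
        have q1 : crx q (y - em c) < 0 := by nlinarith
        have q2 : -(cr q l : ℝ) < crx q (y - em c) := by nlinarith
        have E6 : 0 < crx q (y - em (c - (x - q) + (x - l))) := by
          rw [hcr] at q1 q2 ⊢
          rw [crR_add, crR_sub q c, crR_sub q x, crR_sub q x, crR_self]; linarith
        have E7 : crx q (y - em (c - (x - q) + (x - l))) < cr q l := by
          rw [hcr] at q1 q2 ⊢
          rw [crR_add, crR_sub q c, crR_sub q x, crR_sub q x, crR_self]; linarith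
        filter_upwards [ev_gt s.1, ev_lt s.2, ev_gt (a := l) (c := c) (y := y) (r := -(cr q l : ℝ))
          (by rw [r0]; linarith), ev_lt (a := l) (c := c) (y := y) (r := (cr l x : ℝ))
          (by rw [r0]; exact b1), ev_sub (hS.sL1 _ hseg), ev_gt E6, ev_lt E7, ev_nr y]
          with y' e1 e2 e3 e4 e5 e6 e7 e8
        rcases lt_trichotomy (crx l (y' - em c)) 0 with g | g | g
        · refine ⟨sh (c - (x - q) + (x - l)) fD, GB.cyl _ (AddSubgroup.sub_mem _ hc ht)
            ⟨?_, ?_, e6.le, e7.le⟩, ?_⟩
          · rw [hcr] at g e3 ⊢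
            rw [crR_add, crR_sub l c, crR_sub l x, crR_sub l x, crR_self, crR_swap q l]; linarith
          · rw [hcr] at g e3 ⊢
            rw [crR_add, crR_sub l c, crR_sub l x, crR_sub l x, crR_self, crR_swap q l]; linarith
          · intro z hz
            have hw := seg_add' (-q) hseg
            rw [add_zero] at hw
            have ez : y - em (c - l) + em (-q) = y - em (c - (x - q) + (x - l)) := by
              have e1 : em (c - (x - q) + (x - l)) = em (c - l) - em (-q) := by
                ext
                · simp [em]; ring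
                · simp [em]; ring
              rw [e1]; abel
            rw [ez] at hw
            have := hf.up _ hw (z - (c - (x - q) + (x - l))) ((nr_sub y z _).2 (e8 z hz))
            show fD (z - (c - (x - q) + (x - l))) = L1 (z - c - -l)
            rw [this]
            show L1 (z - (c - (x - q) + (x - l)) - -q) = _
            congr 1
            abel
        · refine ⟨sh c (sh (-l) L1), ?_, fun z _ => rfl⟩
          have := GB.cell (L0 := L0) (L1 := L1) (fD := fD) (φ := φ) c hc
            (⟨g.ge, by rw [g]; exact b1.le, e1.le, e2.le⟩ : InCell l x (y' - em c))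
          simpa only [cellF, g, if_true] using this
        · refine ⟨sh c (φ (y' - em c)), ?_, ?_⟩
          · have := GB.cell (L0 := L0) (L1 := L1) (fD := fD) (φ := φ) c hc
              (⟨g.le, e4.le, e1.le, e2.le⟩ : InCell l x (y' - em c))
            simpa only [cellF, g.ne', e4.ne, if_false] using this
          · intro z hz
            have := e5 (by
              rw [hcr] at g ⊢
              rw [crR_sub, crR_self]; linarith) (z - (c - l)) ((nr_sub y' z _).2 hz)
            have e9 : y' - em (c - l) - em l = y' - em c := by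
              have : em (c - l) = em c - em l := by ext <;> simp [em]
              rw [this]; abel
            rw [e9] at this
            show φ (y' - em c) (z - c) = L1 (z - c - -l)
            have e10 : z - (c - l) - l = z - c := by abel
            rw [e10] at this
            rw [this]
            congr 1
            abel
    · rcases eq_or_ne (crx l (y - em c)) (cr l x) with r1 | r1
      · refine ⟨sh c (sh (x - l) L0), ?_, ?_⟩
        · have := GB.cell (L0 := L0) (L1 := L1) (fD := fD) (φ := φ) c hc hin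
          simpa only [cellF, r0, r1, b1.ne', if_true, if_false] using this
        · have hseg : y - em (c + (x - l)) ∈ Seg 0 l := by
            apply seg_lD h
            · rw [hcr] at r1 ⊢
              rw [crR_add, crR_sub, crR_self]; linarith
            · rw [hcr] at s ⊢
              rw [crR_add, crR_sub, crR_self, crR_swap l x]; linarith
            · rw [hcr] at s ⊢
              rw [crR_add, crR_sub, crR_self, crR_swap l x]; linarith
          have r2 : crx l (y - em (c + (x - l))) = 0 := by
            rw [hcr] at r1 ⊢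
            rw [crR_add, crR_sub, crR_self]; linarith
          have r3 : crx x (y - em (c + (x - l))) = crx x (y - em c) - cr l x := by
            rw [hcr, hcr, crR_add, crR_sub, crR_self, crR_swap l x]; ring
          have hq := line_qD h r2
          rw [r3] at hq
          have E6 : 0 < crx q (y - em (c + (x - l))) := by nlinarith
          have E7 : crx q (y - em (c + (x - l))) < cr q l := by nlinarith
          filter_upwards [ev_gt s.1, ev_lt s.2, ev_gt (a := l) (c := c) (y := y)
            (r := (0 : ℝ)) (by rw [r1]; exact b1), ev_lt (a := l) (c := c) (y := y)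
            (r := (cr l x + cr q l : ℝ)) (by rw [r1]; linarith), ev_sub (hS.sL0 _ hseg),
            ev_gt E6, ev_lt E7, ev_nr y] with y' e1 e2 e3 e4 e5 e6 e7 e8
          rcases lt_trichotomy (crx l (y' - em c)) (cr l x) with g | g | g
          · refine ⟨sh c (φ (y' - em c)), ?_, ?_⟩
            · have := GB.cell (L0 := L0) (L1 := L1) (fD := fD) (φ := φ) c hc
                (⟨e3.le, g.le, e1.le, e2.le⟩ : InCell l x (y' - em c))
              simpa only [cellF, e3.ne', g.ne, if_false] using this
            · intro z hz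
              have hreg : Reg (AddSubgroup.closure {u, x}) l m (y' - em c) :=
                hb.reg_cell e3 g e1 e2
              have hreg2 := reg_sub hreg hx
              have k1 := hS.per _ hreg2 x hx (z - c - x)
                ((nr_sub (y' - em c) (z - c) x).2 ((nr_sub y' z c).2 hz))
              rw [sub_add_cancel, sub_add_cancel] at k1
              have k2 := e5 (by
                rw [hcr] at g ⊢
                rw [crR_add, crR_sub, crR_self]; linarith) (z - (c + (x - l)))
                ((nr_sub y' z _).2 hz)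
              have e9 : y' - em (c + (x - l)) - em l = y' - em c - em x := by
                have : em (c + (x - l)) = em c + em x - em l := by
                  ext
                  · simp [em]; ring
                  · simp [em]; ring
                rw [this]; abel
              have e10 : z - (c + (x - l)) - l = z - c - x := by abel
              rw [e9, e10] at k2
              show φ (y' - em c) (z - c) = L0 (z - c - (x - l))
              rw [k1, k2]
              congr 1
              abel
          · refine ⟨sh c (sh (x - l) L0), ?_, fun z _ => rfl⟩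
            have := GB.cell (L0 := L0) (L1 := L1) (fD := fD) (φ := φ) c hc
              (⟨by rw [g]; exact b1.le, g.le, e1.le, e2.le⟩ : InCell l x (y' - em c))
            simpa only [cellF, g, b1.ne', if_true, if_false] using this
          · refine ⟨sh (c + (x - l)) fD, GB.cyl _ hc ⟨?_, ?_, e6.le, e7.le⟩, ?_⟩
            · rw [hcr] at g e4 ⊢
              rw [crR_add, crR_sub, crR_self]; linarith
            · rw [hcr] at g e4 ⊢
              rw [crR_add, crR_sub, crR_self]; linarith
            · intro z hz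
              have := hf.lo _ hseg (z - (c + (x - l))) ((nr_sub y z _).2 (e8 z hz))
              show fD (z - (c + (x - l))) = L0 (z - c - (x - l))
              rw [this]
              congr 1
              abel
      · have hreg : Reg (AddSubgroup.closure {u, x}) l m (y - em c) :=
          hb.reg_cell (lt_of_le_of_ne hin.1 (Ne.symm r0)) (lt_of_le_of_ne hin.2.1 r1) s.1 s.2
        refine ⟨sh c (φ (y - em c)), ?_, ?_⟩
        · have := GB.cell (L0 := L0) (L1 := L1) (fD := fD) (φ := φ) c hc hin
          simpa only [cellF, r0, r1, if_false] using this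
        · filter_upwards [ev_gt s.1, ev_lt s.2, ev_gt (lt_of_le_of_ne hin.1 (Ne.symm r0)),
            ev_lt (lt_of_le_of_ne hin.2.1 r1), ev_sub (hS.lc _ hreg)] with y' e1 e2 e3 e4 e5
          refine ⟨sh c (φ (y' - em c)), ?_, ?_⟩
          · have := GB.cell (L0 := L0) (L1 := L1) (fD := fD) (φ := φ) c hc
              (⟨e3.le, e4.le, e1.le, e2.le⟩ : InCell l x (y' - em c))
            simpa only [cellF, e3.ne', e4.ne, if_false] using this
          · intro z hz
            exact e5 (z - c) ((nr_sub y' z c).2 hz)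
  · rcases hin.2.2.1.lt_or_eq with g | g
    · refine ⟨sh (c + (x - l)) fD, GB.cyl c hc hin, ?_⟩
      filter_upwards [ev_gt hin.1, ev_lt hin.2.1, ev_gt g, ev_lt hlt] with y' e1 e2 e3 e4
      exact ⟨_, GB.cyl c hc ⟨e1, e2, e3.le, e4.le⟩, fun z _ => rfl⟩
    · refine ⟨sh (c + (x - l)) fD, GB.cyl c hc hin, ?_⟩
      filter_upwards [ev_gt hin.1, ev_lt hin.2.1, ev_gt (a := q) (c := c + (x - l)) (y := y)
        (r := -(cr q l : ℝ)) (by rw [← g]; linarith), ev_lt hlt, ev_nr y] with y' e1 e2 e3 e4 e5
      by_cases g' : 0 ≤ crx q (y' - em (c + (x - l)))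
      · exact ⟨_, GB.cyl c hc ⟨e1, e2, g', e4.le⟩, fun z _ => rfl⟩
      · push Not at g'
        refine ⟨sh (c - l + (x - l)) fD, GB.cyl (c - l) (AddSubgroup.sub_mem _ hc hl)
          ⟨?_, ?_, ?_, ?_⟩, ?_⟩
        · rw [hcr] at e1 ⊢
          rw [crR_add] at e1 ⊢
          rw [crR_sub l c, crR_self]; linarith
        · rw [hcr] at e2 ⊢
          rw [crR_add] at e2 ⊢
          rw [crR_sub l c, crR_self]; linarith
        · rw [hcr] at e3 ⊢
          rw [crR_add] at e3 ⊢
          rw [crR_sub q c]; linarith
        · rw [hcr] at g' ⊢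
          rw [crR_add] at g' ⊢
          rw [crR_sub q c]; linarith
        · intro z hz
          have := hf.gl _ (seg_qD h g.symm hin.1 hin.2.1) (z - (c + (x - l)))
            ((nr_sub y z _).2 (e5 z hz))
          show fD (z - (c - l + (x - l))) = fD (z - (c + (x - l)))
          rw [this]
          show _ = fD (z - (c + (x - l)) + l)
          congr 1
          abel

/-! ## The plane of the torus `⟨l, x - q⟩` -/

/-- development of the plane of the torus `L`, slit along `0 → x`; the left side of the slit is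
the slit `0 → m` (germ `M1`) and a segment of the old plane, the right side is the line
through `-l` of the old plane -/
structure SP1 (O : PO X) (L : AddSubgroup Z2) (l m x : Z2) (M1 : Z2 → X)
    (φ ψ : V → Z2 → X) : Prop where
  dev : ∀ y, Reg L (-m) x y → DevAt O y (ψ y)
  lc : ∀ y, Reg L (-m) x y → ∀ᶠ y' in 𝓝 y, ∀ z, Nr y' z → ψ y' z = ψ y z
  per : ∀ y, Reg L (-m) x y → ∀ c ∈ L, ∀ z, Nr y z → ψ (y + em c) (z + c) = ψ y z
  left_m : ∀ y ∈ Seg 0 m, ∀ᶠ y' in 𝓝 y, 0 < crx x y' → ∀ z, Nr y' z → ψ y' z = M1 z
  left_n : ∀ y ∈ Seg m x, ∀ᶠ y' in 𝓝 y, 0 < crx x y' → ∀ z, Nr y' z → ψ y' z = φ y z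
  right : ∀ y ∈ Seg 0 x, ∀ᶠ y' in 𝓝 y, crx x y' < 0 → ∀ z, Nr y' z →
    ψ y' z = φ (y - em l) (z - l)

theorem HX.mul (h : HX u x l q m) (y : V) : (cr l x : ℝ) * crx m y = cr l m * crx x y := by
  have b0 : (cr m x : ℝ) = 0 := by exact_mod_cast h.b0
  have := pluck l x m y
  rw [crR_swap m x, b0] at this
  linarith

theorem HX.cseg (h : HX u x l q m) {w : V} (hw : w ∈ CSeg 0 m) : w ∈ CSeg 0 x := by
  have b0 : (cr m x : ℝ) = 0 := by exact_mod_cast h.b0
  have b5 : (0 : ℝ) < cr l m := by exact_mod_cast h.b5
  have b6 : (cr l m : ℝ) < cr l x := by exact_mod_cast h.b6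
  obtain ⟨t, t0, t1, ht⟩ := cseg_pt hw
  have e1 := ht l
  have e2 := ht x
  rw [crR_zero] at e1 e2
  rw [crR_swap m x, b0] at e2
  refine mem_cseg (a := l) (by rw [sub_zero]; exact h.b1) ?_ ?_ ?_
  · rw [sub_zero, crR_zero]; linarith
  · rw [crR_zero]; nlinarith
  · nlinarith

/-- the line through `0` -/
theorem HX.reg_n (h : HX u x l q m) {w : V} (hw : w ∈ Seg m x) :
    Reg (AddSubgroup.closure {u, x}) l m w := by
  have b0 : (cr m x : ℝ) = 0 := by exact_mod_cast h.b0
  have b1 : (0 : ℝ) < cr l x := by exact_mod_cast h.b1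
  have b4 : (cr l x : ℝ) < cr u x := by exact_mod_cast h.b4
  have b5 : (0 : ℝ) < cr l m := by exact_mod_cast h.b5
  have b6 : (cr l m : ℝ) < cr l x := by exact_mod_cast h.b6
  obtain ⟨t, t0, t1, ht⟩ := seg_pt hw
  have p1 := ht l
  have p2 := ht x
  rw [crR_self, crR_swap m x, b0] at p2
  have p3 : (cr l m : ℝ) < crx l w := by nlinarith
  have p4 : crx l w < cr l x := by nlinarith
  have p5 : crx x w = 0 := by linarith
  intro c hc
  obtain ⟨i, j, rfl⟩ := AddSubgroup.mem_closure_pair.1 hc
  constructor
  · intro hw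
    obtain ⟨t, t0, t1, ht⟩ := cseg_pt hw
    have e1 := ht x
    have e2 := ht l
    rw [crx_sub, crx_em, cr_comb, crR_neg, crR_zero, crR_swap u x, crR_swap l x, crR_self] at e1
    rw [crx_sub, crx_em, cr_comb, crR_neg, crR_zero, crR_self] at e2
    have hi : i = 0 := int_zero (B := (cr u x : ℝ)) (by linarith) (by nlinarith) (by nlinarith)
    subst hi
    simp only [Int.cast_zero, zero_mul, zero_add] at e2
    have hj : j = 0 := int_zero b1 (by nlinarith) (by nlinarith)
    subst hj
    simp only [Int.cast_zero, zero_mul] at e2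
    linarith
  · intro hw
    obtain ⟨t, t0, t1, ht⟩ := cseg_pt hw
    have e1 := ht x
    have e2 := ht l
    rw [crx_sub, crx_em, cr_comb, crR_zero, crR_swap u x, crR_swap m x, crR_self, b0] at e1
    rw [crx_sub, crx_em, cr_comb, crR_zero] at e2
    have hi : i = 0 := int_zero (B := (cr u x : ℝ)) (by linarith) (by nlinarith) (by nlinarith)
    subst hi
    simp only [Int.cast_zero, zero_mul, zero_add] at e2
    have hj : j = 0 := int_zero b1 (by nlinarith) (by nlinarith)
    subst hj
    simp only [Int.cast_zero, zero_mul] at e2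
    nlinarith

/-- the line through `-l` -/
theorem HX.reg_l (h : HX u x l q m) {y : V} (hy : y ∈ Seg 0 x) :
    Reg (AddSubgroup.closure {u, x}) l m (y - em l) := by
  have b0 : (cr m x : ℝ) = 0 := by exact_mod_cast h.b0
  have b1 : (0 : ℝ) < cr l x := by exact_mod_cast h.b1
  have b4 : (cr l x : ℝ) < cr u x := by exact_mod_cast h.b4
  obtain ⟨t, t0, t1, ht⟩ := seg_pt hy
  have p1 := ht l
  have p2 := ht x
  rw [crR_zero] at p1 p2
  rw [crR_self] at p2
  intro c hc
  obtain ⟨i, j, rfl⟩ := AddSubgroup.mem_closure_pair.1 hc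
  constructor
  · intro hw
    obtain ⟨t', t0', t1', ht⟩ := cseg_pt hw
    have e1 := ht x
    have e2 := ht l
    rw [crx_sub, crx_em, crx_sub, crx_em, cr_comb, crR_neg, crR_zero, crR_swap u x,
      crR_swap l x, crR_self] at e1
    rw [crx_sub, crx_em, crx_sub, crx_em, cr_comb, crR_neg, crR_zero, crR_self] at e2
    have hi : i = 0 := int_zero (B := (cr u x : ℝ)) (by linarith) (by nlinarith) (by nlinarith)
    subst hi
    simp only [Int.cast_zero, zero_mul, zero_add] at e2
    have hj : j = 0 := int_zero b1 (by nlinarith) (by nlinarith)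
    subst hj
    simp only [Int.cast_zero, zero_mul] at e2
    nlinarith
  · intro hw
    obtain ⟨t', t0', t1', ht⟩ := cseg_pt hw
    have e1 := ht x
    rw [crx_sub, crx_em, crx_sub, crx_em, cr_comb, crR_zero, crR_swap u x, crR_swap m x,
      crR_swap l x, crR_self, b0] at e1
    have hi : i = 0 := int_zero (B := (cr u x : ℝ)) (by linarith) (by nlinarith) (by nlinarith)
    subst hi
    simp only [Int.cast_zero, zero_mul, zero_add] at e1
    nlinarith

/-- near a point of the slit `x` there are only points of this slit -/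
theorem HX.loc (h : HX u x l q m) {p : V} (hp : p ∈ Seg 0 x) {c : Z2}
    (hc : c ∈ AddSubgroup.closure {l, x - q}) (h1 : p - em c ∈ CSeg 0 x) : c = 0 := by
  have hD := h.hq.D
  obtain ⟨b1, b7⟩ := id h.hq
  obtain ⟨t, t0, t1, ht⟩ := seg_pt hp
  have p1 := ht l
  have p2 := ht x
  rw [crR_zero] at p1 p2
  rw [crR_self] at p2
  obtain ⟨t', t0', t1', ht'⟩ := cseg_pt h1
  have e1 := ht' l
  have e2 := ht' x
  rw [crx_sub, crx_em, p1, crR_zero] at e1
  rw [crx_sub, crx_em, p2, crR_zero, crR_self] at e2
  obtain ⟨k, hk⟩ := lat_small hc (by linarith) (by nlinarith) (by nlinarith)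
  rw [hk, crR_zsmul, crR_swap l x] at e2
  have hk0 : k = 0 := int_zero b1 (by nlinarith) (by nlinarith)
  rw [hk, hk0, zero_smul]

theorem exists_psi {O : PO X} {L0 L1 M0 M1 Q : Z2 → X} {φ : V → Z2 → X}
    (h : SPD O (AddSubgroup.closure {u, x}) l m L0 L1 M0 M1 φ) (hb : HX u x l q m)
    (hq : Par O q l Q L0 Q L1) :
    ∃ ψ : V → Z2 → X, SP1 O (AddSubgroup.closure {l, x - q}) l m x M1 φ ψ := by
  have hR := hb.hq
  have b5 : (0 : ℝ) < cr l m := by exact_mod_cast hb.b5
  have b6 : (cr l m : ℝ) < cr l x := by exact_mod_cast hb.b6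
  obtain ⟨b1, b7⟩ := id hR
  obtain ⟨fD, hf⟩ := exists_cylF hq
  have hxne : x ≠ 0 := by
    rintro rfl
    have := hb.b1
    simp [cr] at this
  have hmne : -m ≠ 0 := by
    intro h0
    rw [neg_eq_zero] at h0
    subst h0
    have := hb.b5
    simp [cr] at this
  have cov : ∀ y, ∃ F, GB l x q L0 L1 fD φ y F := by
    intro y
    obtain ⟨c, hc, hin | hin⟩ := HQ.cover hR y
    · exact ⟨_, GB.cell c hc hin⟩
    · exact ⟨_, GB.cyl c hc hin.1⟩
  choose ψ hψ using cov
  have hl : l ∈ AddSubgroup.closure {l, x - q} := AddSubgroup.subset_closure (by simp)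
  have hcell : ∀ y' : V, ∀ c ∈ AddSubgroup.closure {l, x - q}, 0 < crx l (y' - em c) →
      crx l (y' - em c) < cr l x → 0 ≤ crx x (y' - em c) → crx x (y' - em c) ≤ cr l x →
      Reg (AddSubgroup.closure {l, x - q}) (-m) x y' → ∀ z, Nr y' z →
      ψ y' z = φ (y' - em c) (z - c) := by
    intro y' c hc g1 g2 g3 g4 hr z hz
    have g := GB.cell (L0 := L0) (L1 := L1) (fD := fD) (φ := φ) c hc
      (⟨g1.le, g2.le, g3, g4⟩ : InCell l x (y' - em c))
    simp only [cellF, g1.ne', g2.ne, if_false] at g
    exact GB.uniqD hR hf hr (hψ y') g hz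
  have hsx : ∀ p ∈ Seg 0 x, ∀ᶠ p' in 𝓝 p, crx x p' ≠ 0 →
      Reg (AddSubgroup.closure {l, x - q}) (-m) x p' := by
    intro p hp
    filter_upwards [ev_slit hmne hxne p] with p' e5 hne c hc
    constructor
    · intro h1
      have h2 := (e5 c).1 h1
      rw [neg_neg, cseg_comm] at h1 h2
      have hc0 := hb.loc hp hc (hb.cseg h2)
      rw [hc0, em_zero, sub_zero] at h1
      obtain ⟨t', t0', t1', ht'⟩ := cseg_pt (hb.cseg h1)
      apply hne
      rw [ht', crR_self, crR_zero]
      ring
    · intro h1
      have hc0 := hb.loc hp hc ((e5 c).2 h1)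
      rw [hc0, em_zero, sub_zero] at h1
      obtain ⟨t', t0', t1', ht'⟩ := cseg_pt h1
      apply hne
      rw [ht', crR_self, crR_zero]
      ring
  have hmx : Seg 0 m ⊆ Seg 0 x := by
    intro y hy
    obtain ⟨t, t0, t1, ht⟩ := seg_pt hy
    have b0 : (cr m x : ℝ) = 0 := by exact_mod_cast hb.b0
    refine mem_seg (a := l) (by rw [sub_zero]; exact hb.b1) ?_ ?_ ?_
    · rw [sub_zero, crR_zero, ht, crR_zero, crR_swap m x, b0]; ring
    · rw [crR_zero, ht, crR_zero]; nlinarith
    · rw [ht, crR_zero]; nlinarith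
  have hnx : Seg m x ⊆ Seg 0 x := by
    intro y hy
    obtain ⟨t, t0, t1, ht⟩ := seg_pt hy
    have b0 : (cr m x : ℝ) = 0 := by exact_mod_cast hb.b0
    refine mem_seg (a := l) (by rw [sub_zero]; exact hb.b1) ?_ ?_ ?_
    · rw [sub_zero, crR_zero, ht, crR_self, crR_swap m x, b0]; ring
    · rw [crR_zero, ht]; nlinarith
    · rw [ht]; nlinarith
  have hy0 : ∀ w : V, w - em 0 = w := by intro w; simp [em_zero]
  -- the left side of the slit `x`
  have hleft : ∀ y ∈ Seg 0 x, ∀ᶠ y' in 𝓝 y, 0 < crx x y' → ∀ z, Nr y' z →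
      ψ y' z = φ y' z := by
    intro y hy
    obtain ⟨t, t0, t1, ht⟩ := seg_pt hy
    have p1 := ht l
    have p2 := ht x
    rw [crR_zero] at p1 p2
    rw [crR_self] at p2
    have f1 : 0 < crx l (y - em 0) := by rw [hy0, p1]; nlinarith
    have f2 : crx l (y - em 0) < cr l x := by rw [hy0, p1]; nlinarith
    have f4 : crx x (y - em 0) < cr l x := by rw [hy0, p2]; linarith
    filter_upwards [hsx y hy, ev_gt f1, ev_lt f2, ev_lt f4] with y' e1 e2 e3 e4 hlt z hz
    have := hcell y' 0 (AddSubgroup.zero_mem _) e2 e3 (by rw [hy0]; exact hlt.le) e4.le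
      (e1 hlt.ne') z hz
    rwa [hy0, sub_zero] at this
  refine ⟨ψ, ⟨?_, ?_, ?_, ?_, ?_, ?_⟩⟩
  · exact fun y hy => (hψ y).devD hb h hf hy
  · intro y hy
    obtain ⟨F0, g0, ev⟩ := GB.nearD hb h hf hy
    filter_upwards [ev, ev_reg hmne hxne hy, ev_nr y] with y' ⟨F', g', h'⟩ hr hn z hz
    rw [GB.uniqD hR hf hr (hψ y') g' hz, h' z hz, GB.uniqD hR hf hy (hψ y) g0 (hn z hz)]
  · intro y hy c hc z hz
    have g1 := (hψ y).shift hc
    have hz2 : Nr (y + em c) (z + c) := by
      have := (nr_sub (y + em c) (z + c) c).1 (by simpa using hz)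
      exact this
    have := GB.uniqD hR hf (reg_add hy hc) (hψ (y + em c)) g1 hz2
    rw [this]
    show ψ y (z + c - c) = ψ y z
    rw [add_sub_cancel_right]
  · intro y hy
    filter_upwards [hleft y (hmx hy), h.sM1 y hy] with y' e1 e2 hlt z hz
    rw [e1 hlt z hz]
    refine e2 ?_ z hz
    have := hb.mul y'
    have h3 : 0 < (cr l m : ℝ) * crx x y' := mul_pos b5 hlt
    rw [← this] at h3
    exact (pos_iff_pos_of_mul_pos h3).1 b1
  · intro y hy
    filter_upwards [hleft y (hnx hy), h.lc y (hb.reg_n hy)] with y' e1 e2 hlt z hz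
    rw [e1 hlt z hz, e2 z hz]
  · intro y hy
    obtain ⟨t, t0, t1, ht⟩ := seg_pt hy
    have p1 := ht l
    have p2 := ht x
    rw [crR_zero] at p1 p2
    rw [crR_self] at p2
    have f1 : 0 < crx l (y - em l) := by rw [crx_sub, crx_em, p1, crR_self]; nlinarith
    have f2 : crx l (y - em l) < cr l x := by rw [crx_sub, crx_em, p1, crR_self]; nlinarith
    have f3 : 0 < crx x (y - em l) := by rw [crx_sub, crx_em, p2, crR_swap l x]; linarith
    filter_upwards [hsx y hy, ev_gt f1, ev_lt f2, ev_gt f3, ev_sub (h.lc _ (hb.reg_l hy))]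
      with y' e1 e2 e3 e4 e5 hlt z hz
    have := hcell y' l hl e2 e3 e4.le (by
      rw [crx_sub, crx_em, crR_swap l x]; linarith) (e1 hlt.ne) z hz
    rw [this, e5 _ ((nr_sub y' z _).2 hz)]

end

end Pool.Agent.H4G.Six
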