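import Pool.Agent.H4G.Six.SlitD

/-!
# The degenerate centre, second step (helper96)

In the configuration `(⟨U, x⟩; l, q; m, s)` with `x` a multiple of `m`, the vectors `l, q` are
replaced by `l', q'` with `⟨l', x - q'⟩ = ⟨l, x - q⟩`.
-/

set_option autoImplicit false

namespace Pool.Agent.H4G.Six

open Pool.Agent.H4G Filter Topology

variable {X : Type}

/-- convex development, general form -/
theorem convex_of {φ : V → Z2 → X} {R : V → Prop}
    (hlc : ∀ y, R y → ∀ᶠ y' in 𝓝 y, ∀ z, Nr y' z → φ y' z = φ y z) {K : Set V} (hK : Cvx K)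
    (hR : ∀ y ∈ K, R y) : ∃ g : Z2 → X, ∀ y ∈ K, ∀ z, Nr y z → g z = φ y z := by
  classical
  refine ⟨fun z => if hz : ∃ y ∈ K, Nr y z then φ hz.choose z else φ 0 z, ?_⟩
  intro y hy z hz
  have hz' : ∃ y ∈ K, Nr y z := ⟨y, hy, hz⟩
  simp only [hz', dif_pos]
  obtain ⟨h1, h2⟩ := hz'.choose_spec
  have := seg_const (c := fun t => φ (lin hz'.choose y t) z) (by
    intro t h0 h1'
    have e1 := (lin_cont hz'.choose y).continuousAt.eventually
      (hlc (lin hz'.choose y t) (hR _ (hK _ h1 _ hy t h0 h1')))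
    filter_upwards [e1] with t' e1 h0' h1'
    exact e1 z (nr_comb h2 hz h0' h1'))
  simp only [lin_zero, lin_one] at this
  exact this

section

variable {U x l q m l' q' : Z2}

/-- the geometric hypotheses -/
structure HY (U x l q m l' q' : Z2) : Prop where
  hb : HX U x l q m
  c1 : 0 < cr l' x
  c7 : 0 < cr q' l'
  cL : AddSubgroup.closure ({l', x - q'} : Set Z2) = AddSubgroup.closure {l, x - q}

/-- the same in the reals -/
structure HYR (U x l q m l' q' : Z2) : Prop where
  b0 : (cr m x : ℝ) = 0
  b1 : (0 : ℝ) < cr l x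
  b4 : (cr l x : ℝ) < cr U x
  b5 : (0 : ℝ) < cr l m
  b6 : (cr l m : ℝ) < cr l x
  b7 : (0 : ℝ) < cr q l
  c1 : (0 : ℝ) < cr l' x
  c7 : (0 : ℝ) < cr q' l'
  cD : (cr l' (x - q') : ℝ) = cr l' x + cr q' l'
  cW : (cr (U - l + l') x : ℝ) = cr U x - cr l x + cr l' x
  cm : (cr l x : ℝ) * cr l' m = cr l m * cr l' x

theorem HY.real (h : HY U x l q m l' q') : HYR U x l q m l' q' := by
  have b0 : (cr m x : ℝ) = 0 := by exact_mod_cast h.hb.b0
  refine ⟨b0, by exact_mod_cast h.hb.b1, by exact_mod_cast h.hb.b4, by exact_mod_cast h.hb.b5,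
    by exact_mod_cast h.hb.b6, by exact_mod_cast h.hb.b7, by exact_mod_cast h.c1,
    by exact_mod_cast h.c7, ?_, ?_, ?_⟩
  · rw [crR_sub, crR_swap q' l']; ring
  · simp only [cr, Prod.fst_sub, Prod.snd_sub, Prod.fst_add, Prod.snd_add]; push_cast; ring
  · have e : (cr l x : ℝ) * cr l' m - cr l m * cr l' x = cr l' l * cr m x := by
      simp only [cr_cast]; ring
    rw [b0, mul_zero] at e
    linarith

theorem HYR.hq (h : HYR U x l q m l' q') : HQ l' x q' := ⟨h.c1, h.c7⟩

/-- elements of the new lattice with a small product -/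
theorem lat_small' {U' x c : Z2} (hc : c ∈ AddSubgroup.closure {U', x})
    (h0 : (0 : ℝ) < cr U' x) (h1 : (cr x c : ℝ) < cr U' x) (h2 : -(cr U' x : ℝ) < cr x c) :
    ∃ k : ℤ, c = k • x := by
  obtain ⟨i, j, rfl⟩ := AddSubgroup.mem_closure_pair.1 hc
  rw [cr_comb, crR_self, crR_swap U' x] at h1 h2
  have hi : i = 0 := int_zero h0 (by linarith) (by linarith)
  subst hi
  exact ⟨j, by simp⟩

/-- the germs of the new plane -/
inductive GC (U x l l' : Z2) (φ ψ : V → Z2 → X) (y : V) : (Z2 → X) → Prop
  | vv (c : Z2) : c ∈ AddSubgroup.closure {U - l + l', x} →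
      (cr l x - cr U x : ℝ) ≤ crx x (y - em c) → crx x (y - em c) ≤ 0 →
      GC U x l l' φ ψ y (sh c (φ (y - em c)))
  | aa (c : Z2) : c ∈ AddSubgroup.closure {U - l + l', x} → 0 < crx x (y - em c) →
      crx x (y - em c) < cr l' x → 0 ≤ crx l' (y - em c) → crx l' (y - em c) ≤ cr l' x →
      GC U x l l' φ ψ y (sh c (ψ (y - em c)))

theorem mem_x : x ∈ AddSubgroup.closure ({U, x} : Set Z2) := AddSubgroup.subset_closure (by simp)

theorem mem_u : U ∈ AddSubgroup.closure ({U, x} : Set Z2) := AddSubgroup.subset_closure (by simp)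

/-- the strip of the old plane is regular -/
theorem HYR.regV (h : HYR U x l q m l' q') {y : V}
    (hy : Reg (AddSubgroup.closure {U - l + l', x}) l' m y) {c : Z2}
    (hc : c ∈ AddSubgroup.closure {U - l + l', x})
    (h1 : (cr l x - cr U x : ℝ) ≤ crx x (y - em c)) (h2 : crx x (y - em c) ≤ 0) :
    Reg (AddSubgroup.closure {U, x}) l m (y - em c) := by
  obtain ⟨b0, b1, b4, b5, b6, b7, c1, c7, cD, cW, cm⟩ := h
  have hjx : ∀ j : ℤ, j • x ∈ AddSubgroup.closure ({U - l + l', x} : Set Z2) := fun j =>
    AddSubgroup.zsmul_mem _ mem_x j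
  have hpt : ∀ {p : V} {d : Z2} {t : ℝ}, t = 0 ∨ t = 1 → ∀ {A B : Z2}, p - em d ∈ CSeg A B →
      (∀ c : Z2, crx c (p - em d) = (1 - t) * cr c A + t * cr c B) →
      (t = 0 → p = em (d + A)) ∧ (t = 1 → p = em (d + B)) := by
    intro p d t ht A B _ hc
    have key : ∀ w : Z2, (∀ c : Z2, crx c (p - em d) = cr c w) → p = em (d + w) := by
      intro w hw
      have e : p - em d = em w := by
        have h1 := hw (1, 0)
        have h2 := hw (0, 1)
        simp only [crx, cr] at h1 h2
        push_cast at h1 h2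
        ext
        · simp only [em, Prod.fst_sub] at h2 ⊢; linarith
        · simp only [em, Prod.snd_sub] at h1 ⊢; linarith
      rw [em_add, ← e]; abel
    constructor
    · rintro rfl
      exact key A (fun c => by rw [hc]; ring)
    · rintro rfl
      exact key B (fun c => by rw [hc]; ring)
  intro d hd
  obtain ⟨i, j, rfl⟩ := AddSubgroup.mem_closure_pair.1 hd
  constructor
  · intro hw
    obtain ⟨t, t0, t1, ht⟩ := cseg_pt hw
    have e1 := ht x
    rw [crx_sub _ (y - em c), crx_em, cr_comb, crR_neg, crR_zero, crR_swap U x, crR_swap l x,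
      crR_self] at e1
    have i0 : (-1 : ℝ) < i := by
      by_contra hc
      push Not at hc
      nlinarith
    have i1 : (i : ℝ) < 2 := by
      by_contra hc
      push Not at hc
      nlinarith
    have i0' : -1 < i := by exact_mod_cast i0
    have i1' : i < 2 := by exact_mod_cast i1
    interval_cases i
    · have t2 : t = 1 := by
        push_cast at e1
        have : (1 - t) * cr l x ≤ 0 := by nlinarith
        nlinarith
      have := (hpt (Or.inr t2) hw ht).2 t2
      have hcc := (hy (c + j • x) (AddSubgroup.add_mem _ hc (hjx j))).2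
      apply hcc
      have e : y - em (c + j • x) = em 0 := by
        rw [em_add]
        have e2 : y - em c = em ((0 : ℤ) • U + j • x + 0) := this
        rw [zero_smul, zero_add, add_zero] at e2
        rw [← e2]; simp [em_zero]
      rw [e]
      refine ⟨0, le_refl _, zero_le_one, ?_⟩
      ext <;> simp [em]
    · have t2 : t = 0 := by
        push_cast at e1
        have : t * cr l x ≤ 0 := by nlinarith
        nlinarith
      have := (hpt (Or.inl t2) hw ht).1 t2
      have hcc := (hy (c + (U - l + l') + j • x) (AddSubgroup.add_mem _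
        (AddSubgroup.add_mem _ hc mem_u) (hjx j))).1
      apply hcc
      have e : y - em (c + (U - l + l') + j • x) = em (-l') := by
        have e2 : y = em (c + ((1 : ℤ) • U + j • x + -l)) := by
          rw [em_add, ← this]; abel
        have e3 : c + ((1 : ℤ) • U + j • x + -l) = c + (U - l + l') + j • x + -l' := by
          rw [one_smul]; abel
        rw [e2, e3, em_add _ (-l')]; abel
      rw [e]
      refine ⟨0, le_refl _, zero_le_one, ?_⟩
      ext <;> simp [em]
  · intro hw
    obtain ⟨t, t0, t1, ht⟩ := cseg_pt hw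
    have e1 := ht x
    rw [crx_sub _ (y - em c), crx_em, cr_comb, crR_zero, crR_swap U x, crR_swap m x, crR_self,
      b0] at e1
    have hi : i = 0 := int_zero (B := (cr U x : ℝ)) (by linarith) (by nlinarith) (by nlinarith)
    subst hi
    apply (hy (c + j • x) (AddSubgroup.add_mem _ hc (hjx j))).2
    have e : y - em (c + j • x) = y - em c - em ((0 : ℤ) • U + j • x) := by
      rw [zero_smul, zero_add, em_add]; abel
    rw [e]
    exact hw

/-- the interior of the cell of the torus `L` is regular -/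
theorem HY.regA (h : HY U x l q m l' q') {w : V} (h1 : 0 < crx x w) (h2 : crx x w < cr l' x)
    (h3 : 0 ≤ crx l' w) (h4 : crx l' w ≤ cr l' x) :
    Reg (AddSubgroup.closure {l, x - q}) (-m) x w := by
  obtain ⟨b0, b1, b4, b5, b6, b7, c1, c7, cD, cW, cm⟩ := h.real
  have key : ∀ d ∈ AddSubgroup.closure ({l, x - q} : Set Z2), w - em d ∉ CSeg 0 x := by
    intro d hd hw
    rw [← h.cL] at hd
    obtain ⟨t, t0, t1, ht⟩ := cseg_pt hw
    have e1 := ht l'
    have e2 := ht x
    rw [crx_sub, crx_em, crR_zero] at e1 e2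
    rw [crR_self] at e2
    obtain ⟨k, hk⟩ := lat_small hd (by linarith) (by nlinarith) (by nlinarith)
    rw [hk, crR_zsmul, crR_swap l' x] at e2
    have hk0 : k = 0 := int_zero c1 (by nlinarith) (by nlinarith)
    rw [hk0] at e2
    simp only [Int.cast_zero, zero_mul] at e2
    nlinarith
  intro d hd
  refine ⟨fun hw => key d hd ?_, key d hd⟩
  rw [neg_neg, cseg_comm] at hw
  exact h.hb.cseg hw

/-- regular points of the cell are not on its sides `l'` -/
theorem HYR.stA (h : HYR U x l q m l' q') {y : V}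
    (hy : Reg (AddSubgroup.closure {U - l + l', x}) l' m y) {c : Z2}
    (hc : c ∈ AddSubgroup.closure {U - l + l', x})
    (h1 : 0 < crx x (y - em c)) (h2 : crx x (y - em c) < cr l' x)
    (h3 : 0 ≤ crx l' (y - em c)) (h4 : crx l' (y - em c) ≤ cr l' x) :
    0 < crx l' (y - em c) ∧ crx l' (y - em c) < cr l' x := by
  obtain ⟨b0, b1, b4, b5, b6, b7, c1, c7, cD, cW, cm⟩ := h
  have key : ∀ w : V, crx l' w = 0 → 0 < crx x w → crx x w < cr l' x → w ∈ CSeg (-l') 0 := by
    intro w g1 g2 g3
    refine mem_cseg (a := -x) ?_ ?_ ?_ ?_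
    · rw [zero_sub, neg_neg, cr_negl, cr_swap' l' x, neg_neg]; exact_mod_cast c1
    · rw [zero_sub, neg_neg, crR_neg, crR_self, g1, neg_zero]
    · have : (cr (-x) (-l') : ℝ) = -cr l' x := by
        have : cr (-x) (-l') = -cr l' x := by rw [cr_negl, cr_negr, cr_swap' l' x]; ring
        exact_mod_cast this
      rw [this, crx_negl]; linarith
    · rw [crR_zero, crx_negl]; linarith
  constructor
  · rcases h3.lt_or_eq with h5 | h5
    · exact h5
    · exact ((hy c hc).1 (key _ h5.symm h1 h2)).elim
  · rcases h4.lt_or_eq with h5 | h5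
    · exact h5
    · exfalso
      apply (hy (c + x) (AddSubgroup.add_mem _ hc mem_x)).1
      have e : y - em (c + x) = y - em c - em x := by rw [em_add]; abel
      rw [e]
      refine key _ ?_ ?_ ?_
      · rw [crx_sub _ (y - em c), crx_em, h5]; ring
      · rw [crx_sub _ (y - em c), crx_em, crR_self]; linarith
      · rw [crx_sub _ (y - em c), crx_em, crR_self]; linarith

/-- uniqueness of the germs -/
theorem GC.uniq {O : PO X} {L0 L1 M0 M1 : Z2 → X} {φ ψ : V → Z2 → X}
    (h : HYR U x l q m l' q') (hS : SPD O (AddSubgroup.closure {U, x}) l m L0 L1 M0 M1 φ) {y : V}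
    (hy : Reg (AddSubgroup.closure {U - l + l', x}) l' m y) {F F' : Z2 → X}
    (h1 : GC U x l l' φ ψ y F) (h2 : GC U x l l' φ ψ y F') {z : Z2} (hz : Nr y z) :
    F z = F' z := by
  obtain ⟨b0, b1, b4, b5, b6, b7, c1, c7, cD, cW, cm⟩ := id h
  have hcr : ∀ (a : Z2) (w : V) (c : Z2), crx a (w - em c) = crx a w - cr a c := by
    intro a w c
    rw [crx_sub, crx_em]
  have hVA : ∀ c c' : Z2, c ∈ AddSubgroup.closure {U - l + l', x} →
      c' ∈ AddSubgroup.closure {U - l + l', x} → (cr l x - cr U x : ℝ) ≤ crx x (y - em c) →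
      crx x (y - em c) ≤ 0 → 0 < crx x (y - em c') → crx x (y - em c') < cr l' x → False := by
    intro c c' hc hc' g1 g2 g3 g4
    rw [hcr] at g1 g2 g3 g4
    obtain ⟨k, hk⟩ := lat_small' (c := c - c') (AddSubgroup.sub_mem _ hc hc') (by rw [cW]; linarith)
      (by rw [crR_sub x c c', cW]; linarith) (by rw [crR_sub x c c', cW]; linarith)
    have e : (cr x (c - c') : ℝ) = 0 := by rw [hk, crR_zsmul, crR_self, mul_zero]
    rw [crR_sub] at e
    linarith
  cases h1 with
  | vv c hc g1 g2 =>
    cases h2 with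
    | vv c' hc' g1' g2' =>
      have r1 := h.regV hy hc g1 g2
      have r2 := h.regV hy hc' g1' g2'
      rw [hcr] at g1 g2 g1' g2'
      obtain ⟨k, hk⟩ := lat_small' (c := c' - c) (AddSubgroup.sub_mem _ hc' hc)
        (by rw [cW]; linarith) (by rw [crR_sub x c' c, cW]; linarith)
        (by rw [crR_sub x c' c, cW]; linarith)
      have e1 : y - em c' + em (k • x) = y - em c := by
        rw [← hk]
        have : em (c' - c) = em c' - em c := by ext <;> simp [em]
        rw [this]; abel
      have e2 : z - c' + k • x = z - c := by rw [← hk]; abel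
      have := hS.per _ r2 (k • x) (AddSubgroup.zsmul_mem _ mem_x k) (z - c')
        ((nr_sub y z c').2 hz)
      rw [e1, e2] at this
      exact this
    | aa c' hc' g1' g2' g3' g4' => exact (hVA c c' hc hc' g1 g2 g1' g2').elim
  | aa c hc g1 g2 g3 g4 =>
    cases h2 with
    | vv c' hc' g1' g2' => exact (hVA c' c hc' hc g1' g2' g1 g2).elim
    | aa c' hc' g1' g2' g3' g4' =>
      have s1 := h.stA hy hc g1 g2 g3 g4
      have s2 := h.stA hy hc' g1' g2' g3' g4'
      rw [hcr] at s1 s2 g1 g2 g1' g2'
      obtain ⟨k, hk⟩ := lat_small' (c := c - c') (AddSubgroup.sub_mem _ hc hc')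
        (by rw [cW]; linarith) (by rw [crR_sub x c c', cW]; linarith)
        (by rw [crR_sub x c c', cW]; linarith)
      have e : (cr l' (c - c') : ℝ) = k * cr l' x := by
        rw [hk, crR_zsmul]
      rw [crR_sub] at e
      have hk0 : k = 0 := int_zero c1 (by linarith) (by linarith)
      rw [hk0, zero_smul, sub_eq_zero] at hk
      rw [hk]

theorem HYR.cover (h : HYR U x l q m l' q') (y : V) :
    ∃ c ∈ AddSubgroup.closure ({U - l + l', x} : Set Z2),
      ((cr l x - cr U x : ℝ) ≤ crx x (y - em c) ∧ crx x (y - em c) ≤ 0) ∨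
      (0 < crx x (y - em c) ∧ crx x (y - em c) < cr l' x ∧ 0 ≤ crx l' (y - em c) ∧
        crx l' (y - em c) ≤ cr l' x) := by
  obtain ⟨b0, b1, b4, b5, b6, b7, c1, c7, cD, cW, cm⟩ := id h
  have hcr : ∀ (a : Z2) (w : V) (c : Z2), crx a (w - em c) = crx a w - cr a c := by
    intro a w c
    rw [crx_sub, crx_em]
  obtain ⟨i, i1, i2⟩ := exists_fl (B := (cr (U - l + l') x : ℝ)) (by rw [cW]; linarith)
    (crx x y + (cr U x - cr l x))
  rw [cW] at i1 i2
  by_cases hc : crx x y - i * (cr U x - cr l x + cr l' x : ℝ) ≤ 0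
  · refine ⟨(-i) • (U - l + l') + (0 : ℤ) • x, AddSubgroup.mem_closure_pair.2 ⟨-i, 0, rfl⟩,
      Or.inl ⟨?_, ?_⟩⟩ <;> rw [hcr, cr_comb, crR_swap (U - l + l') x, cW] <;> push_cast <;>
      linarith
  · push Not at hc
    obtain ⟨j, j1, j2⟩ := exists_fl (B := (cr l' x : ℝ)) c1 (crx l' y + i * cr l' (U - l + l'))
    refine ⟨(-i) • (U - l + l') + j • x, AddSubgroup.mem_closure_pair.2 ⟨-i, j, rfl⟩,
      Or.inr ⟨?_, ?_, ?_, ?_⟩⟩
    · rw [hcr, cr_comb, crR_swap (U - l + l') x, cW, crR_self]; push_cast; linarith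
    · rw [hcr, cr_comb, crR_swap (U - l + l') x, cW, crR_self]; push_cast; linarith
    · rw [hcr, cr_comb]; push_cast; linarith
    · rw [hcr, cr_comb]; push_cast; linarith

theorem GC.shift {φ ψ : V → Z2 → X} {y : V} {F : Z2 → X}
    (h1 : GC U x l l' φ ψ y F) {c : Z2} (hc : c ∈ AddSubgroup.closure {U - l + l', x}) :
    GC U x l l' φ ψ (y + em c) (sh c F) := by
  have key : ∀ d : Z2, y + em c - em (c + d) = y - em d := by
    intro d
    rw [em_add]; abel
  cases h1 with
  | vv d hd g1 g2 =>
    have := GC.vv (φ := φ) (ψ := ψ) (y := y + em c) (l' := l') (c + d)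
      (AddSubgroup.add_mem _ hc hd) (by rw [key]; exact g1) (by rw [key]; exact g2)
    rw [key, ← sh_sh] at this
    exact this
  | aa d hd g1 g2 g3 g4 =>
    have := GC.aa (φ := φ) (ψ := ψ) (y := y + em c) (l' := l') (c + d)
      (AddSubgroup.add_mem _ hc hd) (by rw [key]; exact g1) (by rw [key]; exact g2)
      (by rw [key]; exact g3) (by rw [key]; exact g4)
    rw [key, ← sh_sh] at this
    exact this

theorem GC.dev {O : PO X} {L0 L1 M0 M1 : Z2 → X} {φ ψ : V → Z2 → X}
    (h : HY U x l q m l' q') (hS : SPD O (AddSubgroup.closure {U, x}) l m L0 L1 M0 M1 φ)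
    (hP : SP1 O (AddSubgroup.closure {l, x - q}) l m x M1 φ ψ) {y : V}
    (hy : Reg (AddSubgroup.closure {U - l + l', x}) l' m y) {F : Z2 → X}
    (h1 : GC U x l l' φ ψ y F) : DevAt O y F := by
  cases h1 with
  | vv c hc g1 g2 => exact DevAt.sh (hS.dev _ (h.real.regV hy hc g1 g2))
  | aa c hc g1 g2 g3 g4 => exact DevAt.sh (hP.dev _ (h.regA g1 g2 g3 g4))

/-- local constancy of the germs -/
theorem GC.near {O : PO X} {L0 L1 M0 M1 : Z2 → X} {φ ψ : V → Z2 → X}
    (h : HY U x l q m l' q') (hS : SPD O (AddSubgroup.closure {U, x}) l m L0 L1 M0 M1 φ)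
    (hP : SP1 O (AddSubgroup.closure {l, x - q}) l m x M1 φ ψ) {y : V}
    (hy : Reg (AddSubgroup.closure {U - l + l', x}) l' m y) :
    ∃ F0, GC U x l l' φ ψ y F0 ∧ ∀ᶠ y' in 𝓝 y, ∃ F', GC U x l l' φ ψ y' F' ∧
      ∀ z, Nr y' z → F' z = F0 z := by
  obtain ⟨b0, b1, b4, b5, b6, b7, c1, c7, cD, cW, cm⟩ := h.real
  have hcr : ∀ (a : Z2) (w : V) (c : Z2), crx a (w - em c) = crx a w - cr a c := by
    intro a w c
    rw [crx_sub, crx_em]
  have hl' : l' ∈ AddSubgroup.closure ({l, x - q} : Set Z2) := by
    rw [← h.cL]; exact AddSubgroup.subset_closure (by simp)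
  have hux : ∀ i : ℤ, U + i • x ∈ AddSubgroup.closure ({U, x} : Set Z2) := fun i =>
    AddSubgroup.add_mem _ mem_u (AddSubgroup.zsmul_mem _ mem_x i)
  have hb1' : 0 < cr l (x - 0) := by rw [sub_zero]; exact h.hb.b1
  obtain ⟨c, hc, ⟨g1, g2⟩ | ⟨g1, g2, g3, g4⟩⟩ := h.real.cover y
  · have hr := h.real.regV hy hc g1 g2
    rcases g2.lt_or_eq with k2 | k2
    · rcases g1.lt_or_eq with k1 | k1
      · refine ⟨_, GC.vv c hc g1 g2, ?_⟩
        filter_upwards [ev_gt k1, ev_lt k2, ev_sub (hS.lc _ hr)] with y' e1 e2 e3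
        exact ⟨_, GC.vv c hc e1.le e2.le, fun z hz => e3 (z - c) ((nr_sub y' z c).2 hz)⟩
      · obtain ⟨i, i1, i2⟩ := exists_fl (B := (cr l x : ℝ)) b1 (crx l (y - em (c + (U - l))))
        have hc2 : c + (U - l + l') + i • x ∈ AddSubgroup.closure ({U - l + l', x} : Set Z2) :=
          AddSubgroup.add_mem _ (AddSubgroup.add_mem _ hc mem_u) (AddSubgroup.zsmul_mem _ mem_x i)
        obtain ⟨c2, ec2⟩ : ∃ c2 : Z2, c2 = c + (U - l) + i • x := ⟨_, rfl⟩
        have ec1 : c + (U - l + l') + i • x = c2 + l' := by rw [ec2]; abel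
        rw [ec1] at hc2
        have p1 : crx l (y - em c2) = crx l (y - em (c + (U - l))) - i * cr l x := by
          rw [ec2, em_add (c + (U - l)) (i • x), hcr l y, ← sub_sub, crx_sub l _ (em (i • x)),
            crx_em, crR_zsmul, crx_sub, crx_em]
        have p2 : crx x (y - em c2) = 0 := by
          rw [hcr] at k1 ⊢
          rw [ec2, crR_add, crR_add, crR_sub, crR_zsmul, crR_self, crR_swap U x, crR_swap l x]
          linarith
        have p0 : 0 < crx l (y - em c2) := by
          rcases i1.lt_or_eq with g | g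
          · rw [p1]; exact g
          · exfalso
            rw [← g] at p1
            have e0 : y - em c2 = em 0 := by
              refine pt_of (a := l) (b := x) h.hb.b1 ?_ ?_
              · rw [crR_zero]; exact p1
              · rw [crR_zero]; exact p2
            apply (hy _ hc2).1
            have e1 : y - em (c2 + l') = em (-l') := by
              have : em (c2 + l') = em c2 - em (-l') := by ext <;> simp [em]
              rw [this, sub_sub_eq_add_sub, add_sub_right_comm, e0, em_zero, zero_add]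
            rw [e1]
            refine ⟨0, le_refl _, zero_le_one, ?_⟩
            ext <;> simp [em]
        have p3 : crx l (y - em c2) < cr l x := by rw [p1]; exact i2
        have hseg : y - em c2 ∈ Seg 0 x := by
          refine mem_seg (a := l) hb1' ?_ ?_ ?_
          · rw [sub_zero, crR_zero, p2]
          · rw [crR_zero]; exact p0
          · exact p3
        have p5 : (cr l x : ℝ) * crx l' (y - em c2) = cr l' x * crx l (y - em c2) := by
          have := pluck l x l' (y - em c2)
          rw [p2, crR_swap l' x] at this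
          linarith
        have q1 : 0 < crx l' (y - em c2) := by
          have : 0 < (cr l x : ℝ) * crx l' (y - em c2) := by rw [p5]; exact mul_pos c1 p0
          exact (pos_iff_pos_of_mul_pos this).1 b1
        have q2 : crx l' (y - em c2) < cr l' x := by
          have : (cr l x : ℝ) * crx l' (y - em c2) < cr l x * cr l' x := by
            rw [p5, mul_comm (cr l x : ℝ)]
            exact mul_lt_mul_of_pos_left p3 c1
          exact lt_of_mul_lt_mul_left this b1.le
        refine ⟨_, GC.vv c hc g1 g2, ?_⟩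
        filter_upwards [ev_lt k2, ev_gt (a := x) (c := c2) (y := y) (r := -(cr l' x : ℝ))
          (by rw [p2]; linarith), ev_gt q1, ev_lt q2, ev_sub (hS.lc _ hr),
          ev_sub (hP.right _ hseg), ev_nr y] with y' e1 e2 e3 e4 e5 e6 e7
        by_cases g : (cr l x - cr U x : ℝ) ≤ crx x (y' - em c)
        · exact ⟨_, GC.vv c hc g e1.le, fun z hz => e5 (z - c) ((nr_sub y' z c).2 hz)⟩
        · push Not at g
          have f0 : crx x (y' - em c2) < 0 := by
            rw [hcr] at g k1 ⊢
            rw [ec2, crR_add, crR_add, crR_sub, crR_zsmul, crR_self, crR_swap U x,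
              crR_swap l x]
            linarith
          have ha : ∀ a : Z2, crx a (y' - em (c2 + l')) = crx a (y' - em c2) - cr a l' := by
            intro a
            rw [hcr, hcr, crR_add]; ring
          have f1 : 0 < crx x (y' - em (c2 + l')) := by rw [ha, crR_swap l' x]; linarith
          have f2 : crx x (y' - em (c2 + l')) < cr l' x := by
            rw [ha, crR_swap l' x]; linarith
          have f3 : 0 ≤ crx l' (y' - em (c2 + l')) := by rw [ha, crR_self]; linarith
          have f4 : crx l' (y' - em (c2 + l')) ≤ cr l' x := by rw [ha, crR_self]; linarith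
          refine ⟨_, GC.aa (c2 + l') hc2 f1 f2 f3 f4, fun z hz => ?_⟩
          have j1 := hP.per _ (h.regA f1 f2 f3 f4) l' hl' (z - (c2 + l'))
            ((nr_sub y' z _).2 hz)
          have j2 : y' - em (c2 + l') + em l' = y' - em c2 := by rw [em_add]; abel
          have j3 : z - (c2 + l') + l' = z - c2 := by abel
          rw [j2, j3] at j1
          have j4 := e6 f0 _ ((nr_sub y' z c2).2 hz)
          have j5 := hS.per _ (reg_sub hr (hux i)) _ (hux i) (z - c2 - l) (by
            have : y - em c - em (U + i • x) = y - em (c2 + l) := by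
              rw [show c2 + l = c + (U + i • x) by rw [ec2]; abel, em_add c (U + i • x)]
              abel
            rw [this, show z - c2 - l = z - (c2 + l) by abel]
            exact (nr_sub y z _).2 (e7 z hz))
          have j6 : y - em c - em (U + i • x) = y - em c2 - em l := by
            have : em c2 = em c + em (U + i • x) - em l := by
              rw [← em_add, show c + (U + i • x) = c2 + l by rw [ec2]; abel, em_add]; abel
            rw [this]; abel
          rw [sub_add_cancel, j6, show z - c2 - l + (U + i • x) = z - c by rw [ec2]; abel] at j5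
          show ψ (y' - em (c2 + l')) (z - (c2 + l')) = φ (y - em c) (z - c)
          rw [← j1, j4, ← j5]
    · obtain ⟨i, i1, i2⟩ := exists_fl (B := (cr l x : ℝ)) b1 (crx l (y - em c))
      have hc1 : c + i • x ∈ AddSubgroup.closure ({U - l + l', x} : Set Z2) :=
        AddSubgroup.add_mem _ hc (AddSubgroup.zsmul_mem _ mem_x i)
      obtain ⟨c3, ec3⟩ : ∃ c3 : Z2, c3 = c + i • x := ⟨_, rfl⟩
      rw [← ec3] at hc1
      have p1 : crx l (y - em c3) = crx l (y - em c) - i * cr l x := by
        rw [hcr, hcr, ec3, crR_add, crR_zsmul]; ring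
      have p2 : crx x (y - em c3) = 0 := by
        rw [hcr] at k2 ⊢
        rw [ec3, crR_add, crR_zsmul, crR_self]
        linarith
      rw [← p1] at i1 i2
      have pm : crx m (y - em c3) = 0 := by
        have := h.hb.mul (y - em c3)
        rw [p2, mul_zero] at this
        exact (mul_eq_zero.1 this).resolve_left b1.ne'
      have p3 : (cr l m : ℝ) < crx l (y - em c3) := by
        by_contra hcon
        push Not at hcon
        apply (hy c3 hc1).2
        refine mem_cseg (a := l) (by rw [sub_zero]; exact h.hb.b5) ?_ ?_ hcon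
        · rw [sub_zero, crR_zero, pm]
        · rw [crR_zero]; exact i1
      have hseg : y - em c3 ∈ Seg m x := by
        refine mem_seg (a := l) ?_ ?_ p3 i2
        · have := h.hb.b6
          have e : cr l (x - m) = cr l x - cr l m := by
            simp only [cr, Prod.fst_sub, Prod.snd_sub]; ring
          rw [e]; omega
        · have e1 : crx (x - m) (y - em c3) = crx x (y - em c3) - crx m (y - em c3) := by
            simp only [crx, Prod.fst_sub, Prod.snd_sub]; push_cast; ring
          rw [e1, p2, pm, crR_subl, crR_self, crR_swap m x, b0]; ring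
      have hr3 : Reg (AddSubgroup.closure {U, x}) l m (y - em c3) := h.hb.reg_n hseg
      have p5 : (cr l x : ℝ) * crx l' (y - em c3) = cr l' x * crx l (y - em c3) := by
        have := pluck l x l' (y - em c3)
        rw [p2, crR_swap l' x] at this
        linarith
      have p0 : 0 < crx l (y - em c3) := by linarith
      have q1 : 0 < crx l' (y - em c3) := by
        have : 0 < (cr l x : ℝ) * crx l' (y - em c3) := by rw [p5]; exact mul_pos c1 p0
        exact (pos_iff_pos_of_mul_pos this).1 b1
      have q2 : crx l' (y - em c3) < cr l' x := by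
        have : (cr l x : ℝ) * crx l' (y - em c3) < cr l x * cr l' x := by
          rw [p5, mul_comm (cr l x : ℝ)]
          exact mul_lt_mul_of_pos_left i2 c1
        exact lt_of_mul_lt_mul_left this b1.le
      refine ⟨_, GC.vv c3 hc1 (by rw [p2]; linarith) (by rw [p2]), ?_⟩
      filter_upwards [ev_gt (a := x) (c := c3) (y := y) (r := (cr l x - cr U x : ℝ))
        (by rw [p2]; linarith), ev_lt (a := x) (c := c3) (y := y) (r := (cr l' x : ℝ))
        (by rw [p2]; linarith), ev_gt q1, ev_lt q2, ev_sub (hS.lc _ hr3),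
        ev_sub (hP.left_n _ hseg)] with y' e1 e2 e3 e4 e5 e6
      by_cases g : crx x (y' - em c3) ≤ 0
      · exact ⟨_, GC.vv c3 hc1 e1.le g, fun z hz => e5 _ ((nr_sub y' z c3).2 hz)⟩
      · push Not at g
        exact ⟨_, GC.aa c3 hc1 g e2 e3.le e4.le, fun z hz => e6 g _ ((nr_sub y' z c3).2 hz)⟩
  · obtain ⟨s3, s4⟩ := h.real.stA hy hc g1 g2 g3 g4
    have hr := h.regA g1 g2 g3 g4
    refine ⟨_, GC.aa c hc g1 g2 g3 g4, ?_⟩
    filter_upwards [ev_gt g1, ev_lt g2, ev_gt s3, ev_lt s4, ev_sub (hP.lc _ hr)]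
      with y' e1 e2 e3 e4 e5
    exact ⟨_, GC.aa c hc e1 e2 e3.le e4.le, fun z hz => e5 (z - c) ((nr_sub y' z c).2 hz)⟩

/-! ## The new handle -/

/-- the handle `(q', l')` in the plane of the torus `L` -/
theorem HY.regC (h : HY U x l q m l' q') {w : V} (hw : w ∈ PgmAt (x - l') l' (-q')) :
    Reg (AddSubgroup.closure {l, x - q}) (-m) x w := by
  obtain ⟨b0, b1, b4, b5, b6, b7, c1, c7, cD, cW, cm⟩ := h.real
  obtain ⟨h1, h2, h3, h4, v0, v1, v2, v3⟩ := hw
  have e0 : (cr l' (-q') : ℝ) = cr q' l' := by rw [crR_neg, crR_swap q' l']; ring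
  have hp : 0 < cr l' (-q') := by exact_mod_cast (by rw [e0]; exact c7 : (0 : ℝ) < cr l' (-q'))
  rw [e0] at h2 h4
  have key : ∀ d ∈ AddSubgroup.closure ({l, x - q} : Set Z2), w - em d ∉ CSeg 0 x := by
    intro d hd hw
    rw [← h.cL] at hd
    obtain ⟨j, i, rfl⟩ := AddSubgroup.mem_closure_pair.1 hd
    obtain ⟨t, t0, t1, ht⟩ := cseg_pt hw
    have e1 := ht l'
    have e2 := ht (-q')
    rw [crx_sub, crx_em, cr_comb, crR_zero, crR_self] at e1
    rw [crx_sub, crx_em, cr_comb, crR_zero] at e2
    rw [crx_sub, crx_em, crR_sub l' x l', crR_self] at h1 h2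
    rw [crx_sub, crx_em] at h3 h4
    -- the products with `-q'`
    have a1 : (cr (-q') l' : ℝ) = -cr q' l' := by exact_mod_cast cr_negl q' l'
    have a2 : (cr (-q') (x - l') : ℝ) = cr (-q') x + cr q' l' := by rw [crR_sub, a1]; ring
    have a3 : (cr (-q') (x - q') : ℝ) = cr (-q') x := by
      rw [crR_sub]
      have : (cr (-q') q' : ℝ) = 0 := by
        have : cr (-q') q' = 0 := by rw [cr_negl, cr_self']; rfl
        exact_mod_cast this
      rw [this]; ring
    rw [a1, a3] at e2
    rw [a2] at h3 h4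
    have i0 : (-1 : ℝ) < i := by
      by_contra hc
      push Not at hc
      nlinarith
    have i1 : (i : ℝ) < 2 := by
      by_contra hc
      push Not at hc
      nlinarith
    have i0' : -1 < i := by exact_mod_cast i0
    have i1' : i < 2 := by exact_mod_cast i1
    have hj : ∀ k : ℤ, -((k : ℝ) * cr q' l') ≤ 0 → -(cr q' l' : ℝ) ≤ -((k : ℝ) * cr q' l') →
        k = 0 ∨ k = 1 := by
      intro k g1 g2
      have k0 : (-1 : ℝ) < k := by
        by_contra hc
        push Not at hc
        nlinarith
      have k1 : (k : ℝ) < 2 := by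
        by_contra hc
        push Not at hc
        nlinarith
      have k0' : -1 < k := by exact_mod_cast k0
      have k1' : k < 2 := by exact_mod_cast k1
      omega
    interval_cases i
    · simp only [Int.cast_zero, zero_mul, add_zero] at e1 e2
      have t2 : t = 1 := by nlinarith
      rw [t2] at e1 e2
      rcases hj (j + 1) (by push_cast; linarith) (by push_cast; linarith) with hk | hk
      · apply v0
        refine pt_of hp ?_ ?_
        · rw [crx_sub, crx_em, crR_sub l' x l', crR_self, crR_zero]; linarith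
        · rw [crx_sub, crx_em, a2, crR_zero]
          have : (j : ℝ) = -1 := by
            have : j = -1 := by omega
            rw [this]; norm_num
          rw [this] at e2
          linarith
      · apply v1
        refine pt_of hp ?_ ?_
        · rw [crx_sub, crx_em, crR_sub l' x l', crR_self]; linarith
        · rw [crx_sub, crx_em, a2, a1]
          have : (j : ℝ) = 0 := by
            have : j = 0 := by omega
            rw [this]; norm_num
          rw [this] at e2
          linarith
    · simp only [Int.cast_one, one_mul] at e1 e2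
      have t2 : t = 0 := by nlinarith
      rw [t2] at e1 e2
      have a4 : (cr (-q') (-q') : ℝ) = 0 := crR_self _
      rcases hj (j + 1) (by push_cast; linarith) (by push_cast; linarith) with hk | hk
      · apply v2
        refine pt_of hp ?_ ?_
        · rw [crx_sub, crx_em, crR_sub l' x l', crR_self, e0]; linarith
        · rw [crx_sub, crx_em, a2, a4]
          have : (j : ℝ) = -1 := by
            have : j = -1 := by omega
            rw [this]; norm_num
          rw [this] at e2
          linarith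
      · apply v3
        refine pt_of hp ?_ ?_
        · rw [crx_sub, crx_em, crR_sub l' x l', crR_self, crR_add, crR_self, e0]; linarith
        · rw [crx_sub, crx_em, a2, crR_add, a4, a1]
          have : (j : ℝ) = 0 := by
            have : j = 0 := by omega
            rw [this]; norm_num
          rw [this] at e2
          linarith
  intro d hd
  refine ⟨fun hw => key d hd ?_, key d hd⟩
  rw [neg_neg, cseg_comm] at hw
  exact h.hb.cseg hw

/-- near a point of the slit `l'` -/
theorem HYR.locL (h : HYR U x l q m l' q') {y : V} (hy : y ∈ Seg 0 l') {c : Z2}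
    (hc : c ∈ AddSubgroup.closure {U - l + l', x}) :
    (y - em l' - em c ∈ CSeg (-l') 0 → c = 0) ∧ y - em l' - em c ∉ CSeg 0 m := by
  obtain ⟨b0, b1, b4, b5, b6, b7, c1, c7, cD, cW, cm⟩ := h
  obtain ⟨t, t0, t1, ht⟩ := seg_pt hy
  have p1 := ht l'
  have p2 := ht x
  rw [crR_zero, crR_self] at p1
  rw [crR_zero, crR_swap l' x] at p2
  obtain ⟨i, j, rfl⟩ := AddSubgroup.mem_closure_pair.1 hc
  constructor
  · intro hw
    obtain ⟨t', t0', t1', ht'⟩ := cseg_pt hw
    have e1 := ht' x
    have e2 := ht' l'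
    rw [crx_sub, crx_em, crx_sub, crx_em, cr_comb, crR_neg, crR_zero, crR_self,
      crR_swap (U - l + l') x, crR_swap l' x, cW] at e1
    rw [crx_sub, crx_em, crx_sub, crx_em, cr_comb, crR_neg, crR_zero, crR_self] at e2
    have hi : i = 0 := int_zero (B := (cr U x - cr l x + cr l' x : ℝ)) (by linarith)
      (by nlinarith) (by nlinarith)
    subst hi
    simp only [Int.cast_zero, zero_mul, zero_add] at e2
    have hj : j = 0 := int_zero c1 (by nlinarith) (by nlinarith)
    subst hj
    simp
  · intro hw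
    obtain ⟨t', t0', t1', ht'⟩ := cseg_pt hw
    have e1 := ht' x
    rw [crx_sub, crx_em, crx_sub, crx_em, cr_comb, crR_zero, crR_self,
      crR_swap (U - l + l') x, crR_swap l' x, crR_swap m x, b0, cW] at e1
    have hi : i = 0 := int_zero (B := (cr U x - cr l x + cr l' x : ℝ)) (by linarith)
      (by nlinarith) (by nlinarith)
    subst hi
    simp only [Int.cast_zero, zero_mul, zero_add] at e1
    nlinarith

/-- near a point of the slit `m` -/
theorem HYR.locM (h : HYR U x l q m l' q') {y : V} (hy : y ∈ Seg 0 m) {c : Z2}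
    (hc : c ∈ AddSubgroup.closure {U - l + l', x}) :
    y - em c ∉ CSeg (-l') 0 ∧ (y - em c ∈ CSeg 0 m → c = 0) := by
  obtain ⟨b0, b1, b4, b5, b6, b7, c1, c7, cD, cW, cm⟩ := h
  obtain ⟨t, t0, t1, ht⟩ := seg_pt hy
  have p1 := ht l'
  have p2 := ht x
  rw [crR_zero] at p1
  rw [crR_zero, crR_swap m x, b0] at p2
  have m1 : (0 : ℝ) < cr l' m := by
    have : 0 < (cr l x : ℝ) * cr l' m := by rw [cm]; exact mul_pos b5 c1
    exact (pos_iff_pos_of_mul_pos this).1 b1
  have m2 : (cr l' m : ℝ) < cr l' x := by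
    have : (cr l x : ℝ) * cr l' m < cr l x * cr l' x := by
      rw [cm]; exact mul_lt_mul_of_pos_right b6 c1
    exact lt_of_mul_lt_mul_left this b1.le
  obtain ⟨i, j, rfl⟩ := AddSubgroup.mem_closure_pair.1 hc
  constructor
  · intro hw
    obtain ⟨t', t0', t1', ht'⟩ := cseg_pt hw
    have e1 := ht' x
    have e2 := ht' l'
    rw [crx_sub, crx_em, cr_comb, crR_neg, crR_zero, crR_self,
      crR_swap (U - l + l') x, crR_swap l' x, cW] at e1
    rw [crx_sub, crx_em, cr_comb, crR_neg, crR_zero, crR_self] at e2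
    have hi : i = 0 := int_zero (B := (cr U x - cr l x + cr l' x : ℝ)) (by linarith)
      (by nlinarith) (by nlinarith)
    subst hi
    simp only [Int.cast_zero, zero_mul, zero_add] at e2
    have hj : j = 0 := int_zero c1 (by nlinarith) (by nlinarith)
    subst hj
    simp only [Int.cast_zero, zero_mul] at e2
    nlinarith
  · intro hw
    obtain ⟨t', t0', t1', ht'⟩ := cseg_pt hw
    have e1 := ht' x
    have e2 := ht' l'
    rw [crx_sub, crx_em, cr_comb, crR_zero, crR_self, crR_swap (U - l + l') x,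
      crR_swap m x, b0, cW] at e1
    rw [crx_sub, crx_em, cr_comb, crR_zero] at e2
    have hi : i = 0 := int_zero (B := (cr U x - cr l x + cr l' x : ℝ)) (by linarith)
      (by nlinarith) (by nlinarith)
    subst hi
    simp only [Int.cast_zero, zero_mul, zero_add] at e2
    have hj : j = 0 := int_zero c1 (by nlinarith) (by nlinarith)
    subst hj
    simp

/-- THE DEGENERATE CENTRE, slit planes -/
theorem SPD.deg {O : PO X} {L0 L1 M0 M1 Q : Z2 → X} {φ : V → Z2 → X}
    (hS : SPD O (AddSubgroup.closure {U, x}) l m L0 L1 M0 M1 φ)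
    (h : HY U x l q m l' q') (hq : Par O q l Q L0 Q L1) :
    ∃ (L0' L1' Q' : Z2 → X) (φ' : V → Z2 → X), Par O q' l' Q' L0' Q' L1' ∧
      SPD O (AddSubgroup.closure {U - l + l', x}) l' m L0' L1' M0 M1 φ' := by
  obtain ⟨ψ, hP⟩ := exists_psi hS h.hb hq
  have hR := h.real
  obtain ⟨b0, b1, b4, b5, b6, b7, c1, c7, cD, cW, cm⟩ := id hR
  have hl' : l' ∈ AddSubgroup.closure ({l, x - q} : Set Z2) := by
    rw [← h.cL]; exact AddSubgroup.subset_closure (by simp)
  have ht' : x - q' ∈ AddSubgroup.closure ({l, x - q} : Set Z2) := by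
    rw [← h.cL]; exact AddSubgroup.subset_closure (by simp)
  have hlne : l' ≠ 0 := by
    rintro rfl
    have := h.c1
    simp [cr] at this
  have hmne : m ≠ 0 := by
    rintro rfl
    have := h.hb.b5
    simp [cr] at this
  have e0 : cr l' (-q') = cr q' l' := by rw [cr_negr, cr_swap' q' l']; ring
  have hp : 0 < cr l' (-q') := by rw [e0]; exact h.c7
  obtain ⟨g2, hg⟩ := convex_of (R := Reg (AddSubgroup.closure {l, x - q}) (-m) x) hP.lc
    (cvx_pgmAt (x - l') hp) (fun y hy => h.regC hy)
  obtain ⟨f, hf⟩ : ∃ f : Z2 → X, f = fun z => g2 (z + (x - l')) := ⟨_, rfl⟩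
  -- points of the parallelogram
  have hK : ∀ y : V, y ∈ Pgm l' (-q') → y + em (x - l') ∈ PgmAt (x - l') l' (-q') := by
    intro y hy
    show y + em (x - l') - em (x - l') ∈ Pgm l' (-q')
    rwa [add_sub_cancel_right]
  have hfv : ∀ y ∈ Pgm l' (-q'), ∀ z, Nr y z →
      f z = ψ (y + em (x - l')) (z + (x - l')) := by
    intro y hy z hz
    rw [hf]
    refine hg _ (hK y hy) _ ?_
    have := (nr_sub (y + em (x - l')) (z + (x - l')) (x - l')).1 (by simpa using hz)
    exact this
  have hnr : ∀ {y : V} {z c : Z2}, Nr y z → Nr (y + em c) (z + c) := by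
    intro y z c hz
    exact (nr_sub (y + em c) (z + c) c).1 (by simpa using hz)
  have hfd : Dev O (Pgm l' (-q')) f := by
    intro y hy
    have h1 : DevAt O (y + em (x - l')) g2 :=
      (hP.dev _ (h.regC (hK y hy))).congr (fun z hz => hg _ (hK y hy) z hz)
    have e1 : f = sh (-(x - l')) g2 := by
      rw [hf]; funext z; simp only [sh]; congr 1; abel
    rw [e1]
    apply DevAt.sh
    have e2 : y - em (-(x - l')) = y + em (x - l') := by ext <;> simp [em] <;> ring
    rw [e2]
    exact h1
  have hpar : Par O l' (-q') f f (sh q' f) f := by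
    refine ⟨hp, f, hfd, ag_refl _ _, ?_, ?_, ag_refl _ _⟩
    · intro y hy z hz
      have hy2 : y - em l' ∈ Seg 0 (-q') := sub_em_mem hy
      have k1 := hfv y (seg_right hp hy) z hz
      have k2 := hfv (y - em l') (seg_left hp hy2) (z - l') ((nr_sub y z l').2 hz)
      have k3 := hP.per _ (h.regC (hK _ (seg_left hp hy2))) l' hl' (z - l' + (x - l'))
        (hnr ((nr_sub y z l').2 hz))
      have e1 : y - em l' + em (x - l') + em l' = y + em (x - l') := by abel
      have e2 : z - l' + (x - l') + l' = z + (x - l') := by abel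
      rw [e1, e2] at k3
      show f z = f (z - l')
      rw [k1, k2, k3]
    · intro y hy z hz
      show f z = f (z - -q' - q')
      congr 1
      abel
  have hpar2 : Par O q' l' (sh q' f) f (sh q' f) (sh q' f) := hpar.unrot
  refine ⟨f, sh q' f, sh q' f, ?_⟩
  have cov : ∀ y, ∃ F, GC U x l l' φ ψ y F := by
    intro y
    obtain ⟨c, hc, ⟨g1, g2⟩ | ⟨g1, g2, g3, g4⟩⟩ := hR.cover y
    · exact ⟨_, GC.vv c hc g1 g2⟩
    · exact ⟨_, GC.aa c hc g1 g2 g3 g4⟩
  choose φ' hφ' using cov
  have hy0 : ∀ w : V, w - em 0 = w := by intro w; simp [em_zero]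
  -- regular points near the slit `l'`
  have hsl : ∀ y ∈ Seg 0 l', ∀ᶠ y' in 𝓝 y, crx l' y' ≠ 0 →
      Reg (AddSubgroup.closure {U - l + l', x}) l' m (y' - em l') := by
    intro y hy
    filter_upwards [ev_sub (ev_slit hlne hmne (y - em l'))] with y' e1 hne c hc
    obtain ⟨k1, k2⟩ := hR.locL hy hc
    refine ⟨fun h1 => ?_, fun h1 => k2 ((e1 c).2 h1)⟩
    have hc0 := k1 ((e1 c).1 h1)
    rw [hc0, hy0] at h1
    obtain ⟨t, t0, t1, ht⟩ := cseg_pt h1
    apply hne
    have := ht l'
    rw [crx_sub, crx_em, crR_neg, crR_self, crR_zero] at this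
    linarith
  have hsm : ∀ y ∈ Seg 0 m, ∀ᶠ y' in 𝓝 y, crx m y' ≠ 0 →
      Reg (AddSubgroup.closure {U - l + l', x}) l' m y' := by
    intro y hy
    filter_upwards [ev_slit hlne hmne y] with y' e1 hne c hc
    obtain ⟨k1, k2⟩ := hR.locM hy hc
    refine ⟨fun h1 => k1 ((e1 c).1 h1), fun h1 => ?_⟩
    have hc0 := k2 ((e1 c).2 h1)
    rw [hc0, hy0] at h1
    obtain ⟨t, t0, t1, ht⟩ := cseg_pt h1
    apply hne
    rw [ht, crR_self, crR_zero]
    ring
  refine ⟨φ', hpar2, ⟨?_, ?_, ?_, ?_, ?_, ?_, ?_, ?_, ?_, hS.dM0, hS.dM1⟩⟩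
  · exact fun y hy => (hφ' y).dev h hS hP hy
  · intro y hy
    obtain ⟨F0, g0, ev⟩ := GC.near h hS hP hy
    filter_upwards [ev, ev_reg hlne hmne hy, ev_nr y] with y' ⟨F', g', h'⟩ hr hn z hz
    rw [GC.uniq hR hS hr (hφ' y') g' hz, h' z hz, GC.uniq hR hS hy (hφ' y) g0 (hn z hz)]
  · intro y hy c hc z hz
    have g1 := (hφ' y).shift hc
    have := GC.uniq hR hS (reg_add hy hc) (hφ' (y + em c)) g1 (hnr hz)
    rw [this]
    show φ' y (z + c - c) = φ' y z
    rw [add_sub_cancel_right]
  · -- the right side of `l'`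
    intro y hy
    obtain ⟨t, t0, t1, ht⟩ := seg_pt hy
    have p1 := ht l'
    have p2 := ht x
    rw [crR_zero, crR_self] at p1
    rw [crR_zero, crR_swap l' x] at p2
    have hyK : y ∈ Pgm l' (-q') := seg_bot hp hy
    have e3 : y + em (x - l') = y - em (l' - x) := by ext <;> simp [em] <;> ring
    have hreg : Reg (AddSubgroup.closure {l, x - q}) (-m) x (y - em (l' - x)) := by
      rw [← e3]; exact h.regC (hK y hyK)
    filter_upwards [hsl y hy, ev_gt (a := x) (c := l') (y := y) (r := (0 : ℝ))
      (by rw [crx_sub, crx_em, p2, crR_swap l' x]; nlinarith),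
      ev_lt (a := x) (c := l') (y := y) (r := (cr l' x : ℝ))
      (by rw [crx_sub, crx_em, p2, crR_swap l' x]; nlinarith),
      ev_gt (a := l') (c := l') (y := y) (r := -(cr l' x : ℝ))
      (by rw [crx_sub, crx_em, p1, crR_self]; linarith),
      ev_sub (hP.lc _ hreg), ev_nr y] with y' r1 r2 r3 r4 r5 r6 hlt z hz
    have hr := r1 hlt.ne
    have hnx : -x ∈ AddSubgroup.closure ({U - l + l', x} : Set Z2) :=
      AddSubgroup.neg_mem _ mem_x
    have hsw : ∀ a : Z2, crx a (y' - em l' - em (-x)) = crx a (y' - em l') + cr a x := by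
      intro a
      rw [crx_sub, crx_em, crR_neg]; ring
    have g := GC.aa (U := U) (x := x) (l := l) (l' := l') (φ := φ) (ψ := ψ) (y := y' - em l')
      (-x) hnx (by rw [hsw, crR_self]; linarith) (by rw [hsw, crR_self]; linarith)
      (by rw [hsw]; linarith) (by
        rw [hsw, crx_sub, crx_em, crR_self]; linarith)
    have k1 := GC.uniq hR hS hr (hφ' (y' - em l')) g ((nr_sub y' z l').2 hz)
    rw [k1]
    show ψ (y' - em l' - em (-x)) (z - l' - -x) = f z
    have e4 : y' - em l' - em (-x) = y' - em (l' - x) := by ext <;> simp [em] <;> ring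
    have e5 : z - l' - -x = z - (l' - x) := by abel
    rw [e4, e5, r5 _ ((nr_sub y' z _).2 hz), hfv y hyK z (r6 z hz), e3]
    congr 1
    abel
  · -- the left side of `l'`
    intro y hy
    obtain ⟨t, t0, t1, ht⟩ := seg_pt hy
    have p1 := ht l'
    have p2 := ht x
    rw [crR_zero, crR_self] at p1
    rw [crR_zero, crR_swap l' x] at p2
    have hreg : Reg (AddSubgroup.closure {l, x - q}) (-m) x (y - em l') := by
      apply h.regA
      · rw [crx_sub, crx_em, p2, crR_swap l' x]; nlinarith
      · rw [crx_sub, crx_em, p2, crR_swap l' x]; nlinarith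
      · rw [crx_sub, crx_em, p1, crR_self]; linarith
      · rw [crx_sub, crx_em, p1, crR_self]; linarith
    have hyT : y - em q' ∈ Pgm l' (-q') := by
      apply seg_top hp
      have := seg_add' (-q') hy
      rw [add_zero] at this
      have e : y - em q' = y + em (-q') := by ext <;> simp [em, sub_eq_add_neg]
      rw [e]
      exact this
    filter_upwards [hsl y hy, ev_gt (a := x) (c := l') (y := y) (r := (0 : ℝ))
      (by rw [crx_sub, crx_em, p2, crR_swap l' x]; nlinarith),
      ev_lt (a := x) (c := l') (y := y) (r := (cr l' x : ℝ))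
      (by rw [crx_sub, crx_em, p2, crR_swap l' x]; nlinarith),
      ev_lt (a := l') (c := l') (y := y) (r := (cr l' x : ℝ))
      (by rw [crx_sub, crx_em, p1, crR_self]; linarith),
      ev_sub (hP.lc _ hreg), ev_nr y] with y' r1 r2 r3 r4 r5 r6 hlt z hz
    have hr := r1 hlt.ne'
    have g := GC.aa (U := U) (x := x) (l := l) (l' := l') (φ := φ) (ψ := ψ) (y := y' - em l')
      0 (AddSubgroup.zero_mem _) (by rw [hy0]; exact r2) (by rw [hy0]; exact r3)
      (by rw [hy0, crx_sub, crx_em, crR_self]; linarith) (by rw [hy0]; exact r4.le)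
    have k1 := GC.uniq hR hS hr (hφ' (y' - em l')) g ((nr_sub y' z l').2 hz)
    rw [k1]
    show ψ (y' - em l' - em 0) (z - l' - 0) = f (z - q')
    rw [hy0, sub_zero, r5 _ ((nr_sub y' z _).2 hz), hfv _ hyT _ ((nr_sub y z _).2 (r6 z hz))]
    have k2 := hP.per _ hreg _ ht' (z - l') ((nr_sub y z _).2 (r6 z hz))
    have e4 : y - em l' + em (x - q') = y - em q' + em (x - l') := by
      ext <;> simp [em] <;> ring
    have e5 : z - l' + (x - q') = z - q' + (x - l') := by abel
    rw [e4, e5] at k2
    rw [k2]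
  · -- the right side of `m`
    intro y hy
    obtain ⟨t, t0, t1, ht⟩ := seg_pt hy
    have p2 := ht x
    rw [crR_zero, crR_swap m x, b0] at p2
    filter_upwards [hsm y hy, ev_gt (a := x) (c := 0) (y := y) (r := (cr l x - cr U x : ℝ))
      (by rw [hy0, p2]; linarith), hS.sM0 y hy] with y' r1 r2 r3 hlt z hz
    have hx0 : crx x y' < 0 := by
      have e := h.hb.mul y'
      by_contra hc
      push Not at hc
      nlinarith
    have g := GC.vv (U := U) (x := x) (l := l) (l' := l') (φ := φ) (ψ := ψ) (y := y')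
      0 (AddSubgroup.zero_mem _) r2.le (by rw [hy0]; exact hx0.le)
    have k1 := GC.uniq hR hS (r1 hlt.ne) (hφ' y') g hz
    rw [k1]
    show φ (y' - em 0) (z - 0) = M0 z
    rw [hy0, sub_zero, r3 hlt z hz]
  · -- the left side of `m`
    intro y hy
    obtain ⟨t, t0, t1, ht⟩ := seg_pt hy
    have p1 := ht l'
    have p2 := ht x
    rw [crR_zero] at p1
    rw [crR_zero, crR_swap m x, b0] at p2
    have m1 : (0 : ℝ) < cr l' m := by
      have : 0 < (cr l x : ℝ) * cr l' m := by rw [cm]; exact mul_pos b5 c1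
      exact (pos_iff_pos_of_mul_pos this).1 b1
    have m2 : (cr l' m : ℝ) < cr l' x := by
      have : (cr l x : ℝ) * cr l' m < cr l x * cr l' x := by
        rw [cm]; exact mul_lt_mul_of_pos_right b6 c1
      exact lt_of_mul_lt_mul_left this b1.le
    filter_upwards [hsm y hy, ev_lt (a := x) (c := 0) (y := y) (r := (cr l' x : ℝ))
      (by rw [hy0, p2]; linarith), ev_gt (a := l') (c := 0) (y := y) (r := (0 : ℝ))
      (by rw [hy0, p1]; nlinarith), ev_lt (a := l') (c := 0) (y := y) (r := (cr l' x : ℝ))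
      (by rw [hy0, p1]; nlinarith), hP.left_m y hy] with y' r1 r2 r3 r4 r5 hlt z hz
    have hx0 : 0 < crx x y' := by
      have e := h.hb.mul y'
      by_contra hc
      push Not at hc
      nlinarith
    have g := GC.aa (U := U) (x := x) (l := l) (l' := l') (φ := φ) (ψ := ψ) (y := y')
      0 (AddSubgroup.zero_mem _) (by rw [hy0]; exact hx0) r2 r3.le r4.le
    have k1 := GC.uniq hR hS (r1 hlt.ne') (hφ' y') g hz
    rw [k1]
    show ψ (y' - em 0) (z - 0) = M1 z
    rw [hy0, sub_zero, r5 hx0 z hz]
  · exact fun y hy => hfd y (seg_bot hp hy)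
  · intro y hy
    apply DevAt.sh
    apply hfd
    apply seg_top hp
    have := seg_add' (-q') hy
    rw [add_zero] at this
    have e : y - em q' = y + em (-q') := by ext <;> simp [em, sub_eq_add_neg]
    rw [e]
    exact this

end

end Pool.Agent.H4G.Six
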