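import Pool.Agent.H4G.Six.Sp1b

/-!
# Rectangular configurations with spacing one: S1 and S2 (helper37)

`Eta1 O N r U z l q m s`: a configuration with `l × m = r`, `q ∥ m`, `s ∥ l`, `U ∥ m` and
`z × m = r`; the centre of the first row is `U + z`. With `f = (U + z) × l`, `h = q × l`,
`t = s × m`, `w = U × z`: `r ∣ f`, `r ∣ h`, `r² ∣ f t`, `r² ∣ h t`, `r² ∣ w t`; and there is a
configuration of the same kind on the mirror image with `(w, f, h, t)` replaced by
`(w - f + h, h, f, t)`.
-/

set_option autoImplicit false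

namespace Pool.Agent.H4G.Six

open Pool.Agent.H4G

variable {X : Type} {O : PO X} {N r : ℤ} {U z l q m s : Z2}

/-- a rectangular configuration with spacing one -/
structure Eta1 (O : PO X) (N r : ℤ) (U z l q m s : Z2) : Prop where
  okc : OKC O (U, z, l, q, m, s)
  vol : volC (U, z, l, q, m, s) = N
  rpos : 0 < r
  lm : cr l m = r
  Um : cr U m = 0
  zm : cr z m = r
  qm : cr q m = 0
  sl : cr s l = 0
  fpos : 0 < cr (U + z) l
  fw : cr (U + z) l + r < cr U z

namespace Eta1

theorem Ul (h : Eta1 O N r U z l q m s) : cr U l = cr U z := by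
  have e := cr_plucker U z l m
  rw [h.Um, h.zm, h.lm, mul_zero, sub_zero] at e
  have := h.rpos
  exact mul_right_cancel₀ this.ne' (by linarith)

theorem lz (h : Eta1 O N r U z l q m s) : cr l z = cr U z - cr (U + z) l := by
  have := h.Ul
  rw [cr_addl, cr_swap' l z]
  linarith

/-- products with `q` and `s` -/
theorem qx (h : Eta1 O N r U z l q m s) (x : Z2) : r * cr q x = cr q l * cr x m := by
  have h1 := lm_cross l m q x
  rw [h.qm, h.lm] at h1
  rw [h1, cr_swap' q l]
  ring

theorem sx (h : Eta1 O N r U z l q m s) (x : Z2) : r * cr s x = cr s m * cr l x := by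
  have h1 := lm_cross l m s x
  have h2 : cr l s = 0 := by rw [cr_swap', h.sl, neg_zero]
  rw [h2, h.lm] at h1
  rw [h1]
  ring

theorem qz (h : Eta1 O N r U z l q m s) : cr q z = cr q l := by
  have e := h.qx z
  rw [h.zm] at e
  have := h.rpos
  exact mul_left_cancel₀ this.ne' (by linarith)

theorem qu (h : Eta1 O N r U z l q m s) : cr q (U + z) = cr q l := by
  have e := h.qx (U + z)
  rw [cr_addl, h.Um, h.zm] at e
  have := h.rpos
  exact mul_left_cancel₀ this.ne' (by linarith)

/-- the tree at the centre of the first row -/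
theorem tree (h : Eta1 O N r U z l q m s) : Has6 O (U + z, z - l - m, l, q, m, s) ∧
    vol6 (U + z, z - l - m, l, q, m, s) = N := by
  have h1 : OKC O (U + z, z, l, q, m, s) := by
    refine h.okc.basis ?_ ?_
    · apply le_antisymm
      · refine (AddSubgroup.closure_le _).2 ?_
        rintro y (rfl | rfl)
        · exact AddSubgroup.mem_closure_pair.2 ⟨1, 1, by rw [one_smul, one_smul]⟩
        · exact AddSubgroup.subset_closure (by simp)
      · refine (AddSubgroup.closure_le _).2 ?_
        rintro y (rfl | rfl)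
        · exact AddSubgroup.mem_closure_pair.2 ⟨1, -1, by rw [one_smul, neg_one_smul]; abel⟩
        · exact AddSubgroup.subset_closure (by simp)
    · rw [cr_addl, cr_self', add_zero]
      exact h.okc.1
  have h2 : cr (U + z) m = r := by rw [cr_addl, h.Um, h.zm, zero_add]
  refine ⟨h1.center h.fpos (by rw [h2]; exact h.rpos) ?_, ?_⟩
  · rw [h2]
    have e : cr (U + z) z = cr U z := by rw [cr_addl, cr_self', add_zero]
    rw [e]
    exact h.fw
  · rw [← h.vol]
    simp only [vol6, volC, cr, Prod.fst_add, Prod.snd_add, Prod.fst_sub, Prod.snd_sub]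
    ring

/-- **S1.** -/
theorem s1 (hR : RC O N r) (h : Eta1 O N r U z l q m s) : r ∣ cr (U + z) l ∧ r ∣ cr (U + z) s ∧
    r ∣ cr q l + cr q s := by
  have hr := h.rpos
  obtain ⟨hT, hN⟩ := h.tree
  have hum : cr (U + z) m = r := by rw [cr_addl, h.Um, h.zm, zero_add]
  obtain ⟨k, hk, hgcd⟩ := hR.rowM hT hN hum
  have hp := hT.pos
  have hq : 0 < cr q l := hp.2.2.2.1
  have hs : 0 < cr s m := hp.2.2.2.2
  obtain ⟨u, hu⟩ : ∃ u : Z2, u = U + z := ⟨_, rfl⟩
  have hqu := h.qu
  have hf := h.fpos
  rw [← hu] at hk hgcd hum hqu hf ⊢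
  have hls : cr l s = 0 := by rw [cr_swap', h.sl, neg_zero]
  obtain ⟨P, hP⟩ : ∃ P : ℤ, P = cr u l + k * r := ⟨_, rfl⟩
  obtain ⟨Q, hQ⟩ : ∃ Q : ℤ, Q = cr q l + cr q s + cr u l + k * r := ⟨_, rfl⟩
  -- the three products
  have hqs : 0 < cr q s := by
    have e := h.qx s
    have : 0 < r * cr q s := by rw [e]; positivity
    exact (pos_iff_pos_of_mul_pos this).1 hr
  have hus : 0 < cr u s := by
    have e := h.sx u
    rw [cr_swap' u s, cr_swap' u l] at e
    have : 0 < r * cr u s := by
      have : r * cr u s = cr s m * cr u l := by linarith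
      rw [this]; positivity
    exact (pos_iff_pos_of_mul_pos this).1 hr
  have hQ0 : 0 < Q := by
    rw [hQ, ← hk]
    linarith
  have key : ∀ t : ℤ, r ≤ Int.gcd (t * Q) (r - t * P) := by
    intro t
    have h1 := hgcd t
    have e1 : cr l (m + t • (u + s - k • m)) = r - t * P := by
      have : cr l (m + t • (u + s - k • m)) = cr l m + t * (-cr u l + cr l s - k * cr l m) := by
        simp only [cr, Prod.fst_add, Prod.snd_add, Prod.fst_sub, Prod.snd_sub, Prod.smul_fst,
          Prod.smul_snd, smul_eq_mul]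
        ring
      rw [this, hls, h.lm, hP]; ring
    have e2 : cr (u + q) (m + t • (u + s - k • m)) = r - t * P + t * Q := by
      have : cr (u + q) (m + t • (u + s - k • m)) = cr u m + cr q m +
          t * (cr q u + cr u s + cr q s - k * (cr u m + cr q m)) := by
        simp only [cr, Prod.fst_add, Prod.snd_add, Prod.fst_sub, Prod.snd_sub, Prod.smul_fst,
          Prod.smul_snd, smul_eq_mul]
        ring
      rw [this, hum, h.qm, hqu, hk, hP, hQ]; ring
    rw [e1, e2] at h1
    have e3 : Int.gcd (r - t * P) (r - t * P + t * Q) = Int.gcd (t * Q) (r - t * P) := by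
      rw [Int.gcd_self_add_right, Int.gcd_comm]
    rwa [e3] at h1
  obtain ⟨d1, d2⟩ := dvd_of_gcd_ge hr hQ0.ne' key
  have d3 : r ∣ cr u l := by
    rw [hP] at d1
    exact (dvd_add_left (Dvd.intro_left k rfl)).1 d1
  refine ⟨d3, ⟨k, by rw [hk]; ring⟩, ?_⟩
  rw [hQ, add_assoc, add_assoc] at d2
  rw [hP] at d1
  have := dvd_sub d2 d1
  have e : cr q l + (cr q s + (cr u l + k * r)) - (cr u l + k * r) = cr q l + cr q s := by ring
  rwa [e] at this

/-- **S2.** The (1,3)-step with `z` and the mirror image. -/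
theorem flip (hR : RC O N r) (h : Eta1 O N r U z l q m s) : r ∣ cr s z ∧
    ∃ U' z' l' q' m' s' : Z2, Eta1 O.mir N r U' z' l' q' m' s' ∧
      cr U' z' = cr U z - cr (U + z) l + cr q l ∧ cr (U' + z') l' = cr q l ∧
      cr q' l' = cr (U + z) l ∧ cr s' m' = cr s m := by
  have hr := h.rpos
  have hlz := h.lz
  have hf := h.fpos
  have hfw := h.fw
  have hmz : cr m z = -r := by rw [cr_swap', h.zm]
  have hq := h.okc.posQ
  have hqz := h.qz
  have hC := h.okc.exP (by linarith) (by linarith) (by linarith) (by linarith)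
    (by rw [h.lm]; exact hr)
  have hlm' : cr (-m) z = r := by rw [cr_negl, hmz, neg_neg]
  have hN' : volC (l, z - q, -m, -s, z, U - l) = N := by
    rw [← h.vol]
    simp only [volC, cr, Prod.fst_sub, Prod.snd_sub, Prod.fst_neg, Prod.snd_neg]
    ring
  have hW' : cr l (z - q) = cr U z - cr (U + z) l + cr q l := by
    have : cr l (z - q) = cr l z + cr q l := by
      simp only [cr, Prod.fst_sub, Prod.snd_sub]; ring
    rw [this, hlz]
  have hax : cr (z - q - l) z = -(cr U z - cr (U + z) l + cr q l) := by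
    have : cr (z - q - l) z = -cr q z - cr l z := by
      simp only [cr, Prod.fst_sub, Prod.snd_sub]; ring
    rw [this, hqz, hlz]; ring
  have hB : Big (AddSubgroup.closure {l, z - q}) (cr l (z - q)) (-m) z := by
    refine Or.inr (Or.inr (Or.inr ⟨z - q - l, ?_, ?_, ?_, ?_⟩))
    · exact AddSubgroup.mem_closure_pair.2 ⟨-1, 1, by rw [one_smul, neg_one_smul]; abel⟩
    · rw [cr_negr, cr_subl, cr_subl, h.zm, h.qm, h.lm]; ring
    · have e1 : |cr z (-m)| = r := by rw [cr_negr, abs_neg, h.zm, abs_of_pos hr]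
      have e2 : 0 < cr U z - cr (U + z) l + cr q l := by linarith
      rw [e1, hax, abs_neg, abs_of_pos e2]
      linarith
    · have e2 : 0 < cr U z - cr (U + z) l + cr q l := by linarith
      rw [hax, abs_neg, abs_of_pos e2, hW']
  obtain ⟨a, b, hRect⟩ := hR.toRect' hC hN' (by rw [hlm']; exact abs_of_pos hr) hB
  have h1 : cr s z = a * r := by
    have h2 := hRect.qm
    have : cr (-s + a • -m) z = -cr s z - a * cr m z := by
      simp only [cr, Prod.fst_add, Prod.snd_add, Prod.fst_neg, Prod.snd_neg, Prod.smul_fst,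
        Prod.smul_snd, smul_eq_mul]
      ring
    rw [this, hmz] at h2
    linarith
  have h2 : b = 1 := by
    have h3 := hRect.sl
    have : cr (U - l + b • z) (-m) = -(cr U m - cr l m + b * cr z m) := by
      simp only [cr, Prod.fst_add, Prod.snd_add, Prod.fst_neg, Prod.snd_neg, Prod.fst_sub,
        Prod.snd_sub, Prod.smul_fst, Prod.smul_snd, smul_eq_mul]
      ring
    rw [this, h.Um, h.lm, h.zm] at h3
    have : r * (b - 1) = 0 := by linarith
    have := (mul_eq_zero.1 this).resolve_left hr.ne'
    linarith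
  rw [h2, one_smul] at hRect
  refine ⟨⟨a, by rw [h1]; ring⟩, bar (l + q - z), -bar l, -bar z, bar (U - l + z), bar m,
    -bar (s + a • m), ?_, ?_, ?_, ?_, ?_⟩
  · refine ⟨?_, ?_, hr, ?_, ?_, ?_, ?_, ?_, ?_, ?_⟩
    · -- the configuration
      have k1 := hRect.okc.rev.mir
      have e1 : (AddSubgroup.closure ({bar (l + q - z), -bar l} : Set Z2)) =
          AddSubgroup.closure {bar l, -bar (z - q)} := by
        have e2 : bar (l + q - z) = bar l - bar (z - q) := by
          rw [← bar_sub]
          congr 1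
          abel
        rw [e2]
        apply le_antisymm
        · refine (AddSubgroup.closure_le _).2 ?_
          rintro y (rfl | rfl)
          · exact AddSubgroup.mem_closure_pair.2 ⟨1, 1, by rw [one_smul, one_smul]; abel⟩
          · exact AddSubgroup.mem_closure_pair.2 ⟨-1, 0, by rw [zero_smul, neg_one_smul]; abel⟩
        · refine (AddSubgroup.closure_le _).2 ?_
          rintro y (rfl | rfl)
          · exact AddSubgroup.mem_closure_pair.2 ⟨0, -1, by rw [zero_smul, neg_one_smul]; abel⟩
          · exact AddSubgroup.mem_closure_pair.2 ⟨1, 1, by rw [one_smul, one_smul]; abel⟩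
      have k2 : OKC O.mir (bar (l + q - z), -bar l, bar (-z), -bar (-(U - l + z)), bar (- -m),
          -bar (-(-s + a • -m))) := by
        refine k1.basis e1 ?_
        rw [cr_bar_nbar]
        have : cr (l + q - z) l = cr q l + cr l z := by
          simp only [cr, Prod.fst_add, Prod.snd_add, Prod.fst_sub, Prod.snd_sub]; ring
        rw [this]
        linarith
      have e3 : bar (-z) = -bar z := bar_neg z
      have e4 : -bar (-(U - l + z)) = bar (U - l + z) := by rw [bar_neg, neg_neg]
      have e5 : -(-s + a • -m) = s + a • m := by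
        rw [smul_neg]
        abel
      rw [e3, e4, neg_neg, e5] at k2
      exact k2
    · rw [← hN']
      simp only [volC, cr_bar_nbar, cr_nbar_bar]
      simp only [cr, Prod.fst_add, Prod.snd_add, Prod.fst_sub, Prod.snd_sub, Prod.fst_neg,
        Prod.snd_neg, Prod.smul_fst, Prod.smul_snd, smul_eq_mul]
      ring
    · rw [cr_nbar_bar, h.zm]
    · rw [cr_bar]
      simp only [cr_subl, cr_addl]
      rw [h.lm, h.qm, h.zm]; ring
    · rw [cr_nbar_bar, h.lm]
    · rw [cr_bar, cr_addl, cr_subl, h.Um, h.lm, h.zm]; ring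
    · rw [cr_nbar_nbar]
      have h3 := hRect.qm
      have e : -s + a • -m = -(s + a • m) := by
        rw [smul_neg]
        abel
      rw [e, cr_negl] at h3
      linarith
    · have e2 : bar (l + q - z) + -bar l = bar (q - z) := by
        rw [← bar_neg, ← bar_add]
        congr 1
        abel
      rw [e2, cr_bar_nbar, cr_subl, cr_self', sub_zero, hqz]
      exact hq
    · have e2 : bar (l + q - z) + -bar l = bar (q - z) := by
        rw [← bar_neg, ← bar_add]
        congr 1
        abel
      rw [e2, cr_bar_nbar, cr_subl, cr_self', sub_zero, hqz, cr_bar_nbar]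
      have : cr (l + q - z) l = cr q l + cr l z := by
        simp only [cr, Prod.fst_add, Prod.snd_add, Prod.fst_sub, Prod.snd_sub]; ring
      rw [this, hlz]
      linarith
  · rw [cr_bar_nbar]
    have : cr (l + q - z) l = cr q l + cr l z := by
      simp only [cr, Prod.fst_add, Prod.snd_add, Prod.fst_sub, Prod.snd_sub]; ring
    rw [this, hlz]; ring
  · have e2 : bar (l + q - z) + -bar l = bar (q - z) := by
      rw [← bar_neg, ← bar_add]
      congr 1
      abel
    rw [e2, cr_bar_nbar, cr_subl, cr_self', sub_zero, hqz]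
  · rw [cr_bar_nbar]
    have : cr (U - l + z) z = cr U z - cr l z := by
      simp only [cr, Prod.fst_add, Prod.snd_add, Prod.fst_sub, Prod.snd_sub]; ring
    rw [this, hlz]; ring
  · rw [cr_nbar_bar, cr_addl]
    have : cr (a • m) m = 0 := by
      simp only [cr, Prod.smul_fst, Prod.smul_snd, smul_eq_mul]; ring
    rw [this, add_zero]

/-- **S1 and S2 together**: with `f = (U + z) × l`, `h = q × l`, `t = s × m`, `w = U × z`. -/
theorem ints (hR : RC O N r) (h : Eta1 O N r U z l q m s) : r ∣ cr (U + z) l ∧ r ∣ cr q l ∧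
    r * r ∣ cr (U + z) l * cr s m ∧ r * r ∣ cr q l * cr s m ∧ r * r ∣ cr U z * cr s m := by
  have hr := h.rpos
  obtain ⟨a1, a2, a3⟩ := h.s1 hR
  obtain ⟨b1, U', z', l', q', m', s', b2, b3, b4, b5, b6⟩ := h.flip hR
  obtain ⟨c1, c2, c3⟩ := b2.s1 hR.mir
  have f1 : r * r ∣ cr (U + z) l * cr s m := by
    obtain ⟨k, hk⟩ := a2
    have e := h.sx (U + z)
    rw [cr_swap' (U + z) s, cr_swap' (U + z) l] at e
    refine ⟨k, ?_⟩
    rw [hk] at e
    linarith
  have f2 : r * r ∣ cr q l * cr s m := by
    obtain ⟨k, hk⟩ := c2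
    have e := b2.sx (U' + z')
    rw [cr_swap' (U' + z') s', cr_swap' (U' + z') l', b4, b6] at e
    refine ⟨k, ?_⟩
    rw [hk] at e
    linarith
  refine ⟨a1, by rw [← b4]; exact c1, f1, f2, ?_⟩
  obtain ⟨k, hk⟩ := b1
  have e := h.sx z
  rw [hk, h.lz] at e
  obtain ⟨k', hk'⟩ := f1
  refine ⟨k + k', ?_⟩
  have : cr U z * cr s m = r * (r * k) + cr (U + z) l * cr s m := by linarith
  rw [this, hk']
  ring

end Eta1

end Pool.Agent.H4G.Six
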