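import Mathlib

/-!
# Rectangular configurations with spacing one: the arithmetic (steps S3 - S5, helper94)

Everything is scaled by `r = l × m`. `Ge1 x y`: the greatest common divisor of the rational numbers
`x` and `y` is at least one.

`kap_int`: the twists by `k κ` force `κ` to be an integer.
`rect_cop`: the denominators `n` of `T` and `n'` of `ζ` are coprime and divide `i`.
`rect_thin`: if all the centres `(ζ a, b)` have content at least one, then `r = n n'` is one or a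
prime `p`, and `j = p ^ k i + δ` with `ζ δ < p ^ k`.
-/

set_option autoImplicit false

namespace Pool.Agent.H4G.Six

/-- an integral rational number -/
def InZ (x : ℚ) : Prop := ∃ n : ℤ, x = n

/-- the greatest common divisor of two rational numbers is at least one -/
def Ge1 (x y : ℚ) : Prop := ∃ g : ℚ, 1 ≤ g ∧ InZ (x / g) ∧ InZ (y / g)

theorem InZ.add {x y : ℚ} (hx : InZ x) (hy : InZ y) : InZ (x + y) := by
  obtain ⟨a, rfl⟩ := hx
  obtain ⟨b, rfl⟩ := hy
  exact ⟨a + b, by push_cast; ring⟩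

theorem InZ.sub {x y : ℚ} (hx : InZ x) (hy : InZ y) : InZ (x - y) := by
  obtain ⟨a, rfl⟩ := hx
  obtain ⟨b, rfl⟩ := hy
  exact ⟨a - b, by push_cast; ring⟩

theorem InZ.mul {x y : ℚ} (hx : InZ x) (hy : InZ y) : InZ (x * y) := by
  obtain ⟨a, rfl⟩ := hx
  obtain ⟨b, rfl⟩ := hy
  exact ⟨a * b, by push_cast; ring⟩

theorem InZ.neg {x : ℚ} (hx : InZ x) : InZ (-x) := by
  obtain ⟨a, rfl⟩ := hx
  exact ⟨-a, by push_cast; ring⟩

theorem inZ_int (n : ℤ) : InZ (n : ℚ) := ⟨n, rfl⟩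

theorem inZ_div {a b : ℤ} (hb : b ≠ 0) : InZ ((a : ℚ) / b) ↔ b ∣ a := by
  have hb' : (b : ℚ) ≠ 0 := by exact_mod_cast hb
  constructor
  · rintro ⟨n, hn⟩
    refine ⟨n, ?_⟩
    rw [div_eq_iff hb'] at hn
    have : a = n * b := by exact_mod_cast hn
    rw [this, mul_comm]
  · rintro ⟨n, rfl⟩
    refine ⟨n, ?_⟩
    rw [div_eq_iff hb']
    push_cast
    ring

theorem inZ_iff_den {x : ℚ} : InZ x ↔ x.den = 1 := by
  constructor
  · rintro ⟨n, rfl⟩
    exact Rat.den_intCast n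
  · intro h
    exact ⟨x.num, by rw [Rat.den_eq_one_iff] at h; exact h.symm⟩

/-- numerator and denominator of a rational number which is at least one -/
theorem Ge1.cast {x y : ℚ} (h : Ge1 x y) : ∃ P Q : ℤ, 0 < Q ∧ Q ≤ P ∧ IsCoprime P Q ∧
    InZ (x * Q / P) ∧ InZ (y * Q / P) := by
  obtain ⟨g, hg, hx, hy⟩ := h
  have hQ : (0 : ℚ) < g.den := by exact_mod_cast g.den_pos
  have hP : (0 : ℚ) < g.num := by
    have : 0 < g := by linarith
    exact_mod_cast Rat.num_pos.2 this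
  have e : ∀ z : ℚ, z * (g.den : ℤ) / g.num = z / g := by
    intro z
    conv_rhs => rw [← Rat.num_div_den g]
    field_simp
    push_cast
    ring
  refine ⟨g.num, g.den, by exact_mod_cast g.den_pos, ?_, ?_, ?_, ?_⟩
  · have h1 : (1 : ℚ) ≤ g.num / g.den := by rw [Rat.num_div_den]; exact hg
    rw [le_div_iff₀ hQ, one_mul] at h1
    exact_mod_cast h1
  · rw [Int.isCoprime_iff_gcd_eq_one, Int.gcd_eq_natAbs, Int.natAbs_natCast]
    exact g.reduced
  · rw [e]; exact hx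
  · rw [e]; exact hy

/-- a number prime to `d` which is divisible by the primes of `j` outside of `d` -/
theorem exists_cop_part (j d : ℤ) (hj : j ≠ 0) : ∃ k : ℤ, IsCoprime k d ∧
    ∀ p : ℤ, Prime p → p ∣ j → ¬ p ∣ d → p ∣ k := by
  induction h : j.natAbs using Nat.strong_induction_on generalizing j with
  | _ n ih =>
    by_cases hc : IsCoprime j d
    · exact ⟨j, hc, fun p _ h1 _ => h1⟩
    · have hg : Int.gcd j d ≠ 1 := fun h1 => hc (Int.isCoprime_iff_gcd_eq_one.2 h1)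
      obtain ⟨q, hq, hqg⟩ := Nat.exists_prime_and_dvd hg
      have hqj : (q : ℤ) ∣ j := (Int.natCast_dvd_natCast.2 hqg).trans (Int.gcd_dvd_left ..)
      have hqd : (q : ℤ) ∣ d := (Int.natCast_dvd_natCast.2 hqg).trans (Int.gcd_dvd_right ..)
      obtain ⟨j', rfl⟩ := hqj
      have hj' : j' ≠ 0 := by
        rintro rfl
        simp at hj
      have hlt : j'.natAbs < n := by
        rw [← h, Int.natAbs_mul, Int.natAbs_natCast]
        have h1 : 0 < j'.natAbs := Int.natAbs_pos.2 hj'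
        have h2 := hq.two_le
        nlinarith
      obtain ⟨k, hk, hk'⟩ := ih _ hlt j' hj' rfl
      refine ⟨k, hk, fun p hp h1 h2 => ?_⟩
      rcases hp.dvd_or_dvd h1 with h3 | h3
      · exfalso
        exact h2 (h3.trans hqd)
      · exact hk' p hp h3 h2

/-- **S3.** The twists force `κ` to be an integer. -/
theorem kap_int {j b1 i : ℤ} {κ : ℚ} (hj : 0 < j) (hb : j ∣ i * b1 - 1)
    (h : ∀ k : ℤ, Ge1 j (b1 + k * κ)) : InZ κ := by
  set d : ℤ := (κ.den : ℤ) with hd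
  set c : ℤ := κ.num with hc
  have hd0 : 0 < d := by rw [hd]; exact_mod_cast κ.den_pos
  have hcd : IsCoprime c d := by
    rw [Int.isCoprime_iff_gcd_eq_one, Int.gcd_eq_natAbs, hd, Int.natAbs_natCast]
    exact κ.reduced
  have hκ : κ = (c : ℚ) / d := by
    rw [hc, hd]
    push_cast
    exact (Rat.num_div_den κ).symm
  obtain ⟨k, hk, hk'⟩ := exists_cop_part j d hj.ne'
  obtain ⟨P, Q, hQ, hPQ, hcop, h1, h2⟩ := (h k).cast
  have hP : 0 < P := lt_of_lt_of_le hQ hPQ
  have hPr : (P : ℚ) ≠ 0 := by exact_mod_cast hP.ne'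
  have hdr : (d : ℚ) ≠ 0 := by exact_mod_cast hd0.ne'
  -- `P ∣ j`
  have h3 : P ∣ j * Q := by
    rw [← inZ_div hP.ne']
    push_cast
    exact h1
  have h4 : P ∣ j := hcop.dvd_of_dvd_mul_right h3
  -- `d P ∣ (b1 d + k c) Q`
  have h5 : d * P ∣ (b1 * d + k * c) * Q := by
    rw [← inZ_div (mul_pos hd0 hP).ne']
    have e : (((b1 * d + k * c) * Q : ℤ) : ℚ) / ((d * P : ℤ) : ℚ) = (b1 + k * κ) * Q / P := by
      rw [hκ]
      push_cast
      field_simp
    rw [e]
    exact h2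
  have hcd2 : IsCoprime d (b1 * d + k * c) := by
    have h6 : IsCoprime d (k * c) := (hk.symm).mul_right hcd.symm
    have := h6.add_mul_left_right b1
    rw [add_comm, mul_comm d b1] at this
    exact this
  have h6 : d ∣ Q := hcd2.dvd_of_dvd_mul_left ((Dvd.intro _ rfl : d ∣ d * P).trans h5)
  have h7 : P ∣ b1 * d + k * c :=
    hcop.dvd_of_dvd_mul_right ((Dvd.intro_left _ rfl : P ∣ d * P).trans h5)
  have h8 : P = 1 := by
    by_contra hne
    have h9 : P.natAbs ≠ 1 := by omega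
    obtain ⟨p, hp, hpP⟩ := Nat.exists_prime_and_dvd h9
    have hpP' : (p : ℤ) ∣ P := Int.natCast_dvd.2 hpP
    have hp' : Prime (p : ℤ) := Nat.prime_iff_prime_int.1 hp
    have hpd : ¬ (p : ℤ) ∣ d := by
      intro h10
      have h11 : (p : ℤ) ∣ Q := h10.trans h6
      have h12 : IsUnit (p : ℤ) := hcop.isUnit_of_dvd' hpP' h11
      exact hp'.not_isUnit h12
    have h10 : (p : ℤ) ∣ k := hk' p hp' (hpP'.trans h4) hpd
    have h11 : (p : ℤ) ∣ b1 * d := by
      have := dvd_sub (hpP'.trans h7) (Dvd.dvd.mul_right h10 c)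
      simpa using this
    rcases hp'.dvd_or_dvd h11 with h12 | h12
    · have h13 : (p : ℤ) ∣ i * b1 - 1 := (hpP'.trans h4).trans hb
      have h14 : (p : ℤ) ∣ 1 := by
        have := dvd_sub (Dvd.dvd.mul_left h12 i) h13
        simpa using this
      exact hp'.not_isUnit (isUnit_of_dvd_one h14)
    · exact hpd h12
  have h9 : Q = 1 := by omega
  have h10 : d = 1 := by
    have h11 : d ∣ 1 := by rw [← h9]; exact h6
    have := Int.le_of_dvd one_pos h11
    omega
  exact ⟨c, by rw [hκ, h10]; simp⟩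

/-- the integral data of a rational pair `T`, `ζ` -/
theorem rect_cop {i j : ℤ} {ζ T : ℚ} (hij : IsCoprime i j)
    (hF : InZ (ζ * i)) (hFT : InZ (ζ * i * T)) (hκ : InZ ((j + T) * (ζ - 1))) :
    IsCoprime (T.den : ℤ) (ζ.den : ℤ) ∧ ((T.den * ζ.den : ℕ) : ℤ) ∣ i ∧
      IsCoprime ((T.den * ζ.den : ℕ) : ℤ) (ζ.num * T.num) := by
  set n : ℤ := (T.den : ℤ) with hn
  set t : ℤ := T.num with ht
  set n' : ℤ := (ζ.den : ℤ) with hn'
  set z : ℤ := ζ.num with hz
  have hn0 : 0 < n := by rw [hn]; exact_mod_cast T.den_pos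
  have hn'0 : 0 < n' := by rw [hn']; exact_mod_cast ζ.den_pos
  have hnr : (n : ℚ) ≠ 0 := by exact_mod_cast hn0.ne'
  have hn'r : (n' : ℚ) ≠ 0 := by exact_mod_cast hn'0.ne'
  have htn : IsCoprime t n := by
    rw [Int.isCoprime_iff_gcd_eq_one, Int.gcd_eq_natAbs, hn, Int.natAbs_natCast]
    exact T.reduced
  have hzn : IsCoprime z n' := by
    rw [Int.isCoprime_iff_gcd_eq_one, Int.gcd_eq_natAbs, hn', Int.natAbs_natCast]
    exact ζ.reduced
  have hT : T = (t : ℚ) / n := by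
    rw [ht, hn]; push_cast; exact (Rat.num_div_den T).symm
  have hζ : ζ = (z : ℚ) / n' := by
    rw [hz, hn']; push_cast; exact (Rat.num_div_den ζ).symm
  -- `n' ∣ i`
  have h1 : n' ∣ z * i := by
    rw [← inZ_div hn'0.ne']
    have e : ((z * i : ℤ) : ℚ) / (n' : ℚ) = ζ * i := by
      rw [hζ]; push_cast; field_simp
    rw [e]; exact hF
  have h2 : n' ∣ i := hzn.symm.dvd_of_dvd_mul_left h1
  -- `n n' ∣ (j n + t) (z - n')`
  have h3 : n * n' ∣ (j * n + t) * (z - n') := by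
    rw [← inZ_div (mul_pos hn0 hn'0).ne']
    have e : (((j * n + t) * (z - n') : ℤ) : ℚ) / ((n * n' : ℤ) : ℚ) = (j + T) * (ζ - 1) := by
      rw [hζ, hT]; push_cast; field_simp
    rw [e]; exact hκ
  have h4 : IsCoprime n (j * n + t) := by
    have := htn.symm.add_mul_left_right j
    rw [add_comm, mul_comm n j] at this
    exact this
  have h5 : n ∣ z - n' := h4.dvd_of_dvd_mul_left ((Dvd.intro _ rfl : n ∣ n * n').trans h3)
  have h6 : IsCoprime n' (z - n') := by
    have := hzn.symm.add_mul_left_right (-1)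
    rw [mul_neg, mul_one, ← sub_eq_add_neg] at this
    exact this
  have h7 : n' ∣ j * n + t :=
    h6.dvd_of_dvd_mul_right ((Dvd.intro_left _ rfl : n' ∣ n * n').trans h3)
  -- `n` and `z` are coprime, `n` and `n'` are coprime
  obtain ⟨s, hs⟩ := h5
  have h8 : IsCoprime n n' := by
    -- common divisors divide `z`
    rw [Int.isCoprime_iff_gcd_eq_one]
    by_contra hne
    obtain ⟨p, hp, hpg⟩ := Nat.exists_prime_and_dvd hne
    have a1 : (p : ℤ) ∣ n := (Int.natCast_dvd_natCast.2 hpg).trans (Int.gcd_dvd_left ..)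
    have a2 : (p : ℤ) ∣ n' := (Int.natCast_dvd_natCast.2 hpg).trans (Int.gcd_dvd_right ..)
    have a3 : (p : ℤ) ∣ z := by
      have : z = n * s + n' := by linarith
      rw [this]
      exact dvd_add (Dvd.dvd.mul_right a1 s) a2
    exact (Nat.prime_iff_prime_int.1 hp).not_isUnit (hzn.isUnit_of_dvd' a3 a2)
  have h9 : IsCoprime n z := by
    have : z = n' + n * s := by linarith
    rw [this]
    exact h8.add_mul_left_right s
  -- `n ∣ i`
  have h10 : n * n' ∣ z * i * t := by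
    rw [← inZ_div (mul_pos hn0 hn'0).ne']
    have e : ((z * i * t : ℤ) : ℚ) / ((n * n' : ℤ) : ℚ) = ζ * i * T := by
      rw [hζ, hT]; push_cast; field_simp
    rw [e]; exact hFT
  have h11 : n ∣ i := by
    have a1 : n ∣ z * i * t := (Dvd.intro _ rfl : n ∣ n * n').trans h10
    exact h9.dvd_of_dvd_mul_left (htn.symm.dvd_of_dvd_mul_right a1)
  have h12 : n * n' ∣ i := h8.mul_dvd h11 h2
  -- `n'` and `t` are coprime
  have h13 : IsCoprime n' t := by
    rw [Int.isCoprime_iff_gcd_eq_one]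
    by_contra hne
    obtain ⟨p, hp, hpg⟩ := Nat.exists_prime_and_dvd hne
    have hp' := Nat.prime_iff_prime_int.1 hp
    have a1 : (p : ℤ) ∣ n' := (Int.natCast_dvd_natCast.2 hpg).trans (Int.gcd_dvd_left ..)
    have a2 : (p : ℤ) ∣ t := (Int.natCast_dvd_natCast.2 hpg).trans (Int.gcd_dvd_right ..)
    have a3 : (p : ℤ) ∣ j * n := by
      have := dvd_sub (a1.trans h7) a2
      simpa using this
    rcases hp'.dvd_or_dvd a3 with a4 | a4
    · exact hp'.not_isUnit (hij.isUnit_of_dvd' (a1.trans h2) a4)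
    · exact hp'.not_isUnit (h8.isUnit_of_dvd' a4 a1)
  have e : ((T.den * ζ.den : ℕ) : ℤ) = n * n' := by rw [hn, hn']; push_cast; ring
  rw [e]
  refine ⟨h8, h12, ?_⟩
  exact IsCoprime.mul_left (h9.mul_right htn.symm) (hzn.symm.mul_right h13)

/-- **S5, one centre.** The vector with `f₂ = b = m p ^ k`, `f₁ = ζ (b i - j)` is no centre, if
`p ∣ r = n n'` and `m < r`. -/
theorem no_centre {i j : ℤ} {ζ T : ℚ} (hij : IsCoprime i j)
    (hF : InZ (ζ * i)) (hFT : InZ (ζ * i * T)) (hκ : InZ ((j + T) * (ζ - 1)))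
    {b : ℤ} (hK : Ge1 b (ζ * (b * i - j) * T)) {m p : ℤ} {k : ℕ} (hb : b = m * p ^ k)
    (hp : p ∣ ((T.den * ζ.den : ℕ) : ℤ)) (hm : 0 < m) : ((T.den * ζ.den : ℕ) : ℤ) ≤ m := by
  obtain ⟨c1, c2, c3⟩ := rect_cop hij hF hFT hκ
  set r : ℤ := ((T.den * ζ.den : ℕ) : ℤ) with hr
  set t : ℤ := T.num with ht
  set z : ℤ := ζ.num with hz
  have hr0 : 0 < r := by
    rw [hr]
    exact_mod_cast Nat.mul_pos T.den_pos ζ.den_pos
  obtain ⟨P, Q, hQ, hPQ, hcop, h1, h2⟩ := hK.cast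
  have hP : 0 < P := lt_of_lt_of_le hQ hPQ
  have hPr : (P : ℚ) ≠ 0 := by exact_mod_cast hP.ne'
  have hrr : (r : ℚ) ≠ 0 := by exact_mod_cast hr0.ne'
  -- `P ∣ b`
  have h3 : P ∣ b := by
    refine hcop.dvd_of_dvd_mul_right (?_ : P ∣ b * Q)
    rw [← inZ_div hP.ne']
    push_cast
    exact h1
  -- `r P ∣ z t a Q`
  have h4 : r * P ∣ z * t * (b * i - j) * Q := by
    rw [← inZ_div (mul_pos hr0 hP).ne']
    have e : ((z * t * (b * i - j) * Q : ℤ) : ℚ) / ((r * P : ℤ) : ℚ) =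
        ζ * (b * i - j) * T * Q / P := by
      have e1 : ζ = (z : ℚ) / (ζ.den : ℚ) := by rw [hz]; exact (Rat.num_div_den ζ).symm
      have e2 : T = (t : ℚ) / (T.den : ℚ) := by rw [ht]; exact (Rat.num_div_den T).symm
      have e3 : (ζ.den : ℚ) ≠ 0 := by exact_mod_cast ζ.den_pos.ne'
      have e4 : (T.den : ℚ) ≠ 0 := by exact_mod_cast T.den_pos.ne'
      have e5 : (r : ℚ) = (T.den : ℚ) * (ζ.den : ℚ) := by rw [hr]; push_cast; ring
      push_cast
      rw [e5]
      conv_rhs => rw [e1, e2]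
      field_simp
    rw [e]
    exact h2
  have h5 : IsCoprime r (b * i - j) := by
    -- `r ∣ i` and `i`, `j` are coprime
    have a1 : IsCoprime r j := hij.of_isCoprime_of_dvd_left c2
    obtain ⟨s, hs⟩ := c2
    have a2 : b * i - j = -j + r * (b * s) := by rw [hs]; ring
    rw [a2]
    exact a1.neg_right.add_mul_left_right (b * s)
  have h6 : r ∣ Q := by
    have a1 : r ∣ z * t * (b * i - j) * Q := (Dvd.intro _ rfl : r ∣ r * P).trans h4
    exact (c3.mul_right h5).dvd_of_dvd_mul_left a1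
  have h7 : P ∣ m := by
    have a1 : IsCoprime P (p ^ k) := (hcop.of_isCoprime_of_dvd_right (hp.trans h6)).pow_right
    rw [hb] at h3
    exact a1.dvd_of_dvd_mul_right h3
  have h8 := Int.le_of_dvd hm h7
  have h9 := Int.le_of_dvd hQ h6
  omega

section

variable {i j : ℤ} {ζ T : ℚ}

/-- the centres of the first turn -/
theorem no_first (hij : IsCoprime i j)
    (hF : InZ (ζ * i)) (hFT : InZ (ζ * i * T)) (hκ : InZ ((j + T) * (ζ - 1)))
    (hK : ∀ a b : ℤ, 0 < a → 0 < b → j ∣ a - i * b → ζ * a + b < ζ * j → Ge1 b (ζ * a * T))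
    {b m p : ℤ} {k : ℕ} (hb : b = m * p ^ k) (hb0 : 0 < b)
    (hp : p ∣ ((T.den * ζ.den : ℕ) : ℤ)) (hm : 0 < m) (hmr : m < ((T.den * ζ.den : ℕ) : ℤ))
    (h1 : j < b * i) (h2 : b * (ζ * i + 1) < 2 * (ζ * j)) : False := by
  have h3 : Ge1 b (ζ * ((b * i - j : ℤ) : ℚ) * T) := by
    refine hK (b * i - j) b (by linarith) hb0 ⟨-1, by ring⟩ ?_
    push_cast
    linarith
  have h4 : Ge1 b (ζ * (b * i - j) * T) := by
    push_cast at h3
    exact h3
  exact absurd (no_centre hij hF hFT hκ h4 hb hp hm) (not_le.2 hmr)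

/-- the numbers `(y + 1) p ^ e` with `y ≥ 2` -/
theorem no_gap (hi : 0 < i) (hij : IsCoprime i j) (hζ : 1 ≤ ζ)
    (hF : InZ (ζ * i)) (hFT : InZ (ζ * i * T)) (hκ : InZ ((j + T) * (ζ - 1)))
    (hK : ∀ a b : ℤ, 0 < a → 0 < b → j ∣ a - i * b → ζ * a + b < ζ * j → Ge1 b (ζ * a * T))
    {y p : ℤ} {e : ℕ} (hp2 : 2 ≤ p) (hp : p ∣ ((T.den * ζ.den : ℕ) : ℤ)) (hy : 2 ≤ y)
    (hyr : y + 1 ≤ ((T.den * ζ.den : ℕ) : ℤ)) (h1 : y * p ^ e * i < j)
    (h2 : j < (y + 1) * p ^ e * i) : False := by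
  obtain ⟨-, c2, -⟩ := rect_cop hij hF hFT hκ
  have hri := Int.le_of_dvd hi c2
  have hpe : 0 < p ^ e := by positivity
  set b : ℤ := (y + 1) * p ^ e with hb
  have hb0 : 0 < b := by positivity
  have h3 : 2 * (b * i) < 3 * j := by
    have a1 : 2 * ((y + 1) * p ^ e * i) ≤ 3 * (y * p ^ e * i) := by
      have a2 : 0 ≤ (y - 2) * (p ^ e * i) := by
        have : 0 ≤ y - 2 := by linarith
        positivity
      nlinarith
    rw [hb]
    linarith
  have h4 : (b : ℚ) * (ζ * i + 1) < 2 * (ζ * j) := by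
    have a1 : (2 : ℚ) * (b * i) < 3 * j := by exact_mod_cast h3
    have a2 : (3 : ℚ) ≤ i := by
      have : (3 : ℤ) ≤ i := by linarith
      exact_mod_cast this
    have a3 : (0 : ℚ) < b := by exact_mod_cast hb0
    have a4 : (0 : ℚ) < ζ := by linarith
    have a5 : (3 : ℚ) ≤ ζ * i := by nlinarith
    have a6 : 3 * (b : ℚ) ≤ ζ * (b * i) := by nlinarith
    have a7 : ζ * (2 * (b * i)) < ζ * (3 * j) := mul_lt_mul_of_pos_left a1 a4
    nlinarith
  rcases lt_or_eq_of_le hyr with h5 | h5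
  · exact no_first hij hF hFT hκ hK (m := y + 1) (p := p) (k := e) hb hb0 hp (by linarith) h5 h2 h4
  · obtain ⟨m, hm⟩ := hp
    have hm0 : 0 < m := by
      have : 0 < p * m := by rw [← hm, ← h5]; linarith
      exact (pos_iff_pos_of_mul_pos this).1 (by linarith)
    refine no_first hij hF hFT hκ hK (m := m) (p := p) (k := e + 1) ?_ hb0 ⟨m, hm⟩ hm0 ?_ h2 h4
    · rw [hb, h5, hm]; ring
    · rw [hm]; nlinarith

/-- two consecutive multiples around `j` -/
theorem exists_floor {c : ℤ} (hc : 0 < c) (hne : ¬ c ∣ j) :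
    ∃ y : ℤ, y * c < j ∧ j < (y + 1) * c := by
  refine ⟨j / c, ?_, ?_⟩
  · have h1 := Int.ediv_mul_le j hc.ne'
    rcases lt_or_eq_of_le h1 with h2 | h2
    · exact h2
    · exact absurd ⟨j / c, by linarith [mul_comm c (j / c)]⟩ hne
  · exact Int.lt_ediv_add_one_mul_self j hc

/-- the largest power -/
theorem exists_pow_lt {p : ℤ} (hp : 2 ≤ p) (hi : 0 < i) (hij : i < j) :
    ∃ e : ℕ, p ^ e * i < j ∧ j ≤ p ^ (e + 1) * i := by
  have h1 : ∃ n : ℕ, j ≤ p ^ n * i := by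
    refine ⟨j.toNat, ?_⟩
    have a1 : (j.toNat : ℤ) < p ^ j.toNat := by
      have a2 : j.toNat < 2 ^ j.toNat := Nat.lt_two_pow_self
      have a3 : (2 : ℤ) ^ j.toNat ≤ p ^ j.toNat := pow_le_pow_left₀ (by norm_num) hp _
      have a4 : ((j.toNat : ℕ) : ℤ) < (2 : ℤ) ^ j.toNat := by exact_mod_cast a2
      linarith
    have a2 : j ≤ (j.toNat : ℤ) := Int.self_le_toNat j
    nlinarith
  classical
  have h2 := Nat.find_spec h1
  rcases Nat.eq_zero_or_pos (Nat.find h1) with h3 | h3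
  · rw [h3] at h2
    simp at h2
    omega
  · refine ⟨Nat.find h1 - 1, ?_, ?_⟩
    · have := Nat.find_min h1 (m := Nat.find h1 - 1) (by omega)
      linarith
    · rwa [Nat.sub_add_cancel h3]

/-- **S5.** The thin family. -/
theorem rect_thin (hi : 0 < i) (hij : IsCoprime i j) (hζ : 1 ≤ ζ)
    (hF : InZ (ζ * i)) (hFw : ζ * i + 1 < ζ * j) (hFT : InZ (ζ * i * T))
    (hκ : InZ ((j + T) * (ζ - 1)))
    (hK : ∀ a b : ℤ, 0 < a → 0 < b → j ∣ a - i * b → ζ * a + b < ζ * j → Ge1 b (ζ * a * T))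
    {r : ℕ} (hr : r = T.den * ζ.den) (hr2 : 2 ≤ r) :
    r.Prime ∧ (r : ℤ) ∣ i ∧ ¬ (r : ℤ) ∣ j ∧
      ((T.den = r ∧ ζ.den = 1) ∨ (T.den = 1 ∧ ζ.den = r)) ∧
      ∃ k : ℕ, 1 ≤ k ∧ (r : ℤ) ^ k * i < j ∧ ζ * (j - (r : ℚ) ^ k * i) < (r : ℚ) ^ k := by
  obtain ⟨-, c2, c3⟩ := rect_cop hij hF hFT hκ
  have hrz : ((T.den * ζ.den : ℕ) : ℤ) = (r : ℤ) := by rw [hr]
  rw [hrz] at c2 c3
  have hri := Int.le_of_dvd hi c2
  have hr2' : (2 : ℤ) ≤ r := by exact_mod_cast hr2
  have hi2 : 2 ≤ i := by linarith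
  have hnd : ∀ c : ℤ, i ∣ c → ¬ c ∣ j := by
    intro c h1 h2
    have h3 : IsUnit i := hij.isUnit_of_dvd' dvd_rfl (h1.trans h2)
    rcases Int.isUnit_iff.1 h3 with h4 | h4 <;> omega
  obtain ⟨p0, hp0, hp0r⟩ := Nat.exists_prime_and_dvd (show r ≠ 1 by omega)
  have hp0r' : (p0 : ℤ) ∣ r := Int.natCast_dvd_natCast.2 hp0r
  -- `2 i < j`
  have h2i : 2 * i < j := by
    by_contra hc
    push Not at hc
    have h1 : j < 2 * i := by
      rcases lt_or_eq_of_le hc with h | h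
      · exact h
      · exact absurd ⟨1, by linarith⟩ (hnd (2 * i) ⟨2, by ring⟩)
    have h2 : ((2 : ℤ) : ℚ) * (ζ * i + 1) < 2 * (ζ * j) := by push_cast; linarith
    rcases lt_or_eq_of_le hr2 with h3 | h3
    · refine no_first hij hF hFT hκ hK (b := 2) (m := 2) (p := p0) (k := 0) (by simp) (by norm_num)
        (by rw [hrz]; exact hp0r') (by norm_num) (by rw [hrz]; exact_mod_cast h3) h1 h2
    · refine no_first hij hF hFT hκ hK (b := 2) (m := 1) (p := 2) (k := 1) (by simp) (by norm_num)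
        (by rw [hrz, ← h3]; norm_num) (by norm_num) (by rw [hrz, ← h3]; norm_num) h1 h2
  have hgap : ∀ (y p : ℤ) (e : ℕ), 2 ≤ p → p ∣ (r : ℤ) → 2 ≤ y → y + 1 ≤ (r : ℤ) →
      y * p ^ e * i < j → j < (y + 1) * p ^ e * i → False := by
    intro y p e a1 a2 a3 a4 a5 a6
    exact no_gap hi hij hζ hF hFT hκ hK a1 (by rw [hrz]; exact a2) a3 (by rw [hrz]; exact a4) a5 a6
  -- the power below `j / i`
  have hpow : ∀ p : ℕ, p.Prime → p ∣ r → ∃ e : ℕ, 1 ≤ e ∧ (p : ℤ) ^ e * i < j ∧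
      j < 2 * (p : ℤ) ^ e * i := by
    intro p hp hpr
    have hp2 : (2 : ℤ) ≤ p := by exact_mod_cast hp.two_le
    have hpr' : (p : ℤ) ∣ r := Int.natCast_dvd_natCast.2 hpr
    have hple : (p : ℤ) ≤ r := Int.le_of_dvd (by linarith) hpr'
    obtain ⟨e, he1, he2⟩ := exists_pow_lt hp2 hi (show i < j by linarith)
    have hpe : 0 < (p : ℤ) ^ e := by positivity
    obtain ⟨y, hy1, hy2⟩ := exists_floor (c := (p : ℤ) ^ e * i) (by positivity)
      (hnd _ ⟨(p : ℤ) ^ e, by ring⟩)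
    have hy0 : 1 ≤ y := by
      by_contra hc
      push Not at hc
      have : (y + 1) * ((p : ℤ) ^ e * i) ≤ 1 * ((p : ℤ) ^ e * i) := by
        apply mul_le_mul_of_nonneg_right (by linarith) (by positivity)
      linarith
    have hyp : y + 1 ≤ p := by
      by_contra hc
      push Not at hc
      have h3 : (p : ℤ) * ((p : ℤ) ^ e * i) ≤ y * ((p : ℤ) ^ e * i) := by
        apply mul_le_mul_of_nonneg_right (by linarith) (by positivity)
      have h4 : (p : ℤ) ^ (e + 1) * i = p * ((p : ℤ) ^ e * i) := by ring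
      linarith
    have hy : y = 1 := by
      by_contra hc
      exact hgap y p e hp2 hpr' (by omega) (by linarith) (by linarith) (by linarith)
    rw [hy] at hy2
    refine ⟨e, ?_, he1, by linarith⟩
    by_contra hc
    have : e = 0 := by omega
    rw [this] at hy2
    simp at hy2
    linarith
  -- `r` is a prime number
  have hprime : r.Prime := by
    obtain ⟨r1, hr1⟩ := hp0r
    have hr1p : 0 < r1 := by
      rcases Nat.eq_zero_or_pos r1 with h | h
      · rw [h] at hr1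
        omega
      · exact h
    rcases Nat.lt_or_ge 1 r1 with h1 | h1
    · exfalso
      obtain ⟨e, he, he1, he2⟩ := hpow p0 hp0 ⟨r1, hr1⟩
      have hp2 : (2 : ℤ) ≤ p0 := by exact_mod_cast hp0.two_le
      have hpe : 0 < (p0 : ℤ) ^ (e - 1) := by positivity
      have e1 : (p0 : ℤ) ^ e = (p0 : ℤ) ^ (e - 1) * p0 := by
        rw [← pow_succ, Nat.sub_add_cancel he]
      rw [e1] at he1 he2
      obtain ⟨y, hy1, hy2⟩ := exists_floor (c := (p0 : ℤ) ^ (e - 1) * i) (by positivity)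
        (hnd _ ⟨(p0 : ℤ) ^ (e - 1), by ring⟩)
      have hc0 : 0 < (p0 : ℤ) ^ (e - 1) * i := by positivity
      have hy3 : (p0 : ℤ) ≤ y := by
        by_contra hc
        push Not at hc
        have : (y + 1) * ((p0 : ℤ) ^ (e - 1) * i) ≤ p0 * ((p0 : ℤ) ^ (e - 1) * i) := by
          apply mul_le_mul_of_nonneg_right (by linarith) (by positivity)
        nlinarith
      have hy4 : y + 1 ≤ 2 * (p0 : ℤ) := by
        by_contra hc
        push Not at hc
        have : (2 * (p0 : ℤ)) * ((p0 : ℤ) ^ (e - 1) * i) ≤ y * ((p0 : ℤ) ^ (e - 1) * i) := by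
          apply mul_le_mul_of_nonneg_right (by linarith) (by positivity)
        nlinarith
      have hr3 : 2 * (p0 : ℤ) ≤ r := by
        have : 2 * p0 ≤ r := by rw [hr1]; nlinarith
        exact_mod_cast this
      exact hgap y p0 (e - 1) hp2 hp0r' (by linarith) (by linarith) (by linarith) (by linarith)
    · have : r1 = 1 := by omega
      rw [hr1, this, mul_one]
      exact hp0
  have hp' : Prime (r : ℤ) := Nat.prime_iff_prime_int.1 hprime
  have hrj : ¬ (r : ℤ) ∣ j := fun h => hp'.not_isUnit (hij.isUnit_of_dvd' c2 h)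
  refine ⟨hprime, c2, hrj, ?_, ?_⟩
  · have h1 : (T.den * ζ.den).Prime := by rw [← hr]; exact hprime
    rcases Nat.prime_mul_iff.1 h1 with ⟨h2, h3⟩ | ⟨h2, h3⟩
    · left
      exact ⟨by rw [hr, h3, mul_one], h3⟩
    · right
      exact ⟨h3, by rw [hr, h3, one_mul]⟩
  · obtain ⟨k, hk, hk1, hk2⟩ := hpow r hprime dvd_rfl
    refine ⟨k, hk, hk1, ?_⟩
    have hpk : 0 < (r : ℤ) ^ k := by positivity
    by_contra hc
    push Not at hc
    rcases lt_or_eq_of_le hc with h1 | h1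
    · -- `b = 2 p ^ k` is a centre
      have h2 : ((2 * (r : ℤ) ^ k : ℤ) : ℚ) * (ζ * i + 1) < 2 * (ζ * j) := by
        push_cast
        nlinarith
      rcases lt_or_eq_of_le hr2 with h3 | h3
      · refine no_first hij hF hFT hκ hK (b := 2 * (r : ℤ) ^ k) (m := 2) (p := r) (k := k) rfl
          (by positivity) (by rw [hrz]) (by norm_num) (by rw [hrz]; exact_mod_cast h3) hk2 h2
      · refine no_first hij hF hFT hκ hK (b := 2 * (r : ℤ) ^ k) (m := 1) (p := r) (k := k + 1) ?_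
          (by positivity) (by rw [hrz]) (by norm_num) (by rw [hrz]; linarith) hk2 h2
        have e1 : (r : ℤ) = 2 := by exact_mod_cast h3.symm
        rw [e1]
        ring
    · -- `ζ δ = p ^ k`
      have e1 : ζ = (ζ.num : ℚ) / (ζ.den : ℚ) := (Rat.num_div_den ζ).symm
      have e2 : (ζ.den : ℚ) ≠ 0 := by exact_mod_cast ζ.den_pos.ne'
      have h2 : ζ.num * (j - (r : ℤ) ^ k * i) = (r : ℤ) ^ k * ζ.den := by
        have h3 : ((ζ.num * (j - (r : ℤ) ^ k * i) : ℤ) : ℚ) = (((r : ℤ) ^ k * ζ.den : ℤ) : ℚ) := by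
          rw [e1, div_mul_eq_mul_div, eq_div_iff e2] at h1
          push_cast
          linarith
        exact_mod_cast h3
      have h3 : (r : ℤ) ∣ ζ.num * (j - (r : ℤ) ^ k * i) := by
        rw [h2]
        exact Dvd.dvd.mul_right (dvd_pow_self _ (by omega)) _
      rcases hp'.dvd_or_dvd h3 with h4 | h4
      · exact hp'.not_isUnit (c3.isUnit_of_dvd' dvd_rfl (Dvd.dvd.mul_right h4 _))
      · refine hrj ?_
        have := dvd_add h4 (Dvd.dvd.mul_right (dvd_pow_self (r : ℤ) (show k ≠ 0 by omega)) i)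
        simpa using this

end

end Pool.Agent.H4G.Six
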