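import Pool.Agent.H4G.Six.RC14

/-!
# Spacing one, the row of a centre with `u × m = r` (helper37)

`dvd_of_gcd_ge`: an integer lemma. `RC.rowM`: at a tree with `u × m = r` all vectors `m'` of the
first row of `M` have `gcd (l × m', (u + q) × m') ≥ r`.
-/

set_option autoImplicit false

namespace Pool.Agent.H4G.Six

open Pool.Agent.H4G

/-- the gcd lemma behind the boundary case -/
theorem dvd_of_gcd_ge {r P Q : ℤ} (hr : 0 < r) (hQ : Q ≠ 0)
    (h : ∀ t : ℤ, r ≤ Int.gcd (t * Q) (r - t * P)) : r ∣ P ∧ r ∣ Q := by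
  have key : ∀ p : ℕ, p.Prime → ∀ e : ℕ, ∀ r' : ℤ, r = (p : ℤ) ^ e * r' → ¬ (p : ℤ) ∣ r' →
      ((p : ℤ) ^ e ∣ P) ∧ ((p : ℤ) ^ e ∣ Q) := by
    intro p hp e r' h1 h2
    have hpz : Prime (p : ℤ) := Nat.prime_iff_prime_int.1 hp
    have hfin : FiniteMultiplicity (p : ℤ) Q := by
      rw [Int.finiteMultiplicity_iff]
      refine ⟨?_, hQ⟩
      rw [Int.natAbs_natCast]
      exact hp.one_lt.ne'
    obtain ⟨Q', h3, h4⟩ := hfin.exists_eq_pow_mul_and_not_dvd
    obtain ⟨k, hk⟩ : ∃ k : ℕ, k = multiplicity (p : ℤ) Q := ⟨_, rfl⟩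
    rw [← hk] at h3
    have hr' : 0 < r' := by
      have : (0 : ℤ) < (p : ℤ) ^ e := by positivity [hp.pos]
      rw [h1] at hr
      exact (pos_iff_pos_of_mul_pos hr).1 this
    have h5 := h (r' * Q')
    have e1 : r' * Q' * Q = r' * (Q' * Q) := by ring
    have e2 : r - r' * Q' * P = r' * ((p : ℤ) ^ e - Q' * P) := by rw [h1]; ring
    rw [e1, e2, Int.gcd_mul_left] at h5
    push_cast at h5
    rw [abs_of_pos hr', h1, mul_comm ((p : ℤ) ^ e) r'] at h5
    have h6 : (p : ℤ) ^ e ≤ Int.gcd (Q' * Q) ((p : ℤ) ^ e - Q' * P) :=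
      le_of_mul_le_mul_left h5 hr'
    obtain ⟨g, hg⟩ : ∃ g : ℕ, g = Int.gcd (Q' * Q) ((p : ℤ) ^ e - Q' * P) := ⟨_, rfl⟩
    rw [← hg] at h6
    have g1 : (g : ℤ) ∣ Q' * Q := by rw [hg]; exact Int.gcd_dvd_left _ _
    have g2 : (g : ℤ) ∣ (p : ℤ) ^ e - Q' * P := by rw [hg]; exact Int.gcd_dvd_right _ _
    -- `g` is prime to `Q'`
    have c1 : IsCoprime (g : ℤ) Q' := by
      rw [Int.isCoprime_iff_gcd_eq_one]
      by_contra hc
      obtain ⟨n, hn, hn'⟩ := Nat.exists_prime_and_dvd hc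
      have n1 : (n : ℤ) ∣ (g : ℤ) := (Int.natCast_dvd_natCast.2 hn').trans (Int.gcd_dvd_left _ _)
      have n2 : (n : ℤ) ∣ Q' := (Int.natCast_dvd_natCast.2 hn').trans (Int.gcd_dvd_right _ _)
      have n3 : (n : ℤ) ∣ (p : ℤ) ^ e := by
        have := dvd_add (n1.trans g2) (Dvd.dvd.mul_right n2 P)
        rwa [sub_add_cancel] at this
      have n4 : (n : ℤ) ∣ (p : ℤ) := (Nat.prime_iff_prime_int.1 hn).dvd_of_dvd_pow n3
      have n5 : n = p := (Nat.prime_dvd_prime_iff_eq hn hp).1 (Int.natCast_dvd_natCast.1 n4)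
      rw [n5] at n2
      exact h4 n2
    have g3 : (g : ℤ) ∣ (p : ℤ) ^ k := by
      have : (g : ℤ) ∣ (p : ℤ) ^ k * Q' := by
        rw [← h3]
        exact c1.dvd_of_dvd_mul_left g1
      exact c1.dvd_of_dvd_mul_right this
    obtain ⟨i, hi, hi'⟩ := (Nat.dvd_prime_pow hp).1 (by exact_mod_cast g3 : g ∣ p ^ k)
    have hei : e ≤ i := by
      rw [hi'] at h6
      exact (Nat.pow_le_pow_iff_right hp.one_lt).1 (by exact_mod_cast h6)
    have g4 : (p : ℤ) ^ e ∣ g := by
      rw [hi']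
      push_cast
      exact pow_dvd_pow _ hei
    refine ⟨?_, ?_⟩
    · have g5 : (p : ℤ) ^ e ∣ Q' * P := by
        have := dvd_sub (dvd_refl ((p : ℤ) ^ e)) (g4.trans g2)
        rwa [sub_sub_cancel] at this
      exact (IsCoprime.pow_left ((Prime.coprime_iff_not_dvd hpz).2 h4)).dvd_of_dvd_mul_left g5
    · rw [h3]
      exact Dvd.dvd.mul_right (pow_dvd_pow _ (hei.trans hi)) _
  have key2 : ∀ p k : ℕ, p.Prime → p ^ k ∣ r.natAbs → (p ^ k ∣ P.natAbs) ∧ (p ^ k ∣ Q.natAbs) := by
    intro p k hp hk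
    have hfin : FiniteMultiplicity (p : ℤ) r := by
      rw [Int.finiteMultiplicity_iff]
      refine ⟨?_, hr.ne'⟩
      rw [Int.natAbs_natCast]
      exact hp.one_lt.ne'
    obtain ⟨r', h3, h4⟩ := hfin.exists_eq_pow_mul_and_not_dvd
    obtain ⟨e, he⟩ : ∃ e : ℕ, e = multiplicity (p : ℤ) r := ⟨_, rfl⟩
    rw [← he] at h3
    obtain ⟨a1, a2⟩ := key p hp e r' h3 h4
    have hk' : (p : ℤ) ^ k ∣ r := by
      have := Int.natCast_dvd.2 hk
      push_cast at this
      exact this
    have hke : k ≤ e := by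
      rw [he]
      exact hfin.le_multiplicity_of_pow_dvd hk'
    have hpow : (p : ℤ) ^ k ∣ (p : ℤ) ^ e := pow_dvd_pow _ hke
    constructor
    · rw [← Int.natCast_dvd]
      push_cast
      exact hpow.trans a1
    · rw [← Int.natCast_dvd]
      push_cast
      exact hpow.trans a2
  constructor
  · rw [← Int.natAbs_dvd_natAbs, Nat.dvd_iff_prime_pow_dvd_dvd]
    exact fun p k hp hk => (key2 p k hp hk).1
  · rw [← Int.natAbs_dvd_natAbs, Nat.dvd_iff_prime_pow_dvd_dvd]
    exact fun p k hp hk => (key2 p k hp hk).2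

variable {X : Type} {O : PO X} {N r : ℤ} {u v l q m s U x l1 q1 m1 s1 : Z2}

/-- a vector `y = i • a + j • b` parallel to `m` with `(i, j)` coprime and `0 < u × y ≤ a × b` -/
theorem gcd_ge_of_par {a b u m y : Z2} {i j r A : ℤ} (hij : IsCoprime i j)
    (hy : y = i • a + j • b) (hA : cr b a = A) (hA0 : 0 < A) (h0 : cr y m = 0)
    (hum : cr u m = r) (hr : 0 < r) (h1 : 0 < cr u y) (h2 : cr u y ≤ A) :
    r ≤ Int.gcd (cr a m) (cr b m) := by
  -- `i (a × m) + j (b × m) = 0`
  have e0 : i * cr a m + j * cr b m = 0 := by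
    rw [← h0, hy]
    simp only [cr, Prod.fst_add, Prod.snd_add, Prod.smul_fst, Prod.smul_snd, smul_eq_mul]; ring
  obtain ⟨G, hG1, hG2⟩ : ∃ G : ℤ, cr a m = -(j * G) ∧ cr b m = i * G := by
    obtain ⟨c, d, hcd⟩ := hij
    refine ⟨c * cr b m - d * cr a m, ?_, ?_⟩
    · have : -(j * (c * cr b m - d * cr a m)) - cr a m = (c * i + d * j - 1) * cr a m -
          c * (i * cr a m + j * cr b m) := by ring
      rw [hcd, e0] at this
      linarith
    · have : i * (c * cr b m - d * cr a m) - cr b m = (c * i + d * j - 1) * cr b m -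
          d * (i * cr a m + j * cr b m) := by ring
      rw [hcd, e0] at this
      linarith
  have e1 : cr u y * cr a m = -(r * (j * A)) := by
    have f1 := cr_plucker u y a m
    rw [h0, mul_zero, hum] at f1
    have f2 : cr y a = j * A := by
      rw [hy, ← hA]
      simp only [cr, Prod.fst_add, Prod.snd_add, Prod.smul_fst, Prod.smul_snd, smul_eq_mul]; ring
    rw [f2] at f1
    linarith
  have e2 : cr u y * cr b m = r * (i * A) := by
    have f1 := cr_plucker u y b m
    rw [h0, mul_zero, hum] at f1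
    have f2 : cr y b = -(i * A) := by
      rw [hy, ← hA]
      simp only [cr, Prod.fst_add, Prod.snd_add, Prod.smul_fst, Prod.smul_snd, smul_eq_mul]; ring
    rw [f2] at f1
    linarith
  have e3 : cr u y * G = r * A := by
    rw [hG1] at e1
    rw [hG2] at e2
    obtain ⟨c, d, hcd⟩ := hij
    have : cr u y * G = (c * i + d * j) * (cr u y * G) := by rw [hcd, one_mul]
    rw [this]
    have f1 : (c * i + d * j) * (cr u y * G) = c * (cr u y * (i * G)) -
        d * (cr u y * -(j * G)) := by ring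
    rw [f1, e1, e2]
    have f2 : c * (r * (i * A)) - d * -(r * (j * A)) = (c * i + d * j) * (r * A) := by ring
    rw [f2, hcd, one_mul]
  have hG0 : 0 < G := by
    have : 0 < cr u y * G := by rw [e3]; positivity
    exact (pos_iff_pos_of_mul_pos this).1 h1
  have hGr : r ≤ G := by
    by_contra hc
    push Not at hc
    have f1 : cr u y * G < A * r :=
      lt_of_le_of_lt (mul_le_mul_of_nonneg_right h2 hG0.le) (mul_lt_mul_of_pos_left hc hA0)
    rw [e3] at f1
    linarith
  have hGg : G ∣ Int.gcd (cr a m) (cr b m) := by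
    refine Int.dvd_coe_gcd ?_ ?_
    · rw [hG1]; exact (Dvd.intro_left _ rfl : G ∣ j * G).neg_right
    · rw [hG2]; exact Dvd.intro_left _ rfl
  have hg0 : (0 : ℤ) < Int.gcd (cr a m) (cr b m) := by
    have : 0 < Int.gcd (cr a m) (cr b m) := by
      rcases Nat.eq_zero_or_pos (Int.gcd (cr a m) (cr b m)) with h | h
      · rw [Int.gcd_eq_zero_iff, hG1, hG2] at h
        exfalso
        obtain ⟨c, d, hcd⟩ := hij
        have hi : i = 0 := (mul_eq_zero.1 h.2).resolve_right hG0.ne'
        have hj : j = 0 := by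
          have := h.1
          have h3 : j * G = 0 := by linarith
          exact (mul_eq_zero.1 h3).resolve_right hG0.ne'
        rw [hi, hj] at hcd
        simp at hcd
      · exact h
    exact_mod_cast this
  exact hGr.trans (Int.le_of_dvd hg0 hGg)

/-- coordinates of a basis vector are coprime -/
theorem cop_of_lat {a b c d : Z2} (h : lat c d = lat a b) (h0 : cr a b ≠ 0) :
    ∃ i j : ℤ, IsCoprime i j ∧ c = i • a + j • b := by
  have hc : c ∈ lat a b := by
    rw [← h]
    exact AddSubgroup.subset_closure (by simp)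
  have hd : d ∈ lat a b := by
    rw [← h]
    exact AddSubgroup.subset_closure (by simp)
  have ha : a ∈ lat c d := by
    rw [h]
    exact AddSubgroup.subset_closure (by simp)
  have hb : b ∈ lat c d := by
    rw [h]
    exact AddSubgroup.subset_closure (by simp)
  obtain ⟨i, j, hij⟩ := mem_lat_coords hc
  obtain ⟨i', j', hij'⟩ := mem_lat_coords hd
  obtain ⟨k, n, hkn⟩ := mem_lat_coords ha
  obtain ⟨k', n', hkn'⟩ := mem_lat_coords hb
  refine ⟨i, j, ?_, hij⟩
  have e1 : cr c d = (i * j' - j * i') * cr a b := by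
    rw [hij, hij']
    simp only [cr, Prod.fst_add, Prod.snd_add, Prod.smul_fst, Prod.smul_snd, smul_eq_mul]; ring
  have e2 : cr a b = (k * n' - n * k') * cr c d := by
    conv_lhs => rw [hkn, hkn']
    simp only [cr, Prod.fst_add, Prod.snd_add, Prod.smul_fst, Prod.smul_snd, smul_eq_mul]; ring
  rw [e1, ← mul_assoc] at e2
  have e3 : (k * n' - n * k') * (i * j' - j * i') = 1 := by
    have : ((k * n' - n * k') * (i * j' - j * i') - 1) * cr a b = 0 := by linarith
    have := (mul_eq_zero.1 this).resolve_right h0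
    linarith
  exact ⟨(k * n' - n * k') * j', -((k * n' - n * k') * i'), by linarith⟩

/-- THE ROW of a centre with `u × m = r` -/
theorem RC.rowM (h : RC O N r) (hT : Has6 O (u, v, l, q, m, s))
    (hN : vol6 (u, v, l, q, m, s) = N) (hum : cr u m = r) : ∃ k : ℤ, cr u s = k * r ∧
      ∀ t : ℤ, r ≤ Int.gcd (cr l (m + t • (u + s - k • m)))
        (cr (u + q) (m + t • (u + s - k • m))) := by
  obtain ⟨p1, p2, p3, p4, p5⟩ := hT.pos
  have hr : 0 < r := by rw [← hum]; exact p3
  have hc := h.contM hT hN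
  have hd : ct u m s ∣ r := by rw [← hum]; exact ct_dvd_left
  have he : ct u m s = r := le_antisymm (Int.le_of_dvd hr hd) hc
  obtain ⟨k, hk⟩ : r ∣ cr u s := by rw [← he]; exact ct_dvd_right
  rw [mul_comm] at hk
  refine ⟨k, hk, fun t => ?_⟩
  obtain ⟨m', hm'⟩ : ∃ m' : Z2, m' = m + t • (u + s - k • m) := ⟨_, rfl⟩
  obtain ⟨s', k2⟩ := Blk6.row (L := lat m (u + s)) ⟨p3, p5, rfl⟩ (by rw [hum]; exact hk) t
  rw [← hm'] at k2 ⊢
  have hum' : cr u m' = r := by
    rw [← hum, hm']
    have : cr u (m + t • (u + s - k • m)) = cr u m + t * (cr u s - k * cr u m) := by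
      simp only [cr, Prod.fst_add, Prod.snd_add, Prod.fst_sub, Prod.snd_sub, Prod.smul_fst,
        Prod.smul_snd, smul_eq_mul]
      ring
    rw [this, hk, hum]; ring
  have hA : cr (u + q) l = cr u l + cr q l := by rw [cr_addl]
  have hA0 : 0 < cr u l + cr q l := by linarith
  have hne : cr l (u + q) ≠ 0 := by
    rw [cr_swap', hA]
    linarith
  have hb : Blk6 (lat l (u + q)) u l q := ⟨p2, p4, rfl⟩
  rcases hb.farey k2.1 with ⟨l1, q1, k1, k3, k4⟩ | ⟨l1, l2, q1, q2, k1, k3, k4, k5, k6, k7, k8,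
    k9, k10, k11⟩
  · have hT1 := hT.change k1.1 k1.2.1 k1.2.2 k2.1 k2.2.1 k2.2.2
    have a1 := hb.area k1
    have a2 := Blk6.area (L := lat m (u + s)) ⟨p3, p5, rfl⟩ k2
    have hN1 : vol6 (u, v, l1, q1, m', s') = N := by
      rw [← hN]
      simp only [vol6]
      linarith
    rw [hum'] at k4
    rcases (h.tree hT1 hN1).2.2 with g | g
    · obtain ⟨i, j, hij, hl1⟩ := cop_of_lat k1.2.2 hne
      exact gcd_ge_of_par hij hl1 hA hA0 g hum' hr k1.1 (by linarith [k1.2.1])
    · exact absurd k4 (not_lt.2 g)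
  · -- the boundary case
    have hy : l1 + l2 ∈ lat l (u + q) := by
      rw [← k4]
      exact AddSubgroup.mem_closure_pair.2 ⟨1, 1, by rw [one_smul, one_smul]⟩
    have e1 : lat (l1 + l2) l2 = lat l (u + q) := by
      rw [← k4]
      apply le_antisymm
      · refine (AddSubgroup.closure_le _).2 ?_
        rintro z (rfl | rfl)
        · exact AddSubgroup.mem_closure_pair.2 ⟨1, 1, by rw [one_smul, one_smul]⟩
        · exact AddSubgroup.subset_closure (by simp)
      · refine (AddSubgroup.closure_le _).2 ?_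
        rintro z (rfl | rfl)
        · exact AddSubgroup.mem_closure_pair.2 ⟨1, -1, by rw [one_smul, neg_one_smul]; abel⟩
        · exact AddSubgroup.subset_closure (by simp)
    obtain ⟨i, j, hij, hl1⟩ := cop_of_lat e1 hne
    exact gcd_ge_of_par hij hl1 hA hA0 k9 hum' hr (by rw [cr_addr, k8]; exact hA0)
      (by rw [cr_addr, k8])

end Pool.Agent.H4G.Six
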