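import Pool.Agent.H4G.Six.Sp1a

/-!
# Mirror image of the minimal configurations (helper37)
-/

set_option autoImplicit false

namespace Pool.Agent.H4G.Six

open Pool.Agent.H4G

variable {X : Type} {O : PO X} {N r : ℤ} {u v l q m s U x l1 q1 m1 s1 : Z2}

theorem cr_bar_nbar (a b : Z2) : cr (bar a) (-bar b) = cr a b := by
  rw [cr_negr, cr_bar, neg_neg]

theorem cr_nbar_bar (a b : Z2) : cr (-bar a) (bar b) = cr a b := by
  rw [cr_negl, cr_bar, neg_neg]

theorem cr_nbar_nbar (a b : Z2) : cr (-bar a) (-bar b) = -cr a b := by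
  rw [cr_negl, cr_negr, neg_neg, cr_bar]

theorem OKC.mir (h : OKC O (U, x, l, q, m, s)) :
    OKC O.mir (bar U, -bar x, bar l, -bar q, bar m, -bar s) := by
  refine ⟨by rw [cr_bar_nbar]; exact h.1, ?_, ?_⟩
  · rw [clo_neg_right, ← map_bar_closure]
    exact h.2.1.mir
  · rw [clo_neg_right, ← map_bar_closure]
    exact h.2.2.mir

theorem volC_mir : volC (bar U, -bar x, bar l, -bar q, bar m, -bar s) = volC (U, x, l, q, m, s) := by
  simp only [volC, cr_bar_nbar, cr_nbar_bar]

theorem Big.mir {Λ : AddSubgroup Z2} {W : ℤ} (h : Big Λ W l m) :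
    Big (Λ.map barH) W (bar l) (bar m) := by
  have ax : ∀ a b : Z2, Axis Λ W a b → Axis (Λ.map barH) W (bar a) (bar b) := by
    rintro a b ⟨z, h1, h2, h3, h4⟩
    refine ⟨bar z, bar_mem_map h1, by rw [cr_bar, h2, neg_zero], ?_, ?_⟩
    · rw [cr_bar, cr_bar, abs_neg, abs_neg]; exact h3
    · rw [cr_bar, abs_neg]; exact h4
  rcases h with h | h | h | h
  · left
    rw [cr_bar, abs_neg]; exact h
  · right; left
    obtain ⟨z, h1, h2, h3, h4, h5, h6⟩ := h
    refine ⟨bar z, bar_mem_map h1, ?_, ?_, ?_, ?_, ?_⟩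
    · rw [cr_bar, cr_bar, neg_mul_neg]; exact h2
    · rw [cr_bar, cr_bar, abs_neg, abs_neg]; exact h3
    · rw [cr_bar, abs_neg]; exact h4
    · rw [cr_bar, cr_bar, abs_neg, abs_neg]; exact h5
    · rw [cr_bar, abs_neg]; exact h6
  · right; right; left; exact ax _ _ h
  · right; right; right; exact ax _ _ h

theorem GoodConf.mir (h : GoodConf O N r) : GoodConf O.mir N r := by
  obtain ⟨U, x, l, q, m, s, h1, h2, h3, h4⟩ := h
  refine ⟨_, _, _, _, _, _, h1.mir, volC_mir.trans h2, by rw [cr_bar, abs_neg]; exact h3, ?_⟩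
  rw [clo_neg_right, ← map_bar_closure, cr_bar_nbar]
  exact h4.mir

theorem RC.mir (h : RC O N r) : RC O.mir N r := by
  refine ⟨h.conf.mir, fun r' h' => h.least r' ?_, ?_⟩
  · have := h'.mir
    rwa [PO.mir_mir] at this
  · intro u v l q m s h1 h2
    rw [← bar6_bar6 (u, v, l, q, m, s)] at h1
    have h3 := Has6.mir_iff.1 h1
    have h4 := h.cont _ _ _ _ _ _ h3 (by
      have := vol6_bar (u, v, l, q, m, s)
      rw [h2] at this
      exact this)
    unfold ct at *
    rw [cr_nbar_bar, cr_nbar_nbar, Int.gcd_neg] at h4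
    exact h4

/-- EVERY minimal configuration is rectangular after a twist, with the twist. -/
theorem RC.toRect' (h : RC O N r) (hC : OKC O (U, x, l, q, m, s))
    (hN : volC (U, x, l, q, m, s) = N) (hrr : |cr l m| = r)
    (hB : Big (AddSubgroup.closure {U, x}) (cr U x) l m) :
    ∃ a b : ℤ, Rect O U x l (q + a • l) m (s + b • m) := by
  obtain ⟨⟨i, j, hij, a1, a2, a3⟩, ⟨i', j', hij', b1, b2, b3⟩⟩ :=
    axesB hC.1 hC.lm_ne hC.2.2 hB (fun i j hij => h.noGood hC hN hrr hij)
  have hr := hC.rpos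
  have hW := hC.1
  obtain ⟨V, k1, k2⟩ := exists_basis (U := U) (x := x) i j hij
  obtain ⟨V', k1', k2'⟩ := exists_basis (U := U) (x := x) i' j' hij'
  obtain ⟨z, hz⟩ : ∃ z : Z2, z = i • U + j • x := ⟨_, rfl⟩
  obtain ⟨z', hz'⟩ : ∃ z' : Z2, z' = i' • U + j' • x := ⟨_, rfl⟩
  have zm : z ∈ AddSubgroup.closure ({U, x} : Set Z2) :=
    AddSubgroup.mem_closure_pair.2 ⟨i, j, hz.symm⟩
  have zm' : z' ∈ AddSubgroup.closure ({U, x} : Set Z2) :=
    AddSubgroup.mem_closure_pair.2 ⟨i', j', hz'.symm⟩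
  rw [← hz] at k1 k2 a1 a2 a3
  rw [← hz'] at k1' k2' b1 b2 b3
  have hzl : cr l z ≠ 0 := by
    intro h0
    rw [cr_swap' l z, h0, neg_zero] at a2
    linarith
  have hzm : cr m z' ≠ 0 := by
    intro h0
    rw [cr_swap' m z', h0, neg_zero] at b2
    linarith
  have d1 := h.dvdQ (hC.basis k1 (by rw [k2]; exact hW)) (by
      rw [← hN]
      simp only [volC]
      rw [k2]) hrr (by rw [cr_swap' z m, a1, neg_zero]) hzl
    (by rw [k2, abs_cr_comm, abs_of_pos (by linarith)]; exact a3)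
  have d2 := h.dvdS (hC.basis k1' (by rw [k2']; exact hW)) (by
      rw [← hN]
      simp only [volC]
      rw [k2']) hrr (by rw [cr_swap' z' l, b1, neg_zero]) hzm
    (by rw [k2', abs_cr_comm, abs_of_pos (by linarith)]; exact b3)
  obtain ⟨a, ha⟩ := d1
  obtain ⟨b, hb⟩ := d2
  refine ⟨-a, -b, hC.twist _ _, ?_, ?_, ?_, ?_⟩
  · intro w hw hw0
    exact cols hW zm' b1 (by linarith) b3 hw hw0
  · intro w hw hw0
    exact rows hW zm a1 (by linarith) a3 hw hw0
  · have e1 : cr (q + (-a) • l) z = 0 := by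
      rw [cr_addl, ha]
      simp only [cr, Prod.smul_fst, Prod.smul_snd, smul_eq_mul]; ring
    have e2 : cr l z * cr (q + (-a) • l) m =
        cr l m * cr (q + (-a) • l) z - cr l (q + (-a) • l) * cr m z := by
      simp only [cr]; ring
    rw [e1, cr_swap' z m, a1] at e2
    simp only [mul_zero, neg_zero, sub_zero] at e2
    exact (mul_eq_zero.1 e2).resolve_left hzl
  · have e1 : cr (s + (-b) • m) z' = 0 := by
      rw [cr_addl, hb]
      simp only [cr, Prod.smul_fst, Prod.smul_snd, smul_eq_mul]; ring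
    have e2 : cr m z' * cr (s + (-b) • m) l =
        cr m l * cr (s + (-b) • m) z' - cr m (s + (-b) • m) * cr l z' := by
      simp only [cr]; ring
    rw [e1, cr_swap' z' l, b1] at e2
    simp only [mul_zero, neg_zero, sub_zero] at e2
    exact (mul_eq_zero.1 e2).resolve_left hzm

end Pool.Agent.H4G.Six
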