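import Pool.Agent.H4G.Six.RC14

/-!
# Rectangular configurations with spacing 1 (helper66)

`RC O N r` and a configuration with `|l × m| = r` such that some vector `w` of the lattice has
`|w × m| = r` (or `|w × l| = r`): then `r` divides all products of the periods. So `r = 1` for a
primitive surface.
-/

set_option autoImplicit false

namespace Pool.Agent.H4G.Six

open Pool.Agent.H4G

/-! ## Arithmetic -/

/-- an integer of the progression `a - n b` prime to `c` -/
theorem exists_cop_sub {a b : ℤ} (h : IsCoprime a b) {c : ℤ} (hc : c ≠ 0) :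
    ∃ n : ℤ, IsCoprime (a - n * b) c := by
  classical
  obtain ⟨S, hS⟩ : ∃ S : Finset ℕ, S = c.natAbs.primeFactors.filter (fun p : ℕ => ¬ (p : ℤ) ∣ a) :=
    ⟨_, rfl⟩
  refine ⟨∏ p ∈ S, (p : ℤ), ?_⟩
  rw [Int.isCoprime_iff_gcd_eq_one]
  by_contra hg
  obtain ⟨p, hp, hpg⟩ := Nat.exists_prime_and_dvd hg
  have h1 : (p : ℤ) ∣ a - (∏ p ∈ S, (p : ℤ)) * b :=
    (Int.natCast_dvd_natCast.2 hpg).trans (Int.gcd_dvd_left _ _)
  have h2 : (p : ℤ) ∣ c := (Int.natCast_dvd_natCast.2 hpg).trans (Int.gcd_dvd_right _ _)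
  have hpI : Prime (p : ℤ) := Nat.prime_iff_prime_int.1 hp
  by_cases ha : (p : ℤ) ∣ a
  · have h3 : (p : ℤ) ∣ (∏ p ∈ S, (p : ℤ)) * b := by
      have := dvd_sub ha h1
      rwa [sub_sub_cancel] at this
    rcases hpI.dvd_or_dvd h3 with h4 | h4
    · rw [Prime.dvd_finsetProd_iff hpI] at h4
      obtain ⟨q, hq, hpq⟩ := h4
      rw [hS, Finset.mem_filter, Nat.mem_primeFactors] at hq
      have : p = q := (Nat.prime_dvd_prime_iff_eq hp hq.1.1).1 (Int.natCast_dvd_natCast.1 hpq)
      rw [this] at ha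
      exact hq.2 ha
    · exact hpI.not_isUnit (h.isUnit_of_dvd' ha h4)
  · have h3 : (p : ℤ) ∣ ∏ p ∈ S, (p : ℤ) := by
      refine Finset.dvd_prod_of_mem (fun p : ℕ => (p : ℤ)) ?_
      rw [hS, Finset.mem_filter, Nat.mem_primeFactors]
      refine ⟨⟨hp, Int.natCast_dvd.1 h2, by simpa using hc⟩, ha⟩
    apply ha
    have := dvd_add h1 (h3.mul_right b)
    rwa [sub_add_cancel] at this

/-- a large gcd in a progression -/
theorem gcd_prog {r a b c : ℤ} (hr : 0 < r) (hc : c ≠ 0) (ha : r ∣ a)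
    (h0 : (Int.gcd a c : ℤ) = r) (h : ∀ n : ℤ, r ≤ Int.gcd (a - n * b) c) : r ∣ b := by
  obtain ⟨a', rfl⟩ := ha
  obtain ⟨g, hg⟩ : ∃ g : ℤ, g = Int.gcd (r * a') b := ⟨_, rfl⟩
  by_cases h1 : b = 0
  · rw [h1]; exact dvd_zero r
  have hg0 : 0 < Int.gcd (r * a') b := Int.gcd_pos_of_ne_zero_right _ h1
  obtain ⟨A, B, hAB, e1, e2⟩ := Int.exists_gcd_one hg0
  rw [← hg] at e1 e2
  obtain ⟨n, hn⟩ := exists_cop_sub (Int.isCoprime_iff_gcd_eq_one.2 hAB) hc
  have h2 := h n
  obtain ⟨d, hd⟩ : ∃ d : ℤ, d = Int.gcd (r * a' - n * b) c := ⟨_, rfl⟩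
  have hd1 : d ∣ r * a' - n * b := by rw [hd]; exact Int.gcd_dvd_left _ _
  have hd2 : d ∣ c := by rw [hd]; exact Int.gcd_dvd_right _ _
  rw [← hd] at h2
  have e3 : r * a' - n * b = (A - n * B) * g := by
    rw [e1]
    conv_lhs => rw [e2]
    ring
  have hdg : d ∣ g := by
    rw [e3] at hd1
    exact (IsCoprime.of_isCoprime_of_dvd_left hn.symm hd2).dvd_of_dvd_mul_left hd1
  have hga : d ∣ r * a' := hdg.trans (by rw [hg]; exact Int.gcd_dvd_left _ _)
  have hgb : d ∣ b := hdg.trans (by rw [hg]; exact Int.gcd_dvd_right _ _)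
  have hdr : d ∣ r := by
    rw [← h0]
    exact Int.dvd_coe_gcd hga hd2
  have : d = r := le_antisymm (Int.le_of_dvd hr hdr) h2
  rw [← this]
  exact hgb

/-- `Z` is integrally closed -/
theorem dvd_of_sq {r A B : ℤ} (hr : 0 < r) (h1 : r * r ∣ A * B) (h2 : r ∣ A - B) : r ∣ A := by
  obtain ⟨k, hk⟩ := h2
  obtain ⟨c, hc⟩ := h1
  have hB : B = A - r * k := by linarith
  have hg0 : 0 < Int.gcd A r := Int.gcd_pos_of_ne_zero_right _ hr.ne'
  obtain ⟨A', r', hAr, e1, e2⟩ := Int.exists_gcd_one hg0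
  obtain ⟨g, hg⟩ : ∃ g : ℤ, g = Int.gcd A r := ⟨_, rfl⟩
  rw [← hg] at e1 e2
  have hg1 : g ≠ 0 := by
    rw [hg]
    exact_mod_cast hg0.ne'
  have e3 : A' * A' = r' * (k * A' + r' * c) := by
    have : g * g * (A' * A') = g * g * (r' * (k * A' + r' * c)) := by
      rw [hB] at hc
      rw [e1, e2] at hc
      linear_combination hc
    exact mul_left_cancel₀ (mul_ne_zero hg1 hg1) this
  have h3 : r' ∣ A' * A' := ⟨_, e3⟩
  have hcop : IsCoprime r' A' := (Int.isCoprime_iff_gcd_eq_one.2 hAr).symm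
  have h4 : r' ∣ A' := hcop.dvd_of_dvd_mul_left h3
  have h5 : IsUnit r' := hcop.isUnit_of_dvd' dvd_rfl h4
  obtain ⟨r'', hr''⟩ := h5.exists_left_inv
  rw [e1, e2]
  refine ⟨r'' * A', ?_⟩
  linear_combination -(A' * g) * hr''

/-! ## Configurations with `|l × m| = r` -/

section

variable {X : Type} {O : PO X} {N r : ℤ} {U x u v l q m s z w : Z2}

theorem pl3 (l z q m : Z2) : cr l z * cr q m = cr l m * cr q z + cr l q * cr z m := by
  simp only [cr]; ring

/-- `r` divides `q × m` and `s × l` -/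
theorem RC.md (h : RC O N r) (hC : OKC O (U, x, l, q, m, s))
    (hN : volC (U, x, l, q, m, s) = N) (hrr : |cr l m| = r)
    (hB : Big (AddSubgroup.closure {U, x}) (cr U x) l m) :
    cr l m ∣ cr q m ∧ cr l m ∣ cr s l := by
  obtain ⟨⟨i, j, hij, a1, a2, a3⟩, ⟨i', j', hij', b1, b2, b3⟩⟩ :=
    axesB hC.1 hC.lm_ne hC.2.2 hB (fun i j hij => h.noGood hC hN hrr hij)
  have hr := hC.rpos
  have hW := hC.1
  constructor
  · obtain ⟨V, k1, k2⟩ := exists_basis (U := U) (x := x) i j hij
    obtain ⟨z, hz⟩ : ∃ z : Z2, z = i • U + j • x := ⟨_, rfl⟩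
    rw [← hz] at k1 k2 a1 a2 a3
    have hzl : cr l z ≠ 0 := by
      intro h0
      rw [cr_swap' l z, h0, neg_zero] at a2
      linarith
    obtain ⟨a, ha⟩ := h.dvdQ (hC.basis k1 (by rw [k2]; exact hW)) (by
      rw [← hN]
      simp only [volC]
      rw [k2]) hrr (by rw [cr_swap' z m, a1, neg_zero]) hzl
      (by rw [k2, abs_cr_comm, abs_of_pos (by linarith)]; exact a3)
    have e := pl3 l z q m
    rw [a1, ha, mul_zero, add_zero] at e
    refine ⟨a, mul_left_cancel₀ hzl ?_⟩
    rw [e]; ring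
  · obtain ⟨V, k1, k2⟩ := exists_basis (U := U) (x := x) i' j' hij'
    obtain ⟨z, hz⟩ : ∃ z : Z2, z = i' • U + j' • x := ⟨_, rfl⟩
    rw [← hz] at k1 k2 b1 b2 b3
    have hzl : cr m z ≠ 0 := by
      intro h0
      rw [cr_swap' m z, h0, neg_zero] at b2
      linarith
    obtain ⟨a, ha⟩ := h.dvdS (hC.basis k1 (by rw [k2]; exact hW)) (by
      rw [← hN]
      simp only [volC]
      rw [k2]) hrr (by rw [cr_swap' z l, b1, neg_zero]) hzl
      (by rw [k2, abs_cr_comm, abs_of_pos (by linarith)]; exact b3)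
    have e := pl3 m z s l
    rw [b1, ha, mul_zero, add_zero] at e
    refine ⟨-a, mul_left_cancel₀ hzl ?_⟩
    rw [e, cr_swap' l m]; ring

/-- A tree with `u × m = |l × m| = r`, normalized. -/
structure T1 (O : PO X) (N r : ℤ) (u v l q m s : Z2) : Prop where
  has : Has6 O (u, v, l, q, m, s)
  vol : vol6 (u, v, l, q, m, s) = N
  um : cr u m = r
  lm : |cr l m| = r
  qm : cr q m = 0
  sl : cr s l = 0

theorem volC_tree (hN : vol6 (u, v, l, q, m, s) = N) :
    volC (u, v + l + m, l, q, m, s) = N := by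
  rw [← hN]
  simp only [volC, vol6, cr, Prod.fst_add, Prod.snd_add]
  ring

theorem RC.big (h : RC O N r) (hT : Has6 O (u, v, l, q, m, s))
    (hN : vol6 (u, v, l, q, m, s) = N) (hrr : |cr l m| = r) :
    Big (AddSubgroup.closure {u, v + l + m}) (cr u (v + l + m)) l m := by
  obtain ⟨a1, a2, -⟩ := h.tree hT hN
  have := hT.pos.1
  left
  rw [cr_addr, cr_addr, hrr]
  linarith

theorem lat_tw {u l q : Z2} (i : ℤ) : lat l (u + (q + i • l)) = lat l (u + q) :=
  closure_pair_eq (α := 1) (β := 0) (γ := i) (δ := 1) (by module) (by module)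
    (Or.inl (by norm_num))

/-- the twists which normalize a tree -/
theorem RC.exists_T1 (h : RC O N r) (hr : 0 < r) (hT : Has6 O (u, v, l, q, m, s))
    (hN : vol6 (u, v, l, q, m, s) = N) (hum : cr u m = r) (hlm : |cr l m| = r) :
    ∃ i j : ℤ, T1 O N r u v l (q + i • l) m (s + j • m) := by
  have h0 : cr l m ≠ 0 := by
    intro h0
    rw [h0, abs_zero] at hlm
    linarith
  obtain ⟨⟨a, ha⟩, ⟨b, hb⟩⟩ := h.md (hT.okc h0) (volC_tree hN) hlm (h.big hT hN hlm)
  obtain ⟨p1, p2, p3, p4, p5⟩ := hT.pos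
  have e1 : cr (q + (-a) • l) l = cr q l := by
    simp only [cr, Prod.fst_add, Prod.snd_add, Prod.smul_fst, Prod.smul_snd, smul_eq_mul]
    ring
  have e2 : cr (s + b • m) m = cr s m := by
    simp only [cr, Prod.fst_add, Prod.snd_add, Prod.smul_fst, Prod.smul_snd, smul_eq_mul]
    ring
  refine ⟨-a, b, hT.change p2 (by rw [e1]; exact p4) (lat_tw _) p3 (by rw [e2]; exact p5)
    (lat_tw _), ?_, hum, hlm, ?_, ?_⟩
  · rw [← hN]
    simp only [vol6]
    rw [e1, e2]
  · have : cr (q + (-a) • l) m = cr q m - a * cr l m := by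
      simp only [cr, Prod.fst_add, Prod.snd_add, Prod.smul_fst, Prod.smul_snd, smul_eq_mul]
      ring
    rw [this, ha]; ring
  · have : cr (s + b • m) l = cr s l - b * cr l m := by
      simp only [cr, Prod.fst_add, Prod.snd_add, Prod.smul_fst, Prod.smul_snd, smul_eq_mul]
      ring
    rw [this, hb]; ring

namespace T1

theorem rpos (t : T1 O N r u v l q m s) : 0 < r := by
  rw [← t.um]; exact t.has.pos.2.2.1

theorem lm0 (t : T1 O N r u v l q m s) : cr l m ≠ 0 := by
  intro h0
  have h1 := t.lm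
  rw [h0, abs_zero] at h1
  linarith [t.rpos]

theorem eps (t : T1 O N r u v l q m s) : ∃ ε : ℤ, (ε = 1 ∨ ε = -1) ∧ ε * ε = 1 ∧
    cr l m = ε * r := by
  rcases (abs_eq t.rpos.le).1 t.lm with h | h
  · exact ⟨1, Or.inl rfl, by norm_num, by rw [h, one_mul]⟩
  · exact ⟨-1, Or.inr rfl, by norm_num, by rw [h, neg_one_mul]⟩

theorem okc (t : T1 O N r u v l q m s) : OKC O (u, v + l + m, l, q, m, s) := t.has.okc t.lm0

theorem volC (t : T1 O N r u v l q m s) : volC (u, v + l + m, l, q, m, s) = N :=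
  volC_tree t.vol

theorem W (t : T1 O N r u v l q m s) : cr u (v + l + m) = cr u v + cr u l + r := by
  rw [cr_addr, cr_addr, t.um]

theorem axes (t : T1 O N r u v l q m s) (h : RC O N r) :
    (∃ i j : ℤ, IsCoprime i j ∧ cr (i • u + j • (v + l + m)) m = 0 ∧
      |cr l m| < cr (i • u + j • (v + l + m)) l ∧
      cr (i • u + j • (v + l + m)) l ≤ cr u (v + l + m)) ∧
    (∃ i j : ℤ, IsCoprime i j ∧ cr (i • u + j • (v + l + m)) l = 0 ∧
      |cr l m| < cr (i • u + j • (v + l + m)) m ∧
      cr (i • u + j • (v + l + m)) m ≤ cr u (v + l + m)) :=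
  axesB t.okc.1 t.okc.lm_ne t.okc.2.2 (h.big t.has t.vol t.lm)
    (fun _ _ hij => h.noGood t.okc t.volC t.lm hij)

/-- `r` divides `v × m` -/
theorem dvd_xm (t : T1 O N r u v l q m s) (h : RC O N r) : r ∣ cr (v + l + m) m := by
  obtain ⟨⟨i, j, -, a1, a2, a3⟩, -⟩ := t.axes h
  have hr := t.rpos
  have hW := t.okc.1
  have e1 := cr_plucker u (i • u + j • (v + l + m)) l m
  have e2 : cr u (i • u + j • (v + l + m)) = j * cr u (v + l + m) := by
    rw [cr_zz_right, cr_self']; ring
  rw [a1, e2, t.um, mul_zero, zero_sub] at e1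
  have e3 : cr (i • u + j • (v + l + m)) l = |j| * cr u (v + l + m) := by
    have h1 := congrArg abs e1
    rw [abs_neg, abs_mul, abs_mul, abs_mul, t.lm, abs_of_pos hr, abs_of_pos hW,
      abs_of_pos (lt_of_le_of_lt (abs_nonneg _) a2)] at h1
    exact mul_right_cancel₀ hr.ne' h1
  have h2 : 0 < |j| * cr u (v + l + m) := by
    rw [← e3]; exact lt_of_le_of_lt (abs_nonneg _) a2
  rw [e3] at a3
  have h3 : |j| = 1 := by
    have h4 : 0 < |j| := (pos_iff_pos_of_mul_pos h2).2 hW
    have h5 : |j| ≤ 1 := by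
      by_contra hc
      push Not at hc
      have : 1 * cr u (v + l + m) < |j| * cr u (v + l + m) := mul_lt_mul_of_pos_right hc hW
      linarith
    omega
  rw [cr_zz_left, t.um] at a1
  have h6 : r ∣ j * cr (v + l + m) m := ⟨-i, by linarith⟩
  rcases (abs_eq (by norm_num)).1 h3 with h7 | h7
  · rwa [h7, one_mul] at h6
  · rw [h7, neg_one_mul] at h6
    exact (dvd_neg).1 h6

/-- `r` divides `u × s` -/
theorem dvd_us (t : T1 O N r u v l q m s) (h : RC O N r) : r ∣ cr u s := by
  have h1 := h.contM t.has t.vol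
  have h2 : ct u m s ∣ r := by
    have := ct_dvd_left (u := u) (l := m) (q := s)
    rwa [t.um] at this
  have h3 : ct u m s = r := le_antisymm (Int.le_of_dvd t.rpos h2) h1
  have := ct_dvd_right (u := u) (l := m) (q := s)
  rwa [h3] at this

/-- `u × q = - ε (q × l)` -/
theorem uq (t : T1 O N r u v l q m s) {ε : ℤ} (h1 : ε * ε = 1) (h2 : cr l m = ε * r) :
    cr u q = -(ε * cr q l) := by
  have e := cr_plucker u q l m
  rw [t.qm, t.um, h2, mul_zero, zero_sub] at e
  have hr := t.rpos.ne'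
  refine mul_right_cancel₀ hr ?_
  have : cr u q * r = ε * (cr u q * (ε * r)) := by linear_combination -(cr u q * r) * h1
  rw [this, ← e]
  ring

/-- `r ≤ q × l` -/
theorem le_ql (t : T1 O N r u v l q m s) (h : RC O N r) : r ≤ cr q l := by
  obtain ⟨ε, hε, h1, h2⟩ := t.eps
  have h3 := h.cont _ _ _ _ _ _ t.has t.vol
  have h4 : ct u l q ∣ cr u q := ct_dvd_right
  rw [t.uq h1 h2] at h4
  have h5 : ct u l q ∣ cr q l := by
    rcases hε with rfl | rfl
    · rw [one_mul] at h4; exact (dvd_neg).1 h4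
    · rwa [neg_one_mul, neg_neg] at h4
  exact h3.trans (Int.le_of_dvd t.has.pos.2.2.2.1 h5)

/-- the (1,3)-step: `r` divides `s × x` -/
theorem dvd_sx (t : T1 O N r u v l q m s) (h : RC O N r) : r ∣ cr s (v + l + m) := by
  obtain ⟨ε, hε, h1, h2⟩ := t.eps
  have hr := t.rpos
  obtain ⟨X', hX⟩ : ∃ X' : Z2, X' = v + l + m := ⟨_, rfl⟩
  obtain ⟨k, hk⟩ := t.dvd_xm h
  have hC := t.okc
  have hN := t.volC
  have hW := t.W
  rw [← hX] at hk hC hN hW ⊢
  obtain ⟨y, hy⟩ : ∃ y : Z2, y = (1 - ε * k) • u + ε • X' := ⟨_, rfl⟩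
  have hcop : IsCoprime (1 - ε * k) ε := ⟨0, ε, by rw [zero_mul, zero_add, h1]⟩
  obtain ⟨V, k1, k2⟩ := exists_basis (U := u) (x := X') (1 - ε * k) ε hcop
  rw [← hy] at k1 k2
  have hC' := hC.basis k1 (by rw [k2]; exact hC.1)
  have hp := t.has.pos
  -- `x × l`
  have e1 := cr_plucker u X' l m
  rw [hk, t.um, h2] at e1
  have e2 : cr X' l = k * cr u l - ε * cr u X' := by
    refine mul_right_cancel₀ hr.ne' ?_
    linear_combination -e1
  have ly : cr l y = cr u X' - cr u l := by
    rw [hy, cr_zz_right, cr_swap' u l, cr_swap' X' l, e2]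
    linear_combination (cr u X') * h1
  have my : cr m y = -r := by
    rw [hy, cr_zz_right, cr_swap' u m, cr_swap' X' m, t.um, hk]
    ring
  obtain ⟨e, he, key⟩ := hC'.step1 (by rw [ly]; linarith [hp.1, hp.2.1])
    (by rw [ly, k2]; linarith [hp.1, hp.2.1]) (by rw [my]; linarith)
    (by rw [ly, my]; linarith [hp.1, hp.2.1])
  have hee : e * e = 1 := by rcases he with rfl | rfl <;> norm_num
  have hvol : Six.volC (l, y - q, -m, -s, e • y, e • (V - l)) = N := by
    rw [← hN]
    have : cr u X' = cr V y := k2.symm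
    simp only [Six.volC]
    rw [this]
    have e3 : cr (e • (V - l)) (e • y) = (e * e) * (cr V y - cr l y) := by
      simp only [cr, Prod.fst_sub, Prod.snd_sub, Prod.smul_fst, Prod.smul_snd, smul_eq_mul]; ring
    rw [e3, hee]
    simp only [cr, Prod.fst_sub, Prod.snd_sub, Prod.fst_neg, Prod.snd_neg]
    ring
  have hmy : |cr (-m) (e • y)| = r := by
    have : cr (-m) (e • y) = e * r := by
      have : cr (-m) (e • y) = -(e * cr m y) := by
        simp only [cr, Prod.fst_neg, Prod.snd_neg, Prod.smul_fst, Prod.smul_snd, smul_eq_mul]; ring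
      rw [this, my]; ring
    rw [this, abs_mul, abs_of_pos hr]
    rcases he with rfl | rfl <;> norm_num
  have hbig : Big (AddSubgroup.closure {l, y - q}) (cr l (y - q)) (-m) (e • y) := by
    left
    rw [hmy]
    have : cr l (y - q) = cr l y + cr q l := by
      simp only [cr, Prod.fst_sub, Prod.snd_sub]; ring
    rw [this, ly]
    have := t.le_ql h
    linarith [hp.1]
  obtain ⟨⟨a, ha⟩, -⟩ := h.md key hvol hmy hbig
  have h5 : r ∣ cr (-s) (e • y) := by
    rw [ha]
    refine Dvd.dvd.mul_right ?_ _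
    rw [← hmy]
    exact (abs_dvd _ _).2 dvd_rfl
  have h6 : cr (-s) (e • y) = -e * (1 - ε * k) * cr s u - (e * ε) * cr s X' := by
    rw [hy]
    simp only [cr, Prod.fst_neg, Prod.snd_neg, Prod.fst_add, Prod.snd_add, Prod.smul_fst,
      Prod.smul_snd, smul_eq_mul]
    ring
  have h7 : r ∣ cr s u := by
    rw [cr_swap' u s]
    exact (dvd_neg).2 (t.dvd_us h)
  rw [h6] at h5
  have h8 : r ∣ (e * ε) * cr s X' := by
    have := dvd_sub (h7.mul_left (-e * (1 - ε * k))) h5
    rwa [sub_sub_cancel] at this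
  have h9 : (e * ε) * ((e * ε) * cr s X') = cr s X' := by
    linear_combination (ε * ε * cr s X') * hee + (cr s X') * h1
  rw [← h9]
  exact h8.mul_left _

end T1

namespace T1

theorem dvd_s (t : T1 O N r u v l q m s) (h : RC O N r)
    (hw : w ∈ AddSubgroup.closure ({u, v + l + m} : Set Z2)) : r ∣ cr s w := by
  obtain ⟨i, j, rfl⟩ := AddSubgroup.mem_closure_pair.1 hw
  rw [cr_zz_right]
  have h7 : r ∣ cr s u := by
    rw [cr_swap' u s]
    exact (dvd_neg).2 (t.dvd_us h)
  exact dvd_add (h7.mul_left _) ((t.dvd_sx h).mul_left _)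

theorem dvd_m (t : T1 O N r u v l q m s) (h : RC O N r)
    (hw : w ∈ AddSubgroup.closure ({u, v + l + m} : Set Z2)) : r ∣ cr w m := by
  obtain ⟨i, j, rfl⟩ := AddSubgroup.mem_closure_pair.1 hw
  rw [cr_zz_left, t.um]
  exact dvd_add (Dvd.intro_left _ rfl) ((t.dvd_xm h).mul_left _)

/-- `r²` divides `W (s × m)` -/
theorem sq (t : T1 O N r u v l q m s) (h : RC O N r) :
    r * r ∣ cr u (v + l + m) * cr s m := by
  obtain ⟨ε, hε, h1, h2⟩ := t.eps
  have hr := t.rpos
  obtain ⟨k, hk⟩ := t.dvd_xm h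
  obtain ⟨a, ha⟩ := t.dvd_sx h
  obtain ⟨b, hb⟩ := t.dvd_us h
  obtain ⟨X', hX⟩ : ∃ X' : Z2, X' = v + l + m := ⟨_, rfl⟩
  rw [← hX] at hk ha ⊢
  have e1 := cr_plucker s X' l m
  have e2 := cr_plucker s u l m
  have e3 := cr_plucker u X' l m
  rw [t.sl, ha, h2] at e1
  rw [t.sl, cr_swap' u s, hb, h2] at e2
  rw [hk, t.um, h2] at e3
  have e4 : cr u X' = ε * (k * cr u l - cr X' l) := by
    refine mul_right_cancel₀ hr.ne' ?_
    linear_combination (-ε) * e3 - (cr u X' * r) * h1
  refine ⟨k * b + a, ?_⟩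
  rw [e4]
  linear_combination ε * e1 - (ε * k) * e2 + (r * r * (k * b + a)) * h1

/-- `r` divides `W` and `s × m` -/
theorem dvd_W (t : T1 O N r u v l q m s) (h : RC O N r) :
    r ∣ cr u (v + l + m) ∧ r ∣ cr s m := by
  have hr := t.rpos
  obtain ⟨-, ⟨i, j, hij, b1, b2, b3⟩⟩ := t.axes h
  have hsq := t.sq h
  have hC := t.okc
  have hN := t.volC
  have hW := t.W
  have hds := fun w hw => t.dvd_s (w := w) h hw
  have hdm := fun w hw => t.dvd_m (w := w) h hw
  have htree := h.tree t.has t.vol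
  have hp := t.has.pos
  obtain ⟨X', hX⟩ : ∃ X' : Z2, X' = v + l + m := ⟨_, rfl⟩
  rw [← hX] at hC hN hW hsq hds hdm b1 b2 b3 ⊢
  obtain ⟨V, k1, k2⟩ := exists_basis (U := u) (x := X') (-i) (-j) hij.neg_neg
  obtain ⟨x, hx⟩ : ∃ x : Z2, x = (-i) • u + (-j) • X' := ⟨_, rfl⟩
  rw [← hx] at k1 k2
  have e0 : ∀ w : Z2, cr x w = -cr (i • u + j • X') w := by
    intro w
    rw [hx, cr_zz_left, cr_zz_left]; ring
  have xl : cr x l = 0 := by rw [e0, b1, neg_zero]
  have lx : cr l x = 0 := by rw [cr_swap' x l, xl, neg_zero]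
  have mx : cr m x = cr (i • u + j • X') m := by rw [cr_swap' x m, e0, neg_neg]
  rw [t.lm, ← mx] at b2
  rw [← mx, ← k2] at b3
  have hV : V ∈ AddSubgroup.closure ({u, X'} : Set Z2) := by
    rw [← k1]; exact AddSubgroup.subset_closure (by simp)
  have hxm : x ∈ AddSubgroup.closure ({u, X'} : Set Z2) := by
    rw [← k1]; exact AddSubgroup.subset_closure (by simp)
  have sx : cr s x = 0 := by
    have e := cr_plucker s x l m
    rw [t.sl, xl, zero_mul, zero_mul, sub_zero] at e
    exact (mul_eq_zero.1 e.symm).resolve_right t.lm0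
  have hC1 := hC.basis k1 (by rw [k2]; exact hC.1)
  have hN1 : Six.volC (V, x, l, q, m, s) = N := by
    rw [← hN]
    simp only [Six.volC]
    rw [k2]
  rw [← k2] at hW hsq ⊢
  rcases b3.lt_or_eq with g | g
  · -- the twists
    have key : ∀ n : ℤ, r ≤ Int.gcd (cr V m - n * (cr V (x - s) + cr (x - s) m)) (cr x m) := by
      intro n
      obtain ⟨m', hm'⟩ : ∃ m' : Z2, m' = m - n • (x - s) := ⟨_, rfl⟩
      have f1 : cr m' x = cr m x := by
        have : cr m' x = cr m x + n * cr s x := by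
          rw [hm']
          simp only [cr, Prod.fst_sub, Prod.snd_sub, Prod.smul_fst, Prod.smul_snd, smul_eq_mul]
          ring
        rw [this, sx]; ring
      have f2 : cr s m' = cr s m := by
        have : cr s m' = cr s m - n * cr s x := by
          rw [hm']
          simp only [cr, Prod.fst_sub, Prod.snd_sub, Prod.smul_fst, Prod.smul_snd, smul_eq_mul]
          ring
        rw [this, sx]; ring
      have f3 : cr l m' = cr l m := by
        have : cr l m' = cr l m - n * cr l x - n * cr s l := by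
          rw [hm']
          simp only [cr, Prod.fst_sub, Prod.snd_sub, Prod.smul_fst, Prod.smul_snd, smul_eq_mul]
          ring
        rw [this, lx, t.sl]; ring
      obtain ⟨d1, d2⟩ := hC1.degR (m' := m') (s' := s) lx (by linarith) g
        (by rw [f1]; linarith) (by rw [f2]; exact hp.2.2.2.2)
        (closure_pair_eq (α := 1) (β := -n) (γ := 0) (δ := 1) (by rw [hm']; module)
          (by module) (Or.inl (by norm_num)))
      have f4 : cr (V - m + m') x = cr V x := by
        have : cr (V - m + m') x = cr V x - cr m x + cr m' x := by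
          simp only [cr, Prod.fst_sub, Prod.snd_sub, Prod.fst_add, Prod.snd_add]
          ring
        rw [this, f1]; ring
      obtain ⟨q1, s1, hR, -⟩ := h.toRect d1 (d2.trans hN1) (by rw [f3]; exact t.lm) (by
        left
        rw [f3, t.lm, f4, hW]
        linarith [hp.1, htree.1])
      have f5 := hR.gm.gcd_le (Or.inr (by
        rw [cr_swap' m' x, f1]
        exact neg_ne_zero.2 (by linarith)))
      rw [f3, t.lm] at f5
      have f6 : cr x m' = cr x m := by rw [cr_swap' m' x, f1, ← cr_swap' m x]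
      have f7 : cr (V - m + m') m' = cr V m - n * (cr V (x - s) + cr (x - s) m) := by
        rw [hm']
        simp only [cr, Prod.fst_sub, Prod.snd_sub, Prod.fst_add, Prod.snd_add, Prod.smul_fst,
          Prod.smul_snd, smul_eq_mul]
        ring
      rwa [f6, f7] at f5
    have hxm0 : cr x m ≠ 0 := by
      rw [cr_swap' m x]
      exact neg_ne_zero.2 (by linarith)
    have hg : (Int.gcd (cr V m) (cr x m) : ℤ) = r := by
      apply Int.dvd_antisymm (by positivity) hr.le
      · have hu : u ∈ AddSubgroup.closure ({V, x} : Set Z2) := by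
          rw [k1]; exact AddSubgroup.subset_closure (by simp)
        obtain ⟨α, β, hαβ⟩ := AddSubgroup.mem_closure_pair.1 hu
        have : α * cr V m + β * cr x m = r := by
          rw [← t.um, ← hαβ, cr_zz_left]
        rw [← this]
        exact dvd_add ((Int.gcd_dvd_left _ _).mul_left _) ((Int.gcd_dvd_right _ _).mul_left _)
      · exact Int.dvd_coe_gcd (hdm _ hV) (hdm _ hxm)
    have hb := gcd_prog hr hxm0 (hdm _ hV) hg key
    have hb2 : cr V (x - s) + cr (x - s) m = cr V x + cr s V + cr x m - cr s m := by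
      simp only [cr, Prod.fst_sub, Prod.snd_sub]; ring
    rw [hb2] at hb
    have h1 : r ∣ cr V x - cr s m := by
      have := dvd_sub (dvd_sub hb (hds _ hV)) (hdm _ hxm)
      have e : cr V x + cr s V + cr x m - cr s m - cr s V - cr x m = cr V x - cr s m := by ring
      rwa [e] at this
    have h2 := dvd_of_sq hr hsq h1
    refine ⟨h2, ?_⟩
    have := dvd_sub h2 h1
    rwa [sub_sub_cancel] at this
  · -- `m × x = W`
    have h1 : r ∣ cr V x := by
      rw [← g, cr_swap' x m]
      exact (dvd_neg).2 (hdm _ hxm)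
    refine ⟨h1, ?_⟩
    have hWp : 0 < cr V x := by rw [k2]; exact hC.1
    have e := cr_plucker V x l m
    rw [xl, zero_mul, sub_zero, cr_swap' m x, g] at e
    have e2 : cr V l = -cr l m := by
      refine mul_right_cancel₀ hWp.ne' ?_
      linear_combination -e
    have e3 := cr_plucker s V l m
    rw [t.sl, zero_mul, zero_sub, e2] at e3
    have e4 : cr s m = cr s V := by
      refine mul_left_cancel₀ t.lm0 ?_
      linear_combination e3
    rw [e4]
    exact hds _ hV

/-- `r` divides `u × l` -/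
theorem dvd_ul (t : T1 O N r u v l q m s) (h : RC O N r) : r ∣ cr u l := by
  have hr := t.rpos
  obtain ⟨hW1, hW2⟩ := t.dvd_W h
  obtain ⟨k, hk⟩ := t.dvd_us h
  have hp := t.has.pos
  obtain ⟨m1, hm1⟩ : ∃ m1 : Z2, m1 = (1 - k) • m + (1 : ℤ) • (u + s) := ⟨_, rfl⟩
  have um1 : cr u m1 = r := by
    rw [hm1, cr_slitM, t.um, hk]; ring
  obtain ⟨s1, hs1⟩ := exists_blk (u := u) (l := m) (q := s) (l1 := m1) (i := 1 - k) (j := 1)
    isCoprime_one_right hm1 (by rw [um1]; exact hr) (by rw [um1, t.um]; linarith [hp.2.2.2.2])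
  have hbm : Blk6 (lat m (u + s)) u m s := ⟨hp.2.2.1, hp.2.2.2.2, rfl⟩
  have hbl : Blk6 (lat l (u + q)) u l q := ⟨hp.2.1, hp.2.2.2.1, rfl⟩
  have am := hbm.area hs1
  rcases hbl.farey (m := m1) (by rw [um1]; exact hr) with ⟨l1, q1, f1, f2, f3⟩ |
    ⟨l1, l2, q1, q2, f1, f2, f3, f4, f5, f6, f7, f8, f9, f10⟩
  · -- a fork
    have hT1 : Has6 O (u, v, l1, q1, m1, s1) :=
      t.has.change f1.1 f1.2.1 f1.2.2 hs1.1 hs1.2.1 hs1.2.2
    have hN1 : vol6 (u, v, l1, q1, m1, s1) = N := by
      rw [← t.vol]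
      simp only [vol6]
      linarith
    rw [um1] at f3
    have h0 : cr l1 m1 = 0 := by
      rcases (h.tree hT1 hN1).2.2 with g | g
      · exact g
      · exact absurd f3 (not_lt.2 g)
    -- the pencil
    have hvm : r ∣ cr v m1 := by
      by_contra hc
      have g1 : 0 < cr v m1 % r := by
        rcases (Int.emod_nonneg (cr v m1) hr.ne').lt_or_eq with g | g
        · exact g
        · exact absurd (Int.dvd_of_emod_eq_zero g.symm) hc
      have g2 := Int.emod_lt_of_pos (cr v m1) hr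
      have g3 := Int.emod_add_mul_ediv (cr v m1) r
      obtain ⟨u', hu'⟩ : ∃ u' : Z2, u' = (-(cr v m1 / r)) • u + (1 : ℤ) • (v + l1 + m1) :=
        ⟨_, rfl⟩
      have um' : cr u' m1 = cr v m1 % r := by
        have : cr u' m1 = -(cr v m1 / r) * cr u m1 + (cr v m1 + cr l1 m1) := by
          rw [hu']
          simp only [cr, Prod.fst_add, Prod.snd_add, Prod.smul_fst, Prod.smul_snd, smul_eq_mul]
          ring
        rw [this, um1, h0]
        linarith
      have hpar := par_cr h0 u' u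
      rw [um1, um'] at hpar
      have ul1 := f1.1
      have hpos : 0 < cr u' l1 := by
        have : 0 < cr u' l1 * r := by rw [hpar]; exact mul_pos ul1 g1
        exact (pos_iff_pos_of_mul_pos this).2 hr
      have hlt : cr u' l1 < cr u l1 := by
        have : cr u' l1 * r < cr u l1 * r := by
          rw [hpar]; exact mul_lt_mul_of_pos_left g2 ul1
        exact lt_of_mul_lt_mul_right this hr.le
      obtain ⟨v', c1, -, -, c4⟩ := hT1.recenter isCoprime_one_right hu' hpos
        (by rw [um']; exact g1) (by rw [um', um1]; linarith [hp.1])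
      have := (h.contM c1 (c4.trans hN1)).trans (ct_le c1.pos.2.2.1)
      rw [um'] at this
      linarith
    have e1 : cr v m1 = (1 - k) * (cr (v + l + m) m - cr l m) - cr u v +
        (cr s m + cr s l - cr s (v + l + m)) := by
      rw [hm1]
      simp only [cr, Prod.fst_add, Prod.snd_add, Prod.smul_fst, Prod.smul_snd, smul_eq_mul]
      ring
    have hlm : r ∣ cr l m := by
      rw [← t.lm]
      exact (abs_dvd _ _).2 dvd_rfl
    have h5 : r ∣ cr u v := by
      have h6 : r ∣ (1 - k) * (cr (v + l + m) m - cr l m) :=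
        (dvd_sub (t.dvd_xm h) hlm).mul_left _
      have h7 : r ∣ cr s m + cr s l - cr s (v + l + m) := by
        rw [t.sl, add_zero]
        exact dvd_sub hW2 (t.dvd_sx h)
      have h8 : cr u v = (1 - k) * (cr (v + l + m) m - cr l m) +
        (cr s m + cr s l - cr s (v + l + m)) - cr v m1 := by rw [e1]; ring
      rw [h8]
      exact dvd_sub (dvd_add h6 h7) hvm
    have h9 : cr u l = cr u (v + l + m) - cr u v - r := by rw [t.W]; ring
    rw [h9]
    exact dvd_sub (dvd_sub hW1 h5) dvd_rfl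
  · -- the boundary case
    have hy : l1 + l2 ∈ lat l (u + q) := by
      rw [← f3]
      exact AddSubgroup.mem_closure_pair.2 ⟨1, 1, by rw [one_smul, one_smul]⟩
    obtain ⟨i, n, hin⟩ := mem_lat_coords hy
    obtain ⟨y, hyy⟩ : ∃ y : Z2, y = l1 + l2 := ⟨_, rfl⟩
    rw [← hyy] at hin f8
    have uy : cr u y = cr u l + cr q l := by rw [hyy, cr_addr]; exact f7
    have ha : 0 < cr u l + cr q l := by linarith [hp.2.1, hp.2.2.2.1]
    have e1 := cr_plucker u y l m1
    rw [f8, mul_zero, zero_sub, um1, uy] at e1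
    have e2 : cr y l = n * (cr u l + cr q l) := by
      rw [hin]
      simp only [cr, Prod.fst_add, Prod.snd_add, Prod.smul_fst, Prod.smul_snd, smul_eq_mul]; ring
    have e3 : cr l m1 = -(n * r) := by
      refine mul_left_cancel₀ ha.ne' ?_
      rw [← e1, e2]; ring
    have e4 : cr l m1 = (1 - k) * cr l m - cr u l - cr s l := by
      rw [hm1]
      simp only [cr, Prod.fst_add, Prod.snd_add, Prod.smul_fst, Prod.smul_snd, smul_eq_mul]; ring
    have hlm : r ∣ cr l m := by
      rw [← t.lm]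
      exact (abs_dvd _ _).2 dvd_rfl
    have e5 : cr u l = (1 - k) * cr l m + n * r := by
      rw [t.sl] at e4
      linarith
    rw [e5]
    exact dvd_add (hlm.mul_left _) (Dvd.intro_left _ rfl)

end T1

namespace T1

/-- the other slit of the same cylinder: `r` divides `q × l` and `s × q` -/
theorem flip (t : T1 O N r u v l q m s) (h : RC O N r) : r ∣ cr q l ∧ r ∣ cr s q := by
  obtain ⟨ε, hε, h1, h2⟩ := t.eps
  have hr := t.rpos
  have hp := t.has.pos
  obtain ⟨l', hl'⟩ : ∃ l' : Z2, l' = (0 : ℤ) • l + (-ε) • (u + q) := ⟨_, rfl⟩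
  have ul' : cr u l' = cr q l := by
    have : cr u l' = -ε * cr u q := by
      rw [hl']
      simp only [cr, Prod.fst_add, Prod.snd_add, Prod.smul_fst, Prod.smul_snd, smul_eq_mul]
      ring
    rw [this, t.uq h1 h2]
    linear_combination (cr q l) * h1
  have hcop : IsCoprime (0 : ℤ) (-ε) := ⟨0, -ε, by linear_combination h1⟩
  obtain ⟨q', hq'⟩ := exists_blk (u := u) (l := l) (q := q) (l1 := l') (i := 0) (j := -ε) hcop hl'
    (by rw [ul']; exact hp.2.2.2.1) (by rw [ul']; linarith [hp.2.1])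
  have hbl : Blk6 (lat l (u + q)) u l q := ⟨hp.2.1, hp.2.2.2.1, rfl⟩
  have al := hbl.area hq'
  have hT1 : Has6 O (u, v, l', q', m, s) :=
    t.has.change hq'.1 hq'.2.1 hq'.2.2 hp.2.2.1 hp.2.2.2.2 rfl
  have hN1 : vol6 (u, v, l', q', m, s) = N := by
    rw [← t.vol]
    simp only [vol6]
    linarith
  have lm' : cr l' m = -ε * r := by
    have : cr l' m = -ε * (cr u m + cr q m) := by
      rw [hl']
      simp only [cr, Prod.fst_add, Prod.snd_add, Prod.smul_fst, Prod.smul_snd, smul_eq_mul]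
      ring
    rw [this, t.um, t.qm, add_zero]
  have lm1 : |cr l' m| = r := by
    rw [lm', abs_mul, abs_neg, abs_of_pos hr]
    rcases hε with rfl | rfl <;> norm_num
  obtain ⟨i, j, t'⟩ := h.exists_T1 hr hT1 hN1 t.um lm1
  have g1 := t'.dvd_ul h
  rw [ul'] at g1
  refine ⟨g1, ?_⟩
  have g2 := t'.sl
  have g3 : cr (s + j • m) l' = cr s l' - j * cr l' m := by
    simp only [cr, Prod.fst_add, Prod.snd_add, Prod.smul_fst, Prod.smul_snd, smul_eq_mul]
    ring
  rw [g3, lm'] at g2
  have g4 : cr s l' = -ε * (cr s q - cr u s) := by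
    rw [hl']
    simp only [cr, Prod.fst_add, Prod.snd_add, Prod.smul_fst, Prod.smul_snd, smul_eq_mul]
    ring
  have g5 : cr s q = cr u s + j * r := by
    rw [g4] at g2
    have : -ε * (-ε * (cr s q - cr u s) - j * (-ε * r)) = 0 := by rw [g2, mul_zero]
    linear_combination this - (cr s q - cr u s - j * r) * h1
  rw [g5]
  exact dvd_add (t.dvd_us h) (Dvd.intro_left _ rfl)

/-- `r` divides all products -/
theorem all (t : T1 O N r u v l q m s) (h : RC O N r) :
    ∀ a ∈ ({u, v + l + m, l, q, m, s} : Set Z2), ∀ b ∈ ({u, v + l + m, l, q, m, s} : Set Z2),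
      r ∣ cr a b := by
  obtain ⟨ε, hε, h1, h2⟩ := t.eps
  have hr := t.rpos
  obtain ⟨f1, f2⟩ := t.flip h
  obtain ⟨d1, d2⟩ := t.dvd_W h
  have d3 := t.dvd_ul h
  have d4 := t.dvd_us h
  have d5 := t.dvd_sx h
  have d6 := t.dvd_xm h
  have d7 : r ∣ cr u q := by
    rw [t.uq h1 h2]
    exact (dvd_neg).2 (f1.mul_left _)
  obtain ⟨X', hX⟩ : ∃ X' : Z2, X' = v + l + m := ⟨_, rfl⟩
  rw [← hX] at d1 d5 d6 ⊢
  obtain ⟨k, hk⟩ := id d6
  have d8 : r ∣ cr X' l := by
    have e := cr_plucker u X' l m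
    rw [hk, t.um, h2] at e
    have : cr X' l = k * cr u l - ε * cr u X' := by
      refine mul_right_cancel₀ hr.ne' ?_
      linear_combination -e
    rw [this]
    exact dvd_sub (d3.mul_left _) (d1.mul_left _)
  have d9 : r ∣ cr X' q := by
    have e := cr_plucker X' q l m
    rw [t.qm, hk, h2, mul_zero, zero_sub] at e
    have : cr X' q = -(ε * k) * cr q l := by
      refine mul_right_cancel₀ hr.ne' ?_
      linear_combination (-ε) * e - (cr X' q * r) * h1
    rw [this]
    exact f1.mul_left _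
  have c1 : r ∣ cr l m := by rw [h2]; exact Dvd.intro_left _ rfl
  have c2 : r ∣ cr u m := by rw [t.um]
  have c3 : r ∣ cr q m := by rw [t.qm]; exact dvd_zero _
  have c4 : r ∣ cr s l := by rw [t.sl]; exact dvd_zero _
  have sw : ∀ a b : Z2, r ∣ cr a b → r ∣ cr b a := by
    intro a b hab
    rw [cr_swap' a b]
    exact (dvd_neg).2 hab
  have sf : ∀ a : Z2, r ∣ cr a a := by
    intro a
    rw [cr_self']
    exact dvd_zero _
  intro a ha b hb
  simp only [Set.mem_insert_iff, Set.mem_singleton_iff] at ha hb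
  rcases ha with rfl | rfl | rfl | rfl | rfl | rfl <;>
    rcases hb with rfl | rfl | rfl | rfl | rfl | rfl <;>
    first | exact sf _ | assumption | (apply sw; assumption)

end T1

theorem dvd_clo {S : Set Z2} (h : ∀ a ∈ S, ∀ b ∈ S, r ∣ cr a b) {a b : Z2}
    (ha : a ∈ AddSubgroup.closure S) (hb : b ∈ AddSubgroup.closure S) : r ∣ cr a b := by
  have h1 : ∀ a ∈ S, r ∣ cr a b := by
    intro a ha
    induction hb using AddSubgroup.closure_induction with
    | mem b hb => exact h a ha b hb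
    | zero => rw [cr_zero']; exact dvd_zero _
    | add b c _ _ h1 h2 => rw [cr_addr]; exact dvd_add h1 h2
    | neg b _ h1 => rw [cr_negr]; exact (dvd_neg).2 h1
  induction ha using AddSubgroup.closure_induction with
  | mem a ha => exact h1 a ha
  | zero => rw [cr_swap' b 0, cr_zero', neg_zero]; exact dvd_zero _
  | add a c _ _ h1 h2 => rw [cr_addl]; exact dvd_add h1 h2
  | neg a _ h1 => rw [cr_negl]; exact (dvd_neg).2 h1

/-- the centre with `u × m = |l × m|` if `x ∥ m`, `l × x = W` -/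
theorem OKC.center1 (hC : OKC O (U, x, l, q, m, s)) (hN : volC (U, x, l, q, m, s) = N)
    (h0 : cr m x = 0) (h1 : cr l x = cr U x) : ∃ u v : Z2, Has6 O (u, v, l, q, m, s) ∧
      vol6 (u, v, l, q, m, s) = N ∧ cr u m = |cr l m| ∧ lat u (v + l + m) = lat U x := by
  have hW := hC.1
  have hr := hC.rpos
  have hm0 : cr U m = cr l m := by
    have e : cr l x * (cr U m - cr l m) = (cr U x - cr l x) * cr l m +
        (cr U l) * cr m x := by
      simp only [cr]; ring
    rw [h0, h1] at e
    have e2 : cr U x * (cr U m - cr l m) = 0 := by rw [e]; ring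
    have := (mul_eq_zero.1 e2).resolve_left hW.ne'
    linarith
  obtain ⟨ε, hε, hερ⟩ : ∃ ε : ℤ, (ε = 1 ∨ ε = -1) ∧ ε * cr l m = |cr l m| := by
    rcases le_total 0 (cr l m) with g | g
    · exact ⟨1, Or.inl rfl, by rw [abs_of_nonneg g, one_mul]⟩
    · exact ⟨-1, Or.inr rfl, by rw [abs_of_nonpos g, neg_one_mul]⟩
  have hεε : ε * ε = 1 := by rcases hε with rfl | rfl <;> norm_num
  obtain ⟨j, hj⟩ : ∃ j : ℤ, j = (ε * cr U l) / cr U x := ⟨_, rfl⟩
  obtain ⟨u, hu⟩ : ∃ u : Z2, u = ε • U + j • x := ⟨_, rfl⟩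
  have hcop : IsCoprime ε j := by
    refine ⟨ε, 0, ?_⟩
    rw [zero_mul, add_zero, hεε]
  have um : cr u m = |cr l m| := by
    have : cr u m = ε * cr U m + j * cr x m := by
      rw [hu]
      simp only [cr, Prod.fst_add, Prod.snd_add, Prod.smul_fst, Prod.smul_snd, smul_eq_mul]; ring
    rw [this, hm0, hερ, cr_swap' m x, h0]; ring
  have ul : cr u l = ε * cr U l - j * cr U x := by
    have : cr u l = ε * cr U l + j * cr x l := by
      rw [hu]
      simp only [cr, Prod.fst_add, Prod.snd_add, Prod.smul_fst, Prod.smul_snd, smul_eq_mul]; ring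
    rw [this, cr_swap' l x, h1]; ring
  have ul0 : 0 ≤ cr u l := by
    rw [ul, hj]
    have := Int.emod_nonneg (ε * cr U l) hW.ne'
    have h2 := Int.emod_add_mul_ediv (ε * cr U l) (cr U x)
    nlinarith
  have ul1 : cr u l < cr U x := by
    rw [ul, hj]
    have := Int.emod_lt_of_pos (ε * cr U l) hW
    have h2 := Int.emod_add_mul_ediv (ε * cr U l) (cr U x)
    nlinarith
  have hu0 : u ≠ 0 := by
    intro h3
    have e : cr u m = 0 := by rw [h3]; simp [cr]
    rw [e] at um
    rw [← um] at hr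
    exact lt_irrefl _ hr
  have hmem : u ∈ AddSubgroup.closure ({U, x} : Set Z2) :=
    AddSubgroup.mem_closure_pair.2 ⟨ε, j, hu.symm⟩
  have hxm : x ∈ AddSubgroup.closure ({U, x} : Set Z2) := AddSubgroup.subset_closure (by simp)
  have ul2 : 0 < cr u l := by
    rcases ul0.lt_or_eq with g | g
    · exact g
    · exfalso
      have e1 : cr l u = 0 := by rw [cr_swap' u l, ← g, neg_zero]
      rcases hC.2.2.farV hmem hu0 (by rw [e1, zero_mul]) with f | f
      · rw [e1, abs_zero] at f; linarith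
      · rw [abs_cr_comm m u, um, abs_abs] at f; exact lt_irrefl _ f
  have ul3 : cr u l + cr u m < cr U x := by
    have hz : u + x ∈ AddSubgroup.closure ({U, x} : Set Z2) := AddSubgroup.add_mem _ hmem hxm
    have e1 : cr l (u + x) = cr U x - cr u l := by
      rw [cr_addr, h1, cr_swap' u l]; ring
    have e2 : cr m (u + x) = -|cr l m| := by
      rw [cr_addr, h0, cr_swap' u m, um]; ring
    have hz0 : u + x ≠ 0 := by
      intro h3
      rw [h3, cr_zero'] at e1
      linarith
    rcases hC.2.2.farV hz hz0 (by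
      rw [e1, e2]
      have : 0 < (cr U x - cr u l) * |cr l m| := mul_pos (by linarith) hr
      linarith) with f | f
    · rw [e1, abs_of_pos (by linarith : (0 : ℤ) < cr U x - cr u l)] at f
      rw [um]; linarith
    · rw [e2, abs_neg, abs_abs] at f
      exact (lt_irrefl _ f).elim
  obtain ⟨x', y1, y2, y3⟩ := hC.recenter hcop hu
  have ht := y3.center ul2 (by rw [um]; exact hr) (by rw [y2]; exact ul3)
  refine ⟨u, x' - l - m, ht, ?_, um, ?_⟩
  · rw [← hN]
    simp only [vol6, volC]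
    rw [← y2]
    simp only [cr, Prod.fst_sub, Prod.snd_sub]
    ring
  · have e : x' - l - m + l + m = x' := by abel
    rw [e, y1]

/-- **SPACING 1**: a vector of the lattice with `|w × m| = r`. -/
theorem RC.sp_m (h : RC O N r) (hR : Rect O U x l q m s) (hN : volC (U, x, l, q, m, s) = N)
    (hrr : |cr l m| = r) (hw : w ∈ AddSubgroup.closure ({U, x} : Set Z2)) (hwm : |cr w m| = r)
    {a b : Z2} (ha : a ∈ AddSubgroup.closure ({U, x, l, q, m, s} : Set Z2))
    (hb : b ∈ AddSubgroup.closure ({U, x, l, q, m, s} : Set Z2)) : r ∣ cr a b := by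
  have hC := hR.okc
  have hr : 0 < r := by rw [← hrr]; exact hC.rpos
  have hW := hC.1
  obtain ⟨i, j, hij, h0⟩ := exists_prim_zero (cr U m) (cr x m)
  -- a positive basis with the second vector parallel to `m`
  have key : ∀ i j : ℤ, IsCoprime i j → i * cr U m + j * cr x m = 0 →
      0 ≤ cr l (i • U + j • x) → ∀ a ∈ ({U, x, l, q, m, s} : Set Z2),
        ∀ b ∈ ({U, x, l, q, m, s} : Set Z2), r ∣ cr a b := by
    intro i j hij h0 hpos
    obtain ⟨V, k1, k2⟩ := exists_basis (U := U) (x := x) i j hij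
    obtain ⟨z, hz⟩ : ∃ z : Z2, z = i • U + j • x := ⟨_, rfl⟩
    rw [← hz] at k1 k2 hpos
    have zm : cr z m = 0 := by rw [hz, cr_zz_left]; exact h0
    have hV : V ∈ AddSubgroup.closure ({U, x} : Set Z2) := by
      rw [← k1]; exact AddSubgroup.subset_closure (by simp)
    rw [← k1] at hw
    obtain ⟨α, β, hαβ⟩ := AddSubgroup.mem_closure_pair.1 hw
    have e1 : cr w m = α * cr V m := by
      rw [← hαβ, cr_zz_left, zm]; ring
    rw [e1] at hwm
    have hVm0 : cr V m ≠ 0 := by
      intro h3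
      rw [h3, mul_zero, abs_zero] at hwm
      linarith
    have hVm1 := hR.gm V hV hVm0
    rw [hrr] at hVm1
    have hVm : |cr V m| = r := by
      refine le_antisymm ?_ hVm1
      rw [abs_mul] at hwm
      have : 0 < |α| := by
        rcases (abs_nonneg α).lt_or_eq with g | g
        · exact g
        · rw [← g, zero_mul] at hwm
          linarith
      nlinarith [abs_nonneg (cr V m)]
    have e2 := cr_plucker V z l m
    rw [zm, mul_zero, zero_sub] at e2
    have hVz : 0 < cr V z := by rw [k2]; exact hW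
    have lz : cr l z = cr V z := by
      have h3 := congrArg abs e2
      rw [abs_neg, abs_mul, abs_mul, hVm, hrr, abs_of_pos hVz] at h3
      have h4 := mul_right_cancel₀ hr.ne' h3
      rw [cr_swap' l z, abs_neg, abs_of_nonneg hpos] at h4
      exact h4
    have hC1 := hC.basis k1 (by rw [k2]; exact hW)
    obtain ⟨u, v, t1, t2, t3, t4⟩ := hC1.center1 (N := N) (by
      rw [← hN]
      simp only [volC]
      rw [k2]) (by rw [cr_swap' z m, zm, neg_zero]) lz
    have t : T1 O N r u v l q m s := ⟨t1, t2, by rw [t3, hrr], hrr, hR.qm, hR.sl⟩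
    have hall := t.all h
    have hle : ∀ c ∈ ({U, x, l, q, m, s} : Set Z2),
        c ∈ AddSubgroup.closure ({u, v + l + m, l, q, m, s} : Set Z2) := by
      have h5 : lat U x ≤ AddSubgroup.closure ({u, v + l + m, l, q, m, s} : Set Z2) := by
        have h6 : lat U x = lat u (v + l + m) := by rw [t4]; exact k1.symm
        rw [h6]
        apply AddSubgroup.closure_mono
        intro c hc
        simp only [Set.mem_insert_iff, Set.mem_singleton_iff] at hc ⊢
        rcases hc with rfl | rfl <;> simp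
      have hU : U ∈ lat U x := AddSubgroup.subset_closure (by simp)
      have hx : x ∈ lat U x := AddSubgroup.subset_closure (by simp)
      intro c hc
      simp only [Set.mem_insert_iff, Set.mem_singleton_iff] at hc
      rcases hc with rfl | rfl | rfl | rfl | rfl | rfl
      · exact h5 hU
      · exact h5 hx
      all_goals exact AddSubgroup.subset_closure (by simp)
    intro a ha b hb
    exact dvd_clo hall (hle a ha) (hle b hb)
  have hS : ∀ a ∈ ({U, x, l, q, m, s} : Set Z2), ∀ b ∈ ({U, x, l, q, m, s} : Set Z2),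
      r ∣ cr a b := by
    rcases le_total 0 (cr l (i • U + j • x)) with g | g
    · exact key i j hij h0 g
    · refine key (-i) (-j) hij.neg_neg (by linarith) ?_
      rw [neg_smul, neg_smul, ← neg_add, cr_negr]
      linarith
  exact dvd_clo hS ha hb

/-- **SPACING 1**: a vector of the lattice with `|w × l| = r`. -/
theorem RC.sp_l (h : RC O N r) (hR : Rect O U x l q m s) (hN : volC (U, x, l, q, m, s) = N)
    (hrr : |cr l m| = r) (hw : w ∈ AddSubgroup.closure ({U, x} : Set Z2)) (hwl : |cr w l| = r)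
    {a b : Z2} (ha : a ∈ AddSubgroup.closure ({U, x, l, q, m, s} : Set Z2))
    (hb : b ∈ AddSubgroup.closure ({U, x, l, q, m, s} : Set Z2)) : r ∣ cr a b := by
  have hle : AddSubgroup.closure ({U, x, l, q, m, s} : Set Z2) ≤
      AddSubgroup.closure ({U, x, -m, -s, -l, -q} : Set Z2) := by
    rw [AddSubgroup.closure_le]
    have hn : ∀ c : Z2, -c ∈ ({U, x, -m, -s, -l, -q} : Set Z2) →
        c ∈ AddSubgroup.closure ({U, x, -m, -s, -l, -q} : Set Z2) := by
      intro c hc
      have := AddSubgroup.neg_mem _ (AddSubgroup.subset_closure hc)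
      rwa [neg_neg] at this
    intro c hc
    simp only [Set.mem_insert_iff, Set.mem_singleton_iff] at hc
    rcases hc with rfl | rfl | rfl | rfl | rfl | rfl
    · exact AddSubgroup.subset_closure (by simp)
    · exact AddSubgroup.subset_closure (by simp)
    all_goals exact hn _ (by simp)
  refine h.sp_m hR.rev ?_ ?_ hw (by rw [cr_negr, abs_neg]; exact hwl) (hle ha) (hle hb)
  · rw [← hN]
    simp only [volC, cr, Prod.fst_neg, Prod.snd_neg]
    ring
  · rw [cr_negl, cr_negr, neg_neg, abs_cr_comm]; exact hrr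

/-- a primitive surface with spacing 1 has `r = 1` -/
theorem RC.sp_one (h : RC O N r) (hR : Rect O U x l q m s) (hN : volC (U, x, l, q, m, s) = N)
    (hrr : |cr l m| = r) (hw : w ∈ AddSubgroup.closure ({U, x} : Set Z2))
    (hwl : |cr w l| = r ∨ |cr w m| = r)
    (hP : AddSubgroup.closure ({U, x, l, q, m, s} : Set Z2) = ⊤) : r = 1 := by
  have hr : 0 < r := by rw [← hrr]; exact hR.okc.rpos
  have h1 : r ∣ cr ((1, 0) : Z2) ((0, 1) : Z2) := by
    rcases hwl with g | g
    · exact h.sp_l hR hN hrr hw g (by rw [hP]; trivial) (by rw [hP]; trivial)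
    · exact h.sp_m hR hN hrr hw g (by rw [hP]; trivial) (by rw [hP]; trivial)
  have h2 : cr ((1, 0) : Z2) ((0, 1) : Z2) = 1 := by simp [cr]
  rw [h2] at h1
  exact le_antisymm (Int.le_of_dvd one_pos h1) hr

end

end Pool.Agent.H4G.Six
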