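import Pool.Agent.H4G.Six.Stage1
import Pool.Agent.H4G.Six.LemA14

/-!
# Stage I: assembly (helper96)

Every surface with a tree has a tree with parallel slits, or a minimal configuration which is
rectangular; every configuration with the minimal value of `|l × m|` and the property `Big` is
rectangular after a twist.
-/

set_option autoImplicit false

namespace Pool.Agent.H4G.Six

open Pool.Agent.H4G

variable {X : Type} {O : PO X} {N r : ℤ} {u v l q m s U x : Z2}

/-- EVERY minimal configuration is rectangular after a twist. -/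
theorem RMin.toRect (h : RMin O N r) (hC : OKC O (U, x, l, q, m, s))
    (hN : volC (U, x, l, q, m, s) = N) (hrr : |cr l m| = r)
    (hB : Big (AddSubgroup.closure {U, x}) (cr U x) l m) :
    ∃ q1 s1, Rect O U x l q1 m s1 ∧ volC (U, x, l, q1, m, s1) = N := by
  obtain ⟨⟨i, j, hij, a1, a2, a3⟩, ⟨i', j', hij', b1, b2, b3⟩⟩ :=
    axesB hC.1 hC.lm_ne hC.2.2 hB (fun i j hij => h.noGood hC hN hrr hij)
  exact h.rect hC hN hrr hij a1 a2 a3 hij' b1 b2 b3

/-- the normal form of the minimal configuration -/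
theorem RMin.norm (h : RMin O N r) : ∃ U x l q m s, RNorm O U x l q m s ∧
    volC (U, x, l, q, m, s) = N ∧ cr l m = r := by
  obtain ⟨U, x, l, q, m, s, h1, h2, h3, h4⟩ := h.conf
  obtain ⟨q1, s1, k1, k2⟩ := h.toRect h1 h2 h3 h4
  rcases k1.pos_or h1.lm_ne with ⟨g1, g2⟩ | ⟨g1, g2⟩
  · obtain ⟨U', x', j1, j2⟩ := g1.norm g2
    refine ⟨U', x', l, q1, m, s1, j1, ?_, by rw [← h3, abs_of_pos g2]⟩
    rw [← k2]
    simp only [volC]
    rw [area_eq j2 h1.1 j1.okc.1]
  · obtain ⟨U', x', j1, j2⟩ := g1.norm g2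
    refine ⟨U', x', -m, -s1, -l, -q1, j1, ?_, ?_⟩
    · rw [← k2]
      simp only [volC]
      rw [area_eq j2 h1.1 j1.okc.1, cr_negl, cr_negr, cr_negl, cr_negr]
      ring
    · rw [← abs_of_pos g2, cr_negl, cr_negr, neg_neg, abs_cr_comm]; exact h3

/-- STAGE I -/
theorem stage1 (h : Has6 O (u, v, l, q, m, s)) (hN : vol6 (u, v, l, q, m, s) = N) :
    Par0 O N ∨ ∃ r, RMin O N r ∧ ∃ U x l q m s, RNorm O U x l q m s ∧
      volC (U, x, l, q, m, s) = N ∧ cr l m = r := by
  rcases exists_rmin h hN with g | ⟨r, g⟩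
  · exact Or.inl g
  · exact Or.inr ⟨r, g, g.norm⟩

end Pool.Agent.H4G.Six
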