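import Pool.Agent.H4G.Six.Drop14

/-!
# Stage I: tests at a centre for the minimal `r` (helper14)

`RMin.blk`: all pairs of slits of a tree. `RMin.cont`: the contents of `u × L` and `u × M` are at
least `r`. `RMin.cls`: the class of `l × m` modulo `gcd (e (u × m), e' (u × l))` for the slits of
the first rows.
-/

set_option autoImplicit false

namespace Pool.Agent.H4G.Six

open Pool.Agent.H4G

variable {X : Type} {O : PO X} {N r : ℤ} {U x u v l q m s l1 q1 m1 s1 z : Z2}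

theorem RMin.pos' (h : RMin O N r) : 0 < r := h.conf.pos

/-- all pairs of slits at a centre -/
theorem RMin.blk (h : RMin O N r) (hT : Has6 O (u, v, l, q, m, s))
    (hN : vol6 (u, v, l, q, m, s) = N) (hl : Blk6 (lat l (u + q)) u l1 q1)
    (hm : Blk6 (lat m (u + s)) u m1 s1) : Has6 O (u, v, l1, q1, m1, s1) ∧
      vol6 (u, v, l1, q1, m1, s1) = N ∧ r ≤ cr u l1 ∧ r ≤ cr u m1 ∧ r ≤ |cr l1 m1| := by
  obtain ⟨p1, p2, p3, p4, p5⟩ := hT.pos
  have hT1 := hT.change hl.1 hl.2.1 hl.2.2 hm.1 hm.2.1 hm.2.2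
  have a1 := Blk6.area (L := lat l (u + q)) ⟨p2, p4, rfl⟩ hl
  have a2 := Blk6.area (L := lat m (u + s)) ⟨p3, p5, rfl⟩ hm
  have hN1 : vol6 (u, v, l1, q1, m1, s1) = N := by
    rw [← hN]
    simp only [vol6]
    linarith
  exact ⟨hT1, hN1, h.tree hT1 hN1⟩

/-- a primitive vector as a slit, in the form `Blk6` -/
theorem exists_blk {i j : ℤ} (hij : IsCoprime i j) (hl : l1 = i • l + j • (u + q))
    (h1 : 0 < cr u l1) (h2 : cr u l1 < cr u l + cr q l) :
    ∃ q1, Blk6 (lat l (u + q)) u l1 q1 := by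
  obtain ⟨q1, k1, k2⟩ := exists_slit hij hl
  exact ⟨q1, h1, by rw [k2]; linarith, k1⟩

/-- all pairs of primitive vectors in the windows -/
theorem RMin.pair (h : RMin O N r) (hT : Has6 O (u, v, l, q, m, s))
    (hN : vol6 (u, v, l, q, m, s) = N) {i j i' j' : ℤ} (hij : IsCoprime i j)
    (hl : l1 = i • l + j • (u + q)) (hl1 : 0 < cr u l1) (hl2 : cr u l1 < cr u l + cr q l)
    (hij' : IsCoprime i' j') (hm : m1 = i' • m + j' • (u + s)) (hm1 : 0 < cr u m1)
    (hm2 : cr u m1 < cr u m + cr s m) : r ≤ cr u l1 ∧ r ≤ cr u m1 ∧ r ≤ |cr l1 m1| := by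
  obtain ⟨q1, k1⟩ := exists_blk hij hl hl1 hl2
  obtain ⟨s1, k2⟩ := exists_blk hij' hm hm1 hm2
  exact (h.blk hT hN k1 k2).2.2

/-- a vector of the first row -/
theorem exists_row (h1 : 0 < cr u l) (h2 : 0 < cr q l) : ∃ (i j : ℤ) (l1 q1 : Z2), IsCoprime i j ∧
    l1 = i • l + j • (u + q) ∧ cr u l1 = Int.gcd (cr u l) (cr u q) ∧
      Blk6 (lat l (u + q)) u l1 q1 := by
  obtain ⟨g, hg⟩ : ∃ g : ℤ, g = Int.gcd (cr u l) (cr u q) := ⟨_, rfl⟩
  have g0 : 0 < g := by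
    rw [hg]
    exact_mod_cast Int.gcd_pos_of_ne_zero_left _ h1.ne'
  have hb := Int.gcd_eq_gcd_ab (cr u l) (cr u q)
  obtain ⟨i, hi⟩ : ∃ i, i = Int.gcdA (cr u l) (cr u q) := ⟨_, rfl⟩
  obtain ⟨j, hj⟩ : ∃ j, j = Int.gcdB (cr u l) (cr u q) := ⟨_, rfl⟩
  rw [← hi, ← hj, ← hg] at hb
  obtain ⟨a, ha⟩ : g ∣ cr u l := by rw [hg]; exact Int.gcd_dvd_left _ _
  obtain ⟨b, hb'⟩ : g ∣ cr u q := by rw [hg]; exact Int.gcd_dvd_right _ _
  have hij : IsCoprime i j := by
    refine ⟨a, b, ?_⟩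
    have : g * (a * i + b * j) = g * 1 := by
      calc g * (a * i + b * j) = (g * a) * i + (g * b) * j := by ring
        _ = cr u l * i + cr u q * j := by rw [← ha, ← hb']
        _ = g * 1 := by rw [← hb, mul_one]
    exact mul_left_cancel₀ g0.ne' this
  have e : cr u (i • l + j • (u + q)) = g := by
    have : cr u (i • l + j • (u + q)) = cr u l * i + cr u q * j := by
      simp only [cr, Prod.fst_add, Prod.snd_add, Prod.smul_fst, Prod.smul_snd, smul_eq_mul]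
      ring
    rw [this, ← hb]
  have hle : g ≤ cr u l := Int.le_of_dvd h1 ⟨a, ha⟩
  obtain ⟨q1, k1⟩ := exists_blk hij rfl (by rw [e]; exact g0) (by rw [e]; linarith)
  exact ⟨i, j, _, q1, hij, rfl, by rw [e, hg], k1⟩

/-- **(K) THE CONTENT TEST** -/
theorem RMin.cont (h : RMin O N r) (hT : Has6 O (u, v, l, q, m, s))
    (hN : vol6 (u, v, l, q, m, s) = N) :
    r ≤ Int.gcd (cr u l) (cr u q) ∧ r ≤ Int.gcd (cr u m) (cr u s) := by
  obtain ⟨p1, p2, p3, p4, p5⟩ := hT.pos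
  obtain ⟨i, j, l1, q1, -, -, e1, k1⟩ := exists_row p2 p4
  obtain ⟨i', j', m1, s1, -, -, e2, k2⟩ := exists_row p3 p5
  obtain ⟨-, -, a1, a2, a3⟩ := h.blk hT hN k1 k2
  rw [e1] at a1
  rw [e2] at a2
  exact ⟨a1, a2⟩

/-- the other vectors of a row: `cr u l ∣ cr u q` -/
theorem Blk6.row {L : AddSubgroup Z2} (h : Blk6 L u l q) {k : ℤ} (hk : cr u q = k * cr u l)
    (t : ℤ) : ∃ q1, Blk6 L u (l + t • (u + q - k • l)) q1 := by
  obtain ⟨h1, h2, h3⟩ := h
  have e : cr u (l + t • (u + q - k • l)) = cr u l := by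
    have : cr u (l + t • (u + q - k • l)) = cr u l + t * (cr u q - k * cr u l) := by
      simp only [cr, Prod.fst_add, Prod.snd_add, Prod.fst_sub, Prod.snd_sub, Prod.smul_fst,
        Prod.smul_snd, smul_eq_mul]
      ring
    rw [this, hk]; ring
  obtain ⟨q1, k1⟩ := exists_blk (i := 1 - t * k) (j := t) (l := l) (q := q) (u := u)
    (l1 := l + t • (u + q - k • l)) ⟨1, k, by ring⟩ (by module) (by rw [e]; exact h1)
    (by rw [e]; linarith)
  rw [h3] at k1
  exact ⟨q1, k1⟩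

/-- a vector parallel to `u` crosses `m` in `(area / (u × l)) (u × m)` -/
theorem cr_row {k : ℤ} (h : 0 < cr u l) (hk : cr u q = k * cr u l) {E : ℤ}
    (hE : E * cr u l = (cr u l + cr q l) * cr u m) : cr (u + q - k • l) m = E := by
  refine mul_right_cancel₀ h.ne' ?_
  rw [hE]
  have : cr (u + q - k • l) m * cr u l - (cr u l + cr q l) * cr u m =
      (cr u q - k * cr u l) * cr l m := by
    simp only [cr, Prod.fst_add, Prod.snd_add, Prod.fst_sub, Prod.snd_sub, Prod.smul_fst,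
      Prod.smul_snd, smul_eq_mul]
    ring
  rw [hk, sub_self, zero_mul] at this
  linarith

/-- **(G) THE CLASS TEST** for the slits of the first rows: `E = (a / b) (u × m)` and
`E' = (a' / b') (u × l)` with the areas `a`, `a'` and `b = u × l`, `b' = u × m`. -/
theorem RMin.cls (h : RMin O N r) (hT : Has6 O (u, v, l, q, m, s))
    (hN : vol6 (u, v, l, q, m, s) = N) {E E' : ℤ} (hk : cr u l ∣ cr u q) (hk' : cr u m ∣ cr u s)
    (hE : E * cr u l = (cr u l + cr q l) * cr u m)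
    (hE' : E' * cr u m = (cr u m + cr s m) * cr u l) (t t' : ℤ) :
    r ≤ |cr l m + t * E - t' * E'| := by
  obtain ⟨p1, p2, p3, p4, p5⟩ := hT.pos
  obtain ⟨k, hk⟩ := hk
  obtain ⟨k', hk'⟩ := hk'
  rw [mul_comm] at hk hk'
  obtain ⟨q1, k1⟩ := Blk6.row (L := lat l (u + q)) ⟨p2, p4, rfl⟩ hk t
  obtain ⟨s1, k2⟩ := Blk6.row (L := lat m (u + s)) ⟨p3, p5, rfl⟩ hk' t'
  obtain ⟨-, -, -, -, a3⟩ := h.blk hT hN k1 k2
  have f1 := cr_row p2 hk hE
  have f2 := cr_row p3 hk' hE'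
  have f0 : cr (u + q - k • l) (u + s - k' • m) = 0 := by
    refine (mul_eq_zero.1 ?_).resolve_right (mul_pos p2 p3).ne'
    have : cr (u + q - k • l) (u + s - k' • m) * (cr u l * cr u m) =
        (cr u q - k * cr u l) * (cr (u + s - k' • m) l * cr u m) * -1 +
        (cr u s - k' * cr u m) * (cr (u + q - k • l) l * cr u m) +
        (cr u q - k * cr u l) * (cr u s - k' * cr u m) * cr l m * -1 +
        (cr u q - k * cr u l) * (cr u s - k' * cr u m) * cr l m := by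
      simp only [cr, Prod.fst_add, Prod.snd_add, Prod.fst_sub, Prod.snd_sub, Prod.smul_fst,
        Prod.smul_snd, smul_eq_mul]
      ring
    rw [this, hk, hk']; ring
  have f3 : cr (l + t • (u + q - k • l)) (m + t' • (u + s - k' • m)) =
      cr l m + t * cr (u + q - k • l) m - t' * cr (u + s - k' • m) l +
        t * t' * cr (u + q - k • l) (u + s - k' • m) := by
    simp only [cr, Prod.fst_add, Prod.snd_add, Prod.fst_sub, Prod.snd_sub, Prod.smul_fst,
      Prod.smul_snd, smul_eq_mul]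
    ring
  rw [f3, f0, f1, f2, mul_zero, add_zero] at a3
  exact a3

/-- the class test with the gcd -/
theorem RMin.cls_gcd (h : RMin O N r) (hT : Has6 O (u, v, l, q, m, s))
    (hN : vol6 (u, v, l, q, m, s) = N) {E E' : ℤ} (hk : cr u l ∣ cr u q) (hk' : cr u m ∣ cr u s)
    (hE : E * cr u l = (cr u l + cr q l) * cr u m)
    (hE' : E' * cr u m = (cr u m + cr s m) * cr u l) (t : ℤ) :
    r ≤ |cr l m + t * Int.gcd E E'| := by
  have hb := Int.gcd_eq_gcd_ab E E'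
  have := h.cls hT hN hk hk' hE hE' (t * Int.gcdA E E') (-(t * Int.gcdB E E'))
  have e1 : cr l m + t * Int.gcdA E E' * E - -(t * Int.gcdB E E') * E' =
      cr l m + t * (E * Int.gcdA E E' + E' * Int.gcdB E E') := by ring
  rw [e1, ← hb] at this
  exact this

/-- the first rows of a tree -/
theorem Has6.rows (hT : Has6 O (u, v, l, q, m, s)) (hN : vol6 (u, v, l, q, m, s) = N) :
    ∃ l1 q1 m1 s1 : Z2, Has6 O (u, v, l1, q1, m1, s1) ∧ vol6 (u, v, l1, q1, m1, s1) = N ∧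
      Blk6 (lat l (u + q)) u l1 q1 ∧ Blk6 (lat m (u + s)) u m1 s1 ∧
      cr u l1 = Int.gcd (cr u l) (cr u q) ∧ cr u m1 = Int.gcd (cr u m) (cr u s) ∧
      cr u l1 ∣ cr u q1 ∧ cr u m1 ∣ cr u s1 := by
  obtain ⟨p1, p2, p3, p4, p5⟩ := hT.pos
  obtain ⟨i, j, l1, q1, -, -, e1, k1⟩ := exists_row p2 p4
  obtain ⟨i', j', m1, s1, -, -, e2, k2⟩ := exists_row p3 p5
  have a1 := Blk6.area (L := lat l (u + q)) ⟨p2, p4, rfl⟩ k1
  have a2 := Blk6.area (L := lat m (u + s)) ⟨p3, p5, rfl⟩ k2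
  have dv : ∀ (l q l1 q1 : Z2), lat l1 (u + q1) = lat l (u + q) →
      cr u l1 = Int.gcd (cr u l) (cr u q) → cr u l1 ∣ cr u q1 := by
    intro l q l1 q1 h1 h2
    have h3 : u + q1 ∈ lat l (u + q) := by
      rw [← h1]
      exact AddSubgroup.subset_closure (by simp)
    obtain ⟨a, b, hab⟩ := mem_lat_coords h3
    have h4 : cr u q1 = a * cr u l + b * cr u q := by
      have h5 : cr u (u + q1) = cr u (a • l + b • (u + q)) := by rw [hab]
      simp only [cr, Prod.fst_add, Prod.snd_add, Prod.smul_fst, Prod.smul_snd, smul_eq_mul] at *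
      linarith
    rw [h2, h4]
    exact dvd_add (Dvd.dvd.mul_left (Int.gcd_dvd_left _ _) _)
      (Dvd.dvd.mul_left (Int.gcd_dvd_right _ _) _)
  refine ⟨l1, q1, m1, s1, hT.change k1.1 k1.2.1 k1.2.2 k2.1 k2.2.1 k2.2.2, ?_, k1, k2, e1, e2,
    dv l q l1 q1 k1.2.2 e1, dv m s m1 s1 k2.2.2 e2⟩
  rw [← hN]
  simp only [vol6]
  linarith

end Pool.Agent.H4G.Six
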