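import Pool.Agent.H4G.Six.TheoremB0

/-!
# Theorem B (helper58)

`theoremB`: if all contents of all trees are at least `N / K`, the least good configuration `r` has
`N ≤ K ^ 4 * r`; the configurations without a centre (`Yng`) with two small sides are a hypothesis.
-/

set_option autoImplicit false

namespace Pool.Agent.H4G.Six

open Pool.Agent.H4G

variable {X : Type} {O : PO X} {N K r : ℤ} {U x u v l q m s z : Z2}

/-- both vectors on the axes: the corner is a centre -/
theorem Coarse.corner (hco : Coarse O N K) (hK : 0 < K) (hC : OKC O (U, x, l, q, m, s))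
    (hN : volC (U, x, l, q, m, s) = N) {E F : ℤ} (hr0 : 0 < r)
    (hlm : cr l m = r) (Ul : cr U l = 0) (Um : cr U m = E) (xm : cr x m = 0) (lx : cr l x = F)
    (hE : r < E) (hF : r < F) (hc : (E + F) * r < E * F) : N ≤ K ^ 2 * r := by
  have hW := hC.1
  have hE0 := hr0.trans hE
  have hF0 := hr0.trans hF
  have hpl := cr_plucker U x l m
  have xl : cr x l = -F := by rw [cr_swap', lx]
  rw [Ul, xl, Um, hlm] at hpl
  have hWr : cr U x * r = E * F := by linear_combination -hpl
  have e1 : cr ((1 : ℤ) • U + (-1 : ℤ) • x) l = F := by rw [cr_zz_left, Ul, xl]; ring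
  have e2 : cr ((1 : ℤ) • U + (-1 : ℤ) • x) m = E := by rw [cr_zz_left, Um, xm]; ring
  have key : F + E < cr U x := by
    have : (F + E) * r < cr U x * r := by rw [hWr]; linarith
    exact lt_of_mul_lt_mul_right this hr0.le
  obtain ⟨k1, k2⟩ := hco.prod hK hC hN isCoprime_one_left rfl
    (by rw [e1, e2]; exact mul_pos hF0 hE0)
    (by rw [e1, e2, abs_of_pos hF0, abs_of_pos hE0]; exact key)
  rw [e1, abs_of_pos hF0] at k1
  rw [e2, abs_of_pos hE0] at k2
  have hWN := volC_pos hC hN
  exact sq_bound (hW.trans hWN) hr0 k1 k2 hWr hWN.le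

/-- the least configuration has a bounded geometry, or it is a Young configuration -/
theorem RMin.yng_or (hm : RMin O N r) (hco : Coarse O N K) (hK : 0 < K) :
    N ≤ K ^ 2 * r ∨ ∃ E F H T U x l q m s, Yng O N r 1 E F H T U x l q m s := by
  obtain ⟨U, x, l, q, m, s, h1, h2, h3⟩ := hm.norm
  have hr0 : 0 < r := by rw [← h3]; exact h1.pos
  have hE := h1.X0
  have hF := h1.eta
  have hg := h1.tau
  have hC := h1.okc
  have hUl := h1.Ul
  rw [h3] at hE hF hg
  by_cases hd : cr U m ∣ cr x m
  · obtain ⟨c, hc⟩ := hd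
    have hcl : AddSubgroup.closure ({U, x - c • U} : Set Z2) = AddSubgroup.closure {U, x} := by
      apply le_antisymm
      · rw [AddSubgroup.closure_le]
        rintro w (rfl | rfl)
        · exact AddSubgroup.mem_closure_pair.2 ⟨1, 0, by module⟩
        · exact AddSubgroup.mem_closure_pair.2 ⟨-c, 1, by module⟩
      · rw [AddSubgroup.closure_le]
        rintro w (rfl | rfl)
        · exact AddSubgroup.mem_closure_pair.2 ⟨1, 0, by module⟩
        · exact AddSubgroup.mem_closure_pair.2 ⟨c, 1, by module⟩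
    have ha : cr U (x - c • U) = cr U x := by
      simp only [cr, Prod.fst_sub, Prod.snd_sub, Prod.smul_fst, Prod.smul_snd, smul_eq_mul]; ring
    have hC1 : OKC O (U, x - c • U, l, q, m, s) := hC.basis hcl (by rw [ha]; exact hC.1)
    have hN1 : volC (U, x - c • U, l, q, m, s) = N := by
      rw [← h2]
      simp only [volC, ha]
    have xm : cr (x - c • U) m = 0 := by
      simp only [cr, Prod.fst_sub, Prod.snd_sub, Prod.smul_fst, Prod.smul_snd,
        smul_eq_mul] at hc ⊢
      linear_combination hc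
    have lx : cr l (x - c • U) = cr l x := by
      simp only [cr, Prod.fst_sub, Prod.snd_sub, Prod.smul_fst, Prod.smul_snd,
        smul_eq_mul] at hUl ⊢
      linear_combination c * hUl
    have hF1 : r < cr l x := by
      by_contra hcon
      have hFr : cr l x = r := le_antisymm (not_lt.1 hcon) hF
      refine hC1.2.2 (x - c • U) (AddSubgroup.subset_closure (by simp)) ?_ ?_
      · intro e
        rw [e, cr_zero'] at lx
        linarith
      · rw [xm, lx, hFr, h3]
        exact ⟨by simp, by rw [zero_mul]; exact (mul_pos hr0 hr0).le, (mul_pos hr0 hr0).le,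
          le_rfl⟩
    by_cases hy : cr U m * cr l x ≤ (cr U m + cr l x) * r
    · right
      exact ⟨cr U m, cr l x, cr q l, cr s m, U, x - c • U, l, q, m, s,
        ⟨hC1, hN1, Or.inl rfl, hr0, by rw [h3, one_mul], hUl, rfl, xm, by rw [lx, one_mul], h1.qm,
          h1.sl, rfl, rfl, hE, hF1, hy⟩⟩
    · left
      exact hco.corner hK hC1 hN1 hr0 h3 hUl rfl xm lx hE hF1 (not_le.1 hy)
  · left
    exact hco.row hK hC h2 (σ := 1) (Or.inl rfl) hr0 (by rw [h3, one_mul]) hUl rfl
      (by rw [one_mul]) hE hF hg hd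

/-- the Young configurations with two small sides -/
def YngMain (O : PO X) (N K r : ℤ) : Prop :=
  ∀ (σ E F H T n1 n2 : ℤ) (U x l q m s : Z2), Yng O N r σ E F H T U x l q m s →
    n1 * (E * r) = (E + T) * (F - r) → n2 * (F * r) = (F + H) * (E - r) → K * E < N → K * F < N →
    H ≤ T → N ≤ K ^ 4 * r

/-- THEOREM B -/
theorem theoremB (hm : RMin O N r) (hco : Coarse O N K) (hK : 3 ≤ K) (hY : YngMain O N K r) :
    N ≤ K ^ 4 * r := by
  have hK0 : 0 < K := by linarith
  have hr0 : 0 < r := hm.pos'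
  have hk2 : K ^ 2 * r ≤ K ^ 4 * r := by
    refine mul_le_mul_of_nonneg_right ?_ hr0.le
    exact pow_le_pow_right₀ (by linarith) (by norm_num)
  have hk3 : (K ^ 2 + 2 * K) * r ≤ K ^ 4 * r := by
    refine mul_le_mul_of_nonneg_right ?_ hr0.le
    have : K ^ 2 * 9 ≤ K ^ 2 * K ^ 2 := mul_le_mul_of_nonneg_left (by nlinarith) (sq_nonneg K)
    have : K ^ 4 = K ^ 2 * K ^ 2 := by ring
    nlinarith
  rcases hm.yng_or hco hK0 with h | ⟨E, F, H, T, U, x, l, q, m, s, h⟩
  · exact h.trans hk2
  rcases h.n1 hm hco hK0 with ⟨n1, e1⟩ | g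
  swap
  · exact g.trans hk2
  rcases h.n2 hm hco hK0 with ⟨n2, e2⟩ | g
  swap
  · exact g.trans hk2
  by_cases hE : K * E < N
  swap
  · exact (h.large e1 hK0 (not_lt.1 hE)).trans hk3
  by_cases hF : K * F < N
  swap
  · exact (h.rev.large e2 hK0 (not_lt.1 hF)).trans hk3
  rcases le_total H T with g | g
  · exact hY _ _ _ _ _ _ _ _ _ _ _ _ _ h e1 e2 hE hF g
  · exact hY _ _ _ _ _ _ _ _ _ _ _ _ _ h.rev e2 e1 hF hE g

end Pool.Agent.H4G.Six
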