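import Pool.Agent.H4G.Six.BMin
import Pool.Agent.H4G.Six.Stage1B

/-!
# Theorem B, the frame (helper58)

If every tree has both contents at least `N / K`, then the least good configuration `r` has
`N ≤ K ^ 4 * r`. Here: the configurations with a centre, the structure `Yng` of a configuration
without a centre, and the integrality of `n1`, `n2`.
-/

set_option autoImplicit false

namespace Pool.Agent.H4G.Six

open Pool.Agent.H4G

variable {X : Type} {O : PO X} {N K r : ℤ} {U x u v l q m s z : Z2}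

/-- all contents of all trees are at least `N / K` -/
def Coarse (O : PO X) (N K : ℤ) : Prop :=
  ∀ u v l q m s : Z2, Has6 O (u, v, l, q, m, s) → vol6 (u, v, l, q, m, s) = N →
    N ≤ K * ct u l q

theorem Coarse.M (h : Coarse O N K) (hT : Has6 O (u, v, l, q, m, s))
    (hN : vol6 (u, v, l, q, m, s) = N) : N ≤ K * ct u m s := by
  have := h _ _ _ _ _ _ hT.swap (vol6_swap.trans hN)
  unfold ct at *
  rwa [cr_negl, cr_negr, neg_neg, cr_negl, cr_negr, neg_neg] at this

/-- the contents at a centre of a configuration -/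
theorem Coarse.centre (hco : Coarse O N K) (hC : OKC O (U, x, l, q, m, s))
    (hN : volC (U, x, l, q, m, s) = N) {i j : ℤ} (hij : IsCoprime i j) (hz : z = i • U + j • x)
    (h1 : 0 < cr z l * cr z m) (h4 : |cr z l| + |cr z m| < cr U x) :
    (∃ g, 0 < g ∧ g ∣ cr z l ∧ g ∣ cr z q ∧ N ≤ K * g) ∧
      ∃ g, 0 < g ∧ g ∣ cr z m ∧ g ∣ cr z s ∧ N ≤ K * g := by
  obtain ⟨w, v', hw, k1, k2, k3, k4, -⟩ := hC.tree_at hN hij hz h1 h4
  have p := k1.pos
  have hd : ∀ a b : Z2, ct w a b ∣ cr z a ∧ ct w a b ∣ cr z b := by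
    intro a b
    have e1 := ct_dvd_left (u := w) (l := a) (q := b)
    have e2 := ct_dvd_right (u := w) (l := a) (q := b)
    rcases hw with g | g
    · rw [g] at e1 e2 ⊢
      exact ⟨e1, e2⟩
    · rw [g] at e1 e2 ⊢
      refine ⟨e1.trans ?_, e2.trans ?_⟩
      · rw [cr_negl]; exact (neg_dvd.2 dvd_rfl)
      · rw [cr_negl]; exact (neg_dvd.2 dvd_rfl)
  exact ⟨⟨ct w l q, ct_pos p.2.1, (hd l q).1, (hd l q).2, hco _ _ _ _ _ _ k1 k2⟩,
    ct w m s, ct_pos p.2.2.1, (hd m s).1, (hd m s).2, hco.M k1 k2⟩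

/-- the products at a centre of a configuration -/
theorem Coarse.prod (hco : Coarse O N K) (hK : 0 < K) (hC : OKC O (U, x, l, q, m, s))
    (hN : volC (U, x, l, q, m, s) = N) {i j : ℤ} (hij : IsCoprime i j) (hz : z = i • U + j • x)
    (h1 : 0 < cr z l * cr z m) (h4 : |cr z l| + |cr z m| < cr U x) :
    N ≤ K * |cr z l| ∧ N ≤ K * |cr z m| := by
  obtain ⟨⟨g, g0, g1, -, g3⟩, g', g0', g1', -, g3'⟩ := hco.centre hC hN hij hz h1 h4
  have n1 : cr z l ≠ 0 := by
    rintro e
    rw [e, zero_mul] at h1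
    exact lt_irrefl _ h1
  have n2 : cr z m ≠ 0 := by
    rintro e
    rw [e, mul_zero] at h1
    exact lt_irrefl _ h1
  have a1 : g ≤ |cr z l| := Int.le_of_dvd (abs_pos.2 n1) ((dvd_abs _ _).2 g1)
  have a2 : g' ≤ |cr z m| := Int.le_of_dvd (abs_pos.2 n2) ((dvd_abs _ _).2 g1')
  exact ⟨g3.trans (mul_le_mul_of_nonneg_left a1 hK.le),
    g3'.trans (mul_le_mul_of_nonneg_left a2 hK.le)⟩

theorem volC_pos (hC : OKC O (U, x, l, q, m, s)) (hN : volC (U, x, l, q, m, s) = N) :
    cr U x < N := by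
  rw [← hN]
  have h1 := hC.posQ
  have h2 := hC.posS
  simp only [volC]
  linarith

/-- both products of a centre bound the area -/
theorem sq_bound {N K E F W r : ℤ} (hN : 0 < N) (hr : 0 < r) (h1 : N ≤ K * F)
    (h2 : N ≤ K * E) (hW : W * r = E * F) (hWN : W ≤ N) : N ≤ K ^ 2 * r := by
  have a1 : N * N ≤ (K * F) * (K * E) := mul_le_mul h1 h2 hN.le (hN.le.trans h1)
  have a2 : (K * F) * (K * E) = K ^ 2 * (W * r) := by rw [hW]; ring
  have a3 : K ^ 2 * (W * r) ≤ K ^ 2 * (N * r) :=
    mul_le_mul_of_nonneg_left (mul_le_mul_of_nonneg_right hWN hr.le) (sq_nonneg K)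
  have a4 : N * N ≤ N * (K ^ 2 * r) := by
    calc N * N ≤ K ^ 2 * (W * r) := by rw [← a2]; exact a1
      _ ≤ K ^ 2 * (N * r) := a3
      _ = N * (K ^ 2 * r) := by ring
  exact le_of_mul_le_mul_left a4 hN

/-- the first row of a rectangular configuration contains a centre -/
theorem Coarse.rowAux (hco : Coarse O N K) (hK : 0 < K) (hC : OKC O (U, x, l, q, m, s))
    (hN : volC (U, x, l, q, m, s) = N) {σ E F b i : ℤ} (hσ : σ = 1 ∨ σ = -1) (hr0 : 0 < r)
    (hlm : cr l m = σ * r) (Ul : cr U l = 0) (Um : cr U m = E) (lx : cr l x = σ * F)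
    (hE : r < E) (hF : r ≤ F) (hzm : cr (i • U + (1 : ℤ) • x) m = -σ * b) (hb : 0 < b)
    (hbE : b ≤ E - r) : N ≤ K ^ 2 * r := by
  have hW := hC.1
  have hs : σ * σ = 1 := by rcases hσ with g | g <;> rw [g] <;> norm_num
  have hsa : |σ| = 1 := by rcases hσ with g | g <;> rw [g] <;> norm_num
  have hpl := cr_plucker U x l m
  have xl : cr x l = -(σ * F) := by rw [cr_swap', lx]
  rw [Ul, xl, Um, hlm] at hpl
  have hWr : cr U x * r = E * F := by
    have e : σ * σ * (cr U x * r) = σ * σ * (E * F) := by linear_combination -σ * hpl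
    rwa [hs, one_mul, one_mul] at e
  have hzl : cr (i • U + (1 : ℤ) • x) l = -σ * F := by
    rw [cr_zz_left, Ul, xl]; ring
  have hF0 : 0 < F := lt_of_lt_of_le hr0 hF
  by_cases key : F + b < cr U x
  · have h1 : 0 < cr (i • U + (1 : ℤ) • x) l * cr (i • U + (1 : ℤ) • x) m := by
      rw [hzl, hzm]
      have e : -σ * F * (-σ * b) = F * b := by linear_combination F * b * hs
      rw [e]
      exact mul_pos hF0 hb
    have e1 : |cr (i • U + (1 : ℤ) • x) l| = F := by
      rw [hzl, abs_mul, abs_neg, hsa, one_mul, abs_of_pos hF0]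
    have e2 : |cr (i • U + (1 : ℤ) • x) m| = b := by
      rw [hzm, abs_mul, abs_neg, hsa, one_mul, abs_of_pos hb]
    obtain ⟨k1, k2⟩ := hco.prod hK hC hN isCoprime_one_right rfl h1 (by rw [e1, e2]; exact key)
    rw [e1] at k1
    rw [e2] at k2
    have hWN := volC_pos hC hN
    have k3 : N ≤ K * E := k2.trans (mul_le_mul_of_nonneg_left (by linarith) hK.le)
    exact sq_bound (hW.trans hWN) hr0 k1 k3 hWr hWN.le
  · exfalso
    push Not at key
    have e3 : E * F ≤ (F + b) * r := by
      rw [← hWr]; exact mul_le_mul_of_nonneg_right key hr0.le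
    have e4 : b * r ≤ (E - r) * r := mul_le_mul_of_nonneg_right hbE hr0.le
    have e5 : (E - r) * (F - r) ≤ 0 := by nlinarith
    have hFr : F = r := by
      by_contra hne
      have : r < F := lt_of_le_of_ne hF (Ne.symm hne)
      have := mul_pos (sub_pos.2 hE) (sub_pos.2 this)
      linarith
    have hbr : b = E - r := by
      rw [hFr] at e3
      have : (E - r) * r ≤ b * r := by linarith
      exact le_antisymm hbE (le_of_mul_le_mul_right this hr0)
    have m1 : cr ((i + σ) • U + (1 : ℤ) • x) m = σ * r := by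
      have e : cr (i • U + (1 : ℤ) • x) m = i * E + cr x m := by rw [cr_zz_left, Um]; ring
      rw [cr_zz_left, Um]
      rw [hzm] at e
      rw [hbr] at e
      linear_combination -e
    have m2 : cr l ((i + σ) • U + (1 : ℤ) • x) = σ * r := by
      rw [cr_swap', cr_zz_left, Ul, xl, hFr]; ring
    have hne : (i + σ) • U + (1 : ℤ) • x ≠ 0 := by
      intro e
      rw [e] at m1
      have : σ * r = 0 := by rw [← m1]; simp [cr]
      rcases mul_eq_zero.1 this with g | g
      · rw [g] at hs; norm_num at hs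
      · exact hr0.ne' g
    refine hC.2.2 _ (AddSubgroup.mem_closure_pair.2 ⟨i + σ, 1, rfl⟩) hne ?_
    rw [m1, m2, hlm]
    have e : σ * r * (σ * r) = r * r := by linear_combination r * r * hs
    rw [e]
    exact ⟨(mul_pos hr0 hr0).le, le_rfl, (mul_pos hr0 hr0).le, le_rfl⟩

/-- index at least two: there is a centre -/
theorem Coarse.row (hco : Coarse O N K) (hK : 0 < K) (hC : OKC O (U, x, l, q, m, s))
    (hN : volC (U, x, l, q, m, s) = N) {σ E F : ℤ} (hσ : σ = 1 ∨ σ = -1) (hr0 : 0 < r)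
    (hlm : cr l m = σ * r) (Ul : cr U l = 0) (Um : cr U m = E) (lx : cr l x = σ * F)
    (hE : r < E) (hF : r ≤ F) (hg : r ≤ Int.gcd E (cr x m)) (nd : ¬ E ∣ cr x m) :
    N ≤ K ^ 2 * r := by
  have hE0 : 0 < E := hr0.trans hE
  have hg1 : (Int.gcd E (cr x m) : ℤ) ∣ E := Int.gcd_dvd_left ..
  have hg2 : (Int.gcd E (cr x m) : ℤ) ∣ cr x m := Int.gcd_dvd_right ..
  have hdm := Int.mul_ediv_add_emod (cr x m) E
  have h0 : 0 ≤ cr x m % E := Int.emod_nonneg _ hE0.ne'
  have h1 : cr x m % E < E := Int.emod_lt_of_pos _ hE0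
  have hne : cr x m % E ≠ 0 := fun e => nd (Int.dvd_of_emod_eq_zero e)
  have h2 : 0 < cr x m % E := lt_of_le_of_ne h0 (Ne.symm hne)
  have h3 : (Int.gcd E (cr x m) : ℤ) ∣ cr x m % E := by
    have : cr x m % E = cr x m - E * (cr x m / E) := by linarith
    rw [this]
    exact dvd_sub hg2 (hg1.mul_right _)
  have h4 : r ≤ cr x m % E := hg.trans (Int.le_of_dvd h2 h3)
  have h5 : r ≤ E - cr x m % E :=
    hg.trans (Int.le_of_dvd (by linarith) (dvd_sub hg1 h3))
  rcases hσ with g | g
  · refine hco.rowAux hK hC hN (i := -(cr x m / E + 1)) (b := E - cr x m % E) (Or.inl g) hr0 hlm Ul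
      Um lx hE hF ?_ (by linarith) (by linarith)
    rw [cr_zz_left, Um, g]
    linear_combination -hdm
  · refine hco.rowAux hK hC hN (i := -(cr x m / E)) (b := cr x m % E) (Or.inr g) hr0 hlm Ul
      Um lx hE hF ?_ h2 (by linarith)
    rw [cr_zz_left, Um, g]
    linear_combination -hdm

/-! ## The configuration without a centre -/

/-- the Young configuration, `l × m = σ r` -/
structure Yng (O : PO X) (N r σ E F H T : ℤ) (U x l q m s : Z2) : Prop where
  okc : OKC O (U, x, l, q, m, s)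
  vol : volC (U, x, l, q, m, s) = N
  sgn : σ = 1 ∨ σ = -1
  r0 : 0 < r
  lm : cr l m = σ * r
  Ul : cr U l = 0
  Um : cr U m = E
  xm : cr x m = 0
  lx : cr l x = σ * F
  qm : cr q m = 0
  sl : cr s l = 0
  ql : cr q l = H
  sm : cr s m = T
  rE : r < E
  rF : r < F
  nc : E * F ≤ (E + F) * r

section
variable {σ E F H T : ℤ}

theorem Yng.ss (h : Yng O N r σ E F H T U x l q m s) : σ * σ = 1 := by
  rcases h.sgn with g | g <;> rw [g] <;> norm_num

theorem Yng.sa (h : Yng O N r σ E F H T U x l q m s) : |σ| = 1 := by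
  rcases h.sgn with g | g <;> rw [g] <;> norm_num

theorem Yng.Wr (h : Yng O N r σ E F H T U x l q m s) : cr U x * r = E * F := by
  have hpl := cr_plucker U x l m
  have xl : cr x l = -(σ * F) := by rw [cr_swap', h.lx]
  rw [h.Ul, xl, h.Um, h.lm] at hpl
  have hs := h.ss
  have e : σ * σ * (cr U x * r) = σ * σ * (E * F) := by linear_combination -σ * hpl
  rwa [hs, one_mul, one_mul] at e

theorem Yng.volN (h : Yng O N r σ E F H T U x l q m s) : N = cr U x + H + T := by
  rw [← h.vol, ← h.ql, ← h.sm]; rfl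

theorem Yng.H0 (h : Yng O N r σ E F H T U x l q m s) : 0 < H := by
  rw [← h.ql]; exact h.okc.posQ

theorem Yng.T0 (h : Yng O N r σ E F H T U x l q m s) : 0 < T := by
  rw [← h.sm]; exact h.okc.posS

/-- the mirror form: the two slits are exchanged -/
theorem Yng.rev (h : Yng O N r σ E F H T U x l q m s) :
    Yng O N r (-σ) F E T H (σ • x) (-σ • U) (-m) (-s) (-l) (-q) := by
  have hs := h.ss
  have c1 : ∀ a b : Z2, cr (-a) (-b) = cr a b := by
    intro a b
    rw [cr_negl, cr_negr, neg_neg]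
  have c2 : ∀ (a : ℤ) (b c : Z2), cr (a • b) c = a * cr b c := by
    intro a b c
    simp only [cr, Prod.smul_fst, Prod.smul_snd, smul_eq_mul]; ring
  have c3 : ∀ (a : ℤ) (b c : Z2), cr b (a • c) = a * cr b c := by
    intro a b c
    simp only [cr, Prod.smul_fst, Prod.smul_snd, smul_eq_mul]; ring
  have ha : cr (σ • x) (-σ • U) = cr U x := by
    rw [c2, c3, cr_swap' U x]
    linear_combination cr U x * hs
  have hcl : AddSubgroup.closure ({σ • x, -σ • U} : Set Z2) = AddSubgroup.closure {U, x} := by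
    rcases h.sgn with g | g
    · rw [g, one_smul, neg_smul, one_smul, clo_neg_right, clo_comm]
    · rw [g, neg_neg, one_smul, neg_smul, one_smul, clo_neg_left, clo_comm]
  have hok : OKC O (σ • x, -σ • U, -m, -s, -l, -q) := by
    refine h.okc.rev.basis hcl ?_
    rw [ha]; exact h.okc.1
  refine ⟨hok, ?_, ?_, h.r0, ?_, ?_, ?_, ?_, ?_, ?_, ?_, ?_, ?_, h.rF, h.rE, ?_⟩
  · rw [← h.vol]
    simp only [volC, c1, ha]
    ring
  · rcases h.sgn with g | g
    · exact Or.inr (by rw [g])
    · exact Or.inl (by rw [g, neg_neg])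
  · rw [c1, cr_swap', h.lm]; ring
  · rw [c2, cr_negr, h.xm]; ring
  · rw [c2, cr_negr, cr_swap', h.lx]
    linear_combination F * hs
  · rw [c2, cr_negr, h.Ul]; ring
  · rw [c3, cr_negl, cr_swap', h.Um]
    ring
  · rw [c1]; exact h.sl
  · rw [c1]; exact h.qm
  · rw [c1]; exact h.sm
  · rw [c1]; exact h.ql
  · have := h.nc
    linarith

theorem Yng.Us (h : Yng O N r σ E F H T U x l q m s) : cr U s = 0 := by
  have hpl := cr_plucker U s l m
  rw [h.Ul, h.sl, h.lm] at hpl
  have h1 : σ * r ≠ 0 := by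
    intro e
    rcases mul_eq_zero.1 e with g | g
    · have := h.ss
      rw [g] at this
      norm_num at this
    · exact h.r0.ne' g
  have h2 : cr U s * (σ * r) = 0 := by linarith
  exact (mul_eq_zero.1 h2).resolve_right h1

theorem Yng.xs (h : Yng O N r σ E F H T U x l q m s) : cr x s * r = -(F * T) := by
  have hpl := cr_plucker x s l m
  have xl : cr x l = -(σ * F) := by rw [cr_swap', h.lx]
  rw [xl, h.sl, h.lm, h.sm] at hpl
  have hs := h.ss
  have e : σ * σ * (cr x s * r) = σ * σ * (-(F * T)) := by linear_combination -σ * hpl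
  rwa [hs, one_mul, one_mul] at e

/-- THE DEGENERATE MOVE with `m' = y m + k (U + s)` -/
theorem Yng.move (h : Yng O N r σ E F H T U x l q m s) {y k : ℤ} (hy : 0 < y)
    (hc : IsCoprime y k) (hlt : y * E < E + T) {m' : Z2} (hm' : m' = y • m + k • (U + s)) :
    ∃ s', OKC O (x - m + m', -U, l, q, m', s') ∧
      volC (x - m + m', -U, l, q, m', s') = N ∧ lat m' (U + s') = lat m (U + s) ∧
      cr s' m' = E + T - y * E ∧ cr l m' = σ * (y * r) ∧ cr U m' = y * E ∧
      cr (x - m + m') l = -(σ * (F - r + y * r)) ∧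
      cr (x - m + m') m' * r = -(k * ((E + T) * (F - r))) ∧
      cr (x - m + m') (-U) * r = E * (F - r + y * r) := by
  obtain ⟨s', k1, k2⟩ := exists_slit (U := U) (l := m) (q := s) hc hm'
  have hUs := h.Us
  have hxs := h.xs
  have hWr := h.Wr
  have hUm := h.Um
  have hUl := h.Ul
  have hsm := h.sm
  have hsl := h.sl
  have hlm := h.lm
  have hlx := h.lx
  have hxm := h.xm
  have hUm' : cr U m' = y * E := by
    rw [hm', ← hUm]
    simp only [cr, Prod.fst_add, Prod.snd_add, Prod.smul_fst, Prod.smul_snd, smul_eq_mul] at *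
    linear_combination k * hUs
  have hlm' : cr l m' = σ * (y * r) := by
    rw [hm']
    simp only [cr, Prod.fst_add, Prod.snd_add, Prod.smul_fst, Prod.smul_snd, smul_eq_mul] at *
    linear_combination y * hlm - k * hUl - k * hsl
  have hW' : cr (x - m + m') (-U) = cr U x - E + y * E := by
    rw [cr_negr, cr_addl, cr_subl, cr_swap' U x, cr_swap' U m, cr_swap' U m', hUm, hUm']
    ring
  have hEW : E < cr U x := by
    have : E * r < cr U x * r := by rw [hWr]; exact mul_lt_mul_of_pos_left h.rF (h.r0.trans h.rE)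
    exact lt_of_mul_lt_mul_right this h.r0.le
  have h0 : OKC O (x, -U, l, q, m, s) := by
    refine h.okc.basis ?_ ?_
    · rw [clo_neg_right, clo_comm]
    · rw [cr_negr, cr_swap' U x, neg_neg]; exact h.okc.1
  have hE0 : 0 < E := h.r0.trans h.rE
  obtain ⟨j1, j2⟩ := h0.degR (m' := m') (s' := s') (by rw [cr_negr, cr_swap' U l, h.Ul]; ring)
    (by rw [cr_negr, cr_swap' U m, neg_neg, hUm]; exact hE0)
    (by rw [cr_negr, cr_negr, cr_swap' U m, cr_swap' U x, neg_neg, neg_neg, hUm]; exact hEW)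
    (by rw [cr_negr, cr_swap' U m', neg_neg, hUm']; exact mul_pos hy hE0)
    (by rw [k2, hUm, hsm, hUm']; linarith)
    (by
      rw [show -U - s' = -(U + s') by abel, show -U - s = -(U + s) by abel, clo_neg_right,
        clo_neg_right]
      exact k1)
  refine ⟨s', j1, ?_, k1, ?_, hlm', hUm', ?_, ?_, ?_⟩
  · rw [j2, ← h.vol]
    simp only [volC, cr_negr]
    rw [cr_swap' U x, neg_neg]
  · rw [k2, hUm, hsm, hUm']
  · rw [cr_addl, cr_subl, cr_swap' l x, cr_swap' l m, cr_swap' l m', hlx, hlm, hlm']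
    ring
  · have e : cr (x - m + m') m' = k * (cr x s - cr U x + E + T) := by
      rw [← hUm, ← hsm, hm']
      simp only [cr, Prod.fst_add, Prod.snd_add, Prod.fst_sub, Prod.snd_sub, Prod.smul_fst,
        Prod.smul_snd, smul_eq_mul] at hxm ⊢
      linear_combination y * hxm
    rw [e]
    linear_combination k * hxs - k * hWr
  · rw [hW']
    linear_combination hWr

/-- `n1` is an integer, or the geometry is bounded -/
theorem Yng.n1 (h : Yng O N r σ E F H T U x l q m s) (hm : RMin O N r) (hco : Coarse O N K)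
    (hK : 0 < K) : (∃ n1, n1 * (E * r) = (E + T) * (F - r)) ∨ N ≤ K ^ 2 * r := by
  have hr0 := h.r0
  have hE0 : 0 < E := hr0.trans h.rE
  have hT0 := h.T0
  obtain ⟨s', j1, j2, -, -, j3, j4, j5, j6, j7⟩ := h.move (y := 1) (k := 1) one_pos
    isCoprime_one_left (by linarith) rfl
  set m' : Z2 := (1 : ℤ) • m + (1 : ℤ) • (U + s) with hm'
  rw [one_mul] at j3 j4 j5 j6 j7
  have hB : cr (x - m + m') (-U) = cr U (x - m + m') := by
    rw [cr_negr, cr_swap' U, neg_neg]
  have hbas : AddSubgroup.closure ({U, x - m + m'} : Set Z2) =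
      AddSubgroup.closure {x - m + m', -U} := by
    rw [clo_neg_right, clo_comm]
  have hok : OKC O (U, x - m + m', l, q, m', s') :=
    j1.basis hbas (by rw [← hB]; exact j1.1)
  have hvol : volC (U, x - m + m', l, q, m', s') = N := by
    rw [← j2]
    simp only [volC, hB]
  have habs : |cr l m'| = r := by rw [j3, abs_mul, h.sa, one_mul, abs_of_pos hr0]
  have hWE : E < cr U (x - m + m') := by
    rw [hB] at j7
    have : E * r < cr U (x - m + m') * r := by
      rw [j7]
      have := h.rF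
      exact mul_lt_mul_of_pos_left (by linarith) hE0
    exact lt_of_mul_lt_mul_right this hr0.le
  have hBig : Big (AddSubgroup.closure {U, x - m + m'}) (cr U (x - m + m')) l m' := by
    refine Or.inr (Or.inr (Or.inr ⟨U, AddSubgroup.subset_closure (by simp), h.Ul, ?_, ?_⟩))
    · rw [abs_cr_comm, habs, j4, abs_of_pos hE0]; exact h.rE
    · rw [j4, abs_of_pos hE0]; exact hWE.le
  obtain ⟨q1, s1, hR, -⟩ := hm.toRect hok hvol habs hBig
  have hg : r ≤ Int.gcd E (cr (x - m + m') m') := by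
    have := hR.gm.gcd_le (Or.inl (by rw [j4]; exact hE0.ne'))
    rwa [habs, j4] at this
  by_cases hd : E ∣ cr (x - m + m') m'
  · left
    obtain ⟨n, hn⟩ := hd
    refine ⟨-n, ?_⟩
    rw [hn] at j6
    linear_combination -j6
  · right
    refine hco.row hK hok hvol (F := F) h.sgn hr0 j3 h.Ul j4 ?_ h.rE h.rF.le hg hd
    rw [cr_swap', j5]
    ring

/-- `n2` is an integer, or the geometry is bounded -/
theorem Yng.n2 (h : Yng O N r σ E F H T U x l q m s) (hm : RMin O N r) (hco : Coarse O N K)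
    (hK : 0 < K) : (∃ n2, n2 * (F * r) = (F + H) * (E - r)) ∨ N ≤ K ^ 2 * r :=
  h.rev.n1 hm hco hK

/-- a large side -/
theorem Yng.large (h : Yng O N r σ E F H T U x l q m s) {n1 : ℤ}
    (h1 : n1 * (E * r) = (E + T) * (F - r)) (hK : 0 < K) (hKE : N ≤ K * E) :
    N ≤ (K ^ 2 + 2 * K) * r := by
  have hr0 := h.r0
  have hE0 : 0 < E := hr0.trans h.rE
  have hT0 := h.T0
  have hH0 := h.H0
  have hW := h.okc.1
  have hN := h.volN
  have hN0 : 0 < N := by linarith
  have hEr := sub_pos.2 h.rE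
  have hFr := sub_pos.2 h.rF
  have hn : 0 < n1 := by
    have : 0 < n1 * (E * r) := by rw [h1]; exact mul_pos (by linarith) hFr
    exact (pos_iff_pos_of_mul_pos this).2 (mul_pos hE0 hr0)
  have a1 : E * r ≤ (E + T) * (F - r) := by
    rw [← h1]
    have := mul_pos hE0 hr0
    nlinarith
  have a2 : (E - r) * (F - r) ≤ r * r := by
    have := h.nc
    linarith
  -- E r (E - r) ≤ (E + T) r r
  have a3 : E * r * (E - r) ≤ (E + T) * (r * r) := by
    calc E * r * (E - r) ≤ (E + T) * (F - r) * (E - r) := mul_le_mul_of_nonneg_right a1 hEr.le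
      _ = (E + T) * ((E - r) * (F - r)) := by ring
      _ ≤ (E + T) * (r * r) := mul_le_mul_of_nonneg_left a2 (by linarith)
  have a4 : E * (E - 2 * r) ≤ N * r := by
    have : (E * (E - 2 * r)) * r ≤ (N * r) * r := by
      have : T * (r * r) ≤ N * (r * r) :=
        mul_le_mul_of_nonneg_right (by linarith) (mul_pos hr0 hr0).le
      nlinarith
    exact le_of_mul_le_mul_right this hr0
  by_cases hs : N ≤ 2 * K * r
  · have : 0 ≤ K ^ 2 * r := by positivity
    nlinarith
  push Not at hs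
  -- N (N - 2 K r) ≤ K^2 N r
  have a5 : N - 2 * K * r ≤ K * (E - 2 * r) := by linarith
  have a6 : N * (N - 2 * K * r) ≤ (K * E) * (K * (E - 2 * r)) :=
    mul_le_mul hKE a5 (by linarith) (hN0.le.trans hKE)
  have a7 : (K * E) * (K * (E - 2 * r)) ≤ K ^ 2 * (N * r) := by
    have := mul_le_mul_of_nonneg_left a4 (sq_nonneg K)
    calc (K * E) * (K * (E - 2 * r)) = K ^ 2 * (E * (E - 2 * r)) := by ring
      _ ≤ K ^ 2 * (N * r) := this
  have a8 : N * (N - 2 * K * r) ≤ N * (K ^ 2 * r) := by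
    calc N * (N - 2 * K * r) ≤ K ^ 2 * (N * r) := a6.trans a7
      _ = N * (K ^ 2 * r) := by ring
  have := le_of_mul_le_mul_left a8 hN0
  linarith

end

end Pool.Agent.H4G.Six
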