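import Pool.Agent.H4G.Six.TheoremB

/-!
# Theorem B of helper58, the case of a rectangle without centre (typed by helper95)

`Yng.bound`: the lattice is `⟨(η, 0), (0, ζ)⟩`, the handle `T` is the larger one.
-/

set_option autoImplicit false

namespace Pool.Agent.H4G.Six

open Pool.Agent.H4G

variable {X : Type} {O : PO X} {N r sg E F H T K J n1 n2 : ℤ} {U x u v l q m s z : Z2}

/-- the second content -/
theorem Coarse.contM (h : Coarse O N K) (hT : Has6 O (u, v, l, q, m, s))
    (hN : vol6 (u, v, l, q, m, s) = N) : N ≤ K * ct u m s := by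
  have := h _ _ _ _ _ _ hT.swap (vol6_swap.trans hN)
  unfold ct at *
  rwa [cr_negl, cr_negr, neg_neg, cr_negl, cr_negr, neg_neg] at this

/-- a centre of a configuration and its contents -/
theorem Coarse.cen (h : Coarse O N K) (hC : OKC O (U, x, l, q, m, s))
    (hN : volC (U, x, l, q, m, s) = N) {i j : ℤ} (hij : IsCoprime i j)
    (hz : z = i • U + j • x) (h1 : 0 < cr z l) (h2 : 0 < cr z m)
    (h3 : cr z l + cr z m < cr U x) :
    N ≤ K * Int.gcd (cr z l) (cr z q) ∧ N ≤ K * Int.gcd (cr z m) (cr z s) := by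
  obtain ⟨x', k1, k2, k3⟩ := hC.recenter hij hz
  have hT := k3.center h1 h2 (by rw [k2]; exact h3)
  have hV : vol6 (z, x' - l - m, l, q, m, s) = N := by
    rw [← hN]
    simp only [vol6, volC]
    rw [← k2]
    simp only [cr, Prod.fst_sub, Prod.snd_sub]
    ring
  exact ⟨h _ _ _ _ _ _ hT hV, h.contM hT hV⟩

/-- three centres in arithmetic progression -/
theorem three_ct {X0 Q0 a b B : ℤ} (hN : 0 < N) (hK : 0 ≤ K)
    (h0 : N ≤ K * Int.gcd X0 Q0) (h1 : N ≤ K * Int.gcd (X0 + a) (Q0 + b))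
    (h2 : N ≤ K * Int.gcd (X0 + 2 * a) (Q0 + 2 * b)) (hD : X0 * b - a * Q0 ≠ 0)
    (hB : |X0 * b - a * Q0| ≤ B) (ha : a ≠ 0) : N ^ 3 ≤ K ^ 3 * (2 * B * |a|) := by
  obtain ⟨c0, e0⟩ : ∃ n : ℕ, n = Int.gcd X0 Q0 := ⟨_, rfl⟩
  obtain ⟨c1, e1⟩ : ∃ n : ℕ, n = Int.gcd (X0 + a) (Q0 + b) := ⟨_, rfl⟩
  obtain ⟨c2, e2⟩ : ∃ n : ℕ, n = Int.gcd (X0 + 2 * a) (Q0 + 2 * b) := ⟨_, rfl⟩
  obtain ⟨D, hDD⟩ : ∃ D : ℤ, D = X0 * b - a * Q0 := ⟨_, rfl⟩
  rw [← e0] at h0
  rw [← e1] at h1
  rw [← e2] at h2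
  rw [← hDD] at hD hB
  have p0 : (c0 : ℤ) ∣ X0 := by rw [e0]; exact Int.gcd_dvd_left ..
  have q0 : (c0 : ℤ) ∣ Q0 := by rw [e0]; exact Int.gcd_dvd_right ..
  have p1 : (c1 : ℤ) ∣ X0 + a := by rw [e1]; exact Int.gcd_dvd_left ..
  have q1 : (c1 : ℤ) ∣ Q0 + b := by rw [e1]; exact Int.gcd_dvd_right ..
  have p2 : (c2 : ℤ) ∣ X0 + 2 * a := by rw [e2]; exact Int.gcd_dvd_left ..
  have q2 : (c2 : ℤ) ∣ Q0 + 2 * b := by rw [e2]; exact Int.gcd_dvd_right ..
  have d01 : (c1 : ℤ) * c0 ∣ D := by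
    have : D = (Q0 + b) * X0 - (X0 + a) * Q0 := by rw [hDD]; ring
    rw [this]
    exact dvd_sub (mul_dvd_mul q1 p0) (mul_dvd_mul p1 q0)
  have d12 : (c1 : ℤ) * c2 ∣ D := by
    have : D = (X0 + a) * (Q0 + 2 * b) - (Q0 + b) * (X0 + 2 * a) := by rw [hDD]; ring
    rw [this]
    exact dvd_sub (mul_dvd_mul p1 q2) (mul_dvd_mul q1 p2)
  have c1p : (0 : ℤ) < c1 := by
    rcases Nat.eq_zero_or_pos c1 with g | g
    · rw [g] at h1
      simp at h1
      linarith
    · exact_mod_cast g
  obtain ⟨D', hD'⟩ := (Dvd.intro _ rfl : (c1 : ℤ) ∣ c1 * c0).trans d01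
  rw [hD'] at d01 d12
  have f0 : (c0 : ℤ) ∣ D' := (mul_dvd_mul_iff_left c1p.ne').1 d01
  have f2 : (c2 : ℤ) ∣ D' := (mul_dvd_mul_iff_left c1p.ne').1 d12
  have f3 : ((Nat.lcm c0 c2 : ℕ) : ℤ) ∣ D' := by
    have g0 : c0 ∣ D'.natAbs := Int.natCast_dvd.1 f0
    have g2 : c2 ∣ D'.natAbs := Int.natCast_dvd.1 f2
    exact Int.natCast_dvd.2 (Nat.lcm_dvd g0 g2)
  have f4 : ((Nat.gcd c0 c2 : ℕ) : ℤ) ∣ 2 * a := by
    have g0 : ((Nat.gcd c0 c2 : ℕ) : ℤ) ∣ X0 :=
      (Int.natCast_dvd_natCast.2 (Nat.gcd_dvd_left _ _)).trans p0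
    have g2 : ((Nat.gcd c0 c2 : ℕ) : ℤ) ∣ X0 + 2 * a :=
      (Int.natCast_dvd_natCast.2 (Nat.gcd_dvd_right _ _)).trans p2
    have := dvd_sub g2 g0
    rwa [add_sub_cancel_left] at this
  have f5 : ((Nat.gcd c0 c2 : ℕ) : ℤ) * (Nat.lcm c0 c2 : ℕ) = c0 * c2 := by
    exact_mod_cast Nat.gcd_mul_lcm c0 c2
  have f6 : ((Nat.gcd c0 c2 : ℕ) : ℤ) ≤ 2 * |a| := by
    have := Int.le_of_dvd (by positivity) ((dvd_abs _ _).2 f4)
    rwa [abs_mul, abs_two] at this
  have f7 : (c1 : ℤ) * (Nat.lcm c0 c2 : ℕ) ≤ |D| := by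
    refine Int.le_of_dvd (abs_pos.2 hD) ((dvd_abs _ _).2 ?_)
    rw [hD']
    exact mul_dvd_mul_left _ f3
  have f8 : N ^ 3 ≤ K ^ 3 * ((c1 : ℤ) * (c0 * c2)) := by
    have g1 : N * N ≤ (K * c0) * (K * c2) := mul_le_mul h0 h2 hN.le (by positivity)
    have g2 : N * (N * N) ≤ (K * c1) * ((K * c0) * (K * c2)) :=
      mul_le_mul h1 g1 (by positivity) (by positivity)
    calc N ^ 3 = N * (N * N) := by ring
      _ ≤ _ := g2
      _ = _ := by ring
  have f9 : (c1 : ℤ) * (c0 * c2) ≤ 2 * B * |a| := by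
    calc (c1 : ℤ) * (c0 * c2) = (c1 * (Nat.lcm c0 c2 : ℕ)) * (Nat.gcd c0 c2 : ℕ) := by
          rw [← f5]; ring
      _ ≤ |D| * (2 * |a|) := mul_le_mul f7 f6 (by positivity) (abs_nonneg _)
      _ ≤ B * (2 * |a|) := mul_le_mul_of_nonneg_right hB (by positivity)
      _ = 2 * B * |a| := by ring
  exact f8.trans (mul_le_mul_of_nonneg_left f9 (by positivity))

/-- the degenerate move, `m' = y m + k (U + s)` -/
theorem Yng.move95 (h : Yng O N r sg E F H T U x l q m s)
    (hn1 : n1 * (E * r) = (E + T) * (F - r)) {y k : ℤ} (hyk : IsCoprime y k) (hy : 0 < y)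
    (hyT : y * E < E + T) :
    ∃ A m' s', OKC O (A, -U, l, q, m', s') ∧ volC (A, -U, l, q, m', s') = N ∧
      cr l m' = sg * (y * r) ∧ cr A l = -(sg * (F - r + y * r)) ∧ cr A m' = -(k * n1 * E) ∧
      cr U m' = y * E ∧ cr s' m' = E + T - y * E ∧ cr A (-U) * r = E * (F - r + y * r) := by
  obtain ⟨hC, hV, hsg, r0, lm, Ul, Um, xm, lx, qm, sl, ql, sm, rE, rF, -⟩ := h
  have ss : sg * sg = 1 := by rcases hsg with rfl | rfl <;> norm_num
  have sg0 : sg ≠ 0 := by rintro rfl; norm_num at ss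
  have lm0 : cr l m ≠ 0 := by rw [lm]; exact mul_ne_zero sg0 r0.ne'
  have lU : cr l U = 0 := by rw [cr_swap', Ul, neg_zero]
  have ls : cr l s = 0 := by rw [cr_swap', sl, neg_zero]
  have Us : cr U s = 0 := by
    have e := lm_cross l m U s
    rw [ls, lU] at e
    simp only [mul_zero, zero_mul, sub_zero] at e
    exact (mul_eq_zero.1 e).resolve_left lm0
  have xs : r * cr x s = -(F * T) := by
    have e := lm_cross l m x s
    rw [xm, lx, lm, sm] at e
    have e2 : sg * (r * cr x s) = sg * (-(F * T)) := by linear_combination e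
    exact mul_left_cancel₀ sg0 e2
  have W : cr U x * r = E * F := by
    have e := cr_plucker U x l m
    rw [Ul, cr_swap' l x, lx, Um, lm] at e
    have e2 : sg * (cr U x * r) = sg * (E * F) := by linear_combination -e
    exact mul_left_cancel₀ sg0 e2
  have EW : E < cr U x := by nlinarith
  obtain ⟨m', hm'⟩ : ∃ m' : Z2, m' = y • m + k • (U + s) := ⟨_, rfl⟩
  obtain ⟨s', k1, k2⟩ := exists_slit hyk hm'
  have Um' : cr U m' = y * E := by
    rw [hm']
    have : cr U (y • m + k • (U + s)) = y * cr U m + k * cr U s := by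
      simp only [cr, Prod.fst_add, Prod.snd_add, Prod.smul_fst, Prod.smul_snd, smul_eq_mul]; ring
    rw [this, Um, Us]; ring
  rw [Um, sm, Um'] at k2
  have hb : OKC O (x, -U, l, q, m, s) := by
    refine hC.basis ?_ ?_
    · rw [clo_neg_right, clo_comm]
    · rw [cr_negr, cr_swap' U x, neg_neg]; exact hC.1
  have mU : cr m (-U) = E := by rw [cr_negr, cr_swap' U m, neg_neg, Um]
  have xU : cr x (-U) = cr U x := by rw [cr_negr, cr_swap' U x, neg_neg]
  have m'U : cr m' (-U) = y * E := by rw [cr_negr, cr_swap' U m', neg_neg, Um']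
  obtain ⟨j1, j2⟩ := hb.degR (m' := m') (s' := s') (by rw [cr_negr, lU, neg_zero])
    (by rw [mU]; linarith) (by rw [mU, xU]; exact EW) (by rw [m'U]; nlinarith)
    (by rw [k2]; linarith) (by
      have e1 : ∀ a b : Z2, AddSubgroup.closure ({a, -U - b} : Set Z2) = lat a (U + b) := by
        intro a b
        rw [show -U - b = -(U + b) by abel, clo_neg_right]
      rw [e1, e1, k1])
  have lm' : cr l m' = sg * (y * r) := by
    rw [hm']
    have : cr l (y • m + k • (U + s)) = y * cr l m + k * (cr l U + cr l s) := by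
      simp only [cr, Prod.fst_add, Prod.snd_add, Prod.smul_fst, Prod.smul_snd, smul_eq_mul]; ring
    rw [this, lm, lU, ls]; ring
  refine ⟨x - m + m', m', s', j1, j2.trans ?_, lm', ?_, ?_, Um', k2, ?_⟩
  · rw [← hV]
    simp only [volC]
    rw [xU]
  · have : cr (x - m + m') l = -cr l x + cr l m - cr l m' := by
      simp only [cr, Prod.fst_add, Prod.snd_add, Prod.fst_sub, Prod.snd_sub]; ring
    rw [this, lx, lm, lm']; ring
  · have e1 : cr (x - m + m') m' = y * cr x m + k * (-cr U x + cr x s + cr U m + cr s m) := by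
      have : cr (x - m + m') m' = cr x m' - cr m m' := by
        simp only [cr, Prod.fst_add, Prod.snd_add, Prod.fst_sub, Prod.snd_sub]; ring
      rw [this, hm']
      simp only [cr, Prod.fst_add, Prod.snd_add, Prod.smul_fst, Prod.smul_snd, smul_eq_mul]; ring
    rw [e1, xm, Um, sm]
    have e2 : r * (y * 0 + k * (-cr U x + cr x s + E + T)) = r * -(k * n1 * E) := by
      linear_combination -k * W + k * xs + k * hn1
    exact mul_left_cancel₀ r0.ne' e2
  · have : cr (x - m + m') (-U) = cr x (-U) - cr m (-U) + cr m' (-U) := by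
      rw [cr_addl, cr_subl]
    rw [this, mU, xU, m'U]
    linear_combination W

/-- (3d): a centre whose second content divides `E` -/
theorem Yng.caseD (h : Yng O N r sg E F H T U x l q m s) (hco : Coarse O N K) (hK : 0 ≤ K)
    (hn1 : n1 * (E * r) = (E + T) * (F - r)) {y k j : ℤ} (hk : k * n1 + j * y = sg)
    (hy : 0 < y) (hyT : y * E < E + T) (hM : r * E < (E - r) * (F - r + y * r)) :
    N ≤ K * E := by
  have r0 := h.r0
  have rE := h.rE
  have rF := h.rF
  have ss : sg * sg = 1 := by rcases h.sgn with rfl | rfl <;> norm_num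
  have hco1 : IsCoprime y k := ⟨sg * j, sg * n1, by linear_combination sg * hk + ss⟩
  obtain ⟨A, m', s', a1, a2, a3, a4, a5, a6, a7, a8⟩ := h.move95 hn1 hco1 hy hyT
  obtain ⟨w, hw⟩ : ∃ w : Z2, w = (-sg) • A + (sg * j) • U := ⟨_, rfl⟩
  obtain ⟨M, hMM⟩ : ∃ M : ℤ, M = F - r + y * r := ⟨_, rfl⟩
  rw [← hMM] at a4 a8 hM
  have M0 : 0 < M := by rw [hMM]; nlinarith
  have wl : cr w l = M := by
    have : cr w l = -sg * cr A l + sg * j * cr U l := by rw [hw, cr_zz_left]
    rw [this, a4, h.Ul]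
    linear_combination M * ss
  have wm : cr w m' = E := by
    have : cr w m' = -sg * cr A m' + sg * j * cr U m' := by rw [hw, cr_zz_left]
    rw [this, a5, a6]
    linear_combination sg * E * hk + E * ss
  have hsum : cr w l + cr w m' < cr A (-U) := by
    rw [wl, wm]
    have : (M + E) * r < cr A (-U) * r := by rw [a8]; linarith
    exact lt_of_mul_lt_mul_right this r0.le
  obtain ⟨-, c2⟩ := hco.cen a1 a2 (i := -sg) (j := -(sg * j)) (z := w)
    ⟨-sg, 0, by linear_combination ss⟩ (by rw [hw]; module) (by rw [wl]; exact M0)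
    (by rw [wm]; linarith) hsum
  rw [wm] at c2
  refine c2.trans (mul_le_mul_of_nonneg_left ?_ hK)
  exact Int.le_of_dvd (by linarith) (Int.gcd_dvd_left ..)

/-- (3e): the exit and three centres in a row -/
theorem Yng.caseE (h : Yng O N r sg E F H T U x l q m s) (hco : Coarse O N K) (hK : 0 ≤ K)
    (hn1 : n1 * (E * r) = (E + T) * (F - r)) {y k j : ℤ} (hk : k * n1 + j * y = -sg)
    (hy : 2 ≤ y) (hyT : y * E < E + T) (hE2 : E < 2 * r)
    (hH : 3 * y * (F - r + y * r) ≤ H) : N ^ 3 ≤ K ^ 3 * (2 * N ^ 2 * (y * r)) := by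
  have r0 := h.r0
  have rE := h.rE
  have rF := h.rF
  have ss : sg * sg = 1 := by rcases h.sgn with rfl | rfl <;> norm_num
  have hco1 : IsCoprime y k := ⟨-(sg * j), -(sg * n1), by linear_combination -sg * hk + ss⟩
  obtain ⟨A, m', s', a1, a2, a3, a4, a5, a6, a7, a8⟩ := h.move95 hn1 hco1 (by linarith) hyT
  obtain ⟨M, hMM⟩ : ∃ M : ℤ, M = F - r + y * r := ⟨_, rfl⟩
  rw [← hMM] at a4 a8 hH
  have yr : 2 * r ≤ y * r := mul_le_mul_of_nonneg_right hy r0.le
  have yr0 : 0 < y * r := by linarith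
  have M0 : 0 < M := by rw [hMM]; linarith
  have EM : E < M := by rw [hMM]; linarith
  obtain ⟨x3, hx3⟩ : ∃ x3 : Z2, x3 = sg • A + (sg * j) • (-U) := ⟨_, rfl⟩
  obtain ⟨U3, k1, k2⟩ := exists_basis (U := A) (x := -U) sg (sg * j)
    ⟨sg, 0, by linear_combination ss⟩
  rw [← hx3] at k1 k2
  have lx3 : cr l x3 = M := by
    have : cr l x3 = -sg * cr A l + sg * j * cr U l := by
      rw [hx3]
      simp only [cr, Prod.fst_add, Prod.snd_add, Prod.smul_fst, Prod.smul_snd, Prod.fst_neg,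
        Prod.snd_neg, smul_eq_mul]; ring
    rw [this, a4, h.Ul]
    linear_combination M * ss
  have mx3 : cr m' x3 = -E := by
    have : cr m' x3 = -sg * cr A m' + sg * j * cr U m' := by
      rw [hx3]
      simp only [cr, Prod.fst_add, Prod.snd_add, Prod.smul_fst, Prod.smul_snd, Prod.fst_neg,
        Prod.snd_neg, smul_eq_mul]; ring
    rw [this, a5, a6]
    linear_combination sg * E * hk - E * ss
  have hC3 : OKC O (U3, x3, l, q, m', s') := a1.basis k1 (by rw [k2]; exact a1.1)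
  have MW : M < cr U3 x3 := by
    rw [k2]
    have : M * r < cr A (-U) * r := by rw [a8]; nlinarith
    exact lt_of_mul_lt_mul_right this r0.le
  have hH0 : 0 < H := by have := h.okc.posQ; rwa [h.ql] at this
  have hC4 : OKC O (l, x3 - q, -m', -s', sg • x3, sg • (U3 - l)) := by
    rcases h.sgn with g | g
    · rw [g, one_smul, one_smul]
      refine hC3.exP (by rw [lx3]; exact M0) (by rw [lx3]; exact MW) (by rw [mx3]; linarith)
        (by rw [lx3, mx3]; linarith) ?_
      rw [a3, g]; linarith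
    · rw [g, neg_one_smul, neg_one_smul, neg_sub]
      refine hC3.exM (by rw [lx3]; exact M0) (by rw [lx3]; exact MW) (by rw [mx3]; linarith)
        (by rw [lx3, mx3]; linarith) ?_
      rw [a3, g]; linarith
  have ar : cr l (x3 - q) = M + H := by
    have : cr l (x3 - q) = cr l x3 + cr q l := by
      simp only [cr, Prod.fst_sub, Prod.snd_sub]; ring
    rw [this, lx3, h.ql]
  have hN3 : cr U3 x3 + H + (E + T - y * E) = N := by
    have e := a2
    simp only [volC] at e
    rw [← k2, h.ql, a7] at e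
    exact e
  have hV4 : volC (l, x3 - q, -m', -s', sg • x3, sg • (U3 - l)) = N := by
    have e1 : volC (l, x3 - q, -m', -s', sg • x3, sg • (U3 - l)) =
        cr l (x3 - q) + cr s' m' + sg * sg * (cr U3 x3 - cr l x3) := by
      simp only [volC, cr, Prod.fst_sub, Prod.snd_sub, Prod.smul_fst, Prod.smul_snd,
        Prod.fst_neg, Prod.snd_neg, smul_eq_mul]; ring
    rw [e1, ar, a7, ss, lx3, ← hN3]; ring
  obtain ⟨w, hw⟩ : ∃ w : ℤ → Z2, w = fun t => (t * sg) • l + (-1 : ℤ) • (x3 - q) := ⟨_, rfl⟩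
  have Xw : ∀ t, cr (w t) (-m') = E - cr q m' - t * (y * r) := by
    intro t
    have : cr (w t) (-m') = -(t * sg) * cr l m' - cr m' x3 - cr q m' := by
      rw [hw]
      simp only [cr, Prod.fst_add, Prod.snd_add, Prod.fst_sub, Prod.snd_sub, Prod.smul_fst,
        Prod.smul_snd, Prod.fst_neg, Prod.snd_neg, smul_eq_mul]; ring
    rw [this, a3, mx3]
    linear_combination -t * y * r * ss
  have Yw : ∀ t, cr (w t) (sg • x3) = sg * cr q x3 + t * M := by
    intro t
    have : cr (w t) (sg • x3) = sg * sg * t * cr l x3 + sg * cr q x3 := by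
      rw [hw]
      simp only [cr, Prod.fst_add, Prod.snd_add, Prod.fst_sub, Prod.snd_sub, Prod.smul_fst,
        Prod.smul_snd, smul_eq_mul]; ring
    rw [this, lx3, ss]; ring
  have idn : ∀ t, (E - cr q m' - t * (y * r)) * M + (sg * cr q x3 + t * M) * (y * r) =
      E * (M + H) := by
    intro t
    have e := cr_plucker q x3 l m'
    rw [h.ql, cr_swap' l x3, lx3, a3, cr_swap' m' x3, mx3] at e
    linear_combination -e
  have key : ∀ t, 0 < sg * cr q x3 + t * M → sg * cr q x3 + t * M ≤ 3 * M →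
      N ≤ K * Int.gcd (cr (w t) (-m')) (cr (w t) (-s')) := by
    intro t t1 t2
    obtain ⟨Xt, hXt⟩ : ∃ Xt : ℤ, Xt = E - cr q m' - t * (y * r) := ⟨_, rfl⟩
    obtain ⟨Yt, hYt⟩ : ∃ Yt : ℤ, Yt = sg * cr q x3 + t * M := ⟨_, rfl⟩
    have i1 := idn t
    rw [← hXt, ← hYt] at i1
    rw [← hYt] at t1 t2
    have x0 : 0 < Xt := by
      have e1 : Yt * (y * r) ≤ 3 * M * (y * r) := mul_le_mul_of_nonneg_right t2 yr0.le
      have e2 : 3 * M * (y * r) ≤ H * r := by
        have := mul_le_mul_of_nonneg_right hH r0.le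
        linarith
      have e3 : H * r < E * (M + H) := by nlinarith
      have e4 : 0 < Xt * M := by linarith
      exact (pos_iff_pos_of_mul_pos e4).2 M0
    have sm1 : Xt + Yt < M + H := by
      have e1 : (Xt + Yt) * (y * r) < (M + H) * E := by
        have e2 : Yt * (y * r) < E * (M + H) := by nlinarith [mul_pos x0 M0]
        have e3 : M - y * r = F - r := by rw [hMM]; ring
        have e4 : (Xt + Yt) * (y * r) * M = E * (M + H) * (y * r) + Yt * (y * r) * (F - r) := by
          rw [← e3]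
          linear_combination (y * r) * i1
        have e5 : Yt * (y * r) * (F - r) < E * (M + H) * (F - r) :=
          mul_lt_mul_of_pos_right e2 (by linarith)
        have e6 : (Xt + Yt) * (y * r) * M < (M + H) * E * M := by
          rw [e4]
          have : E * (M + H) * (y * r) + E * (M + H) * (F - r) = (M + H) * E * M := by
            rw [← e3]; ring
          linarith
        exact lt_of_mul_lt_mul_right e6 M0.le
      have e2 : (M + H) * E < (M + H) * (y * r) := mul_lt_mul_of_pos_left (by linarith)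
        (by linarith)
      exact lt_of_mul_lt_mul_right (e1.trans e2) yr0.le
    refine (hco.cen hC4 hV4 (i := t * sg) (j := -1) (z := w t) ⟨0, -1, by ring⟩ (by rw [hw])
      ?_ ?_ ?_).1
    · rw [Xw, ← hXt]; exact x0
    · rw [Yw, ← hYt]; exact t1
    · rw [Xw, Yw, ← hXt, ← hYt, ar]; exact sm1
  obtain ⟨t, ht1, ht2⟩ : ∃ t : ℤ, 0 < sg * cr q x3 + t * M ∧ sg * cr q x3 + t * M ≤ M := by
    refine ⟨-((sg * cr q x3 - 1) / M), ?_, ?_⟩
    · have g1 := Int.emod_nonneg (sg * cr q x3 - 1) M0.ne'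
      have g2 := Int.emod_add_mul_ediv (sg * cr q x3 - 1) M
      linarith
    · have g1 := Int.emod_lt_of_pos (sg * cr q x3 - 1) M0
      have g2 := Int.emod_add_mul_ediv (sg * cr q x3 - 1) M
      linarith
  have step : ∀ (n : ℤ) (b : Z2), cr (w (t + n)) b = cr (w t) b + n * (sg * cr l b) := by
    intro n b
    rw [hw]
    simp only [cr, Prod.fst_add, Prod.snd_add, Prod.fst_sub, Prod.snd_sub, Prod.smul_fst,
      Prod.smul_snd, smul_eq_mul]; ring
  have h0 := key t ht1 (by linarith)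
  have h1 := key (t + 1) (by linarith) (by linarith)
  have h2 := key (t + 2) (by linarith) (by linarith)
  rw [step, step, one_mul, one_mul] at h1
  rw [step, step] at h2
  have hD : cr (w t) (-m') * (sg * cr l (-s')) - sg * cr l (-m') * cr (w t) (-s') =
      -sg * ((M + H) * (E + T - y * E)) := by
    have e1 : cr (w t) (-m') * (sg * cr l (-s')) - sg * cr l (-m') * cr (w t) (-s') =
        -sg * (cr l (x3 - q) * cr s' m') := by
      rw [hw]
      simp only [cr, Prod.fst_add, Prod.snd_add, Prod.fst_sub, Prod.snd_sub, Prod.smul_fst,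
        Prod.smul_snd, Prod.fst_neg, Prod.snd_neg, smul_eq_mul]; ring
    rw [e1, ar, a7]
  have pos1 : 0 < M + H := by linarith
  have pos2 : 0 < E + T - y * E := by linarith
  have habs : |-sg * ((M + H) * (E + T - y * E))| = (M + H) * (E + T - y * E) := by
    rw [abs_mul, abs_of_pos (mul_pos pos1 pos2)]
    rcases h.sgn with g | g <;> rw [g] <;> norm_num
  have hN0 : 0 < N := by linarith
  have ha : sg * cr l (-m') = -(y * r) := by
    rw [cr_negr, a3]
    linear_combination -y * r * ss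
  have fin := three_ct (B := N ^ 2) hN0 hK h0 h1 h2 (by
      rw [hD]
      intro h5
      rw [h5, abs_zero] at habs
      exact absurd habs (mul_pos pos1 pos2).ne) (by
      rw [hD, habs, pow_two]
      exact mul_le_mul (by linarith) (by linarith) pos2.le hN0.le) (by rw [ha]; linarith)
  rw [ha, abs_neg, abs_of_pos yr0] at fin
  exact fin

/-- **THE YOUNG CASE of Theorem B of helper58**: a rectangle without centre, all contents at least
`N / K`, then `N ≤ K ^ 4 r`. -/
theorem Yng.bound (h : Yng O N r sg E F H T U x l q m s)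
    (hn1 : n1 * (E * r) = (E + T) * (F - r)) (hn2 : n2 * (F * r) = (F + H) * (E - r))
    (hKE : K * E < N) (hKF : K * F < N) (hHT : H ≤ T) (hco : Coarse O N K)
    (hcap : ∀ a n : ℤ, 0 < n → n ≤ N ^ 2 → ∃ y, a ≤ y ∧ y < a + J ∧ IsCoprime n y)
    (hK : 100 * (J + 2) ^ 2 ≤ K) : N ≤ K ^ 4 * r := by
  have r0 := h.r0
  have rE := h.rE
  have rF := h.rF
  have nc := h.nc
  have ss : sg * sg = 1 := by rcases h.sgn with rfl | rfl <;> norm_num
  have sg0 : sg ≠ 0 := by rintro rfl; norm_num at ss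
  have H0 : 0 < H := by have := h.okc.posQ; rwa [h.ql] at this
  have T0 : 0 < T := by have := h.okc.posS; rwa [h.sm] at this
  have hv : cr U x + H + T = N := by
    have := h.vol
    simp only [volC] at this
    rwa [h.ql, h.sm] at this
  have W : cr U x * r = E * F := by
    have e := cr_plucker U x l m
    rw [h.Ul, cr_swap' l x, h.lx, h.Um, h.lm] at e
    have e2 : sg * (cr U x * r) = sg * (E * F) := by linear_combination -e
    exact mul_left_cancel₀ sg0 e2
  have EW : E < cr U x := by nlinarith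
  have FW : F < cr U x := by nlinarith
  have WEF : cr U x ≤ E + F := by
    have : cr U x * r ≤ (E + F) * r := by rw [W]; exact nc
    exact le_of_mul_le_mul_right this r0
  have N0 : 0 < N := by linarith
  have J1 : 1 ≤ J := by
    obtain ⟨y, y1, y2, -⟩ := hcap 0 1 one_pos (by nlinarith)
    linarith
  have K0 : 900 ≤ K := by nlinarith
  have n10 : 0 < n1 := by
    have e1 : 0 < n1 * (E * r) := by
      rw [hn1]; exact mul_pos (by linarith) (by linarith)
    exact (pos_iff_pos_of_mul_pos e1).2 (mul_pos (by linarith) r0)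
  have n1N : n1 ≤ N ^ 2 := by
    have e1 : n1 * 1 ≤ n1 * (E * r) := mul_le_mul_of_nonneg_left (by nlinarith) n10.le
    have e2 : (E + T) * (F - r) ≤ N * N := mul_le_mul (by linarith) (by linarith) (by linarith)
      N0.le
    rw [hn1] at e1
    nlinarith
  have hT : (K - 2) * N < 2 * K * T := by
    have e1 : K * N ≤ K * (E + F) + 2 * K * T := by
      have : N ≤ (E + F) + 2 * T := by linarith
      have := mul_le_mul_of_nonneg_left this (by linarith : (0 : ℤ) ≤ K)
      linarith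
    linarith
  have hyT : ∀ y : ℤ, 1 ≤ y → 2 * (y - 1) ≤ K - 2 → y * E < E + T := by
    intro y y1 y2
    have e1 : (y - 1) * (K * E) ≤ (y - 1) * N := mul_le_mul_of_nonneg_left hKE.le (by linarith)
    have e2 : 2 * (y - 1) * N ≤ (K - 2) * N := mul_le_mul_of_nonneg_right y2 N0.le
    have e3 : (2 * K) * ((y - 1) * E) < (2 * K) * T := by linarith
    have := lt_of_mul_lt_mul_left e3 (by linarith)
    linarith
  obtain ⟨P, hP⟩ : ∃ P : ℤ, P = 3 * (J + 2) ^ 2 + 1 := ⟨_, rfl⟩
  have P1 : 28 ≤ P := by nlinarith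
  by_cases hc : r ≤ P * (E - r)
  · exfalso
    obtain ⟨y, y1, y2, a, b, hab⟩ := hcap (P + 2) n1 n10 n1N
    have yK : 2 * (y - 1) ≤ K - 2 := by nlinarith
    have hfin := h.caseD hco (by linarith) hn1 (y := y) (k := sg * a) (j := sg * b)
      (by linear_combination sg * hab) (by linarith) (hyT y (by linarith) yK) (by
      have e1 : (P + 2) * r ≤ y * r := mul_le_mul_of_nonneg_right y1 r0.le
      have e2 : (E - r) * ((P + 2) * r) < (E - r) * (F - r + y * r) :=
        mul_lt_mul_of_pos_left (by linarith) (by linarith)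
      have e3 : r * r ≤ r * (P * (E - r)) := mul_le_mul_of_nonneg_left hc r0.le
      nlinarith)
    linarith
  · push Not at hc
    have n20 : 0 < n2 := by
      have e1 : 0 < n2 * (F * r) := by
        rw [hn2]; exact mul_pos (by linarith) (by linarith)
      exact (pos_iff_pos_of_mul_pos e1).2 (mul_pos (by linarith) r0)
    have hH : P * F < F + H := by
      have e1 : 1 * (F * r) ≤ n2 * (F * r) := mul_le_mul_of_nonneg_right (by linarith)
        (mul_pos (by linarith) r0).le
      rw [hn2] at e1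
      have e2 : P * (F * r) ≤ P * ((F + H) * (E - r)) :=
        mul_le_mul_of_nonneg_left (by linarith) (by linarith)
      have e3 : (F + H) * (P * (E - r)) < (F + H) * r := mul_lt_mul_of_pos_left hc (by linarith)
      have e4 : (P * F) * r < (F + H) * r := by linarith
      exact lt_of_mul_lt_mul_right e4 r0.le
    obtain ⟨y, y1, y2, a, b, hab⟩ := hcap 2 n1 n10 n1N
    have yK : 2 * (y - 1) ≤ K - 2 := by nlinarith
    have hfin := h.caseE hco (by linarith) hn1 (y := y) (k := -sg * a) (j := -sg * b)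
      (by linear_combination -sg * hab) y1 (hyT y (by linarith) yK) (by nlinarith) (by
      have e1 : F - r + y * r ≤ y * F := by nlinarith
      have e2 : 3 * y * (F - r + y * r) ≤ 3 * y * (y * F) :=
        mul_le_mul_of_nonneg_left e1 (by linarith)
      have e3 : y * y ≤ (J + 2) * (J + 2) := mul_le_mul (by linarith) (by linarith) (by linarith)
        (by linarith)
      have e4 : y * y * F ≤ (J + 2) * (J + 2) * F := mul_le_mul_of_nonneg_right e3 (by linarith)
      rw [hP] at hH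
      nlinarith)
    have e1 : N ^ 2 * N ≤ N ^ 2 * (2 * K ^ 3 * (y * r)) := by
      calc N ^ 2 * N = N ^ 3 := by ring
        _ ≤ _ := hfin
        _ = _ := by ring
    have e2 : N ≤ 2 * K ^ 3 * (y * r) := le_of_mul_le_mul_left e1 (by positivity)
    have e3 : 2 * y ≤ K := by nlinarith
    calc N ≤ 2 * K ^ 3 * (y * r) := e2
      _ = K ^ 3 * r * (2 * y) := by ring
      _ ≤ K ^ 3 * r * K := mul_le_mul_of_nonneg_left e3 (by positivity)
      _ = K ^ 4 * r := by ring

theorem yngMain (hco : Coarse O N K)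
    (hcap : ∀ a n : ℤ, 0 < n → n ≤ N ^ 2 → ∃ y, a ≤ y ∧ y < a + J ∧ IsCoprime n y)
    (hK : 100 * (J + 2) ^ 2 ≤ K) : YngMain O N K r :=
  fun _ _ _ _ _ _ _ _ _ _ _ _ _ h h1 h2 h3 h4 h5 => h.bound h1 h2 h3 h4 h5 hco hcap hK

/-- **THEOREM B of helper58**: if all contents of all trees are at least `N / K`, the least good
configuration has `N ≤ K ^ 4 r`. -/
theorem theoremB_cap (hm : RMin O N r) (hco : Coarse O N K)
    (hcap : ∀ a n : ℤ, 0 < n → n ≤ N ^ 2 → ∃ y, a ≤ y ∧ y < a + J ∧ IsCoprime n y)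
    (hK : 100 * (J + 2) ^ 2 ≤ K) : N ≤ K ^ 4 * r := by
  obtain ⟨U, x, l, q, m, s, h1, h2, -, -⟩ := hm.conf
  have hN : 0 < N := h1.1.trans (volC_pos h1 h2)
  have J1 : 1 ≤ J := by
    obtain ⟨y, y1, y2, -⟩ := hcap 0 1 one_pos (by nlinarith)
    linarith
  exact theoremB hm hco (by nlinarith) (yngMain hco hcap hK)

end Pool.Agent.H4G.Six
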